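import Pool.Agent.Lib.NIL.Blue2

/-! The ends of the edges of a forest away from the base points. -/

noncomputable section

namespace Pool.Agent.Lib.NIL

open Finsupp

namespace FAR

open Classical

variable {G O X : Type} [Group G] [MulAction G O] [MulAction G X] (F : Forest G O X)

theorem pair {v : X} (hv : ¬ F.ed v) (f : X → ℤ) :
    ∑ t ∈ (F.s0 v).support, F.s0 v t * (f (F.d1 t) - f (F.d0 t)) = f v - f (F.b (F.π v)) := by
  have h := congrArg (linearCombination ℤ f) (F.bd_s0 v hv)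
  simp only [map_sub, linearCombination_mapDomain, linearCombination_single, one_smul] at h
  rw [← h, linearCombination_apply, linearCombination_apply, Finsupp.sum, Finsupp.sum,
    ← Finset.sum_sub_distrib]
  exact Finset.sum_congr rfl fun t _ => mul_sub _ _ _

theorem pair1 {v : X} (hv : ¬ F.ed v) (e : X) (f : X → ℤ)
    (hf : ∀ t, F.ed t → t ≠ e → f (F.d1 t) = f (F.d0 t)) :
    F.s0 v e * (f (F.d1 e) - f (F.d0 e)) = f v - f (F.b (F.π v)) := by
  rw [← pair F hv f, Finset.sum_eq_single e]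
  · intro t ht hne
    rw [hf t (F.s0_supp v t (mem_support_iff.1 ht)).2.1 hne, sub_self, mul_zero]
  · intro h
    rw [notMem_support_iff.1 h, zero_mul]

theorem step {t : X} (ht : F.ed t) (e : X) :
    F.s0 (F.d1 t) e = F.s0 (F.d0 t) e + if t = e then 1 else 0 := by
  have h := DFunLike.congr_fun (F.s0_bd t ht) e
  rw [Finsupp.sub_apply, single_apply] at h
  omega

theorem two {e : X} (he : F.ed e) : F.s0 (F.d0 e) e = 0 ∨ F.s0 (F.d0 e) e = -1 := by
  have h := pair1 F (F.ed_d0 e) e (fun x => if F.s0 x e = F.s0 (F.d0 e) e + 1 then 1 else 0)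
    fun t ht hne => by simp only [step F ht e, if_neg hne, add_zero]
  simp only [step F he e, if_true, F.s0_b, Finsupp.zero_apply] at h
  split_ifs at h <;> omega

/-- the end away from the base point -/
def fl (e : {e : X // F.ed e}) : F.Fl := (e, decide (F.s0 (F.d0 e.1) e.1 = 0))

theorem cases (e : {e : X // F.ed e}) :
    (F.far (fl F e) = F.d1 e.1 ∧ F.near (fl F e) = F.d0 e.1 ∧ F.s0 (F.d0 e.1) e.1 = 0 ∧
      F.s0 (F.d1 e.1) e.1 = 1) ∨ F.far (fl F e) = F.d0 e.1 ∧ F.near (fl F e) = F.d1 e.1 ∧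
      F.s0 (F.d0 e.1) e.1 = -1 ∧ F.s0 (F.d1 e.1) e.1 = 0 := by
  have h1 := step F e.2 e.1
  rw [if_pos rfl] at h1
  rcases two F e.2 with h | h
  · exact .inl ⟨by simp [Forest.far, fl, h], by simp [Forest.near, fl, h], h, by omega⟩
  · exact .inr ⟨by simp [Forest.far, fl, h], by simp [Forest.near, fl, h], h, by omega⟩

theorem s0_far (e : {e : X // F.ed e}) : F.s0 (F.far (fl F e)) e.1 ≠ 0 := by
  rcases cases F e with ⟨h, -, h1, h2⟩ | ⟨h, -, h1, h2⟩ <;> rw [h] <;> omega

theorem term (v : X) (e : {e : X // F.ed e}) :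
    F.s0 v e.1 * ((if F.d1 e.1 = v then 1 else 0) - if F.d0 e.1 = v then 1 else 0) =
      if F.far (fl F e) = v then 1 else 0 := by
  rcases cases F e with ⟨h, -, h1, h2⟩ | ⟨h, -, h1, h2⟩ <;> rw [h] <;>
    split_ifs with h3 h4 h4 <;> simp_all

theorem count {v : X} (hv : ¬ F.ed v) (hb : v ≠ F.b (F.π v)) :
    ∑ t ∈ (F.s0 v).support, (if ∃ h, F.far (fl F ⟨t, h⟩) = v then (1 : ℤ) else 0) = 1 := by
  have h := pair F hv fun x => if x = v then 1 else 0
  rw [if_pos rfl, if_neg hb.symm, sub_zero] at h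
  refine Eq.trans (Finset.sum_congr rfl fun t ht => ?_) h
  have he := (F.s0_supp v t (mem_support_iff.1 ht)).2.1
  rw [term F v ⟨t, he⟩]
  simp only [he, exists_true_left]

theorem root : F.Root (fl F) fun v => (F.s0 v).support.card where
  edge _ := rfl
  ne_b e o h := s0_far F e (by rw [h, F.s0_b]; rfl)
  inj e e' h := by
    by_contra hne
    have hv : ¬ F.ed (F.far (fl F e)) := (F.s0_supp _ _ (s0_far F e)).1
    have h1 := count F hv fun h2 => s0_far F e (by rw [h2, F.s0_b]; rfl)
    have h2 := Finset.sum_le_sum_of_subset_of_nonneg (s := {e.1, e'.1})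
      (t := (F.s0 (F.far (fl F e))).support)
      (f := fun t => if ∃ h, F.far (fl F ⟨t, h⟩) = F.far (fl F e) then (1 : ℤ) else 0)
      (Finset.insert_subset (mem_support_iff.2 (s0_far F e))
        (Finset.singleton_subset_iff.2 (mem_support_iff.2 (h ▸ s0_far F e'))))
      fun _ _ _ => by split_ifs <;> decide
    rw [h1, Finset.sum_pair fun h3 => hne (Subtype.ext h3), if_pos ⟨e.2, rfl⟩,
      if_pos ⟨e'.2, h.symm⟩] at h2
    omega
  surj v hv hb := by
    by_contra h
    have h1 := count F hv hb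
    rw [Finset.sum_eq_zero fun t _ => if_neg fun ⟨h2, h3⟩ => h ⟨_, h3⟩] at h1
    omega
  ht_lt e := by
    refine Finset.card_lt_card ⟨fun t ht => ?_, fun h => ?_⟩
    · rw [mem_support_iff] at ht ⊢
      by_cases h : e.1 = t
      · exact h ▸ s0_far F e
      · have h1 := step F e.2 t
        rw [if_neg h, add_zero] at h1
        rcases cases F e with ⟨h2, h3, -⟩ | ⟨h2, h3, -⟩ <;> rw [h2] <;> rw [h3] at ht <;> omega
    · have h1 := mem_support_iff.1 (h (mem_support_iff.2 (s0_far F e)))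
      rcases cases F e with ⟨-, h3, h4, h5⟩ | ⟨-, h3, h4, h5⟩ <;> rw [h3] at h1 <;> omega
  s0_far := s0_far F
  smul g e h := by
    have h1 := pair1 F (F.ed_d0 e.1) e.1 (fun x => F.s0 (g • x) (g • e.1)) fun t ht hne => by
      simp only [← F.d0_smul, ← F.d1_smul, step F ((F.ed_smul g t).2 ht), smul_left_cancel_iff,
        if_neg hne, add_zero]
    simp only [← F.d0_smul, ← F.d1_smul, step F ((F.ed_smul g _).2 e.2), if_true, F.π_d0, h,
      add_sub_cancel_left, mul_one, sub_zero] at h1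
    exact Prod.ext rfl (congrArg (fun c : ℤ => decide (c = 0)) h1.symm)

end FAR

theorem st_far : St_FAR := fun _ _ _ _ _ _ F => ⟨_, _, FAR.root F⟩

end Pool.Agent.Lib.NIL
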