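import Pool.Agent.Lib.NIL.Blue

/-! The blueprint, second part: Whitehead groups and projective modules. -/

noncomputable section

namespace Pool.Agent.Lib.NIL

open Finsupp TensorProduct Polynomial

/-- perfect complexes over `A[G]` are cellular -/
def QG (G : Type) [Group G] (A : Type) [CommRing A] : Prop :=
  ((tcat (MonoidAlgebra ℤ G) Unit).bc A).Q

/-- the same for the transport family of a `G`-set -/
def QO (G O : Type) [Group G] [MulAction G O] (A : Type) [CommRing A] : Prop :=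
  ((bcat (gfam G O)).bc A).Q

/-- idempotent matrices are stably free -/
def SFree (R : Type) [Ring R] : Prop := ∀ (n : ℕ) (e : Matrix (Fin n) (Fin n) R), e * e = e →
  ∃ k l : ℕ, KM1.MEq (Matrix.fromBlocks e 0 0 (1 : Matrix (Fin k) (Fin k) R))
    (1 : Matrix (Fin l) (Fin l) R)

def KFlat (G : Type) [Group G] : Prop :=
  ∀ n : ℕ, Subsingleton (WhDet.Wh (G × Multiplicative (Fin n → ℤ)))

/-- all subgroups are `K`-flat -/
def KF (G : Type) [Group G] : Prop :=
  ∀ (H : Type) [Group H] (f : H →* G), Function.Injective f → KFlat H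

/-- a class of groups with vanishing Nil terms -/
structure NilLike (N : ∀ (G : Type) [Group G], Prop) : Prop where
  inj : ∀ (G H : Type) [Group G] [Group H] (f : H →* G), Function.Injective f → N G → N H
  prod : ∀ (G : Type) [Group G] (n : ℕ), N G → N (G × Multiplicative (Fin n → ℤ))
  good : ∀ (G O : Type) [Group G] [MulAction G O], (∀ o : O, N (MulAction.stabilizer G o)) →
    GoodO G O

namespace Forest

variable {G O X : Type} [Group G] [MulAction G O] [MulAction G X] (F : Forest G O X)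

/-- edges with a chosen end -/
def Fl : Type := {e : X // F.ed e} × Bool

instance : MulAction G F.Fl where
  smul g f := (⟨g • f.1.1, (F.ed_smul g _).2 f.1.2⟩, f.2)
  one_smul _ := Prod.ext (Subtype.ext (one_smul _ _)) rfl
  mul_smul _ _ _ := Prod.ext (Subtype.ext (mul_smul _ _ _)) rfl

theorem Fl.smul_edge (g : G) (f : F.Fl) : (g • f).1.1 = g • f.1.1 := rfl

theorem Fl.smul_side (g : G) (f : F.Fl) : (g • f).2 = f.2 := rfl

/-- the chosen end -/
def far (f : F.Fl) : X := bif f.2 then F.d1 f.1.1 else F.d0 f.1.1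

/-- the other end -/
def near (f : F.Fl) : X := bif f.2 then F.d0 f.1.1 else F.d1 f.1.1

/-- the ends away from the base points -/
structure Root (fl : {e : X // F.ed e} → F.Fl) (ht : X → ℕ) : Prop where
  edge : ∀ e, (fl e).1 = e
  ne_b : ∀ e o, F.far (fl e) ≠ F.b o
  inj : ∀ e e', F.far (fl e) = F.far (fl e') → e = e'
  surj : ∀ v, ¬ F.ed v → v ≠ F.b (F.π v) → ∃ e, F.far (fl e) = v
  ht_lt : ∀ e, ht (F.near (fl e)) < ht (F.far (fl e))
  s0_far : ∀ e, F.s0 (F.far (fl e)) e.1 ≠ 0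
  smul : ∀ (g : G) e, F.s0 (g • F.b (F.π e.1)) (g • e.1) = 0 → fl (g • fl e).1 = g • fl e

end Forest

/-- the endomorphism system of the kernel of the localisation attached to a tree -/
structure TPk {G X E'' Λ'' : Type} [Group G] [MulAction G X] [Ring E''] (F : Forest G Unit X)
    (S'' : Sys (MonoidAlgebra ℤ G) E'' Λ'' F.Fl) (Bm : BM E'' F.Fl (MonoidAlgebra ℤ G) X Bool)
    (ent : Bool → Bool → E'' →+ MonoidAlgebra ℤ G) : Prop where
  sys : S''.IsSys (gfam G F.Fl) 1
  loc : Loc (tcat (MonoidAlgebra ℤ G) Unit) (bcat F.gpos.T) (fun _ => ()) (S''.cat (gfam G F.Fl))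
    (bcat (gfam G F.Fl)) S''.i.toAddMonoidHom S''.aug Bm ent
  lb1 : ∀ f, Bm.lb f true = f.1.1
  lb0 : ∀ f, Bm.lb f false = F.far f
  ent_i : ∀ r b b', ent b b' (S''.i r) = if b = b' then r else 0
  ent_tt : ∀ a, ent true true a = S''.aug a
  adj : ∀ f f', F.near f = F.far f' → f.1 ≠ f'.1 → ∃ a ∈ (S''.cat (gfam G F.Fl)).H 1 f f',
    ∀ b b', ent b b' a = if b = true ∧ b' = false then 1 else 0

def St_FAR : Prop :=
  ∀ (G O X : Type) [Group G] [MulAction G O] [MulAction G X] (F : Forest G O X),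
    ∃ fl ht, F.Root fl ht

def St_TS : Prop :=
  ∀ (G X : Type) [Group G] [MulAction G X] (F : Forest G Unit X), Nonempty F.Fl →
    ∃ (E'' Λ'' : Type) (_ : Ring E'') (S'' : Sys (MonoidAlgebra ℤ G) E'' Λ'' F.Fl)
      (Bm : BM E'' F.Fl (MonoidAlgebra ℤ G) X Bool)
      (ent : Bool → Bool → E'' →+ MonoidAlgebra ℤ G), TPk F S'' Bm ent

def St_TH : Prop :=
  ∀ (G X E'' Λ'' : Type) [Group G] [MulAction G X] [Ring E''] (F : Forest G Unit X)
    (S'' : Sys (MonoidAlgebra ℤ G) E'' Λ'' F.Fl) (Bm : BM E'' F.Fl (MonoidAlgebra ℤ G) X Bool)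
    (ent : Bool → Bool → E'' →+ MonoidAlgebra ℤ G), TPk F S'' Bm ent →
    ∀ (B : Type) [CommRing B] (V : Raw (B ⊗[ℤ] MonoidAlgebra ℤ G) Unit),
      ((tcat (MonoidAlgebra ℤ G) Unit).bc B).Obj V → V.Fin1 →
      Hat ((tcat (MonoidAlgebra ℤ G) Unit).bc B) ((bcat F.gpos.T).bc B) (fun _ => ())
        ((S''.cat (gfam G F.Fl)).bc B) (Bm.bc ent B) (scalars B (MonoidAlgebra ℤ G)) V

def St_TFIN : Prop :=
  ∀ (G X E'' Λ'' : Type) [Group G] [MulAction G X] [Ring E''] (F : Forest G Unit X)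
    (S'' : Sys (MonoidAlgebra ℤ G) E'' Λ'' F.Fl) (Bm : BM E'' F.Fl (MonoidAlgebra ℤ G) X Bool)
    (ent : Bool → Bool → E'' →+ MonoidAlgebra ℤ G), TPk F S'' Bm ent →
    ∀ (B : Type) [CommRing B], QO G F.Fl B →
      FinK ((bcat F.gpos.T).bc B) ((S''.cat (gfam G F.Fl)).bc B) ((bcat (gfam G F.Fl)).bc B)
        (lT B S''.aug) (Bm.bc ent B)

def St_TK0 : Prop :=
  ∀ (G X : Type) [Group G] [MulAction G X] (F : Forest G Unit X) (A : Type) [CommRing A],
    QO G X A → QO G F.Fl (Ax A) → Lev (gfam G F.Fl) (Ax A) 1 → QG G A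

def St_TK1 : Prop :=
  ∀ (G X : Type) [Group G] [MulAction G X] (F : Forest G Unit X),
    (∀ s : X, Subsingleton (WhDet.Wh (MulAction.stabilizer G s))) →
    QO G F.Fl ℤ → Lev (gfam G F.Fl) ℤ 1 → Subsingleton (WhDet.Wh G)

def St_ORBQ : Prop :=
  ∀ (G O : Type) [Group G] [MulAction G O] (A : Type) [CommRing A],
    (∀ o : O, QG (MulAction.stabilizer G o) A) → QO G O A

def St_SF : Prop := ∀ (R : Type) [Ring R], SFree R → (tcat R Unit).Q

def St_QB : Prop :=
  (∀ (G : Type) [Group G] [Subsingleton G] (A : Type) [CommRing A] [IsDomain A]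
    [IsPrincipalIdealRing A], QG G A) ∧
  (∀ (G H : Type) [Group G] [Group H] (_ : G ≃* H) (A : Type) [CommRing A], QG G A → QG H A) ∧
  (∀ (G : Type) [Group G] (n : ℕ), KFlat G →
    SFree (MonoidAlgebra ℤ (G × Multiplicative (Fin n → ℤ))) ∧
      QG (G × Multiplicative (Fin n → ℤ)) ℤ) ∧
  ∀ (R : Type) [Ring R], SFree R → ∀ (M : Type) [AddCommGroup M] [Module R M] [Module.Finite R M]
    [Module.Projective R M], Module.IsStablyFree R M

def St_WT : Prop :=
  ∀ (N : ∀ (G : Type) [Group G], Prop), NilLike N →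
    ∀ (G V : Type) [Group G] [MulAction G V] (T : SimpleGraph V), T.IsTree →
      (∀ (g : G) u v, T.Adj u v → T.Adj (g • u) (g • v)) →
      (∀ (g : G) u v, T.Adj u v → g • u = v → g • v ≠ u) →
      (∀ v : V, N (MulAction.stabilizer G v)) → (∀ v : V, KF (MulAction.stabilizer G v)) → KF G

def St_WU : Prop :=
  ∀ (G : Type) [Group G], (∀ s : Finset G, ∃ K : Subgroup G, (∀ g ∈ s, g ∈ K) ∧ KF K) → KF G

def St_W1 : Prop :=
  ∀ (N : ∀ (G : Type) [Group G], Prop), NilLike N → N PUnit →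
    ∀ (G : Type) [Group G] [Subsingleton G], KF G

end Pool.Agent.Lib.NIL
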