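import Pool.Agent.Lib.NIL.A6
import Pool.Agent.Lib.NIL.Blue2

/-! Block ORBQ: from the stabilisers to the transport family. -/

noncomputable section

namespace Pool.Agent.Lib.NIL

open Finsupp TensorProduct

variable {E L E' L' : Type} [Ring E] [Ring E'] {C : Cat E L} {C' : Cat E' L'}

/-- change of labels along invertible elements -/
theorem Cat.Good.exists_relabel (hC : C.Good) {V : Raw E L} (hV : C.Obj V) (l : V.ι → L)
    (t t' : V.ι → E) (ht : ∀ i, t i ∈ C.H 0 (V.lab i) (l i))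
    (ht' : ∀ i, t' i ∈ C.H 0 (l i) (V.lab i)) (h1 : ∀ i, t i * t' i = 1)
    (h2 : ∀ i, t' i * t i = 1) : ∃ δ : (V.ι →₀ E) →ₗ[E] (V.ι →₀ E),
      C.Obj ⟨V.ι, V.deg, l, δ⟩ ∧ C.Eqv V ⟨V.ι, V.deg, l, δ⟩ := by
  have key : ∀ a b : V.ι → E, (∀ i, b i * a i = 1) →
      (lc fun i => single i (a i)) ∘ₗ (lc fun i => single i (b i)) =
        (LinearMap.id : (V.ι →₀ E) →ₗ[E] _) := fun a b h => lhom_ext' fun i => LinearMap.ext_ring (by
    simp [h])
  have hq : C.Hom 0 V ⟨V.ι, V.deg, l, 0⟩ (lc fun i => single i (t i)) := fun i => by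
    rw [lc_single]
    exact Cat.single_mem_M (by simpa using ht i)
  have hs : C.Hom 0 ⟨V.ι, V.deg, l, 0⟩ V (lc fun i => single i (t' i)) := fun i => by
    rw [lc_single]
    exact Cat.single_mem_M (by simpa using ht' i)
  obtain ⟨δ, -, ho, hc⟩ := hC.exists_quot (A := ⟨Empty, Empty.elim, Empty.elim, 0⟩) (i := 0) (r := 0)
    V.deg l (hC.ctr_of_isEmpty (V := ⟨Empty, Empty.elim, Empty.elim, 0⟩)).1 hV Cat.Ch.zero
    (Cat.Hom.zero 0) hq hs (Subsingleton.elim _ _)
    (key t t' h2) (by rw [LinearMap.zero_comp, zero_add]; exact key t' t h1)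
  exact ⟨δ, ho, _, (hC.isEqv_of_inv hc hs (key t' t h1) (key t t' h2)).1⟩

/-- `Q` passes to a retract of families -/
theorem Cat.Q.of_retract {φ : E →+ E'} {ψ : E' →+ E} {C' : Cat E' L} (hC : C.Good) (hC' : C'.Good)
    (hφ : IsHomF C C' φ id) (hψ : IsHomF C' C ψ id)
    (e : ∀ k o o', ∀ a ∈ C.H k o o', ψ (φ a) = a) (h : C'.Q) : C.Q := fun M hM hp => by
  have f := hφ.isFn hC hC'
  have := hψ.inO hC' hC (f.obj hM) (h _ (f.obj hM) (f.perf (fun W _ hW => hW.mapA φ id) hM hp))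
  rwa [Raw.mapA_mapA, show M.mapA (ψ.comp φ) (id ∘ id) = M from by
    unfold Raw.mapA
    rw [mapL_congr (ψ := AddMonoidHom.id E) fun i k => e _ _ _ _ (hM.1 i k), mapL_id]
    rfl] at this

section

variable {G O : Type} [Group G] [MulAction G O] (A : Type) [CommRing A]

theorem q_of_stab (o : O) (h : QG (MulAction.stabilizer G o) A) :
    ((bcat fun _ _ : Unit => gfam G O o o).bc A).Q := by
  let ι := MonoidAlgebra.mapDomainRingHom ℤ (MulAction.stabilizer G o).subtype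
  let ρ : MonoidAlgebra ℤ G →+ MonoidAlgebra ℤ (MulAction.stabilizer G o) :=
    MonoidAlgebra.comapDomainAddMonoidHom _ (MulAction.stabilizer G o).subtype_injective
  have e1 : ∀ a ∈ gfam G O o o, ι (ρ a) = a := fun a ha =>
    MonoidAlgebra.mapDomain_comapDomain (fun g hg => ⟨⟨g, ha g (mem_support_iff.1 hg)⟩, rfl⟩)
      (MulAction.stabilizer G o).subtype_injective
  have e2 : ∀ b, ι b ∈ gfam G O o o := fun b => by
    induction b using MonoidAlgebra.induction_linear with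
    | zero => rw [map_zero]; exact zero_mem _
    | add x y hx hy => rw [map_add]; exact add_mem hx hy
    | single g n =>
      rw [MonoidAlgebra.mapDomainRingHom_apply, MonoidAlgebra.mapDomain_single]
      exact single_mem_sfam (p := fun g => g • o = o) g.2 n
  have inj : Function.Injective ι :=
    MonoidAlgebra.mapDomain_injective (MulAction.stabilizer G o).subtype_injective
  have g1 : (bcat fun _ _ : Unit => gfam G O o o).Good :=
    IsBas.good ⟨fun _ => (gfam_bas G O).one_mem o, (gfam_bas G O).mul_mem⟩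
  have g2 := tcat_good (MonoidAlgebra ℤ (MulAction.stabilizer G o)) Unit
  have hρ : IsHomF (bcat fun _ _ : Unit => gfam G O o o) (tcat _ Unit) ρ id :=
    ⟨fun ha => mem_bcat.2 ⟨trivial, fun h0 => (mem_bcat.1 ha).2 fun h1 => h0 (by
        rw [h1, map_zero])⟩,
      inj (by rw [e1 _ ((gfam_bas G O).one_mem o), map_one]),
      fun ha hb => inj (by
        have ha := (mem_bcat.1 ha).1
        have hb := (mem_bcat.1 hb).1
        rw [map_mul ι, e1 _ ha, e1 _ hb, e1 _ ((gfam_bas G O).mul_mem ha hb)]),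
      fun _ => map_zero ρ⟩
  have hι : IsHomF (tcat _ Unit) (bcat fun _ _ : Unit => gfam G O o o) ι.toAddMonoidHom id :=
    ⟨fun ha => mem_bcat.2 ⟨e2 _, fun h0 => (mem_bcat.1 ha).2 fun h1 => h0 (by
        rw [h1, map_zero])⟩, map_one ι, fun _ _ => map_mul ι _ _, fun _ => map_zero ι⟩
  refine Cat.Q.of_retract (g1.bc A) (g2.bc A) (hρ.bc A) (hι.bc A) (fun k _ _ a ha => ?_) h
  refine bcF_induction (p := fun a => lT A ι.toAddMonoidHom (lT A ρ a) = a) ha
    (fun b e he => ?_) (by rw [map_zero, map_zero]) fun x y _ _ hx hy => by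
      rw [map_add, map_add, hx, hy]
  rw [lT_tmul, lT_tmul]
  exact congrArg _ (e1 e (mem_bcat.1 he).1)

theorem eq_zero_of_bc {R : Type} [Ring R] {Rf : O → O → AddSubgroup R} {k : ℤ} {o o' : O}
    {a : A ⊗[ℤ] R} (ha : a ∈ ((bcat Rf).bc A).H k o o') (h : k ≠ 0 ∨ ∀ r ∈ Rf o o', r = 0) :
    a = 0 := by
  refine bcF_induction (p := fun a => a = 0) ha (fun b e he => ?_) rfl fun x y _ _ hx hy => by
    rw [hx, hy, add_zero]
  have : e = 0 := by
    rcases h with h | h
    · exact by_contra fun h0 => h ((mem_bcat.1 he).2 h0)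
    · exact h e (mem_bcat.1 he).1
  rw [this, tmul_zero]

theorem inO_orbit (o : O) (h : QG (MulAction.stabilizer G o) A)
    {M W : Raw (A ⊗[ℤ] MonoidAlgebra ℤ G) O} (hM : ((bcat (gfam G O)).bc A).Obj M)
    (hW : ((bcat (gfam G O)).bc A).Obj W) (hf : Finite W.ι)
    (hr : ((bcat (gfam G O)).bc A).Retr M W) (lM : ∀ i, M.lab i ∈ MulAction.orbit G o)
    (lW : ∀ i, W.lab i ∈ MulAction.orbit G o) : ((bcat (gfam G O)).bc A).InO M := by
  have hC := (gfam_bas G O).good.bc A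
  have key : ∀ V : Raw (A ⊗[ℤ] MonoidAlgebra ℤ G) O, ((bcat (gfam G O)).bc A).Obj V →
      (∀ i, V.lab i ∈ MulAction.orbit G o) → ∃ δ,
        ((bcat (gfam G O)).bc A).Obj ⟨V.ι, V.deg, fun _ => o, δ⟩ ∧
          ((bcat (gfam G O)).bc A).Eqv V ⟨V.ι, V.deg, fun _ => o, δ⟩ := fun V hV hl => by
    choose g hg using hl
    refine hC.exists_relabel hV _ (fun i => 1 ⊗ₜ MonoidAlgebra.single (g i) 1)
      (fun i => 1 ⊗ₜ MonoidAlgebra.single (g i)⁻¹ 1) (fun i => ?_) (fun i => ?_) (fun i => ?_)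
      fun i => ?_
    · exact tmul_mem_bcF _ (mem_bcat.2 ⟨single_mem_sfam (p := fun g => g • o = V.lab i) (hg i) 1,
        fun _ => rfl⟩)
    · exact tmul_mem_bcF _ (mem_bcat.2 ⟨single_mem_sfam (p := fun g => g • V.lab i = o)
        (inv_smul_eq_iff.2 (hg i).symm) 1, fun _ => rfl⟩)
    all_goals
      rw [Algebra.TensorProduct.tmul_mul_tmul, MonoidAlgebra.single_mul_single]
      simp [Algebra.TensorProduct.one_def, MonoidAlgebra.one_def]
  obtain ⟨δ, o1, e1⟩ := key M hM lM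
  obtain ⟨δ', o2, e2⟩ := key W hW lW
  have f2 := hC.fin1_of_zero (fun k _ _ a hk ha => eq_zero_of_bc A ha (.inl hk)) o2 hf
  have := q_of_stab A o h ⟨M.ι, M.deg, fun _ => (), δ⟩ o1 ⟨⟨W.ι, W.deg, fun _ => (), δ'⟩, o2, f2,
    hC.retr_trans e1.symm.retr (hC.retr_trans hr e2.retr)⟩
  exact hC.inO_of_eqv e1 (relab_inO (C := (bcat fun _ _ : Unit => gfam G O o o).bc A)
    (C₁ := (bcat (gfam G O)).bc A) (l := fun _ => o) rfl (fun _ _ _ => le_rfl) this)

end

theorem st_orbq : St_ORBQ := by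
  intro G O _ _ A _ h M hM ⟨W, hW, hf, hr⟩
  have hC := (gfam_bas G O).good.bc A
  suffices H : ∀ (s : List O) (M W : Raw (A ⊗[ℤ] MonoidAlgebra ℤ G) O),
      ((bcat (gfam G O)).bc A).Obj M → ((bcat (gfam G O)).bc A).Obj W → Finite W.ι →
      ((bcat (gfam G O)).bc A).Retr M W → (∀ i, ∃ o ∈ s, W.lab i ∈ MulAction.orbit G o) →
      ((bcat (gfam G O)).bc A).InO M by
    have := hf.1
    have := Fintype.ofFinite W.ι
    exact H (Finset.univ.toList.map W.lab) M W hM hW hf.1 hr fun i =>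
      ⟨_, List.mem_map_of_mem (by simp), MulAction.mem_orbit_self _⟩
  intro s
  induction s with
  | nil =>
    intro M W _ _ _ hr hl
    have : IsEmpty W.ι := ⟨fun i => by simpa using hl i⟩
    exact hC.inO_of_ctr (hC.ctr_of_retr hr hC.ctr_of_isEmpty.2)
  | cons o s ih =>
    intro M W hM hW hf hr hl
    have hq : ∀ k l l' a, ¬ (l ∈ MulAction.orbit G o ↔ l' ∈ MulAction.orbit G o) →
        a ∈ ((bcat (gfam G O)).bc A).H k l l' → a = 0 := fun k l l' a hn ha =>
      eq_zero_of_bc A ha (.inr fun r hr => by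
        ext g
        by_contra hg
        obtain rfl := hr g hg
        exact hn ⟨fun ⟨x, hx⟩ => ⟨g⁻¹ * x, (mul_smul _ _ _).trans (inv_smul_eq_iff.2 hx)⟩,
          fun ⟨x, hx⟩ => ⟨g * x, (mul_smul _ _ _).trans (congrArg _ hx)⟩⟩)
    have cl : ∀ V, ((bcat (gfam G O)).bc A).Obj V →
        V.Closed fun i => V.lab i ∈ MulAction.orbit G o := fun V hV i i' hi hne =>
      by_contra fun hi' => hne (hq _ _ _ _ (fun e => hi' (e.1 hi)) (hV.1 i i'))
    have sM := hC.ses_res hM (cl M hM)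
    have sW := hC.ses_res hW (cl W hW)
    refine hC.ses_inO_mid sM (inO_orbit A o (h o) sM.1 sW.1 inferInstance
      (hC.retr_res (· ∈ MulAction.orbit G o) hq hM hW hr) (fun i => i.2) fun i => i.2)
      (ih _ _ sM.2.2.1 sW.2.2.1 inferInstance (hC.retr_res (· ∉ MulAction.orbit G o)
        (fun k l l' a hn => hq k l l' a fun e => hn (not_congr e)) hM hW hr) fun i => ?_)
    obtain ⟨o', h1, h2⟩ := hl i.1
    rcases List.mem_cons.1 h1 with rfl | h1
    · exact absurd h2 i.2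
    · exact ⟨o', h1, h2⟩

end Pool.Agent.Lib.NIL
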