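import Pool.Agent.Lib.KM1.IDX
import Pool.Agent.Lib.MP_63c928_gt.WH.K1

/-! The boundary map `K₁(A[t,t⁻¹]) → K₀(A)`; if `Wh(H × ℤ) = 0` then finitely generated
projective `ℤH`-modules are stably free. -/

namespace Pool.Agent.Lib.NIL.BHS0

open Matrix LaurentPolynomial Pool.Agent.Lib.KM1 Pool.Agent.Lib.KM1.IDX Pool.Agent.WhDet

universe u

variable {A : Type u} [Ring A]

theorem win (a : ℤ) (N : ℕ) (y : LaurentPolynomial A) (h0 : pr a y = y) (hN : pr (a + N) y = 0) :
    y = ∑ p : Fin N, MulOpposite.op (y.coeff (a + (p : ℕ))) •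
      (T (a + (p : ℕ)) : LaurentPolynomial A) := by
  apply LaurentPolynomial.ext
  intro n
  rw [AddMonoidAlgebra.coeff_sum, Finsupp.finsetSum_apply]
  simp only [AddMonoidAlgebra.coeff_smul, Finsupp.smul_apply, T_apply, smul_ite, smul_zero,
    MulOpposite.smul_eq_mul_unop, MulOpposite.unop_op, one_mul]
  by_cases h1 : a ≤ n ∧ n < a + N
  · rw [Finset.sum_eq_single (⟨(n - a).toNat, by omega⟩ : Fin N)]
    · have : a + (((n - a).toNat : ℕ) : ℤ) = n := by omega
      simp only [this, if_true]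
    · intro p _ hp
      rw [if_neg]
      intro h
      apply hp
      apply Fin.ext
      simp only
      omega
    · simp
  · rw [Finset.sum_eq_zero]
    · by_cases h2 : a ≤ n
      · have := congrArg (fun w => w.coeff n) hN
        simp only [pr_coeff] at this
        rw [if_pos (by omega)] at this
        simpa using this
      · rw [← h0, pr_coeff, if_neg h2]
    · intro p _
      rw [if_neg]
      have := p.2
      omega

theorem pr_pr (k l : ℤ) : (pr k * pr l : En A) = pr (max k l) := by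
  refine LinearMap.ext fun x => LaurentPolynomial.ext fun n => ?_
  simp only [Module.End.mul_apply, pr_coeff, max_le_iff]
  by_cases h1 : k ≤ n <;> by_cases h2 : l ≤ n <;> simp [h1, h2]

variable {ι κ μ : Type} [Fintype ι] [Fintype κ] [Fintype μ] [DecidableEq ι] [DecidableEq κ]
  [DecidableEq μ]

theorem dg_dg (k l : ℤ) : dg A ι k * dg A ι l = dg A ι (max k l) := by
  simp only [dg, diagonal_mul_diagonal, pr_pr]

/-- The finite matrix seen in two windows. -/
noncomputable def comp (a : ℤ) (n : ℕ) (b : ℤ) (m : ℕ) (x : Matrix ι κ (En A)) :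
    Matrix (ι × Fin n) (κ × Fin m) A :=
  Matrix.of fun p q => (x p.1 q.1 (T (b + (q.2 : ℕ)))).coeff (a + (p.2 : ℕ))

/-- The image lies in the window. -/
def Sp (a : ℤ) (n : ℕ) (y : Matrix ι κ (En A)) : Prop :=
  dg A ι a * y = y ∧ dg A ι (a + n) * y = 0

omit [Fintype κ] [DecidableEq κ] in
theorem sp_iff {a : ℤ} {n : ℕ} {y : Matrix ι κ (En A)} :
    Sp a n y ↔ ∀ i j, pr a * y i j = y i j ∧ pr (a + n) * y i j = 0 := by
  simp only [Sp, ← Matrix.ext_iff, dg, diagonal_mul, Matrix.zero_apply, ← forall_and]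

omit [DecidableEq κ] [Fintype μ] [DecidableEq μ] in
theorem Sp.mul {a : ℤ} {n : ℕ} {y : Matrix ι κ (En A)} (h : Sp a n y) (z : Matrix κ μ (En A)) :
    Sp a n (y * z) :=
  ⟨by rw [← Matrix.mul_assoc, h.1], by rw [← Matrix.mul_assoc, h.2, Matrix.zero_mul]⟩

omit [Fintype κ] [DecidableEq κ] in
theorem Sp.mono {a b : ℤ} {n m : ℕ} {y : Matrix ι κ (En A)} (h : Sp a n y) (h1 : b ≤ a)
    (h2 : a + n ≤ b + m) : Sp b m y :=
  ⟨by rw [← h.1, ← Matrix.mul_assoc, dg_dg, max_eq_right h1], by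
    rw [← max_eq_left h2, ← dg_dg, Matrix.mul_assoc, h.2, Matrix.mul_zero]⟩

omit [Fintype ι] [DecidableEq ι] [Fintype μ] [DecidableEq μ] in
theorem comp_mul (a : ℤ) (n : ℕ) (c : ℤ) (l : ℕ) {b : ℤ} {m : ℕ} (x : Matrix ι κ (En A))
    {y : Matrix κ μ (En A)} (h : Sp b m y) :
    comp a n b m x * comp b m c l y = comp a n c l (x * y) := by
  ext ⟨i, r⟩ ⟨j, s⟩
  rw [Matrix.mul_apply, Fintype.sum_prod_type]
  simp only [comp, Matrix.of_apply]
  rw [Matrix.mul_apply, LinearMap.sum_apply, AddMonoidAlgebra.coeff_sum, Finsupp.finsetSum_apply]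
  refine Finset.sum_congr rfl fun k _ => ?_
  obtain ⟨e0, eN⟩ := sp_iff.1 h k j
  rw [Module.End.mul_apply]
  conv_rhs => rw [win b m _ (LinearMap.congr_fun e0 (T (c + (s : ℕ))))
    (LinearMap.congr_fun eN (T (c + (s : ℕ)))), map_sum, AddMonoidAlgebra.coeff_sum,
    Finsupp.finsetSum_apply]
  refine Finset.sum_congr rfl fun p _ => ?_
  rw [map_smul, AddMonoidAlgebra.coeff_smul, Finsupp.smul_apply, MulOpposite.smul_eq_mul_unop,
    MulOpposite.unop_op]

/-- A finite idempotent. -/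
def Fi (Z : Matrix ι ι (En A)) : Prop := Z * Z = Z ∧ ∃ a n, Sp a n Z

open Classical in
/-- The class of a finite idempotent. -/
noncomputable def cc (Z : Matrix ι ι (En A)) : K0 A :=
  if h : ∃ p : ℤ × ℕ, Sp p.1 p.2 Z then
    cls (comp h.choose.1 h.choose.2 h.choose.1 h.choose.2 Z) else 0

theorem comp_idem {a : ℤ} {n : ℕ} {Z : Matrix ι ι (En A)} (hZ : Z * Z = Z) (h : Sp a n Z) :
    comp a n a n Z * comp a n a n Z = comp a n a n Z := by rw [comp_mul _ _ _ _ _ h, hZ]

theorem cls_comp {a b : ℤ} {n m : ℕ} {x : Matrix ι κ (En A)} {y : Matrix κ ι (En A)}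
    {Z : Matrix ι ι (En A)} {Z' : Matrix κ κ (En A)} (e : x * y = Z) (e' : y * x = Z')
    (hZ : Z * Z = Z) (hZ' : Z' * Z' = Z') (h : Sp a n Z) (h' : Sp b m Z') :
    cls (comp a n a n Z) = cls (comp b m b m Z') := by
  refine cls_equiv (comp_idem hZ h) (comp_idem hZ' h')
    ⟨comp a n b m (Z * x), comp b m a n (Z' * y), ?_, ?_⟩
  · rw [comp_mul _ _ _ _ _ (h'.mul y)]
    congr 1
    calc Z * x * (Z' * y) = Z * (x * y) * (x * y) := by rw [← e']; simp only [Matrix.mul_assoc]
      _ = Z := by rw [e, hZ, hZ]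
  · rw [comp_mul _ _ _ _ _ (h.mul x)]
    congr 1
    calc Z' * y * (Z * x) = Z' * (y * x) * (y * x) := by rw [← e]; simp only [Matrix.mul_assoc]
      _ = Z' := by rw [e', hZ', hZ']

theorem cc_eq {a : ℤ} {n : ℕ} {Z : Matrix ι ι (En A)} (hZ : Z * Z = Z) (h : Sp a n Z) :
    cc Z = cls (comp a n a n Z) := by
  have h' : ∃ p : ℤ × ℕ, Sp p.1 p.2 Z := ⟨(a, n), h⟩
  rw [cc, dif_pos h']
  exact cls_comp hZ hZ hZ hZ h'.choose_spec h

theorem cc_equiv {x : Matrix ι κ (En A)} {y : Matrix κ ι (En A)} (h : Fi (x * y))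
    (h' : Fi (y * x)) : cc (x * y) = cc (y * x) := by
  obtain ⟨h1, a, n, h2⟩ := h
  obtain ⟨h3, b, m, h4⟩ := h'
  rw [cc_eq h1 h2, cc_eq h3 h4]
  exact cls_comp rfl rfl h1 h3 h2 h4

theorem common {Z : Matrix ι ι (En A)} {Z' : Matrix κ κ (En A)} (h : Fi Z) (h' : Fi Z') :
    ∃ a n, Sp a n Z ∧ Sp a n Z' := by
  obtain ⟨-, a, n, h2⟩ := h
  obtain ⟨-, b, m, h4⟩ := h'
  exact ⟨min a b, n + m + (a - b).natAbs, h2.mono (by omega) (by omega),
    h4.mono (by omega) (by omega)⟩

theorem cc_add {Z Z' : Matrix ι ι (En A)} (h : Fi Z) (h' : Fi Z') (e : Z * Z' = 0)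
    (e' : Z' * Z = 0) : Fi (Z + Z') ∧ cc (Z + Z') = cc Z + cc Z' := by
  obtain ⟨a, n, h1, h2⟩ := common h h'
  have h3 : (Z + Z') * (Z + Z') = Z + Z' := by simp [mul_add, add_mul, h.1, h'.1, e, e']
  have h4 : Sp a n (Z + Z') :=
    ⟨by rw [Matrix.mul_add, h1.1, h2.1], by rw [Matrix.mul_add, h1.2, h2.2, add_zero]⟩
  refine ⟨⟨h3, a, n, h4⟩, ?_⟩
  have z : comp a n a n (0 : Matrix ι ι (En A)) = 0 := by ext; simp [comp]
  rw [cc_eq h3 h4, cc_eq h.1 h1, cc_eq h'.1 h2, ← cls_add_orth (comp_idem h.1 h1)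
    (comp_idem h'.1 h2) (by rw [comp_mul _ _ _ _ _ h2, e, z])
    (by rw [comp_mul _ _ _ _ _ h1, e', z])]
  congr 1

theorem cc_blocks (σ : ι ⊕ κ ≃ μ) {Z : Matrix ι ι (En A)} {Z' : Matrix κ κ (En A)} (h : Fi Z)
    (h' : Fi Z') : cc (reindex σ σ (fromBlocks Z 0 0 Z')) = cc Z + cc Z' := by
  obtain ⟨a, n, h1, h2⟩ := common h h'
  have h4 : Sp a n (reindex σ σ (fromBlocks Z 0 0 Z')) := by
    rw [sp_iff] at h1 h2 ⊢
    intro i j
    simp only [reindex_apply, submatrix_apply]
    rcases σ.symm i with i | i <;> rcases σ.symm j with j | j <;> simp [h1, h2]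
  rw [cc_eq (reindex_idem σ (idem_blocks h.1 h'.1)) h4, cc_eq h.1 h1, cc_eq h'.1 h2,
    ← cls_blocks (comp_idem h.1 h1) (comp_idem h'.1 h2), ← cls_reindex
    ((Equiv.sumProdDistrib ι κ (Fin n)).symm.trans (σ.prodCongr (Equiv.refl _)))
    (idem_blocks (comp_idem h.1 h1) (comp_idem h'.1 h2))]
  congr 1
  ext ⟨i, r⟩ ⟨j, s⟩
  obtain ⟨i, rfl⟩ := σ.surjective i
  obtain ⟨j, rfl⟩ := σ.surjective j
  rcases i with i | i <;> rcases j with j | j <;> simp [comp]

/-- Nested idempotents with finite difference. -/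
structure Ne (p q : Matrix ι ι (En A)) : Prop where
  pp : p * p = p
  qq : q * q = q
  pq : p * q = q
  qp : q * p = q
  sp : ∃ a n, Sp a n (p - q)

theorem Ne.fi {p q : Matrix ι ι (En A)} (h : Ne p q) : Fi (p - q) :=
  ⟨by simp [mul_sub, sub_mul, h.pp, h.qq, h.pq, h.qp], h.sp⟩

theorem Ne.trans {p q r : Matrix ι ι (En A)} (h : Ne p q) (h' : Ne q r) :
    Ne p r ∧ cc (p - r) = cc (p - q) + cc (q - r) := by
  have e1 : p * r = r := by rw [← h'.pq, ← mul_assoc, h.pq]
  have e2 : r * p = r := by rw [← h'.qp, mul_assoc, h.qp]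
  have := cc_add h.fi h'.fi (by simp [mul_sub, sub_mul, h.pq, h.qq, e1, h'.pq])
    (by simp [mul_sub, sub_mul, h.qp, h.qq, e2, h'.qp])
  rw [sub_add_sub_cancel] at this
  exact ⟨⟨h.pp, h'.qq, e1, e2, this.1.2⟩, this.2⟩

theorem ne_dg {k l : ℤ} (h : k ≤ l) : Ne (dg A ι k) (dg A ι l) :=
  ⟨by simp [dg_dg], by simp [dg_dg], by simp [dg_dg, h], by simp [dg_dg, h], k, (l - k).toNat,
    by simp [mul_sub, dg_dg, h], by
      rw [show k + ((l - k).toNat : ℕ) = l by omega]; simp [mul_sub, dg_dg, h]⟩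

/-- Degree bound for a unit and its inverse. -/
def Bd (d : ℕ) (M : (Matrix ι ι (LaurentPolynomial A))ˣ) : Prop :=
  (∀ i j n, d < n.natAbs → (M.val i j).coeff n = 0) ∧
    ∀ i j n, d < n.natAbs → (M.inv i j).coeff n = 0

theorem exists_bd (M : (Matrix ι ι (LaurentPolynomial A))ˣ) : ∃ d, ∀ d' ≥ d, Bd d' M := by
  obtain ⟨a, ha⟩ := bound M.val
  obtain ⟨b, hb⟩ := bound M.inv
  exact ⟨a + b, fun d hd => ⟨fun i j n h => ha i j n (by omega), fun i j n h => hb i j n (by omega)⟩⟩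

/-- Conjugation. -/
noncomputable def cj (M : (Matrix ι ι (LaurentPolynomial A))ˣ) (p : Matrix ι ι (En A)) :
    Matrix ι ι (En A) := M.val.map lm * p * M.inv.map lm

theorem vi (M : (Matrix ι ι (LaurentPolynomial A))ˣ) : M.val.map lm * M.inv.map lm = 1 := by
  rw [← Matrix.map_mul, M.val_inv, map_one']

theorem iv (M : (Matrix ι ι (LaurentPolynomial A))ˣ) : M.inv.map lm * M.val.map lm = 1 := by
  rw [← Matrix.map_mul, M.inv_val, map_one']

theorem cj_mul (M : (Matrix ι ι (LaurentPolynomial A))ˣ) (p q : Matrix ι ι (En A)) :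
    cj M p * cj M q = cj M (p * q) := by
  simp only [cj, mul_assoc]
  rw [← mul_assoc (M.inv.map lm), iv, one_mul]

theorem Ne.cj {p q : Matrix ι ι (En A)} (h : Ne p q) (M : (Matrix ι ι (LaurentPolynomial A))ˣ) :
    Ne (cj M p) (cj M q) ∧ cc (cj M p - cj M q) = cc (p - q) := by
  obtain ⟨d, hd⟩ := bound M.val
  obtain ⟨a, n, hs⟩ := h.sp
  have e : BHS0.cj M p - BHS0.cj M q = M.val.map lm * (p - q) * M.inv.map lm := by
    simp only [BHS0.cj, mul_sub, sub_mul]
  have h1 : Ne (BHS0.cj M p) (BHS0.cj M q) := by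
    refine ⟨by rw [cj_mul, h.pp], by rw [cj_mul, h.qq], by rw [cj_mul, h.pq], by rw [cj_mul, h.qp],
      a - d, n + 2 * d, e ▸ Sp.mul ⟨?_, ?_⟩ _⟩
    · rw [← hs.1, ← mul_assoc, ← mul_assoc, ← mul_assoc,
        dg_lo (d := -(d : ℤ)) (fun i j n hn => hd i j n (by omega)) (by omega)]
    · rw [← mul_assoc, ← dg_hi (d := d) (l := a + n) (fun i j n hn => hd i j n (by omega))
        (by omega), mul_assoc, hs.2, mul_zero]
  refine ⟨h1, ?_⟩
  have e2 : M.inv.map lm * (M.val.map lm * (p - q)) = p - q := by rw [← mul_assoc, iv, one_mul]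
  have := h1.fi
  rw [e] at this ⊢
  rw [cc_equiv this (e2.symm ▸ h.fi), e2]

theorem ne_bd {d : ℕ} {M : (Matrix ι ι (LaurentPolynomial A))ˣ} (h : Bd d M) {k D : ℤ}
    (hD : k + d ≤ D) : Ne (cj M (dg A ι k)) (dg A ι D) := by
  have e1 : cj M (dg A ι k) * dg A ι D = dg A ι D := by
    rw [cj, mul_assoc, mul_assoc, ← mul_assoc (dg A ι k),
      dg_lo (d := -(d : ℤ)) (fun i j n hn => h.2 i j n (by omega)) (by omega), ← mul_assoc, vi,
      one_mul]
  have e2 : dg A ι D * cj M (dg A ι k) = dg A ι D := by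
    rw [cj, ← mul_assoc, ← mul_assoc,
      dg_hi (d := d) (fun i j n hn => h.1 i j n (by omega)) (by omega), mul_assoc, vi, mul_one]
  refine ⟨by simp [cj_mul, dg_dg], by simp [dg_dg], e1, e2, k - d, (D - k + d).toNat, ?_, ?_⟩
  · rw [mul_sub, dg_dg, max_eq_right (by omega), cj, ← mul_assoc, ← mul_assoc,
      dg_lo (d := -(d : ℤ)) (fun i j n hn => h.1 i j n (by omega)) (by omega)]
  · rw [show k - d + ((D - k + d).toNat : ℕ) = D by omega, mul_sub, e2, dg_dg, max_self, sub_self]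

/-- The index computed at level `k` with cut-off `D`. -/
noncomputable def ff (M : (Matrix ι ι (LaurentPolynomial A))ˣ) (k D : ℤ) : K0 A :=
  cc (cj M (dg A ι k) - dg A ι D) - cc (dg A ι k - dg A ι D)

theorem ff_eq {M : (Matrix ι ι (LaurentPolynomial A))ˣ} {d d' : ℕ} (h : Bd d M) (h' : Bd d' M)
    {k k' D D' : ℤ} (hD : k + d ≤ D) (hD' : k' + d' ≤ D') : ff M k D = ff M k' D' := by
  wlog hk : k ≤ k' generalizing d d' k k' D D'
  · exact (this h' h hD' hD (by omega)).symm
  have s : ∀ {d : ℕ} {k D E : ℤ}, Bd d M → k + d ≤ D → D ≤ E → ff M k D = ff M k E := by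
    intro d k D E h h1 h2
    rw [ff, ff, ((ne_bd h h1).trans (ne_dg h2)).2,
      ((ne_dg (k := k) (by omega)).trans (ne_dg h2)).2]
    abel
  rw [s h hD (le_max_left D D'), s h' hD' (le_max_right D D'), ff, ff,
    (((ne_dg hk).cj M).1.trans (ne_bd h' (hD'.trans (le_max_right D D')))).2, ((ne_dg hk).cj M).2,
    ((ne_dg hk).trans (ne_dg (l := max D D') (by omega))).2]
  abel

/-- The index. -/
noncomputable def ind (M : (Matrix ι ι (LaurentPolynomial A))ˣ) : K0 A :=
  ff M 0 ((exists_bd M).choose : ℕ)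

theorem ind_eq {M : (Matrix ι ι (LaurentPolynomial A))ˣ} {d : ℕ} (h : Bd d M) {k D : ℤ}
    (hD : k + d ≤ D) : ind M = ff M k D :=
  ff_eq ((exists_bd M).choose_spec _ le_rfl) h (by simp) hD

theorem ind_mul (M N : (Matrix ι ι (LaurentPolynomial A))ˣ) : ind (M * N) = ind M + ind N := by
  obtain ⟨a, ha⟩ := exists_bd M
  obtain ⟨b, hb⟩ := exists_bd N
  obtain ⟨c, hc⟩ := exists_bd (M * N)
  have e : ∀ p, cj (M * N) p = cj M (cj N p) := fun p => by
    rw [cj, cj, cj, Units.val_mul, show (M * N).inv = N.inv * M.inv from rfl, Matrix.map_mul,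
      Matrix.map_mul]
    simp only [mul_assoc]
  have h1 := (ne_bd (hb b le_rfl) (k := 0) (D := b) (by simp)).cj M
  have h2 := ne_bd (ha a le_rfl) (k := b) (D := a + b + c) (by omega)
  rw [ind_eq (hc c le_rfl) (k := 0) (D := a + b + c) (by omega),
    ind_eq (ha a le_rfl) (k := b) (D := a + b + c) (by omega),
    ind_eq (hb b le_rfl) (k := 0) (D := b) (by omega), ff, ff, ff, e, (h1.1.trans h2).2, h1.2,
    ((ne_dg (k := 0) (l := b) (by omega)).trans (ne_dg (l := a + b + c) (by omega))).2]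
  abel

theorem ind_stab (σ : ι ⊕ κ ≃ μ) (M : (Matrix ι ι (LaurentPolynomial A))ˣ)
    (N : (Matrix μ μ (LaurentPolynomial A))ˣ) (h : N.val = reindex σ σ (fromBlocks M.val 0 0 1)) :
    ind N = ind M := by
  obtain ⟨a, ha⟩ := exists_bd M
  obtain ⟨b, hb⟩ := exists_bd N
  have hi : N.inv = reindex σ σ (fromBlocks M.inv 0 0 1) := by
    refine Units.inv_eq_of_mul_eq_one_right (u := N) ?_
    rw [h]
    simp [submatrix_mul_equiv, fromBlocks_multiply]
  have e : ∀ k, dg A μ k = reindex σ σ (fromBlocks (dg A ι k) 0 0 (dg A κ k)) := fun k => by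
    rw [dg, dg, dg, fromBlocks_diagonal, reindex_apply, submatrix_diagonal_equiv]
    congr 1
    funext i
    simp only [Function.comp_apply]
    rcases σ.symm i with i | i <;> rfl
  have e1 : ∀ X : Matrix ι ι (LaurentPolynomial A),
      (reindex σ σ (fromBlocks X 0 0 (1 : Matrix κ κ (LaurentPolynomial A)))).map lm =
        reindex σ σ (fromBlocks (X.map lm) 0 0 1) := fun X => by
    rw [reindex_apply, ← submatrix_map, fromBlocks_map, map_one', Matrix.map_zero _ (map_zero _),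
      Matrix.map_zero _ (map_zero _), reindex_apply]
  have e2 : ∀ (X X' : Matrix ι ι (En A)) (Y Y' : Matrix κ κ (En A)),
      reindex σ σ (fromBlocks X 0 0 Y) - reindex σ σ (fromBlocks X' 0 0 Y') =
        reindex σ σ (fromBlocks (X - X') 0 0 (Y - Y')) := fun X X' Y Y' => by
    ext1 i j
    simp only [reindex_apply, submatrix_apply, Matrix.sub_apply]
    rcases σ.symm i with i | i <;> rcases σ.symm j with j | j <;> simp
  have e3 : cj N (dg A μ 0) = reindex σ σ (fromBlocks (cj M (dg A ι 0)) 0 0 (dg A κ 0)) := by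
    rw [cj, h, hi, e1, e1, e, cj]
    simp [submatrix_mul_equiv, fromBlocks_multiply]
  have h0 : (0 : ℤ) ≤ (a + b : ℕ) := by omega
  rw [ind_eq (ha (a + b) (by omega)) (k := 0) (D := (a + b : ℕ)) (by omega),
    ind_eq (hb (a + b) (by omega)) (k := 0) (D := (a + b : ℕ)) (by omega), ff, ff, e3, e, e, e2, e2,
    cc_blocks σ (ne_bd (ha (a + b) (by omega)) (by omega)).fi (ne_dg h0).fi,
    cc_blocks σ (ne_dg h0).fi (ne_dg h0).fi]
  abel

/-- The boundary homomorphism. -/
noncomputable def bdry (A : Type u) [Ring A] : K1 (LaurentPolynomial A) →+ K0 A :=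
  K1.lift (fun x => ind x.2) (fun _ M N => ind_mul M N)
    (fun _ M N h => ind_stab finSumFinEquiv M N h)

theorem bdry_mk {n : ℕ} (M : (Matrix (Fin n) (Fin n) (LaurentPolynomial A))ˣ) :
    bdry A (K1.mk M) = ind M := K1.lift_mk _ _ _ _

theorem hom_comm {f : Matrix ι ι (LaurentPolynomial A)} {k : ℤ}
    (hf : ∀ i j n, n ≠ k → (f i j).coeff n = 0) (l : ℤ) :
    f.map lm * dg A ι l = dg A ι (l + k) * f.map lm := by
  rw [← dg_lo (d := k) (l := l + k) (fun i j n hn => hf i j n hn.ne) le_rfl,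
    dg_hi (d := k) (fun i j n hn => hf i j n hn.ne') le_rfl]

theorem coeff_C_T (a : A) (k n : ℤ) (h : n ≠ k) : (C a * T k : LaurentPolynomial A).coeff n = 0 := by
  rw [← single_eq_C_mul_T, AddMonoidAlgebra.coeff_single, Finsupp.single_apply, if_neg h.symm]

theorem coeff_C (a : A) (n : ℤ) (h : n ≠ 0) : (C a : LaurentPolynomial A).coeff n = 0 := by
  simpa using coeff_C_T a 0 n h

theorem cc_const {e : Matrix ι ι A} (he : e * e = e) (a : ℤ) :
    cc ((e.map C).map lm * (dg A ι a - dg A ι (a + 1))) = cls e := by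
  have hc : ∀ l, (e.map C).map lm * dg A ι l = dg A ι l * (e.map C).map lm := fun l => by
    simpa using hom_comm (f := e.map C) (k := 0)
      (fun i j n hn => coeff_C (e i j) n hn) l
  have hc' : (e.map C).map lm * (dg A ι a - dg A ι (a + 1)) =
      (dg A ι a - dg A ι (a + 1)) * (e.map C).map lm := by rw [mul_sub, sub_mul, hc, hc]
  have h1 := (ne_dg (A := A) (ι := ι) (k := a) (l := a + 1) (by omega)).fi.1
  have hs : Sp a 1 (dg A ι a - dg A ι (a + 1)) :=
    ⟨by simp [mul_sub, dg_dg], by simp [mul_sub, dg_dg]⟩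
  rw [cc_eq (a := a) (n := 1) (by
      rw [mul_assoc, ← mul_assoc (_ - _), ← hc', mul_assoc, h1, ← mul_assoc, ← Matrix.map_mul,
        ← Matrix.map_mul, he]) (hc' ▸ hs.mul _),
    ← cls_reindex (Equiv.prodUnique ι (Fin 1)).symm he]
  congr 1
  ext ⟨i, r⟩ ⟨j, s⟩
  obtain rfl : r = 0 := Subsingleton.elim _ _
  obtain rfl : s = 0 := Subsingleton.elim _ _
  rw [hc']
  simp only [comp, dg, Matrix.of_apply, sub_mul, Matrix.sub_apply, diagonal_mul, map_apply,
    LinearMap.sub_apply, Module.End.mul_apply, AddMonoidAlgebra.coeff_sub, Finsupp.sub_apply,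
    pr_coeff, lm_apply]
  simp [← single_eq_C_mul_T]

theorem cc_dg (k : ℤ) (n : ℕ) :
    cc (dg A ι k - dg A ι (k + n)) = n • cls (1 : Matrix ι ι A) := by
  induction n with
  | zero =>
    have : comp (A := A) (ι := ι) (κ := ι) 0 0 0 0 0 = 0 := by ext; simp [comp]
    simp [cc_eq (A := A) (ι := ι) (a := 0) (n := 0) (Z := 0) (by simp) ⟨by simp, by simp⟩, this,
      cls_zero]
  | succ n ih =>
    have := cc_const (A := A) (ι := ι) (e := 1) (by simp) (k + n)
    rw [map_one', map_one', one_mul] at this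
    rw [((ne_dg (k := k) (l := k + n) (by omega)).trans (ne_dg (by omega))).2, ih, succ_nsmul,
      ← this, Nat.cast_succ, add_assoc]

theorem ind_hom (M : (Matrix ι ι (LaurentPolynomial A))ˣ) {k : ℤ}
    (hf : ∀ i j n, n ≠ k → (M.val i j).coeff n = 0) :
    ind M ∈ AddSubgroup.zmultiples (cls (1 : Matrix ι ι A)) := by
  obtain ⟨a, ha⟩ := exists_bd M
  have e : cj M (dg A ι 0) = dg A ι k := by rw [cj, hom_comm hf, mul_assoc, vi, mul_one, zero_add]
  rw [ind_eq (ha a le_rfl) (k := 0) (D := a + k.natAbs) (by omega), ff, e]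
  have h1 := cc_dg (A := A) (ι := ι) k (a + k.natAbs - k).toNat
  have h2 := cc_dg (A := A) (ι := ι) 0 (a + k.natAbs)
  rw [show k + ((a + k.natAbs - k).toNat : ℕ) = a + k.natAbs by omega] at h1
  rw [zero_add, Nat.cast_add] at h2
  rw [h1, h2]
  exact sub_mem (nsmul_mem (AddSubgroup.mem_zmultiples _) _)
    (nsmul_mem (AddSubgroup.mem_zmultiples _) _)

theorem ind_idem {e : Matrix ι ι A} (he : e * e = e) (M : (Matrix ι ι (LaurentPolynomial A))ˣ)
    (h1 : M.val = (1 - e).map C + e.map C * diagonal fun _ => T 1)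
    (h2 : M.inv = (1 - e).map C + e.map C * diagonal fun _ => T (-1)) : ind M = -cls e := by
  have hb : Bd 1 M := by
    refine ⟨fun i j n hn => ?_, fun i j n hn => ?_⟩
    · rw [h1, Matrix.add_apply, mul_diagonal, map_apply, map_apply, AddMonoidAlgebra.coeff_add,
        Finsupp.add_apply, coeff_C_T _ _ _ (by omega), add_zero, coeff_C _ _ (by omega)]
    · rw [h2, Matrix.add_apply, mul_diagonal, map_apply, map_apply, AddMonoidAlgebra.coeff_add,
        Finsupp.add_apply, coeff_C_T _ _ _ (by omega), add_zero, coeff_C _ _ (by omega)]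
  have c0 := hom_comm (f := (1 - e).map C) (k := 0)
    (fun i j n hn => coeff_C ((1 - e) i j) n hn)
  have c1 := hom_comm (f := e.map C * diagonal fun _ => T 1) (k := 1)
    (fun i j n hn => by rw [mul_diagonal, map_apply, coeff_C_T _ _ _ hn])
  have e1 : (1 - e).map C * M.inv = (1 - e).map (C : A →+* LaurentPolynomial A) := by
    rw [h2, mul_add, ← mul_assoc, ← Matrix.map_mul, ← Matrix.map_mul, idem_compl he]
    simp [sub_mul, he]
  have e2 : cj M (dg A ι 0) - dg A ι 1 = ((1 - e).map C).map lm * (dg A ι 0 - dg A ι (0 + 1)) := by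
    have := vi M
    rw [h1, map_add'] at this
    rw [cj, h1, map_add', add_mul, c0, c1, add_mul, mul_assoc, mul_assoc, ← Matrix.map_mul, e1,
      eq_sub_of_add_eq' ((add_mul _ _ _).symm.trans this), ← Matrix.map_mul, e1, mul_sub, mul_sub,
      c0, c0]
    simp only [add_zero, zero_add, mul_one]
    abel
  have h3 := cc_dg (A := A) (ι := ι) 0 1
  rw [ind_eq hb (k := 0) (D := 1) (by simp), ff, e2, cc_const (idem_compl he)]
  simp only [Nat.cast_one, zero_add, one_smul] at h3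
  rw [h3, ← cls_add_compl he]
  abel

/-- If every class in `K₁(S)` is generated by `1 × 1` units that become homogeneous in
`A[t,t⁻¹]`, and `S → A[t,t⁻¹]` has `A` and `t` in its image, idempotents are stably free. -/
theorem stably_free {S : Type u} [Ring S] (ψ : S →+* LaurentPolynomial A) (i : A →+* S) (τ τ' : S)
    (hi : ∀ a, ψ (i a) = C a) (h1 : ψ τ = T 1) (h2 : ψ τ' = T (-1)) (hτ : τ * τ' = 1)
    (hτ' : τ' * τ = 1) (hc : ∀ a, τ * i a = i a * τ) (U : Set (K1 S))
    (hU : ∀ x ∈ U, ∃ (M : (Matrix (Fin 1) (Fin 1) S)ˣ) (k : ℤ),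
      (∀ n, n ≠ k → (ψ (M.val 0 0)).coeff n = 0) ∧ x = K1.mk M)
    (htop : ∀ x, x ∈ AddSubgroup.closure U) {n : ℕ} {e : Matrix (Fin n) (Fin n) A}
    (he : e * e = e) : ∃ k l : ℕ, MEq (fromBlocks e 0 0 (1 : Matrix (Fin k) (Fin k) A))
      (1 : Matrix (Fin l) (Fin l) A) := by
  have hc' : ∀ a, τ' * i a = i a * τ' := fun a => by
    rw [← mul_one (τ' * i a), ← hτ, ← mul_assoc, mul_assoc τ', ← hc, ← mul_assoc, hτ', one_mul]
  have key : ∀ s s' : S, s * s' = 1 → (∀ a, s * i a = i a * s) →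
      ((1 - e).map i + e.map i * diagonal fun _ => s) *
        ((1 - e).map i + e.map i * diagonal fun _ => s') = 1 := fun s s' h hs => by
    have d1 : ∀ f : Matrix (Fin n) (Fin n) A,
        (diagonal fun _ => s) * f.map i = f.map i * diagonal fun _ => s := fun f => by
      ext a b; rw [diagonal_mul, mul_diagonal, map_apply, hs]
    have d2 : ∀ f g : Matrix (Fin n) (Fin n) A, (f.map i * diagonal fun _ => s) * g.map i =
        (f * g).map i * diagonal fun _ => s := fun f g => by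
      rw [mul_assoc, d1, ← mul_assoc, Matrix.map_mul]
    rw [add_mul, mul_add, mul_add, ← mul_assoc, ← mul_assoc, d2, d2, mul_assoc ((e * e).map i),
      diagonal_mul_diagonal]
    simp only [← Matrix.map_mul, idem_compl he, he, h, diagonal_one, mul_one]
    simp [sub_mul, mul_sub, he, ← map_add']
  let M : (Matrix (Fin n) (Fin n) S)ˣ := ⟨_, _, key τ τ' hτ hc, key τ' τ hτ' hc'⟩
  have hM : bdry A (K1.map ψ (K1.mk M)) = -cls e := by
    rw [K1.map_mk, bdry_mk]
    refine ind_idem he _ ?_ ?_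
    · ext1 a b
      simp only [mapGL_val, M, map_apply, Matrix.add_apply, mul_diagonal, map_add, map_mul, hi, h1]
    · ext1 a b
      change ψ (M.inv a b) = _
      simp only [M]
      simp only [map_apply, Matrix.add_apply, mul_diagonal, map_add, map_mul, hi, h2]
  have hle : AddSubgroup.closure U ≤ (AddSubgroup.zmultiples
      (cls (1 : Matrix (Fin 1) (Fin 1) A))).comap ((bdry A).comp (K1.map ψ)) := by
    rw [AddSubgroup.closure_le]
    intro x hx
    obtain ⟨N, k, hk, rfl⟩ := hU x hx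
    rw [SetLike.mem_coe, AddSubgroup.mem_comap, AddMonoidHom.comp_apply, K1.map_mk, bdry_mk]
    refine ind_hom _ (k := k) fun a b m hm => ?_
    obtain rfl : a = 0 := Subsingleton.elim _ _
    obtain rfl : b = 0 := Subsingleton.elim _ _
    exact hk m hm
  obtain ⟨z, hz⟩ := hle (htop (K1.mk M))
  have hz' : z • cls (1 : Matrix (Fin 1) (Fin 1) A) = -cls e := hz.trans hM
  have one : ∀ m : ℕ, cls (1 : Matrix (Fin m) (Fin m) A) =
      m • cls (1 : Matrix (Fin 1) (Fin 1) A) := fun m => by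
    induction m with
    | zero => rw [zero_smul, Subsingleton.elim (1 : Matrix (Fin 0) (Fin 0) A) 0, cls_zero]
    | succ m ih =>
      rw [succ_nsmul, ← ih, ← cls_one_sum, ← cls_reindex finSumFinEquiv (by simp)]
      simp
  have h3 : cls (fromBlocks e 0 0 (1 : Matrix (Fin z.toNat) (Fin z.toNat) A)) =
      cls (1 : Matrix (Fin (-z).toNat) (Fin (-z).toNat) A) := by
    rw [cls_blocks he (by simp), one z.toNat, one (-z).toNat, ← neg_neg (cls e), ← hz', ← natCast_zsmul,
      ← natCast_zsmul, ← neg_zsmul, ← add_zsmul]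
    congr 1
    omega
  obtain ⟨k, hk⟩ := KM1.stab (idem_blocks he (by simp)) (by simp) h3
  refine ⟨z.toNat + k, (-z).toNat + k, ?_⟩
  have i1 := idem_blocks (idem_blocks he (mul_one (1 : Matrix (Fin z.toNat) (Fin z.toNat) A)))
    (mul_one (1 : Matrix (Fin k) (Fin k) A))
  have r1 := MEq.reindex ((Equiv.sumAssoc _ _ _).trans
    ((Equiv.refl (Fin n)).sumCongr finSumFinEquiv)) i1
  have r2 := MEq.reindex (R := A) (finSumFinEquiv (m := (-z).toNat) (n := k)) (mul_one 1)
  rw [fromBlocks_one] at hk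
  have e1 : reindex ((Equiv.sumAssoc _ _ _).trans ((Equiv.refl (Fin n)).sumCongr finSumFinEquiv))
      ((Equiv.sumAssoc _ _ _).trans ((Equiv.refl (Fin n)).sumCongr finSumFinEquiv))
      (fromBlocks (fromBlocks e 0 0 (1 : Matrix (Fin z.toNat) (Fin z.toNat) A)) 0 0
        (1 : Matrix (Fin k) (Fin k) A)) = fromBlocks e 0 0 1 := by
    ext a b
    obtain ⟨a, rfl⟩ := ((Equiv.sumAssoc _ _ _).trans
      ((Equiv.refl (Fin n)).sumCongr (finSumFinEquiv (m := z.toNat) (n := k)))).surjective a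
    obtain ⟨b, rfl⟩ := ((Equiv.sumAssoc _ _ _).trans
      ((Equiv.refl (Fin n)).sumCongr (finSumFinEquiv (m := z.toNat) (n := k)))).surjective b
    rw [reindex_apply, submatrix_apply, Equiv.symm_apply_apply, Equiv.symm_apply_apply]
    rcases a with (a | a) | a <;> rcases b with (b | b) | b <;>
      simp [one_apply, -finSumFinEquiv_apply_left, -finSumFinEquiv_apply_right]
  rw [e1] at r1
  have e2 : reindex (finSumFinEquiv (m := (-z).toNat) (n := k))
      (finSumFinEquiv (m := (-z).toNat) (n := k)) (1 : Matrix _ _ A) = 1 := by simp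
  rw [e2] at r2
  exact MEq.trans (idem_blocks he (by simp)) i1 (by simp) r1.symm
    (MEq.trans i1 (by simp) (by simp) hk r2)

/-- If `H × ℤ` is a retract of `Γ` and `Wh Γ = 0`, idempotent matrices over `ℤH` are stably free. -/
theorem stably_free_of_wh {H Γ : Type u} [Group H] [Group Γ] (i : H →* Γ) (r : Γ →* H)
    (δ : Γ →* Multiplicative ℤ) (τ : Γ) (hr : ∀ h, r (i h) = h) (hδ : ∀ h, δ (i h) = 1)
    (hrτ : r τ = 1) (hδτ : δ τ = Multiplicative.ofAdd 1) (hc : ∀ h, τ * i h = i h * τ)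
    (hW : Subsingleton (Wh Γ)) {n : ℕ} {e : Matrix (Fin n) (Fin n) (MonoidAlgebra ℤ H)}
    (he : e * e = e) :
    ∃ k l : ℕ, MEq (fromBlocks e 0 0 (1 : Matrix (Fin k) (Fin k) (MonoidAlgebra ℤ H)))
      (1 : Matrix (Fin l) (Fin l) (MonoidAlgebra ℤ H)) := by
  let χ : Γ →* LaurentPolynomial (MonoidAlgebra ℤ H) :=
    { toFun := fun g => C (MonoidAlgebra.single (r g) 1) * T (δ g).toAdd
      map_one' := by simp [← MonoidAlgebra.one_def]
      map_mul' := fun g g' => by
        rw [mul_assoc, ← mul_assoc (T _), T_mul, mul_assoc, ← mul_assoc (C _) (C _), ← map_mul,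
          MonoidAlgebra.single_mul_single, one_mul, ← T_add, map_mul, map_mul, toAdd_mul] }
  let ψ : MonoidAlgebra ℤ Γ →+* LaurentPolynomial (MonoidAlgebra ℤ H) :=
    (MonoidAlgebra.lift ℤ _ Γ χ).toRingHom
  have hψ : ∀ g (c : ℤ), ψ (MonoidAlgebra.single g c) =
      C (MonoidAlgebra.single (r g) c) * T (δ g).toAdd := fun g c => by
    change MonoidAlgebra.lift ℤ _ Γ χ (MonoidAlgebra.single g c) = _
    rw [MonoidAlgebra.lift_single]
    change c • (C _ * T _) = _
    rw [← smul_mul_assoc, ← map_zsmul, MonoidAlgebra.smul_single, smul_eq_mul, mul_one]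
  refine stably_free ψ (MonoidAlgebra.mapDomainRingHom ℤ i) (MonoidAlgebra.single τ 1)
    (MonoidAlgebra.single τ⁻¹ 1) (fun a => ?_) ?_ ?_ ?_ ?_ (fun a => ?_) (trivialUnits Γ) ?_
    (fun x => ?_) he
  · induction a using MonoidAlgebra.induction_linear with
    | zero => simp
    | add x y hx hy => simp only [map_add, hx, hy]
    | single h c =>
      rw [MonoidAlgebra.mapDomainRingHom_apply, MonoidAlgebra.mapDomain_single, hψ, hr, hδ]
      simp
  · rw [hψ, hrτ, hδτ]; simp [← MonoidAlgebra.one_def]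
  · rw [hψ, map_inv, map_inv, hrτ, hδτ]; simp [← MonoidAlgebra.one_def]
  · simp [MonoidAlgebra.single_mul_single, ← MonoidAlgebra.one_def]
  · simp [MonoidAlgebra.single_mul_single, ← MonoidAlgebra.one_def]
  · induction a using MonoidAlgebra.induction_linear with
    | zero => simp
    | add x y hx hy => simp only [map_add, mul_add, add_mul, hx, hy]
    | single h c => simp [MonoidAlgebra.single_mul_single, hc]
  · rintro x ⟨g, M, hM, rfl⟩
    refine ⟨M, (δ g).toAdd, fun m hm => ?_, rfl⟩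
    rcases hM with hM | hM <;> rw [hM, hψ, coeff_C_T _ _ _ hm]
  · exact (QuotientAddGroup.eq_zero_iff x).1 (hW.elim (Wh.mk Γ x) 0)

end Pool.Agent.Lib.NIL.BHS0
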