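import Pool.Agent.Lib.NIL.A4
import Pool.Agent.Lib.NIL.Blue2
import Pool.Agent.Lib.NIL.BHS0

/-! Block QB: base cases for perfect complexes and stably free modules. -/

noncomputable section

namespace Pool.Agent.Lib.NIL

open Finsupp TensorProduct

namespace QB

theorem lT_eq {B E : Type} [CommRing B] [Ring E] (φ : E →+ E) (ψ : B ⊗[ℤ] E →+ B ⊗[ℤ] E)
    (h : ∀ b e, b ⊗ₜ φ e = ψ (b ⊗ₜ e)) : lT B φ = ψ := by
  refine AddMonoidHom.ext fun z => ?_
  induction z using TensorProduct.induction_on with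
  | zero => rw [map_zero, map_zero]
  | tmul b e => exact h b e
  | add x y hx hy => rw [map_add, map_add, hx, hy]

theorem tcat_bc' (R B : Type) [Ring R] [CommRing B] :
    (tcat R Unit).bc B = tcat (B ⊗[ℤ] R) Unit := by
  have e1 : lT B (AddMonoidHom.id R) = AddMonoidHom.id _ := lT_eq _ _ fun _ _ => rfl
  have e2 : lT B (0 : R →+ R) = 0 := lT_eq _ _ fun _ _ => tmul_zero _ _
  have e3 : bcF B (⊥ : AddSubgroup R) = ⊥ := by
    refine eq_bot_iff.2 ((AddSubgroup.closure_le _).2 ?_)
    rintro _ ⟨b, e, he, rfl⟩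
    rw [AddSubgroup.mem_bot.1 he, tmul_zero]
    exact zero_mem _
  have e4 : bcF B (⊤ : AddSubgroup R) = ⊤ := by
    refine eq_top_iff.2 fun z hz => ?_
    clear hz
    induction z using TensorProduct.induction_on with
    | zero => exact zero_mem _
    | tmul b e => exact AddSubgroup.subset_closure ⟨b, e, trivial, rfl⟩
    | add x y hx hy => exact add_mem hx hy
  have e : (fun (k : ℤ) (_ _ : Unit) => bcF B (if k = 0 then (⊤ : AddSubgroup R) else ⊥)) =
      fun (k : ℤ) _ _ => if k = 0 then ⊤ else ⊥ := by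
    funext k o o'
    split_ifs
    · exact e4
    · exact e3
  simp only [Cat.bc, tcat, bcat, e1, e2, e]

theorem homF {R S : Type} [Ring R] [Ring S] (φ : R →+* S) :
    IsHomF (tcat R Unit) (tcat S Unit) φ.toAddMonoidHom id :=
  ⟨fun ha => mem_bcat.2 ⟨trivial, fun h => (mem_bcat.1 ha).2 fun e => h (by rw [e, map_zero])⟩,
    map_one φ, fun _ _ => map_mul φ _ _, fun _ => map_zero φ⟩

theorem Q_equiv {R S : Type} [Ring R] [Ring S] (e : R ≃+* S) (h : (tcat R Unit).Q) :
    (tcat S Unit).Q := by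
  intro M hM hp
  have f := (homF e.symm.toRingHom).isFn (tcat_good _ _) (tcat_good _ _)
  have k := (homF e.toRingHom).inO (tcat_good _ _) (tcat_good _ _) (f.obj hM)
    (h _ (f.obj hM) (f.perf (fun _ _ hf => hf.mapA _ _) hM hp))
  rwa [Raw.mapA_mapA, show e.toRingHom.toAddMonoidHom.comp _ = AddMonoidHom.id _ from
    AddMonoidHom.ext e.apply_symm_apply, Raw.mapA_id] at k

theorem sfree_pid (A : Type) [CommRing A] [IsDomain A] [IsPrincipalIdealRing A] : SFree A := by
  intro n e he
  let f : (Fin n → A) →ₗ[A] (Fin n → A) := Matrix.toLinearMapRight' e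
  have hf : ∀ v, f (f v) = f v := fun v => by
    rw [← Matrix.toLinearMapRight'_mul_apply, he]
  obtain ⟨l, ⟨b⟩⟩ := Submodule.nonempty_basis_of_pid (Pi.basisFun A (Fin n)) (LinearMap.range f)
  let x : (Fin n → A) →ₗ[A] (Fin l → A) := b.equivFun.toLinearMap ∘ₗ f.rangeRestrict
  let y : (Fin l → A) →ₗ[A] (Fin n → A) :=
    (LinearMap.range f).subtype ∘ₗ b.equivFun.symm.toLinearMap
  have h1 : y ∘ₗ x = f := LinearMap.ext fun v => by simp [x, y]
  have h2 : x ∘ₗ y = LinearMap.id := LinearMap.ext fun w => by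
    obtain ⟨v, hv⟩ := (b.equivFun.symm w).2
    have : f.rangeRestrict (y w) = b.equivFun.symm w := Subtype.ext (by
      change f (b.equivFun.symm w).1 = _
      rw [← hv, hf])
    change b.equivFun (f.rangeRestrict (y w)) = w
    rw [this, LinearEquiv.apply_symm_apply]
  have h3 : KM1.MEq e (1 : Matrix (Fin l) (Fin l) A) :=
    ⟨LinearMap.toMatrixRight' x, LinearMap.toMatrixRight' y, by
      rw [← LinearMap.toMatrixRight'_comp, h1]; exact LinearEquiv.apply_symm_apply _ _, by
      rw [← LinearMap.toMatrixRight'_comp, h2, LinearMap.toMatrixRight'_id]⟩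
  have h4 := h3.blocks (KM1.MEq.refl (mul_one (1 : Matrix (Fin 0) (Fin 0) A)))
  rw [Matrix.fromBlocks_one] at h4
  have h5 := KM1.MEq.reindex (finSumFinEquiv (m := l) (n := 0))
    (mul_one (1 : Matrix (Fin l ⊕ Fin 0) (Fin l ⊕ Fin 0) A))
  rw [Matrix.reindex_apply, Matrix.submatrix_one_equiv] at h5
  exact ⟨0, l + 0, KM1.MEq.trans (KM1.idem_blocks he (mul_one _)) (mul_one _) (mul_one _) h4 h5⟩

theorem sfree_of_kflat (G : Type) [Group G] (n : ℕ) (h : KFlat G) :
    SFree (MonoidAlgebra ℤ (G × Multiplicative (Fin n → ℤ))) := by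
  intro m e he
  let c : (Fin n → ℤ) →+ (Fin (n + 1) → ℤ) :=
    { toFun := fun v => Fin.cons 0 v
      map_zero' := by funext j; refine Fin.cases ?_ (fun i => ?_) j <;> simp
      map_add' := fun v w => by funext j; refine Fin.cases ?_ (fun i => ?_) j <;> simp }
  let t : (Fin (n + 1) → ℤ) →+ (Fin n → ℤ) :=
    { toFun := fun w j => w j.succ
      map_zero' := rfl
      map_add' := fun _ _ => rfl }
  let d : (Fin (n + 1) → ℤ) →+ ℤ := Pi.evalAddMonoidHom (fun _ => ℤ) 0
  refine BHS0.stably_free_of_wh (Γ := G × Multiplicative (Fin (n + 1) → ℤ))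
    ((MonoidHom.id G).prodMap (AddMonoidHom.toMultiplicative c))
    ((MonoidHom.id G).prodMap (AddMonoidHom.toMultiplicative t))
    ((AddMonoidHom.toMultiplicative d).comp (MonoidHom.snd _ _))
    (1, Multiplicative.ofAdd (Fin.cons 1 0)) (fun x => rfl) (fun x => rfl) rfl rfl
    (fun x => Prod.ext (by simp) (mul_comm _ _)) (h (n + 1)) he

theorem stably_free (R : Type) [Ring R] (h : SFree R) (M : Type) [AddCommGroup M] [Module R M]
    [Module.Finite R M] [Module.Projective R M] : Module.IsStablyFree R M := by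
  obtain ⟨n, f, g, -, -, hfg⟩ := Module.Finite.exists_comp_eq_id_of_projective R M
  have e1 : ∀ m, f (g m) = m := fun m => LinearMap.congr_fun hfg m
  have he : LinearMap.toMatrixRight' (g ∘ₗ f) * LinearMap.toMatrixRight' (g ∘ₗ f) =
      LinearMap.toMatrixRight' (g ∘ₗ f) := by
    rw [← LinearMap.toMatrixRight'_comp, LinearMap.comp_assoc, ← LinearMap.comp_assoc f, hfg,
      LinearMap.id_comp]
  obtain ⟨k, l, x, y, h1, h2⟩ := h n _ he
  let s := LinearEquiv.sumArrowLequivProdArrow (Fin n) (Fin k) R R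
  have h3 : ∀ v, Matrix.toLinearMapRight' y (Matrix.toLinearMapRight' x v) =
      s.symm (g (f (s v).1), (s v).2) := fun v => by
    rw [← Matrix.toLinearMapRight'_mul_apply, h1, Matrix.toLinearMapRight'_apply,
      Matrix.vecMul_fromBlocks, Matrix.vecMul_zero, Matrix.vecMul_zero, Matrix.vecMul_one,
      add_zero, zero_add, ← Matrix.toLinearMapRight'_apply, LinearEquiv.symm_apply_apply]
    rfl
  have h4 : ∀ w, Matrix.toLinearMapRight' x (Matrix.toLinearMapRight' y w) = w := fun w => by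
    rw [← Matrix.toLinearMapRight'_mul_apply, h2, Matrix.toLinearMapRight'_one,
      LinearMap.id_apply]
  let φ : (M × (Fin k → R)) ≃ₗ[R] (Fin l → R) := LinearEquiv.ofLinearMap
    (Matrix.toLinearMapRight' x ∘ₗ s.symm.toLinearMap ∘ₗ g.prodMap LinearMap.id)
    (f.prodMap LinearMap.id ∘ₗ s.toLinearMap ∘ₗ Matrix.toLinearMapRight' y)
    (LinearMap.ext fun w => by
      have := congrArg (Matrix.toLinearMapRight' x) (h3 (Matrix.toLinearMapRight' y w))
      rw [h4, h4] at this
      exact this.symm)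
    (LinearMap.ext fun p => by
      change (f.prodMap LinearMap.id) (s (Matrix.toLinearMapRight' y
        (Matrix.toLinearMapRight' x (s.symm (g p.1, p.2))))) = p
      rw [h3, s.apply_symm_apply, s.apply_symm_apply]
      exact Prod.ext (by simp [e1]) rfl)
  have : Module.Free R (M × (Fin k → R)) := Module.Free.of_equiv φ.symm
  exact Module.IsStablyFree.of_free_prod R M (Fin k → R)

end QB

theorem st_qb (hSF : St_SF) : St_QB := by
  refine ⟨fun G _ _ A _ _ _ => ?_, fun G H _ _ e A _ h => ?_,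
    fun G _ n h => ⟨QB.sfree_of_kflat G n h, ?_⟩, fun R _ h M _ _ _ _ => QB.stably_free R h M⟩
  · rw [QG, QB.tcat_bc']
    exact QB.Q_equiv ((Algebra.TensorProduct.congr (AlgEquiv.refl (R := ℤ) (A₁ := A))
      (MonoidAlgebra.uniqueAlgEquiv ℤ (A := ℤ) G)).trans
      (Algebra.TensorProduct.rid ℤ ℤ A)).toRingEquiv.symm (hSF A (QB.sfree_pid A))
  · rw [QG, QB.tcat_bc'] at h ⊢
    exact QB.Q_equiv (Algebra.TensorProduct.congr (AlgEquiv.refl (R := ℤ) (A₁ := A))
      (MonoidAlgebra.domCongr ℤ ℤ e)).toRingEquiv h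
  · rw [QG, QB.tcat_bc']
    exact QB.Q_equiv (Algebra.TensorProduct.lid ℤ _).toRingEquiv.symm
      (hSF _ (QB.sfree_of_kflat G n h))

end Pool.Agent.Lib.NIL
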