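import Pool.Agent.Lib.NIL.A5
import Pool.Agent.Lib.NIL.Blue2

/-! Block SF: if idempotent matrices are stably free, perfect complexes are cellular. -/

noncomputable section

namespace Pool.Agent.Lib.NIL

open Finsupp

namespace SF

section general

variable {E L : Type} [Ring E] {C : Cat E L} {V X : Raw E L}

/-- a chain map that is null-homotopic on a subobject factors through the quotient -/
theorem exists_factor (hC : C.Good) (hV : C.Obj V) (hX : C.Obj X) {p : V.ι → Prop}
    {f s : Lin V X} (hf : C.Ch V X f) (hs : C.Hom (-1) V X s)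
    (h : ∀ i, p i → f (single i 1) = C.D X (s (single i 1)) + s (C.D V (single i 1))) :
    ∃ f' : Lin (V.res fun i => ¬ p i) X, C.Ch (V.res fun i => ¬ p i) X f' ∧
      C.Ht V X f (f' ∘ₗ prj Subtype.val Subtype.val_injective) := by
  obtain ⟨g, -, hg⟩ := hC.exists_br hV.1 hX.1 hs
  obtain ⟨h1, h2⟩ := hC.ch_of_br_neg hV hX hs hg
  have e1 : ∀ v, g v = C.D X (s v) + s (C.D V v) := fun v => by
    rw [hg v, Int.negOnePow_neg, Int.negOnePow_one, Units.neg_smul, one_smul]
    abel
  have e2 : ((f - g) ∘ₗ inc Subtype.val) ∘ₗ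
      prj (Subtype.val : {i // ¬ p i} → V.ι) Subtype.val_injective = f - g := by
    refine lin_ext fun i k => congrFun (congrArg _ ?_) k
    by_cases hi : p i
    · have e3 : prj (Subtype.val : {i // ¬ p i} → V.ι) Subtype.val_injective (single i (1 : E)) =
          0 := Finsupp.ext fun j => single_eq_of_ne fun e => j.2 (e ▸ hi)
      rw [LinearMap.comp_apply, e3, map_zero, LinearMap.sub_apply, h i hi, e1, sub_self]
    · rw [LinearMap.comp_apply, LinearMap.comp_apply, inc_prj_val fun j hj => ?_]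
      rw [← (mem_support_single _ _ _).1 (mem_support_iff.2 hj) |>.1] at hi
      exact hi
  have h3 := hf.sub h1
  refine ⟨(f - g) ∘ₗ inc Subtype.val, ⟨hC.hom_comp (hC.hom_inc (fun _ => rfl) fun _ => rfl) h3.1 rfl,
    fun v => ?_⟩, ?_⟩
  · rw [Cat.D_res, LinearMap.comp_apply, h3.2]
    exact (LinearMap.congr_fun e2 _).symm
  · rw [e2, ← Cat.ht_sub_iff, lin_sub_sub]
    exact h2

end general

variable {R : Type} [Ring R] {V W M : Raw R Unit}

theorem hom_eq_zero {k : ℤ} {f : Lin V W} (hf : (tcat R Unit).Hom k V W f) (i : V.ι)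
    (h : ∀ j, W.deg j ≠ V.deg i + k) : f (single i 1) = 0 :=
  Finsupp.ext fun j => by_contra fun e => h j ((bcat_hom.1 hf i j).2 e)

theorem hom_conc {a : ℤ} (hV : ∀ i, V.deg i = a) (hW : ∀ i, W.deg i = a) (f : Lin V W) :
    (tcat R Unit).Hom 0 V W f :=
  bcat_hom.2 fun i j => ⟨trivial, fun _ => by rw [hV, hW, add_zero]⟩

theorem zero_conc {a k : ℤ} (hV : ∀ i, V.deg i = a) (hW : ∀ i, W.deg i = a) {f : Lin V W}
    (hf : (tcat R Unit).Hom k V W f) (hk : k ≠ 0) : f = 0 :=
  lin_ext fun i j => by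
    rw [hom_eq_zero hf i fun j => by rw [hV, hW]; omega]; rfl

theorem D_conc {a : ℤ} (hV : ∀ i, V.deg i = a) (oV : (tcat R Unit).Obj V) (v : V.ι →₀ R) :
    (tcat R Unit).D V v = 0 := by
  rw [tcat, bcat_D, zero_conc hV hV oV.1 one_ne_zero]; rfl

theorem ch_conc {a : ℤ} (hV : ∀ i, V.deg i = a) (hW : ∀ i, W.deg i = a)
    (oV : (tcat R Unit).Obj V) (oW : (tcat R Unit).Obj W) (f : Lin V W) :
    (tcat R Unit).Ch V W f :=
  ⟨hom_conc hV hW f, fun v => by rw [D_conc hV oV, D_conc hW oW, map_zero]⟩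

theorem inO_fin (oV : (tcat R Unit).Obj V) (h : Finite V.ι) : (tcat R Unit).InO V :=
  (tcat_good R Unit).inO_of_fin1 oV ((tcat_good R Unit).fin1_of_zero
    (fun _ _ _ _ hk ha => by_contra fun e => hk ((mem_bcat.1 ha).2 e)) oV h)

/-- a free module in one degree -/
@[reducible] def fr (R : Type) [Ring R] (a : ℤ) (k : ℕ) : Raw R Unit :=
  ⟨Fin k, fun _ => a, fun _ => (), 0⟩

theorem fr_obj (a : ℤ) (k : ℕ) : (tcat R Unit).Obj (fr R a k) :=
  ⟨Cat.Hom.zero 1, fun v => by rw [tcat, bcat_D]; rfl⟩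

/-- the linear map of a matrix -/
def ml {α β : Type} [Finite β] (x : Matrix α β R) : (α →₀ R) →ₗ[R] (β →₀ R) :=
  lc fun a => equivFunOnFinite.symm (x a)

theorem ml_single {α β : Type} [Finite β] (x : Matrix α β R) (a : α) (b : β) :
    ml x (single a 1) b = x a b := by
  rw [ml, lc_single]; rfl

theorem lin_apply {α β : Type} [Fintype α] (f : (α →₀ R) →ₗ[R] (β →₀ R)) (v : α →₀ R) (b : β) :
    f v b = ∑ a, v a * f (single a 1) b := by
  conv_lhs => rw [← univ_sum_single v]
  rw [map_sum, finsetSum_apply]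
  refine Finset.sum_congr rfl fun a _ => ?_
  rw [← smul_single_one, map_smul, Finsupp.smul_apply, smul_eq_mul]

theorem ml_mul {α β γ : Type} [Fintype β] [Finite γ] (x : Matrix α β R) (y : Matrix β γ R) :
    ml (x * y) = ml y ∘ₗ ml x :=
  lin_ext fun a c => by
    rw [ml_single, LinearMap.comp_apply, lin_apply, Matrix.mul_apply]
    exact Finset.sum_congr rfl fun b _ => by rw [ml_single, ml_single]

theorem ml_one {α : Type} [Finite α] [DecidableEq α] : ml (1 : Matrix α α R) = LinearMap.id :=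
  lin_ext fun a b => by rw [ml_single, Matrix.one_apply, LinearMap.id_apply, single_apply]

theorem ml_blocks {α β : Type} [Finite α] [Finite β] (x : Matrix α α R) (y : Matrix β β R) :
    ml (Matrix.fromBlocks x 0 0 y) = mat (ml x) 0 0 (ml y) :=
  lin_ext fun a b => by
    rw [ml_single]
    rcases a with a | a <;> rw [← inc_single]
    · rw [mat_inl, Finsupp.add_apply]
      rcases b with b | b
      · rw [inl_inl, inr_inl, ml_single, add_zero]; rfl
      · rw [inl_inr, inr_inr, zero_add]; rfl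
    · rw [mat_inr, Finsupp.add_apply]
      rcases b with b | b
      · rw [inl_inl, inr_inl, add_zero]; rfl
      · rw [inl_inr, inr_inr, ml_single, zero_add]; rfl

theorem sfree (h : SFree R) {ι : Type} [Fintype ι] {e : Matrix ι ι R} (he : e * e = e) :
    ∃ k l : ℕ, KM1.MEq (Matrix.fromBlocks e 0 0 (1 : Matrix (Fin k) (Fin k) R))
      (1 : Matrix (Fin l) (Fin l) R) := by
  have he' := KM1.reindex_idem (Fintype.equivFin ι) he
  obtain ⟨k, l, h1⟩ := h _ _ he'
  exact ⟨k, l, ((KM1.MEq.reindex (Fintype.equivFin ι) he).blocks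
    (KM1.MEq.refl (Matrix.one_mul 1))).trans (KM1.idem_blocks he (Matrix.one_mul 1))
    (KM1.idem_blocks he' (Matrix.one_mul 1)) (Matrix.one_mul 1) h1⟩

/-- amplitude zero -/
theorem base (h : SFree R) {a : ℤ} (oM : (tcat R Unit).Obj M) (oW : (tcat R Unit).Obj W)
    (hf : Finite W.ι) (hW : ∀ i, W.deg i = a) (hr : (tcat R Unit).Retr M W) :
    (tcat R Unit).InO M := by
  have hC := tcat_good R Unit
  have := Fintype.ofFinite W.ι
  obtain ⟨i, r, hi, hr, hri⟩ := hr
  let e : Matrix W.ι W.ι R := fun x y => (i ∘ₗ r) (single x 1) y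
  have e1 : ml e = i ∘ₗ r := lin_ext fun x y => ml_single e x y
  have e2 : (i ∘ₗ r) ∘ₗ i ∘ₗ r = i ∘ₗ r := by
    obtain ⟨s, hs, hs'⟩ := hC.ht_comp_right (hC.ht_comp_left hr hri) hi
    refine LinearMap.ext fun v => sub_eq_zero.1 ((hs' v).trans ?_)
    rw [zero_conc hW hW hs (by norm_num), D_conc hW oW, LinearMap.zero_apply, add_zero]
  have he : e * e = e := Matrix.ext fun x y => by
    rw [← ml_single (e * e), ml_mul, e1, e2]
  obtain ⟨k, l, x, y, h1, h2⟩ := sfree h he
  have oK := fr_obj (R := R) a k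
  have oL := fr_obj (R := R) a l
  have hS : ∀ j, (W.sum (fr R a k)).deg j = a := by
    rintro (j | j)
    · exact hW j
    · rfl
  have hx := ch_conc (W := fr R a l) hS (fun _ => rfl) (hC.obj_sum oW oK) oL (ml x)
  have hy := ch_conc (V := fr R a l) (fun _ => rfl) hS oL (hC.obj_sum oW oK) (ml y)
  have hi' := hC.ch_diag hi (hC.ch_id (V := fr R a k))
  have hr' := hC.ch_diag hr (hC.ch_id (V := fr R a k))
  have h3 := hC.ht_diag_id (B := fr R a k) (b := LinearMap.id) (b' := LinearMap.id) hri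
    (Cat.Ht.refl _)
  have e3 : ml y ∘ₗ ml x = mat i 0 0 LinearMap.id ∘ₗ mat r 0 0 LinearMap.id := by
    rw [← ml_mul, h1, ml_blocks, ml_one, e1, tri_comp]
    simp
  have e4 : ∀ v, ml x (ml y v) = v := fun v => by
    rw [← LinearMap.comp_apply, ← ml_mul, h2, ml_one]; rfl
  have e5 : ∀ v, ml y (ml x v) = _ := LinearMap.congr_fun e3
  have hE : (tcat R Unit).Eqv (M.sum (fr R a k)) (fr R a l) := by
    refine ⟨_, hC.ch_comp hi' hx, _, hC.ch_comp hy hr', ?_, ?_⟩
    · obtain ⟨s, hs, hs'⟩ := (hC.ht_comp_right h3 (hC.ch_comp hi' hr')).trans h3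
      refine ⟨s, hs, fun v => Eq.trans ?_ (hs' v)⟩
      simp only [LinearMap.comp_apply, e5]
    · refine ⟨0, Cat.Hom.zero _, fun v => ?_⟩
      have := e5 (ml y v)
      simp only [LinearMap.comp_apply, LinearMap.zero_apply, map_zero, add_zero,
        LinearMap.id_apply] at this ⊢
      rw [← this, e4, e4, sub_self]
  exact hC.ses_inO_left (hC.ses_ext (hC.obj_sum oM oK))
    (hC.inO_of_eqv hE (inO_fin oL inferInstance)) (inO_fin oK inferInstance)

/-- the induction on the amplitude -/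
theorem main (h : SFree R) (a : ℤ) (n : ℕ) : ∀ M W : Raw R Unit, (tcat R Unit).Obj M →
    (tcat R Unit).Obj W → Finite W.ι → (∀ i, a ≤ W.deg i ∧ W.deg i ≤ a + n) →
    (tcat R Unit).Retr M W → (tcat R Unit).InO M := by
  have hC := tcat_good R Unit
  induction n with
  | zero =>
    exact fun M W oM oW hf hW => base h oM oW hf fun i =>
      le_antisymm (by simpa using (hW i).2) (hW i).1
  | succ n ih =>
    rintro M W oM oW hf hW ⟨i, r, hi, hr, s, hs, hs'⟩
    push_cast at hW
    let p : W.ι → Prop := fun x => W.deg x = a + n + 1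
    have hδ : ∀ x, p x → W.δ (single x 1) = 0 := fun x hx =>
      hom_eq_zero oW.1 x fun j => by have := (hW j).2; simp only [p] at hx; omega
    have hp : W.Closed p := fun x y hx hy => (hy (by rw [hδ x hx]; rfl)).elim
    let G := W.res p
    have oG : (tcat R Unit).Obj G := (hC.ses_res oW hp).1
    have hG : ∀ x, G.deg x = a + n + 1 := fun x => x.2
    have oG' := Cat.obj_sh.2 oG
    have dG : ∀ v, (tcat R Unit).D G.sh v = 0 := fun v => by
      rw [Cat.D_sh, D_conc hG oG, neg_zero]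
    have hj : (tcat R Unit).Ch G W (inc Subtype.val) :=
      ⟨hC.hom_inc (fun _ => rfl) fun _ => rfl, fun v => (Cat.inc_D_res hp v).symm⟩
    have hθ := hC.ch_comp hj hr
    have hθ' := hC.ch_comp hθ hi
    have oM2 := hC.obj_cone oG oM hθ
    have oW1 := hC.obj_cone oG oW hθ'
    have hi1 := hC.ch_tri (θ := r ∘ₗ inc Subtype.val) (θ' := i ∘ₗ r ∘ₗ inc Subtype.val) hi
      (hC.ch_id (V := G.sh)) (Cat.Hom.zero 0) fun y => by simp
    have hk : (tcat R Unit).Hom 0 G.sh M (s ∘ₗ r ∘ₗ inc Subtype.val) :=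
      (Cat.hom_sh_left (by norm_num)).2 (hC.hom_comp hθ.1 hs rfl)
    have hr1 := hC.ch_tri (θ := i ∘ₗ r ∘ₗ inc Subtype.val) (θ' := r ∘ₗ inc Subtype.val) hr
      (hC.ch_id (V := G.sh)) hk fun y => by
        have e := hs' ((r ∘ₗ inc Subtype.val) y)
        rw [hθ.2, D_conc hG oG, map_zero, map_zero, add_zero, sub_eq_iff_eq_add] at e
        rw [dG, map_zero, add_zero]
        exact e.symm
    have hE := hC.ch_comp hi1 hr1
    rw [tri_comp] at hE
    have hE' := hC.isEqv_tri_one oM2 hE ⟨s, hs, hs'⟩ (Cat.Ht.refl _)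
    rw [← tri_comp] at hE'
    let W1 := G.cone W (i ∘ₗ r ∘ₗ inc Subtype.val)
    let q : W1.ι → Prop := fun x => W1.deg x = a + n + 1
    have hW1 : ∀ x, a ≤ W1.deg x ∧ W1.deg x ≤ a + n + 1 := by
      rintro (x | x)
      · exact ⟨(hW x).1, (hW x).2.trans (by omega)⟩
      · have e : W1.deg (Sum.inr x) = a + n + 1 - 1 := congrArg (· - 1) (hG x)
        omega
    have hδ1 : ∀ x, q x → W1.δ (single x 1) = 0 := fun x hx =>
      hom_eq_zero (V := W1) (W := W1) oW1.1 x fun j => by
        have := (hW1 j).2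
        have hx' : W1.deg x = a + n + 1 := hx
        omega
    have hq : W1.Closed q := fun x y hx hy => (hy (by rw [hδ1 x hx]; rfl)).elim
    have ht : (tcat R Unit).Hom (-1) W1 (G.cone M (r ∘ₗ inc Subtype.val))
        (inc Sum.inr ∘ₗ prj Subtype.val Subtype.val_injective ∘ₗ prj Sum.inl Sum.inl_injective) :=
      hC.hom_comp (hC.hom_comp (hC.hom_fst _) ((Cat.hom_sh_right (n := -1) (W := G) (by norm_num)).2
        (hC.hom_prj _ (fun _ => rfl) fun _ => rfl)) rfl) (hC.hom_inr _) rfl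
    obtain ⟨f, hf1, hf2⟩ := exists_factor hC oW1 oM2 (p := q) hr1 ht (by
      rintro (x | x) hx
      · rw [hC.D_single, hδ1 _ hx, map_zero, add_zero, ← inc_single, mat_inl,
          LinearMap.comp_apply, LinearMap.comp_apply, prj_inc, Cat.D_ext_inr, dG, map_zero,
          zero_add, LinearMap.comp_apply, inc_prj_val, LinearMap.zero_apply, map_zero, add_zero]
        intro j hj
        rw [((mem_support_single _ _ _).1 (mem_support_iff.2 hj)).1]
        exact hx
      · have e : W1.deg (Sum.inr x) = a + n + 1 - 1 := congrArg (· - 1) (hG x)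
        simp only [q] at hx
        omega)
    have hπ : (tcat R Unit).Ch W1 (W1.res fun x => ¬ q x)
        (prj Subtype.val Subtype.val_injective) :=
      ⟨hC.hom_prj _ (fun _ => rfl) fun _ => rfl, fun v => Cat.D_res_prj hq v⟩
    have hR := hC.retr_of_isEqv (hC.ch_comp hi1 hπ) hf1
      (hC.isEqv_of_ht hE' (hC.ch_comp (hC.ch_comp hi1 hπ) hf1) (hC.ht_comp_left hi1 hf2))
    have h2 := ih _ _ oM2 (hC.ses_res oW1 hq).2.2.1 inferInstance (fun x => by
      have h3 := hW1 x.1
      have h4 : W1.deg x.1 ≠ a + n + 1 := x.2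
      exact ⟨h3.1, by change W1.deg x.1 ≤ _; omega⟩) hR
    exact hC.ses_inO_left (hC.ses_ext oM2) h2 (inO_fin oG' inferInstance)

end SF

theorem st_sf : St_SF := by
  rintro R _ h M oM ⟨W, oW, ⟨hf, -⟩, hr⟩
  obtain ⟨a, ha⟩ := Raw.bdd_of_finite hf
  obtain ⟨n, hn⟩ := (Set.finite_range fun i => (W.deg i - a).toNat).bddAbove
  refine SF.main h a n M W oM oW hf (fun i => ⟨ha i, ?_⟩) hr
  have : (W.deg i - a).toNat ≤ n := hn ⟨i, rfl⟩
  omega

end Pool.Agent.Lib.NIL
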