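import Pool.Agent.Lib.NIL.A3

/-! A4: functors. -/

set_option linter.unusedSectionVars false

namespace Pool.Agent.Lib.NIL

open Finsupp

variable {E L E' L' E'' L'' : Type} [Ring E] [Ring E'] [Ring E''] {C : Cat E L} {C' : Cat E' L'}
  {A B U V W : Raw E L}

namespace IsFn

variable {F : Raw E L → Raw E' L'} {m : ∀ V W : Raw E L, Lin V W → Lin (F V) (F W)}
  (h : IsFn C C' F m) (hC : C.Good) (hC' : C'.Good)
include h

theorem zero (V W : Raw E L) : m V W 0 = 0 := by
  have := h.add V W 0 0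
  rw [add_zero] at this
  exact LinearMap.ext fun v => left_eq_add.1 (LinearMap.congr_fun this v)

theorem neg (V W : Raw E L) (f : Lin V W) : m V W (-f) = -m V W f := by
  have := h.add V W (-f) f
  rw [show -f + f = 0 from neg_add_cancel f, h.zero] at this
  exact LinearMap.ext fun v => eq_neg_iff_add_eq_zero.2 (LinearMap.congr_fun this v).symm

theorem sub (V W : Raw E L) (f g : Lin V W) : m V W (f - g) = m V W f - m V W g := by
  have := h.add V W (f - g) g
  rw [show f - g + g = f from sub_add_cancel f g] at this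
  exact LinearMap.ext fun v => eq_sub_iff_add_eq.2 (LinearMap.congr_fun this v).symm

theorem ch {f : Lin V W} (hV : C.Obj V) (hW : C.Obj W) (hf : C.Ch V W f) :
    C'.Ch (F V) (F W) (m V W f) :=
  Cat.ch_of_br (h.hom hf.1) (by have := h.br hV hW hf.1 hf.br; rwa [h.zero] at this)

theorem att {f : Lin V W} (hV : C.Obj V) (hW : C.Obj W) (hf : C.At V W f) :
    C'.At (F V) (F W) (m V W f) := by
  have : C.Br 1 V W f 0 := fun v => by simp [hf.2 v]
  refine ⟨h.hom hf.1, fun v => ?_⟩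
  have := h.br hV hW hf.1 this v
  simpa [h.zero] using this

theorem ht {f g : Lin V W} (hV : C.Obj V) (hW : C.Obj W) (hf : C.Ht V W f g) :
    C'.Ht (F V) (F W) (m V W f) (m V W g) := by
  obtain ⟨k, h1, h2⟩ := Cat.ht_iff_br.1 hf
  exact Cat.ht_iff_br.2 ⟨_, h.hom h1, by rw [← h.sub]; exact h.br hV hW h1 h2⟩

theorem isEqv {f : Lin V W} (hV : C.Obj V) (hW : C.Obj W) (hf : C.IsEqv V W f) :
    C'.IsEqv (F V) (F W) (m V W f) := by
  obtain ⟨hf, g, hg, h1, h2⟩ := hf
  refine ⟨h.ch hV hW hf, m W V g, h.ch hW hV hg, ?_, ?_⟩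
  · rw [← h.comp hf.1 hg.1, ← h.id]; exact h.ht hV hV h1
  · rw [← h.comp hg.1 hf.1, ← h.id]; exact h.ht hW hW h2

theorem eqv (hV : C.Obj V) (hW : C.Obj W) (e : C.Eqv V W) : C'.Eqv (F V) (F W) :=
  let ⟨_, hf⟩ := e; ⟨_, h.isEqv hV hW hf⟩

theorem retr (hV : C.Obj V) (hW : C.Obj W) (e : C.Retr V W) : C'.Retr (F V) (F W) := by
  obtain ⟨i, r, hi, hr, e⟩ := e
  refine ⟨_, _, h.ch hV hW hi, h.ch hW hV hr, ?_⟩
  rw [← h.comp hi.1 hr.1, ← h.id]; exact h.ht hV hV e

theorem ctr (hV : C.Obj V) (e : C.Ctr V) : C'.Ctr (F V) := by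
  have := h.ht hV hV e
  rwa [h.id, h.zero] at this

theorem nul {z : E} {z' : E'} (hV : C.Obj V) (hz : m V V (scal V.ι z) = scal (F V).ι z')
    (e : C.Nul z V) : C'.Nul z' (F V) := by
  have := h.ht hV hV e
  rwa [hz, h.zero] at this

theorem ses (e : C.SES A V B) : C'.SES (F A) (F V) (F B) := by
  obtain ⟨hA, hV, hB, i, q, r, s, hi, hq, hr, hs, e1, e2, e3⟩ := e
  refine ⟨h.obj hA, h.obj hV, h.obj hB, _, _, _, _, h.ch hA hV hi, h.ch hV hB hq, h.hom hr,
    h.hom hs, ?_, ?_, ?_⟩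
  · rw [← h.comp hi.1 hr, e1, h.id]
  · rw [← h.comp hs hq.1, e2, h.id]
  · rw [← h.comp hr hi.1, ← h.comp hq.1 hs, ← h.add, e3, h.id]

theorem inO (hF : ∀ W, C.Obj W → W.Fin1 → C'.InO (F W)) (hC' : C'.Good) (hV : C.Obj V)
    (e : C.InO V) : C'.InO (F V) :=
  let ⟨W, hW, hf, e⟩ := e; hC'.inO_of_eqv (h.eqv hV hW e) (hF W hW hf)

theorem perf (hF : ∀ W, C.Obj W → W.Fin1 → (F W).Fin1) (hV : C.Obj V) (e : C.Perf V) :
    C'.Perf (F V) :=
  let ⟨W, hW, hf, e⟩ := e; ⟨F W, h.obj hW, hF W hW hf, h.retr hV hW e⟩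

theorem trans {C'' : Cat E'' L''} {F' : Raw E' L' → Raw E'' L''}
    {m' : ∀ V W : Raw E' L', Lin V W → Lin (F' V) (F' W)} (h' : IsFn C' C'' F' m') :
    IsFn C C'' (fun V => F' (F V)) fun V W f => m' (F V) (F W) (m V W f) where
  obj hV := h'.obj (h.obj hV)
  hom hf := h'.hom (h.hom hf)
  id V := by rw [h.id, h'.id]
  add V W f g := by rw [h.add, h'.add]
  comp hf hg := by rw [h.comp hf hg, h'.comp (h.hom hf) (h.hom hg)]
  br hV hW hf H := h'.br (h.obj hV) (h.obj hW) (h.hom hf) (h.br hV hW hf H)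

theorem comp_apply {k k' : ℤ} {f : Lin U V} {g : Lin V W} {e : Lin U W} (hf : C.Hom k U V f)
    (hg : C.Hom k' V W g) (he : ∀ v, g (f v) = e v) (v : (F U).ι →₀ E') :
    m V W g (m U V f v) = m U W e v := by
  rw [← show g ∘ₗ f = e from LinearMap.ext he, h.comp hf hg, LinearMap.comp_apply]

include hC hC'

theorem eqv_ext {θ : Lin B A} (hV : C.Obj (A.ext B θ)) :
    C'.Eqv (F (A.ext B θ)) ((F A).ext (F B) (m B A θ)) := by
  obtain ⟨hA, hB, hθ⟩ := hC.of_obj_ext hV
  have hi := hC.hom_inl θ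
  have hs := hC.hom_inr θ
  have hr := hC.hom_fst θ
  have hq := hC.hom_snd θ
  have e1 := (h.ch hA hV (hC.ch_inl θ)).2
  have e2 := h.br hB hV hs (g := inc Sum.inl ∘ₗ θ) fun v => by
    rw [Int.negOnePow_zero, one_smul]; exact Cat.D_ext_inr θ v
  have e3 := h.add (A.ext B θ) (A.ext B θ) (inc Sum.inl ∘ₗ prj Sum.inl Sum.inl_injective)
    (inc Sum.inr ∘ₗ prj Sum.inr Sum.inr_injective)
  have e4 : ((inc Sum.inl ∘ₗ prj Sum.inl Sum.inl_injective +
      inc Sum.inr ∘ₗ prj Sum.inr Sum.inr_injective : Lin (A.ext B θ) (A.ext B θ))) =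
      LinearMap.id := LinearMap.ext inl_add_inr
  have e5 := h.comp_apply hi hr (e := LinearMap.id) (prj_inc _)
  have e6 := h.comp_apply hs hr (e := 0) prj_inl_inr
  have e7 := h.comp_apply hi hq (e := 0) prj_inr_inl
  have e8 := h.comp_apply hs hq (e := LinearMap.id) (prj_inc _)
  rw [h.comp hθ.1 hi] at e2
  rw [h.comp hr hi, h.comp hq hs, e4, h.id] at e3
  rw [h.id] at e5 e8
  rw [h.zero] at e6 e7
  replace hi := h.hom hi
  replace hs := h.hom hs
  replace hr := h.hom hr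
  replace hq := h.hom hq
  generalize m A (A.ext B θ) _ = i at *
  generalize m B (A.ext B θ) _ = s at *
  generalize m (A.ext B θ) A _ = r at *
  generalize m (A.ext B θ) B _ = q at *
  generalize m B A θ = t at *
  generalize F (A.ext B θ) = X at *
  have h1 : C'.Ch ((F A).ext (F B) t) X
      (i ∘ₗ prj Sum.inl Sum.inl_injective + s ∘ₗ prj Sum.inr Sum.inr_injective) := by
    refine ⟨(hC'.hom_comp (hC'.hom_fst t) hi (add_zero 0)).add
      (hC'.hom_comp (hC'.hom_snd t) hs (add_zero 0)), fun v => ?_⟩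
    obtain ⟨x, y, rfl⟩ := exists_lr v
    rw [Cat.D_lr]
    simp only [LinearMap.add_apply, LinearMap.comp_apply, fst_lr, snd_lr]
    rw [map_add, map_add, e1, e2, Int.negOnePow_zero, one_smul, LinearMap.comp_apply]
    abel
  have h2 : C'.Hom 0 X ((F A).ext (F B) t) (inc Sum.inl ∘ₗ r + inc Sum.inr ∘ₗ q) :=
    (hC'.hom_comp hr (hC'.hom_inl t) (add_zero 0)).add
      (hC'.hom_comp hq (hC'.hom_inr t) (add_zero 0))
  refine Cat.Eqv.symm ⟨_, (hC'.isEqv_of_inv h1 h2 (LinearMap.ext fun v => ?_)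
    (LinearMap.ext fun v => ?_)).1⟩
  · obtain ⟨x, y, rfl⟩ := exists_lr v
    simp only [LinearMap.add_apply, LinearMap.comp_apply, fst_lr, snd_lr, LinearMap.id_apply]
    exact lr_eq (by rw [map_add, e5, e6]; exact add_zero x) (by rw [map_add, e7, e8]; exact zero_add y)
  · simp only [LinearMap.add_apply, LinearMap.comp_apply, fst_lr, snd_lr]
    exact (LinearMap.congr_fun e3 v).symm

theorem eqv_sum (hA : C.Obj A) (hB : C.Obj B) : C'.Eqv (F (A.sum B)) ((F A).sum (F B)) := by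
  have := h.eqv_ext hC hC' (hC.obj_sum hA hB)
  rwa [h.zero] at this

theorem isEqv_sh (hV : C.Obj V) : C'.IsEqv (F V).sh (F V.sh) (m V V.sh LinearMap.id) := by
  have h1 : C.Hom (-1) V V.sh LinearMap.id := (Cat.hom_sh_right (k := 0) rfl).2 hC.hom_id
  have h2 : C.Hom 1 V.sh V LinearMap.id := (Cat.hom_sh_left (k := 0) rfl).2 hC.hom_id
  have h3 := h.br hV (Cat.obj_sh.2 hV) h1 (g := 0) fun v => (Cat.D_sh v).trans (by simp)
  have h4 : C'.Ch (F V).sh (F V.sh) (m V V.sh LinearMap.id) :=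
    ⟨(Cat.hom_sh_left (n := 0) rfl).2 (h.hom h1), fun v => by
      rw [h3, h.zero, Cat.D_sh]
      simp⟩
  have h5 : C'.Hom 0 (F V.sh) (F V).sh (m V.sh V LinearMap.id) :=
    (Cat.hom_sh_right (n := 0) rfl).2 (h.hom h2)
  exact (hC'.isEqv_of_inv h4 h5 ((h.comp h1 h2).symm.trans (h.id V))
    ((h.comp h2 h1).symm.trans (h.id V.sh))).1

theorem eqv_cone {f : Lin V W} (hV : C.Obj V) (hW : C.Obj W) (hf : C.Ch V W f) :
    C'.Eqv (F (V.cone W f)) ((F V).cone (F W) (m V W f)) := by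
  have h0 := Cat.obj_sh.2 hV
  have h1 := hC'.eqv_ext_right (h.obj hW) (h.obj h0) (Cat.obj_sh.2 (h.obj hV))
    (h.att h0 hW (Cat.at_sh.2 hf)) (h.isEqv_sh hC hC' hV)
  have h2 : C.Hom (-1) V V.sh LinearMap.id := (Cat.hom_sh_right (k := 0) rfl).2 hC.hom_id
  rw [← h.comp h2 (Cat.at_sh.2 hf).1] at h1
  exact hC'.eqv_trans (h.eqv_ext hC hC' (hC.obj_cone hV hW hf)) h1.symm

theorem eqv_sh (hV : C.Obj V) : C'.Eqv (F V.sh) (F V).sh :=
  Cat.Eqv.symm ⟨_, h.isEqv_sh hC hC' hV⟩

end IsFn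

theorem mapL_single' {ι κ : Type} (φ : E →+ E') (f : (ι →₀ E) →ₗ[E] (κ →₀ E)) (i : ι) :
    mapL φ f (single i 1) = mapRange φ φ.map_zero (f (single i 1)) := by
  simp [mapL]

theorem mapL_single {ι κ : Type} (φ : E →+ E') (f : (ι →₀ E) →ₗ[E] (κ →₀ E)) (i : ι) (k : κ) :
    mapL φ f (single i 1) k = φ (f (single i 1) k) := by
  rw [mapL_single', mapRange_apply]

theorem lin_ext {ι κ : Type} {f g : (ι →₀ E) →ₗ[E] (κ →₀ E)}
    (h : ∀ i k, f (single i 1) k = g (single i 1) k) : f = g :=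
  lhom_ext' fun i => LinearMap.ext_ring (Finsupp.ext (h i))

theorem mapL_mapL {ι κ : Type} (φ : E →+ E') (ψ : E' →+ E'') (f : (ι →₀ E) →ₗ[E] (κ →₀ E)) :
    mapL ψ (mapL φ f) = mapL (ψ.comp φ) f :=
  lin_ext fun i k => by simp only [mapL_single, AddMonoidHom.comp_apply]

theorem mapL_congr {ι κ : Type} {φ ψ : E →+ E'} {f : (ι →₀ E) →ₗ[E] (κ →₀ E)}
    (h : ∀ i k, φ (f (single i 1) k) = ψ (f (single i 1) k)) : mapL φ f = mapL ψ f :=
  lin_ext fun i k => by rw [mapL_single, mapL_single, h]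

theorem mapL_id {ι κ : Type} (f : (ι →₀ E) →ₗ[E] (κ →₀ E)) : mapL (AddMonoidHom.id E) f = f :=
  lin_ext fun i k => by rw [mapL_single, AddMonoidHom.id_apply]

theorem mapL_add {ι κ : Type} (φ : E →+ E') (f g : (ι →₀ E) →ₗ[E] (κ →₀ E)) :
    mapL φ (f + g) = mapL φ f + mapL φ g :=
  lin_ext fun i k => by
    simp only [mapL_single, LinearMap.add_apply, Finsupp.add_apply, map_add]

theorem mapL_zero {ι κ : Type} (φ : E →+ E') : mapL φ (0 : (ι →₀ E) →ₗ[E] (κ →₀ E)) = 0 :=
  lin_ext fun i k => by simp only [mapL_single, LinearMap.zero_apply, Finsupp.zero_apply, map_zero]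

theorem mapL_neg {ι κ : Type} (φ : E →+ E') (f : (ι →₀ E) →ₗ[E] (κ →₀ E)) :
    mapL φ (-f) = -mapL φ f :=
  lin_ext fun i k => by simp only [mapL_single, LinearMap.neg_apply, Finsupp.neg_apply, map_neg]

theorem mapL_scal (ι : Type) (φ : E →+ E') (z : E) : mapL φ (scal ι z) = scal ι (φ z) :=
  lin_ext fun i k => by
    classical
    rw [mapL_single, scal_single, scal_single, one_mul, one_mul, single_apply, single_apply]
    split_ifs <;> simp

namespace Raw

variable (φ : E →+ E') (l : L → L')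

theorem mapA_mapA (ψ : E' →+ E'') (l' : L' → L'') :
    (V.mapA φ l).mapA ψ l' = V.mapA (ψ.comp φ) (l' ∘ l) := by
  simp only [mapA, mapL_mapL]; rfl

theorem mapA_id : V.mapA (AddMonoidHom.id E) l = V.relab l := by
  simp only [mapA, mapL_id]

theorem mapA_sh : V.sh.mapA φ l = (V.mapA φ l).sh := by
  simp only [mapA, sh, mapL_neg]

theorem mapA_ext (θ : Lin B A) :
    (A.ext B θ).mapA φ l = (A.mapA φ l).ext (B.mapA φ l) (mapL φ θ) := by
  have e : mapL φ (A.ext B θ).δ = ((A.mapA φ l).ext (B.mapA φ l) (mapL φ θ)).δ := by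
    refine lin_ext fun i k => ?_
    rw [mapL_single]
    rcases i with i | i
    · have h1 := ext_δ_inl θ (single i (1 : E))
      have h2 := ext_δ_inl (A := A.mapA φ l) (B := B.mapA φ l) (mapL φ θ) (single i (1 : E'))
      simp only [lmapDomain_apply, mapDomain_single] at h1 h2
      rw [h1, h2]
      rcases k with k | k
      · rw [mapDomain_apply Sum.inl_injective, mapDomain_apply Sum.inl_injective, mapL_single]
      · rw [mapDomain_of_notMem_range _ _ (by simp), mapDomain_of_notMem_range _ _ (by simp), map_zero]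
    · have h1 := ext_δ_inr θ (single i (1 : E))
      have h2 := ext_δ_inr (A := A.mapA φ l) (B := B.mapA φ l) (mapL φ θ) (single i (1 : E'))
      simp only [lmapDomain_apply, mapDomain_single] at h1 h2
      rw [h1, h2, Finsupp.add_apply, Finsupp.add_apply, map_add]
      rcases k with k | k
      · rw [mapDomain_apply Sum.inl_injective, mapDomain_apply Sum.inl_injective, mapL_single,
          mapDomain_of_notMem_range _ _ (by simp), mapDomain_of_notMem_range _ _ (by simp), map_zero]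
      · rw [mapDomain_apply Sum.inr_injective, mapDomain_apply Sum.inr_injective, mapL_single,
          mapDomain_of_notMem_range _ _ (by simp), mapDomain_of_notMem_range _ _ (by simp), map_zero]
  have e' : l ∘ (A.ext B θ).lab = Sum.elim (l ∘ A.lab) (l ∘ B.lab) := by
    funext i; rcases i with i | i <;> rfl
  show Raw.mk _ _ (l ∘ (A.ext B θ).lab) (mapL φ (A.ext B θ).δ) = _
  rw [e, e']

theorem mapA_sum : (A.sum B).mapA φ l = (A.mapA φ l).sum (B.mapA φ l) := by
  rw [mapA_ext, mapL_zero]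

theorem mapA_res (p : V.ι → Prop) : (V.res p).mapA φ l = (V.mapA φ l).res p := by
  have e : mapL φ (V.res p).δ = ((V.mapA φ l).res p).δ := by
    refine lin_ext fun i k => ?_
    rw [mapL_single, res_δ]
    exact ((res_δ (V := V.mapA φ l) p i k).trans (mapL_single φ V.δ i.1 k.1)).symm
  show Raw.mk _ _ _ (mapL φ (V.res p).δ) = _
  rw [e]; rfl

theorem Rx.mapA (h : V.Rx W) : (V.mapA φ l).Rx (W.mapA φ l) := by
  obtain ⟨e, h1, h2, h3⟩ := h
  refine ⟨e, h1, fun i => congrArg l (h2 i), fun i i' => ?_⟩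
  exact (mapL_single φ W.δ _ _).trans ((congrArg φ (h3 i i')).trans (mapL_single φ V.δ _ _).symm)

theorem ne_of_mapA {i i' : V.ι} (h : (V.mapA φ l).δ (single i 1) i' ≠ 0) :
    V.δ (single i 1) i' ≠ 0 := fun e =>
  h ((mapL_single φ V.δ i i').trans (by rw [e, map_zero]))

theorem WF.mapA (h : V.WF) : (V.mapA φ l).WF :=
  Subrelation.wf (fun h' => ne_of_mapA φ l h') h

theorem Fin1.mapA (h : V.Fin1) : (V.mapA φ l).Fin1 := ⟨h.1, h.2.mapA φ l⟩

theorem Closed.mapA {p : V.ι → Prop} (h : V.Closed p) : (V.mapA φ l).Closed p :=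
  fun i i' hi h' => h i i' hi (ne_of_mapA φ l h')

theorem Disky.mapA (h1 : φ 1 = 1) (h : V.Disky) : (V.mapA φ l).Disky := by
  classical
  obtain ⟨κ, e, ρ, s, hd, hl, h⟩ := h
  refine ⟨κ, e, ρ, s, hd, fun k => congrArg l (hl k), fun k b k' b' hk => ?_⟩
  refine (mapL_single φ V.δ _ _).trans ?_
  rw [h k b k' b' hk, single_apply, single_apply]
  split_ifs
  · rw [Units.smul_def, Units.smul_def, map_zsmul, h1]
  · exact map_zero φ

end Raw

theorem IsHomF.mapRange_mem {φ : E →+ E'} {l : L → L'} (h : IsHomF C C' φ l) {k : ℤ} {o : L}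
    {v : V.ι →₀ E} (hv : v ∈ C.M V k o) :
    mapRange φ φ.map_zero v ∈ C'.M (V.mapA φ l) k (l o) := fun i => h.mem (hv i)

theorem IsHomF.hom {φ : E →+ E'} {l : L → L'} (h : IsHomF C C' φ l) {k : ℤ} {f : Lin V W}
    (hf : C.Hom k V W f) : C'.Hom k (V.mapA φ l) (W.mapA φ l) (mapL φ f) := fun i => by
  have := h.mapRange_mem (hf i)
  rwa [← mapL_single'] at this

theorem IsHomF.mapRange_map {φ : E →+ E'} {l : L → L'} (h : IsHomF C C' φ l) {k m : ℤ} {o : L}
    {f : Lin V W} (hf : C.Hom k V W f) {v : V.ι →₀ E} (hv : v ∈ C.M V m o) :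
    mapRange φ φ.map_zero (f v) = mapL φ f (mapRange φ φ.map_zero v) := by
  have e : f v = v.sum fun i a => a • f (single i 1) := by
    conv_lhs => rw [← sum_single v]
    rw [map_finsuppSum]
    exact Finsupp.sum_congr fun i _ => by rw [← map_smul, smul_single, smul_eq_mul, mul_one]
  rw [mapL, linearCombination_apply, sum_mapRange_index (by simp), e]
  ext j
  rw [mapRange_apply, Finsupp.sum_apply, Finsupp.sum_apply, map_finsuppSum]
  refine Finsupp.sum_congr fun i _ => ?_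
  rw [Finsupp.smul_apply, Finsupp.smul_apply, mapRange_apply, smul_eq_mul, smul_eq_mul]
  exact h.mul (hv i) (hf i j)

theorem IsHomF.mapRange_D {φ : E →+ E'} {l : L → L'} (h : IsHomF C C' φ l) {m : ℤ} {o : L}
    (hV : C.Hom 1 V V V.δ) {v : V.ι →₀ E} (hv : v ∈ C.M V m o) :
    mapRange φ φ.map_zero (C.D V v) = C'.D (V.mapA φ l) (mapRange φ φ.map_zero v) := by
  rw [Cat.D_apply, Cat.D_apply, mapRange_add φ.map_add, h.mapRange_map hV hv]
  congr 1
  ext j
  rw [mapRange_apply, Raw.tw_apply]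
  refine Eq.trans ?_ (Raw.tw_apply (V.mapA φ l) C'.d _ j).symm
  rw [mapRange_apply, Units.smul_def, Units.smul_def, map_zsmul, h.d (hv j)]

theorem IsHomF.isFn {φ : E →+ E'} {l : L → L'} (h : IsHomF C C' φ l) (hC : C.Good)
    (hC' : C'.Good) : IsFn C C' (fun V => V.mapA φ l) fun _ _ f => mapL φ f where
  obj {V} hV := hC'.obj_of_basis (h.hom hV.1) fun i => by
    have e := h.mapRange_D hV.1 (hV.1 i)
    rw [← mapL_single', ← hC.D_single, hV.2, mapRange_zero] at e
    exact e.symm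
  hom hf := h.hom hf
  id V := lin_ext fun i k => by
    classical
    rw [mapL_single, LinearMap.id_apply, LinearMap.id_apply, single_apply, single_apply]
    split_ifs
    · exact h.one
    · exact map_zero φ
  add _ _ f g := mapL_add φ f g
  comp {k k' U V W f g} hf hg := lin_ext fun i j => by
    rw [mapL_single', LinearMap.comp_apply, LinearMap.comp_apply, mapL_single',
      h.mapRange_map hg (hf i)]
  br {k V W f g} hV hW hf e := hC'.br_of_basis (h.hom hf) fun i => by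
    have e1 := h.mapRange_D hW.1 (hf i)
    have e2 := h.mapRange_map hf (hV.1 i)
    rw [← mapL_single'] at e1 e2
    refine e1.symm.trans ?_
    rw [e, hC.D_single, mapRange_add φ.map_add, ← mapL_single', ← e2]
    congr 1
    ext j
    rw [mapRange_apply, Finsupp.smul_apply, Finsupp.smul_apply, mapRange_apply, Units.smul_def,
      Units.smul_def,
      map_zsmul]

theorem IsHomF.inO {φ : E →+ E'} {l : L → L'} (h : IsHomF C C' φ l) (hC : C.Good)
    (hC' : C'.Good) (hV : C.Obj V) (e : C.InO V) : C'.InO (V.mapA φ l) :=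
  (h.isFn hC hC').inO
    (fun _ hW hf => hC'.inO_of_fin1 ((h.isFn hC hC').obj hW) (hf.mapA φ l)) hC' hV e

theorem IsHomF.comp {C'' : Cat E'' L''} {φ : E →+ E'} {l : L → L'} {ψ : E' →+ E''} {l' : L' → L''}
    (h : IsHomF C C' φ l) (h' : IsHomF C' C'' ψ l') : IsHomF C C'' (ψ.comp φ) (l' ∘ l) where
  mem ha := h'.mem (h.mem ha)
  one := by rw [AddMonoidHom.comp_apply, h.one, h'.one]
  mul ha hb := by
    simp only [AddMonoidHom.comp_apply]
    rw [h.mul ha hb, h'.mul (h.mem ha) (h.mem hb)]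
  d ha := by
    simp only [AddMonoidHom.comp_apply]
    rw [h.d ha, h'.d (h.mem ha)]

theorem D_relab {C₁ : Cat E L'} (l : L → L') (hd : C₁.d = C.d) (V : Raw E L) :
    C₁.D (V.relab l) = C.D V := by
  unfold Cat.D
  rw [hd]; rfl

theorem hom_relab {C₁ : Cat E L'} {l : L → L'} (h : ∀ k o o', C.H k o o' ≤ C₁.H k (l o) (l o'))
    {k : ℤ} {f : Lin V W} (hf : C.Hom k V W f) : C₁.Hom k (V.relab l) (W.relab l) f :=
  fun i j => h _ _ _ (hf i j)

/-- an object whose entries lie in another family -/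
theorem obj_of_hom {C₁ : Cat E L'} {l : L → L'} (hd : C₁.d = C.d) (hV : C.Obj V)
    (h : C₁.Hom 1 (V.relab l) (V.relab l) V.δ) : C₁.Obj (V.relab l) :=
  ⟨h, fun v => by rw [D_relab l hd]; exact hV.2 v⟩

/-- inclusion of families in the same ambient ring -/
theorem relab_isFn {C₁ : Cat E L'} {l : L → L'} (hd : C₁.d = C.d)
    (h : ∀ k o o', C.H k o o' ≤ C₁.H k (l o) (l o')) :
    IsFn C C₁ (fun V => V.relab l) fun _ _ f => f where
  obj hV := obj_of_hom hd hV (hom_relab h hV.1)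
  hom hf := hom_relab h hf
  id _ := rfl
  add _ _ _ _ := rfl
  comp _ _ := rfl
  br _ _ _ e v := by rw [D_relab l hd, D_relab l hd]; exact e v

theorem ch_relab {C₁ : Cat E L'} {l : L → L'} (hd : C₁.d = C.d)
    (h : ∀ k o o', C.H k o o' ≤ C₁.H k (l o) (l o')) {f : Lin V W} (hf : C.Ch V W f) :
    C₁.Ch (V.relab l) (W.relab l) f :=
  ⟨hom_relab h hf.1, fun v => by rw [D_relab l hd, D_relab l hd]; exact hf.2 v⟩

theorem ht_relab {C₁ : Cat E L'} {l : L → L'} (hd : C₁.d = C.d)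
    (h : ∀ k o o', C.H k o o' ≤ C₁.H k (l o) (l o')) {f g : Lin V W} (hf : C.Ht V W f g) :
    C₁.Ht (V.relab l) (W.relab l) f g := by
  obtain ⟨t, ht, e⟩ := hf
  exact ⟨t, hom_relab h ht, fun v => by rw [D_relab l hd, D_relab l hd]; exact e v⟩

theorem relab_inO {C₁ : Cat E L'} {l : L → L'} (hd : C₁.d = C.d)
    (h : ∀ k o o', C.H k o o' ≤ C₁.H k (l o) (l o')) (e : C.InO V) : C₁.InO (V.relab l) := by
  obtain ⟨W, hW, hf, f, h1, g, h2, h3, h4⟩ := e
  exact ⟨W.relab l, (relab_isFn hd h).obj hW, hf, f, ch_relab hd h h1, g, ch_relab hd h h2,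
    ht_relab hd h h3, ht_relab hd h h4⟩

variable {κ : Type} {T : BM E L E' L' κ}

/-- the entries of a vector are replaced by matrices -/
noncomputable def Jl {ι : Type} (act : E → κ → κ →₀ E') (v : ι →₀ E) : (κ →₀ E') →ₗ[E'] (ι × κ →₀ E') :=
  lc fun k => v.sum fun i a => mapDomain (Prod.mk i) (act a k)

theorem inc_mk_single {ι : Type} (i : ι) (k : κ) (e : E') :
    inc (Prod.mk i) (single k e) = single (i, k) e := mapDomain_single

theorem inc_mk_apply {ι : Type} (i i' : ι) (c : κ →₀ E') (k : κ) [Decidable (i = i')] :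
    inc (Prod.mk i) c (i', k) = if i = i' then c k else 0 := by
  split_ifs with h
  · subst h
    exact mapDomain_apply (Prod.mk_right_injective i) c k
  · exact mapDomain_of_notMem_range _ _ fun ⟨_, e⟩ => h (congrArg Prod.fst e)

theorem lc_single {ι ι' : Type} (f : ι → ι' →₀ E) (i : ι) : lc f (single i 1) = f i := by
  rw [linearCombination_single, one_smul]

theorem bmL_inc {ι ι' : Type} (act : E → κ → κ →₀ E') (f : (ι →₀ E) →ₗ[E] (ι' →₀ E)) (i : ι)
    (c : κ →₀ E') : bmL act f (inc (Prod.mk i) c) = Jl act (f (single i 1)) c :=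
  linearCombination_mapDomain _ _ _

theorem Jl_apply {ι : Type} {act : E → κ → κ →₀ E'} (h0 : ∀ k, act 0 k = 0) (v : ι →₀ E)
    (c : κ →₀ E') (i : ι) (k : κ) : Jl act v c (i, k) = lc (act (v i)) c k := by
  classical
  induction c using Finsupp.induction_linear with
  | zero => simp
  | add a b ha hb => simp only [map_add, Finsupp.add_apply, ha, hb]
  | single k' e =>
    rw [Jl, linearCombination_single, linearCombination_single, Finsupp.smul_apply,
      Finsupp.smul_apply, Finsupp.sum_apply, Finsupp.sum_eq_single i]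
    · exact congrArg _ ((inc_mk_apply i i _ k).trans (if_pos rfl))
    · exact fun j _ hj => (inc_mk_apply j i _ k).trans (if_neg hj)
    · exact fun _ => by rw [h0, mapDomain_zero, Finsupp.zero_apply]

theorem Jl_single {ι : Type} {act : E → κ → κ →₀ E'} (h0 : ∀ k, act 0 k = 0) (i : ι) (a : E)
    (c : κ →₀ E') : Jl act (single i a) c = inc (Prod.mk i) (lc (act a) c) := by
  rw [apply_linearCombination, Jl]
  refine congrArg (lc · c) (funext fun k => ?_)
  rw [sum_single_index (by rw [h0, mapDomain_zero])]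
  rfl

theorem bmL_single {ι ι' : Type} {act : E → κ → κ →₀ E'} (h0 : ∀ k, act 0 k = 0)
    (f : (ι →₀ E) →ₗ[E] (ι' →₀ E)) (i : ι) (k : κ) (i' : ι') (k' : κ) :
    bmL act f (single (i, k) 1) (i', k') = act (f (single i 1) i') k k' := by
  rw [← inc_mk_single, bmL_inc, Jl_apply h0, lc_single]

theorem bm_δ_inc (i : V.ι) (c : κ →₀ E') : (V.bm T).δ (inc (Prod.mk i) c) =
    Jl T.act (V.δ (single i 1)) c + (V.deg i).negOnePow • inc (Prod.mk i) (lc T.Δ c) := by
  rw [LinearMap.add_apply, bmL_inc]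
  refine congrArg _ ?_
  induction c using Finsupp.induction_linear with
  | zero => simp
  | add a b ha hb => simp only [map_add, ha, hb, smul_add]
  | single k e =>
    rw [inc_mk_single, linearCombination_single, linearCombination_single, map_smul, smul_comm]
    rfl

theorem bm_δ (h0 : ∀ k, T.act 0 k = 0) (i i' : V.ι) (k k' : κ) [Decidable (i = i')] :
    (V.bm T).δ (single (i, k) 1) (i', k') = T.act (V.δ (single i 1) i') k k' +
      if i = i' then (V.deg i).negOnePow • T.Δ k k' else 0 := by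
  rw [← inc_mk_single, bm_δ_inc, Finsupp.add_apply, Jl_apply h0, lc_single, lc_single,
    Finsupp.smul_apply, inc_mk_apply, smul_ite, smul_zero]

theorem bm_D_inc (o : L) (i : V.ι) (c : κ →₀ E') : C'.D (V.bm T) (inc (Prod.mk i) c) =
    Jl T.act (V.δ (single i 1)) c + (V.deg i).negOnePow • inc (Prod.mk i) (C'.D (T.pt o) c) := by
  rw [Cat.D_apply, Cat.D_apply, bm_δ_inc, map_add, smul_add, add_assoc]
  refine congrArg _ (congrArg _ ?_)
  induction c using Finsupp.induction_linear with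
  | zero => simp
  | add a b ha hb => simp only [map_add, ha, hb, smul_add]
  | single k e =>
    rw [inc_mk_single, Raw.tw_single, Raw.tw_single, inc_mk_single, smul_single, smul_smul,
      Int.negOnePow_add]

theorem bm_inc_mem {n : ℤ} {o : L'} (i : V.ι) {c : κ →₀ E'} (hc : c ∈ C'.M (T.pt (V.lab i)) n o) :
    inc (Prod.mk i) c ∈ C'.M (V.bm T) (V.deg i + n) o := fun p => by
  classical
  rw [inc_mk_apply i p.1 c p.2]
  split_ifs with e
  · obtain ⟨_, k⟩ := p
    subst e
    rw [add_sub_add_left_eq_sub]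
    exact hc k
  · exact zero_mem _

theorem Cat.M_ind {P : (V.ι →₀ E) → Prop} {n : ℤ} {o : L} {v : V.ι →₀ E} (hv : v ∈ C.M V n o)
    (h0 : P 0) (ha : ∀ a b, P a → P b → P (a + b))
    (hs : ∀ i a, a ∈ C.H (n - V.deg i) o (V.lab i) → P (single i a)) : P v := by
  rw [← v.sum_single]
  exact Finset.sum_induction _ P ha h0 fun i _ => hs i _ (hv i)

theorem IsBM.act_zero (h : IsBM C C' T) (k : κ) : T.act 0 k = 0 :=
  by simpa using h.add 0 0 k

namespace IsBM

variable (h : IsBM C C' T)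
include h

theorem Jl_add {ι : Type} (v w : ι →₀ E) (c : κ →₀ E') :
    Jl T.act (v + w) c = Jl T.act v c + Jl T.act w c := by
  ext ⟨i, k⟩
  rw [Finsupp.add_apply, Jl_apply h.act_zero, Jl_apply h.act_zero, Jl_apply h.act_zero,
    Finsupp.add_apply, show T.act (v i + w i) = T.act (v i) + T.act (w i) from funext (h.add _ _),
    ← Finsupp.add_apply]
  simp only [linearCombination_apply, Pi.add_apply, smul_add, sum_add]

theorem Jl_zero {ι : Type} (c : κ →₀ E') : Jl T.act (0 : ι →₀ E) c = 0 :=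
  by simpa using h.Jl_add (0 : ι →₀ E) 0 c

theorem Jl_units {ι : Type} (u : ℤˣ) (v : ι →₀ E) (c : κ →₀ E') :
    Jl T.act (u • v) c = u • Jl T.act v c :=
  map_zsmul (AddMonoidHom.mk' (fun v => Jl T.act v c) fun a b => h.Jl_add a b c) u v

theorem Jl_mem {n : ℤ} {o : L} {v : V.ι →₀ E} (hv : v ∈ C.M V n o) (k : κ) :
    Jl T.act v (single k 1) ∈ C'.M (V.bm T) (n + T.dg k) (T.lb o k) := fun p => by
  have := h.mem (hv p.1) k p.2
  rwa [Jl_apply h.act_zero v _ p.1 p.2, lc_single, ← sub_sub, add_sub_right_comm]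

theorem Jl_smul {n m : ℤ} {o o' : L} {a : E} {v : V.ι →₀ E} (ha : a ∈ C.H n o o')
    (hv : v ∈ C.M V m o') (c : κ →₀ E') : Jl T.act (a • v) c = Jl T.act v (lc (T.act a) c) := by
  ext ⟨i, k⟩
  rw [Jl_apply h.act_zero, Jl_apply h.act_zero, apply_linearCombination, Finsupp.smul_apply,
    smul_eq_mul, funext (h.mul ha (hv i))]
  rfl

theorem bmL_Jl {n m : ℤ} {o : L} {g : Lin V W} {v : V.ι →₀ E} (hg : C.Hom n V W g)
    (hv : v ∈ C.M V m o) (c : κ →₀ E') : bmL T.act g (Jl T.act v c) = Jl T.act (g v) c := by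
  refine Cat.M_ind (P := fun v => bmL T.act g (Jl T.act v c) = Jl T.act (g v) c) hv
    (by simp only [h.Jl_zero, map_zero]) (fun a b ha hb => ?_) fun i a ha => ?_
  · simp only [h.Jl_add, map_add, ha, hb]
  · rw [Jl_single h.act_zero, bmL_inc, ← h.Jl_smul ha (hg i), ← map_smul, smul_single_one]

theorem D_Jl {n : ℤ} {o : L} {v : V.ι →₀ E} (hV : C.Hom 1 V V V.δ) (hv : v ∈ C.M V n o) (k : κ) :
    C'.D (V.bm T) (Jl T.act v (single k 1)) =
      Jl T.act (C.D V v) (single k 1) + n.negOnePow • Jl T.act v (T.Δ k) := by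
  refine Cat.M_ind (P := fun v => C'.D (V.bm T) (Jl T.act v (single k 1)) =
      Jl T.act (C.D V v) (single k 1) + n.negOnePow • Jl T.act v (T.Δ k)) hv
    (by simp only [h.Jl_zero, map_zero, smul_zero, add_zero]) (fun a b ha hb => ?_) fun i a ha => ?_
  · simp only [h.Jl_add, map_add, ha, hb, smul_add, add_add_add_comm]
  · rw [Jl_single h.act_zero, bm_D_inc (V.lab i), ← h.Jl_smul ha (hV i), ← map_smul,
      smul_single_one, lc_single, h.d ha, Cat.D_apply, h.Jl_add, Raw.tw_single, ← smul_single,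
      h.Jl_units, Jl_single h.act_zero, Jl_single h.act_zero, lc_single, map_add, smul_add,
      add_assoc, LinearMap.map_smul_of_tower, smul_smul, ← Int.negOnePow_add, add_sub_cancel]

theorem hom {n : ℤ} {f : Lin V W} (hf : C.Hom n V W f) :
    C'.Hom n (V.bm T) (W.bm T) (bmL T.act f) := fun p => by
  have := h.Jl_mem (hf p.1) p.2
  rwa [← bmL_inc, inc_mk_single, add_right_comm] at this

theorem hom_δ (hV : C.Hom 1 V V V.δ) : C'.Hom 1 (V.bm T) (V.bm T) (V.bm T).δ := fun p => by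
  refine add_mem (h.hom hV p) ?_
  have := bm_inc_mem p.1 ((h.pt (V.lab p.1)).1 p.2)
  rw [lc_single, ← add_assoc] at this
  rw [lc_single, Units.smul_def]
  exact zsmul_mem this _

theorem D_δ (hC' : C'.Good) (hV : C.Hom 1 V V V.δ) (i : V.ι) (k : κ) :
    C'.D (V.bm T) ((V.bm T).δ (single (i, k) 1)) =
      Jl T.act (C.D V (V.δ (single i 1))) (single k 1) := by
  have := (h.pt (V.lab i)).2 (single k 1)
  rw [hC'.D_single] at this
  rw [← inc_mk_single, bm_δ_inc, map_add, h.D_Jl hV (hV i), Units.smul_def (V.deg i).negOnePow,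
    map_zsmul, bm_D_inc (V.lab i), this, lc_single, Int.negOnePow_succ]
  simp [Units.smul_def]

end IsBM

theorem IsBM.isFn (h : IsBM C C' T) (hC : C.Good) (hC' : C'.Good) :
    IsFn C C' (fun V => V.bm T) fun _ _ f => bmL T.act f where
  obj {V} hV := hC'.obj_of_basis (h.hom_δ hV.1) fun p => by
    rw [h.D_δ hC' hV.1 p.1 p.2, ← hC.D_single, hV.2, h.Jl_zero]
  hom := h.hom
  id V := lhom_ext' fun p => LinearMap.ext_ring <| by
    change bmL T.act _ (single (p.1, p.2) 1) = single (p.1, p.2) 1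
    rw [← inc_mk_single, bmL_inc, LinearMap.id_apply, Jl_single h.act_zero, lc_single, h.one]
  add V W f g := lhom_ext' fun p => LinearMap.ext_ring <| by
    change bmL T.act _ (single (p.1, p.2) 1) =
      bmL T.act _ (single (p.1, p.2) 1) + bmL T.act _ (single (p.1, p.2) 1)
    rw [← inc_mk_single, bmL_inc, bmL_inc, bmL_inc, LinearMap.add_apply, h.Jl_add]
  comp {k k' U V W f g} hf hg := lhom_ext' fun p => LinearMap.ext_ring <| by
    change bmL T.act _ (single (p.1, p.2) 1) = bmL T.act _ (bmL T.act _ (single (p.1, p.2) 1))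
    rw [← inc_mk_single, bmL_inc, bmL_inc, h.bmL_Jl hg (hf _), LinearMap.comp_apply]
  br {n V W f g} hV hW hf e := hC'.br_of_basis (h.hom hf) fun ⟨i, k⟩ => by
    rw [← inc_mk_single, bmL_inc, bmL_inc, bm_δ_inc, h.D_Jl hW.1 (hf i), e, hC.D_single, h.Jl_add,
      h.Jl_units, map_add, h.bmL_Jl hf (hV.1 i), LinearMap.map_smul_of_tower, bmL_inc, lc_single,
      smul_add, smul_smul, ← Int.negOnePow_add, add_comm n, add_right_comm]

theorem bmL_scal {ι : Type} {z : E} {z' : E'} (h0 : ∀ k, T.act 0 k = 0)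
    (hz : ∀ k, T.act z k = single k z') : bmL T.act (scal ι z) = scal (ι × κ) z' :=
  lhom_ext' fun p => LinearMap.ext_ring <| by
    change bmL T.act _ (single (p.1, p.2) 1) = scal _ _ (single (p.1, p.2) 1)
    rw [scal_single, ← inc_mk_single, bmL_inc, scal_single, Jl_single h0, lc_single, one_mul, hz,
      inc_mk_single, one_mul]

/-- a faithful bimodule functor reflects objects -/
theorem IsBM.obj_of (h : IsBM C C' T) (hC : C.Good) (hC' : C'.Good)
    (hi : ∀ n o o' a, a ∈ C.H n o o' → (∀ k, T.act a k = 0) → a = 0) (hV : C.Hom 1 V V V.δ)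
    (e : ∀ v, C'.D (V.bm T) (C'.D (V.bm T) v) = 0) : C.Obj V :=
  hC.obj_of_basis hV fun i => Finsupp.ext fun i' => hi _ _ _ _ (hC.D_mem hV (hV i) i') fun k =>
    Finsupp.ext fun k' => by
      have := e (single (i, k) 1)
      rw [hC'.D_single, h.D_δ hC' hV] at this
      rw [← lc_single (T.act _) k, ← Jl_apply h.act_zero, this]
      rfl

theorem Raw.Rx.bm (h : V.Rx W) (h0 : ∀ k, T.act 0 k = 0) : (V.bm T).Rx (W.bm T) := by
  classical
  obtain ⟨e, h1, h2, h3⟩ := h
  refine ⟨e.prodCongr (Equiv.refl κ), fun p => congrArg (· + T.dg p.2) (h1 p.1),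
    fun p => congrArg (T.lb · p.2) (h2 p.1), fun ⟨i, k⟩ ⟨i', k'⟩ => ?_⟩
  refine (bm_δ h0 (e i) (e i') k k').trans ?_
  rw [bm_δ h0, h3, h1]
  simp only [e.injective.eq_iff]

theorem bm_wf (h0 : ∀ k, T.act 0 k = 0) (hΔ : WellFounded fun k' k => T.Δ k k' ≠ 0) (hV : V.WF) :
    (V.bm T).WF := by
  classical
  refine Subrelation.wf ?_ (hV.prod_lex hΔ)
  rintro ⟨i', k'⟩ ⟨i, k⟩ e
  rw [bm_δ h0] at e
  by_cases h1 : V.δ (single i 1) i' = 0
  · rw [h1, h0, Finsupp.zero_apply, zero_add] at e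
    obtain rfl : i = i' := by_contra fun h2 => e (if_neg h2)
    exact .right _ fun h2 => e (by rw [h2, smul_zero, ite_self])
  · exact .left _ _ h1

theorem bm_disky {T : BM E L E' L' Bool} (h0 : ∀ k, T.act 0 k = 0) (h1 : T.Δ true = single false 1)
    (h2 : T.Δ false = 0) (h3 : T.dg false = T.dg true + 1) (l : L' → L'')
    (hl : ∀ o, l (T.lb o false) = l (T.lb o true)) (hV : V.Fin1) :
    ((V.bm T).relab l).Disky := by
  classical
  obtain ⟨ρ, hρ⟩ := hV.rank
  refine ⟨V.ι, Equiv.refl _, ρ, fun i => (V.deg i).negOnePow,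
    fun i => (congrArg (V.deg i + ·) h3).trans (add_assoc _ _ _).symm, fun i => hl _,
    fun i b i' b' e => (bm_δ h0 i i' b b').trans ?_⟩
  rw [show V.δ (single i 1) i' = 0 from by_contra fun h => absurd (hρ i i' h) (not_lt.2 e), h0]
  cases b <;> cases b' <;> simp [h1, h2, single_apply]

end Pool.Agent.Lib.NIL
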