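import Pool.Agent.Lib.NIL.Blue2
import Pool.Agent.Lib.NIL.A4

/-! TFIN: finiteness of the kernel of the localisation attached to a tree. -/

namespace Pool.Agent.Lib.NIL

open Finsupp TensorProduct

namespace TFIN

variable {E L : Type} [Ring E] {C : Cat E L} {V : Raw E L}

/-- two complementary closed parts give a direct sum -/
theorem split {p : V.ι → Prop} (h : V.Closed p) (h' : V.Closed fun i => ¬ p i) :
    V.Rx ((V.res p).sum (V.res fun i => ¬ p i)) := by
  have e : (prj Subtype.val Subtype.val_injective ∘ₗ V.δ ∘ₗ inc Subtype.val :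
      Lin (V.res fun i => ¬ p i) (V.res p)) = 0 := by
    refine lin_ext fun i k => ?_
    rw [LinearMap.comp_apply, LinearMap.comp_apply, inc_single, prj_apply]
    exact by_contra fun n => h' i.1 k.1 i.2 n k.2
  have := h.rx_ext
  rwa [e] at this

/-- raise the degrees without changing the sign of the differential -/
@[reducible] def up (V : Raw E L) : Raw E L := ⟨V.ι, fun i => V.deg i + 1, V.lab, V.δ⟩

theorem D_eq (hd : C.d = 0) (V : Raw E L) (v : V.ι →₀ E) : C.D V v = V.δ v := by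
  ext i
  rw [Cat.D_apply, Finsupp.add_apply, Raw.tw_apply, hd, AddMonoidHom.zero_apply, smul_zero,
    add_zero]

theorem hom_up {k : ℤ} {V W : Raw E L} {f : Lin V W} (hf : C.Hom k V W f) :
    C.Hom k (up V) (up W) f := fun i i' => by
  have h := hf i i'
  rwa [show V.deg i + k - W.deg i' = V.deg i + 1 + k - (W.deg i' + 1) by ring] at h

theorem up_isFn (hd : C.d = 0) : IsFn C C up fun _ _ f => f where
  obj {V} hV := ⟨hom_up hV.1, fun v => by
    have h := hV.2 v
    rwa [D_eq hd, D_eq hd] at h ⊢⟩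
  hom := hom_up
  id _ := rfl
  add _ _ _ _ := rfl
  comp _ _ := rfl
  br _ _ _ h v := by
    have h := h v
    rwa [D_eq hd, D_eq hd] at h ⊢

theorem finK {X E'' : Type} [Ring E''] {ed : X → Prop} {T : Cat E X}
    {C₀ : Cat E ({e // ed e} × Bool)} {C'' : Cat E'' ({e // ed e} × Bool)} {U : E'' →+ E}
    {Bm : BM E'' ({e // ed e} × Bool) E X Bool} (hT : T.Good) (h0 : C₀.Good) (dT : T.d = 0)
    (d0 : C₀.d = 0) (tv : ∀ k s s' a, ¬ ed s → ¬ ¬ ed s' → a ∈ T.H k s s' → a = 0)
    (te : ∀ i k (e e' : {e // ed e}), T.H k e.1 e'.1 ≤ C₀.H k (e, i) (e', i))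
    (rs : ∀ k f f' a, f.2 ≠ f'.2 → a ∈ C₀.H k f f' → a = 0)
    (hU : ∀ W, C''.Obj W → C₀.Obj (W.mapA U id)) (a0 : ∀ k, Bm.act 0 k = 0)
    (att : ∀ a, Bm.act a true true = U a) (hΔ : Bm.Δ true true = 0) (dg : Bm.dg true = -1)
    (l1 : ∀ f, Bm.lb f true = f.1.1) (l0 : ∀ f, ¬ ed (Bm.lb f false)) (hQ : C₀.Q) :
    FinK T C'' C₀ U Bm := by
  classical
  intro Y W θ hW hY hX hc
  obtain ⟨cl, -, n1⟩ := hT.nul_res (fun s => ¬ ed s) tv hX (Cat.nul_one.2 hc)
  have o1 := (hT.ses_res hX cl).2.2.1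
  have c1 := Cat.nul_one.1 n1
  have oM := hU W hW
  have key : ∀ s : Bool, C₀.Obj ((W.mapA U id).relab fun f => (f.1, s)) ∧
      C₀.InO ((W.mapA U id).relab fun f => (f.1, s)) := by
    intro s
    let Te : Cat E {e // ed e} := ⟨T.σ, T.d, fun k e e' => T.H k e.1 e'.1⟩
    let V₁ := (Y.ext (W.bm Bm) θ).res fun i => ¬ ¬ ed ((Y.ext (W.bm Bm) θ).lab i)
    let V₂ : Raw E {e // ed e} := ⟨V₁.ι, V₁.deg, fun x => ⟨V₁.lab x, not_not.1 x.2⟩, V₁.δ⟩
    have Fn := relab_isFn (C := Te) (C₁ := C₀) (l := fun e => (e, s)) (d0.trans dT.symm) (te s)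
    have o2 : Te.Obj V₂ := o1
    have c2 : Te.Ctr V₂ := c1
    have o3 := Fn.obj o2
    have cl2 : (V₂.relab fun e => (e, s)).Closed fun i => i.1.isLeft := by
      intro i i' hi hne
      have hne' : V₁.δ (single i 1) i' ≠ 0 := hne
      rw [Raw.res_δ] at hne'
      exact Raw.ext_closed θ i.1 i'.1 hi hne'
    have ses := h0.ses_res o3 cl2
    have fin : ((V₂.relab fun e => (e, s)).res fun i => i.1.isLeft).Fin1 := by
      have := hY.1
      refine ⟨Finite.of_injective (fun i => i.1.1.getLeft i.2) fun a b e => ?_,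
        Subrelation.wf (r := InvImage (fun i' i => Y.δ (single i 1) i' ≠ 0)
          fun i => i.1.1.getLeft i.2) (fun {a b} h => ?_) (InvImage.wf _ hY.2)⟩
      · refine Subtype.ext (Subtype.ext ?_)
        rw [← Sum.inl_getLeft a.1.1 a.2, ← Sum.inl_getLeft b.1.1 b.2]
        exact congrArg Sum.inl e
      · rw [Raw.res_δ] at h
        have h' : V₁.δ (single b.1 1) a.1 ≠ 0 := h
        rw [Raw.res_δ, ← Sum.inl_getLeft a.1.1 a.2, ← Sum.inl_getLeft b.1.1 b.2, Raw.ext_ll] at h'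
        exact h'
    have i1 := h0.ses_inO_right ses (h0.inO_of_fin1 ses.1 fin) (h0.inO_of_ctr (Fn.ctr o2 c2))
    have i2 := (up_isFn d0).inO (fun W' a b => h0.inO_of_fin1 ((up_isFn d0).obj a) b) h0
      ses.2.2.1 i1
    let f : W.ι → {i : V₁.ι // ¬ i.1.isLeft} := fun w =>
      ⟨⟨Sum.inr (w, true), not_not.2 (by
        have h : ed (Bm.lb (W.lab w) true) := by rw [l1]; exact (W.lab w).1.2
        exact h)⟩, by simp⟩
    have hf : Function.Bijective f := by
      refine ⟨fun a b e => ?_, ?_⟩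
      · exact congrArg Prod.fst (Sum.inr_injective (congrArg (fun i => i.1.1) e))
      · rintro ⟨⟨y | ⟨w, b⟩, h1⟩, h2⟩
        · simp at h2
        · cases b
          · exact absurd (l0 _) h1
          · exact ⟨w, rfl⟩
    have rx : ((W.mapA U id).relab fun f => (f.1, s)).Rx
        (up ((V₂.relab fun e => (e, s)).res fun i => ¬ i.1.isLeft)) := by
      refine ⟨Equiv.ofBijective f hf, fun w => ?_, fun w => ?_, fun w w' => ?_⟩
      · change W.deg w + Bm.dg true + 1 = W.deg w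
        rw [dg]
        ring
      · exact Prod.ext (Subtype.ext (l1 _)) rfl
      · rw [mapL_single]
        refine (Raw.res_δ (V := V₂.relab fun e => (e, s)) _ (f w) (f w')).trans ?_
        refine (Raw.res_δ (V := Y.ext (W.bm Bm) θ) _ (f w).1 (f w').1).trans ?_
        refine (Raw.ext_rr θ (w, true) (w', true)).trans ((bm_δ a0 w w' true true).trans ?_)
        rw [hΔ, smul_zero, ite_self, add_zero, att]
    exact ⟨Cat.obj_rx rx.symm ((up_isFn d0).obj ses.2.2.1), h0.inO_of_eqv (h0.eqv_rx rx) i2⟩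
  have side : ∀ w w', (W.mapA U id).δ (single w 1) w' ≠ 0 → (W.lab w).2 = (W.lab w').2 :=
    fun w w' h => by_contra fun n => h (rs _ _ _ _ n (oM.1 w w'))
  have p1 : (W.mapA U id).Closed fun w => (W.lab w).2 = true :=
    fun w w' h hne => (side w w' hne).symm.trans h
  have p2 : (W.mapA U id).Closed fun w => ¬ (W.lab w).2 = true :=
    fun w w' h hne h' => h ((side w w' hne).trans h')
  refine hQ _ oM (h0.perf_of_retr (h0.eqv_rx (split p1 p2)).retr (h0.perf_sum ?_ ?_))
  · refine h0.perf_of_retr (h0.retr_trans (h0.retr_trans (h0.eqv_rx ?_).retr h0.retr_sum_left)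
      (h0.eqv_rx (split (V := (W.mapA U id).relab fun f => (f.1, true)) p1 p2).symm).retr)
      (key true).2.perf
    exact ⟨Equiv.refl _, fun _ => rfl, fun w => Prod.ext rfl w.2.symm, fun _ _ => rfl⟩
  · refine h0.perf_of_retr (h0.retr_trans (h0.retr_trans (h0.eqv_rx ?_).retr h0.retr_sum_right)
      (h0.eqv_rx (split (V := (W.mapA U id).relab fun f => (f.1, false)) p1 p2).symm).retr)
      (key false).2.perf
    exact ⟨Equiv.refl _, fun _ => rfl,
      fun w => Prod.ext rfl (Bool.eq_false_iff.2 w.2).symm, fun _ _ => rfl⟩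

variable {B : Type} [CommRing B]

theorem bcF_le {X Y : AddSubgroup E} (h : X ≤ Y) : bcF B X ≤ bcF B Y :=
  AddSubgroup.closure_mono fun _ ⟨b, e, he, hz⟩ => ⟨b, e, h he, hz⟩

theorem bcF_zero {X : AddSubgroup E} (h : ∀ e ∈ X, e = 0) {z : B ⊗[ℤ] E} (hz : z ∈ bcF B X) :
    z = 0 := by
  have : bcF B X ≤ ⊥ := (AddSubgroup.closure_le _).2 fun _ ⟨b, e, he, hz⟩ => by
    rw [hz, h e he, tmul_zero]
    exact zero_mem _
  exact this hz

theorem lT_zero : lT B (0 : E →+ E) = 0 := by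
  refine AddMonoidHom.ext fun z => ?_
  induction z using TensorProduct.induction_on with
  | zero => rw [map_zero, map_zero]
  | tmul b e => exact tmul_zero _ _
  | add x y hx hy => rw [map_add, map_add, hx, hy]

theorem sfam_zero {G : Type} {p : G → Prop} (h : ∀ g, ¬ p g) {a : MonoidAlgebra ℤ G}
    (ha : a ∈ sfam p) : a = 0 :=
  sfam_induction (P := fun a => a = 0) ha (fun g _ hg => absurd hg (h g)) rfl
    fun x y _ _ hx hy => by rw [hx, hy, add_zero]

end TFIN

theorem st_tfin (h1 : St_SIMP) : St_TFIN := by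
  intro G X E'' Λ'' _ _ _ F S'' Bm ent c B _ hQ
  have l := h1.2.2 _ _ _ _ _ _ _ _ _ _ _ _ _ _ _ c.loc B
  refine TFIN.finK (ed := F.ed) l.tgood l.aug.good₀ TFIN.lT_zero TFIN.lT_zero
    (fun k s s' a hs hs' => TFIN.bcF_zero fun e he => ?_)
    (fun i k e e' => TFIN.bcF_le fun a ha => ?_)
    (fun k f f' a hf => TFIN.bcF_zero fun e he => ?_)
    (fun W hW => (l.aug.hU.isFn l.aug.good l.aug.good₀).obj hW) l.bm.act_zero (fun a => ?_) ?_
    l.dg1 c.lb1 (fun f => ?_) hQ
  · refine TFIN.sfam_zero (fun g hg => ?_) (mem_bcat.1 he).1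
    have h := (F.ed_smul g s').2 (not_not.1 hs')
    rcases hg with hg | hg | hg
    · exact hs (hg ▸ h)
    · exact F.ed_d0 _ (hg ▸ h)
    · exact F.ed_d1 _ (hg ▸ h)
  · refine mem_bcat.2 ⟨sfam_mono (fun g hg => ?_) (mem_bcat.1 ha).1, (mem_bcat.1 ha).2⟩
    have h := (F.ed_smul g e'.1).2 e'.2
    rcases hg with hg | hg | hg
    · exact Prod.ext (Subtype.ext hg) rfl
    · exact absurd (hg ▸ h) (F.ed_d0 _)
    · exact absurd (hg ▸ h) (F.ed_d1 _)
  · refine TFIN.sfam_zero (fun g hg => ?_) (mem_bcat.1 he).1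
    exact hf (congrArg Prod.snd hg).symm
  · rw [l.act, show ent true true = S''.aug from AddMonoidHom.ext c.ent_tt]
  · rw [l.Δ1, single_eq_of_ne (by simp)]
  · have h : (Bm.bc ent B).lb f false = F.far f := c.lb0 f
    rw [h, Forest.far]
    cases f.2
    · exact F.ed_d0 _
    · exact F.ed_d1 _

end Pool.Agent.Lib.NIL
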