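import Pool.Agent.Lib.NIL.Blue2
import Pool.Agent.Lib.NIL.A4

/-! Simplification of a complex along an augmentation. -/

noncomputable section

namespace Pool.Agent.Lib.NIL

open Finsupp

variable {E L : Type} [Ring E] {C : Cat E L} {Y V : Raw E L}

/-- transport of the differential along a change of basis -/
theorem Cat.Good.exists_ext_conj (hC : C.Good) (hY : C.Obj Y) {κ : Type} (dK : κ → ℤ)
    (lK : κ → L) {f : (κ ⊕ V.ι →₀ E) →ₗ[E] (Y.ι →₀ E)} {g : (Y.ι →₀ E) →ₗ[E] (κ ⊕ V.ι →₀ E)}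
    (hf : C.Hom 0 ⟨κ ⊕ V.ι, Sum.elim dK V.deg, Sum.elim lK V.lab, 0⟩ Y f)
    (hg : C.Hom 0 Y ⟨κ ⊕ V.ι, Sum.elim dK V.deg, Sum.elim lK V.lab, 0⟩ g)
    (gf : g ∘ₗ f = LinearMap.id) (fg : f ∘ₗ g = LinearMap.id)
    (h : ∀ i, prj Sum.inr Sum.inr_injective (g (C.D Y (f (single i 1)))) =
      V.δ (prj Sum.inr Sum.inr_injective (single i 1))) :
    ∃ (δK : (κ →₀ E) →ₗ[E] (κ →₀ E)) (θ : Lin V ⟨κ, dK, lK, δK⟩),
      C.Obj (Raw.ext ⟨κ, dK, lK, δK⟩ V θ) ∧ C.Ch (Raw.ext ⟨κ, dK, lK, δK⟩ V θ) Y f ∧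
      ∀ k k', δK (single k 1) k' = g (C.D Y (f (single (.inl k) 1))) (.inl k') := by
  obtain ⟨δ, h1, h2, h3⟩ := hC.exists_quot (Sum.elim dK V.deg) (Sum.elim lK V.lab)
    (A := ⟨PEmpty, PEmpty.elim, PEmpty.elim, 0⟩) (i := 0) (r := 0) (q := g) (s := f)
    (hC.ctr_of_isEmpty (V := ⟨PEmpty, PEmpty.elim, PEmpty.elim, 0⟩)).1 hY Cat.Ch.zero
    (Cat.Hom.zero 0) hg hf (lin_ext fun i => i.elim) gf
    (by rw [LinearMap.comp_zero, zero_add, fg])
  have h4 := (hC.isEqv_of_inv h3 hf fg gf).2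
  have pδ : ∀ v, prj Sum.inr Sum.inr_injective (δ v) = V.δ (prj Sum.inr Sum.inr_injective v) :=
    fun v => LinearMap.congr_fun (f := prj Sum.inr Sum.inr_injective ∘ₗ δ)
      (g := V.δ ∘ₗ prj Sum.inr Sum.inr_injective)
      (lhom_ext' fun i => LinearMap.ext_ring ((congrArg _ (h1 i)).trans (h i))) v
  have hK : (Raw.ext ⟨κ, dK, lK, prj Sum.inl Sum.inl_injective ∘ₗ δ ∘ₗ inc Sum.inl⟩ V
      (prj Sum.inl Sum.inl_injective ∘ₗ δ ∘ₗ inc Sum.inr)).δ = δ := LinearMap.ext fun v => by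
    obtain ⟨x, y, rfl⟩ := exists_lr v
    rw [map_add, Raw.ext_δ_inl, Raw.ext_δ_inr, map_add δ, ← inl_add_inr (δ (inc Sum.inl x)),
      ← inl_add_inr (δ (inc Sum.inr y)), pδ, pδ, prj_inr_inl, prj_inc, map_zero, map_zero,
      add_zero, add_comm (inc Sum.inr (V.δ y))]
    rfl
  have hE : Raw.ext ⟨κ, dK, lK, prj Sum.inl Sum.inl_injective ∘ₗ δ ∘ₗ inc Sum.inl⟩ V
      (prj Sum.inl Sum.inl_injective ∘ₗ δ ∘ₗ inc Sum.inr) =
      ⟨κ ⊕ V.ι, Sum.elim dK V.deg, Sum.elim lK V.lab, δ⟩ :=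
    congrArg (Raw.mk (κ ⊕ V.ι) (Sum.elim dK V.deg) (Sum.elim lK V.lab)) hK
  refine ⟨_, _, hE ▸ h2, ⟨hf, fun v => ?_⟩, fun k k' => ?_⟩
  · rw [Cat.D_apply (V := Raw.ext _ V _), hK]
    exact h4.2 v
  · rw [← h1, ← inc_single Sum.inl]
    rfl

/-- A complex with generators `(k, true)`, `(k, false)`, `y` and an augmentation onto `V`. -/
theorem simp_of_aug (hC : C.Good) (hY : C.Obj Y) {κ : Type} [Finite κ]
    (e : (κ × Bool) ⊕ V.ι ≃ Y.ι) (β : κ → V.ι) (ε : Lin Y V) (ρ : κ → ℕ) (s : κ → ℤˣ)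
    (d1 : ∀ k, Y.deg (e (.inl (k, false))) = Y.deg (e (.inl (k, true))) + 1)
    (d2 : ∀ k, Y.deg (e (.inl (k, false))) = V.deg (β k))
    (d3 : ∀ y, Y.deg (e (.inr y)) = V.deg y)
    (l1 : ∀ k b, Y.lab (e (.inl (k, b))) = V.lab (β k)) (l3 : ∀ y, Y.lab (e (.inr y)) = V.lab y)
    (e1 : ∀ k, ε (single (e (.inl (k, true))) 1) = 0)
    (e2 : ∀ k, ε (single (e (.inl (k, false))) 1) = single (β k) 1)
    (e3 : ∀ y, ε (single (e (.inr y)) 1) = single y 1)
    (hε : ∀ j, ε (Y.δ (single j 1)) = V.δ (ε (single j 1)))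
    (D1 : ∀ k k' b', ρ k ≤ ρ k' → Y.δ (single (e (.inl (k, true))) 1) (e (.inl (k', b'))) =
      (single (k, false) (s k • (1 : E)) : κ × Bool →₀ E) (k', b'))
    (D2 : ∀ k k' b', ρ k ≤ ρ k' → Y.δ (single (e (.inl (k, false))) 1) (e (.inl (k', b'))) =
      Y.δ (single (e (.inr (β k))) 1) (e (.inl (k', b')))) : Simp C Y V := by
  classical
  obtain ⟨n, n0, n1, n2⟩ : ∃ n : ((κ × Bool) ⊕ V.ι →₀ E) →ₗ[E] ((κ × Bool) ⊕ V.ι →₀ E),
      (∀ k, n (single (.inl (k, false)) 1) = single (.inr (β k)) 1) ∧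
      (∀ k, n (single (.inl (k, true)) 1) = 0) ∧ ∀ y, n (single (.inr y) 1) = 0 :=
    ⟨lc (Sum.elim (fun p => bif p.2 then 0 else single (.inr (β p.1)) 1) fun _ => 0),
      fun _ => lc_single _ _, fun _ => lc_single _ _, fun _ => lc_single _ _⟩
  have nn : ∀ v, n (n v) = 0 := fun v => by
    refine LinearMap.congr_fun (f := n ∘ₗ n) (g := 0) (lin_ext fun i j => ?_) v
    rw [LinearMap.comp_apply, LinearMap.zero_apply]
    rcases i with ⟨k, _ | _⟩ | y
    · rw [n0, n2]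
    · rw [n1, map_zero]
    · rw [n2, map_zero]
  have nl : ∀ v i, n v (.inl i) = 0 := fun v i => by
    by_contra h
    refine (supp_map (p := fun _ => True) (p' := fun j => ¬ j.isLeft) n (fun j j' _ h' => ?_)
      (fun _ _ => trivial) _ h) rfl
    rcases j with ⟨k, _ | _⟩ | y
    · rw [n0] at h'
      intro h''
      exact h' (single_eq_of_ne fun q => by rw [q] at h''; exact Bool.false_ne_true h'')
    · exact (h' (by rw [n1]; rfl)).elim
    · exact (h' (by rw [n2]; rfl)).elim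
  have hd : ∀ i, Y.deg (e i) = Sum.elim (fun p => Y.deg (e (.inl p))) V.deg i := by
    rintro (p | y)
    exacts [rfl, d3 y]
  have hl : ∀ i, Y.lab (e i) = Sum.elim (fun p => Y.lab (e (.inl p))) V.lab i := by
    rintro (p | y)
    exacts [rfl, l3 y]
  obtain ⟨Z, hZ⟩ : ∃ Z : ((κ × Bool) ⊕ V.ι →₀ E) →ₗ[E] ((κ × Bool) ⊕ V.ι →₀ E), Z = 0 := ⟨_, rfl⟩
  have hn : C.Hom 0 ⟨_, Sum.elim (fun p => Y.deg (e (.inl p))) V.deg,
      Sum.elim (fun p => Y.lab (e (.inl p))) V.lab, Z⟩ ⟨_, Sum.elim (fun p => Y.deg (e (.inl p)))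
      V.deg, Sum.elim (fun p => Y.lab (e (.inl p))) V.lab, Z⟩ n := by
    rintro (⟨k, _ | _⟩ | y)
    · rw [n0]
      refine Cat.single_mem_M ?_
      change (1 : E) ∈ C.H (Y.deg (e (.inl (k, false))) + 0 - V.deg (β k))
        (Y.lab (e (.inl (k, false)))) (V.lab (β k))
      rw [d2, l1, add_zero, sub_self]
      exact hC.one_mem _
    · rw [n1]
      exact zero_mem _
    · rw [n2]
      exact zero_mem _
  subst hZ
  have hf := hC.hom_comp (hC.hom_id.sub hn) (hC.hom_inc (W := Y) (f := e) hd hl) rfl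
  have hg := hC.hom_comp (hC.hom_prj (W := Y) (f := e) e.injective hd hl) (hC.hom_id.add hn) rfl
  have fv : ∀ v, (inc e ∘ₗ (LinearMap.id - n)) v = inc e v - inc e (n v) := fun v =>
    map_sub (inc e) v (n v)
  have gv : ∀ v, ((LinearMap.id + n) ∘ₗ prj e e.injective) v =
    prj e e.injective v + n (prj e e.injective v) := fun v => rfl
  generalize inc e ∘ₗ (LinearMap.id - n) = f at hf fv
  generalize (LinearMap.id + n) ∘ₗ prj e e.injective = g at hg gv
  have ie : ∀ v : Y.ι →₀ E, inc e (prj e e.injective v) = v := fun v => by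
    ext j
    obtain ⟨i, rfl⟩ := e.surjective j
    rw [inc_apply e.injective, prj_apply]
  have gf : g ∘ₗ f = LinearMap.id := LinearMap.ext fun v => by
    rw [LinearMap.comp_apply, fv, gv, map_sub, prj_inc, prj_inc, map_sub, nn, sub_zero,
      sub_add_cancel, LinearMap.id_apply]
  have fg : f ∘ₗ g = LinearMap.id := LinearMap.ext fun v => by
    rw [LinearMap.comp_apply, gv, fv, map_add n, nn, add_zero, map_add, add_sub_cancel_right, ie,
      LinearMap.id_apply]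
  have f0 : ∀ k, f (single (.inl (k, false)) 1) =
      single (e (.inl (k, false))) 1 - single (e (.inr (β k))) 1 := fun k => by
    rw [fv, n0, inc_single, inc_single]
  have f1 : ∀ k, f (single (.inl (k, true)) 1) = single (e (.inl (k, true))) 1 := fun k => by
    rw [fv, n1, inc_single, map_zero, sub_zero]
  have f2 : ∀ y, f (single (.inr y) 1) = single (e (.inr y)) 1 := fun k => by
    rw [fv, n2, inc_single, map_zero, sub_zero]
  have Df : ∀ i, C.D Y (f (single i 1)) = Y.δ (f (single i 1)) := by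
    rintro (⟨k, _ | _⟩ | y)
    · rw [f0, map_sub, map_sub, hC.D_single, hC.D_single]
    · rw [f1, hC.D_single]
    · rw [f2, hC.D_single]
  have εf : ∀ v, ε (f v) = prj Sum.inr Sum.inr_injective v := fun v => by
    refine LinearMap.congr_fun (f := ε ∘ₗ f) (lin_ext fun i j => ?_) v
    rw [LinearMap.comp_apply]
    rcases i with ⟨k, _ | _⟩ | y
    · rw [f0, map_sub, e2, e3, sub_self, ← inc_single Sum.inl, prj_inr_inl]
    · rw [f1, e1, ← inc_single Sum.inl, prj_inr_inl]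
    · rw [f2, e3, ← inc_single Sum.inr, prj_inc]
  have εδ : ∀ v, ε (Y.δ v) = V.δ (ε v) := fun v =>
    LinearMap.congr_fun (f := ε ∘ₗ Y.δ) (g := V.δ ∘ₗ ε)
      (lin_ext fun j k => DFunLike.congr_fun (hε j) k) v
  have gl : ∀ v p, g v (.inl p) = v (e (.inl p)) := fun v p => by
    rw [gv, Finsupp.add_apply, nl, add_zero, prj_apply]
  obtain ⟨δ, θ, h1, h2, h3⟩ := hC.exists_ext_conj hY _ _ hf hg gf fg fun i => by
    rw [← εf, ← εf, ← LinearMap.comp_apply f g, fg, LinearMap.id_apply, Df, εδ]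
  refine ⟨_, θ, e, f, Sum.elim (fun p => bif p.2 then 0 else 1) fun _ => 0, inferInstance,
    ⟨κ, Equiv.refl _, ρ, s, d1, fun k => (l1 k false).trans (l1 k true).symm,
      fun k b k' b' h => ?_⟩, h1, h2, hd, hl, fun i => ?_, fun i i' h => ?_⟩
  · change δ (single (k, b) 1) (k', b') = _
    rw [h3, gl, Df]
    cases b
    · rw [f0, map_sub, Finsupp.sub_apply, D2 k k' b' h, sub_self, single_eq_of_ne]
      simp
    · rw [f1, D1 k k' b' h]
      simp [single_apply]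
  · rcases i with ⟨k, _ | _⟩ | y
    · rw [f0, Finsupp.sub_apply, single_eq_same,
        single_eq_of_ne (e.injective.ne Sum.inl_ne_inr), sub_zero]
    · rw [f1, single_eq_same]
    · rw [f2, single_eq_same]
  · by_contra hn
    rw [not_or] at hn
    have h0 : ∀ a : E, single (e i) a (e i') = 0 := fun a =>
      single_eq_of_ne fun q => hn.1 (e.injective q).symm
    apply h
    rcases i with ⟨k, _ | _⟩ | y
    · rw [f0, Finsupp.sub_apply, h0, zero_sub, neg_eq_zero]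
      refine single_eq_of_ne fun q => hn.2 ?_
      rw [e.injective q]
      exact Nat.zero_lt_one
    · rw [f1, h0]
    · rw [f2, h0]

end Pool.Agent.Lib.NIL
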