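import Pool.Agent.Lib.NIL.TH0
import Pool.Agent.Lib.NIL.THS

/-! Block TH3: the finite part of the tree of copies collapses. -/

noncomputable section

namespace Pool.Agent.Lib.NIL

open Finsupp TensorProduct

namespace TH3

variable {G X : Type} [Group G] [MulAction G X] {F : Forest G Unit X}
  {fl : {e : X // F.ed e} → F.Fl} {B : Type} [CommRing B]

theorem far_v (f : F.Fl) : ¬ F.ed (F.far f) := by
  unfold Forest.far
  cases f.2
  exacts [F.ed_d0 _, F.ed_d1 _]

theorem near_v (f : F.Fl) : ¬ F.ed (F.near f) := by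
  unfold Forest.near
  cases f.2
  exacts [F.ed_d1 _, F.ed_d0 _]

open Classical in
/-- the augmentation of the tree of copies -/
def aug (F : Forest G Unit X) (E ι : Type) [Ring E] : (ι × X →₀ E) →ₗ[E] (ι →₀ E) :=
  lc fun q => if F.ed q.2 then 0 else single q.1 1

theorem aug_e {E ι : Type} [Ring E] (y : ι) {s : X} (h : F.ed s) (a : E) :
    aug F E ι (single (y, s) a) = 0 := by
  rw [aug, linearCombination_single, if_pos h, smul_zero]

theorem aug_v {E ι : Type} [Ring E] (y : ι) {s : X} (h : ¬ F.ed s) (a : E) :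
    aug F E ι (single (y, s) a) = single y a := by
  rw [aug, linearCombination_single, if_neg h, smul_single, smul_eq_mul, mul_one]

theorem aug_act {ι : Type} (y : ι) (s : X) (a : B ⊗[ℤ] MonoidAlgebra ℤ G) :
    aug F _ ι (inc (Prod.mk y) ((F.TB fl B).act a s)) = aug F _ ι (single (y, s) a) := by
  induction a using bc_ind with
  | h1 g b =>
    rw [Forest.TB_act_tmul, inc_mk_single]
    by_cases h : F.ed s
    · rw [aug_e y h, aug_e y ((F.ed_smul _ _).2 h)]
    · have h' := mt (F.ed_smul g⁻¹ s).1 h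
      rw [aug_v y h, aug_v y h', Forest.sg_v h, Forest.sg_v h', one_mul, one_smul]
  | h0 => rw [Forest.TB_act_zero, map_zero, single_zero]
  | h2 x z hx hz => rw [Forest.TB_act_add, map_add, map_add, hx, hz, single_add, map_add]

theorem aug_δ (V : Raw (B ⊗[ℤ] MonoidAlgebra ℤ G) Unit) (y : V.ι) (s : X) :
    aug F _ V.ι ((V.bm (F.TB fl B)).δ (single (y, s) 1)) = V.δ (aug F _ V.ι (single (y, s) 1)) := by
  have h1 : ∀ v : V.ι →₀ B ⊗[ℤ] MonoidAlgebra ℤ G, aug F _ V.ι (Jl (F.TB fl B).act v (single s 1)) =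
      aug F _ V.ι (inc (fun i => (i, s)) v) := fun v => by
    induction v using Finsupp.induction_linear with
    | zero => rw [Forest.TB_isBM.Jl_zero, map_zero, map_zero, map_zero]
    | add a b ha hb => rw [Forest.TB_isBM.Jl_add, map_add, ha, hb, map_add, map_add]
    | single i a => rw [Jl_single Forest.TB_act_zero, lc_single, aug_act, inc_single]
  have h2 : aug F (B ⊗[ℤ] MonoidAlgebra ℤ G) V.ι (inc (Prod.mk y) ((F.TB fl B).Δ s)) = 0 := by
    change aug F _ V.ι (inc (Prod.mk y)
      (F.sg fl s • (single (F.d1 s) 1 - single (F.d0 s) 1))) = 0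
    rw [Units.smul_def, map_zsmul, map_zsmul, map_sub, map_sub, inc_mk_single, inc_mk_single,
      aug_v y (F.ed_d0 s), aug_v y (F.ed_d1 s), sub_self, smul_zero]
  rw [← inc_mk_single, bm_δ_inc, map_add, h1, lc_single, Units.smul_def, map_zsmul, h2, smul_zero,
    add_zero, inc_mk_single]
  by_cases h : F.ed s
  · rw [aug_e y h, map_zero]
    induction V.δ (single y 1) using Finsupp.induction_linear with
    | zero => rw [map_zero, map_zero]
    | add a b ha hb => rw [map_add, map_add, ha, hb, add_zero]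
    | single i a => rw [inc_single, aug_e i h]
  · rw [aug_v y h]
    induction V.δ (single y 1) using Finsupp.induction_linear with
    | zero => rw [map_zero, map_zero]
    | add a b ha hb => rw [map_add, map_add, ha, hb]
    | single i a => rw [inc_single, aug_v i h]

end TH3

open TH3 in
theorem st_th3 : St_TH3 := by
  classical
  intro G X _ _ F fl ht hR B _ V K hV hf hK
  have gT := F.gpos.T_bas.good.bc B
  have hY := (relab_isFn (C := (bcat F.gpos.T).bc B)
    (C₁ := (tcat (MonoidAlgebra ℤ G) Unit).bc B) (l := fun _ => ()) rfl fun k o o' =>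
      bcF_mono fun a ha => mem_bcat.2 ⟨trivial, (mem_bcat.1 ha).2⟩).obj
    (gT.ses_res (Forest.TB_obj (F := F) (fl := fl) hV) hK.closed).1
  have far_mem : ∀ y (e : {e : X // F.ed e}), e.1 ∈ K y → F.far (fl e) ∈ K y := fun y e h => by
    unfold Forest.far
    rw [hR.edge]
    cases (fl e).2
    exacts [hK.d0 _ _ h, hK.d1 _ _ h]
  let φ : ({q : V.ι × {e : X // F.ed e} // q.2.1 ∈ K q.1} × Bool) ⊕ V.ι →
      {p : V.ι × X // p.2 ∈ K p.1} := Sum.elim (fun p => bif p.2 then ⟨(p.1.1.1, p.1.1.2.1), p.1.2⟩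
        else ⟨(p.1.1.1, F.far (fl p.1.1.2)), far_mem _ _ p.1.2⟩) fun y => ⟨(y, F.b ()), hK.b y⟩
  have hφ : Function.Bijective φ := by
    constructor
    · rintro (⟨⟨⟨y, e⟩, h⟩, _ | _⟩ | y) (⟨⟨⟨y', e'⟩, h'⟩, _ | _⟩ | y') q <;>
        obtain ⟨q1, q2⟩ := Prod.ext_iff.1 (congrArg Subtype.val q)
      · obtain rfl : y = y' := q1
        obtain rfl : e = e' := hR.inj _ _ q2
        rfl
      · exact (far_v (fl e) ((congrArg F.ed q2).mpr e'.2)).elim
      · exact (hR.ne_b e () q2).elim
      · exact (far_v (fl e') ((congrArg F.ed q2).mp e.2)).elim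
      · obtain rfl : y = y' := q1
        obtain rfl : e = e' := Subtype.ext q2
        rfl
      · exact (F.ed_b () ((congrArg F.ed q2).mp e.2)).elim
      · exact (hR.ne_b e' () q2.symm).elim
      · exact (F.ed_b () ((congrArg F.ed q2).mpr e'.2)).elim
      · obtain rfl : y = y' := q1
        rfl
    · rintro ⟨⟨y, s⟩, h⟩
      by_cases h1 : F.ed s
      · exact ⟨.inl (⟨(y, ⟨s, h1⟩), h⟩, true), rfl⟩
      by_cases h2 : s = F.b ()
      · subst h2
        exact ⟨.inr y, rfl⟩
      obtain ⟨e, rfl⟩ := hR.surj s h1 h2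
      exact ⟨.inl (⟨(y, e), hK.s0 y _ h _ (hR.s0_far e)⟩, false), rfl⟩
  have := hK.finite hf.1
  have := Finite.of_injective (fun k => φ (.inl (k, true))) fun k k' q =>
    (Prod.ext_iff.1 (Sum.inl_injective (hφ.1 q))).1
  obtain ⟨ρ, hρ⟩ := hf.rank
  obtain ⟨N, hN⟩ := (Set.finite_range fun k : {q : V.ι × {e : X // F.ed e} // q.2.1 ∈ K q.1} =>
    ht (F.far (fl k.1.2))).bddAbove
  have key : ∀ k k' : {q : V.ι × {e : X // F.ed e} // q.2.1 ∈ K q.1},
      ρ k.1.1 * (N + 1) + ht (F.far (fl k.1.2)) ≤ ρ k'.1.1 * (N + 1) + ht (F.far (fl k'.1.2)) →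
      ∀ s s', (V.bm (F.TB fl B)).δ (single (k.1.1, s) 1) (k'.1.1, s') =
        if k.1.1 = k'.1.1 then (V.deg k.1.1).negOnePow • (F.TB fl B).Δ s s' else 0 := by
    intro k k' h s s'
    have h0 : V.δ (single k.1.1 1) k'.1.1 = 0 := by
      by_contra h1
      have h2 := Nat.mul_le_mul_right (N + 1) (Nat.succ_le_of_lt (hρ _ _ h1))
      have h3 : ht (F.far (fl k'.1.2)) ≤ N := hN ⟨k', rfl⟩
      rw [Nat.succ_mul] at h2
      omega
    rw [Forest.TB_δ, h0, map_zero, smul_zero, zero_add]
  refine simp_of_aug ((tcat_good _ _).bc B) hY (Equiv.ofBijective φ hφ) (fun k => k.1.1)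
    (aug F _ V.ι ∘ₗ inc Subtype.val) (fun k => ρ k.1.1 * (N + 1) + ht (F.far (fl k.1.2)))
    (fun k => (V.deg k.1.1).negOnePow) (fun k => ?_) (fun k => ?_) (fun y => ?_) (fun _ _ => rfl)
    (fun _ => rfl) (fun k => ?_) (fun k => ?_) (fun y => ?_) (fun j => ?_) (fun k k' b' h => ?_)
    fun k k' b' h => ?_
  · change V.deg k.1.1 + (F.TB fl B).dg (F.far (fl k.1.2)) =
      V.deg k.1.1 + (F.TB fl B).dg k.1.2.1 + 1
    rw [Forest.TB_dg_v (far_v _), Forest.TB_dg_e k.1.2.2]
    ring
  · change V.deg k.1.1 + (F.TB fl B).dg (F.far (fl k.1.2)) = _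
    rw [Forest.TB_dg_v (far_v _), add_zero]
  · change V.deg y + (F.TB fl B).dg (F.b ()) = _
    rw [Forest.TB_dg_v (F.ed_b _), add_zero]
  · rw [LinearMap.comp_apply, inc_single]
    exact aug_e _ k.1.2.2 _
  · rw [LinearMap.comp_apply, inc_single]
    exact aug_v _ (far_v _) _
  · rw [LinearMap.comp_apply, inc_single]
    exact aug_v _ (F.ed_b _) _
  · refine (congrArg (aug F _ V.ι) (inc_res_map (V.bm (F.TB fl B)).δ hK.closed _)).trans ?_
    rw [LinearMap.comp_apply, inc_single]
    exact aug_δ V j.1.1 j.1.2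
  · refine (Raw.res_δ (V := V.bm (F.TB fl B)) _ _ _).trans ?_
    cases b'
    · refine (key k k' h _ _).trans ?_
      rw [Forest.TB_Δ_e hR, Finsupp.sub_apply]
      by_cases h1 : k = k'
      · subst h1
        rw [if_pos rfl, single_eq_same, single_eq_same,
          single_eq_of_ne fun q => (hR.ht_lt k.1.2).ne' (congrArg ht q), sub_zero]
      · rw [single_eq_of_ne (a := (k, false)) fun q => h1 (Prod.ext_iff.1 q).1.symm]
        split_ifs with h2
        · rw [single_eq_of_ne fun q => h1 (Subtype.ext (Prod.ext h2 (hR.inj _ _ q).symm)),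
            single_eq_of_ne fun q => ?_, sub_zero, smul_zero]
          have h3 := hR.ht_lt k.1.2
          rw [← q] at h3
          rw [h2] at h
          exact h3.not_ge (Nat.le_of_add_le_add_left h)
        · rfl
    · refine (key k k' h _ _).trans ?_
      rw [Forest.TB_Δ_e hR, Finsupp.sub_apply,
        single_eq_of_ne fun q => far_v _ ((congrArg F.ed q).mp k'.1.2.2),
        single_eq_of_ne fun q => near_v _ ((congrArg F.ed q).mp k'.1.2.2), sub_zero, smul_zero,
        ite_self, single_eq_of_ne fun q => Bool.false_ne_true (Prod.ext_iff.1 q).2.symm]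
  · refine (Raw.res_δ (V := V.bm (F.TB fl B)) _ _ _).trans
      (Eq.trans ?_ (Raw.res_δ (V := V.bm (F.TB fl B)) _ _ _).symm)
    cases b' <;> refine (key k k' h _ _).trans (Eq.trans ?_ (key k k' h _ _).symm) <;>
      rw [Forest.TB_Δ_v (far_v _), Forest.TB_Δ_v (F.ed_b _)]

end Pool.Agent.Lib.NIL
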