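import Pool.Agent.Lib.NIL.TH2
import Pool.Agent.Lib.NIL.TH3

/-! Block TH: assembly. -/

namespace Pool.Agent.Lib.NIL

theorem st_TH (hFAR : St_FAR) (hSIMP : St_SIMP) : St_TH := st_th hFAR (st_th2 hSIMP) st_th3

end Pool.Agent.Lib.NIL
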