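import Pool.Agent.Lib.NIL.A6
import Pool.Agent.Lib.NIL.Blue2

/-! Block TK0: the tree step for perfect complexes. -/

noncomputable section

namespace Pool.Agent.Lib.NIL

open Finsupp TensorProduct Polynomial

namespace TK0

variable {E L : Type} [Ring E] {C C' : Cat E L} {V : Raw E L}

theorem D_eq (hd : C'.d = C.d) : C'.D V = C.D V := by
  unfold Cat.D
  rw [hd]

theorem hom_of (h : ∀ k i i', C.H k (V.lab i) (V.lab i') ≤ C'.H k (V.lab i) (V.lab i')) {k : ℤ}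
    {f : Lin V V} (hf : C.Hom k V V f) : C'.Hom k V V f := fun i i' => h _ _ _ (hf i i')

theorem obj_of (hd : C'.d = C.d)
    (h : ∀ k i i', C.H k (V.lab i) (V.lab i') ≤ C'.H k (V.lab i) (V.lab i')) (hV : C.Obj V) :
    C'.Obj V := ⟨hom_of h hV.1, by rw [D_eq hd]; exact hV.2⟩

theorem nul_of (hd : C'.d = C.d)
    (h : ∀ k i i', C.H k (V.lab i) (V.lab i') ≤ C'.H k (V.lab i) (V.lab i')) {z : E}
    (hV : C.Nul z V) : C'.Nul z V := by
  obtain ⟨f, hf, e⟩ := hV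
  exact ⟨f, hom_of h hf, by rw [D_eq hd]; exact e⟩

theorem bc_le {R O O' : Type} [Ring R] {Rf : O → O → AddSubgroup R} {Rf' : O' → O' → AddSubgroup R}
    {o₁ o₂ : O} {p₁ p₂ : O'} (h : Rf o₁ o₂ ≤ Rf' p₁ p₂) (B : Type) [CommRing B] (k : ℤ) :
    ((bcat Rf).bc B).H k o₁ o₂ ≤ ((bcat Rf').bc B).H k p₁ p₂ := by
  refine bcF_mono ?_
  change (if k = 0 then Rf o₁ o₂ else ⊥) ≤ if k = 0 then Rf' p₁ p₂ else ⊥
  split_ifs
  · exact h
  · exact le_rfl

variable {G X : Type} [Group G] [MulAction G X] (F : Forest G Unit X)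

theorem T_le_gfam {s s' : X} (h : F.ed s ↔ F.ed s') : F.gpos.T s s' ≤ gfam G X s s' := by
  refine sfam_mono fun g hg => ?_
  by_cases he : F.ed s
  · rcases hg with hg | hg | hg
    · exact hg
    · exact absurd ((F.ed_smul g s').2 (h.1 he)) (hg ▸ F.ed_d0 s)
    · exact absurd ((F.ed_smul g s').2 (h.1 he)) (hg ▸ F.ed_d1 s)
  · rcases hg with hg | hg | hg
    · exact hg
    · exact hg.trans (F.d0_v s he)
    · exact hg.trans (F.d1_v s he)

theorem T_le_bot {s s' : X} (h : ¬ F.ed s) (h' : F.ed s') : F.gpos.T s s' ≤ ⊥ := by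
  intro a ha
  rw [AddSubgroup.mem_bot]
  ext g
  by_contra hg
  have e : g • s' = s := by
    rcases ha g hg with hg | hg | hg
    · exact hg
    · exact hg.trans (F.d0_v s h)
    · exact hg.trans (F.d1_v s h)
  exact h (e ▸ (F.ed_smul g s').2 h')

theorem eq_b (h : ¬ Nonempty F.Fl) (s : X) : s = F.b () := by
  have he : ∀ t, ¬ F.ed t := fun t ht => h ⟨(⟨t, ht⟩, true)⟩
  have h0 : F.s0 s = 0 := by
    ext t
    by_contra ht
    exact he t (F.s0_supp s t ht).2.1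
  have := F.bd_s0 s (he s)
  rw [h0, mapDomain_zero, mapDomain_zero, sub_zero, eq_comm, sub_eq_zero] at this
  exact single_left_injective one_ne_zero this

variable {A : Type} [CommRing A]

/-- a homogeneous part killed by a monic polynomial is cellular after forgetting the variable -/
theorem part (hQ : QO G X A) {Y : Raw (A[X] ⊗[ℤ] MonoidAlgebra ℤ G) X}
    (hY : ((bcat F.gpos.T).bc A[X]).Obj Y) (hf : Y.Fin1) {g : A[X]} (hg : g.Monic)
    (hn : ((bcat F.gpos.T).bc A[X]).Nul (g ⊗ₜ 1) Y)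
    (hl : ∀ i i', F.ed (Y.lab i) ↔ F.ed (Y.lab i')) :
    ((tcat (MonoidAlgebra ℤ G) Unit).bc A).InO ((flat Y).relab fun _ => ()) := by
  have gG := (gfam_bas G X).good
  have h1 : ∀ k i i', ((bcat F.gpos.T).bc A[X]).H k (Y.lab i) (Y.lab i') ≤
      ((bcat (gfam G X)).bc A[X]).H k (Y.lab i) (Y.lab i') :=
    fun k i i' => bc_le (T_le_gfam F (hl i i')) _ k
  have hd : ((bcat (gfam G X)).bc A[X]).d = ((bcat F.gpos.T).bc A[X]).d := rfl
  have hY' := obj_of hd h1 hY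
  have hp := (gG.fn hY' hf hg (nul_of hd h1 hn)).2
  exact relab_inO (C := (bcat (gfam G X)).bc A) rfl (fun k _ _ => bc_le le_top _ k)
    (hQ _ ((gG.flat_isFn A).obj hY') hp)

end TK0

open TK0 in
theorem st_tk0 (hTS : St_TS) (hTH : St_TH) (hTF : St_TFIN) (hKEY : St_KEY) : St_TK0 := by
  intro G X _ _ F A _ hQ hQ' hL M hM hp
  have gC := tcat_good (MonoidAlgebra ℤ G) Unit
  by_cases hne : Nonempty F.Fl
  swap
  · have hb : ∀ s s' : X, (⊤ : AddSubgroup (MonoidAlgebra ℤ G)) ≤ gfam G X s s' :=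
      fun s s' _ _ g _ => (eq_b F hne _).trans (eq_b F hne _).symm
    have f := relab_isFn (C := (tcat (MonoidAlgebra ℤ G) Unit).bc A)
      (C₁ := (bcat (gfam G X)).bc A) (l := fun _ => F.b ()) rfl fun k _ _ => bc_le (hb _ _) _ k
    exact relab_inO (C := (bcat (gfam G X)).bc A) (C₁ := (tcat (MonoidAlgebra ℤ G) Unit).bc A)
      (l := fun _ => ()) rfl (fun k _ _ => bc_le le_top _ k)
      (hQ _ (f.obj hM) (f.perf (fun _ _ h => h) hM hp))
  obtain ⟨E'', Λ'', _, S'', Bm, ent, hP⟩ := hTS G X F hne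
  obtain ⟨V, hV, hVf, hVn, hVe⟩ := gC.ret hM hp
  obtain ⟨Y, hY, hYf, ⟨g, hg, hYn⟩, hYe⟩ := hKEY _ _ _ _ _ _ _ _ _ _ _ _ _ _ _ hP.loc A[X] (Ax A)
    (Mon A) (hTF G X E'' Λ'' F S'' Bm ent hP (Ax A) hQ') (hL E'' Λ'' S'' hP.sys) V hV
    (hTH G X E'' Λ'' F S'' Bm ent hP A[X] V hV hVf) ⟨_, monic_X, hVn⟩
  have gT := F.gpos.T_bas.good
  obtain ⟨hc, n1, n2⟩ := (gT.bc A[X]).nul_res (fun s => ¬ F.ed s) (fun k s s' a hs hs' ha => by
    have := bc_le (Rf' := fun _ _ : Unit => ⊥) (p₁ := ()) (p₂ := ())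
      (T_le_bot F hs (not_not.1 hs')) A[X] k ha
    change a ∈ bcF _ (if k = 0 then ⊥ else ⊥) at this
    rwa [ite_self, bcF_bot] at this) hY hYn
  have ses := (gT.bc A[X]).ses_res hY hc
  have f := relab_isFn (C := (bcat F.gpos.T).bc A) (C₁ := (tcat (MonoidAlgebra ℤ G) Unit).bc A)
    (l := fun _ => ()) rfl fun k _ _ => bc_le le_top _ k
  have f' := relab_isFn (C := (bcat F.gpos.T).bc A[X])
    (C₁ := (tcat (MonoidAlgebra ℤ G) Unit).bc A[X]) (l := fun _ => ()) rfl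
    fun k _ _ => bc_le le_top _ k
  have i1 := part F hQ ses.1 (hYf.res _) hg n1 fun i i' => iff_of_false i.2 i'.2
  have i2 := part F hQ ses.2.2.1 (hYf.res _) hg n2
    fun i i' => iff_of_true (not_not.1 i.2) (not_not.1 i'.2)
  have i3 := (gC.bc A).ses_inO_mid (f.ses ((gT.flat_isFn A).ses ses)) i1 i2
  rw [← flat_relab] at i3
  exact (gC.bc A).inO_of_eqv ((gC.bc A).eqv_trans hVe.symm
    ((gC.flat_isFn A).eqv (f'.obj hY) hV hYe).symm) i3

end Pool.Agent.Lib.NIL
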