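import Pool.Agent.Lib.NIL.WhQ

/-! Torsion of complexes that are contractible over a triangular family of stabilisers. -/

noncomputable section

namespace Pool.Agent.Lib.NIL

open Matrix Pool.Agent.WhDet Function MulAction

universe u

variable {G : Type u} [Group G] {O : Type*} [MulAction G O]

theorem exists_coeff_ne {a : MonoidAlgebra ℤ G} (h : a ≠ 0) : ∃ g, a.coeff g ≠ 0 := by
  by_contra h0
  exact h (MonoidAlgebra.ext (Finsupp.ext fun g => not_not.1 fun h1 => h0 ⟨g, h1⟩))

/-- all labels in one orbit -/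
theorem torM_orbit {ι : Type*} [Fintype ι] [DecidableEq ι] {deg : ι → ℤ} (o : O)
    [Subsingleton (Wh (stabilizer G o))] (x : ι → G) {d h : Matrix ι ι (MonoidAlgebra ℤ G)}
    (pd : ∀ i j, d i j ≠ 0 → Odd (deg i - deg j)) (dd : d * d = 0) (dh : d * h + h * d = 1)
    (hd : ∀ i j g, (d i j).coeff g ≠ 0 → g • x j • o = x i • o)
    (hh : ∀ i j g, (h i j).coeff g ≠ 0 → g • x j • o = x i • o) : TorM (whQ G) deg d := by
  let φ := MonoidAlgebra.mapDomainRingHom ℤ (stabilizer G o).subtype
  have inj : Injective φ := MonoidAlgebra.mapDomain_injective (stabilizer G o).subtype_injective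
  let D : Matrix ι ι (MonoidAlgebra ℤ G) := diagonal fun i => .single (x i) 1
  let D' : Matrix ι ι (MonoidAlgebra ℤ G) := diagonal fun i => .single (x i)⁻¹ 1
  have D1 : D * D' = 1 := by
    simp [D, D', diagonal_mul_diagonal, MonoidAlgebra.single_mul_single, ← MonoidAlgebra.one_def]
  have D2 : D' * D = 1 := by
    simp [D, D', diagonal_mul_diagonal, MonoidAlgebra.single_mul_single, ← MonoidAlgebra.one_def]
  have sur : ∀ a : Matrix ι ι (MonoidAlgebra ℤ G),
      (∀ i j g, (a i j).coeff g ≠ 0 → g • x j • o = x i • o) →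
      ∃ b : Matrix ι ι _, b.map φ = D' * a * D := fun a ha => by
    have : ∀ i j, ∃ y, φ y = (D' * a * D) i j := fun i j =>
      ⟨_, MonoidAlgebra.mapDomain_comapDomain (fun g hg => ⟨⟨g, by
        have k := Finsupp.mem_support_iff.1 hg
        simp only [D, D', mul_diagonal, diagonal_mul, MonoidAlgebra.coeff_mul_single_apply,
          MonoidAlgebra.coeff_single_mul_apply, one_mul, mul_one, inv_inv] at k
        simpa [mul_smul] using ha i j _ k⟩, rfl⟩) (stabilizer G o).subtype_injective⟩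
    choose b hb using this
    exact ⟨Matrix.of b, Matrix.ext hb⟩
  obtain ⟨d₀, e1⟩ := sur d hd
  obtain ⟨h₀, e2⟩ := sur h hh
  have key : ∀ a b : Matrix ι ι (MonoidAlgebra ℤ G), D' * a * D * (D' * b * D) = D' * (a * b) * D :=
    fun a b => by
      calc _ = D' * a * (D * D') * b * D := by noncomm_ring
        _ = _ := by rw [D1]; noncomm_ring
  have c : Ctr (par _ deg) d₀ := Ctr.of' (h := h₀) par_mul_par
    (par_odd fun i j h0 => pd i j fun h1 => h0 (inj (by
      rw [← map_apply (f := φ), e1, mul_diagonal, diagonal_mul, h1, map_zero]; simp)))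
    (Matrix.map_injective inj (by
      simp only [Matrix.map_mul, e1, key, dd, Matrix.map_zero _ (map_zero φ)]; simp))
    (Matrix.map_injective inj (by
      simp only [Matrix.map_mul, Matrix.map_add _ (map_add φ), e1, e2, key,
        Matrix.map_one _ (map_zero φ) (map_one φ)]
      rw [← add_mul, ← mul_add, dh, mul_one, D2]))
  have t := (torM_top' (MonoidAlgebra.lift ℤ ℤ (stabilizer G o) 1).toRingHom c).map φ
    (Q' := whQ G) fun y _ => map_mem_whQ _ y
  rw [e1] at t
  refine (torM_diagonal (u := fun i => .single (x i) 1) (fun i => ?_) (fun i => cl1_of_mem _)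
    fun i j => ?_).2 t
  · exact (Group.isUnit (x i)).map (MonoidAlgebra.of ℤ G)
  · have e : D * (D' * d * D) = d * D := by rw [← mul_assoc, ← mul_assoc, D1, one_mul]
    exact (diagonal_mul _ _ i j).symm.trans
      ((congrFun (congrFun e i) j).trans (mul_diagonal _ _ _ _))

/-- labels in a `G`-set with an invariant rank; the entries preserve the label or lower the rank -/
theorem torM_rank {ι : Type} [Fintype ι] [DecidableEq ι] {deg : ι → ℤ} (lab : ι → O) (r : O → ℤ)
    (hr : ∀ (g : G) o, r (g • o) = r o) (hW : ∀ i, Subsingleton (Wh (stabilizer G (lab i))))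
    {d h : Matrix ι ι (MonoidAlgebra ℤ G)} (pd : ∀ i j, d i j ≠ 0 → Odd (deg i - deg j))
    (dd : d * d = 0) (dh : d * h + h * d = 1)
    (hd : ∀ i j g, (d i j).coeff g ≠ 0 → g • lab j = lab i ∨ r (lab j) < r (lab i))
    (hh : ∀ i j g, (h i j).coeff g ≠ 0 → g • lab j = lab i ∨ r (lab j) < r (lab i)) :
    TorM (whQ G) deg d := by
  classical
  obtain ⟨m, hm⟩ := (Set.finite_range fun i => r (lab i)).bddBelow
  let b : ι → orbitRel.Quotient G O := fun i => Quotient.mk _ (lab i)
  have hb : ∀ i j, b i = b j ↔ ∃ g : G, g • lab j = lab i := fun i j => Quotient.eq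
  have hb' : ∀ i j, b i = b j → r (lab i) = r (lab j) := fun i j h => by
    obtain ⟨g, hg⟩ := (hb i j).1 h
    rw [← hg, hr]
  have tri : ∀ a : Matrix ι ι (MonoidAlgebra ℤ G), (∀ i j g, (a i j).coeff g ≠ 0 →
      g • lab j = lab i ∨ r (lab j) < r (lab i)) → ∀ i j, a i j ≠ 0 →
      b i = b j ∨ r (lab j) < r (lab i) := fun a ha i j h0 =>
    let ⟨g, hg⟩ := exists_coeff_ne h0; (ha i j g hg).imp_left fun h => (hb i j).2 ⟨g, h⟩
  let ρ : orbitRel.Quotient G O → ℕ := Quotient.lift (fun o => (r o - m).toNat) fun o o' h => by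
    obtain ⟨g, hg⟩ : ∃ g : G, g • o' = o := h
    simp only [← hg, hr]
  refine torM_filt cl1_neg_one_mem ρ (Finset.univ.image b) b
    (fun i => Finset.mem_image_of_mem _ (Finset.mem_univ i)) pd dd (fun i j h0 => ?_) fun l hl => ?_
  · refine (tri d hd i j h0).imp_right fun h => ?_
    have := hm ⟨j, rfl⟩
    change (r (lab j) - m).toNat < (r (lab i) - m).toNat
    simp only at this
    omega
  obtain ⟨i₀, -, rfl⟩ := Finset.mem_image.1 hl
  choose x hx using fun i : {i // b i = b i₀} => (hb _ _).1 i.2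
  have blk : ∀ a a' : Matrix ι ι (MonoidAlgebra ℤ G),
      (∀ i j, a i j ≠ 0 → b i = b j ∨ r (lab j) < r (lab i)) →
      (∀ i j, a' i j ≠ 0 → b i = b j ∨ r (lab j) < r (lab i)) →
      a.submatrix (Subtype.val : {i // b i = b i₀} → ι) (Subtype.val : {i // b i = b i₀} → ι) *
        a'.submatrix Subtype.val (Subtype.val : {i // b i = b i₀} → ι) =
        (a * a').submatrix Subtype.val Subtype.val := fun a a' ha ha' => by
    ext i k : 1
    refine (submatrix_mul_closed (κ := {i // b i = b i₀}) Subtype.val_injective _ _ i.1 k.1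
      fun j hj => ⟨⟨j, ?_⟩, rfl⟩).symm
    rcases ha _ _ (left_ne_zero_of_mul hj) with h1 | h1
    · exact h1.symm.trans i.2
    · rcases ha' _ _ (right_ne_zero_of_mul hj) with h2 | h2
      · exact h2.trans k.2
      · have := hb' _ _ (i.2.trans k.2.symm)
        omega
  have ent : ∀ a : Matrix ι ι (MonoidAlgebra ℤ G), (∀ i j g, (a i j).coeff g ≠ 0 →
      g • lab j = lab i ∨ r (lab j) < r (lab i)) → ∀ (i j : {i // b i = b i₀}) g,
      (a i j).coeff g ≠ 0 → g • x j • lab i₀ = x i • lab i₀ := fun a ha i j g hg => by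
    rw [hx, hx]
    exact (ha i j g hg).resolve_right (hb' _ _ (i.2.trans j.2.symm)).not_gt
  have := hW i₀
  refine torM_orbit (lab i₀) x (h := h.submatrix Subtype.val Subtype.val) (fun i j => pd i j) ?_ ?_
    (ent d hd) (ent h hh)
  · rw [blk d d (tri d hd) (tri d hd), dd]
    rfl
  · rw [blk d h (tri d hd) (tri h hh), blk h d (tri h hh) (tri d hd),
      ← submatrix_one (α := MonoidAlgebra ℤ G) _ Subtype.val_injective, ← dh]
    rfl

/-- the same for `Raw` objects -/
theorem tors_rank {G L : Type} [Group G] [MulAction G O] {V : Raw (MonoidAlgebra ℤ G) L}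
    [Finite V.ι] (lab : V.ι → O) (r : O → ℤ) (hr : ∀ (g : G) o, r (g • o) = r o)
    (hW : ∀ i, Subsingleton (Wh (stabilizer G (lab i)))) (hV : (tcat _ L).Obj V) {h : Lin V V}
    (dh : V.δ ∘ₗ h + h ∘ₗ V.δ = LinearMap.id)
    (hd : ∀ i j g, (mtx V.δ i j).coeff g ≠ 0 → g • lab j = lab i ∨ r (lab j) < r (lab i))
    (hh : ∀ i j g, (mtx h i j).coeff g ≠ 0 → g • lab j = lab i ∨ r (lab j) < r (lab i)) :
    Tors (whQ G) V := by
  classical
  have := Fintype.ofFinite V.ι
  obtain ⟨h1, dd⟩ := tcat_obj'.1 hV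
  exact (tors_iff_torM negCl_mem hV).2 (torM_rank lab r hr hW
    (fun i j h0 => by rw [h1 i j h0]; simp) dd
    (by rw [← mtx_comp, ← mtx_comp, ← mtx_add, add_comm, dh, mtx_id]) hd hh)

end Pool.Agent.Lib.NIL
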