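import Pool.Agent.Lib.NIL.A3
import Pool.Agent.Lib.NIL.WhG

/-! Equivalences over a triangular family are simple. -/

noncomputable section

namespace Pool.Agent.Lib.NIL

open Finsupp Pool.Agent.WhDet MulAction

section

variable {R O : Type} [Ring R] {Rf : O → O → AddSubgroup R} {V W : Raw R O}

theorem bcat_hom_tcat {k : ℤ} {f : Lin V W} (h : (bcat Rf).Hom k V W f) : (tcat R O).Hom k V W f :=
  tcat_hom.2 fun i j => (bcat_hom.1 h i j).2

theorem bcat_obj_tcat (h : (bcat Rf).Obj V) : (tcat R O).Obj V := ⟨bcat_hom_tcat h.1, h.2⟩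

theorem bcat_ch_tcat {f : Lin V W} (h : (bcat Rf).Ch V W f) : (tcat R O).Ch V W f :=
  ⟨bcat_hom_tcat h.1, h.2⟩

theorem bcat_ctr_tcat (h : (bcat Rf).Ctr V) : (tcat R O).Ctr V :=
  let ⟨k, h1, h2⟩ := h; ⟨k, bcat_hom_tcat h1, h2⟩

end

variable {G X : Type} [Group G] [MulAction G X] {Tf : X → X → AddSubgroup (MonoidAlgebra ℤ G)}
  {V W : Raw (MonoidAlgebra ℤ G) X} (r : X → ℤ) (hr : ∀ (g : G) s, r (g • s) = r s)
  (hT : ∀ s s' a, a ∈ Tf s s' → ∀ g, a.coeff g ≠ 0 → g • s' = s ∨ r s' < r s)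
  (hW : ∀ s : X, Subsingleton (Wh (stabilizer G s)))
include hr hT hW

theorem tors_of_ctr [Finite V.ι] (hV : (bcat Tf).Obj V) (c : (bcat Tf).Ctr V) :
    Tors (whQ G) V := by
  obtain ⟨h, h1, h2⟩ := c
  refine tors_rank V.lab r hr (fun _ => hW _) (bcat_obj_tcat hV) (h := h)
    (LinearMap.ext fun v => ?_) (fun i j => hT _ _ _ (bcat_hom.1 hV.1 i j).1)
    fun i j => hT _ _ _ (bcat_hom.1 h1 i j).1
  have := h2 v
  rw [bcat_D, bcat_D, LinearMap.zero_apply, sub_zero] at this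
  exact this.symm

theorem tors_eqv [Finite V.ι] [Finite W.ι] (hb : IsBas Tf) (hV : (bcat Tf).Obj V)
    (hV' : (bcat Tf).Obj W) (e : (bcat Tf).Eqv V W) : Tors (whQ G) V ↔ Tors (whQ G) W := by
  obtain ⟨f, hf⟩ := e
  have h := hb.good.obj_cone hV hV' hf.1
  exact ((tors_cone negCl_mem (bcat_obj_tcat hV) (bcat_obj_tcat h)).2
    (tors_of_ctr r hr hT hW h ((hb.good.ctr_cone_iff hV hV' hf.1).2 hf))).symm

end Pool.Agent.Lib.NIL
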