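import Pool.Agent.Lib.NIL.A6
import Pool.Agent.Lib.NIL.Blue2
import Pool.Agent.Lib.NIL.WhE

/-! Block TK1: the tree step for Whitehead groups. -/

noncomputable section

namespace Pool.Agent.Lib.NIL

open Finsupp TensorProduct Pool.Agent.WhDet

theorem K1_map_map_id {R S : Type*} [Ring R] [Ring S] (φ : R →+* S) (ψ : S →+* R)
    (h : ∀ r, ψ (φ r) = r) (x : K1 R) : K1.map ψ (K1.map φ x) = x := by
  refine DFunLike.congr_fun (f := (K1.map ψ).comp (K1.map φ)) (g := AddMonoidHom.id _)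
    (K1.hom_ext fun n A => ?_) x
  rw [AddMonoidHom.comp_apply, ← cl_mk, map_map_cl _ _ A.isUnit, show _ ∘ _ = id from funext h,
    Matrix.map_id, AddMonoidHom.id_apply]

theorem isHomF_lid {E L : Type} [Ring E] (C : Cat E L) : IsHomF (C.bc ℤ) C
    (Algebra.TensorProduct.lid ℤ E).toRingEquiv.toRingHom.toAddMonoidHom id := by
  refine ⟨fun ha => ?_, map_one (Algebra.TensorProduct.lid ℤ E),
    fun _ _ => map_mul (Algebra.TensorProduct.lid ℤ E) _ _, fun {_ _ _ a} ha => ?_⟩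
  · refine bcF_induction (p := fun z => Algebra.TensorProduct.lid ℤ E z ∈ C.H _ _ _) ha
      (fun b e he => zsmul_mem he b) (by rw [map_zero]; exact zero_mem _) fun x y _ _ hx hy => ?_
    rw [map_add]
    exact add_mem hx hy
  · change Algebra.TensorProduct.lid ℤ E (lT ℤ C.d a) = C.d (Algebra.TensorProduct.lid ℤ E a)
    clear ha
    induction a using TensorProduct.induction_on with
    | zero => simp
    | tmul b e => exact (map_zsmul C.d b e).symm
    | add x y hx hy => simp only [map_add, hx, hy]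

theorem st_tk1 (hSIMP : St_SIMP) (hKEY : St_KEY0) (hTS : St_TS) (hTH : St_TH) (hTF : St_TFIN) :
    St_TK1 := by
  intro G X _ _ F hW hQO hL
  rcases isEmpty_or_nonempty F.Fl with hne | hne
  · have h0 : ∀ s, ¬ F.ed s := fun s h => hne.false (⟨s, h⟩, true)
    have h1 : ∀ s, s = F.b () := fun s => by
      have k := F.bd_s0 s (h0 s)
      rw [show F.s0 s = 0 from Finsupp.ext fun t => by_contra fun h => h0 t (F.s0_supp s t h).2.1,
        mapDomain_zero, mapDomain_zero, sub_zero, eq_comm, sub_eq_zero] at k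
      exact single_left_injective one_ne_zero k
    have := hW (F.b ())
    exact wh_of_retract (MulAction.stabilizer G (F.b ())).subtype
      ((MonoidHom.id G).codRestrict _ fun g => h1 _) fun _ => rfl
  refine wh_of_cl fun n M hM => ?_
  let ψ := (Algebra.TensorProduct.lid ℤ (MonoidAlgebra ℤ G)).toRingEquiv.toRingHom
  let φ := (Algebra.TensorProduct.lid ℤ (MonoidAlgebra ℤ G)).symm.toRingEquiv.toRingHom
  have e1 : ∀ r, ψ (φ r) = r := (Algebra.TensorProduct.lid ℤ _).apply_symm_apply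
  have e2 : ∀ r, φ (ψ r) = r := (Algebra.TensorProduct.lid ℤ _).symm_apply_apply
  have hQ : negCl _ ∈ (whQ G).comap (K1.map ψ) := by
    rw [AddSubgroup.mem_comap, map_negCl]
    exact negCl_mem
  let A : Raw (ℤ ⊗[ℤ] MonoidAlgebra ℤ G) Unit := ⟨Fin n, fun _ => 0 + 1, fun _ => (), 0⟩
  let B : Raw (ℤ ⊗[ℤ] MonoidAlgebra ℤ G) Unit := ⟨Fin n, fun _ => 0, fun _ => (), 0⟩
  have two := fun Q hQ => tors_two (Q := Q) (A := A) (B := B) (θ := unmat (M.map φ)) hQ rfl rfl
    (fun _ => rfl) (fun _ => rfl) (Equiv.refl _)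
  simp only [mtx_unmat, Equiv.coe_refl, Matrix.submatrix_id_id] at two
  have hV := (two _ hQ).1
  obtain ⟨E'', Λ'', _, S'', Bm, ent, hP⟩ := hTS G X F hne
  have hH := hTH G X E'' Λ'' F S'' Bm ent hP ℤ _ (by rwa [tcat_bc])
    ((tcat_good _ Unit).fin1_of_zero (fun k o o' a hk ha => by_contra fun h0 =>
      hk ((mem_bcat.1 ha).2 h0)) hV inferInstance)
  have hl := hSIMP.2.2 _ _ _ _ _ _ _ _ _ _ _ _ _ _ _ hP.loc ℤ
  rw [tcat_bc] at hH hl
  obtain ⟨Y, hY, hYf, hYc, ht⟩ := hKEY _ _ _ _ _ _ _ _ _ _ _ _ _ _ hl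
    (hTF G X E'' Λ'' F S'' Bm ent hP ℤ hQO) (hL E'' Λ'' S'' hP.sys) (scalars ℤ _) _ ⟨1, rfl⟩ hV hH
    ((two _ negCl_top).2.2 ⟨hM.map φ.mapMatrix, trivial⟩).ctr
  have k := ((two _ hQ).2.1 (ht _ hQ ?_)).2
  · rwa [AddSubgroup.mem_comap, ← cl_map φ hM, K1_map_map_id φ ψ e1] at k
  have := hYf.1
  have gT := F.gpos.T_bas.good
  have f := (isHomF_lid (bcat F.gpos.T)).isFn (gT.bc ℤ) gT
  have t := (tors_of_ctr (Tf := F.gpos.T) F.gpos.rk F.gpos.rk_smul (fun s s' a ha g hg =>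
    (F.gpos.rk_lt _ _ (ha g hg)).imp_right fun h => F.gpos.rk_smul g s' ▸ h) hW (f.obj hY)
    (f.ctr hY hYc)).mapA φ id (Q' := (whQ G).comap (K1.map ψ)) negCl_mem
    (fun x hx => by rwa [AddSubgroup.mem_comap, K1_map_map_id φ ψ e1]) (bcat_obj_tcat (f.obj hY))
  rwa [Raw.mapA_mapA, show φ.toAddMonoidHom.comp _ = AddMonoidHom.id _ from
    AddMonoidHom.ext e2, Raw.mapA_id] at t

end Pool.Agent.Lib.NIL
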