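import Pool.Agent.Lib.NIL.A7
import Pool.Agent.Lib.NIL.Blue2

/-! The endomorphism system attached to a tree. -/

set_option linter.unusedSectionVars false

noncomputable section

namespace Pool.Agent.Lib.NIL

open Finsupp TrivSqZeroExt

namespace TS

variable (G P : Type) [Group G] [MulAction G P]

/-- the bimodule spanned by the letters -/
def TM : Type := P →₀ MonoidAlgebra ℤ G

instance : AddCommGroup (TM G P) := Finsupp.instAddCommGroup

instance : Module (MonoidAlgebra ℤ G) (TM G P) := Finsupp.module P (MonoidAlgebra ℤ G)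

/-- the coefficients -/
def co : TM G P ≃ₗ[MonoidAlgebra ℤ G] (P →₀ MonoidAlgebra ℤ G) := LinearEquiv.refl _ _

variable {G P}

def sg (l : P) (r : MonoidAlgebra ℤ G) : TM G P := (co G P).symm (single l r)

theorem co_sg (l : P) (r : MonoidAlgebra ℤ G) : co G P (sg l r) = single l r := rfl

theorem smul_sg (l : P) (a r : MonoidAlgebra ℤ G) : a • sg l r = sg l (a * r) := by
  rw [sg, ← map_smul, smul_single, smul_eq_mul, sg]

theorem tm_ext {N : Type} [AddCommGroup N] [Module (MonoidAlgebra ℤ G) N]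
    {f g : TM G P →ₗ[MonoidAlgebra ℤ G] N} (h : ∀ l, f (sg l 1) = g (sg l 1)) : f = g :=
  lhom_ext' fun l => LinearMap.ext_ring (h l)

/-- right multiplication by a group element -/
def rg (g : G) : Module.End (MonoidAlgebra ℤ G) (TM G P) :=
  linearCombination _ (fun l => sg (g⁻¹ • l) (MonoidAlgebra.single g 1)) ∘ₗ (co G P).toLinearMap

theorem rg_sg (g : G) (l : P) (r : MonoidAlgebra ℤ G) :
    rg g (sg l r) = sg (g⁻¹ • l) (r * MonoidAlgebra.single g 1) := by
  rw [← smul_sg]
  exact linearCombination_single _ _ _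

variable (G P)

def rm : G →* (Module.End (MonoidAlgebra ℤ G) (TM G P))ᵐᵒᵖ where
  toFun g := MulOpposite.op (rg g)
  map_one' := congrArg MulOpposite.op (tm_ext fun l => by
    rw [rg_sg, inv_one, one_smul, one_mul]; rfl)
  map_mul' g h := congrArg MulOpposite.op (tm_ext fun l => by
    change rg (g * h) (sg l 1) = rg h (rg g (sg l 1))
    rw [rg_sg, rg_sg, rg_sg, mul_inv_rev, mul_smul, mul_assoc, MonoidAlgebra.single_mul_single,
      one_mul (1 : ℤ)])

def rr : (MonoidAlgebra ℤ G)ᵐᵒᵖ →+* Module.End (MonoidAlgebra ℤ G) (TM G P) :=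
  (RingEquiv.opOp _).symm.toRingHom.comp
    (RingHom.op (MonoidAlgebra.lift ℤ _ G (rm G P)).toRingHom)

instance : Module (MonoidAlgebra ℤ G)ᵐᵒᵖ (TM G P) := Module.compHom _ (rr G P)

variable {G P}

theorem op_smul (r : (MonoidAlgebra ℤ G)ᵐᵒᵖ) (m : TM G P) : r • m = rr G P r m := rfl

instance : SMulCommClass (MonoidAlgebra ℤ G) (MonoidAlgebra ℤ G)ᵐᵒᵖ (TM G P) :=
  ⟨fun a r m => by rw [op_smul, op_smul, map_smul]⟩

theorem op_single_smul (g : G) (n : ℤ) (l : P) (r : MonoidAlgebra ℤ G) :
    MulOpposite.op (MonoidAlgebra.single g n) • sg l r =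
      sg (g⁻¹ • l) (r * MonoidAlgebra.single g n) := by
  have : rr G P (MulOpposite.op (MonoidAlgebra.single g n)) = n • rg g := by
    change MulOpposite.unop (MonoidAlgebra.lift ℤ _ G (rm G P) (MonoidAlgebra.single g n)) = _
    rw [MonoidAlgebra.lift_single]; rfl
  rw [op_smul, this, LinearMap.smul_apply, rg_sg, sg, ← map_zsmul, smul_single, ← mul_smul_comm,
    MonoidAlgebra.smul_single, smul_eq_mul, mul_one, sg]

/-- the sum of the coefficients -/
def tot : TM G P →ₗ[MonoidAlgebra ℤ G] MonoidAlgebra ℤ G :=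
  linearCombination _ (fun _ => 1) ∘ₗ (co G P).toLinearMap

theorem tot_sg (l : P) (r : MonoidAlgebra ℤ G) : tot (sg l r) = r :=
  (linearCombination_single _ _ _).trans (mul_one r)

theorem tm_ind {p : TM G P → Prop} (m : TM G P) (h0 : p 0)
    (h1 : ∀ l, co G P m l ≠ 0 → p (sg l (co G P m l))) (h2 : ∀ a b, p a → p b → p (a + b)) :
    p m := by
  have : m = ∑ l ∈ (co G P m).support, sg l (co G P m l) := (co G P).injective (by
    rw [map_sum]; exact (sum_single _).symm)
  rw [this]
  exact Finset.sum_induction _ p h2 h0 fun l hl => h1 l (mem_support_iff.1 hl)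

theorem tot_op (r : MonoidAlgebra ℤ G) (m : TM G P) : tot (MulOpposite.op r • m) = tot m * r := by
  refine tm_ind (p := fun m => tot (MulOpposite.op r • m) = tot m * r) m (by simp)
    (fun l _ => ?_) fun a b ha hb => by simp only [smul_add, map_add, ha, hb, add_mul]
  induction r using MonoidAlgebra.induction_linear with
  | zero => simp
  | add a b ha hb => simp only [MulOpposite.op_add, add_smul, map_add, ha, hb, mul_add]
  | single g n => simp only [op_single_smul, tot_sg]

variable (G P) in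
abbrev TE : Type := TrivSqZeroExt (MonoidAlgebra ℤ G) (TM G P)

/-- the coordinates -/
def cc : TE G P ≃+ (Option P →₀ MonoidAlgebra ℤ G) where
  toFun e := (co G P e.snd).optionElim e.fst
  invFun v := inl (v none) + inr ((co G P).symm v.some)
  left_inv e := by simp [inl_fst_add_inr_snd_eq]
  right_inv v := by simp
  map_add' a b := by
    ext1 l
    cases l <;> simp

theorem cc_none (e : TE G P) : cc e none = e.fst := optionElim_apply_none _ _

theorem cc_some (e : TE G P) (l : P) : cc e (some l) = co G P e.snd l := optionElim_apply_some _ _ _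

theorem cc_inr (l : P) (r : MonoidAlgebra ℤ G) : cc (inr (sg l r)) = single (some l) r := by
  ext1 m
  cases m with
  | none => simp [cc_none]
  | some m => rw [cc_some, snd_inr, co_sg, single_apply_left (Option.some_injective _)]

/-- the sign involution -/
def sgn : TE G P →+ TE G P where
  toFun e := inl e.fst - inr e.snd
  map_zero' := by simp
  map_add' a b := by ext <;> simp [add_comm]

theorem fst_sgn (e : TE G P) : (sgn e).fst = e.fst := by simp [sgn]

theorem snd_sgn (e : TE G P) : (sgn e).snd = -e.snd := by simp [sgn]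

def fa : TE G P →+ MonoidAlgebra ℤ G where
  toFun := fst
  map_zero' := fst_zero
  map_add' := fst_add

def ta : TE G P →+ MonoidAlgebra ℤ G where
  toFun e := tot e.snd
  map_zero' := by simp
  map_add' a b := by simp

theorem fa_apply (e : TE G P) : fa e = e.fst := rfl

theorem ta_apply (e : TE G P) : ta e = tot e.snd := rfl

theorem ta_mul (a b : TE G P) : ta (a * b) = fa a * ta b + ta a * fa b := by
  simp only [ta_apply, fa_apply, snd_mul, map_add, map_smul, smul_eq_mul, tot_op]

/-- the matrix of an element -/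
def ent : Bool → Bool → TE G P →+ MonoidAlgebra ℤ G
  | true, true => fa
  | true, false => ta
  | false, true => 0
  | false, false => fa

/-- the section of `ta` attached to a letter map -/
def sec (l : G → P) : MonoidAlgebra ℤ G →+ TE G P where
  toFun r := inr (linearCombination ℤ (fun g => sg (l g) (MonoidAlgebra.single g 1)) r.coeff)
  map_zero' := by simp
  map_add' a b := by simp

theorem sec_single (l : G → P) (g : G) (n : ℤ) :
    sec l (MonoidAlgebra.single g n) = inr (sg (l g) (MonoidAlgebra.single g n)) := by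
  change inr (linearCombination ℤ _ (single g n)) = _
  rw [linearCombination_single, sg, ← map_zsmul, smul_single, MonoidAlgebra.smul_single,
    smul_eq_mul, mul_one, sg]

theorem sg_add (l : P) (a b : MonoidAlgebra ℤ G) : sg l (a + b) = sg l a + sg l b := by
  rw [sg, single_add, map_add, sg, sg]

variable {X : Type} [MulAction G X] (F : Forest G Unit X)

theorem far_smul (g : G) (f : F.Fl) : F.far (g • f) = g • F.far f := by
  obtain ⟨e, _ | _⟩ := f
  exacts [F.d0_smul g _, F.d1_smul g _]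

theorem near_smul (g : G) (f : F.Fl) : F.near (g • f) = g • F.near f := by
  obtain ⟨e, _ | _⟩ := f
  exacts [F.d1_smul g _, F.d0_smul g _]

theorem far_le (f : F.Fl) : F.gpos.le (F.far f) f.1.1 := by
  obtain ⟨e, _ | _⟩ := f
  exacts [.inr (.inl rfl), .inr (.inr rfl)]

theorem near_le (f : F.Fl) : F.gpos.le (F.near f) f.1.1 := by
  obtain ⟨e, _ | _⟩ := f
  exacts [.inr (.inr rfl), .inr (.inl rfl)]

/-- the system of letters -/
def sys (f₀ : F.Fl) : Sys (MonoidAlgebra ℤ G) (TE G (F.Fl × F.Fl)) (Option (F.Fl × F.Fl)) F.Fl where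
  σ := sgn
  d := 0
  i := inlHom _ _
  c := cc
  u := none
  ok l := ∃ p, l = some p ∧ F.near p.1 = F.far p.2 ∧ p.1.1 ≠ p.2.1
  s l := l.elim f₀ Prod.fst
  t l := l.elim f₀ Prod.snd
  deg l := l.elim 0 fun _ => 1
  ρ l := l.elim 0 fun _ => 1

variable {F} (f₀ : F.Fl)

theorem eps_some (p : F.Fl × F.Fl) : (sys F f₀).ε (some p) = inr (sg p 1) :=
  (AddEquiv.symm_apply_eq _).2 (cc_inr p 1).symm

theorem src_some (p : F.Fl × F.Fl) (o : F.Fl) : (sys F f₀).src (some p) o = p.1 :=
  Sys.src_of_ne (Option.some_ne_none p)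

theorem val_some {p : F.Fl × F.Fl} {o : F.Fl} : (sys F f₀).val (some p) o ↔
    (F.near p.1 = F.far p.2 ∧ p.1.1 ≠ p.2.1) ∧ p.2 = o := by
  constructor
  · rintro (h | ⟨⟨q, h, h1⟩, h2⟩)
    · exact absurd h (Option.some_ne_none p)
    · obtain rfl := Option.some.inj h
      exact ⟨h1, h2⟩
  · exact fun h => .inr ⟨⟨p, rfl, h.1⟩, h.2⟩

theorem sg_mem {T : Option (F.Fl × F.Fl) → Prop} {p : F.Fl × F.Fl} {o : F.Fl}
    {r : MonoidAlgebra ℤ G} (h1 : F.near p.1 = F.far p.2) (h2 : p.1.1 ≠ p.2.1) (hT : T (some p))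
    (hr : r ∈ gfam G F.Fl o p.1) :
    (inr (sg p r) : TE G _) ∈ (sys F f₀).Sp (gfam G F.Fl) T o p.2 := fun l => by
  change cc (inr (sg p r)) l ∈ _ ∧ (cc (inr (sg p r)) l ≠ 0 → _)
  rw [cc_inr]
  by_cases h : l = some p
  · subst h
    rw [single_eq_same, src_some]
    exact ⟨hr, fun _ => ⟨(val_some f₀).2 ⟨⟨h1, h2⟩, rfl⟩, hT⟩⟩
  · rw [single_eq_of_ne h]
    exact ⟨zero_mem _, fun h => absurd rfl h⟩

theorem isSys : (sys F f₀).IsSys (gfam G F.Fl) 1 where
  bas := gfam_bas G _
  dg := ⟨TrivSqZeroExt.ext (fst_sgn 1) (by simp [sys, snd_sgn]), fun a b => TrivSqZeroExt.ext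
      (by simp [sys, fst_sgn]) (by simp [sys, fst_sgn, snd_sgn, add_comm]),
    fun a => TrivSqZeroExt.ext (by simp [sys, fst_sgn]) (by simp [sys, snd_sgn]),
    by simp [sys], by simp [sys], by simp [sys]⟩
  σ_i r := TrivSqZeroExt.ext (fst_sgn _) (by simp [sys, snd_sgn])
  d_i _ := rfl
  c_mul r e := by
    ext1 l
    cases l <;> simp [sys, cc_none, cc_some]
  c_one := by
    ext1 l
    cases l <;> simp [sys, cc_none, cc_some]
  deg_u := rfl
  ρ_u := rfl
  ne_u := by rintro _ ⟨p, rfl, -⟩; exact Option.some_ne_none p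
  deg_ge := by rintro _ ⟨p, rfl, -⟩; exact le_rfl
  ρ_pos := by rintro _ ⟨p, rfl, -⟩; exact le_rfl
  σ_ε := by
    rintro _ ⟨p, rfl, -⟩
    rw [eps_some]
    exact TrivSqZeroExt.ext (by simp [sys, fst_sgn]) (by simp [sys, snd_sgn])
  mulR := by
    rintro _ o r ⟨p, rfl, h1, h2⟩ hr
    rw [eps_some]
    refine sfam_induction (P := fun r => (inr (sg p 1) : TE G _) * (sys F f₀).i r ∈ _) hr
      (fun g n (hg : g • o = p.2) => ?_) (by rw [map_zero, mul_zero]; exact zero_mem _)
      fun x y _ _ hx hy => by rw [map_add, mul_add]; exact add_mem hx hy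
    obtain rfl : o = (g⁻¹ • p).2 := by rw [Prod.smul_snd, ← hg, inv_smul_smul]
    change (inr (sg p 1) : TE G _) * inl _ ∈ _
    rw [inr_mul_inl, op_single_smul, one_mul]
    refine sg_mem f₀ ?_ (fun h => h2 (Subtype.ext ?_)) ⟨Option.some_ne_none _, rfl, le_rfl⟩
      (single_mem_sfam (p := fun g' => g' • (g⁻¹ • p).1 = p.1) (smul_inv_smul g p.1) n)
    · rw [Prod.smul_fst, Prod.smul_snd, near_smul, far_smul, h1]
    · exact smul_left_cancel g⁻¹ (congrArg Subtype.val h)
  mul := by
    rintro _ _ ⟨p, rfl, -⟩ ⟨q, rfl, -⟩ -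
    rw [eps_some, eps_some, inr_mul_inr]
    exact zero_mem _
  d_ε _ _ := zero_mem _

variable {f₀}

theorem fa_mem {n : ℤ} {o o' : F.Fl} {a : TE G (F.Fl × F.Fl)}
    (ha : a ∈ ((sys F f₀).cat (gfam G F.Fl)).H n o o') :
    fa a ∈ gfam G F.Fl o o' ∧ (fa a ≠ 0 → n = 0) := by
  have := ha none
  change cc a none ∈ gfam G F.Fl o ((sys F f₀).src (sys F f₀).u o') ∧ (cc a none ≠ 0 → _) at this
  rw [cc_none, Sys.src_u] at this
  exact ⟨this.1, fun h => (this.2 h).2.symm⟩

theorem co_mem {n : ℤ} {o o' : F.Fl} {a : TE G (F.Fl × F.Fl)}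
    (ha : a ∈ ((sys F f₀).cat (gfam G F.Fl)).H n o o') {p : F.Fl × F.Fl}
    (h : co G _ a.snd p ≠ 0) : co G _ a.snd p ∈ gfam G F.Fl o p.1 ∧ F.near p.1 = F.far p.2 ∧
      p.2 = o' ∧ n = 1 := by
  have := ha (some p)
  change cc a (some p) ∈ _ ∧ (cc a (some p) ≠ 0 → _) at this
  rw [cc_some, src_some, val_some] at this
  exact ⟨this.1, (this.2 h).1.1.1, (this.2 h).1.2, (this.2 h).2.symm⟩

theorem mem_bcat {R O : Type} [Ring R] {Rf : O → O → AddSubgroup R} {k : ℤ} {o o' : O} {r : R}
    (h1 : r ∈ Rf o o') (h2 : r ≠ 0 → k = 0) : r ∈ (bcat Rf).H k o o' := by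
  by_cases h : r = 0
  · rw [h]; exact zero_mem _
  · simpa only [bcat, h2 h, if_true] using h1

variable (F) in
/-- the two-term objects -/
def bm : BM (TE G (F.Fl × F.Fl)) F.Fl (MonoidAlgebra ℤ G) X Bool where
  act a k := equivFunOnFinite.symm fun k' => ent k k' a
  dg k := bif k then -1 else 0
  lb f k := bif k then f.1.1 else F.far f
  Δ k := bif k then single false 1 else 0

theorem act_apply (a : TE G (F.Fl × F.Fl)) (k k' : Bool) : (bm F).act a k k' = ent k k' a := rfl

theorem lc_bool {R : Type} [Ring R] (f : Bool → Bool →₀ R) (v : Bool →₀ R) (k : Bool) :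
    lc f v k = v true * f true k + v false * f false k := by
  rw [linearCombination_apply, sum_fintype v (fun i a => a • f i) fun _ => zero_smul _ _,
    Fintype.sum_bool]
  rfl

theorem isBM : IsBM ((sys F f₀).cat (gfam G F.Fl)) (bcat F.gpos.T) (bm F) where
  add a b k := by ext1 k'; simp only [act_apply, map_add, Finsupp.add_apply]
  one k := by ext1 k'; cases k <;> cases k' <;> simp [act_apply, ent, fa_apply, ta_apply]
  mul _ _ k := by
    ext1 k'
    rw [lc_bool]
    cases k <;> cases k' <;> simp [act_apply, ent, ta_mul, fa_apply]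
  mem {n o o' a} ha k k' := by
    obtain ⟨h1, h2⟩ := fa_mem ha
    cases k <;> cases k'
    · exact mem_bcat (sfam_mono (fun g (h : g • o' = o) => .inl (by
        change g • F.far o' = F.far o
        rw [← far_smul, h])) h1) fun h => by simp [bm, h2 h]
    · exact zero_mem _
    · refine tm_ind (p := fun m => tot m ∈ (bcat F.gpos.T).H _ o.1.1 (F.far o')) a.snd
        (by rw [map_zero]; exact zero_mem _) (fun p hp => ?_)
        fun a b ha hb => by rw [map_add]; exact add_mem ha hb
      obtain ⟨h3, h4, rfl, rfl⟩ := co_mem ha hp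
      rw [tot_sg]
      refine mem_bcat (sfam_mono (fun g (h : g • p.1 = o) => ?_) h3) fun _ => rfl
      rw [← h4, ← near_smul, h]
      exact near_le F o
    · exact mem_bcat (sfam_mono (fun g (h : g • o' = o) => .inl
        (congrArg (fun f : F.Fl => f.1.1) h)) h1) fun h => by simp [bm, h2 h]
  pt o := by
    refine ⟨bcat_hom.2 fun k k' => ?_, fun v => ?_⟩
    · change lc (bm F).Δ (single k 1) k' ∈ _ ∧ (lc (bm F).Δ (single k 1) k' ≠ 0 → _)
      rw [lc_single]
      cases k <;> cases k'
      · exact ⟨zero_mem _, fun h => absurd rfl h⟩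
      · exact ⟨zero_mem _, fun h => absurd rfl h⟩
      · refine ⟨?_, fun _ => rfl⟩
        change single false (1 : MonoidAlgebra ℤ G) false ∈ F.gpos.T o.1.1 (F.far o)
        rw [single_eq_same]
        exact single_mem_sfam (p := fun g => F.gpos.le (g • F.far o) o.1.1) (g := 1)
          (by rw [one_smul]; exact far_le F o) 1
      · simp [bm]
    · rw [bcat_D, bcat_D]
      ext1 k
      change lc (bm F).Δ (lc (bm F).Δ v) k = 0
      simp [lc_bool, bm]
  d {n o o' a} ha k := by
    rw [bcat_D]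
    ext1 k'
    change lc (bm F).Δ ((bm F).act a k) k' =
      ent k k' 0 + n.negOnePow • lc ((bm F).act a) ((bm F).Δ k) k'
    rw [lc_bool, lc_bool, map_zero, zero_add]
    by_cases h : fa a = 0
    · cases k <;> cases k' <;> simp [act_apply, ent, h, show (bm F).Δ true = single false 1 from rfl,
        show (bm F).Δ false = 0 from rfl]
    · obtain rfl := (fa_mem ha).2 h
      cases k <;> cases k' <;> simp [act_apply, ent, show (bm F).Δ true = single false 1 from rfl,
        show (bm F).Δ false = 0 from rfl]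

theorem sec_ta {n : ℤ} {o o' : F.Fl} {a : TE G (F.Fl × F.Fl)}
    (ha : a ∈ ((sys F f₀).cat (gfam G F.Fl)).H n o o') :
    sec (fun g => (g⁻¹ • o, o')) (ta a) = inr a.snd := by
  refine tm_ind (p := fun m => sec (fun g : G => (g⁻¹ • o, o')) (tot m) = inr m) a.snd (by simp)
    (fun p hp => ?_) fun a b ha hb => by rw [map_add, map_add, ha, hb, inr_add]
  obtain ⟨h3, -, rfl, -⟩ := co_mem ha hp
  rw [tot_sg]
  refine sfam_induction (P := fun r => sec (fun g : G => (g⁻¹ • o, p.2)) r = inr (sg p r)) h3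
    (fun g n (hg : g • p.1 = o) => ?_) (by simp [sg])
    fun x y _ _ hx hy => by rw [map_add, hx, hy, sg_add, inr_add]
  rw [sec_single, ← hg, inv_smul_smul]

end TS

open TS in
theorem st_ts : St_TS := by
  rintro G X _ _ F ⟨f₀⟩
  refine ⟨_, _, inferInstance, sys F f₀, bm F, ent, isSys f₀, ⟨tcat_good _ _, F.gpos.T_bas.good,
    rfl, fun k m m' => ?_, (isSys f₀).aug' le_rfl, isBM, act_apply, rfl, rfl, rfl, rfl,
    fun _ => rfl, fun k o o' => ?_⟩, fun _ => rfl, fun _ => rfl, fun r b b' => ?_,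
    fun a => (cc_none a).symm, fun f f' h1 h2 => ⟨inr (sg (f, f') 1), ?_, fun b b' => ?_⟩⟩
  · simp only [tcat, bcat]
    split_ifs
    exacts [le_top, le_rfl]
  · refine ⟨fun b b' => bif b then bif b' then (inlHom _ _).toAddMonoidHom
      else sec fun g => (g⁻¹ • o, o') else 0, fun a ha => ?_⟩
    simp only [Fintype.sum_bool, cond_true, cond_false, ent, sec_ta ha, AddMonoidHom.zero_apply,
      add_zero]
    exact (inl_fst_add_inr_snd_eq a).symm
  · cases b <;> cases b' <;> simp [sys, ent, fa_apply, ta_apply]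
  · exact sg_mem f₀ (p := (f, f')) h1 h2 rfl ((gfam_bas G _).one_mem f)
  · cases b <;> cases b' <;> simp [ent, fa_apply, ta_apply, tot_sg]

end Pool.Agent.Lib.NIL
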