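import Pool.Agent.Lib.NIL.GlDimK

/-! Cohomological dimension does not increase when passing to subgroups. -/

namespace Pool.Agent.Lib.NIL

open CategoryTheory Abelian

theorem res_projective {B : Type} [CommRing B] {G H : Type} [Group G] [Group H] (f : H →* G)
    (hf : Function.Injective f) (P : Rep.{0} B G) (hP : Projective P) :
    Projective ((Rep.resFunctor f).obj P) := by
  have h1 : Projective ((Rep.resFunctor.{0} (k := B) f.range.subtype).obj P) :=
    Functor.projective_obj_of_projective _ hP
  let e : H ≃* f.range := MonoidHom.ofInjective hf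
  let E : Rep.{0} B f.range ≌ Rep.{0} B H := CategoryTheory.Equivalence.mk
    (Rep.resFunctor e.toMonoidHom) (Rep.resFunctor e.symm.toMonoidHom)
    (NatIso.ofComponents (fun X => Rep.mkIso (Representation.Equiv.mk (LinearEquiv.refl B X)
      (fun g => by ext x; simp))) (fun _ => rfl))
    (NatIso.ofComponents (fun X => Rep.mkIso (Representation.Equiv.mk (LinearEquiv.refl B X)
      (fun g => by ext x; simp))) (fun _ => rfl))
  exact (E.map_projective_iff _).2 h1

theorem pd_res {B : Type} [CommRing B] {G H : Type} [Group G] [Group H] (f : H →* G)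
    (hf : Function.Injective f) (n : ℕ) (X : Rep.{0} B G) (h : HasProjectiveDimensionLE X n) :
    HasProjectiveDimensionLE ((Rep.resFunctor f).obj X) n := by
  induction n generalizing X with
  | zero =>
    rw [← projective_iff_hasProjectiveDimensionLE_zero] at h ⊢
    exact res_projective f hf X h
  | succ n ih =>
    obtain ⟨p⟩ := EnoughProjectives.presentation X
    have hS : (ShortComplex.mk _ _ (Limits.kernel.condition p.f)).ShortExact :=
      { exact := ShortComplex.exact_kernel p.f }
    have h1 := (hS.hasProjectiveDimensionLT_X₃_iff n p.projective).1 h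
    exact (((Rep.shortExact_res f).2 hS).hasProjectiveDimensionLT_X₃_iff n
      (res_projective f hf _ p.projective)).2 (ih _ h1)

theorem CdLEk.of_injective {B : Type} [CommRing B] {G H : Type} [Group G] [Group H] {n : ℕ}
    (h : CdLEk B G n) (f : H →* G) (hf : Function.Injective f) : CdLEk B H n :=
  pd_res f hf n _ h

theorem CdLE.of_injective {G H : Type} [Group G] [Group H] {n : ℕ} (h : CdLE G n) (f : H →* G)
    (hf : Function.Injective f) : CdLE H n :=
  pd_res f hf n _ h

theorem CdLE.subgroup {G : Type} [Group G] {n : ℕ} (h : CdLE G n) (S : Subgroup G) : CdLE S n :=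
  h.of_injective S.subtype S.subtype_injective

theorem CdLE.of_mulEquiv {G H : Type} [Group G] [Group H] {n : ℕ} (h : CdLE G n) (e : G ≃* H) :
    CdLE H n :=
  h.of_injective e.symm.toMonoidHom e.symm.injective

theorem CdLEk.mono {B : Type} [CommRing B] {G : Type} [Group G] {n m : ℕ} (h : CdLEk B G n)
    (hnm : n ≤ m) : CdLEk B G m := by
  have : HasProjectiveDimensionLT (Rep.trivial B G B) (n + 1) := h
  exact hasProjectiveDimensionLT_of_ge _ (n + 1) (m + 1) (by omega)

theorem CdLE.mono {G : Type} [Group G] {n m : ℕ} (h : CdLE G n) (hnm : n ≤ m) : CdLE G m :=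
  CdLEk.mono (B := ℤ) h hnm

theorem cdLEk_of_subsingleton (B : Type) [CommRing B] (G : Type) [Group G] [Subsingleton G] :
    CdLEk B G 0 :=
  (projective_iff_hasProjectiveDimensionLE_zero _).1 inferInstance

theorem cdLE_of_subsingleton (G : Type) [Group G] [Subsingleton G] : CdLE G 0 :=
  cdLEk_of_subsingleton ℤ G

end Pool.Agent.Lib.NIL
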