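import Pool.Agent.Lib.NIL.Blue
import Pool.Agent.Lib.NIL.CdSub

/-! The class `NilCl` is closed under subgroups and under products with free abelian groups. -/

namespace Pool.Agent.Lib.NIL

open MulAction SimpleGraph

/-- the stabiliser of a point for an action by permutations and translations -/
def affStab {G ι : Type} [Group G] [MulAction G ι] {a : G → ι → ℤ}
    (h : ∀ g h i, a (g * h) i = a g i + a h (g⁻¹ • i)) (d : ι → ℤ) : Subgroup G where
  carrier := {g | ∀ i, d (g⁻¹ • i) + a g i = d i}
  mul_mem' {g g'} k k' i := by
    have := k i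
    have := k' (g⁻¹ • i)
    rw [h, mul_inv_rev, mul_smul]
    omega
  one_mem' i := by
    have := h 1 1 i
    rw [one_mul, inv_one, one_smul] at this
    rw [inv_one, one_smul]
    omega
  inv_mem' {g} k i := by
    have h1 := h 1 1 i
    have h2 := h g⁻¹ g i
    have h3 := k (g • i)
    rw [one_mul, inv_one, one_smul] at h1
    rw [inv_mul_cancel, inv_inv] at h2
    rw [inv_smul_smul] at h3
    rw [inv_inv]
    omega

theorem NilCl.of_injective {G : Type} [Group G] (h : NilCl G) :
    ∀ (H : Type) [Group H] (f : H →* G), Function.Injective f → NilCl H := by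
  induction h with
  | fin G n h => exact fun H _ f hf => .fin H n (h.of_injective f hf)
  | union G K h1 _ ih =>
    classical
    exact fun H _ f hf => .union H (fun s => (K (s.image f)).comap f)
      (fun s g hg => h1 _ _ (Finset.mem_image_of_mem f hg)) fun s =>
        ih (s.image f) _ (f.subgroupComap _) fun a b e => Subtype.ext (hf (congrArg Subtype.val e))
  | tree G V T h1 h2 h3 _ ih =>
    intro H _ f hf
    let _ := MulAction.compHom V f
    exact .tree H V T h1 (fun g => h2 (f g)) (fun g => h3 (f g)) fun v =>
      ih v _ ((f.comp (stabilizer H v).subtype).codRestrict (stabilizer G v) fun g => g.2)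
        fun a b e => Subtype.ext (hf (congrArg Subtype.val e))
  | act G ι a h1 _ ih =>
    intro H _ f hf
    let _ := MulAction.compHom ι f
    have e : ∀ (g : H) (i : ι), g⁻¹ • i = (f g)⁻¹ • i := fun g i => by rw [← map_inv]; rfl
    exact .act H ι (fun g => a (f g)) (fun g h i => by rw [map_mul, h1, e]) fun d K hK =>
      ih d (affStab h1 d) (fun _ => Iff.rfl) _
        ((f.comp K.subtype).codRestrict (affStab h1 d) fun g i => e g i ▸ (hK g).1 g.2 i)
        fun a b e => Subtype.ext (hf (congrArg Subtype.val e))

theorem NilCl.subgroup {G : Type} [Group G] (h : NilCl G) (K : Subgroup G) : NilCl K :=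
  h.of_injective K K.subtype K.subtype_injective

theorem NilCl.of_mulEquiv {G H : Type} [Group G] [Group H] (h : NilCl G) (e : G ≃* H) : NilCl H :=
  h.of_injective H e.symm.toMonoidHom e.symm.injective

theorem line_adj {u v : ℤ} : (hasse ℤ).Adj u v ↔ u + 1 = v ∨ v + 1 = u := by
  rw [hasse_adj, Order.covBy_iff_add_one_eq, Order.covBy_iff_add_one_eq]

theorem line_isTree : (hasse ℤ).IsTree := by
  have key : ∀ u : ℤ, (hasse ℤ).IsBridge s(u, u + 1) := fun u h => by
    have : ∀ v, Relation.ReflTransGen ((hasse ℤ).deleteEdges {s(u, u + 1)}).Adj u v → v ≤ u := by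
      intro v hv
      induction hv with
      | refl => exact le_rfl
      | @tail a b _ k ih =>
        rw [deleteEdges_adj, line_adj, Set.mem_singleton_iff, Sym2.eq_iff] at k
        omega
    have := this _ ((reachable_iff_reflTransGen _ _).1 h)
    omega
  refine ⟨⟨hasse_preconnected_of_succ ℤ⟩, isAcyclic_iff_forall_adj_isBridge.2 fun u v h => ?_⟩
  rcases line_adj.1 h with rfl | rfl
  · exact key u
  · exact Sym2.eq_swap ▸ key v

/-- a group mapping to the integers with good kernel is good -/
theorem NilCl.of_ker {G : Type} [Group G] (φ : G →* Multiplicative ℤ) (h : NilCl φ.ker) :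
    NilCl G := by
  let _ : MulAction G ℤ :=
    { smul := fun g z => (φ g).toAdd + z
      one_smul := fun z => show (φ 1).toAdd + z = z by simp
      mul_smul := fun g g' z =>
        show (φ (g * g')).toAdd + z = (φ g).toAdd + ((φ g').toAdd + z) by simp [add_assoc] }
  have e : ∀ (g : G) (z : ℤ), g • z = (φ g).toAdd + z := fun _ _ => rfl
  refine .tree G ℤ (hasse ℤ) line_isTree (fun g u v k => ?_) (fun g u v k k1 k2 => ?_) fun v => ?_
  · rw [line_adj] at k ⊢
    rw [e, e]
    omega
  · rw [line_adj] at k
    rw [e] at k1 k2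
    omega
  · refine h.of_injective _ (Subgroup.inclusion fun g k => ?_) (Subgroup.inclusion_injective _)
    exact Multiplicative.toAdd.injective (add_eq_right.1 (k : (φ g).toAdd + v = v))

theorem NilCl.prod_pi {G : Type} [Group G] (h : NilCl G) (n : ℕ) :
    NilCl (G × Multiplicative (Fin n → ℤ)) := by
  induction n with
  | zero =>
    exact h.of_injective _ (MonoidHom.fst _ _) fun a b e => Prod.ext e (Subsingleton.elim _ _)
  | succ n ih =>
    let t : Multiplicative (Fin (n + 1) → ℤ) →* Multiplicative (Fin n → ℤ) :=
      AddMonoidHom.toMultiplicative (AddMonoidHom.pi fun i => Pi.evalAddMonoidHom _ i.succ)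
    refine NilCl.of_ker ((AddMonoidHom.toMultiplicative (Pi.evalAddMonoidHom _ 0)).comp
      (MonoidHom.snd _ _)) (ih.of_injective _ (((MonoidHom.id G).prodMap t).comp
        (Subgroup.subtype _)) fun a b e => Subtype.ext (Prod.ext (congrArg Prod.fst e :) ?_))
    refine Multiplicative.toAdd.injective (funext fun i => Fin.cases ?_ (fun j => ?_) i)
    · exact (congrArg Multiplicative.toAdd a.2).trans (congrArg Multiplicative.toAdd b.2).symm
    · exact congrFun (congrArg (fun x => x.2.toAdd) e) j

theorem st_ncl : St_NCL :=
  ⟨fun _ H _ _ f hf h => h.of_injective H f hf, fun _ _ n h => h.prod_pi n⟩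

end Pool.Agent.Lib.NIL
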