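import Pool.Agent.Lib.NIL.Blue2
import Pool.Agent.Lib.NIL.B_NCL

/-! The trivial group is `K`-flat. -/

namespace Pool.Agent.Lib.NIL

open MulAction SimpleGraph

namespace W1

/-- the induction hypothesis -/
def Ok (K : Type) [Group K] : Prop :=
  (∀ (A : Type) [CommRing A] [IsDomain A] [IsPrincipalIdealRing A], QG K A) ∧
    Subsingleton (WhDet.Wh K)

theorem Ok.of_eq {K : Type} [Group K] {S T : Subgroup K} (e : S = T) (h : Ok S) :
    Ok T := e ▸ h

theorem step (h0 : St_TK0) (h1 : St_TK1) (hO : St_ORBQ)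
    {N : ∀ (G : Type) [Group G], Prop} (hN : NilLike N) {K : Type} [Group K] (hK : N K)
    (φ : K →* Multiplicative ℤ) (h : Ok φ.ker) : Ok K := by
  let _ : MulAction K ℤ :=
    { smul := fun g z => (φ g).toAdd + z
      one_smul := fun z => show (φ 1).toAdd + z = z by simp
      mul_smul := fun g g' z =>
        show (φ (g * g')).toAdd + z = (φ g).toAdd + ((φ g').toAdd + z) by simp [add_assoc] }
  have e : ∀ (g : K) (z : ℤ), g • z = (φ g).toAdd + z := fun _ _ => rfl
  have hs : ∀ v : ℤ, stabilizer K v = φ.ker := fun v => by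
    ext g
    rw [mem_stabilizer_iff, e, MonoidHom.mem_ker, add_eq_right]
    exact ⟨fun k => Multiplicative.toAdd.injective k, fun k => by rw [k]; rfl⟩
  obtain ⟨X, _, F, hF⟩ := exists_forest_of_tree (H := K) (hasse ℤ) line_isTree
    (fun g u v k => by
      rw [line_adj] at k ⊢
      rw [e, e]
      omega)
    (fun g u v k k1 k2 => by
      rw [line_adj] at k
      rw [e] at k1 k2
      omega)
  have hX : ∀ x : X, stabilizer K x = φ.ker := fun x => by
    rcases hF x with ⟨_, v, hv⟩ | ⟨_, u, v, _, hv⟩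
    · rw [hv, hs]
    · rw [hv, hs, hs, inf_idem]
  have hFl : ∀ f : F.Fl, stabilizer K f = φ.ker := fun f => by
    rw [← hX f.1.1]
    ext g
    rw [mem_stabilizer_iff, mem_stabilizer_iff]
    exact ⟨fun k => congrArg (fun x : F.Fl => x.1.1) k,
      fun k => Prod.ext (Subtype.ext k) rfl⟩
  have okX : ∀ x : X, Ok (stabilizer K x) := fun x => h.of_eq (hX x).symm
  have okF : ∀ f : F.Fl, Ok (stabilizer K f) := fun f => h.of_eq (hFl f).symm
  have good : GoodO K F.Fl :=
    hN.good K F.Fl fun f => hN.inj K _ (Subgroup.subtype _) (Subgroup.subtype_injective _) hK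
  exact ⟨fun A _ _ _ => h0 K X F A (hO K X A fun x => (okX x).1 A)
      (hO K F.Fl (Ax A) fun f => (okF f).1 (Ax A)) (good (Ax A)),
    h1 K X F (fun x => (okX x).2) (hO K F.Fl ℤ fun f => (okF f).1 ℤ) (good ℤ)⟩

theorem main (h0 : St_TK0) (h1 : St_TK1) (hO : St_ORBQ) (hQB : St_QB)
    {N : ∀ (G : Type) [Group G], Prop} (hN : NilLike N) (hP : N PUnit) (n : ℕ) :
    ∀ (K : Type) [Group K] (f : K →* Multiplicative (Fin n → ℤ)), Function.Injective f →
      Ok K := by
  induction n with
  | zero =>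
    intro K _ f hf
    have : Subsingleton K := ⟨fun a b => hf (Subsingleton.elim _ _)⟩
    exact ⟨fun A _ _ _ => hQB.1 K A, wh_trivial⟩
  | succ n ih =>
    intro K _ f hf
    let t : Multiplicative (Fin (n + 1) → ℤ) →* Multiplicative (Fin n → ℤ) :=
      AddMonoidHom.toMultiplicative (AddMonoidHom.pi fun i => Pi.evalAddMonoidHom _ i.succ)
    have hK : N K := hN.inj _ K ((MonoidHom.inr PUnit _).comp f)
      (fun a b k => hf (congrArg Prod.snd k)) (hN.prod PUnit (n + 1) hP)
    refine step h0 h1 hO hN hK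
      ((AddMonoidHom.toMultiplicative (Pi.evalAddMonoidHom _ 0)).comp f)
      (ih _ ((t.comp f).comp (Subgroup.subtype _)) fun a b k => Subtype.ext (hf ?_))
    refine Multiplicative.toAdd.injective (funext fun i => Fin.cases ?_ (fun j => ?_) i)
    · exact (congrArg Multiplicative.toAdd a.2).trans (congrArg Multiplicative.toAdd b.2).symm
    · exact congrFun (congrArg (fun x => x.toAdd) k) j

end W1

theorem st_w1 (h0 : St_TK0) (h1 : St_TK1) (hO : St_ORBQ) (hQB : St_QB) : St_W1 := by
  intro N hN hP G _ _ H _ f hf n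
  have : Subsingleton H := ⟨fun a b => hf (Subsingleton.elim _ _)⟩
  exact (W1.main h0 h1 hO hQB hN hP n _ (MonoidHom.snd H _)
    fun a b k => Prod.ext (Subsingleton.elim _ _) k).2

end Pool.Agent.Lib.NIL
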