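import Pool.Agent.Lib.NIL.Blue2

/-! Blocks WT and WU: `K`-flatness under actions on trees and under unions. -/

namespace Pool.Agent.Lib.NIL

namespace WT

theorem exists_equiv {H A : Type} [Group H] [Group A] (K : Subgroup H) (S : Subgroup (H × A))
    (h : ∀ g, g ∈ S ↔ g.1 ∈ K) : Nonempty (K × A ≃* S) := by
  have e : S = K.prod ⊤ := by
    ext g
    rw [h, Subgroup.mem_prod]
    exact ⟨fun a => ⟨a, trivial⟩, fun a => a.1⟩
  subst e
  exact ⟨((Subgroup.prodEquiv K ⊤).trans ((MulEquiv.refl K).prodCongr Subgroup.topEquiv)).symm⟩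

theorem exists_inj {H G : Type} [Group H] [Group G] {f : H →* G} (hf : Function.Injective f)
    (K : Subgroup H) (L : Subgroup G) (h : ∀ k ∈ K, f k ∈ L) :
    ∃ ι : K →* L, Function.Injective ι :=
  ⟨(f.comp K.subtype).codRestrict L fun k => h k.1 k.2, fun _ _ e =>
    Subtype.ext (hf (congrArg Subtype.val e))⟩

end WT

open WT in
theorem st_wt (hT1 : St_TK1) (hO : St_ORBQ) (hQ : St_QB) : St_WT := by
  intro N hN G V _ _ T hT hadj hinv h1 h2 H _ f hf n
  let A := Multiplicative (Fin n → ℤ)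
  let _ : MulAction (H × A) V := MulAction.compHom V (f.comp (MonoidHom.fst H A))
  have sm : ∀ (g : H × A) (v : V), g • v = f g.1 • v := fun _ _ => rfl
  obtain ⟨X, _, F, hF⟩ := exists_forest_of_tree (H := H × A) T hT (fun g => hadj (f g.1))
    fun g => hinv (f g.1)
  have key : ∀ (x : X) (S : Subgroup (H × A)), S = MulAction.stabilizer (H × A) x →
      Subsingleton (WhDet.Wh S) ∧ QG S ℤ ∧ N S := by
    intro x S hS
    obtain ⟨K, v, hK, hv⟩ : ∃ (K : Subgroup H) (v : V), (∀ g, g ∈ S ↔ g.1 ∈ K) ∧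
        ∀ k ∈ K, f k ∈ MulAction.stabilizer G v := by
      rcases hF x with ⟨-, v, e⟩ | ⟨-, u, v, -, e⟩
      · exact ⟨(MulAction.stabilizer G v).comap f, v, fun g => by rw [hS, e]; rfl, fun _ a => a⟩
      · exact ⟨(MulAction.stabilizer G u ⊓ MulAction.stabilizer G v).comap f, v,
          fun g => by rw [hS, e]; rfl, fun _ a => a.2⟩
    obtain ⟨e⟩ := exists_equiv K S hK
    obtain ⟨ι, hι⟩ := exists_inj hf K _ hv
    have hk : KFlat K := h2 v K ι hι
    have := hk n
    exact ⟨wh_of_equiv e, hQ.2.1 _ _ e ℤ (hQ.2.2.1 K n hk).2,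
      hN.inj _ _ e.symm.toMonoidHom e.symm.injective (hN.prod K n (hN.inj _ _ ι hι (h1 v)))⟩
  have fl : ∀ o : F.Fl, MulAction.stabilizer (H × A) o = MulAction.stabilizer (H × A) o.1.1 := by
    intro o
    ext g
    exact ⟨fun a => congrArg (fun z : F.Fl => z.1.1) a, fun a => Prod.ext (Subtype.ext a) rfl⟩
  exact hT1 (H × A) X F (fun s => (key s _ rfl).1)
    (hO _ _ ℤ fun o => (key _ _ (fl o)).2.1) (hN.good _ _ (fun o => (key _ _ (fl o)).2.2) ℤ)

open WT in
theorem st_wu : St_WU := by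
  classical
  intro G _ h H _ f hf n
  refine wh_of_local fun s => ?_
  obtain ⟨K, h1, h2⟩ := h (s.image fun g => f g.1)
  refine ⟨(K.comap f).prod ⊤, fun g hg => ⟨h1 _ (Finset.mem_image_of_mem _ hg), trivial⟩, ?_⟩
  obtain ⟨e⟩ := exists_equiv (K.comap f) ((K.comap f).prod (⊤ : Subgroup (Multiplicative (Fin n → ℤ))))
    fun g => ⟨fun a => a.1, fun a => ⟨a, trivial⟩⟩
  obtain ⟨ι, hι⟩ := exists_inj hf (K.comap f) K fun _ a => a
  have := h2 _ ι hι n
  exact wh_of_equiv e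

end Pool.Agent.Lib.NIL
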