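import Pool.Agent.Lib.NIL.A6

/-! A7: systems of letters. -/

set_option linter.unusedSectionVars false
set_option linter.unusedVariables false

namespace Pool.Agent.Lib.NIL

open Finsupp TensorProduct

namespace Sys

variable {R E Λ O : Type} [Ring R] [Ring E] {S : Sys R E Λ O} {Rf : O → O → AddSubgroup R}
  {j : ℤ} {K : Cell Λ} {T T' T'' : Λ → Prop} {o o' o'' : O}

theorem mem_Sp {e : E} : e ∈ S.Sp Rf T o o' ↔
    ∀ l, S.c e l ∈ Rf o (S.src l o') ∧ (S.c e l ≠ 0 → S.val l o' ∧ T l) := Iff.rfl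

theorem Sp_mono (h : ∀ l, S.val l o' → T l → T' l) : S.Sp Rf T o o' ≤ S.Sp Rf T' o o' :=
  fun _ he l => ⟨(he l).1, fun h0 => ⟨((he l).2 h0).1, h l ((he l).2 h0).1 ((he l).2 h0).2⟩⟩

theorem mem_Sp_and {e : E} : e ∈ S.Sp Rf (fun l => T l ∧ T' l) o o' ↔
    e ∈ S.Sp Rf T o o' ∧ e ∈ S.Sp Rf T' o o' :=
  ⟨fun h => ⟨Sp_mono (fun _ _ h => h.1) h, Sp_mono (fun _ _ h => h.2) h⟩, fun h l =>
    ⟨(h.1 l).1, fun h0 => ⟨((h.1 l).2 h0).1, ((h.1 l).2 h0).2, ((h.2 l).2 h0).2⟩⟩⟩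

theorem Sp_sub : (S.sub T').Sp Rf T o o' = S.Sp Rf (fun l => T l ∧ (l = S.u ∨ T' l)) o o' := by
  ext e
  refine forall_congr' fun l => and_congr Iff.rfl (imp_congr Iff.rfl ?_)
  change (l = S.u ∨ (S.ok l ∧ T' l) ∧ S.t l = o') ∧ T l ↔
    (l = S.u ∨ S.ok l ∧ S.t l = o') ∧ T l ∧ (l = S.u ∨ T' l)
  tauto

theorem src_u : S.src S.u o = o := if_pos rfl

theorem src_of_ne {l : Λ} (h : l ≠ S.u) : S.src l o = S.s l := if_neg h

theorem val_u : S.val S.u o := Or.inl rfl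

theorem val.of_ne {l : Λ} (h : S.val l o) (hl : l ≠ S.u) : S.ok l ∧ S.t l = o :=
  h.resolve_left hl

theorem c_ε (l : Λ) : S.c (S.ε l) = single l 1 := S.c.apply_symm_apply _

theorem aug_apply (e : E) : S.aug e = S.c e S.u := rfl

theorem c_pr (e : E) (l : Λ) [Decidable (T l)] :
    S.c (S.pr T e) l = if T l then S.c e l else 0 := by
  have : S.c (S.pr T e) = @filter _ _ _ T (fun _ => Classical.propDecidable _) (S.c e) :=
    S.c.apply_symm_apply _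
  rw [this, @filter_apply _ _ _ T (fun _ => Classical.propDecidable _)]
  by_cases hl : T l <;> simp only [hl, if_true, if_false]

theorem pr_mem {e : E} (h : e ∈ S.Sp Rf T o o') :
    S.pr T' e ∈ S.Sp Rf (fun l => T l ∧ T' l) o o' := fun l => by
  classical
  rw [c_pr]
  split_ifs with hl
  · exact ⟨(h l).1, fun h0 => ⟨((h l).2 h0).1, ((h l).2 h0).2, hl⟩⟩
  · exact ⟨zero_mem _, fun h0 => (h0 rfl).elim⟩

theorem pr_add_pr_not (e : E) : S.pr T e + S.pr (fun l => ¬ T l) e = e := by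
  classical
  refine S.c.injective (Finsupp.ext fun l => ?_)
  rw [map_add, Finsupp.add_apply, c_pr, c_pr]
  by_cases hl : T l <;> simp [hl]

theorem pr_of_mem {e : E} (h : e ∈ S.Sp Rf T o o') : S.pr T e = e := by
  classical
  refine S.c.injective (Finsupp.ext fun l => ?_)
  rw [c_pr]
  split_ifs with hl
  · rfl
  · by_contra h0
    exact hl ((h l).2 (Ne.symm h0)).2

theorem pr_eq_zero {e : E} (h : e ∈ S.Sp Rf T o o') (h' : ∀ l, S.val l o' → T l → ¬ T' l) :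
    S.pr T' e = 0 := by
  classical
  refine S.c.injective (Finsupp.ext fun l => ?_)
  rw [c_pr, map_zero, Finsupp.zero_apply]
  split_ifs with hl
  · by_contra h0
    exact h' l ((h l).2 h0).1 ((h l).2 h0).2 hl
  · rfl

theorem aug_eq_zero {e : E} (h : e ∈ S.Sp Rf T o o') (h' : ¬ T S.u) : S.aug e = 0 := by
  by_contra h0
  exact h' ((h S.u).2 h0).2

theorem eq_zero_of_mem {e : E} (h : e ∈ S.Sp Rf T o o') (h' : ∀ l, S.val l o' → ¬ T l) :
    e = 0 := S.c.injective (Finsupp.ext fun l => by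
  rw [map_zero]
  exact by_contra fun n => h' l ((h l).2 n).1 ((h l).2 n).2)

theorem c_bc (B : Type) [CommRing B] (b : B) (e : E) (l : Λ) :
    (S.bc B).c (b ⊗ₜ e) l = b ⊗ₜ S.c e l := by
  classical
  simp [bc]

theorem i_bc (B : Type) [CommRing B] (b : B) (r : R) : (S.bc B).i (b ⊗ₜ r) = b ⊗ₜ S.i r := rfl

theorem hom_ext_bc {B M : Type} [CommRing B] [AddCommGroup M] {f g : B ⊗[ℤ] E →+ M}
    (h : ∀ b e, f (b ⊗ₜ e) = g (b ⊗ₜ e)) : f = g := AddMonoidHom.ext fun z => by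
  induction z with
  | zero => simp
  | tmul b e => exact h b e
  | add x y hx hy => rw [map_add, map_add, hx, hy]

theorem c_bc_symm (B : Type) [CommRing B] (b : B) (l : Λ) (r : R) :
    (S.bc B).c.symm (single l (b ⊗ₜ r)) = b ⊗ₜ S.c.symm (single l r) := by
  classical
  refine (S.bc B).c.symm_apply_eq.2 (Finsupp.ext fun m => ?_)
  rw [c_bc, AddEquiv.apply_symm_apply, single_apply, single_apply]
  split_ifs <;> simp

theorem lT_i (B : Type) [CommRing B] : (S.bc B).i.toAddMonoidHom = lT B S.i.toAddMonoidHom :=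
  hom_ext_bc fun _ _ => rfl

theorem ε_bc (B : Type) [CommRing B] (l : Λ) : (S.bc B).ε l = 1 ⊗ₜ S.ε l :=
  c_bc_symm B 1 l 1

theorem aug_bc (B : Type) [CommRing B] : (S.bc B).aug = lT B S.aug :=
  hom_ext_bc fun b e => c_bc B b e S.u

theorem pr_bc (B : Type) [CommRing B] : (S.bc B).pr T = lT B (S.pr T) :=
  hom_ext_bc fun b e => (S.bc B).c.injective (Finsupp.ext fun l => by
    classical
    rw [c_pr, lT_tmul, c_bc, c_bc, c_pr]
    split_ifs <;> simp)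

theorem att_bc (B : Type) [CommRing B] : (S.bc B).att K = lT B (S.att K) := by
  rw [att, att, pr_bc, lT_comp]
  rfl

theorem sub_bc (B : Type) [CommRing B] : (S.sub T).bc B = (S.bc B).sub T := rfl

namespace IsSys

variable (h : S.IsSys Rf j)
include h

theorem mono {j' : ℤ} (hj : j' ≤ j) : S.IsSys Rf j' :=
  {h with deg_ge := fun l hl => hj.trans (h.deg_ge l hl)}

theorem ε_u : S.ε S.u = 1 := S.c.symm_apply_eq.2 h.c_one.symm

theorem c_i_ε (r : R) (l : Λ) : S.c (S.i r * S.ε l) = single l r := by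
  rw [h.c_mul, c_ε, smul_single, smul_eq_mul, mul_one]

theorem c_i (r : R) : S.c (S.i r) = single S.u r := by
  rw [← h.c_i_ε, h.ε_u, mul_one]

theorem expand (e : E) : e = (S.c e).sum fun l r => S.i r * S.ε l := by
  refine S.c.injective ?_
  rw [Finsupp.sum, map_sum]
  simp only [h.c_i_ε]
  exact (S.c e).sum_single.symm

theorem aug_i (r : R) : S.aug (S.i r) = r := by rw [aug_apply, h.c_i, single_eq_same]

theorem pr_mul (r : R) (e : E) : S.pr T (S.i r * e) = S.i r * S.pr T e := by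
  classical
  refine S.c.injective (Finsupp.ext fun l => ?_)
  rw [c_pr, h.c_mul, h.c_mul, Finsupp.smul_apply, Finsupp.smul_apply, c_pr]
  split_ifs <;> simp

theorem i_ε_mem {l : Λ} {r : R} (hl : S.val l o') (hT : T l) (hr : r ∈ Rf o (S.src l o')) :
    S.i r * S.ε l ∈ S.Sp Rf T o o' := fun m => by
  rw [h.c_i_ε]
  by_cases e : m = l
  · subst e
    rw [single_eq_same]
    exact ⟨hr, fun _ => ⟨hl, hT⟩⟩
  · rw [single_eq_of_ne e]
    exact ⟨zero_mem _, fun h0 => (h0 rfl).elim⟩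

theorem ε_mem {l : Λ} (hl : S.val l o') (hT : T l) : S.ε l ∈ S.Sp Rf T (S.src l o') o' := by
  simpa only [map_one, one_mul] using h.i_ε_mem hl hT (h.bas.one_mem _)

theorem Sp_induction {p : E → Prop} {e : E} (he : e ∈ S.Sp Rf T o o')
    (h1 : ∀ l r, S.val l o' → T l → r ∈ Rf o (S.src l o') → p (S.i r * S.ε l)) (h0 : p 0)
    (ha : ∀ x y, x ∈ S.Sp Rf T o o' → y ∈ S.Sp Rf T o o' → p x → p y → p (x + y)) : p e := by
  have : e ∈ S.Sp Rf T o o' ∧ p e := by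
    rw [h.expand e, Finsupp.sum]
    refine Finset.sum_induction _ (fun x => x ∈ S.Sp Rf T o o' ∧ p x)
      (fun x y hx hy => ⟨add_mem hx.1 hy.1, ha x y hx.1 hy.1 hx.2 hy.2⟩) ⟨zero_mem _, h0⟩
      fun l hl => ?_
    have h2 := (he l).2 (mem_support_iff.1 hl)
    exact ⟨h.i_ε_mem h2.1 h2.2 (he l).1, h1 l _ h2.1 h2.2 (he l).1⟩
  exact this.2

theorem i_mul_mem {r : R} {e : E} (hr : r ∈ Rf o o') (he : e ∈ S.Sp Rf T o' o'') :
    S.i r * e ∈ S.Sp Rf T o o'' := fun l => by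
  rw [h.c_mul, Finsupp.smul_apply, smul_eq_mul]
  exact ⟨h.bas.mul_mem hr (he l).1, fun h0 => (he l).2 (right_ne_zero_of_mul h0)⟩

theorem i_aug {e : E} (he : e ∈ S.Sp Rf T o o') (hT : ∀ l, S.val l o' → T l → l = S.u) :
    S.i (S.aug e) = e := by
  refine S.c.injective (Finsupp.ext fun l => ?_)
  rw [h.c_i]
  by_cases e' : l = S.u
  · subst e'
    rw [single_eq_same, aug_apply]
  · rw [single_eq_of_ne e']
    by_contra h0
    have := (he l).2 (Ne.symm h0)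
    exact e' (hT l this.1 this.2)

omit h in
theorem aug_mem {e : E} (he : e ∈ S.Sp Rf T o o') : S.aug e ∈ Rf o o' := by
  have := (he S.u).1
  rwa [src_u] at this

theorem i_mem {r : R} (hr : r ∈ Rf o o') (hT : T S.u) : S.i r ∈ S.Sp Rf T o o' := by
  have := h.i_ε_mem (T := T) (o := o) (o' := o') (r := r) val_u hT (by rwa [src_u])
  rwa [h.ε_u, mul_one] at this

theorem mem_unit {e : E} :
    e ∈ S.Sp Rf (fun l => l = S.u) o o' ↔ ∃ r ∈ Rf o o', e = S.i r :=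
  ⟨fun he => ⟨_, aug_mem he, (h.i_aug he fun _ _ hl => hl).symm⟩,
    fun ⟨_, hr, e'⟩ => e' ▸ h.i_mem hr rfl⟩

/-- products, given the products of letters -/
theorem mul_mem_of {a b : E} (ha : a ∈ S.Sp Rf T o o') (hb : b ∈ S.Sp Rf T' o' o'')
    (h1 : ∀ l r o₁ o₂ m, S.val l o₁ → T l → S.val m o₂ → T' m → r ∈ Rf o₁ (S.src m o₂) →
      S.ε l * S.i r * S.ε m ∈ S.Sp Rf T'' (S.src l o₁) o₂) : a * b ∈ S.Sp Rf T'' o o'' := by
  refine h.Sp_induction (p := fun a => a * b ∈ S.Sp Rf T'' o o'') ha (fun l r hl hT hr => ?_)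
    (by rw [zero_mul]; exact zero_mem _) fun x y _ _ hx hy => by
      rw [add_mul]; exact add_mem hx hy
  refine h.Sp_induction (p := fun b => S.i r * S.ε l * b ∈ S.Sp Rf T'' o o'') hb
    (fun m r' hm hT' hr' => ?_) (by rw [mul_zero]; exact zero_mem _) fun x y _ _ hx hy => by
      rw [mul_add]; exact add_mem hx hy
  have := h.i_mul_mem hr (h1 l r' o' o'' m hl hT hm hT' hr')
  simpa only [mul_assoc] using this

/-- degrees and ranks add; the non-unit letters span an ideal -/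
theorem mul_mem {k k' : ℤ} {n n' : ℕ} {p p' : Prop} {a b : E}
    (ha : a ∈ S.Sp Rf (fun l => S.deg l = k ∧ S.ρ l ≤ n ∧ (p → l ≠ S.u)) o o')
    (hb : b ∈ S.Sp Rf (fun l => S.deg l = k' ∧ S.ρ l ≤ n' ∧ (p' → l ≠ S.u)) o' o'') :
    a * b ∈ S.Sp Rf (fun l => S.deg l = k + k' ∧ S.ρ l ≤ n + n' ∧ (p ∨ p' → l ≠ S.u)) o o'' := by
  refine h.mul_mem_of ha hb fun l r o₁ o₂ m hl hT hm hT' hr => ?_
  by_cases e : l = S.u
  · subst e
    rw [h.ε_u, one_mul, src_u]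
    refine h.i_ε_mem hm ⟨?_, hT'.2.1.trans (Nat.le_add_left _ _), fun hp => ?_⟩ hr
    · rw [← hT.1, h.deg_u, zero_add, hT'.1]
    · exact hT'.2.2 (hp.resolve_left fun hp => hT.2.2 hp rfl)
  obtain ⟨hl1, hl2⟩ := hl.of_ne e
  rw [src_of_ne e]
  have hx := h.mulR l _ r hl1 (hl2 ▸ hr)
  by_cases e' : m = S.u
  · subst e'
    rw [h.ε_u, mul_one]
    rw [src_u] at hx
    refine Sp_mono (fun l' _ hl' => ⟨?_, ?_, fun _ => hl'.1⟩) hx
    · rw [hl'.2.1, hT.1, ← hT'.1, h.deg_u, add_zero]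
    · exact (hl'.2.2.trans hT.2.1).trans (Nat.le_add_right _ _)
  obtain ⟨hm1, hm2⟩ := hm.of_ne e'
  rw [src_of_ne e'] at hx
  refine h.Sp_induction (p := fun x => x * S.ε m ∈ S.Sp Rf
      (fun l => S.deg l = k + k' ∧ S.ρ l ≤ n + n' ∧ (p ∨ p' → l ≠ S.u)) (S.s l) o₂) hx
    (fun l' r' hv hl' hr' => ?_) (by rw [zero_mul]; exact zero_mem _) fun x y _ _ hx hy => by
      rw [add_mul]; exact add_mem hx hy
  obtain ⟨hv1, hv2⟩ := hv.of_ne hl'.1
  rw [src_of_ne hl'.1] at hr'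
  rw [mul_assoc]
  refine h.i_mul_mem hr' (Sp_mono (fun q _ hq => ⟨?_, ?_, fun _ => hq.1⟩)
    (hm2 ▸ h.mul l' m hv1 hm1 hv2))
  · rw [hq.2.1, hl'.2.1, hT.1, hT'.1]
  · exact hq.2.2.trans (add_le_add (hl'.2.2.trans hT.2.1) hT'.2.1)

theorem d_mem {k : ℤ} {n : ℕ} {a : E} (ha : a ∈ S.Sp Rf (fun l => S.deg l = k ∧ S.ρ l ≤ n) o o') :
    S.d a ∈ S.Sp Rf (fun l => S.deg l = k + 1 ∧ S.ρ l < n ∧ l ≠ S.u) o o' := by
  refine h.Sp_induction (p := fun a => S.d a ∈ S.Sp Rf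
      (fun l => S.deg l = k + 1 ∧ S.ρ l < n ∧ l ≠ S.u) o o') ha (fun l r hl hT hr => ?_)
    (by rw [map_zero]; exact zero_mem _) fun x y _ _ hx hy => by
      rw [map_add]; exact add_mem hx hy
  by_cases e : l = S.u
  · subst e
    rw [h.ε_u, mul_one, h.d_i]
    exact zero_mem _
  obtain ⟨hl1, hl2⟩ := hl.of_ne e
  rw [src_of_ne e] at hr
  rw [h.dg.leib, h.d_i, zero_mul, add_zero]
  refine h.i_mul_mem hr (Sp_mono (fun m _ hm => ⟨?_, hm.2.2.trans_le hT.2, hm.1⟩)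
    (hl2 ▸ h.d_ε l hl1))
  rw [hm.2.1, hT.1]

theorem exists_rank {a : E} (ha : a ∈ S.Sp Rf T o o') :
    ∃ n, a ∈ S.Sp Rf (fun l => T l ∧ S.ρ l ≤ n) o o' :=
  ⟨(S.c a).support.sup S.ρ, fun l => ⟨(ha l).1, fun h0 =>
    ⟨((ha l).2 h0).1, ((ha l).2 h0).2, Finset.le_sup (f := S.ρ) (mem_support_iff.2 h0)⟩⟩⟩

theorem σ_eq {k : ℤ} {a : E} (ha : a ∈ S.Sp Rf (fun l => S.deg l = k) o o') :
    S.σ a = k.negOnePow • a := by
  refine h.Sp_induction (p := fun a => S.σ a = k.negOnePow • a) ha (fun l r hl hT _ => ?_)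
    (by rw [map_zero, smul_zero]) fun x y _ _ hx hy => by rw [map_add, smul_add, hx, hy]
  by_cases e : l = S.u
  · subst e
    rw [h.ε_u, mul_one, h.σ_i, ← hT, h.deg_u, Int.negOnePow_zero, one_smul]
  · rw [h.dg.σ_mul, h.σ_i, h.σ_ε l (hl.of_ne e).1, hT, mul_smul_comm]

/-- the product with the flags only -/
theorem mul_mem' {k k' : ℤ} {p p' : Prop} {a b : E}
    (ha : a ∈ S.Sp Rf (fun l => S.deg l = k ∧ (p → l ≠ S.u)) o o')
    (hb : b ∈ S.Sp Rf (fun l => S.deg l = k' ∧ (p' → l ≠ S.u)) o' o'') :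
    a * b ∈ S.Sp Rf (fun l => S.deg l = k + k' ∧ (p ∨ p' → l ≠ S.u)) o o'' := by
  obtain ⟨n, ha⟩ := h.exists_rank ha
  obtain ⟨n', hb⟩ := h.exists_rank hb
  exact Sp_mono (fun _ _ hl => ⟨hl.1, hl.2.2⟩) (h.mul_mem (n := n) (n' := n') (p := p) (p' := p')
    (Sp_mono (fun _ _ hl => ⟨hl.1.1, hl.2, hl.1.2⟩) ha)
    (Sp_mono (fun _ _ hl => ⟨hl.1.1, hl.2, hl.1.2⟩) hb))

theorem good : (S.cat Rf).Good where
  dg := h.dg
  one_mem o := S.i.map_one ▸ h.i_mem (h.bas.one_mem o) h.deg_u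
  mul_mem ha hb := Sp_mono (fun _ _ hl => hl.1) (h.mul_mem' (p := False) (p' := False)
    (Sp_mono (fun _ _ hl => ⟨hl, False.elim⟩) ha) (Sp_mono (fun _ _ hl => ⟨hl, False.elim⟩) hb))
  d_mem ha := by
    obtain ⟨n, ha⟩ := h.exists_rank ha
    exact Sp_mono (fun _ _ hl => hl.1) (h.d_mem ha)
  σ_eq ha := h.σ_eq ha

theorem homF_i : IsHomF (bcat Rf) (S.cat Rf) S.i.toAddMonoidHom id where
  mem {k _ _ a} ha := by
    by_cases e : a = 0
    · rw [e, map_zero]; exact zero_mem _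
    · exact h.i_mem (mem_bcat.1 ha).1 (h.deg_u.trans ((mem_bcat.1 ha).2 e).symm)
  one := S.i.map_one
  mul _ _ := S.i.map_mul _ _
  d _ := S.i.map_zero.trans (h.d_i _).symm

theorem aug_mul {k k' : ℤ} {a b : E} (ha : a ∈ S.Sp Rf (fun l => S.deg l = k) o o')
    (hb : b ∈ S.Sp Rf (fun l => S.deg l = k') o' o'') : S.aug (a * b) = S.aug a * S.aug b := by
  have ha1 := pr_mem (T' := fun l => l = S.u) ha
  have ha2 := pr_mem (T' := fun l => ¬ l = S.u) ha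
  have e : a = S.i (S.aug (S.pr (fun l => l = S.u) a)) + S.pr (fun l => ¬ l = S.u) a := by
    rw [h.i_aug ha1 fun _ _ hl => hl.2, pr_add_pr_not]
  have e2 : S.aug (S.pr (fun l => ¬ l = S.u) a * b) = 0 :=
    aug_eq_zero (h.mul_mem' (p := True) (p' := False)
      (Sp_mono (fun _ _ hl => ⟨hl.1, fun _ => hl.2⟩) ha2)
      (Sp_mono (fun _ _ hl => ⟨hl, False.elim⟩) hb)) fun hl => hl.2 (Or.inl trivial) rfl
  generalize S.aug (S.pr (fun l => l = S.u) a) = r at e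
  rw [e, add_mul, map_add, map_add, e2, aug_eq_zero ha2 fun hl => hl.2 rfl, add_zero,
    add_zero, h.aug_i, aug_apply, h.c_mul, Finsupp.smul_apply, smul_eq_mul, aug_apply]

theorem homF_aug (hj : 0 ≤ j) : IsHomF (S.cat Rf) (bcat Rf) S.aug id where
  mem ha := mem_bcat.2 ⟨aug_mem ha, fun h0 => ((ha S.u).2 h0).2.symm.trans h.deg_u⟩
  one := by rw [← S.i.map_one, h.aug_i]
  mul ha hb := h.aug_mul ha hb
  d ha := by
    obtain ⟨n, ha⟩ := h.exists_rank ha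
    exact aug_eq_zero (h.d_mem ha) fun hl => hl.2.2 rfl

theorem aug' (hj : 1 ≤ j) : Aug j (S.cat Rf) (bcat Rf) S.i.toAddMonoidHom S.aug where
  good := h.good
  good₀ := h.bas.good
  hI := h.homF_i
  hU := h.homF_aug (by omega)
  UI := h.aug_i
  IU ha := h.i_aug ha fun l hl hd => hl.resolve_right fun hl => by
    have := h.deg_ge l hl.1
    omega
  zero₀ hk ha := of_not_not (mt (mem_bcat.1 ha).2 hk)
  gap hk hk' ha := S.c.injective (Finsupp.ext fun l => by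
    rw [map_zero, Finsupp.zero_apply]
    by_contra h0
    obtain ⟨hl | hl, hd⟩ := (ha l).2 h0
    · exact hk' (hd.symm.trans (hl ▸ h.deg_u))
    · have := h.deg_ge l hl.1
      omega)

theorem d_i_mul (r : R) (e : E) : S.d (S.i r * e) = S.i r * S.d e := by
  rw [h.dg.leib, h.d_i, zero_mul, add_zero]

/-- the non-unit letters span an ideal -/
theorem mul_mem_ne {p p' : Prop} {a b : E} (ha : a ∈ S.Sp Rf (fun l => p → l ≠ S.u) o o')
    (hb : b ∈ S.Sp Rf (fun l => p' → l ≠ S.u) o' o'') :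
    a * b ∈ S.Sp Rf (fun l => p ∨ p' → l ≠ S.u) o o'' := by
  refine h.mul_mem_of ha hb fun l r o₁ o₂ m hl hT hm hT' hr => ?_
  rw [mul_assoc]
  exact Sp_mono (fun _ _ t => t.2.2) (h.mul_mem (h.ε_mem hl ⟨rfl, le_rfl, hT⟩)
    (h.i_ε_mem hm ⟨rfl, le_rfl, hT'⟩ hr))

theorem d_mem_ne {a : E} (ha : a ∈ S.Sp Rf T o o') : S.d a ∈ S.Sp Rf (fun l => l ≠ S.u) o o' := by
  refine h.Sp_induction (p := fun x => S.d x ∈ S.Sp Rf (fun l => l ≠ S.u) o o') ha
    (fun l r v1 _ v3 => Sp_mono (fun _ _ t => t.2.2) (h.d_mem (h.i_ε_mem v1 ⟨rfl, le_rfl⟩ v3)))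
    (by simp) fun x y _ _ hx hy => ?_
  rw [map_add]
  exact add_mem hx hy

theorem σ_mem {a : E} (ha : a ∈ S.Sp Rf T o o') : S.σ a ∈ S.Sp Rf T o o' := by
  refine h.Sp_induction (p := fun x => S.σ x ∈ S.Sp Rf T o o') ha
    (fun l r v1 v2 v3 => ?_) (by simp) fun x y _ _ hx hy => ?_
  · have e : S.σ (S.i r * S.ε l) = (S.deg l).negOnePow • (S.i r * S.ε l) :=
      h.good.σ_eq (h.i_ε_mem (T := fun m => S.deg m = S.deg l) v1 rfl v3)
    rw [e, Units.smul_def]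
    exact zsmul_mem (h.i_ε_mem v1 v2 v3) _
  · rw [map_add]
    exact add_mem hx hy

theorem Sp_bc (B : Type) [CommRing B] :
    (S.bc B).Sp (fun o o' => bcF B (Rf o o')) T o o' = bcF B (S.Sp Rf T o o') := by
  refine le_antisymm (fun z hz => ?_) fun z hz => bcF_induction hz (fun b e he l => ?_)
    (zero_mem _) fun _ _ _ _ => add_mem
  · rw [← (S.bc B).c.symm_apply_apply z, ← sum_single ((S.bc B).c z), Finsupp.sum, map_sum]
    refine sum_mem fun l m => ?_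
    obtain ⟨h1, h2⟩ := (hz l).2 (mem_support_iff.1 m)
    refine bcF_induction (p := fun y => (S.bc B).c.symm (single l y) ∈ _) (hz l).1
      (fun b r hr => ?_) (by simp) fun x y _ _ hx hy => ?_
    · rw [c_bc_symm, ← h.c_i_ε, AddEquiv.symm_apply_apply]
      exact tmul_mem_bcF b (h.i_ε_mem h1 h2 hr)
    · rw [single_add, map_add]
      exact add_mem hx hy
  · rw [c_bc]
    exact ⟨tmul_mem_bcF b (he l).1, fun n => (he l).2 fun k => n (by rw [k, tmul_zero])⟩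

theorem cat_bc (B : Type) [CommRing B] :
    (S.bc B).cat (fun o o' => bcF B (Rf o o')) = (S.cat Rf).bc B :=
  congrArg (Cat.mk _ _) (funext₃ fun _ _ _ => h.Sp_bc B)

theorem tri_bc (B : Type) [CommRing B] :
    (S.bc B).tri (fun o o' => bcF B (Rf o o')) K = (S.tri Rf K).bc B :=
  congrArg (Cat.mk _ _) (funext₃ fun _ _ _ => h.Sp_bc B)

theorem ε_i_bc (B : Type) [CommRing B] {l : Λ} {X : AddSubgroup R} {r : B ⊗[ℤ] R}
    (hr : r ∈ bcF B X) (H : ∀ r ∈ X, S.ε l * S.i r ∈ S.Sp Rf T o o') :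
    (S.bc B).ε l * (S.bc B).i r ∈ (S.bc B).Sp (fun o o' => bcF B (Rf o o')) T o o' := by
  rw [h.Sp_bc, ε_bc]
  refine bcF_induction (p := fun r => _ * (S.bc B).i r ∈ _) hr (fun b r m => ?_) (by simp)
    fun x y _ _ hx hy => ?_
  · rw [i_bc, Algebra.TensorProduct.tmul_mul_tmul]
    exact tmul_mem_bcF _ (H r m)
  · rw [map_add, mul_add]
    exact add_mem hx hy

theorem ε_ε_bc (B : Type) [CommRing B] {l l' : Λ} (H : S.ε l * S.ε l' ∈ S.Sp Rf T o o') :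
    (S.bc B).ε l * (S.bc B).ε l' ∈ (S.bc B).Sp (fun o o' => bcF B (Rf o o')) T o o' := by
  rw [h.Sp_bc, ε_bc, ε_bc, Algebra.TensorProduct.tmul_mul_tmul]
  exact tmul_mem_bcF _ H

theorem d_ε_bc (B : Type) [CommRing B] {l : Λ} (H : S.d (S.ε l) ∈ S.Sp Rf T o o') :
    (S.bc B).d ((S.bc B).ε l) ∈ (S.bc B).Sp (fun o o' => bcF B (Rf o o')) T o o' := by
  rw [h.Sp_bc, ε_bc]
  exact tmul_mem_bcF 1 H

theorem bc (B : Type) [CommRing B] : (S.bc B).IsSys (fun o o' => bcF B (Rf o o')) j where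
  bas := h.bas.bc B
  dg := h.dg.bc B
  σ_i := DFunLike.congr_fun (hom_ext_bc (f := (S.bc B).σ.comp (S.bc B).i.toAddMonoidHom)
    (g := (S.bc B).i.toAddMonoidHom) fun b r => congrArg (b ⊗ₜ ·) (h.σ_i r))
  d_i := DFunLike.congr_fun (hom_ext_bc (f := (S.bc B).d.comp (S.bc B).i.toAddMonoidHom)
    (g := 0) fun b r => (congrArg (b ⊗ₜ ·) (h.d_i r)).trans (tmul_zero _ _))
  c_mul r e := by
    induction r with
    | zero => rw [map_zero, zero_mul, map_zero]; ext l; exact (zero_mul _).symm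
    | add x y hx hy => rw [map_add, add_mul, map_add, hx, hy, add_smul]
    | tmul b r =>
      induction e with
      | zero => simp
      | add x y hx hy => rw [mul_add, map_add, hx, hy, map_add, smul_add]
      | tmul b' e =>
        ext l
        rw [i_bc, Algebra.TensorProduct.tmul_mul_tmul, c_bc, h.c_mul, Finsupp.smul_apply,
          Finsupp.smul_apply, c_bc, smul_eq_mul, smul_eq_mul, Algebra.TensorProduct.tmul_mul_tmul]
  c_one := ((S.bc B).c.symm_apply_eq.1 ((ε_bc B S.u).trans (by rw [h.ε_u]; rfl))).symm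
  deg_u := h.deg_u
  ρ_u := h.ρ_u
  ne_u := h.ne_u
  deg_ge := h.deg_ge
  ρ_pos := h.ρ_pos
  σ_ε l hl := by
    rw [ε_bc]
    exact (congrArg (1 ⊗ₜ ·) (h.σ_ε l hl)).trans (tmul_smul ((S.deg l).negOnePow : ℤ) _ _)
  mulR l o _ hl hr := h.ε_i_bc B hr fun r => h.mulR l o r hl
  mul l l' h1 h2 h3 := h.ε_ε_bc B (h.mul l l' h1 h2 h3)
  d_ε l hl := h.d_ε_bc B (h.d_ε l hl)

end IsSys

namespace IsCell

variable (h : S.IsCell Rf K j)
include h

theorem bc (B : Type) [CommRing B] : (S.bc B).IsCell (fun o o' => bcF B (Rf o o')) K j where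
  sys := h.sys.bc B
  sub := h.sub.bc B
  inN := h.inN
  split := h.split
  cat l m o h1 h2 h3 := by
    obtain ⟨a1, a2, a3, a4, a5, a6, a7, a8⟩ := h.cat l m o h1 h2 h3
    refine ⟨a1, a2, a3, a4, a5, a6, ?_, a8⟩
    rw [ε_bc, ε_bc, ε_bc, a7, Algebra.TensorProduct.tmul_mul_tmul, one_mul]
  mulE m l h1 h2 h3 h4 := h.sys.ε_ε_bc B (h.mulE m l h1 h2 h3 h4)
  mulR l o _ hl hr := h.sys.ε_i_bc B hr fun r => h.mulR l o r hl
  d_ε l hl := h.sys.d_ε_bc B (h.d_ε l hl)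

theorem N_ok {l : Λ} (hl : S.val l o) (hN : K.inN l) : S.ok l ∧ l ≠ S.u ∧ S.t l = o := by
  have h1 := (h.inN l hN).1
  have h2 := h.sys.ne_u l h1
  exact ⟨h1, h2, (hl.resolve_left h2).2⟩

theorem mul_EN {a b : E} (ha : a ∈ S.Sp Rf (fun l => l = S.u ∨ K.inE l) o o')
    (hb : b ∈ S.Sp Rf K.inN o' o'') : a * b ∈ S.Sp Rf K.inN o o'' := by
  refine h.sys.mul_mem_of ha hb fun l r o₁ o₂ m hl hT hm hN hr => ?_
  obtain ⟨m1, m2, m3⟩ := h.N_ok hm hN
  by_cases hu : l = S.u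
  · subst hu
    rw [h.sys.ε_u, one_mul, src_u]
    exact h.sys.i_ε_mem hm hN hr
  · obtain ⟨l1, l2⟩ := hl.resolve_left hu
    rw [src_of_ne m2, ← l2] at hr
    have h1 := h.sub.mulR l (S.s m) r ⟨l1, hT.resolve_left hu⟩ hr
    rw [Sp_sub] at h1
    rw [src_of_ne hu]
    refine h.sys.Sp_induction (p := fun x => x * S.ε m ∈ S.Sp Rf K.inN (S.s l) o₂) h1
      (fun l' r' v1 v2 v3 => ?_) (by simp) fun x y _ _ hx hy => ?_
    · obtain ⟨w1, w2⟩ := v1.resolve_left v2.1.1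
      rw [src_of_ne (S := S) v2.1.1] at v3
      rw [mul_assoc, ← m3]
      exact h.sys.i_mul_mem v3 (h.mulE l' m w1 (v2.2.resolve_left v2.1.1) hN w2)
    · rw [add_mul]
      exact add_mem hx hy

theorem mem_sub {a : E} : a ∈ S.Sp Rf (fun l => l = S.u ∨ K.inE l) o o' ↔
    a ∈ (S.sub K.inE).Sp Rf (fun _ => True) o o' := by
  rw [Sp_sub]
  simp only [true_and]

theorem mul_EE {a b : E} (ha : a ∈ S.Sp Rf (fun l => l = S.u ∨ K.inE l) o o')
    (hb : b ∈ S.Sp Rf (fun l => l = S.u ∨ K.inE l) o' o'') :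
    a * b ∈ S.Sp Rf (fun l => l = S.u ∨ K.inE l) o o'' :=
  h.mem_sub.2 (Sp_mono (fun _ _ _ => trivial)
    (h.sub.mul_mem_ne (p := False) (p' := False)
      (Sp_mono (fun _ _ _ => False.elim) (h.mem_sub.1 ha))
      (Sp_mono (fun _ _ _ => False.elim) (h.mem_sub.1 hb))))

theorem mul_NR {a : E} {r : R} (ha : a ∈ S.Sp Rf K.inN o o') (hr : r ∈ Rf o' o'') :
    a * S.i r ∈ S.Sp Rf K.inN o o'' := by
  refine h.sys.Sp_induction (p := fun x => x * S.i r ∈ S.Sp Rf K.inN o o'') ha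
    (fun l r' v1 v2 v3 => ?_) (by simp) fun x y _ _ hx hy => ?_
  · obtain ⟨_, m2, m3⟩ := h.N_ok v1 v2
    rw [src_of_ne m2] at v3
    rw [mul_assoc]
    exact h.sys.i_mul_mem v3 (h.mulR l o'' r v2 (m3 ▸ hr))
  · rw [add_mul]
    exact add_mem hx hy

theorem att_mem {k : ℤ} {n : ℕ} {a : E}
    (ha : a ∈ S.Sp Rf (fun l => K.inN l ∧ S.deg l = k ∧ S.ρ l ≤ n) o o') : S.att K a ∈
      S.Sp Rf (fun l => K.inE l ∧ l ≠ S.u ∧ S.deg l = k + 1 ∧ S.ρ l < n) o o' :=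
  Sp_mono (fun _ _ t => ⟨t.2, t.1.2.2, t.1.1, t.1.2.1⟩)
    (pr_mem (T' := K.inE) (h.sys.d_mem (mem_Sp_and.1 ha).2))

theorem att_mem' {a : E} (ha : a ∈ S.Sp Rf T o o') :
    S.att K a ∈ S.Sp Rf (fun l => K.inE l ∧ l ≠ S.u) o o' :=
  Sp_mono (fun _ _ t => ⟨t.2, t.1⟩) (pr_mem (T' := K.inE) (h.sys.d_mem_ne ha))

theorem d_N {a : E} (ha : a ∈ S.Sp Rf K.inN o o') :
    S.d a ∈ S.Sp Rf (fun l => K.inN l ∨ K.inE l) o o' := by
  refine h.sys.Sp_induction (p := fun x => S.d x ∈ S.Sp Rf (fun l => K.inN l ∨ K.inE l) o o') ha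
    (fun l r v1 v2 v3 => ?_) (by simp) fun x y _ _ hx hy => ?_
  · obtain ⟨_, m2, m3⟩ := h.N_ok v1 v2
    rw [src_of_ne m2] at v3
    rw [h.sys.d_i_mul, ← m3]
    exact h.sys.i_mul_mem v3 (h.d_ε l v2)
  · rw [map_add]
    exact add_mem hx hy

theorem d_E {a : E} (ha : a ∈ S.Sp Rf (fun l => l = S.u ∨ K.inE l) o o') :
    S.d a ∈ S.Sp Rf (fun l => K.inE l ∧ l ≠ S.u) o o' := by
  have h1 := h.sub.d_mem_ne (h.mem_sub.1 ha)
  rw [Sp_sub] at h1
  exact Sp_mono (fun _ _ t => ⟨t.2.resolve_left t.1, t.1⟩) h1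

theorem d_sub_att {a : E} (ha : a ∈ S.Sp Rf K.inN o o') :
    S.d a - S.att K a ∈ S.Sp Rf K.inN o o' := by
  have h1 : S.d a - S.att K a = S.pr (fun l => ¬ K.inE l) (S.d a) :=
    sub_eq_of_eq_add' (pr_add_pr_not (S.d a)).symm
  rw [h1]
  exact Sp_mono (fun _ _ t => t.1.resolve_right t.2) (pr_mem (h.d_N ha))

theorem pr_N {a : E} (ha : a ∈ S.Sp Rf K.inN o o') : S.pr K.inE a = 0 :=
  pr_eq_zero ha fun l _ t => (h.inN l t).2

theorem mul_E_right {a b : E} (ha : a ∈ S.Sp Rf (fun l => l = S.u ∨ K.inE l) o o')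
    (hb : b ∈ S.Sp Rf (fun l => K.inE l ∧ l ≠ S.u) o' o'') :
    a * b ∈ S.Sp Rf (fun l => K.inE l ∧ l ≠ S.u) o o'' :=
  Sp_mono (fun _ _ t => ⟨t.1.resolve_left (t.2 (Or.inr trivial)), t.2 (Or.inr trivial)⟩)
    (mem_Sp_and.2 ⟨h.mul_EE ha (Sp_mono (fun _ _ t => Or.inr t.1) hb),
      h.sys.mul_mem_ne (p := False) (p' := True) (Sp_mono (fun _ _ _ => False.elim) ha)
        (Sp_mono (fun _ _ t _ => t.2) hb)⟩)

theorem mul_E_left {a b : E} (ha : a ∈ S.Sp Rf (fun l => K.inE l ∧ l ≠ S.u) o o')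
    (hb : b ∈ S.Sp Rf (fun l => l = S.u ∨ K.inE l) o' o'') :
    a * b ∈ S.Sp Rf (fun l => K.inE l ∧ l ≠ S.u) o o'' :=
  Sp_mono (fun _ _ t => ⟨t.1.resolve_left (t.2 (Or.inl trivial)), t.2 (Or.inl trivial)⟩)
    (mem_Sp_and.2 ⟨h.mul_EE (Sp_mono (fun _ _ t => Or.inr t.1) ha) hb,
      h.sys.mul_mem_ne (p := True) (p' := False) (Sp_mono (fun _ _ t _ => t.2) ha)
        (Sp_mono (fun _ _ _ => False.elim) hb)⟩)

theorem att_mul {a b : E} (ha : a ∈ S.Sp Rf (fun l => l = S.u ∨ K.inE l) o o')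
    (hb : b ∈ S.Sp Rf K.inN o' o'') : S.att K (a * b) = a * S.att K b := by
  have e : S.d (a * b) = a * S.att K b + (a * (S.d b - S.att K b) + S.d a * S.σ b) := by
    rw [h.sys.dg.leib, mul_sub]; abel
  have h1 := h.mul_E_right ha (h.att_mem' hb)
  show S.pr K.inE (S.d (a * b)) = _
  rw [e, map_add, pr_of_mem (mem_Sp_and.1 h1).1, h.pr_N (add_mem (h.mul_EN ha (h.d_sub_att hb))
    (h.mul_EN (Sp_mono (fun _ _ t => Or.inr t.1) (h.d_E ha)) (h.sys.σ_mem hb))), add_zero]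

theorem att_mul_i {a : E} {r : R} (ha : a ∈ S.Sp Rf K.inN o o') (hr : r ∈ Rf o' o'') :
    S.att K (a * S.i r) = S.att K a * S.i r := by
  have e : S.d (a * S.i r) = S.att K a * S.i r + (S.d a - S.att K a) * S.i r := by
    rw [h.sys.dg.leib, h.sys.d_i, h.sys.σ_i, mul_zero, zero_add, sub_mul]; abel
  have h1 := h.mul_E_left (h.att_mem' ha)
    (Sp_mono (fun _ _ t => Or.inl t) (h.sys.mem_unit.2 ⟨r, hr, rfl⟩))
  show S.pr K.inE (S.d (a * S.i r)) = _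
  rw [e, map_add, pr_of_mem (mem_Sp_and.1 h1).1, h.pr_N (h.mul_NR (h.d_sub_att ha) hr), add_zero]

theorem att_d {a : E} (ha : a ∈ S.Sp Rf K.inN o o') :
    S.att K (S.d a - S.att K a) = -S.d (S.att K a) := by
  have h1 := h.d_E (Sp_mono (fun _ _ t => Or.inr t.1) (h.att_mem' ha))
  show S.pr K.inE (S.d (S.d a - S.att K a)) = _
  rw [map_sub, h.sys.dg.dd, zero_sub, map_neg, pr_of_mem (mem_Sp_and.1 h1).1]

theorem tri_le (k : ℤ) (p p' : O × Bool) : (S.tri Rf K).H k p p' ≤ (S.cat Rf).H k p.1 p'.1 :=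
  Sp_mono fun _ _ t => t.1

theorem tri_true (k : ℤ) : (S.tri Rf K).H k (o, true) (o', true) =
    ((S.sub K.inE).cat Rf).H k o o' := by
  show S.Sp Rf _ o o' = (S.sub K.inE).Sp Rf _ o o'
  rw [Sp_sub]
  exact le_antisymm (Sp_mono fun _ _ t => ⟨t.1, t.2.2.imp_right fun u => u.resolve_right
    fun v => Bool.noConfusion v.1⟩) (Sp_mono fun _ _ t =>
      ⟨t.1, fun v => Bool.noConfusion v, t.2.imp_right Or.inl⟩)

theorem tri_false {k : ℤ} {a : E} (ha : a ∈ (S.tri Rf K).H k (o, false) (o', false)) :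
    S.aug a ∈ (bcat Rf).H k o o' ∧ S.i (S.aug a) = a := by
  obtain ⟨r, hr, rfl⟩ := h.sys.mem_unit.1 (Sp_mono (fun _ _ t => (t.2.1 rfl).2) ha)
  rw [h.sys.aug_i]
  refine ⟨?_, rfl⟩
  show r ∈ (if k = 0 then Rf o o' else ⊥)
  split_ifs with hk
  · exact hr
  · have h0 : S.i r = 0 := eq_zero_of_mem ha fun l _ t =>
      hk (by rw [← t.1, (t.2.1 rfl).2, h.sys.deg_u])
    rw [← h.sys.aug_i r, h0, map_zero]
    exact zero_mem _

theorem tri_zero {k : ℤ} {a : E} (ha : a ∈ (S.tri Rf K).H k (o, false) (o', true)) : a = 0 :=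
  eq_zero_of_mem ha fun _ _ t => Bool.noConfusion (t.2.1 rfl).1

/-- the two parts of an element of the triangular family -/
theorem tri_split {a : E} {q : Prop}
    (ha : a ∈ S.Sp Rf (fun l => l = S.u ∨ K.inE l ∨ q ∧ K.inN l) o o') :
    ∃ x ∈ S.Sp Rf (fun l => l = S.u ∨ K.inE l) o o', ∃ y ∈ S.Sp Rf K.inN o o',
      (¬ q → y = 0) ∧ a = x + y := by
  have h1 := pr_mem (T' := fun l => ¬ (l = S.u ∨ K.inE l)) ha
  have h2 : ∀ l, (l = S.u ∨ K.inE l ∨ q ∧ K.inN l) ∧ ¬ (l = S.u ∨ K.inE l) → q ∧ K.inN l :=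
    fun l t => ((or_assoc.2 t.1).resolve_left t.2)
  exact ⟨_, (mem_Sp_and.1 (pr_mem ha)).2, _, Sp_mono (fun l _ t => (h2 l t).2) h1,
    fun hq => eq_zero_of_mem h1 fun l _ t => hq (h2 l t).1, (pr_add_pr_not a).symm⟩

theorem tri_join {x y : E} {q : Prop} (hx : x ∈ S.Sp Rf (fun l => l = S.u ∨ K.inE l) o o')
    (hy : y ∈ S.Sp Rf (fun l => K.inN l ∨ K.inE l) o o') (hq : ¬ q → y = 0) :
    x + y ∈ S.Sp Rf (fun l => l = S.u ∨ K.inE l ∨ q ∧ K.inN l) o o' := by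
  refine add_mem (Sp_mono (fun _ _ t => t.imp_right Or.inl) hx) ?_
  by_cases h1 : q
  · exact Sp_mono (fun _ _ t => Or.inr (t.symm.imp_right fun u => ⟨h1, u⟩)) hy
  · rw [hq h1]
    exact zero_mem _

theorem mem_tri_true {k : ℤ} {a : E} {p : O × Bool} : a ∈ (S.tri Rf K).H k (o, true) p ↔
    a ∈ (S.cat Rf).H k o p.1 ∧
      a ∈ S.Sp Rf (fun l => l = S.u ∨ K.inE l ∨ p.2 = false ∧ K.inN l) o p.1 :=
  Iff.trans ⟨fun ha => Sp_mono (fun _ _ t => ⟨t.1, t.2.2⟩) ha,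
    fun ha => Sp_mono (fun _ _ t => ⟨t.1, fun v => Bool.noConfusion v, t.2⟩) ha⟩ mem_Sp_and

theorem tri_good : (S.tri Rf K).Good where
  dg := h.sys.dg
  one_mem p := by
    have h1 := h.sys.ε_mem (T := fun l => l = S.u) (o' := p.1) (Or.inl rfl) rfl
    rw [h.sys.ε_u, src_u] at h1
    exact Sp_mono (fun _ _ t => ⟨by rw [t, h.sys.deg_u], fun v => ⟨v, t⟩, Or.inl t⟩) h1
  mul_mem := by
    rintro k k' ⟨o, s⟩ ⟨o', s'⟩ ⟨o'', s''⟩ a b ha hb
    have hd := h.sys.good.mul_mem (h.tri_le _ _ _ ha) (h.tri_le _ _ _ hb)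
    cases s
    · cases s'
      · obtain ⟨r, hr, rfl⟩ := h.sys.mem_unit.1 (Sp_mono (fun _ _ t => (t.2.1 rfl).2) ha)
        exact mem_Sp_and.2 ⟨hd, h.sys.i_mul_mem hr (mem_Sp_and.1 hb).2⟩
      · rw [h.tri_zero ha, zero_mul]
        exact zero_mem _
    · refine h.mem_tri_true.2 ⟨hd, ?_⟩
      obtain ⟨x, hx, y, hy, hq, rfl⟩ := h.tri_split (h.mem_tri_true.1 ha).2
      cases s'
      · cases s''
        · obtain ⟨r, hr, rfl⟩ := h.sys.mem_unit.1 (Sp_mono (fun _ _ t => (t.2.1 rfl).2) hb)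
          rw [add_mul]
          exact h.tri_join (h.mul_EE hx (Sp_mono (fun _ _ t => Or.inl t)
            (h.sys.mem_unit.2 ⟨r, hr, rfl⟩))) (Sp_mono (fun _ _ t => Or.inl t) (h.mul_NR hy hr))
            fun v => (v rfl).elim
        · rw [h.tri_zero hb, mul_zero]
          exact zero_mem _
      · obtain ⟨x', hx', y', hy', hq', rfl⟩ := h.tri_split (h.mem_tri_true.1 hb).2
        rw [hq fun v => Bool.noConfusion v, add_zero, mul_add]
        exact h.tri_join (h.mul_EE hx hx') (Sp_mono (fun _ _ t => Or.inl t) (h.mul_EN hx hy'))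
          fun v => by rw [hq' v, mul_zero]
  d_mem := by
    rintro k ⟨o, s⟩ ⟨o', s'⟩ a ha
    cases s
    · obtain ⟨r, _, rfl⟩ := h.sys.mem_unit.1 (Sp_mono (fun _ _ t => (t.2.1 rfl).2) ha)
      show S.d (S.i r) ∈ _
      rw [h.sys.d_i]
      exact zero_mem _
    · refine h.mem_tri_true.2 ⟨h.sys.good.d_mem (h.tri_le _ _ _ ha), ?_⟩
      obtain ⟨x, hx, y, hy, hq, rfl⟩ := h.tri_split (h.mem_tri_true.1 ha).2
      show S.d (x + y) ∈ _
      rw [map_add]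
      exact h.tri_join (Sp_mono (fun _ _ t => Or.inr t.1) (h.d_E hx)) (h.d_N hy)
        fun v => by rw [hq v, map_zero]
  σ_eq ha := h.sys.good.σ_eq (h.tri_le _ _ _ ha)

end IsCell

end Sys

end Pool.Agent.Lib.NIL
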