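import Mathlib

/-! Induction over elementary amenable groups. -/

namespace Pool.Agent.Lib.NIL.EAG

open Function

set_option linter.style.haveILetI false

/-- Elementary amenable groups. -/
inductive EA : (G : Type) → [Group G] → Prop
  | fin (G : Type) [Group G] [Finite G] : EA G
  | ab (G : Type) [Group G] (h : ∀ a b : G, a * b = b * a) : EA G
  | sub {G H : Type} [Group G] [Group H] (f : H →* G) (hf : Injective f) : EA G → EA H
  | quot {G H : Type} [Group G] [Group H] (f : G →* H) (hf : Surjective f) : EA G → EA H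
  | ext {G : Type} [Group G] (N : Subgroup G) [N.Normal] : EA N → EA (G ⧸ N) → EA G
  | loc {G : Type} [Group G] : (∀ H : Subgroup G, H.FG → EA H) → EA G

/-- A class of groups closed under subgroups, directed unions, and actions on `ℤ ^ n` by
permutations of the coordinates and translations. -/
structure Cl (W : ∀ (G : Type) [Group G], Prop) : Prop where
  sub : ∀ (G H : Type) [Group G] [Group H] (f : H →* G), Injective f → W G → W H
  un : ∀ (G : Type) [Group G], (∀ s : Finset G, ∃ H : Subgroup G, (s : Set G) ⊆ H ∧ W H) → W G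
  act : ∀ (G ι : Type) [Group G] [Fintype ι] [MulAction G ι] (a : G → ι → ℤ),
    (∀ g h i, a (g * h) i = a g i + a h (g⁻¹ • i)) →
    (∀ (d : ι → ℤ) (H : Subgroup G), (∀ g, g ∈ H ↔ ∀ i, d (g⁻¹ • i) + a g i = d i) → W H) → W G

variable {W : ∀ (G : Type) [Group G], Prop} {Q Q' Q'' R : Type} [Group Q] [Group Q'] [Group Q'']
  [Group R]

variable (W) in
/-- The preimages of finite subgroups lie in the class. -/
def Pre {G : Type} [Group G] (p : G →* Q) : Prop := ∀ F : Subgroup Q, Finite F → W (F.comap p)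

variable (W Q) in
def V : Prop := ∀ (G : Type) [Group G] (p : G →* Q), Pre W p → W G

/-- `Q'` is virtually a subquotient of a power of `Q`. -/
def Rel (Q' Q : Type) [Group Q'] [Group Q] : Prop := ∃ (ι : Type) (_ : Finite ι)
  (L : Subgroup (Q' × (ι → Q))), (∀ x, (x, 1) ∈ L → x = 1) ∧ (L.map (MonoidHom.fst _ _)).FiniteIndex

variable (W Q) in
def P : Prop := ∀ (Q' : Type) [Group Q'], Rel Q' Q → V W Q'

theorem mem_fst {Y : Type} [Group Y] {L : Subgroup (Q' × Y)} {x : Q'} :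
    x ∈ L.map (MonoidHom.fst _ _) ↔ ∃ y, (x, y) ∈ L :=
  ⟨fun ⟨z, hz, e⟩ => ⟨z.2, e ▸ hz⟩, fun ⟨y, hy⟩ => ⟨(x, y), hy, rfl⟩⟩

theorem rel_of {ι : Type} [Finite ι] {L : Subgroup (Q' × (ι → Q))} (hL : ∀ x, (x, 1) ∈ L → x = 1)
    (i : Q'' →* Q') (hi : Injective i) (j : R →* Q) (A : Subgroup Q'') [A.FiniteIndex]
    (h : A ≤ (L.comap (i.prodMap (j.compLeft ι))).map (MonoidHom.fst _ _)) : Rel Q'' R := by
  refine ⟨ι, inferInstance, L.comap (i.prodMap (j.compLeft ι)), fun x hx => ?_,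
    Subgroup.finiteIndex_of_le h⟩
  refine hi ((hL (i x) ?_).trans i.map_one.symm)
  have h1 : (i x, j.compLeft ι 1) ∈ L := hx
  rwa [map_one] at h1

theorem rel_refl : Rel Q Q := by
  refine ⟨Unit, inferInstance, (MonoidHom.fst Q (Unit → Q)).eqLocus
    ((Pi.evalMonoidHom _ ()).comp (MonoidHom.snd _ _)), fun x hx => hx, ?_⟩
  exact Subgroup.finiteIndex_of_le (H := ⊤) fun x _ => mem_fst.2 ⟨fun _ => x, rfl⟩

theorem Rel.sub (h : Rel Q' R) (f : R →* Q) (hf : Injective f) : Rel Q' Q := by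
  obtain ⟨ι, _, L, h1, h2⟩ := h
  refine ⟨ι, inferInstance, L.map ((MonoidHom.id Q').prodMap (f.compLeft ι)), ?_, ?_⟩
  · rintro x ⟨⟨x', y⟩, h3, h4⟩
    obtain ⟨rfl, h5⟩ : x' = x ∧ f.compLeft ι y = 1 := Prod.mk.inj h4
    obtain rfl : y = 1 := funext fun k => hf ((congrFun h5 k).trans f.map_one.symm)
    exact h1 _ h3
  · refine Subgroup.finiteIndex_of_le (H := L.map (MonoidHom.fst _ _)) fun x hx => ?_
    obtain ⟨y, hy⟩ := mem_fst.1 hx
    exact mem_fst.2 ⟨_, _, hy, rfl⟩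

theorem Rel.quot (h : Rel Q' R) (f : Q →* R) (hf : Surjective f) : Rel Q' Q := by
  obtain ⟨ι, _, L, h1, h2⟩ := h
  refine rel_of h1 (MonoidHom.id Q') injective_id f (L.map (MonoidHom.fst _ _)) fun x hx => ?_
  obtain ⟨y, hy⟩ := mem_fst.1 hx
  choose z hz using fun k => hf (y k)
  obtain rfl : f.compLeft ι z = y := funext hz
  exact mem_fst.2 ⟨z, hy⟩

theorem Rel.finite (h : Rel Q' Q) [Finite Q] : Finite Q' := by
  obtain ⟨ι, _, L, h1, h2⟩ := h
  have h3 : Finite L := by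
    refine Finite.of_injective ((MonoidHom.snd _ _).comp L.subtype) ?_
    rw [injective_iff_map_eq_one]
    rintro ⟨⟨x, y⟩, hx⟩ (rfl : y = 1)
    obtain rfl := h1 x hx
    rfl
  exact (Subgroup.finite_iff_finite_and_finiteIndex _).2
    ⟨Finite.of_surjective _ ((MonoidHom.fst _ _).subgroupMap_surjective L), h2⟩

namespace Cl

variable (h : Cl W)
include h

theorem pull {G G' : Type} [Group G] [Group G'] {p : G →* Q} (hp : Pre W p) (p' : G' →* Q')
    (i : G' →* G) (hi : Injective i) (j : Q' →* Q) (e : ∀ x, j (p' x) = p (i x)) : Pre W p' := by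
  intro F hF
  refine h.sub _ _ ((i.comp (F.comap p').subtype).codRestrict ((F.map j).comap p)
    fun x => ⟨p' x, x.2, e x⟩) (fun x y hxy => ?_)
    (hp _ (Finite.of_surjective _ (j.subgroupMap_surjective F)))
  exact Subtype.ext (hi (congrArg Subtype.val hxy))

theorem v_fin [Finite Q] : V W Q := fun G _ p hp =>
  h.sub _ _ ((MonoidHom.id G).codRestrict ((⊤ : Subgroup Q).comap p) fun _ => trivial)
    (fun _ _ e => congrArg Subtype.val e) (hp ⊤ inferInstance)

theorem v_loc (hQ : ∀ H : Subgroup Q, H.FG → V W H) : V W Q := by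
  intro G _ p hp
  refine h.un G fun s => ⟨Subgroup.closure s, Subgroup.subset_closure, ?_⟩
  have h1 : ((Subgroup.closure (s : Set G)).map p).FG := (Subgroup.fg_iff _).2
    ⟨p '' s, (MonoidHom.map_closure p s).symm, s.finite_toSet.image p⟩
  generalize Subgroup.closure (s : Set G) = H at h1
  exact hQ _ h1 H (p.subgroupMap H)
    (h.pull hp _ H.subtype Subtype.val_injective (H.map p).subtype fun _ => rfl)

theorem v_trans (φ : Q →* R) (hR : V W R) (hF : ∀ F : Subgroup R, Finite F → V W (F.comap φ)) :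
    V W Q := fun G _ p hp =>
  hR G (φ.comp p) fun F h1 => hF F h1 _
    ((p.comp (F.comap (φ.comp p)).subtype).codRestrict (F.comap φ) fun x => x.2)
    (h.pull hp _ (Subgroup.subtype _) Subtype.val_injective (Subgroup.subtype _) fun _ => rfl)

theorem v_act (A : Subgroup Q) [A.FiniteIndex] {κ : Type} [Fintype κ]
    (a : A →* κ → Multiplicative ℤ) (ha : ∀ v, {c | a c = v}.Finite) : V W Q := by
  intro G _ p hp
  have hm : ∀ (q : Q) (x : Q ⧸ A), x.out⁻¹ * (q * (q⁻¹ • x).out) ∈ A := fun q x => by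
    rw [← QuotientGroup.eq, QuotientGroup.out_eq']
    exact ((MulAction.Quotient.mk_smul_out A q _).trans (smul_inv_smul q x)).symm
  let c : Q → Q ⧸ A → A := fun q x => ⟨_, hm q x⟩
  have hc : ∀ q r x, c (q * r) x = c q x * c r (q⁻¹ • x) := fun q r x =>
    Subtype.ext (by simp only [c, Subgroup.coe_mul, mul_inv_rev, mul_smul]; group)
  have hc1 : ∀ x, c 1 x = 1 := fun x => Subtype.ext (by simp [c])
  letI : MulAction G ((Q ⧸ A) × κ) :=
    { smul := fun g x => (p g • x.1, x.2)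
      one_smul := fun x => Prod.ext (by change p 1 • x.1 = _; rw [map_one, one_smul]) rfl
      mul_smul := fun g g' x =>
        Prod.ext (by change p (g * g') • x.1 = p g • p g' • x.1; rw [map_mul, mul_smul]) rfl }
  have hs : ∀ (g : G) (x : (Q ⧸ A) × κ), g⁻¹ • x = ((p g)⁻¹ • x.1, x.2) := fun g x => by
    rw [← map_inv]; rfl
  letI := Fintype.ofFinite (Q ⧸ A)
  refine h.act G ((Q ⧸ A) × κ) (fun g x => (a (c (p g) x.1) x.2).toAdd) (fun g g' x => ?_)
    fun d H hH => ?_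
  · rw [map_mul, hc, map_mul, hs]; rfl
  let F : Subgroup Q :=
    { carrier := {q | ∀ x k, d (q⁻¹ • x, k) + (a (c q x) k).toAdd = d (x, k)}
      one_mem' := fun x k => by simp [hc1]
      mul_mem' := fun {q r} hq hr x k => by
        rw [hc, map_mul, Pi.mul_apply, toAdd_mul, mul_inv_rev, mul_smul, ← hq x k,
          ← hr (q⁻¹ • x) k]
        ring
      inv_mem' := fun {q} hq x k => by
        have h1 := congrArg (fun z => (a z k).toAdd) (hc q⁻¹ q x)
        have h2 := hq (q⁻¹⁻¹ • x) k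
        simp only [inv_mul_cancel, hc1, map_one, map_mul, Pi.mul_apply, toAdd_mul, Pi.one_apply,
          toAdd_one] at h1
        rw [smul_inv_smul] at h2
        omega }
  obtain rfl : H = F.comap p := Subgroup.ext fun g => (hH g).trans
    ⟨fun h1 x k => hs g (x, k) ▸ h1 (x, k), fun h1 x => hs g x ▸ h1 x.1 x.2⟩
  refine hp F (Set.Finite.subset (Set.finite_iUnion fun y : Q ⧸ A =>
    (ha fun k => Multiplicative.ofAdd (d ((1 : Q), k) - d (y, k))).image
      fun z : A => ((1 : Q) : Q ⧸ A).out * z * y.out⁻¹) fun q hq => ?_)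
  refine Set.mem_iUnion.2 ⟨q⁻¹ • ((1 : Q) : Q ⧸ A), c q (1 : Q), funext fun k => ?_, ?_⟩
  · rw [← hq _ k, add_sub_cancel_left, ofAdd_toAdd]
  · simp only [c]; group

theorem v_ab (A : Subgroup Q) [A.FiniteIndex] (hA : ∀ x ∈ A, ∀ y ∈ A, x * y = y * x) :
    V W Q := by
  refine h.v_loc fun H hH => ?_
  haveI := (Group.fg_iff_subgroup_fg H).2 hH
  letI : CommGroup (A.subgroupOf H) :=
    { mul_comm := fun x y => Subtype.ext (Subtype.ext (hA _ x.2 _ y.2)) }
  obtain ⟨ι, κ, _, _, p, hp, e, ⟨f⟩⟩ :=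
    CommGroup.equiv_free_prod_prod_multiplicative_zmod (A.subgroupOf H)
  haveI : ∀ i, NeZero (p i ^ e i) := fun i => ⟨pow_ne_zero _ (hp i).ne_zero⟩
  refine h.v_act (A.subgroupOf H) ((MonoidHom.fst _ _).comp f.toMonoidHom) fun v => ?_
  refine (Set.finite_range fun t => f.symm (v, t)).subset fun c hc => ⟨(f c).2, ?_⟩
  rw [← show (f c).1 = v from hc]
  exact f.symm_apply_apply c

theorem p_loc (hQ : ∀ H : Subgroup Q, H.FG → P W H) : P W Q := by
  rintro Q' _ ⟨ι, _, L, h1, h2⟩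
  refine h.v_loc fun H hH => ?_
  haveI := (Group.fg_iff_subgroup_fg H).2 hH
  obtain ⟨t, ht, hf⟩ := (Subgroup.fg_iff _).1 ((Group.fg_iff_subgroup_fg
    ((L.map (MonoidHom.fst _ _)).subgroupOf H)).1 inferInstance)
  choose y hy using fun x : t => mem_fst.1 (Subgroup.mem_subgroupOf.1
    (ht ▸ Subgroup.subset_closure x.2 : x.1 ∈ (L.map (MonoidHom.fst _ _)).subgroupOf H))
  haveI := hf.to_subtype
  refine hQ (Subgroup.closure (Set.range fun z : t × ι => y z.1 z.2))
    ((Subgroup.fg_iff _).2 ⟨_, rfl, Set.finite_range _⟩) _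
    (rel_of h1 H.subtype Subtype.val_injective (Subgroup.subtype _)
      ((L.map (MonoidHom.fst _ _)).subgroupOf H) ?_)
  rw [← ht, Subgroup.closure_le]
  exact fun x hx => mem_fst.2 ⟨fun k => ⟨y ⟨x, hx⟩ k, Subgroup.subset_closure ⟨(_, k), rfl⟩⟩,
    hy ⟨x, hx⟩⟩

theorem p_ext (N : Subgroup Q) [hN : N.Normal] (hK : P W N) (hR : P W (Q ⧸ N)) : P W Q := by
  rintro Q' _ ⟨ι, _, L, h1, h2⟩
  let M : Subgroup Q' := (L.comap ((MonoidHom.id Q').prodMap (N.subtype.compLeft ι))).map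
    (MonoidHom.fst _ _)
  let B : Subgroup Q' := (L.map (MonoidHom.fst _ _)).normalCore
  have hB : ∀ x ∈ B, ∃ y, (x, y) ∈ L := fun x hx => mem_fst.1 (Subgroup.normalCore_le _ hx)
  refine h.v_trans (QuotientGroup.mk' M.normalCore) (hR _ ?_) fun F hF => hK _ ?_
  · let φ : Q' ⧸ B → Q' × ((Q' ⧸ B) × ι → Q) →* Q' × (ι → Q) := fun t =>
      (MulAut.conj t.out⁻¹).toMonoidHom.prodMap
        (MonoidHom.pi fun k => Pi.evalMonoidHom _ (t, k))
    let L₀ : Subgroup (Q' × ((Q' ⧸ B) × ι → Q)) := ⨅ t, L.comap (φ t)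
    refine ⟨(Q' ⧸ B) × ι, inferInstance, L₀.map ((QuotientGroup.mk' M.normalCore).prodMap
      ((QuotientGroup.mk' N).compLeft _)), ?_, ?_⟩
    · rintro _ ⟨⟨g, y⟩, h3, h4⟩
      obtain ⟨rfl, h5⟩ : QuotientGroup.mk' M.normalCore g = _ ∧
        (QuotientGroup.mk' N).compLeft _ y = 1 := Prod.mk.inj h4
      have h6 : ∀ j, y j ∈ N := fun j => (QuotientGroup.eq_one_iff _).1 (congrFun h5 j)
      refine (QuotientGroup.eq_one_iff _).2 fun b => ?_
      obtain ⟨u, hu⟩ := QuotientGroup.mk_out_eq_mul B b⁻¹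
      obtain ⟨z, hz⟩ := hB u u.2
      have h7 := L.mul_mem (L.mul_mem hz (Subgroup.mem_iInf.1 h3 (b⁻¹ : Q'))) (L.inv_mem hz)
      refine mem_fst.2 ⟨fun k => ⟨_, hN.conj_mem _ (h6 ((b⁻¹ : Q'), k)) (z k)⟩, ?_⟩
      have h8 : u.1 * (((b⁻¹ : Q') : Q' ⧸ B).out⁻¹ * g * ((b⁻¹ : Q') : Q' ⧸ B).out⁻¹⁻¹) * u.1⁻¹ =
          b * g * b⁻¹ := by
        rw [hu]
        group
      rw [← h8]
      exact h7
    · haveI : (B.map (QuotientGroup.mk' M.normalCore)).FiniteIndex :=
        ⟨ne_zero_of_dvd_ne_zero Subgroup.FiniteIndex.index_ne_zero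
          (Subgroup.index_map_dvd B (QuotientGroup.mk'_surjective _))⟩
      refine Subgroup.finiteIndex_of_le (H := B.map (QuotientGroup.mk' M.normalCore)) ?_
      rintro _ ⟨g, hg, rfl⟩
      choose y hy using fun t : Q' ⧸ B =>
        hB _ ((Subgroup.normalCore_normal _).conj_mem g hg t.out⁻¹)
      exact mem_fst.2 ⟨_, (g, fun j => y j.1 j.2), Subgroup.mem_iInf.2 hy, rfl⟩
  · refine rel_of h1 (Subgroup.subtype _) Subtype.val_injective N.subtype
      (((QuotientGroup.mk' M.normalCore).comp (Subgroup.subtype _)).codRestrict F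
        fun x => x.2).ker fun x hx => ?_
    obtain ⟨y, hy⟩ := mem_fst.1 (M.normalCore_le
      ((QuotientGroup.eq_one_iff x.1).1 (congrArg Subtype.val hx)))
    exact mem_fst.2 ⟨y, hy⟩

theorem p_of_EA (hQ : EA Q) : P W Q := by
  induction hQ with
  | fin G => exact fun Q' _ hr => haveI := hr.finite; h.v_fin
  | ab G hG =>
    rintro Q' _ ⟨ι, _, L, h1, h2⟩
    refine h.v_ab (L.map (MonoidHom.fst _ _)) fun x hx x' hx' => ?_
    obtain ⟨y, hy⟩ := mem_fst.1 hx
    obtain ⟨y', hy'⟩ := mem_fst.1 hx'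
    refine mul_inv_eq_one.1 (h1 _ ?_)
    have h3 : y * y' * (y' * y)⁻¹ = 1 := mul_inv_eq_one.2 (funext fun k => hG _ _)
    exact h3 ▸ L.mul_mem (L.mul_mem hy hy') (L.inv_mem (L.mul_mem hy' hy))
  | sub f hf _ ih => exact fun Q' _ hr => ih Q' (hr.sub f hf)
  | quot f hf _ ih => exact fun Q' _ hr => ih Q' (hr.quot f hf)
  | ext N _ _ ih ih' => exact h.p_ext N ih ih'
  | loc _ ih => exact h.p_loc ih

/-- Extensions with elementary amenable quotient. -/
theorem of_EA (hQ : EA Q) {G : Type} [Group G] (p : G →* Q)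
    (hp : ∀ F : Subgroup Q, Finite F → W (F.comap p)) : W G :=
  h.p_of_EA hQ Q rel_refl G p hp

/-- Elementary amenable groups whose finite subgroups lie in the class. -/
theorem of_finite (hQ : EA Q) (hp : ∀ F : Subgroup Q, Finite F → W F) : W Q :=
  h.of_EA hQ (MonoidHom.id Q) fun F hF => hp F hF

/-- Torsion-free elementary amenable groups. -/
theorem of_torsionFree (h1 : W PUnit) (hQ : EA Q) (ht : ∀ g : Q, IsOfFinOrder g → g = 1) : W Q :=
  h.of_finite hQ fun F _ => h.sub PUnit F 1 (fun x y _ => by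
    have h2 : ∀ z : F, z = 1 := fun z => Subtype.ext
      (ht _ (F.subtype.isOfFinOrder (isOfFinOrder_of_finite z)))
    rw [h2 x, h2 y]) h1

end Cl

end Pool.Agent.Lib.NIL.EAG
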