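import Pool.Agent.Lib.MP_63c928_gt.WH.Defs

/-! Definitions used in the statements of the vanishing theorems. -/

namespace Pool.Agent.NilV

open CategoryTheory

/-- Finite cohomological dimension: the trivial `ℤG`-module `ℤ` has finite projective dimension. -/
def FinCd (G : Type) [Group G] : Prop :=
  ∃ n : ℕ, HasProjectiveDimensionLE (Rep.trivial ℤ G ℤ) n

/-- Elementary amenable groups: generated by the finite and the abelian groups under subgroups,
quotients, extensions and directed unions. -/
inductive ElemAmenable : (G : Type) → [Group G] → Prop
  | finite (G : Type) [Group G] : Finite G → ElemAmenable G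
  | abelian (G : Type) [Group G] : (∀ a b : G, a * b = b * a) → ElemAmenable G
  | sub (G H : Type) [Group G] [Group H] (f : H →* G) :
      Function.Injective f → ElemAmenable G → ElemAmenable H
  | quot (G H : Type) [Group G] [Group H] (f : G →* H) :
      Function.Surjective f → ElemAmenable G → ElemAmenable H
  | ext (G : Type) [Group G] (N : Subgroup G) [N.Normal] :
      ElemAmenable N → ElemAmenable (G ⧸ N) → ElemAmenable G
  | union (G : Type) [Group G] : (∀ H : Subgroup G, H.FG → ElemAmenable H) → ElemAmenable G

/-- `G` acts on the tree `T` by graph automorphisms and inverts no edge. -/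
structure TreeAction (G V : Type) [Group G] [MulAction G V] (T : SimpleGraph V) : Prop where
  isTree : T.IsTree
  adj : ∀ (g : G) (u v : V), T.Adj u v → T.Adj (g • u) (g • v)
  noInversion : ∀ (g : G) (u v : V), T.Adj u v → g • u = v → g • v ≠ u

/-- The class generated by the groups satisfying `S` under unions, actions on trees and
extensions with elementary amenable quotient. -/
inductive Generated (S : ∀ (G : Type) [Group G], Prop) : (G : Type) → [Group G] → Prop
  | seed (G : Type) [Group G] : S G → Generated S G
  | union (G : Type) [Group G] (H : Finset G → Subgroup G) :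
      (∀ s, ∀ g ∈ s, g ∈ H s) → (∀ s, Generated S (H s)) → Generated S G
  | tree (G V : Type) [Group G] [MulAction G V] (T : SimpleGraph V) : TreeAction G V T →
      (∀ v : V, Generated S (MulAction.stabilizer G v)) → Generated S G
  | ext (G Q : Type) [Group G] [Group Q] (p : G →* Q) : ElemAmenable Q →
      (∀ F : Subgroup Q, Finite F → Generated S (F.comap p)) → Generated S G

/-- `T` is the tensor ring over `R` of a bimodule that is free as a left module on the `x l`:
the words in the `x l` form a left basis of `T`, and their left span is closed under right
multiplication by `R`. -/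
structure IsTensorRing {R T Λ : Type} [Ring R] [Ring T] (i : R →+* T) (x : Λ → T) : Prop where
  basis : Function.Bijective fun a : List Λ →₀ R => a.sum fun w r => i r * (w.map x).prod
  comm : ∀ l r, ∃ a : Λ →₀ R, x l * i r = a.sum fun m r' => i r' * x m

/-- `Wh (G × ℤ ^ n) = 0` for all `n`. -/
def KFlat (G : Type) [Group G] : Prop :=
  ∀ n : ℕ, Subsingleton (WhDet.Wh (G × Multiplicative (Fin n → ℤ)))

/-- Trivial groups, and groups of finite cohomological dimension with `K`-flat subgroups. -/
def FlatSeed (G : Type) [Group G] : Prop :=
  Subsingleton G ∨ FinCd G ∧ ∀ H : Subgroup G, KFlat H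

end Pool.Agent.NilV
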