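import Pool.Agent.Lib.NIL.Blue2
import Pool.Agent.Lib.NIL.B_NCL
import Pool.Agent.Lib.NIL.EAG
import Pool.Agent.Lib.NIL.CdSub
import Pool.Agent.Lib.NIL.Stmt

/-! Assembly of the two vanishing theorems from the blocks. -/

namespace Pool.Agent.Lib.NIL

open NilV

theorem gfam_unit (G : Type) [Group G] :
    gfam G Unit = fun _ _ : Unit => (⊤ : AddSubgroup (MonoidAlgebra ℤ G)) := by
  funext o o'
  exact eq_top_iff.2 fun a _ g _ => rfl

theorem st_h1 (hI : St_IND) (hK : St_KC) (hT : St_TEN) : St_H1 := by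
  intro G T Λ _ _ i x hG ht
  obtain ⟨S, K, rfl, h1, h2, h3, h4⟩ := hT _ T Λ i x ht
  have hg : GoodO G Unit := hI G Unit fun o => hG.subgroup _
  refine hK _ T _ S K (MonoidAlgebra.lift ℤ ℤ G 1).toRingHom h1 h2 h3 h4 ?_
  rw [← gfam_unit]
  exact hg ℤ

theorem ea_of_elemAmenable {G : Type} [Group G] (h : ElemAmenable G) : EAG.EA G := by
  induction h with
  | finite G h => exact .fin G
  | abelian G h => exact .ab G h
  | sub G H f hf _ ih => exact .sub f hf ih
  | quot G H f hf _ ih => exact .quot f hf ih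
  | ext G N _ _ ih ih' => exact .ext N ih ih'
  | union G _ ih => exact .loc ih

theorem cl_nilCl : EAG.Cl fun G _ => NilCl G where
  sub G H _ _ f hf h := h.of_injective H f hf
  un G _ h := by
    choose H h1 h2 using h
    exact .union G H (fun s g hg => h1 s hg) h2
  act G ι _ _ _ a ha h := .act G ι a ha h

theorem nilCl_of_generated {S : ∀ (G : Type) [Group G], Prop}
    (hS : ∀ (G : Type) [Group G], S G → NilCl G) {G : Type} [Group G] (h : Generated S G) :
    NilCl G := by
  induction h with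
  | seed G h => exact hS G h
  | union G H h _ ih => exact .union G H h ih
  | tree G V T h _ ih => exact .tree G V T h.isTree h.adj h.noInversion ih
  | ext G Q p h _ ih => exact cl_nilCl.of_EA (ea_of_elemAmenable h) p ih

theorem nilCl_of_finCd {G : Type} [Group G] (h : FinCd G) : NilCl G :=
  h.elim fun n hn => .fin G n hn

theorem nil_vanishing (h : St_H1) (G : Type) [Group G] (hG : Generated (fun G _ => FinCd G) G)
    (T Λ : Type) [Ring T] (i : MonoidAlgebra ℤ G →+* T) (x : Λ → T)
    (hT : NilV.IsTensorRing i x) : Function.Bijective (WhDet.K1.map i) :=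
  h G T Λ i x (nilCl_of_generated (fun _ _ => nilCl_of_finCd) hG) ⟨hT.basis, hT.comm⟩

theorem nilLike (hI : St_IND) : NilLike fun G _ => NilCl G where
  inj G H _ _ f hf h := h.of_injective H f hf
  prod G _ n h := h.prod_pi n
  good := hI

/-- closure of `KF` under affine permutation actions -/
def St_WA : Prop :=
  ∀ (G ι : Type) [Group G] [Fintype ι] [MulAction G ι] (a : G → ι → ℤ),
    (∀ g h i, a (g * h) i = a g i + a h (g⁻¹ • i)) →
    (∀ (d : ι → ℤ) (H : Subgroup G), (∀ g, g ∈ H ↔ ∀ i, d (g⁻¹ • i) + a g i = d i) →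
      NilCl H ∧ KF H) → KF G

theorem KF.of_injective {G H : Type} [Group G] [Group H] (h : KF G) (f : H →* G)
    (hf : Function.Injective f) : KF H := fun K _ f' hf' => h K (f.comp f') (hf.comp hf')

theorem cl_kf (hU : St_WU) (hA : St_WA) : EAG.Cl fun G _ => NilCl G ∧ KF G where
  sub G H _ _ f hf h := ⟨h.1.of_injective H f hf, h.2.of_injective f hf⟩
  un G _ h := ⟨cl_nilCl.un G fun s => (h s).imp fun _ hH => ⟨hH.1, hH.2.1⟩,
    hU G fun s => (h s).imp fun _ hH => ⟨fun _ hg => hH.1 hg, hH.2.2⟩⟩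
  act G ι _ _ _ a ha h := ⟨.act G ι a ha fun d H hH => (h d H hH).1, hA G ι a ha h⟩

theorem kf_of_subgroups {G : Type} [Group G] (h : ∀ H : Subgroup G, NilV.KFlat H) : KF G := by
  intro H _ f hf n
  have := h f.range n
  exact wh_of_equiv ((MonoidHom.ofInjective hf).symm.prodCongr (MulEquiv.refl _))

theorem wh_vanishing (hI : St_IND) (hT : St_WT) (hU : St_WU) (h1 : St_W1) (hA : St_WA) (G : Type)
    [Group G] (hG : Generated (fun G _ => FlatSeed G) G) : NilV.KFlat G := by
  suffices h : NilCl G ∧ KF G from h.2 G (MonoidHom.id G) fun _ _ h => h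
  induction hG with
  | seed G h =>
    rcases h with h | h
    · exact ⟨.fin G 0 (cdLE_of_subsingleton G),
        h1 _ (nilLike hI) (.fin _ 0 (cdLE_of_subsingleton _)) G⟩
    · exact ⟨nilCl_of_finCd h.1, kf_of_subgroups h.2⟩
  | union G H h _ ih => exact (cl_kf hU hA).un G fun s => ⟨H s, fun g hg => h s g hg, ih s⟩
  | tree G V T h _ ih =>
    exact ⟨.tree G V T h.isTree h.adj h.noInversion fun v => (ih v).1,
      hT _ (nilLike hI) G V T h.isTree h.adj h.noInversion (fun v => (ih v).1) fun v => (ih v).2⟩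
  | ext G Q p h _ ih => exact (cl_kf hU hA).of_EA (ea_of_elemAmenable h) p ih

end Pool.Agent.Lib.NIL
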