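import Pool.Agent.Lib.NIL.FinalN
import Pool.Agent.Lib.NIL.B_FAR
import Pool.Agent.Lib.NIL.B_ORBQ
import Pool.Agent.Lib.NIL.B_QB
import Pool.Agent.Lib.NIL.B_SF
import Pool.Agent.Lib.NIL.B_TFIN
import Pool.Agent.Lib.NIL.B_TH
import Pool.Agent.Lib.NIL.B_TK0
import Pool.Agent.Lib.NIL.B_TK1
import Pool.Agent.Lib.NIL.B_TS
import Pool.Agent.Lib.NIL.B_W1
import Pool.Agent.Lib.NIL.B_WT
import Pool.Agent.Lib.NIL.EA.Final

/-! The vanishing theorem for Whitehead groups. -/

namespace Pool.Agent.Lib.NIL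

theorem ind_holds : St_IND := st_ind core_holds step_holds st_tree uref_holds

theorem tk0_holds : St_TK0 :=
  st_tk0 st_ts (st_TH st_far st_simp) (st_tfin st_simp) (st_key st_simp)

theorem tk1_holds : St_TK1 :=
  st_tk1 st_simp (st_key0 st_simp) st_ts (st_TH st_far st_simp) (st_tfin st_simp)

theorem wt_holds : St_WT := st_wt tk1_holds st_orbq (st_qb st_sf)

theorem w1_holds : St_W1 := st_w1 tk0_holds tk1_holds st_orbq (st_qb st_sf)

theorem final_wh (G : Type) [Group G] (hG : NilV.Generated (fun H _ => NilV.FlatSeed H) G) :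
    NilV.KFlat G :=
  wh_vanishing ind_holds wt_holds st_wu w1_holds (EA.wa ind_holds st_orbq (st_qb st_sf)) G hG

end Pool.Agent.Lib.NIL
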