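import Pool.Agent.Lib.NIL.Defs

/-! A1: the calculus of maps and homotopies. -/

set_option linter.unusedSectionVars false

namespace Pool.Agent.Lib.NIL

open Finsupp

variable {E L : Type} [Ring E] {C : Cat E L} {U V W X : Raw E L}

theorem Raw.tw_apply (V : Raw E L) (φ : E →+ E) (v : V.ι →₀ E) (i : V.ι) :
    V.tw φ v i = (V.deg i).negOnePow • φ (v i) := by
  induction v using Finsupp.induction_linear with
  | zero => simp
  | add a b ha hb => simp only [map_add, Finsupp.add_apply, ha, hb, smul_add]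
  | single j e =>
    have : V.tw φ (single j e) = single j ((V.deg j).negOnePow • φ e) := by
      rw [Raw.tw, liftAddHom_apply_single]; rfl
    rw [this]
    by_cases h : i = j
    · subst h; simp
    · simp [single_eq_of_ne h]

theorem Raw.tw_single (V : Raw E L) (φ : E →+ E) (i : V.ι) (e : E) :
    V.tw φ (single i e) = single i ((V.deg i).negOnePow • φ e) := by
  rw [Raw.tw, liftAddHom_apply_single]; rfl

theorem scal_single {ι : Type} (z e : E) (i : ι) : scal ι z (single i e) = single i (e * z) := by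
  simp [scal]

theorem scal_apply {ι : Type} (z : E) (v : ι →₀ E) (i : ι) : scal ι z v i = v i * z := by
  induction v using Finsupp.induction_linear with
  | zero => simp
  | add a b ha hb => simp only [map_add, Finsupp.add_apply, ha, hb, add_mul]
  | single j e =>
    rw [scal_single]
    by_cases h : i = j
    · subst h; simp
    · simp [single_eq_of_ne h]

theorem scal_one (ι : Type) : scal ι (1 : E) = LinearMap.id := by
  ext1 i; ext1; simp [scal_single]

theorem scal_mul (ι : Type) (z z' : E) : scal ι (z * z') = scal ι z' ∘ₗ scal ι z := by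
  ext1 i; ext1; simp [scal_single]

theorem scal_add (ι : Type) (z z' : E) : scal ι (z + z') = scal ι z + scal ι z' := by
  ext1 i; ext1; simp [scal_single]

theorem scal_eq_smul {ι : Type} {z : E} (hz : ∀ a, z * a = a * z) (v : ι →₀ E) :
    scal ι z v = z • v := by
  ext i; rw [scal_apply, Finsupp.smul_apply, smul_eq_mul, hz]

theorem scal_comm {ι κ : Type} {z : E} (hz : ∀ a, z * a = a * z) (f : (ι →₀ E) →ₗ[E] (κ →₀ E)) :
    f ∘ₗ scal ι z = scal κ z ∘ₗ f :=
  LinearMap.ext fun v => by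
    rw [LinearMap.comp_apply, LinearMap.comp_apply, scal_eq_smul hz, scal_eq_smul hz, map_smul]

namespace Cat

theorem D_apply (v : V.ι →₀ E) : C.D V v = V.δ v + V.tw C.d v := rfl

theorem mem_M {k : ℤ} {o : L} {v : V.ι →₀ E} :
    v ∈ C.M V k o ↔ ∀ i, v i ∈ C.H (k - V.deg i) o (V.lab i) := Iff.rfl

theorem single_mem_M {k : ℤ} {o : L} {i : V.ι} {e : E} (h : e ∈ C.H (k - V.deg i) o (V.lab i)) :
    single i e ∈ C.M V k o := fun j => by
  by_cases e : j = i
  · subst e; rwa [single_eq_same]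
  · rw [single_eq_of_ne e]; exact zero_mem _

theorem Hom.zero (k : ℤ) : C.Hom k V W 0 := fun _ => zero_mem _

theorem Hom.add {k : ℤ} {f g : Lin V W} (hf : C.Hom k V W f) (hg : C.Hom k V W g) :
    C.Hom k V W (f + g) := fun i => add_mem (hf i) (hg i)

theorem Hom.neg {k : ℤ} {f : Lin V W} (hf : C.Hom k V W f) : C.Hom k V W (-f) := fun i => neg_mem (hf i)

theorem Hom.sub {k : ℤ} {f g : Lin V W} (hf : C.Hom k V W f) (hg : C.Hom k V W g) :
    C.Hom k V W (f - g) := fun i => sub_mem (hf i) (hg i)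

theorem Hom.units_smul {k : ℤ} {f : Lin V W} (hf : C.Hom k V W f) (s : ℤˣ) :
    C.Hom k V W (s • f) := by
  rcases Int.units_eq_one_or s with rfl | rfl
  · rwa [one_smul]
  · rw [Units.neg_smul, one_smul]; exact hf.neg

theorem Ch.br {f : Lin V W} (hf : C.Ch V W f) : C.Br 0 V W f 0 := fun v => by simp [hf.2 v]

theorem ch_of_br {f : Lin V W} (hf : C.Hom 0 V W f) (h : C.Br 0 V W f 0) : C.Ch V W f :=
  ⟨hf, fun v => by simpa using h v⟩

theorem ht_iff_br {f g : Lin V W} :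
    C.Ht V W f g ↔ ∃ h, C.Hom (-1) V W h ∧ C.Br (-1) V W h (f - g) := by
  refine exists_congr fun h => and_congr_right fun _ => forall_congr' fun v => ?_
  rw [Int.negOnePow_neg, Int.negOnePow_one, Units.neg_smul, one_smul, LinearMap.sub_apply,
    eq_neg_add_iff_add_eq, add_comm, eq_comm]

theorem Ch.zero : C.Ch V W 0 := ⟨Hom.zero 0, fun _ => by simp⟩

theorem Ch.add {f g : Lin V W} (hf : C.Ch V W f) (hg : C.Ch V W g) : C.Ch V W (f + g) :=
  ⟨hf.1.add hg.1, fun v => by simp [hf.2 v, hg.2 v]⟩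

theorem Ch.neg {f : Lin V W} (hf : C.Ch V W f) : C.Ch V W (-f) := ⟨hf.1.neg, fun v => by simp [hf.2 v]⟩

theorem Ch.sub {f g : Lin V W} (hf : C.Ch V W f) (hg : C.Ch V W g) : C.Ch V W (f - g) :=
  ⟨hf.1.sub hg.1, fun v => by simp [hf.2 v, hg.2 v]⟩

theorem At.zero : C.At V W 0 := ⟨Hom.zero 1, fun _ => by simp⟩

theorem At.neg {f : Lin V W} (hf : C.At V W f) : C.At V W (-f) := ⟨hf.1.neg, fun v => by simp [hf.2 v]⟩

theorem Ht.refl (f : Lin V W) : C.Ht V W f f := ⟨0, Hom.zero _, fun _ => by simp⟩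

theorem Ht.symm {f g : Lin V W} (h : C.Ht V W f g) : C.Ht V W g f := by
  obtain ⟨k, h1, h2⟩ := h
  exact ⟨-k, h1.neg, fun v => by
    rw [LinearMap.neg_apply, LinearMap.neg_apply, map_neg, ← neg_add, ← h2, neg_sub]⟩

theorem Ht.trans {f g e : Lin V W} (h : C.Ht V W f g) (h' : C.Ht V W g e) : C.Ht V W f e := by
  obtain ⟨k, h1, h2⟩ := h
  obtain ⟨k', h3, h4⟩ := h'
  exact ⟨k + k', h1.add h3, fun v => by
    rw [LinearMap.add_apply, LinearMap.add_apply, map_add, add_add_add_comm, ← h2, ← h4,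
      sub_add_sub_cancel]⟩

theorem Ht.add {f g f' g' : Lin V W} (h : C.Ht V W f g) (h' : C.Ht V W f' g') :
    C.Ht V W (f + f') (g + g') := by
  obtain ⟨k, h1, h2⟩ := h
  obtain ⟨k', h3, h4⟩ := h'
  exact ⟨k + k', h1.add h3, fun v => by
    rw [LinearMap.add_apply k, LinearMap.add_apply k, map_add, add_add_add_comm, ← h2, ← h4,
      LinearMap.add_apply, LinearMap.add_apply, add_sub_add_comm]⟩

theorem Ht.neg {f g : Lin V W} (h : C.Ht V W f g) : C.Ht V W (-f) (-g) := by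
  obtain ⟨k, h1, h2⟩ := h
  exact ⟨-k, h1.neg, fun v => by
    rw [LinearMap.neg_apply k, LinearMap.neg_apply k, map_neg, ← neg_add, ← h2,
      LinearMap.neg_apply, LinearMap.neg_apply, neg_sub_neg, neg_sub]⟩

theorem ht_sub_iff {f g : Lin V W} : C.Ht V W (f - g) 0 ↔ C.Ht V W f g := by
  simp only [Ht, LinearMap.sub_apply, LinearMap.zero_apply, sub_zero]

theorem nul_one : C.Nul 1 V ↔ C.Ctr V := by rw [Nul, scal_one, Ctr]

theorem Eqv.symm (h : C.Eqv V W) : C.Eqv W V := by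
  obtain ⟨f, hf, g, hg, h1, h2⟩ := h
  exact ⟨g, hg, f, hf, h2, h1⟩

theorem Eqv.retr (h : C.Eqv V W) : C.Retr V W := by
  obtain ⟨f, hf, g, hg, h1, -⟩ := h
  exact ⟨f, g, hf, hg, h1⟩

theorem InO.perf (h : C.InO V) : C.Perf V := by
  obtain ⟨W, h1, h2, h3⟩ := h
  exact ⟨W, h1, h2, h3.retr⟩

namespace Good

variable (hC : C.Good)
include hC

theorem d_one : C.d 1 = 0 := by
  have := hC.dg.leib 1 1
  rw [one_mul, one_mul, hC.dg.σ_one, mul_one] at this
  exact left_eq_add.1 this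

theorem D_single (i : V.ι) : C.D V (single i 1) = V.δ (single i 1) := by
  rw [D_apply, Raw.tw_single, hC.d_one, smul_zero, single_zero, add_zero]

theorem D_smul (e : E) (v : V.ι →₀ E) : C.D V (e • v) = e • C.D V v + C.d e • C.sg V v := by
  rw [D_apply, D_apply, map_smul, smul_add, add_assoc]
  congr 1
  ext i
  simp only [sg, Raw.tw_apply, Finsupp.add_apply, Finsupp.smul_apply, smul_eq_mul, hC.dg.leib,
    smul_add, mul_smul_comm]

theorem sg_smul (e : E) (v : V.ι →₀ E) : C.sg V (e • v) = C.σ e • C.sg V v := by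
  ext i
  simp only [sg, Raw.tw_apply, Finsupp.smul_apply, smul_eq_mul, hC.dg.σ_mul, mul_smul_comm]

theorem sg_single (i : V.ι) : C.sg V (single i 1) = (V.deg i).negOnePow • single i 1 := by
  rw [sg, Raw.tw_single, hC.dg.σ_one, smul_single]

theorem sg_sg (v : V.ι →₀ E) : C.sg V (C.sg V v) = v := by
  ext i
  simp only [sg, Raw.tw_apply, Units.smul_def, map_zsmul, hC.dg.σσ, smul_smul]
  rw [← Units.val_mul, Int.units_mul_self, Units.val_one, one_smul]

theorem sg_of_mem {k : ℤ} {o : L} {v : V.ι →₀ E} (h : v ∈ C.M V k o) :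
    C.sg V v = k.negOnePow • v := by
  ext i
  rw [sg, Raw.tw_apply, hC.σ_eq (h i), smul_smul, ← Int.negOnePow_add, add_sub_cancel,
    Finsupp.smul_apply]

theorem basis_mem (i : V.ι) : single i 1 ∈ C.M V (V.deg i) (V.lab i) :=
  single_mem_M (by rw [sub_self]; exact hC.one_mem _)

theorem smul_mem {k k' : ℤ} {o o' : L} {e : E} {v : V.ι →₀ E} (he : e ∈ C.H k o o')
    (hv : v ∈ C.M V k' o') : e • v ∈ C.M V (k + k') o := fun i => by
  rw [Finsupp.smul_apply, smul_eq_mul, add_sub_assoc]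
  exact hC.mul_mem he (hv i)

theorem map_mem {k m : ℤ} {o : L} {f : Lin V W} (hf : C.Hom k V W f) {v : V.ι →₀ E}
    (hv : v ∈ C.M V m o) : f v ∈ C.M W (m + k) o := by
  rw [← v.sum_single, Finsupp.sum, map_sum]
  refine sum_mem fun i _ => ?_
  rw [← smul_single_one, map_smul]
  have := hC.smul_mem (hv i) (hf i)
  rwa [← add_assoc, sub_add_cancel] at this

theorem D_mem (hV : C.Hom 1 V V V.δ) {m : ℤ} {o : L} {v : V.ι →₀ E} (hv : v ∈ C.M V m o) :
    C.D V v ∈ C.M V (m + 1) o := by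
  refine add_mem (hC.map_mem hV hv) fun i => ?_
  rw [Raw.tw_apply, Units.smul_def, add_sub_right_comm]
  exact zsmul_mem (hC.d_mem (hv i)) _

theorem sg_map {k : ℤ} {f : Lin V W} (hf : C.Hom k V W f) (v : V.ι →₀ E) :
    C.sg W (f v) = k.negOnePow • f (C.sg V v) := by
  induction v using Finsupp.induction_linear with
  | zero => simp
  | add a b ha hb => simp only [map_add, ha, hb, smul_add]
  | single i e =>
    rw [← smul_single_one, map_smul, hC.sg_smul, hC.sg_smul, map_smul, hC.sg_of_mem (hf i),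
      hC.sg_single, Int.negOnePow_add, mul_comm, mul_smul]
    simp only [Units.smul_def, map_zsmul, smul_comm (C.σ e)]

theorem D_sg (hV : C.Hom 1 V V V.δ) (v : V.ι →₀ E) : C.D V (C.sg V v) = -C.sg V (C.D V v) := by
  rw [D_apply, D_apply, map_add, neg_add, hC.sg_map hV, Int.negOnePow_one, Units.neg_smul,
    one_smul, neg_neg]
  congr 1
  ext i
  simp only [sg, Raw.tw_apply, Finsupp.neg_apply, Units.smul_def, map_zsmul, hC.dg.dσ, smul_neg]

theorem hom_id : C.Hom 0 V V LinearMap.id := fun i => by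
  rw [add_zero]; exact hC.basis_mem i

theorem hom_comp {k k' n : ℤ} {f : Lin U V} {g : Lin V W} (hf : C.Hom k U V f)
    (hg : C.Hom k' V W g) (hn : k + k' = n) : C.Hom n U W (g ∘ₗ f) := fun i => by
  rw [← hn, ← add_assoc]
  exact hC.map_mem hg (hf i)

theorem br_of_basis {k : ℤ} {f g : Lin V W} (hf : C.Hom k V W f)
    (h : ∀ i, C.D W (f (single i 1)) = k.negOnePow • f (V.δ (single i 1)) + g (single i 1)) :
    C.Br k V W f g := by
  intro v
  induction v using Finsupp.induction_linear with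
  | zero => simp
  | add a b ha hb => simp only [map_add, ha, hb, smul_add, add_add_add_comm]
  | single i e =>
    rw [← smul_single_one, map_smul, hC.D_smul, hC.D_smul, h, hC.sg_map hf, hC.D_single, map_add,
      map_smul, map_smul, map_smul]
    simp only [Units.smul_def, smul_add, smul_comm (k.negOnePow : ℤ)]
    abel

theorem ch_of_basis {f : Lin V W} (hf : C.Hom 0 V W f)
    (h : ∀ i, C.D W (f (single i 1)) = f (V.δ (single i 1))) : C.Ch V W f :=
  ch_of_br hf (hC.br_of_basis hf fun i => by simpa using h i)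

theorem at_of_basis {f : Lin V W} (hf : C.Hom 1 V W f)
    (h : ∀ i, C.D W (f (single i 1)) = -f (V.δ (single i 1))) : C.At V W f :=
  ⟨hf, fun v => by
    simpa using hC.br_of_basis (g := 0) hf (fun i => by simpa using h i) v⟩

theorem ht_of_basis {f g h : Lin V W} (hh : C.Hom (-1) V W h) (e : ∀ i, f (single i 1) -
    g (single i 1) = C.D W (h (single i 1)) + h (V.δ (single i 1))) : C.Ht V W f g :=
  ht_iff_br.2 ⟨h, hh, hC.br_of_basis hh fun i => by
    rw [LinearMap.sub_apply, e]; simp⟩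

theorem obj_of_basis (hV : C.Hom 1 V V V.δ) (h : ∀ i, C.D V (V.δ (single i 1)) = 0) :
    C.Obj V := by
  refine ⟨hV, fun v => ?_⟩
  induction v using Finsupp.induction_linear with
  | zero => simp
  | add a b ha hb => simp only [map_add, ha, hb, add_zero]
  | single i e =>
    rw [← smul_single_one, hC.D_smul, map_add, hC.D_smul, hC.D_smul, hC.D_single, h, hC.dg.dd,
      hC.D_sg hV, hC.D_single]
    simp

theorem exists_br {k : ℤ} {f : Lin V W} (hV : C.Hom 1 V V V.δ) (hW : C.Hom 1 W W W.δ)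
    (hf : C.Hom k V W f) : ∃ g, C.Hom (k + 1) V W g ∧ C.Br k V W f g := by
  refine ⟨lc fun i => C.D W (f (single i 1)) - k.negOnePow • f (V.δ (single i 1)), fun i => ?_,
    hC.br_of_basis hf fun i => by simp⟩
  rw [linearCombination_single, one_smul, ← add_assoc, Units.smul_def]
  refine sub_mem (hC.D_mem hW (hf i)) (zsmul_mem ?_ _)
  rw [add_right_comm]
  exact hC.map_mem hf (hV i)

theorem ch_id : C.Ch V V LinearMap.id := ⟨hC.hom_id, fun _ => rfl⟩

theorem ch_comp {f : Lin U V} {g : Lin V W} (hf : C.Ch U V f) (hg : C.Ch V W g) :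
    C.Ch U W (g ∘ₗ f) :=
  ⟨hC.hom_comp hf.1 hg.1 rfl, fun v => by simp only [LinearMap.comp_apply, hg.2, hf.2]⟩

theorem at_comp_left {f : Lin U V} {g : Lin V W} (hf : C.Ch U V f) (hg : C.At V W g) :
    C.At U W (g ∘ₗ f) :=
  ⟨hC.hom_comp hf.1 hg.1 rfl, fun v => by simp only [LinearMap.comp_apply, hg.2, hf.2]⟩

theorem at_comp_right {f : Lin U V} {g : Lin V W} (hf : C.At U V f) (hg : C.Ch V W g) :
    C.At U W (g ∘ₗ f) :=
  ⟨hC.hom_comp hf.1 hg.1 rfl, fun v => by simp only [LinearMap.comp_apply, hg.2, hf.2, map_neg]⟩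

theorem ht_comp_left {f : Lin U V} {g g' : Lin V W} (hf : C.Ch U V f) (h : C.Ht V W g g') :
    C.Ht U W (g ∘ₗ f) (g' ∘ₗ f) := by
  obtain ⟨k, h1, h2⟩ := h
  exact ⟨k ∘ₗ f, hC.hom_comp hf.1 h1 rfl, fun v => by
    simp only [LinearMap.comp_apply, h2, hf.2]⟩

theorem ht_comp_right {f f' : Lin U V} {g : Lin V W} (h : C.Ht U V f f') (hg : C.Ch V W g) :
    C.Ht U W (g ∘ₗ f) (g ∘ₗ f') := by
  obtain ⟨k, h1, h2⟩ := h
  exact ⟨g ∘ₗ k, hC.hom_comp h1 hg.1 rfl, fun v => by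
    simp only [LinearMap.comp_apply, hg.2, ← map_sub, h2, map_add]⟩

theorem isEqv_id : C.IsEqv V V LinearMap.id :=
  ⟨hC.ch_id, LinearMap.id, hC.ch_id, Ht.refl _, Ht.refl _⟩

theorem isEqv_comp {f : Lin U V} {g : Lin V W} (hf : C.IsEqv U V f) (hg : C.IsEqv V W g) :
    C.IsEqv U W (g ∘ₗ f) := by
  obtain ⟨f1, f', f2, f3, f4⟩ := hf
  obtain ⟨g1, g', g2, g3, g4⟩ := hg
  exact ⟨hC.ch_comp f1 g1, f' ∘ₗ g', hC.ch_comp g2 f2,
    (hC.ht_comp_right (hC.ht_comp_left f1 g3) f2).trans f3,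
    (hC.ht_comp_right (hC.ht_comp_left g2 f4) g1).trans g4⟩

theorem isEqv_of_ht {f g : Lin V W} (hf : C.IsEqv V W f) (hg : C.Ch V W g) (h : C.Ht V W f g) :
    C.IsEqv V W g := by
  obtain ⟨-, f', f2, f3, f4⟩ := hf
  exact ⟨hg, f', f2, (hC.ht_comp_right h.symm f2).trans f3, (hC.ht_comp_left f2 h.symm).trans f4⟩

/-- a bijective chain map whose inverse lies in the family -/
theorem isEqv_of_inv {f : Lin V W} {g : Lin W V} (hf : C.Ch V W f) (hg : C.Hom 0 W V g)
    (h1 : g ∘ₗ f = LinearMap.id) (h2 : f ∘ₗ g = LinearMap.id) : C.IsEqv V W f ∧ C.Ch W V g := by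
  have e1 : ∀ v, g (f v) = v := fun v => LinearMap.congr_fun h1 v
  have e2 : ∀ v, f (g v) = v := fun v => LinearMap.congr_fun h2 v
  have hg' : C.Ch W V g := ⟨hg, fun v => by rw [← e1 (C.D V (g v)), ← hf.2, e2]⟩
  exact ⟨⟨hf, g, hg', h1 ▸ Ht.refl _, h2 ▸ Ht.refl _⟩, hg'⟩

theorem eqv_refl : C.Eqv V V := ⟨_, hC.isEqv_id⟩

theorem eqv_trans (h : C.Eqv U V) (h' : C.Eqv V W) : C.Eqv U W := by
  obtain ⟨f, hf⟩ := h
  obtain ⟨g, hg⟩ := h'
  exact ⟨_, hC.isEqv_comp hf hg⟩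

theorem retr_trans (h : C.Retr U V) (h' : C.Retr V W) : C.Retr U W := by
  obtain ⟨i, r, h1, h2, h3⟩ := h
  obtain ⟨i', r', h4, h5, h6⟩ := h'
  exact ⟨i' ∘ₗ i, r ∘ₗ r', hC.ch_comp h1 h4, hC.ch_comp h5 h2,
    (hC.ht_comp_right (hC.ht_comp_left h1 h6) h2).trans h3⟩

theorem retr_of_isEqv {i : Lin V W} {r : Lin W V} (hi : C.Ch V W i) (hr : C.Ch W V r)
    (h : C.IsEqv V V (r ∘ₗ i)) : C.Retr V W := by
  obtain ⟨-, g, h1, h2, -⟩ := h
  exact ⟨i, g ∘ₗ r, hi, hC.ch_comp hr h1, h2⟩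

theorem ctr_of_retr (h : C.Retr V W) (hW : C.Ctr W) : C.Ctr V := by
  obtain ⟨i, r, h1, h2, h3⟩ := h
  refine h3.symm.trans ?_
  simpa using hC.ht_comp_right (hC.ht_comp_left h1 hW) h2

theorem eqv_of_ctr (hV : C.Ctr V) (hW : C.Ctr W) : C.Eqv V W :=
  ⟨0, Ch.zero, 0, Ch.zero, by simpa using hV.symm, by simpa using hW.symm⟩

theorem inO_of_eqv (h : C.Eqv V W) (hW : C.InO W) : C.InO V := by
  obtain ⟨X, h1, h2, h3⟩ := hW
  exact ⟨X, h1, h2, hC.eqv_trans h h3⟩

theorem perf_of_retr (h : C.Retr V W) (hW : C.Perf W) : C.Perf V := by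
  obtain ⟨X, h1, h2, h3⟩ := hW
  exact ⟨X, h1, h2, hC.retr_trans h h3⟩

theorem inO_of_fin1 (hV : C.Obj V) (h : V.Fin1) : C.InO V := ⟨V, hV, h, hC.eqv_refl⟩

theorem inO_of_ctr (h : C.Ctr V) : C.InO V :=
  ⟨⟨Empty, Empty.elim, Empty.elim, 0⟩, ⟨fun i => i.elim, fun _ => Subsingleton.elim _ _⟩,
    ⟨inferInstanceAs (Finite Empty), ⟨fun i => i.elim⟩⟩,
    hC.eqv_of_ctr h ⟨0, Hom.zero _, fun _ => Subsingleton.elim _ _⟩⟩

theorem ctr_of_isEmpty [IsEmpty V.ι] : C.Obj V ∧ C.Ctr V :=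
  ⟨⟨fun i => isEmptyElim i, fun _ => Subsingleton.elim _ _⟩,
    0, Hom.zero _, fun _ => Subsingleton.elim _ _⟩

theorem cen_one : C.Cen 1 := ⟨fun a => by rw [one_mul, mul_one], hC.d_one, hC.one_mem⟩

theorem cen_mul {z z' : E} (h : C.Cen z) (h' : C.Cen z') : C.Cen (z * z') :=
  ⟨fun a => by rw [mul_assoc, h'.1, ← mul_assoc, h.1, mul_assoc],
    by rw [hC.dg.leib, h.2.1, h'.2.1, mul_zero, zero_mul, add_zero],
    fun o => by simpa using hC.mul_mem (h.2.2 o) (h'.2.2 o)⟩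

theorem ch_scal {z : E} (hz : C.Cen z) : C.Ch V V (scal V.ι z) := by
  refine hC.ch_of_basis (fun i => ?_) fun i => ?_
  · rw [scal_single, one_mul]
    exact single_mem_M (by simpa using hz.2.2 _)
  · rw [scal_eq_smul hz.1, scal_eq_smul hz.1, hC.D_smul, hz.2.1, zero_smul, add_zero, hC.D_single]

theorem nul_of_retr {z : E} (hz : C.Cen z) (h : C.Retr V W) (hW : C.Nul z W) : C.Nul z V := by
  obtain ⟨i, r, h1, h2, h3⟩ := h
  have e1 := hC.ht_comp_left (hC.ch_scal hz) h3.symm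
  have e2 := hC.ht_comp_right (hC.ht_comp_left h1 hW) h2
  rw [LinearMap.id_comp, LinearMap.comp_assoc, scal_comm hz.1] at e1
  refine e1.trans ?_
  simpa using e2

theorem nul_mul {z z' : E} (hz' : C.Cen z') (h : C.Nul z V) : C.Nul (z * z') V := by
  have := hC.ht_comp_right h (hC.ch_scal hz')
  rwa [← scal_mul, LinearMap.comp_zero] at this

theorem ctr_of_nul {z z' : E} (hz' : C.Cen z') (e : z * z' = 1) (h : C.Nul z V) : C.Ctr V :=
  nul_one.1 (e ▸ hC.nul_mul hz' h)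

end Good

end Cat

end Pool.Agent.Lib.NIL
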