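import Pool.Agent.Lib.NIL.A1

/-! A2: shifts, extensions, restrictions, reindexing, finiteness. -/

set_option linter.unusedSectionVars false

namespace Pool.Agent.Lib.NIL

open Finsupp

variable {E L : Type} [Ring E] {C : Cat E L} {A B A' B' U V W V' : Raw E L}

theorem prj_apply {α β : Type} {f : α → β} (hf : Function.Injective f) (v : β →₀ E) (a : α) :
    prj f hf v a = v (f a) := rfl

theorem inc_single {α β : Type} (f : α → β) (a : α) (e : E) :
    inc f (single a e) = single (f a) e := mapDomain_single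

theorem inc_apply {α β : Type} {f : α → β} (hf : Function.Injective f) (v : α →₀ E) (a : α) :
    inc f v (f a) = v a := mapDomain_apply hf v a

theorem inc_apply_out {α β : Type} {f : α → β} (v : α →₀ E) {b : β} (hb : ∀ a, f a ≠ b) :
    inc f v b = 0 := mapDomain_of_notMem_range v b fun ⟨a, h⟩ => hb a h

theorem inl_inl {α β : Type} (v : α →₀ E) (a : α) :
    inc (Sum.inl : α → α ⊕ β) v (Sum.inl a) = v a := inc_apply Sum.inl_injective v a

theorem inr_inr {α β : Type} (v : β →₀ E) (b : β) :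
    inc (Sum.inr : β → α ⊕ β) v (Sum.inr b) = v b := inc_apply Sum.inr_injective v b

theorem inl_inr {α β : Type} (v : α →₀ E) (b : β) :
    inc (Sum.inl : α → α ⊕ β) v (Sum.inr b) = 0 := inc_apply_out v fun _ => Sum.inl_ne_inr

theorem inr_inl {α β : Type} (v : β →₀ E) (a : α) :
    inc (Sum.inr : β → α ⊕ β) v (Sum.inl a) = 0 := inc_apply_out v fun _ => Sum.inr_ne_inl

theorem inl_add_inr {α β : Type} (v : α ⊕ β →₀ E) :
    inc Sum.inl (prj Sum.inl Sum.inl_injective v) + inc Sum.inr (prj Sum.inr Sum.inr_injective v) =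
      v := by
  ext (a | b)
  · rw [Finsupp.add_apply, inl_inl, inr_inl, add_zero, prj_apply]
  · rw [Finsupp.add_apply, inl_inr, inr_inr, zero_add, prj_apply]

theorem prj_inc {α β : Type} {f : α → β} (hf : Function.Injective f) (v : α →₀ E) :
    prj f hf (inc f v) = v := by
  ext a; rw [prj_apply, inc_apply hf]

theorem prj_inl_inr {α β : Type} (v : β →₀ E) :
    prj (Sum.inl : α → α ⊕ β) Sum.inl_injective (inc Sum.inr v) = 0 := by
  ext a; rw [prj_apply, inr_inl]; rfl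

theorem prj_inr_inl {α β : Type} (v : α →₀ E) :
    prj (Sum.inr : β → α ⊕ β) Sum.inr_injective (inc Sum.inl v) = 0 := by
  ext a; rw [prj_apply, inl_inr]; rfl

namespace Raw

theorem Rx.refl (V : Raw E L) : V.Rx V := ⟨Equiv.refl _, fun _ => rfl, fun _ => rfl, fun _ _ => rfl⟩

theorem Rx.symm (h : V.Rx W) : W.Rx V := by
  obtain ⟨e, h1, h2, h3⟩ := h
  refine ⟨e.symm, fun i => ?_, fun i => ?_, fun i i' => ?_⟩
  · rw [← h1, e.apply_symm_apply]
  · rw [← h2, e.apply_symm_apply]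
  · rw [← h3, e.apply_symm_apply, e.apply_symm_apply]

theorem Rx.trans (h : U.Rx V) (h' : V.Rx W) : U.Rx W := by
  obtain ⟨e, h1, h2, h3⟩ := h
  obtain ⟨e', k1, k2, k3⟩ := h'
  exact ⟨e.trans e', fun i => (k1 _).trans (h1 i), fun i => (k2 _).trans (h2 i),
    fun i i' => (k3 _ _).trans (h3 i i')⟩

theorem Rx.finite (h : V.Rx W) (hV : Finite V.ι) : Finite W.ι := by
  obtain ⟨e, -⟩ := h
  exact Finite.of_equiv _ e

theorem Rx.wf (h : V.Rx W) (hV : V.WF) : W.WF := by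
  obtain ⟨e, -, -, h3⟩ := h.symm
  exact Subrelation.wf (fun {a b} hab => by rwa [← h3] at hab) (InvImage.wf e hV)

theorem Rx.fin1 (h : V.Rx W) (hV : V.Fin1) : W.Fin1 := ⟨h.finite hV.1, h.wf hV.2⟩

theorem Rx.bdd (h : V.Rx W) (hV : V.Bdd) : W.Bdd := by
  obtain ⟨e, h1, -⟩ := h.symm
  obtain ⟨c, hc⟩ := hV
  exact ⟨c, fun i => h1 i ▸ hc _⟩

theorem Rx.disky (h : V.Rx W) (hV : V.Disky) : W.Disky := by
  obtain ⟨e, h1, h2, h3⟩ := h
  obtain ⟨κ, f, ρ, s, k1, k2, k3⟩ := hV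
  refine ⟨κ, f.trans e, ρ, s, fun k => ?_, fun k => ?_, fun k b k' b' hk => ?_⟩
  · rw [Equiv.trans_apply, Equiv.trans_apply, h1, h1, k1]
  · rw [Equiv.trans_apply, Equiv.trans_apply, h2, h2, k2]
  · rw [Equiv.trans_apply, Equiv.trans_apply, h3, k3 k b k' b' hk]

theorem Rx.relab {L' : Type} (h : V.Rx W) (l : L → L') : (V.relab l).Rx (W.relab l) := by
  obtain ⟨e, h1, h2, h3⟩ := h
  exact ⟨e, h1, fun i => congrArg l (h2 i), h3⟩

theorem bdd_of_finite (h : Finite V.ι) : V.Bdd := by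
  obtain ⟨c, hc⟩ := (Set.finite_range V.deg).bddBelow
  exact ⟨c, fun i => hc ⟨i, rfl⟩⟩

theorem wf_of_rank (ρ : V.ι → ℕ) (h : ∀ i i', V.δ (single i 1) i' ≠ 0 → ρ i' < ρ i) : V.WF :=
  Subrelation.wf (fun {a b} hab => h b a hab) (InvImage.wf ρ wellFounded_lt)

theorem Fin1.rank (h : V.Fin1) :
    ∃ ρ : V.ι → ℕ, ∀ i i', V.δ (single i 1) i' ≠ 0 → ρ i' < ρ i := by
  have := h.1
  refine ⟨fun i => {j | Relation.TransGen (fun i' i : V.ι => V.δ (single i 1) i' ≠ 0) j i}.ncard,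
    fun i i' hi => Set.ncard_lt_ncard ⟨fun j hj => Relation.TransGen.tail hj hi, fun hs => ?_⟩⟩
  exact (WellFounded.transGen h.2).irrefl.irrefl i' (hs (Relation.TransGen.single hi))

theorem wf_sh : V.sh.WF ↔ V.WF := by
  have : (fun i' i : V.ι => V.sh.δ (single i 1) i' ≠ 0) = fun i' i => V.δ (single i 1) i' ≠ 0 := by
    funext i' i
    exact propext neg_ne_zero
  rw [WF, this, WF]

theorem WF.sh (h : V.WF) : V.sh.WF := wf_sh.2 h

theorem ext_δ_inl (θ : Lin B A) (v : A.ι →₀ E) :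
    (A.ext B θ).δ (inc Sum.inl v) = inc Sum.inl (A.δ v) := by
  simp only [LinearMap.add_apply, LinearMap.comp_apply, prj_inc, prj_inr_inl, map_zero, add_zero]

theorem ext_δ_inr (θ : Lin B A) (v : B.ι →₀ E) :
    (A.ext B θ).δ (inc Sum.inr v) = inc Sum.inr (B.δ v) + inc Sum.inl (θ v) := by
  simp only [LinearMap.add_apply, LinearMap.comp_apply, prj_inc, prj_inl_inr, map_zero, zero_add]

theorem ext_ll (θ : Lin B A) (a a' : A.ι) :
    (A.ext B θ).δ (single (Sum.inl a) 1) (Sum.inl a') = A.δ (single a 1) a' := by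
  rw [← inc_single Sum.inl a, ext_δ_inl, inl_inl]

theorem ext_lr (θ : Lin B A) (a : A.ι) (b : B.ι) :
    (A.ext B θ).δ (single (Sum.inl a) 1) (Sum.inr b) = 0 := by
  rw [← inc_single Sum.inl a, ext_δ_inl, inl_inr]

theorem ext_rl (θ : Lin B A) (b : B.ι) (a : A.ι) :
    (A.ext B θ).δ (single (Sum.inr b) 1) (Sum.inl a) = θ (single b 1) a := by
  rw [← inc_single Sum.inr b, ext_δ_inr, Finsupp.add_apply, inr_inl, inl_inl, zero_add]

theorem ext_rr (θ : Lin B A) (b b' : B.ι) :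
    (A.ext B θ).δ (single (Sum.inr b) 1) (Sum.inr b') = B.δ (single b 1) b' := by
  rw [← inc_single Sum.inr b, ext_δ_inr, Finsupp.add_apply, inr_inr, inl_inr, add_zero]

theorem WF.ext (hA : A.WF) (hB : B.WF) (θ : Lin B A) : (A.ext B θ).WF := by
  refine Subrelation.wf ?_ (Sum.lex_wf hA hB)
  rintro (a' | b') (a | b) h
  · exact Sum.Lex.inl (by rwa [ext_ll] at h)
  · exact Sum.Lex.sep _ _
  · exact absurd (ext_lr θ a b') h
  · exact Sum.Lex.inr (by rwa [ext_rr] at h)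

theorem res_δ (p : V.ι → Prop) (i i' : {i // p i}) :
    (V.res p).δ (single i 1) i' = V.δ (single i.1 1) i'.1 := by
  rw [← inc_single Subtype.val i]; rfl

theorem WF.res (h : V.WF) (p : V.ι → Prop) : (V.res p).WF :=
  Subrelation.wf (fun {a b} hab => by rwa [res_δ] at hab) (InvImage.wf Subtype.val h)

theorem Fin1.sh (h : V.Fin1) : V.sh.Fin1 := ⟨h.1, h.2.sh⟩

theorem Fin1.ext (hA : A.Fin1) (hB : B.Fin1) (θ : Lin B A) : (A.ext B θ).Fin1 :=
  have := hA.1
  have := hB.1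
  ⟨inferInstanceAs (Finite (A.ι ⊕ B.ι)), hA.2.ext hB.2 θ⟩

theorem Fin1.res (h : V.Fin1) (p : V.ι → Prop) : (V.res p).Fin1 :=
  have := h.1
  ⟨inferInstanceAs (Finite {i // p i}), h.2.res p⟩

theorem Bdd.sh (h : V.Bdd) : V.sh.Bdd := by
  obtain ⟨c, hc⟩ := h
  exact ⟨c - 1, fun i => sub_le_sub_right (hc i) 1⟩

theorem Bdd.ext (hA : A.Bdd) (hB : B.Bdd) (θ : Lin B A) : (A.ext B θ).Bdd := by
  obtain ⟨c, hc⟩ := hA
  obtain ⟨c', hc'⟩ := hB
  refine ⟨min c c', ?_⟩
  rintro (a | b)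
  · exact (min_le_left _ _).trans (hc a)
  · exact (min_le_right _ _).trans (hc' b)

theorem Bdd.res (h : V.Bdd) (p : V.ι → Prop) : (V.res p).Bdd := by
  obtain ⟨c, hc⟩ := h
  exact ⟨c, fun i => hc i.1⟩

/-- a finite set of generators lies in a finite closed set -/
theorem WF.exists_closed (h : V.WF) {s : Set V.ι} (hs : s.Finite) :
    ∃ p : V.ι → Prop, V.Closed p ∧ {i | p i}.Finite ∧ ∀ i ∈ s, p i := by
  have key : ∀ j, {i | Relation.ReflTransGen
      (fun a b : V.ι => V.δ (single a 1) b ≠ 0) j i}.Finite := by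
    intro j
    induction j using h.induction with
    | _ j ih =>
      refine ((Set.finite_singleton j).union ((V.δ (single j 1)).support.finite_toSet.biUnion
        fun k hk => ih k (mem_support_iff.1 hk))).subset fun i hi => ?_
      rcases Relation.ReflTransGen.cases_head hi with e | ⟨k, hk, hi⟩
      · exact Or.inl e.symm
      · exact Or.inr (Set.mem_biUnion (mem_support_iff.2 hk) hi)
  refine ⟨fun i => ∃ j ∈ s, Relation.ReflTransGen (fun a b : V.ι => V.δ (single a 1) b ≠ 0) j i,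
    fun i i' ⟨j, hj, hi⟩ h' => ⟨j, hj, hi.tail h'⟩,
    (hs.biUnion fun j _ => key j).subset fun i ⟨j, hj, hi⟩ => Set.mem_biUnion hj hi,
    fun i hi => ⟨i, hi, Relation.ReflTransGen.refl⟩⟩

theorem ext_closed (θ : Lin B A) : (A.ext B θ).Closed fun i => i.isLeft := by
  rintro (a | b) (a' | b') h h'
  · rfl
  · exact absurd (ext_lr θ a b') h'
  · rfl
  · exact absurd h Bool.false_ne_true

theorem ext_res_left (θ : Lin B A) : ((A.ext B θ).res fun i => i.isLeft).Rx A := by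
  refine Rx.symm ⟨Equiv.ofBijective (fun a => ⟨Sum.inl a, rfl⟩) ⟨fun a a' h =>
    Sum.inl_injective (congrArg Subtype.val h), ?_⟩, fun _ => rfl, fun _ => rfl, fun a a' => ?_⟩
  · rintro ⟨a | b, h⟩
    · exact ⟨a, rfl⟩
    · exact absurd h Bool.false_ne_true
  · exact (res_δ _ _ _).trans (ext_ll θ a a')

theorem ext_res_right (θ : Lin B A) : ((A.ext B θ).res fun i => ¬ i.isLeft).Rx B := by
  refine Rx.symm ⟨Equiv.ofBijective (fun b => ⟨Sum.inr b, Bool.false_ne_true⟩) ⟨fun a a' h =>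
    Sum.inr_injective (congrArg Subtype.val h), ?_⟩, fun _ => rfl, fun _ => rfl, fun a a' => ?_⟩
  · rintro ⟨a | b, h⟩
    · exact absurd rfl h
    · exact ⟨b, rfl⟩
  · exact (res_δ _ _ _).trans (ext_rr θ a a')

theorem Closed.rx_ext {p : V.ι → Prop} (h : V.Closed p) :
    V.Rx ((V.res p).ext (V.res fun i => ¬ p i)
      (prj Subtype.val Subtype.val_injective ∘ₗ V.δ ∘ₗ inc Subtype.val)) := by
  classical
  refine Rx.symm ⟨Equiv.sumCompl p, ?_, ?_, ?_⟩
  · rintro (a | b) <;> rfl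
  · rintro (a | b) <;> rfl
  · rintro (a | b) (a' | b')
    · exact ((ext_ll _ a a').trans (res_δ p a a')).symm
    · exact (by_contra fun h' => b'.2 (h a.1 b'.1 a.2 h')).trans (ext_lr _ a b').symm
    · refine Eq.trans ?_ (ext_rl _ b a').symm
      rw [LinearMap.comp_apply, LinearMap.comp_apply, inc_single]; rfl
    · exact ((ext_rr _ b b').trans (res_δ _ b b')).symm

theorem rx_sum_comm (A B : Raw E L) : (A.sum B).Rx (B.sum A) := by
  refine ⟨Equiv.sumComm _ _, ?_, ?_, ?_⟩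
  · rintro (a | b) <;> rfl
  · rintro (a | b) <;> rfl
  · rintro (a | b) (a' | b')
    · exact (ext_rr _ a a').trans (ext_ll _ a a').symm
    · exact (ext_rl _ a b').trans (ext_lr _ a b').symm
    · exact (ext_lr _ b a').trans (ext_rl 0 b a').symm
    · exact (ext_ll _ b b').trans (ext_rr _ b b').symm

theorem tw_inc {f : V.ι → W.ι} (hd : ∀ i, W.deg (f i) = V.deg i) (φ : E →+ E) (v : V.ι →₀ E) :
    W.tw φ (inc f v) = inc f (V.tw φ v) := by
  induction v using Finsupp.induction_linear with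
  | zero => simp only [map_zero]
  | add a b ha hb => simp only [map_add, ha, hb]
  | single j e => rw [inc_single, tw_single, tw_single, inc_single, hd]

theorem δ_inc (e : V.ι ≃ W.ι) (h : ∀ i i', W.δ (single (e i) 1) (e i') = V.δ (single i 1) i')
    (v : V.ι →₀ E) : W.δ (inc e v) = inc e (V.δ v) := by
  induction v using Finsupp.induction_linear with
  | zero => simp only [map_zero]
  | add a b ha hb => simp only [map_add, ha, hb]
  | single j a =>
    ext k
    obtain ⟨k, rfl⟩ := e.surjective k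
    rw [inc_single, inc_apply e.injective, ← smul_single_one, ← smul_single_one j, map_smul,
      map_smul, Finsupp.smul_apply, Finsupp.smul_apply, h]

end Raw

/-! ### c-part helpers -/

theorem inc_val_apply {α : Type} {p : α → Prop} (v : {i // p i} →₀ E) (i : {i // p i}) :
    inc Subtype.val v i.1 = v i := mapDomain_apply Subtype.val_injective v i

theorem inc_val_supp {α : Type} {p : α → Prop} (v : {i // p i} →₀ E) (i : α)
    (h : inc Subtype.val v i ≠ 0) : p i := by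
  by_contra hi
  exact h (mapDomain_of_notMem_range _ _ (by simpa using hi))

theorem inc_val_inj {α : Type} {p : α → Prop} {v w : {i // p i} →₀ E}
    (h : inc Subtype.val v = inc Subtype.val w) : v = w :=
  mapDomain_injective Subtype.val_injective h

theorem inc_prj_val {α : Type} {p : α → Prop} {v : α →₀ E} (h : ∀ i, v i ≠ 0 → p i) :
    inc Subtype.val (prj (Subtype.val : {i // p i} → α) Subtype.val_injective v) = v := by
  ext i
  by_cases hi : p i
  · exact inc_val_apply _ ⟨i, hi⟩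
  · rw [of_not_not (mt (h i) hi), of_not_not (mt (inc_val_supp _ i) hi)]

theorem supp_map {α β : Type} {p : α → Prop} {p' : β → Prop} (f : (α →₀ E) →ₗ[E] (β →₀ E))
    (hf : ∀ i i', p i → f (single i 1) i' ≠ 0 → p' i') {v : α →₀ E} (hv : ∀ i, v i ≠ 0 → p i)
    (i' : β) (h : f v i' ≠ 0) : p' i' := by
  by_contra hn
  apply h
  rw [← v.sum_single, Finsupp.sum, map_sum, Finsupp.finsetSum_apply]
  refine Finset.sum_eq_zero fun i hi => ?_
  rw [← smul_single_one, map_smul, Finsupp.smul_apply,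
    of_not_not fun h' => hn (hf i i' (hv i (mem_support_iff.1 hi)) h'), smul_zero]

theorem inc_res_map {α β : Type} {p : α → Prop} {p' : β → Prop} (f : (α →₀ E) →ₗ[E] (β →₀ E))
    (hf : ∀ i i', p i → f (single i 1) i' ≠ 0 → p' i') (v : {i // p i} →₀ E) :
    inc Subtype.val (prj (Subtype.val : {i // p' i} → β) Subtype.val_injective
      (f (inc Subtype.val v))) = f (inc Subtype.val v) :=
  inc_prj_val (supp_map f hf (inc_val_supp v))

theorem prj_res_map {α β : Type} {p : α → Prop} {p' : β → Prop} (f : (α →₀ E) →ₗ[E] (β →₀ E))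
    (hf : ∀ i i', p i → f (single i 1) i' ≠ 0 → p' i') (v : α →₀ E) :
    prj (Subtype.val : {i // ¬ p' i} → β) Subtype.val_injective (f (inc Subtype.val
      (prj (Subtype.val : {i // ¬ p i} → α) Subtype.val_injective v))) =
      prj (Subtype.val : {i // ¬ p' i} → β) Subtype.val_injective (f v) := by
  rw [eq_comm, ← sub_eq_zero, ← map_sub, ← map_sub]
  ext i
  refine of_not_not fun h => i.2 (supp_map f hf (fun j hj => of_not_not fun hp => hj ?_) i.1 h)
  rw [Finsupp.sub_apply, sub_eq_zero]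
  exact (inc_val_apply (prj (Subtype.val : {i // ¬ p i} → α) Subtype.val_injective v) ⟨j, hp⟩).symm

theorem Cat.D_res (p : V.ι → Prop) (v : {i // p i} →₀ E) :
    C.D (V.res p) v = prj Subtype.val Subtype.val_injective (C.D V (inc Subtype.val v)) := by
  ext i
  change _ = C.D V (inc Subtype.val v) i.1
  rw [Cat.D_apply, Cat.D_apply, Finsupp.add_apply, Finsupp.add_apply, Raw.tw_apply, Raw.tw_apply,
    inc_val_apply]
  rfl

theorem Cat.inc_D_res {p : V.ι → Prop} (hp : V.Closed p) (v : {i // p i} →₀ E) :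
    inc Subtype.val (C.D (V.res p) v) = C.D V (inc Subtype.val v) := by
  rw [Cat.D_res]
  refine inc_prj_val fun i hi => of_not_not fun hn => hi ?_
  rw [Cat.D_apply, Finsupp.add_apply, Raw.tw_apply, of_not_not (mt (inc_val_supp v i) hn),
    of_not_not (mt (supp_map V.δ hp (inc_val_supp v) i) hn), map_zero, smul_zero, add_zero]

theorem Cat.D_res_prj {p : V.ι → Prop} (hp : V.Closed p) (v : V.ι →₀ E) :
    C.D (V.res fun i => ¬ p i) (prj Subtype.val Subtype.val_injective v) =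
      prj Subtype.val Subtype.val_injective (C.D V v) := by
  rw [Cat.D_apply, Cat.D_apply, map_add, ← prj_res_map V.δ hp v]
  congr 1
  ext i
  rw [Raw.tw_apply]
  exact (V.tw_apply C.d v i.1).symm

theorem Cat.Hom.tri {q : L → Prop} (hq : ∀ k o o' a, q o → ¬ q o' → a ∈ C.H k o o' → a = 0)
    {k : ℤ} {f : Lin V W} (hf : C.Hom k V W f) (i : V.ι) (i' : W.ι) (hi : q (V.lab i))
    (h : f (single i 1) i' ≠ 0) : q (W.lab i') :=
  of_not_not fun hn => h (hq _ _ _ _ hi hn (hf i i'))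

theorem mem_bcat {R O : Type} [Ring R] {Rf : O → O → AddSubgroup R} {k : ℤ} {o o' : O} {a : R} :
    a ∈ (bcat Rf).H k o o' ↔ a ∈ Rf o o' ∧ (a ≠ 0 → k = 0) := by
  by_cases hk : k = 0
  · simp [bcat, hk]
  · simp only [bcat, if_neg hk, AddSubgroup.mem_bot]
    exact ⟨fun h => ⟨h ▸ zero_mem _, fun h' => (h' h).elim⟩, fun h => of_not_not (mt h.2 hk)⟩


namespace Cat

theorem D_sh (v : V.ι →₀ E) : C.D V.sh v = -C.D V v := by
  ext i
  rw [D_apply, D_apply, Finsupp.add_apply, Finsupp.neg_apply, Finsupp.add_apply, Raw.tw_apply,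
    Raw.tw_apply, neg_add]
  congr 1
  rw [Int.negOnePow_sub, Int.negOnePow_one, mul_neg_one, Units.neg_smul]

theorem D_ext_inl (θ : Lin B A) (v : A.ι →₀ E) :
    C.D (A.ext B θ) (inc Sum.inl v) = inc Sum.inl (C.D A v) := by
  rw [D_apply, D_apply, Raw.ext_δ_inl, map_add,
    Raw.tw_inc (V := A) (W := A.ext B θ) (f := Sum.inl) fun _ => rfl]

theorem D_ext_inr (θ : Lin B A) (v : B.ι →₀ E) :
    C.D (A.ext B θ) (inc Sum.inr v) = inc Sum.inr (C.D B v) + inc Sum.inl (θ v) := by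
  rw [D_apply, D_apply, Raw.ext_δ_inr, map_add,
    Raw.tw_inc (V := B) (W := A.ext B θ) (f := Sum.inr) (fun _ => rfl), add_right_comm]

theorem mem_sh {k n : ℤ} {o : L} {v : V.ι →₀ E} (h : n + 1 = k) :
    v ∈ C.M V.sh n o ↔ v ∈ C.M V k o :=
  forall_congr' fun i => by
    rw [show n - V.sh.deg i = k - V.deg i by rw [← h]; dsimp only; ring]

theorem hom_sh_left {k n : ℤ} {f : Lin V W} (h : k + 1 = n) :
    C.Hom n V.sh W f ↔ C.Hom k V W f :=
  forall_congr' fun i => by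
    rw [show V.sh.deg i + n = V.deg i + k by rw [← h]; dsimp only; ring]

theorem hom_sh_right {k n : ℤ} {f : Lin V W} (h : n + 1 = k) :
    C.Hom n V W.sh f ↔ C.Hom k V W f :=
  forall_congr' fun i => mem_sh (by rw [← h, add_assoc])

theorem hom_sh {k : ℤ} {f : Lin V W} : C.Hom k V.sh W.sh f ↔ C.Hom k V W f :=
  (hom_sh_left (V := V) (W := W.sh) (sub_add_cancel k 1)).trans
    (hom_sh_right (sub_add_cancel k 1))

theorem hom_neg {k : ℤ} {f : Lin V W} : C.Hom k V W (-f) ↔ C.Hom k V W f :=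
  ⟨fun h => neg_neg f ▸ h.neg, Hom.neg⟩

theorem obj_sh : C.Obj V.sh ↔ C.Obj V :=
  and_congr ((hom_sh (f := -V.δ)).trans hom_neg) (forall_congr' fun v => by
    rw [D_sh, D_sh, map_neg, neg_neg])

theorem ch_sh {f : Lin V W} : C.Ch V.sh W.sh f ↔ C.Ch V W f :=
  and_congr hom_sh (forall_congr' fun v => by rw [D_sh, D_sh, map_neg, neg_inj])

theorem ht_sh {f g : Lin V W} : C.Ht V.sh W.sh f g ↔ C.Ht V W f g := by
  constructor
  · rintro ⟨h, h1, h2⟩
    refine ⟨-h, (hom_sh.1 h1).neg, fun v => (h2 v).trans ?_⟩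
    rw [D_sh, D_sh, map_neg, LinearMap.neg_apply, LinearMap.neg_apply, map_neg]
  · rintro ⟨h, h1, h2⟩
    refine ⟨-h, hom_sh.2 h1.neg, fun v => (h2 v).trans ?_⟩
    rw [D_sh, D_sh, map_neg, LinearMap.neg_apply, LinearMap.neg_apply, map_neg, neg_neg, neg_neg]

theorem at_sh {f : Lin V W} : C.At V.sh W f ↔ C.Ch V W f :=
  and_congr (hom_sh_left (zero_add 1)) (forall_congr' fun v => by rw [D_sh, map_neg, neg_neg])

theorem ch_sh_right {f : Lin V W} : C.Ch V W.sh f ↔ C.At V W f :=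
  and_congr (hom_sh_right (zero_add 1)) (forall_congr' fun v => by
    rw [D_sh, neg_eq_iff_eq_neg])

theorem isEqv_sh {f : Lin V W} : C.IsEqv V.sh W.sh f ↔ C.IsEqv V W f :=
  and_congr ch_sh (exists_congr fun _ => and_congr ch_sh (and_congr ht_sh ht_sh))

theorem eqv_sh : C.Eqv V.sh W.sh ↔ C.Eqv V W := exists_congr fun _ => isEqv_sh

theorem retr_sh : C.Retr V.sh W.sh ↔ C.Retr V W :=
  exists_congr fun _ => exists_congr fun _ => and_congr ch_sh (and_congr ch_sh ht_sh)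

theorem nul_sh {z : E} : C.Nul z V.sh ↔ C.Nul z V := ht_sh

theorem ctr_sh : C.Ctr V.sh ↔ C.Ctr V := ht_sh

theorem exists_sh (V : Raw E L) : ∃ W : Raw E L, W.sh = V := by
  refine ⟨⟨V.ι, fun i => V.deg i + 1, V.lab, -V.δ⟩, ?_⟩
  obtain ⟨ι, dg, lab, δ⟩ := V
  simp only [Raw.sh, add_sub_cancel_right]
  exact congrArg (Raw.mk ι dg lab) (neg_neg δ)

theorem inO_sh : C.InO V.sh ↔ C.InO V := by
  constructor
  · rintro ⟨W, h1, h2, h3⟩
    obtain ⟨W, rfl⟩ := exists_sh W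
    exact ⟨W, obj_sh.1 h1, ⟨h2.1, Raw.wf_sh.1 h2.2⟩, eqv_sh.1 h3⟩
  · rintro ⟨W, h1, h2, h3⟩
    exact ⟨W.sh, obj_sh.2 h1, h2.sh, eqv_sh.2 h3⟩

theorem perf_sh : C.Perf V.sh ↔ C.Perf V := by
  constructor
  · rintro ⟨W, h1, h2, h3⟩
    obtain ⟨W, rfl⟩ := exists_sh W
    exact ⟨W, obj_sh.1 h1, ⟨h2.1, Raw.wf_sh.1 h2.2⟩, retr_sh.1 h3⟩
  · rintro ⟨W, h1, h2, h3⟩
    exact ⟨W.sh, obj_sh.2 h1, h2.sh, retr_sh.2 h3⟩

theorem D_inc (e : V.ι ≃ W.ι) (hd : ∀ i, W.deg (e i) = V.deg i)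
    (h : ∀ i i', W.δ (single (e i) 1) (e i') = V.δ (single i 1) i') (v : V.ι →₀ E) :
    C.D W (inc e v) = inc e (C.D V v) := by
  rw [D_apply, D_apply, Raw.δ_inc e h, Raw.tw_inc hd, map_add]

theorem obj_rx (h : V.Rx W) (hV : C.Obj V) : C.Obj W := by
  obtain ⟨e, h1, h2, h3⟩ := h
  refine ⟨fun i j => ?_, fun w => ?_⟩
  · obtain ⟨i, rfl⟩ := e.surjective i
    obtain ⟨j, rfl⟩ := e.surjective j
    rw [h1, h1, h2, h2, h3]
    exact hV.1 i j
  · obtain ⟨v, rfl⟩ : ∃ v, inc e v = w := mapDomain_surjective e.surjective w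
    rw [D_inc e h1 h3, D_inc e h1 h3, hV.2, map_zero]

theorem mem_ext {k : ℤ} {o : L} (θ : Lin B A) {v : A.ι ⊕ B.ι →₀ E} :
    v ∈ C.M (A.ext B θ) k o ↔ prj Sum.inl Sum.inl_injective v ∈ C.M A k o ∧
      prj Sum.inr Sum.inr_injective v ∈ C.M B k o := Sum.forall

theorem D_ext (θ : Lin B A) (v : A.ι ⊕ B.ι →₀ E) : C.D (A.ext B θ) v =
    inc Sum.inl (C.D A (prj Sum.inl Sum.inl_injective v) + θ (prj Sum.inr Sum.inr_injective v)) +
      inc Sum.inr (C.D B (prj Sum.inr Sum.inr_injective v)) := by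
  conv_lhs => rw [← inl_add_inr v, map_add (C.D _), D_ext_inl, D_ext_inr]
  rw [map_add, add_comm (inc Sum.inr _), add_assoc]

theorem fst_D (θ : Lin B A) (v : A.ι ⊕ B.ι →₀ E) :
    prj Sum.inl Sum.inl_injective (C.D (A.ext B θ) v) =
      C.D A (prj Sum.inl Sum.inl_injective v) + θ (prj Sum.inr Sum.inr_injective v) := by
  rw [D_ext, map_add, prj_inc, prj_inl_inr, add_zero]

theorem snd_D (θ : Lin B A) (v : A.ι ⊕ B.ι →₀ E) :
    prj Sum.inr Sum.inr_injective (C.D (A.ext B θ) v) =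
      C.D B (prj Sum.inr Sum.inr_injective v) := by
  rw [D_ext, map_add, prj_inc, prj_inr_inl, zero_add]

namespace Good

variable (hC : C.Good)
include hC

/-- inclusions and projections along label and degree preserving injections -/
theorem hom_inc {f : V.ι → W.ι} (hd : ∀ i, W.deg (f i) = V.deg i) (hl : ∀ i, W.lab (f i) = V.lab i) :
    C.Hom 0 V W (inc f) := fun i => by
  rw [lmapDomain_apply, mapDomain_single, add_zero, ← hd, ← hl]
  exact hC.basis_mem _

theorem hom_prj {f : V.ι → W.ι} (hf : Function.Injective f) (hd : ∀ i, W.deg (f i) = V.deg i)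
    (hl : ∀ i, W.lab (f i) = V.lab i) : C.Hom 0 W V (prj f hf) := fun j i => by
  rw [add_zero, ← hd, ← hl]
  exact hC.basis_mem j (f i)

theorem iso_rx (h : V.Rx W) : ∃ (f : Lin V W) (g : Lin W V), C.Ch V W f ∧ C.Ch W V g ∧
    g ∘ₗ f = LinearMap.id ∧ f ∘ₗ g = LinearMap.id := by
  obtain ⟨e, hd, hl, hδ⟩ := h
  have h1 : C.Ch V W (inc e) := hC.ch_of_basis (hC.hom_inc hd hl) fun i => by
    rw [lmapDomain_apply, mapDomain_single, hC.D_single]
    ext j
    obtain ⟨j, rfl⟩ := e.surjective j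
    rw [hδ, lmapDomain_apply, mapDomain_apply e.injective]
  have h2 : C.Hom 0 W V (inc e.symm) :=
    hC.hom_inc (fun j => by rw [← hd, e.apply_symm_apply]) fun j => by
      rw [← hl, e.apply_symm_apply]
  have h3 : (inc e.symm : Lin W V) ∘ₗ inc e = LinearMap.id := by
    ext1 i; ext1; simp
  have h4 : (inc e : Lin V W) ∘ₗ inc e.symm = LinearMap.id := by
    ext1 i; ext1; simp
  exact ⟨_, _, h1, (hC.isEqv_of_inv h1 h2 h3 h4).2, h3, h4⟩

theorem eqv_rx (h : V.Rx W) : C.Eqv V W := by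
  obtain ⟨f, g, hf, hg, h1, h2⟩ := hC.iso_rx h
  exact ⟨f, (hC.isEqv_of_inv hf hg.1 h1 h2).1⟩

theorem ses_rx (h : C.SES A V B) (hA : A.Rx A') (hV : V.Rx V') (hB : B.Rx B') :
    C.SES A' V' B' := by
  obtain ⟨oA, oV, oB, i, q, r, s, hi, hq, hr, hs, e1, e2, e3⟩ := h
  obtain ⟨a, a', ha, ha', a1, a2⟩ := hC.iso_rx hA
  obtain ⟨v, v', hv, hv', v1, v2⟩ := hC.iso_rx hV
  obtain ⟨b, b', hb, hb', b1, b2⟩ := hC.iso_rx hB
  simp only [LinearMap.ext_iff, LinearMap.comp_apply, LinearMap.id_apply, LinearMap.add_apply]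
    at e1 e2 e3 a1 a2 v1 v2 b1 b2
  refine ⟨obj_rx hA oA, obj_rx hV oV, obj_rx hB oB, v ∘ₗ i ∘ₗ a', b ∘ₗ q ∘ₗ v', a ∘ₗ r ∘ₗ v',
    v ∘ₗ s ∘ₗ b', hC.ch_comp (hC.ch_comp ha' hi) hv, hC.ch_comp (hC.ch_comp hv' hq) hb,
    hC.hom_comp (hC.hom_comp hv'.1 hr rfl) ha.1 rfl,
    hC.hom_comp (hC.hom_comp hb'.1 hs rfl) hv.1 rfl, LinearMap.ext fun x => ?_,
    LinearMap.ext fun x => ?_, LinearMap.ext fun x => ?_⟩
  · simp only [LinearMap.comp_apply, LinearMap.id_apply, v1, e1, a2]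
  · simp only [LinearMap.comp_apply, LinearMap.id_apply, v1, e2, b2]
  · simp only [LinearMap.comp_apply, LinearMap.id_apply, LinearMap.add_apply, a1, b1, ← map_add,
      e3, v2]

theorem hom_inl (θ : Lin B A) : C.Hom 0 A (A.ext B θ) (inc Sum.inl) :=
  hC.hom_inc (fun _ => rfl) fun _ => rfl

theorem hom_inr (θ : Lin B A) : C.Hom 0 B (A.ext B θ) (inc Sum.inr) :=
  hC.hom_inc (fun _ => rfl) fun _ => rfl

theorem hom_fst (θ : Lin B A) : C.Hom 0 (A.ext B θ) A (prj Sum.inl Sum.inl_injective) :=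
  hC.hom_prj _ (fun _ => rfl) fun _ => rfl

theorem hom_snd (θ : Lin B A) : C.Hom 0 (A.ext B θ) B (prj Sum.inr Sum.inr_injective) :=
  hC.hom_prj _ (fun _ => rfl) fun _ => rfl

theorem obj_ext {θ : Lin B A} (hA : C.Obj A) (hB : C.Obj B) (hθ : C.At B A θ) :
    C.Obj (A.ext B θ) := by
  refine ⟨Hom.add (hC.hom_comp (hC.hom_comp (hC.hom_fst θ) hA.1 rfl) (hC.hom_inl θ) rfl)
    (hC.hom_comp (hC.hom_snd θ) (Hom.add (hC.hom_comp hB.1 (hC.hom_inr θ) rfl)
      (hC.hom_comp hθ.1 (hC.hom_inl θ) rfl)) rfl), fun v => ?_⟩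
  rw [← inl_add_inr v, map_add (C.D _), map_add (C.D _), D_ext_inl, D_ext_inl, D_ext_inr,
    map_add (C.D _), D_ext_inr, D_ext_inl, hA.2, hB.2, hθ.2]
  simp only [map_zero, map_neg, zero_add, add_neg_cancel]

theorem of_obj_ext {θ : Lin B A} (h : C.Obj (A.ext B θ)) :
    C.Obj A ∧ C.Obj B ∧ C.At B A θ := by
  have e1 : prj Sum.inl Sum.inl_injective ∘ₗ (A.ext B θ).δ ∘ₗ inc Sum.inl = A.δ :=
    LinearMap.ext fun v => by
      rw [LinearMap.comp_apply, LinearMap.comp_apply, Raw.ext_δ_inl, prj_inc]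
  have e2 : prj Sum.inr Sum.inr_injective ∘ₗ (A.ext B θ).δ ∘ₗ inc Sum.inr = B.δ :=
    LinearMap.ext fun v => by
      rw [LinearMap.comp_apply, LinearMap.comp_apply, Raw.ext_δ_inr, map_add, prj_inc,
        prj_inr_inl, add_zero]
  have e3 : prj Sum.inl Sum.inl_injective ∘ₗ (A.ext B θ).δ ∘ₗ inc Sum.inr = θ :=
    LinearMap.ext fun v => by
      rw [LinearMap.comp_apply, LinearMap.comp_apply, Raw.ext_δ_inr, map_add, prj_inc,
        prj_inl_inr, zero_add]
  have h1 := hC.hom_comp (hC.hom_comp (hC.hom_inl θ) h.1 rfl) (hC.hom_fst θ) (n := 1) rfl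
  have h2 := hC.hom_comp (hC.hom_comp (hC.hom_inr θ) h.1 rfl) (hC.hom_snd θ) (n := 1) rfl
  have h3 := hC.hom_comp (hC.hom_comp (hC.hom_inr θ) h.1 rfl) (hC.hom_fst θ) (n := 1) rfl
  rw [e1] at h1
  rw [e2] at h2
  rw [e3] at h3
  refine ⟨⟨h1, fun v => ?_⟩, ⟨h2, fun v => ?_⟩, h3, fun v => ?_⟩
  · have := congrArg (prj Sum.inl Sum.inl_injective) (h.2 (inc Sum.inl v))
    rwa [D_ext_inl, D_ext_inl, prj_inc, map_zero] at this
  · have := congrArg (prj Sum.inr Sum.inr_injective) (h.2 (inc Sum.inr v))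
    rwa [D_ext_inr, map_add (C.D _), D_ext_inr, D_ext_inl, map_add, map_add, prj_inc, prj_inr_inl,
      prj_inr_inl, add_zero, add_zero, map_zero] at this
  · have := congrArg (prj Sum.inl Sum.inl_injective) (h.2 (inc Sum.inr v))
    rw [D_ext_inr, map_add (C.D _), D_ext_inr, D_ext_inl, map_add, map_add, prj_inc, prj_inc,
      prj_inl_inr, zero_add, map_zero] at this
    exact eq_neg_of_add_eq_zero_right this

theorem ch_inl (θ : Lin B A) : C.Ch A (A.ext B θ) (inc Sum.inl) := ⟨hC.hom_inl θ, D_ext_inl θ⟩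

theorem ch_snd (θ : Lin B A) : C.Ch (A.ext B θ) B (prj Sum.inr Sum.inr_injective) :=
  ⟨hC.hom_snd θ, fun v => (snd_D θ v).symm⟩

theorem ch_inr : C.Ch B (A.sum B) (inc Sum.inr) :=
  ⟨hC.hom_inr 0, fun v => by rw [D_ext_inr, LinearMap.zero_apply, map_zero, add_zero]⟩

theorem ch_fst : C.Ch (A.sum B) A (prj Sum.inl Sum.inl_injective) :=
  ⟨hC.hom_fst 0, fun v => ((fst_D 0 v).trans (add_zero _)).symm⟩

theorem ses_ext {θ : Lin B A} (h : C.Obj (A.ext B θ)) : C.SES A (A.ext B θ) B :=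
  ⟨(hC.of_obj_ext h).1, h, (hC.of_obj_ext h).2.1, _, _, _, _, hC.ch_inl θ, hC.ch_snd θ,
    hC.hom_fst θ, hC.hom_inr θ, LinearMap.ext (prj_inc Sum.inl_injective),
    LinearMap.ext (prj_inc Sum.inr_injective), LinearMap.ext inl_add_inr⟩

theorem obj_sum (hA : C.Obj A) (hB : C.Obj B) : C.Obj (A.sum B) := hC.obj_ext hA hB At.zero

theorem obj_cone {f : Lin V W} (hV : C.Obj V) (hW : C.Obj W) (hf : C.Ch V W f) :
    C.Obj (V.cone W f) := hC.obj_ext hW (obj_sh.2 hV) (at_sh.2 hf)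

theorem retr_sum_left : C.Retr A (A.sum B) :=
  ⟨_, _, hC.ch_inl 0, hC.ch_fst, by
    rw [show prj Sum.inl Sum.inl_injective ∘ₗ inc Sum.inl = LinearMap.id from
      LinearMap.ext (prj_inc Sum.inl_injective)]
    exact Ht.refl _⟩

theorem retr_sum_right : C.Retr B (A.sum B) :=
  ⟨_, _, hC.ch_inr, hC.ch_snd 0, by
    rw [show prj Sum.inr Sum.inr_injective ∘ₗ inc Sum.inr = LinearMap.id from
      LinearMap.ext (prj_inc Sum.inr_injective)]
    exact Ht.refl _⟩

theorem ses_res (hV : C.Obj V) {p : V.ι → Prop} (hp : V.Closed p) :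
    C.SES (V.res p) V (V.res fun i => ¬ p i) :=
  hC.ses_rx (hC.ses_ext (obj_rx hp.rx_ext hV)) (.refl _) hp.rx_ext.symm (.refl _)

/-- the strict form of `exists_ext` -/
theorem exists_ext_iso (h : C.SES A V B) : ∃ (θ : Lin B A) (f : Lin (A.ext B θ) V)
    (g : Lin V (A.ext B θ)), C.At B A θ ∧ C.Ch (A.ext B θ) V f ∧ C.Ch V (A.ext B θ) g ∧
      g ∘ₗ f = LinearMap.id ∧ f ∘ₗ g = LinearMap.id := by
  obtain ⟨oA, oV, oB, i, q, r, s, hi, hq, hr, hs, e1, e2, e3⟩ := h
  simp only [LinearMap.ext_iff, LinearMap.comp_apply, LinearMap.id_apply, LinearMap.add_apply]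
    at e1 e2 e3
  obtain ⟨g, hg, hb⟩ := hC.exists_br oB.1 oV.1 hs
  have hb' : ∀ v, C.D V (s v) = s (C.D B v) + g v := fun v => by simpa using hb v
  have qi : ∀ v, q (i v) = 0 := fun v => by
    have := e3 (i v)
    rw [e1, add_eq_left] at this
    rw [← e2 (q (i v)), this, map_zero]
  have rs : ∀ v, r (s v) = 0 := fun v => by
    have := e3 (s v)
    rw [e2, add_eq_right] at this
    rw [← e1 (r (s v)), this, map_zero]
  have ig : ∀ v, i (r (g v)) = g v := fun v => by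
    have h1 := congrArg q (hb' v)
    rw [← hq.2, e2, map_add, e2, left_eq_add] at h1
    have h2 := e3 (g v)
    rwa [h1, map_zero, add_zero] at h2
  have hθ : C.At B A (r ∘ₗ g) := ⟨hC.hom_comp hg hr rfl, fun v => by
    have h1 := oV.2 (s v)
    rw [hb', map_add, hb', oB.2, map_zero, zero_add] at h1
    rw [LinearMap.comp_apply, LinearMap.comp_apply, ← e1 (C.D A _), ← hi.2, ig,
      eq_neg_of_add_eq_zero_right h1, map_neg]⟩
  have hf : C.Ch (A.ext B (r ∘ₗ g)) V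
      (i ∘ₗ prj Sum.inl Sum.inl_injective + s ∘ₗ prj Sum.inr Sum.inr_injective) :=
    ⟨(hC.hom_comp (hC.hom_fst _) hi.1 rfl).add (hC.hom_comp (hC.hom_snd _) hs rfl), fun v => by
      rw [LinearMap.add_apply, LinearMap.add_apply, LinearMap.comp_apply, LinearMap.comp_apply,
        LinearMap.comp_apply, LinearMap.comp_apply, fst_D, snd_D, map_add, map_add, hi.2, hb',
        LinearMap.comp_apply, ig]
      abel⟩
  have hf' : C.Hom 0 V (A.ext B (r ∘ₗ g)) (inc Sum.inl ∘ₗ r + inc Sum.inr ∘ₗ q) :=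
    (hC.hom_comp hr (hC.hom_inl _) rfl).add (hC.hom_comp hq.1 (hC.hom_inr _) rfl)
  have h1 : (inc Sum.inl ∘ₗ r + inc Sum.inr ∘ₗ q) ∘ₗ (i ∘ₗ prj Sum.inl Sum.inl_injective +
      s ∘ₗ prj Sum.inr Sum.inr_injective) = LinearMap.id := LinearMap.ext fun v => by
    simp only [map_add, LinearMap.add_apply, LinearMap.comp_apply, e1, e2, qi, rs, map_zero,
      add_zero, zero_add, LinearMap.id_apply, inl_add_inr]
  have h2 : (i ∘ₗ prj Sum.inl Sum.inl_injective + s ∘ₗ prj Sum.inr Sum.inr_injective) ∘ₗ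
      (inc Sum.inl ∘ₗ r + inc Sum.inr ∘ₗ q) = LinearMap.id := LinearMap.ext fun v => by
    simp only [map_add, LinearMap.add_apply, LinearMap.comp_apply, prj_inc, prj_inl_inr,
      prj_inr_inl, map_zero, add_zero, zero_add, LinearMap.id_apply, e3]
  exact ⟨_, _, _, hθ, hf, (hC.isEqv_of_inv hf hf' h1 h2).2, h1, h2⟩

/-- every short exact sequence is isomorphic to an extension -/
theorem exists_ext (h : C.SES A V B) : ∃ θ, C.At B A θ ∧ C.Eqv (A.ext B θ) V := by
  obtain ⟨θ, f, g, hθ, hf, hg, h1, h2⟩ := hC.exists_ext_iso h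
  exact ⟨θ, hθ, f, (hC.isEqv_of_inv hf hg.1 h1 h2).1⟩

theorem ses_sh (h : C.SES A V B) : C.SES A.sh V.sh B.sh := by
  obtain ⟨oA, oV, oB, i, q, r, s, hi, hq, hr, hs, e1, e2, e3⟩ := h
  exact ⟨obj_sh.2 oA, obj_sh.2 oV, obj_sh.2 oB, i, q, r, s, ch_sh.2 hi, ch_sh.2 hq, hom_sh.2 hr,
    hom_sh.2 hs, e1, e2, e3⟩

theorem ses_sum (h : C.SES A V B) (h' : C.SES A' V' B') :
    C.SES (A.sum A') (V.sum V') (B.sum B') := by
  obtain ⟨oA, oV, oB, i, q, r, s, hi, hq, hr, hs, e1, e2, e3⟩ := h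
  obtain ⟨oA', oV', oB', i', q', r', s', hi', hq', hr', hs', e1', e2', e3'⟩ := h'
  simp only [LinearMap.ext_iff, LinearMap.comp_apply, LinearMap.id_apply, LinearMap.add_apply]
    at e1 e2 e3 e1' e2' e3'
  refine ⟨hC.obj_sum oA oA', hC.obj_sum oV oV', hC.obj_sum oB oB',
    inc Sum.inl ∘ₗ i ∘ₗ prj Sum.inl Sum.inl_injective +
      inc Sum.inr ∘ₗ i' ∘ₗ prj Sum.inr Sum.inr_injective,
    inc Sum.inl ∘ₗ q ∘ₗ prj Sum.inl Sum.inl_injective +
      inc Sum.inr ∘ₗ q' ∘ₗ prj Sum.inr Sum.inr_injective,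
    inc Sum.inl ∘ₗ r ∘ₗ prj Sum.inl Sum.inl_injective +
      inc Sum.inr ∘ₗ r' ∘ₗ prj Sum.inr Sum.inr_injective,
    inc Sum.inl ∘ₗ s ∘ₗ prj Sum.inl Sum.inl_injective +
      inc Sum.inr ∘ₗ s' ∘ₗ prj Sum.inr Sum.inr_injective,
    (hC.ch_comp (hC.ch_comp hC.ch_fst hi) (hC.ch_inl 0)).add
      (hC.ch_comp (hC.ch_comp (hC.ch_snd 0) hi') hC.ch_inr),
    (hC.ch_comp (hC.ch_comp hC.ch_fst hq) (hC.ch_inl 0)).add
      (hC.ch_comp (hC.ch_comp (hC.ch_snd 0) hq') hC.ch_inr),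
    (hC.hom_comp (hC.hom_comp (hC.hom_fst 0) hr rfl) (hC.hom_inl 0) rfl).add
      (hC.hom_comp (hC.hom_comp (hC.hom_snd 0) hr' rfl) (hC.hom_inr 0) rfl),
    (hC.hom_comp (hC.hom_comp (hC.hom_fst 0) hs rfl) (hC.hom_inl 0) rfl).add
      (hC.hom_comp (hC.hom_comp (hC.hom_snd 0) hs' rfl) (hC.hom_inr 0) rfl),
    LinearMap.ext fun v => ?_, LinearMap.ext fun v => ?_, LinearMap.ext fun v => ?_⟩
  · simp only [map_add, LinearMap.add_apply, LinearMap.comp_apply, prj_inc, prj_inl_inr,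
      prj_inr_inl, map_zero, add_zero, zero_add, LinearMap.id_apply, e1, e1', inl_add_inr]
  · simp only [map_add, LinearMap.add_apply, LinearMap.comp_apply, prj_inc, prj_inl_inr,
      prj_inr_inl, map_zero, add_zero, zero_add, LinearMap.id_apply, e2, e2', inl_add_inr]
  · simp only [map_add, LinearMap.add_apply, LinearMap.comp_apply, prj_inc, prj_inl_inr,
      prj_inr_inl, map_zero, add_zero, zero_add, LinearMap.id_apply]
    rw [add_add_add_comm, ← map_add, ← map_add, e3, e3', inl_add_inr]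

theorem hom_res {k : ℤ} {f : Lin V W} (hf : C.Hom k V W f) (p : V.ι → Prop) (p' : W.ι → Prop) :
    C.Hom k (V.res p) (W.res p')
      (prj Subtype.val Subtype.val_injective ∘ₗ f ∘ₗ inc Subtype.val) :=
  hC.hom_comp (hC.hom_comp (hC.hom_inc (V := V.res p) (W := V) (fun _ => rfl) fun _ => rfl) hf
    (zero_add k)) (hC.hom_prj (V := W.res p') (W := W) _ (fun _ => rfl) fun _ => rfl) (add_zero k)

theorem ch_res {q : L → Prop} (hq : ∀ k o o' a, q o → ¬ q o' → a ∈ C.H k o o' → a = 0)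
    (hV : C.Obj V) (hW : C.Obj W) {f : Lin V W} (hf : C.Ch V W f) :
    C.Ch (V.res fun i => q (V.lab i)) (W.res fun i => q (W.lab i))
      (prj Subtype.val Subtype.val_injective ∘ₗ f ∘ₗ inc Subtype.val) :=
  ⟨hC.hom_res hf.1 _ _, fun v => inc_val_inj (by
    simp only [LinearMap.comp_apply]
    rw [inc_D_res (hW.1.tri hq), inc_res_map f (hf.1.tri hq), inc_res_map f (hf.1.tri hq),
      inc_D_res (hV.1.tri hq), hf.2])⟩

/-- in a triangular family null-homotopies restrict to both diagonal blocks -/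
theorem nul_res {z : E} (q : L → Prop) (hq : ∀ k o o' a, q o → ¬ q o' → a ∈ C.H k o o' → a = 0)
    (hV : C.Obj V) (h : C.Nul z V) : V.Closed (fun i => q (V.lab i)) ∧
      C.Nul z (V.res fun i => q (V.lab i)) ∧ C.Nul z (V.res fun i => ¬ q (V.lab i)) := by
  obtain ⟨h, h1, h2⟩ := h
  have hp : V.Closed fun i => q (V.lab i) := hV.1.tri hq
  refine ⟨hp, ⟨_, hC.hom_res h1 _ _, fun v => inc_val_inj ?_⟩, _, hC.hom_res h1 _ _, fun v => ?_⟩
  · simp only [LinearMap.comp_apply, map_add]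
    rw [inc_D_res hp, inc_res_map h (h1.tri hq), inc_res_map h (h1.tri hq), inc_D_res hp, ← h2,
      LinearMap.zero_apply, LinearMap.zero_apply, sub_zero, sub_zero]
    ext i
    rw [scal_apply]
    by_cases hi : q (V.lab i)
    · exact (inc_val_apply _ ⟨i, hi⟩).trans ((scal_apply _ _ _).trans
        (congrArg (· * z) (inc_val_apply v ⟨i, hi⟩).symm))
    · rw [of_not_not (mt (inc_val_supp v i) hi), of_not_not (mt (inc_val_supp _ i) hi), zero_mul]
  · simp only [LinearMap.comp_apply]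
    rw [D_res_prj hp, D_res, prj_res_map h (h1.tri hq), ← map_add, ← h2, LinearMap.zero_apply,
      LinearMap.zero_apply, sub_zero, sub_zero]
    ext i
    exact (scal_apply _ _ _).trans ((congrArg (· * z) (inc_val_apply v i).symm).trans
      (scal_apply z (inc Subtype.val v) i.1).symm)

/-- in a block diagonal family retractions restrict to the blocks -/
theorem retr_res (q : L → Prop) (hq : ∀ k o o' a, ¬ (q o ↔ q o') → a ∈ C.H k o o' → a = 0)
    (hV : C.Obj V) (hW : C.Obj W) (h : C.Retr V W) :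
    C.Retr (V.res fun i => q (V.lab i)) (W.res fun i => q (W.lab i)) := by
  have hq' : ∀ k o o' a, q o → ¬ q o' → a ∈ C.H k o o' → a = 0 :=
    fun k o o' a h h' => hq k o o' a fun e => h' (e.1 h)
  obtain ⟨i, r, hi, hr, h, h1, h2⟩ := h
  refine ⟨_, _, hC.ch_res hq' hV hW hi, hC.ch_res hq' hW hV hr, _, hC.hom_res h1 _ _,
    fun v => inc_val_inj ?_⟩
  simp only [LinearMap.comp_apply, map_add, map_sub]
  rw [inc_D_res (hV.1.tri hq'), inc_res_map h (h1.tri hq'), inc_res_map h (h1.tri hq'),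
    inc_D_res (hV.1.tri hq'), ← h2, inc_res_map r (hr.1.tri hq'), inc_res_map i (hi.1.tri hq')]
  rfl

theorem fin1_of_zero (h0 : ∀ k o o' a, k ≠ 0 → a ∈ C.H k o o' → a = 0) (hV : C.Obj V)
    (h : Finite V.ι) : V.Fin1 := by
  obtain ⟨c, hc⟩ := (Set.finite_range V.deg).bddAbove
  refine ⟨h, Raw.wf_of_rank (fun i => (c - V.deg i).toNat) fun i i' hi => ?_⟩
  have h1 : V.deg i + 1 - V.deg i' = 0 := of_not_not fun hn => hi (h0 _ _ _ _ hn (hV.1 i i'))
  have h2 : V.deg i' ≤ c := hc ⟨i', rfl⟩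
  omega

/-- an object equivalent to a finite one and one-sided is perfect -/
theorem perf_of_wf (hV : C.Obj V) (hW : C.Obj W) (hf : Finite V.ι) (hw : W.WF) (h : C.Eqv V W) :
    C.Perf V := by
  obtain ⟨f, h1, g, h2, h3, -⟩ := h
  obtain ⟨p, hp, hp1, hp2⟩ := hw.exists_closed
    (Set.finite_iUnion fun i => (f (single i 1)).support.finite_toSet)
  have e : ∀ v, inc Subtype.val (prj (Subtype.val : {i // p i} → W.ι) Subtype.val_injective
      (f v)) = f v := fun v => inc_prj_val (supp_map (p := fun _ => True) f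
    (fun i i' _ h => hp2 i' (Set.mem_iUnion.2 ⟨i, mem_support_iff.2 h⟩)) fun _ _ => trivial)
  refine ⟨W.res p, (hC.ses_res hW hp).1, ⟨hp1, hw.res p⟩,
    prj Subtype.val Subtype.val_injective ∘ₗ f, g ∘ₗ inc Subtype.val,
    ⟨hC.hom_comp h1.1 (hC.hom_prj (V := W.res p) (W := W) _ (fun _ => rfl) fun _ => rfl) rfl,
      fun v => inc_val_inj ?_⟩,
    hC.ch_comp ⟨hC.hom_inc (V := W.res p) (W := W) (fun _ => rfl) fun _ => rfl,
      fun v => (inc_D_res hp v).symm⟩ h2, ?_⟩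
  · simp only [LinearMap.comp_apply]
    rw [inc_D_res hp, e, e, h1.2]
  · have : (g ∘ₗ inc Subtype.val) ∘ₗ prj (Subtype.val : {i // p i} → W.ι) Subtype.val_injective ∘ₗ
        f = g ∘ₗ f := LinearMap.ext fun v => congrArg g (e v)
    exact this ▸ h3

end Good

end Cat

theorem IsBas.good {R O : Type} [Ring R] {Rf : O → O → AddSubgroup R} (h : IsBas Rf) :
    (bcat Rf).Good where
  dg := ⟨rfl, fun _ _ => rfl, fun _ => rfl, fun _ => neg_zero.symm, fun _ => rfl,
    fun a b => by simp [bcat]⟩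
  one_mem o := mem_bcat.2 ⟨h.one_mem o, fun _ => rfl⟩
  mul_mem ha hb := mem_bcat.2 ⟨h.mul_mem (mem_bcat.1 ha).1 (mem_bcat.1 hb).1, fun e => by
    rw [(mem_bcat.1 ha).2 (left_ne_zero_of_mul e), (mem_bcat.1 hb).2 (right_ne_zero_of_mul e),
      add_zero]⟩
  d_mem _ := zero_mem _
  σ_eq {k _ _ a} ha := by
    by_cases e : a = 0
    · rw [e, map_zero, smul_zero]
    · rw [(mem_bcat.1 ha).2 e, Int.negOnePow_zero, one_smul]; rfl

theorem tcat_good (R O : Type) [Ring R] : (tcat R O).Good :=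
  IsBas.good ⟨fun _ => trivial, fun _ _ => trivial⟩

theorem bcat_D {R O : Type} [Ring R] (Rf : O → O → AddSubgroup R) (V : Raw R O) (v : V.ι →₀ R) :
    (bcat Rf).D V v = V.δ v := by
  ext i
  rw [Cat.D_apply, Finsupp.add_apply, Raw.tw_apply]
  simp [bcat]

theorem bcat_hom {R O : Type} [Ring R] {Rf : O → O → AddSubgroup R} {k : ℤ} {V W : Raw R O}
    {f : Lin V W} : (bcat Rf).Hom k V W f ↔ ∀ i i', f (single i 1) i' ∈ Rf (V.lab i) (W.lab i') ∧
      (f (single i 1) i' ≠ 0 → W.deg i' = V.deg i + k) :=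
  forall₂_congr fun _ _ => mem_bcat.trans (and_congr_right fun _ => imp_congr_right fun _ =>
    sub_eq_zero.trans eq_comm)

theorem gfam_bas (G O : Type) [Group G] [MulAction G O] : IsBas (gfam G O) where
  one_mem o g hg := by
    rw [Finset.mem_one.1 (MonoidAlgebra.support_coeff_one_subset (mem_support_iff.2 hg)), one_smul]
  mul_mem {o o' o'' a b} ha hb g hg := by
    classical
    obtain ⟨x, hx, y, hy, rfl⟩ :=
      Finset.mem_mul.1 (MonoidAlgebra.support_coeff_mul_subset a b (mem_support_iff.2 hg))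
    rw [mul_smul, hb y (mem_support_iff.1 hy), ha x (mem_support_iff.1 hx)]

end Pool.Agent.Lib.NIL
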