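import Pool.Agent.Lib.NIL.A2

/-! A3: two out of three. -/

namespace Pool.Agent.Lib.NIL

open Finsupp

variable {E L : Type} [Ring E] {C : Cat E L} {A B A' B' U V W V' W' : Raw E L}

/-- a block matrix -/
noncomputable def mat {α β α' β' : Type} (a : (α →₀ E) →ₗ[E] (α' →₀ E))
    (c : (α →₀ E) →ₗ[E] (β' →₀ E)) (k : (β →₀ E) →ₗ[E] (α' →₀ E)) (b : (β →₀ E) →ₗ[E] (β' →₀ E)) :
    (α ⊕ β →₀ E) →ₗ[E] (α' ⊕ β' →₀ E) :=
  (inc Sum.inl ∘ₗ a + inc Sum.inr ∘ₗ c) ∘ₗ prj Sum.inl Sum.inl_injective +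
    (inc Sum.inl ∘ₗ k + inc Sum.inr ∘ₗ b) ∘ₗ prj Sum.inr Sum.inr_injective

section
variable {α β α' β' : Type} (a : (α →₀ E) →ₗ[E] (α' →₀ E))
  (c : (α →₀ E) →ₗ[E] (β' →₀ E)) (k : (β →₀ E) →ₗ[E] (α' →₀ E)) (b : (β →₀ E) →ₗ[E] (β' →₀ E))

theorem mat_inl (x : α →₀ E) :
    mat a c k b (inc Sum.inl x) = inc Sum.inl (a x) + inc Sum.inr (c x) := by
  simp only [mat, LinearMap.add_apply, LinearMap.comp_apply, prj_inc, prj_inr_inl, map_zero,
    add_zero]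

theorem mat_inr (y : β →₀ E) :
    mat a c k b (inc Sum.inr y) = inc Sum.inl (k y) + inc Sum.inr (b y) := by
  simp only [mat, LinearMap.add_apply, LinearMap.comp_apply, prj_inc, prj_inl_inr, map_zero,
    zero_add]

theorem exists_lr (v : α ⊕ β →₀ E) : ∃ x y, v = inc Sum.inl x + inc Sum.inr y :=
  ⟨_, _, (inl_add_inr v).symm⟩

theorem lr_eq {x x' : α →₀ E} {y y' : β →₀ E} (h : x = x') (h' : y = y') :
    (inc Sum.inl x + inc Sum.inr y : α ⊕ β →₀ E) = inc Sum.inl x' + inc Sum.inr y' := by rw [h, h']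

theorem mat_lr (x : α →₀ E) (y : β →₀ E) : mat a c k b (inc Sum.inl x + inc Sum.inr y) =
    inc Sum.inl (a x + k y) + inc Sum.inr (c x + b y) := by
  rw [map_add, mat_inl, mat_inr, map_add, map_add, add_add_add_comm]

theorem lr_add (x x' : α →₀ E) (y y' : β →₀ E) :
    (inc Sum.inl x + inc Sum.inr y : α ⊕ β →₀ E) + (inc Sum.inl x' + inc Sum.inr y') =
      inc Sum.inl (x + x') + inc Sum.inr (y + y') := by rw [map_add, map_add, add_add_add_comm]

theorem lr_sub (x x' : α →₀ E) (y y' : β →₀ E) :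
    (inc Sum.inl x + inc Sum.inr y : α ⊕ β →₀ E) - (inc Sum.inl x' + inc Sum.inr y') =
      inc Sum.inl (x - x') + inc Sum.inr (y - y') := by rw [map_sub, map_sub, add_sub_add_comm]

theorem lr_neg (x : α →₀ E) (y : β →₀ E) :
    (inc Sum.inl x - inc Sum.inr y : α ⊕ β →₀ E) = inc Sum.inl x + inc Sum.inr (-y) := by
  rw [map_neg, sub_eq_add_neg]

theorem fst_lr (x : α →₀ E) (y : β →₀ E) :
    prj Sum.inl Sum.inl_injective (inc Sum.inl x + inc Sum.inr y : α ⊕ β →₀ E) = x := by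
  rw [map_add, prj_inc, prj_inl_inr, add_zero]

theorem snd_lr (x : α →₀ E) (y : β →₀ E) :
    prj Sum.inr Sum.inr_injective (inc Sum.inl x + inc Sum.inr y : α ⊕ β →₀ E) = y := by
  rw [map_add, prj_inc, prj_inr_inl, zero_add]

theorem mat_id : mat (LinearMap.id : (α →₀ E) →ₗ[E] _) 0 0 (LinearMap.id : (β →₀ E) →ₗ[E] _) =
    LinearMap.id := LinearMap.ext fun v => by
  obtain ⟨x, y, rfl⟩ := exists_lr v
  rw [mat_lr]
  exact lr_eq (by simp) (by simp)

theorem tri_comp {α'' β'' : Type} (a' : (α' →₀ E) →ₗ[E] (α'' →₀ E))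
    (k' : (β' →₀ E) →ₗ[E] (α'' →₀ E)) (b' : (β' →₀ E) →ₗ[E] (β'' →₀ E)) :
    mat a' 0 k' b' ∘ₗ mat a 0 k b = mat (a' ∘ₗ a) 0 (a' ∘ₗ k + k' ∘ₗ b) (b' ∘ₗ b) :=
  LinearMap.ext fun v => by
    obtain ⟨x, y, rfl⟩ := exists_lr v
    simp only [LinearMap.comp_apply, mat_lr, LinearMap.zero_apply, zero_add, map_add a',
      LinearMap.add_apply, add_assoc]

end

theorem Cat.D_lr (θ : Lin B A) (x : A.ι →₀ E) (y : B.ι →₀ E) :
    C.D (A.ext B θ) (inc Sum.inl x + inc Sum.inr y) =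
      inc Sum.inl (C.D A x + θ y) + inc Sum.inr (C.D B y) := by
  rw [map_add, Cat.D_ext_inl, Cat.D_ext_inr, map_add]; abel

namespace Cat.Good

variable (hC : C.Good)
include hC

theorem hom_mat {n : ℤ} (θ : Lin B A) (θ' : Lin B' A') {a : Lin A A'} {c : Lin A B'} {k : Lin B A'}
    {b : Lin B B'} (ha : C.Hom n A A' a) (hc : C.Hom n A B' c) (hk : C.Hom n B A' k)
    (hb : C.Hom n B B' b) : C.Hom n (A.ext B θ) (A'.ext B' θ') (mat a c k b) :=
  (hC.hom_comp (hC.hom_fst θ) ((hC.hom_comp ha (hC.hom_inl θ') (add_zero _)).add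
    (hC.hom_comp hc (hC.hom_inr θ') (add_zero _))) (zero_add _)).add
  (hC.hom_comp (hC.hom_snd θ) ((hC.hom_comp hk (hC.hom_inl θ') (add_zero _)).add
    (hC.hom_comp hb (hC.hom_inr θ') (add_zero _))) (zero_add _))

/-- triangular chain maps -/
theorem ch_tri {θ : Lin B A} {θ' : Lin B' A'} {a : Lin A A'} {k : Lin B A'} {b : Lin B B'}
    (ha : C.Ch A A' a) (hb : C.Ch B B' b) (hk : C.Hom 0 B A' k)
    (e : ∀ y, C.D A' (k y) + θ' (b y) = a (θ y) + k (C.D B y)) :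
    C.Ch (A.ext B θ) (A'.ext B' θ') (mat a 0 k b) := by
  refine ⟨hC.hom_mat θ θ' ha.1 (Hom.zero 0) hk hb.1, fun v => ?_⟩
  obtain ⟨x, y, rfl⟩ := exists_lr v
  rw [D_lr, mat_lr, mat_lr, D_lr]
  refine lr_eq ?_ (by simp [hb.2])
  simp only [map_add, LinearMap.zero_apply, zero_add, ha.2, add_assoc, e]

/-- a chain map `1 + N` with `N² = 0` -/
theorem isEqv_unip {N : Lin V V} (h : C.Ch V V N) (e : N ∘ₗ N = 0) :
    C.IsEqv V V (LinearMap.id + N) :=
  (hC.isEqv_of_inv (g := LinearMap.id - N) (hC.ch_id.add h) (hC.hom_id.sub h.1)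
    (by simp only [LinearMap.sub_comp, LinearMap.comp_add, e, LinearMap.comp_id,
      LinearMap.id_comp]; abel)
    (by simp only [LinearMap.add_comp, LinearMap.comp_sub, e, LinearMap.comp_id,
      LinearMap.id_comp]; abel)).1

/-- a triangular chain map whose diagonal blocks are homotopic to the identity -/
theorem isEqv_tri_one {θ : Lin B A} {a : Lin A A} {k : Lin B A} {b : Lin B B}
    (hV : C.Obj (A.ext B θ)) (h : C.Ch (A.ext B θ) (A.ext B θ) (mat a 0 k b))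
    (ha : C.Ht A A a LinearMap.id) (hb : C.Ht B B b LinearMap.id) :
    C.IsEqv (A.ext B θ) (A.ext B θ) (mat a 0 k b) := by
  obtain ⟨s, s1, s2⟩ := ha
  obtain ⟨t, t1, t2⟩ := hb
  have hθ := (hC.of_obj_ext hV).2.2
  have hH := hC.hom_mat θ θ s1 (Hom.zero _) (Hom.zero _) t1
  have e : ∀ v, mat a 0 k b v - (LinearMap.id + mat 0 0 (k - s ∘ₗ θ - θ ∘ₗ t) 0 :
      Lin (A.ext B θ) (A.ext B θ)) v = C.D (A.ext B θ) (mat s 0 0 t v) +
        mat s 0 0 t (C.D (A.ext B θ) v) := fun v => by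
    obtain ⟨x, y, rfl⟩ := exists_lr v
    rw [LinearMap.add_apply, LinearMap.id_apply, D_lr, mat_lr, mat_lr, mat_lr, mat_lr, D_lr, lr_add,
      lr_add, lr_sub]
    refine lr_eq ?_ (by simpa using t2 y)
    have := s2 x
    simp only [LinearMap.id_apply, sub_eq_iff_eq_add] at this
    simp only [LinearMap.zero_apply, zero_add, add_zero, LinearMap.sub_apply, LinearMap.comp_apply,
      map_add, this]
    abel
  have hk : C.Hom 0 B A k := by
    have := hC.hom_comp (hC.hom_comp (hC.hom_inr θ) h.1 rfl) (hC.hom_fst θ) rfl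
    refine fun i => ?_
    have e := this i
    rwa [LinearMap.comp_apply, LinearMap.comp_apply, mat_inr, fst_lr] at e
  have hN := hC.hom_mat θ θ (Hom.zero 0) (Hom.zero 0)
    ((hk.sub (hC.hom_comp hθ.1 s1 rfl)).sub (hC.hom_comp t1 hθ.1 rfl)) (Hom.zero 0)
  refine hC.isEqv_of_ht (hC.isEqv_unip ⟨hN, fun v => ?_⟩ ?_) h (Ht.symm ⟨_, hH, e⟩)
  · have e1 := congrArg (C.D (A.ext B θ)) (e v)
    have e2 := e (C.D (A.ext B θ) v)
    rw [map_add, hV.2, zero_add, map_sub, h.2] at e1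
    rw [hV.2, map_zero, add_zero, ← e1, sub_right_inj, LinearMap.add_apply, LinearMap.add_apply,
      map_add, LinearMap.id_apply, LinearMap.id_apply, add_right_inj] at e2
    exact e2.symm
  · refine LinearMap.ext fun v => ?_
    obtain ⟨x, y, rfl⟩ := exists_lr v
    rw [LinearMap.comp_apply, mat_lr, mat_lr]
    simp

theorem isEqv_of_comp {f : Lin V W} {g g' : Lin W V} (hf : C.Ch V W f) (hg : C.Ch W V g)
    (hg' : C.Ch W V g') (h : C.IsEqv V V (g ∘ₗ f)) (h' : C.IsEqv W W (f ∘ₗ g')) :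
    C.IsEqv V W f := by
  obtain ⟨-, u, u1, u2, -⟩ := h
  obtain ⟨-, w, w1, -, w2⟩ := h'
  have hl := hC.ch_comp hg u1
  have hr := hC.ch_comp w1 hg'
  have e1 : C.Ht W V ((u ∘ₗ g) ∘ₗ f ∘ₗ g' ∘ₗ w) (u ∘ₗ g) := hC.ht_comp_right w2 hl
  have e2 : C.Ht W V ((u ∘ₗ g ∘ₗ f) ∘ₗ g' ∘ₗ w) (g' ∘ₗ w) := hC.ht_comp_left hr u2
  exact ⟨hf, u ∘ₗ g, hl, u2, (hC.ht_comp_right (e1.symm.trans e2) hf).trans w2⟩

/-- the five lemma -/
theorem isEqv_tri {θ : Lin B A} {θ' : Lin B' A'} {a : Lin A A'} {k : Lin B A'} {b : Lin B B'}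
    (hV : C.Obj (A.ext B θ)) (hV' : C.Obj (A'.ext B' θ')) (ha : C.IsEqv A A' a)
    (hb : C.IsEqv B B' b) (hk : C.Hom 0 B A' k)
    (e : ∀ y, C.D A' (k y) + θ' (b y) = a (θ y) + k (C.D B y)) :
    C.IsEqv (A.ext B θ) (A'.ext B' θ') (mat a 0 k b) := by
  obtain ⟨a1, a', a2, a3, a4⟩ := ha
  obtain ⟨b1, b', b2, b3, b4⟩ := hb
  have hθ := (hC.of_obj_ext hV).2.2
  have hθ' := (hC.of_obj_ext hV').2.2
  have h1 := hC.ch_tri a1 b1 hk e
  obtain ⟨s, s1, s2⟩ := id a3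
  obtain ⟨t, t1, t2⟩ := id b4
  have h2 := hC.ch_tri (θ := θ') (θ' := θ) a2 b2
    (k := s ∘ₗ θ ∘ₗ b' - a' ∘ₗ k ∘ₗ b' + a' ∘ₗ θ' ∘ₗ t)
    (((hC.hom_comp (hC.hom_comp b2.1 hθ.1 rfl) s1 rfl).sub
      (hC.hom_comp (hC.hom_comp b2.1 hk rfl) a2.1 rfl)).add
      (hC.hom_comp (hC.hom_comp t1 hθ'.1 rfl) a2.1 rfl)) fun y => by
    have e1 := s2 (θ (b' y))
    have e2 := congrArg (a' ∘ₗ θ') (t2 y)
    have e3 := congrArg a' (e (b' y))
    simp only [LinearMap.comp_apply, LinearMap.id_apply, map_sub, map_add, hθ.2, map_neg,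
      b2.2] at e1 e2 e3
    simp only [LinearMap.comp_apply, LinearMap.add_apply, LinearMap.sub_apply, map_sub, map_add,
      a2.2, hθ'.2, map_neg]
    linear_combination (norm := abel) e2 - e1 - e3
  refine hC.isEqv_of_comp h1 h2 h2 ?_ ?_
  · have := hC.ch_comp h1 h2
    rw [tri_comp] at this ⊢
    exact hC.isEqv_tri_one hV this a3 b3
  · have := hC.ch_comp h2 h1
    rw [tri_comp] at this ⊢
    exact hC.isEqv_tri_one hV' this a4 b4

theorem eqv_ext_ht {θ θ' h : Lin B A} (hh : C.Hom 0 B A h) (e : C.Br 0 B A h (θ - θ')) :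
    C.Eqv (A.ext B θ) (A.ext B θ') := by
  have e' : ∀ y, C.D A (h y) + θ' y = θ y + h (C.D B y) := fun y => by
    rw [e y]; simp only [Int.negOnePow_zero, one_smul, LinearMap.sub_apply]; abel
  refine ⟨_, (hC.isEqv_of_inv (g := mat LinearMap.id 0 (-h) LinearMap.id)
    (hC.ch_tri (θ := θ) (θ' := θ') hC.ch_id hC.ch_id hh e')
    (hC.hom_mat θ' θ hC.hom_id (Hom.zero 0) hh.neg hC.hom_id) ?_ ?_).1⟩ <;>
  · refine LinearMap.ext fun v => ?_
    obtain ⟨x, y, rfl⟩ := exists_lr v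
    rw [LinearMap.comp_apply, mat_lr, mat_lr]
    exact lr_eq (by simp) (by simp)

theorem eqv_cone_ht {f g : Lin V W} (h : C.Ht V W f g) : C.Eqv (V.cone W f) (V.cone W g) := by
  obtain ⟨k, h1, h2⟩ := h
  exact hC.eqv_ext_ht (A := W) (B := V.sh) (h := k) ((hom_sh_left rfl).2 h1) fun v => by
    rw [D_sh, LinearMap.sub_apply, h2]; simp

theorem ht_cone_self (u : Lin V V) : C.Ht (V.cone V u) (V.cone V u) (mat u 0 0 u) 0 := by
  refine ⟨mat 0 LinearMap.id 0 0, hC.hom_mat _ _ (Hom.zero _)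
    ((hom_sh_right (k := 0) rfl).2 hC.hom_id) (Hom.zero _) (Hom.zero _), fun v => ?_⟩
  obtain ⟨x, y, rfl⟩ := exists_lr v
  rw [LinearMap.zero_apply, sub_zero, D_lr, mat_lr, mat_lr, mat_lr, D_lr, lr_add, D_sh, D_sh]
  exact lr_eq (by simp) (by simp)

theorem ctr_cone_id (hV : C.Obj V) : C.Ctr (V.cone V LinearMap.id) := by
  have _ := hV
  have := hC.ht_cone_self (V := V) LinearMap.id
  rwa [mat_id] at this

theorem ctr_cone_iff {f : Lin V W} (hV : C.Obj V) (hW : C.Obj W) (hf : C.Ch V W f) :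
    C.Ctr (V.cone W f) ↔ C.IsEqv V W f := by
  constructor
  · rintro ⟨h, h1, h2⟩
    have e : ∀ x y, inc Sum.inl x + inc Sum.inr y = C.D (V.cone W f) (h (inc Sum.inl x +
        inc Sum.inr y)) + h (inc Sum.inl (C.D W x + f y) + inc Sum.inr (-C.D V y)) := fun x y => by
      have := h2 (inc Sum.inl x + inc Sum.inr y)
      rwa [D_lr, D_sh, LinearMap.zero_apply, sub_zero] at this
    have p1 : ∀ v, prj Sum.inl Sum.inl_injective (C.D (V.cone W f) v) =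
        C.D W (prj Sum.inl Sum.inl_injective v) + f (prj Sum.inr Sum.inr_injective v) := fun v => by
      obtain ⟨x, y, rfl⟩ := exists_lr v
      rw [D_lr, fst_lr, fst_lr, snd_lr]
    have p2 : ∀ v, prj Sum.inr Sum.inr_injective (C.D (V.cone W f) v) =
        -C.D V (prj Sum.inr Sum.inr_injective v) := fun v => by
      obtain ⟨x, y, rfl⟩ := exists_lr v
      rw [D_lr, snd_lr, snd_lr, D_sh]
    have q1 := hC.hom_comp (hC.hom_inl (A := W) (B := V.sh) f) h1 (zero_add _)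
    have q2 := hC.hom_comp (hC.hom_inr (A := W) (B := V.sh) f) h1 (zero_add _)
    have q3 := hC.hom_comp q1 (hC.hom_snd (A := W) (B := V.sh) f) (add_zero _)
    have q4 := hC.hom_comp q2 (hC.hom_snd (A := W) (B := V.sh) f) (add_zero _)
    have q5 := hC.hom_comp q1 (hC.hom_fst (A := W) (B := V.sh) f) (add_zero _)
    refine ⟨hf, _, ⟨(hom_sh_right (neg_add_cancel 1)).1 q3, fun x => ?_⟩,
      ⟨_, hom_sh.1 q4, fun y => ?_⟩, Ht.symm ⟨_, q5, fun x => ?_⟩⟩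
    · have := congrArg (prj Sum.inr Sum.inr_injective) (e x 0)
      rw [snd_lr, map_add, p2] at this
      simp only [map_zero, add_zero, neg_zero] at this
      simp only [LinearMap.comp_apply]
      linear_combination (norm := abel) this
    · have := congrArg (prj Sum.inr Sum.inr_injective) (e 0 y)
      rw [snd_lr, map_add, p2] at this
      simp only [map_zero, zero_add, map_add, map_neg] at this
      simp only [LinearMap.comp_apply, LinearMap.id_apply]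
      linear_combination (norm := abel) -this
    · have := congrArg (prj Sum.inl Sum.inl_injective) (e x 0)
      rw [fst_lr, map_add, p1] at this
      simp only [map_zero, add_zero, neg_zero] at this
      simp only [LinearMap.comp_apply, LinearMap.id_apply]
      linear_combination (norm := abel) this
  · intro h
    exact hC.ctr_of_retr (Eqv.retr ⟨_, hC.isEqv_tri (k := 0) (hC.obj_cone hV hW hf)
      (hC.obj_cone hW hW hC.ch_id) hC.isEqv_id (isEqv_sh.2 h) (Hom.zero 0) fun y => by simp⟩)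
      (hC.ctr_cone_id hW)

theorem eqv_ext_left {θ : Lin B A} {a : Lin A A'} (hA : C.Obj A) (hA' : C.Obj A') (hB : C.Obj B)
    (hθ : C.At B A θ) (ha : C.IsEqv A A' a) : C.Eqv (A.ext B θ) (A'.ext B (a ∘ₗ θ)) :=
  ⟨_, hC.isEqv_tri (k := 0) (hC.obj_ext hA hB hθ) (hC.obj_ext hA' hB (hC.at_comp_right hθ ha.1)) ha
    hC.isEqv_id (Hom.zero 0) fun y => by simp⟩

theorem eqv_ext_right {θ : Lin B A} {b : Lin B' B} (hA : C.Obj A) (hB : C.Obj B) (hB' : C.Obj B')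
    (hθ : C.At B A θ) (hb : C.IsEqv B' B b) : C.Eqv (A.ext B' (θ ∘ₗ b)) (A.ext B θ) :=
  ⟨_, hC.isEqv_tri (k := 0) (hC.obj_ext hA hB' (hC.at_comp_left hb.1 hθ)) (hC.obj_ext hA hB hθ)
    hC.isEqv_id hb (Hom.zero 0) fun y => by simp⟩

theorem ch_diag {a : Lin A A'} {b : Lin B B'} (ha : C.Ch A A' a) (hb : C.Ch B B' b) :
    C.Ch (A.sum B) (A'.sum B') (mat a 0 0 b) := hC.ch_tri ha hb (Hom.zero 0) fun y => by simp

theorem ht_diag {a a' : Lin A A'} {b b' : Lin B B'} (ha : C.Ht A A' a a') (hb : C.Ht B B' b b') :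
    C.Ht (A.sum B) (A'.sum B') (mat a 0 0 b) (mat a' 0 0 b') := by
  obtain ⟨s, s1, s2⟩ := ha
  obtain ⟨t, t1, t2⟩ := hb
  refine ⟨mat s 0 0 t, hC.hom_mat _ _ s1 (Hom.zero _) (Hom.zero _) t1, fun v => ?_⟩
  obtain ⟨x, y, rfl⟩ := exists_lr v
  rw [D_lr, mat_lr, mat_lr, mat_lr, mat_lr, D_lr, lr_add, lr_sub]
  exact lr_eq (by simpa using s2 x) (by simpa using t2 y)

theorem ht_diag_id {a : Lin A A'} {a' : Lin A' A} {b : Lin B B'} {b' : Lin B' B}
    (ha : C.Ht A A (a' ∘ₗ a) LinearMap.id) (hb : C.Ht B B (b' ∘ₗ b) LinearMap.id) :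
    C.Ht (A.sum B) (A.sum B) (mat a' 0 0 b' ∘ₗ mat a 0 0 b) LinearMap.id := by
  have := hC.ht_diag ha hb
  rw [mat_id] at this
  simpa [tri_comp] using this

theorem eqv_sum (h : C.Eqv A A') (h' : C.Eqv B B') : C.Eqv (A.sum B) (A'.sum B') := by
  obtain ⟨a, a1, a', a2, a3, a4⟩ := h
  obtain ⟨b, b1, b', b2, b3, b4⟩ := h'
  exact ⟨_, hC.ch_diag a1 b1, _, hC.ch_diag a2 b2, hC.ht_diag_id a3 b3, hC.ht_diag_id a4 b4⟩

theorem retr_sum (h : C.Retr A A') (h' : C.Retr B B') : C.Retr (A.sum B) (A'.sum B') := by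
  obtain ⟨a, a', a1, a2, a3⟩ := h
  obtain ⟨b, b', b1, b2, b3⟩ := h'
  exact ⟨_, _, hC.ch_diag a1 b1, hC.ch_diag a2 b2, hC.ht_diag_id a3 b3⟩

omit hC in
theorem scal_lr {α β : Type} (z : E) (x : α →₀ E) (y : β →₀ E) :
    scal (α ⊕ β) z (inc Sum.inl x + inc Sum.inr y) =
      inc Sum.inl (scal α z x) + inc Sum.inr (scal β z y) := by
  have e : ∀ {γ : Type} (f : γ → α ⊕ β) (v : γ →₀ E),
      scal (α ⊕ β) z (inc f v) = inc f (scal γ z v) := fun f v => by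
    induction v using Finsupp.induction_linear with
    | zero => simp
    | add a b ha hb => simp only [map_add, ha, hb]
    | single i e => simp only [lmapDomain_apply, mapDomain_single, scal_single]
  rw [map_add, e, e]

theorem nul_sum {z : E} (hA : C.Nul z A) (hB : C.Nul z B) : C.Nul z (A.sum B) := by
  obtain ⟨h, h1, h2⟩ := hC.ht_diag hA hB
  refine ⟨h, h1, fun v => ?_⟩
  rw [← h2]
  obtain ⟨x, y, rfl⟩ := exists_lr v
  rw [scal_lr, mat_lr, mat_lr]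
  simp

theorem perf_sum (hA : C.Perf A) (hB : C.Perf B) : C.Perf (A.sum B) := by
  obtain ⟨X, h1, h2, h3⟩ := hA
  obtain ⟨Y, h4, h5, h6⟩ := hB
  exact ⟨_, hC.obj_sum h1 h4, h2.ext h5 0, hC.retr_sum h3 h6⟩

/-- `1 + a b` versus `1 + b a` -/
theorem eqv_cone_swap {a : Lin V W} {b : Lin W V} (hV : C.Obj V) (hW : C.Obj W) (ha : C.Ch V W a)
    (hb : C.Ch W V b) : C.Eqv (W.cone W (LinearMap.id + a ∘ₗ b))
      (V.cone V (LinearMap.id + b ∘ₗ a)) := by
  have _ := hV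
  have _ := hW
  have key : ∀ {V W : Raw E L} (a : Lin V W) (b : Lin W V),
      C.Ht (W.cone W (LinearMap.id + a ∘ₗ b)) (W.cone W (LinearMap.id + a ∘ₗ b))
        (-(mat a 0 0 a ∘ₗ mat b 0 0 b)) LinearMap.id := fun {V W} a b => by
    obtain ⟨h, h1, h2⟩ := (hC.ht_cone_self (LinearMap.id + a ∘ₗ b)).symm
    refine ⟨h, h1, fun v => ?_⟩
    rw [← h2]
    obtain ⟨x, y, rfl⟩ := exists_lr v
    rw [LinearMap.neg_apply, LinearMap.comp_apply, mat_lr, mat_lr, mat_lr]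
    simp only [LinearMap.comp_apply, LinearMap.id_apply, LinearMap.add_apply, LinearMap.zero_apply,
      add_zero, zero_add, map_add]
    abel
  refine ⟨mat b 0 0 b, hC.ch_tri (B := W.sh) (B' := V.sh) hb (ch_sh.2 hb) (Hom.zero 0)
    fun y => by simp, -mat a 0 0 a, (hC.ch_tri (B := V.sh) (B' := W.sh) ha (ch_sh.2 ha) (Hom.zero 0)
    fun y => by simp).neg, ?_, ?_⟩
  · rw [LinearMap.neg_comp]; exact key a b
  · rw [LinearMap.comp_neg]; exact key b a

theorem nul_cone_scal {z : E} (hz : C.Cen z) (hV : C.Obj V) :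
    C.Nul z (V.cone V (scal V.ι z)) := by
  have _ := hz
  have _ := hV
  obtain ⟨h, h1, h2⟩ := hC.ht_cone_self (scal V.ι z)
  refine ⟨h, h1, fun v => ?_⟩
  rw [← h2]
  obtain ⟨x, y, rfl⟩ := exists_lr v
  rw [scal_lr, mat_lr]
  simp

/-- the cone of `i : A → V` is `B` -/
theorem eqv_cone_of_split {i : Lin A V} {q : Lin V B} {r : Lin V A} {s : Lin B V}
    (hi : C.Ch A V i) (hq : C.Ch V B q) (hr : C.Hom 0 V A r) (hs : C.Hom 0 B V s)
    (h1 : r ∘ₗ i = LinearMap.id) (h2 : q ∘ₗ s = LinearMap.id)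
    (h3 : i ∘ₗ r + s ∘ₗ q = LinearMap.id) (hA : C.Obj A) (hV : C.Obj V) (hB : C.Obj B) :
    C.Eqv (A.cone V i) B := by
  have _ := hA
  have e1 : ∀ v, r (i v) = v := fun v => LinearMap.congr_fun h1 v
  have e2 : ∀ v, q (s v) = v := fun v => LinearMap.congr_fun h2 v
  have e3 : ∀ v, i (r v) + s (q v) = v := fun v => LinearMap.congr_fun h3 v
  have e4 : ∀ v, q (i v) = 0 := fun v => by
    have := congrArg q (e3 (i v))
    rwa [map_add, e1, e2, add_eq_left] at this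
  have e5 : ∀ v, r (s v) = 0 := fun v => by
    have := congrArg r (e3 (s v))
    rwa [map_add, e1, e2, add_eq_left] at this
  obtain ⟨g, g1, g2⟩ := hC.exists_br hB.1 hV.1 hs
  have g3 : ∀ v, C.D V (s v) = s (C.D B v) + g v := fun v => by simpa using g2 v
  have g4 : ∀ v, i (r (g v)) = g v := fun v => by
    have := congrArg q (g3 v)
    rw [← hq.2, e2, map_add, e2, left_eq_add] at this
    simpa [this] using e3 (g v)
  have g5 : ∀ v, C.D A (r (g v)) = -r (g (C.D B v)) := fun v => by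
    have a1 := congrArg (C.D V) (g3 v)
    rw [hV.2, map_add, g3, hB.2, map_zero, zero_add, ← g4 v, hi.2] at a1
    have := congrArg r a1
    rw [map_zero, map_add, e1] at this
    exact eq_neg_of_add_eq_zero_right this.symm
  have g6 : ∀ v, r (C.D V v) = C.D A (r v) + r (g (q v)) := fun v => by
    conv_lhs => rw [← e3 v, map_add, hi.2, g3, map_add, map_add, e1, e5, zero_add]
  have hθ : C.Hom 0 B A.sh (r ∘ₗ g) := (hom_sh_right rfl).2 (hC.hom_comp g1 hr (add_zero _))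
  have q1 := hC.hom_comp (hC.hom_fst (A := V) (B := A.sh) i) hq.1 (add_zero _)
  have q2 := (hC.hom_comp hs (hC.hom_inl (A := V) (B := A.sh) i) (add_zero _)).sub
    (hC.hom_comp hθ (hC.hom_inr (A := V) (B := A.sh) i) (add_zero _))
  have q3 := hC.hom_mat (A := V) (B := A.sh) (A' := V) (B' := A.sh) i i (Hom.zero (-1))
    ((hom_sh_right (neg_add_cancel 1)).2 hr) (Hom.zero _) (Hom.zero _)
  refine ⟨_, ⟨q1, fun v => ?_⟩, _, ⟨q2, fun v => ?_⟩, Ht.symm ⟨_, q3, fun v => ?_⟩, ?_⟩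
  · obtain ⟨x, y, rfl⟩ := exists_lr v
    rw [LinearMap.comp_apply, LinearMap.comp_apply, D_lr, fst_lr, fst_lr, map_add, e4, add_zero,
      hq.2]
  · simp only [LinearMap.sub_apply, LinearMap.comp_apply]
    rw [lr_neg, lr_neg, D_lr]
    exact lr_eq (by rw [map_neg, g4, g3, add_neg_cancel_right]) (by rw [D_sh, map_neg, g5]; simp)
  · obtain ⟨x, y, rfl⟩ := exists_lr v
    simp only [LinearMap.sub_apply, LinearMap.comp_apply, fst_lr, LinearMap.id_apply]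
    rw [lr_neg, lr_sub, D_lr, mat_lr, mat_lr, D_lr, lr_add]
    refine lr_eq ?_ ?_
    · simp only [LinearMap.zero_apply, add_zero, map_zero, zero_add]
      exact sub_eq_of_eq_add (e3 x).symm
    · rw [D_sh]
      simp only [LinearMap.zero_apply, add_zero, map_add, g6, e1]
      abel
  · have : (q ∘ₗ prj Sum.inl Sum.inl_injective) ∘ₗ (inc Sum.inl ∘ₗ s - inc Sum.inr ∘ₗ r ∘ₗ g) =
        LinearMap.id := LinearMap.ext fun v => by
      simp only [LinearMap.sub_apply, LinearMap.comp_apply, map_sub, prj_inc, prj_inl_inr, map_zero,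
        sub_zero, e2, LinearMap.id_apply]
    exact this ▸ Ht.refl _

theorem eqv_sum_ctr_left (hA : C.Ctr A) : C.Eqv (A.sum B) B := by
  refine ⟨_, hC.ch_snd 0, _, hC.ch_inr, ?_, ?_⟩
  · obtain ⟨h, h1, h2⟩ := hC.ht_diag (Ht.symm hA) (Ht.refl (V := B) LinearMap.id)
    refine ⟨h, h1, fun v => ?_⟩
    rw [← h2, mat_id]
    obtain ⟨x, y, rfl⟩ := exists_lr v
    rw [mat_lr, LinearMap.comp_apply, snd_lr]
    simp
  · have : (prj Sum.inr Sum.inr_injective ∘ₗ inc Sum.inr : Lin B B) = LinearMap.id :=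
      LinearMap.ext fun v => prj_inc (α := B.ι) (β := A.ι ⊕ B.ι) Sum.inr_injective v
    rw [this]
    exact Ht.refl _

theorem eqv_sum_ctr_right (hB : C.Ctr B) : C.Eqv (A.sum B) A :=
  hC.eqv_trans (hC.eqv_rx (Raw.rx_sum_comm A B)) (hC.eqv_sum_ctr_left hB)

theorem ses_eqv_of_ctr_left (h : C.SES A V B) (hA : C.Ctr A) : C.Eqv V B := by
  obtain ⟨θ, hθ, e⟩ := hC.exists_ext h
  obtain ⟨k, hk, ek⟩ := id hA
  refine hC.eqv_trans e.symm (hC.eqv_trans (hC.eqv_ext_ht (θ' := 0) (h := k ∘ₗ θ)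
    (hC.hom_comp hθ.1 hk (by norm_num)) fun v => ?_) (hC.eqv_sum_ctr_left hA))
  have := ek (θ v)
  simp only [LinearMap.id_apply, LinearMap.zero_apply, sub_zero, hθ.2, map_neg] at this
  simp only [LinearMap.comp_apply, Int.negOnePow_zero, one_smul, LinearMap.sub_apply,
    LinearMap.zero_apply, sub_zero]
  rw [← sub_eq_add_neg, eq_sub_iff_add_eq] at this
  rw [← this, add_comm]

theorem ses_eqv_of_ctr_right (h : C.SES A V B) (hB : C.Ctr B) : C.Eqv A V := by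
  obtain ⟨θ, hθ, e⟩ := hC.exists_ext h
  obtain ⟨k, hk, ek⟩ := id hB
  refine hC.eqv_trans (hC.eqv_trans (hC.eqv_ext_ht (θ' := 0) (h := -(θ ∘ₗ k))
    (hC.hom_comp hk hθ.1 (by norm_num)).neg fun v => ?_) (hC.eqv_sum_ctr_right hB)).symm e
  have := congrArg θ (ek v)
  simp only [LinearMap.id_apply, LinearMap.zero_apply, sub_zero, map_add] at this
  simp only [LinearMap.comp_apply, LinearMap.neg_apply, Int.negOnePow_zero, one_smul,
    map_neg, hθ.2, neg_neg, LinearMap.sub_apply, LinearMap.zero_apply, sub_zero]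
  rw [this]
  abel

theorem ses_eqv_of_ctr_mid (h : C.SES A V B) (hV : C.Ctr V) : C.Eqv B A.sh := by
  obtain ⟨θ, hθ, e⟩ := hC.exists_ext h
  obtain ⟨B', rfl⟩ := exists_sh B
  exact eqv_sh.2 ⟨θ, (hC.ctr_cone_iff (obj_sh.1 h.2.2.1) h.1 (at_sh.1 hθ)).1
    (hC.ctr_of_retr e.retr hV)⟩

theorem ses_ctr_mid (h : C.SES A V B) (hA : C.Ctr A) (hB : C.Ctr B) : C.Ctr V :=
  hC.ctr_of_retr (hC.ses_eqv_of_ctr_left h hA).retr hB

theorem ses_ctr_left (h : C.SES A V B) (hV : C.Ctr V) (hB : C.Ctr B) : C.Ctr A :=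
  hC.ctr_of_retr (hC.ses_eqv_of_ctr_right h hB).retr hV

theorem ses_ctr_right (h : C.SES A V B) (hA : C.Ctr A) (hV : C.Ctr V) : C.Ctr B :=
  hC.ctr_of_retr (hC.ses_eqv_of_ctr_left h hA).symm.retr hV

theorem ses_inO_mid (h : C.SES A V B) (hA : C.InO A) (hB : C.InO B) : C.InO V := by
  obtain ⟨θ, hθ, e⟩ := hC.exists_ext h
  obtain ⟨A₀, oA, fA, a, ha⟩ := hA
  obtain ⟨B₀, oB, fB, hb⟩ := hB
  obtain ⟨b, hb⟩ := hb.symm
  have h1 := hC.at_comp_right hθ ha.1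
  exact ⟨_, hC.obj_ext oA oB (hC.at_comp_left hb.1 h1), fA.ext fB _,
    hC.eqv_trans e.symm (hC.eqv_trans (hC.eqv_ext_left h.1 oA h.2.2.1 hθ ha)
      (hC.eqv_ext_right oA h.2.2.1 oB h1 hb).symm)⟩

/-- rotation -/
theorem ses_rot (h : C.SES A V B) : ∃ X, C.SES V X A.sh ∧ C.Eqv X B := by
  obtain ⟨hA, hV, hB, i, q, r, s, hi, hq, hr, hs, h1, h2, h3⟩ := h
  exact ⟨A.cone V i, hC.ses_ext (hC.obj_cone hA hV hi),
    hC.eqv_cone_of_split hi hq hr hs h1 h2 h3 hA hV hB⟩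

theorem ses_inO_right (h : C.SES A V B) (hA : C.InO A) (hV : C.InO V) : C.InO B := by
  obtain ⟨X, hX, e⟩ := hC.ses_rot h
  exact hC.inO_of_eqv e.symm (hC.ses_inO_mid hX hV (inO_sh.2 hA))

theorem ses_inO_left (h : C.SES A V B) (hV : C.InO V) (hB : C.InO B) : C.InO A := by
  obtain ⟨X, hX, e⟩ := hC.ses_rot h
  exact inO_sh.1 (hC.ses_inO_right hX hV (hC.inO_of_eqv e hB))

theorem inO_sum (hA : C.Obj A) (hB : C.Obj B) (h : C.InO A) (h' : C.InO B) :
    C.InO (A.sum B) := hC.ses_inO_mid (hC.ses_ext (hC.obj_sum hA hB)) h h'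

theorem ses_zero_left [IsEmpty U.ι] (hA : C.Obj A) : C.SES U A A :=
  ⟨hC.ctr_of_isEmpty.1, hA, hA, 0, LinearMap.id, 0, LinearMap.id, Ch.zero, hC.ch_id, Hom.zero 0,
    hC.hom_id, LinearMap.ext fun _ => Subsingleton.elim _ _, rfl, by simp⟩

theorem swap (h : C.SES A V B) (hA : C.InO (A.sum A.sh)) : C.InO V ↔ C.InO (A.sum B) := by
  obtain ⟨X, hX, e⟩ := hC.ses_rot h
  let Z : Raw E L := ⟨Empty, Empty.elim, Empty.elim, 0⟩
  have : IsEmpty Z.ι := inferInstanceAs (IsEmpty Empty)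
  have h1 := hC.ses_sum (hC.ses_zero_left (U := Z) h.1) hX
  have e1 : C.Eqv (Z.sum V) V := hC.eqv_sum_ctr_left hC.ctr_of_isEmpty.2
  have e2 : C.Eqv (A.sum X) (A.sum B) := hC.eqv_sum hC.eqv_refl e
  exact ⟨fun hV => hC.inO_of_eqv e2.symm (hC.ses_inO_mid h1 (hC.inO_of_eqv e1 hV) hA),
    fun hB => hC.inO_of_eqv e1.symm (hC.ses_inO_left h1 (hC.inO_of_eqv e2 hB) hA)⟩

/-- the quotient by a graded split chain map -/
theorem exists_quot {κ : Type} (dg : κ → ℤ) (lb : κ → L) {i : Lin A V} {r : Lin V A}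
    {q : (V.ι →₀ E) →ₗ[E] (κ →₀ E)} {s : (κ →₀ E) →ₗ[E] (V.ι →₀ E)} (hA : C.Obj A) (hV : C.Obj V)
    (hi : C.Ch A V i) (hr : C.Hom 0 V A r) (hq : C.Hom 0 V ⟨κ, dg, lb, 0⟩ q)
    (hs : C.Hom 0 ⟨κ, dg, lb, 0⟩ V s) (h1 : r ∘ₗ i = LinearMap.id) (h2 : q ∘ₗ s = LinearMap.id)
    (h3 : i ∘ₗ r + s ∘ₗ q = LinearMap.id) :
    ∃ δ : (κ →₀ E) →ₗ[E] (κ →₀ E), (∀ k, δ (single k 1) = q (C.D V (s (single k 1)))) ∧
      C.Obj ⟨κ, dg, lb, δ⟩ ∧ C.Ch V ⟨κ, dg, lb, δ⟩ q := by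
  have _ := hA
  have _ := hr
  have e1 : ∀ v, r (i v) = v := fun v => LinearMap.congr_fun h1 v
  have e2 : ∀ v, q (s v) = v := fun v => LinearMap.congr_fun h2 v
  have e3 : ∀ v, i (r v) + s (q v) = v := fun v => LinearMap.congr_fun h3 v
  have e4 : ∀ v, q (i v) = 0 := fun v => by
    have := congrArg q (e3 (i v))
    rwa [map_add, e1, e2, add_eq_left] at this
  let δ : (κ →₀ E) →ₗ[E] (κ →₀ E) := lc fun k => q (C.D V (s (single k 1)))
  have hδ : ∀ k, δ (single k 1) = q (C.D V (s (single k 1))) := fun k => by simp [δ]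
  have hq' : C.Hom 0 V ⟨κ, dg, lb, δ⟩ q := hq
  have hs' : C.Hom 0 ⟨κ, dg, lb, δ⟩ V s := hs
  have e5 : ∀ w, C.D ⟨κ, dg, lb, δ⟩ w = q (C.D V (s w)) := fun w => by
    induction w using Finsupp.induction_linear with
    | zero => simp
    | add a b ha hb => simp only [map_add, ha, hb]
    | single k e =>
      rw [← smul_single_one, hC.D_smul (V := ⟨κ, dg, lb, δ⟩), map_smul, hC.D_smul, map_add, map_smul,
        map_smul, hC.D_single (V := ⟨κ, dg, lb, δ⟩), hC.sg_map hs', Int.negOnePow_zero, one_smul, e2,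
        hδ]
  have e6 : ∀ v, C.D ⟨κ, dg, lb, δ⟩ (q v) = q (C.D V v) := fun v => by
    rw [e5]
    conv_rhs => rw [← e3 v, map_add, hi.2, map_add, e4, zero_add]
  refine ⟨δ, hδ, ⟨fun k => ?_, fun w => ?_⟩, hq', e6⟩
  · have := hC.map_mem hq' (hC.D_mem hV.1 (hs' k))
    rw [add_zero, add_zero, ← hδ] at this
    exact this
  · rw [e5 w, e6, hV.2, map_zero]

end Cat.Good

end Pool.Agent.Lib.NIL
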