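import Pool.Agent.Lib.NIL.A4

/-! A5: nilpotence, conservativity, the perturbation lemma. -/

namespace Pool.Agent.Lib.NIL

open Finsupp

variable {E L R : Type} [Ring E] [Ring R] {C : Cat E L} {V W : Raw E L}

/-- locally nilpotent -/
def LN {ι : Type} (n : (ι →₀ E) →ₗ[E] (ι →₀ E)) : Prop := ∀ i, ∃ N : ℕ, (n ^ N) (single i 1) = 0

theorem pow_apply_eq_zero_of_le {ι : Type} {n : (ι →₀ E) →ₗ[E] (ι →₀ E)} {v : ι →₀ E} {N N' : ℕ}
    (h : (n ^ N) v = 0) (e : N ≤ N') : (n ^ N') v = 0 := by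
  obtain ⟨k, rfl⟩ := Nat.exists_eq_add_of_le' e
  rw [pow_add, Module.End.mul_apply, h, map_zero]

theorem exists_pow_of_support {ι : Type} {n : (ι →₀ E) →ₗ[E] (ι →₀ E)} (v : ι →₀ E)
    (h : ∀ i, v i ≠ 0 → ∃ N : ℕ, (n ^ N) (single i 1) = 0) : ∃ N : ℕ, (n ^ N) v = 0 := by
  rw [← v.sum_single, Finsupp.sum]
  refine Finset.sum_induction _ (fun v => ∃ N : ℕ, (n ^ N) v = 0) ?_ ⟨0, map_zero _⟩ ?_
  · rintro a b ⟨N, ha⟩ ⟨N', hb⟩
    exact ⟨N + N', by rw [map_add, pow_apply_eq_zero_of_le ha (Nat.le_add_right _ _),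
      pow_apply_eq_zero_of_le hb (Nat.le_add_left _ _), add_zero]⟩
  · intro i hi
    obtain ⟨N, hN⟩ := h i (mem_support_iff.1 hi)
    exact ⟨N, by rw [← smul_single_one, map_smul, hN, smul_zero]⟩

theorem LN.exists_pow {ι : Type} {n : (ι →₀ E) →ₗ[E] (ι →₀ E)} (h : LN n) (v : ι →₀ E) :
    ∃ N : ℕ, (n ^ N) v = 0 := exists_pow_of_support v fun i _ => h i

theorem ln_of_wf {ι : Type} {n : (ι →₀ E) →ₗ[E] (ι →₀ E)} {r : ι → ι → Prop} (hr : WellFounded r)
    (h : ∀ i i', n (single i 1) i' ≠ 0 → r i' i) : LN n := fun i => by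
  induction i using hr.induction with
  | _ i ih =>
    obtain ⟨N, hN⟩ := exists_pow_of_support (n := n) (n (single i 1)) fun i' e => ih i' (h i i' e)
    exact ⟨N + 1, by rw [pow_succ, Module.End.mul_apply, hN]⟩

theorem ln_of_deg (hV : V.Bdd) {n : Lin V V} (h : ∀ i i', n (single i 1) i' ≠ 0 → V.deg i' < V.deg i) :
    LN n := by
  obtain ⟨c, hc⟩ := hV
  refine ln_of_wf (InvImage.wf (fun i => (V.deg i - c).toNat) Nat.lt_wfRel.wf) fun i i' e => ?_
  have h1 := h i i' e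
  have h2 := hc i'
  change (V.deg i' - c).toNat < (V.deg i - c).toNat
  omega

theorem LN.pow_eq_zero {ι : Type} [Finite ι] {n : (ι →₀ E) →ₗ[E] (ι →₀ E)} (h : LN n) :
    ∃ N : ℕ, n ^ N = 0 := by
  choose N hN using h
  obtain ⟨M, hM⟩ := Finite.exists_le N
  refine ⟨M, ?_⟩
  ext1 i
  ext1
  exact pow_apply_eq_zero_of_le (hN i) (hM i)

theorem lin_sub_sub (a b : Lin V W) : a - (a - b) = b :=
  LinearMap.ext fun v => sub_sub_cancel (a v) (b v)

theorem lin_sub_zero (a : Lin V W) : a - 0 = a := LinearMap.ext fun v => sub_zero (a v)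

namespace Cat.Good

variable (hC : C.Good)
include hC

theorem hom_pow {n : Lin V V} (hn : C.Hom 0 V V n) (k : ℕ) : C.Hom 0 V V (n ^ k) := by
  induction k with
  | zero => exact hC.hom_id
  | succ k ih =>
    rw [pow_succ]
    exact hC.hom_comp hn ih rfl

theorem ch_pow {n : Lin V V} (hn : C.Ch V V n) (k : ℕ) : C.Ch V V (n ^ k) := by
  induction k with
  | zero => exact hC.ch_id
  | succ k ih =>
    rw [pow_succ]
    exact hC.ch_comp hn ih

theorem exists_inv {n : Lin V V} (hn : C.Hom 0 V V n) (h : LN n) : ∃ u : Lin V V, C.Hom 0 V V u ∧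
    u ∘ₗ (LinearMap.id - n) = LinearMap.id ∧ (LinearMap.id - n) ∘ₗ u = LinearMap.id := by
  have hv := h.exists_pow
  choose N hN using h
  have e2 : (LinearMap.id - n) ∘ₗ
      (lc fun i => (∑ k ∈ Finset.range (N i), n ^ k) (single i 1)) = LinearMap.id := by
    ext1 i
    ext1
    have := LinearMap.congr_fun (mul_neg_geom_sum n (N i)) (single i 1)
    rw [LinearMap.sub_apply, hN, sub_zero] at this
    simp only [LinearMap.comp_apply, lsingle_apply, linearCombination_single, one_smul]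
    exact this
  refine ⟨_, fun i => ?_, ?_, e2⟩
  · rw [linearCombination_single, one_smul, LinearMap.sum_apply]
    exact sum_mem fun k _ => hC.hom_pow hn k i
  · have inj : ∀ v, (LinearMap.id - n : Lin V V) v = 0 → v = 0 := fun v e => by
      obtain ⟨M, hM⟩ := hv v
      rw [LinearMap.sub_apply, sub_eq_zero, LinearMap.id_apply] at e
      have : ∀ k : ℕ, (n ^ k) v = v := fun k => by
        induction k with
        | zero => rfl
        | succ k ih => rw [pow_succ, Module.End.mul_apply, ← e, ih]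
      rw [← this M, hM]
    refine LinearMap.ext fun v => sub_eq_zero.1 (inj _ ?_)
    rw [map_sub, sub_eq_zero]
    exact LinearMap.congr_fun e2 _

/-- the boundary of a map of degree `-1` is a null-homotopic chain map -/
theorem ch_of_br_neg {h f : Lin V W} (hV : C.Obj V) (hW : C.Obj W) (hh : C.Hom (-1) V W h)
    (e : C.Br (-1) V W h f) : C.Ch V W f ∧ C.Ht V W f 0 := by
  have e1 : ∀ v, f v = C.D W (h v) + h (C.D V v) := fun v => by
    rw [e v, Int.negOnePow_neg, Int.negOnePow_one, Units.neg_smul, one_smul]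
    abel
  obtain ⟨g, hg, e'⟩ := hC.exists_br hV.1 hW.1 hh
  have : g = f := LinearMap.ext fun v => add_left_cancel ((e' v).symm.trans (e v))
  subst this
  refine ⟨⟨hg, fun v => ?_⟩, ht_iff_br.2 ⟨h, hh, by rwa [lin_sub_zero]⟩⟩
  rw [e1, e1, map_add, hW.2, hV.2, map_zero, zero_add, add_zero]

theorem ctr_of_ln {h n : Lin V V} (hV : C.Obj V) (hh : C.Hom (-1) V V h)
    (e : C.Br (-1) V V h (LinearMap.id - n)) (hn : LN n) : C.Ctr V := by
  obtain ⟨h1, h2⟩ := hC.ch_of_br_neg hV hV hh e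
  have h3 := hC.hom_id.sub h1.1
  rw [lin_sub_sub] at h3
  obtain ⟨u, hu, e1, e2⟩ := hC.exists_inv h3 hn
  have := hC.ht_comp_right h2 (hC.isEqv_of_inv h1 hu e1 e2).2
  rwa [e1, LinearMap.comp_zero] at this

theorem nul_of_ln {z : E} {h n : Lin V V} (hz : C.Cen z) (hV : C.Obj V) (hf : Finite V.ι)
    (hh : C.Hom (-1) V V h) (e : C.Br (-1) V V h (scal V.ι z - n)) (hn : LN n) :
    ∃ N : ℕ, C.Nul (z ^ N) V := by
  obtain ⟨h1, h2⟩ := hC.ch_of_br_neg hV hV hh e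
  have h3 := (hC.ch_scal hz).sub h1
  rw [lin_sub_sub] at h3
  rw [ht_sub_iff] at h2
  have key : ∀ k : ℕ, C.Ht V V (scal V.ι (z ^ k)) (n ^ k) := fun k => by
    induction k with
    | zero =>
      rw [pow_zero, scal_one]
      exact Ht.refl _
    | succ k ih =>
      rw [pow_succ, scal_mul, pow_succ']
      exact (hC.ht_comp_right ih (hC.ch_scal hz)).trans (hC.ht_comp_left (hC.ch_pow h3 k) h2)
  obtain ⟨N, hN⟩ := hn.pow_eq_zero
  exact ⟨N, by rw [Nul, ← hN]; exact key N⟩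

theorem ctr_of_disky (hV : C.Obj V) (h : V.Disky) : C.Ctr V := by
  classical
  obtain ⟨κ, e, ρ, s, hd, hl, hδ⟩ := h
  obtain ⟨h, hb⟩ : ∃ h : Lin V V, ∀ k b, h (single (e (k, b)) 1) =
      if b = true then 0 else s k • single (e (k, true)) 1 :=
    ⟨lc fun i => if (e.symm i).2 = true then 0 else s (e.symm i).1 • single (e ((e.symm i).1, true)) 1,
      fun k b => by rw [linearCombination_single, one_smul, e.symm_apply_apply]⟩
  have ss : ∀ (k) (x : E), s k • s k • x = x := fun k x => by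
    rw [smul_smul, Int.units_mul_self, one_smul]
  have hv : ∀ v k b, h v (e (k, b)) = if b = true then s k • v (e (k, false)) else 0 := by
    intro v k b
    induction v using Finsupp.induction_linear with
    | zero => simp
    | add a a' ha ha' =>
      rw [map_add, Finsupp.add_apply, ha, ha']
      split_ifs <;> simp
    | single i x =>
      obtain ⟨⟨k', b'⟩, rfl⟩ := e.surjective i
      rw [← smul_single_one, map_smul, hb]
      by_cases hk : k' = k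
      · subst hk
        cases b <;> cases b' <;> simp [mul_smul_comm]
      · cases b <;> cases b' <;> simp [hk]
  have hh : C.Hom (-1) V V h := fun i => by
    obtain ⟨⟨k, b⟩, rfl⟩ := e.surjective i
    rw [hb]
    cases b with
    | true => exact zero_mem _
    | false =>
      have := hC.basis_mem (V := V) (e (k, true))
      rw [if_neg Bool.false_ne_true, hd, hl, add_neg_cancel_right, Units.smul_def]
      exact zsmul_mem this _
  obtain ⟨g, -, hg⟩ := hC.exists_br hV.1 hV.1 hh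
  refine hC.ctr_of_ln (n := LinearMap.id - g) hV hh (by rwa [lin_sub_sub]) ?_
  refine ln_of_wf (InvImage.wf (fun i => ρ (e.symm i).1) Nat.lt_wfRel.wf) fun i i' hne => ?_
  obtain ⟨⟨k, b⟩, rfl⟩ := e.surjective i
  obtain ⟨⟨k', b'⟩, rfl⟩ := e.surjective i'
  change ρ (e.symm (e (k', b'))).1 < ρ (e.symm (e (k, b))).1
  rw [e.symm_apply_apply, e.symm_apply_apply]
  by_contra hlt
  have hle : ρ k ≤ ρ k' := Nat.le_of_not_lt hlt
  apply hne
  have e1 : g (single (e (k, b)) 1) =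
      C.D V (h (single (e (k, b)) 1)) + h (V.δ (single (e (k, b)) 1)) := by
    rw [hg, Int.negOnePow_neg, Int.negOnePow_one, Units.neg_smul, one_smul, hC.D_single]
    abel
  rw [LinearMap.sub_apply, LinearMap.id_apply, e1, Finsupp.sub_apply, Finsupp.add_apply, hv, hb,
    hδ k b k' false hle, sub_eq_zero]
  cases b with
  | true =>
    rw [if_pos rfl, map_zero, Finsupp.zero_apply, zero_add]
    by_cases hk : k = k'
    · subst hk
      cases b' <;> simp [ss]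
    · cases b' <;> simp [hk]
  | false =>
    rw [if_neg Bool.false_ne_true, Units.smul_def, map_zsmul, hC.D_single, ← Units.smul_def,
      Finsupp.smul_apply, hδ k true k' b' hle]
    by_cases hk : k = k'
    · subst hk
      cases b' <;> simp [ss]
    · cases b' <;> simp [hk]

/-- transport of structure along an invertible map -/
theorem obj_conj {g g' : Lin V V} (hV : C.Obj V) (hg : C.Hom 0 V V g) (hg' : C.Hom 0 V V g')
    (h1 : g ∘ₗ g' = LinearMap.id) (h2 : g' ∘ₗ g = LinearMap.id) :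
    ∃ δ : Lin V V, (∀ i, δ (single i 1) = g (C.D V (g' (single i 1)))) ∧
      C.Obj ⟨V.ι, V.deg, V.lab, δ⟩ ∧ C.Ch V ⟨V.ι, V.deg, V.lab, δ⟩ g := by
  obtain ⟨δ, hδ⟩ : ∃ δ : Lin V V, ∀ i, δ (single i 1) = g (C.D V (g' (single i 1))) :=
    ⟨lc fun i => g (C.D V (g' (single i 1))), fun i => by rw [linearCombination_single, one_smul]⟩
  have c1 : C.Ch ⟨V.ι, V.deg, V.lab, δ⟩ V g' := hC.ch_of_basis hg' fun i => by
    change _ = g' (δ (single i 1))
    rw [hδ]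
    exact (LinearMap.congr_fun h2 _).symm
  have c2 : C.Ch V ⟨V.ι, V.deg, V.lab, δ⟩ g := (hC.isEqv_of_inv c1 hg h1 h2).2
  refine ⟨δ, hδ, ⟨fun i => ?_, fun v => ?_⟩, c2⟩
  · have := hC.map_mem hg (hC.D_mem hV.1 (hg' i))
    rw [add_zero, add_zero, ← hδ] at this
    exact this
  · have : v = g (g' v) := (LinearMap.congr_fun h1 v).symm
    rw [this, c2.2, c2.2, hV.2, map_zero]

end Cat.Good

/-- `f` raises the degree of generators by at most `c` -/
def Low (c : ℤ) (V W : Raw E L) (f : Lin V W) : Prop :=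
  ∀ i i', f (single i 1) i' ≠ 0 → W.deg i' ≤ V.deg i + c

theorem Low.add {c : ℤ} {f g : Lin V W} (hf : Low c V W f) (hg : Low c V W g) :
    Low c V W (f + g) := fun i i' e => by
  by_cases h : f (single i 1) i' = 0
  · exact hg i i' fun h' => e (by rw [LinearMap.add_apply, Finsupp.add_apply, h, h', add_zero])
  · exact hf i i' h

theorem Low.comp {T : Raw E L} {a b : ℤ} {f : Lin T V} {g : Lin V W} (hf : Low a T V f)
    (hg : Low b V W g) : Low (a + b) T W (g ∘ₗ f) := fun i i' e => by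
  by_contra hc
  refine e ?_
  rw [LinearMap.comp_apply, ← (f (single i 1)).sum_single, map_finsuppSum, Finsupp.sum,
    Finsupp.finsetSum_apply]
  refine Finset.sum_eq_zero fun k hk => ?_
  have h1 := hf i k (mem_support_iff.1 hk)
  have h2 : g (single k 1) i' = 0 := by
    by_contra h
    have := hg k i' h
    omega
  rw [← smul_single_one, map_smul, Finsupp.smul_apply, h2, smul_zero]

theorem hpl_aux {X : Raw E L} {D₀ : (V.ι →₀ E) →+ (V.ι →₀ E)} {t k u : Lin V V} {f : Lin V X}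
    {g : Lin X V} (hV : C.Obj V) (hX : C.Obj X) (hD : ∀ v, C.D V v = D₀ v + t v)
    (h0 : ∀ v, D₀ (D₀ v) = 0) (hf : ∀ v, C.D X (f v) = f (D₀ v))
    (hg : ∀ x, D₀ (g x) = g (C.D X x)) (hk : ∀ v, D₀ (k v) = -k (D₀ v) + (g (f v) - v))
    (u1 : ∀ v, u (v - k (t v)) = v) (u2 : ∀ v, u v - k (t (u v)) = v)
    (hA : C.Hom 1 X X (f ∘ₗ t ∘ₗ u ∘ₗ g)) :
    C.Obj ⟨X.ι, X.deg, X.lab, X.δ + f ∘ₗ t ∘ₗ u ∘ₗ g⟩ ∧ ∀ x, C.D V (u (g x)) =
      u (g (C.D ⟨X.ι, X.deg, X.lab, X.δ + f ∘ₗ t ∘ₗ u ∘ₗ g⟩ x)) := by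
  have hDX : ∀ x, C.D ⟨X.ι, X.deg, X.lab, X.δ + f ∘ₗ t ∘ₗ u ∘ₗ g⟩ x =
      C.D X x + f (t (u (g x))) := fun x =>
    add_right_comm (X.δ x) (f (t (u (g x)))) (X.tw C.d x)
  have hsq : ∀ y, D₀ (t y) + t (C.D V y) = 0 := fun y => by
    have h1 := hV.2 y
    rw [hD, hD y, map_add, h0, zero_add, ← hD y] at h1
    exact h1
  have hch : ∀ x, C.D V (u (g x)) = u (g (C.D X x + f (t (u (g x))))) := fun x => by
    have h1 := u2 (g x)
    have h4 := congrArg k (hsq (u (g x)))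
    rw [← u1 (C.D V (u (g x))), map_add g, ← hg x]
    congr 1
    generalize u (g x) = y at h1 h4
    rw [map_add, map_zero] at h4
    rw [← h1, map_sub, hk, eq_neg_of_add_eq_zero_right h4, hD y]
    abel
  refine ⟨⟨hX.1.add hA, fun x => ?_⟩, fun x => by rw [hDX, hch]⟩
  rw [hDX, hDX, ← hch, map_add, hX.2, zero_add, hf, ← map_add, hsq, map_zero]

namespace Aug

variable {j : ℤ} {C₀ : Cat R L} {I : R →+ E} {U : E →+ R} (h : Aug j C C₀ I U)
include h

theorem mapL_UI {ι κ : Type} (f : (ι →₀ R) →ₗ[R] (κ →₀ R)) : mapL U (mapL I f) = f :=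
  lin_ext fun i k => by rw [mapL_single, mapL_single, h.UI]

theorem mapA_UI (X : Raw R L) : (X.mapA I id).mapA U id = X :=
  congrArg (Raw.mk X.ι X.deg X.lab) (h.mapL_UI X.δ)

/-- the difference between `δ` and its degree zero part -/
theorem pert (_hj : 1 ≤ j) (hV : C.Obj V) (i i' : V.ι)
    (e : (V.δ - mapL I (mapL U V.δ)) (single i 1) i' ≠ 0) : V.deg i' + j ≤ V.deg i + 1 := by
  rw [LinearMap.sub_apply, Finsupp.sub_apply, mapL_single, mapL_single] at e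
  have h1 := hV.1 i i'
  by_contra hc
  by_cases h0 : V.deg i + 1 - V.deg i' = 0
  · rw [h0] at h1
    exact e (by rw [h.IU h1, sub_self])
  · exact e (by rw [h.gap (by omega) h0 h1, map_zero, map_zero, sub_self])

theorem fnI : IsFn C₀ C (fun X => X.mapA I id) fun _ _ f => mapL I f := h.hI.isFn h.good₀ h.good

theorem fnU : IsFn C C₀ (fun X => X.mapA U id) fun _ _ f => mapL U f := h.hU.isFn h.good h.good₀

theorem low_I {X Y : Raw R L} {k : ℤ} {f : Lin X Y} (hf : C₀.Hom k X Y f) :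
    Low k (X.mapA I id) (Y.mapA I id) (mapL I f) := fun i i' e => by
  rw [mapL_single] at e
  by_contra hc
  exact e (by rw [h.zero₀ (fun h0 => hc (by change Y.deg i' ≤ X.deg i + k; omega)) (hf i i'),
    map_zero])

theorem low_t (hj : 1 ≤ j) (hV : C.Obj V) : Low 0 V V (V.δ - mapL I (mapL U V.δ)) :=
  fun i i' e => by have := h.pert hj hV i i' e; omega

omit h in
theorem D_eq (v : V.ι →₀ E) :
    C.D V v = C.D ((V.mapA U id).mapA I id) v + (V.δ - mapL I (mapL U V.δ)) v := by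
  rw [Cat.D_apply, Cat.D_apply, LinearMap.sub_apply]
  change _ = mapL I (mapL U V.δ) v + V.tw C.d v + _
  abel

/-- a homotopy of the degree zero part is a homotopy up to a nilpotent error -/
theorem exists_ln (hj : 1 ≤ j) (hV : C.Obj V) (hb : V.Bdd) {a : Lin (V.mapA U id) (V.mapA U id)}
    (e : C₀.Ht _ _ a 0) : ∃ k n : Lin V V, C.Hom (-1) V V k ∧
      C.Br (-1) V V k (mapL I a - n) ∧ LN n := by
  obtain ⟨k, hk, e⟩ := Cat.ht_iff_br.1 e
  rw [show a - 0 = a from sub_zero a] at e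
  have h0 := h.fnU.obj hV
  have h1 := h.fnI.br h0 h0 hk e
  have h2 := h.low_I hk
  have h3 := h.low_t hj hV
  refine ⟨mapL I k, -((V.δ - mapL I (mapL U V.δ)) ∘ₗ mapL I k +
    mapL I k ∘ₗ (V.δ - mapL I (mapL U V.δ))), h.fnI.hom hk, fun v => ?_, ln_of_deg hb ?_⟩
  · rw [D_eq (U := U) (I := I), h1 v, D_eq (U := U) (I := I) v]
    simp only [Int.negOnePow_neg, Int.negOnePow_one, Units.neg_smul, one_smul, map_add,
      LinearMap.sub_apply, LinearMap.neg_apply, LinearMap.add_apply, LinearMap.comp_apply]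
    abel
  · intro i i' e
    have h4 : Low (-1) V V _ := Low.add (Low.comp (T := V) h2 h3) (Low.comp (W := V) h3 h2)
    have := h4 i i' fun h5 => e (by rw [LinearMap.neg_apply, Finsupp.neg_apply, h5, neg_zero])
    omega

theorem ctr_of (hj : 1 ≤ j) (hV : C.Obj V) (hb : V.Bdd) (e : C₀.Ctr (V.mapA U id)) : C.Ctr V := by
  obtain ⟨k, n, h1, h2, h3⟩ := h.exists_ln hj hV hb e
  have h4 : mapL I (LinearMap.id : Lin (V.mapA U id) (V.mapA U id)) = LinearMap.id :=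
    h.fnI.id (V.mapA U id)
  rw [h4] at h2
  exact h.good.ctr_of_ln hV h1 h2 h3

theorem nul_of (hj : 1 ≤ j) {z : R} (hz : C.Cen (I z)) (hV : C.Obj V) (hf : Finite V.ι)
    (e : C₀.Nul z (V.mapA U id)) : ∃ N : ℕ, C.Nul (I z ^ N) V := by
  obtain ⟨k, n, h1, h2, h3⟩ := h.exists_ln hj hV (Raw.bdd_of_finite hf) e
  rw [mapL_scal] at h2
  exact h.good.nul_of_ln hz hV hf h1 h2 h3

theorem isEqv_of (hj : 1 ≤ j) {f : Lin V W} (hV : C.Obj V) (hW : C.Obj W) (hb : V.Bdd)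
    (hb' : W.Bdd) (hf : C.Ch V W f) (e : C₀.IsEqv (V.mapA U id) (W.mapA U id) (mapL U f)) :
    C.IsEqv V W f := by
  refine (h.good.ctr_cone_iff hV hW hf).1
    (h.ctr_of hj (h.good.obj_cone hV hW hf) (hb'.ext hb.sh f) ?_)
  have h1 := (h.good₀.ctr_cone_iff (h.fnU.obj hV) (h.fnU.obj hW) e.1).2 e
  have h2 : (V.cone W f).mapA U id = (V.mapA U id).cone (W.mapA U id) (mapL U f) :=
    (Raw.mapA_ext U id (A := W) (B := V.sh) f).trans
      (congrArg (fun d => (W.mapA U id).ext ⟨V.ι, fun i => V.deg i - 1, V.lab, d⟩ (mapL U f))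
        (h.fnU.neg V V V.δ))
  rwa [h2]

/-- the perturbation lemma -/
theorem hpl (hj : 1 ≤ j) (hV : C.Obj V) (hb : V.Bdd) {X : Raw R L} (hX : C₀.Obj X) (hb' : X.Bdd)
    (e : C₀.Eqv (V.mapA U id) X) : ∃ δ : (X.ι →₀ E) →ₗ[E] (X.ι →₀ E),
      C.Obj ⟨X.ι, X.deg, X.lab, δ⟩ ∧ C.Eqv V ⟨X.ι, X.deg, X.lab, δ⟩ := by
  obtain ⟨f₀, hf₀, g₀, hg₀, e1, e2⟩ := e
  obtain ⟨k₀, hk₀, e3⟩ := Cat.ht_iff_br.1 e1
  have hC := h.good
  have h0 := h.fnU.obj hV
  have hV0 := h.fnI.obj h0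
  have hf := h.fnI.ch h0 hX hf₀
  have hg := h.fnI.ch hX h0 hg₀
  obtain ⟨t, et⟩ : ∃ t : Lin V V, t = V.δ - mapL I (mapL U V.δ) := ⟨_, rfl⟩
  obtain ⟨k, ek⟩ : ∃ k : Lin V V, k = mapL I k₀ := ⟨_, rfl⟩
  obtain ⟨f, ef⟩ : ∃ f : Lin V (X.mapA I id), f = mapL I f₀ := ⟨_, rfl⟩
  obtain ⟨g, eg⟩ : ∃ g : Lin (X.mapA I id) V, g = mapL I g₀ := ⟨_, rfl⟩
  have hk : C.Hom (-1) V V k := ek ▸ h.fnI.hom hk₀
  have hf' : C.Hom 0 V (X.mapA I id) f := ef ▸ hf.1
  have hg' : C.Hom 0 (X.mapA I id) V g := eg ▸ hg.1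
  have ht : C.Hom 1 V V t := et ▸ hV.1.sub hV0.1
  have hUt : mapL U t = 0 := by
    rw [et]
    refine (h.fnU.sub V V _ _).trans ?_
    rw [h.mapL_UI]
    exact sub_self (mapL U V.δ)
  have hl : Low (0 + -1) V V (k ∘ₗ t) := Low.comp (et ▸ h.low_t hj hV) (ek ▸ h.low_I hk₀)
  have hgf : mapL I (g₀ ∘ₗ f₀ - LinearMap.id) = mapL I g₀ ∘ₗ mapL I f₀ - LinearMap.id :=
    (h.fnI.sub _ _ _ _).trans (congrArg₂ (· - ·) (h.fnI.comp hf₀.1 hg₀.1) (h.fnI.id _))
  have hD : ∀ v, C.D V v = C.D ((V.mapA U id).mapA I id) v + t v := et ▸ D_eq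
  have hf2 : ∀ v, C.D (X.mapA I id) (f v) = f (C.D ((V.mapA U id).mapA I id) v) := ef ▸ hf.2
  have hg2 : ∀ v, C.D ((V.mapA U id).mapA I id) (g v) = g (C.D (X.mapA I id) v) := eg ▸ hg.2
  have hk2 : ∀ v, C.D ((V.mapA U id).mapA I id) (k v) =
      -k (C.D ((V.mapA U id).mapA I id) v) + (g (f v) - v) := fun v => by
    have h1 := h.fnI.br h0 h0 hk₀ e3 v
    rw [hgf, Int.negOnePow_neg, Int.negOnePow_one, Units.neg_smul, one_smul] at h1
    rw [ek, ef, eg]
    exact h1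
  obtain ⟨u, hu, u1, u2⟩ := hC.exists_inv (hC.hom_comp ht hk (by norm_num))
    (ln_of_deg hb fun i i' e => by have := hl i i' e; omega)
  have hug : C.Hom 0 (X.mapA I id) V (u ∘ₗ g) := hC.hom_comp hg' hu rfl
  have htu : C.Hom 1 (X.mapA I id) V (t ∘ₗ u ∘ₗ g) := hC.hom_comp hug ht rfl
  obtain ⟨hO, hch⟩ := hpl_aux hV (h.fnI.obj hX) hD hV0.2 hf2 hg2 hk2
    (LinearMap.congr_fun u1) (LinearMap.congr_fun u2) (hC.hom_comp htu hf' rfl)
  refine ⟨_, hO, Cat.Eqv.symm ⟨u ∘ₗ g, h.isEqv_of hj hO hV hb' hb ⟨hug, hch⟩ ?_⟩⟩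
  have h5 : mapL U (t ∘ₗ u ∘ₗ g) = 0 := (h.fnU.comp hug ht).trans (by
    change mapL U t ∘ₗ _ = 0
    rw [hUt]
    exact LinearMap.zero_comp _)
  have h6 : mapL U (mapL I X.δ + f ∘ₗ t ∘ₗ u ∘ₗ g) = X.δ := by
    have h7 : mapL U (f ∘ₗ t ∘ₗ u ∘ₗ g) = mapL U f ∘ₗ mapL U (t ∘ₗ u ∘ₗ g) :=
      h.fnU.comp htu hf'
    rw [mapL_add, h.mapL_UI, h7, h5, LinearMap.comp_zero]
    exact add_zero _
  have h8 : mapL U (u ∘ₗ g) = g₀ := by
    have h7 : mapL U (k ∘ₗ t ∘ₗ u ∘ₗ g) = mapL U k ∘ₗ mapL U (t ∘ₗ u ∘ₗ g) := h.fnU.comp htu hk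
    have h9 : u ∘ₗ g = g + k ∘ₗ t ∘ₗ u ∘ₗ g := LinearMap.ext fun x =>
      sub_eq_iff_eq_add.1 (LinearMap.congr_fun u2 (g x))
    rw [h9, mapL_add, h7, h5, LinearMap.comp_zero, eg, h.mapL_UI]
    exact add_zero _
  have key : ∀ (d : Lin X X) (a : Lin X (V.mapA U id)), d = X.δ → a = g₀ →
      C₀.IsEqv ⟨X.ι, X.deg, X.lab, d⟩ (V.mapA U id) a := by
    rintro _ _ rfl rfl
    exact ⟨hg₀, f₀, hf₀, e2, e1⟩
  exact key _ _ h6 h8

/-- the form in which `P` is used -/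
theorem inO_of_P (hj : 1 ≤ j) (hP : C.P) (hV : C.Obj V) (hb : V.Bdd) (hp : C.Perf V ∨ V.WF)
    (e : C₀.InO (V.mapA U id)) : C.InO V := by
  obtain ⟨X, hX, hf, e⟩ := e
  obtain ⟨δ, h1, h2⟩ := h.hpl hj hV hb hX (Raw.bdd_of_finite hf.1) e
  refine h.good.inO_of_eqv h2 (hP _ h1 hf.1 (hp.elim (h.good.perf_of_retr h2.symm.retr)
    fun hw => h.good.perf_of_wf h1 hV hf.1 hw h2.symm))

end Aug

end Pool.Agent.Lib.NIL
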