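import Pool.Agent.Lib.NIL.A5

/-! A6: base change, forgetting the variable, clearing denominators. -/

namespace Pool.Agent.Lib.NIL

open Finsupp TensorProduct Polynomial

variable {E L E' L' E'' R : Type} [Ring E] [Ring E'] [Ring E''] [Ring R] {C : Cat E L}
  {C' : Cat E' L'} {B B' A : Type} [CommRing B] [CommRing B'] [CommRing A]

theorem lT_tmul (φ : E →+ E') (b : B) (e : E) : lT B φ (b ⊗ₜ e) = b ⊗ₜ φ e := rfl

theorem rT_tmul (φ : B →+ B') (b : B) (e : E) : rT E φ (b ⊗ₜ e) = φ b ⊗ₜ e := rfl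

/-- additive maps out of a tensor product agree if they agree on pure tensors -/
theorem tensor_ind {p : B ⊗[ℤ] E → Prop} (z : B ⊗[ℤ] E) (h : ∀ b e, p (b ⊗ₜ e))
    (ha : ∀ x y, p x → p y → p (x + y)) : p z := by
  induction z using TensorProduct.induction_on with
  | zero => simpa using h 0 0
  | tmul b e => exact h b e
  | add x y hx hy => exact ha x y hx hy

/-- additive maps that agree on pure tensors -/
theorem tensor_eq {T : Type} [AddGroup T] (f g : B ⊗[ℤ] E →+ T)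
    (h : ∀ b e, f (b ⊗ₜ e) = g (b ⊗ₜ e)) (z : B ⊗[ℤ] E) : f z = g z :=
  tensor_ind (p := fun z => f z = g z) z h fun x y hx hy => by rw [map_add, map_add, hx, hy]

theorem lT_comp (φ : E →+ E') (ψ : E' →+ E'') : lT B (ψ.comp φ) = (lT B ψ).comp (lT B φ) :=
  AddMonoidHom.ext (tensor_eq _ _ fun _ _ => rfl)

theorem lT_id : lT B (AddMonoidHom.id E) = AddMonoidHom.id _ :=
  AddMonoidHom.ext (tensor_eq _ _ fun _ _ => rfl)

theorem lT_zero : lT B (0 : E →+ E') = 0 :=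
  AddMonoidHom.ext (tensor_eq _ _ fun _ _ => tmul_zero _ _)

theorem lT_rT (φ : E →+ E') (ψ : B →+ B') (z : B ⊗[ℤ] E) :
    lT B' φ (rT E ψ z) = rT E' ψ (lT B φ z) :=
  tensor_eq ((lT B' φ).comp (rT E ψ)) ((rT E' ψ).comp (lT B φ)) (fun _ _ => rfl) z

/-- an additive map that is multiplicative on pure tensors -/
theorem tensor_mul {T : Type} [Ring T] (f : B ⊗[ℤ] E →+ T)
    (h : ∀ b e b' e', f ((b * b') ⊗ₜ (e * e')) = f (b ⊗ₜ e) * f (b' ⊗ₜ e')) (x y : B ⊗[ℤ] E) :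
    f (x * y) = f x * f y :=
  tensor_ind (p := fun x => f (x * y) = f x * f y) x
    (fun b e => tensor_ind (p := fun y => f (_ * y) = f _ * f y) y
      (fun b' e' => by rw [Algebra.TensorProduct.tmul_mul_tmul, h])
      fun y y' h1 h2 => by rw [mul_add, map_add, map_add, mul_add, h1, h2])
    fun x x' h1 h2 => by rw [add_mul, map_add, map_add, add_mul, h1, h2]

theorem lT_mul (φ : E →+* E') (x y : B ⊗[ℤ] E) :
    lT B φ.toAddMonoidHom (x * y) = lT B φ.toAddMonoidHom x * lT B φ.toAddMonoidHom y :=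
  tensor_mul _ (fun b e b' e' => by
    rw [lT_tmul, lT_tmul, lT_tmul, Algebra.TensorProduct.tmul_mul_tmul]
    exact congrArg _ (φ.map_mul e e')) x y

theorem rT_mul (φ : B →+* B') (x y : B ⊗[ℤ] E) :
    rT E φ.toAddMonoidHom (x * y) = rT E φ.toAddMonoidHom x * rT E φ.toAddMonoidHom y :=
  tensor_mul _ (fun b e b' e' => by
    rw [rT_tmul, rT_tmul, rT_tmul, Algebra.TensorProduct.tmul_mul_tmul]
    exact congrArg (· ⊗ₜ[ℤ] (e * e')) (φ.map_mul b b')) x y

theorem tmul_mem_bcF {X : AddSubgroup E} (b : B) {e : E} (he : e ∈ X) : b ⊗ₜ e ∈ bcF B X :=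
  AddSubgroup.subset_closure ⟨b, e, he, rfl⟩

theorem bcF_induction {X : AddSubgroup E} {p : B ⊗[ℤ] E → Prop} {z : B ⊗[ℤ] E} (hz : z ∈ bcF B X)
    (h : ∀ b, ∀ e ∈ X, p (b ⊗ₜ e)) (h0 : p 0) (ha : ∀ x y, x ∈ bcF B X → y ∈ bcF B X → p x → p y →
      p (x + y)) : p z := by
  suffices p z ∧ p (-z) from this.1
  induction hz using AddSubgroup.closure_induction with
  | mem x hx =>
    obtain ⟨b, e, he, rfl⟩ := hx
    exact ⟨h b e he, by rw [← neg_tmul]; exact h _ e he⟩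
  | zero => exact ⟨h0, by rwa [neg_zero]⟩
  | add x y hx hy h1 h2 =>
    exact ⟨ha x y hx hy h1.1 h2.1, by
      rw [neg_add]; exact ha _ _ (neg_mem hx) (neg_mem hy) h1.2 h2.2⟩
  | neg x _ h1 => exact ⟨h1.2, by rw [neg_neg]; exact h1.1⟩

theorem bcF_mono {X Y : AddSubgroup E} (h : X ≤ Y) : bcF B X ≤ bcF B Y :=
  AddSubgroup.closure_mono fun _ ⟨b, e, he, hz⟩ => ⟨b, e, h he, hz⟩

theorem bcF_bot : bcF B (⊥ : AddSubgroup E) = ⊥ :=
  eq_bot_iff.2 fun _ hz => bcF_induction (p := (· ∈ (⊥ : AddSubgroup (B ⊗[ℤ] E)))) hz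
    (fun b e he => by rw [AddSubgroup.mem_bot.1 he, tmul_zero]; exact zero_mem _) (zero_mem _)
    fun _ _ _ _ => add_mem

theorem bcF_top : bcF B (⊤ : AddSubgroup E) = ⊤ :=
  eq_top_iff.2 fun z _ => tensor_ind (p := (· ∈ bcF B (⊤ : AddSubgroup E))) z
    (fun b _ => tmul_mem_bcF b trivial) fun _ _ => add_mem

theorem lT_mem_bcF {X : AddSubgroup E} {Y : AddSubgroup E'} {φ : E →+ E'} (h : ∀ e ∈ X, φ e ∈ Y)
    {z : B ⊗[ℤ] E} (hz : z ∈ bcF B X) : lT B φ z ∈ bcF B Y :=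
  bcF_induction (p := fun z => lT B φ z ∈ bcF B Y) hz (fun b e he => tmul_mem_bcF b (h e he))
    (by rw [map_zero]; exact zero_mem _)
    fun x y _ _ hx hy => by rw [map_add]; exact add_mem hx hy

theorem rT_mem_bcF {X : AddSubgroup E} (φ : B →+ B') {z : B ⊗[ℤ] E} (hz : z ∈ bcF B X) :
    rT E φ z ∈ bcF B' X :=
  bcF_induction (p := fun z => rT E φ z ∈ bcF B' X) hz (fun b _ he => tmul_mem_bcF (φ b) he)
    (by rw [map_zero]; exact zero_mem _)
    fun x y _ _ hx hy => by rw [map_add]; exact add_mem hx hy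

theorem mul_mem_bcF {X Y Z : AddSubgroup E} (h : ∀ a ∈ X, ∀ b ∈ Y, a * b ∈ Z) {x y : B ⊗[ℤ] E}
    (hx : x ∈ bcF B X) (hy : y ∈ bcF B Y) : x * y ∈ bcF B Z :=
  bcF_induction (p := fun x => x * y ∈ bcF B Z) hx
    (fun b e he => bcF_induction (p := fun y => _ * y ∈ bcF B Z) hy
    (fun b' e' he' => by
      rw [Algebra.TensorProduct.tmul_mul_tmul]; exact tmul_mem_bcF _ (h e he e' he'))
    (by rw [mul_zero]; exact zero_mem _)
    fun _ _ _ _ h1 h2 => by rw [mul_add]; exact add_mem h1 h2)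
    (by rw [zero_mul]; exact zero_mem _)
    fun _ _ _ _ h1 h2 => by rw [add_mul]; exact add_mem h1 h2

/-- two additive maps that agree on the pure tensors of a family -/
theorem bcF_eq {T : Type} [AddGroup T] {X : AddSubgroup E} (f g : B ⊗[ℤ] E →+ T)
    (h : ∀ b, ∀ e ∈ X, f (b ⊗ₜ e) = g (b ⊗ₜ e)) {z : B ⊗[ℤ] E} (hz : z ∈ bcF B X) : f z = g z :=
  bcF_induction (p := fun z => f z = g z) hz h (by rw [map_zero, map_zero])
    fun _ _ _ _ h1 h2 => by rw [map_add, map_add, h1, h2]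

theorem tmul_units (u : ℤˣ) (b : B) (e : E) : b ⊗ₜ[ℤ] (u • e) = u • b ⊗ₜ[ℤ] e := by
  rw [Units.smul_def, Units.smul_def, tmul_smul]

theorem IsDG.bc {σ d : E →+ E} (h : IsDG σ d) (B : Type) [CommRing B] :
    IsDG (lT B σ) (lT B d) where
  σ_one := congrArg ((1 : B) ⊗ₜ[ℤ] ·) h.σ_one
  σ_mul := tensor_mul _ fun b e b' e' => by
    rw [lT_tmul, lT_tmul, lT_tmul, Algebra.TensorProduct.tmul_mul_tmul, h.σ_mul]
  σσ := tensor_eq ((lT B σ).comp (lT B σ)) (AddMonoidHom.id _) fun b e =>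
    congrArg (b ⊗ₜ[ℤ] ·) (h.σσ e)
  dσ := tensor_eq ((lT B d).comp (lT B σ)) (-(lT B σ).comp (lT B d)) fun b e =>
    (congrArg (b ⊗ₜ[ℤ] ·) (h.dσ e)).trans (tmul_neg _ _)
  dd := tensor_eq ((lT B d).comp (lT B d)) 0 fun b e =>
    (congrArg (b ⊗ₜ[ℤ] ·) (h.dd e)).trans (tmul_zero _ _)
  leib x y :=
    tensor_ind (p := fun x => lT B d (x * y) = x * lT B d y + lT B d x * lT B σ y) x
      (fun b e => tensor_ind (p := fun y => lT B d (b ⊗ₜ e * y) =
        b ⊗ₜ e * lT B d y + lT B d (b ⊗ₜ e) * lT B σ y) y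
        (fun b' e' => by
          simp only [Algebra.TensorProduct.tmul_mul_tmul, lT_tmul, h.leib, tmul_add])
        fun y y' h1 h2 => by
          rw [mul_add, map_add, map_add, map_add, mul_add, mul_add, h1, h2, add_add_add_comm])
      fun x x' h1 h2 => by
        rw [add_mul, map_add, map_add, add_mul, add_mul, h1, h2, add_add_add_comm]

theorem Cat.Good.bc (hC : C.Good) (B : Type) [CommRing B] : (C.bc B).Good where
  dg := hC.dg.bc B
  one_mem o := tmul_mem_bcF 1 (hC.one_mem o)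
  mul_mem := mul_mem_bcF fun _ h1 _ h2 => hC.mul_mem h1 h2
  d_mem := lT_mem_bcF fun _ => hC.d_mem
  σ_eq {k _ _ _} ha := bcF_induction (p := fun z => lT B C.σ z = k.negOnePow • z) ha
    (fun b e he => by rw [lT_tmul, hC.σ_eq he, tmul_units]) (by rw [map_zero, smul_zero])
    fun _ _ _ _ h1 h2 => by rw [map_add, smul_add, h1, h2]

theorem Cat.Good.cen_tmul (hC : C.Good) (b : B) : (C.bc B).Cen (b ⊗ₜ 1) :=
  ⟨fun a => tensor_ind (p := fun a => b ⊗ₜ[ℤ] (1 : E) * a = a * b ⊗ₜ[ℤ] (1 : E)) a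
    (fun b' e => by simp only [Algebra.TensorProduct.tmul_mul_tmul, mul_one, one_mul, mul_comm])
    fun _ _ h1 h2 => by rw [mul_add, add_mul, h1, h2],
    (congrArg (b ⊗ₜ[ℤ] ·) hC.d_one).trans (tmul_zero _ _),
    fun o => tmul_mem_bcF b (hC.one_mem o)⟩

theorem IsHomF.bc {φ : E →+ E'} {l : L → L'} (h : IsHomF C C' φ l) (B : Type) [CommRing B] :
    IsHomF (C.bc B) (C'.bc B) (lT B φ) l where
  mem := lT_mem_bcF fun _ => h.mem
  one := congrArg ((1 : B) ⊗ₜ[ℤ] ·) h.one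
  mul {_ _ _ _ _ _ y} hx hy :=
    bcF_induction (p := fun x => lT B φ (x * y) = lT B φ x * lT B φ y) hx
      (fun b e he => bcF_induction (p := fun y => lT B φ (_ * y) = lT B φ _ * lT B φ y) hy
        (fun b' e' he' => by
          simp only [Algebra.TensorProduct.tmul_mul_tmul, lT_tmul, h.mul he he'])
        (by rw [mul_zero, map_zero, mul_zero])
        fun _ _ _ _ h1 h2 => by rw [mul_add, map_add, map_add, mul_add, h1, h2])
      (by rw [zero_mul, map_zero, zero_mul])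
      fun _ _ _ _ h1 h2 => by rw [add_mul, map_add, map_add, add_mul, h1, h2]
  d ha := bcF_eq ((lT B φ).comp (lT B C.d)) ((lT B C'.d).comp (lT B φ))
    (fun b _ he => congrArg (b ⊗ₜ[ℤ] ·) (h.d he)) ha

theorem isHomF_rT (C : Cat E L) (φ : B →+* B') :
    IsHomF (C.bc B) (C.bc B') (rT E φ.toAddMonoidHom) id where
  mem := rT_mem_bcF _
  one := congrArg (· ⊗ₜ[ℤ] (1 : E)) φ.map_one
  mul _ _ := rT_mul φ _ _
  d _ := (lT_rT _ _ _).symm

theorem Aug.bc {j : ℤ} {C₀ : Cat R L} {I : R →+ E} {U : E →+ R} (h : Aug j C C₀ I U) (B : Type)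
    [CommRing B] : Aug j (C.bc B) (C₀.bc B) (lT B I) (lT B U) where
  good := h.good.bc B
  good₀ := h.good₀.bc B
  hI := h.hI.bc B
  hU := h.hU.bc B
  UI := tensor_eq ((lT B U).comp (lT B I)) (AddMonoidHom.id _) fun b e =>
    congrArg (b ⊗ₜ[ℤ] ·) (h.UI e)
  IU ha := bcF_eq ((lT B I).comp (lT B U)) (AddMonoidHom.id _)
    (fun b _ he => congrArg (b ⊗ₜ[ℤ] ·) (h.IU he)) ha
  zero₀ hk ha := bcF_eq (AddMonoidHom.id _) 0
    (fun b _ he => (congrArg (b ⊗ₜ[ℤ] ·) (h.zero₀ hk he)).trans (tmul_zero _ _)) ha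
  gap hj hk ha := bcF_eq (AddMonoidHom.id _) 0
    (fun b _ he => (congrArg (b ⊗ₜ[ℤ] ·) (h.gap hj hk he)).trans (tmul_zero _ _)) ha

theorem bcat_bc {O : Type} (Rf : O → O → AddSubgroup R) (B : Type) [CommRing B] :
    (bcat Rf).bc B = bcat fun o o' => bcF B (Rf o o') := by
  have e : (fun (k : ℤ) o o' => bcF B (if k = 0 then Rf o o' else ⊥)) =
      fun (k : ℤ) o o' => if k = 0 then bcF B (Rf o o') else ⊥ := by
    funext k o o'
    split_ifs
    · rfl
    · exact bcF_bot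
  simp only [Cat.bc, bcat, lT_id, lT_zero, e]

theorem tcat_bc (O B : Type) [CommRing B] : (tcat R O).bc B = tcat (B ⊗[ℤ] R) O := by
  rw [tcat, bcat_bc, bcF_top, tcat]

theorem IsBas.bc {O : Type} {Rf : O → O → AddSubgroup R} (h : IsBas Rf) (B : Type) [CommRing B] :
    IsBas fun o o' => bcF B (Rf o o') where
  one_mem o := tmul_mem_bcF 1 (h.one_mem o)
  mul_mem := mul_mem_bcF fun _ h1 _ h2 => h.mul_mem h1 h2

/-- the vector `b ⊗ c` -/
noncomputable def tm {κ : Type} (b : B) : (κ →₀ E) →+ (κ →₀ B ⊗[ℤ] E) :=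
  mapRange.addMonoidHom (TensorProduct.mk ℤ B E b).toAddMonoidHom

theorem tm_apply {κ : Type} (b : B) (c : κ →₀ E) (k : κ) : tm b c k = b ⊗ₜ c k := rfl

theorem tm_single {κ : Type} (b : B) (k : κ) (e : E) : tm b (single k e) = single k (b ⊗ₜ e) :=
  mapRange_single (hf := tmul_zero _ _)

theorem lc_tm {κ κ' : Type} (b b' : B) (g : κ → κ' →₀ E) (c : κ →₀ E) :
    lc (fun k => tm b' (g k)) (tm b c) = tm (b * b') (lc g c) := by
  induction c using Finsupp.induction_linear with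
  | zero => simp only [map_zero]
  | add x y hx hy => simp only [map_add, hx, hy]
  | single k e =>
    ext k'
    rw [tm_single, linearCombination_single, linearCombination_single, tm_apply,
      Finsupp.smul_apply, Finsupp.smul_apply, tm_apply, smul_eq_mul, smul_eq_mul,
      Algebra.TensorProduct.tmul_mul_tmul]

section

variable {κ : Type} [Finite κ] (T : BM E L E' L' κ) (ent : κ → κ → E →+ E')

theorem BM.bc_act (a : B ⊗[ℤ] E) (k k' : κ) : (T.bc ent B).act a k k' = lT B (ent k k') a := rfl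

theorem BM.bc_act_add (a b : B ⊗[ℤ] E) (k : κ) :
    (T.bc ent B).act (a + b) k = (T.bc ent B).act a k + (T.bc ent B).act b k :=
  Finsupp.ext fun k' => map_add (lT B (ent k k')) _ _

theorem BM.bc_act_zero (k : κ) : (T.bc ent B).act 0 k = 0 :=
  Finsupp.ext fun k' => map_zero (lT B (ent k k'))

theorem BM.bc_D_tm (C' : Cat E' L') (o : L) (b : B) (c : κ →₀ E') :
    (C'.bc B).D ((T.bc ent B).pt o) (tm b c) = tm b (C'.D (T.pt o) c) := by
  rw [Cat.D_apply, Cat.D_apply, map_add]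
  refine congrArg₂ (· + ·) ((lc_tm b 1 T.Δ c).trans (by rw [mul_one])) (Finsupp.ext fun k => ?_)
  rw [Raw.tw_apply, tm_apply, tm_apply, Raw.tw_apply, tmul_units]
  rfl

end

theorem lc_add {κ κ' : Type} (f g : κ → κ' →₀ E) (c : κ →₀ E) :
    lc (fun k => f k + g k) c = lc f c + lc g c := by
  induction c using Finsupp.induction_linear with
  | zero => simp only [map_zero, add_zero]
  | add x y hx hy => rw [map_add, map_add, map_add, hx, hy, add_add_add_comm]
  | single k e => simp only [linearCombination_single, smul_add]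

theorem IsBM.bc {κ : Type} [Finite κ] {T : BM E L E' L' κ} {ent : κ → κ → E →+ E'}
    (h : IsBM C C' T) (hC : C.Good) (hC' : C'.Good) (he : ∀ a k k', T.act a k k' = ent k k' a)
    (B : Type) [CommRing B] : IsBM (C.bc B) (C'.bc B) (T.bc ent B) := by
  have e1 : ∀ (b : B) e, (T.bc ent B).act (b ⊗ₜ e) = fun k => tm b (T.act e k) := fun b e =>
    funext fun k => Finsupp.ext fun k' => by rw [tm_apply, he]; rfl
  have e2 : ∀ a b c, lc ((T.bc ent B).act (a + b)) c =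
      lc ((T.bc ent B).act a) c + lc ((T.bc ent B).act b) c := fun a b c => by
    rw [← lc_add]
    exact congrArg (lc · c) (funext (T.bc_act_add ent a b))
  have e3 : ∀ c, lc ((T.bc ent B).act 0) c = 0 := fun c => by simpa using e2 0 0 c
  refine ⟨T.bc_act_add ent, fun k => ?_, fun {_ _ _ _ _ _ y} hx hy k => ?_,
    fun ha k k' => lT_mem_bcF (fun e h1 => he e k k' ▸ h.mem h1 k k') ha, fun o => ?_,
    fun {n _ o' _} ha k => ?_⟩
  · rw [Algebra.TensorProduct.one_def, e1]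
    beta_reduce
    rw [h.one, tm_single]
    rfl
  · refine bcF_induction (p := fun x => (T.bc ent B).act (x * y) k =
      lc ((T.bc ent B).act y) ((T.bc ent B).act x k)) hx (fun b e h1 => ?_)
      (by rw [zero_mul, T.bc_act_zero, map_zero])
      fun _ _ _ _ h1 h2 => by rw [add_mul, T.bc_act_add, T.bc_act_add, map_add, h1, h2]
    refine bcF_induction (p := fun y => (T.bc ent B).act (_ * y) k =
      lc ((T.bc ent B).act y) ((T.bc ent B).act _ k)) hy (fun b' e' h2 => ?_)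
      (by rw [mul_zero, T.bc_act_zero, e3])
      fun _ _ _ _ h1 h2 => by rw [mul_add, T.bc_act_add, e2, h1, h2]
    rw [Algebra.TensorProduct.tmul_mul_tmul, e1, e1, e1]
    beta_reduce
    rw [lc_tm, h.mul h1 h2]
  · have e4 : ∀ k, ((T.bc ent B).pt o).δ (single k 1) = tm (1 : B) ((T.pt o).δ (single k 1)) :=
      fun k => by
        rw [linearCombination_single, linearCombination_single, one_smul, one_smul]; rfl
    refine (hC'.bc B).obj_of_basis (fun k k' => ?_) fun k => ?_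
    · rw [e4]
      exact tmul_mem_bcF 1 ((h.pt o).1 k k')
    · rw [e4, T.bc_D_tm, ← hC'.D_single, (h.pt o).2, map_zero]
  · refine bcF_induction (p := fun a => (C'.bc B).D ((T.bc ent B).pt o') ((T.bc ent B).act a k) =
      (T.bc ent B).act (lT B C.d a) k + n.negOnePow • lc ((T.bc ent B).act a) (tm 1 (T.Δ k))) ha
      (fun b e h1 => ?_) (by rw [map_zero, T.bc_act_zero, map_zero, e3, smul_zero, add_zero])
      fun _ _ _ _ h1 h2 => by
        rw [map_add, T.bc_act_add, T.bc_act_add, map_add, e2, h1, h2, smul_add, add_add_add_comm]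
    rw [lT_tmul, e1, e1]
    beta_reduce
    rw [T.bc_D_tm, h.d h1, lc_tm, one_mul, map_add, Units.smul_def, Units.smul_def, map_zsmul]

theorem bmL_bc_rT {κ ι ι' : Type} [Finite κ] (T : BM E L E' L' κ) (ent : κ → κ → E →+ E')
    (φ : B →+* B') (f : (ι →₀ B ⊗[ℤ] E) →ₗ[B ⊗[ℤ] E] (ι' →₀ B ⊗[ℤ] E)) :
    mapL (rT E' φ.toAddMonoidHom) (bmL (T.bc ent B).act f) =
      bmL (T.bc ent B').act (mapL (rT E φ.toAddMonoidHom) f) :=
  lin_ext fun ⟨i, k⟩ ⟨i', k'⟩ => by
    rw [mapL_single, bmL_single (T.bc_act_zero ent), bmL_single (T.bc_act_zero ent), mapL_single,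
      T.bc_act, T.bc_act, lT_rT]

theorem bm_bc_rT {κ : Type} [Finite κ] (T : BM E L E' L' κ) (ent : κ → κ → E →+ E')
    (φ : B →+* B') (V : Raw (B ⊗[ℤ] E) L) :
    (V.bm (T.bc ent B)).bc φ = (V.bc φ).bm (T.bc ent B') := by
  classical
  refine congrArg (Raw.mk _ _ _) (lin_ext fun ⟨i, k⟩ ⟨i', k'⟩ => ?_)
  refine (mapL_single _ _ _ _).trans ?_
  refine (congrArg _ (bm_δ (V := V) (T.bc_act_zero ent) i i' k k')).trans
    (Eq.trans ?_ (bm_δ (V := V.bc φ) (T.bc_act_zero ent) i i' k k').symm)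
  rw [map_add, T.bc_act, T.bc_act, ← lT_rT]
  refine congrArg₂ (· + ·) (congrArg _ (mapL_single _ _ _ _).symm) ?_
  split_ifs
  · rw [Units.smul_def, Units.smul_def, map_zsmul]
    exact congrArg _ (congrArg (· ⊗ₜ[ℤ] T.Δ k k') φ.map_one)
  · exact map_zero _

theorem mapA_bc_rT (ψ : E →+ E') (l : L → L') (φ : B →+* B') (V : Raw (B ⊗[ℤ] E) L) :
    (V.mapA (lT B ψ) l).bc φ = (V.bc φ).mapA (lT B' ψ) l :=
  congrArg (Raw.mk _ _ _) (lin_ext fun i i' => by
    rw [mapL_single, mapL_single, mapL_single, mapL_single, lT_rT])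

/-! ### Forgetting the variable -/

theorem coeffs_tmul (p : A[X]) (e : E) (m : ℕ) : coeffs A E (p ⊗ₜ e) m = p.coeff m ⊗ₜ e := by
  classical
  simp only [coeffs, LinearMap.toAddMonoidHom_coe, LinearMap.comp_apply, LinearMap.rTensor_tmul,
    LinearEquiv.coe_coe, finsuppLeft_apply_tmul_apply]
  rfl

theorem coeffs_lT (φ : E →+ E') (z : A[X] ⊗[ℤ] E) (m : ℕ) :
    coeffs A E' (lT A[X] φ z) m = lT A φ (coeffs A E z m) :=
  tensor_eq ((applyAddHom m).comp ((coeffs A E').comp (lT A[X] φ)))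
    ((lT A φ).comp ((applyAddHom m).comp (coeffs A E))) (fun p e =>
      (coeffs_tmul p (φ e) m).trans (congrArg (lT A φ) (coeffs_tmul p e m)).symm) z

theorem coeffs_mono (n : ℕ) (a : A) (e : E) :
    coeffs A E (monomial n a ⊗ₜ e) = single n (a ⊗ₜ e) := by
  ext m
  rw [coeffs_tmul, coeff_monomial]
  by_cases h : n = m
  · subst h; rw [if_pos rfl, single_eq_same]
  · rw [if_neg h, zero_tmul, single_eq_of_ne (Ne.symm h)]

theorem flatB_mono (n k : ℕ) (a : A) (e : E) :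
    (flatB A E L).act (monomial n a ⊗ₜ e) k = single (k + n) (a ⊗ₜ e) :=
  (congrArg (mapDomain (k + ·)) (coeffs_mono n a e)).trans mapDomain_single

theorem flatB_add (a b : A[X] ⊗[ℤ] E) (k : ℕ) :
    (flatB A E L).act (a + b) k = (flatB A E L).act a k + (flatB A E L).act b k :=
  (congrArg (mapDomain (k + ·)) (map_add (coeffs A E) a b)).trans mapDomain_add

theorem flatB_zero (k : ℕ) : (flatB A E L).act 0 k = 0 :=
  (congrArg (mapDomain (k + ·)) (map_zero (coeffs A E))).trans mapDomain_zero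

theorem bcF_mono_ind {Y : AddSubgroup E} {p : A[X] ⊗[ℤ] E → Prop} {z : A[X] ⊗[ℤ] E}
    (hz : z ∈ bcF A[X] Y) (h : ∀ n a, ∀ e ∈ Y, p (monomial n a ⊗ₜ e))
    (ha : ∀ x y, p x → p y → p (x + y)) : p z :=
  bcF_induction hz (fun b e he => by
    induction b using Polynomial.induction_on' with
    | add s t hs ht => rw [add_tmul]; exact ha _ _ hs ht
    | monomial n a => exact h n a e he) (by simpa using h 0 0 0 (zero_mem _))
    fun x y _ _ => ha x y

theorem mono_ind {p : A[X] ⊗[ℤ] E → Prop} (z : A[X] ⊗[ℤ] E)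
    (h : ∀ n a e, p (monomial n a ⊗ₜ e)) (ha : ∀ x y, p x → p y → p (x + y)) : p z :=
  bcF_mono_ind (Y := ⊤) (by rw [bcF_top]; trivial) (fun n a e _ => h n a e) ha

theorem flatB_lT (φ : E →+ E') (z : A[X] ⊗[ℤ] E) (k k' : ℕ) :
    (flatB A E' L').act (lT A[X] φ z) k k' = lT A φ ((flatB A E L).act z k k') :=
  mono_ind (p := fun z => (flatB A E' L').act (lT A[X] φ z) k k' =
    lT A φ ((flatB A E L).act z k k')) z (fun n a e => by
      rw [lT_tmul, flatB_mono, flatB_mono]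
      by_cases h : k' = k + n
      · subst h; rw [single_eq_same, single_eq_same, lT_tmul]
      · rw [single_eq_of_ne h, single_eq_of_ne h, map_zero])
    fun x y hx hy => by
      rw [map_add, flatB_add, flatB_add, Finsupp.add_apply, Finsupp.add_apply, map_add, hx, hy]

theorem lc_zero {κ κ' : Type} : lc (fun _ : κ => (0 : κ' →₀ E)) = 0 :=
  lin_ext fun _ _ => by rw [linearCombination_single, smul_zero]; rfl

theorem Cat.Good.flat_isBM (hC : C.Good) (A : Type) [CommRing A] :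
    IsBM (C.bc A[X]) (C.bc A) (flatB A E L) := by
  have e2 : ∀ a b c, lc ((flatB A E L).act (a + b)) c =
      lc ((flatB A E L).act a) c + lc ((flatB A E L).act b) c := fun a b c => by
    rw [← lc_add]
    exact congrArg (lc · c) (funext (flatB_add a b))
  have e3 : ∀ o, ((flatB A E L).pt o).δ = 0 := fun _ => lc_zero
  refine ⟨flatB_add, fun k => flatB_mono 0 k 1 1, fun {_ _ _ _ _ x y} _ _ k => ?_,
    fun {n o o' _} ha k => ?_, fun o => ?_, fun {n _ o' a} _ k => ?_⟩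
  · refine mono_ind (p := fun x => (flatB A E L).act (x * y) k =
      lc ((flatB A E L).act y) ((flatB A E L).act x k)) x (fun n a e => ?_)
      fun _ _ h1 h2 => by rw [add_mul, flatB_add, flatB_add, map_add, h1, h2]
    refine mono_ind (p := fun y => (flatB A E L).act (_ * y) k =
      lc ((flatB A E L).act y) ((flatB A E L).act _ k)) y (fun n' a' e' => ?_)
      fun _ _ h1 h2 => by rw [mul_add, flatB_add, e2, h1, h2]
    rw [Algebra.TensorProduct.tmul_mul_tmul, monomial_mul_monomial, flatB_mono, flatB_mono,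
      linearCombination_single, flatB_mono, smul_single, smul_eq_mul,
      Algebra.TensorProduct.tmul_mul_tmul, add_assoc]
  · refine bcF_mono_ind (p := fun a => (flatB A E L).act a k ∈
      (C.bc A).M ((flatB A E L).pt o') (n + 0) o) ha (fun m a e he => ?_)
      fun _ _ h1 h2 => by rw [flatB_add]; exact add_mem h1 h2
    rw [flatB_mono]
    exact Cat.single_mem_M (V := (flatB A E L).pt o') (tmul_mem_bcF a (by
      rw [show n + 0 - ((flatB A E L).pt o').deg (k + m) = n from (sub_zero _).trans (add_zero _)]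
      exact he))
  · refine (hC.bc A).obj_of_basis (by rw [e3]; exact Cat.Hom.zero 1) fun k => ?_
    rw [e3, LinearMap.zero_apply, map_zero]
  · rw [Cat.D_apply, e3, LinearMap.zero_apply, zero_add, show (flatB A E L).Δ k = 0 from rfl,
      map_zero, smul_zero, add_zero]
    ext k'
    rw [Raw.tw_apply]
    exact (one_smul ℤˣ _).trans (flatB_lT C.d a k k').symm

theorem Cat.Good.flat_isFn (hC : C.Good) (A : Type) [CommRing A] :
    IsFn (C.bc A[X]) (C.bc A) flat fun _ _ f => bmL (flatB A E L).act f :=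
  (hC.flat_isBM A).isFn (hC.bc _) (hC.bc _)

theorem flat_δ_apply (V : Raw (A[X] ⊗[ℤ] E) L) (i i' : V.ι) (k k' : ℕ) :
    (flat V).δ (single (i, k) 1) (i', k') = (flatB A E L).act (V.δ (single i 1) i') k k' := by
  classical
  refine (bm_δ (V := V) flatB_zero i i' k k').trans ?_
  rw [show (flatB A E L).Δ k k' = 0 from rfl, smul_zero, ite_self, add_zero]

theorem flat_mapA (φ : E →+ E') (l : L → L') (V : Raw (A[X] ⊗[ℤ] E) L) :
    flat (V.mapA (lT A[X] φ) l) = (flat V).mapA (lT A φ) l :=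
  congrArg (Raw.mk (V.ι × ℕ) _ _) (lin_ext fun ⟨i, k⟩ ⟨i', k'⟩ => by
    refine (flat_δ_apply (V.mapA (lT A[X] φ) l) i i' k k').trans ?_
    rw [mapL_single, mapL_single, flat_δ_apply, flatB_lT])

theorem flat_relab (l : L → L') (V : Raw (A[X] ⊗[ℤ] E) L) :
    flat (V.relab l) = (flat V).relab l := rfl

theorem flat_bdd {V : Raw (A[X] ⊗[ℤ] E) L} (h : V.Bdd) : (flat V).Bdd :=
  let ⟨c, hc⟩ := h
  ⟨c, fun p => (hc p.1).trans (add_zero _).ge⟩

theorem flat_res (V : Raw (A[X] ⊗[ℤ] E) L) (p : V.ι → Prop) :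
    (flat (V.res p)).Rx ((flat V).res fun i => p i.1) :=
  ⟨⟨fun x => ⟨(x.1.1, x.2), x.1.2⟩, fun y => (⟨y.1.1, y.2⟩, y.1.2), fun _ => rfl, fun _ => rfl⟩,
    fun _ => rfl, fun _ => rfl, fun ⟨i, k⟩ ⟨i', k'⟩ => by
      refine (Raw.res_δ (V := flat V) _ ⟨(i.1, k), i.2⟩ ⟨(i'.1, k'), i'.2⟩).trans ?_
      rw [flat_δ_apply, flat_δ_apply, Raw.res_δ]⟩

namespace A6c

/-- a polynomial placed at the generator `i` -/
noncomputable def G {ι : Type} (E : Type) [Ring E] (i : ι) (p : A[X]) : ι × ℕ →₀ A ⊗[ℤ] E :=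
  mapDomain (Prod.mk i) (coeffs A E (p ⊗ₜ 1))

variable {ι : Type}

theorem G_same (i : ι) (p : A[X]) (m : ℕ) : G E i p (i, m) = p.coeff m ⊗ₜ 1 := by
  rw [G, mapDomain_apply (Prod.mk_right_injective i), coeffs_tmul]

theorem G_ne {i i' : ι} (h : i ≠ i') (p : A[X]) (m : ℕ) : G E i p (i', m) = 0 :=
  mapDomain_of_notMem_range _ _ fun ⟨_, e⟩ => h (congrArg Prod.fst e)

theorem G_add (i : ι) (p q : A[X]) : G E i (p + q) = G E i p + G E i q := by
  rw [G, add_tmul, map_add, mapDomain_add]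
  rfl

theorem G_zero (i : ι) : G E i (0 : A[X]) = 0 := by
  rw [G, zero_tmul, map_zero, mapDomain_zero]

theorem G_smul (i : ι) (a : A) (p : A[X]) :
    G E i (a • p) = (a ⊗ₜ (1 : E) : A ⊗[ℤ] E) • G E i p := by
  ext ⟨i', m⟩
  by_cases h : i = i'
  · subst h
    rw [Finsupp.smul_apply, G_same, G_same, coeff_smul, smul_eq_mul, smul_eq_mul,
      Algebra.TensorProduct.tmul_mul_tmul, mul_one]
  · rw [Finsupp.smul_apply, G_ne h, G_ne h, smul_zero]

theorem G_pow (i : ι) (k : ℕ) : G E i (X ^ k : A[X]) = single (i, k) 1 := by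
  ext ⟨i', m⟩
  by_cases h : i = i'
  · subst h
    rw [G_same, coeff_X_pow]
    by_cases h' : m = k
    · subst h'
      rw [if_pos rfl, single_eq_same]
      rfl
    · rw [if_neg h', zero_tmul, single_eq_of_ne fun e => h' (congrArg Prod.snd e)]
  · rw [G_ne h, single_eq_of_ne fun e => h (congrArg Prod.fst e).symm]

/-- a linear map of polynomials as a scalar matrix -/
noncomputable def sm (E ι : Type) [Ring E] (φ : A[X] →ₗ[A] A[X]) :
    (ι × ℕ →₀ A ⊗[ℤ] E) →ₗ[A ⊗[ℤ] E] (ι × ℕ →₀ A ⊗[ℤ] E) := lc fun p => G E p.1 (φ (X ^ p.2))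

theorem sm_single (φ : A[X] →ₗ[A] A[X]) (i : ι) (k : ℕ) :
    sm E ι φ (single (i, k) 1) = G E i (φ (X ^ k)) := by
  rw [sm, linearCombination_single, one_smul]

theorem sm_G (φ : A[X] →ₗ[A] A[X]) (i : ι) (p : A[X]) : sm E ι φ (G E i p) = G E i (φ p) := by
  induction p using Polynomial.induction_on' with
  | add p q hp hq => rw [G_add, map_add, hp, hq, map_add, G_add]
  | monomial k a =>
    rw [← C_mul_X_pow_eq_monomial, ← smul_eq_C_mul, G_smul, map_smul, G_pow, sm_single, map_smul,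
      G_smul]

theorem sm_apply_eq_zero (φ : A[X] →ₗ[A] A[X]) {v : ι × ℕ →₀ A ⊗[ℤ] E} {i : ι}
    (h : ∀ m, v (i, m) = 0) (k : ℕ) : sm E ι φ v (i, k) = 0 := by
  rw [sm, linearCombination_apply, Finsupp.sum_apply]
  refine Finset.sum_eq_zero fun ⟨i', m⟩ _ => ?_
  change (v (i', m) • G E i' (φ (X ^ m))) (i, k) = 0
  by_cases e : i' = i
  · subst e
    rw [Finsupp.smul_apply, h, smul_eq_mul, zero_mul]
  · rw [Finsupp.smul_apply, G_ne e, smul_zero]

theorem hom_sm (hC : C.Good) (V : Raw (A[X] ⊗[ℤ] E) L) (φ : A[X] →ₗ[A] A[X]) :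
    (C.bc A).Hom 0 (flat V) (flat V) (sm E V.ι φ) := by
  rintro ⟨i, k⟩ ⟨i', m⟩
  rw [sm_single]
  by_cases h : i = i'
  · subst h
    rw [G_same]
    refine tmul_mem_bcF _ ?_
    have e : V.deg i + (flatB A E L).dg k + 0 - (V.deg i + (flatB A E L).dg m) = 0 := by
      simp [flatB]
    rw [e]
    exact hC.one_mem _
  · rw [G_ne h]
    exact zero_mem _

theorem act_zero (k : ℕ) : (flatB A E L).act 0 k = 0 := by
  simp [flatB]

theorem act_tmul (p : A[X]) (e : E) (k m : ℕ) :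
    (flatB A E L).act (p ⊗ₜ e) k m = (p * X ^ k).coeff m ⊗ₜ e := by
  change mapDomain (k + ·) (coeffs A E (p ⊗ₜ e)) m = _
  rw [coeff_mul_X_pow']
  split_ifs with h
  · obtain ⟨j, rfl⟩ := Nat.exists_eq_add_of_le h
    rw [mapDomain_apply (add_right_injective k), coeffs_tmul, Nat.add_sub_cancel_left]
  · rw [zero_tmul]
    exact mapDomain_of_notMem_range _ _ fun ⟨j, e⟩ => h (e ▸ Nat.le_add_right k j)

theorem bmL_scal_eq (f : A[X]) : bmL (flatB A E L).act (scal ι (f ⊗ₜ 1)) =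
    sm E ι (LinearMap.mulLeft A f) := by
  refine lin_ext fun ⟨i, k⟩ ⟨i', m⟩ => ?_
  rw [bmL_single act_zero, sm_single, scal_single, one_mul]
  by_cases h : i = i'
  · subst h
    rw [single_eq_same, G_same, act_tmul, LinearMap.mulLeft_apply]
  · rw [single_eq_of_ne (Ne.symm h), act_zero, G_ne h, Finsupp.zero_apply]

theorem flat_δ (V : Raw (A[X] ⊗[ℤ] E) L) (i i' : V.ι) (k m : ℕ) :
    (flat V).δ (single (i, k) 1) (i', m) = (flatB A E L).act (V.δ (single i 1) i') k m := by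
  classical
  rw [bm_δ act_zero]
  simp [flatB]

/-- division by a monic polynomial -/
noncomputable def dv {f : A[X]} (hm : f.Monic) : A[X] →ₗ[A] A[X] where
  toFun p := p /ₘ f
  map_add' p q := hm.isRegular.left <| by
    have h1 := modByMonic_add_div (p + q) f
    have h2 := modByMonic_add_div p f
    have h3 := modByMonic_add_div q f
    rw [add_modByMonic] at h1
    change f * _ = f * _
    linear_combination h1 - h2 - h3
  map_smul' a p := hm.isRegular.left <| by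
    have h1 := modByMonic_add_div (a • p) f
    have h2 := modByMonic_add_div p f
    rw [smul_modByMonic] at h1
    change f * _ = f * (a • _)
    rw [smul_eq_C_mul] at h1 ⊢
    rw [smul_eq_C_mul] at h1 ⊢
    linear_combination h1 - Polynomial.C a * h2

theorem coeff_mod {f : A[X]} (hm : f.Monic) (p : A[X]) {m : ℕ} (h : f.natDegree ≤ m) :
    (p %ₘ f).coeff m = 0 := by
  rcases subsingleton_or_nontrivial A with hA | hA
  · exact Subsingleton.elim _ _
  · refine coeff_eq_zero_of_degree_lt ((degree_modByMonic_lt p hm).trans_le ?_)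
    exact degree_le_natDegree.trans (Nat.cast_le.2 h)

theorem pow_mod {f : A[X]} (hm : f.Monic) {k : ℕ} (h : k < f.natDegree) :
    (X ^ k : A[X]) %ₘ f = X ^ k := by
  rcases subsingleton_or_nontrivial A with hA | hA
  · exact Subsingleton.elim _ _
  · rw [modByMonic_eq_self_iff hm, degree_X_pow, degree_eq_natDegree hm.ne_zero]
    exact Nat.cast_lt.2 h

theorem act_C (a : A ⊗[ℤ] E) (k m : ℕ) :
    (flatB A E L).act (rT E (Polynomial.C : A →+* A[X]).toAddMonoidHom a) k m =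
      if m = k then a else 0 := by
  induction a using TensorProduct.induction_on with
  | zero => rw [map_zero, act_zero, Finsupp.zero_apply, ite_self]
  | tmul a e =>
    rw [rT_tmul, act_tmul]
    change (Polynomial.C a * X ^ k).coeff m ⊗ₜ e = _
    rw [coeff_C_mul_X_pow, ite_tmul]
  | add x y hx hy =>
    have e : ∀ a b : A[X] ⊗[ℤ] E, (flatB A E L).act (a + b) k =
        (flatB A E L).act a k + (flatB A E L).act b k := fun a b => by
      simp only [flatB, map_add, mapDomain_add]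
    rw [map_add, e, Finsupp.add_apply, hx, hy]
    split_ifs <;> simp

/-- the sequence `M[X] → M[X] → M` -/
theorem eqv_X (hC : C.Good) {M : Raw (A ⊗[ℤ] E) L} (hM : (C.bc A).Obj M) :
    (C.bc A).Eqv (flat ((M.bc Polynomial.C).cone (M.bc Polynomial.C)
      (scal M.ι ((X : A[X]) ⊗ₜ 1)))) M := by
  have hA := hC.bc A
  have hX := hC.bc A[X]
  have hN : (C.bc A[X]).Obj (M.bc Polynomial.C) :=
    ((isHomF_rT C (Polynomial.C : A →+* A[X])).isFn hA hX).obj hM
  have hF := hC.flat_isFn A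
  have hc := hX.ch_scal (V := M.bc Polynomial.C) (hC.cen_tmul (X : A[X]))
  refine hA.eqv_trans (hF.eqv_cone hX hA hN hN hc) ?_
  have i0 : Function.Injective fun i : M.ι => (i, (0 : ℕ)) := fun _ _ e => congrArg Prod.fst e
  have i1 : Function.Injective fun p : M.ι × ℕ => (p.1, p.2 + 1) := fun _ _ e =>
    Prod.ext (Prod.mk.inj e).1 (Nat.succ_injective (Prod.mk.inj e).2)
  have e : bmL (flatB A E L).act (scal M.ι ((X : A[X]) ⊗ₜ 1)) =
      inc fun p : M.ι × ℕ => (p.1, p.2 + 1) := by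
    rw [bmL_scal_eq]
    refine Finsupp.lhom_ext' fun ⟨i, k⟩ => LinearMap.ext_ring ?_
    simp only [LinearMap.comp_apply, lsingle_apply]
    rw [sm_single, inc_single, LinearMap.mulLeft_apply, ← pow_succ', G_pow]
  have hq : (C.bc A).Hom 0 (flat (M.bc Polynomial.C)) M (prj _ i0) :=
    hA.hom_prj i0 (fun _ => add_zero _) fun _ => rfl
  refine hA.eqv_cone_of_split (q := prj _ i0) (r := prj _ i1) (s := inc fun i => (i, 0))
    (hF.ch hN hN hc) (hA.ch_of_basis hq ?_) (hA.hom_prj i1 (fun _ => rfl) fun _ => rfl)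
    (hA.hom_inc (fun _ => add_zero _) fun _ => rfl) ?_ ?_ ?_ (hF.obj hN) (hF.obj hN) hM
  · rintro ⟨i, k⟩
    ext i'
    rw [prj_apply, flat_δ, mapL_single, act_C]
    cases k with
    | zero =>
      rw [← inc_single (fun i : M.ι => (i, (0 : ℕ))), prj_inc, hA.D_single, if_pos rfl]
    | succ k =>
      have z : prj (E := A ⊗[ℤ] E) _ i0 (single (i, k + 1) 1) = 0 := by
        ext j
        rw [prj_apply, single_eq_of_ne fun e => by simp at e, Finsupp.zero_apply]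
      rw [z, map_zero, Finsupp.zero_apply, if_neg (by omega)]
  · rw [e]
    exact LinearMap.ext (prj_inc i1)
  · exact LinearMap.ext (prj_inc i0)
  · rw [e]
    refine LinearMap.ext fun v => Finsupp.ext fun ⟨i, k⟩ => ?_
    simp only [LinearMap.add_apply, LinearMap.comp_apply, LinearMap.id_apply, Finsupp.add_apply]
    cases k with
    | zero =>
      rw [inc_apply_out _ fun _ e => by simp at e, inc_apply i0, prj_apply, zero_add]
    | succ k =>
      rw [inc_apply i1 _ (i, k), inc_apply_out _ fun _ e => by simp at e, prj_apply, add_zero]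

theorem swap_scal (hC : C.Good) {M W : Raw E L} (hM : C.Obj M) (hW : C.Obj W) (hf : W.Fin1)
    {i : Lin M W} {r : Lin W M} (hi : C.Ch M W i) (hr : C.Ch W M r)
    (h : C.Ht M M (r ∘ₗ i) LinearMap.id) {z : E} (hz : C.Cen z) :
    ∃ V, C.Obj V ∧ V.Fin1 ∧ C.Eqv V (M.cone M (scal M.ι (1 + z))) := by
  have hs := hC.ch_scal (V := M) hz
  have hb := hC.ch_comp hr hs
  refine ⟨_, hC.obj_cone hW hW (hC.ch_id.add (hC.ch_comp hb hi)), hf.ext hf.sh _,
    hC.eqv_trans (hC.eqv_cone_swap hM hW hi hb) (hC.eqv_cone_ht ?_)⟩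
  have e := hC.ht_comp_right h hs
  rw [LinearMap.comp_id] at e
  rw [scal_add, scal_one, LinearMap.comp_assoc]
  exact (Cat.Ht.refl _).add e

end A6c

open A6c in
/-- QUOT: division by a monic polynomial -/
theorem Cat.Good.quot (hC : C.Good) {V : Raw (A[X] ⊗[ℤ] E) L} (hV : (C.bc A[X]).Obj V)
    (hf : Finite V.ι) {f : A[X]} (hm : f.Monic) : ∃ Q, (C.bc A).Obj Q ∧ Finite Q.ι ∧
      (V.WF → Q.WF) ∧ (C.bc A).Eqv (flat (V.cone V (scal V.ι (f ⊗ₜ 1)))) Q := by
  have hA := hC.bc A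
  have hX := hC.bc A[X]
  have hF := hC.flat_isFn A
  have hc := hX.ch_scal (V := V) (hC.cen_tmul f)
  have hi := hF.ch hV hV hc
  let u : V.ι × Fin f.natDegree → V.ι × ℕ := fun p => (p.1, p.2.1)
  have iu : Function.Injective u := fun _ _ e =>
    Prod.ext (Prod.mk.inj e).1 (Fin.ext (Prod.mk.inj e).2)
  have hq : ∀ δ, (C.bc A).Hom 0 (flat V) ⟨V.ι × Fin f.natDegree, fun p => V.deg p.1,
      fun p => V.lab p.1, δ⟩ (prj u iu ∘ₗ sm E V.ι (modByMonicHom f)) := fun δ =>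
    hA.hom_comp (hom_sm hC V _) (hA.hom_prj (V := ⟨V.ι × Fin f.natDegree, fun p => V.deg p.1,
      fun p => V.lab p.1, δ⟩) iu (fun _ => add_zero _) fun _ => rfl) (add_zero _)
  have hs : ∀ δ, (C.bc A).Hom 0 ⟨V.ι × Fin f.natDegree, fun p => V.deg p.1,
      fun p => V.lab p.1, δ⟩ (flat V) (inc u) := fun δ =>
    hA.hom_inc (fun _ => add_zero _) fun _ => rfl
  have h1 : sm E V.ι (dv hm) ∘ₗ bmL (flatB A E L).act (scal V.ι (f ⊗ₜ 1)) = LinearMap.id := by
    rw [bmL_scal_eq]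
    refine Finsupp.lhom_ext' fun ⟨i, k⟩ => LinearMap.ext_ring ?_
    simp only [LinearMap.comp_apply, lsingle_apply, LinearMap.id_apply]
    rw [sm_single, sm_G, ← G_pow]
    exact congrArg _ (mul_divByMonic_cancel_left _ hm)
  have h2 : (prj u iu ∘ₗ sm E V.ι (modByMonicHom f)) ∘ₗ inc u = LinearMap.id := by
    refine Finsupp.lhom_ext' fun ⟨i, k⟩ => LinearMap.ext_ring ?_
    simp only [LinearMap.comp_apply, lsingle_apply, LinearMap.id_apply]
    rw [inc_single, sm_single, modByMonicHom_apply, pow_mod hm k.2, G_pow,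
      ← inc_single u (i, k), prj_inc]
  have h3 : bmL (flatB A E L).act (scal V.ι (f ⊗ₜ 1)) ∘ₗ sm E V.ι (dv hm) +
      inc u ∘ₗ (prj u iu ∘ₗ sm E V.ι (modByMonicHom f)) = LinearMap.id := by
    rw [bmL_scal_eq]
    refine Finsupp.lhom_ext' fun ⟨i, k⟩ => LinearMap.ext_ring ?_
    simp only [LinearMap.comp_apply, lsingle_apply, LinearMap.id_apply, LinearMap.add_apply]
    have e : inc u (prj u iu (G E i ((X ^ k : A[X]) %ₘ f))) = G E i ((X ^ k : A[X]) %ₘ f) := by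
      ext ⟨i', m⟩
      by_cases hlt : m < f.natDegree
      · exact (inc_apply iu _ (i', ⟨m, hlt⟩)).trans (prj_apply iu _ _)
      · rw [inc_apply_out _ fun a e => hlt (by
          have := congrArg Prod.snd e
          have h2 := a.2.2
          simp only [u] at this
          omega)]
        by_cases h : i = i'
        · subst h
          rw [G_same, coeff_mod hm _ (not_lt.1 hlt), zero_tmul]
        · rw [G_ne h]
    rw [sm_single, sm_single, sm_G, modByMonicHom_apply, e, ← G_add, ← G_pow, add_comm]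
    exact congrArg _ (modByMonic_add_div _ f)
  obtain ⟨δ, hδ, hQ, hch⟩ := hA.exists_quot (fun p : V.ι × Fin f.natDegree => V.deg p.1)
    (fun p => V.lab p.1) (hF.obj hV) (hF.obj hV) hi (hom_sm hC V (dv hm)) (hq 0) (hs 0) h1 h2 h3
  refine ⟨_, hQ, inferInstanceAs (Finite (V.ι × Fin f.natDegree)), fun hw => ?_,
    hA.eqv_trans (hF.eqv_cone hX hA hV hV hc) (hA.eqv_cone_of_split hi hch (hom_sm hC V (dv hm))
      (hs δ) h1 h2 h3 (hF.obj hV) (hF.obj hV) hQ)⟩
  refine Subrelation.wf ?_ (InvImage.wf Prod.fst hw)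
  rintro ⟨i', k'⟩ ⟨i, k⟩ h h0
  refine h ?_
  change δ (single (i, k) 1) (i', k') = 0
  rw [hδ, inc_single, hA.D_single, LinearMap.comp_apply, prj_apply]
  refine sm_apply_eq_zero _ (fun m => ?_) _
  rw [flat_δ, h0, act_zero, Finsupp.zero_apply]

open A6c in
/-- RET: a perfect object is the flattening of a finite one-sided object killed by `X` -/
theorem Cat.Good.ret (hC : C.Good) {M : Raw (A ⊗[ℤ] E) L} (hM : (C.bc A).Obj M)
    (hp : (C.bc A).Perf M) : ∃ V, (C.bc A[X]).Obj V ∧ V.Fin1 ∧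
      (C.bc A[X]).Nul ((X : A[X]) ⊗ₜ 1) V ∧ (C.bc A).Eqv (flat V) M := by
  obtain ⟨W, hW, hfin, i, r, hi, hr, hri⟩ := hp
  have hA := hC.bc A
  have hX := hC.bc A[X]
  have hF := hC.flat_isFn A
  have hP := (isHomF_rT C (Polynomial.C : A →+* A[X])).isFn hA hX
  have hM' : (C.bc A[X]).Obj (M.bc Polynomial.C) := hP.obj hM
  have hW' : (C.bc A[X]).Obj (W.bc Polynomial.C) := hP.obj hW
  have hri' := hP.ht hM hM hri
  rw [hP.comp hi.1 hr.1, hP.id] at hri'
  obtain ⟨V, hV, hf, e⟩ := swap_scal hX hM' hW' (hfin.mapA _ _) (hP.ch hM hW hi) (hP.ch hW hM hr)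
    hri' (hC.cen_tmul (X - 1 : A[X]))
  rw [Algebra.TensorProduct.one_def, ← add_tmul, add_sub_cancel] at e
  have hx := hC.cen_tmul (X : A[X])
  exact ⟨V, hV, hf, hX.nul_of_retr hx e.retr (hX.nul_cone_scal hx hM'),
    hA.eqv_trans (hF.eqv hV (hX.obj_cone hM' hM' (hX.ch_scal hx)) e) (eqv_X hC hM)⟩

/-- FN: an object killed by a monic polynomial -/
theorem Cat.Good.fn (hC : C.Good) {V : Raw (A[X] ⊗[ℤ] E) L} (hV : (C.bc A[X]).Obj V)
    (hf : V.Fin1) {f : A[X]} (hm : f.Monic) (h : (C.bc A[X]).Nul (f ⊗ₜ 1) V) :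
    (C.bc A).InO ((flat V).sum (flat V).sh) ∧ (C.bc A).Perf (flat V) := by
  obtain ⟨Q, h1, h2, h3, h4⟩ := hC.quot hV hf.1 hm
  have hF := hC.flat_isFn A
  have hs : (C.bc A[X]).Obj V.sh := Cat.obj_sh.2 hV
  have e1 : (C.bc A).Eqv (flat (V.cone V (scal V.ι (f ⊗ₜ 1)))) (flat (V.sum V.sh)) :=
    hF.eqv ((hC.bc _).obj_cone hV hV ((hC.bc _).ch_scal (hC.cen_tmul f)))
      ((hC.bc _).obj_sum hV hs) ((hC.bc _).eqv_cone_ht h)
  have e2 : (C.bc A).Eqv (flat (V.sum V.sh)) ((flat V).sum (flat V).sh) :=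
    (hC.bc A).eqv_trans (hF.eqv_sum (hC.bc _) (hC.bc _) hV hs)
      ((hC.bc A).eqv_sum (hC.bc A).eqv_refl (hF.eqv_sh (hC.bc _) (hC.bc _) hV))
  have e3 : (C.bc A).InO ((flat V).sum (flat V).sh) :=
    ⟨Q, h1, ⟨h2, h3 hf.2⟩, (hC.bc A).eqv_trans ((hC.bc A).eqv_trans e1 e2).symm h4⟩
  exact ⟨e3, (hC.bc A).perf_of_retr (hC.bc A).retr_sum_left e3.perf⟩

/-! ### Clearing denominators -/

/-- the diagonal matrix -/
noncomputable def dgm {ι : Type} (c : ι → E) : (ι →₀ E) →ₗ[E] (ι →₀ E) := lc fun i => single i (c i)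

theorem dgm_single {ι : Type} (c : ι → E) (i : ι) (e : E) :
    dgm c (single i e) = single i (e * c i) := by simp [dgm]

theorem dgm_apply {ι : Type} (c : ι → E) (v : ι →₀ E) (i : ι) : dgm c v i = v i * c i := by
  induction v using Finsupp.induction_linear with
  | zero => simp
  | add a b ha hb => simp only [map_add, Finsupp.add_apply, ha, hb, add_mul]
  | single j e =>
    rw [dgm_single]
    by_cases h : i = j
    · subst h; simp
    · simp [single_eq_of_ne h]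

/-- the entry `(i, i')` of the twisting matrix is multiplied by `z ^ (ρ i - ρ i')` -/
@[reducible] noncomputable def Raw.resc (V : Raw E L) (z : E) (ρ : V.ι → ℕ) : Raw E L :=
  ⟨V.ι, V.deg, V.lab, lc fun i => dgm (fun i' => z ^ (ρ i - ρ i')) (V.δ (single i 1))⟩

theorem Raw.resc_δ (V : Raw E L) (z : E) (ρ : V.ι → ℕ) (i i' : V.ι) :
    (V.resc z ρ).δ (single i 1) i' = V.δ (single i 1) i' * z ^ (ρ i - ρ i') := by
  rw [linearCombination_single, one_smul, dgm_apply]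

theorem Cat.Good.cen_pow (hC : C.Good) {z : E} (hz : C.Cen z) (n : ℕ) : C.Cen (z ^ n) := by
  induction n with
  | zero => rw [pow_zero]; exact hC.cen_one
  | succ n ih => rw [pow_succ]; exact hC.cen_mul ih hz

theorem Cat.Good.d_mul_cen (hC : C.Good) {z : E} (hz : C.Cen z) (o : L) (a : E) :
    C.d (a * z) = C.d a * z := by
  rw [hC.dg.leib, hz.2.1, mul_zero, zero_add, hC.σ_eq (hz.2.2 o), Int.negOnePow_zero, one_smul]

theorem Cat.Good.hom_dgm (hC : C.Good) {V W : Raw E L} {k : ℤ} {f : Lin V W}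
    (hf : C.Hom k V W f) {c : V.ι → W.ι → E} (hc : ∀ i i', C.Cen (c i i')) :
    C.Hom k V W (lc fun i => dgm (c i) (f (single i 1))) := fun i i' => by
  rw [linearCombination_single, one_smul, dgm_apply, ← add_zero (V.deg i + k - W.deg i')]
  exact hC.mul_mem (hf i i') ((hc i i').2.2 _)

section

variable {V : Raw E L} {z : E} {ρ : V.ι → ℕ} (hC : C.Good) (hz : C.Cen z)
  (hρ : ∀ i i', V.δ (single i 1) i' ≠ 0 → ρ i' < ρ i)
include hρ

theorem resc_rank (i i' : V.ι) (h : (V.resc z ρ).δ (single i 1) i' ≠ 0) : ρ i' < ρ i :=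
  hρ i i' fun e => h (by rw [Raw.resc_δ, e, zero_mul])

include hC hz

/-- the differential of the rescaled object on vectors of rank at most `n` -/
theorem Cat.Good.D_resc (n : ℕ) (v : V.ι →₀ E) (hv : ∀ i, v i ≠ 0 → ρ i ≤ n) :
    C.D (V.resc z ρ) (dgm (fun i => z ^ (n - ρ i)) v) =
      dgm (fun i => z ^ (n - ρ i)) (C.D V v) := by
  rw [Cat.D_apply, Cat.D_apply, map_add]
  refine congrArg₂ (· + ·) ?_ (Finsupp.ext fun i => ?_)
  · conv_lhs => rw [← v.sum_single]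
    conv_rhs => rw [← v.sum_single]
    simp only [Finsupp.sum, map_sum]
    refine Finset.sum_congr rfl fun i hi => Finsupp.ext fun i' => ?_
    have e : ∀ a : E, (single i a : V.ι →₀ E) = a • single i 1 := fun a => by simp
    rw [dgm_single, e, e (v i), map_smul, map_smul, Finsupp.smul_apply, Raw.resc_δ, dgm_apply,
      Finsupp.smul_apply, smul_eq_mul, smul_eq_mul]
    by_cases h : V.δ (single i 1) i' = 0
    · simp only [h, zero_mul, mul_zero]
    · have h1 := hρ i i' h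
      have h2 := hv i (mem_support_iff.1 hi)
      rw [mul_assoc, ← mul_assoc (z ^ _), (hC.cen_pow hz _).1, mul_assoc, ← pow_add, ← mul_assoc,
        show n - ρ i + (ρ i - ρ i') = n - ρ i' by omega]
  · rw [Raw.tw_apply, dgm_apply, dgm_apply, Raw.tw_apply,
      hC.d_mul_cen (hC.cen_pow hz _) (V.lab i), smul_mul_assoc]

theorem Cat.Good.obj_resc (hV : C.Hom 1 V V V.δ)
    (h : ∀ i i', C.D V (V.δ (single i 1)) i' * z = 0) : C.Obj (V.resc z ρ) := by
  refine hC.obj_of_basis (hC.hom_dgm hV fun _ _ => hC.cen_pow hz _) fun i => ?_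
  rw [linearCombination_single, one_smul, hC.D_resc hz hρ _ _ fun i' h => (hρ i i' h).le]
  ext i'
  rw [dgm_apply, Finsupp.zero_apply]
  by_cases h1 : ρ i' < ρ i
  · rw [show ρ i - ρ i' = ρ i - ρ i' - 1 + 1 by omega, pow_succ', ← mul_assoc, h, zero_mul]
  · refine mul_eq_zero_of_left ?_ _
    have h2 : V.δ (single i 1) i' = 0 := by
      by_contra h2
      exact h1 (hρ i i' h2)
    rw [Cat.D_apply, Finsupp.add_apply, Raw.tw_apply, h2, map_zero, smul_zero, add_zero]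
    conv_lhs => rw [← (V.δ (single i 1)).sum_single]
    simp only [Finsupp.sum, map_sum, Finsupp.finsetSum_apply]
    refine Finset.sum_eq_zero fun j hj => ?_
    have e : ∀ a : E, (single j a : V.ι →₀ E) = a • single j 1 := fun a => by simp
    rw [e, map_smul, Finsupp.smul_apply]
    by_cases h3 : V.δ (single j 1) i' = 0
    · rw [h3, smul_zero]
    · exact absurd ((hρ j i' h3).trans (hρ i j (mem_support_iff.1 hj))) h1

theorem Cat.Good.eqv_resc {w : E} (hw : C.Cen w) (e : z * w = 1) : C.Eqv (V.resc z ρ) V := by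
  have h1 : ∀ {x : E}, C.Cen x → ∀ {U U' : Raw E L} (g : U.ι → U'.ι), (∀ i, U'.deg (g i) = U.deg i) →
      (∀ i, U'.lab (g i) = U.lab i) → ∀ i n, single (g i) (1 * x ^ n) ∈
        C.M U' (U.deg i + 0) (U.lab i) := fun hx _ _ g hd hl i n => Cat.single_mem_M (by
    rw [hd, hl, one_mul, add_zero, sub_self]; exact (hC.cen_pow hx n).2.2 _)
  have h2 : ∀ {x y : E}, C.Cen x → x * y = 1 →
      dgm (fun i => y ^ ρ i) ∘ₗ dgm (fun i => x ^ ρ i) = LinearMap.id := fun {x y} hx hxy =>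
    lin_ext fun i i' => by
      rw [LinearMap.comp_apply, dgm_single, dgm_single, one_mul,
        ← Commute.mul_pow (hx.1 y), hxy, one_pow, LinearMap.id_apply]
  refine ⟨dgm fun i => z ^ ρ i, (hC.isEqv_of_inv (V := V.resc z ρ) (W := V)
    (g := dgm fun i => w ^ ρ i) (hC.ch_of_basis (fun i => ?_) fun i => ?_) (fun i => ?_) (h2 hz e)
    (h2 hw ((hw.1 z).trans e))).1⟩
  · rw [dgm_single]
    exact h1 hz (U := V.resc z ρ) (U' := V) id (fun _ => rfl) (fun _ => rfl) i _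
  · rw [dgm_single, one_mul, ← mul_one (z ^ ρ i), ← smul_eq_mul, ← smul_single, hC.D_smul,
      (hC.cen_pow hz _).2.1, zero_smul, add_zero, hC.D_single]
    ext i'
    rw [dgm_apply, Raw.resc_δ, Finsupp.smul_apply, smul_eq_mul, (hC.cen_pow hz _).1]
    by_cases h : V.δ (single i 1) i' = 0
    · simp only [h, zero_mul]
    · rw [mul_assoc, ← pow_add, Nat.sub_add_cancel (hρ i i' h).le]
  · rw [dgm_single]
    exact h1 hw (U := V) (U' := V.resc z ρ) id (fun _ => rfl) (fun _ => rfl) i _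

end

/-- entrywise base change of vectors -/
noncomputable def rV {κ : Type} (E : Type) [Ring E] (φ : B →+* B') :
    (κ →₀ B ⊗[ℤ] E) →+ (κ →₀ B' ⊗[ℤ] E) := mapRange.addMonoidHom (rT E φ.toAddMonoidHom)

theorem rV_apply {κ : Type} (φ : B →+* B') (v : κ →₀ B ⊗[ℤ] E) (k : κ) :
    rV E φ v k = rT E φ.toAddMonoidHom (v k) := rfl

theorem rV_basis {ι κ : Type} (φ : B →+* B') (f : (ι →₀ B ⊗[ℤ] E) →ₗ[B ⊗[ℤ] E] (κ →₀ B ⊗[ℤ] E))
    (i : ι) : rV E φ (f (single i 1)) = mapL (rT E φ.toAddMonoidHom) f (single i 1) :=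
  Finsupp.ext fun k => (mapL_single (rT E φ.toAddMonoidHom) f i k).symm

theorem rV_map {ι κ : Type} (φ : B →+* B') (f : (ι →₀ B ⊗[ℤ] E) →ₗ[B ⊗[ℤ] E] (κ →₀ B ⊗[ℤ] E))
    (v : ι →₀ B ⊗[ℤ] E) : rV E φ (f v) = mapL (rT E φ.toAddMonoidHom) f (rV E φ v) := by
  induction v using Finsupp.induction_linear with
  | zero => simp only [map_zero]
  | add a b ha hb => simp only [map_add, ha, hb]
  | single i a =>
    have e1 : (single i a : ι →₀ B ⊗[ℤ] E) = a • single i 1 := by simp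
    have e2 : rV E φ (single i a) = rT E φ.toAddMonoidHom a • single i 1 := by
      rw [smul_single, smul_eq_mul, mul_one]
      exact mapRange_single (hf := map_zero _)
    rw [e2, e1, f.map_smul, LinearMap.map_smul, ← rV_basis]
    exact Finsupp.ext fun k => rT_mul φ _ _

theorem rV_D (C : Cat E L) (φ : B →+* B') (V : Raw (B ⊗[ℤ] E) L) (v : V.ι →₀ B ⊗[ℤ] E) :
    rV E φ ((C.bc B).D V v) = (C.bc B').D (V.bc φ) (rV E φ v) := by
  rw [Cat.D_apply, Cat.D_apply, map_add, rV_map]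
  refine congrArg _ (Finsupp.ext fun i => ?_)
  rw [rV_apply, Raw.tw_apply, Raw.tw_apply, Units.smul_def, Units.smul_def, map_zsmul]
  exact congrArg _ (lT_rT _ _ _).symm

theorem mapL_rT_comp {ι κ μ : Type} (φ : B →+* B')
    (f : (ι →₀ B ⊗[ℤ] E) →ₗ[B ⊗[ℤ] E] (κ →₀ B ⊗[ℤ] E))
    (g : (κ →₀ B ⊗[ℤ] E) →ₗ[B ⊗[ℤ] E] (μ →₀ B ⊗[ℤ] E)) :
    mapL (rT E φ.toAddMonoidHom) (g ∘ₗ f) =
      mapL (rT E φ.toAddMonoidHom) g ∘ₗ mapL (rT E φ.toAddMonoidHom) f :=
  lin_ext fun i k => by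
    rw [← rV_basis, LinearMap.comp_apply, LinearMap.comp_apply, rV_map, rV_basis]

/-- lifting a matrix whose entries can be lifted -/
theorem exists_lift {ι κ : Type} (φ : E →+ E') (X : ι → κ → AddSubgroup E)
    (f' : (ι →₀ E') →ₗ[E'] (κ →₀ E')) (h : ∀ i k, ∃ z ∈ X i k, φ z = f' (single i 1) k) :
    ∃ f : (ι →₀ E) →ₗ[E] (κ →₀ E), (∀ i k, f (single i 1) k ∈ X i k) ∧ mapL φ f = f' ∧
      ∀ i k, f (single i 1) k ≠ 0 → f' (single i 1) k ≠ 0 := by
  classical
  choose w h1 h2 using h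
  let g : ι → κ →₀ E := fun i => onFinset (f' (single i 1)).support
    (fun k => if f' (single i 1) k = 0 then 0 else w i k) fun k hk =>
      mem_support_iff.2 fun e => hk (if_pos e)
  have e : ∀ i k, lc g (single i 1) k = if f' (single i 1) k = 0 then 0 else w i k := fun i k => by
    rw [linearCombination_single, one_smul, onFinset_apply]
  refine ⟨lc g, fun i k => ?_, lin_ext fun i k => ?_, fun i k h e' => h ((e i k).trans (if_pos e'))⟩
  · rw [e]
    split_ifs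
    · exact zero_mem _
    · exact h1 i k
  · rw [mapL_single, e]
    split_ifs with h
    · rw [map_zero, h]
    · exact h2 i k

theorem exists_common (S : Submonoid B) {ι κ M : Type} [Finite ι] [Zero M] (v : ι → κ →₀ M)
    (P : ι → κ → B → Prop) (h0 : ∀ i k s, v i k = 0 → P i k s) (h1 : ∀ i k, ∃ s ∈ S, P i k s)
    (h2 : ∀ i k s t, P i k s → P i k (s * t)) : ∃ s ∈ S, ∀ i k, P i k s := by
  classical
  have := Fintype.ofFinite ι
  choose s hs hP using h1
  refine ⟨∏ i, ∏ k ∈ (v i).support, s i k,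
    S.prod_mem fun i _ => S.prod_mem fun k _ => hs i k, fun i k => ?_⟩
  by_cases h : v i k = 0
  · exact h0 i k _ h
  · obtain ⟨t, ht⟩ := (Finset.dvd_prod_of_mem (s i) (mem_support_iff.2 h)).trans
      (Finset.dvd_prod_of_mem (fun i => ∏ k ∈ (v i).support, s i k) (Finset.mem_univ i))
    rw [ht]
    exact h2 i k _ t (hP i k)

theorem tmul_one_mul (s t : B) : (s * t) ⊗ₜ[ℤ] (1 : E) = s ⊗ₜ[ℤ] (1 : E) * t ⊗ₜ[ℤ] (1 : E) := by
  rw [Algebra.TensorProduct.tmul_mul_tmul, mul_one]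

theorem tmul_one_pow (s : B) (n : ℕ) : (s ⊗ₜ[ℤ] (1 : E)) ^ n = (s ^ n) ⊗ₜ[ℤ] (1 : E) := by
  rw [Algebra.TensorProduct.tmul_pow, one_pow]

theorem resc_bc (W : Raw (B ⊗[ℤ] E) L) (φ : B →+* B') (t : B) (ρ : W.ι → ℕ) :
    (W.resc (t ⊗ₜ 1) ρ).bc φ = (W.bc φ).resc (φ t ⊗ₜ[ℤ] (1 : E)) ρ :=
  congrArg (Raw.mk W.ι W.deg W.lab) (lin_ext fun i i' => by
    rw [mapL_single, Raw.resc_δ, rT_mul, tmul_one_pow, rT_tmul]
    refine Eq.trans ?_ (Raw.resc_δ (W.bc φ) _ ρ i i').symm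
    rw [mapL_single, tmul_one_pow, ← map_pow]
    rfl)

theorem mul_tmul_mem_bcF {X : AddSubgroup E} {z : B ⊗[ℤ] E} (hz : z ∈ bcF B X) (s : B) :
    z * s ⊗ₜ[ℤ] (1 : E) ∈ bcF B X :=
  mul_mem_bcF (Y := AddSubgroup.zmultiples 1) (fun a ha _ ⟨n, hn⟩ => by
    rw [← hn, mul_smul_comm, mul_one]; exact zsmul_mem ha n) hz
    (tmul_mem_bcF s (AddSubgroup.mem_zmultiples 1))

section

variable (S : Submonoid B) [Algebra B B'] [IsLocalization S B']
include S

theorem loc_surj {X : AddSubgroup E} {z : B' ⊗[ℤ] E} (hz : z ∈ bcF B' X) :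
    ∃ s ∈ S, ∃ w ∈ bcF B X, rT E (algebraMap B B').toAddMonoidHom w =
      z * algebraMap B B' s ⊗ₜ[ℤ] (1 : E) := by
  refine bcF_induction (p := fun z => ∃ s ∈ S, ∃ w ∈ bcF B X,
    rT E (algebraMap B B').toAddMonoidHom w = z * algebraMap B B' s ⊗ₜ[ℤ] (1 : E)) hz
    (fun b e he => ?_) ⟨1, S.one_mem, 0, zero_mem _, by rw [map_zero, zero_mul]⟩ ?_
  · obtain ⟨⟨a, s⟩, h⟩ := IsLocalization.surj S b
    exact ⟨s, s.2, a ⊗ₜ e, tmul_mem_bcF a he, by
      rw [Algebra.TensorProduct.tmul_mul_tmul, mul_one, h]; rfl⟩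
  · rintro x y - - ⟨s, hs, w, hw, e⟩ ⟨s', hs', w', hw', e'⟩
    refine ⟨s * s', S.mul_mem hs hs', w * s' ⊗ₜ 1 + w' * s ⊗ₜ 1,
      add_mem (mul_tmul_mem_bcF hw _) (mul_tmul_mem_bcF hw' _), ?_⟩
    rw [map_add, rT_mul, rT_mul, e, e', add_mul, mul_assoc, mul_assoc, rT_tmul, rT_tmul, map_mul]
    exact congrArg₂ (x * · + y * ·) (tmul_one_mul _ _).symm
      ((tmul_one_mul _ _).symm.trans (by rw [mul_comm]; rfl))

theorem loc_ker {z : B ⊗[ℤ] E} (hz : rT E (algebraMap B B').toAddMonoidHom z = 0) :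
    ∃ s ∈ S, z * s ⊗ₜ[ℤ] (1 : E) = 0 := by
  have e : ∀ z, AlgebraTensorModule.rTensor ℤ E (Algebra.linearMap B B') z =
      rT E (algebraMap B B').toAddMonoidHom z :=
    tensor_eq (AlgebraTensorModule.rTensor ℤ E (Algebra.linearMap B B')).toAddMonoidHom _
      fun _ _ => rfl
  obtain ⟨s, hs⟩ := (IsLocalizedModule.eq_zero_iff S _).1 ((e z).trans hz)
  refine ⟨s, s.2, Eq.trans ?_ hs⟩
  exact tensor_ind (p := fun z => z * (s : B) ⊗ₜ[ℤ] (1 : E) = (s : B) • z) z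
    (fun b a => by rw [Algebra.TensorProduct.tmul_mul_tmul, mul_one, smul_tmul', mul_comm]; rfl)
    fun x y hx hy => by rw [add_mul, smul_add, hx, hy]

theorem loc_surj_all {ι κ : Type} [Finite ι] (X : ι → κ → AddSubgroup E) (v : ι → κ →₀ B' ⊗[ℤ] E)
    (h : ∀ i k, v i k ∈ bcF B' (X i k)) : ∃ s ∈ S, ∀ i k, ∀ t, ∃ w ∈ bcF B (X i k),
      rT E (algebraMap B B').toAddMonoidHom w = v i k * algebraMap B B' (s * t) ⊗ₜ[ℤ] (1 : E) := by
  have h2 : ∀ i k s t, (∃ w ∈ bcF B (X i k), rT E (algebraMap B B').toAddMonoidHom w =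
      v i k * algebraMap B B' s ⊗ₜ[ℤ] (1 : E)) → ∃ w ∈ bcF B (X i k),
      rT E (algebraMap B B').toAddMonoidHom w = v i k * algebraMap B B' (s * t) ⊗ₜ[ℤ] (1 : E) :=
    fun i k s t ⟨w, hw, e⟩ => ⟨w * t ⊗ₜ 1, mul_tmul_mem_bcF hw t, by
      rw [rT_mul, e, map_mul, tmul_one_mul, mul_assoc]; rfl⟩
  obtain ⟨s, hs, h3⟩ := exists_common S v _
    (fun i k s e => ⟨0, zero_mem _, by rw [map_zero, e, zero_mul]⟩)
    (fun i k => loc_surj S (h i k)) h2
  exact ⟨s, hs, fun i k t => h2 i k s t (h3 i k)⟩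

theorem loc_ker_all {ι κ : Type} [Finite ι] (v : ι → κ →₀ B ⊗[ℤ] E)
    (h : ∀ i, rV E (algebraMap B B') (v i) = 0) :
    ∃ s ∈ S, ∀ i, scal κ (s ⊗ₜ[ℤ] (1 : E)) (v i) = 0 := by
  obtain ⟨s, hs, h1⟩ := exists_common S v (fun i k s => v i k * s ⊗ₜ[ℤ] (1 : E) = 0)
    (fun i k s e => by rw [e, zero_mul]) (fun i k => loc_ker S (DFunLike.congr_fun (h i) k))
    fun i k s t e => by rw [tmul_one_mul, ← mul_assoc, e, zero_mul]
  exact ⟨s, hs, fun i => Finsupp.ext fun k => (scal_apply _ _ _).trans (h1 i k)⟩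

theorem loc_unit {s : B} (hs : s ∈ S) :
    ∃ u : B', algebraMap B B' s ⊗ₜ[ℤ] (1 : E) * u ⊗ₜ[ℤ] (1 : E) = 1 := by
  obtain ⟨u, hu⟩ := (IsLocalization.map_units B' (⟨s, hs⟩ : S)).exists_right_inv
  exact ⟨u, by rw [← tmul_one_mul, hu]; rfl⟩

theorem loc_hom (C : Cat E L) {V W : Raw (B ⊗[ℤ] E) L} (hf : Finite V.ι) {k : ℤ}
    {f' : Lin (V.bc (algebraMap B B')) (W.bc (algebraMap B B'))} (h : (C.bc B').Hom k _ _ f') :
    ∃ s ∈ S, ∃ f : Lin V W, (C.bc B).Hom k V W f ∧ mapL (rT E (algebraMap B B').toAddMonoidHom) f =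
      scal W.ι (algebraMap B B' s ⊗ₜ[ℤ] (1 : E)) ∘ₗ f' := by
  obtain ⟨s, hs, h1⟩ := loc_surj_all S _ (fun i => f' (single i 1)) h
  obtain ⟨f, h2, h3, -⟩ := exists_lift (rT E (algebraMap B B').toAddMonoidHom) _
    (scal W.ι (algebraMap B B' s ⊗ₜ[ℤ] (1 : E)) ∘ₗ f') fun i i' => by
      have := h1 i i' 1
      rwa [mul_one, ← scal_apply] at this
  exact ⟨s, hs, f, h2, h3⟩

theorem Cat.Good.isEqv_loc (hC : C.Good) (V : Raw (B' ⊗[ℤ] E) L) {s : B} (hs : s ∈ S) :
    (C.bc B').IsEqv V V (scal V.ι (algebraMap B B' s ⊗ₜ[ℤ] (1 : E))) := by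
  obtain ⟨u, hu⟩ := loc_unit (E := E) (B' := B') S hs
  exact ((hC.bc B').isEqv_of_inv ((hC.bc B').ch_scal (hC.cen_tmul _))
    ((hC.bc B').ch_scal (hC.cen_tmul u)).1 (by rw [← scal_mul, hu, scal_one])
    (by rw [← scal_mul, (hC.cen_tmul u).1, hu, scal_one])).1

end

section

variable (hC : C.Good) (S : Submonoid B) [Algebra B B'] [IsLocalization S B']
include hC S

theorem Cat.Good.eqv_resc_loc {U : Raw (B' ⊗[ℤ] E) L} {ρ : U.ι → ℕ}
    (hρ : ∀ i i', U.δ (single i 1) i' ≠ 0 → ρ i' < ρ i) {s : B} (hs : s ∈ S) :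
    (C.bc B').Eqv (U.resc (algebraMap B B' s ⊗ₜ[ℤ] (1 : E)) ρ) U := by
  obtain ⟨u, hu⟩ := loc_unit (E := E) (B' := B') S hs
  exact (hC.bc B').eqv_resc (hC.cen_tmul _) hρ (hC.cen_tmul u) hu

/-- second step: the square of the differential is killed -/
theorem Cat.Good.cd_sq {W : Raw (B ⊗[ℤ] E) L} (hf : Finite W.ι) {ρ : W.ι → ℕ}
    (hρ : ∀ i i', W.δ (single i 1) i' ≠ 0 → ρ i' < ρ i) (h1 : (C.bc B).Hom 1 W W W.δ)
    (h : (C.bc B').Obj (W.bc (algebraMap B B'))) : ∃ U, (C.bc B).Obj U ∧ U.Fin1 ∧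
      (C.bc B').Eqv (U.bc (algebraMap B B')) (W.bc (algebraMap B B')) := by
  obtain ⟨t, ht, h5⟩ := loc_ker_all (B' := B') S
    (fun i => (C.bc B).D W (W.δ (single i 1))) fun i => by
      have e := h.2 (single i 1)
      rw [(hC.bc B').D_single] at e
      rw [rV_D, rV_basis]
      exact e
  have h6 : (C.bc B).Obj (W.resc (t ⊗ₜ 1) ρ) :=
    (hC.bc B).obj_resc (hC.cen_tmul t) hρ h1 fun i i' => by
      rw [← scal_apply, h5, Finsupp.zero_apply]
  have h7 : (W.resc (t ⊗ₜ 1) ρ).WF :=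
    Raw.wf_of_rank (V := W.resc (t ⊗ₜ 1) ρ) ρ (resc_rank (V := W) hρ)
  have h8 : ∀ i i', (W.bc (algebraMap B B')).δ (single i 1) i' ≠ 0 → ρ i' < ρ i :=
    fun i i' e => hρ i i' fun e' => e (by rw [mapL_single, e', map_zero])
  refine ⟨W.resc (t ⊗ₜ 1) ρ, h6, ⟨hf, h7⟩, ?_⟩
  rw [resc_bc]
  exact hC.eqv_resc_loc S (U := W.bc (algebraMap B B')) h8 ht

theorem Cat.Good.cd_obj {W' : Raw (B' ⊗[ℤ] E) L} (h : (C.bc B').Obj W') (hf : W'.Fin1) :
    ∃ W, (C.bc B).Obj W ∧ W.Fin1 ∧ (C.bc B').Eqv (W.bc (algebraMap B B')) W' := by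
  have := hf.1
  obtain ⟨ρ, hρ⟩ := hf.rank
  obtain ⟨s, hs, h1⟩ := loc_surj_all S
    (fun i i' => C.H (W'.deg i + 1 - W'.deg i') (W'.lab i) (W'.lab i'))
    (fun i => W'.δ (single i 1)) h.1
  have hU : (C.bc B').Obj (W'.resc (algebraMap B B' s ⊗ₜ[ℤ] (1 : E)) ρ) :=
    (hC.bc B').obj_resc (hC.cen_tmul _) hρ h.1 fun i i' => by
      rw [← (hC.bc B').D_single, h.2, Finsupp.zero_apply, zero_mul]
  obtain ⟨δ, h2, h3, h4⟩ := exists_lift (rT E (algebraMap B B').toAddMonoidHom)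
    (fun i i' => bcF B (C.H (W'.deg i + 1 - W'.deg i') (W'.lab i) (W'.lab i')))
    (W'.resc (algebraMap B B' s ⊗ₜ[ℤ] (1 : E)) ρ).δ fun i i' => by
      rw [Raw.resc_δ]
      by_cases e : W'.δ (single i 1) i' = 0
      · exact ⟨0, zero_mem _, by rw [map_zero, e, zero_mul]⟩
      · have := hρ i i' e
        rw [tmul_one_pow, ← map_pow, show ρ i - ρ i' = ρ i - ρ i' - 1 + 1 by omega, pow_succ']
        exact h1 i i' _
  have e1 : Raw.bc ⟨W'.ι, W'.deg, W'.lab, δ⟩ (algebraMap B B') =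
      W'.resc (algebraMap B B' s ⊗ₜ[ℤ] (1 : E)) ρ := congrArg (Raw.mk W'.ι W'.deg W'.lab) h3
  obtain ⟨U, h5, h6, h7⟩ := hC.cd_sq S (W := ⟨W'.ι, W'.deg, W'.lab, δ⟩) hf.1 (ρ := ρ)
    (fun i i' e => resc_rank hρ i i' (h4 i i' e)) h2 (by rw [e1]; exact hU)
  rw [e1] at h7
  exact ⟨U, h5, h6, (hC.bc B').eqv_trans h7 (hC.eqv_resc_loc S hρ hs)⟩

theorem Cat.Good.cd_ch {V W : Raw (B ⊗[ℤ] E) L} (hV : (C.bc B).Obj V) (hW : (C.bc B).Obj W)
    (hf : Finite V.ι) {ψ' : Lin (V.bc (algebraMap B B')) (W.bc (algebraMap B B'))}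
    (h : (C.bc B').IsEqv _ _ ψ') : ∃ ψ : Lin V W, (C.bc B).Ch V W ψ ∧
      (C.bc B').IsEqv (V.bc (algebraMap B B')) (W.bc (algebraMap B B'))
        (mapL (rT E (algebraMap B B').toAddMonoidHom) ψ) := by
  obtain ⟨s, hs, f, h1, h2⟩ := loc_hom S C hf h.1.1
  have h3 := (hC.bc B').isEqv_comp h (hC.isEqv_loc S _ hs)
  rw [← h2] at h3
  obtain ⟨t, ht, h4⟩ := loc_ker_all (B' := B') S
    (fun i => (C.bc B).D W (f (single i 1)) - f (V.δ (single i 1))) fun i => by
      rw [map_sub, rV_D, rV_basis, rV_map, rV_basis, h3.1.2, (hC.bc B').D_single, sub_self]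
  have h5 := (hC.bc B).ch_scal (V := W) (hC.cen_tmul t)
  refine ⟨scal W.ι (t ⊗ₜ 1) ∘ₗ f, (hC.bc B).ch_of_basis
    ((hC.bc B).hom_comp h1 h5.1 (add_zero 0)) fun i => ?_, ?_⟩
  · rw [LinearMap.comp_apply, LinearMap.comp_apply, h5.2, ← sub_eq_zero, ← map_sub, h4]
  · rw [mapL_rT_comp, mapL_scal]
    exact (hC.bc B').isEqv_comp h3 (hC.isEqv_loc S _ ht)

theorem Cat.Good.cd_ctr {V : Raw (B ⊗[ℤ] E) L} (hV : (C.bc B).Obj V) (hf : Finite V.ι)
    (h : (C.bc B').Ctr (V.bc (algebraMap B B'))) : ∃ f ∈ S, (C.bc B).Nul (f ⊗ₜ 1) V := by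
  obtain ⟨k, hk, e⟩ := h
  obtain ⟨s, hs, f, h1, h2⟩ := loc_hom S C hf hk
  have h3 := (hC.bc B').ch_scal (V := V.bc (algebraMap B B')) (hC.cen_tmul (algebraMap B B' s))
  obtain ⟨t, ht, h4⟩ := loc_ker_all (B' := B') S (fun i => scal V.ι (s ⊗ₜ 1) (single i 1) -
    ((C.bc B).D V (f (single i 1)) + f (V.δ (single i 1)))) fun i => by
      have := e (single i 1)
      rw [LinearMap.zero_apply, sub_zero, (hC.bc B').D_single] at this
      rw [map_sub, map_add, rV_D, rV_basis, rV_basis, rV_map, rV_basis, mapL_scal, h2,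
        LinearMap.comp_apply, LinearMap.comp_apply, h3.2, ← map_add, ← this]
      exact sub_self _
  have h5 := (hC.bc B).ch_scal (V := V) (hC.cen_tmul t)
  refine ⟨s * t, S.mul_mem hs ht, (hC.bc B).ht_of_basis
    ((hC.bc B).hom_comp h1 h5.1 (add_zero _)) fun i => ?_⟩
  rw [LinearMap.zero_apply, sub_zero, tmul_one_mul, scal_mul, LinearMap.comp_apply,
    LinearMap.comp_apply, LinearMap.comp_apply, h5.2, ← map_add, ← sub_eq_zero, ← map_sub, h4]

theorem Cat.Good.ctr_loc {V : Raw (B ⊗[ℤ] E) L} (hV : (C.bc B).Obj V) {f : B} (hf : f ∈ S)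
    (h : (C.bc B).Nul (f ⊗ₜ 1) V) : (C.bc B').Ctr (V.bc (algebraMap B B')) := by
  obtain ⟨u, hu⟩ := loc_unit (E := E) (B' := B') S hf
  exact (hC.bc B').ctr_of_nul (hC.cen_tmul u) hu
    (((isHomF_rT C (algebraMap B B')).isFn (hC.bc B) (hC.bc B')).nul hV
      (mapL_scal V.ι (rT E (algebraMap B B').toAddMonoidHom) (f ⊗ₜ 1)) h)

end

end Pool.Agent.Lib.NIL
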