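import Pool.Agent.Lib.NIL.B_AC4

/-! AC3b, first part: finite subcomplexes that are exact up to a free group of cycles. -/

noncomputable section

namespace Pool.Agent.Lib.NIL

open Finsupp

namespace AC3b

variable {G K : Type} [Group G] [MulAction G K] {n : ℕ}

theorem mem_sup' {S : Set K} {z : K →₀ ℤ} : z ∈ supported ℤ ℤ S ↔ ∀ c, z c ≠ 0 → c ∈ S :=
  (mem_supported' ℤ z).trans (forall_congr' fun _ => not_imp_comm)

theorem fg_of_le {S : Set K} (hS : S.Finite) {Z : Submodule ℤ (K →₀ ℤ)}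
    (h : Z ≤ supported ℤ ℤ S) : Z.FG :=
  Submodule.FG.of_le (by
    rw [supported_eq_span_single]
    exact Submodule.fg_span (hS.image _)) h

variable {N : ℕ} (A : ACx G K N)

/-- reduced cycles of dimension `m` on `S` -/
def cyc (S : Set K) (m : ℕ) : Submodule ℤ (K →₀ ℤ) :=
  supported ℤ ℤ {c | c ∈ S ∧ A.dim c = m} ⊓ LinearMap.ker (linearCombination ℤ A.bd) ⊓
    LinearMap.ker (linearCombination ℤ A.eps)

theorem mem_cyc {S : Set K} {m : ℕ} {z : K →₀ ℤ} : z ∈ cyc A S m ↔
    (∀ c, z c ≠ 0 → c ∈ S ∧ A.dim c = m) ∧ linearCombination ℤ A.bd z = 0 ∧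
      linearCombination ℤ A.eps z = 0 := by
  rw [cyc, Submodule.mem_inf, Submodule.mem_inf, mem_sup', and_assoc]
  rfl

/-- boundaries of chains on `S` -/
def bdy (S : Set K) : Submodule ℤ (K →₀ ℤ) := (supported ℤ ℤ S).map (linearCombination ℤ A.bd)

theorem filter_ne {p : K → Prop} [DecidablePred p] {z : K →₀ ℤ} {c : K}
    (h : z.filter p c ≠ 0) : z c ≠ 0 ∧ p c := by
  rw [filter_apply] at h
  split_ifs at h with e
  · exact ⟨h, e⟩
  · exact (h rfl).elim

theorem sum_filter (z : K →₀ ℤ) :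
    ∑ m ∈ Finset.range (N + 1), z.filter (fun c => A.dim c = m) = z := by
  ext c
  rw [Finsupp.finsetSum_apply]
  refine (Finset.sum_eq_single (A.dim c) (fun m _ e => ?_) fun e => ?_).trans ?_
  · exact filter_apply_neg _ _ e.symm
  · exact (e (Finset.mem_range.2 (Nat.lt_succ_of_le (A.dim_le c)))).elim
  · exact filter_apply_pos _ _ rfl

theorem filter_cyc {S : Set K} {z : K →₀ ℤ} (h : ∀ c, z c ≠ 0 → c ∈ S)
    (h1 : linearCombination ℤ A.bd z = 0) (h2 : linearCombination ℤ A.eps z = 0) (m : ℕ) :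
    z.filter (fun c => A.dim c = m) ∈ cyc A S m := by
  refine (mem_cyc A).2 ⟨fun c hc => ⟨h c (filter_ne hc).1, (filter_ne hc).2⟩, ?_, ?_⟩
  · cases m with
    | zero =>
      refine AC4.map_eq (g := 0) fun c hc => ?_
      rw [linearCombination_single, one_smul]
      refine Finsupp.ext fun e => by_contra fun k => ?_
      have := A.bd_supp c e k
      have := (filter_ne hc).2
      omega
    | succ m => rw [AC4.bd_filter, h1, filter_zero]
  · cases m with
    | zero =>
      have e := filter_add_filter_not z fun c => A.dim c = 0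
      rw [← e, map_add, AC4.eps_zero A (v := z.filter fun c => ¬A.dim c = 0)
        fun c hc => (filter_ne hc).2, add_zero] at h2
      exact h2
    | succ m => exact AC4.eps_zero A fun c hc => by have := (filter_ne hc).2; omega

theorem top_zero (hA : A.Ex Set.univ) {S : Set K} {z : K →₀ ℤ} (h : z ∈ cyc A S N) : z = 0 := by
  obtain ⟨h1, h2, h3⟩ := (mem_cyc A).1 h
  obtain ⟨w, -, hw⟩ := hA.2.2 z (fun _ _ => trivial) h2 h3
  have e : (w.filter fun c => A.dim c = N + 1) = 0 := (filter_eq_zero_iff _ _).2 fun c hc => by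
    have := A.dim_le c
    omega
  rw [← (filter_eq_self_iff (fun c => A.dim c = N) z).2 fun c hc => (h1 c hc).2, ← hw,
    ← AC4.bd_filter, e, map_zero]

/-- closed under faces -/
def Cl (S : Set K) : Prop := ∀ c ∈ S, ∀ e, A.bd c e ≠ 0 → e ∈ S

theorem exists_cl (F : Set K) (hF : F.Finite) : ∃ S : Set K, S.Finite ∧ F ⊆ S ∧ Cl A S := by
  have key : ∀ (m : ℕ) (F : Set K), F.Finite → (∀ c ∈ F, A.dim c < m) →
      ∃ S : Set K, S.Finite ∧ F ⊆ S ∧ Cl A S := by
    intro m
    induction m with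
    | zero => exact fun F hF h => ⟨F, hF, subset_rfl, fun c hc => (Nat.not_lt_zero _ (h c hc)).elim⟩
    | succ m ih =>
      intro F hF h
      obtain ⟨S, h1, h2, h3⟩ := ih (⋃ c ∈ F, (A.bd c).support)
        (hF.biUnion fun c _ => Finset.finite_toSet _) fun e he => by
          obtain ⟨c, hc, he⟩ := Set.mem_iUnion₂.1 he
          have := A.bd_supp c e (mem_support_iff.1 he)
          have := h c hc
          omega
      refine ⟨F ∪ S, hF.union h1, Set.subset_union_left, fun c hc e he => Or.inr ?_⟩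
      exact hc.elim (fun hc => h2 (Set.mem_iUnion₂.2 ⟨c, hc, mem_support_iff.2 he⟩))
        fun hc => h3 c hc e he
  exact key (N + 1) F hF fun c _ => Nat.lt_succ_of_le (A.dim_le c)

theorem low {k : ℕ} (hc : A.Cone k) (F : Set K) (hF : F.Finite) (m : ℕ) (hm : m ≤ k) :
    ∃ S : Set K, S.Finite ∧ F ⊆ S ∧ Cl A S ∧ ∀ j < m, cyc A S j ≤ bdy A S := by
  induction m with
  | zero =>
    obtain ⟨S, h1, h2, h3⟩ := exists_cl A F hF
    exact ⟨S, h1, h2, h3, fun j hj => (Nat.not_lt_zero _ hj).elim⟩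
  | succ m ih =>
    obtain ⟨S, h1, h2, h3, h4⟩ := ih (Nat.le_of_succ_le hm)
    obtain ⟨T, t1, t2⟩ := Submodule.fg_def.1 (fg_of_le h1 (Z := cyc A S m) fun z hz =>
      mem_sup'.2 fun c hc => (((mem_cyc A).1 hz).1 c hc).1)
    have t3 : ∀ z : T, z.1 ∈ cyc A S m := fun z => t2 ▸ Submodule.subset_span z.2
    choose f f1 f2 using fun z : T => hc m hm z.1 (fun c e => (((mem_cyc A).1 (t3 z)).1 c e).2)
      ((mem_cyc A).1 (t3 z)).2.1 ((mem_cyc A).1 (t3 z)).2.2
    have := t1.to_subtype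
    have mono : bdy A S ≤ bdy A (S ∪ Set.range f) :=
      Submodule.map_mono (supported_mono Set.subset_union_left)
    have old : ∀ j ≤ m, cyc A (S ∪ Set.range f) j ≤ cyc A S j := fun j hj z hz => by
      obtain ⟨z1, z2⟩ := (mem_cyc A).1 hz
      refine (mem_cyc A).2 ⟨fun c e => ⟨(z1 c e).1.resolve_right ?_, (z1 c e).2⟩, z2⟩
      rintro ⟨y, rfl⟩
      have := f1 y
      have := (z1 _ e).2
      omega
    refine ⟨S ∪ Set.range f, h1.union (Set.finite_range f), h2.trans Set.subset_union_left,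
      fun c hc e he => Or.inl ?_, fun j hj => (old j (Nat.le_of_lt_succ hj)).trans ?_⟩
    · obtain hc | ⟨y, rfl⟩ := hc
      · exact h3 c hc e he
      · rw [f2] at he
        exact (((mem_cyc A).1 (t3 y)).1 e he).1
    · obtain hj | rfl := Nat.lt_succ_iff_lt_or_eq.1 hj
      · exact (h4 j hj).trans mono
      · rw [← t2, Submodule.span_le]
        exact fun z hz => ⟨single (f ⟨z, hz⟩) 1, single_mem_supported ℤ _ (Or.inr ⟨_, rfl⟩), by
          rw [linearCombination_single, one_smul, f2]⟩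

theorem split (A : ACx G K (n + 1)) (hA : A.Ex Set.univ) {S : Set K} (hS : S.Finite) :
    ∃ (ι : Type) (_ : Finite ι) (h : ι → K →₀ ℤ), (∀ i, h i ∈ cyc A S n) ∧
      (∀ z ∈ cyc A S n, ∃ a : ι →₀ ℤ, z - linearCombination ℤ h a ∈ bdy A S) ∧
      ∀ a : ι →₀ ℤ, linearCombination ℤ h a ∈ bdy A S → a = 0 := by
  let B := (bdy A S).submoduleOf (cyc A S n)
  have : Module.Finite ℤ (cyc A S n) := Module.Finite.iff_fg.2 (fg_of_le hS fun z hz =>
    mem_sup'.2 fun c hc => (((mem_cyc A).1 hz).1 c hc).1)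
  have : Module.IsTorsionFree ℤ (cyc A S n ⧸ B) := by
    refine Module.IsTorsionFree.of_smul_eq_zero fun m x hx => or_iff_not_imp_left.2 fun hm => ?_
    obtain ⟨⟨z, hz⟩, rfl⟩ := B.mkQ_surjective x
    rw [← map_smul, Submodule.mkQ_apply, Submodule.Quotient.mk_eq_zero] at hx
    obtain ⟨u, hu, e⟩ := hx
    obtain ⟨z1, z2, z3⟩ := (mem_cyc A).1 hz
    obtain ⟨w, -, hw⟩ := hA.2.2 z (fun _ _ => trivial) z2 z3
    have e0 : (z.filter fun c => A.dim c = n) = z :=
      (filter_eq_self_iff _ z).2 fun c hc => (z1 c hc).2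
    have e1 : (u - m • w).filter (fun c => A.dim c = n + 1) = 0 :=
      top_zero A hA (S := Set.univ) ((mem_cyc A).2 ⟨fun c hc => ⟨trivial, (filter_ne hc).2⟩, by
        rw [AC4.bd_filter, map_sub, map_smul, hw, e]
        exact (congrArg _ (sub_self _)).trans (filter_zero _),
        AC4.eps_zero A fun c hc => by have := (filter_ne hc).2; omega⟩)
    refine (Submodule.Quotient.mk_eq_zero B).2 ⟨w.filter fun c => A.dim c = n + 1,
      mem_sup'.2 fun c hc => mem_sup'.1 hu c fun k => ?_, by rw [AC4.bd_filter, hw, e0]; rfl⟩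
    have := (filter_eq_zero_iff _ _).1 e1 c (filter_ne hc).2
    rw [Finsupp.sub_apply, k, zero_sub, neg_eq_zero, Finsupp.smul_apply, smul_eq_mul] at this
    exact mul_ne_zero hm (filter_ne hc).1 this
  let b := Module.Free.chooseBasis ℤ (cyc A S n ⧸ B)
  choose h hh using fun i => B.mkQ_surjective (b i)
  have e1 : ∀ a, linearCombination ℤ (fun i => (h i).1) a = (linearCombination ℤ h a).1 :=
    fun a => (apply_linearCombination ℤ (cyc A S n).subtype h a).symm
  have e2 : ∀ a, B.mkQ (linearCombination ℤ h a) = linearCombination ℤ b a := fun a => by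
    rw [apply_linearCombination]
    exact congrArg (linearCombination ℤ · a) (funext hh)
  refine ⟨_, inferInstance, fun i => (h i).1, fun i => (h i).2, fun z hz =>
    ⟨b.repr (B.mkQ ⟨z, hz⟩), ?_⟩, fun a ha => ?_⟩
  · rw [e1]
    refine (Submodule.Quotient.mk_eq_zero B).1 (show B.mkQ (⟨z, hz⟩ - _) = 0 from ?_)
    rw [map_sub, e2, b.linearCombination_repr, sub_self]
  · rw [e1] at ha
    refine linearIndependent_iff.1 b.linearIndependent a ?_
    rw [← e2]
    exact (Submodule.Quotient.mk_eq_zero B).2 ha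

/-- a finite subcomplex whose homology is free on finitely many `n`-cycles -/
theorem exists_sub (A : ACx G K (n + 1)) (hA : A.Ex Set.univ) (hc : A.Cone n) (F : Set K)
    (hF : F.Finite) : ∃ (S : Set K) (ι : Type) (_ : Finite ι) (h : ι → K →₀ ℤ), S.Finite ∧ F ⊆ S ∧
      Cl A S ∧ (∀ i, h i ∈ cyc A S n) ∧
      (∀ z : K →₀ ℤ, (∀ c, z c ≠ 0 → c ∈ S) → linearCombination ℤ A.bd z = 0 →
        linearCombination ℤ A.eps z = 0 → ∃ a : ι →₀ ℤ, z - linearCombination ℤ h a ∈ bdy A S) ∧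
      ∀ a : ι →₀ ℤ, linearCombination ℤ h a ∈ bdy A S → a = 0 := by
  obtain ⟨S, h1, h2, h3, h4⟩ := low A hc F hF n le_rfl
  obtain ⟨ι, hι, h, h5, h6, h7⟩ := split A hA h1
  refine ⟨S, ι, hι, h, h1, h2, h3, h5, fun z z1 z2 z3 => ?_, h7⟩
  obtain ⟨a, ha⟩ := h6 _ (filter_cyc A z1 z2 z3 n)
  refine ⟨a, ?_⟩
  rw [← sum_filter A z, Finset.sum_range_succ, Finset.sum_range_succ,
    top_zero A hA (filter_cyc A z1 z2 z3 (n + 1)), add_zero, add_sub_assoc]
  exact add_mem (sum_mem fun j hj => h4 j (Finset.mem_range.1 hj) (filter_cyc A z1 z2 z3 j)) ha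

end AC3b

end Pool.Agent.Lib.NIL
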