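import Pool.Agent.Lib.NIL.Blue3

/-! The one step expansion of an augmented based complex by free pairs of cells. -/

set_option linter.unusedVariables false
set_option linter.unusedSectionVars false

noncomputable section

namespace Pool.Agent.Lib.NIL

open Finsupp
open scoped Classical

namespace ACx

variable {G K : Type} [Group G] [MulAction G K] {n : ℕ} (A : ACx G K n)

/-- the boundary on chains -/
abbrev D : (K →₀ ℤ) →ₗ[ℤ] (K →₀ ℤ) := linearCombination ℤ A.bd

/-- the augmentation on chains -/
abbrev E : (K →₀ ℤ) →ₗ[ℤ] ℤ := linearCombination ℤ A.eps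

/-- homogeneous chains -/
def Hg (m : ℕ) (z : K →₀ ℤ) : Prop := ∀ c, z c ≠ 0 → A.dim c = m

/-- translation of chains -/
def tr (g : G) : (K →₀ ℤ) →ₗ[ℤ] (K →₀ ℤ) := lmapDomain ℤ ℤ (g • ·)

theorem tr_single (g : G) (c : K) (a : ℤ) : tr g (single c a) = single (g • c) a := by
  simp [tr, mapDomain_single]

theorem tr_smul (g : G) (z : K →₀ ℤ) (e : K) : tr g z (g • e) = z e :=
  mapDomain_apply (MulAction.injective g) z e

theorem tr_apply (g : G) (z : K →₀ ℤ) (e : K) : tr g z e = z (g⁻¹ • e) := by
  rw [← tr_smul g z (g⁻¹ • e), smul_inv_smul]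

theorem tr_one (z : K →₀ ℤ) : tr (1 : G) z = z := by
  ext e; rw [tr_apply, inv_one, one_smul]

theorem tr_mul (g h : G) (z : K →₀ ℤ) : tr (g * h) z = tr g (tr h z) := by
  ext e; rw [tr_apply, tr_apply, tr_apply, mul_inv_rev, mul_smul]

theorem D_single (c : K) (a : ℤ) : A.D (single c a) = a • A.bd c := linearCombination_single _ _ _

theorem E_single (c : K) (a : ℤ) : A.E (single c a) = a * A.eps c := by
  rw [linearCombination_single, smul_eq_mul]

theorem bd_tr (g : G) (c : K) : A.bd (g • c) = tr g (A.bd c) := by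
  ext e
  rw [tr_apply, ← A.bd_smul g c (g⁻¹ • e), smul_inv_smul]

theorem D_tr (g : G) (z : K →₀ ℤ) : A.D (tr g z) = tr g (A.D z) := by
  induction z using Finsupp.induction_linear with
  | zero => simp
  | add x y hx hy => rw [map_add, map_add, map_add, map_add, hx, hy]
  | single c a => rw [tr_single, D_single, D_single, bd_tr, map_smul]

theorem E_tr (g : G) (z : K →₀ ℤ) : A.E (tr g z) = A.E z := by
  induction z using Finsupp.induction_linear with
  | zero => simp
  | add x y hx hy => rw [map_add, map_add, map_add, hx, hy]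
  | single c a => rw [tr_single, E_single, E_single, A.eps_smul]

theorem D_D (z : K →₀ ℤ) : A.D (A.D z) = 0 := by
  induction z using Finsupp.induction_linear with
  | zero => simp
  | add x y hx hy => rw [map_add, map_add, hx, hy, add_zero]
  | single c a => rw [D_single, map_smul, A.bd_bd, smul_zero]

theorem E_D (z : K →₀ ℤ) : A.E (A.D z) = 0 := by
  induction z using Finsupp.induction_linear with
  | zero => simp
  | add x y hx hy => rw [map_add, map_add, hx, hy, add_zero]
  | single c a => rw [D_single, map_smul, A.eps_bd, smul_zero]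

/-- a cell met by the boundary of a chain is a face of a cell of the chain -/
theorem D_ne {z : K →₀ ℤ} {e : K} (h : A.D z e ≠ 0) : ∃ c, z c ≠ 0 ∧ A.bd c e ≠ 0 := by
  by_contra hn
  push Not at hn
  apply h
  rw [linearCombination_apply, Finsupp.sum, Finsupp.finsetSum_apply]
  exact Finset.sum_eq_zero fun c hc => by
    rw [Finsupp.smul_apply, hn c (mem_support_iff.1 hc), smul_zero]

variable {A}

theorem Hg.tr {m : ℕ} {z : K →₀ ℤ} (h : A.Hg m z) (g : G) : A.Hg m (tr g z) := fun c hc => by
  rw [tr_apply] at hc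
  rw [← A.dim_smul g⁻¹ c]
  exact h _ hc

theorem Hg.D {m : ℕ} {z : K →₀ ℤ} (h : A.Hg (m + 1) z) : A.Hg m (A.D z) := fun e he => by
  obtain ⟨c, h1, h2⟩ := A.D_ne he
  have h3 := A.bd_supp c e h2
  have h4 := h c h1
  omega

theorem Hg.E {m : ℕ} {z : K →₀ ℤ} (h : A.Hg (m + 1) z) : A.E z = 0 := by
  rw [linearCombination_apply, Finsupp.sum]
  refine Finset.sum_eq_zero fun c hc => ?_
  have h1 := h c (mem_support_iff.1 hc)
  by_cases h2 : A.eps c = 0
  · rw [h2, smul_zero]
  · have := A.eps_supp c h2
    omega

variable (A)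

theorem hg_filter (m : ℕ) (z : K →₀ ℤ) : A.Hg m (z.filter fun c => A.dim c = m) := fun c hc => by
  by_contra h
  exact hc (filter_apply_neg _ _ h)

theorem D_filter (m : ℕ) (z : K →₀ ℤ) :
    A.D (z.filter fun c => A.dim c = m + 1) = (A.D z).filter fun c => A.dim c = m := by
  induction z using Finsupp.induction_linear with
  | zero => simp [filter_zero]
  | add x y hx hy => rw [filter_add, map_add, map_add, filter_add, hx, hy]
  | single c a =>
    ext e
    rw [D_single, filter_apply]
    by_cases hc : A.dim c = m + 1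
    · rw [filter_single_of_pos (fun c => A.dim c = m + 1) hc, D_single]
      split_ifs with he
      · rfl
      · by_cases h0 : A.bd c e = 0
        · rw [Finsupp.smul_apply, h0, smul_zero]
        · have := A.bd_supp c e h0
          omega
    · rw [filter_single_of_neg (fun c => A.dim c = m + 1) hc, map_zero]
      split_ifs with he
      · by_cases h0 : A.bd c e = 0
        · rw [Finsupp.smul_apply, h0, smul_zero, Finsupp.zero_apply]
        · have := A.bd_supp c e h0
          omega
      · rfl

variable {A}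

theorem Hg.filter_eq {m : ℕ} {z : K →₀ ℤ} (h : A.Hg m z) :
    (z.filter fun c => A.dim c = m) = z := (filter_eq_self_iff _ _).2 h

/-- homogeneous fillings inside an acyclic subcomplex -/
theorem Ex.fill {S : Set K} (h : A.Ex S) {m : ℕ} {z : K →₀ ℤ} (hz : A.Hg m z)
    (hS : ∀ c, z c ≠ 0 → c ∈ S) (h1 : A.D z = 0) (h2 : A.E z = 0) :
    ∃ w : K →₀ ℤ, A.Hg (m + 1) w ∧ (∀ c, w c ≠ 0 → c ∈ S) ∧ A.D w = z := by
  obtain ⟨w, hw, hD⟩ := h.2.2 z hS h1 h2
  refine ⟨w.filter fun c => A.dim c = m + 1, A.hg_filter _ _, fun c hc => hw c fun h0 => hc ?_, ?_⟩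
  · rw [filter_apply, h0, ite_self]
  · rw [D_filter, show A.D w = z from hD, hz.filter_eq]

end ACx

/-- the cells of the expansion -/
inductive XP (G K Z : Type) : Type
  | old (c : K) : XP G K Z
  | lo (g : G) (j : Z) : XP G K Z
  | hi (g : G) (j : Z) : XP G K Z

namespace XP

variable {G K Z : Type} [Group G] [MulAction G K]

instance : MulAction G (XP G K Z) where
  smul h x := match x with
    | old c => old (h • c)
    | lo g j => lo (h * g) j
    | hi g j => hi (h * g) j
  one_smul x := by
    cases x with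
    | old c => exact congrArg old (one_smul G c)
    | lo g j => exact congrArg (lo · j) (one_mul g)
    | hi g j => exact congrArg (hi · j) (one_mul g)
  mul_smul a b x := by
    cases x with
    | old c => exact congrArg old (mul_smul a b c)
    | lo g j => exact congrArg (lo · j) (mul_assoc a b g)
    | hi g j => exact congrArg (hi · j) (mul_assoc a b g)

theorem smul_old (h : G) (c : K) : h • (old c : XP G K Z) = old (h • c) := rfl
theorem smul_lo (h g : G) (j : Z) : h • (lo g j : XP G K Z) = lo (h * g) j := rfl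
theorem smul_hi (h g : G) (j : Z) : h • (hi g j : XP G K Z) = hi (h * g) j := rfl

instance [Countable G] [Countable K] [Countable Z] : Countable (XP G K Z) := by
  have : Function.Surjective (Sum.elim old (Sum.elim (fun p : G × Z => lo p.1 p.2)
      (fun p : G × Z => hi p.1 p.2)) : K ⊕ (G × Z) ⊕ (G × Z) → XP G K Z) := by
    intro x
    cases x with
    | old c => exact ⟨.inl c, rfl⟩
    | lo g j => exact ⟨.inr (.inl (g, j)), rfl⟩
    | hi g j => exact ⟨.inr (.inr (g, j)), rfl⟩
  exact this.countable

theorem old_inj : Function.Injective (old : K → XP G K Z) := fun _ _ h => old.inj h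

theorem stab_le (b : K) (x : XP G K Z) :
    ∃ c : K, MulAction.stabilizer G x ≤ MulAction.stabilizer G c := by
  cases x with
  | old c => exact ⟨c, fun h hh => old.inj (show old (h • c) = (old c : XP G K Z) from hh)⟩
  | lo g j =>
    refine ⟨b, fun h hh => ?_⟩
    have h1 : h * g = g := (lo.inj (show lo (h * g) j = (lo g j : XP G K Z) from hh)).1
    rw [mul_eq_right.1 h1]
    exact one_mem _
  | hi g j =>
    refine ⟨b, fun h hh => ?_⟩
    have h1 : h * g = g := (hi.inj (show hi (h * g) j = (hi g j : XP G K Z) from hh)).1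
    rw [mul_eq_right.1 h1]
    exact one_mem _

variable (G Z) in
/-- old chains -/
def io : (K →₀ ℤ) →ₗ[ℤ] (XP G K Z →₀ ℤ) := lmapDomain ℤ ℤ old

theorem io_single (c : K) (a : ℤ) : io G Z (single c a) = single (old c) a := by
  simp [io, mapDomain_single]

theorem io_old (z : K →₀ ℤ) (c : K) : io G Z z (old c) = z c := mapDomain_apply old_inj z c

theorem io_lo (z : K →₀ ℤ) (g : G) (j : Z) : io G Z z (lo g j) = 0 :=
  mapDomain_of_notMem_range z _ (by rintro ⟨c, hc⟩; cases hc)

theorem io_hi (z : K →₀ ℤ) (g : G) (j : Z) : io G Z z (hi g j) = 0 :=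
  mapDomain_of_notMem_range z _ (by rintro ⟨c, hc⟩; cases hc)

theorem io_inj : Function.Injective (io G Z : (K →₀ ℤ) → _) := mapDomain_injective old_inj

theorem io_ne {z : K →₀ ℤ} {x : XP G K Z} (h : io G Z z x ≠ 0) : ∃ c, x = old c ∧ z c ≠ 0 := by
  cases x with
  | old c => exact ⟨c, rfl, by rwa [io_old] at h⟩
  | lo g j => exact absurd (io_lo z g j) h
  | hi g j => exact absurd (io_hi z g j) h

theorem tr_io (g : G) (z : K →₀ ℤ) : ACx.tr g (io G Z z) = io G Z (ACx.tr g z) := by
  induction z using Finsupp.induction_linear with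
  | zero => simp
  | add x y hx hy => rw [map_add, map_add, map_add, map_add, hx, hy]
  | single c a => rw [io_single, ACx.tr_single, ACx.tr_single, io_single, smul_old]

variable {n : ℕ} (A : ACx G K n) (k : ℕ) (w : Z → K →₀ ℤ)

/-- the dimension -/
def dm : XP G K Z → ℕ
  | old c => A.dim c
  | lo _ _ => k + 1
  | hi _ _ => k + 2

/-- the boundary -/
def bd : XP G K Z → XP G K Z →₀ ℤ
  | old c => io G Z (A.bd c)
  | lo g j => io G Z (ACx.tr g (A.D (w j)))
  | hi g j => single (lo g j) 1 - io G Z (ACx.tr g (w j))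

/-- the augmentation -/
def ep : XP G K Z → ℤ
  | old c => A.eps c
  | lo _ _ => 0
  | hi _ _ => 0

theorem bd_io (z : K →₀ ℤ) : linearCombination ℤ (bd A w) (io G Z z) = io G Z (A.D z) := by
  induction z using Finsupp.induction_linear with
  | zero => simp
  | add x y hx hy => rw [map_add, map_add, map_add, map_add, hx, hy]
  | single c a => rw [io_single, linearCombination_single, A.D_single, map_smul]; rfl

theorem ep_io (z : K →₀ ℤ) : linearCombination ℤ (ep A) (io G Z z) = A.E z := by
  induction z using Finsupp.induction_linear with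
  | zero => simp
  | add x y hx hy => rw [map_add, map_add, map_add, hx, hy]
  | single c a => rw [io_single, linearCombination_single, linearCombination_single]; rfl

theorem bd_tr (g : G) (x : XP G K Z) : bd A w (g • x) = ACx.tr g (bd A w x) := by
  cases x with
  | old c => rw [smul_old, bd, bd, tr_io, A.bd_tr]
  | lo h j => rw [smul_lo, bd, bd, tr_io, ACx.tr_mul]
  | hi h j => rw [smul_hi, bd, bd, map_sub, tr_io, ACx.tr_mul, ACx.tr_single, smul_lo]

/-- the expansion along the family `w` of chains of dimension `k + 1` -/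
def cx (hw : ∀ j, A.Hg (k + 1) (w j)) {N : ℕ} (h1 : n ≤ N) (h2 : k + 2 ≤ N) :
    ACx G (XP G K Z) N where
  dim := dm A k
  bd := bd A w
  eps := ep A
  b := old A.b
  dim_le x := by
    cases x with
    | old c => exact (A.dim_le c).trans h1
    | lo g j => exact (Nat.le_succ _).trans h2
    | hi g j => exact h2
  dim_smul g x := by
    cases x with
    | old c => exact A.dim_smul g c
    | lo g j => rfl
    | hi g j => rfl
  bd_smul g x e := by rw [bd_tr, ACx.tr_smul]
  eps_smul g x := by
    cases x with
    | old c => exact A.eps_smul g c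
    | lo g j => rfl
    | hi g j => rfl
  bd_supp x e h := by
    cases x with
    | old c =>
      obtain ⟨e', rfl, h'⟩ := io_ne h
      exact A.bd_supp c e' h'
    | lo g j =>
      obtain ⟨e', rfl, h'⟩ := io_ne h
      exact congrArg (· + 1) (((hw j).D.tr g) e' h')
    | hi g j =>
      by_cases he : e = lo g j
      · rw [he]; rfl
      · rw [bd, Finsupp.sub_apply, single_eq_of_ne he, zero_sub, neg_ne_zero] at h
        obtain ⟨e', rfl, h'⟩ := io_ne h
        exact congrArg (· + 1) (((hw j).tr g) e' h')
  bd_bd x := by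
    cases x with
    | old c => rw [bd, bd_io, show A.D (A.bd c) = 0 from A.bd_bd c, map_zero]
    | lo g j => rw [bd, bd_io, A.D_tr, A.D_D, map_zero, map_zero]
    | hi g j => rw [bd, map_sub, bd_io, A.D_tr, linearCombination_single, one_smul, bd, sub_self]
  eps_supp x h := by
    cases x with
    | old c => exact A.eps_supp c h
    | lo g j => exact absurd rfl h
    | hi g j => exact absurd rfl h
  eps_bd x := by
    cases x with
    | old c => rw [bd, ep_io]; exact A.eps_bd c
    | lo g j => rw [bd, ep_io, A.E_tr, A.E_D]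
    | hi g j =>
      rw [bd, map_sub, ep_io, A.E_tr, (hw j).E, linearCombination_single, ep, smul_zero, sub_self]
  eps_b := A.eps_b

/-- the retraction on cells -/
def rt0 : XP G K Z → K →₀ ℤ
  | old c => single c 1
  | lo g j => ACx.tr g (w j)
  | hi _ _ => 0

/-- the homotopy on cells -/
def ht0 : XP G K Z → XP G K Z →₀ ℤ
  | old _ => 0
  | lo g j => single (hi g j) 1
  | hi _ _ => 0

/-- the retraction -/
def rt : (XP G K Z →₀ ℤ) →ₗ[ℤ] (K →₀ ℤ) := linearCombination ℤ (rt0 w)

/-- the homotopy -/
def ht : (XP G K Z →₀ ℤ) →ₗ[ℤ] (XP G K Z →₀ ℤ) := linearCombination ℤ ht0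

theorem rt_single (x : XP G K Z) (a : ℤ) : rt w (single x a) = a • rt0 w x :=
  linearCombination_single _ _ _

theorem ht_single (x : XP G K Z) (a : ℤ) : ht (single x a) = a • ht0 x :=
  linearCombination_single _ _ _

theorem rt_io (z : K →₀ ℤ) : rt (G := G) w (io G Z z) = z := by
  induction z using Finsupp.induction_linear with
  | zero => simp
  | add x y hx hy => rw [map_add, map_add, hx, hy]
  | single c a => rw [io_single, rt_single, rt0, smul_single_one]

theorem ht_io (z : K →₀ ℤ) : ht (io G Z z) = 0 := by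
  induction z using Finsupp.induction_linear with
  | zero => simp
  | add x y hx hy => rw [map_add, map_add, hx, hy, add_zero]
  | single c a => rw [io_single, ht_single, ht0, smul_zero]

theorem rt_bd (z : XP G K Z →₀ ℤ) : rt w (linearCombination ℤ (bd A w) z) = A.D (rt w z) := by
  induction z using Finsupp.induction_linear with
  | zero => simp
  | add x y hx hy => rw [map_add, map_add, map_add, map_add, hx, hy]
  | single x a =>
    rw [linearCombination_single, rt_single, map_smul, map_smul]
    refine congrArg (a • ·) ?_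
    cases x with
    | old c => rw [bd, rt_io, rt0, A.D_single, one_smul]
    | lo g j => rw [bd, rt_io, rt0, A.D_tr]
    | hi g j => rw [bd, map_sub, rt_io, rt_single, one_smul, rt0, rt0, sub_self, map_zero]

theorem E_rt (hw : ∀ j, A.Hg (k + 1) (w j)) (z : XP G K Z →₀ ℤ) :
    A.E (rt w z) = linearCombination ℤ (ep A) z := by
  induction z using Finsupp.induction_linear with
  | zero => simp
  | add x y hx hy => rw [map_add, map_add, map_add, hx, hy]
  | single x a =>
    rw [linearCombination_single, rt_single, map_smul]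
    refine congrArg (a • ·) ?_
    cases x with
    | old c => rw [rt0, A.E_single, one_mul, ep]
    | lo g j => rw [rt0, A.E_tr, (hw j).E, ep]
    | hi g j => rw [rt0, map_zero, ep]

theorem homotopy (z : XP G K Z →₀ ℤ) :
    linearCombination ℤ (bd A w) (ht z) + ht (linearCombination ℤ (bd A w) z) =
      z - io G Z (rt w z) := by
  induction z using Finsupp.induction_linear with
  | zero => simp
  | add x y hx hy =>
    rw [map_add, map_add, map_add, map_add, map_add, map_add, add_add_add_comm, hx, hy]
    abel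
  | single x a =>
    rw [linearCombination_single, ht_single, rt_single, map_smul, map_smul, map_smul, ← smul_add,
      ← smul_single_one x a, ← smul_sub]
    refine congrArg (a • ·) ?_
    cases x with
    | old c => rw [ht0, bd, ht_io, rt0, io_single, map_zero, add_zero, sub_self]
    | lo g j => rw [ht0, bd, ht_io, rt0, linearCombination_single, one_smul, bd, add_zero]
    | hi g j =>
      rw [ht0, bd, map_zero, map_sub, ht_io, ht_single, one_smul, ht0, rt0, map_zero, zero_add]

/-- a chain on old cells -/
theorem eq_io {z : XP G K Z →₀ ℤ} (h : ∀ x, z x ≠ 0 → ∃ c, x = old c) :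
    ∃ u : K →₀ ℤ, z = io G Z u := by
  refine ⟨z.comapDomain old old_inj.injOn, ?_⟩
  ext x
  cases x with
  | old c => rw [io_old, comapDomain_apply]
  | lo g j =>
    rw [io_lo]
    by_contra h0
    obtain ⟨c, hc⟩ := h _ h0
    cases hc
  | hi g j =>
    rw [io_hi]
    by_contra h0
    obtain ⟨c, hc⟩ := h _ h0
    cases hc

variable {A k w} (hw : ∀ j, A.Hg (k + 1) (w j)) {N : ℕ} (h1 : n ≤ N) (h2 : k + 2 ≤ N)

theorem cx_ex (h : A.Ex Set.univ) : (cx A k w hw h1 h2).Ex Set.univ := by
  refine ⟨trivial, fun _ _ _ _ => trivial, fun z _ hD hE => ?_⟩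
  have hD' : linearCombination ℤ (bd A w) z = 0 := hD
  have hE' : linearCombination ℤ (ep A) z = 0 := hE
  obtain ⟨u, -, hu⟩ := h.2.2 (rt w z) (fun _ _ => trivial)
    (by have := rt_bd A w z; rw [hD', map_zero] at this; exact this.symm)
    ((E_rt A k w hw z).trans hE')
  refine ⟨io G Z u + ht z, fun _ _ => trivial, ?_⟩
  have h3 := homotopy A w z
  rw [hD', map_zero, add_zero] at h3
  change linearCombination ℤ (bd A w) _ = z
  rw [map_add, bd_io, h3, show A.D u = rt w z from hu, add_sub_cancel]

/-- chains of dimension at most `k` are old -/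
theorem low {m : ℕ} (hm : m ≤ k) {z : XP G K Z →₀ ℤ} (hz : (cx A k w hw h1 h2).Hg m z) :
    ∃ u : K →₀ ℤ, z = io G Z u ∧ A.Hg m u := by
  obtain ⟨u, rfl⟩ := eq_io (z := z) fun x hx => by
    have h3 := hz x hx
    cases x with
    | old c => exact ⟨c, rfl⟩
    | lo g j => exact absurd (show k + 1 = m from h3) (by omega)
    | hi g j => exact absurd (show k + 2 = m from h3) (by omega)
  exact ⟨u, rfl, fun c hc => hz (old c) (by rwa [io_old])⟩

theorem cx_cone (h : A.Ex Set.univ) (hc : A.Cone k)
    (hall : ∀ u, A.Hg (k + 1) u → ∃ j, A.D (w j) = A.D u) : (cx A k w hw h1 h2).Cone (k + 1) := by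
  intro m hm z hz hD hE
  obtain ⟨u, rfl, hu⟩ := low hw h1 h2 (Nat.lt_succ_iff.1 hm) hz
  have hD' : A.D u = 0 := io_inj (G := G) (Z := Z) (by rw [← bd_io A w, map_zero]; exact hD)
  have hE' : A.E u = 0 := (ep_io (Z := Z) A u).symm.trans hE
  rcases (Nat.lt_succ_iff.1 hm).lt_or_eq with hlt | rfl
  · obtain ⟨c, h3, h4⟩ := hc m hlt u hu hD' hE'
    exact ⟨old c, h3, congrArg (io G Z) h4⟩
  · obtain ⟨v, h3, -, h4⟩ := h.fill hu (fun _ _ => trivial) hD' hE'
    obtain ⟨j, hj⟩ := hall v h3
    refine ⟨lo 1 j, rfl, ?_⟩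
    change io G Z (ACx.tr (1 : G) (A.D (w j))) = _
    rw [ACx.tr_one, hj, h4]

end XP

end Pool.Agent.Lib.NIL
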