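import Pool.Agent.Lib.NIL.A5

/-! The base case: a large gap in the degrees makes every finite object cellular. -/

namespace Pool.Agent.Lib.NIL

open Finsupp

variable {E L R : Type} [Ring E] [Ring R] {C : Cat E L}

namespace BASE

theorem map_zero_of {ι κ : Type} {f : (ι →₀ E) →ₗ[E] (κ →₀ E)} {v : ι →₀ E}
    (h : ∀ i, v i = 0 ∨ f (single i 1) = 0) : f v = 0 := by
  conv_lhs => rw [← Finsupp.sum_single v, Finsupp.sum, map_sum]
  refine Finset.sum_eq_zero fun i _ => ?_
  rw [← mul_one (v i), ← smul_eq_mul, ← smul_single, map_smul]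
  rcases h i with h | h <;> simp [h]

theorem inc_prj {κ : Type} (T : κ → Prop) (v : κ →₀ E) (h : ∀ j, v j ≠ 0 → T j) :
    inc (Subtype.val : {j // T j} → κ) (prj Subtype.val Subtype.val_injective v) = v := by
  ext j
  by_cases hj : T j
  · exact mapDomain_apply Subtype.val_injective _ ⟨j, hj⟩
  · have h0 : v j = 0 := by
      by_contra h'
      exact hj (h j h')
    rw [h0]
    exact mapDomain_of_notMem_range _ _ (by simpa using hj)

theorem inc_single {ι κ : Type} (f : ι → κ) (i : ι) : inc f (single i (1 : E)) = single (f i) 1 :=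
  mapDomain_single

theorem inc_out {ι κ : Type} (f : ι → κ) (v : ι →₀ E) (k : κ) (h : ∀ i, f i ≠ k) :
    inc f v k = 0 :=
  mapDomain_of_notMem_range _ _ fun ⟨i, hi⟩ => h i hi

theorem ch_inc_res (hC : C.Good) {W : Raw E L} {p : W.ι → Prop} (hp : W.Closed p) :
    C.Ch (W.res p) W (inc Subtype.val) :=
  hC.ch_of_basis (hC.hom_inc (fun _ => rfl) fun _ => rfl) fun i => by
    rw [inc_single, hC.D_single]
    change _ = inc Subtype.val (prj Subtype.val Subtype.val_injective
      (W.δ (inc Subtype.val (single i 1))))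
    rw [inc_single, inc_prj p _ fun j => hp _ j i.2]

theorem ctr_res (hC : C.Good) {W : Raw E L} {p : W.ι → Prop} (hp : W.Closed p) {h : Lin W W}
    (hh : C.Hom (-1) W W h) (hcl : ∀ i j, p i → h (single i 1) j ≠ 0 → p j)
    (e : ∀ i, p i → single i 1 = C.D W (h (single i 1)) + h (W.δ (single i 1))) :
    C.Ctr (W.res p) := by
  have hi := ch_inc_res hC hp
  refine hC.ht_of_basis (h := prj Subtype.val Subtype.val_injective ∘ₗ h ∘ₗ inc Subtype.val)
    (hC.hom_comp (hC.hom_comp hi.1 hh rfl)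
      (hC.hom_prj (V := W.res p) Subtype.val_injective (fun _ => rfl) fun _ => rfl) rfl) fun i => ?_
  have h1 : ∀ w, C.D (W.res p) w =
      prj Subtype.val Subtype.val_injective (C.D W (inc Subtype.val w)) := fun w => by
    rw [hi.2, prj_inc]
  have h2 : inc Subtype.val ((W.res p).δ (single i 1)) = W.δ (single i.1 1) := by
    rw [← hC.D_single, ← hi.2, inc_single, hC.D_single]
  change single i 1 - 0 = C.D (W.res p) (prj Subtype.val Subtype.val_injective
    (h (inc Subtype.val (single i 1)))) + prj Subtype.val Subtype.val_injective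
      (h (inc Subtype.val ((W.res p).δ (single i 1))))
  rw [h1, h2, inc_single, inc_prj p _ fun j => hcl _ j i.2, ← map_add, ← e _ i.2, ← inc_single,
    prj_inc, sub_zero]

theorem deg_eq {C₀ : Cat R L} (h0 : ∀ {k o o' a}, k ≠ 0 → a ∈ C₀.H k o o' → a = 0) {k : ℤ}
    {V W : Raw R L} {f : Lin V W} (hf : C₀.Hom k V W f) {i : V.ι} {j : W.ι}
    (h : f (single i 1) j ≠ 0) : W.deg j = V.deg i + k := by
  by_contra h'
  exact h (h0 (by omega) (hf i j))

/-- the two top degrees can be killed -/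
theorem trunc {C₀ : Cat R L} (hC : C₀.Good)
    (h0 : ∀ {k o o' a}, k ≠ 0 → a ∈ C₀.H k o o' → a = 0) {n : ℕ} (hF : C₀.FR n) {X : Raw R L}
    (hX : C₀.Obj X) (hf : Finite X.ι) {a b : ℤ} (hab : ∀ i, a ≤ X.deg i ∧ X.deg i ≤ b)
    (hn : a + n + 1 ≤ b) :
    ∃ (P : Raw R L) (ψ : Lin X P) (X' : Raw R L), C₀.Obj P ∧ Finite P.ι ∧ C₀.Ch X P ψ ∧
      (∀ i, b - 2 - n ≤ P.deg i) ∧ C₀.Obj X' ∧ Finite X'.ι ∧ C₀.Eqv (X.cone P ψ) X' ∧
      ∀ i, a - 1 ≤ X'.deg i ∧ X'.deg i ≤ b - 2 := by
  obtain ⟨G, φ, χ, hG, hGf, hGd, hφ, hχ, hχ0, hχφ⟩ := hF X hX hf (b - 2)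
  let q : X.ι → Prop := fun i => b - 1 ≤ X.deg i
  have hq : X.Closed q := fun i j hi hj => by
    have := deg_eq h0 hX.1 hj
    change b - 1 ≤ X.deg i at hi
    change b - 1 ≤ X.deg j
    omega
  let T := X.res q
  have hT : C₀.Obj T := (hC.ses_res hX hq).1
  let pr : Lin X T := prj Subtype.val Subtype.val_injective
  let ic : Lin T X := inc Subtype.val
  have hic : C₀.Ch T X ic := ch_inc_res hC hq
  have hpr : C₀.Hom 0 X T pr := hC.hom_prj Subtype.val_injective (fun _ => rfl) fun _ => rfl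
  have hinj : Function.Injective ic := mapDomain_injective Subtype.val_injective
  let θ : Lin G T := pr ∘ₗ χ
  have hθ1 : ∀ v, ic (θ v) = χ v := fun v => by
    have : ic ∘ₗ θ = χ := lhom_ext' fun g => LinearMap.ext_ring (inc_prj q _ fun j hj => by
      have h1 := deg_eq h0 hχ.1 hj
      have h2 : G.deg g = b - 2 := by
        by_contra h'
        exact hj (by rw [lsingle_apply, hχ0 g h']; rfl)
      change b - 1 ≤ X.deg j
      omega)
    exact LinearMap.congr_fun this v
  have hθ : C₀.At G T θ := ⟨hC.hom_comp hχ.1 hpr rfl, fun v => hinj (by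
    rw [← hic.2, hθ1, hχ.2, map_neg, hθ1])⟩
  have hφ0 : ∀ i, q i → φ (single i 1) = 0 := fun i hi => Finsupp.ext fun g => by
    by_contra h'
    have h1 := deg_eq h0 hφ.1 h'
    have h2 := (hGd g).2
    change b - 1 ≤ X.deg i at hi
    omega
  let P := T.ext G θ
  have hP : C₀.Obj P := hC.obj_ext hT hG hθ
  let ψ : Lin X P := inc Sum.inl ∘ₗ pr + inc Sum.inr ∘ₗ φ
  have hψa : ∀ v, ψ v = inc Sum.inl (pr v) + inc Sum.inr (φ v) := fun _ => rfl
  have hψ : C₀.Ch X P ψ := by
    refine hC.ch_of_basis (Cat.Hom.add (hC.hom_comp hpr (hC.ch_inl θ).1 rfl)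
      (hC.hom_comp hφ.1 (hC.hom_inc (fun _ => rfl) fun _ => rfl) rfl)) fun i => ?_
    have key : C₀.D T (pr (single i 1)) + θ (φ (single i 1)) = pr (X.δ (single i 1)) := by
      apply hinj
      rw [map_add, ← hic.2, hθ1]
      by_cases h1 : q i
      · rw [hφ0 i h1, map_zero, add_zero, inc_prj q _ fun j => hq i j h1,
          inc_prj q _ fun j hj => by rwa [(mem_support_single j i 1).1 (mem_support_iff.2 hj) |>.1],
          hC.D_single]
      · have h2 : pr (single i 1) = 0 := Finsupp.ext fun t =>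
          single_eq_of_ne (fun h => h1 (h ▸ t.2))
        rw [h2, map_zero, map_zero, zero_add]
        by_cases h3 : X.deg i = b - 2
        · rw [hχφ i h3, inc_prj q _ fun j hj => by
            have := deg_eq h0 hX.1 hj
            change b - 1 ≤ X.deg j
            omega]
        · have h4 : pr (X.δ (single i 1)) = 0 := Finsupp.ext fun t => by
            by_contra h'
            have h5 := deg_eq h0 hX.1 (show X.δ (single i 1) t.1 ≠ 0 from h')
            have h6 : b - 1 ≤ X.deg t.1 := t.2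
            change ¬ b - 1 ≤ X.deg i at h1
            omega
          rw [h4, map_zero]
          refine map_zero_of fun g => ?_
          by_cases h5 : φ (single i 1) g = 0
          · exact Or.inl h5
          · exact Or.inr (hχ0 g (by have := deg_eq h0 hφ.1 h5; omega))
    rw [hψa, hψa, map_add, Cat.D_ext_inl, Cat.D_ext_inr, hφ.2, hC.D_single, ← key, map_add]
    abel
  let W := X.cone P ψ
  have hW : C₀.Obj W := hC.obj_cone hX hP hψ
  let p : W.ι → Prop := Sum.elim (Sum.elim (fun _ => True) fun _ => False) q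
  have hδ1 : ∀ t : T.ι, W.δ (single (Sum.inl (Sum.inl t)) 1) =
      inc Sum.inl (inc Sum.inl (T.δ (single t 1))) := fun t => by
    rw [← inc_single Sum.inl, ← inc_single Sum.inl, Raw.ext_δ_inl, Raw.ext_δ_inl]
  have hδ2 : ∀ x, q x → W.δ (single (Sum.inr x) 1) =
      inc Sum.inr (-X.δ (single x 1)) + inc Sum.inl (inc Sum.inl (pr (single x 1))) := fun x hx => by
    rw [← inc_single Sum.inr, Raw.ext_δ_inr, hψa, hφ0 x hx, map_zero, add_zero]
    rfl
  have hp : W.Closed p := by
    rintro ((t | g) | x) ((t' | g') | y) h1 h2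
    all_goals first | exact trivial | exact h1.elim | skip
    · refine h2 ?_
      rw [hδ1]
      exact (mapDomain_apply Sum.inl_injective _ _).trans (inc_out _ _ _ (by simp))
    · exact absurd (by rw [hδ1]; exact inc_out _ _ _ (by simp)) h2
    · refine h2 ?_
      rw [hδ2 x h1, Finsupp.add_apply, inc_out _ _ _ (by simp), zero_add]
      exact (mapDomain_apply Sum.inl_injective _ _).trans (inc_out _ _ _ (by simp))
    · refine hq x y h1 fun h3 => h2 ?_
      rw [hδ2 x h1, Finsupp.add_apply, inc_out Sum.inl _ _ (by simp), add_zero]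
      exact (mapDomain_apply Sum.inr_injective _ _).trans (by simp [h3])
  let h : Lin W W := inc Sum.inr ∘ₗ ic ∘ₗ prj Sum.inl Sum.inl_injective ∘ₗ
    prj Sum.inl Sum.inl_injective
  have hh1 : ∀ v : T.ι →₀ R, h (inc Sum.inl (inc Sum.inl v)) = inc Sum.inr (ic v) := fun v => by
    simp only [h, LinearMap.comp_apply]
    rw [prj_inc, prj_inc]
  have hh2 : ∀ v : X.ι →₀ R, h (inc Sum.inr v) = 0 := fun v => by
    simp only [h, LinearMap.comp_apply]
    rw [prj_inl_inr, map_zero, map_zero, map_zero]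
  have hh : C₀.Hom (-1) W W h :=
    hC.hom_comp (V := X.sh) (hC.hom_comp (V := T) (hC.hom_comp (V := P)
      (hC.hom_prj (V := P) Sum.inl_injective (fun _ => rfl) fun _ => rfl)
      (hC.hom_prj (V := T) Sum.inl_injective (fun _ => rfl) fun _ => rfl) rfl)
      ((Cat.hom_sh_right (n := -1) (k := 0) rfl).2 hic.1) rfl)
      (hC.hom_inc (fun _ => rfl) fun _ => rfl) rfl
  have hctr : C₀.Ctr (W.res p) := by
    refine ctr_res hC hp hh ?_ ?_
    · rintro ((t | g) | x) j h1 h2
      · rw [← inc_single Sum.inl, ← inc_single Sum.inl, hh1, inc_single, inc_single] at h2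
        rw [((mem_support_single j _ 1).1 (mem_support_iff.2 h2)).1]
        exact t.2
      · exact h1.elim
      · rw [← inc_single Sum.inr, hh2] at h2
        exact absurd rfl h2
    · rintro ((t | g) | x) h1
      · rw [hδ1, hh1, ← inc_single Sum.inl, ← inc_single Sum.inl, hh1, ← hC.D_single, ← hic.2,
          inc_single Subtype.val, inc_single Sum.inr, hC.D_single, hC.D_single, hδ2 _ t.2,
          ← inc_single Subtype.val t, prj_inc, map_neg]
        abel
      · exact h1.elim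
      · rw [hδ2 x h1, map_add, hh1, hh2, ← inc_single Sum.inr, hh2, map_zero, zero_add, zero_add,
          inc_prj q _ fun j hj => by
            rwa [(mem_support_single j x 1).1 (mem_support_iff.2 hj) |>.1]]
  have hS := hC.ses_res hW hp
  refine ⟨P, ψ, W.res fun i => ¬ p i, hP, inferInstanceAs (Finite ({i // q i} ⊕ G.ι)), hψ, ?_,
    hS.2.2.1, inferInstanceAs (Finite {i : ({i // q i} ⊕ G.ι) ⊕ X.ι // ¬ p i}),
    hC.ses_eqv_of_ctr_left hS hctr, ?_⟩
  · rintro (t | g)
    · have : b - 1 ≤ X.deg t.1 := t.2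
      change b - 2 - n ≤ X.deg t.1
      omega
    · exact (hGd g).1
  · rintro ⟨(t | g) | x, hx⟩
    · exact absurd trivial hx
    · have := hGd g
      change a - 1 ≤ G.deg g ∧ G.deg g ≤ b - 2
      omega
    · have := hab x
      change ¬ b - 1 ≤ X.deg x at hx
      change a - 1 ≤ X.deg x - 1 ∧ X.deg x - 1 ≤ b - 2
      omega

theorem ext_congr {ι ι' : Type} {d : ι → ℤ} {d' : ι' → ℤ} {l : ι → L} {l' : ι' → L}
    {δ₁ δ₂ : (ι →₀ R) →ₗ[R] (ι →₀ R)} {ε₁ ε₂ : (ι' →₀ R) →ₗ[R] (ι' →₀ R)}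
    {θ₁ θ₂ : (ι' →₀ R) →ₗ[R] (ι →₀ R)} (h1 : δ₁ = δ₂) (h2 : ε₁ = ε₂) (h3 : θ₁ = θ₂) :
    Raw.ext ⟨ι, d, l, δ₁⟩ ⟨ι', d', l', ε₁⟩ θ₁ = Raw.ext ⟨ι, d, l, δ₂⟩ ⟨ι', d', l', ε₂⟩ θ₂ := by
  subst h1 h2 h3
  rfl

end BASE

open BASE in
/-- BASE -/
theorem Aug.base {j : ℤ} {C₀ : Cat R L} {I : R →+ E} {U : E →+ R} (h : Aug j C C₀ I U) {n : ℕ}
    (hF : C₀.FR n) (hj : (n : ℤ) + 4 ≤ j) (V : Raw E L) (hV : C.Obj V) (hf : Finite V.ι) :
    C.InO V := by
  have hC := h.good
  have hU := h.hU.isFn h.good h.good₀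
  have hI := h.hI.isFn h.good₀ h.good
  have hUI : ∀ {ι κ : Type} (f : (ι →₀ R) →ₗ[R] (κ →₀ R)), mapL U (mapL I f) = f := fun f =>
    lin_ext fun i k => by rw [mapL_single, mapL_single, h.UI]
  suffices H : ∀ (m : ℕ) (V : Raw E L) (a : ℤ), C.Obj V → Finite V.ι →
      (∀ i, a ≤ V.deg i ∧ V.deg i ≤ a + m) → C.InO V by
    obtain ⟨a, ha⟩ := (Set.finite_range V.deg).bddBelow
    obtain ⟨b, hb⟩ := (Set.finite_range V.deg).bddAbove
    refine H (b - a).toNat V a hV hf fun i => ⟨ha ⟨i, rfl⟩, ?_⟩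
    have := hb ⟨i, rfl⟩
    omega
  have small : ∀ (V : Raw E L) (a : ℤ), C.Obj V → Finite V.ι →
      (∀ i, a ≤ V.deg i ∧ V.deg i ≤ a + n) → C.InO V := by
    intro V a hV hf hd
    have hX : (V.mapA U id).Fin1 :=
      h.good₀.fin1_of_zero (fun _ _ _ _ => h.zero₀) (hU.obj hV) hf
    have e : V.δ = mapL I (mapL U V.δ) := lin_ext fun i i' => by
      by_contra h'
      have := h.pert (by omega) hV i i' (by
        rw [LinearMap.sub_apply, Finsupp.sub_apply]
        exact sub_ne_zero.2 h')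
      have h1 := hd i
      have h2 := hd i'
      omega
    refine hC.inO_of_fin1 hV ⟨hf, ?_⟩
    have := (hX.mapA I id).2
    unfold Raw.WF at this ⊢
    rw [e]
    exact this
  intro m
  induction m with
  | zero =>
    exact fun V a hV hf hd => small V a hV hf fun i => ⟨(hd i).1, by have := hd i; omega⟩
  | succ m ih =>
    intro V a hV hf hd
    by_cases hm : m + 1 ≤ n
    · exact small V a hV hf fun i => ⟨(hd i).1, by have := hd i; omega⟩
    obtain ⟨P, ψ, X', hP, hPf, hψ, hPd, hX', hX'f, he, hd'⟩ := trunc h.good₀ h.zero₀ hF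
      (hU.obj hV) hf (a := a) (b := a + (m + 1 : ℕ)) hd (by omega)
    let P' := P.mapA I id
    let f : Lin V P' := mapL I ψ
    have hP' : C.Obj P' := hI.obj hP
    have hf0 := hI.ch (hU.obj hV) hP hψ
    have hf1 : C.Ch V P' f := by
      refine hC.ch_of_basis hf0.1 fun i => ?_
      have h1 := hf0.2 (single i 1)
      rw [hC.D_single] at h1
      have h2 : f ((V.δ - mapL I (mapL U V.δ)) (single i 1)) = 0 := map_zero_of fun i' => by
        by_cases h3 : (V.δ - mapL I (mapL U V.δ)) (single i 1) i' = 0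
        · exact Or.inl h3
        · refine Or.inr (Finsupp.ext fun g => ?_)
          have h4 := h.pert (by omega) hV i i' h3
          have h5 : ψ (single i' 1) g = 0 := by
            by_contra h6
            have h7 : P.deg g = V.deg i' + 0 := deg_eq h.zero₀ hψ.1 h6
            have h8 := hPd g
            have h9 := hd i
            omega
          exact (mapL_single I ψ i' g).trans (by rw [h5, map_zero]; rfl)
      rw [LinearMap.sub_apply, map_sub, sub_eq_zero] at h2
      exact h1.trans h2.symm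
    have hW : C.Obj (V.cone P' f) := hC.obj_cone hV hP' hf1
    have e : (V.cone P' f).mapA U id = (V.mapA U id).cone P ψ :=
      (Raw.mapA_ext (A := P') (B := V.sh) U id f).trans (ext_congr (hUI _)
        (lin_ext fun i k => by
          rw [mapL_single, LinearMap.neg_apply, LinearMap.neg_apply, Finsupp.neg_apply,
            Finsupp.neg_apply, mapL_single, map_neg]) (hUI _))
    obtain ⟨δ, h1, h2⟩ := h.hpl (by omega) hW
      (Raw.bdd_of_finite (inferInstanceAs (Finite (P.ι ⊕ V.ι)))) hX' (Raw.bdd_of_finite hX'f)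
      (e ▸ he)
    have h3 := ih _ (a - 1) h1 hX'f fun i => ⟨(hd' i).1, by
      have := (hd' i).2
      change X'.deg i ≤ a - 1 + m
      push_cast at this
      omega⟩
    exact Cat.inO_sh.1 (hC.ses_inO_right (hC.ses_ext hW) (hC.inO_of_fin1 hP'
      ((h.good₀.fin1_of_zero (fun _ _ _ _ => h.zero₀) hP hPf).mapA I id)) (hC.inO_of_eqv h2 h3))

theorem Aug.base_P {j : ℤ} {C₀ : Cat R L} {I : R →+ E} {U : E →+ R} (h : Aug j C C₀ I U) {n : ℕ}
    (hF : C₀.FR n) (hj : (n : ℤ) + 4 ≤ j) : C.P :=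
  fun M hM hf _ => h.base hF hj M hM hf

end Pool.Agent.Lib.NIL
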