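import Pool.Agent.Lib.NIL.GlDim

/-! Modules of projective dimension at most `n` have free resolutions with at most `n + 2` terms
(Eilenberg swindle). -/

namespace Pool.Agent.Lib.NIL

variable {R : Type} [Ring R]

/-- `M` has a free resolution with at most `n` terms. -/
def FD (R : Type) [Ring R] : ℕ → (M : Type) → [AddCommGroup M] → [Module R M] → Prop
  | 0, M, _, _ => Subsingleton M
  | n + 1, M, _, _ =>
    ∃ (I : Type) (p : (I →₀ R) →ₗ[R] M), Function.Surjective p ∧ FD R n (LinearMap.ker p)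

theorem fd_one_of_free (M : Type) [AddCommGroup M] [Module R M] [Module.Free R M] : FD R 1 M := by
  let b := Module.Free.chooseBasis R M
  refine ⟨_, b.repr.symm.toLinearMap, b.repr.symm.surjective, ?_⟩
  change Subsingleton _
  rw [LinearEquiv.ker]
  infer_instance

/-- Eilenberg swindle: a projective module is the quotient of a free module by a free module. -/
theorem swindle (P : Type) [AddCommGroup P] [Module R P] (hP : Module.Projective R P) :
    ∃ (I : Type) (p : (I →₀ R) →ₗ[R] P), Function.Surjective p ∧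
      Module.Free R (LinearMap.ker p) := by
  obtain ⟨s, hs⟩ := Module.projective_def'.1 hP
  let F := P →₀ R
  let π : F →ₗ[R] P := Finsupp.linearCombination R id
  have hπ : ∀ x, π (s x) = x := fun x => LinearMap.congr_fun hs x
  let e : F →ₗ[R] F := s ∘ₗ π
  have he : ∀ x, e (e x) = e x := fun x => congrArg s (hπ _)
  let q : (ℕ →₀ F) →ₗ[R] P := π ∘ₗ Finsupp.lapply 0
  let j : (ℕ →₀ F) →ₗ[R] (ℕ →₀ F) := Finsupp.mapRange.linearMap (LinearMap.id - e) +
    Finsupp.lmapDomain F R Nat.succ ∘ₗ Finsupp.mapRange.linearMap e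
  let k : (ℕ →₀ F) →ₗ[R] (ℕ →₀ F) := Finsupp.mapRange.linearMap (LinearMap.id - e) +
    Finsupp.mapRange.linearMap e ∘ₗ Finsupp.lcomapDomain Nat.succ Nat.succ_injective
  have hj0 : ∀ x, j x 0 = x 0 - e (x 0) := fun x => by
    simp [j, Finsupp.mapDomain_of_notMem_range]
  have hj1 : ∀ x n, j x (n + 1) = x (n + 1) - e (x (n + 1)) + e (x n) := fun x n => by
    have := Finsupp.mapDomain_apply Nat.succ_injective (Finsupp.mapRange.linearMap e x) n
    simpa [j] using this
  have hk : ∀ x n, k x n = x n - e (x n) + e (x (n + 1)) := fun x n => by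
    simp [k, Finsupp.lcomapDomain]
  have hkj : ∀ x, k (j x) = x := fun x => by
    ext1 n
    rw [hk, hj1]
    rcases n with _ | n
    · simp [hj0, he]
    · simp [hj1, he]
  have hrange : LinearMap.range j = LinearMap.ker q := by
    apply le_antisymm
    · rintro _ ⟨x, rfl⟩
      change π (j x 0) = 0
      rw [hj0, map_sub]
      exact sub_eq_zero.2 (hπ _).symm
    · intro y hy
      have hy' : e (y 0) = 0 := by
        have : π (y 0) = 0 := hy
        simp [e, this]
      refine ⟨k y, Finsupp.ext fun n => ?_⟩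
      rcases n with _ | n
      · simp [hj0, hk, he, hy']
      · simp [hj1, hk, he]
  have hinj : Function.Injective j := Function.LeftInverse.injective hkj
  have hfree : Module.Free R (LinearMap.ker q) :=
    Module.Free.of_equiv ((LinearEquiv.ofInjective j hinj).trans (LinearEquiv.ofEq _ _ hrange))
  let c : ((ℕ × P) →₀ R) ≃ₗ[R] (ℕ →₀ F) := Finsupp.curryLinearEquiv R
  refine ⟨ℕ × P, q ∘ₗ c.toLinearMap, ?_, ?_⟩
  · intro x
    refine ⟨c.symm (Finsupp.single 0 (s x)), ?_⟩
    simp [q, hπ]
  · rw [LinearMap.ker_comp]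
    exact Module.Free.of_equiv (c.ofSubmodule' (LinearMap.ker q)).symm

theorem fd_of_pd (n : ℕ) (M : Type) [AddCommGroup M] [Module R M] (h : PD R n M) :
    FD R (n + 2) M := by
  induction n generalizing M with
  | zero =>
    obtain ⟨I, p, hp, hf⟩ := swindle M h
    exact ⟨I, p, hp, fd_one_of_free _⟩
  | succ n ih =>
    obtain ⟨I, p, hp, hk⟩ := h
    exact ⟨I, p, hp, ih _ hk⟩

/-- The free resolution as an `ℕ`-indexed sequence. -/
theorem exists_res_of_fd (n : ℕ) (M : Type) [AddCommGroup M] [Module R M] (h : FD R n M) :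
    ∃ (I : ℕ → Type) (d : ∀ i, (I (i + 1) →₀ R) →ₗ[R] (I i →₀ R)) (ε : (I 0 →₀ R) →ₗ[R] M),
      Function.Surjective ε ∧ Function.Exact (d 0) ε ∧ (∀ i, Function.Exact (d (i + 1)) (d i)) ∧
      ∀ i, n ≤ i → IsEmpty (I i) := by
  induction n generalizing M with
  | zero =>
    have : Subsingleton M := h
    refine ⟨fun _ => Empty, fun _ => 0, 0, fun x => ⟨0, Subsingleton.elim _ _⟩, fun x => ?_,
      fun i x => ?_, fun _ _ => inferInstance⟩
    · exact ⟨fun _ => ⟨0, Subsingleton.elim _ _⟩, fun _ => rfl⟩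
    · exact ⟨fun _ => ⟨0, Subsingleton.elim _ _⟩, fun _ => rfl⟩
  | succ n ih =>
    obtain ⟨I, p, hp, hk⟩ := h
    obtain ⟨J, d, ε, h1, h2, h3, h4⟩ := ih _ hk
    refine ⟨fun i => Nat.casesOn i I J,
      fun i => Nat.casesOn (motive := fun i =>
        ((Nat.casesOn (i + 1) I J : Type) →₀ R) →ₗ[R] ((Nat.casesOn i I J : Type) →₀ R)) i
        ((LinearMap.ker p).subtype ∘ₗ ε) d, p, hp, fun x => ?_, fun i => ?_, fun i hi => ?_⟩
    · constructor
      · intro hx
        obtain ⟨y, hy⟩ := h1 ⟨x, hx⟩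
        exact ⟨y, congrArg Subtype.val hy⟩
      · rintro ⟨y, rfl⟩
        exact (ε y).2
    · rcases i with _ | i
      · intro x
        exact Iff.trans ⟨fun hx => Subtype.ext hx, fun hx => congrArg Subtype.val hx⟩ (h2 x)
      · exact h3 i
    · rcases i with _ | i
      · omega
      · exact h4 i (by omega)

/-- A module of projective dimension at most `n` has a free resolution in degrees `0, …, n + 1`. -/
theorem exists_free_res (n : ℕ) (M : Type) [AddCommGroup M] [Module R M] (h : PD R n M) :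
    ∃ (I : ℕ → Type) (d : ∀ i, (I (i + 1) →₀ R) →ₗ[R] (I i →₀ R)) (ε : (I 0 →₀ R) →ₗ[R] M),
      Function.Surjective ε ∧ Function.Exact (d 0) ε ∧ (∀ i, Function.Exact (d (i + 1)) (d i)) ∧
      ∀ i, n + 2 ≤ i → IsEmpty (I i) :=
  exists_res_of_fd (n + 2) M (fd_of_pd n M h)

end Pool.Agent.Lib.NIL
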