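import Pool.Agent.Lib.NIL.B_H3
import Pool.Agent.Lib.NIL.FreeRes

/-! Block AC0: a group of finite cohomological dimension acts freely on an acyclic complex. -/

noncomputable section

namespace Pool.Agent.Lib.NIL

open Finsupp

namespace AC0

/-- the total complex of an exact sequence of free modules -/
theorem total {R : Type} [Ring R] (J : ℕ → Type) (d : ∀ i, (J (i + 1) →₀ R) →ₗ[R] (J i →₀ R))
    (N : ℕ) (hN : ∀ i, N ≤ i → IsEmpty (J i)) (hex : ∀ i, Function.Exact (d (i + 1)) (d i)) :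
    ∃ (D : ((Σ i, J i) →₀ R) →ₗ[R] ((Σ i, J i) →₀ R)),
      (∀ t t' r, D (single t r) t' ≠ 0 → t'.1 + 1 = t.1) ∧ (∀ v, D (D v) = 0) ∧
      (∀ v, ∃ u, ∀ x, D v ⟨0, x⟩ = d 0 u x) ∧
      ∀ v, D v = 0 → (∃ u, ∀ x, v ⟨0, x⟩ = d 0 u x) → ∃ w, D w = v := by
  classical
  let pr : ∀ i, ((Σ i, J i) →₀ R) →ₗ[R] (J i →₀ R) := fun i =>
    lcomapDomain (Sigma.mk i) sigma_mk_injective
  let ic : ∀ i, (J i →₀ R) →ₗ[R] ((Σ i, J i) →₀ R) := fun i => lmapDomain R R (Sigma.mk i)
  have e1 : ∀ i u, pr i (ic i u) = u := fun i u =>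
    Finsupp.ext fun x => mapDomain_apply sigma_mk_injective u x
  have e2 : ∀ i j u, i ≠ j → pr i (ic j u) = 0 := fun i j u h => Finsupp.ext fun x =>
    mapDomain_of_notMem_range _ _ fun ⟨_, e⟩ => h (congrArg Sigma.fst e).symm
  have e3 : ∀ v w, (∀ i, pr i v = pr i w) → v = w := fun v w h =>
    Finsupp.ext fun t => DFunLike.congr_fun (h t.1) t.2
  let f : (Σ i, J i) → (Σ i, J i) →₀ R := fun t =>
    match t with
    | ⟨0, _⟩ => 0
    | ⟨i + 1, x⟩ => ic i (d i (single x 1))
  let D := linearCombination R f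
  have e4 : ∀ i v, pr i (D v) = d i (pr (i + 1) v) := fun i v => by
    refine LinearMap.congr_fun (f := pr i ∘ₗ D) (g := d i ∘ₗ pr (i + 1))
      (lhom_ext' fun t => LinearMap.ext_ring ?_) v
    obtain ⟨j, x⟩ := t
    have h1 : (single ⟨j, x⟩ 1 : (Σ i, J i) →₀ R) = ic j (single x 1) := mapDomain_single.symm
    change pr i (D (single ⟨j, x⟩ 1)) = d i (pr (i + 1) (single ⟨j, x⟩ 1))
    rw [linearCombination_single, one_smul, h1]
    rcases j with _ | j
    · exact (map_zero (pr i)).trans (by rw [e2 _ _ _ (Nat.succ_ne_zero i), map_zero])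
    · by_cases h : i = j
      · subst h
        exact (e1 i (d i (single x 1))).trans (by rw [e1])
      · exact (e2 _ _ (d j (single x 1)) h).trans
          (by rw [e2 _ _ _ fun e => h (Nat.succ_injective e), map_zero])
  refine ⟨D, fun t t' r h => ?_, fun v => e3 _ _ fun i => ?_, fun v => ⟨pr 1 v, fun x =>
    DFunLike.congr_fun (e4 0 v) x⟩, fun v hv h0 => ?_⟩
  · by_contra hc
    refine h ((DFunLike.congr_fun (e4 t'.1 (single t r)) t'.2).trans ?_)
    rw [show single t r = ic t.1 (single t.2 r) from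
      (mapDomain_single (f := Sigma.mk t.1) (a := t.2)).symm, e2 _ _ _ hc, map_zero]
    rfl
  · rw [e4, e4, map_zero]
    exact (hex i).apply_apply_eq_zero _
  · have h1 : ∀ i, ∃ u, d i u = pr i v := fun i => by
      rcases i with _ | i
      · exact h0.imp fun u hu => Finsupp.ext fun x => (hu x).symm
      · exact ((hex i) _).1 (by rw [← e4, hv, map_zero])
    choose u hu using h1
    refine ⟨∑ i ∈ Finset.range N, ic (i + 1) (u i), e3 _ _ fun i => ?_⟩
    by_cases hi : i < N
    · rw [e4, map_sum, Finset.sum_eq_single i (fun j _ h => e2 _ _ _ fun e =>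
        h (Nat.succ_injective e).symm) fun h => (h (Finset.mem_range.2 hi)).elim, e1, hu]
    · have := hN i (not_lt.1 hi)
      exact Subsingleton.elim _ _

/-- maps of free modules -/
abbrev Hm (R α β : Type) [Ring R] : Type := (α →₀ R) →ₗ[R] (β →₀ R)

theorem aug {R : Type} [Ring R] {n : ℕ} (M : Submodule R (Unit →₀ R)) (h : PD R n M) :
    ∃ (T : Type) (o : T) (dim : T → ℕ) (D : (T →₀ R) →ₗ[R] (T →₀ R)), dim o = 0 ∧
      (∀ t, dim t ≤ n + 2) ∧ (∀ t t' r, D (single t r) t' ≠ 0 → dim t' + 1 = dim t) ∧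
      (∀ v, D (D v) = 0) ∧ (∀ v, single () (D v o) ∈ M) ∧
      ∀ v, D v = 0 → single () (v o) ∈ M → ∃ w, D w = v := by
  obtain ⟨I, d, ε, h1, h2, h3, h4⟩ := exists_free_res n M h
  let J : ℕ → Type := fun i => Nat.casesOn i Unit I
  let d' : ∀ i : ℕ, Hm R (J (i + 1)) (J i) := fun i =>
    match i with
    | 0 => show Hm R (I 0) Unit from M.subtype ∘ₗ ε
    | i + 1 => d i
  have hN : ∀ i, n + 3 ≤ i → IsEmpty (J i) := fun i hi => by
    rcases i with _ | i
    · omega
    · exact h4 i (by omega)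
  obtain ⟨D, d1, d2, d3, d4⟩ := total J d' (n + 3) hN fun i => by
    rcases i with _ | i
    · intro x
      exact Iff.trans ⟨fun hx => Subtype.ext hx, fun hx => congrArg Subtype.val hx⟩ (h2 x)
    · exact h3 i
  refine ⟨Σ i, J i, ⟨0, ()⟩, Sigma.fst, D, rfl, fun t => ?_, d1, d2, fun v => ?_,
    fun v hv hm => d4 v hv ?_⟩
  · by_contra l
    exact (hN t.1 (by omega)).elim t.2
  · obtain ⟨u, hu⟩ := d3 v
    rw [hu]
    have := (ε u).2
    rwa [unique_single (ε u).1] at this
  · obtain ⟨u, hu⟩ := h1 ⟨_, hm⟩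
    refine ⟨u, fun x => ?_⟩
    change v ⟨0, ()⟩ = (ε u).1 ()
    rw [hu]
    exact single_eq_same.symm

end AC0

theorem st_ac0 : St_AC0 := by
  intro G _ n hG
  classical
  let a : MonoidAlgebra ℤ G →+* ℤ := (MonoidAlgebra.lift ℤ ℤ G 1).toRingHom
  have ha : ∀ g r, a (MonoidAlgebra.single g r) = r := fun g r => by simp [a]
  obtain ⟨T, o, dim, D, d0, dn, d1, d2, d3, d4⟩ :=
    AC0.aug _ (pd_submodule hG ℤ Unit (Submodule.comap (lapply ()) (RingHom.ker a)))
  simp only [Submodule.mem_comap, lapply_apply, single_eq_same, RingHom.mem_ker] at d3 d4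
  let Φ : (T × G →₀ ℤ) ≃+ (T →₀ MonoidAlgebra ℤ G) :=
    Finsupp.curryAddEquiv.trans (mapRange.addEquiv MonoidAlgebra.coeffAddEquiv.symm)
  have Φ1 : ∀ z t g, (Φ z t).coeff g = z (t, g) := fun z t g => rfl
  have Φ2 : ∀ v t g, Φ.symm v (t, g) = (v t).coeff g := fun v t g => by
    rw [← Φ1, Φ.apply_symm_apply]
  have Φ3 : ∀ t g r, Φ (single (t, g) r) = single t (MonoidAlgebra.single g r) := fun t g r => by
    ext t' g'
    rw [Φ1, single_apply, single_apply]
    by_cases h : t = t'
    · subst h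
      simp [single_apply]
    · simp [h]
  let _ : MulAction G (T × G) :=
    { smul := fun g p => (p.1, g * p.2)
      one_smul := fun p => Prod.ext rfl (one_mul _)
      mul_smul := fun g h p => Prod.ext rfl (mul_assoc _ _ _) }
  let bd : T × G → T × G →₀ ℤ := fun c => Φ.symm (D (Φ (single c 1)))
  let ep : T × G → ℤ := fun c => a (Φ (single c 1) o)
  have b1 : ∀ z, linearCombination ℤ bd z = Φ.symm (D (Φ z)) := fun z => by
    induction z using Finsupp.induction_linear with
    | zero => simp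
    | add x y hx hy => simp only [map_add, hx, hy]
    | single c r =>
      rw [linearCombination_single, ← map_zsmul, ← map_zsmul, ← map_zsmul, smul_single, smul_eq_mul,
        mul_one]
  have b2 : ∀ z, linearCombination ℤ ep z = a (Φ z o) := fun z => by
    induction z using Finsupp.induction_linear with
    | zero => simp
    | add x y hx hy => simp only [map_add, hx, hy, Finsupp.add_apply]
    | single c r =>
      rw [linearCombination_single, ← map_zsmul, ← Finsupp.smul_apply, ← map_zsmul, smul_single,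
        smul_eq_mul, mul_one]
  have b3 : ∀ t g, ep (t, g) = if t = o then 1 else 0 := fun t g => by
    change a (Φ (single (t, g) 1) o) = _
    rw [Φ3, single_apply]
    split_ifs
    · exact ha _ _
    · exact map_zero a
  have b4 : ∀ t g t' g', bd (t, g) (t', g') = (D (single t 1) t').coeff (g⁻¹ * g') :=
    fun t g t' g' => by
      change Φ.symm (D (Φ (single (t, g) 1))) (t', g') = _
      rw [Φ2, Φ3, ← smul_single_one, map_smul, Finsupp.smul_apply, smul_eq_mul,
        MonoidAlgebra.coeff_single_mul_apply, one_mul]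
  refine ⟨T × G, inferInstance, n + 2,
    { dim := fun c => dim c.1
      bd := bd
      eps := ep
      b := (o, 1)
      dim_le := fun c => dn _
      dim_smul := fun _ _ => rfl
      bd_smul := fun g c e => ?_
      eps_smul := fun g c => (b3 _ _).trans (b3 _ _).symm
      bd_supp := fun c e h => d1 c.1 e.1 1 fun l => h ?_
      bd_bd := fun c => ?_
      eps_supp := fun c h => ?_
      eps_bd := fun c => ?_
      eps_b := (b3 _ _).trans (if_pos rfl) }, ⟨trivial, fun _ _ _ _ => trivial, fun z _ z1 z2 => ?_⟩,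
    fun g c h => mul_eq_right.1 (congrArg Prod.snd h)⟩
  · refine (b4 _ _ _ _).trans (Eq.trans ?_ (b4 c.1 c.2 e.1 e.2).symm)
    rw [mul_inv_rev, mul_assoc, inv_mul_cancel_left]
  · refine (b4 c.1 c.2 e.1 e.2).trans ?_
    rw [l]
    rfl
  · rw [b1, Φ.apply_symm_apply, d2, map_zero]
  · by_contra l
    exact h ((b3 c.1 c.2).trans (if_neg fun e => l ((congrArg dim e).trans d0)))
  · rw [b2, Φ.apply_symm_apply, d3]
  · rw [b1, Φ.symm.map_eq_zero_iff] at z1
    rw [b2] at z2
    obtain ⟨w, hw⟩ := d4 _ z1 z2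
    exact ⟨Φ.symm w, fun _ _ => trivial, by rw [b1, Φ.apply_symm_apply, hw, Φ.symm_apply_apply]⟩

end Pool.Agent.Lib.NIL
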