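import Pool.Agent.Lib.NIL.Blue3

/-! The complex of chains of a poset. -/

noncomputable section

namespace Pool.Agent.Lib.NIL

open Finsupp
open scoped Classical

namespace AC1

variable {G V : Type} [Group G] [PartialOrder V] [MulAction G V]

theorem bd_ne {s e : Finset V} (h : chainBd s e ≠ 0) : ∃ v ∈ s, e = s.erase v := by
  by_contra hn
  push Not at hn
  refine h ?_
  rw [chainBd, Finsupp.finsetSum_apply]
  exact Finset.sum_eq_zero fun v hv => single_eq_of_ne (hn v hv)

theorem bd_bd {s : Finset V} (hs : IsChain (· ≤ ·) (s : Set V)) :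
    linearCombination ℤ chainBd (chainBd s) = 0 := by
  let a : Finset V → V → ℤ := fun t v => (-1) ^ (t.filter (· < v)).card
  let f : V → V → Finset V →₀ ℤ := fun v u =>
    if u = v then 0 else single ((s.erase v).erase u) (a s v * a (s.erase v) u)
  have h1 : linearCombination ℤ chainBd (chainBd s) = ∑ v ∈ s, ∑ u ∈ s, f v u := by
    rw [chainBd, map_sum]
    refine Finset.sum_congr rfl fun v hv => ?_
    rw [linearCombination_single, chainBd, Finset.smul_sum, ← Finset.add_sum_erase s _ hv]
    simp only [f, if_true, zero_add]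
    refine Finset.sum_congr rfl fun u hu => ?_
    rw [if_neg (Finset.ne_of_mem_erase hu), smul_single, smul_eq_mul]
  have h2 : ∀ v ∈ s, ∀ u ∈ s, v < u → f v u = -f u v := by
    intro v hv u hu h
    have h3 : a (s.erase v) u = -a s u := by
      simp only [a]
      rw [Finset.filter_erase, ← Finset.card_erase_add_one (a := v) (s := s.filter (· < u))
        (Finset.mem_filter.2 ⟨hv, h⟩), pow_succ]
      ring
    have h4 : a (s.erase u) v = a s v := by
      simp only [a]
      rw [Finset.filter_erase, Finset.erase_eq_of_notMem]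
      exact fun h' => lt_asymm h (Finset.mem_filter.1 h').2
    simp only [f, if_neg h.ne, if_neg h.ne', h3, h4]
    rw [Finset.erase_right_comm, ← single_neg]
    congr 1
    ring
  have h3 : ∑ v ∈ s, ∑ u ∈ s, f v u = -∑ v ∈ s, ∑ u ∈ s, f v u := by
    nth_rewrite 2 [Finset.sum_comm]
    rw [← Finset.sum_neg_distrib]
    refine Finset.sum_congr rfl fun v hv => ?_
    rw [← Finset.sum_neg_distrib]
    refine Finset.sum_congr rfl fun u hu => ?_
    by_cases h : v = u
    · simp [f, h]
    rcases hs hv hu h with h' | h'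
    · exact h2 v hv u hu (lt_of_le_of_ne h' h)
    · rw [h2 u hu v hv (lt_of_le_of_ne h' (Ne.symm h)), neg_neg]
  rw [h1]
  ext e
  have := DFunLike.congr_fun h3 e
  rw [Finsupp.neg_apply] at this
  rw [Finsupp.zero_apply]
  omega

/-- translation of a finite set -/
def tr (g : G) (s : Finset V) : Finset V := s.map (MulAction.toPerm g).toEmbedding

omit [PartialOrder V] in
theorem mem_tr {g : G} {s : Finset V} {v : V} : v ∈ tr g s ↔ g⁻¹ • v ∈ s := by
  simp [tr]

variable (hG : ∀ (g : G) (u v : V), u ≤ v → g • u ≤ g • v)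

include hG

theorem lt_iff (g : G) (u v : V) : g • u < g • v ↔ u < v := by
  have key : ∀ (g : G) (u v : V), u < v → g • u < g • v := fun g u v h =>
    lt_of_le_of_ne (hG g u v h.le) fun h' => h.ne (MulAction.injective g h')
  exact ⟨fun h => by simpa using key g⁻¹ _ _ h, key g u v⟩

theorem bd_tr (g : G) (s e : Finset V) : chainBd (tr g s) (tr g e) = chainBd s e := by
  rw [chainBd, chainBd, Finsupp.finsetSum_apply, Finsupp.finsetSum_apply]
  nth_rewrite 1 [tr]
  rw [Finset.sum_map]
  refine Finset.sum_congr rfl fun v hv => ?_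
  have h1 : (tr g s).erase (g • v) = tr g (s.erase v) := (Finset.map_erase _ _ _).symm
  have h2 : (tr g s).filter (· < g • v) = tr g (s.filter (· < v)) := by
    ext u
    rw [Finset.mem_filter, mem_tr, mem_tr, Finset.mem_filter, ← lt_iff hG g (g⁻¹ • u),
      smul_inv_smul]
  change single ((tr g s).erase (g • v)) ((-1) ^ ((tr g s).filter (· < g • v)).card) _ = _
  rw [h1, h2, tr, tr, Finset.card_map, single_apply, single_apply]
  exact if_congr (Finset.map_injective _).eq_iff rfl rfl

theorem chain_tr (g : G) {s : Finset V} (hs : IsChain (· ≤ ·) (s : Set V)) :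
    IsChain (· ≤ ·) (tr g s : Set V) := by
  intro u hu v hv h
  have := hs (mem_tr.1 hu) (mem_tr.1 hv) fun h' => h (MulAction.injective _ h')
  exact this.imp (fun h => by simpa using hG g _ _ h) fun h => by simpa using hG g _ _ h

omit hG

/-- nonempty chains -/
def Ch (s : Finset V) : Prop := s.Nonempty ∧ IsChain (· ≤ ·) (s : Set V)

/-- the boundary on nonempty chains -/
def bd (c : Subtype (Ch (V := V))) : Subtype (Ch (V := V)) →₀ ℤ := (chainBd c.1).subtypeDomain Ch

/-- the augmentation -/
def eps (c : Subtype (Ch (V := V))) : ℤ := chainBd c.1 ∅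

theorem split (z : Finset V →₀ ℤ) (hz : ∀ s, z s ≠ 0 → IsChain (· ≤ ·) (s : Set V)) :
    z = lmapDomain ℤ ℤ Subtype.val (z.subtypeDomain Ch) + single ∅ (z ∅) := by
  ext e
  rw [Finsupp.add_apply, lmapDomain_apply]
  by_cases h : Ch e
  · rw [show e = (⟨e, h⟩ : Subtype Ch).1 from rfl, mapDomain_apply Subtype.val_injective,
      single_eq_of_ne h.1.ne_empty, add_zero, subtypeDomain_apply]
  · rw [mapDomain_of_notMem_range _ _ (by simpa using h), zero_add]
    by_cases h0 : e = ∅
    · rw [h0, single_eq_same]
    · rw [single_eq_of_ne h0]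
      by_contra h1
      exact h ⟨Finset.nonempty_iff_ne_empty.2 h0, hz e h1⟩

theorem chain_bd {s e : Finset V} (hs : IsChain (· ≤ ·) (s : Set V)) (h : chainBd s e ≠ 0) :
    IsChain (· ≤ ·) (e : Set V) := by
  obtain ⟨v, -, rfl⟩ := bd_ne h
  exact hs.mono (Finset.coe_subset.2 (Finset.erase_subset _ _))

theorem key (z : Subtype (Ch (V := V)) →₀ ℤ) :
    linearCombination ℤ chainBd (lmapDomain ℤ ℤ Subtype.val z) =
      lmapDomain ℤ ℤ Subtype.val (linearCombination ℤ bd z) +
        single ∅ (linearCombination ℤ eps z) := by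
  induction z using Finsupp.induction_linear with
  | zero => simp
  | add z w hz hw =>
    simp only [map_add, hz, hw, single_add]
    abel
  | single c a =>
    rw [lmapDomain_apply, mapDomain_single, linearCombination_single, linearCombination_single,
      linearCombination_single, map_smul, ← smul_single, ← smul_add]
    exact congrArg _ (split _ fun e he => chain_bd c.2.2 he)

theorem bd_empty (a : ℤ) : linearCombination ℤ chainBd (single (∅ : Finset V) a) = 0 := by
  simp [chainBd]

theorem inj {z : Subtype (Ch (V := V)) →₀ ℤ} {a : ℤ}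
    (h : lmapDomain ℤ ℤ Subtype.val z + single ∅ a = 0) : z = 0 ∧ a = 0 := by
  have h1 := DFunLike.congr_fun h ∅
  rw [Finsupp.add_apply, lmapDomain_apply, mapDomain_of_notMem_range _ _ (by simp [Ch]), zero_add,
    single_eq_same, Finsupp.zero_apply] at h1
  rw [h1, single_zero, add_zero, lmapDomain_apply] at h
  exact ⟨mapDomain_injective Subtype.val_injective (h.trans mapDomain_zero.symm), h1⟩

theorem bd_bd' (c : Subtype (Ch (V := V))) :
    linearCombination ℤ bd (bd c) = 0 ∧ linearCombination ℤ eps (bd c) = 0 := by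
  refine inj ?_
  have := bd_bd c.2.2
  rw [split _ fun e he => chain_bd c.2.2 he, map_add, bd_empty, add_zero] at this
  rw [← key]
  exact this

end AC1

open AC1 in
theorem st_ac1 : St_AC1 := by
  intro G V _ _ _ n hG hn hex
  obtain ⟨w₀, hw₀, h₀⟩ := hex (single ∅ 1) (fun s hs => by
    rw [show s = ∅ from by_contra fun h => hs (single_eq_of_ne h)]
    simp) (bd_empty 1)
  have hV : Nonempty V := by
    by_contra h
    rw [not_nonempty_iff] at h
    have h1 : w₀ = single ∅ (w₀ ∅) := Finsupp.ext fun s => by
      rw [Finset.eq_empty_of_isEmpty s, single_eq_same]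
    rw [h1, bd_empty] at h₀
    simpa using DFunLike.congr_fun h₀ ∅
  obtain ⟨v₀⟩ := hV
  let inst : MulAction G (Subtype (Ch (V := V))) :=
    { smul := fun g c => ⟨tr g c.1, c.2.1.map, chain_tr hG g c.2.2⟩
      one_smul := fun c => Subtype.ext (by
        ext v
        exact mem_tr.trans (by simp))
      mul_smul := fun g h c => Subtype.ext (by
        ext v
        exact mem_tr.trans (Iff.trans (by rw [mul_inv_rev, mul_smul])
          (mem_tr.trans mem_tr).symm)) }
  have hs : ∀ (g : G) (c : Subtype (Ch (V := V))), (g • c).1 = tr g c.1 := fun _ _ => rfl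
  refine ⟨_, inst,
    { dim := fun c => c.1.card - 1
      bd := bd
      eps := eps
      b := ⟨{v₀}, by simp, by simp⟩
      dim_le := fun c => by have := hn _ c.2.2; omega
      dim_smul := fun g c => by rw [hs, tr, Finset.card_map]
      bd_smul := fun g c e => bd_tr hG g c.1 e.1
      eps_smul := fun g c => bd_tr hG g c.1 ∅
      bd_supp := fun c e h => by
        obtain ⟨v, hv, h⟩ := bd_ne (s := c.1) (e := e.1) h
        have h1 := e.2.1.card_pos
        have h2 := Finset.card_erase_add_one hv
        rw [← h] at h2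
        omega
      bd_bd := fun c => (bd_bd' c).1
      eps_supp := fun c h => by
        obtain ⟨v, hv, h⟩ := bd_ne (s := c.1) (e := ∅) h
        have h2 := Finset.card_erase_add_one hv
        rw [← h, Finset.card_empty] at h2
        omega
      eps_bd := fun c => (bd_bd' c).2
      eps_b := by simp [eps, chainBd, Finset.filter_singleton] },
    ⟨trivial, fun _ _ _ _ => trivial, fun z _ h1 h2 => ?_⟩, fun c => ?_⟩
  · obtain ⟨w, hw, h⟩ := hex (lmapDomain ℤ ℤ Subtype.val z) (fun s hs => by
      by_contra h
      exact hs (mapDomain_of_notMem_range _ _ (by rintro ⟨c, rfl⟩; exact h c.2.2))) (by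
      rw [key, show linearCombination ℤ bd z = 0 from h1,
        show linearCombination ℤ eps z = 0 from h2]
      simp)
    refine ⟨w.subtypeDomain Ch, fun _ _ => trivial, ?_⟩
    rw [split w hw, map_add, bd_empty, add_zero, key, ← sub_eq_zero, add_sub_right_comm,
      ← map_sub] at h
    exact sub_eq_zero.1 (inj h).1
  · obtain ⟨v, hv⟩ := c.1.exists_minimal c.2.1
    have hm : ∀ u ∈ c.1, v ≤ u := fun u hu =>
      (c.2.2.total hv.1 hu).elim id fun h => hv.2 hu h
    refine ⟨v, fun g hg => ?_⟩
    have h1 : ∀ g : G, g • c = c → g⁻¹ • v ∈ c.1 := fun g hg => by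
      rw [← mem_tr, ← hs, hg]
      exact hv.1
    have h2 := h1 g⁻¹ ((MulAction.stabilizer G c).inv_mem hg)
    rw [inv_inv] at h2
    refine le_antisymm ?_ (hm _ h2)
    simpa using hG g _ _ (hm _ (h1 g hg))

end Pool.Agent.Lib.NIL
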