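import Pool.Agent.Lib.NIL.Blue3

/-! Block AC2: a countable acyclic invariant subcomplex. -/

noncomputable section

namespace Pool.Agent.Lib.NIL

open Finsupp

namespace AC2

theorem countable_supp {K : Type} {S : Set K} (hS : S.Countable) :
    {z : K →₀ ℤ | ∀ c, z c ≠ 0 → c ∈ S}.Countable := by
  have := hS.to_subtype
  refine (Set.countable_range (mapDomain (Subtype.val : S → K) : (S →₀ ℤ) → K →₀ ℤ)).mono
    fun z hz => Set.mem_range.2 ⟨z.comapDomain _ Subtype.val_injective.injOn,
      mapDomain_comapDomain _ Subtype.val_injective _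
        fun c hc => ⟨⟨c, hz c (mem_support_iff.1 hc)⟩, rfl⟩⟩

/-- a countable set closed under a countably valued operation on chains -/
theorem exists_closed {K : Type} (b : K) (F : (K →₀ ℤ) → Set K) (hF : ∀ z, (F z).Countable) :
    ∃ T : Set K, T.Countable ∧ b ∈ T ∧ ∀ z : K →₀ ℤ, (∀ c, z c ≠ 0 → c ∈ T) → F z ⊆ T := by
  let Φ : Set K → Set K := fun S => S ∪ ⋃ z ∈ {z : K →₀ ℤ | ∀ c, z c ≠ 0 → c ∈ S}, F z
  have h1 : ∀ m, (Φ^[m] {b}).Countable := fun m => by
    induction m with
    | zero => exact Set.countable_singleton b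
    | succ m ih =>
      rw [Function.iterate_succ_apply']
      exact ih.union ((countable_supp ih).biUnion fun z _ => hF z)
  have h2 : Monotone fun m => Φ^[m] {b} := monotone_nat_of_le_succ fun m => by
    rw [Function.iterate_succ_apply']
    exact Set.subset_union_left
  refine ⟨⋃ m, Φ^[m] {b}, Set.countable_iUnion h1, Set.mem_iUnion.2 ⟨0, rfl⟩, fun z hz => ?_⟩
  choose! m hm using fun c hc => Set.mem_iUnion.1 (hz c hc)
  refine Set.subset_iUnion_of_subset (z.support.sup m + 1) ?_
  rw [Function.iterate_succ_apply']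
  exact fun x hx => .inr (Set.mem_biUnion (x := z) (fun c hc =>
    h2 (Finset.le_sup (mem_support_iff.2 hc)) (hm c hc)) hx)

end AC2

theorem st_ac2 : St_AC2 := by
  intro G K _ _ _ n A hA
  choose! w _ hw using hA.2.2
  obtain ⟨T, hT, hb, hc⟩ := AC2.exists_closed A.b (fun z => (w z).support ∪
      ⋃ c ∈ (z.support : Set K), ((A.bd c).support ∪ Set.range fun g : G => g • c)) fun z =>
    (Finset.countable_toSet _).union ((Finset.countable_toSet _).biUnion fun c _ =>
      (Finset.countable_toSet _).union (Set.countable_range _))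
  have h1 : ∀ c ∈ T, (((A.bd c).support : Set K) ∪ Set.range fun g : G => g • c) ⊆ T :=
    fun c h x hx =>
    hc (single c 1) (fun e he => (mem_support_single _ _ _).1 (mem_support_iff.2 he) |>.1 ▸ h)
      (.inr (Set.mem_biUnion (x := c) (by simp) hx))
  let S : SubMulAction G K := ⟨T, fun g c h => h1 c h (.inr ⟨g, rfl⟩)⟩
  let j : (S →₀ ℤ) →ₗ[ℤ] (K →₀ ℤ) := lmapDomain ℤ ℤ Subtype.val
  have inj : Function.Injective j := mapDomain_injective Subtype.val_injective
  have sur : ∀ z : K →₀ ℤ, (∀ c, z c ≠ 0 → c ∈ T) →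
      j (z.comapDomain Subtype.val Subtype.val_injective.injOn) = z := fun z hz =>
    mapDomain_comapDomain _ Subtype.val_injective _
      fun c hc => ⟨⟨c, hz c (mem_support_iff.1 hc)⟩, rfl⟩
  let bd : S → S →₀ ℤ := fun c => (A.bd c).comapDomain Subtype.val Subtype.val_injective.injOn
  have jb : ∀ c, j (bd c) = A.bd c := fun c =>
    sur _ fun e he => h1 c c.2 (.inl (mem_support_iff.2 he))
  have e1 : ∀ z, j (linearCombination ℤ bd z) = linearCombination ℤ A.bd (j z) := fun z => by
    rw [apply_linearCombination, show j ∘ bd = A.bd ∘ Subtype.val from funext jb]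
    exact (linearCombination_mapDomain ℤ _ z).symm
  have e2 : ∀ z, linearCombination ℤ (fun c : S => A.eps c) z = linearCombination ℤ A.eps (j z) :=
    fun z => (linearCombination_mapDomain ℤ _ z).symm
  refine ⟨S, inferInstance, ⟨fun c => A.dim c, bd, fun c => A.eps c, ⟨A.b, hb⟩,
    fun c => A.dim_le c, fun g c => A.dim_smul g c, fun g c e => A.bd_smul g c e,
    fun g c => A.eps_smul g c, fun c e => A.bd_supp c e,
    fun c => inj (by rw [e1, jb, A.bd_bd, map_zero]), fun c => A.eps_supp c,
    fun c => by rw [e2, jb, A.eps_bd], A.eps_b⟩, hT.to_subtype,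
    ⟨trivial, fun _ _ _ _ => trivial, fun z _ hz hz' => ?_⟩,
    fun c => ⟨c, fun g hg => congrArg Subtype.val hg⟩⟩
  have h2 : ∀ c, j z c ≠ 0 → c ∈ T := fun c h => by
    by_contra hn
    exact h (mapDomain_of_notMem_range _ _ fun ⟨e, he⟩ => hn (he ▸ e.2))
  refine ⟨(w (j z)).comapDomain Subtype.val Subtype.val_injective.injOn, fun _ _ => trivial,
    inj ?_⟩
  rw [e1, sur _ fun c h => hc _ h2 (.inl (mem_support_iff.2 h))]
  exact hw _ (fun _ _ => trivial) (by rw [← e1]; exact (congrArg j hz).trans (map_zero j))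
    ((e2 z).symm.trans hz')

end Pool.Agent.Lib.NIL
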