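import Pool.Agent.Lib.NIL.ACx1

/-! Expanding an acyclic complex until low dimensional cycles bound single cells. -/

noncomputable section

namespace Pool.Agent.Lib.NIL

theorem ac3a_ind (G K : Type) [Group G] [Countable G] [MulAction G K] [Countable K] (n : ℕ)
    (A : ACx G K (n + 1)) (hA : A.Ex Set.univ) (k : ℕ) (hk : k ≤ n) :
    ∃ (K' : Type) (_ : MulAction G K') (A' : ACx G K' (n + 1)), Countable K' ∧ A'.Ex Set.univ ∧
      A'.Cone k ∧ ∀ c' : K', ∃ c : K, MulAction.stabilizer G c' ≤ MulAction.stabilizer G c := by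
  induction k with
  | zero => exact ⟨K, inferInstance, A, inferInstance, hA, fun m hm => absurd hm (Nat.not_lt_zero m),
      fun c => ⟨c, le_rfl⟩⟩
  | succ k ih =>
    obtain ⟨K₁, _, A₁, hc, hE, hC, hS⟩ := ih (Nat.le_of_succ_le hk)
    have hw : ∀ j : {u : K₁ →₀ ℤ // A₁.Hg (k + 1) u}, A₁.Hg (k + 1) j.1 := fun j => j.2
    refine ⟨XP G K₁ {u : K₁ →₀ ℤ // A₁.Hg (k + 1) u}, inferInstance,
      XP.cx A₁ k Subtype.val hw le_rfl (Nat.succ_le_succ hk), inferInstance,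
      XP.cx_ex hw _ _ hE, XP.cx_cone hw _ _ hE hC fun u hu => ⟨⟨u, hu⟩, rfl⟩, fun x => ?_⟩
    obtain ⟨c₁, h₁⟩ := XP.stab_le A₁.b x
    obtain ⟨c, h⟩ := hS c₁
    exact ⟨c, h₁.trans h⟩

theorem st_ac3a : St_AC3a := by
  intro G K _ _ _ _ n A hA
  exact ac3a_ind G K n A hA n le_rfl

end Pool.Agent.Lib.NIL
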