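import Pool.Agent.Lib.NIL.AC3K
import Pool.Agent.Lib.NIL.ACx1

/-! AC3b: finite acyclic subcomplexes of an elementary expansion. -/

noncomputable section

namespace Pool.Agent.Lib.NIL

open Finsupp XP

namespace AC3b

variable {G K : Type} [Group G] [MulAction G K] {n : ℕ}

theorem lc_mem {K M : Type} [AddCommGroup M] (U : Submodule ℤ M) {f : K → M} {v : K →₀ ℤ}
    (h : ∀ c, v c ≠ 0 → f c ∈ U) : linearCombination ℤ f v ∈ U := by
  rw [linearCombination_apply]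
  exact Submodule.sum_mem _ fun c hc => U.smul_mem _ (h c (mem_support_iff.1 hc))

theorem fin_ex {Z : Type} {N : ℕ} (A : ACx G K (n + 1)) (B : ACx G (XP G K Z) N)
    (hA : A.Ex Set.univ) (hc : A.Cone n) (z w : G × Z → K →₀ ℤ)
    (hb : B.b = old A.b) (h1 : ∀ k, B.bd (old k) = io G Z (A.bd k))
    (h2 : ∀ p : G × Z, B.bd (lo p.1 p.2) = io G Z (z p))
    (h3 : ∀ p : G × Z, B.bd (hi p.1 p.2) = single (lo p.1 p.2) 1 - io G Z (w p))
    (eJ : ∀ u, B.E (io G Z u) = A.E u)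
    (hz : ∀ h ∈ cyc A Set.univ n, ∃ p, z p = h) (F : Set (XP G K Z)) (hF : F.Finite) :
    ∃ S : Set (XP G K Z), S.Finite ∧ F ⊆ S ∧ B.Ex S := by
  classical
  let L : G × Z → XP G K Z := fun p => lo p.1 p.2
  let H : G × Z → XP G K Z := fun p => hi p.1 p.2
  let P : Set (G × Z) := L ⁻¹' F ∪ H ⁻¹' F
  have hP : P.Finite :=
    (hF.preimage fun p _ p' _ e => Prod.ext (lo.inj e).1 (lo.inj e).2).union
      (hF.preimage fun p _ p' _ e => Prod.ext (hi.inj e).1 (hi.inj e).2)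
  obtain ⟨S1, ι, hι, h, s1, s2, s3, s4, s5, s6⟩ := exists_sub A hA hc
    (insert A.b (old ⁻¹' F ∪ ⋃ p ∈ P, ((z p).support ∪ (w p).support : Set K)))
    (((hF.preimage old_inj.injOn).union (hP.biUnion fun p _ =>
      (Finset.finite_toSet _).union (Finset.finite_toSet _))).insert _)
  choose q hq using fun i => hz (h i) ((mem_cyc A).2
    ⟨fun c e => ⟨trivial, (((mem_cyc A).1 (s4 i)).1 c e).2⟩, ((mem_cyc A).1 (s4 i)).2⟩)
  have zP : ∀ p ∈ P, z p ∈ supported ℤ ℤ S1 := fun p hp => mem_sup'.2 fun c e =>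
    s2 (Or.inr (Or.inr (Set.mem_iUnion₂.2 ⟨p, hp, Or.inl (mem_support_iff.2 e)⟩)))
  have wP : ∀ p ∈ P, w p ∈ supported ℤ ℤ S1 := fun p hp => mem_sup'.2 fun c e =>
    s2 (Or.inr (Or.inr (Set.mem_iUnion₂.2 ⟨p, hp, Or.inr (mem_support_iff.2 e)⟩)))
  let S : Set (XP G K Z) := old '' S1 ∪ (L '' P ∪ (H '' P ∪ Set.range fun i => L (q i)))
  have hJ : ∀ u ∈ supported ℤ ℤ S1, io G Z u ∈ supported ℤ ℤ S := fun u hu =>
    supported_comap_lmapDomain ℤ ℤ old S (supported_mono (fun k hk => Or.inl ⟨k, hk, rfl⟩) hu)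
  have hL : ∀ p ∈ P, L p ∈ S := fun p hp => Or.inr (Or.inl ⟨p, hp, rfl⟩)
  have hH : ∀ p ∈ P, H p ∈ S := fun p hp => Or.inr (Or.inr (Or.inl ⟨p, hp, rfl⟩))
  have cs : ∀ x ∈ S, (∃ k ∈ S1, x = old k) ∨ (∃ p ∈ P, x = L p) ∨
      (∃ p ∈ P, x = H p) ∨ ∃ i, q i ∉ P ∧ x = L (q i) := by
    rintro _ (⟨k, hk, rfl⟩ | ⟨p, hp, rfl⟩ | ⟨p, hp, rfl⟩ | ⟨i, rfl⟩)
    · exact Or.inl ⟨k, hk, rfl⟩
    · exact Or.inr (Or.inl ⟨p, hp, rfl⟩)
    · exact Or.inr (Or.inr (Or.inl ⟨p, hp, rfl⟩))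
    · by_cases e : q i ∈ P
      exacts [Or.inr (Or.inl ⟨_, e, rfl⟩), Or.inr (Or.inr (Or.inr ⟨i, e, rfl⟩))]
  refine ⟨S, (s1.image _).union ((hP.image _).union ((hP.image _).union (Set.finite_range _))),
    ?_, hb ▸ Or.inl ⟨_, s2 (Or.inl rfl), rfl⟩, fun x hx => mem_sup'.1 ?_, fun ζ z1 z2 z3 => ?_⟩
  · rintro (k | ⟨g, j⟩ | ⟨g, j⟩) hx
    exacts [Or.inl ⟨k, s2 (Or.inr (Or.inl hx)), rfl⟩, hL (g, j) (Or.inl hx), hH (g, j) (Or.inr hx)]
  · obtain ⟨k, hk, rfl⟩ | ⟨p, hp, rfl⟩ | ⟨p, hp, rfl⟩ | ⟨i, -, rfl⟩ := cs x hx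
    · exact h1 k ▸ hJ _ (mem_sup'.2 (s3 k hk))
    · exact h2 p ▸ hJ _ (zP p hp)
    · exact h3 p ▸ sub_mem (single_mem_supported ℤ _ (hL p hp)) (hJ _ (wP p hp))
    · exact h2 _ ▸ hJ _ (hq i ▸ mem_sup'.2 fun c e => (((mem_cyc A).1 (s4 i)).1 c e).1)
  let ρ : XP G K Z → K →₀ ℤ := fun x => match x with
    | old k => single k 1
    | lo g j => if (g, j) ∈ P then w (g, j) else 0
    | hi _ _ => 0
  let σ : XP G K Z → XP G K Z →₀ ℤ := fun x => match x with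
    | old _ => 0
    | lo g j => if (g, j) ∈ P then single (hi g j) 1 else 0
    | hi _ _ => 0
  let α : XP G K Z → ι →₀ ℤ := fun x => match x with
    | old _ => 0
    | lo g j => if e : (g, j) ∉ P ∧ ∃ i, q i = (g, j) then single e.2.choose 1 else 0
    | hi _ _ => 0
  let C := linearCombination ℤ fun i => (single (L (q i)) 1 : XP G K Z →₀ ℤ)
  have σJ : ∀ u, linearCombination ℤ σ (io G Z u) = 0 := fun u =>
    AC4.map_eq (f := linearCombination ℤ σ ∘ₗ io G Z) (g := 0) fun c _ => by simp [σ, io_single]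
  have bJ : ∀ u, B.D (io G Z u) = io G Z (A.D u) := fun u =>
    AC4.map_eq (f := B.D ∘ₗ io G Z) (g := io G Z ∘ₗ A.D) fun c _ => by simp [h1, io_single]
  have bC : ∀ a, B.D (C a) = io G Z (linearCombination ℤ h a) :=
    fun a => AC4.map_eq (f := B.D ∘ₗ C) (g := io G Z ∘ₗ linearCombination ℤ h) fun c _ => by
      simp [C, L, h2, hq]
  have key : ζ = io G Z (linearCombination ℤ ρ ζ) + B.D (linearCombination ℤ σ ζ) +
      linearCombination ℤ σ (B.D ζ) + C (linearCombination ℤ α ζ) := by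
    refine AC4.map_eq (f := LinearMap.id) (g := io G Z ∘ₗ linearCombination ℤ ρ +
      B.D ∘ₗ linearCombination ℤ σ + linearCombination ℤ σ ∘ₗ B.D +
      C ∘ₗ linearCombination ℤ α) fun x hx => ?_
    simp only [LinearMap.id_apply, LinearMap.add_apply, LinearMap.comp_apply,
      linearCombination_single, one_smul]
    obtain ⟨k, hk, rfl⟩ | ⟨p, hp, rfl⟩ | ⟨p, hp, rfl⟩ | ⟨i, hi, rfl⟩ := cs x (z1 x hx)
    · rw [h1, σJ]
      simp [ρ, σ, α, io_single]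
    · rw [h2, σJ]
      simp [ρ, σ, α, L, hp, h3]
    · rw [h3, map_sub, σJ]
      simp [ρ, σ, α, H, hp]
    · have e : q i ∉ P ∧ ∃ j, q j = q i := ⟨hi, i, rfl⟩
      rw [h2, σJ, show α (L (q i)) = single e.2.choose 1 from dif_pos e]
      simp [ρ, σ, hi, C, L, e.2.choose_spec]
  have hρ : linearCombination ℤ ρ ζ ∈ supported ℤ ℤ S1 := lc_mem _ fun x hx => by
    obtain ⟨k, hk, rfl⟩ | ⟨p, hp, rfl⟩ | ⟨p, hp, rfl⟩ | ⟨i, hi, rfl⟩ := cs x (z1 x hx)
    · exact single_mem_supported ℤ _ hk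
    · rw [show ρ (L p) = w p from if_pos hp]
      exact wP p hp
    · exact zero_mem _
    · rw [show ρ (L (q i)) = 0 from if_neg hi]
      exact zero_mem _
  have hσ : linearCombination ℤ σ ζ ∈ supported ℤ ℤ S := lc_mem _ fun x _ => by
    obtain k | ⟨g, j⟩ | ⟨g, j⟩ := x
    · exact zero_mem _
    · show ite _ _ _ ∈ _
      split_ifs with e
      exacts [single_mem_supported ℤ _ (hH _ e), zero_mem _]
    · exact zero_mem _
  rw [show B.D ζ = 0 from z2, map_zero, add_zero] at key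
  generalize linearCombination ℤ ρ ζ = u at key hρ
  generalize linearCombination ℤ σ ζ = s at key hσ
  generalize linearCombination ℤ α ζ = a at key
  subst key
  rw [map_add, map_add, B.D_D, add_zero, bJ, bC, ← map_add, ← map_zero (io G Z)] at z2
  replace z2 := io_inj z2
  obtain rfl := s6 a ⟨-u, neg_mem hρ, by rw [map_neg, neg_eq_iff_add_eq_zero, z2]⟩
  rw [map_zero, add_zero] at z2
  rw [map_zero, add_zero, map_add, B.E_D, add_zero, eJ] at z3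
  obtain ⟨b, v, hv, e⟩ := s5 u (mem_sup'.1 hρ) z2 z3
  refine ⟨io G Z v + C b + s, mem_sup'.1 (add_mem (add_mem (hJ v hv) (lc_mem _ fun i _ =>
    single_mem_supported ℤ _ (Or.inr (Or.inr (Or.inr ⟨i, rfl⟩))))) hσ), ?_⟩
  rw [map_add, map_add, bJ, bC, ← map_add, e, sub_add_cancel, map_zero, add_zero]

end AC3b

theorem st_ac3b : St_AC3b := by
  intro G K _ _ _ _ n A hA hc
  refine ⟨XP G K {u : K →₀ ℤ // A.Hg (n + 1) u}, inferInstance,
    cx A n Subtype.val (fun j => j.2) (Nat.le_succ _) le_rfl, inferInstance,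
    AC3b.fin_ex A _ hA hc (fun p => ACx.tr p.1 (A.D p.2.1)) (fun p => ACx.tr p.1 p.2.1) rfl
      (fun _ => rfl) (fun _ => rfl) (fun _ => rfl) (ep_io A) fun h hh => ?_, stab_le A.b⟩
  obtain ⟨h1, h2, h3⟩ := (AC3b.mem_cyc A).1 hh
  obtain ⟨w, w1, -, w2⟩ := hA.fill (fun c e => (h1 c e).2) (fun _ _ => trivial) h2 h3
  exact ⟨(1, ⟨w, w1⟩), (ACx.tr_one _).trans w2⟩

end Pool.Agent.Lib.NIL
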