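import Pool.Agent.Lib.NIL.Blue3

/-! AC4: a complex with cofinal finite acyclic subcomplexes is a system of cells. -/

noncomputable section

namespace Pool.Agent.Lib.NIL

open Finsupp

namespace AC4

variable {G K : Type} [Group G] [MulAction G K] {n : ℕ} (A : ACx G K n)

theorem map_eq {M : Type} [AddCommGroup M] {f g : (K →₀ ℤ) →ₗ[ℤ] M} {v : K →₀ ℤ}
    (h : ∀ c, v c ≠ 0 → f (single c 1) = g (single c 1)) : f v = g v := by
  rw [← v.sum_single, map_finsuppSum, map_finsuppSum]
  refine Finsupp.sum_congr fun c hc => ?_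
  rw [← mul_one (v c), ← smul_eq_mul, ← smul_single, map_smul, map_smul, h c (mem_support_iff.1 hc)]

theorem lc_supp {f : K → K →₀ ℤ} {v : K →₀ ℤ} {e : K} (h : linearCombination ℤ f v e ≠ 0) :
    ∃ c, v c ≠ 0 ∧ f c e ≠ 0 := by
  rw [linearCombination_apply, Finsupp.sum_apply] at h
  obtain ⟨c, hc, h⟩ := Finset.exists_ne_zero_of_sum_ne_zero h
  exact ⟨c, mem_support_iff.1 hc, fun h0 => h (by simp [h0])⟩

theorem dim_b : A.dim A.b = 0 := A.eps_supp _ (by rw [A.eps_b]; exact one_ne_zero)

theorem bd_b : A.bd A.b = 0 := by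
  ext e
  by_contra h
  have := A.bd_supp _ _ h
  rw [dim_b] at this
  omega

theorem bd_filter (d : ℕ) (w : K →₀ ℤ) :
    linearCombination ℤ A.bd (w.filter fun c => A.dim c = d + 1) =
      (linearCombination ℤ A.bd w).filter fun c => A.dim c = d := by
  induction w using Finsupp.induction_linear with
  | zero => rw [map_zero, filter_zero, filter_zero, map_zero]
  | add x y hx hy => rw [filter_add, map_add, map_add, filter_add, hx, hy]
  | single c k =>
    rw [linearCombination_single]
    by_cases h : A.dim c = d + 1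
    · rw [filter_single_of_pos (fun c => A.dim c = d + 1) h, linearCombination_single, eq_comm,
        filter_eq_self_iff]
      intro e he
      have := A.bd_supp c e fun h0 => he (by simp [h0])
      omega
    · rw [filter_single_of_neg (fun c => A.dim c = d + 1) h, map_zero, eq_comm, filter_eq_zero_iff]
      intro e he
      by_contra h1
      have := A.bd_supp c e fun h0 => h1 (by simp [h0])
      omega

/-- the contraction `s` is correct at the cell `c` -/
def Ok (S : ℕ → Set K) (s : K → K →₀ ℤ) (c : K) : Prop :=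
  (∀ e, s c e ≠ 0 → A.dim e = A.dim c + 1 ∧ ∀ m, c ∈ S m → e ∈ S m) ∧
    linearCombination ℤ A.bd (s c) + linearCombination ℤ s (A.bd c) =
      single c 1 - single A.b (A.eps c)

theorem eps_zero {v : K →₀ ℤ} (h : ∀ e, v e ≠ 0 → A.dim e ≠ 0) :
    linearCombination ℤ A.eps v = 0 :=
  map_eq (g := 0) fun e he => by
    by_contra h0
    exact h e he (A.eps_supp e (by simpa using h0))

theorem step {S : ℕ → Set K} (hS : Monotone S) (hE : ∀ m, A.Ex (S m)) (hU : ∀ c, ∃ m, c ∈ S m)
    {s : K → K →₀ ℤ} (c : K) (h : ∀ e, A.bd c e ≠ 0 → Ok A S s e) :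
    ∃ w : K →₀ ℤ, (∀ e, w e ≠ 0 → A.dim e = A.dim c + 1 ∧ ∀ m, c ∈ S m → e ∈ S m) ∧
      linearCombination ℤ A.bd w + linearCombination ℤ s (A.bd c) =
        single c 1 - single A.b (A.eps c) := by
  classical
  have hc := Nat.find_spec (hU c)
  have hz : ∀ e, (single c 1 - single A.b (A.eps c) - linearCombination ℤ s (A.bd c) : K →₀ ℤ) e
      ≠ 0 → A.dim e = A.dim c ∧ e ∈ S (Nat.find (hU c)) := fun e he => by
    by_cases h1 : e = c
    · rw [h1]
      exact ⟨rfl, hc⟩
    by_cases h2 : single A.b (A.eps c) e = 0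
    · obtain ⟨x, hx, hx'⟩ := lc_supp (f := s) (v := A.bd c) (e := e) fun h0 => he (by
        rw [Finsupp.sub_apply, Finsupp.sub_apply, h0, h2, single_eq_of_ne h1]
        rfl)
      exact ⟨((h x hx).1 e hx').1.trans (A.bd_supp c x hx),
        ((h x hx).1 e hx').2 _ ((hE _).2.1 c hc x hx)⟩
    · obtain ⟨rfl, h3⟩ := single_apply_ne_zero.1 h2
      exact ⟨(dim_b A).trans (A.eps_supp c h3).symm, (hE _).1⟩
  have h1 : linearCombination ℤ A.bd (linearCombination ℤ s (A.bd c)) = A.bd c := by
    have := map_eq (f := linearCombination ℤ A.bd ∘ₗ linearCombination ℤ s +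
      linearCombination ℤ s ∘ₗ linearCombination ℤ A.bd)
      (g := LinearMap.id - lsingle A.b ∘ₗ linearCombination ℤ A.eps) (v := A.bd c) fun e he => by
        simpa using (h e he).2
    simpa [A.bd_bd, A.eps_bd] using this
  obtain ⟨w, hw, hw'⟩ := (hE (Nat.find (hU c))).2.2 _ (fun e he => (hz e he).2)
    (by simp [h1, bd_b]) (by
      rw [map_sub, eps_zero A (v := linearCombination ℤ s (A.bd c)) fun e he => by
        obtain ⟨x, hx, hx'⟩ := lc_supp he
        have := ((h x hx).1 e hx').1
        omega]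
      simp [A.eps_b])
  refine ⟨w.filter fun e => A.dim e = A.dim c + 1, fun e he => ?_, ?_⟩
  · rw [filter_apply] at he
    split_ifs at he with h2
    · exact ⟨h2, fun m hm => hS (Nat.find_min' _ hm) (hw e he)⟩
    · exact absurd rfl he
  · rw [bd_filter, hw', (filter_eq_self_iff _ _).2 fun e he => (hz e he).1, sub_add_cancel]

theorem exists_s {S : ℕ → Set K} (hS : Monotone S) (hE : ∀ m, A.Ex (S m))
    (hU : ∀ c, ∃ m, c ∈ S m) (d : ℕ) : ∃ s : K → K →₀ ℤ, ∀ c, A.dim c < d → Ok A S s c := by
  classical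
  induction d with
  | zero => exact ⟨0, fun _ h => absurd h (Nat.not_lt_zero _)⟩
  | succ d ih =>
    obtain ⟨s, hs⟩ := ih
    choose w hw using fun (c : K) (hc : A.dim c = d) => step A hS hE hU (s := s) c fun e he =>
      hs e (by have := A.bd_supp c e he; omega)
    refine ⟨fun c => if h : A.dim c = d then w c h else s c, fun c hc => ?_⟩
    have e : linearCombination ℤ (fun c => if h : A.dim c = d then w c h else s c) (A.bd c) =
        linearCombination ℤ s (A.bd c) := map_eq fun e he => by
      have := A.bd_supp c e he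
      rw [linearCombination_single, linearCombination_single, dif_neg (by omega)]
    unfold Ok
    rw [e]
    dsimp only
    split_ifs with h
    · exact hw c h
    · exact hs c (by omega)

theorem exists_chain [Countable K]
    (h : ∀ F : Set K, F.Finite → ∃ S : Set K, S.Finite ∧ F ⊆ S ∧ A.Ex S) :
    ∃ S : ℕ → Set K, Monotone S ∧ (∀ m, (S m).Finite ∧ A.Ex (S m)) ∧ ∀ c, ∃ m, c ∈ S m := by
  have : Nonempty K := ⟨A.b⟩
  obtain ⟨f, hf⟩ := exists_surjective_nat K
  choose! Φ h1 h2 h3 using h
  let S : ℕ → Set K := fun m => Nat.rec (Φ ∅) (fun m T => Φ (insert (f m) T)) m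
  have hfin : ∀ m, (S m).Finite := fun m => by
    induction m with
    | zero => exact h1 _ Set.finite_empty
    | succ m ih => exact h1 _ (ih.insert _)
  refine ⟨S, monotone_nat_of_le_succ fun m =>
    (Set.subset_insert _ _).trans (h2 _ ((hfin m).insert _)), fun m => ⟨hfin m, ?_⟩, fun c => ?_⟩
  · cases m with
    | zero => exact h3 _ Set.finite_empty
    | succ m => exact h3 _ ((hfin m).insert _)
  · obtain ⟨m, rfl⟩ := hf c
    exact ⟨m + 1, h2 _ ((hfin m).insert _) (Set.mem_insert _ _)⟩

end AC4

open AC4 in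
theorem st_ac4 : St_AC4 := by
  intro G K _ _ _ n A h
  obtain ⟨S, hS, hE, hU⟩ := exists_chain A h
  obtain ⟨s, hs⟩ := exists_s A hS (fun m => (hE m).2) hU (n + 1)
  replace hs := fun c => hs c (Nat.lt_succ_of_le (A.dim_le c))
  refine ⟨{
    π := fun _ => ()
    le := Relation.ReflTransGen fun e c => A.bd c e ≠ 0
    rk := fun c => A.dim c
    π_smul := fun _ _ => rfl
    le_refl := fun _ => .refl
    le_trans := fun _ _ _ => .trans
    le_smul := fun g _ _ h => h.lift (g • ·) fun e c h => (A.bd_smul g c e).trans_ne h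
    rk_smul := fun g c => by rw [A.dim_smul]
    π_le := fun _ _ _ => rfl
    rk_lt := fun a b h => by
      induction h with
      | refl => exact .inl rfl
      | tail _ h ih =>
        have := A.bd_supp _ _ h
        rcases ih with rfl | ih <;> right <;> omega
    lab := id
    dg := fun c => -A.dim c
    sgn := fun _ _ => 1
    bd := A.bd
    eps := A.eps
    b := fun _ => A.b
    s0 := s
    lab_smul := fun _ _ => rfl
    dg_smul := fun g c => by rw [A.dim_smul]
    sgn_mul := fun _ _ _ => (one_mul _).symm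
    bd_smul := fun g c e => by simp [A.bd_smul]
    bd_supp := fun c e h => ⟨by have := A.bd_supp c e h; omega, .single h⟩
    bd_bd := A.bd_bd
    eps_smul := fun g c => by simp [A.eps_smul]
    eps_supp := fun c h => by simp [A.eps_supp c h]
    eps_bd := A.eps_bd
    eps_s0 := fun c => eps_zero A fun e he => by have := ((hs c).1 e he).1; omega
    π_b := fun _ => rfl
    eps_b := fun _ => A.eps_b
    bd_b := fun _ => bd_b A
    s0_supp := fun c e h => by have := ((hs c).1 e h).1; omega
    contr := fun c => (hs c).2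
    hull := fun _ F hF _ => ?_ }, fun c => ⟨Int.natCast_nonneg _, Int.ofNat_le.2 (A.dim_le c)⟩⟩
  choose i hi using hU
  obtain ⟨m, hm⟩ := (hF.image i).bddAbove
  exact ⟨S m, (hE m).1, fun c hc => hS (hm ⟨c, hc, rfl⟩) (hi c), (hE m).2.1, fun c hc =>
    ⟨rfl, (hE m).2.2.1 c hc, fun e he => ((hs c).1 e he).2 m hc⟩⟩

end Pool.Agent.Lib.NIL
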