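import Pool.Agent.Lib.NIL.Blue
import Pool.Agent.Lib.NIL.A7

/-! CELL: the property `P` passes to a cell attachment. -/

namespace Pool.Agent.Lib.NIL

open Finsupp TensorProduct Polynomial

namespace CELL

variable {R E Λ O : Type} [Ring R] [Ring E] {S : Sys R E Λ O} {Rf : O → O → AddSubgroup R}
  {K : Cell Λ} {j : ℤ}

theorem homF (h : S.IsCell Rf K j) (hj : 0 ≤ j) :
    IsHomF (S.tri Rf K) (bcat Rf) S.aug Prod.fst where
  mem ha := (h.sys.homF_aug hj).mem (h.tri_le _ _ _ ha)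
  one := (h.sys.homF_aug hj).one
  mul ha hb := (h.sys.homF_aug hj).mul (h.tri_le _ _ _ ha) (h.tri_le _ _ _ hb)
  d ha := (h.sys.homF_aug hj).d (h.tri_le _ _ _ ha)

theorem hom_true (h : S.IsCell Rf K j) {Y : Raw E (O × Bool)} (hY : ∀ i, ¬ (Y.lab i).2 = false)
    {k : ℤ} {f : Lin Y Y} (hf : (S.tri Rf K).Hom k Y Y f) :
    ((S.sub K.inE).cat Rf).Hom k (Y.relab Prod.fst) (Y.relab Prod.fst) f := by
  intro i i'
  have e : ∀ i, Y.lab i = ((Y.lab i).1, true) := fun i =>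
    Prod.ext rfl (Bool.eq_true_of_not_eq_false (hY i))
  have := hf i i'
  rw [e i, e i', h.tri_true] at this
  exact this

theorem sub_le (k : ℤ) (o o' : O) : ((S.sub K.inE).cat Rf).H k o o' ≤ (S.cat Rf).H k o o' := by
  change (S.sub K.inE).Sp Rf (fun l => S.deg l = k) o o' ≤ S.Sp Rf (fun l => S.deg l = k) o o'
  rw [Sys.Sp_sub]
  exact Sys.Sp_mono fun _ _ h => h.1

/-- the two diagonal blocks of an object over the triangular family -/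
theorem parts (h : S.IsCell Rf K j) (hj : 0 ≤ j) {X : Raw E (O × Bool)}
    (hX : (S.tri Rf K).Obj X) (hf : X.Fin1) {z : E} (hn : (S.tri Rf K).Nul z X) :
    ∃ (Xa : Raw R O) (Xb : Raw E O), (bcat Rf).Obj Xa ∧ Xa.Fin1 ∧ (bcat Rf).Nul (S.aug z) Xa ∧
      ((S.sub K.inE).cat Rf).Obj Xb ∧ Xb.Fin1 ∧ ((S.sub K.inE).cat Rf).Nul z Xb ∧
      (S.cat Rf).SES (Xa.mapA S.i.toAddMonoidHom id) (X.relab Prod.fst) Xb := by
  have hT := h.tri_good
  obtain ⟨hc, ha, hb⟩ := hT.nul_res (fun o => o.2 = false) (by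
    rintro k ⟨o, b⟩ ⟨o', b'⟩ a rfl h2 h3
    obtain rfl : b' = true := Bool.eq_true_of_not_eq_false h2
    exact h.tri_zero h3) hX hn
  have hs := hT.ses_res hX hc
  have hF := (homF h hj).isFn hT h.sys.bas.good
  have hL := (relab_isFn (C := S.tri Rf K) (C₁ := S.cat Rf) (l := Prod.fst) rfl h.tri_le).ses hs
  have e : ((X.res fun i => (X.lab i).2 = false).mapA S.aug Prod.fst).mapA S.i.toAddMonoidHom id =
      (X.res fun i => (X.lab i).2 = false).relab Prod.fst := by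
    rw [Raw.mapA_mapA, ← Raw.mapA_id]
    refine congrArg (Raw.mk _ _ _) (mapL_congr fun i k => ?_)
    have h1 := hs.1.1 i k
    have e : ∀ i : {i // (X.lab i).2 = false}, X.lab i.1 = ((X.lab i.1).1, false) := fun i =>
      Prod.ext rfl i.2
    change _ ∈ (S.tri Rf K).H _ (X.lab i.1) (X.lab k.1) at h1
    rw [e i, e k] at h1
    exact (h.tri_false h1).2
  refine ⟨(X.res fun i => (X.lab i).2 = false).mapA S.aug Prod.fst,
    (X.res fun i => ¬ (X.lab i).2 = false).relab Prod.fst, hF.obj hs.1, (hf.res _).mapA _ _,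
    hF.nul hs.1 (mapL_scal _ _ _) ha,
    obj_of_hom rfl hs.2.2.1 (hom_true h Subtype.property hs.2.2.1.1), hf.res _, ?_, e ▸ hL⟩
  obtain ⟨k, h1, h2⟩ := hb
  exact ⟨k, hom_true (Y := X.res fun i => ¬ (X.lab i).2 = false) h Subtype.property h1, h2⟩

theorem hat_mono {L M E'' N : Type} [Ring E''] {C : Cat E L} {T : Cat E M} {jl : M → L}
    {C'' : Cat E'' N} {Bm : BM E'' N E M Bool} {Z Z' : Set E} {V : Raw E L} (hZ : Z' ⊆ Z)
    (h : Hat C T jl C'' Bm Z V) : Hat C T jl C'' Bm Z' V := by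
  obtain ⟨X, p, W, h1, h2, h3, h4, h5, h6, h7, h8, h9⟩ := h
  exact ⟨X, p, W, h1, h2, h3, h4, h5, h6, h7, fun z hz => h8 z (hZ hz), h9⟩

/-- the lift of an object killed by `X` to the triangular family -/
theorem lift (hE : St_EPP) (hC : St_CPK) (hV : St_VH) (hK : St_KEY) (h : S.IsCell Rf K j)
    (hj : 0 ≤ j) {A B : Type} [CommRing A] [CommRing B] [Algebra A[X] B]
    [IsLocalization (Mon A) B] (hL : Lev Rf B (j + 1))
    {V : Raw (A[X] ⊗[ℤ] E) O} (hO : ((S.cat Rf).bc A[X]).Obj V) (hf : V.Fin1)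
    (hn : ((S.cat Rf).bc A[X]).Nul ((X : A[X]) ⊗ₜ 1) V) :
    ∃ Y, ((S.tri Rf K).bc A[X]).Obj Y ∧ Y.Fin1 ∧
      (∃ g ∈ Mon A, ((S.tri Rf K).bc A[X]).Nul (g ⊗ₜ 1) Y) ∧
      ((S.cat Rf).bc A[X]).Eqv (Y.relab Prod.fst) V := by
  obtain ⟨E'', Λ'', _, S'', Bm, ent, emb, hp⟩ := hE R E Λ O S Rf K j h hj
  have hb := (hC R E Λ O E'' Λ'' S Rf K j S'' Bm ent emb h hj hp).2
  have h1 := (hC _ _ Λ O _ Λ'' _ _ K j _ _ _ _ (h.bc B) hj (hb B)).1
  rw [h.sys.tri_bc, hp.sys.cat_bc, ← bcat_bc, Sys.aug_bc] at h1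
  have h2 := hV _ _ Λ O _ Λ'' _ _ K j _ _ _ _ (h.bc A[X]) hj (hb A[X]) V
    (by rwa [h.sys.cat_bc]) hf
  rw [h.sys.tri_bc, hp.sys.cat_bc, h.sys.cat_bc] at h2
  refine hK E O (O × Bool) E'' O R _ _ _ _ _ _ _ Bm ent hp.loc A[X] B (Mon A) h1
    (hL E'' Λ'' S'' hp.sys) V hO (hat_mono ?_ h2) ⟨X, monic_X, hn⟩
  rintro _ ⟨b, rfl⟩
  refine ⟨(h.sys.good.cen_tmul b).1, b ⊗ₜ 1, ?_⟩
  change _ = (S.bc A[X]).i.toAddMonoidHom (b ⊗ₜ 1)
  rw [Sys.lT_i, lT_tmul]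
  exact congrArg _ (map_one S.i).symm

/-- the end of the argument, after forgetting the variable -/
theorem fin {L : Type} {C C₁ : Cat E L} {C₀ : Cat R L} {I : R →+ E} {U : E →+ R}
    (h : Aug j C C₀ I U) (h₁ : Aug j C₁ C₀ I U) (hj : 1 ≤ j) (hd : C.d = C₁.d)
    (hle : ∀ k o o', C₁.H k o o' ≤ C.H k o o') (hP : C₁.P) {a : Raw R L} {b Y M : Raw E L}
    (ha : C₀.Obj a) (ha1 : a.Bdd) (ha2 : C₀.InO (a.sum a.sh)) (ha3 : C₀.Perf a)
    (hb : C₁.Obj b) (hb1 : b.Bdd) (hb3 : C₁.Perf b) (hs : C.SES (a.mapA I id) Y b)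
    (hM : C.Obj M) (hf : Finite M.ι) (e : C.Eqv Y M) : C.InO M := by
  have hU := h.hU.isFn h.good h.good₀
  have hI := h₁.hI.isFn h.good₀ h₁.good
  have h1 : C₀.InO (M.mapA U id) := h.good₀.inO_of_fin1 (hU.obj hM)
    (h.good₀.fin1_of_zero (fun _ _ _ _ => h.zero₀) (hU.obj hM) hf)
  have h2 : C₀.InO (Y.mapA U id) := h.good₀.inO_of_eqv (hU.eqv hs.2.1 hM e) h1
  have h3 : C₀.SES ((a.mapA I id).mapA U id) (Y.mapA U id) (b.mapA U id) := hU.ses hs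
  rw [h.mapA_UI] at h3
  have h4 := (h.good₀.swap h3 ha2).1 h2
  have h5 : C₁.InO ((a.mapA I id).sum b) := by
    refine h₁.inO_of_P hj hP (h₁.good.obj_sum (hI.obj ha) hb)
      (Raw.Bdd.ext (A := a.mapA I id) ha1 hb1 _)
      (Or.inl (h₁.good.perf_sum (hI.perf (fun W _ hW => hW.mapA _ _) ha ha3) hb3)) ?_
    rwa [Raw.mapA_sum, h.mapA_UI]
  have h6 : C.InO ((a.mapA I id).sum b) := relab_inO (l := id) hd hle h5
  have h7 := h.hI.inO h.good₀ h.good (h.good₀.obj_sum ha (Cat.obj_sh.2 ha)) ha2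
  rw [Raw.mapA_sum, Raw.mapA_sh] at h7
  exact h.good.inO_of_eqv e.symm ((h.good.swap hs h7).2 h6)

end CELL

open CELL in
theorem st_cell (hE : St_EPP) (hC : St_CPK) (hV : St_VH) (hK : St_KEY) : St_CELL := by
  intro R E Λ O _ _ S Rf K j A _ h hj hP hL M hM hf hp
  have hj0 : 0 ≤ j := by omega
  have hG := h.sys.good
  obtain ⟨V, hO, hV1, hn, e⟩ := hG.ret hM hp
  obtain ⟨Y, hY, hY1, ⟨g, hg, hYn⟩, e'⟩ := lift hE hC hV hK h hj0 hL hO hV1 hn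
  rw [← h.sys.tri_bc] at hY hYn
  obtain ⟨a, b, ha, ha1, ha2, hb, hb1, hb2, hs⟩ := parts (h.bc A[X]) hj0 hY hY1 hYn
  rw [← bcat_bc] at ha ha2
  rw [← Sys.sub_bc, h.sub.cat_bc] at hb hb2
  rw [h.sys.cat_bc, Sys.lT_i] at hs
  rw [Sys.aug_bc, lT_tmul, (h.sys.homF_aug hj0).one] at ha2
  have h0 := h.sys.bas.good
  obtain ⟨a1, a2⟩ := h0.fn ha ha1 hg ha2
  obtain ⟨-, b2⟩ := h.sub.good.fn hb hb1 hg hb2
  have hF := hG.flat_isFn A
  have hs' := hF.ses hs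
  rw [flat_mapA] at hs'
  exact fin ((h.sys.aug' hj).bc A) ((h.sub.aug' hj).bc A) hj rfl
    (fun k o o' => bcF_mono (sub_le k o o')) hP ((h0.flat_isFn A).obj ha)
    (flat_bdd (Raw.bdd_of_finite ha1.1)) a1 a2 ((h.sub.good.flat_isFn A).obj hb)
    (flat_bdd (Raw.bdd_of_finite hb1.1)) b2 hs' hM hf
    ((hG.bc A).eqv_trans (hF.eqv hs.2.1 hO e') e)

end Pool.Agent.Lib.NIL
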