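import Pool.Agent.Lib.NIL.Blue
import Pool.Agent.Lib.NIL.A7

/-! CPK: finiteness of the kernel and base change for the cell package. -/

namespace Pool.Agent.Lib.NIL

open Finsupp TensorProduct

namespace CPK

variable {R E Λ O E'' Λ'' : Type} [Ring R] [Ring E] [Ring E''] {S : Sys R E Λ O}
  {Rf : O → O → AddSubgroup R} {K : Cell Λ} {j : ℤ} {S'' : Sys R E'' Λ'' O}
  {Bm : BM E'' O E (O × Bool) Bool} {ent : Bool → Bool → E'' →+ E} {emb : E →+ E''}

/-- the augmentation on the triangular family -/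
theorem homF_tri (h : S.IsCell Rf K j) (hj : 0 ≤ j) :
    IsHomF (S.tri Rf K) (bcat Rf) S.aug Prod.fst where
  mem ha := (h.sys.homF_aug hj).mem (h.tri_le _ _ _ ha)
  one := (h.sys.homF_aug hj).one
  mul ha hb := (h.sys.homF_aug hj).mul (h.tri_le _ _ _ ha) (h.tri_le _ _ _ hb)
  d ha := (h.sys.homF_aug hj).d (h.tri_le _ _ _ ha)

theorem finK (h : S.IsCell Rf K j) (hj : 0 ≤ j) (c : CPk S Rf K j S'' Bm ent emb) :
    FinK (S.tri Rf K) (S''.cat Rf) (bcat Rf) S''.aug Bm := by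
  classical
  intro Y W θ hW hY hX hc
  have hT := h.tri_good
  have h0 := h.sys.bas.good
  have F := (homF_tri h hj).isFn hT h0
  obtain ⟨cl, n1, -⟩ := hT.nul_res (fun o => o.2 = false) (fun k o o' a q1 q2 ha => by
    obtain ⟨o, s⟩ := o
    obtain ⟨o', s'⟩ := o'
    obtain rfl : s = false := q1
    obtain rfl : s' = true := by simpa using q2
    exact h.tri_zero ha) hX (Cat.nul_one.2 hc)
  have o1 := (hT.ses_res hX cl).1
  have cl2 : ((Y.ext (W.bm Bm) θ).res
      fun i => ((Y.ext (W.bm Bm) θ).lab i).2 = false).Closed fun i => i.1.isLeft := by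
    intro i i' hi hne
    rw [Raw.res_δ] at hne
    exact Raw.ext_closed θ i.1 i'.1 hi hne
  have ses := F.ses (hT.ses_res o1 cl2)
  have fin : Finite {i : {i : Y.ι ⊕ W.ι × Bool //
      ((Y.ext (W.bm Bm) θ).lab i).2 = false} // i.1.isLeft} := by
    have := hY.1
    refine Finite.of_injective (fun i => i.1.1.getLeft i.2) fun a b e => ?_
    refine Subtype.ext (Subtype.ext ?_)
    rw [← Sum.inl_getLeft a.1.1 a.2, ← Sum.inl_getLeft b.1.1 b.2]
    exact congrArg Sum.inl e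
  have i1 := h0.ses_inO_right ses ⟨_, ses.1, h0.fin1_of_zero
    (fun k _ _ a hk ha => by_contra fun n => hk ((mem_bcat.1 ha).2 n)) ses.1 fin, h0.eqv_refl⟩
    (h0.inO_of_ctr (F.ctr o1 (Cat.nul_one.1 n1)))
  let f : W.ι → {i : {i : Y.ι ⊕ W.ι × Bool //
      ((Y.ext (W.bm Bm) θ).lab i).2 = false} // ¬ i.1.isLeft} :=
    fun w => ⟨⟨Sum.inr (w, false), congrArg Prod.snd (c.lb _ _)⟩, by simp⟩
  have hf : Function.Bijective f := by
    refine ⟨fun a b e => ?_, ?_⟩
    · exact congrArg Prod.fst (Sum.inr_injective (congrArg (fun i => i.1.1) e))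
    · rintro ⟨⟨y | ⟨w, b⟩, h1⟩, h2⟩
      · simp at h2
      · obtain rfl : b = false := (congrArg Prod.snd (c.lb (W.lab w) b)).symm.trans h1
        exact ⟨w, rfl⟩
  refine h0.inO_of_eqv (h0.eqv_rx ⟨Equiv.ofBijective f hf, fun w => ?_, fun w => ?_,
    fun w w' => ?_⟩) i1
  · exact (congrArg (W.deg w + ·) c.loc.dg0).trans (add_zero _)
  · exact congrArg Prod.fst (c.lb _ _)
  · rw [mapL_single, mapL_single, Raw.res_δ, Raw.res_δ]
    refine (congrArg S.aug ((Raw.ext_rr θ (w, false) (w', false)).trans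
      (bm_δ c.loc.bm.act_zero w w' false false))).trans ?_
    rw [c.loc.Δ0, Finsupp.zero_apply, smul_zero, ite_self, add_zero, c.loc.act,
      c.ent_ff _ _ _ _ (hW.1 w w'), h.sys.aug_i]

theorem bc (h1 : St_SIMP) (h : S.IsCell Rf K j) (c : CPk S Rf K j S'' Bm ent emb) (B : Type)
    [CommRing B] : CPk (S.bc B) (fun o o' => bcF B (Rf o o')) K j (S''.bc B) (Bm.bc ent B)
      (fun b b' => lT B (ent b b')) (lT B emb) where
  sys := c.sys.bc B
  loc := by
    rw [h.sys.cat_bc, h.sys.tri_bc, c.sys.cat_bc, ← bcat_bc, Sys.lT_i, Sys.aug_bc]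
    exact h1.2.2 _ _ _ _ _ _ _ _ _ _ _ _ _ _ _ c.loc B
  lb := c.lb
  ent_i r b b' := by
    induction r with
    | zero => simp
    | tmul x r =>
      rw [Sys.i_bc, Sys.i_bc, lT_tmul, c.ent_i]
      split_ifs <;> simp
    | add x y hx hy =>
      rw [map_add, map_add, hx, hy, map_add]
      split_ifs <;> simp
  ent_ff k o o' a ha := by
    rw [c.sys.cat_bc] at ha
    rw [Sys.aug_bc]
    refine bcF_induction (p := fun a => lT B (ent false false) a = (S.bc B).i (lT B S''.aug a)) ha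
      (fun x e he => ?_) (by simp) fun x y _ _ hx hy => ?_
    · rw [lT_tmul, lT_tmul, Sys.i_bc, c.ent_ff _ _ _ _ he]
    · rw [map_add, map_add, map_add, hx, hy]
  emb_mem k o o' a ha := by
    rw [h.sys.Sp_bc] at ha
    rw [c.sys.cat_bc]
    exact lT_mem_bcF (c.emb_mem k o o') ha
  ent_tf := DFunLike.congr_fun (Sys.hom_ext_bc (f := (lT B (ent true false)).comp (lT B emb))
    (g := AddMonoidHom.id _) fun b e => congrArg (b ⊗ₜ ·) (c.ent_tf e))
  ent_tt a := by
    rw [Sys.att_bc]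
    exact DFunLike.congr_fun (Sys.hom_ext_bc (f := (lT B (ent true true)).comp (lT B emb))
      (g := -lT B (S.att K)) fun b e => (congrArg (b ⊗ₜ ·) (c.ent_tt e)).trans (tmul_neg _ _)) a
  ent_f a b' := DFunLike.congr_fun (Sys.hom_ext_bc (f := (lT B (ent false b')).comp (lT B emb))
    (g := 0) fun b e => (congrArg (b ⊗ₜ ·) (c.ent_f e b')).trans (tmul_zero _ _)) a

end CPK

theorem st_cpk (h1 : St_SIMP) : St_CPK := fun _ _ _ _ _ _ _ _ _ _ _ _ _ _ _ _ _ h hj c =>
  ⟨CPK.finK h hj c, CPK.bc h1 h c⟩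

end Pool.Agent.Lib.NIL
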