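import Pool.Agent.Lib.NIL.Pd

/-! If a group `G` has cohomological dimension at most `n`, then over the group ring `A[G]` of a
principal ideal domain `A` every module that is projective over `A` has projective dimension at
most `n`; in particular so do the kernels of maps between free modules. -/

namespace Pool.Agent.Lib.NIL

open CategoryTheory Abelian TensorProduct

/-- Projective dimension at most `n`, through free presentations. -/
def PD (R : Type) [Ring R] : ℕ → (M : Type) → [AddCommGroup M] → [Module R M] → Prop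
  | 0, M, _, _ => Module.Projective R M
  | n + 1, M, _, _ =>
    ∃ (I : Type) (p : (I →₀ R) →ₗ[R] M), Function.Surjective p ∧ PD R n (LinearMap.ker p)

/-- The group `G` has cohomological dimension at most `n`: the trivial representation `ℤ` has
projective dimension at most `n` among the integral representations of `G`. -/
def CdLE (G : Type) [Group G] (n : ℕ) : Prop :=
  HasProjectiveDimensionLE (Rep.trivial ℤ G ℤ) n

theorem PD_iff {R : Type} [Ring R] (n : ℕ) (M : Type) [AddCommGroup M] [Module R M] :
    PD R n M ↔ Pd R M n := by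
  induction n generalizing M with
  | zero => exact pd_zero.symm
  | succ n ih =>
    constructor
    · rintro ⟨I, p, hp, h⟩
      exact (pd_ker_iff p hp inferInstance n).2 ((ih _).1 h)
    · intro h
      have hp := Finsupp.linearCombination_id_surjective R M
      exact ⟨M, _, hp, (ih _).2 ((pd_ker_iff _ hp inferInstance n).1 h)⟩

theorem pd_map_equivalence {C D : Type*} [Category C] [Category D] [Abelian C] [Abelian D]
    [EnoughProjectives C] (F : C ⥤ D) [F.IsEquivalence] (n : ℕ) (X : C)
    (h : HasProjectiveDimensionLE X n) : HasProjectiveDimensionLE (F.obj X) n := by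
  have hproj : ∀ P : C, Projective P → Projective (F.obj P) := fun P hP =>
    (F.asEquivalence.map_projective_iff P).2 hP
  have : F.PreservesZeroMorphisms := Functor.preservesZeroMorphisms_of_full F
  induction n generalizing X with
  | zero =>
    rw [← projective_iff_hasProjectiveDimensionLE_zero] at h ⊢
    exact hproj X h
  | succ n ih =>
    obtain ⟨p⟩ := EnoughProjectives.presentation X
    have hS : (ShortComplex.mk _ _ (Limits.kernel.condition p.f)).ShortExact :=
      { exact := ShortComplex.exact_kernel p.f }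
    have h1 := (hS.hasProjectiveDimensionLT_X₃_iff n p.projective).1 h
    exact ((hS.map_of_exact F).hasProjectiveDimensionLT_X₃_iff n (hproj _ p.projective)).2
      (ih _ h1)

namespace GlDim

variable {A : Type} [CommRing A] {G : Type} [Group G]

/-- The action of a group element on a module over the group ring. -/
noncomputable def act (A : Type) [CommRing A] {G : Type} [Group G] (M : Type) [AddCommGroup M]
    [Module A M] [Module (MonoidAlgebra A G) M] [IsScalarTower A (MonoidAlgebra A G) M] (g : G) :
    M →ₗ[A] M :=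
  Representation.ofModule' (k := A) (G := G) M g

section
variable {M N : Type} [AddCommGroup M] [Module A M] [Module (MonoidAlgebra A G) M]
  [IsScalarTower A (MonoidAlgebra A G) M] [AddCommGroup N] [Module A N]
  [Module (MonoidAlgebra A G) N] [IsScalarTower A (MonoidAlgebra A G) N]

theorem act_apply (g : G) (x : M) : act A M g x = MonoidAlgebra.of A G g • x := rfl

theorem act_mul (g h : G) (x : M) : act A M (g * h) x = act A M g (act A M h x) := by
  simp only [act_apply, map_mul, mul_smul]

theorem act_one (x : M) : act A M (1 : G) x = x := by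
  simp only [act_apply, map_one, one_smul]

/-- An `A`-linear equivariant map is linear over the group ring. -/
noncomputable def mkLin (φ : M →ₗ[A] N)
    (h : ∀ (g : G) (x : M), φ (MonoidAlgebra.of A G g • x) = MonoidAlgebra.of A G g • φ x) :
    M →ₗ[MonoidAlgebra A G] N where
  toFun := φ
  map_add' := φ.map_add
  map_smul' := fun r x => by
    induction r using MonoidAlgebra.induction_on with
    | of g => exact h g x
    | add a b ha hb =>
      simp only [RingHom.id_apply] at ha hb ⊢
      rw [add_smul, map_add, ha, hb, add_smul]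
    | smul c a ha =>
      simp only [RingHom.id_apply] at ha ⊢
      rw [smul_assoc, map_smul, ha, smul_assoc]

end

variable (K : Type) [AddCommGroup K] [Module A K] [Module (MonoidAlgebra A G) K]
  [IsScalarTower A (MonoidAlgebra A G) K]

/-- The diagonal action on `K ⊗ Y`. -/
noncomputable def diagRep (A : Type) [CommRing A] (G : Type) [Group G] (K : Type)
    [AddCommGroup K] [Module A K] [Module (MonoidAlgebra A G) K]
    [IsScalarTower A (MonoidAlgebra A G) K] (Y : Type) [AddCommGroup Y]
    [Module (MonoidAlgebra ℤ G) Y] : Representation A G (K ⊗[ℤ] Y) where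
  toFun g := AlgebraTensorModule.map (act A K g) (act ℤ Y g)
  map_one' := by
    refine AlgebraTensorModule.ext fun k y => ?_
    simp [act_one]
  map_mul' g h := by
    refine AlgebraTensorModule.ext fun k y => ?_
    simp [act_mul]

theorem diagRep_tmul {Y : Type} [AddCommGroup Y] [Module (MonoidAlgebra ℤ G) Y] (g : G) (k : K)
    (y : Y) : diagRep A G K Y g (k ⊗ₜ y) = act A K g k ⊗ₜ act ℤ Y g y := rfl

/-- `K ⊗ Y`, to be equipped with the diagonal action. -/
def Diag (_A _G K Y : Type) [AddCommGroup K] [AddCommGroup Y] : Type := K ⊗[ℤ] Y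

variable (Y : Type) [AddCommGroup Y] [Module (MonoidAlgebra ℤ G) Y]

noncomputable instance : AddCommGroup (Diag A G K Y) := inferInstanceAs (AddCommGroup (K ⊗[ℤ] Y))

noncomputable instance : Module A (Diag A G K Y) := inferInstanceAs (Module A (K ⊗[ℤ] Y))

/-- The identity `K ⊗ Y → Diag A G K Y`. -/
noncomputable def toDiag (A G K Y : Type) [CommRing A] [AddCommGroup K] [Module A K]
    [AddCommGroup Y] : (K ⊗[ℤ] Y) ≃ₗ[A] Diag A G K Y := LinearEquiv.refl A _

/-- The diagonal representation on `Diag A G K Y`. -/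
noncomputable def diagRep' : Representation A G (Diag A G K Y) := diagRep A G K Y

noncomputable instance : Module (MonoidAlgebra A G) (Diag A G K Y) :=
  Module.compHom (Diag A G K Y) (diagRep' (A := A) (G := G) K Y).asAlgebraHom.toRingHom

theorem diag_smul (r : MonoidAlgebra A G) (x : Diag A G K Y) :
    r • x = (diagRep' (A := A) (G := G) K Y).asAlgebraHom r x := rfl

instance : IsScalarTower A (MonoidAlgebra A G) (Diag A G K Y) where
  smul_assoc c r x := by rw [diag_smul, diag_smul, map_smul, LinearMap.smul_apply]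

variable {K Y}

theorem of_smul_tmul (g : G) (k : K) (y : Y) :
    MonoidAlgebra.of A G g • toDiag A G K Y (k ⊗ₜ y) =
      toDiag A G K Y (act A K g k ⊗ₜ act ℤ Y g y) := by
  rw [diag_smul, Representation.asAlgebraHom_of]
  rfl

omit [Group G] [Module (MonoidAlgebra A G) K] [IsScalarTower A (MonoidAlgebra A G) K]
  [Module (MonoidAlgebra ℤ G) Y] in
theorem diag_ind {motive : Diag A G K Y → Prop} (x : Diag A G K Y) (h0 : motive 0)
    (h1 : ∀ k y, motive (toDiag A G K Y (k ⊗ₜ y)))
    (h2 : ∀ x y, motive x → motive y → motive (x + y)) : motive x :=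
  TensorProduct.induction_on (motive := fun x : K ⊗[ℤ] Y => motive (toDiag A G K Y x)) x h0 h1 h2

variable {Y' : Type} [AddCommGroup Y'] [Module (MonoidAlgebra ℤ G) Y']

/-- The `A`-linear map of diagonal modules induced by an additive map. -/
noncomputable def diagMap₀ (A G K : Type) [CommRing A] [AddCommGroup K] [Module A K]
    {Y Y' : Type} [AddCommGroup Y] [AddCommGroup Y'] (f : Y →ₗ[ℤ] Y') :
    Diag A G K Y →ₗ[A] Diag A G K Y' :=
  (toDiag A G K Y').toLinearMap ∘ₗ AlgebraTensorModule.map (LinearMap.id : K →ₗ[A] K) f ∘ₗ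
    (toDiag A G K Y).symm.toLinearMap

omit [Group G] [Module (MonoidAlgebra A G) K] [IsScalarTower A (MonoidAlgebra A G) K]
  [Module (MonoidAlgebra ℤ G) Y] [Module (MonoidAlgebra ℤ G) Y'] in
theorem diagMap₀_tmul (f : Y →ₗ[ℤ] Y') (k : K) (y : Y) :
    diagMap₀ A G K f (toDiag A G K Y (k ⊗ₜ y)) = toDiag A G K Y' (k ⊗ₜ f y) := rfl

omit [Group G] [Module (MonoidAlgebra A G) K] [IsScalarTower A (MonoidAlgebra A G) K]
  [Module (MonoidAlgebra ℤ G) Y] [Module (MonoidAlgebra ℤ G) Y'] in
theorem diagMap₀_eq (f : Y →ₗ[ℤ] Y') (x : K ⊗[ℤ] Y) :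
    diagMap₀ A G K f (toDiag A G K Y x) = toDiag A G K Y' (f.lTensor K x) := by
  induction x using TensorProduct.induction_on with
  | zero => simp
  | tmul k y => rfl
  | add x y hx hy => simp only [map_add, hx, hy]

/-- The map of diagonal modules induced by a map of integral representations. -/
noncomputable def diagMap (A K : Type) [CommRing A] [AddCommGroup K] [Module A K]
    [Module (MonoidAlgebra A G) K] [IsScalarTower A (MonoidAlgebra A G) K]
    (f : Y →ₗ[MonoidAlgebra ℤ G] Y') :
    Diag A G K Y →ₗ[MonoidAlgebra A G] Diag A G K Y' :=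
  mkLin (diagMap₀ A G K (f.restrictScalars ℤ)) (fun g x => by
    induction x using diag_ind with
    | h0 => simp
    | h1 k y =>
      rw [of_smul_tmul, diagMap₀_tmul, diagMap₀_tmul, of_smul_tmul]
      simp only [act_apply, LinearMap.restrictScalars_apply, map_smul]
    | h2 x y hx hy => simp only [smul_add, map_add, hx, hy])

theorem diagMap_eq (f : Y →ₗ[MonoidAlgebra ℤ G] Y') (x : K ⊗[ℤ] Y) :
    diagMap A K f (toDiag A G K Y x) = toDiag A G K Y' ((f.restrictScalars ℤ).lTensor K x) :=
  diagMap₀_eq _ x

/-- If `Y` has a basis freely permuted by `G` and `K` is projective over `A`, then the diagonal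
module is projective over the group ring. -/
theorem projective_of_basis (hK : Module.Projective A K) {I : Type} (b : Module.Basis (G × I) ℤ Y)
    (hb : ∀ (h g : G) (i : I), act ℤ Y h (b (g, i)) = b (h * g, i)) :
    Module.Projective (MonoidAlgebra A G) (Diag A G K Y) := by
  have hfree : Module.Free ℤ Y := Module.Free.of_basis b
  have hD : Module.Projective A (Diag A G K Y) :=
    Module.Projective.of_equiv' (toDiag A G K Y)
  refine Module.Projective.of_lifting_property'' fun f hf => ?_
  obtain ⟨ψ, hψ⟩ := Module.projective_lifting_property (f.restrictScalars A)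
    (LinearMap.id : Diag A G K Y →ₗ[A] Diag A G K Y) hf
  have hψ' : ∀ x, f (ψ x) = x := fun x => LinearMap.congr_fun hψ x
  let N := Diag A G K Y →₀ MonoidAlgebra A G
  let c : G × I → K →ₗ[A] N := fun p => act A N p.1 ∘ₗ ψ ∘ₗ (toDiag A G K Y).toLinearMap ∘ₗ
    (AlgebraTensorModule.mk ℤ A K Y).flip (b (1, p.2)) ∘ₗ act A K p.1⁻¹
  let Ψ : Diag A G K Y →ₗ[A] N :=
    AlgebraTensorModule.lift ((b.constr A).toLinearMap ∘ₗ LinearMap.pi c) ∘ₗ
      (toDiag A G K Y).symm.toLinearMap
  have hΨ : ∀ (k : K) (g : G) (i : I), Ψ (toDiag A G K Y (k ⊗ₜ b (g, i))) =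
      MonoidAlgebra.of A G g • ψ (toDiag A G K Y (act A K g⁻¹ k ⊗ₜ b (1, i))) := by
    intro k g i
    change (b.constr A) (LinearMap.pi c k) (b (g, i)) = _
    rw [Module.Basis.constr_basis]
    rfl
  have hext : ∀ {N' : Type} [AddCommGroup N'] (φ φ' : Diag A G K Y →+ N'),
      (∀ (k : K) (g : G) (i : I), φ (toDiag A G K Y (k ⊗ₜ b (g, i))) =
        φ' (toDiag A G K Y (k ⊗ₜ b (g, i)))) → ∀ x, φ x = φ' x := by
    intro N' _ φ φ' h x
    induction x using diag_ind with
    | h0 => simp
    | h1 k y =>
      let t : Y →ₗ[ℤ] Diag A G K Y :=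
        ((toDiag A G K Y).toLinearMap.toAddMonoidHom.comp
          (TensorProduct.mk ℤ K Y k).toAddMonoidHom).toIntLinearMap
      have := b.ext (f₁ := φ.toIntLinearMap ∘ₗ t) (f₂ := φ'.toIntLinearMap ∘ₗ t)
        (fun p => h k p.1 p.2)
      exact LinearMap.congr_fun this y
    | h2 x y hx hy => simp only [map_add, hx, hy]
  refine ⟨mkLin Ψ fun h x => ?_, LinearMap.ext fun x => ?_⟩
  · refine hext (Ψ.toAddMonoidHom.comp (act A (Diag A G K Y) h).toAddMonoidHom)
      ((act A N h).toAddMonoidHom.comp Ψ.toAddMonoidHom) (fun k g i => ?_) x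
    change Ψ (MonoidAlgebra.of A G h • toDiag A G K Y (k ⊗ₜ b (g, i))) =
      MonoidAlgebra.of A G h • Ψ (toDiag A G K Y (k ⊗ₜ b (g, i)))
    rw [of_smul_tmul, hb, hΨ, hΨ, ← act_mul, map_mul, mul_smul]
    simp
  · refine hext (f.toAddMonoidHom.comp Ψ.toAddMonoidHom) (AddMonoidHom.id _) (fun k g i => ?_) x
    change f (Ψ (toDiag A G K Y (k ⊗ₜ b (g, i)))) = toDiag A G K Y (k ⊗ₜ b (g, i))
    rw [hΨ, map_smul, hψ', of_smul_tmul, hb, ← act_mul]
    simp [act_one]

theorem projective_free (hK : Module.Projective A K) (I : Type) :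
    Module.Projective (MonoidAlgebra A G) (Diag A G K (I →₀ MonoidAlgebra ℤ G)) := by
  refine projective_of_basis hK ((MonoidAlgebra.basis G ℤ).smulTower
    (Finsupp.basisSingleOne : Module.Basis I (MonoidAlgebra ℤ G) (I →₀ MonoidAlgebra ℤ G))) ?_
  intro h g i
  rw [act_apply, Module.Basis.smulTower_apply, Module.Basis.smulTower_apply, smul_smul,
    MonoidAlgebra.basis_apply, MonoidAlgebra.basis_apply]
  simp [MonoidAlgebra.single_mul_single]

theorem pd_diag_step (hK : Module.Projective A K) (n : ℕ) {X Y I : Type} [AddCommGroup X]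
    [Module (MonoidAlgebra ℤ G) X] [AddCommGroup Y] [Module (MonoidAlgebra ℤ G) Y]
    (hY : Module.Projective ℤ Y) (i : X →ₗ[MonoidAlgebra ℤ G] (I →₀ MonoidAlgebra ℤ G))
    (p : (I →₀ MonoidAlgebra ℤ G) →ₗ[MonoidAlgebra ℤ G] Y) (hi : Function.Injective i)
    (hip : Function.Exact i p) (hp : Function.Surjective p)
    (ih : Module.Projective ℤ X → Pd (MonoidAlgebra A G) (Diag A G K X) n) :
    Pd (MonoidAlgebra A G) (Diag A G K Y) (n + 1) := by
  have hF : Module.Projective ℤ (I →₀ MonoidAlgebra ℤ G) := inferInstance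
  have hX : Module.Projective ℤ X := proj_of_inj_pid hF (i.restrictScalars ℤ) hi
  have hex : Function.Exact (i.restrictScalars ℤ) (p.restrictScalars ℤ) := hip
  have hinj : Function.Injective ((i.restrictScalars ℤ).lTensor K) := by
    have hs := Module.projective_lifting_property (p.restrictScalars ℤ)
      (LinearMap.id : Y →ₗ[ℤ] Y) hp
    obtain ⟨r, hr⟩ := ((hex.split_tfae hi hp).out 0 1).1 hs
    apply Function.LeftInverse.injective (g := r.lTensor K)
    intro x
    rw [← LinearMap.comp_apply, ← LinearMap.lTensor_comp, hr, LinearMap.lTensor_id]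
    rfl
  refine (pd_succ (diagMap A K i) (diagMap A K p) ?_ ?_ ?_ (projective_free hK I) n).2 (ih hX)
  · intro x y hxy
    obtain ⟨x, rfl⟩ := (toDiag A G K _).surjective x
    obtain ⟨y, rfl⟩ := (toDiag A G K _).surjective y
    rw [diagMap_eq, diagMap_eq] at hxy
    rw [hinj ((toDiag A G K _).injective hxy)]
  · intro x
    obtain ⟨x, rfl⟩ := (toDiag A G K _).surjective x
    rw [diagMap_eq, map_eq_zero_iff _ (toDiag A G K _).injective, lTensor_exact K hex hp x]
    constructor
    · rintro ⟨y, rfl⟩
      exact ⟨toDiag A G K _ y, diagMap_eq _ y⟩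
    · rintro ⟨y, hy⟩
      obtain ⟨y, rfl⟩ := (toDiag A G K _).surjective y
      rw [diagMap_eq] at hy
      exact ⟨y, (toDiag A G K _).injective hy⟩
  · intro x
    obtain ⟨x, rfl⟩ := (toDiag A G K _).surjective x
    obtain ⟨y, rfl⟩ := LinearMap.lTensor_surjective K (g := p.restrictScalars ℤ) hp x
    exact ⟨toDiag A G K _ y, diagMap_eq _ y⟩

theorem pd_diag (hK : Module.Projective A K) (n : ℕ) (Y : Type) [AddCommGroup Y]
    [Module (MonoidAlgebra ℤ G) Y] (hY : Module.Projective ℤ Y)
    (h : PD (MonoidAlgebra ℤ G) n Y) : Pd (MonoidAlgebra A G) (Diag A G K Y) n := by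
  induction n generalizing Y with
  | zero =>
    rw [pd_zero]
    obtain ⟨s, hs⟩ := Module.projective_def'.1 h
    have := projective_free (A := A) (G := G) hK Y
    refine Module.Projective.of_split (diagMap A K s)
      (diagMap A K (Finsupp.linearCombination (MonoidAlgebra ℤ G) id)) (LinearMap.ext fun x => ?_)
    induction x using diag_ind with
    | h0 => simp
    | h1 k y =>
      change toDiag A G K Y (k ⊗ₜ (Finsupp.linearCombination (MonoidAlgebra ℤ G) id (s y))) = _
      rw [show Finsupp.linearCombination (MonoidAlgebra ℤ G) id (s y) = y from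
        LinearMap.congr_fun hs y]
      rfl
    | h2 x y hx hy => simp only [map_add, hx, hy]
  | succ n ih =>
    obtain ⟨I, p, hp, hker⟩ := h
    exact pd_diag_step hK n hY (LinearMap.ker p).subtype p (LinearMap.ker p).injective_subtype
      (LinearMap.exact_subtype_ker_map p) hp (fun hX => ih _ hX hker)

end GlDim

open GlDim in
/-- Over `A[G]` with `cd G ≤ n`, a module that is projective over `A` has projective dimension at
most `n` (any commutative ring `A`). -/
theorem pd_of_projective {G : Type} [Group G] {n : ℕ} (hG : CdLE G n) (A : Type) [CommRing A]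
    (K : Type) [AddCommGroup K] [Module A K] [Module (MonoidAlgebra A G) K]
    [IsScalarTower A (MonoidAlgebra A G) K] (hK : Module.Projective A K) :
    PD (MonoidAlgebra A G) n K := by
  have h1 := pd_map_equivalence (Rep.toModuleMonoidAlgebra (k := ℤ) (G := G)) n _ hG
  let Z := (Representation.trivial ℤ G ℤ).asModule
  have h2 : Pd (MonoidAlgebra ℤ G) Z n := h1
  let e : Z ≃ₗ[ℤ] ℤ := (Representation.trivial ℤ G ℤ).asModuleEquiv.toAddEquiv.toIntLinearEquiv
  have hZ : Module.Projective ℤ Z := Module.Projective.of_equiv' e.symm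
  have h3 := pd_diag (A := A) hK n Z hZ ((PD_iff n Z).2 h2)
  have htriv : ∀ (g : G) (z : Z), act ℤ Z g z = z := fun g z =>
    ((Representation.trivial ℤ G ℤ).asModuleEquiv_symm_map_rho g z).symm
  let φ : Diag A G K Z ≃ₗ[A] K := (toDiag A G K Z).symm ≪≫ₗ
    AlgebraTensorModule.congr (LinearEquiv.refl A K) e ≪≫ₗ AlgebraTensorModule.rid ℤ A K
  have hφ : ∀ (k : K) (z : Z), φ (toDiag A G K Z (k ⊗ₜ z)) = e z • k := fun k z => rfl
  let φ' : Diag A G K Z →ₗ[MonoidAlgebra A G] K := mkLin φ.toLinearMap (fun g x => by
    induction x using diag_ind with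
    | h0 => simp
    | h1 k z =>
      rw [of_smul_tmul, htriv, LinearEquiv.coe_coe, hφ, hφ, act_apply, smul_comm]
    | h2 x y hx hy => simp only [smul_add, map_add, hx, hy])
  exact (PD_iff n K).2 (h3.equiv (LinearEquiv.ofBijective φ' φ.bijective))

/-- Submodules of free `A[G]`-modules have projective dimension at most `cd G`. -/
theorem pd_submodule {G : Type} [Group G] {n : ℕ} (hG : CdLE G n) (A : Type) [CommRing A]
    [IsDomain A] [IsPrincipalIdealRing A] (ι : Type)
    (N : Submodule (MonoidAlgebra A G) (ι →₀ MonoidAlgebra A G)) :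
    PD (MonoidAlgebra A G) n N :=
  pd_of_projective hG A N (proj_of_inj_pid (X := N)
    (inferInstance : Module.Projective A (ι →₀ MonoidAlgebra A G)) (N.subtype.restrictScalars A)
    N.injective_subtype)

/-- Kernels of maps between free `A[G]`-modules have projective dimension at most `cd G`. -/
theorem pd_ker {G : Type} [Group G] {n : ℕ} (hG : CdLE G n) (A : Type) [CommRing A]
    [IsDomain A] [IsPrincipalIdealRing A] (ι κ : Type)
    (f : (ι →₀ MonoidAlgebra A G) →ₗ[MonoidAlgebra A G] (κ →₀ MonoidAlgebra A G)) :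
    PD (MonoidAlgebra A G) n (LinearMap.ker f) :=
  pd_submodule hG A ι _

/-- The global dimension of `A[G]` is at most `cd G + 1`. -/
theorem pd_all {G : Type} [Group G] {n : ℕ} (hG : CdLE G n) (A : Type) [CommRing A]
    [IsDomain A] [IsPrincipalIdealRing A] (M : Type) [AddCommGroup M]
    [Module (MonoidAlgebra A G) M] : PD (MonoidAlgebra A G) (n + 1) M :=
  ⟨M, _, Finsupp.linearCombination_id_surjective _ M, pd_submodule hG A M _⟩

end Pool.Agent.Lib.NIL
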