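import Pool.Agent.Lib.NIL.TorsR
import Pool.Agent.Lib.MP_63c928_gt.WH.SK1

/-! `K1` of a Euclidean domain; elementary facts on the vanishing of Whitehead groups. -/

noncomputable section

namespace Pool.Agent.Lib.NIL

open Matrix Pool.Agent.WhDet Function

theorem cl_mem_euclid {R : Type*} [EuclideanDomain R] {Q : AddSubgroup (K1 R)}
    (hQ : ∀ u : R, IsUnit u → cl1 u ∈ Q) (n : ℕ) :
    ∀ A : Matrix (Fin n) (Fin n) R, IsUnit A → cl A ∈ Q := by
  induction n with
  | zero =>
    intro A _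
    rw [Subsingleton.elim A 1, cl_one]
    exact Q.zero_mem
  | succ n ih =>
    have p1 : ∀ A : Matrix (Fin (n + 1)) (Fin (n + 1)) R, IsUnit A → A 0 0 = 1 → cl A ∈ Q :=
      fun A hA h => by
        have k := cl_pivot_fin hA 0 h (Matrix.of _) fun _ _ => rfl
        exact k.2 ▸ ih _ k.1
    have p2 : ∀ A : Matrix (Fin (n + 1)) (Fin (n + 1)) R, IsUnit A → ∀ j, IsUnit (A 0 j) →
        cl A ∈ Q := fun A hA j ⟨u, hu⟩ => by
      by_cases hj : j = 0
      · have hD : IsUnit (diagonal (update (1 : Fin (n + 1) → R) 0 u⁻¹.val)) :=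
          (Pi.isUnit_iff.2 fun i => by by_cases h : i = 0 <;> simp [h]).map (diagonalRingHom _ R)
        have k := p1 _ (hD.mul hA) (by subst hj; rw [diagonal_mul, ← hu]; simp)
        rw [cl_mul hD hA, cl_update] at k
        exact (Q.add_mem_cancel_left (hQ _ u⁻¹.isUnit)).1 k
      · obtain ⟨B, hB, e, h1, -⟩ := col_op hA 0 (Pi.single j (u⁻¹.val * (1 - A 0 0)))
          (Pi.single_eq_of_ne' hj _)
        exact e ▸ p1 B hB (by simp [h1, Pi.single_apply, ← hu, ← mul_assoc])
    have p3 : ∀ (a : R) (A : Matrix (Fin (n + 1)) (Fin (n + 1)) R), IsUnit A → ∀ j, A 0 j = a →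
        a ≠ 0 → cl A ∈ Q := fun a => by
      induction a using (EuclideanDomain.r_wellFounded (R := R)).induction with
      | h a iha =>
        intro A hA j hj h0
        by_cases h : ∀ k, a ∣ A 0 k
        · obtain ⟨U, rfl⟩ := hA
          refine p2 _ U.isUnit j (hj ▸ isUnit_of_dvd_one ?_)
          have := congrFun (congrFun U.mul_inv 0) 0
          rw [mul_apply, one_apply_eq] at this
          exact this ▸ Finset.dvd_sum fun k _ => (h k).mul_right _
        · obtain ⟨k, hk⟩ := not_forall.1 h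
          have hjk : j ≠ k := fun e => hk (e ▸ hj ▸ dvd_rfl)
          obtain ⟨B, hB, e, h1, -⟩ := col_op hA k (Pi.single j (-(A 0 k / a)))
            (Pi.single_eq_of_ne' hjk _)
          refine e ▸ iha (A 0 k % a) (EuclideanDomain.mod_lt _ h0) B hB k ?_
            (mt EuclideanDomain.mod_eq_zero.1 hk)
          simp [h1, Pi.single_apply, hj, EuclideanDomain.mod_eq_sub_mul_div, sub_eq_add_neg]
    intro A hA
    by_cases h : ∀ k, A 0 k = 0
    · obtain ⟨U, rfl⟩ := hA
      have := congrFun (congrFun U.mul_inv 0) 0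
      simp [mul_apply, h] at this
    · obtain ⟨k, hk⟩ := not_forall.1 h
      exact p3 _ A hA k rfl hk

theorem map_map_cl {R S T ι : Type*} [Ring R] [Ring S] [Ring T] [Fintype ι] [DecidableEq ι]
    (φ : R →+* S) (ψ : S →+* T) {A : Matrix ι ι R} (hA : IsUnit A) :
    K1.map ψ (K1.map φ (cl A)) = cl (A.map (ψ ∘ φ)) := by
  have h : IsUnit (A.map φ) := hA.map φ.mapMatrix
  rw [cl_map _ hA, cl_map _ h, Matrix.map_map]

theorem k1_eq_top {R : Type*} [Ring R] {Q : AddSubgroup (K1 R)}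
    (h : ∀ (n : ℕ) (A : Matrix (Fin n) (Fin n) R), IsUnit A → cl A ∈ Q) (x : K1 R) : x ∈ Q :=
  K1.induction_on x (fun n A => cl_mk A ▸ h n _ A.isUnit) Q.zero_mem (fun _ _ => Q.add_mem)
    fun _ => Q.neg_mem

theorem k1_int {Q : AddSubgroup (K1 ℤ)} (hQ : cl1 (-1 : ℤ) ∈ Q) (x : K1 ℤ) : x ∈ Q :=
  k1_eq_top (cl_mem_euclid fun u hu => by
    rcases Int.isUnit_iff.1 hu with rfl | rfl
    exacts [(cl1_one (S := ℤ)).symm ▸ Q.zero_mem, hQ]) x

variable {E L L' : Type} [Ring E] {Q : AddSubgroup (K1 E)}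

theorem map_int_mem (hQ : negCl E ∈ Q) (x : K1 ℤ) : K1.map (Int.castRingHom E) x ∈ Q :=
  k1_int (Q := Q.comap (K1.map (Int.castRingHom E)))
    (by rw [← negCl_eq, AddSubgroup.mem_comap, map_negCl]; exact hQ) x

/-- complexes defined and contractible over the integers -/
theorem tors_int (hQ : negCl E ∈ Q) {V : Raw ℤ L} [Finite V.ι] (hV : (tcat ℤ L).Obj V)
    (c : (tcat ℤ L).Ctr V) (l : L → L') :
    Tors Q (V.mapA (Int.castRingHom E).toAddMonoidHom l) :=
  (tors_top (RingHom.id ℤ) hV c).mapA _ l negCl_top (fun x _ => map_int_mem hQ x) hV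

universe u v

/-- the subgroup generated by the trivial units -/
def whQ (G : Type u) [Group G] : AddSubgroup (K1 (MonoidAlgebra ℤ G)) :=
  AddSubgroup.closure (trivialUnits G)

variable {G : Type u} {H : Type v} [Group G] [Group H]

theorem wh_iff : Subsingleton (Wh G) ↔ ∀ x, x ∈ whQ G :=
  QuotientAddGroup.subsingleton_iff.trans (AddSubgroup.eq_top_iff' _)

theorem cl1_single_mem (g : G) (s : ℤˣ) : cl1 (MonoidAlgebra.single g s.val) ∈ whQ G := by
  have u : IsUnit (MonoidAlgebra.single g s.val) := ⟨⟨_, MonoidAlgebra.single g⁻¹ s⁻¹.val,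
    by simp [MonoidAlgebra.single_mul_single, MonoidAlgebra.one_def],
    by simp [MonoidAlgebra.single_mul_single, MonoidAlgebra.one_def]⟩, rfl⟩
  obtain ⟨A, hA⟩ := (isUnit_reindex_iff finOneEquiv.symm _).2 (isUnit_of_one u)
  have e : A.val 0 0 = MonoidAlgebra.single g s.val := by rw [hA]; rfl
  rw [← e, cl1_eq_mk]
  refine AddSubgroup.subset_closure ⟨g, A, ?_, rfl⟩
  rcases Int.units_eq_one_or s with rfl | rfl
  exacts [Or.inl e, Or.inr e]

theorem cl1_of_mem (g : G) : cl1 (MonoidAlgebra.single g (1 : ℤ)) ∈ whQ G := cl1_single_mem g 1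

theorem cl1_neg_one_mem : cl1 (-1 : MonoidAlgebra ℤ G) ∈ whQ G := by
  have := cl1_single_mem (1 : G) (-1)
  rwa [Units.val_neg, MonoidAlgebra.single_neg] at this

theorem negCl_mem {G : Type} [Group G] : negCl (MonoidAlgebra ℤ G) ∈ whQ G :=
  negCl_eq (E := MonoidAlgebra ℤ G) ▸ cl1_neg_one_mem

theorem map_whQ (φ : H →* G) {x : K1 (MonoidAlgebra ℤ H)} (hx : x ∈ whQ H) :
    K1.map (MonoidAlgebra.mapDomainRingHom ℤ φ) x ∈ whQ G := by
  refine (QuotientAddGroup.eq_zero_iff _).1 ?_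
  change Wh.mk G _ = 0
  rw [← Wh.map_mk, show Wh.mk H x = 0 from (QuotientAddGroup.eq_zero_iff _).2 hx, map_zero]

theorem map_mem_whQ [hH : Subsingleton (Wh H)] (φ : H →* G) (x : K1 (MonoidAlgebra ℤ H)) :
    K1.map (MonoidAlgebra.mapDomainRingHom ℤ φ) x ∈ whQ G := map_whQ φ (wh_iff.1 hH x)

theorem wh_of_cl (h : ∀ (n : ℕ) (A : Matrix (Fin n) (Fin n) (MonoidAlgebra ℤ G)), IsUnit A →
    cl A ∈ whQ G) : Subsingleton (Wh G) := wh_iff.2 (k1_eq_top h)

/-- retracts -/
theorem wh_of_retract [Subsingleton (Wh H)] (φ : H →* G) (ψ : G →* H) (h : ∀ g, φ (ψ g) = g) :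
    Subsingleton (Wh G) := wh_of_cl fun n A hA => by
  have k := map_mem_whQ φ (K1.map (MonoidAlgebra.mapDomainRingHom ℤ ψ) (cl A))
  rw [map_map_cl _ _ hA] at k
  have e : ∀ x : MonoidAlgebra ℤ G, MonoidAlgebra.mapDomainRingHom ℤ φ
      (MonoidAlgebra.mapDomainRingHom ℤ ψ x) = x := fun x => by
    induction x using MonoidAlgebra.induction_linear with
    | zero => simp
    | add y z hy hz => simp only [map_add, hy, hz]
    | single x c => simp [h]
  rwa [show _ ∘ _ = id from funext e, Matrix.map_id] at k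

theorem wh_of_equiv [Subsingleton (Wh H)] (e : H ≃* G) : Subsingleton (Wh G) :=
  wh_of_retract e.toMonoidHom e.symm.toMonoidHom e.apply_symm_apply

theorem wh_trivial [Subsingleton G] : Subsingleton (Wh G) := wh_of_cl fun n A hA => by
  let ε : MonoidAlgebra ℤ G →+* ℤ := (MonoidAlgebra.lift ℤ ℤ G 1).toRingHom
  have e : ∀ x : MonoidAlgebra ℤ G, Int.castRingHom _ (ε x) = x := fun x => by
    induction x using MonoidAlgebra.induction_linear with
    | zero => simp
    | add y z hy hz => simp only [map_add, hy, hz]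
    | single x c => simp [ε, Subsingleton.elim x 1, MonoidAlgebra.intCast_def]
  have k := k1_int (Q := (whQ G).comap (K1.map (Int.castRingHom _))) (by
    rw [AddSubgroup.mem_comap, cl1_map _ isUnit_one.neg, map_neg, map_one]
    exact cl1_neg_one_mem) (K1.map ε (cl A))
  rw [AddSubgroup.mem_comap, map_map_cl _ _ hA] at k
  rwa [show _ ∘ _ = id from funext e, Matrix.map_id] at k

/-- every finite subset lies in a subgroup with vanishing Whitehead group -/
theorem wh_of_local (h : ∀ s : Finset G, ∃ K : Subgroup G, (∀ g ∈ s, g ∈ K) ∧ Subsingleton (Wh K)) :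
    Subsingleton (Wh G) := wh_of_cl fun n A ⟨U, hU⟩ => by
  classical
  obtain ⟨K, h1, h2⟩ := h (Finset.univ.biUnion fun p : Fin n × Fin n =>
    (U.val p.1 p.2).coeff.support ∪ (U⁻¹.val p.1 p.2).coeff.support)
  have inj : Injective (MonoidAlgebra.mapDomainRingHom ℤ K.subtype) :=
    MonoidAlgebra.mapDomain_injective K.subtype_injective
  have sur : ∀ x : MonoidAlgebra ℤ G, (∀ g ∈ x.coeff.support, g ∈ K) →
      ∃ y, MonoidAlgebra.mapDomainRingHom ℤ K.subtype y = x := fun x hx =>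
    ⟨_, MonoidAlgebra.mapDomain_comapDomain (fun g hg => ⟨⟨g, hx g hg⟩, rfl⟩) K.subtype_injective⟩
  choose B hB using fun i j => sur (U.val i j) fun g hg => h1 g (Finset.mem_biUnion.2
    ⟨(i, j), Finset.mem_univ _, Finset.mem_union_left _ hg⟩)
  choose C hC using fun i j => sur (U⁻¹.val i j) fun g hg => h1 g (Finset.mem_biUnion.2
    ⟨(i, j), Finset.mem_univ _, Finset.mem_union_right _ hg⟩)
  have e1 : (Matrix.of B).map (MonoidAlgebra.mapDomainRingHom ℤ K.subtype) = U.val :=
    Matrix.ext hB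
  have e2 : (Matrix.of C).map (MonoidAlgebra.mapDomainRingHom ℤ K.subtype) = U⁻¹.val :=
    Matrix.ext hC
  have u : IsUnit (Matrix.of B) := ⟨⟨_, Matrix.of C,
    Matrix.map_injective inj (by
      simp only [Matrix.map_mul, e1, e2, Matrix.map_one _ (map_zero _) (map_one _)]; simp),
    Matrix.map_injective inj (by
      simp only [Matrix.map_mul, e1, e2, Matrix.map_one _ (map_zero _) (map_one _)]; simp)⟩, rfl⟩
  rw [← hU, ← e1, ← cl_map _ u]
  exact map_mem_whQ _ _

end Pool.Agent.Lib.NIL
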