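import Pool.Agent.Lib.NIL.CellSys
import Pool.Agent.Lib.NIL.GlDim
import Pool.Agent.Lib.NIL.WhQ
import Pool.Agent.Lib.KM1.Basic

/-! The blueprint: definitions and the statements of the blocks. -/

noncomputable section

namespace Pool.Agent.Lib.NIL

open Finsupp TensorProduct Polynomial

/-! ### Levels -/

/-- all systems of level `j` satisfy `P` after base change to `A` -/
def Lev {R O : Type} [Ring R] (Rf : O → O → AddSubgroup R) (A : Type) [CommRing A] (j : ℤ) :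
    Prop := ∀ (E Λ : Type) [Ring E] (S : Sys R E Λ O), S.IsSys Rf j → ((S.cat Rf).bc A).P

def GoodB {R O : Type} [Ring R] (Rf : O → O → AddSubgroup R) : Prop :=
  ∀ (A : Type) [CommRing A] [IsDomain A] [IsPrincipalIdealRing A], Lev Rf A 1

def GoodO (G O : Type) [Group G] [MulAction G O] : Prop := GoodB (gfam G O)

/-! ### Localisation packages -/

section

variable {E L M E'' N R'' : Type} [Ring E] [Ring E''] [Ring R'']

/-- `Y` is, after a unitriangular change of basis, an extension of `V` by disks -/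
def Simp (C : Cat E L) (Y V : Raw E L) : Prop :=
  ∃ (K : Raw E L) (θ : Lin V K) (e : K.ι ⊕ V.ι ≃ Y.ι) (f : Lin (K.ext V θ) Y)
    (ρ : K.ι ⊕ V.ι → ℕ), Finite K.ι ∧ K.Disky ∧ C.Obj (K.ext V θ) ∧ C.Ch (K.ext V θ) Y f ∧
    (∀ i, Y.deg (e i) = (K.ext V θ).deg i) ∧ (∀ i, Y.lab (e i) = (K.ext V θ).lab i) ∧
    (∀ i, f (single i 1) (e i) = 1) ∧ ∀ i i', f (single i 1) (e i') ≠ 0 → i = i' ∨ ρ i' < ρ i

/-- `T → C` is a localisation whose kernel is generated by the two-term objects `Bm.pt`,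
with endomorphisms `C''` -/
structure Loc (C : Cat E L) (T : Cat E M) (jl : M → L) (C'' : Cat E'' N) (C₀ : Cat R'' N)
    (I : R'' →+ E'') (U : E'' →+ R'') (Bm : BM E'' N E M Bool) (ent : Bool → Bool → E'' →+ E) :
    Prop where
  good : C.Good
  tgood : T.Good
  d : C.d = T.d
  le : ∀ k m m', T.H k m m' ≤ C.H k (jl m) (jl m')
  aug : Aug 1 C'' C₀ I U
  bm : IsBM C'' T Bm
  act : ∀ a k k', Bm.act a k k' = ent k k' a
  Δ1 : Bm.Δ true = single false 1
  Δ0 : Bm.Δ false = 0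
  dg0 : Bm.dg false = 0
  dg1 : Bm.dg true = -1
  lb : ∀ n, jl (Bm.lb n false) = jl (Bm.lb n true)
  faith : ∀ k n n', ∃ ψ : Bool → Bool → E →+ E'', ∀ a ∈ C''.H k n n',
    a = ∑ b, ∑ b', ψ b b' (ent b b' a)

/-- the right adjoint of the localisation, on the object `V` -/
def Hat (C : Cat E L) (T : Cat E M) (jl : M → L) (C'' : Cat E'' N) (Bm : BM E'' N E M Bool)
    (Z : Set E) (V : Raw E L) : Prop :=
  ∃ (X : Raw E M) (p : X.ι → Prop) (W : Raw E'' N), T.Obj X ∧ X.Closed p ∧ (X.res p).Fin1 ∧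
    (X.res fun i => ¬ p i).Rx (W.bm Bm) ∧ C''.Obj W ∧ W.WF ∧ W.Bdd ∧
    (∀ z ∈ Z, C.Nul z V → T.Nul z X) ∧ Simp C ((X.res p).relab jl) V

/-- finiteness of the reduction of a compact object of the kernel -/
def FinK (T : Cat E M) (C'' : Cat E'' N) (C₀ : Cat R'' N) (U : E'' →+ R'')
    (Bm : BM E'' N E M Bool) : Prop :=
  ∀ (Y : Raw E M) (W : Raw E'' N) (θ : Lin (W.bm Bm) Y), C''.Obj W → Y.Fin1 →
    T.Obj (Y.ext (W.bm Bm) θ) → T.Ctr (Y.ext (W.bm Bm) θ) → C₀.InO (W.mapA U id)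

end

/-- the scalars -/
def scalars (B E : Type) [CommRing B] [Ring E] : Set (B ⊗[ℤ] E) := {z | ∃ b : B, z = b ⊗ₜ 1}

/-- the endomorphism system `S''` of a cell attachment -/
structure CPk {R E Λ O E'' Λ'' : Type} [Ring R] [Ring E] [Ring E''] (S : Sys R E Λ O)
    (Rf : O → O → AddSubgroup R) (K : Cell Λ) (j : ℤ) (S'' : Sys R E'' Λ'' O)
    (Bm : BM E'' O E (O × Bool) Bool) (ent : Bool → Bool → E'' →+ E) (emb : E →+ E'') : Prop where
  sys : S''.IsSys Rf (j + 1)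
  loc : Loc (S.cat Rf) (S.tri Rf K) Prod.fst (S''.cat Rf) (bcat Rf) S''.i.toAddMonoidHom S''.aug
    Bm ent
  lb : ∀ o b, Bm.lb o b = (o, b)
  ent_i : ∀ r b b', ent b b' (S''.i r) = if b = b' then S.i r else 0
  ent_ff : ∀ k o o', ∀ a ∈ (S''.cat Rf).H k o o', ent false false a = S.i (S''.aug a)
  emb_mem : ∀ k o o', ∀ a ∈ S.Sp Rf (fun l => K.inN l ∧ S.deg l = k) o o',
    emb a ∈ (S''.cat Rf).H (k + 1) o o'
  ent_tf : ∀ a, ent true false (emb a) = a
  ent_tt : ∀ a, ent true true (emb a) = -S.att K a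
  ent_f : ∀ a b, ent false b (emb a) = 0

/-- the words in the `x l` form a left basis of `T`, and the `x l` span a bimodule -/
structure IsTensorRing {R T Λ : Type} [Ring R] [Ring T] (i : R →+* T) (x : Λ → T) : Prop where
  basis : Function.Bijective fun a : List Λ →₀ R => a.sum fun w r => i r * (w.map x).prod
  comm : ∀ l r, ∃ a : Λ →₀ R, x l * i r = a.sum fun m r' => i r' * x m

/-! ### Statements: the core -/

def St_SIMP : Prop :=
  (∀ (E L : Type) [Ring E] (C : Cat E L) (Y V : Raw E L), C.Good → C.Obj Y → Simp C Y V →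
    C.Eqv Y V) ∧
  (∀ (E L : Type) [Ring E] (Y V : Raw E L) (Q : AddSubgroup (WhDet.K1 E)), negCl E ∈ Q →
    (tcat E L).Obj Y → Finite Y.ι → Simp (tcat E L) Y V → (Tors Q Y ↔ Tors Q V)) ∧
  ∀ (E L M E'' N R'' : Type) [Ring E] [Ring E''] [Ring R''] (C : Cat E L) (T : Cat E M)
    (jl : M → L) (C'' : Cat E'' N) (C₀ : Cat R'' N) (I : R'' →+ E'') (U : E'' →+ R'')
    (Bm : BM E'' N E M Bool) (ent : Bool → Bool → E'' →+ E), Loc C T jl C'' C₀ I U Bm ent →
    ∀ (B : Type) [CommRing B], Loc (C.bc B) (T.bc B) jl (C''.bc B) (C₀.bc B) (lT B I) (lT B U)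
      (Bm.bc ent B) fun b b' => lT B (ent b b')

/-- an object killed by a denominator lifts to an object killed by a denominator -/
def St_KEY : Prop :=
  ∀ (E L M E'' N R'' : Type) [Ring E] [Ring E''] [Ring R''] (C : Cat E L) (T : Cat E M)
    (jl : M → L) (C'' : Cat E'' N) (C₀ : Cat R'' N) (I : R'' →+ E'') (U : E'' →+ R'')
    (Bm : BM E'' N E M Bool) (ent : Bool → Bool → E'' →+ E), Loc C T jl C'' C₀ I U Bm ent →
    ∀ (B B' : Type) [CommRing B] [CommRing B'] [Algebra B B'] (S : Submonoid B)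
      [IsLocalization S B'], FinK (T.bc B') (C''.bc B') (C₀.bc B') (lT B' U) (Bm.bc ent B') →
      (C''.bc B').P → ∀ V, (C.bc B).Obj V →
      Hat (C.bc B) (T.bc B) jl (C''.bc B) (Bm.bc ent B) (scalars B E) V →
      (∃ f ∈ S, (C.bc B).Nul (f ⊗ₜ 1) V) →
      ∃ X, (T.bc B).Obj X ∧ X.Fin1 ∧ (∃ g ∈ S, (T.bc B).Nul (g ⊗ₜ 1) X) ∧
        (C.bc B).Eqv (X.relab jl) V

/-- a contractible complex lifts to a contractible complex with the same torsion -/
def St_KEY0 : Prop :=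
  ∀ (E L M E'' N R'' : Type) [Ring E] [Ring E''] [Ring R''] (T : Cat E M)
    (jl : M → L) (C'' : Cat E'' N) (C₀ : Cat R'' N) (I : R'' →+ E'') (U : E'' →+ R'')
    (Bm : BM E'' N E M Bool) (ent : Bool → Bool → E'' →+ E),
    Loc (tcat E L) T jl C'' C₀ I U Bm ent → FinK T C'' C₀ U Bm → C''.P →
    ∀ (Z : Set E) (V : Raw E L), 1 ∈ Z → (tcat E L).Obj V → Hat (tcat E L) T jl C'' Bm Z V →
      (tcat E L).Ctr V → ∃ X, T.Obj X ∧ X.Fin1 ∧ T.Ctr X ∧
        ∀ Q : AddSubgroup (WhDet.K1 E), negCl E ∈ Q → Tors Q X → Tors Q V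

def St_EPP : Prop :=
  ∀ (R E Λ O : Type) [Ring R] [Ring E] (S : Sys R E Λ O) (Rf : O → O → AddSubgroup R)
    (K : Cell Λ) (j : ℤ), S.IsCell Rf K j → 0 ≤ j →
    ∃ (E'' Λ'' : Type) (_ : Ring E'') (S'' : Sys R E'' Λ'' O) (Bm : BM E'' O E (O × Bool) Bool)
      (ent : Bool → Bool → E'' →+ E) (emb : E →+ E''), CPk S Rf K j S'' Bm ent emb

def St_CPK : Prop :=
  ∀ (R E Λ O E'' Λ'' : Type) [Ring R] [Ring E] [Ring E''] (S : Sys R E Λ O)
    (Rf : O → O → AddSubgroup R) (K : Cell Λ) (j : ℤ) (S'' : Sys R E'' Λ'' O)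
    (Bm : BM E'' O E (O × Bool) Bool) (ent : Bool → Bool → E'' →+ E) (emb : E →+ E''),
    S.IsCell Rf K j → 0 ≤ j → CPk S Rf K j S'' Bm ent emb →
    FinK (S.tri Rf K) (S''.cat Rf) (bcat Rf) S''.aug Bm ∧
    ∀ (B : Type) [CommRing B], CPk (S.bc B) (fun o o' => bcF B (Rf o o')) K j (S''.bc B)
      (Bm.bc ent B) (fun b b' => lT B (ent b b')) (lT B emb)

def St_VH : Prop :=
  ∀ (R E Λ O E'' Λ'' : Type) [Ring R] [Ring E] [Ring E''] (S : Sys R E Λ O)
    (Rf : O → O → AddSubgroup R) (K : Cell Λ) (j : ℤ) (S'' : Sys R E'' Λ'' O)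
    (Bm : BM E'' O E (O × Bool) Bool) (ent : Bool → Bool → E'' →+ E) (emb : E →+ E''),
    S.IsCell Rf K j → 0 ≤ j → CPk S Rf K j S'' Bm ent emb →
    ∀ V, (S.cat Rf).Obj V → V.Fin1 → Hat (S.cat Rf) (S.tri Rf K) Prod.fst (S''.cat Rf) Bm
      {z | (∀ a, z * a = a * z) ∧ ∃ r, z = S.i r} V

def St_CELL : Prop :=
  ∀ (R E Λ O : Type) [Ring R] [Ring E] (S : Sys R E Λ O) (Rf : O → O → AddSubgroup R)
    (K : Cell Λ) (j : ℤ) (A : Type) [CommRing A], S.IsCell Rf K j → 1 ≤ j →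
    (((S.sub K.inE).cat Rf).bc A).P → Lev Rf (Ax A) (j + 1) → ((S.cat Rf).bc A).P

def St_TOWER : Prop :=
  ∀ (R E Λ O : Type) [Ring R] [Ring E] (S : Sys R E Λ O) (Rf : O → O → AddSubgroup R) (j : ℤ),
    S.IsSys Rf j → 1 ≤ j → ∃ (G Λ₂ : Type) (_ : Ring G) (S₂ : Sys R G Λ₂ O) (lev : Λ₂ → ℕ),
      S₂.IsSys Rf j ∧ (∀ l, S₂.ok l → 1 ≤ lev l) ∧
      (∀ k, ∃ K : Cell Λ₂, (S₂.sub fun l => lev l ≤ k + 1).IsCell Rf K j ∧
        ∀ l, K.inE l ↔ lev l ≤ k) ∧
      ∀ (B : Type) [CommRing B], ((S₂.cat Rf).bc B).P → ((S.cat Rf).bc B).P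

def St_STEP : Prop :=
  ∀ (R O : Type) [Ring R] (Rf : O → O → AddSubgroup R) (j : ℤ), 1 ≤ j →
    (∀ (A : Type) [CommRing A] [IsDomain A] [IsPrincipalIdealRing A], Lev Rf A j) → GoodB Rf

def St_CORE : Prop :=
  ∀ (G O : Type) [Group G] [MulAction G O] (n : ℕ),
    (∀ o : O, CdLE (MulAction.stabilizer G o) n) → GoodO G O

def St_KC : Prop :=
  ∀ (R E Λ : Type) [Ring R] [Ring E] (S : Sys R E Λ Unit) (K : Cell Λ) (_ : R →+* ℤ),
    S.IsCell (fun _ _ => ⊤) K 0 → (∀ l, ¬ K.inE l) → (∀ l, l = S.u ∨ S.ok l) →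
    (∀ l, S.deg l = 0) → Lev (fun _ _ : Unit => (⊤ : AddSubgroup R)) ℤ 1 →
    Function.Bijective (WhDet.K1.map S.i)

def St_TEN : Prop :=
  ∀ (R T Λ : Type) [Ring R] [Ring T] (i : R →+* T) (x : Λ → T), IsTensorRing i x →
    ∃ (S : Sys R T (List Λ) Unit) (K : Cell (List Λ)), S.i = i ∧ S.IsCell (fun _ _ => ⊤) K 0 ∧
      (∀ l, ¬ K.inE l) ∧ (∀ l, l = S.u ∨ S.ok l) ∧ ∀ l, S.deg l = 0

/-! ### The class of groups with vanishing Nil terms -/

/-- generated by the groups of finite cohomological dimension under unions, actions on trees and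
actions on `ℤ ^ ι` by permutations of the coordinates and translations -/
inductive NilCl : (G : Type) → [Group G] → Prop
  | fin (G : Type) [Group G] (n : ℕ) : CdLE G n → NilCl G
  | union (G : Type) [Group G] (H : Finset G → Subgroup G) :
      (∀ s, ∀ g ∈ s, g ∈ H s) → (∀ s, NilCl (H s)) → NilCl G
  | tree (G V : Type) [Group G] [MulAction G V] (T : SimpleGraph V) : T.IsTree →
      (∀ (g : G) u v, T.Adj u v → T.Adj (g • u) (g • v)) →
      (∀ (g : G) u v, T.Adj u v → g • u = v → g • v ≠ u) →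
      (∀ v : V, NilCl (MulAction.stabilizer G v)) → NilCl G
  | act (G ι : Type) [Group G] [Fintype ι] [MulAction G ι] (a : G → ι → ℤ) :
      (∀ g h i, a (g * h) i = a g i + a h (g⁻¹ • i)) →
      (∀ (d : ι → ℤ) (H : Subgroup G), (∀ g, g ∈ H ↔ ∀ i, d (g⁻¹ • i) + a g i = d i) → NilCl H) →
      NilCl G

def St_TREE : Prop :=
  ∀ (G O X K : Type) [Group G] [MulAction G O] [MulAction G X] [MulAction G K]
    (F : CellSys G O X K) (n : ℕ) (A : Type) [CommRing A], (∀ s, 0 ≤ F.rk s ∧ F.rk s ≤ n) →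
    Lev (gfam G X) A 1 → Lev (gfam G O) A (n + 1)

/-- finite data lift to a refinement -/
def St_UREF : Prop :=
  ∀ (G O : Type) [Group G] [MulAction G O] (A : Type) [CommRing A],
    (∀ (F : Finset G) (F' : Finset O), ∃ (X : Type) (_ : MulAction G X) (π : X → O) (σ : F' → X),
      (∀ (g : G) x, π (g • x) = g • π x) ∧ (∀ o, π (σ o) = o) ∧
      (∀ g ∈ F, ∀ o o' : F', g • o'.1 = o.1 → g • σ o' = σ o) ∧ Lev (gfam G X) A 1) →
    Lev (gfam G O) A 1

def St_IND : Prop :=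
  ∀ (G O : Type) [Group G] [MulAction G O], (∀ o : O, NilCl (MulAction.stabilizer G o)) →
    GoodO G O

def St_NCL : Prop :=
  (∀ (G H : Type) [Group G] [Group H] (f : H →* G), Function.Injective f → NilCl G → NilCl H) ∧
  ∀ (G : Type) [Group G] (n : ℕ), NilCl G → NilCl (G × Multiplicative (Fin n → ℤ))

def St_H1 : Prop :=
  ∀ (G T Λ : Type) [Group G] [Ring T] (i : MonoidAlgebra ℤ G →+* T) (x : Λ → T), NilCl G →
    IsTensorRing i x → Function.Bijective (WhDet.K1.map i)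

end Pool.Agent.Lib.NIL
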