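import Pool.Agent.Lib.NIL.A7
import Pool.Agent.Lib.NIL.Blue

/-! The endomorphism system of a cell attachment. -/

noncomputable section

namespace Pool.Agent.Lib.NIL

open Finsupp

namespace EPP

variable {R E Λ O : Type}

/-- the matrix with the given entries, first row `true` -/
def m4 (a b c d : E) : Matrix Bool Bool E :=
  Matrix.of fun i k => cond i (cond k a b) (cond k c d)

@[simp] theorem m4_tt (a b c d : E) : m4 a b c d true true = a := rfl
@[simp] theorem m4_tf (a b c d : E) : m4 a b c d true false = b := rfl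
@[simp] theorem m4_ft (a b c d : E) : m4 a b c d false true = c := rfl
@[simp] theorem m4_ff (a b c d : E) : m4 a b c d false false = d := rfl

theorem mext {M N : Matrix Bool Bool E} (h1 : M true true = N true true)
    (h2 : M true false = N true false) (h3 : M false true = N false true)
    (h4 : M false false = N false false) : M = N := by
  ext i k
  cases i <;> cases k <;> assumption

variable [Ring R] [Ring E]

theorem mmul (M N : Matrix Bool Bool E) (i k : Bool) :
    (M * N) i k = M i true * N true k + M i false * N false k := by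
  rw [Matrix.mul_apply, Fintype.sum_bool]

def sg2 (σ : E →+ E) : Matrix Bool Bool E →+ Matrix Bool Bool E :=
  AddMonoidHom.mk' (fun M => m4 (σ (M true true)) (-σ (M true false)) (-σ (M false true))
    (σ (M false false))) fun M N => by
      apply mext <;> simp [add_comm]

def d2 (σ d : E →+ E) : Matrix Bool Bool E →+ Matrix Bool Bool E :=
  AddMonoidHom.mk' (fun M => m4 (σ (M false true) - d (M true true))
    (d (M true false) + M true true - σ (M false false)) (-d (M false true))
    (d (M false false) + M false true)) fun M N => by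
      apply mext <;> simp only [m4_tt, m4_tf, m4_ft, m4_ff, Matrix.add_apply, map_add] <;> abel

theorem sg2_apply (σ : E →+ E) (M : Matrix Bool Bool E) : sg2 σ M = m4 (σ (M true true))
    (-σ (M true false)) (-σ (M false true)) (σ (M false false)) := rfl

theorem d2_apply (σ d : E →+ E) (M : Matrix Bool Bool E) : d2 σ d M =
    m4 (σ (M false true) - d (M true true)) (d (M true false) + M true true - σ (M false false))
      (-d (M false true)) (d (M false false) + M false true) := rfl

theorem isDG2 {σ d : E →+ E} (h : IsDG σ d) : IsDG (sg2 σ) (d2 σ d) where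
  σ_one := by
    apply mext <;> simp [sg2_apply, h.σ_one]
  σ_mul a b := by
    apply mext <;> simp [sg2_apply, mmul, h.σ_mul, add_comm]
  σσ a := by
    apply mext <;> simp [sg2_apply, h.σσ]
  dσ a := by
    apply mext <;>
      simp only [sg2_apply, d2_apply, m4_tt, m4_tf, m4_ft, m4_ff, Matrix.neg_apply, map_neg,
        map_sub, map_add, h.σσ, h.dσ] <;> abel
  dd a := by
    apply mext <;>
      simp only [d2_apply, m4_tt, m4_tf, m4_ft, m4_ff, Matrix.zero_apply, map_neg,
        map_sub, map_add, h.dd, h.dσ] <;> abel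
  leib a b := by
    apply mext <;>
      simp only [sg2_apply, d2_apply, m4_tt, m4_tf, m4_ft, m4_ff, Matrix.add_apply, mmul, map_add,
        h.leib, h.σ_mul] <;> noncomm_ring

def psi (c : E ≃+ (Λ →₀ R)) : Matrix Bool Bool E ≃+ (Bool × Bool × Λ →₀ R) :=
  (Matrix.ofAddEquiv.symm.trans (AddEquiv.piCongrRight fun _ =>
    ((AddEquiv.piCongrRight fun _ => c).trans addEquivFunOnFinite.symm).trans
      curryAddEquiv.symm)).trans (addEquivFunOnFinite.symm.trans curryAddEquiv.symm)

theorem psi_apply (c : E ≃+ (Λ →₀ R)) (M : Matrix Bool Bool E) (b b' : Bool) (l : Λ) :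
    psi c M (b, b', l) = c (M b b') l := rfl

variable (S : Sys R E Λ O) (K : Cell Λ)

def phi : Matrix Bool Bool E ≃+ Matrix Bool Bool E where
  toFun M := m4 (M true true + (S.att K (M true false) - S.i (S.aug (M false false))))
    (M true false) (M false true) (M false false)
  invFun M := m4 (M true true - (S.att K (M true false) - S.i (S.aug (M false false))))
    (M true false) (M false true) (M false false)
  left_inv M := by apply mext <;> simp
  right_inv M := by apply mext <;> simp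
  map_add' M N := by
    apply mext <;> simp only [m4_tt, m4_tf, m4_ft, m4_ff, Matrix.add_apply, map_add]
    abel

def emb : E →+ Matrix Bool Bool E :=
  AddMonoidHom.mk' (fun a => m4 (-S.att K a) a 0 0) fun a b => by
    apply mext <;> simp [add_comm]

theorem emb_apply (a : E) : emb S K a = m4 (-S.att K a) a 0 0 := rfl

def sys : Sys R (Matrix Bool Bool E) (Bool × Bool × Λ) O where
  σ := sg2 S.σ
  d := d2 S.σ S.d
  i := (Matrix.scalar Bool).comp S.i
  c := (phi S K).trans (psi S.c)
  u := (false, false, S.u)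
  ok l := l.1 = true ∧ l.2.1 = false ∧ K.inN l.2.2
  s l := S.s l.2.2
  t l := S.t l.2.2
  deg l := cond l.1 (S.deg l.2.2 + 1) (S.deg l.2.2)
  ρ l := S.ρ l.2.2

def bm : BM (Matrix Bool Bool E) O E (O × Bool) Bool where
  act a k := equivFunOnFinite.symm (a k)
  dg k := cond k (-1) 0
  lb o k := (o, k)
  Δ k := cond k (single false 1) 0

theorem i_apply (r : R) : (sys S K).i r = m4 (S.i r) 0 0 (S.i r) := by
  apply mext <;> simp [sys]

theorem c_tt (M : Matrix Bool Bool E) (l : Λ) : (sys S K).c M (true, true, l) =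
    S.c (M true true + (S.att K (M true false) - S.i (S.aug (M false false)))) l := rfl

theorem c_tf (M : Matrix Bool Bool E) (l : Λ) :
    (sys S K).c M (true, false, l) = S.c (M true false) l := rfl

theorem c_ft (M : Matrix Bool Bool E) (l : Λ) :
    (sys S K).c M (false, true, l) = S.c (M false true) l := rfl

theorem c_ff (M : Matrix Bool Bool E) (l : Λ) :
    (sys S K).c M (false, false, l) = S.c (M false false) l := rfl

theorem aug_eq (M : Matrix Bool Bool E) : (sys S K).aug M = S.aug (M false false) := rfl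

theorem aug_def (e : E) : S.aug e = S.c e S.u := rfl

theorem c_emb (a : E) :
    (sys S K).c (emb S K a) = mapDomain (fun l => (true, false, l)) (S.c a) := by
  have hi : Function.Injective fun l : Λ => (true, false, l) := fun _ _ e => by simpa using e
  ext ⟨b, b', l⟩
  cases b <;> cases b'
  · rw [c_ff, mapDomain_of_notMem_range _ _ (by simp)]; simp [emb_apply]
  · rw [c_ft, mapDomain_of_notMem_range _ _ (by simp)]; simp [emb_apply]
  · rw [c_tf]; exact (mapDomain_apply hi _ l).symm
  · rw [c_tt, mapDomain_of_notMem_range _ _ (by simp)]; simp [emb_apply]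

theorem ε_tf (l : Λ) : (sys S K).ε (true, false, l) = emb S K (S.ε l) := by
  apply (sys S K).c.injective
  rw [Sys.c_ε, c_emb, Sys.c_ε, mapDomain_single]

theorem src_tf (l : Λ) (o : O) : (sys S K).src (true, false, l) o = S.s l :=
  Sys.src_of_ne (S := sys S K) (by simp [sys])

variable {S K} {Rf : O → O → AddSubgroup R} {j : ℤ} {o o' o'' : O}
  {T : Bool × Bool × Λ → Prop}

theorem c_mul (h : S.IsSys Rf j) (r : R) (M : Matrix Bool Bool E) :
    (sys S K).c ((sys S K).i r * M) = r • (sys S K).c M := by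
  have e1 : ∀ b b', ((sys S K).i r * M) b b' = S.i r * M b b' := fun b b' => by
    cases b <;> simp [mmul, i_apply]
  have e2 : ∀ e, S.att K (S.i r * e) = S.i r * S.att K e := fun e => by
    change S.pr K.inE (S.d (S.i r * e)) = S.i r * S.pr K.inE (S.d e)
    rw [h.dg.leib, h.d_i, zero_mul, add_zero, h.pr_mul]
  have e3 : ∀ e, S.aug (S.i r * e) = r * S.aug e := fun e => by
    rw [aug_def, aug_def, h.c_mul, Finsupp.smul_apply, smul_eq_mul]
  ext ⟨b, b', l⟩
  rw [Finsupp.smul_apply]
  cases b <;> cases b'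
  · rw [c_ff, c_ff, e1, h.c_mul, Finsupp.smul_apply]
  · rw [c_ft, c_ft, e1, h.c_mul, Finsupp.smul_apply]
  · rw [c_tf, c_tf, e1, h.c_mul, Finsupp.smul_apply]
  · rw [c_tt, c_tt, e1, e1, e1, e2, e3, map_mul, ← mul_sub, ← mul_add, h.c_mul, Finsupp.smul_apply]

theorem c_i0 (h : S.IsSys Rf j) (r : R) : S.c (S.i r) = single S.u r := by
  rw [← h.c_i_ε, h.ε_u, mul_one]

theorem c_i (h : S.IsSys Rf j) (r : R) :
    (sys S K).c ((sys S K).i r) = single (sys S K).u r := by
  have hi : Function.Injective fun l : Λ => (false, false, l) := fun _ _ e => by simpa using e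
  ext ⟨b, b', l⟩
  change _ = single (false, false, S.u) r (b, b', l)
  cases b <;> cases b'
  · rw [c_ff, i_apply, m4_ff, c_i0 h]
    exact (single_apply_left hi S.u l r).symm
  · rw [c_ft, single_eq_of_ne (by simp)]; simp [i_apply]
  · rw [c_tf, single_eq_of_ne (by simp)]; simp [i_apply]
  · rw [c_tt, single_eq_of_ne (by simp)]; simp [i_apply, h.aug_i]

theorem emb_mem (h : S.IsCell Rf K j) {a : E}
    (ha : a ∈ S.Sp Rf (fun l => K.inN l ∧ T (true, false, l)) o o') :
    emb S K a ∈ (sys S K).Sp Rf T o o' := by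
  have hi : Function.Injective fun l : Λ => (true, false, l) := fun _ _ e => by simpa using e
  intro p
  rw [c_emb]
  by_cases hp : p ∈ Set.range fun l : Λ => (true, false, l)
  · obtain ⟨l, rfl⟩ := hp
    rw [mapDomain_apply hi, src_tf]
    by_cases h0 : S.c a l = 0
    · rw [h0]; exact ⟨zero_mem _, fun e => (e rfl).elim⟩
    · obtain ⟨hv, hN, hT⟩ := (ha l).2 h0
      have hu := h.sys.ne_u l (h.inN l hN).1
      refine ⟨Sys.src_of_ne (o := o') hu ▸ (ha l).1, fun _ => ⟨Or.inr ⟨⟨rfl, rfl, hN⟩, ?_⟩, hT⟩⟩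
      exact (hv.resolve_left hu).2
  · rw [mapDomain_of_notMem_range _ _ hp]
    exact ⟨zero_mem _, fun e => (e rfl).elim⟩

theorem decomp (h : S.IsCell Rf K j) {M : Matrix Bool Bool E}
    (hM : M ∈ (sys S K).Sp Rf T o o') : ∃ r a, M = (sys S K).i r + emb S K a ∧ r ∈ Rf o o' ∧
      (r ≠ 0 → T (sys S K).u) ∧ a ∈ S.Sp Rf (fun l => K.inN l ∧ T (true, false, l)) o o' := by
  have hv : ∀ b b' l, (sys S K).c M (b, b', l) ≠ 0 → ((b = false ∧ b' = false ∧ l = S.u) ∨
      (b = true ∧ b' = false ∧ K.inN l) ∧ S.t l = o') ∧ T (b, b', l) := fun b b' l h0 => by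
    obtain ⟨h1, h2⟩ := (hM _).2 h0
    exact ⟨h1.imp (fun e => by simpa [sys] using e) id, h2⟩
  have z : ∀ e : E, (∀ l, S.c e l = 0) → e = 0 := fun e he =>
    S.c.injective (by rw [map_zero]; exact Finsupp.ext he)
  have e1 : M true true + (S.att K (M true false) - S.i (S.aug (M false false))) = 0 :=
    z _ fun l => by
      by_contra h0
      simpa using (hv true true l h0).1
  have e2 : M false true = 0 := z _ fun l => by
    by_contra h0
    simpa using (hv false true l h0).1
  have e3 : M false false = S.i (S.aug (M false false)) := S.c.injective <| by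
    rw [c_i0 h.sys]
    ext l
    by_cases hl : l = S.u
    · rw [hl, single_eq_same, aug_def]
    · rw [single_eq_of_ne hl]
      by_contra h0
      exact hl (by simpa using (hv false false l h0).1)
  refine ⟨S.aug (M false false), M true false, ?_, ?_, fun h0 => (hv false false S.u h0).2,
    fun l => ?_⟩
  · apply mext <;> simp only [i_apply, emb_apply, Matrix.add_apply, m4_tt, m4_tf, m4_ft, m4_ff,
      add_zero, zero_add]
    · rw [eq_neg_of_add_eq_zero_left e1]; abel
    · exact e2
    · exact e3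
  · have := (hM (sys S K).u).1
    rwa [Sys.src_u] at this
  · by_cases h0 : S.c (M true false) l = 0
    · rw [h0]; exact ⟨zero_mem _, fun e => (e rfl).elim⟩
    · obtain ⟨h1, h2⟩ := hv true false l h0
      obtain ⟨⟨-, -, hN⟩, ht⟩ := h1.resolve_left (by simp)
      have hok := (h.inN l hN).1
      have := (hM (true, false, l)).1
      rw [src_tf] at this
      exact ⟨(Sys.src_of_ne (o := o') (h.sys.ne_u l hok)).symm ▸ this,
        fun _ => ⟨Or.inr ⟨hok, ht⟩, hN, h2⟩⟩

theorem att_deg (h : S.IsCell Rf K j) {k : ℤ} {a : E}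
    (ha : a ∈ S.Sp Rf (fun l => K.inN l ∧ S.deg l = k) o o') :
    S.att K a ∈ S.Sp Rf (fun l => K.inE l ∧ S.deg l = k + 1) o o' := by
  obtain ⟨n, hn⟩ := h.sys.exists_rank ha
  exact Sys.Sp_mono (fun l _ e => ⟨e.1, e.2.2.1⟩)
    (h.att_mem (n := n) (Sys.Sp_mono (fun l _ e => ⟨e.1.1, e.1.2, e.2⟩) hn))

theorem isSys (h : S.IsCell Rf K j) : (sys S K).IsSys Rf (j + 1) := by
  have hε : ∀ l, K.inN l → S.ε l ∈
      S.Sp Rf (fun m => K.inN m ∧ S.deg m = S.deg l ∧ S.ρ m ≤ S.ρ l) (S.s l) (S.t l) :=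
    fun l hN => Sys.src_of_ne (o := S.t l) (h.sys.ne_u l (h.inN l hN).1) ▸
      h.sys.ε_mem (Or.inr ⟨(h.inN l hN).1, rfl⟩) ⟨hN, rfl, le_rfl⟩
  have hεN : ∀ l, K.inN l → S.ε l ∈ S.Sp Rf K.inN (S.s l) (S.t l) := fun l hN =>
    Sys.Sp_mono (fun _ _ e => e.1) (hε l hN)
  have hne : ∀ l : Λ, (true, false, l) ≠ (sys S K).u := fun l => by simp [sys]
  refine ⟨h.sys.bas, isDG2 h.sys.dg, fun r => ?_, fun r => ?_, c_mul h.sys, ?_, h.sys.deg_u,
    h.sys.ρ_u, ?_, ?_, ?_, ?_, ?_, ?_, ?_⟩
  · change sg2 S.σ _ = _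
    apply mext <;> simp [sg2_apply, i_apply, h.sys.σ_i]
  · change d2 S.σ S.d _ = _
    apply mext <;> simp [d2_apply, i_apply, h.sys.σ_i, h.sys.d_i]
  · rw [← c_i h.sys, (sys S K).i.map_one]
  · rintro ⟨_, _, l⟩ ⟨rfl, rfl, -⟩
    exact hne l
  · rintro ⟨_, _, l⟩ ⟨rfl, rfl, hN⟩
    exact add_le_add (h.sys.deg_ge l (h.inN l hN).1) le_rfl
  · rintro ⟨_, _, l⟩ ⟨rfl, rfl, hN⟩
    exact h.sys.ρ_pos l (h.inN l hN).1
  · rintro ⟨_, _, l⟩ ⟨rfl, rfl, hN⟩
    have e1 : S.σ (S.att K (S.ε l)) = (S.deg l + 1).negOnePow • S.att K (S.ε l) :=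
      h.sys.good.σ_eq (Sys.Sp_mono (fun _ _ e => e.2)
        (att_deg h (Sys.Sp_mono (fun _ _ e => ⟨e.1, e.2.1⟩) (hε l hN))))
    rw [ε_tf]
    change sg2 S.σ _ = (S.deg l + 1).negOnePow • _
    apply mext <;> simp [sg2_apply, emb_apply, e1, h.sys.σ_ε l (h.inN l hN).1, Int.negOnePow_succ]
  · rintro ⟨_, _, l⟩ o r ⟨rfl, rfl, hN⟩ hr
    have e : emb S K (S.ε l) * (sys S K).i r = emb S K (S.ε l * S.i r) := by
      apply mext <;> simp [mmul, emb_apply, i_apply, h.att_mul_i (hεN l hN) hr]
    rw [ε_tf, e]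
    refine emb_mem h (Sys.Sp_mono (fun m _ e => ⟨e.1, hne m, ?_, e.2.2.2⟩)
      (Sys.mem_Sp_and.2 ⟨h.mulR l o r hN hr, h.sys.mulR l o r (h.inN l hN).1 hr⟩))
    exact congrArg (· + 1) e.2.2.1
  · rintro ⟨_, _, l⟩ ⟨_, _, l'⟩ ⟨rfl, rfl, hN⟩ ⟨rfl, rfl, hN'⟩ (ht : S.t l = S.s l')
    have a1 := h.att_mem (hε l hN)
    have a2 : S.att K (S.ε l) ∈ S.Sp Rf (fun m => m = S.u ∨ K.inE m) (S.s l) (S.s l') :=
      ht ▸ Sys.Sp_mono (fun _ _ e => Or.inr e.1) a1
    have e : emb S K (S.ε l) * emb S K (S.ε l') = emb S K (-(S.att K (S.ε l) * S.ε l')) := by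
      apply mext <;> simp [mmul, emb_apply, h.att_mul a2 (hεN l' hN')]
    have a3 := h.sys.mul_mem (p := False) (p' := False) (k := S.deg l + 1) (k' := S.deg l')
      (n := S.ρ l) (n' := S.ρ l') (Sys.Sp_mono (fun _ _ e => ⟨e.2.2.1, e.2.2.2.le, False.elim⟩) a1)
      (Sys.Sp_mono (fun _ _ e => ⟨e.2.1, e.2.2, False.elim⟩) (ht.symm ▸ hε l' hN' : S.ε l' ∈
        S.Sp Rf _ (S.t l) (S.t l')))
    rw [ε_tf, ε_tf, e]
    refine emb_mem h (neg_mem (Sys.Sp_mono (fun m _ e => ⟨e.1, hne m, ?_, e.2.2.1⟩)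
      (Sys.mem_Sp_and.2 ⟨h.mul_EN a2 (hεN l' hN'), a3⟩)))
    have := e.2.1
    change S.deg m + 1 = S.deg l + 1 + (S.deg l' + 1)
    omega
  · rintro ⟨_, _, l⟩ ⟨rfl, rfl, hN⟩
    have e : d2 S.σ S.d (emb S K (S.ε l)) = emb S K (S.d (S.ε l) - S.att K (S.ε l)) := by
      apply mext <;> simp only [d2_apply, emb_apply, m4_tt, m4_tf, m4_ft, m4_ff,
        h.att_d (hεN l hN), map_zero, map_neg] <;> abel
    have a1 : S.d (S.ε l) - S.att K (S.ε l) ∈
        S.Sp Rf (fun m => S.deg m = S.deg l + 1 ∧ S.ρ m < S.ρ l) (S.s l) (S.t l) :=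
      sub_mem (Sys.Sp_mono (fun _ _ e => e.2) (h.sys.d_ε l (h.inN l hN).1))
        (Sys.Sp_mono (fun _ _ e => e.2.2) (h.att_mem (hε l hN)))
    rw [ε_tf]
    change d2 S.σ S.d _ ∈ _
    rw [e]
    refine emb_mem h (Sys.Sp_mono (fun m _ e => ⟨e.1, hne m, ?_, e.2.2⟩)
      (Sys.mem_Sp_and.2 ⟨h.d_sub_att (hεN l hN), a1⟩))
    exact congrArg (· + 1) e.2.1

theorem lc_bool {κ : Type} (f : Bool → κ →₀ E) (v : Bool →₀ E) :
    lc f v = v true • f true + v false • f false := by
  rw [linearCombination_apply, sum_fintype v (fun i a => a • f i) fun _ => zero_smul _ _,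
    Fintype.sum_bool]

theorem D_pt (C : Cat E (O × Bool)) (o : O) (v : Bool →₀ E) :
    C.D ((bm (E := E)).pt o) v true = -C.d (v true) ∧
      C.D ((bm (E := E)).pt o) v false = v true + C.d (v false) := by
  have e : ∀ k, lc (bm (E := E) (O := O)).Δ v k = v true * (single false 1 : Bool →₀ E) k :=
    fun k => by
      rw [lc_bool]
      cases k <;> simp [bm]
  constructor
  · rw [Cat.D_apply, Finsupp.add_apply, Raw.tw_apply]
    change lc (bm (E := E) (O := O)).Δ v true + (-1 : ℤ).negOnePow • _ = _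
    rw [e]; simp [Int.negOnePow_neg]
  · rw [Cat.D_apply, Finsupp.add_apply, Raw.tw_apply]
    change lc (bm (E := E) (O := O)).Δ v false + (0 : ℤ).negOnePow • _ = _
    rw [e]; simp

theorem i_tri (h : S.IsCell Rf K j) {n : ℤ} {r : R} (hr : r ∈ Rf o o') (hn : r ≠ 0 → n = 0)
    {b b' : Bool} (hb : b = false → b' = false) : S.i r ∈ (S.tri Rf K).H n (o, b) (o', b') := by
  by_cases h0 : r = 0
  · rw [h0, map_zero]; exact zero_mem _
  · have := h.sys.i_ε_mem (T := fun l => S.deg l = n ∧ (b = false → b' = false ∧ l = S.u) ∧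
      (l = S.u ∨ K.inE l ∨ b' = false ∧ K.inN l)) (o := o) (o' := o') (r := r) (Or.inl rfl)
      ⟨h.sys.deg_u.trans (hn h0).symm, fun e => ⟨hb e, rfl⟩, Or.inl rfl⟩ (by rwa [Sys.src_u])
    rwa [h.sys.ε_u, mul_one] at this

theorem isBM (h : S.IsCell Rf K j) : IsBM ((sys S K).cat Rf) (S.tri Rf K) bm where
  add a b k := by ext k'; rfl
  one k := by
    ext k'
    cases k <;> cases k' <;> simp [bm]
  mul {n n' o o' o'' a b} _ _ k := by
    ext k'
    rw [lc_bool]
    exact mmul a b k k'
  mem {n o o' a} ha k k' := by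
    obtain ⟨r, x, rfl, hr, hu, hx⟩ := decomp h ha
    have hn : r ≠ 0 → n = 0 := fun h0 => (hu h0).symm.trans h.sys.deg_u
    have hx' : x ∈ S.Sp Rf (fun l => K.inN l ∧ S.deg l = n - 1) o o' :=
      Sys.Sp_mono (fun l _ e => ⟨e.1, eq_sub_of_add_eq e.2⟩) hx
    change ((sys S K).i r + emb S K x) k k' ∈
      (S.tri Rf K).H (n + cond k (-1) 0 - cond k' (-1) 0) (o, k) (o', k')
    cases k <;> cases k' <;> simp only [Matrix.add_apply, i_apply, emb_apply, m4_tt, m4_tf, m4_ft,
      m4_ff, add_zero, zero_add, cond_true, cond_false, sub_zero, add_sub_cancel_right]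
    · exact i_tri h hr hn id
    · exact zero_mem _
    · exact Sys.Sp_mono (fun l _ e => ⟨e.2, fun e' => by simp at e', Or.inr (Or.inr ⟨rfl, e.1⟩)⟩) hx'
    · refine add_mem (i_tri h hr hn fun e => by simp at e) (neg_mem (Sys.Sp_mono (fun l _ e =>
        ⟨e.2.trans (sub_add_cancel _ _), fun e' => by simp at e', Or.inr (Or.inl e.1)⟩)
        (att_deg h hx')))
  pt o := by
    refine ⟨fun k k' => ?_, fun v => ?_⟩
    · change (lc (bm (E := E) (O := O)).Δ (single k 1)) k' ∈
        (S.tri Rf K).H (cond k (-1) 0 + 1 - cond k' (-1) 0) (o, k) (o, k')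
      rw [linearCombination_single, one_smul]
      cases k <;> cases k'
      · exact zero_mem _
      · exact zero_mem _
      · have := i_tri h (n := -1 + 1 - 0) (h.sys.bas.one_mem o) (fun _ => by norm_num)
          (b := true) (b' := false) fun _ => rfl
        rw [map_one] at this
        change (single false (1 : E)) false ∈ _
        rwa [single_eq_same]
      · change (single false (1 : E)) true ∈ _
        rw [single_eq_of_ne (by simp)]
        exact zero_mem _
    · have hd : ∀ a, (S.tri Rf K).d ((S.tri Rf K).d a) = 0 := h.sys.dg.dd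
      ext k
      cases k
      · rw [(D_pt _ _ _).2, (D_pt _ _ _).1, (D_pt _ _ _).2, map_add, hd]; simp
      · rw [(D_pt _ _ _).1, (D_pt _ _ _).1, map_neg, hd]; simp
  d {n o o' a} ha k := by
    have hs : sg2 S.σ a = n.negOnePow • a := (isSys h).good.σ_eq ha
    have h1 : S.σ (a false true) = -(n.negOnePow • a false true) :=
      neg_eq_iff_eq_neg.1 (congrFun (congrFun hs false) true)
    have h2 : S.σ (a false false) = n.negOnePow • a false false :=
      congrFun (congrFun hs false) false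
    have e : ∀ k', (n.negOnePow • lc ((bm (O := O)).act a) ((bm (O := O)).Δ k)) k' =
        cond k (n.negOnePow • a false k') 0 := fun k' => by
      cases k
      · change (n.negOnePow • lc ((bm (O := O)).act a) 0) k' = 0
        simp
      · change (n.negOnePow • lc ((bm (O := O)).act a) (single false 1)) k' = _
        rw [linearCombination_single, one_smul]; rfl
    ext k'
    rw [Finsupp.add_apply, e]
    cases k'
    · rw [(D_pt _ _ _).2]
      change a k true + S.d (a k false) = d2 S.σ S.d a k false + _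
      cases k <;> simp only [d2_apply, m4_tf, m4_ff, cond_true, cond_false, h2] <;> abel
    · rw [(D_pt _ _ _).1]
      change -S.d (a k true) = d2 S.σ S.d a k true + _
      cases k <;> simp only [d2_apply, m4_tt, m4_ft, cond_true, cond_false, h1] <;> abel

end EPP

open EPP in
theorem st_epp : St_EPP := by
  intro R E Λ O _ _ S Rf K j h hj
  refine ⟨Matrix Bool Bool E, Bool × Bool × Λ, inferInstance, sys S K, bm,
    fun b b' => Matrix.entryAddMonoidHom E b b', emb S K, isSys h,
    ⟨h.sys.good, h.tri_good, rfl, h.tri_le, ((isSys h).mono (by omega)).aug' le_rfl, isBM h,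
      fun _ _ _ => rfl, rfl, rfl, rfl, rfl, fun _ => rfl, fun _ _ _ =>
        ⟨fun b b' => Matrix.singleAddMonoidHom b b', fun a _ => Matrix.matrix_eq_sum_single a⟩⟩,
    fun _ _ => rfl, fun r b b' => ?_, fun k o o' a ha => ?_, fun k o o' a ha => ?_,
    fun _ => rfl, fun _ => rfl, fun a b => ?_⟩
  · change (sys S K).i r b b' = _
    cases b <;> cases b' <;> simp [i_apply]
  · obtain ⟨r, x, rfl, -⟩ := decomp h ha
    change ((sys S K).i r + emb S K x) false false = _
    simp [aug_eq, i_apply, emb_apply, h.sys.aug_i]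
  · exact emb_mem h (Sys.Sp_mono (fun l _ e => ⟨e.1, congrArg (· + 1) e.2⟩) ha)
  · cases b <;> rfl

end Pool.Agent.Lib.NIL
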