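import Pool.Agent.Lib.NIL.CellSys

/-! Induction of systems of cells from the stabilisers. -/

noncomputable section

namespace Pool.Agent.Lib.NIL

open Finsupp MulAction

namespace IndF

variable {G O : Type} [Group G] [MulAction G O] {X K : O → Type}
  [∀ o, MulAction (stabilizer G o) (X o)] [∀ o, MulAction (stabilizer G o) (K o)]
  (C : ∀ o, CellSys (stabilizer G o) Unit (X o) (K o))

theorem md_supp {ω : Ω G O} {o : Fib ω} {v : K ω.out →₀ ℤ} {e : Cl (G := G) K}
    (h : mapDomain (j o) v e ≠ 0) : ∃ x, v x ≠ 0 ∧ e = j o x := by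
  obtain ⟨x, rfl⟩ : e ∈ Set.range (j (X := K) o) := by
    by_contra hn
    exact h (mapDomain_of_notMem_range _ _ hn)
  exact ⟨x, by rwa [mapDomain_apply (j_inj _)] at h, rfl⟩

omit [∀ o, MulAction (stabilizer G o) (K o)] in
theorem lc_md {ω : Ω G O} (o : Fib ω) (f : ∀ o, K o → K o →₀ ℤ) (v : K ω.out →₀ ℤ) :
    linearCombination ℤ (fun s : Cl (G := G) K => mapDomain (j s.2.1) (f _ s.2.2))
      (mapDomain (j o) v) = mapDomain (j o) (linearCombination ℤ (f _) v) := by
  induction v using Finsupp.induction_linear with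
  | zero => simp
  | add x y hx hy => simp only [mapDomain_add, map_add, hx, hy]
  | single x n =>
    rw [mapDomain_single, linearCombination_single, linearCombination_single, mapDomain_smul]
    rfl

/-- the induced poset -/
def gpos : GPos G O (Cl (G := G) X) where
  π s := s.2.1.1
  le s s' := ∃ x, s = j s'.2.1 x ∧ (C _).le x s'.2.2
  rk s := (C _).rk s.2.2
  π_smul _ _ := rfl
  le_refl s := ⟨s.2.2, rfl, (C _).le_refl _⟩
  le_trans := by
    rintro _ _ s ⟨x, rfl, h⟩ ⟨y, rfl, h'⟩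
    exact ⟨x, rfl, (C _).le_trans _ _ _ h h'⟩
  le_smul := by
    rintro g _ s ⟨x, rfl, h⟩
    exact ⟨_, rfl, (C _).le_smul _ _ _ h⟩
  rk_smul g s := (C _).rk_smul _ _
  π_le := by
    rintro _ s ⟨x, rfl, -⟩
    rfl
  rk_lt := by
    rintro _ s ⟨x, rfl, h⟩
    exact ((C _).rk_lt _ _ h).imp_left fun e => congrArg (j s.2.1) e

/-- the induced system of cells -/
def cellSys : CellSys G O (Cl (G := G) X) (Cl (G := G) K) where
  toGPos := gpos C
  lab c := j c.2.1 ((C _).lab c.2.2)
  dg c := (C _).dg c.2.2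
  sgn g c := (C _).sgn (coc g c.2.1) c.2.2
  bd c := mapDomain (j c.2.1) ((C _).bd c.2.2)
  eps c := (C _).eps c.2.2
  b o := j ⟨o, rfl⟩ ((C _).b ())
  s0 c := mapDomain (j c.2.1) ((C _).s0 c.2.2)
  lab_smul g c := congrArg (j _) ((C _).lab_smul _ _)
  dg_smul g c := (C _).dg_smul _ _
  sgn_mul g g' c := by
    rw [coc_mul]
    exact (C _).sgn_mul _ _ _
  bd_smul := by
    rintro g ⟨ω, o, x⟩ e
    change mapDomain (j (mv g o)) ((C _).bd (coc g o • x)) (g • e) * _ =
      _ * mapDomain (j o) ((C _).bd x) e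
    by_cases h : e ∈ Set.range (j (X := K) o)
    · obtain ⟨y, rfl⟩ := h
      rw [smul_j, mapDomain_apply (j_inj _), mapDomain_apply (j_inj _)]
      exact (C _).bd_smul _ _ _
    · rw [mapDomain_of_notMem_range _ _ h, mapDomain_of_notMem_range, zero_mul, mul_zero]
      rintro ⟨y, hy⟩
      refine h ⟨(coc g o)⁻¹ • y, MulAction.injective g ?_⟩
      beta_reduce
      rw [smul_j, smul_inv_smul, hy]
  bd_supp c e h := by
    obtain ⟨x, hx, rfl⟩ := md_supp h
    exact ⟨((C _).bd_supp _ _ hx).1, _, rfl, ((C _).bd_supp _ _ hx).2⟩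
  bd_bd c := by rw [lc_md _ fun o => (C o).bd, (C _).bd_bd, mapDomain_zero]
  eps_smul g c := (C _).eps_smul _ _
  eps_supp c h := (C _).eps_supp _ h
  eps_bd c := by
    rw [linearCombination_mapDomain]
    exact (C _).eps_bd _
  eps_s0 c := by
    rw [linearCombination_mapDomain]
    exact (C _).eps_s0 _
  π_b _ := rfl
  eps_b _ := (C _).eps_b _
  bd_b o := by
    change mapDomain _ ((C _).bd ((C _).b ())) = 0
    rw [(C _).bd_b, mapDomain_zero]
  s0_supp c e h := by
    obtain ⟨x, hx, rfl⟩ := md_supp h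
    exact (C _).s0_supp _ _ hx
  contr := by
    rintro ⟨ω, ⟨o, rfl⟩, x⟩
    have := congrArg (mapDomain.addMonoidHom (j (X := K) ⟨o, rfl⟩)) ((C _).contr x)
    rw [map_add, map_sub] at this
    simp only [mapDomain.addMonoidHom_apply, mapDomain_single] at this
    rw [lc_md _ fun o => (C o).bd, lc_md _ fun o => (C o).s0]
    exact this
  hull o S hS h := by
    obtain ⟨T, hT, h1, h2, h3⟩ := (C _).hull () (j (X := K) ⟨o, rfl⟩ ⁻¹' S)
      (hS.preimage (j_inj _).injOn) fun _ _ => rfl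
    refine ⟨j ⟨o, rfl⟩ '' T, hT.image _, ?_, ⟨_, h2, rfl⟩, ?_⟩
    · rintro ⟨ω, ⟨o', rfl⟩, x⟩ hs
      obtain rfl : o' = o := h _ hs
      exact ⟨x, h1 hs, rfl⟩
    · rintro _ ⟨x, hx, rfl⟩
      refine ⟨rfl, fun e he => ?_, fun e he => ?_⟩
      · obtain ⟨y, hy, rfl⟩ := md_supp he
        exact ⟨y, (h3 x hx).2.1 y hy, rfl⟩
      · obtain ⟨y, hy, rfl⟩ := md_supp he
        exact ⟨y, (h3 x hx).2.2 y hy, rfl⟩

end IndF

/-- Systems of cells for the stabilisers induce a system of cells over the `G`-set. -/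
theorem exists_cellSys_induced {G O : Type} [Group G] [MulAction G O] (P : ℤ → Subgroup G → Prop)
    (hP : ∀ e (K K' : Subgroup G) (t : G), (∀ g, g ∈ K' ↔ t⁻¹ * g * t ∈ K) → P e K → P e K')
    (h : ∀ o : O, ∃ (X K : Type) (_ : MulAction (stabilizer G o) X)
      (_ : MulAction (stabilizer G o) K) (C : CellSys (stabilizer G o) Unit X K), ∀ x,
        P (C.rk x) ((stabilizer (stabilizer G o) x).map (stabilizer G o).subtype)) :
    ∃ (X K : Type) (_ : MulAction G X) (_ : MulAction G K) (C : CellSys G O X K),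
      ∀ s, P (C.rk s) (stabilizer G s) := by
  choose X K inst inst' C hC using h
  refine ⟨IndF.Cl (G := G) X, IndF.Cl (G := G) K, inferInstance, inferInstance, IndF.cellSys C, ?_⟩
  rintro ⟨ω, o, x⟩
  exact hP _ _ _ (IndF.t o) (fun g => IndF.smul_eq_iff g o x) (hC _ x)

/-- the system with one cell -/
def CellSys.point (H : Type) [Group H] : CellSys H Unit Unit Unit := (Forest.point H).cellSys

theorem CellSys.point_rk (H : Type) [Group H] (s : Unit) : (CellSys.point H).rk s = 0 :=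
  if_neg id

end Pool.Agent.Lib.NIL
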