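import Pool.Agent.Lib.NIL.CellSys

/-! The cube complex of `ℤ ^ ι` as a system of cells. -/

noncomputable section

namespace Pool.Agent.Lib.NIL

open Finsupp Function

set_option linter.style.haveILetI false

namespace Cube

/-- the cells of the line: vertices `(d, false)` and edges `(d, true)` from `d` to `d + 1` -/
abbrev Ln : Type := ℤ × Bool

abbrev En (α : Type) : Type := Module.End ℤ (α →₀ ℤ)

theorem en_ext {α : Type} {f g : En α} (h : ∀ x, f (single x 1) = g (single x 1)) : f = g :=
  Finsupp.lhom_ext' fun x => LinearMap.ext_ring (h x)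

theorem md_neg {α β : Type} (f : α → β) (v : α →₀ ℤ) : mapDomain f (-v) = -mapDomain f v :=
  map_neg (mapDomain.addMonoidHom f) v

theorem md_sub {α β : Type} (f : α → β) (v w : α →₀ ℤ) :
    mapDomain f (v - w) = mapDomain f v - mapDomain f w := map_sub (mapDomain.addMonoidHom f) v w

/-- the chain of edges from `0` to `k` -/
def path (k : ℤ) : Ln →₀ ℤ :=
  onFinset (Finset.Icc (-|k|) |k| ×ˢ {true}) (fun x => if x.2 = true ∧ 0 ≤ x.1 ∧ x.1 < k then 1
    else if x.2 = true ∧ k ≤ x.1 ∧ x.1 < 0 then -1 else 0) fun x hx => by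
      rw [Finset.mem_product, Finset.mem_Icc, Finset.mem_singleton]
      have := le_abs_self k
      have := neg_abs_le k
      split_ifs at hx with h1 h2
      · exact ⟨by omega, h1.1⟩
      · exact ⟨by omega, h2.1⟩
      · exact absurd rfl hx

theorem path_supp {k : ℤ} {x : Ln} (h : path k x ≠ 0) :
    x.2 = true ∧ (0 ≤ x.1 ∧ x.1 < k ∨ k ≤ x.1 ∧ x.1 < 0) := by
  rw [path, onFinset_apply] at h
  split_ifs at h with h1 h2
  · exact ⟨h1.1, .inl h1.2⟩
  · exact ⟨h2.1, .inr h2.2⟩
  · exact absurd rfl h

theorem path_zero : path 0 = 0 := by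
  ext x
  by_contra h
  have := (path_supp h).2
  omega

theorem path_succ (k : ℤ) : path (k + 1) = path k + single (k, true) 1 := by
  ext ⟨t, b⟩
  cases b
  · simp [path]
  · simp only [path, onFinset_apply, Finsupp.add_apply, single_apply, Prod.mk.injEq, true_and,
      and_true]
    split_ifs <;> omega

def D0 (x : Ln) : Ln →₀ ℤ :=
  if x.2 = true then single (x.1 + 1, false) 1 - single (x.1, false) 1 else 0

def D : En Ln := linearCombination ℤ D0

def S : En Ln := linearCombination ℤ fun x => if x.2 = true then 0 else path x.1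

def P : En Ln := linearCombination ℤ fun x => if x.2 = true then 0 else single (0, false) 1

def T : En Ln := linearCombination ℤ fun x => if x.2 = true then -single x 1 else single x 1

theorem D_path (k : ℤ) : D (path k) = single (k, false) 1 - single (0, false) 1 := by
  induction k using Int.induction_on with
  | zero => simp [path_zero]
  | succ k ih => rw [path_succ, map_add, ih]; simp [D, D0]
  | pred k ih =>
    have h := path_succ (-(k : ℤ) - 1)
    rw [sub_add_cancel] at h
    rw [h, map_add] at ih
    rw [eq_sub_of_add_eq ih]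
    simp [D, D0]

theorem T_path (k : ℤ) : T (path k) = -path k := by
  induction k using Int.induction_on with
  | zero => simp [path_zero]
  | succ k ih => rw [path_succ, map_add, ih]; simp [T, add_comm]
  | pred k ih =>
    have h := path_succ (-(k : ℤ) - 1)
    rw [sub_add_cancel] at h
    rw [h, map_add] at ih
    rw [eq_sub_of_add_eq ih]
    simp [T]

theorem DD : D * D = 0 := en_ext fun ⟨k, b⟩ => by cases b <;> simp [D, D0]

theorem DP : D * P = 0 := en_ext fun ⟨k, b⟩ => by cases b <;> simp [D, D0, P]

theorem PD : P * D = 0 := en_ext fun ⟨k, b⟩ => by cases b <;> simp [D, D0, P]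

theorem TP : T * P = P := en_ext fun ⟨k, b⟩ => by cases b <;> simp [T, P]

theorem PT : P * T = P := en_ext fun ⟨k, b⟩ => by cases b <;> simp [T, P]

theorem DT : D * T + T * D = 0 := en_ext fun ⟨k, b⟩ => by cases b <;> simp [T, D, D0]

theorem TS : T * S + S * T = 0 := en_ext fun ⟨k, b⟩ => by
  cases b
  · have := T_path k
    simp only [T] at this
    simp [T, S, this]
  · simp [T, S]

theorem DS : D * S + S * D = 1 - P := en_ext fun ⟨k, b⟩ => by
  cases b
  · have := D_path k
    simp only [D] at this
    simp [D, D0, S, P, this]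
  · simp [D, D0, S, P, path_succ]

variable {ι : Type} [DecidableEq ι]

/-- an operator acting on one coordinate -/
def op0 (i : ι) (f : En Ln) : En (ι → Ln) :=
  linearCombination ℤ fun c => mapDomain (update c i) (f (single (c i) 1))

theorem op0_single (i : ι) (f : En Ln) (c : ι → Ln) :
    op0 i f (single c 1) = mapDomain (update c i) (f (single (c i) 1)) := by simp [op0]

theorem op0_map (i : ι) (f : En Ln) (c : ι → Ln) (v : Ln →₀ ℤ) :
    op0 i f (mapDomain (update c i) v) = mapDomain (update c i) (f v) := by
  induction v using Finsupp.induction_linear with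
  | zero => simp
  | add x y hx hy => simp only [mapDomain_add, map_add, hx, hy]
  | single x n =>
    rw [← mul_one n, ← smul_eq_mul, ← smul_single, mapDomain_smul, map_smul, map_smul,
      mapDomain_smul, mapDomain_single, op0_single, Function.update_self]
    exact congrArg (fun g => n • mapDomain g _) (funext fun y => update_idem _ _ _)

def op (i : ι) : En Ln →+* En (ι → Ln) where
  toFun := op0 i
  map_one' := en_ext fun c => by simp [op0_single]
  map_mul' f g := en_ext fun c => by
    rw [Module.End.mul_apply, op0_single, op0_single, op0_map, Module.End.mul_apply]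
  map_zero' := en_ext fun c => by simp [op0_single]
  map_add' f g := en_ext fun c => by simp [op0_single, mapDomain_add]

theorem op_single (i : ι) (f : En Ln) (c : ι → Ln) :
    op i f (single c 1) = mapDomain (update c i) (f (single (c i) 1)) := op0_single i f c

theorem op_comm {i j : ι} (h : i ≠ j) (f g : En Ln) : Commute (op i f) (op j g) := by
  have key : ∀ {i j : ι}, i ≠ j → ∀ (f : En Ln) (c : ι → Ln) (w : Ln →₀ ℤ),
      op i f (mapDomain (update c j) w) = linearCombination ℤ
        (fun y => mapDomain (update (update c j y) i) (f (single (c i) 1))) w := by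
    intro i j h f c w
    induction w using Finsupp.induction_linear with
    | zero => simp
    | add x y hx hy => simp only [mapDomain_add, map_add, hx, hy]
    | single y n =>
      rw [← mul_one n, ← smul_eq_mul, ← smul_single, mapDomain_smul, map_smul, map_smul,
        mapDomain_single, op_single, update_of_ne h, linearCombination_single, one_smul]
  refine en_ext fun c => ?_
  rw [Module.End.mul_apply, Module.End.mul_apply, op_single, op_single, key h, key h.symm]
  generalize f (single (c i) 1) = u
  generalize g (single (c j) 1) = w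
  induction u using Finsupp.induction_linear with
  | zero => simp [linearCombination_apply]
  | add x y hx hy =>
    rw [map_add, ← hx, ← hy]
    simp only [mapDomain_add, linearCombination_apply, smul_add, sum_add]
  | single x n =>
    induction w using Finsupp.induction_linear with
    | zero => simp
    | add x y hx hy =>
      rw [map_add, hx, hy]
      simp only [mapDomain_add, linearCombination_single, smul_add]
    | single y m => simp [update_comm h, mul_comm]

def bdL : List ι → En (ι → Ln)
  | [] => 0
  | i :: l => op i D + op i T * bdL l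

def sL : List ι → En (ι → Ln)
  | [] => 0
  | i :: l => op i S + op i P * sL l

def pL : List ι → En (ι → Ln)
  | [] => 1
  | i :: l => op i P * pL l

theorem comm {i : ι} (f : En Ln) : ∀ {l : List ι}, i ∉ l →
    Commute (op i f) (bdL l) ∧ Commute (op i f) (sL l)
  | [], _ => ⟨Commute.zero_right _, Commute.zero_right _⟩
  | j :: l, h => by
    rw [List.mem_cons, not_or] at h
    exact ⟨(op_comm h.1 _ _).add_right ((op_comm h.1 _ _).mul_right (comm f h.2).1),
      (op_comm h.1 _ _).add_right ((op_comm h.1 _ _).mul_right (comm f h.2).2)⟩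

theorem bdL_bdL : ∀ {l : List ι}, l.Nodup → bdL l * bdL l = 0
  | [], _ => mul_zero _
  | i :: l, h => by
    rw [List.nodup_cons] at h
    have h1 := congrArg (op i) DD
    have h2 := congrArg (op i) DT
    simp only [map_mul, map_add, map_zero] at h1 h2
    calc bdL (i :: l) * bdL (i :: l) = op i D * op i D + op i D * op i T * bdL l +
          op i T * (bdL l * op i D) + op i T * (bdL l * op i T) * bdL l := by
          rw [bdL]; noncomm_ring
      _ = op i D * op i D + (op i D * op i T + op i T * op i D) * bdL l +
          op i T * op i T * (bdL l * bdL l) := by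
          rw [← (comm D h.1).1.eq, ← (comm T h.1).1.eq]; noncomm_ring
      _ = 0 := by rw [h1, h2, bdL_bdL h.2]; simp

theorem contr : ∀ {l : List ι}, l.Nodup → bdL l * sL l + sL l * bdL l = 1 - pL l
  | [], _ => by simp [bdL, pL]
  | i :: l, h => by
    rw [List.nodup_cons] at h
    have h1 := congrArg (op i) DS
    have h2 := congrArg (op i) TS
    have h3 := congrArg (op i) DP
    have h4 := congrArg (op i) PD
    have h5 := congrArg (op i) TP
    have h6 := congrArg (op i) PT
    simp only [map_mul, map_add, map_zero, map_sub, map_one] at h1 h2 h3 h4 h5 h6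
    calc bdL (i :: l) * sL (i :: l) + sL (i :: l) * bdL (i :: l) =
          op i D * op i S + op i S * op i D + op i D * op i P * sL l + op i T * (bdL l * op i S) +
          op i T * (bdL l * op i P) * sL l + op i S * op i T * bdL l + op i P * (sL l * op i D) +
          op i P * (sL l * op i T) * bdL l := by
          rw [bdL, sL]; noncomm_ring
      _ = op i D * op i S + op i S * op i D + op i D * op i P * sL l + op i P * op i D * sL l +
          (op i T * op i S + op i S * op i T) * bdL l + op i T * op i P * (bdL l * sL l) +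
          op i P * op i T * (sL l * bdL l) := by
          rw [← (comm S h.1).1.eq, ← (comm P h.1).1.eq, ← (comm D h.1).2.eq, ← (comm T h.1).2.eq]
          noncomm_ring
      _ = 1 - pL (i :: l) := by
          rw [h1, h2, h3, h4, h5, h6, add_assoc, ← mul_add, contr h.2, pL]
          noncomm_ring

theorem pL_single (c : ι → Ln) : ∀ l : List ι, pL l (single c 1) =
    if ∀ j ∈ l, (c j).2 = false then single (fun j => if j ∈ l then (0, false) else c j) 1 else 0
  | [] => by simp [pL]
  | i :: l => by
    rw [pL, Module.End.mul_apply, pL_single c l]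
    by_cases h : ∀ j ∈ l, (c j).2 = false
    · rw [if_pos h, op_single]
      by_cases h1 : (c i).2 = false
      · have h2 : (if i ∈ l then ((0, false) : Ln) else c i).2 = false := by
          split_ifs <;> simp [h1]
        have h4 : ∀ j ∈ i :: l, (c j).2 = false := List.forall_mem_cons.2 ⟨h1, h⟩
        rw [if_pos h4]
        simp only [P, linearCombination_single, h2, one_smul, Bool.false_eq_true, if_false,
          mapDomain_single]
        refine congrArg (single · 1) (funext fun j => ?_)
        by_cases h3 : j = i <;> simp [h3]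
      · have h2 : i ∉ l := fun h2 => h1 (h i h2)
        have h4 : ¬ ∀ j ∈ i :: l, (c j).2 = false := fun h3 => h1 (h3 i List.mem_cons_self)
        rw [if_neg h4]
        simp [P, h2, h1]
    · rw [if_neg h, if_neg fun h3 => h fun j hj => h3 j (List.mem_cons_of_mem _ hj), map_zero]

/-- the sign of a cell of the line -/
def sg (x : Ln) : ℤˣ := if x.2 = true then -1 else 1

theorem bdL_single (r : ι → ℕ) (c : ι → Ln) : ∀ {l : List ι}, l.Pairwise (r · < r ·) →
    bdL l (single c 1) = ∑ k ∈ l.toFinset, (∏ j ∈ l.toFinset, if r j < r k then sg (c j) else 1) •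
      mapDomain (update c k) (D0 (c k))
  | [], _ => by simp [bdL]
  | i :: l, h => by
    rw [List.pairwise_cons] at h
    have h1 : i ∉ l := fun h1 => lt_irrefl _ (h.1 i h1)
    have h2 : i ∉ l.toFinset := by simpa using h1
    have h3 : op i T (single c 1) = sg (c i) • single c 1 := by
      rw [op_single, T, sg, linearCombination_single, one_smul]
      split_ifs <;> simp [md_neg]
    rw [bdL, (comm T h1).1.eq, LinearMap.add_apply, Module.End.mul_apply, h3, Units.smul_def,
      map_smul, bdL_single r c h.2, op_single, List.toFinset_cons, Finset.sum_insert h2,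
      Finset.prod_eq_one, one_smul, Finset.smul_sum, D, linearCombination_single, one_smul]
    · refine congrArg _ (Finset.sum_congr rfl fun k hk => ?_)
      rw [Finset.prod_insert h2, if_pos (h.1 k (List.mem_toFinset.1 hk)), mul_smul]
      rfl
    · intro j hj
      refine if_neg (not_lt.2 ?_)
      rcases Finset.mem_insert.1 hj with rfl | hj
      exacts [le_rfl, (h.1 j (List.mem_toFinset.1 hj)).le]

/-- every cell in the image of `c` is related to `c` -/
def Sp {α : Type} (R : α → α → Prop) (f : En α) : Prop := ∀ c e, f (single c 1) e ≠ 0 → R c e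

theorem Sp.add {α : Type} {R : α → α → Prop} {f g : En α} (hf : Sp R f) (hg : Sp R g) :
    Sp R (f + g) := fun c e h => by
  by_cases h1 : f (single c 1) e = 0
  · exact hg c e fun h2 => h (by simp [h1, h2])
  · exact hf c e h1

theorem Sp.mul {α : Type} {R R' R'' : α → α → Prop} {f g : En α} (hf : Sp R f) (hg : Sp R' g)
    (h : ∀ c x e, R' c x → R x e → R'' c e) : Sp R'' (f * g) := fun c e he => by
  rw [Module.End.mul_apply, ← sum_single (g (single c 1)), Finsupp.sum, map_sum,
    Finset.sum_apply'] at he
  obtain ⟨x, hx, h1⟩ := Finset.exists_ne_zero_of_sum_ne_zero he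
  refine h c x e (hg c x (mem_support_iff.1 hx)) (hf x e fun h2 => h1 ?_)
  rw [← mul_one (g (single c 1) x), ← smul_eq_mul, ← smul_single, map_smul, Finsupp.smul_apply, h2,
    smul_zero]

theorem md_supp {i : ι} {c e : ι → Ln} {v : Ln →₀ ℤ} (h : mapDomain (update c i) v e ≠ 0) :
    ∃ x, v x ≠ 0 ∧ e = update c i x := by
  obtain ⟨x, rfl⟩ : e ∈ Set.range (update c i) := by
    by_contra hn
    exact h (mapDomain_of_notMem_range _ _ hn)
  exact ⟨x, by rwa [mapDomain_apply (update_injective c i)] at h, rfl⟩

theorem D0_supp {x y : Ln} (h : D0 x y ≠ 0) :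
    x.2 = true ∧ (y = (x.1, false) ∨ y = (x.1 + 1, false)) := by
  unfold D0 at h
  split_ifs at h with h1
  · refine ⟨h1, by_contra fun h2 => h ?_⟩
    rw [not_or] at h2
    rw [Finsupp.sub_apply, single_eq_of_ne h2.1, single_eq_of_ne h2.2, sub_zero]
  · exact absurd rfl h

variable [Fintype ι]

/-- the dimension -/
def rk (c : ι → Ln) : ℤ := ∑ i, if (c i).2 = true then 1 else 0

theorem rk_update (c : ι → Ln) (i : ι) (x : Ln) : rk (update c i x) + (if (c i).2 = true then 1
    else 0) = rk c + if x.2 = true then 1 else 0 := by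
  rw [rk, rk, ← Finset.add_sum_erase _ _ (Finset.mem_univ i),
    ← Finset.add_sum_erase _ _ (Finset.mem_univ i), Function.update_self,
    Finset.sum_congr rfl fun j hj => by rw [update_of_ne (Finset.ne_of_mem_erase hj)]]
  ring

omit [DecidableEq ι] in
theorem rk_bound (c : ι → Ln) : 0 ≤ rk c ∧ rk c ≤ Fintype.card ι := by
  refine ⟨Finset.sum_nonneg fun i _ => by split_ifs <;> simp, ?_⟩
  rw [← Finset.card_univ, Finset.card_eq_sum_ones, Nat.cast_sum]
  exact Finset.sum_le_sum fun i _ => by split_ifs <;> simp

def Box (N : ℕ) (c : ι → Ln) : Prop :=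
  ∀ i, -(N : ℤ) ≤ (c i).1 ∧ (c i).1 + (if (c i).2 = true then 1 else 0) ≤ N

omit [Fintype ι] in
theorem Box.update {N : ℕ} {c : ι → Ln} (h : Box N c) (i : ι) {x : Ln}
    (hx : -(N : ℤ) ≤ x.1 ∧ x.1 + (if x.2 = true then 1 else 0) ≤ N) : Box N (update c i x) :=
  fun j => by
    by_cases h1 : j = i
    · rwa [h1, Function.update_self]
    · rw [update_of_ne h1]; exact h j

theorem sL_supp : ∀ l : List ι,
    Sp (fun c e => rk e = rk c + 1 ∧ ∀ N, Box N c → Box N e) (sL l)
  | [] => fun _ _ h => absurd rfl h
  | i :: l => by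
    refine Sp.add (fun c e h => ?_) (Sp.mul (R := fun c e => rk e = rk c ∧ ∀ N, Box N c → Box N e)
      (fun c e h => ?_) (sL_supp l) fun c x e h h' =>
        ⟨h'.1.trans h.1, fun N hN => h'.2 N (h.2 N hN)⟩)
    · rw [op_single] at h
      obtain ⟨x, hx, rfl⟩ := md_supp h
      rw [S, linearCombination_single, one_smul] at hx
      split_ifs at hx with h1
      · exact absurd rfl hx
      have h2 := path_supp hx
      have h3 := rk_update c i x
      rw [if_neg h1, if_pos h2.1] at h3
      refine ⟨by omega, fun N hN => hN.update i ?_⟩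
      have h4 := hN i
      rw [if_neg h1] at h4
      rw [if_pos h2.1]
      omega
    · rw [op_single] at h
      obtain ⟨x, hx, rfl⟩ := md_supp h
      rw [P, linearCombination_single, one_smul] at hx
      split_ifs at hx with h1
      · exact absurd rfl hx
      obtain rfl : x = (0, false) := by_contra fun h2 => hx (single_eq_of_ne h2)
      have h3 := rk_update c i (0, false)
      rw [if_neg h1] at h3
      exact ⟨by simpa using h3, fun N hN => hN.update i (by simp)⟩

/-- the sign comparing two orderings of the directions of a cube -/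
def cmp (u v : ι → ℕ) (c : ι → Ln) : ℤˣ := ∏ p : ι × ι,
  if (c p.1).2 = true ∧ (c p.2).2 = true ∧ u p.1 < u p.2 ∧ v p.2 < v p.1 then -1 else 1

theorem cmp_mul {u v w : ι → ℕ} (hu : Injective u) (hv : Injective v) (hw : Injective w)
    (c : ι → Ln) : cmp u w c = cmp u v c * cmp v w c := by
  refine (eq_inv_of_mul_eq_one_left ?_).trans (Int.units_inv_eq_self _)
  rw [cmp, cmp, cmp, ← Finset.prod_mul_distrib, ← Finset.prod_mul_distrib]
  refine Finset.prod_involution (fun p _ => p.swap) (fun p _ => ?_) (fun p _ h e => h ?_)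
    (fun _ _ => Finset.mem_univ _) fun p _ => p.swap_swap
  · by_cases h : p.1 = p.2
    · simp [h]
    have h1 := hu.ne h
    have h2 := hv.ne h
    have h3 := hw.ne h
    by_cases h4 : (c p.1).2 = true ∧ (c p.2).2 = true
    · simp only [Prod.fst_swap, Prod.snd_swap, h4.1, h4.2, true_and]
      split_ifs <;> first | rfl | omega
    · have h5 : ∀ q : Prop, ¬((c p.1).2 = true ∧ (c p.2).2 = true ∧ q) := fun q h => h4 ⟨h.1, h.2.1⟩
      have h6 : ∀ q : Prop, ¬((c p.2).2 = true ∧ (c p.1).2 = true ∧ q) := fun q h => h4 ⟨h.2.1, h.1⟩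
      simp only [Prod.fst_swap, Prod.snd_swap, h5, h6, if_false, mul_one]
  · have h1 : p.2 = p.1 := congrArg Prod.fst e
    simp [h1]

theorem cmp_update {u v : ι → ℕ} (hu : Injective u) (hv : Injective v) (c : ι → Ln) {k : ι}
    (hk : (c k).2 = true) {x : Ln} (hx : x.2 = false) :
    (∏ j, if v j < v k then sg (c j) else 1) * cmp u v (update c k x) =
      cmp u v c * ∏ j, if u j < u k then sg (c j) else 1 := by
  have key : ∀ p : ι × ι, (if (c p.1).2 = true ∧ (c p.2).2 = true ∧ u p.1 < u p.2 ∧ v p.2 < v p.1
      then (-1 : ℤˣ) else 1) = (if (update c k x p.1).2 = true ∧ (update c k x p.2).2 = true ∧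
        u p.1 < u p.2 ∧ v p.2 < v p.1 then -1 else 1) *
      ((if p.1 = k then if u k < u p.2 ∧ v p.2 < v k then sg (c p.2) else 1 else 1) *
        if p.2 = k then if u p.1 < u k ∧ v k < v p.1 then sg (c p.1) else 1 else 1) := by
    rintro ⟨i, j⟩
    by_cases h1 : i = k <;> by_cases h2 : j = k <;> simp [h1, h2, hk, hx, sg] <;>
      split_ifs <;> simp_all
  have h1 : cmp u v c = cmp u v (update c k x) *
      ((∏ j, if u k < u j ∧ v j < v k then sg (c j) else 1) *
        ∏ j, if u j < u k ∧ v k < v j then sg (c j) else 1) := by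
    rw [cmp, Finset.prod_congr rfl fun p _ => key p, Finset.prod_mul_distrib,
      Finset.prod_mul_distrib, cmp]
    refine congrArg _ (congrArg₂ _ ?_ ?_)
    · rw [Fintype.prod_prod_type_right]
      simp only [Finset.prod_ite_eq', Finset.mem_univ, if_true]
    · rw [Fintype.prod_prod_type]
      simp only [Finset.prod_ite_eq', Finset.mem_univ, if_true]
  rw [h1, mul_comm, mul_assoc, ← Finset.prod_mul_distrib, ← Finset.prod_mul_distrib]
  refine congrArg _ (Finset.prod_congr rfl fun j _ => ?_)
  by_cases h : j = k
  · simp [h]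
  have h2 := hu.ne h
  have h3 := hv.ne h
  split_ifs <;> first | omega | simp

section act

variable {G : Type} [Group G] [MulAction G ι] (a : G → ι → ℤ)
  (ha : ∀ g h i, a (g * h) i = a g i + a h (g⁻¹ • i))

/-- the action on the cubes -/
@[reducible] def act : MulAction G (ι → Ln) where
  smul g c i := ((c (g⁻¹ • i)).1 + a g i, (c (g⁻¹ • i)).2)
  one_smul c := funext fun i => by
    have h := ha 1 1 i
    rw [mul_one, inv_one, one_smul, left_eq_add] at h
    change ((c ((1 : G)⁻¹ • i)).1 + a 1 i, (c ((1 : G)⁻¹ • i)).2) = c i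
    rw [h, inv_one, one_smul, add_zero]
  mul_smul g h c := funext fun i => by
    change ((c ((g * h)⁻¹ • i)).1 + a (g * h) i, (c ((g * h)⁻¹ • i)).2) =
      ((c (h⁻¹ • g⁻¹ • i)).1 + a h (g⁻¹ • i) + a g i, (c (h⁻¹ • g⁻¹ • i)).2)
    rw [ha, mul_inv_rev, mul_smul, add_assoc, add_comm (a g i)]

/-- the face relation -/
def le (s s' : ι → Ln) : Prop := ∀ i, s i = s' i ∨
  (s' i).2 = true ∧ (s i = ((s' i).1, false) ∨ s i = ((s' i).1 + 1, false))

/-- the boundary -/
def bd (r : ι → ℕ) (c : ι → Ln) : (ι → Ln) →₀ ℤ :=
  ∑ k, (∏ j, if r j < r k then sg (c j) else 1) • mapDomain (update c k) (D0 (c k))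

theorem bd_supp {r : ι → ℕ} {c e : ι → Ln} (h : bd r c e ≠ 0) :
    ∃ k x, D0 (c k) x ≠ 0 ∧ e = update c k x := by
  rw [bd, Finset.sum_apply'] at h
  obtain ⟨k, -, hk⟩ := Finset.exists_ne_zero_of_sum_ne_zero h
  exact ⟨k, md_supp fun h1 => hk (by rw [Finsupp.smul_apply, h1, smul_zero])⟩

theorem bd_smul {r : ι → ℕ} (hr : Injective r) (g : G) (c e : ι → Ln) : letI := act a ha
    bd r (g • c) (g • e) * cmp r (fun i => r (g • i)) e =
      cmp r (fun i => r (g • i)) c * bd r c e := by
  letI := act a ha
  have h0 : ∀ (c : ι → Ln) i, (g • c) (g • i) = ((c i).1 + a g (g • i), (c i).2) := fun c i => by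
    change ((c (g⁻¹ • g • i)).1 + a g (g • i), (c (g⁻¹ • g • i)).2) = _
    rw [inv_smul_smul]
  rw [bd, bd, Finset.sum_apply', Finset.sum_apply', Finset.sum_mul, Finset.mul_sum,
    ← Equiv.sum_comp (MulAction.toPerm g)]
  refine Finset.sum_congr rfl fun k _ => ?_
  have h1 : ∀ x : Ln, update (g • c) (g • k) (x.1 + a g (g • k), x.2) = g • update c k x :=
    fun x => funext fun i => by
      obtain ⟨i, rfl⟩ := MulAction.surjective g i
      by_cases h : i = k
      · rw [h, h0, Function.update_self, Function.update_self]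
      · rw [update_of_ne ((MulAction.injective g).ne h), h0, h0, update_of_ne h]
  have h2 : mapDomain (update (g • c) (g • k)) (D0 ((g • c) (g • k))) =
      mapDomain (g • ·) (mapDomain (update c k) (D0 (c k))) := by
    rw [h0, D0, D0]
    split_ifs
    · simp only [md_sub, mapDomain_single, ← h1, add_right_comm]
    · simp
  rw [← Equiv.prod_comp (MulAction.toPerm g)]
  simp only [MulAction.toPerm_apply, Finsupp.smul_apply, h2,
    mapDomain_apply (MulAction.injective g), Units.smul_def, smul_eq_mul]
  by_cases h3 : mapDomain (update c k) (D0 (c k)) e = 0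
  · simp [h3]
  obtain ⟨x, hx, rfl⟩ := md_supp h3
  obtain ⟨h4, h5⟩ := D0_supp hx
  have h6 := cmp_update hr (hr.comp (MulAction.injective g)) c h4 (x := x)
    (by rcases h5 with rfl | rfl <;> rfl)
  have h7 : ∀ j, sg ((g • c) (g • j)) = sg (c j) := fun j => by rw [h0]; rfl
  simp only [h7]
  rw [mul_right_comm, ← Units.val_mul, ← mul_assoc, ← Units.val_mul]
  exact congrArg (fun z : ℤˣ => (z : ℤ) * _) h6

/-- the face poset of the cube complex -/
def gpos : @GPos G Unit (ι → Ln) _ _ (act a ha) :=
  letI := act a ha
  { π := fun _ => ()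
    le := le
    rk := rk
    π_smul := fun _ _ => rfl
    le_refl := fun _ _ => .inl rfl
    le_trans := fun s s' s'' h h' i => by
      rcases h' i with h1 | ⟨h1, h2⟩
      · exact h1 ▸ h i
      · refine .inr ⟨h1, ?_⟩
        rcases h i with h3 | ⟨h3, -⟩
        · exact h3 ▸ h2
        · rcases h2 with h2 | h2 <;> simp [h2] at h3
    le_smul := fun g s s' h i => by
      change ((s (g⁻¹ • i)).1 + a g i, (s (g⁻¹ • i)).2) =
        ((s' (g⁻¹ • i)).1 + a g i, (s' (g⁻¹ • i)).2) ∨ (s' (g⁻¹ • i)).2 = true ∧
          (((s (g⁻¹ • i)).1 + a g i, (s (g⁻¹ • i)).2) = ((s' (g⁻¹ • i)).1 + a g i, false) ∨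
          ((s (g⁻¹ • i)).1 + a g i, (s (g⁻¹ • i)).2) = ((s' (g⁻¹ • i)).1 + a g i + 1, false))
      rcases h (g⁻¹ • i) with h1 | ⟨h1, h2 | h2⟩
      · exact .inl (by rw [h1])
      · exact .inr ⟨h1, .inl (by rw [h2])⟩
      · exact .inr ⟨h1, .inr (by rw [h2, add_right_comm])⟩
    rk_smul := fun g s =>
      Equiv.sum_comp (MulAction.toPerm g⁻¹) fun i => if (s i).2 = true then (1 : ℤ) else 0
    π_le := fun _ _ _ => rfl
    rk_lt := fun s s' h => by
      refine or_iff_not_imp_left.2 fun h1 => Finset.sum_lt_sum (fun i _ => ?_) ?_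
      · rcases h i with h2 | ⟨h2, h3 | h3⟩
        · rw [h2]
        · simp [h2, h3]
        · simp [h2, h3]
      · obtain ⟨i, hi⟩ := Function.ne_iff.1 h1
        rcases h i with h2 | ⟨h2, h3 | h3⟩
        · exact absurd h2 hi
        · exact ⟨i, Finset.mem_univ i, by simp [h2, h3]⟩
        · exact ⟨i, Finset.mem_univ i, by simp [h2, h3]⟩ }

/-- the cells of the cube complex -/
def cellSys (r : ι → ℕ) (hr : Injective r) (l : List ι) (hl : l.Pairwise (r · < r ·))
    (hl' : ∀ i, i ∈ l) : @CellSys G Unit (ι → Ln) (ι → Ln) _ _ (act a ha) (act a ha) :=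
  letI := act a ha
  have hn : l.Nodup := hl.imp fun h e => by rw [e] at h; exact lt_irrefl _ h
  have hb : linearCombination ℤ (bd r) = bdL l := en_ext fun c => by
    rw [bdL_single r c hl, Finset.eq_univ_of_forall fun i => List.mem_toFinset.2 (hl' i),
      linearCombination_single, one_smul, bd]
  have hb' : ∀ c, bd r c = bdL l (single c 1) := fun c => by
    rw [← hb, linearCombination_single, one_smul]
  have hs : (linearCombination ℤ fun c => sL l (single c 1)) = sL l := en_ext fun c => by
    rw [linearCombination_single, one_smul]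
  { toGPos := gpos a ha
    lab := id
    dg := fun c => -rk c
    sgn := fun g => cmp r fun i => r (g • i)
    bd := bd r
    eps := fun c => if ∀ i, (c i).2 = false then 1 else 0
    b := fun _ _ => (0, false)
    s0 := fun c => sL l (single c 1)
    lab_smul := fun _ _ => rfl
    dg_smul := fun g c => congrArg Neg.neg ((gpos a ha).rk_smul g c)
    sgn_mul := fun g g' c => by
      refine (cmp_mul hr (hr.comp (MulAction.injective g'))
        (hr.comp (MulAction.injective (g * g'))) c).trans ((mul_comm _ _).trans ?_)
      refine congrArg (· * _) ?_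
      rw [cmp, cmp, ← Equiv.prod_comp ((MulAction.toPerm g').prodCongr (MulAction.toPerm g'))
        fun p => if ((g' • c) p.1).2 = true ∧ ((g' • c) p.2).2 = true ∧ r p.1 < r p.2 ∧
          r (g • p.2) < r (g • p.1) then (-1 : ℤˣ) else 1]
      refine Finset.prod_congr rfl fun p _ => ?_
      change _ = if (c (g'⁻¹ • g' • p.1)).2 = true ∧ (c (g'⁻¹ • g' • p.2)).2 = true ∧
        r (g' • p.1) < r (g' • p.2) ∧ r (g • g' • p.2) < r (g • g' • p.1) then -1 else 1
      simp only [inv_smul_smul, comp_apply, mul_smul]
    bd_smul := bd_smul a ha hr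
    bd_supp := fun c e h => by
      obtain ⟨k, x, hx, rfl⟩ := bd_supp h
      obtain ⟨h1, h2⟩ := D0_supp hx
      have h3 := rk_update c k x
      rw [if_pos h1, if_neg (by rcases h2 with rfl | rfl <;> simp)] at h3
      refine ⟨by omega, fun i => ?_⟩
      by_cases h4 : i = k
      · exact .inr (by rw [h4, id, id, Function.update_self]; exact ⟨h1, h2⟩)
      · exact .inl (update_of_ne h4 _ _)
    bd_bd := fun c => by rw [hb, hb', ← Module.End.mul_apply, bdL_bdL hn, LinearMap.zero_apply]
    eps_smul := fun g c => by
      have h1 : (∀ i, ((g • c) i).2 = false) ↔ ∀ i, (c i).2 = false :=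
        ⟨fun h i => by simpa using (show (c (g⁻¹ • g • i)).2 = false from h (g • i)),
          fun h i => h _⟩
      by_cases h : ∀ i, (c i).2 = false
      · simp [h1, h, cmp]
      · rw [if_neg h, if_neg (h1.not.2 h), zero_mul]
    eps_supp := fun c h => by
      have h1 : ∀ i, (c i).2 = false := by_contra fun h1 => h (if_neg h1)
      simp [rk, h1]
    eps_bd := fun c => by
      rw [bd, map_sum]
      refine Finset.sum_eq_zero fun k _ => ?_
      rw [Units.smul_def, map_smul, D0]
      split_ifs
      · simp [md_sub, forall_update_iff c fun _ (x : Ln) => x.2 = false]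
      · simp
    eps_s0 := fun c => by
      rw [linearCombination_apply]
      refine Finset.sum_eq_zero fun e he => ?_
      have h1 := (sL_supp l c e (mem_support_iff.1 he)).1
      have h2 := (rk_bound c).1
      have h3 : ¬∀ i, (e i).2 = false := fun h => by
        have h4 : rk e = 0 := by simp [rk, h]
        omega
      simp only [if_neg h3, smul_zero]
    π_b := fun _ => rfl
    eps_b := fun _ => if_pos fun _ => rfl
    bd_b := fun _ => by simp [bd, D0]
    s0_supp := fun c e h => by
      have := (sL_supp l c e h).1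
      omega
    contr := fun c => by
      have h := LinearMap.congr_fun (contr hn) (single c 1)
      rw [LinearMap.sub_apply, pL_single] at h
      rw [hb, hs, hb']
      refine h.trans (congrArg₂ _ rfl ?_)
      simp only [hl', true_imp_iff, if_true]
      split_ifs <;> simp
    hull := fun _ F hF _ => by
      obtain ⟨N, hN⟩ := ((hF.prod Set.finite_univ).image
        fun p : (ι → Ln) × ι => (p.1 p.2).1.natAbs + 1).bddAbove
      refine ⟨{c | Box N c}, (Set.Finite.pi' fun _ : ι => (Set.finite_Icc (-(N : ℤ)) N).prod
        (Set.finite_univ (α := Bool))).subset fun c hc i => ⟨⟨(hc i).1, ?_⟩, trivial⟩,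
        fun c hc i => ?_, fun i => by simp, fun c hc => ⟨rfl, fun e he => ?_,
          fun e he => (sL_supp l c e he).2 N hc⟩⟩
      · have := (hc i).2
        split_ifs at this <;> omega
      · have : (c i).1.natAbs + 1 ≤ N := hN ⟨(c, i), ⟨hc, trivial⟩, rfl⟩
        split_ifs <;> omega
      · obtain ⟨k, x, hx, rfl⟩ := bd_supp he
        obtain ⟨h1, h2⟩ := D0_supp hx
        have h3 := hc k
        rw [if_pos h1] at h3
        refine Box.update hc k ?_
        rcases h2 with rfl | rfl <;> simp <;> omega }

end act

end Cube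

/-- An action on `ℤ ^ ι` by permutations and translations gives a system of cells over a point. -/
theorem exists_cube (G ι : Type) [Group G] [Fintype ι] [MulAction G ι] (a : G → ι → ℤ)
    (ha : ∀ g h i, a (g * h) i = a g i + a h (g⁻¹ • i)) :
    ∃ (X : Type) (_ : MulAction G X) (C : CellSys G Unit X X),
      (∀ s, 0 ≤ C.rk s ∧ C.rk s ≤ Fintype.card ι) ∧
      ∀ s : X, ∃ d : ι → ℤ, ∀ g : G, g • s = s → ∀ i, d (g⁻¹ • i) + a g i = d i := by
  classical
  refine ⟨_, Cube.act a ha, Cube.cellSys a ha (fun i => Fintype.equivFin ι i)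
    (Fin.val_injective.comp (Fintype.equivFin ι).injective)
    ((List.finRange _).map (Fintype.equivFin ι).symm) ?_ (fun i => ?_), Cube.rk_bound,
    fun s => ⟨fun i => (s i).1, fun g h i => congrArg Prod.fst (congrFun h i)⟩⟩
  · rw [List.pairwise_map]
    simpa using List.pairwise_lt_finRange (Fintype.card ι)
  · exact List.mem_map.2 ⟨_, List.mem_finRange _, (Fintype.equivFin ι).symm_apply_apply i⟩

end Pool.Agent.Lib.NIL
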