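import Pool.Agent.Lib.NIL.B_NCL
import Pool.Agent.Lib.NIL.Cube
import Pool.Agent.Lib.NIL.CellInd
import Pool.Agent.Lib.NIL.CdSub

/-! Block IND: the induction over the class of groups with vanishing Nil terms. -/

namespace Pool.Agent.Lib.NIL

open MulAction

namespace IND

section

variable {G : Type} [Group G]

/-- `S` is subconjugate to `K` -/
def Sub (K S : Subgroup G) : Prop := ∃ t : G, ∀ g ∈ S, t⁻¹ * g * t ∈ K

def Good (c : Subgroup G → Prop) : Prop :=
  ∀ (O : Type) [MulAction G O], (∀ o : O, c (stabilizer G o)) → GoodO G O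

structure Cl (c : Subgroup G → Prop) : Prop where
  sub : ∀ K S, Sub K S → c K → c S
  cd : ∀ (S : Subgroup G) (n : ℕ), CdLE S n → c S
  good : Good c

/-- `K` can be added to every good class -/
def NP (K : Subgroup G) : Prop := ∀ c, Cl c → Good fun S => c S ∨ Sub K S

theorem Sub.of_le {K S : Subgroup G} (h : S ≤ K) : Sub K S := ⟨1, fun g hg => by simpa using h hg⟩

theorem Sub.trans {K S T : Subgroup G} (h : Sub K S) (h' : Sub S T) : Sub K T := by
  obtain ⟨t, ht⟩ := h
  obtain ⟨u, hu⟩ := h'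
  refine ⟨u * t, fun g hg => ?_⟩
  have := ht _ (hu g hg)
  rwa [show (u * t)⁻¹ * g * (u * t) = t⁻¹ * (u⁻¹ * g * u) * t by group]

theorem exists_inj {H G : Type} [Group H] [Group G] {f : H →* G} (hf : Function.Injective f)
    (K : Subgroup H) (L : Subgroup G) (h : ∀ k ∈ K, f k ∈ L) :
    ∃ ι : K →* L, Function.Injective ι :=
  ⟨(f.comp K.subtype).codRestrict L fun k => h k.1 k.2, fun _ _ e =>
    Subtype.ext (hf (congrArg Subtype.val e))⟩

theorem Sub.emb {K S : Subgroup G} (h : Sub K S) : ∃ ι : S →* K, Function.Injective ι := by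
  obtain ⟨t, ht⟩ := h
  exact exists_inj (f := (MulAut.conj t⁻¹).toMonoidHom) (MulAut.conj t⁻¹).injective S K
    fun k hk => by simpa using ht k hk

theorem closure_le_stab {O : Type} [MulAction G O] {b : O} {s : Finset G}
    (h : ∀ x ∈ s, x • b = b) : Subgroup.closure (s : Set G) ≤ stabilizer G b :=
  (Subgroup.closure_le _).2 fun x hx => h x hx

theorem Cl.grow {c : Subgroup G → Prop} (h : Cl c) {K : Subgroup G} (hK : NP K) :
    Cl fun S => c S ∨ Sub K S :=
  ⟨fun _ _ e a => a.imp (h.sub _ _ e) fun b => b.trans e, fun S n e => .inl (h.cd S n e), hK c h⟩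

theorem Cl.fin {c : Subgroup G → Prop} (h : Cl c) {T : Set (Subgroup G)} (hT : T.Finite) :
    (∀ L ∈ T, c L ∨ NP L) → ∃ c', Cl c' ∧ (∀ S, c S → c' S) ∧ ∀ L ∈ T, c' L := by
  induction T, hT using Set.Finite.induction_on with
  | empty => exact fun _ => ⟨c, h, fun _ a => a, fun _ a => a.elim⟩
  | @insert K T _ _ ih =>
    intro e
    obtain ⟨c', h1, h2, h3⟩ := ih fun L hL => e L (.inr hL)
    rcases e K (.inl rfl) with a | a
    · exact ⟨c', h1, h2, by rintro L (rfl | hL); exacts [h2 _ a, h3 L hL]⟩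
    · exact ⟨_, h1.grow a, fun S b => .inl (h2 S b), by
        rintro L (rfl | hL)
        exacts [.inr (.of_le le_rfl), .inl (h3 L hL)]⟩

theorem ref (hU : St_UREF) {O : Type} [MulAction G O]
    (h : ∀ (X : Type) [MulAction G X] (T : Set (Subgroup G)), T.Finite →
      (∀ L ∈ T, ∃ (b : O) (s : Finset G), (∀ x ∈ s, x • b = b) ∧ L = Subgroup.closure s) →
      (∀ x : X, ∃ L ∈ T, Sub L (stabilizer G x)) → GoodO G X) : GoodO G O := by
  classical
  intro A _ _ _
  refine hU G O A fun F F' => ?_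
  let r : O → O := fun o => (Quotient.mk (orbitRel G O) o).out
  have ht : ∀ o, ∃ t : G, t • r o = o := fun o =>
    Quotient.exact (s := orbitRel G O) (Quotient.out_eq (Quotient.mk (orbitRel G O) o)).symm
  have hr : ∀ (g : G) o, r (g • o) = r o := fun g o =>
    congrArg Quotient.out (Quotient.sound (s := orbitRel G O) ⟨g, rfl⟩)
  choose t ht using ht
  let s : O → Finset G := fun b => (((F ×ˢ F' ×ˢ F').filter fun z =>
    r z.2.1 = b ∧ r z.2.2 = b ∧ z.1 • z.2.2 = z.2.1).image fun z => (t z.2.1)⁻¹ * z.1 * t z.2.2)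
  have hs : ∀ b, ∀ x ∈ s b, x • b = b := by
    intro b x hx
    obtain ⟨z, hz, rfl⟩ := Finset.mem_image.1 hx
    obtain ⟨-, h1, h2, h3⟩ := Finset.mem_filter.1 hz
    rw [mul_smul, mul_smul, inv_smul_eq_iff]
    calc z.1 • t z.2.2 • b = z.1 • z.2.2 := by rw [← h2, ht]
      _ = t z.2.1 • b := by rw [h3, ← h1, ht]
  let L : O → Subgroup G := fun b => Subgroup.closure (s b)
  let X : Type := Σ b : F'.image r, G ⧸ L b.1
  have key : ∀ (b b' : F'.image r) (g g' : G), b = b' → g⁻¹ * g' ∈ L b.1 →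
      (⟨b, (g : G ⧸ L b.1)⟩ : X) = ⟨b', (g' : G ⧸ L b'.1)⟩ := by
    rintro b _ g g' rfl e
    rw [QuotientGroup.eq.2 e]
  refine ⟨X, inferInstance, fun x => Quotient.liftOn' x.2 (fun g => g • x.1.1) ?_,
    fun o => ⟨⟨r o.1, Finset.mem_image_of_mem _ o.2⟩, (t o.1 : G)⟩, ?_, fun o => ht o.1, ?_, ?_⟩
  · intro g g' e
    have := closure_le_stab (hs x.1.1) (QuotientGroup.leftRel_apply.1 e)
    rw [mem_stabilizer_iff, mul_smul, inv_smul_eq_iff] at this
    exact this.symm
  · rintro g ⟨b, x⟩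
    induction x using QuotientGroup.induction_on with
    | H x => exact mul_smul g x b.1
  · intro g hg o o' e
    have e1 : r o.1 = r o'.1 := by rw [← e, hr]
    refine (key ⟨r o.1, Finset.mem_image_of_mem _ o.2⟩ ⟨r o'.1, Finset.mem_image_of_mem _ o'.2⟩
      (t o.1) (g * t o'.1) (Subtype.ext e1) (Subgroup.subset_closure ?_)).symm
    refine Finset.mem_image.2 ⟨(g, o.1, o'.1), Finset.mem_filter.2 ⟨?_, rfl, e1.symm, e⟩,
      mul_assoc _ _ _⟩
    exact Finset.mem_product.2 ⟨hg, Finset.mem_product.2 ⟨o.2, o'.2⟩⟩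
  · refine h X (Set.range fun b : F'.image r => L b.1) (Set.finite_range _) ?_ ?_ A
    · rintro _ ⟨b, rfl⟩
      exact ⟨b.1, s b.1, hs b.1, rfl⟩
    · rintro ⟨b, x⟩
      induction x using QuotientGroup.induction_on with
      | H x =>
        refine ⟨_, ⟨b, rfl⟩, x, fun g hg => ?_⟩
        have e : ((g * x : G) : G ⧸ L b.1) = x := eq_of_heq (Sigma.mk.inj hg).2
        rw [mul_assoc]
        exact QuotientGroup.eq.1 e.symm

theorem Cl.many (hU : St_UREF) {c : Subgroup G → Prop} (h : Cl c) {O : Type} [MulAction G O]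
    (e : ∀ (b : O) (s : Finset G), (∀ x ∈ s, x • b = b) →
      c (Subgroup.closure s) ∨ NP (Subgroup.closure (s : Set G))) : GoodO G O := by
  refine ref hU fun X _ T hT h1 h2 => ?_
  obtain ⟨c', h3, -, h4⟩ := h.fin hT fun L hL => by
    obtain ⟨b, s, hs, rfl⟩ := h1 L hL
    exact e b s hs
  refine h3.good X fun x => ?_
  obtain ⟨L, hL, a⟩ := h2 x
  exact h3.sub _ _ a (h4 L hL)

theorem cl_zero (hC : St_CORE) (hU : St_UREF) : Cl fun S : Subgroup G => ∃ n, CdLE S n := by
  have sub : ∀ (K S : Subgroup G) n, Sub K S → CdLE K n → CdLE S n := fun K S n e a =>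
    let ⟨ι, hι⟩ := e.emb
    a.of_injective ι hι
  refine ⟨fun K S e ⟨n, a⟩ => ⟨n, sub K S n e a⟩, fun S n a => ⟨n, a⟩, fun O _ hO => ?_⟩
  refine ref hU fun X _ T hT h1 h2 => ?_
  have h3 : ∀ L : T, ∃ n, CdLE L.1 n := fun L => by
    obtain ⟨b, s, hs, e⟩ := h1 L.1 L.2
    obtain ⟨n, hn⟩ := hO b
    exact ⟨n, sub _ _ n (.of_le (e.trans_le (closure_le_stab hs))) hn⟩
  choose n hn using h3
  have := hT.to_subtype
  obtain ⟨m, hm⟩ := Finite.exists_le n
  refine hC G X m fun x => ?_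
  obtain ⟨L, hL, a⟩ := h2 x
  exact sub _ _ m a ((hn ⟨L, hL⟩).mono (hm _))

end

/-- every copy of a subgroup of `H` in any group can be added to every good class -/
def W (H : Type) [Group H] : Prop :=
  ∀ (G : Type) [Group G] (K : Subgroup G) (f : K →* H), Function.Injective f → NP K

variable {H : Type} [Group H]

theorem W.inj (h : W H) {H' : Type} [Group H'] (φ : H' →* H) (hφ : Function.Injective φ) : W H' :=
  fun G _ K f hf => h G K (φ.comp f) (hφ.comp hf)

theorem W.np {G : Type} [Group G] {K S : Subgroup G} (h : W K) (e : Sub K S) : NP S :=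
  let ⟨ι, hι⟩ := e.emb
  h G S ι hι

theorem W_fin {n : ℕ} (h : CdLE H n) : W H := by
  intro G _ K f hf c hc O _ hO
  exact hc.good O fun o => (hO o).elim id fun e =>
    hc.sub _ _ e (hc.cd K n (h.of_injective f hf))

theorem W_union (hU : St_UREF) (h : ∀ s : Finset H, ∃ L : Subgroup H, (∀ g ∈ s, g ∈ L) ∧ W L) :
    W H := by
  classical
  intro G _ K f hf c hc O _ hO
  refine hc.many hU fun b s hs => (hO b).imp (hc.sub _ _ (.of_le (closure_le_stab hs))) fun e => ?_
  obtain ⟨ι, hι⟩ := e.emb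
  let φ := (f.comp ι).comp (Subgroup.inclusion (closure_le_stab hs))
  have hφ : Function.Injective φ := (hf.comp hι).comp (Subgroup.inclusion_injective _)
  obtain ⟨L, h1, h2⟩ := h (s.attach.image fun x : {x // x ∈ s} =>
    φ ⟨x.1, Subgroup.subset_closure (Finset.mem_coe.2 x.2)⟩)
  refine h2 G _ (φ.codRestrict L ?_) fun _ _ a => hφ (congrArg Subtype.val a)
  rintro ⟨x, hx⟩
  induction hx using Subgroup.closure_induction with
  | mem x hx => exact h1 _ (Finset.mem_image.2 ⟨⟨x, hx⟩, Finset.mem_attach _ _, rfl⟩)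
  | one => exact (map_one φ).symm ▸ L.one_mem
  | mul x y hx hy a b => exact (map_mul φ ⟨x, hx⟩ ⟨y, hy⟩).symm ▸ L.mul_mem a b
  | inv x hx a => exact (map_inv φ ⟨x, hx⟩).symm ▸ L.inv_mem a

theorem W_cell (hS : St_STEP) (hT : St_TREE) (hU : St_UREF) (n : ℕ)
    (h : ∀ (K : Type) [Group K] (φ : K →* H), Function.Injective φ →
      ∃ (X Y : Type) (_ : MulAction K X) (_ : MulAction K Y) (C : CellSys K Unit X Y),
        ∀ x, (0 ≤ C.rk x ∧ C.rk x ≤ n) ∧ W (stabilizer K x)) : W H := by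
  intro G _ K f hf c hc O _ hO
  obtain ⟨X, Y, _, _, C, hC⟩ := exists_cellSys_induced (G := G) (O := O)
    (fun e S => (0 ≤ e ∧ e ≤ n) ∧ (c S ∨ W S)) (by
      intro e S S' t ht a
      have e1 : Sub S S' := ⟨t, fun g hg => (ht g).1 hg⟩
      obtain ⟨ι, hι⟩ := e1.emb
      exact ⟨a.1, a.2.imp (hc.sub _ _ e1) fun b => b.inj ι hι⟩) (by
      intro o
      rcases hO o with e | e
      · refine ⟨Unit, Unit, inferInstance, inferInstance, CellSys.point _, fun x => ⟨?_, .inl ?_⟩⟩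
        · rw [CellSys.point_rk]
          exact ⟨le_rfl, Int.natCast_nonneg n⟩
        · exact hc.sub _ _ (.of_le (Subgroup.map_subtype_le _)) e
      · obtain ⟨ι, hι⟩ := e.emb
        obtain ⟨X, Y, i1, i2, C, hC⟩ := h _ (f.comp ι) (hf.comp hι)
        refine ⟨X, Y, i1, i2, C, fun x => ⟨(hC x).1, .inr ?_⟩⟩
        let e := Subgroup.equivMapOfInjective (stabilizer (stabilizer G o) x) _
          (stabilizer G o).subtype_injective
        exact (hC x).2.inj e.symm.toMonoidHom e.symm.injective)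
  have hX : GoodO G X := hc.many hU fun b s hs => (hC b).2.imp
    (hc.sub _ _ (.of_le (closure_le_stab hs))) fun a => a.np (.of_le (closure_le_stab hs))
  exact hS _ O _ (n + 1) (by omega) fun A _ _ _ => hT G O X Y C n A (fun s => (hC s).1) (hX A)

theorem W_tree (hS : St_STEP) (hT : St_TREE) (hU : St_UREF) {V : Type} [MulAction H V]
    (T : SimpleGraph V) (h1 : T.IsTree) (h2 : ∀ (g : H) u v, T.Adj u v → T.Adj (g • u) (g • v))
    (h3 : ∀ (g : H) u v, T.Adj u v → g • u = v → g • v ≠ u) (ih : ∀ v : V, W (stabilizer H v)) :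
    W H := by
  refine W_cell hS hT hU 1 fun K _ φ hφ => ?_
  let _ : MulAction K V := MulAction.compHom V φ
  obtain ⟨X, i, F, hF⟩ := exists_forest_of_tree (H := K) T h1 (fun g => h2 (φ g)) fun g => h3 (φ g)
  refine ⟨X, X, i, i, F.cellSys, fun x => ⟨F.gpos_rk x, ?_⟩⟩
  obtain ⟨v, hv⟩ : ∃ v : V, ∀ k ∈ stabilizer K x, φ k ∈ stabilizer H v := by
    rcases hF x with ⟨-, v, e⟩ | ⟨-, u, v, -, e⟩
    · exact ⟨v, fun k a => by rwa [e] at a⟩
    · exact ⟨v, fun k a => by rw [e] at a; exact a.2⟩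
  obtain ⟨ι, hι⟩ := exists_inj hφ _ _ hv
  exact (ih v).inj ι hι

theorem W_act (hS : St_STEP) (hT : St_TREE) (hU : St_UREF) {ι : Type} [Fintype ι] [MulAction H ι]
    (a : H → ι → ℤ) (ha : ∀ g h i, a (g * h) i = a g i + a h (g⁻¹ • i))
    (ih : ∀ d : ι → ℤ, W (affStab ha d)) : W H := by
  refine W_cell hS hT hU (Fintype.card ι) fun K _ φ hφ => ?_
  let _ : MulAction K ι := MulAction.compHom ι φ
  have e : ∀ (g : K) (i : ι), g⁻¹ • i = (φ g)⁻¹ • i := fun g i => by rw [← map_inv]; rfl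
  obtain ⟨X, i, C, h1, h2⟩ := exists_cube K ι (fun g => a (φ g)) fun g h i => by
    rw [map_mul, ha, e]
  refine ⟨X, X, i, i, C, fun x => ⟨h1 x, ?_⟩⟩
  obtain ⟨d, hd⟩ := h2 x
  obtain ⟨j, hj⟩ := exists_inj hφ (stabilizer K x) (affStab ha d) fun k b i => by
    rw [← e]
    exact hd k b i
  exact (ih d).inj j hj

theorem W_of_nil (hS : St_STEP) (hT : St_TREE) (hU : St_UREF) (h : NilCl H) : W H := by
  induction h with
  | fin G n h => exact W_fin h
  | union G K h1 _ ih => exact W_union hU fun s => ⟨K s, h1 s, ih s⟩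
  | tree G V T h1 h2 h3 _ ih => exact W_tree hS hT hU T h1 h2 h3 ih
  | act G ι a ha _ ih => exact W_act hS hT hU a ha fun d => ih d _ fun _ => Iff.rfl

theorem good_of_W (hC : St_CORE) (hU : St_UREF) {G O : Type} [Group G] [MulAction G O]
    (h : ∀ o : O, W (stabilizer G o)) : GoodO G O :=
  (cl_zero hC hU).many hU fun b _ hs => .inr ((h b).np (.of_le (closure_le_stab hs)))

end IND

theorem st_ind (hC : St_CORE) (hS : St_STEP) (hT : St_TREE) (hU : St_UREF) : St_IND :=
  fun _ _ _ _ h => IND.good_of_W hC hU fun o => IND.W_of_nil hS hT hU (h o)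

end Pool.Agent.Lib.NIL
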