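import Pool.Agent.Lib.NIL.CellSys

/-! The blueprint, third part: actions on finite dimensional acyclic complexes. -/

noncomputable section

namespace Pool.Agent.Lib.NIL

open Finsupp

/-- an augmented based chain complex of dimension at most `n` with a permutation action -/
structure ACx (G K : Type) [Group G] [MulAction G K] (n : ℕ) where
  dim : K → ℕ
  bd : K → K →₀ ℤ
  eps : K → ℤ
  b : K
  dim_le : ∀ c, dim c ≤ n
  dim_smul : ∀ (g : G) c, dim (g • c) = dim c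
  bd_smul : ∀ (g : G) c e, bd (g • c) (g • e) = bd c e
  eps_smul : ∀ (g : G) c, eps (g • c) = eps c
  bd_supp : ∀ c e, bd c e ≠ 0 → dim e + 1 = dim c
  bd_bd : ∀ c, linearCombination ℤ bd (bd c) = 0
  eps_supp : ∀ c, eps c ≠ 0 → dim c = 0
  eps_bd : ∀ c, linearCombination ℤ eps (bd c) = 0
  eps_b : eps b = 1

/-- `S` is an acyclic subcomplex containing the base point -/
def ACx.Ex {G K : Type} [Group G] [MulAction G K] {n : ℕ} (A : ACx G K n) (S : Set K) : Prop :=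
  A.b ∈ S ∧ (∀ c ∈ S, ∀ e, A.bd c e ≠ 0 → e ∈ S) ∧
    ∀ z : K →₀ ℤ, (∀ c, z c ≠ 0 → c ∈ S) → linearCombination ℤ A.bd z = 0 →
      linearCombination ℤ A.eps z = 0 →
      ∃ w : K →₀ ℤ, (∀ c, w c ≠ 0 → c ∈ S) ∧ linearCombination ℤ A.bd w = z

open Classical in
/-- the boundary of a finite chain of a poset -/
def chainBd {V : Type} [PartialOrder V] (s : Finset V) : Finset V →₀ ℤ :=
  ∑ v ∈ s, single (s.erase v) ((-1) ^ (s.filter (· < v)).card)

def St_AC1 : Prop :=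
  ∀ (G V : Type) [Group G] [PartialOrder V] [MulAction G V] (n : ℕ),
    (∀ (g : G) (u v : V), u ≤ v → g • u ≤ g • v) →
    (∀ s : Finset V, IsChain (· ≤ ·) (s : Set V) → s.card ≤ n + 1) →
    (∀ z : Finset V →₀ ℤ, (∀ s, z s ≠ 0 → IsChain (· ≤ ·) (s : Set V)) →
      linearCombination ℤ chainBd z = 0 → ∃ w : Finset V →₀ ℤ,
        (∀ s, w s ≠ 0 → IsChain (· ≤ ·) (s : Set V)) ∧ linearCombination ℤ chainBd w = z) →
    ∃ (K : Type) (_ : MulAction G K) (A : ACx G K n), A.Ex Set.univ ∧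
      ∀ c : K, ∃ v : V, MulAction.stabilizer G c ≤ MulAction.stabilizer G v

def St_AC2 : Prop :=
  ∀ (G K : Type) [Group G] [Countable G] [MulAction G K] (n : ℕ) (A : ACx G K n),
    A.Ex Set.univ → ∃ (K' : Type) (_ : MulAction G K') (A' : ACx G K' n), Countable K' ∧
      A'.Ex Set.univ ∧ ∀ c' : K', ∃ c : K, MulAction.stabilizer G c' ≤ MulAction.stabilizer G c

/-- every cycle of dimension below `k` is the boundary of a single cell -/
def ACx.Cone {G K : Type} [Group G] [MulAction G K] {n : ℕ} (A : ACx G K n) (k : ℕ) : Prop :=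
  ∀ m < k, ∀ z : K →₀ ℤ, (∀ c, z c ≠ 0 → A.dim c = m) → linearCombination ℤ A.bd z = 0 →
    linearCombination ℤ A.eps z = 0 → ∃ c, A.dim c = m + 1 ∧ A.bd c = z

def St_AC3a : Prop :=
  ∀ (G K : Type) [Group G] [Countable G] [MulAction G K] [Countable K] (n : ℕ)
    (A : ACx G K (n + 1)), A.Ex Set.univ →
    ∃ (K' : Type) (_ : MulAction G K') (A' : ACx G K' (n + 1)), Countable K' ∧ A'.Ex Set.univ ∧
      A'.Cone n ∧ ∀ c' : K', ∃ c : K, MulAction.stabilizer G c' ≤ MulAction.stabilizer G c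

def St_AC3b : Prop :=
  ∀ (G K : Type) [Group G] [Countable G] [MulAction G K] [Countable K] (n : ℕ)
    (A : ACx G K (n + 1)), A.Ex Set.univ → A.Cone n →
    ∃ (K' : Type) (_ : MulAction G K') (A' : ACx G K' (n + 2)), Countable K' ∧
      (∀ F : Set K', F.Finite → ∃ S : Set K', S.Finite ∧ F ⊆ S ∧ A'.Ex S) ∧
      ∀ c' : K', ∃ c : K, MulAction.stabilizer G c' ≤ MulAction.stabilizer G c

def St_AC4 : Prop :=
  ∀ (G K : Type) [Group G] [MulAction G K] [Countable K] (n : ℕ) (A : ACx G K n),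
    (∀ F : Set K, F.Finite → ∃ S : Set K, S.Finite ∧ F ⊆ S ∧ A.Ex S) →
    ∃ C : CellSys G Unit K K, ∀ s, 0 ≤ C.rk s ∧ C.rk s ≤ n

end Pool.Agent.Lib.NIL
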