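import Pool.Agent.Lib.MP_63c928_gt.WH.Defs

/-! Definitions used in the statement of the vanishing theorem for Nil groups. -/

noncomputable section

namespace Pool.Agent.NilN

open CategoryTheory Finsupp

open Classical in
/-- The simplicial boundary of a finite chain `s` of a poset (the empty chain included). -/
def chainBoundary {V : Type} [PartialOrder V] (s : Finset V) : Finset V →₀ ℤ :=
  ∑ v ∈ s, single (s.erase v) ((-1) ^ (s.filter (· < v)).card)

/-- `G` acts by order automorphisms on a poset whose order complex is finite dimensional and has
vanishing reduced integral homology. -/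
structure AcyclicAction (G V : Type) [Group G] [PartialOrder V] [MulAction G V] : Prop where
  mono : ∀ (g : G) (u v : V), u ≤ v → g • u ≤ g • v
  finiteDim : ∃ n : ℕ, ∀ s : Finset V, IsChain (· ≤ ·) (s : Set V) → s.card ≤ n
  acyclic : ∀ z : Finset V →₀ ℤ, (∀ s, z s ≠ 0 → IsChain (· ≤ ·) (s : Set V)) →
    linearCombination ℤ chainBoundary z = 0 → ∃ w : Finset V →₀ ℤ,
      (∀ s, w s ≠ 0 → IsChain (· ≤ ·) (s : Set V)) ∧ linearCombination ℤ chainBoundary w = z

/-- The class generated by the finite groups and the groups of finite cohomological dimension under
unions, extensions and actions on finite dimensional acyclic complexes. -/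
inductive Hierarchical : (G : Type) → [Group G] → Prop
  | finite (G : Type) [Group G] : Finite G → Hierarchical G
  | finiteCd (G : Type) [Group G] (n : ℕ) :
      HasProjectiveDimensionLE (Rep.trivial ℤ G ℤ) n → Hierarchical G
  | union (G : Type) [Group G] (H : Finset G → Subgroup G) :
      (∀ s, ∀ g ∈ s, g ∈ H s) → (∀ s, Hierarchical (H s)) → Hierarchical G
  | ext (G Q : Type) [Group G] [Group Q] (p : G →* Q) : Hierarchical Q →
      (∀ F : Subgroup Q, Finite F → Hierarchical (F.comap p)) → Hierarchical G
  | complex (G V : Type) [Group G] [PartialOrder V] [MulAction G V] : AcyclicAction G V →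
      (∀ v : V, Hierarchical (MulAction.stabilizer G v)) → Hierarchical G

/-- `T` is the tensor ring over `R` of a bimodule that is free as a left module on the `x l`:
the words in the `x l` form a left basis of `T`, and the left span of the `x l` is closed under
right multiplication by `R`. -/
structure IsTensorRing {R T Λ : Type} [Ring R] [Ring T] (i : R →+* T) (x : Λ → T) : Prop where
  basis : Function.Bijective fun a : List Λ →₀ R => a.sum fun w r => i r * (w.map x).prod
  comm : ∀ l r, ∃ a : Λ →₀ R, x l * i r = a.sum fun m r' => i r' * x m

end Pool.Agent.NilN
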