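import Pool.Agent.Lib.NIL.B_H1
import Pool.Agent.Lib.NIL.B_IND
import Pool.Agent.Lib.NIL.Blue3
import Pool.Agent.Lib.NIL.StmtN

/-! Assembly of the vanishing theorem for Nil groups. -/

namespace Pool.Agent.Lib.NIL

open NilN IND MulAction

/-- a group of finite cohomological dimension acts freely on an acyclic complex -/
def St_AC0 : Prop :=
  ∀ (G : Type) [Group G] (n : ℕ), CdLE G n → ∃ (K : Type) (_ : MulAction G K) (m : ℕ)
    (A : ACx G K m), A.Ex Set.univ ∧ ∀ (g : G) (c : K), g • c = c → g = 1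

/-- restriction along a homomorphism -/
def ACx.restrict {G K H : Type} [Group G] [MulAction G K] [Group H] {n m : ℕ} (A : ACx G K n)
    (φ : H →* G) (h : n ≤ m) : @ACx H K _ (MulAction.compHom K φ) m :=
  letI := MulAction.compHom K φ
  { A with
    dim_le := fun c => (A.dim_le c).trans h
    dim_smul := fun g => A.dim_smul (φ g)
    bd_smul := fun g => A.bd_smul (φ g)
    eps_smul := fun g => A.eps_smul (φ g) }

theorem inj_of_le {G H : Type} [Group G] [Group H] (φ : H →* G) (hφ : Function.Injective φ)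
    {K : Subgroup H} {L : Subgroup G} (hL : W L) (h : ∀ k ∈ K, φ k ∈ L) : W K := by
  obtain ⟨ι, hι⟩ := exists_inj hφ K L h
  exact hL.inj ι hι

theorem countable_closure {H : Type} [Group H] (s : Finset H) :
    Countable (Subgroup.closure (s : Set H)) := by
  have e : (FreeGroup.lift (Subtype.val : s → H)).range = Subgroup.closure (s : Set H) := by
    rw [FreeGroup.range_lift_eq_closure]
    simp
  rw [← e]
  exact (FreeGroup.lift (Subtype.val : s → H)).rangeRestrict_surjective.countable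

section

variable (hS : St_STEP) (hT : St_TREE) (hU : St_UREF) (h2 : St_AC2) (h3 : St_AC3a)
  (h3' : St_AC3b) (h4 : St_AC4)
include hS hT hU h2 h3 h3' h4

theorem W_acx {H K : Type} [Group H] [MulAction H K] {n : ℕ} (A : ACx H K n)
    (hA : A.Ex Set.univ) (h : ∀ c : K, W (stabilizer H c)) : W H := by
  refine W_union hU fun s => ⟨Subgroup.closure (s : Set H), fun g hg => Subgroup.subset_closure hg,
    W_cell hS hT hU (n + 2) fun L _ φ hφ => ?_⟩
  have : Countable (Subgroup.closure (s : Set H)) := countable_closure s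
  have : Countable L := hφ.countable
  let ψ : L →* H := (Subgroup.subtype _).comp φ
  have hψ : Function.Injective ψ := Subtype.val_injective.comp hφ
  letI := MulAction.compHom K ψ
  obtain ⟨K₁, _, A₁, _, e₁, s₁⟩ := h2 L K (n + 1) (A.restrict ψ n.le_succ) hA
  obtain ⟨K₂, _, A₂, _, e₂, c₂, s₂⟩ := h3 L K₁ n A₁ e₁
  obtain ⟨K₃, _, A₃, _, e₃, s₃⟩ := h3' L K₂ n A₂ e₂ c₂
  obtain ⟨C, hC⟩ := h4 L K₃ (n + 2) A₃ e₃
  refine ⟨K₃, K₃, inferInstance, inferInstance, C, fun x => ⟨hC x, ?_⟩⟩
  obtain ⟨y, hy⟩ := s₃ x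
  obtain ⟨z, hz⟩ := s₂ y
  obtain ⟨c, hc⟩ := s₁ z
  exact inj_of_le ψ hψ (h c) fun k hk => hc (hz (hy hk))

end

/-- preimages of finite subgroups are good -/
def Pre {G Q : Type} [Group G] [Group Q] (p : G →* Q) : Prop :=
  ∀ F : Subgroup Q, Finite F → W (F.comap p)

def Fib (Q : Type) [Group Q] : Prop := ∀ (G : Type) [Group G] (p : G →* Q), Pre p → W G

theorem Pre.comap {G Q : Type} [Group G] [Group Q] {p : G →* Q} (h : Pre p) {L : Subgroup Q}
    (hL : Fib L) : W (L.comap p) := by
  refine hL _ ((p.comp (L.comap p).subtype).codRestrict L fun x => x.2) fun F hF => ?_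
  have : Finite (F.map L.subtype) :=
    Finite.of_equiv _ (F.equivMapOfInjective _ L.subtype_injective).toEquiv
  exact inj_of_le (L.comap p).subtype Subtype.val_injective (h _ this) fun k hk => ⟨_, hk, rfl⟩

theorem fib_of_hierarchical (hS : St_STEP) (hT : St_TREE) (hU : St_UREF) (h0 : St_AC0)
    (h1 : St_AC1) (h2 : St_AC2) (h3 : St_AC3a) (h3' : St_AC3b) (h4 : St_AC4) {Q : Type} [Group Q]
    (h : Hierarchical Q) : Fib Q := by
  induction h with
  | finite Q h =>
    intro G _ p hp
    exact (hp ⊤ inferInstance).inj ((MonoidHom.id G).codRestrict _ fun _ => trivial)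
      fun _ _ e => congrArg Subtype.val e
  | finiteCd Q n h =>
    intro G _ p hp
    obtain ⟨K, _, m, A, hA, hf⟩ := h0 Q n h
    letI := MulAction.compHom K p
    refine W_acx hS hT hU h2 h3 h3' h4 (A.restrict p le_rfl) hA fun c => ?_
    exact inj_of_le (MonoidHom.id G) (fun _ _ e => e) (hp ⊥ inferInstance) fun k hk => hf _ c hk
  | union Q H h _ ih =>
    intro G _ p hp
    classical
    exact W_union hU fun s => ⟨_, fun g hg => h (s.image p) _ (Finset.mem_image_of_mem p hg),
      hp.comap (ih _)⟩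
  | ext Q Q' q _ _ ih ih' =>
    intro G _ p hp
    exact ih G (q.comp p) fun F hF => hp.comap (ih' F hF)
  | complex Q V h _ ih =>
    intro G _ p hp
    obtain ⟨n, hn⟩ := h.finiteDim
    obtain ⟨K, _, A, hA, hs⟩ := h1 Q V n h.mono (fun s hs => (hn s hs).trans n.le_succ) h.acyclic
    letI := MulAction.compHom K p
    refine W_acx hS hT hU h2 h3 h3' h4 (A.restrict p le_rfl) hA fun c => ?_
    obtain ⟨v, hv⟩ := hs c
    exact inj_of_le (MonoidHom.id G) (fun _ _ e => e) (hp.comap (ih v)) fun k hk => hv hk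

theorem nil_vanishing' (hC : St_CORE) (hS : St_STEP) (hT : St_TREE) (hU : St_UREF) (h0 : St_AC0)
    (h1 : St_AC1) (h2 : St_AC2) (h3 : St_AC3a) (h3' : St_AC3b) (h4 : St_AC4) (hK : St_KC)
    (hN : St_TEN) (G : Type) [Group G] (hG : Hierarchical G)
    (ht : ∀ g : G, IsOfFinOrder g → g = 1) (T Λ : Type) [Ring T] (i : MonoidAlgebra ℤ G →+* T)
    (x : Λ → T) (hx : NilN.IsTensorRing i x) : Function.Bijective (WhDet.K1.map i) := by
  obtain ⟨S, K, rfl, e1, e2, e3, e4⟩ := hN _ T Λ i x ⟨hx.basis, hx.comm⟩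
  have hW : W G := fib_of_hierarchical hS hT hU h0 h1 h2 h3 h3' h4 hG G (MonoidHom.id G)
    fun F hF => by
      have : Subsingleton (F.comap (MonoidHom.id G)) := ⟨fun x y => by
        have h2 : ∀ z : F, z.1 = 1 := fun z =>
          ht _ (F.subtype.isOfFinOrder (isOfFinOrder_of_finite z))
        exact Subtype.ext ((h2 x).trans (h2 y).symm)⟩
      exact W_fin (cdLE_of_subsingleton _)
  have hg : GoodO G Unit := good_of_W hC hU fun o => hW.inj _ (Subgroup.subtype_injective _)
  refine hK _ T _ S K (MonoidAlgebra.lift ℤ ℤ G 1).toRingHom e1 e2 e3 e4 ?_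
  rw [← gfam_unit]
  exact hg ℤ

end Pool.Agent.Lib.NIL
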