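import Pool.Agent.Lib.NIL.A7
import Pool.Agent.Lib.NIL.Blue

/-! Block KC: one cell attachment in degree zero does not change `K1`. -/

noncomputable section

namespace Pool.Agent.Lib.NIL

open Finsupp TensorProduct Pool.Agent.WhDet

section

variable {E L E' : Type} [Ring E] [Ring E'] {C : Cat E L} {C' : Cat E' L}

/-- `P` passes to retracts of families -/
theorem P_of_retr {φ : E →+ E'} {ψ : E' →+ E} (hC : C.Good) (hC' : C'.Good)
    (h1 : IsHomF C C' φ id) (h2 : IsHomF C' C ψ id) (e : ∀ a, ψ (φ a) = a) (hP : C'.P) : C.P := by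
  intro M hM hf hp
  have f := h1.isFn hC hC'
  have k := h2.inO hC' hC (f.obj hM) (hP _ (f.obj hM) hf
    (f.perf (fun W _ hW => hW.mapA φ id) hM hp))
  rwa [Raw.mapA_mapA, show ψ.comp φ = AddMonoidHom.id E from AddMonoidHom.ext e, Raw.mapA_id] at k

theorem P_of_bc_int (hC : C.Good) (hP : (C.bc ℤ).P) : C.P := by
  refine P_of_retr (φ := (TensorProduct.mk ℤ ℤ E 1).toAddMonoidHom)
    (ψ := (Algebra.TensorProduct.lid ℤ E).toRingEquiv.toAddMonoidHom) hC (hC.bc ℤ)
    ⟨fun ha => tmul_mem_bcF _ ha, rfl, fun _ _ => ?_, fun _ => (lT_tmul _ _ _).symm⟩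
    ⟨fun ha => ?_, map_one (Algebra.TensorProduct.lid ℤ E),
      fun _ _ => map_mul (Algebra.TensorProduct.lid ℤ E) _ _, fun {_ _ _ a} ha => ?_⟩
    (fun a => one_smul ℤ a) hP
  · simp
  · refine bcF_induction (p := fun z => Algebra.TensorProduct.lid ℤ E z ∈ C.H _ _ _) ha
      (fun b e he => zsmul_mem he b) (by rw [map_zero]; exact zero_mem _) fun x y _ _ hx hy => ?_
    rw [map_add]
    exact add_mem hx hy
  · change Algebra.TensorProduct.lid ℤ E (lT ℤ C.d a) = C.d (Algebra.TensorProduct.lid ℤ E a)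
    clear ha
    induction a using TensorProduct.induction_on with
    | zero => simp
    | tmul b e => exact (map_zsmul C.d b e).symm
    | add x y hx hy => simp only [map_add, hx, hy]

/-- a complex whose differential and contraction are defined over a subring -/
theorem tors_range {R A : Type} [Ring R] [Ring A] [InvariantBasisNumber A] (φ : R →+* A)
    {i : R →+* E} (hi : Function.Injective i) {V : Raw E L} [Finite V.ι] (hV : (tcat E L).Obj V)
    {h : Lin V V} (dh : V.δ ∘ₗ h + h ∘ₗ V.δ = LinearMap.id) (h1 : ∀ x y, ∃ r, mtx V.δ x y = i r)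
    (h2 : ∀ x y, ∃ r, mtx h x y = i r) : Tors (K1.map i).range V := by
  classical
  have := Fintype.ofFinite V.ι
  obtain ⟨hd, dd⟩ := tcat_obj'.1 hV
  choose d₀ e1 using h1
  choose h₀ e2 using h2
  replace e1 : (Matrix.of d₀).map i = mtx V.δ := Matrix.ext fun x y => (e1 x y).symm
  replace e2 : (Matrix.of h₀).map i = mtx h := Matrix.ext fun x y => (e2 x y).symm
  have c : Ctr (par R V.deg) (Matrix.of d₀) := Ctr.of' (h := Matrix.of h₀) par_mul_par
    (par_odd fun x y h0 => by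
      rw [hd x y fun h3 => h0 (hi (by rw [← Matrix.map_apply (f := i), e1, h3, map_zero]))]
      simp)
    (Matrix.map_injective hi (by
      simp only [Matrix.map_mul, e1, dd, Matrix.map_zero _ (map_zero i)]))
    (Matrix.map_injective hi (by
      simp only [Matrix.map_mul, Matrix.map_add _ (map_add i), e1, e2,
        Matrix.map_one _ (map_zero i) (map_one i)]
      rw [← mtx_comp, ← mtx_comp, ← mtx_add, add_comm, dh, mtx_id]))
  exact (tors_iff_torM (Q := (K1.map i).range) ⟨_, map_negCl i⟩ hV).2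
    (e1 ▸ (torM_top' φ c).map i fun x _ => ⟨x, rfl⟩)

end

theorem st_kc (hEPP : St_EPP) (hCPK : St_CPK) (hVH : St_VH) (hKEY : St_KEY0) : St_KC := by
  intro R E Λ _ _ S K φ hS hE hok hdeg hL
  have hs := hS.sys
  have g := hs.good
  have mem : ∀ a : E, a ∈ (S.cat fun _ _ => ⊤).H 0 () () := fun a l =>
    ⟨trivial, fun _ => ⟨(hok l).imp_right fun h => ⟨h, rfl⟩, hdeg l⟩⟩
  have zer : ∀ {k : ℤ} {a : E}, k ≠ 0 → a ∈ (S.cat fun _ _ => ⊤).H k () () → a = 0 :=
    fun hk ha => S.c.injective (Finsupp.ext fun l => by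
      rw [map_zero]
      exact by_contra fun h => hk (((ha l).2 h).2.symm.trans (hdeg l)))
  have hc : S.cat (fun _ _ => ⊤) = tcat E Unit := by
    have e1 : S.σ = AddMonoidHom.id E := AddMonoidHom.ext fun a => (g.σ_eq (mem a)).trans (by simp)
    have e2 : S.d = 0 := AddMonoidHom.ext fun a => zer (by simp) (g.d_mem (mem a))
    have e3 : (S.cat fun _ _ => ⊤).H = (tcat E Unit).H := by
      funext k o o'
      ext a
      refine Iff.trans ?_ (mem_bcat (Rf := fun _ _ => ⊤)).symm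
      exact ⟨fun h => ⟨trivial, fun h0 => by_contra fun hk => h0 (zer hk h)⟩, fun h => by
        by_cases h0 : a = 0
        · exact h0 ▸ zero_mem _
        · exact h.2 h0 ▸ mem a⟩
    exact congr (congr (congrArg Cat.mk e1) e2) e3
  have hA := hs.homF_aug le_rfl
  let aug : E →+* R := ⟨⟨⟨S.aug, hA.one⟩, fun a b => hA.mul (mem a) (mem b)⟩, map_zero _, map_add _⟩
  have ai : ∀ r, aug (S.i r) = r := hs.aug_i
  constructor
  · refine Function.LeftInverse.injective (g := K1.map aug) fun x => ?_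
    refine DFunLike.congr_fun (f := (K1.map aug).comp (K1.map S.i)) (g := AddMonoidHom.id _)
      (K1.hom_ext fun n A => ?_) x
    rw [AddMonoidHom.comp_apply, ← cl_mk, map_map_cl _ _ A.isUnit, show _ ∘ _ = id from funext ai,
      Matrix.map_id, AddMonoidHom.id_apply]
  refine fun x => k1_eq_top (Q := (K1.map S.i).range) (fun n M hM => ?_) x
  have hQ : negCl E ∈ (K1.map S.i).range := ⟨_, map_negCl S.i⟩
  let A : Raw E Unit := ⟨Fin n, fun _ => 0 + 1, fun _ => (), 0⟩
  let B : Raw E Unit := ⟨Fin n, fun _ => 0, fun _ => (), 0⟩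
  have two := fun Q hQ => tors_two (Q := Q) (A := A) (B := B) (θ := unmat M) hQ rfl rfl
    (fun _ => rfl) (fun _ => rfl) (Equiv.refl _)
  simp only [mtx_unmat, Equiv.coe_refl, Matrix.submatrix_id_id] at two
  have hV := (two _ hQ).1
  obtain ⟨E'', Λ'', _, S'', Bm, ent, emb, hP⟩ := hEPP R E Λ Unit S _ K 0 hS le_rfl
  have hF := (hCPK R E Λ Unit E'' Λ'' S _ K 0 S'' Bm ent emb hS le_rfl hP).1
  have hH := hVH R E Λ Unit E'' Λ'' S _ K 0 S'' Bm ent emb hS le_rfl hP _ (hc ▸ hV)
    ((tcat_good E Unit).fin1_of_zero (fun k o o' a hk ha => by_contra fun h0 =>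
      hk ((mem_bcat.1 ha).2 h0)) hV inferInstance)
  have hl := hP.loc
  rw [hc] at hH hl
  obtain ⟨X, hX, hXf, hXc, ht⟩ := hKEY E Unit _ E'' Unit R _ _ _ _ _ _ Bm ent hl hF
    (P_of_bc_int hP.sys.good (hL E'' Λ'' S'' (zero_add (1 : ℤ) ▸ hP.sys)))
    {z | (∀ a, z * a = a * z) ∧ ∃ r, z = S.i r} _
    ⟨fun a => (Commute.one_left a).eq, 1, (map_one _).symm⟩ hV hH
    ((two _ negCl_top).2.2 ⟨hM, trivial⟩).ctr
  refine ((two _ hQ).2.1 (ht _ hQ ?_)).2
  have := hXf.1
  have gT := hS.tri_good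
  have tc : ∀ Y, (S.tri (fun _ _ => ⊤) K).Obj Y → (tcat E (Unit × Bool)).Obj Y := fun Y hY =>
    ⟨fun i j => hl.le _ _ _ (hY.1 i j), fun v => by
      have := hY.2 v
      rwa [Cat.D, ← hl.d] at this⟩
  have key : ∀ Y : Raw E (Unit × Bool), Finite Y.ι → (S.tri (fun _ _ => ⊤) K).Obj Y →
      (S.tri (fun _ _ => ⊤) K).Nul 1 Y → (∀ i j, (Y.lab i).2 = false ∨ ¬ (Y.lab j).2 = false) →
      Tors (K1.map S.i).range Y := fun Y _ hY hN hb => by
    obtain ⟨h, h1, h2⟩ := Cat.nul_one.1 hN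
    have ent : ∀ {k} (f : Lin Y Y), (S.tri (fun _ _ => ⊤) K).Hom k Y Y f → ∀ x y,
        ∃ r, mtx f x y = S.i r := fun {k} f hf x y => by
      obtain ⟨r, -, hr⟩ := (hs.mem_unit (o := ())).1 (Sys.Sp_mono (fun l _ hl => (hb x y).elim
        (fun h => (hl.2.1 h).2) fun h => hl.2.2.resolve_right
          (not_or.2 ⟨hE l, fun h' => h h'.1⟩)) (hf x y))
      exact ⟨r, hr⟩
    refine tors_range φ (Function.LeftInverse.injective ai) (tc Y hY) (h := h)
      (LinearMap.ext fun v => ?_) (ent _ hY.1) (ent _ h1)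
    have := h2 v
    rw [Cat.D, ← hl.d, LinearMap.zero_apply, sub_zero] at this
    exact ((congrArg₂ (· + h ·) (tcat_D _) (tcat_D _)).symm.trans this.symm)
  obtain ⟨c1, c2, c3⟩ := gT.nul_res (z := 1) (fun o => o.2 = false) (fun k o o' a h h' ha => by
    obtain ⟨o, b⟩ := o
    obtain ⟨o', b'⟩ := o'
    obtain rfl : b = false := h
    obtain rfl : b' = true := Bool.eq_true_of_not_eq_false h'
    exact hS.tri_zero ha) hX (Cat.nul_one.2 hXc)
  have ss := gT.ses_res hX c1
  exact (tors_res hQ (tc X hX) c1).1 (key _ inferInstance ss.1 c2 fun i _ => Or.inl i.2)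
    (key _ inferInstance ss.2.2.1 c3 fun _ j => Or.inr j.2)

end Pool.Agent.Lib.NIL
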