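import Pool.Agent.Lib.NIL.Blue
import Pool.Agent.Lib.NIL.A6

/-! KEY: an object killed by a denominator lifts to an object killed by a denominator. -/

namespace Pool.Agent.Lib.NIL

open Finsupp TensorProduct

namespace KEY

variable {E L : Type} [Ring E] {C : Cat E L} {A B B' V V' W W' : Raw E L}

theorem rx_ext_right (h : B.Rx B') (θ : Lin B A) :
    ∃ θ' : Lin B' A, (A.ext B θ).Rx (A.ext B' θ') := by
  obtain ⟨e, hd, hl, hδ⟩ := h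
  refine ⟨θ ∘ₗ inc e.symm, Equiv.sumCongr (Equiv.refl _) e, ?_, ?_, ?_⟩
  · rintro (a | b)
    · rfl
    · exact hd b
  · rintro (a | b)
    · rfl
    · exact hl b
  · rintro (a | b) (a' | b')
    · exact (Raw.ext_ll _ a a').trans (Raw.ext_ll _ a a').symm
    · exact (Raw.ext_lr _ a (e b')).trans (Raw.ext_lr _ a b').symm
    · refine (Raw.ext_rl _ (e b) a').trans (Eq.trans ?_ (Raw.ext_rl _ b a').symm)
      rw [LinearMap.comp_apply, inc_single, Equiv.symm_apply_apply]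
    · exact (Raw.ext_rr _ (e b) (e b')).trans ((hδ b b').trans (Raw.ext_rr _ b b').symm)

/-- the shape of the object given by `Hat` -/
theorem exists_ext {p : V.ι → Prop} (hp : V.Closed p) (h : (V.res fun i => ¬ p i).Rx B) :
    ∃ θ : Lin B (V.res p), V.Rx ((V.res p).ext B θ) :=
  let ⟨θ, e⟩ := rx_ext_right h _; ⟨θ, hp.rx_ext.trans e⟩

theorem ext_congr {ι : Type} {d d' : ι → ℤ} {l l' : ι → L} {δ δ' : (ι →₀ E) →ₗ[E] (ι →₀ E)}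
    (h : (⟨ι, d, l, δ⟩ : Raw E L) = ⟨ι, d', l', δ'⟩) (θ : (ι →₀ E) →ₗ[E] (A.ι →₀ E)) :
    A.ext ⟨ι, d, l, δ⟩ θ = A.ext ⟨ι, d', l', δ'⟩ θ := by
  cases h
  rfl

theorem isEqv_congr {ι κ : Type} {d d' : ι → ℤ} {l l' : ι → L} {δ δ' : (ι →₀ E) →ₗ[E] (ι →₀ E)}
    {c c' : κ → ℤ} {m m' : κ → L} {γ γ' : (κ →₀ E) →ₗ[E] (κ →₀ E)}
    (h : (⟨ι, d, l, δ⟩ : Raw E L) = ⟨ι, d', l', δ'⟩)
    (h' : (⟨κ, c, m, γ⟩ : Raw E L) = ⟨κ, c', m', γ'⟩) {f f' : (ι →₀ E) →ₗ[E] (κ →₀ E)}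
    (e : f = f') (hf : C.IsEqv ⟨ι, d', l', δ'⟩ ⟨κ, c', m', γ'⟩ f') :
    C.IsEqv ⟨ι, d, l, δ⟩ ⟨κ, c, m, γ⟩ f := by
  cases h
  cases h'
  exact e ▸ hf

theorem wf_bool {Δ : Bool → Bool →₀ E} (h1 : Δ true = single false 1) (h0 : Δ false = 0) :
    WellFounded fun k' k => Δ k k' ≠ 0 := by
  refine Subrelation.wf (r := InvImage (· < ·) Bool.toNat) ?_ (InvImage.wf _ wellFounded_lt)
  rintro (_ | _) (_ | _) h <;> simp_all [InvImage]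

variable {M E'' N R'' : Type} [Ring E''] [Ring R''] {T : Cat E M} {jl : M → L} {C'' : Cat E'' N}
  {C₀ : Cat R'' N} {I : R'' →+ E''} {U : E'' →+ R''} {Bm : BM E'' N E M Bool}
  {ent : Bool → Bool → E'' →+ E}

theorem fin1_bm (h : Loc C T jl C'' C₀ I U Bm ent) {W : Raw E'' N} (hW : W.Fin1) :
    (W.bm Bm).Fin1 :=
  have := hW.1
  ⟨inferInstanceAs (Finite (W.ι × Bool)), bm_wf h.bm.act_zero (wf_bool h.Δ1 h.Δ0) hW.2⟩

theorem disky_bm (h : Loc C T jl C'' C₀ I U Bm ent) {W : Raw E'' N} (hW : W.Fin1) :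
    ((W.bm Bm).relab jl).Disky :=
  bm_disky h.bm.act_zero h.Δ1 h.Δ0 (by rw [h.dg0, h.dg1]; rfl) jl h.lb hW

/-- attaching cells of the kernel does not change the localisation -/
theorem eqv_relab (h : Loc C T jl C'' C₀ I U Bm ent) {W : Raw E'' N} (hW : W.Fin1) {Y : Raw E M}
    {θ : Lin (W.bm Bm) Y} (hZ : T.Obj (Y.ext (W.bm Bm) θ)) :
    C.Eqv (Y.relab jl) ((Y.ext (W.bm Bm) θ).relab jl) :=
  have s := (relab_isFn h.d h.le).ses (h.tgood.ses_ext hZ)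
  h.good.ses_eqv_of_ctr_right s (h.good.ctr_of_disky s.2.2.1 (disky_bm h hW))

end KEY

open KEY in
theorem st_key (hS : St_SIMP) : St_KEY := by
  intro E L M E'' N R'' _ _ _ C T jl C'' C₀ I U Bm ent h B B' _ _ _ S _ hK hP V hV hH hN
  obtain ⟨X, p, W, hX, hp, hY, hrx, hW, hwf, hbd, hnul, hsimp⟩ := hH
  obtain ⟨f, hf, hN⟩ := hN
  have h1 := hS.2.2 E L M E'' N R'' C T jl C'' C₀ I U Bm ent h B
  have h2 := hS.2.2 E L M E'' N R'' C T jl C'' C₀ I U Bm ent h B'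
  obtain ⟨θ, e⟩ := exists_ext hp hrx
  have o1 := Cat.obj_rx e hX
  obtain ⟨oY, -, hθ⟩ := h1.tgood.of_obj_ext o1
  have n1 := h1.tgood.nul_of_retr (h.tgood.cen_tmul f) (h1.tgood.eqv_rx e.symm).retr
    (hnul _ ⟨f, rfl⟩ hN)
  have FT := (isHomF_rT T (algebraMap B B')).isFn h1.tgood h2.tgood
  have FC := (isHomF_rT C'' (algebraMap B B')).isFn h1.aug.good h2.aug.good
  have c1 := h.tgood.ctr_loc (B' := B') S o1 hf n1
  have o2 : (T.bc B').Obj (((X.res p).ext (W.bm (Bm.bc ent B)) θ).bc (algebraMap B B')) :=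
    FT.obj o1
  have q1 : ((X.res p).ext (W.bm (Bm.bc ent B)) θ).bc (algebraMap B B') =
      ((X.res p).bc (algebraMap B B')).ext ((W.bm (Bm.bc ent B)).bc (algebraMap B B'))
        (mapL (rT E (algebraMap B B').toAddMonoidHom) θ) := Raw.mapA_ext _ _ θ
  have q2 := q1.trans (ext_congr (bm_bc_rT Bm ent _ W) _)
  have i1 := hK _ (W.bc (algebraMap B B')) _ (FC.obj hW) (hY.mapA _ id) (q2 ▸ o2) (q2 ▸ c1)
  obtain ⟨W₂, oW₂, fW₂, e2⟩ := h2.aug.inO_of_P le_rfl hP (FC.obj hW) hbd (Or.inr (hwf.mapA _ id)) i1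
  obtain ⟨W₁, oW₁, fW₁, e1⟩ := h.aug.good.cd_obj S oW₂ fW₂
  obtain ⟨ψ', hψ'⟩ := h2.aug.good.eqv_trans e1 e2.symm
  obtain ⟨ψ, hψ, hψ2⟩ := h.aug.good.cd_ch S oW₁ hW fW₁.1 hψ'
  have G1 := h1.bm.isFn h1.aug.good h1.tgood
  have G2 := h2.bm.isFn h2.aug.good h2.tgood
  have cψ := G1.ch oW₁ hW hψ
  have hZ := h1.tgood.obj_ext oY (G1.obj oW₁) (h1.tgood.at_comp_left cψ hθ)
  have fZ := hY.ext (fin1_bm h1 fW₁) (θ ∘ₗ bmL (Bm.bc ent B).act ψ)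
  have e3 := isEqv_congr (bm_bc_rT Bm ent _ W₁) (bm_bc_rT Bm ent _ W)
    (bmL_bc_rT Bm ent (algebraMap B B') ψ) (G2.isEqv (FC.obj oW₁) (FC.obj hW) hψ2)
  obtain ⟨oY', oW', hθ'⟩ := h2.tgood.of_obj_ext (q1 ▸ o2)
  have e4 := h2.tgood.eqv_ext_right oY' oW' (FT.obj (G1.obj oW₁)) hθ' e3
  have q3 : ((X.res p).ext (W₁.bm (Bm.bc ent B)) (θ ∘ₗ bmL (Bm.bc ent B).act ψ)).bc
      (algebraMap B B') = _ := Raw.mapA_ext _ _ _
  rw [FT.comp cψ.1 hθ.1] at q3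
  have c2 := h2.tgood.ctr_of_retr e4.retr (q1 ▸ c1)
  refine ⟨_, hZ, fZ, h.tgood.cd_ctr (B' := B') S hZ fZ.1 (q3 ▸ c2), ?_⟩
  exact h1.good.eqv_trans (eqv_relab h1 fW₁ hZ).symm
    (hS.1 _ _ _ _ _ h1.good ((relab_isFn h1.d h1.le).obj oY) hsimp)

end Pool.Agent.Lib.NIL
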