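import Pool.Agent.Lib.NIL.Tors

set_option autoImplicit false

/-! Absolute torsion of finite based complexes, modulo a subgroup of `K1`. -/

namespace Pool.Agent.Lib.NIL

open Matrix Pool.Agent.WhDet Function

universe u v w

variable {S : Type u} [Ring S] {ι κ μ : Type*} [Fintype ι] [DecidableEq ι] [Fintype κ]
  [DecidableEq κ] [Fintype μ] [DecidableEq μ] {Q : AddSubgroup (K1 S)}

/-- the class of a one by one matrix -/
noncomputable def cl1 (x : S) : K1 S := cl (Matrix.of fun _ _ : Unit => x)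

theorem cl1_eq_mk (A : (Matrix (Fin 1) (Fin 1) S)ˣ) : cl1 (A.val 0 0) = K1.mk A :=
  cl_eq finOneEquiv.symm _ _ (by
    ext i j
    obtain rfl := Subsingleton.elim i 0
    obtain rfl := Subsingleton.elim j 0
    rfl)

theorem isUnit_of_one {x : S} (hx : IsUnit x) : IsUnit (Matrix.of fun _ _ : Unit => x) := by
  obtain ⟨u, rfl⟩ := hx
  exact ⟨⟨_, Matrix.of fun _ _ : Unit => u⁻¹.val, by ext; simp [mul_apply],
    by ext; simp [mul_apply]⟩, rfl⟩

theorem cl1_map {S' : Type v} [Ring S'] (φ : S →+* S') {x : S} (hx : IsUnit x) :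
    K1.map φ (cl1 x) = cl1 (φ x) := cl_map φ (isUnit_of_one hx)

theorem cl1_mul {x y : S} (hx : IsUnit x) (hy : IsUnit y) : cl1 (x * y) = cl1 x + cl1 y := by
  rw [cl1, cl1, cl1, ← cl_mul (isUnit_of_one hx) (isUnit_of_one hy)]
  congr 1
  ext
  simp [mul_apply]

theorem cl1_one : cl1 (1 : S) = 0 := by
  rw [← cl_one (ι := Unit), cl1]
  congr 1

theorem cl_update (x : ι) (a : S) : cl (diagonal (update 1 x a)) = cl1 a := by
  have k := cl_swap (Matrix.of fun (i : ι) (_ : Unit) => if i = x then (1 : S) else 0)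
    (Matrix.of fun (_ : Unit) (i : ι) => if i = x then a - 1 else 0)
  rw [cl1]
  refine Eq.trans ?_ (k.trans ?_) <;> congr 1 <;> ext i j
  · by_cases h1 : i = x <;> by_cases h2 : j = x <;> by_cases h3 : i = j <;>
      simp_all [mul_apply, diagonal_apply]
  · simp [mul_apply]

theorem cl_diagonal {u : ι → S} (hu : ∀ i, IsUnit (u i)) : cl (diagonal u) = ∑ i, cl1 (u i) := by
  have un : ∀ {v : ι → S}, (∀ i, IsUnit (v i)) → IsUnit (diagonal v) := fun h =>
    (Pi.isUnit_iff.2 h).map (diagonalRingHom ι S)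
  suffices H : ∀ s : Finset ι, cl (diagonal fun i => if i ∈ s then u i else 1) =
      ∑ i ∈ s, cl1 (u i) by simpa using H Finset.univ
  intro s
  induction s using Finset.induction_on with
  | empty => simpa using cl_one
  | insert x s hx ih =>
    rw [Finset.sum_insert hx, ← ih, ← cl_update x, ← cl_mul, diagonal_mul_diagonal]
    · congr 2
      funext i
      by_cases h : i = x <;> simp [h, hx]
    · exact un fun i => by by_cases h : i = x <;> simp [h, hu]
    · exact un fun i => by split_ifs <;> simp [hu]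

theorem ecl_diagonal {deg : ι → ℤ} {u : ι → S} (hu : ∀ i, IsUnit (u i)) (hQ : ∀ i, cl1 (u i) ∈ Q) :
    ecl (par S deg) (diagonal u) ∈ Q := by
  have e : par S deg * diagonal u + (1 - par S deg) =
      diagonal fun i => if Even (deg i) then u i else 1 := by
    rw [par, diagonal_mul_diagonal, ← diagonal_one, diagonal_sub, diagonal_add]
    congr 1
    funext i
    split_ifs <;> simp
  rw [ecl, e, cl_diagonal fun i => by split_ifs <;> simp [hu]]
  refine Q.sum_mem fun i _ => ?_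
  split_ifs
  exacts [hQ i, (cl1_one (S := S)).symm ▸ Q.zero_mem]

/-- the matrix of a map of bases -/
def fm (S : Type u) [Ring S] (f : ι → κ) : Matrix ι κ S :=
  Matrix.of fun i j => if f i = j then 1 else 0

omit [Fintype ι] [DecidableEq ι] [Fintype μ] [DecidableEq μ] in
theorem fm_mul (f : ι → κ) (A : Matrix κ μ S) : fm S f * A = A.submatrix f id := by
  ext i j
  simp [fm, mul_apply]

omit [Fintype ι] [DecidableEq ι] [Fintype μ] in
theorem fm_mul_fm (f : ι → κ) (g : κ → μ) : fm S f * fm S g = fm S (g ∘ f) := fm_mul _ _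

omit [Fintype ι] in
theorem fm_id : fm S (id : ι → ι) = 1 := rfl

theorem isUnit_fm {f : ι → ι} (hf : Bijective f) : IsUnit (fm S f) :=
  ⟨⟨fm S f, fm S (surjInv hf.surjective),
    by rw [fm_mul_fm, (leftInverse_surjInv hf).comp_eq_id, fm_id],
    by rw [fm_mul_fm, (rightInverse_surjInv hf.surjective).comp_eq_id, fm_id]⟩, rfl⟩

theorem cl_fm (hQ : cl1 (-1 : S) ∈ Q) {f : ι → ι} (hf : Bijective f) : cl (fm S f) ∈ Q := by
  obtain ⟨σ, rfl⟩ : ∃ σ : Equiv.Perm ι, ⇑σ = f := ⟨Equiv.ofBijective f hf, rfl⟩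
  clear hf
  induction σ using Equiv.Perm.swap_induction_on with
  | one => exact (cl_one (ι := ι) (R := S)).symm ▸ Q.zero_mem
  | swap_mul σ x y hxy ih =>
    rw [Equiv.Perm.coe_mul, ← fm_mul_fm, cl_mul (isUnit_fm σ.bijective)
      (isUnit_fm (Equiv.bijective _))]
    refine Q.add_mem ih ?_
    have k := cl_swap
      (Matrix.of fun (i : ι) (_ : Unit) => (if i = x then (1 : S) else 0) - if i = y then 1 else 0)
      (Matrix.of fun (_ : Unit) (i : ι) => (if i = y then (1 : S) else 0) - if i = x then 1 else 0)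
    have e : cl (fm S (Equiv.swap x y)) = cl1 (-1 : S) := by
      rw [cl1]
      refine Eq.trans ?_ (k.trans ?_) <;> congr 1 <;> ext i j
      · by_cases h1 : i = x <;> by_cases h2 : i = y <;>
          simp_all [mul_apply, fm, one_apply, Equiv.swap_apply_def, eq_comm]
      · simp [mul_apply, sub_mul, mul_sub, Finset.sum_sub_distrib, hxy, hxy.symm]
    exact e ▸ hQ

omit [Fintype ι] [DecidableEq ι] [Fintype κ] in
theorem fm_map {S' : Type v} [Ring S'] (φ : S →+* S') (f : ι → κ) : (fm S f).map φ = fm S' f := by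
  ext i j
  simp only [fm, map_apply, of_apply]
  split_ifs <;> simp

theorem ecl_fm (hQ : cl1 (-1 : S) ∈ Q) {deg : ι → ℤ} {f : ι → ι} (hf : Bijective f)
    (he : ∀ i, Even (deg i - deg (f i))) : ecl (par S deg) (fm S f) ∈ Q := by
  have e : par S deg * fm S f + (1 - par S deg) =
      fm S fun i => if Even (deg i) then f i else i := by
    ext i j
    rw [par, ← diagonal_one, diagonal_sub, Matrix.add_apply, diagonal_mul, diagonal_apply]
    by_cases h : Even (deg i) <;> simp [fm, h]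
  rw [ecl, e]
  refine cl_fm hQ (Finite.injective_iff_bijective.1 fun a b h => ?_)
  have ha := Int.even_sub.1 (he a)
  have hb := Int.even_sub.1 (he b)
  by_cases h1 : Even (deg a) <;> by_cases h2 : Even (deg b) <;> simp only [h1, h2, if_true,
    if_false] at h
  · exact hf.1 h
  · exact absurd (h ▸ ha.1 h1) h2
  · exact absurd (h ▸ hb.1 h2) h1
  · exact h

/-- a bijection of the basis that exchanges the parities -/
structure Flip (deg : ι → ℤ) (τ : ι → ι) : Prop where
  bij : Bijective τ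
  odd : ∀ i, Odd (deg i - deg (τ i))

theorem Flip.par {deg : ι → ℤ} {τ : ι → ι} (f : Flip deg τ) :
    par S deg * fm S τ = fm S τ * (1 - par S deg) :=
  par_odd fun i j h => by
    obtain rfl : τ i = j := by
      by_contra h1
      exact h (if_neg h1)
    exact f.odd i

/-- the Euler characteristic of a graded basis -/
def chi (deg : ι → ℤ) : ℤ := ∑ i, if Even (deg i) then 1 else -1

omit [DecidableEq ι] in
theorem Flip.chi {deg : ι → ℤ} {τ : ι → ι} (f : Flip deg τ) : chi deg = 0 := by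
  have h : NIL.chi deg = -NIL.chi deg := by
    rw [NIL.chi, ← Finset.sum_neg_distrib]
    refine (Fintype.sum_bijective τ f.bij _ _ fun i => ?_)
    have := Int.odd_sub.1 (f.odd i)
    by_cases h : Even (deg (τ i))
    · rw [if_pos h, if_neg (Int.not_even_iff_odd.2 (this.2 h))]
    · rw [if_neg h, if_pos (Int.not_odd_iff_even.1 (mt this.1 h)), neg_neg]
  omega

omit [DecidableEq ι] in
theorem chi_eq (deg : ι → ℤ) : chi deg = (Fintype.card {i // Even (deg i)} : ℤ) -
    Fintype.card {i // ¬ Even (deg i)} := by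
  rw [chi, Finset.sum_ite, Fintype.card_subtype, Fintype.card_subtype]
  simp [sub_eq_add_neg]

omit [DecidableEq ι] in
theorem exists_flip {deg : ι → ℤ} (h : chi deg = 0) : ∃ τ, Flip deg τ := by
  rw [chi_eq, sub_eq_zero, Nat.cast_inj] at h
  let e := Fintype.equivOfCardEq h
  have inv : Involutive fun i => if h : Even (deg i) then (e ⟨i, h⟩).1 else (e.symm ⟨i, h⟩).1 := by
    intro i
    by_cases h : Even (deg i)
    · simp only [dif_pos h, dif_neg (e ⟨i, h⟩).2]
      simp
    · simp only [dif_neg h, dif_pos (e.symm ⟨i, h⟩).2]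
      simp
  refine ⟨_, inv.bijective, fun i => ?_⟩
  by_cases h : Even (deg i)
  · rw [dif_pos h]
    exact h.sub_odd (Int.not_even_iff_odd.1 (e ⟨i, h⟩).2)
  · rw [dif_neg h]
    exact (Int.not_even_iff_odd.1 h).sub_even (e.symm ⟨i, h⟩).2

omit [DecidableEq ι] [DecidableEq κ] in
theorem chi_sum (deg : ι → ℤ) (deg' : κ → ℤ) : chi (Sum.elim deg deg') = chi deg + chi deg' :=
  Fintype.sum_sum_type _

theorem Ctr.chi [InvariantBasisNumber S] {deg : ι → ℤ} {d : Matrix ι ι S}
    (c : Ctr (par S deg) d) : chi deg = 0 := by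
  obtain ⟨h, c⟩ := c
  have h1 := c.sq
  have h2 := c.odd
  generalize d + h = T at h1 h2
  have z : ∀ i j, (Even (deg i) ↔ Even (deg j)) → T i j = 0 := fun i j h => by
    have := congrFun (congrFun h2 i) j
    rw [par, ← diagonal_one, diagonal_sub, diagonal_mul, mul_diagonal] at this
    by_cases h3 : Even (deg i)
    · simpa [h3, h.1 h3] using this
    · simpa [h3, mt h.2 h3] using this.symm
  have a : ∀ r : ι → Prop, (T * T).toBlock r r =
      T.toBlock r (fun i => Even (deg i)) * T.toBlock (fun i => Even (deg i)) r +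
      (T.toBlock r fun i => ¬ Even (deg i)) * T.toBlock (fun i => ¬ Even (deg i)) r := fun r => by
    ext i k
    exact (Fintype.sum_subtype_add_sum_subtype _ fun x => T (↑i) x * T x ↑k).symm
  have a1 := a fun i => Even (deg i)
  have a2 := a fun i => ¬ Even (deg i)
  have z1 : T.toBlock (fun i => Even (deg i)) (fun i => Even (deg i)) = 0 := by
    ext i j
    exact z _ _ (iff_of_true i.2 j.2)
  have z2 : T.toBlock (fun i => ¬ Even (deg i)) (fun i => ¬ Even (deg i)) = 0 := by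
    ext i j
    exact z _ _ (iff_of_false i.2 j.2)
  rw [h1, z1, toBlock_one_self, Matrix.zero_mul, zero_add] at a1
  rw [h1, z2, toBlock_one_self, Matrix.zero_mul, add_zero] at a2
  rw [chi_eq, Matrix.square_of_invertible _ _ a1.symm a2.symm, sub_self]

theorem Ctr.map {S' : Type v} [Ring S'] (φ : S →+* S') {deg : ι → ℤ} {d : Matrix ι ι S}
    (c : Ctr (par S deg) d) : Ctr (par S' deg) (d.map φ) := by
  obtain ⟨h, c⟩ := c
  exact ⟨h.map φ, par_map (deg := deg) φ ▸ c.map φ.mapMatrix⟩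

/-- the complex with basis `ι`, degrees `deg` and differential `d` is contractible, of Euler
characteristic zero, with torsion in `Q` -/
def TorM (Q : AddSubgroup (K1 S)) (deg : ι → ℤ) (d : Matrix ι ι S) : Prop :=
  ∃ h τ, Con (par S deg) d h ∧ Flip deg τ ∧ ecl (par S deg) ((d + h) * fm S τ) ∈ Q

section

variable {p d h d' h' T : Matrix ι ι S}

theorem Con.even_ref (c : Con p d h) (ho : p * T = T * (1 - p)) :
    p * ((d + h) * T) = (d + h) * T * p := by
  rw [← mul_assoc, c.odd, mul_assoc, sub_mul, ho, mul_assoc]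
  noncomm_ring

theorem ecl_ref (c : Con p d h) (c' : Con p d' h') (hT : IsUnit T) (ho : p * T = T * (1 - p)) :
    ecl p ((d + h) * T) = rel p d h d' h' + ecl p ((d' + h') * T) := by
  rw [rel, ← ecl_mul c.pp (c.even c') (c'.even_ref ho) (c.isUnit.mul c'.isUnit)
    (c'.isUnit.mul hT), mul_assoc, ← mul_assoc (d' + h'), c'.sq, one_mul]

end

variable {deg : ι → ℤ} {deg' : κ → ℤ} {d h : Matrix ι ι S} {a : Matrix κ κ S} {τ : ι → ι}

theorem TorM.ctr (t : TorM Q deg d) : Ctr (par S deg) d :=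
  let ⟨h, _, c, _⟩ := t; ⟨h, c⟩

theorem TorM.chi (t : TorM Q deg d) : chi deg = 0 :=
  let ⟨_, _, _, f, _⟩ := t; f.chi

theorem TorM.mono {Q' : AddSubgroup (K1 S)} (t : TorM Q deg d) (hQ : Q ≤ Q') : TorM Q' deg d :=
  let ⟨h, τ, c, f, m⟩ := t; ⟨h, τ, c, f, hQ m⟩

theorem torM_top (c : Ctr (par S deg) d) (h : chi deg = 0) : TorM ⊤ deg d :=
  let ⟨k, c⟩ := c; let ⟨τ, f⟩ := exists_flip h; ⟨k, τ, c, f, trivial⟩

theorem torM_top' {A : Type v} [Ring A] [InvariantBasisNumber A] (φ : S →+* A)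
    (c : Ctr (par S deg) d) : TorM ⊤ deg d := torM_top c (c.map φ).chi

/-- independence of the contraction and of the bijection -/
theorem torM_iff (hQ : cl1 (-1 : S) ∈ Q) (c : Con (par S deg) d h) (f : Flip deg τ) :
    TorM Q deg d ↔ ecl (par S deg) ((d + h) * fm S τ) ∈ Q := by
  refine ⟨fun ⟨h', σ, c', f', m⟩ => ?_, fun m => ⟨h, τ, c, f, m⟩⟩
  have e : fm S τ = fm S σ * fm S (τ ∘ surjInv f'.bij.surjective) := by
    rw [fm_mul_fm, comp_assoc, (leftInverse_surjInv f'.bij).comp_eq_id, comp_id]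
  have b : Bijective (τ ∘ surjInv f'.bij.surjective) := 
    f.bij.comp (Finite.injective_iff_bijective.1 (injective_surjInv _))
  have ev : ∀ i, Even (deg i - deg ((τ ∘ surjInv f'.bij.surjective) i)) := fun i => by
    obtain ⟨i, rfl⟩ := f'.bij.surjective i
    rw [Function.comp_apply, leftInverse_surjInv f'.bij]
    have := (f.odd i).sub_odd (f'.odd i)
    rwa [sub_sub_sub_cancel_left] at this
  rw [ecl_ref c c' (isUnit_fm f.bij) f.par, rel_indep c' c, zero_add, e, ← mul_assoc,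
    ecl_mul c.pp (c'.even_ref f'.par) _ (c'.isUnit.mul (isUnit_fm f'.bij)) (isUnit_fm b)]
  · exact Q.add_mem m (ecl_fm hQ b ev)
  · refine par_even fun i j h => ?_
    obtain rfl : (τ ∘ surjInv f'.bij.surjective) i = j := by
      by_contra h1
      exact h (if_neg h1)
    exact ev i

theorem TorM.map {S' : Type v} [Ring S'] (φ : S →+* S') {Q' : AddSubgroup (K1 S')}
    (t : TorM Q deg d) (hQ : ∀ x ∈ Q, K1.map φ x ∈ Q') : TorM Q' deg (d.map φ) := by
  obtain ⟨h, τ, c, f, m⟩ := t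
  refine ⟨h.map φ, τ, par_map (deg := deg) φ ▸ c.map φ.mapMatrix, f, ?_⟩
  have k := hQ _ m
  rw [← ecl_map φ c.pp (c.even_ref f.par) (c.isUnit.mul (isUnit_fm f.bij)), par_map,
    Matrix.map_mul, fm_map, Matrix.map_add _ (map_add φ)] at k
  exact k

theorem TorM.reindex (e : κ ≃ ι) (t : TorM Q deg d) :
    TorM Q (fun k => deg (e k)) (d.submatrix e e) := by
  obtain ⟨h, τ, c, f, m⟩ := t
  have c' := c.map (reindexRingEquiv S e.symm).toRingHom
  have e1 := par_reindex (S := S) (deg := deg) e.symm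
  refine ⟨h.submatrix e e, e.symm ∘ τ ∘ e, e1 ▸ c', ⟨e.symm.bijective.comp
    (f.bij.comp e.bijective), fun i => by simpa using f.odd (e i)⟩, ?_⟩
  rw [← ecl_reindex e.symm, e1] at m
  have e2 : Matrix.reindex e.symm e.symm ((d + h) * fm S τ) =
      (d.submatrix e e + h.submatrix e e) * fm S (e.symm ∘ τ ∘ e) := by
    rw [reindex_apply, Equiv.symm_symm, ← submatrix_mul_equiv _ _ _ e]
    congr 1
    ext i j
    simp [fm, Equiv.symm_apply_eq]
  exact e2 ▸ m

theorem torM_reindex (e : κ ≃ ι) :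
    TorM Q (fun k => deg (e k)) (d.submatrix e e) ↔ TorM Q deg d :=
  ⟨fun t => by simpa using t.reindex e.symm, fun t => t.reindex e⟩

theorem TorM.congr {deg₂ : ι → ℤ} (t : TorM Q deg d) (h : ∀ i, Even (deg i - deg₂ i)) :
    TorM Q deg₂ d := by
  obtain ⟨k, τ, c, f, m⟩ := t
  rw [par_congr h] at c m
  refine ⟨k, τ, c, ⟨f.bij, fun i => ?_⟩, m⟩
  have : deg₂ i - deg₂ (τ i) = deg i - deg (τ i) - (deg i - deg₂ i) + (deg (τ i) - deg₂ (τ i)) := by
    ring
  exact this ▸ ((f.odd i).sub_even (h i)).add_even (h _)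

/-- suspension -/
theorem TorM.shift (hQ : cl1 (-1 : S) ∈ Q) (t : TorM Q deg d) : TorM Q (fun i => deg i + 1) d := by
  obtain ⟨h, c⟩ := t.ctr
  obtain ⟨τ, f⟩ := exists_flip t.chi
  have f' : Flip deg (surjInv f.bij.surjective) :=
    ⟨Finite.injective_iff_bijective.1 (injective_surjInv _), fun i => by
      obtain ⟨i, rfl⟩ := f.bij.surjective i
      rw [leftInverse_surjInv f.bij, ← neg_sub]
      exact (f.odd i).neg⟩
  have m := (torM_iff hQ c f').1 t
  refine ⟨h, τ, one_sub_par (S := S) (deg := deg) ▸ c.compl, ⟨f.bij, fun i => by simpa using f.odd i⟩, ?_⟩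
  have e1 : fm S τ * fm S (surjInv f.bij.surjective) = 1 := by
    rw [fm_mul_fm, (leftInverse_surjInv f.bij).comp_eq_id, fm_id]
  have e2 : fm S (surjInv f.bij.surjective) * fm S τ = 1 := by
    rw [fm_mul_fm, (rightInverse_surjInv f.bij.surjective).comp_eq_id, fm_id]
  rw [← one_sub_par, ← ecl_odd c.sq c.odd, ← mul_assoc, c.sq, one_mul,
    ecl_inv c.pp (c.even_ref f'.par)]
  · exact Q.neg_mem m
  · rw [mul_assoc, ← mul_assoc (d + h), c.sq, one_mul, e1]
  · rw [mul_assoc, ← mul_assoc (fm S _), e2, one_mul, c.sq]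

theorem TorM.congr_odd (hQ : cl1 (-1 : S) ∈ Q) {deg₂ : ι → ℤ} (t : TorM Q deg d)
    (h : ∀ i, Odd (deg i - deg₂ i)) : TorM Q deg₂ d :=
  (t.shift hQ).congr fun i => by
    rw [add_sub_right_comm]
    exact (h i).add_one

/-- change of basis -/
theorem TorM.conj (t : TorM Q deg d) {g g' : Matrix ι ι S} (h1 : g' * g = 1) (h2 : g * g' = 1)
    (hg : par S deg * g = g * par S deg)
    (hm : ecl (par S deg) g - ecl (1 - par S deg) g ∈ Q) : TorM Q deg (g * d * g') := by
  obtain ⟨h, τ, c, f, m⟩ := t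
  refine ⟨_, τ, c.conj h1 h2 hg, f, ?_⟩
  rw [ecl_ref (c.conj h1 h2 hg) c (isUnit_fm f.bij) f.par, rel_conj c h1 h2 hg]
  exact Q.add_mem hm m

/-- two bases of a complex, both with torsion in `Q` -/
theorem TorM.of_conj (hQ : cl1 (-1 : S) ∈ Q) (t : TorM Q deg d) {g g' : Matrix ι ι S}
    (h1 : g' * g = 1) (h2 : g * g' = 1) (hg : par S deg * g = g * par S deg)
    (t' : TorM Q deg (g * d * g')) : ecl (par S deg) g - ecl (1 - par S deg) g ∈ Q := by
  obtain ⟨h, τ, c, f, m⟩ := t
  have m' := (torM_iff hQ (c.conj h1 h2 hg) f).1 t'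
  rw [ecl_ref (c.conj h1 h2 hg) c (isUnit_fm f.bij) f.par, rel_conj c h1 h2 hg] at m'
  exact (Q.add_mem_cancel_right m).1 m'

theorem torM_conj {g g' : Matrix ι ι S} (h1 : g' * g = 1) (h2 : g * g' = 1)
    (hg : par S deg * g = g * par S deg)
    (hm : ecl (par S deg) g - ecl (1 - par S deg) g ∈ Q) :
    TorM Q deg (g * d * g') ↔ TorM Q deg d := by
  refine ⟨fun t => ?_, fun t => t.conj h1 h2 hg hm⟩
  have pp := par_mul_par (S := S) (deg := deg)
  have hg' : par S deg * g' = g' * par S deg := by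
    rw [← one_mul (_ * g'), ← h1, mul_assoc g', ← mul_assoc g, ← hg, mul_assoc _ g, h2, mul_one]
  have k := t.conj h2 h1 hg' (by
    rw [ecl_inv pp hg h1 h2, ecl_inv (p := 1 - par S deg) _ _ h1 h2, neg_sub_neg, ← neg_sub]
    · exact Q.neg_mem hm
    · rw [one_sub_par, par_mul_par]
    · rw [sub_mul, mul_sub, hg, one_mul, mul_one])
  rwa [← mul_assoc, ← mul_assoc, h1, one_mul, mul_assoc, h1, mul_one] at k

/-- change of basis given by an intertwining unit -/
theorem torM_intertwine {d' g : Matrix ι ι S} (hu : IsUnit g) (hd : g * d = d' * g)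
    (hg : par S deg * g = g * par S deg)
    (hm : ecl (par S deg) g - ecl (1 - par S deg) g ∈ Q) : TorM Q deg d' ↔ TorM Q deg d := by
  obtain ⟨u, rfl⟩ := hu
  rw [← torM_conj (d := d) u.inv_mul u.mul_inv hg hm, hd, mul_assoc, u.mul_inv, mul_one]

/-- unipotent change of basis -/
theorem torM_unip (ρ : ι → ℕ) {d' n : Matrix ι ι S} (hn : ∀ i j, n i j ≠ 0 → ρ j < ρ i)
    (he : ∀ i j, n i j ≠ 0 → Even (deg i - deg j)) (hd : (1 + n) * d = d' * (1 + n)) :
    TorM Q deg d' ↔ TorM Q deg d :=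
  torM_intertwine (cl_tri ρ hn).1 hd (by rw [mul_add, add_mul, par_even he, mul_one, one_mul])
    (by rw [one_sub_par, ecl_tri ρ hn, ecl_tri ρ hn, sub_zero]; exact Q.zero_mem)

/-- diagonal change of basis -/
theorem torM_diagonal {d' : Matrix ι ι S} {u : ι → S} (hu : ∀ i, IsUnit (u i))
    (hQ : ∀ i, cl1 (u i) ∈ Q) (hd : ∀ i j, u i * d i j = d' i j * u j) :
    TorM Q deg d' ↔ TorM Q deg d :=
  torM_intertwine ((Pi.isUnit_iff.2 hu).map (diagonalRingHom ι S))
    (by ext i j; exact (diagonal_mul _ _ _ _).trans ((hd i j).trans (mul_diagonal _ _ _ _).symm))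
    (par_even fun i j h => by
      obtain rfl : i = j := by
        by_contra h1
        exact h (diagonal_apply_ne _ h1)
      simp)
    (by rw [one_sub_par]; exact Q.sub_mem (ecl_diagonal hu hQ) (ecl_diagonal hu hQ))

theorem TorM.neg (hQ : cl1 (-1 : S) ∈ Q) (t : TorM Q deg d) : TorM Q deg (-d) := by
  obtain ⟨h, c⟩ := t.ctr
  refine (torM_diagonal (u := fun i => if Even (deg i) then 1 else -1) (fun i => ?_) (fun i => ?_)
    fun i j => ?_).2 t
  · split_ifs <;> simp
  · split_ifs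
    exacts [(cl1_one (S := S)).symm ▸ Q.zero_mem, hQ]
  · have := congrFun (congrFun c.pd i) j
    rw [par, ← diagonal_one, diagonal_sub, diagonal_mul, mul_diagonal] at this
    by_cases h1 : Even (deg i) <;> by_cases h2 : Even (deg j) <;>
      simp only [h1, h2, if_true, if_false] at this ⊢
    · simp [show d i j = 0 by simpa using this]
    · simp
    · simp
    · simp [show d i j = 0 by simpa using this.symm]

theorem torM_empty [IsEmpty ι] (deg : ι → ℤ) (d : Matrix ι ι S) : TorM Q deg d := by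
  refine ⟨0, id, ⟨?_, ?_, ?_, ?_, ?_, ?_⟩, ⟨bijective_id, fun i => isEmptyElim i⟩, ?_⟩
  iterate 6 exact Subsingleton.elim _ _
  rw [Subsingleton.elim (_ * _) 1, ecl_one]
  exact Q.zero_mem

omit [Fintype ι] [DecidableEq ι] [Fintype κ] [DecidableEq κ] in
theorem Flip.sum {σ : κ → κ} (f : Flip deg τ) (f' : Flip deg' σ) :
    Flip (Sum.elim deg deg') (Sum.map τ σ) :=
  ⟨f.bij.sumMap f'.bij, by rintro (i | i); exacts [f.odd i, f'.odd i]⟩

omit [Fintype ι] [Fintype κ] in
theorem fm_sum (τ : ι → ι) (σ : κ → κ) :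
    fm S (Sum.map τ σ) = fromBlocks (fm S τ) 0 0 (fm S σ) := by
  ext (i | i) (j | j) <;> simp [fm]

theorem Ctr.of_diag {p : Matrix ι ι S} {q : Matrix κ κ S}
    (c : Ctr (fromBlocks p 0 0 q) (fromBlocks d 0 0 a)) : Ctr p d ∧ Ctr q a := by
  obtain ⟨H, c⟩ := c
  have h1 := c.pp
  have h2 := c.pd
  have h3 := c.dd
  have h4 := c.dh
  rw [← fromBlocks_toBlocks H] at h4
  rw [← fromBlocks_zero] at h3
  rw [← fromBlocks_one] at h4
  simp only [one_sub_diag, fromBlocks_multiply, fromBlocks_add, fromBlocks_inj, Matrix.mul_zero,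
    Matrix.zero_mul, add_zero, zero_add] at h1 h2 h3 h4
  exact ⟨Ctr.of' h1.1 h2.1 h3.1 h4.1, Ctr.of' h1.2.2.2 h2.2.2.2 h3.2.2.2 h4.2.2.2⟩

theorem torM_diag_aux (hQ : cl1 (-1 : S) ∈ Q) (c : Ctr (par S deg) d) (b : Ctr (par S deg') a)
    (h1 : chi deg = 0) (h2 : chi deg' = 0) : ∃ x y : K1 S, (TorM Q deg d ↔ x ∈ Q) ∧
      (TorM Q deg' a ↔ y ∈ Q) ∧ (TorM Q (Sum.elim deg deg') (fromBlocks d 0 0 a) ↔ x + y ∈ Q) := by
  obtain ⟨h, c⟩ := c
  obtain ⟨k, b⟩ := b
  obtain ⟨τ, f⟩ := exists_flip h1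
  obtain ⟨σ, f'⟩ := exists_flip h2
  refine ⟨_, _, torM_iff hQ c f, torM_iff hQ b f', ?_⟩
  rw [torM_iff hQ (par_sum (S := S) (deg := deg) (deg' := deg') ▸ c.diag b) (f.sum f'), par_sum,
    ← ecl_diag c.pp (c.even_ref f.par) (c.isUnit.mul (isUnit_fm f.bij)) b.pp (b.even_ref f'.par)
      (b.isUnit.mul (isUnit_fm f'.bij)), fm_sum, fromBlocks_add, fromBlocks_multiply]
  simp

theorem TorM.diag (hQ : cl1 (-1 : S) ∈ Q) (t : TorM Q deg d) (t' : TorM Q deg' a) :
    TorM Q (Sum.elim deg deg') (fromBlocks d 0 0 a) :=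
  let ⟨_, _, h1, h2, h3⟩ := torM_diag_aux hQ t.ctr t'.ctr t.chi t'.chi
  h3.2 (Q.add_mem (h1.1 t) (h2.1 t'))

theorem TorM.diag_iff (hQ : cl1 (-1 : S) ∈ Q)
    (t : TorM Q (Sum.elim deg deg') (fromBlocks d 0 0 a)) : TorM Q deg d ↔ TorM Q deg' a := by
  have c := (par_sum (S := S) (deg := deg) (deg' := deg') ▸ t.ctr).of_diag
  have e := t.chi
  rw [chi_sum] at e
  constructor <;> intro t'
  · obtain ⟨_, _, h1, h2, h3⟩ := torM_diag_aux hQ c.1 c.2 t'.chi (by have := t'.chi; omega)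
    exact h2.2 ((Q.add_mem_cancel_left (h1.1 t')).1 (h3.1 t))
  · obtain ⟨_, _, h1, h2, h3⟩ := torM_diag_aux hQ c.1 c.2 (by have := t'.chi; omega) t'.chi
    exact h1.2 ((Q.add_mem_cancel_right (h2.1 t')).1 (h3.1 t))

/-- a lower triangular differential splits when one of the diagonal blocks is contractible -/
theorem torM_split {w : Matrix κ ι S} (c : Ctr (par S deg) d ∨ Ctr (par S deg') a)
    (h1 : par S deg' * w = w * (1 - par S deg)) (h2 : w * d + a * w = 0) :
    TorM Q (Sum.elim deg deg') (fromBlocks d 0 w a) ↔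
      TorM Q (Sum.elim deg deg') (fromBlocks d 0 0 a) := by
  obtain ⟨x, x1, x2⟩ : ∃ x : Matrix κ ι S, par S deg' * x = x * par S deg ∧ x * d = w + a * x := by
    rcases c with ⟨h, c⟩ | ⟨k, b⟩
    · refine ⟨w * h, ?_, ?_⟩
      · rw [← Matrix.mul_assoc, h1, Matrix.mul_assoc, c.compl.ph, sub_sub_cancel, Matrix.mul_assoc]
      · rw [← Matrix.mul_assoc a, eq_neg_of_add_eq_zero_right h2, Matrix.mul_assoc,
          eq_sub_of_add_eq' c.dh, Matrix.mul_sub, Matrix.mul_one, Matrix.neg_mul, Matrix.mul_assoc,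
          sub_eq_add_neg]
    · refine ⟨-(k * w), ?_, ?_⟩
      · rw [Matrix.mul_neg, ← Matrix.mul_assoc, b.ph, Matrix.mul_assoc, Matrix.sub_mul, h1,
          Matrix.mul_sub w, Matrix.neg_mul, Matrix.mul_assoc]
        simp
      · rw [Matrix.neg_mul, Matrix.mul_assoc, eq_neg_of_add_eq_zero_left h2, Matrix.mul_neg,
          neg_neg, Matrix.mul_neg, ← Matrix.mul_assoc, ← Matrix.mul_assoc, eq_sub_of_add_eq' b.dh,
          Matrix.sub_mul, Matrix.one_mul, sub_eq_add_neg]
  refine torM_intertwine (isUnit_lower x) ?_ ?_ ?_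
  · simp [fromBlocks_multiply, x2]
  · simp [par_sum, fromBlocks_multiply, x1]
  · rw [par_sum, one_sub_diag, ecl_lower, ecl_lower, sub_zero]
    exact Q.zero_mem

theorem TorM.lower (hQ : cl1 (-1 : S) ∈ Q) {w : Matrix κ ι S} (t : TorM Q deg d)
    (t' : TorM Q deg' a) (h1 : par S deg' * w = w * (1 - par S deg)) (h2 : w * d + a * w = 0) :
    TorM Q (Sum.elim deg deg') (fromBlocks d 0 w a) :=
  (torM_split (Or.inl t.ctr) h1 h2).2 (t.diag hQ t')

theorem TorM.lower_iff (hQ : cl1 (-1 : S) ∈ Q) {w : Matrix κ ι S}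
    (t : TorM Q (Sum.elim deg deg') (fromBlocks d 0 w a)) : TorM Q deg d ↔ TorM Q deg' a := by
  obtain ⟨H, c⟩ := t.ctr
  have h1 := c.pd
  have h2 := c.dd
  rw [← fromBlocks_zero] at h2
  simp only [par_sum, one_sub_diag, fromBlocks_multiply, fromBlocks_inj, Matrix.mul_zero,
    Matrix.zero_mul, add_zero, zero_add] at h1 h2
  exact ⟨fun t' => (((torM_split (Or.inl t'.ctr) h1.2.2.1 h2.2.2.1).1 t).diag_iff hQ).1 t',
    fun t' => (((torM_split (Or.inr t'.ctr) h1.2.2.1 h2.2.2.1).1 t).diag_iff hQ).2 t'⟩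

theorem torM_swap {v : Matrix ι κ S} {w : Matrix κ ι S} :
    TorM Q (Sum.elim deg' deg) (fromBlocks a w v d) ↔
      TorM Q (Sum.elim deg deg') (fromBlocks d v w a) := by
  rw [← torM_reindex (Equiv.sumComm ι κ)]
  have e1 : (fun k => Sum.elim deg' deg (Equiv.sumComm ι κ k)) = Sum.elim deg deg' := by
    ext (i | i) <;> rfl
  have e2 : (fromBlocks a w v d).submatrix (Equiv.sumComm ι κ) (Equiv.sumComm ι κ) =
      fromBlocks d v w a := by
    ext (i | i) (j | j) <;> rfl
  rw [e1, e2]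

theorem TorM.upper (hQ : cl1 (-1 : S) ∈ Q) {v : Matrix ι κ S} (t : TorM Q deg d)
    (t' : TorM Q deg' a) (h1 : par S deg * v = v * (1 - par S deg')) (h2 : d * v + v * a = 0) :
    TorM Q (Sum.elim deg deg') (fromBlocks d v 0 a) :=
  torM_swap.1 (t'.lower hQ t h1 (by rw [add_comm, h2]))

theorem TorM.upper_iff (hQ : cl1 (-1 : S) ∈ Q) {v : Matrix ι κ S}
    (t : TorM Q (Sum.elim deg deg') (fromBlocks d v 0 a)) : TorM Q deg d ↔ TorM Q deg' a :=
  ((torM_swap.2 t).lower_iff hQ).symm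

/-- two out of three, for a basis split in two parts; the first part spans a subcomplex -/
theorem torM_glue (hQ : cl1 (-1 : S) ∈ Q) {f : κ → ι} {g : μ → ι} (hb : Bijective (Sum.elim f g))
    (pd : par S deg * d = d * (1 - par S deg)) (dd : d * d = 0) (h0 : ∀ i j, d (f i) (g j) = 0) :
    (TorM Q (fun k => deg (f k)) (d.submatrix f f) → TorM Q (fun k => deg (g k)) (d.submatrix g g) →
      TorM Q deg d) ∧ (TorM Q deg d → (TorM Q (fun k => deg (f k)) (d.submatrix f f) ↔
        TorM Q (fun k => deg (g k)) (d.submatrix g g))) := by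
  let e := Equiv.ofBijective _ hb
  have e1 : (fun k => deg (e k)) = Sum.elim (fun k => deg (f k)) fun k => deg (g k) := by
    ext (i | i) <;> rfl
  have e2 : d.submatrix e e =
      fromBlocks (d.submatrix f f) 0 (d.submatrix g f) (d.submatrix g g) := by
    ext (i | i) (j | j)
    exacts [rfl, h0 i j, rfl, rfl]
  rw [← torM_reindex e, e1, e2]
  refine ⟨fun t t' => ?_, fun t => t.lower_iff hQ⟩
  have h1 := congrArg (reindexRingEquiv S e.symm) pd
  have h2 := congrArg (reindexRingEquiv S e.symm) dd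
  rw [map_mul, map_zero, ← fromBlocks_zero] at h2
  rw [map_mul, map_mul, map_sub, map_one] at h1
  simp only [coe_reindexRingEquiv, par_reindex] at h1 h2
  simp only [reindex_apply, Equiv.symm_symm, e1, e2, par_sum, one_sub_diag, fromBlocks_multiply,
    fromBlocks_inj, Matrix.mul_zero, Matrix.zero_mul, add_zero, zero_add] at h1 h2
  exact t.lower hQ t' h1.2.2.1 h2.2.2.1

omit [DecidableEq ι] [DecidableEq κ] in
theorem submatrix_mul_closed {α β : Type*} {f : κ → ι} (hf : Injective f) (A : Matrix α ι S)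
    (B : Matrix ι β S) (i : α) (j : β) (h : ∀ k, A i k * B k j ≠ 0 → ∃ l, f l = k) :
    (A * B) i j = ∑ l, A i (f l) * B (f l) j :=
  (Fintype.sum_of_injective f hf _ _ (fun k hk => by
    by_contra h0
    exact hk (h k h0)) fun _ => rfl).symm

/-- filtered complexes: the blocks are the fibres of `lab`, and the differential lowers `ρ`
between different blocks -/
theorem torM_filt (hQ : cl1 (-1 : S) ∈ Q) {Λ : Type*} [DecidableEq Λ] (ρ : Λ → ℕ) (s : Finset Λ) :
    ∀ {ι : Type w} [Fintype ι] [DecidableEq ι] (lab : ι → Λ) {deg : ι → ℤ} {d : Matrix ι ι S},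
      (∀ i, lab i ∈ s) → (∀ i j, d i j ≠ 0 → Odd (deg i - deg j)) → d * d = 0 →
      (∀ i j, d i j ≠ 0 → lab i = lab j ∨ ρ (lab j) < ρ (lab i)) →
      (∀ l ∈ s, TorM Q (fun k : {i // lab i = l} => deg k) (d.submatrix (↑) (↑))) →
      TorM Q deg d := by
  induction s using Finset.induction_on_max_value ρ with
  | empty =>
    intro ι _ _ lab deg d hs _ _ _ _
    have : IsEmpty ι := ⟨fun i => absurd (hs i) (Finset.notMem_empty _)⟩
    exact torM_empty _ _
  | insert a s ha hm ih =>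
    intro ι _ _ lab deg d hs ho dd ht hb
    have h0 : ∀ i j, lab i ≠ a → lab j = a → d i j = 0 := fun i j hi hj => by
      by_contra h
      have := hm _ ((Finset.mem_insert.1 (hs i)).resolve_left hi)
      rcases ht i j h with h | h
      · exact hi (h.trans hj)
      · rw [hj] at h
        omega
    refine (torM_glue hQ (f := ((↑) : {i // ¬ lab i = a} → ι)) (g := ((↑) : {i // lab i = a} → ι))
      ?_ (par_odd ho) dd fun i j => h0 _ _ i.2 j.2).1 ?_ (hb a (Finset.mem_insert_self _ _))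
    · refine ⟨Subtype.val_injective.sumElim Subtype.val_injective
        fun i j h => i.2 (h ▸ j.2), fun i => ?_⟩
      by_cases h : lab i = a
      exacts [⟨.inr ⟨i, h⟩, rfl⟩, ⟨.inl ⟨i, h⟩, rfl⟩]
    refine ih (ι := {i // ¬ lab i = a}) (fun i => lab i) (fun i => (Finset.mem_insert.1 (hs i)).resolve_left i.2)
      (fun i j => ho i j) ?_ (fun i j => ht i j) fun l hl => ?_
    · ext i j
      exact (submatrix_mul_closed (κ := {i // ¬ lab i = a}) Subtype.val_injective d d i.1 j.1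
        fun k hk =>
        ⟨⟨k, fun h => left_ne_zero_of_mul hk (h0 _ _ i.2 h)⟩, rfl⟩).symm.trans
        (congrFun (congrFun dd i.1) j.1)
    · exact (hb l (Finset.mem_insert_of_mem hl)).reindex (Equiv.subtypeSubtypeEquivSubtype
        (p := fun i => ¬ lab i = a) (q := fun i => lab i = l) fun h h' => ha (h' ▸ h.symm ▸ hl))

/-- complexes with two terms -/
theorem torM_cone (hQ : cl1 (-1 : S) ∈ Q) {m n : ℤ} (h : Odd (m - n)) {M : Matrix ι ι S} :
    TorM Q (Sum.elim (fun _ => m) fun _ => n) (fromBlocks 0 M 0 0) ↔ IsUnit M ∧ cl M ∈ Q := by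
  wlog hm : Even m generalizing m n
  · rw [← this (m := n) (n := m) (neg_sub m n ▸ h.neg)
      ((Int.odd_sub.1 h).1 (Int.not_even_iff_odd.1 hm))]
    constructor <;> refine fun t => t.congr_odd hQ ?_ <;> rintro (i | i)
    exacts [h, neg_sub m n ▸ h.neg, neg_sub m n ▸ h.neg, h]
  have hn : ¬ Even n := Int.not_even_iff_odd.2 ((Int.odd_sub.1 (neg_sub m n ▸ h.neg)).2 hm)
  have hp : par S (Sum.elim (fun _ : ι => m) fun _ : ι => n) = fromBlocks 1 0 0 0 := by
    rw [par_sum]
    simp [par, hm, hn]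
  have key : IsUnit M → (TorM Q (Sum.elim (fun _ => m) fun _ => n) (fromBlocks 0 M 0 0) ↔
      cl M ∈ Q) := by
    rintro ⟨u, rfl⟩
    have c : Con (par S (Sum.elim (fun _ : ι => m) fun _ : ι => n)) (fromBlocks 0 u.val 0 0)
        (fromBlocks 0 0 u⁻¹.val 0) := by
      refine ⟨?_, ?_, ?_, ?_, ?_, ?_⟩ <;>
        simp [hp, one_sub_diag, fromBlocks_multiply, fromBlocks_add]
    have e : fm S (Sum.swap : ι ⊕ ι → ι ⊕ ι) = fromBlocks 0 1 1 0 := by
      ext (i | i) (j | j) <;> simp [fm, one_apply]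
    rw [torM_iff hQ c (τ := Sum.swap) ⟨(Equiv.sumComm ι ι).bijective, by
      rintro (i | i); exacts [h, neg_sub m n ▸ h.neg]⟩, hp, e, ecl, ← cl_stab (κ := ι) u.val]
    simp [one_sub_diag, fromBlocks_multiply, fromBlocks_add]
  refine ⟨fun t => ?_, fun t => (key t.1).2 t.2⟩
  obtain ⟨H, c⟩ := t.ctr
  have h4 := c.dh
  rw [← fromBlocks_toBlocks H, ← fromBlocks_one] at h4
  simp only [fromBlocks_multiply, fromBlocks_add, fromBlocks_inj, Matrix.mul_zero,
    Matrix.zero_mul, add_zero, zero_add] at h4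
  have u : IsUnit M := ⟨⟨_, _, h4.1, h4.2.2.2⟩, rfl⟩
  exact ⟨u, (key u).1 t⟩

end Pool.Agent.Lib.NIL
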