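import Pool.Agent.Lib.NIL.Defs
import Pool.Agent.Lib.NIL.TorsA

/-! Torsion of finite complexes: from `Raw` objects to matrices. -/

noncomputable section

namespace Pool.Agent.Lib.NIL

open Finsupp Pool.Agent.WhDet Function

variable {E E' L L' : Type} [Ring E] [Ring E'] {ι κ μ : Type} {Q : AddSubgroup (K1 E)}
  {V W : Raw E L}

/-- the matrix of a linear map: the rows are the images of the generators -/
def mtx (f : (ι →₀ E) →ₗ[E] (κ →₀ E)) : Matrix ι κ E := Matrix.of fun i j => f (single i 1) j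

theorem mtx_apply (f : (ι →₀ E) →ₗ[E] (κ →₀ E)) (i : ι) (j : κ) : mtx f i j = f (single i 1) j :=
  rfl

theorem mtx_inj {f g : (ι →₀ E) →ₗ[E] (κ →₀ E)} (h : mtx f = mtx g) : f = g :=
  Finsupp.lhom_ext' fun i => LinearMap.ext_ring (Finsupp.ext fun j => congrFun (congrFun h i) j)

theorem mtx_comp [Fintype κ] (f : (ι →₀ E) →ₗ[E] (κ →₀ E)) (g : (κ →₀ E) →ₗ[E] (μ →₀ E)) :
    mtx (g ∘ₗ f) = mtx f * mtx g := by
  ext i j
  rw [Matrix.mul_apply, mtx_apply, LinearMap.comp_apply, ← univ_sum_single (f _), map_sum,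
    finsetSum_apply]
  refine Finset.sum_congr rfl fun k _ => ?_
  rw [← smul_single_one, map_smul]
  rfl

theorem mtx_add (f g : (ι →₀ E) →ₗ[E] (κ →₀ E)) : mtx (f + g) = mtx f + mtx g := rfl

theorem mtx_sub (f g : (ι →₀ E) →ₗ[E] (κ →₀ E)) : mtx (f - g) = mtx f - mtx g := rfl

theorem mtx_neg (f : (ι →₀ E) →ₗ[E] (κ →₀ E)) : mtx (-f) = -mtx f := rfl

theorem mtx_zero : mtx (0 : (ι →₀ E) →ₗ[E] (κ →₀ E)) = 0 := rfl

theorem mtx_id [DecidableEq ι] : mtx (LinearMap.id : (ι →₀ E) →ₗ[E] (ι →₀ E)) = 1 := by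
  ext i j
  exact single_apply

/-- the linear map with a given matrix -/
def unmat [Finite κ] (A : Matrix ι κ E) : (ι →₀ E) →ₗ[E] (κ →₀ E) :=
  lc fun i => equivFunOnFinite.symm (A i)

theorem mtx_unmat [Finite κ] (A : Matrix ι κ E) : mtx (unmat A) = A := by
  ext i j
  simp [mtx_apply, unmat]

theorem mtx_mapL (φ : E →+ E') (f : (ι →₀ E) →ₗ[E] (κ →₀ E)) : mtx (mapL φ f) = (mtx f).map φ := by
  ext i j
  simp [mtx_apply, mapL]

theorem mtx_ext (A B : Raw E L) (θ : Lin B A) :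
    mtx (A.ext B θ).δ = Matrix.fromBlocks (mtx A.δ) 0 (mtx θ) (mtx B.δ) := by
  ext (i | i) (j | j) <;>
    simp [mtx_apply, comapDomain_single, mapDomain_apply Sum.inl_injective,
      mapDomain_apply Sum.inr_injective, mapDomain_of_notMem_range, comapDomain_single_of_not_mem_range]

theorem mtx_res (V : Raw E L) (p : V.ι → Prop) :
    mtx (V.res p).δ = (mtx V.δ).submatrix Subtype.val Subtype.val := by
  ext i j
  simp [mtx_apply]

theorem tcat_hom {k : ℤ} {f : Lin V W} :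
    (tcat E L).Hom k V W f ↔ ∀ i j, mtx f i j ≠ 0 → W.deg j = V.deg i + k := by
  refine forall₂_congr fun i j => ?_
  change f _ j ∈ (if V.deg i + k - W.deg j = 0 then ⊤ else ⊥ : AddSubgroup E) ↔ _
  split_ifs with h
  · exact iff_of_true trivial fun _ => by omega
  · exact ⟨fun h1 h2 => absurd h1 h2, fun h1 => by_contra fun h2 => h (by have := h1 h2; omega)⟩

theorem tcat_D (v : V.ι →₀ E) : (tcat E L).D V v = V.δ v := by
  have h : V.tw (0 : E →+ E) = 0 := by
    refine addHom_ext' fun i => AddMonoidHom.ext fun e => ?_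
    simp [Raw.tw]
  change V.δ v + V.tw (0 : E →+ E) v = _
  rw [h, AddMonoidHom.zero_apply, add_zero]

theorem tcat_obj : (tcat E L).Obj V ↔
    (∀ i j, mtx V.δ i j ≠ 0 → V.deg j = V.deg i + 1) ∧ V.δ ∘ₗ V.δ = 0 := by
  simp only [Cat.Obj, tcat_hom, tcat_D]
  exact and_congr_right fun _ => ⟨fun h => LinearMap.ext h, fun h => LinearMap.congr_fun h⟩

theorem tcat_ch {f : Lin V W} : (tcat E L).Ch V W f ↔
    (∀ i j, mtx f i j ≠ 0 → W.deg j = V.deg i) ∧ W.δ ∘ₗ f = f ∘ₗ V.δ := by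
  simp only [Cat.Ch, tcat_hom, tcat_D, add_zero]
  exact and_congr_right fun _ => ⟨fun h => LinearMap.ext h, fun h => LinearMap.congr_fun h⟩

theorem tcat_ctr : (tcat E L).Ctr V ↔
    ∃ h : Lin V V, (tcat E L).Hom (-1) V V h ∧ V.δ ∘ₗ h + h ∘ₗ V.δ = LinearMap.id := by
  simp only [Cat.Ctr, Cat.Ht, tcat_D, LinearMap.zero_apply, sub_zero]
  exact exists_congr fun h => and_congr_right fun _ =>
    ⟨fun h => (LinearMap.ext h).symm, fun h => LinearMap.congr_fun h.symm⟩

theorem negCl_eq : negCl E = cl1 (-1 : E) := by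
  rw [negCl, cl1, ← cl_reindex finOneEquiv]
  congr 1

theorem Tors.finite (t : Tors Q V) : Finite V.ι := by
  obtain ⟨_, n, e₀, e₁, _⟩ := t
  have h0 := Finite.of_equiv _ e₀
  have h1 := Finite.of_equiv _ e₁
  refine Finite.of_surjective (Sum.elim (Subtype.val : {i // Even (V.deg i)} → _)
    (Subtype.val : {i // Odd (V.deg i)} → _)) fun i => ?_
  rcases Int.even_or_odd (V.deg i) with h | h
  exacts [⟨.inl ⟨i, h⟩, rfl⟩, ⟨.inr ⟨i, h⟩, rfl⟩]

theorem Tors.ctr (t : Tors Q V) : (tcat E L).Ctr V :=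
  let ⟨h, _, _, _, h1, h2, _⟩ := t; tcat_ctr.2 ⟨h, h1, h2⟩

theorem Tors.mono {Q' : AddSubgroup (K1 E)} (t : Tors Q V) (hQ : Q ≤ Q') : Tors Q' V :=
  let ⟨h, n, e₀, e₁, h1, h2, m⟩ := t; ⟨h, n, e₀, e₁, h1, h2, hQ m⟩

theorem tors_relab (l : L → L') : Tors Q (V.relab l) ↔ Tors Q V := Iff.rfl

section

variable [Fintype ι] [DecidableEq ι] {deg : ι → ℤ} {d h : Matrix ι ι E}

omit [DecidableEq ι] in
theorem deg_mul {k l : ℤ} (hd : ∀ i j, d i j ≠ 0 → deg j = deg i + k)
    (hh : ∀ i j, h i j ≠ 0 → deg j = deg i + l) (i j : ι) (h0 : (d * h) i j ≠ 0) :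
    deg j = deg i + (k + l) := by
  obtain ⟨m, -, hm⟩ := Finset.exists_ne_zero_of_sum_ne_zero h0
  have h1 := hd i m (left_ne_zero_of_mul hm)
  have h2 := hh m j (right_ne_zero_of_mul hm)
  omega

/-- a contraction of degree `-1` -/
theorem Ctr.graded (hd : ∀ i j, d i j ≠ 0 → deg j = deg i + 1) (c : Ctr (par E deg) d) :
    ∃ h : Matrix ι ι E, (∀ i j, h i j ≠ 0 → deg j = deg i + -1) ∧ d * h + h * d = 1 := by
  obtain ⟨h, c⟩ := c
  refine ⟨Matrix.of fun i j => if deg j = deg i + -1 then h i j else 0, fun i j h0 => ?_, ?_⟩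
  · by_contra h1
    exact h0 (if_neg h1)
  ext i j
  have e : (d * Matrix.of (fun i j => if deg j = deg i + -1 then h i j else 0) +
      Matrix.of (fun i j => if deg j = deg i + -1 then h i j else 0) * d) i j =
      ∑ k, if deg j = deg i then d i k * h k j + h i k * d k j else 0 := by
    simp only [Matrix.add_apply, Matrix.mul_apply, Matrix.of_apply, ← Finset.sum_add_distrib]
    refine Finset.sum_congr rfl fun k _ => ?_
    rw [ite_add_zero]
    congr 1
    · by_cases h0 : d i k = 0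
      · simp [h0]
      · have := hd i k h0
        split_ifs <;> first | omega | simp
    · by_cases h0 : d k j = 0
      · simp [h0]
      · have := hd k j h0
        split_ifs <;> first | omega | simp
  rw [e, Finset.sum_ite_irrel, Finset.sum_add_distrib, ← Matrix.mul_apply, ← Matrix.mul_apply,
    ← Matrix.add_apply, c.dh]
  by_cases h0 : i = j <;> simp [h0]

theorem mul_fm_apply {τ : ι → ι} (hτ : Injective τ) (A : Matrix ι ι E) (i j : ι) :
    (A * fm E τ) i (τ j) = A i j := by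
  simp [Matrix.mul_apply, fm, hτ.eq_iff]

theorem torM_iff_block (hQ : cl1 (-1 : E) ∈ Q) (hd : ∀ i j, d i j ≠ 0 → deg j = deg i + 1)
    (dd : d * d = 0) (hh : ∀ i j, h i j ≠ 0 → deg j = deg i + -1) (dh : d * h + h * d = 1) {n : ℕ}
    (e₀ : Fin n ≃ {i // Even (deg i)}) (e₁ : Fin n ≃ {i // Odd (deg i)}) :
    TorM Q deg d ↔ cl (Matrix.of fun a b => (d + h) (e₁ a).1 (e₀ b).1) ∈ Q := by
  have o0 : ∀ i, ¬ Even (deg (e₀ i) + 1) := fun i => fun h => Int.even_add_one.1 h (e₀ i).2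
  have o1 : ∀ i, Even (deg (e₁ i) + 1) := fun i => (e₁ i).2.add_one
  have c : Con (par E fun i => deg i + 1) d (h * d * h) := Con.norm par_mul_par
    (par_odd fun i j h0 => by rw [hd i j h0]; simp) (par_odd fun i j h0 => by rw [hh i j h0]; simp)
    dd dh
  let e : Fin n ⊕ Fin n ≃ ι := Equiv.ofBijective (Sum.elim (fun a => e₁ a) fun a => e₀ a)
    ⟨(Subtype.val_injective.comp e₁.injective).sumElim (Subtype.val_injective.comp e₀.injective)
      fun a b h => o0 b (h ▸ o1 a), fun i => by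
      rcases Int.even_or_odd (deg i) with h | h
      exacts [⟨.inr (e₀.symm ⟨i, h⟩), by simp⟩, ⟨.inl (e₁.symm ⟨i, h⟩), by simp⟩]⟩
  have t0 : ∀ a, (e ∘ Sum.swap ∘ e.symm) (e₀ a) = e₁ a := fun a =>
    congrArg (e ∘ Sum.swap) (e.symm_apply_apply (.inr a))
  have t1 : ∀ a, (e ∘ Sum.swap ∘ e.symm) (e₁ a) = e₀ a := fun a =>
    congrArg (e ∘ Sum.swap) (e.symm_apply_apply (.inl a))
  have f : Flip (fun i => deg i + 1) (e ∘ Sum.swap ∘ e.symm) :=
    ⟨e.bijective.comp ((Equiv.sumComm _ _).bijective.comp e.symm.bijective), fun i => by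
      obtain ⟨a | a, rfl⟩ := e.surjective i
      · exact (t1 a).symm ▸ (o1 a).sub_odd (Int.not_even_iff_odd.1 (o0 a))
      · exact (t0 a).symm ▸ (Int.not_even_iff_odd.1 (o0 a)).sub_even (o1 a)⟩
  generalize e ∘ Sum.swap ∘ e.symm = τ at t0 t1 f
  obtain ⟨m, hm⟩ := (Set.finite_range deg).bddBelow
  have h2 := deg_mul hh (deg_mul (deg_mul hh hd) hh)
  have h3 : ∀ i j, (h * (h * d * h)) i j ≠ 0 → (deg j - m).toNat < (deg i - m).toNat :=
    fun i j h0 => by
      have := h2 i j h0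
      have := hm ⟨j, rfl⟩
      omega
  have e3 : d + h = (1 + h * (h * d * h)) * (d + h * d * h) := by
    have : (d + h) * (d + h * d * h) = 1 + h * (h * d * h) := by
      calc _ = d * d + d * (d * h + h * d) * h - d * d * (h * h) + h * d + h * (h * d * h) := by
            noncomm_ring
        _ = _ := by rw [dh, dd, mul_one, zero_mul, sub_zero, zero_add, dh]
    rw [← this, mul_assoc, c.sq, mul_one]
  have e4 : ecl (par E fun i => deg i + 1) ((d + h) * fm E τ) =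
      ecl (par E fun i => deg i + 1) ((d + h * d * h) * fm E τ) := by
    rw [e3, mul_assoc, ecl_mul c.pp _ (c.even_ref f.par) (cl_tri _ h3).1
      (c.isUnit.mul (isUnit_fm f.bij)), ecl_tri _ h3, zero_add]
    rw [mul_add, add_mul, mul_one, one_mul, par_even (deg' := fun i => deg i + 1) fun i j h0 => ?_]
    rw [h2 i j h0]
    exact ⟨1, by ring⟩
  have e5 : TorM Q deg d ↔ TorM Q (fun i => deg i + 1) d :=
    ⟨fun t => t.shift hQ, fun t => t.congr_odd hQ fun i => by simp⟩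
  rw [e5, torM_iff hQ c f, ← e4, ecl, ← cl_reindex e.symm, ← cl_stab (κ := Fin n) (Matrix.of _)]
  have e6 : ∀ a b, (d + h) (e₁ a) (e₁ b) = 0 := fun a b => by
    obtain ⟨x, hx⟩ := o1 a
    obtain ⟨y, hy⟩ := o1 b
    have h4 : d (e₁ a) (e₁ b) = 0 := by_contra fun h0 => by have := hd _ _ h0; omega
    have h5 : h (e₁ a) (e₁ b) = 0 := by_contra fun h0 => by have := hh _ _ h0; omega
    rw [Matrix.add_apply, h4, h5, add_zero]
  have e7 : ∀ x y, Matrix.reindex e.symm e.symm (par E (fun i => deg i + 1) * ((d + h) * fm E τ) +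
      (1 - par E fun i => deg i + 1)) x y = if Even (deg (e x) + 1) then
        ((d + h) * fm E τ) (e x) (e y) else if x = y then 1 else 0 := fun x y => by
    rw [Matrix.reindex_apply, Matrix.submatrix_apply, Equiv.symm_symm, par, ← Matrix.diagonal_one,
      Matrix.diagonal_sub, Matrix.add_apply, Matrix.diagonal_mul, Matrix.diagonal_apply]
    split_ifs <;> simp_all
  refine iff_of_eq (congrArg (fun x => cl x ∈ Q) ?_)
  ext (a | a) (b | b) <;> rw [e7]
  · exact (if_pos (o1 a)).trans ((congrArg _ (t0 b).symm).trans (mul_fm_apply f.bij.1 _ _ _))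
  · exact (if_pos (o1 a)).trans (((congrArg _ (t1 b).symm).trans
      (mul_fm_apply f.bij.1 _ _ _)).trans (e6 a b))
  · exact (if_neg (o0 a)).trans (if_neg nofun)
  · exact (if_neg (o0 a)).trans (by simp [Matrix.one_apply])

end

/-- the bridge to matrices -/
theorem tors_iff_torM [Fintype V.ι] [DecidableEq V.ι] (hQ : negCl E ∈ Q) (hV : (tcat E L).Obj V) :
    Tors Q V ↔ TorM Q V.deg (mtx V.δ) := by
  rw [negCl_eq] at hQ
  obtain ⟨hd, dd⟩ := tcat_obj.1 hV
  replace dd : mtx V.δ * mtx V.δ = 0 := by rw [← mtx_comp, dd, mtx_zero]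
  constructor
  · rintro ⟨h, n, e₀, e₁, h1, h2, m⟩
    exact (torM_iff_block hQ hd dd (tcat_hom.1 h1) (by
      rw [← mtx_comp, ← mtx_comp, ← mtx_add, add_comm, h2, mtx_id]) e₀ e₁).2 m
  · intro t
    obtain ⟨h, h1, h2⟩ := t.ctr.graded hd
    have e := t.chi
    rw [chi_eq, sub_eq_zero, Nat.cast_inj] at e
    let e₁ := (Fintype.equivFinOfCardEq e.symm).symm.trans
      (Equiv.subtypeEquivRight fun i => Int.not_even_iff_odd (n := V.deg i))
    refine ⟨unmat h, _, (Fintype.equivFin _).symm, e₁, tcat_hom.2 (by rwa [mtx_unmat]),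
      mtx_inj (by rw [mtx_add, mtx_comp, mtx_comp, mtx_unmat, add_comm, h2, mtx_id]), ?_⟩
    have m := (torM_iff_block hQ hd dd h1 h2 (Fintype.equivFin _).symm e₁).1 t
    rw [← mtx_unmat h] at m
    exact m

theorem tcat_obj' [Fintype V.ι] : (tcat E L).Obj V ↔
    (∀ i j, mtx V.δ i j ≠ 0 → V.deg j = V.deg i + 1) ∧ mtx V.δ * mtx V.δ = 0 := by
  rw [tcat_obj, ← mtx_comp]
  exact and_congr_right fun _ => ⟨fun h => by rw [h, mtx_zero], fun h => mtx_inj h⟩

theorem tcat_ctr' [Fintype V.ι] [DecidableEq V.ι] (hV : (tcat E L).Obj V) :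
    (tcat E L).Ctr V ↔ Ctr (par E V.deg) (mtx V.δ) := by
  obtain ⟨hd, dd⟩ := tcat_obj'.1 hV
  rw [tcat_ctr]
  refine ⟨fun ⟨h, _, h2⟩ => Ctr.of' (h := mtx h) par_mul_par
    (par_odd fun i j h0 => by rw [hd i j h0]; simp) dd (by
      rw [← mtx_comp, ← mtx_comp, ← mtx_add, add_comm, h2, mtx_id]), fun c => ?_⟩
  obtain ⟨h, h1, h2⟩ := c.graded hd
  exact ⟨unmat h, tcat_hom.2 (by rwa [mtx_unmat]),
    mtx_inj (by rw [mtx_add, mtx_comp, mtx_comp, mtx_unmat, add_comm, h2, mtx_id])⟩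

theorem negCl_top : negCl E ∈ (⊤ : AddSubgroup (K1 E)) := trivial

theorem tors_top {A : Type*} [Ring A] [InvariantBasisNumber A] (φ : E →+* A) [Finite V.ι]
    (hV : (tcat E L).Obj V) (c : (tcat E L).Ctr V) : Tors ⊤ V := by
  classical
  have := Fintype.ofFinite V.ι
  exact (tors_iff_torM negCl_top hV).2 (torM_top' φ ((tcat_ctr' hV).1 c))

theorem tors_empty [IsEmpty V.ι] : Tors Q V := by
  have e : ∀ f g : Lin V V, f = g := fun f g => mtx_inj (Subsingleton.elim _ _)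
  refine ⟨0, 0, Equiv.equivOfIsEmpty _ _, Equiv.equivOfIsEmpty _ _, fun i => isEmptyElim i,
    e _ _, ?_⟩
  rw [Subsingleton.elim (Matrix.of _) 1, cl_one]
  exact Q.zero_mem

theorem tcat_obj_mapA (φ : E →+* E') (l : L → L') [Finite V.ι] (hV : (tcat E L).Obj V) :
    (tcat E' L').Obj (V.mapA φ.toAddMonoidHom l) := by
  have := Fintype.ofFinite V.ι
  obtain ⟨hd, dd⟩ := tcat_obj'.1 hV
  refine tcat_obj'.2 ⟨fun i j h => hd i j fun h0 => h ?_, ?_⟩
  · rw [mtx_mapL, Matrix.map_apply, h0, map_zero]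
  · rw [mtx_mapL]
    exact (Matrix.map_mul (f := φ)).symm.trans (by rw [dd]; exact Matrix.map_zero _ (map_zero φ))

theorem map_negCl (φ : E →+* E') : K1.map φ (negCl E) = negCl E' := by
  rw [negCl_eq, negCl_eq, cl1_map φ isUnit_one.neg, map_neg, map_one]

/-- ring homomorphisms -/
theorem Tors.mapA (φ : E →+* E') (l : L → L') {Q' : AddSubgroup (K1 E')} (hQ : negCl E ∈ Q)
    (hφ : ∀ x ∈ Q, K1.map φ x ∈ Q') (hV : (tcat E L).Obj V) (t : Tors Q V) :
    Tors Q' (V.mapA φ.toAddMonoidHom l) := by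
  classical
  have := t.finite
  have := Fintype.ofFinite V.ι
  refine (tors_iff_torM (map_negCl φ ▸ hφ _ hQ) (tcat_obj_mapA φ l hV)).2 ?_
  rw [mtx_mapL]
  exact ((tors_iff_torM hQ hV).1 t).map φ hφ

/-- a bijection of the generators; labels play no role -/
theorem Tors.equiv {W : Raw E L'} (hQ : negCl E ∈ Q) (hV : (tcat E L).Obj V) (e : V.ι ≃ W.ι)
    (h1 : ∀ i, W.deg (e i) = V.deg i) (h2 : ∀ i j, mtx W.δ (e i) (e j) = mtx V.δ i j)
    (t : Tors Q V) : (tcat E L').Obj W ∧ Tors Q W := by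
  classical
  have := t.finite
  have := Fintype.ofFinite V.ι
  have := Fintype.ofEquiv _ e
  have e1 : W.deg = fun k => V.deg (e.symm k) := funext fun k => by rw [← h1, e.apply_symm_apply]
  have e2 : mtx W.δ = (mtx V.δ).submatrix e.symm e.symm := by
    ext i j
    simp [← h2]
  obtain ⟨hd, dd⟩ := tcat_obj'.1 hV
  have hW : (tcat E L').Obj W := tcat_obj'.2 (by
    rw [e1, e2, Matrix.submatrix_mul_equiv, dd]
    exact ⟨fun i j => hd _ _, rfl⟩)
  refine ⟨hW, (tors_iff_torM hQ hW).2 ?_⟩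
  rw [e1, e2]
  exact ((tors_iff_torM hQ hV).1 t).reindex e.symm

theorem Tors.rx (hQ : negCl E ∈ Q) (hV : (tcat E L).Obj V) (h : V.Rx W) (t : Tors Q V) :
    Tors Q W :=
  let ⟨e, h1, _, h2⟩ := h; (t.equiv hQ hV e h1 h2).2

theorem tcat_obj_sh (hV : (tcat E L).Obj V) : (tcat E L).Obj V.sh := by
  obtain ⟨hd, dd⟩ := tcat_obj.1 hV
  refine tcat_obj.2 ⟨fun i j h => ?_, LinearMap.ext fun v => by
    simpa using LinearMap.congr_fun dd v⟩
  have := hd i j (neg_ne_zero.1 h)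
  change V.deg j - 1 = V.deg i - 1 + 1
  omega

theorem tors_sh (hQ : negCl E ∈ Q) (hV : (tcat E L).Obj V) : Tors Q V.sh ↔ Tors Q V := by
  classical
  suffices H : Finite V.ι → (Tors Q V.sh ↔ Tors Q V) from
    ⟨fun t => (H t.finite).1 t, fun t => (H t.finite).2 t⟩
  intro _
  have := Fintype.ofFinite V.ι
  rw [tors_iff_torM hQ hV, tors_iff_torM hQ (tcat_obj_sh hV), mtx_neg]
  rw [negCl_eq] at hQ
  exact ⟨fun t => (neg_neg (mtx V.δ) ▸ t.neg hQ).congr_odd hQ fun i => by simp,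
    fun t => (t.neg hQ).congr_odd hQ fun i => by simp⟩

theorem tcat_obj_res {p : V.ι → Prop} [Finite V.ι] (hV : (tcat E L).Obj V)
    (hp : ∀ i j k, p i → p k → mtx V.δ i j ≠ 0 → mtx V.δ j k ≠ 0 → p j) :
    (tcat E L).Obj (V.res p) := by
  classical
  have := Fintype.ofFinite V.ι
  obtain ⟨hd, dd⟩ := tcat_obj'.1 hV
  refine tcat_obj'.2 ?_
  rw [mtx_res]
  refine ⟨fun i j => hd _ _, ?_⟩
  ext i k
  exact (submatrix_mul_closed (κ := {i // p i}) Subtype.val_injective _ _ i.1 k.1 fun j hj =>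
    ⟨⟨j, hp _ _ _ i.2 k.2 (left_ne_zero_of_mul hj) (right_ne_zero_of_mul hj)⟩, rfl⟩).symm.trans
    (congrFun (congrFun dd i.1) k.1)

/-- two out of three for a closed set of generators -/
theorem tors_res {p : V.ι → Prop} [Finite V.ι] (hQ : negCl E ∈ Q) (hV : (tcat E L).Obj V)
    (hp : V.Closed p) : (Tors Q (V.res p) → Tors Q (V.res fun i => ¬ p i) → Tors Q V) ∧
      (Tors Q V → (Tors Q (V.res p) ↔ Tors Q (V.res fun i => ¬ p i))) := by
  classical
  have := Fintype.ofFinite V.ι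
  obtain ⟨hd, dd⟩ := tcat_obj'.1 hV
  rw [tors_iff_torM hQ hV, tors_iff_torM hQ (tcat_obj_res hV fun i j k hi _ h _ => hp i j hi h),
    tors_iff_torM hQ (tcat_obj_res hV fun i j k _ hk _ h hj => hk (hp j k hj h)), mtx_res, mtx_res]
  refine torM_glue (deg := V.deg) (f := (Subtype.val : {i // p i} → _))
    (g := (Subtype.val : {i // ¬ p i} → _)) (negCl_eq (E := E) ▸ hQ)
    ⟨Subtype.val_injective.sumElim Subtype.val_injective
    fun i j h => j.2 (h ▸ i.2), fun i => ?_⟩ (par_odd fun i j h0 => by rw [hd i j h0]; simp) dd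
    fun i j => by_contra fun h => j.2 (hp _ _ i.2 h)
  by_cases h : p i
  exacts [⟨.inl ⟨i, h⟩, rfl⟩, ⟨.inr ⟨i, h⟩, rfl⟩]

theorem tcat_obj_of_ext {A B : Raw E L} {θ : Lin B A} [Finite A.ι] [Finite B.ι]
    (h : (tcat E L).Obj (A.ext B θ)) : (tcat E L).Obj A ∧ (tcat E L).Obj B := by
  have := Fintype.ofFinite A.ι
  have := Fintype.ofFinite B.ι
  obtain ⟨hd, dd⟩ := tcat_obj'.1 h
  rw [mtx_ext] at hd dd
  rw [Matrix.fromBlocks_multiply, ← Matrix.fromBlocks_zero, Matrix.fromBlocks_inj] at dd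
  exact ⟨tcat_obj'.2 ⟨fun i j => hd (.inl i) (.inl j), by simpa using dd.1⟩,
    tcat_obj'.2 ⟨fun i j => hd (.inr i) (.inr j), by simpa using dd.2.2.2⟩⟩

/-- two out of three for extensions -/
theorem tors_ext {A B : Raw E L} {θ : Lin B A} (hQ : negCl E ∈ Q)
    (h : (tcat E L).Obj (A.ext B θ)) : (Tors Q A → Tors Q B → Tors Q (A.ext B θ)) ∧
      (Tors Q (A.ext B θ) → (Tors Q A ↔ Tors Q B)) := by
  classical
  suffices H : Finite A.ι → Finite B.ι → (Tors Q A → Tors Q B → Tors Q (A.ext B θ)) ∧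
      (Tors Q (A.ext B θ) → (Tors Q A ↔ Tors Q B)) from
    ⟨fun t t' => (H t.finite t'.finite).1 t t', fun t =>
      have := t.finite
      (H (Finite.sum_left B.ι) (Finite.sum_right A.ι)).2 t⟩
  intro _ _
  have := Fintype.ofFinite A.ι
  have := Fintype.ofFinite B.ι
  obtain ⟨hd, dd⟩ := tcat_obj'.1 h
  rw [tors_iff_torM hQ h, tors_iff_torM hQ (tcat_obj_of_ext h).1,
    tors_iff_torM hQ (tcat_obj_of_ext h).2]
  rw [mtx_ext] at hd dd ⊢
  rw [negCl_eq] at hQ
  rw [Matrix.fromBlocks_multiply, ← Matrix.fromBlocks_zero, Matrix.fromBlocks_inj] at dd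
  refine ⟨fun t t' => t.lower hQ t' (par_odd fun i j h0 => ?_) dd.2.2.1, fun t => t.lower_iff hQ⟩
  rw [show A.deg j = B.deg i + 1 from hd (.inr i) (.inl j) h0]
  simp

/-- filtered complexes -/
theorem tors_filt {Λ : Type*} [Finite V.ι] (hQ : negCl E ∈ Q) (hV : (tcat E L).Obj V)
    (b : V.ι → Λ) (ρ : Λ → ℕ) (ht : ∀ i j, mtx V.δ i j ≠ 0 → b i = b j ∨ ρ (b j) < ρ (b i))
    (h : ∀ i, Tors Q (V.res fun j => b j = b i)) : Tors Q V := by
  classical
  have := Fintype.ofFinite V.ι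
  obtain ⟨hd, dd⟩ := tcat_obj'.1 hV
  refine (tors_iff_torM hQ hV).2 (torM_filt (negCl_eq (E := E) ▸ hQ) ρ (Finset.univ.image b) b
    (fun i => Finset.mem_image_of_mem _ (Finset.mem_univ i))
    (fun i j h0 => by rw [hd i j h0]; simp) dd ht fun l hl => ?_)
  obtain ⟨i, -, rfl⟩ := Finset.mem_image.1 hl
  have k := (tors_iff_torM hQ (tcat_obj_res hV fun x y z hx hz h1 h2 => ?_)).1 (h i)
  · rwa [mtx_res] at k
  · rcases ht x y h1 with h3 | h3
    · exact h3 ▸ hx
    · rcases ht y z h2 with h4 | h4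
      · exact h4.trans hz
      · rw [hx] at h3
        rw [hz] at h4
        omega

theorem ecl_triang [Fintype ι] [DecidableEq ι] {g : Matrix ι ι E} (ρ : ι → ℕ)
    (hu : ∀ i, IsUnit (g i i)) (hQ : ∀ i, cl1 (g i i) ∈ Q)
    (ht : ∀ i j, g i j ≠ 0 → i = j ∨ ρ j < ρ i) (deg : ι → ℤ)
    (he : ∀ i j, g i j ≠ 0 → Even (deg i - deg j)) : IsUnit g ∧ ecl (par E deg) g ∈ Q := by
  let n : Matrix ι ι E := Matrix.of fun i j => if i = j then 0 else (hu i).unit⁻¹.val * g i j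
  have hn : ∀ i j, n i j ≠ 0 → i ≠ j ∧ g i j ≠ 0 := fun i j h =>
    ⟨fun h0 => h (if_pos h0), fun h0 => h (by simp [n, h0])⟩
  have h1 : ∀ i j, n i j ≠ 0 → ρ j < ρ i := fun i j h =>
    (ht i j (hn i j h).2).resolve_left (hn i j h).1
  have e : g = Matrix.diagonal (fun i => g i i) * (1 + n) := by
    ext i j
    by_cases h : i = j <;> simp [n, h, ← mul_assoc]
  have u : IsUnit (Matrix.diagonal fun i => g i i) :=
    (Pi.isUnit_iff.2 hu).map (Matrix.diagonalRingHom ι E)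
  refine ⟨e ▸ u.mul (cl_tri ρ h1).1, ?_⟩
  rw [e, ecl_mul par_mul_par _ _ u (cl_tri ρ h1).1, ecl_tri ρ h1, add_zero]
  · exact ecl_diagonal hu hQ
  · rw [par, Matrix.diagonal_mul_diagonal, Matrix.diagonal_mul_diagonal]
    congr 1
    funext i
    split_ifs <;> simp
  · rw [mul_add, add_mul, mul_one, one_mul, par_even fun i j h => he i j (hn i j h).2]

/-- a triangular chain isomorphism whose diagonal entries have their classes in `Q` -/
theorem tors_ch [Finite V.ι] (hQ : negCl E ∈ Q) (hV : (tcat E L).Obj V) (hW : (tcat E L).Obj W)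
    {f : Lin V W} (hf : (tcat E L).Ch V W f) (e : V.ι ≃ W.ι) (he : ∀ i, W.deg (e i) = V.deg i)
    (ρ : V.ι → ℕ) (hu : ∀ i, IsUnit (mtx f i (e i))) (hu' : ∀ i, cl1 (mtx f i (e i)) ∈ Q)
    (ht : ∀ i j, mtx f i (e j) ≠ 0 → i = j ∨ ρ j < ρ i) : Tors Q V ↔ Tors Q W := by
  classical
  have := Fintype.ofFinite V.ι
  have := Fintype.ofEquiv _ e
  obtain ⟨f1, f2⟩ := tcat_ch.1 hf
  have ev : ∀ i j, (mtx f).submatrix id e i j ≠ 0 → V.deg j = V.deg i := fun i j h =>
    (he j).symm.trans (f1 _ _ h)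
  have k := ecl_triang (Q := Q) (g := (mtx f).submatrix id e) ρ hu hu' ht
  have k0 := k V.deg fun i j h => by simp [ev i j h]
  have k1 := k (fun i => V.deg i + 1) fun i j h => by simp [ev i j h]
  rw [tors_iff_torM hQ hV, tors_iff_torM hQ hW, ← torM_reindex e, funext he]
  refine torM_intertwine k0.1 ?_ (par_even fun i j h => by simp [ev i j h])
    (by rw [one_sub_par]; exact Q.sub_mem k0.2 k1.2)
  rw [Matrix.submatrix_mul_equiv, ← mtx_comp, f2, mtx_comp]
  rfl

/-- complexes with two terms -/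
theorem tors_two {A B : Raw E L} {θ : Lin B A} [Fintype B.ι] [DecidableEq B.ι] (hQ : negCl E ∈ Q)
    (hA : A.δ = 0) (hB : B.δ = 0) {m : ℤ} (dA : ∀ i, A.deg i = m + 1) (dB : ∀ i, B.deg i = m)
    (e : B.ι ≃ A.ι) : (tcat E L).Obj (A.ext B θ) ∧ (Tors Q (A.ext B θ) ↔
      IsUnit ((mtx θ).submatrix id e) ∧ cl ((mtx θ).submatrix id e) ∈ Q) := by
  classical
  have := Fintype.ofEquiv _ e
  have h : (tcat E L).Obj (A.ext B θ) := tcat_obj'.2 (by
    rw [mtx_ext, hA, hB, mtx_zero, mtx_zero]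
    refine ⟨?_, by simp [Matrix.fromBlocks_multiply]⟩
    rintro (i | i) (j | j) h
    exacts [absurd rfl h, absurd rfl h, (dA j).trans (congrArg (· + 1) (dB i).symm), absurd rfl h])
  refine ⟨h, ?_⟩
  rw [tors_iff_torM hQ h, ← torM_cone (negCl_eq (E := E) ▸ hQ) (m := m) (n := m + 1) (by simp),
    ← torM_reindex ((Equiv.sumComm _ _).trans (e.sumCongr (Equiv.refl B.ι))), mtx_ext, hA, hB]
  refine iff_of_eq (congrArg₂ (TorM Q) ?_ ?_)
  · ext (i | i)
    exacts [dB _, dA _]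
  · ext (i | i) (j | j) <;> rfl

/-- iterated extensions of disks -/
theorem tors_disky [Finite V.ι] (hQ : negCl E ∈ Q) (hV : (tcat E L).Obj V) (h : V.Disky) :
    Tors Q V := by
  classical
  obtain ⟨κ, e, ρ, s, h1, -, h3⟩ := h
  have := Fintype.ofFinite V.ι
  have := Fintype.ofEquiv _ e.symm
  obtain ⟨hd, dd⟩ := tcat_obj'.1 hV
  rw [tors_iff_torM hQ hV, ← torM_reindex e]
  rw [negCl_eq] at hQ
  refine torM_filt hQ ρ (Finset.univ.image Prod.fst) Prod.fst
    (fun i => Finset.mem_image_of_mem _ (Finset.mem_univ i))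
    (fun i j h0 => by rw [hd _ _ h0]; simp) (by rw [Matrix.submatrix_mul_equiv, dd]; rfl)
    (fun i j h0 => ?_) fun k _ => ?_
  · refine or_iff_not_imp_left.2 fun h => lt_of_not_ge fun h' => h0 ?_
    exact (h3 i.1 i.2 j.1 j.2 h').trans (single_eq_of_ne fun h4 => h (congrArg Prod.fst h4).symm)
  · let e' : Unit ⊕ Unit ≃ {i : κ × Bool // i.1 = k} :=
      ⟨Sum.elim (fun _ => ⟨(k, true), rfl⟩) fun _ => ⟨(k, false), rfl⟩,
        fun i => if i.1.2 then .inl () else .inr (), by rintro (_ | _) <;> rfl,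
        by rintro ⟨⟨_, _ | _⟩, rfl⟩ <;> rfl⟩
    have u : IsUnit (s k • (1 : E)) := by
      rcases Int.units_eq_one_or (s k) with h | h <;> simp [h]
    have t := (torM_cone hQ (m := V.deg (e (k, true))) (n := V.deg (e (k, false)))
      (by simp [h1]) (M := Matrix.of fun _ _ : Unit => s k • (1 : E))).2 ⟨isUnit_of_one u, by
        change cl1 _ ∈ Q
        rcases Int.units_eq_one_or (s k) with h | h
        · rw [h, one_smul, cl1_one]
          exact Q.zero_mem
        · rwa [h, Units.neg_smul, one_smul]⟩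
    rw [← torM_reindex e']
    refine cast (congrArg₂ (TorM Q) ?_ ?_) t
    · ext (i | i) <;> rfl
    · ext (i | i) (j | j) <;> refine Eq.trans ?_ (h3 k _ k _ le_rfl).symm <;> simp

/-- two out of three for cones -/
theorem tors_cone {f : Lin V W} (hQ : negCl E ∈ Q) (hV : (tcat E L).Obj V)
    (h : (tcat E L).Obj (V.cone W f)) : (Tors Q W → Tors Q V → Tors Q (V.cone W f)) ∧
      (Tors Q (V.cone W f) → (Tors Q W ↔ Tors Q V)) := by
  rw [← tors_sh hQ hV]
  exact tors_ext hQ h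

/-- homotopic attaching maps -/
theorem tors_ext_ht {A B : Raw E L} {θ θ' h : Lin B A} [Finite A.ι] [Finite B.ι] (hQ : negCl E ∈ Q)
    (hO : (tcat E L).Obj (A.ext B θ)) (hO' : (tcat E L).Obj (A.ext B θ'))
    (hh : (tcat E L).Hom 0 B A h) (e : A.δ ∘ₗ h + θ' = h ∘ₗ B.δ + θ) :
    Tors Q (A.ext B θ) ↔ Tors Q (A.ext B θ') := by
  classical
  have := Fintype.ofFinite A.ι
  have := Fintype.ofFinite B.ι
  rw [tors_iff_torM hQ hO, tors_iff_torM hQ hO', mtx_ext, mtx_ext]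
  replace e := congrArg mtx e
  rw [mtx_add, mtx_add, mtx_comp, mtx_comp] at e
  refine torM_intertwine (isUnit_lower (mtx h)) ?_ ?_ ?_
  · simp [Matrix.fromBlocks_multiply, e, add_comm]
  · have k : par E B.deg * mtx h = mtx h * par E A.deg :=
      par_even fun i j h0 => by simp [tcat_hom.1 hh i j h0]
    simp [par_sum, Matrix.fromBlocks_multiply, k]
  · rw [par_sum, one_sub_diag, ecl_lower, ecl_lower, sub_zero]
    exact Q.zero_mem

/-- the cone of the identity -/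
theorem tors_cone_id [Finite V.ι] (hQ : negCl E ∈ Q) (hV : (tcat E L).Obj V) :
    (tcat E L).Obj (V.cone V LinearMap.id) ∧ Tors Q (V.cone V LinearMap.id) := by
  classical
  have := Fintype.ofFinite V.ι
  obtain ⟨hd, dd⟩ := tcat_obj'.1 hV
  have h : (tcat E L).Obj (V.cone V LinearMap.id) := tcat_obj'.2 (by
    rw [mtx_ext, mtx_id, mtx_neg]
    refine ⟨?_, by simp [Matrix.fromBlocks_multiply, dd]⟩
    rintro (i | i) (j | j) h
    · exact hd i j h
    · exact absurd rfl h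
    · obtain rfl : i = j := by_contra fun h0 => h (if_neg h0)
      exact (sub_add_cancel _ _).symm
    · have := hd i j (neg_ne_zero.1 h)
      change V.deg j - 1 = V.deg i - 1 + 1
      omega)
  obtain ⟨m, hm⟩ := (Set.finite_range V.deg).bddAbove
  refine ⟨h, tors_disky hQ h ⟨V.ι, ((Equiv.prodComm _ _).trans (Equiv.boolProdEquivSum _)),
    fun i => (m - V.deg i).toNat, fun _ => 1, fun _ => (sub_add_cancel _ _).symm, fun _ => rfl,
    fun k b k' b' hk => ?_⟩⟩
  have z : mtx V.δ k k' = 0 := by_contra fun h0 => by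
    have := hd _ _ h0
    have := hm ⟨k', rfl⟩
    simp only at hk
    omega
  refine (congrFun (congrFun (mtx_ext V V.sh LinearMap.id) _) _).trans ?_
  cases b <;> cases b' <;> simp [z, mtx_neg, mtx_id, Matrix.one_apply, single_apply]

end Pool.Agent.Lib.NIL
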