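import Pool.Agent.Lib.NIL.A5
import Pool.Agent.Lib.NIL.TorsR
import Pool.Agent.Lib.NIL.Blue

/-! Block KEY0: contractible complexes lift along a localisation, with the same torsion. -/

namespace Pool.Agent.Lib.NIL

open Finsupp

theorem Raw.Rx.ext_right0 {E L : Type} [Ring E] {A B B' : Raw E L} (h : B.Rx B') (θ : Lin B A) :
    ∃ θ' : Lin B' A, (A.ext B θ).Rx (A.ext B' θ') := by
  obtain ⟨e, h1, h2, h3⟩ := h
  refine ⟨θ ∘ₗ inc e.symm, Equiv.sumCongr (Equiv.refl _) e, ?_, ?_, ?_⟩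
  · rintro (a | b)
    · rfl
    · exact h1 b
  · rintro (a | b)
    · rfl
    · exact h2 b
  · rintro (a | b) (a' | b')
    · exact (Raw.ext_ll _ a a').trans (Raw.ext_ll _ a a').symm
    · exact (Raw.ext_lr _ a (e b')).trans (Raw.ext_lr _ a b').symm
    · refine (Raw.ext_rl _ (e b) a').trans (Eq.trans ?_ (Raw.ext_rl _ b a').symm)
      rw [LinearMap.comp_apply, inc_single, e.symm_apply_apply]
    · exact (Raw.ext_rr _ (e b) (e b')).trans ((h3 b b').trans (Raw.ext_rr _ b b').symm)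

theorem st_key0 (hS : St_SIMP) : St_KEY0 := by
  intro E L M E'' N R'' _ _ _ T jl C'' C₀ I U Bm ent hL hF hP Z V h1 hV hH hc
  obtain ⟨X, p, W, hX, hp, hY, hR, hW, hwf, hb, hn, hs⟩ := hH
  have hT := hL.tgood
  have hC := hL.aug.good
  have cX : T.Ctr X := Cat.nul_one.1 (hn 1 h1 (Cat.nul_one.2 hc))
  obtain ⟨θ, hθ⟩ := hR.ext_right0
    (prj Subtype.val Subtype.val_injective ∘ₗ X.δ ∘ₗ inc Subtype.val : Lin _ (X.res p))
  have r := hp.rx_ext.trans hθ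
  have oX := Cat.obj_rx r hX
  have cX' := hT.ctr_of_retr (hT.eqv_rx r).symm.retr cX
  obtain ⟨W₁, o1, f1, e1⟩ := hL.aug.inO_of_P le_rfl hP hW hb (Or.inr hwf) (hF _ W θ hW hY oX cX')
  obtain ⟨ψ, hψ⟩ := e1.symm
  obtain ⟨oY, oW, aθ⟩ := hT.of_obj_ext oX
  have fn := hL.bm.isFn hC hT
  have oW1 : T.Obj (W₁.bm Bm) := fn.obj o1
  have iψ : T.IsEqv (W₁.bm Bm) (W.bm Bm) (bmL Bm.act ψ) := fn.isEqv o1 hW hψ
  have oZ := hT.obj_ext oY oW1 (hT.at_comp_left iψ.1 aθ)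
  have hΔ : WellFounded fun k' k => Bm.Δ k k' ≠ 0 := by
    refine Subrelation.wf (r := (· < ·)) ?_ wellFounded_lt
    rintro (_ | _) (_ | _) h
    · exact absurd (by rw [hL.Δ0]; rfl) h
    · exact Bool.false_lt_true
    · exact absurd (by rw [hL.Δ0]; rfl) h
    · exact absurd (by rw [hL.Δ1, single_eq_of_ne (by decide)]) h
  have := f1.1
  have fW : Finite (W₁.bm Bm).ι := inferInstanceAs (Finite (W₁.ι × Bool))
  refine ⟨_, oZ, hY.ext ⟨fW, bm_wf hL.bm.act_zero hΔ f1.2⟩ _,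
    hT.ctr_of_retr (hT.eqv_ext_right oY oW oW1 aθ iψ).retr cX', fun Q hQ t => ?_⟩
  have rl := relab_isFn (C₁ := tcat E L) hL.d hL.le
  have oZ' := tcat_obj.1 (rl.obj oZ)
  have tW : Tors Q ((W₁.bm Bm).relab jl) := tors_disky hQ (rl.obj oW1)
    (bm_disky hL.bm.act_zero hL.Δ1 hL.Δ0 (by rw [hL.dg0, hL.dg1]; rfl) jl hL.lb f1)
  have tY : Tors Q (X.res p) := ((tors_ext hQ (tcat_obj.2 oZ')).2 t).2 tW
  exact (hS.2.1 E L _ V Q hQ (rl.obj oY) hY.1 hs).1 tY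

end Pool.Agent.Lib.NIL
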