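import Pool.Agent.Lib.NIL.A6
import Pool.Agent.Lib.NIL.Blue
import Pool.Agent.Lib.NIL.TorsR

/-! Block SIMP. -/

namespace Pool.Agent.Lib.NIL

open Finsupp TensorProduct

variable {E L : Type} [Ring E] {C : Cat E L} {Y V Z : Raw E L}

theorem inc_prj_equiv {ι κ : Type} (e : ι ≃ κ) (v : κ →₀ E) :
    inc e (prj e e.injective v) = v := by
  ext k
  obtain ⟨i, rfl⟩ := e.surjective k
  rw [lmapDomain_apply, mapDomain_apply e.injective]
  rfl

/-- a unitriangular chain map is an equivalence -/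
theorem Cat.Good.isEqv_of_triang (hC : C.Good) {f : Lin Z Y} (hf : C.Ch Z Y f) (e : Z.ι ≃ Y.ι)
    (ρ : Z.ι → ℕ) (hd : ∀ i, Y.deg (e i) = Z.deg i) (hl : ∀ i, Y.lab (e i) = Z.lab i)
    (h1 : ∀ i, f (single i 1) (e i) = 1)
    (ht : ∀ i i', f (single i 1) (e i') ≠ 0 → i = i' ∨ ρ i' < ρ i) : C.IsEqv Z Y f := by
  have hp : C.Hom 0 Y Z (prj e e.injective) := hC.hom_prj e.injective hd hl
  have hn : C.Hom 0 Z Z (LinearMap.id - prj e e.injective ∘ₗ f) :=
    hC.hom_id.sub (hC.hom_comp hf.1 hp rfl)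
  have ln : LN (LinearMap.id - prj e e.injective ∘ₗ f : Lin Z Z) := by
    refine ln_of_wf (r := fun i' i => ρ i' < ρ i) (InvImage.wf ρ wellFounded_lt) fun i i' h => ?_
    have h' : (single i (1 : E) : Z.ι →₀ E) i' - f (single i 1) (e i') ≠ 0 := h
    by_cases hi : i = i'
    · subst hi
      rw [single_eq_same, h1, sub_self] at h'
      exact absurd rfl h'
    · rw [single_eq_of_ne (Ne.symm hi), zero_sub, neg_ne_zero] at h'
      exact (ht i i' h').resolve_left hi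
  obtain ⟨u, hu, e1, e2⟩ := hC.exists_inv hn ln
  have e0 : (LinearMap.id - (LinearMap.id - prj e e.injective ∘ₗ f) : Lin Z Z) =
      prj e e.injective ∘ₗ f := LinearMap.ext fun v => sub_sub_cancel _ _
  rw [e0] at e1 e2
  refine (hC.isEqv_of_inv (g := u ∘ₗ prj e e.injective) hf (hC.hom_comp hp hu rfl) e1
    (LinearMap.ext fun v => ?_)).1
  have := LinearMap.congr_fun e2 (prj e e.injective v)
  simp only [LinearMap.comp_apply, LinearMap.id_apply] at this ⊢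
  rw [← inc_prj_equiv e (f _), this, inc_prj_equiv]

theorem Simp.eqv (hC : C.Good) (h : Simp C Y V) : C.Eqv Y V := by
  obtain ⟨K, θ, e, f, ρ, -, hK, hZ, hf, hd, hl, h1, ht⟩ := h
  exact hC.eqv_trans (Cat.Eqv.symm ⟨f, hC.isEqv_of_triang hf e ρ hd hl h1 ht⟩)
    (hC.ses_eqv_of_ctr_left (hC.ses_ext hZ) (hC.ctr_of_disky (hC.of_obj_ext hZ).1 hK))

theorem Simp.tors {Q : AddSubgroup (WhDet.K1 E)} (hQ : negCl E ∈ Q) (hY : (tcat E L).Obj Y)
    (hf : Finite Y.ι) (h : Simp (tcat E L) Y V) : Tors Q Y ↔ Tors Q V := by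
  obtain ⟨K, θ, e, f, ρ, hKf, hK, hZ, hf, hd, -, h1, ht⟩ := h
  have : Finite (K.ext V θ).ι := Finite.of_equiv _ e.symm
  have tK : Tors Q K := tors_disky hQ ((tcat_good E L).of_obj_ext hZ).1 hK
  have t := tors_ext hQ hZ
  rw [← tors_ch hQ hZ hY hf e hd ρ (fun i => by rw [mtx_apply, h1]; exact isUnit_one)
    (fun i => by rw [mtx_apply, h1, cl1_one]; exact Q.zero_mem) ht]
  exact ⟨fun h => (t.2 h).1 tK, t.1 tK⟩

theorem Loc.bc {M E'' N R'' : Type} [Ring E''] [Ring R''] {T : Cat E M} {jl : M → L}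
    {C'' : Cat E'' N} {C₀ : Cat R'' N} {I : R'' →+ E''} {U : E'' →+ R''}
    {Bm : BM E'' N E M Bool} {ent : Bool → Bool → E'' →+ E} (h : Loc C T jl C'' C₀ I U Bm ent)
    (B : Type) [CommRing B] : Loc (C.bc B) (T.bc B) jl (C''.bc B) (C₀.bc B) (lT B I) (lT B U)
      (Bm.bc ent B) fun b b' => lT B (ent b b') where
  good := h.good.bc B
  tgood := h.tgood.bc B
  d := congrArg (lT B) h.d
  le k m m' := bcF_mono (h.le k m m')
  aug := h.aug.bc B
  bm := h.bm.bc h.aug.good h.tgood h.act B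
  act _ _ _ := rfl
  Δ1 := by
    simp only [BM.bc, h.Δ1, mapRange_single]; rfl
  Δ0 := by
    simp only [BM.bc, h.Δ0, mapRange_zero]
  dg0 := h.dg0
  dg1 := h.dg1
  lb := h.lb
  faith k n n' := by
    obtain ⟨ψ, hψ⟩ := h.faith k n n'
    refine ⟨fun b b' => lT B (ψ b b'), fun a ha => ?_⟩
    refine bcF_induction (p := fun a => a = ∑ b, ∑ b', lT B (ψ b b') (lT B (ent b b') a)) ha
      (fun c x hx => ?_) (by simp only [map_zero, Finset.sum_const_zero]) fun x y _ _ hx hy => ?_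
    · simp only [lT_tmul, ← tmul_sum]
      rw [← hψ x hx]
    · simp only [map_add, Finset.sum_add_distrib]
      rw [← hx, ← hy]

theorem st_simp : St_SIMP :=
  ⟨fun _ _ _ _ _ _ hC _ h => h.eqv hC, fun _ _ _ _ _ _ hQ hY hf h => h.tors hQ hY hf,
    fun _ _ _ _ _ _ _ _ _ _ _ _ _ _ _ _ _ _ h B _ => h.bc B⟩

end Pool.Agent.Lib.NIL
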