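import Pool.Agent.Lib.NIL.GlDim

/-! The bound of `GlDim` for the cohomological dimension over an arbitrary commutative coefficient
ring `B` and principal ideal domains `A` that are `B`-algebras. -/

namespace Pool.Agent.Lib.NIL

open CategoryTheory Abelian TensorProduct

/-- The group `G` has cohomological dimension at most `n` over `B`: the trivial representation `B`
has projective dimension at most `n` among the `B`-linear representations of `G`. -/
def CdLEk (B : Type) [CommRing B] (G : Type) [Group G] (n : ℕ) : Prop :=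
  HasProjectiveDimensionLE (Rep.trivial B G B) n

theorem cdLEk_int (G : Type) [Group G] (n : ℕ) : CdLEk ℤ G n ↔ CdLE G n := Iff.rfl

namespace GlDimK

open GlDim (act act_apply act_mul act_one mkLin)

/-- `K ⊗ Y`, to be equipped with the diagonal action. -/
def Diag (B _A _G K Y : Type) [CommRing B] [AddCommGroup K] [Module B K] [AddCommGroup Y]
    [Module B Y] : Type := K ⊗[B] Y

section
variable (B A G K Y : Type) [CommRing B] [CommRing A] [Algebra B A] [AddCommGroup K] [Module B K]
  [Module A K] [IsScalarTower B A K] [AddCommGroup Y] [Module B Y]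

noncomputable instance : AddCommGroup (Diag B A G K Y) :=
  inferInstanceAs (AddCommGroup (K ⊗[B] Y))

noncomputable instance : Module A (Diag B A G K Y) := inferInstanceAs (Module A (K ⊗[B] Y))

/-- The identity `K ⊗ Y → Diag B A G K Y`. -/
noncomputable def toDiag : (K ⊗[B] Y) ≃ₗ[A] Diag B A G K Y := LinearEquiv.refl A _

variable {B A G K Y}

theorem diag_ind {motive : Diag B A G K Y → Prop} (x : Diag B A G K Y) (h0 : motive 0)
    (h1 : ∀ k y, motive (toDiag B A G K Y (k ⊗ₜ y)))
    (h2 : ∀ x y, motive x → motive y → motive (x + y)) : motive x :=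
  TensorProduct.induction_on (motive := fun x : K ⊗[B] Y => motive (toDiag B A G K Y x)) x h0 h1 h2

variable {Y' : Type} [AddCommGroup Y'] [Module B Y']

variable (A G K) in
/-- The `A`-linear map of diagonal modules induced by a `B`-linear map. -/
noncomputable def diagMap₀ (f : Y →ₗ[B] Y') : Diag B A G K Y →ₗ[A] Diag B A G K Y' :=
  (toDiag B A G K Y').toLinearMap ∘ₗ AlgebraTensorModule.map (LinearMap.id : K →ₗ[A] K) f ∘ₗ
    (toDiag B A G K Y).symm.toLinearMap

theorem diagMap₀_tmul (f : Y →ₗ[B] Y') (k : K) (y : Y) :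
    diagMap₀ A G K f (toDiag B A G K Y (k ⊗ₜ y)) = toDiag B A G K Y' (k ⊗ₜ f y) := rfl

theorem diagMap₀_eq (f : Y →ₗ[B] Y') (x : K ⊗[B] Y) :
    diagMap₀ A G K f (toDiag B A G K Y x) = toDiag B A G K Y' (f.lTensor K x) := by
  induction x using TensorProduct.induction_on with
  | zero => simp
  | tmul k y => rfl
  | add x y hx hy => simp only [map_add, hx, hy]

end

variable {B A G K Y : Type} [CommRing B] [CommRing A] [Algebra B A] [Group G] [AddCommGroup K]
  [Module B K] [Module A K] [IsScalarTower B A K] [Module (MonoidAlgebra A G) K]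
  [IsScalarTower A (MonoidAlgebra A G) K] [AddCommGroup Y] [Module B Y]
  [Module (MonoidAlgebra B G) Y] [IsScalarTower B (MonoidAlgebra B G) Y]

variable (B A G K Y) in
/-- The diagonal action on `K ⊗ Y`. -/
noncomputable def diagRep : Representation A G (K ⊗[B] Y) where
  toFun g := AlgebraTensorModule.map (act A K g) (act B Y g)
  map_one' := by
    refine AlgebraTensorModule.ext fun k y => ?_
    simp [act_one]
  map_mul' g h := by
    refine AlgebraTensorModule.ext fun k y => ?_
    simp [act_mul]

variable (B A G K Y) in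
/-- The diagonal representation on `Diag B A G K Y`. -/
noncomputable def diagRep' : Representation A G (Diag B A G K Y) := diagRep B A G K Y

noncomputable instance : Module (MonoidAlgebra A G) (Diag B A G K Y) :=
  Module.compHom (Diag B A G K Y) (diagRep' B A G K Y).asAlgebraHom.toRingHom

theorem diag_smul (r : MonoidAlgebra A G) (x : Diag B A G K Y) :
    r • x = (diagRep' B A G K Y).asAlgebraHom r x := rfl

instance : IsScalarTower A (MonoidAlgebra A G) (Diag B A G K Y) where
  smul_assoc c r x := by rw [diag_smul, diag_smul, map_smul, LinearMap.smul_apply]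

theorem of_smul_tmul (g : G) (k : K) (y : Y) :
    MonoidAlgebra.of A G g • toDiag B A G K Y (k ⊗ₜ y) =
      toDiag B A G K Y (act A K g k ⊗ₜ act B Y g y) := by
  rw [diag_smul, Representation.asAlgebraHom_of]
  rfl

variable {Y' : Type} [AddCommGroup Y'] [Module B Y'] [Module (MonoidAlgebra B G) Y']
  [IsScalarTower B (MonoidAlgebra B G) Y']

variable (B A K) in
/-- The map of diagonal modules induced by a map of representations. -/
noncomputable def diagMap (f : Y →ₗ[MonoidAlgebra B G] Y') :
    Diag B A G K Y →ₗ[MonoidAlgebra A G] Diag B A G K Y' :=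
  mkLin (diagMap₀ A G K (f.restrictScalars B)) (fun g x => by
    induction x using diag_ind with
    | h0 => simp
    | h1 k y =>
      rw [of_smul_tmul, diagMap₀_tmul, diagMap₀_tmul, of_smul_tmul]
      simp only [act_apply, LinearMap.restrictScalars_apply, map_smul]
    | h2 x y hx hy => simp only [smul_add, map_add, hx, hy])

theorem diagMap_eq (f : Y →ₗ[MonoidAlgebra B G] Y') (x : K ⊗[B] Y) :
    diagMap B A K f (toDiag B A G K Y x) =
      toDiag B A G K Y' ((f.restrictScalars B).lTensor K x) :=
  diagMap₀_eq _ x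

theorem projective_of_basis (hK : Module.Projective A K) {I : Type} (b : Module.Basis (G × I) B Y)
    (hb : ∀ (h g : G) (i : I), act B Y h (b (g, i)) = b (h * g, i)) :
    Module.Projective (MonoidAlgebra A G) (Diag B A G K Y) := by
  have hfree : Module.Free B Y := Module.Free.of_basis b
  have hD : Module.Projective A (Diag B A G K Y) :=
    Module.Projective.of_equiv' (toDiag B A G K Y)
  refine Module.Projective.of_lifting_property'' fun f hf => ?_
  obtain ⟨ψ, hψ⟩ := Module.projective_lifting_property (f.restrictScalars A)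
    (LinearMap.id : Diag B A G K Y →ₗ[A] Diag B A G K Y) hf
  have hψ' : ∀ x, f (ψ x) = x := fun x => LinearMap.congr_fun hψ x
  let N := Diag B A G K Y →₀ MonoidAlgebra A G
  let c : G × I → K →ₗ[A] N := fun p => act A N p.1 ∘ₗ ψ ∘ₗ (toDiag B A G K Y).toLinearMap ∘ₗ
    (AlgebraTensorModule.mk B A K Y).flip (b (1, p.2)) ∘ₗ act A K p.1⁻¹
  let Ψ : Diag B A G K Y →ₗ[A] N :=
    AlgebraTensorModule.lift ((b.constr A).toLinearMap ∘ₗ LinearMap.pi c) ∘ₗ
      (toDiag B A G K Y).symm.toLinearMap
  have hΨ : ∀ (k : K) (g : G) (i : I), Ψ (toDiag B A G K Y (k ⊗ₜ b (g, i))) =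
      MonoidAlgebra.of A G g • ψ (toDiag B A G K Y (act A K g⁻¹ k ⊗ₜ b (1, i))) := by
    intro k g i
    change (b.constr A) (LinearMap.pi c k) (b (g, i)) = _
    rw [Module.Basis.constr_basis]
    rfl
  have hext : ∀ {N' : Type} [AddCommGroup N'] [Module A N'] (φ φ' : Diag B A G K Y →ₗ[A] N'),
      (∀ (k : K) (g : G) (i : I), φ (toDiag B A G K Y (k ⊗ₜ b (g, i))) =
        φ' (toDiag B A G K Y (k ⊗ₜ b (g, i)))) → ∀ x, φ x = φ' x := by
    intro N' _ _ φ φ' h x
    induction x using diag_ind with
    | h0 => simp
    | h1 k y =>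
      obtain ⟨l, rfl⟩ := b.repr.symm.surjective y
      induction l using Finsupp.induction_linear with
      | zero => simp
      | add l l' hl hl' => simp only [map_add, tmul_add, hl, hl']
      | single p a =>
        rw [Module.Basis.repr_symm_single, tmul_smul, smul_tmul']
        exact h _ p.1 p.2
    | h2 x y hx hy => simp only [map_add, hx, hy]
  refine ⟨mkLin Ψ fun h x => ?_, LinearMap.ext fun x => ?_⟩
  · refine hext (Ψ ∘ₗ act A (Diag B A G K Y) h) (act A N h ∘ₗ Ψ) (fun k g i => ?_) x
    change Ψ (MonoidAlgebra.of A G h • toDiag B A G K Y (k ⊗ₜ b (g, i))) =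
      MonoidAlgebra.of A G h • Ψ (toDiag B A G K Y (k ⊗ₜ b (g, i)))
    rw [of_smul_tmul, hb, hΨ, hΨ, ← act_mul, map_mul, mul_smul]
    simp
  · refine hext (f.restrictScalars A ∘ₗ Ψ) LinearMap.id (fun k g i => ?_) x
    change f (Ψ (toDiag B A G K Y (k ⊗ₜ b (g, i)))) = toDiag B A G K Y (k ⊗ₜ b (g, i))
    rw [hΨ, map_smul, hψ', of_smul_tmul, hb, ← act_mul]
    simp [act_one]

theorem projective_free (hK : Module.Projective A K) (I : Type) :
    Module.Projective (MonoidAlgebra A G) (Diag B A G K (I →₀ MonoidAlgebra B G)) := by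
  refine projective_of_basis hK ((MonoidAlgebra.basis G B).smulTower
    (Finsupp.basisSingleOne : Module.Basis I (MonoidAlgebra B G) (I →₀ MonoidAlgebra B G))) ?_
  intro h g i
  rw [act_apply, Module.Basis.smulTower_apply, Module.Basis.smulTower_apply, smul_smul,
    MonoidAlgebra.basis_apply, MonoidAlgebra.basis_apply]
  simp [MonoidAlgebra.single_mul_single]

theorem pd_diag_step (hK : Module.Projective A K) (n : ℕ) {X I : Type} [AddCommGroup X]
    [Module B X] [Module (MonoidAlgebra B G) X] [IsScalarTower B (MonoidAlgebra B G) X]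
    (hY : Module.Projective B Y) (i : X →ₗ[MonoidAlgebra B G] (I →₀ MonoidAlgebra B G))
    (p : (I →₀ MonoidAlgebra B G) →ₗ[MonoidAlgebra B G] Y) (hi : Function.Injective i)
    (hip : Function.Exact i p) (hp : Function.Surjective p)
    (ih : Module.Projective B X → Pd (MonoidAlgebra A G) (Diag B A G K X) n) :
    Pd (MonoidAlgebra A G) (Diag B A G K Y) (n + 1) := by
  have hF : Module.Projective B (I →₀ MonoidAlgebra B G) := inferInstance
  have hex : Function.Exact (i.restrictScalars B) (p.restrictScalars B) := hip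
  have hs := Module.projective_lifting_property (p.restrictScalars B)
    (LinearMap.id : Y →ₗ[B] Y) hp
  obtain ⟨r, hr⟩ := ((hex.split_tfae hi hp).out 0 1).1 hs
  have hX : Module.Projective B X := Module.Projective.of_split _ r hr
  have hinj : Function.Injective ((i.restrictScalars B).lTensor K) := by
    apply Function.LeftInverse.injective (g := r.lTensor K)
    intro x
    rw [← LinearMap.comp_apply, ← LinearMap.lTensor_comp, hr, LinearMap.lTensor_id]
    rfl
  refine (pd_succ (diagMap B A K i) (diagMap B A K p) ?_ ?_ ?_ (projective_free hK I) n).2 (ih hX)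
  · intro x y hxy
    obtain ⟨x, rfl⟩ := (toDiag B A G K _).surjective x
    obtain ⟨y, rfl⟩ := (toDiag B A G K _).surjective y
    rw [diagMap_eq, diagMap_eq] at hxy
    rw [hinj ((toDiag B A G K _).injective hxy)]
  · intro x
    obtain ⟨x, rfl⟩ := (toDiag B A G K _).surjective x
    rw [diagMap_eq, map_eq_zero_iff _ (toDiag B A G K _).injective, lTensor_exact K hex hp x]
    constructor
    · rintro ⟨y, rfl⟩
      exact ⟨toDiag B A G K _ y, diagMap_eq _ y⟩
    · rintro ⟨y, hy⟩
      obtain ⟨y, rfl⟩ := (toDiag B A G K _).surjective y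
      rw [diagMap_eq] at hy
      exact ⟨y, (toDiag B A G K _).injective hy⟩
  · intro x
    obtain ⟨x, rfl⟩ := (toDiag B A G K _).surjective x
    obtain ⟨y, rfl⟩ := LinearMap.lTensor_surjective K (g := p.restrictScalars B) hp x
    exact ⟨toDiag B A G K _ y, diagMap_eq _ y⟩

theorem pd_diag (hK : Module.Projective A K) (n : ℕ) (Y : Type) [AddCommGroup Y] [Module B Y]
    [Module (MonoidAlgebra B G) Y] [IsScalarTower B (MonoidAlgebra B G) Y]
    (hY : Module.Projective B Y) (h : PD (MonoidAlgebra B G) n Y) :
    Pd (MonoidAlgebra A G) (Diag B A G K Y) n := by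
  induction n generalizing Y with
  | zero =>
    rw [pd_zero]
    obtain ⟨s, hs⟩ := Module.projective_def'.1 h
    have := projective_free (B := B) (A := A) (G := G) hK Y
    refine Module.Projective.of_split (diagMap B A K s)
      (diagMap B A K (Finsupp.linearCombination (MonoidAlgebra B G) id))
      (LinearMap.ext fun x => ?_)
    induction x using diag_ind with
    | h0 => simp
    | h1 k y =>
      change toDiag B A G K Y (k ⊗ₜ (Finsupp.linearCombination (MonoidAlgebra B G) id (s y))) = _
      rw [show Finsupp.linearCombination (MonoidAlgebra B G) id (s y) = y from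
        LinearMap.congr_fun hs y]
      rfl
    | h2 x y hx hy => simp only [map_add, hx, hy]
  | succ n ih =>
    obtain ⟨I, p, hp, hker⟩ := h
    exact pd_diag_step hK n hY (LinearMap.ker p).subtype p (LinearMap.ker p).injective_subtype
      (LinearMap.exact_subtype_ker_map p) hp (fun hX => ih _ hX hker)

end GlDimK

open GlDimK GlDim in
/-- Over `A[G]` with `cd_B G ≤ n` and `A` a commutative `B`-algebra, a module that is projective
over `A` has projective dimension at most `n`. -/
theorem pdk_of_projective {B : Type} [CommRing B] {G : Type} [Group G] {n : ℕ} (hG : CdLEk B G n)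
    (A : Type) [CommRing A] [Algebra B A] (K : Type) [AddCommGroup K] [Module A K]
    [Module (MonoidAlgebra A G) K] [IsScalarTower A (MonoidAlgebra A G) K]
    (hK : Module.Projective A K) : PD (MonoidAlgebra A G) n K := by
  let _ : Module B K := Module.compHom K (algebraMap B A)
  have : IsScalarTower B A K := IsScalarTower.of_algebraMap_smul fun _ _ => rfl
  have h1 := pd_map_equivalence (Rep.toModuleMonoidAlgebra (k := B) (G := G)) n _ hG
  let Z := (Representation.trivial B G B).asModule
  have h2 : Pd (MonoidAlgebra B G) Z n := h1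
  let e : Z ≃ₗ[B] B := (Representation.trivial B G B).asModuleEquiv
  have hZ : Module.Projective B Z := Module.Projective.of_equiv' e.symm
  have h3 := GlDimK.pd_diag (A := A) hK n Z hZ ((PD_iff n Z).2 h2)
  have htriv : ∀ (g : G) (z : Z), act B Z g z = z := fun g z =>
    ((Representation.trivial B G B).asModuleEquiv_symm_map_rho g z).symm
  let φ : GlDimK.Diag B A G K Z ≃ₗ[A] K := (GlDimK.toDiag B A G K Z).symm ≪≫ₗ
    AlgebraTensorModule.congr (LinearEquiv.refl A K) e ≪≫ₗ AlgebraTensorModule.rid B A K
  have hφ : ∀ (k : K) (z : Z), φ (GlDimK.toDiag B A G K Z (k ⊗ₜ z)) = e z • k := fun k z => rfl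
  let φ' : GlDimK.Diag B A G K Z →ₗ[MonoidAlgebra A G] K := mkLin φ.toLinearMap (fun g x => by
    induction x using GlDimK.diag_ind with
    | h0 => simp
    | h1 k z =>
      rw [GlDimK.of_smul_tmul, htriv, LinearEquiv.coe_coe, hφ, hφ, ← act_apply]
      exact ((act A K g).map_smul (algebraMap B A (e z)) k).symm
    | h2 x y hx hy => simp only [smul_add, map_add, hx, hy])
  exact (PD_iff n K).2 (h3.equiv (LinearEquiv.ofBijective φ' φ.bijective))

/-- Submodules of free `A[G]`-modules have projective dimension at most `cd_B G`. -/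
theorem pdk_submodule {B : Type} [CommRing B] {G : Type} [Group G] {n : ℕ} (hG : CdLEk B G n)
    (A : Type) [CommRing A] [Algebra B A] [IsDomain A] [IsPrincipalIdealRing A] (ι : Type)
    (N : Submodule (MonoidAlgebra A G) (ι →₀ MonoidAlgebra A G)) :
    PD (MonoidAlgebra A G) n N :=
  pdk_of_projective hG A N (proj_of_inj_pid (X := N)
    (inferInstance : Module.Projective A (ι →₀ MonoidAlgebra A G)) (N.subtype.restrictScalars A)
    N.injective_subtype)

/-- Kernels of maps between free `A[G]`-modules have projective dimension at most `cd_B G`. -/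
theorem pdk_ker {B : Type} [CommRing B] {G : Type} [Group G] {n : ℕ} (hG : CdLEk B G n)
    (A : Type) [CommRing A] [Algebra B A] [IsDomain A] [IsPrincipalIdealRing A] (ι κ : Type)
    (f : (ι →₀ MonoidAlgebra A G) →ₗ[MonoidAlgebra A G] (κ →₀ MonoidAlgebra A G)) :
    PD (MonoidAlgebra A G) n (LinearMap.ker f) :=
  pdk_submodule hG A ι _

end Pool.Agent.Lib.NIL
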