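import Pool.Agent.Lib.NIL.FR
import Pool.Agent.Lib.NIL.GlDimK

/-! The transport family of a `G`-set with stabilisers of bounded cohomological dimension has
finite pieces of resolutions of bounded length, over every principal ideal domain. -/

noncomputable section

namespace Pool.Agent.Lib.NIL

open Finsupp TensorProduct

namespace FR

theorem tmul_mem_bcF {E : Type} [Ring E] (B : Type) [CommRing B] {X : AddSubgroup E} (b : B)
    {e : E} (he : e ∈ X) : b ⊗ₜ[ℤ] e ∈ bcF B X :=
  AddSubgroup.subset_closure ⟨b, e, he, rfl⟩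

theorem bcF_ind {E : Type} [Ring E] {B : Type} [CommRing B] {X : AddSubgroup E}
    (Y : AddSubgroup (B ⊗[ℤ] E)) (h : ∀ (b : B), ∀ e ∈ X, b ⊗ₜ[ℤ] e ∈ Y) : bcF B X ≤ Y := by
  rw [bcF, AddSubgroup.closure_le]
  rintro _ ⟨b, e, he, rfl⟩
  exact h b e he

theorem bcF_bot {E : Type} [Ring E] (B : Type) [CommRing B] : bcF B (⊥ : AddSubgroup E) = ⊥ :=
  le_bot_iff.1 (bcF_ind _ fun b e he => by rw [AddSubgroup.mem_bot.1 he, tmul_zero]; rfl)

theorem isBas_bcF {R O : Type} [Ring R] {Rf : O → O → AddSubgroup R} (hb : IsBas Rf) (B : Type)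
    [CommRing B] : IsBas fun o o' => bcF B (Rf o o') where
  one_mem o := tmul_mem_bcF B 1 (hb.one_mem o)
  mul_mem {o o' o'' a b} ha hb' := by
    refine bcF_ind ((bcF B (Rf o o'')).comap (AddMonoidHom.mulRight b)) (fun x e he => ?_) ha
    refine bcF_ind ((bcF B (Rf o o'')).comap (AddMonoidHom.mulLeft (x ⊗ₜ[ℤ] e)))
      (fun y e' he' => ?_) hb'
    change (x ⊗ₜ[ℤ] e) * (y ⊗ₜ[ℤ] e') ∈ bcF B (Rf o o'')
    rw [Algebra.TensorProduct.tmul_mul_tmul]
    exact tmul_mem_bcF B _ (hb.mul_mem he he')

theorem bc_bcat {R O : Type} [Ring R] (Rf : O → O → AddSubgroup R) (B : Type) [CommRing B] :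
    (bcat Rf).bc B = bcat fun o o' => bcF B (Rf o o') := by
  unfold Cat.bc bcat
  congr 1
  · ext x
    induction x using TensorProduct.induction_on with
    | zero => simp
    | tmul b e => rfl
    | add x y hx hy => rw [map_add, map_add, hx, hy]
  · ext x
    induction x using TensorProduct.induction_on with
    | zero => simp
    | tmul b e => exact tmul_zero _ _
    | add x y hx hy => rw [map_add, map_add, hx, hy]
  · funext k o o'
    dsimp only
    split_ifs
    · rfl
    · exact bcF_bot B

variable {G O : Type} [Group G] [MulAction G O]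

theorem single_mem_gfam {g : G} {o o' : O} (h : g • o' = o) (n : ℤ) :
    MonoidAlgebra.single g n ∈ gfam G O o o' := by
  classical
  intro g' hg'
  rw [MonoidAlgebra.coeff_single, Finsupp.single_apply] at hg'
  split_ifs at hg' with h'
  · exact h' ▸ h
  · exact absurd rfl hg'

theorem gfam_ind {o o' : O} (Y : AddSubgroup (MonoidAlgebra ℤ G))
    (h : ∀ g : G, g • o' = o → ∀ n : ℤ, MonoidAlgebra.single g n ∈ Y) : gfam G O o o' ≤ Y := by
  intro a ha
  rw [← MonoidAlgebra.sum_coeff_single a, Finsupp.sum]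
  exact sum_mem fun g hg => h g (ha g (Finsupp.mem_support_iff.1 hg)) _

theorem isBas_gfam : IsBas (gfam G O) where
  one_mem o := single_mem_gfam (one_smul G o) 1
  mul_mem {o o' o'' a b} ha hb := by
    refine gfam_ind ((gfam G O o o'').comap (AddMonoidHom.mulRight b)) (fun g hg n => ?_) ha
    refine gfam_ind ((gfam G O o o'').comap (AddMonoidHom.mulLeft (MonoidAlgebra.single g n)))
      (fun g' hg' n' => ?_) hb
    change MonoidAlgebra.single g n * MonoidAlgebra.single g' n' ∈ gfam G O o o''
    rw [MonoidAlgebra.single_mul_single]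
    exact single_mem_gfam (by rw [mul_smul, hg', hg]) _

/-- `A[H] → A ⊗ ℤ[G]` for a subgroup `H` -/
def emb (A : Type) [CommRing A] (H : Subgroup G) :
    MonoidAlgebra A H →ₐ[A] A ⊗[ℤ] MonoidAlgebra ℤ G :=
  MonoidAlgebra.lift A (A ⊗[ℤ] MonoidAlgebra ℤ G) H
    (((Algebra.TensorProduct.includeRight : MonoidAlgebra ℤ G →ₐ[ℤ] A ⊗[ℤ] MonoidAlgebra ℤ G) :
      MonoidAlgebra ℤ G →* A ⊗[ℤ] MonoidAlgebra ℤ G).comp ((MonoidAlgebra.of ℤ G).comp H.subtype))

theorem emb_single (A : Type) [CommRing A] (H : Subgroup G) (h : H) (a : A) :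
    emb A H (MonoidAlgebra.single h a) = a ⊗ₜ MonoidAlgebra.single (h : G) 1 := by
  rw [emb, MonoidAlgebra.lift_single]
  change a • ((1 : A) ⊗ₜ[ℤ] MonoidAlgebra.single (h : G) (1 : ℤ)) = _
  rw [smul_tmul', smul_eq_mul, mul_one]

theorem emb_injective (A : Type) [CommRing A] (H : Subgroup G) : Function.Injective (emb A H) := by
  let b := Algebra.TensorProduct.basis A (MonoidAlgebra.basis G ℤ)
  have key : ∀ x, b.repr (emb A H x) = mapDomain Subtype.val x.coeff := by
    intro x
    induction x using MonoidAlgebra.induction_linear with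
    | zero => simp
    | add x y hx hy => rw [map_add, map_add, hx, hy, MonoidAlgebra.coeff_add, mapDomain_add]
    | single h a =>
      have : a ⊗ₜ[ℤ] MonoidAlgebra.single (h : G) (1 : ℤ) = a • b h := by
        rw [Algebra.TensorProduct.basis_apply, MonoidAlgebra.basis_apply, smul_tmul', smul_eq_mul,
          mul_one]
      rw [emb_single, this, map_smul, Module.Basis.repr_self, MonoidAlgebra.coeff_single,
        mapDomain_single, smul_single, smul_eq_mul, mul_one]
  intro x y hxy
  have := key x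
  rw [hxy, key] at this
  exact MonoidAlgebra.coeff_injective (mapDomain_injective Subtype.val_injective this.symm)

theorem mem_range_emb (A : Type) [CommRing A] (o : O) (a : A ⊗[ℤ] MonoidAlgebra ℤ G) :
    a ∈ bcF A (gfam G O o o) ↔ a ∈ Set.range (emb A (MulAction.stabilizer G o)) := by
  constructor
  · intro ha
    refine bcF_ind (emb A (MulAction.stabilizer G o)).toRingHom.toAddMonoidHom.range
      (fun b e he => ?_) ha
    refine gfam_ind ((emb A (MulAction.stabilizer G o)).toRingHom.toAddMonoidHom.range.comap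
      (TensorProduct.mk ℤ A (MonoidAlgebra ℤ G) b).toAddMonoidHom) (fun g hg n => ?_) he
    refine ⟨MonoidAlgebra.single ⟨g, hg⟩ (n • b), (emb_single A _ _ _).trans ?_⟩
    change (n • b) ⊗ₜ[ℤ] MonoidAlgebra.single g (1 : ℤ) = b ⊗ₜ[ℤ] MonoidAlgebra.single g n
    rw [smul_tmul, MonoidAlgebra.smul_single, smul_eq_mul, mul_one]
  · rintro ⟨x, rfl⟩
    induction x using MonoidAlgebra.induction_linear with
    | zero => rw [map_zero]; exact zero_mem _
    | add x y hx hy => rw [map_add]; exact add_mem hx hy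
    | single h a =>
      rw [emb_single]
      exact tmul_mem_bcF A a (single_mem_gfam h.2 1)

theorem exists_gpd (A : Type) [CommRing A] :
    ∃ (r : O → O) (t t' : O → A ⊗[ℤ] MonoidAlgebra ℤ G),
      Gpd (fun o o' => bcF A (gfam G O o o')) r t t'
      (fun o => MonoidAlgebra A (MulAction.stabilizer G o))
      (fun o => (emb A (MulAction.stabilizer G o)).toRingHom) := by
  let r : O → O := fun o => (Quotient.mk (MulAction.orbitRel G O) o).out
  have hr : ∀ o, ∃ g : G, g • r o = o := fun o =>
    (MulAction.orbitRel G O).symm (Quotient.mk_out (s := MulAction.orbitRel G O) o)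
  choose g hg using hr
  refine ⟨r, fun o => 1 ⊗ₜ MonoidAlgebra.single (g o) 1,
    fun o => 1 ⊗ₜ MonoidAlgebra.single (g o)⁻¹ 1, fun o => ?_, fun o => ?_, fun o => ?_,
    fun o => ?_, fun o => ?_, fun o o' ho ho' hne a ha => ?_, fun o => emb_injective A _,
    fun o a => mem_range_emb A o a⟩
  · simp [r]
  · exact tmul_mem_bcF A 1 (single_mem_gfam (hg o) 1)
  · exact tmul_mem_bcF A 1 (single_mem_gfam (by rw [inv_smul_eq_iff, hg]) 1)
  · rw [Algebra.TensorProduct.tmul_mul_tmul, MonoidAlgebra.single_mul_single]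
    simp [Algebra.TensorProduct.one_def, MonoidAlgebra.one_def]
  · rw [Algebra.TensorProduct.tmul_mul_tmul, MonoidAlgebra.single_mul_single]
    simp [Algebra.TensorProduct.one_def, MonoidAlgebra.one_def]
  · have h0 : gfam G O o o' ≤ ⊥ := gfam_ind _ fun x hx n => by
      refine absurd ?_ hne
      rw [← ho, ← ho']
      exact congrArg Quotient.out (Quotient.sound (s := MulAction.orbitRel G O) ⟨x, hx⟩)
    rw [le_bot_iff.1 h0, bcF_bot] at ha
    exact AddSubgroup.mem_bot.1 ha

end FR

/-- stabilisers of cohomological dimension at most `n` over `B`, and `A` a principal ideal domain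
that is a `B`-algebra -/
theorem frk_gfam {B : Type} [CommRing B] {G O : Type} [Group G] [MulAction G O] {n : ℕ}
    (h : ∀ o : O, CdLEk B (MulAction.stabilizer G o) n) (A : Type) [CommRing A] [Algebra B A]
    [IsDomain A] [IsPrincipalIdealRing A] :
    (bcat fun o o' => bcF A (gfam G O o o')).FR (n + 1) := by
  obtain ⟨r, t, t', g⟩ := FR.exists_gpd (G := G) (O := O) A
  exact FR.fr_of_gpd (FR.isBas_bcF FR.isBas_gfam A) g n fun o _ ι N => pdk_submodule (h o) A ι N

theorem fr_gfam {G O : Type} [Group G] [MulAction G O] {n : ℕ}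
    (h : ∀ o : O, CdLE (MulAction.stabilizer G o) n) (A : Type) [CommRing A]
    [IsDomain A] [IsPrincipalIdealRing A] :
    (bcat fun o o' => bcF A (gfam G O o o')).FR (n + 1) :=
  frk_gfam (B := ℤ) h A

theorem fr_gfam_bc {G O : Type} [Group G] [MulAction G O] {n : ℕ}
    (h : ∀ o : O, CdLE (MulAction.stabilizer G o) n) (A : Type) [CommRing A]
    [IsDomain A] [IsPrincipalIdealRing A] : ((bcat (gfam G O)).bc A).FR (n + 1) := by
  rw [FR.bc_bcat]
  exact fr_gfam h A

end Pool.Agent.Lib.NIL
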