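import Pool.Agent.Lib.NIL.A7
import Pool.Agent.Lib.NIL.BASE
import Pool.Agent.Lib.NIL.FRG
import Pool.Agent.Lib.NIL.Blue

/-! The downward induction on the level, and the core case. -/

namespace Pool.Agent.Lib.NIL

open Finsupp TensorProduct

namespace STEP

variable {E L : Type} [Ring E] {C C' : Cat E L}

theorem D_eq (hd : C.d = C'.d) (V : Raw E L) : C.D V = C'.D V := by
  unfold Cat.D
  rw [hd]

theorem hom_le (hH : ∀ k o o', C.H k o o' ≤ C'.H k o o') {k : ℤ} {V W : Raw E L} {f : Lin V W}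
    (h : C.Hom k V W f) : C'.Hom k V W f := fun i i' => hH _ _ _ (h i i')

theorem obj_of (hd : C.d = C'.d) {V : Raw E L} (h : C.Obj V) (h' : C'.Hom 1 V V V.δ) :
    C'.Obj V := ⟨h', by rw [← D_eq hd]; exact h.2⟩

theorem ch_of (hd : C.d = C'.d) {V W : Raw E L} {f : Lin V W} (h : C.Ch V W f)
    (h' : C'.Hom 0 V W f) : C'.Ch V W f := ⟨h', by rw [← D_eq hd, ← D_eq hd]; exact h.2⟩

theorem ht_le (hd : C.d = C'.d) (hH : ∀ k o o', C.H k o o' ≤ C'.H k o o') {V W : Raw E L}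
    {f g : Lin V W} (h : C.Ht V W f g) : C'.Ht V W f g := by
  obtain ⟨k, h1, h2⟩ := h
  exact ⟨k, hom_le hH h1, by rw [← D_eq hd, ← D_eq hd]; exact h2⟩

theorem inO_le (hd : C.d = C'.d) (hH : ∀ k o o', C.H k o o' ≤ C'.H k o o') {V : Raw E L}
    (h : C.InO V) : C'.InO V := by
  obtain ⟨W, hW, hf, f, h1, g, h2, h3, h4⟩ := h
  exact ⟨W, obj_of hd hW (hom_le hH hW.1), hf, f, ch_of hd h1 (hom_le hH h1.1), g,
    ch_of hd h2 (hom_le hH h2.1), ht_le hd hH h3, ht_le hd hH h4⟩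

/-- a map between finite objects lies in all late stages -/
theorem hom_stage {Cn : ℕ → Cat E L}
    (hu : ∀ k o o', ∀ a ∈ C.H k o o', ∀ᶠ n in Filter.atTop, a ∈ (Cn n).H k o o') {k : ℤ}
    {V W : Raw E L} (hV : Finite V.ι) (hW : Finite W.ι) {f : Lin V W} (h : C.Hom k V W f) :
    ∀ᶠ n in Filter.atTop, (Cn n).Hom k V W f :=
  Filter.eventually_all.2 fun i => Filter.eventually_all.2 fun i' => hu _ _ _ _ (h i i')

/-- `P` passes to increasing unions -/
theorem P_union {Cn : ℕ → Cat E L} (hd : ∀ n, (Cn n).d = C.d)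
    (hH : ∀ n k o o', (Cn n).H k o o' ≤ C.H k o o')
    (hu : ∀ k o o', ∀ a ∈ C.H k o o', ∀ᶠ n in Filter.atTop, a ∈ (Cn n).H k o o')
    (hP : ∀ n, (Cn n).P) : C.P := by
  rintro M hM hf ⟨W, hW, hw, i, r, hi, hr, k, hk, e⟩
  obtain ⟨n, ⟨⟨h1, h2⟩, h3, h4⟩, h5⟩ := ((((hom_stage hu hf hf hM.1).and
    (hom_stage hu hw.1 hw.1 hW.1)).and ((hom_stage hu hf hw.1 hi.1).and
    (hom_stage hu hw.1 hf hr.1))).and (hom_stage hu hf hf hk)).exists
  refine inO_le (hd n) (hH n) (hP n M (obj_of (hd n).symm hM h1) hf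
    ⟨W, obj_of (hd n).symm hW h2, hw, i, r, ch_of (hd n).symm hi h3, ch_of (hd n).symm hr h4,
      k, h5, ?_⟩)
  rw [D_eq (hd n)]
  exact e

variable {R Λ O : Type} [Ring R] {S : Sys R E Λ O} {Rf : O → O → AddSubgroup R} {j : ℤ}

theorem sp_sub_le (T T' : Λ → Prop) (o o' : O) : (S.sub T').Sp Rf T o o' ≤ S.Sp Rf T o o' := by
  rw [Sys.Sp_sub]
  exact Sys.Sp_mono fun _ _ h => h.1

theorem sp_stage (lev : Λ → ℕ) {T : Λ → Prop} {o o' : O} {e : E} (he : e ∈ S.Sp Rf T o o') :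
    ∀ᶠ n in Filter.atTop, e ∈ (S.sub fun l => lev l ≤ n).Sp Rf T o o' := by
  filter_upwards [Filter.eventually_ge_atTop ((S.c e).support.sup lev)] with n hn
  rw [Sys.Sp_sub]
  intro l
  refine ⟨(he l).1, fun h => ⟨((he l).2 h).1, ((he l).2 h).2, .inr ?_⟩⟩
  exact (Finset.le_sup (f := lev) (mem_support_iff.2 h)).trans hn

theorem P_stages (lev : Λ → ℕ) (A : Type) [CommRing A]
    (hP : ∀ n, (((S.sub fun l => lev l ≤ n).cat Rf).bc A).P) : ((S.cat Rf).bc A).P := by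
  refine P_union (Cn := fun n => ((S.sub fun l => lev l ≤ n).cat Rf).bc A) (fun _ => rfl)
    (fun n k o o' => bcF_mono (sp_sub_le _ _ _ _)) ?_ hP
  intro k o o' a ha
  refine bcF_induction (p := fun a => ∀ᶠ n in Filter.atTop,
    a ∈ (((S.sub fun l => lev l ≤ n).cat Rf).bc A).H k o o') ha ?_ ?_ ?_
  · intro b e he
    filter_upwards [sp_stage lev he] with n hn
    exact tmul_mem_bcF b hn
  · exact .of_forall fun _ => zero_mem _
  · intro x y _ _ hx hy
    filter_upwards [hx, hy] with n h1 h2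
    exact add_mem h1 h2

/-- a system without letters -/
theorem P_empty (h : S.IsSys Rf j) (h0 : ∀ l, ¬ S.ok l) (A : Type) [CommRing A] :
    ((S.cat Rf).bc A).P := by
  intro M hM hf _
  refine (h.good.bc A).inO_of_fin1 hM (Cat.Good.fin1_of_zero (h.good.bc A) ?_ hM hf)
  intro k o o' a hk ha
  have : (S.cat Rf).H k o o' ≤ ⊥ := by
    intro e he
    rw [AddSubgroup.mem_bot, ← S.c.map_eq_zero_iff]
    ext l
    by_contra hl
    obtain ⟨h1 | h1, h2⟩ := (he l).2 hl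
    · exact hk (by rw [← h2, h1, h.deg_u])
    · exact h0 l h1.1
  have h1 := bcF_mono (B := A) this ha
  rwa [bcF_bot, AddSubgroup.mem_bot] at h1

theorem sub_sub {T T' T'' : Λ → Prop} (h : ∀ l, T l ∧ T' l ↔ T'' l) :
    (S.sub T).sub T' = S.sub T'' := by
  have : (fun l => (S.ok l ∧ T l) ∧ T' l) = fun l => S.ok l ∧ T'' l :=
    funext fun l => propext (by rw [and_assoc, h])
  unfold Sys.sub
  simp only [this]

theorem down (hT : St_TOWER) (hC : St_CELL) (hj : 1 ≤ j) (A : Type) [CommRing A]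
    (h : Lev Rf (Ax A) (j + 1)) : Lev Rf A j := by
  intro E Λ _ S hS
  obtain ⟨G, Λ₂, _, S₂, lev, -, h1, h2, h3⟩ := hT R E Λ O S Rf j hS hj
  have hs : ∀ (k : ℕ) (K : Cell Λ₂), (∀ l, K.inE l ↔ lev l ≤ k) →
      (S₂.sub fun l => lev l ≤ k + 1).sub K.inE = S₂.sub fun l => lev l ≤ k := fun k K hK =>
    sub_sub fun l => by rw [hK]; omega
  refine h3 A (P_stages lev A fun n => ?_)
  induction n with
  | zero =>
    obtain ⟨K, hK, hE⟩ := h2 0
    have := hK.sub
    rw [hs 0 K hE] at this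
    refine P_empty this (fun l hl => ?_) A
    have h4 := h1 l hl.1
    have h5 := hl.2
    omega
  | succ n ih =>
    obtain ⟨K, hK, hE⟩ := h2 n
    refine hC R G Λ₂ O _ Rf K j A hK hj ?_ h
    rw [hs n K hE]
    exact ih

end STEP

theorem st_step (hT : St_TOWER) (hC : St_CELL) : St_STEP := by
  intro R O _ Rf j hj h
  obtain ⟨n, rfl⟩ : ∃ n : ℕ, j = 1 + n := ⟨(j - 1).toNat, by omega⟩
  clear hj
  induction n with
  | zero => simpa [GoodB] using h
  | succ n ih =>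
    refine ih fun A _ _ _ => STEP.down hT hC (by omega) A ?_
    have := h (Ax A)
    rwa [Nat.cast_succ, ← add_assoc] at this

theorem st_core (hS : St_STEP) : St_CORE := by
  intro G O _ _ n h
  refine hS _ O (gfam G O) (n + 5) (by omega) fun A _ _ _ E Λ _ S hS => ?_
  exact ((hS.aug' (by omega)).bc A).base_P (fr_gfam_bc h A) (by push_cast; omega)

end Pool.Agent.Lib.NIL
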