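import Pool.Agent.Lib.NIL.Blue

/-! A tensor ring is a cell attachment of level zero. -/

noncomputable section

namespace Pool.Agent.Lib.NIL

open Finsupp

namespace TEN

variable {R T Λ : Type} [Ring R] [Ring T] (i : R →+* T) (x : Λ → T)

/-- the word -/
def wd (w : List Λ) : T := (w.map x).prod

/-- the basis map -/
def bm : (List Λ →₀ R) →+ T :=
  liftAddHom fun w => (AddMonoidHom.mulRight (wd x w)).comp i.toAddMonoidHom

theorem bm_single (w : List Λ) (r : R) : bm i x (single w r) = i r * wd x w := by
  simp [bm]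

theorem bm_apply (a : List Λ →₀ R) : bm i x a = a.sum fun w r => i r * (w.map x).prod := by
  rw [bm, liftAddHom_apply]; rfl

theorem bm_smul (r : R) (a : List Λ →₀ R) : bm i x (r • a) = i r * bm i x a := by
  induction a using Finsupp.induction_linear with
  | zero => simp
  | add a b ha hb => rw [smul_add, map_add, map_add, ha, hb, mul_add]
  | single w s => rw [smul_single, bm_single, bm_single, smul_eq_mul, map_mul, mul_assoc]

theorem wd_append (w w' : List Λ) : wd x (w ++ w') = wd x w * wd x w' := by simp [wd]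

theorem wd_cons (m : Λ) (w : List Λ) : wd x (m :: w) = x m * wd x w := by simp [wd]

variable {i x} (h : IsTensorRing i x)

/-- the coordinates -/
def co : T ≃+ (List Λ →₀ R) :=
  (AddEquiv.ofBijective (bm i x) (by
    have e : (bm i x : _ → T) = fun a => a.sum fun w r => i r * (w.map x).prod :=
      funext (bm_apply i x)
    rw [e]; exact h.basis)).symm

theorem co_symm (a : List Λ →₀ R) : (co h).symm a = bm i x a := rfl

theorem co_bm (a : List Λ →₀ R) : co h (bm i x a) = a := (co h).apply_symm_apply a

theorem bm_co (e : T) : bm i x (co h e) = e := (co h).symm_apply_apply e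

theorem co_mul (r : R) (e : T) : co h (i r * e) = r • co h e := by
  conv_lhs => rw [← bm_co h e, ← bm_smul, co_bm]

theorem co_wd (r : R) (w : List Λ) : co h (i r * wd x w) = single w r := by
  rw [← bm_single, co_bm]

/-- the homogeneous part -/
def hom (n : ℕ) : AddSubgroup T where
  carrier := {e | ∀ l, co h e l ≠ 0 → l.length = n}
  add_mem' {a b} ha hb l hl := by
    rw [map_add, Finsupp.add_apply] at hl
    by_cases h' : co h a l = 0
    · exact hb l fun h'' => hl (by rw [h', h'', add_zero])
    · exact ha l h'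
  zero_mem' l hl := by simp at hl
  neg_mem' {a} ha l hl := by
    rw [map_neg, Finsupp.neg_apply] at hl
    exact ha l (neg_ne_zero.1 hl)

theorem wd_mem (r : R) (w : List Λ) : i r * wd x w ∈ hom h w.length := by
  intro l hl
  rw [co_wd] at hl
  by_cases e : w = l
  · rw [e]
  · exact absurd (single_eq_of_ne' e) hl

theorem x_mul (m : Λ) (n : ℕ) (e : T) (he : e ∈ hom h n) : x m * e ∈ hom h (n + 1) := by
  rw [← bm_co h e, bm_apply, Finsupp.sum, Finset.mul_sum]
  refine sum_mem fun l hl => ?_
  have hn : l.length = n := he l (mem_support_iff.1 hl)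
  obtain ⟨a, ha⟩ := h.comm m (co h e l)
  rw [← mul_assoc, ha, Finsupp.sum, Finset.sum_mul]
  refine sum_mem fun m' _ => ?_
  have := wd_mem h (a m') (m' :: l)
  rwa [wd_cons, ← mul_assoc, List.length_cons, hn] at this

theorem wd_mul (w : List Λ) (r : R) : wd x w * i r ∈ hom h w.length := by
  induction w with
  | nil => have := wd_mem h r []; simpa [wd] using this
  | cons m w ih => rw [wd_cons, mul_assoc]; exact x_mul h m _ _ ih

/-- the system of words -/
def sys : Sys R T (List Λ) Unit where
  σ := AddMonoidHom.id T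
  d := 0
  i := i
  c := co h
  u := []
  ok w := w ≠ []
  s _ := ()
  t _ := ()
  deg _ := 0
  ρ := List.length

/-- the cell structure -/
def cell (Λ : Type) : Cell (List Λ) where
  inE _ := False
  inN w := w.length = 1
  pre w := w.take 1
  suf w := w.drop 1
  cat w w' := w ++ w'

theorem ε_eq (w : List Λ) : (sys h).ε w = wd x w := by
  change (co h).symm (single w 1) = _
  rw [co_symm, bm_single, map_one, one_mul]

theorem val (l : List Λ) (o : Unit) : (sys h).val l o := by
  by_cases e : l = []
  · exact Or.inl e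
  · exact Or.inr ⟨e, rfl⟩

theorem mem_Sp {n : ℕ} {e : T} (he : e ∈ hom h n) {P : List Λ → Prop}
    (hP : ∀ l : List Λ, l.length = n → P l) (o o' : Unit) :
    e ∈ (sys h).Sp (fun _ _ => ⊤) P o o' :=
  fun l => ⟨trivial, fun hl => ⟨val h l o', hP l (he l hl)⟩⟩

theorem isDG : IsDG (AddMonoidHom.id T) 0 :=
  ⟨rfl, fun _ _ => rfl, fun _ => rfl, fun _ => by simp, fun _ => rfl, fun _ _ => by simp⟩

theorem isBas : IsBas fun _ _ : Unit => (⊤ : AddSubgroup R) := ⟨fun _ => trivial, fun _ _ => trivial⟩

theorem c_one : co h 1 = single [] 1 := by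
  have := co_wd h 1 []
  simpa [wd] using this

theorem len_pos {l : List Λ} (hl : l ≠ []) : 1 ≤ l.length := List.length_pos_iff.2 hl

theorem isSys : (sys h).IsSys (fun _ _ => ⊤) 0 where
  bas := isBas
  dg := isDG
  σ_i _ := rfl
  d_i _ := rfl
  c_mul := co_mul h
  c_one := c_one h
  deg_u := rfl
  ρ_u := rfl
  ne_u _ hl := hl
  deg_ge _ _ := le_rfl
  ρ_pos _ hl := len_pos hl
  σ_ε l _ := by
    change (sys h).ε l = (0 : ℤ).negOnePow • (sys h).ε l
    rw [Int.negOnePow_zero, one_smul]
  mulR l o r hl _ := by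
    rw [ε_eq]
    refine mem_Sp h (wd_mul h l r) (fun m hm => ⟨fun e => ?_, rfl, hm.le⟩) _ _
    have e' : m = [] := e
    have := len_pos hl
    rw [← hm, e'] at this
    simp at this
  mul l l' hl _ _ := by
    rw [ε_eq, ε_eq, ← wd_append]
    have hw := wd_mem h 1 (l ++ l')
    rw [map_one, one_mul, List.length_append] at hw
    refine mem_Sp h hw (fun m hm => ⟨fun e => ?_, rfl, hm.le⟩) _ _
    have e' : m = [] := e
    have := len_pos hl
    rw [e', List.length_nil] at hm
    omega
  d_ε _ _ := zero_mem _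

theorem isSub : ((sys h).sub (cell Λ).inE).IsSys (fun _ _ => ⊤) 0 where
  bas := isBas
  dg := isDG
  σ_i _ := rfl
  d_i _ := rfl
  c_mul := co_mul h
  c_one := c_one h
  deg_u := rfl
  ρ_u := rfl
  ne_u _ hl := hl.2.elim
  deg_ge _ _ := le_rfl
  ρ_pos _ hl := hl.2.elim
  σ_ε _ hl := hl.2.elim
  mulR _ _ _ hl := hl.2.elim
  mul _ _ hl := hl.2.elim
  d_ε _ hl := hl.2.elim

theorem isCell : (sys h).IsCell (fun _ _ => ⊤) (cell Λ) 0 where
  sys := isSys h
  sub := isSub h
  inN l hl := ⟨fun e => by
    have h1 : l.length = 1 := hl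
    rw [e] at h1; simp at h1, id⟩
  split l hl _ := by
    have h1 := len_pos hl
    refine ⟨?_, val h _ _, rfl, List.take_append_drop 1 l, ?_⟩
    · change (l.take 1).length = 1
      rw [List.length_take]; omega
    · change (l.drop 1).length < l.length
      rw [List.length_drop]; omega
  cat a m o ha _ _ := by
    have h1 : a.length = 1 := ha
    refine ⟨fun e => ?_, id, rfl, rfl, List.take_left' h1, List.drop_left' h1, ?_, rfl⟩
    · have h2 : (a ++ m).length = 0 := by
        have e' : a ++ m = [] := e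
        rw [e']; rfl
      rw [List.length_append] at h2; omega
    · rw [ε_eq, ε_eq, ε_eq]; exact wd_append x a m
  mulE _ _ _ hm := hm.elim
  mulR a o r ha _ := by
    rw [ε_eq]
    exact mem_Sp h (wd_mul h a r) (fun m hm => hm.trans ha) _ _
  d_ε _ _ := zero_mem _

end TEN

theorem st_ten : St_TEN := fun _ _ Λ _ _ _ _ h =>
  ⟨TEN.sys h, TEN.cell Λ, rfl, TEN.isCell h, fun _ => id,
    fun l => (em (l = [])).imp id id, fun _ => rfl⟩

end Pool.Agent.Lib.NIL
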