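import Pool.Agent.Lib.NIL.Defs

/-! The ring `E *_R R⟨X⟩`: universal property, derivation and normal form. -/

noncomputable section

namespace Pool.Agent.Lib.NIL

open Finsupp

variable {R E : Type} [Ring R] [Ring E]

/-- the relations of the free product -/
inductive GRel (i : R →+* E) (X : Type) : FreeRing (E ⊕ X) → FreeRing (E ⊕ X) → Prop
  | add (a b : E) : GRel i X (.of (.inl (a + b))) (.of (.inl a) + .of (.inl b))
  | mul (a b : E) : GRel i X (.of (.inl (a * b))) (.of (.inl a) * .of (.inl b))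
  | one : GRel i X (.of (.inl 1)) 1
  | comm (x : X) (r : R) :
      GRel i X (.of (.inr x) * .of (.inl (i r))) (.of (.inl (i r)) * .of (.inr x))

/-- `E` with free variables that commute with `R` -/
abbrev Gam (i : R →+* E) (X : Type) : Type := RingQuot (GRel i X)

namespace Gam

variable (i : R →+* E) {X : Type}

def J : E →+* Gam i X :=
  RingHom.mk' ⟨⟨fun e => RingQuot.mkRingHom _ (.of (.inl e)),
    (RingQuot.mkRingHom_rel GRel.one).trans (map_one _)⟩,
    fun a b => (RingQuot.mkRingHom_rel (GRel.mul a b)).trans (map_mul _ _ _)⟩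
    fun a b => (RingQuot.mkRingHom_rel (GRel.add a b)).trans (map_add _ _ _)

def x (b : X) : Gam i X := RingQuot.mkRingHom _ (.of (.inr b))

theorem x_comm (b : X) (r : R) : x i b * J i (i r) = J i (i r) * x i b :=
  (map_mul _ _ _).symm.trans ((RingQuot.mkRingHom_rel (GRel.comm b r)).trans (map_mul _ _ _))

theorem ind {P : Gam i X → Prop} (hJ : ∀ e, P (J i e)) (hx : ∀ b, P (x i b))
    (ha : ∀ a b, P a → P b → P (a + b)) (hm : ∀ a b, P a → P b → P (a * b)) (g : Gam i X) :
    P g := by
  obtain ⟨z, rfl⟩ := RingQuot.mkRingHom_surjective _ g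
  induction z using FreeRing.induction_on with
  | hn1 => simpa using hJ (-1)
  | hb b => cases b with
    | inl e => exact hJ e
    | inr b => exact hx b
  | ha a b h h' => rw [map_add]; exact ha _ _ h h'
  | hm a b h h' => rw [map_mul]; exact hm _ _ h h'

variable {i}

def lift {T : Type} [Ring T] (f : E →+* T) (y : X → T)
    (h : ∀ b r, y b * f (i r) = f (i r) * y b) : Gam i X →+* T :=
  RingQuot.lift ⟨FreeRing.lift (Sum.elim f y), fun _ _ w => by cases w <;> simp [h]⟩

theorem lift_J {T : Type} [Ring T] (f : E →+* T) (y : X → T)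
    (h : ∀ b r, y b * f (i r) = f (i r) * y b) (e : E) : lift f y h (J i e) = f e :=
  (RingQuot.lift_mkRingHom_apply _ _ _).trans (FreeRing.lift_of _ _)

theorem lift_x {T : Type} [Ring T] (f : E →+* T) (y : X → T)
    (h : ∀ b r, y b * f (i r) = f (i r) * y b) (b : X) : lift f y h (x i b) = y b :=
  (RingQuot.lift_mkRingHom_apply _ _ _).trans (FreeRing.lift_of _ _)

/-- extension of a twisted derivation -/
theorem exists_der {σ d : E →+ E} (hdg : IsDG σ d) (hσ : ∀ r, σ (i r) = i r)
    (hd : ∀ r, d (i r) = 0) (s t : X → Gam i X) (hs : ∀ b r, s b * J i (i r) = J i (i r) * s b)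
    (ht : ∀ b r, t b * J i (i r) = J i (i r) * t b) :
    ∃ sg dd : Gam i X →+ Gam i X, sg 1 = 1 ∧ (∀ a b, sg (a * b) = sg a * sg b) ∧
      (∀ a b, dd (a * b) = a * dd b + dd a * sg b) ∧ (∀ e, sg (J i e) = J i (σ e)) ∧
      (∀ e, dd (J i e) = J i (d e)) ∧ (∀ b, sg (x i b) = s b) ∧ ∀ b, dd (x i b) = t b := by
  have d1 : d 1 = 0 := by simpa using hd 1
  let f : E →+* Matrix (Fin 2) (Fin 2) (Gam i X) :=
    RingHom.mk' ⟨⟨fun e => !![J i e, J i (d e); 0, J i (σ e)], by
      simp [d1, hdg.σ_one, Matrix.one_fin_two]⟩, fun a b => by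
      simp [hdg.leib, hdg.σ_mul]⟩ fun a b => by simp
  have hf : ∀ e, f e = !![J i e, J i (d e); 0, J i (σ e)] := fun _ => rfl
  have hc : ∀ b r, !![x i b, t b; 0, s b] * f (i r) = f (i r) * !![x i b, t b; 0, s b] :=
    fun b r => by simp [hf, hσ, hd, hs, ht, x_comm]
  let Φ := lift f (fun b => !![x i b, t b; 0, s b]) hc
  have hJ : ∀ e, Φ (J i e) = !![J i e, J i (d e); 0, J i (σ e)] := fun e => lift_J _ _ _ e
  have hx : ∀ b, Φ (x i b) = !![x i b, t b; 0, s b] := fun b => lift_x _ _ _ b
  have key : ∀ g, Φ g 0 0 = g ∧ Φ g 1 0 = 0 := fun g => by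
    induction g using ind with
    | hJ e => simp [hJ]
    | hx b => simp [hx]
    | ha a b h h' => simp [h, h']
    | hm a b h h' => simp [Matrix.mul_apply, h, h']
  refine ⟨AddMonoidHom.mk' (fun g => Φ g 1 1) fun a b => by simp,
    AddMonoidHom.mk' (fun g => Φ g 0 1) fun a b => by simp, by simp, fun a b => ?_, fun a b => ?_,
    fun e => by simp [hJ], fun e => by simp [hJ], fun b => by simp [hx], fun b => by simp [hx]⟩
  · simp [Matrix.mul_apply, key]
  · simp [Matrix.mul_apply, key]

theorem isDG_of {sg dd : Gam i X →+ Gam i X} {σ d : E →+ E} (hdg : IsDG σ d) (h1 : sg 1 = 1)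
    (hm : ∀ a b, sg (a * b) = sg a * sg b) (hl : ∀ a b, dd (a * b) = a * dd b + dd a * sg b)
    (hJ : ∀ e, sg (J i e) = J i (σ e)) (hJ' : ∀ e, dd (J i e) = J i (d e))
    (x1 : ∀ b, sg (sg (x i b)) = x i b) (x2 : ∀ b, dd (sg (x i b)) = -sg (dd (x i b)))
    (x3 : ∀ b, dd (dd (x i b)) = 0) : IsDG sg dd := by
  have a1 : ∀ g, sg (sg g) = g := fun g => by
    induction g using ind with
    | hJ e => rw [hJ, hJ, hdg.σσ]
    | hx b => exact x1 b
    | ha a b h h' => rw [map_add, map_add, h, h']
    | hm a b h h' => rw [hm, hm, h, h']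
  have a2 : ∀ g, dd (sg g) = -sg (dd g) := fun g => by
    induction g using ind with
    | hJ e => rw [hJ, hJ', hJ', hJ, hdg.dσ, map_neg]
    | hx b => exact x2 b
    | ha a b h h' => rw [map_add, map_add, h, h', map_add, map_add, neg_add]
    | hm a b h h' => rw [hm, hl, hl, h, h', map_add, hm, hm, mul_neg, neg_mul, neg_add]
  refine ⟨h1, hm, a1, a2, fun g => ?_, hl⟩
  induction g using ind with
  | hJ e => rw [hJ', hJ', hdg.dd, map_zero]
  | hx b => exact x3 b
  | ha a b h h' => rw [map_add, map_add, h, h', add_zero]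
  | hm a b h h' => rw [hl, map_add, hl, hl, h, h', a2]; simp

variable {Λ : Type} (i) (c : E ≃+ (Λ →₀ R))

/-- the product `x b₁ ε l₁ x b₂ ε l₂ ⋯` -/
def word : List (X × Λ) → Gam i X
  | [] => 1
  | p :: t => x i p.1 * J i (c.symm (single p.2 1)) * word t

/-- the operator of a variable on the normal forms -/
def op (b : X) : (List (X × Λ) →₀ E) →+ (List (X × Λ) →₀ E) :=
  liftAddHom fun t => (liftAddHom fun l =>
    (singleAddHom ((b, l) :: t)).comp i.toAddMonoidHom).comp c.toAddMonoidHom

variable {i c}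

theorem symm_single (hc : ∀ r e, c (i r * e) = r • c e) (l : Λ) (r : R) :
    c.symm (single l r) = i r * c.symm (single l 1) := by
  apply c.injective
  rw [hc]
  simp

theorem op_single (b : X) (t : List (X × Λ)) (l : Λ) (r : R) :
    op i c b (single t (c.symm (single l r))) = single ((b, l) :: t) (i r) := by
  simp [op]

theorem addHom_ext {T : Type} [AddCommGroup T] {f g : (List (X × Λ) →₀ E) →+ T}
    (h : ∀ t l r, f (single t (c.symm (single l r))) = g (single t (c.symm (single l r)))) :
    f = g := by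
  refine Finsupp.addHom_ext fun t e => ?_
  obtain ⟨v, rfl⟩ := c.symm.surjective e
  induction v using Finsupp.induction_linear with
  | zero => simp
  | add a b ha hb => simp [ha, hb]
  | single l r => exact h t l r

/-- normal form -/
theorem exists_nf (hc : ∀ r e, c (i r * e) = r • c e) :
    ∃ ψ : (List (X × Λ) →₀ E) ≃+ Gam i X, ∀ t e, ψ (single t e) = J i e * word i c t := by
  let W := List (X × Λ) →₀ E
  have hop : ∀ (b : X) (r : R) (w : W), op i c b (i r • w) = i r • op i c b w := fun b r w => by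
    refine DFunLike.congr_fun (addHom_ext (c := c)
      (f := (op i c b).comp (DistribSMul.toAddMonoidHom W (i r)))
      (g := (DistribSMul.toAddMonoidHom W (i r)).comp (op i c b)) fun t l s => ?_) w
    simp only [AddMonoidHom.comp_apply, DistribSMul.toAddMonoidHom_apply, W]
    rw [op_single, smul_single, smul_single, smul_eq_mul, smul_eq_mul, symm_single hc, ← mul_assoc,
      ← map_mul, ← symm_single hc, op_single]
  let ρ : Gam i X →+* AddMonoid.End W :=
    lift (T := AddMonoid.End W) (Module.toAddMonoidEnd E W) (fun b => op i c b) fun b r =>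
      AddMonoidHom.ext fun w => hop b r w
  have ρJ : ∀ e w, ρ (J i e) w = e • w := fun e w => by rw [lift_J]; rfl
  have ρx : ∀ b w, ρ (x i b) w = op i c b w := fun b w => by rw [lift_x]; rfl
  have ρm : ∀ a b w, ρ (a * b) w = ρ a (ρ b w) := fun a b w => by rw [map_mul]; rfl
  have ρa : ∀ a b w, ρ (a + b) w = ρ a w + ρ b w := fun a b w => by rw [map_add]; rfl
  let ψ : W →+ Gam i X :=
    liftAddHom fun t => (AddMonoidHom.mulRight (word i c t)).comp (J i).toAddMonoidHom
  have hψ : ∀ t e, ψ (single t e) = J i e * word i c t := fun t e => by simp [ψ, W]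
  have h1 : ∀ g w, ψ (ρ g w) = g * ψ w := fun g => by
    induction g using ind with
    | hJ e =>
      intro w
      rw [ρJ]
      induction w using Finsupp.induction_linear with
      | zero => simp
      | add a b ha hb => rw [smul_add, map_add, map_add, ha, hb, mul_add]
      | single t e' => rw [smul_single, hψ, hψ, smul_eq_mul, map_mul, mul_assoc]
    | hx b =>
      intro w
      rw [ρx]
      refine DFunLike.congr_fun (addHom_ext (c := c) (f := ψ.comp (op i c b))
        (g := (AddMonoidHom.mulLeft (x i b)).comp ψ) fun t l s => ?_) w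
      simp only [AddMonoidHom.comp_apply, AddMonoidHom.coe_mulLeft]
      rw [op_single, hψ, hψ, symm_single hc, map_mul, word]
      simp only [← mul_assoc, x_comm]
    | ha a b h h' => intro w; rw [ρa, map_add, h, h', add_mul]
    | hm a b h h' => intro w; rw [ρm, h, h', mul_assoc]
  have h2 : ∀ t, ρ (word i c t) (single [] 1) = single t 1 := fun t => by
    induction t with
    | nil => rw [word, map_one]; rfl
    | cons p t ih =>
      rw [word, ρm, ρm, ih, ρJ, ρx, smul_single, smul_eq_mul, mul_one, op_single, map_one]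
  refine ⟨{ ψ with
    invFun := fun g => ρ g (single [] 1)
    left_inv := fun w => ?_
    right_inv := fun g => ?_ }, hψ⟩
  · change ρ (ψ w) (single [] 1) = w
    induction w using Finsupp.induction_linear with
    | zero => simp
    | add a b ha hb => rw [map_add, ρa, ha, hb]
    | single t e => rw [hψ, ρm, h2, ρJ, smul_single, smul_eq_mul, mul_one]
  · change ψ (ρ g (single [] 1)) = g
    rw [h1, hψ, map_one, word, mul_one, mul_one]

/-- the left basis over `R` -/
theorem exists_basis (hc : ∀ r e, c (i r * e) = r • c e) :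
    ∃ cc : Gam i X ≃+ (Λ × List (X × Λ) →₀ R), (∀ r g, cc (J i (i r) * g) = r • cc g) ∧
      ∀ l t, cc.symm (single (l, t) 1) = J i (c.symm (single l 1)) * word i c t := by
  obtain ⟨ψ, hψ⟩ := exists_nf (X := X) hc
  let φ : (Λ × List (X × Λ) →₀ R) ≃+ Gam i X :=
    (Finsupp.domCongr (Equiv.prodComm _ _)).trans (curryAddEquiv.trans
      ((mapRange.addEquiv c.symm).trans ψ))
  have hφ : ∀ l t r, φ (single (l, t) r) = J i (i r) * (J i (c.symm (single l 1)) * word i c t) :=
    fun l t r => by
    rw [← mul_assoc, ← map_mul, ← symm_single hc, ← hψ]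
    simp [φ]
  refine ⟨φ.symm, fun r g => ?_, fun l t => by simpa using hφ l t 1⟩
  obtain ⟨v, rfl⟩ := φ.surjective g
  rw [AddEquiv.symm_apply_apply, AddEquiv.symm_apply_eq]
  induction v using Finsupp.induction_linear with
  | zero => simp
  | add a b ha hb => rw [map_add, mul_add, ha, hb, smul_add, map_add]
  | single p s =>
    obtain ⟨l, t⟩ := p
    rw [smul_single, hφ, hφ, smul_eq_mul, map_mul, map_mul, mul_assoc]

end Gam

/-- the ring `E *_R R⟨κ, η⟩` with `d η = κ - 1`; `κ = x true`, `η = x false` -/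
theorem exists_gam {Λ O : Type} (S : Sys R E Λ O) (hdg : IsDG S.σ S.d)
    (hσ : ∀ r, S.σ (S.i r) = S.i r) (hd : ∀ r, S.d (S.i r) = 0)
    (hc : ∀ r e, S.c (S.i r * e) = r • S.c e) :
    ∃ (G : Type) (_ : Ring G) (J : E →+* G) (x : Bool → G) (sg d : G →+ G)
      (c : G ≃+ (Λ × List (Bool × Λ) →₀ R)) (π : G →+* E), IsDG sg d ∧
      (∀ e, sg (J e) = J (S.σ e)) ∧ (∀ e, d (J e) = J (S.d e)) ∧ sg (x true) = x true ∧
      sg (x false) = -x false ∧ d (x true) = 0 ∧ d (x false) = x true - 1 ∧
      (∀ b r, x b * J (S.i r) = J (S.i r) * x b) ∧ (∀ r g, c (J (S.i r) * g) = r • c g) ∧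
      (∀ l, c.symm (single (l, []) 1) = J (S.ε l)) ∧
      (∀ l b l' w, c.symm (single (l, (b, l') :: w) 1) =
        J (S.ε l) * x b * c.symm (single (l', w) 1)) ∧
      (∀ e, π (J e) = e) ∧ π (x true) = 1 ∧ π (x false) = 0 ∧
      (∀ g, π (sg g) = S.σ (π g)) ∧ ∀ g, π (d g) = S.d (π g) := by
  obtain ⟨sg, dd, h1, hm, hl, hJ, hJ', hx, hx'⟩ := Gam.exists_der hdg hσ hd
    (fun b : Bool => bif b then Gam.x S.i true else -Gam.x S.i false)
    (fun b : Bool => bif b then 0 else Gam.x S.i true - 1)
    (fun b r => by cases b <;> simp [Gam.x_comm])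
    (fun b r => by cases b <;> simp [Gam.x_comm, sub_mul, mul_sub])
  have d1 : dd 1 = 0 := by simpa [h1] using hl 1 1
  have e1 : S.d 1 = 0 := by simpa using hd 1
  obtain ⟨c, hc1, hc2⟩ := Gam.exists_basis (X := Bool) hc
  let π : Gam S.i Bool →+* E := Gam.lift (RingHom.id E) (fun b : Bool => bif b then 1 else 0)
    fun b r => by cases b <;> simp
  have πJ : ∀ e, π (Gam.J S.i e) = e := fun e => Gam.lift_J _ _ _ e
  have πx : ∀ b, π (Gam.x S.i b) = bif b then 1 else 0 := fun b => Gam.lift_x _ _ _ b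
  have p1 : ∀ g, π (sg g) = S.σ (π g) := fun g => by
    induction g using Gam.ind with
    | hJ e => rw [hJ, πJ, πJ]
    | hx b => cases b <;> simp [hx, πx, hdg.σ_one]
    | ha a b h h' => simp only [map_add, h, h']
    | hm a b h h' => rw [hm, map_mul, map_mul, h, h', hdg.σ_mul]
  refine ⟨Gam S.i Bool, inferInstance, Gam.J S.i, Gam.x S.i, sg, dd, c, π,
    Gam.isDG_of hdg h1 hm hl hJ hJ' (fun b => ?_) (fun b => ?_) (fun b => ?_), hJ, hJ', hx true,
    hx false, hx' true, hx' false, Gam.x_comm _, hc1, fun l => ?_, fun l b l' w => ?_, πJ, πx true,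
    πx false, p1, fun g => ?_⟩
  · cases b <;> simp [hx]
  · cases b <;> simp [hx, hx', h1]
  · cases b <;> simp [hx', d1]
  · rw [hc2, Gam.word, mul_one, Sys.ε]
  · rw [hc2, hc2, Gam.word, Sys.ε]
    simp only [mul_assoc]
  · induction g using Gam.ind with
    | hJ e => rw [hJ', πJ, πJ]
    | hx b => cases b <;> simp [hx', πx, e1]
    | ha a b h h' => simp only [map_add, h, h']
    | hm a b h h' => rw [hl, map_add, map_mul, map_mul, map_mul, h, h', p1, hdg.leib]

end Pool.Agent.Lib.NIL
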