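import Pool.Agent.Lib.NIL.A6

/-! Transfer of `P` along a cobar-bar resolution: the gauge transform. -/

namespace Pool.Agent.Lib.NIL

open Finsupp TensorProduct Polynomial

variable {E G R L : Type} [Ring E] [Ring G] [Ring R]

/-- the data of a cobar-bar resolution `C' → C` inside a ring with `d η = κ - 1` -/
structure CBar (j : ℤ) (C : Cat E L) (C' : Cat G L) (C₀ : Cat R L) (I : R →+ E) (U : E →+ R)
    (I' : R →+ G) (U' : G →+ R) (J : E →+ G) (π : G →+ E) (κ η : G)
    (Y : ℤ → L → L → AddSubgroup G) : Prop where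
  aug : Aug j C C₀ I U
  aug' : Aug j C' C₀ I' U'
  hπ : IsHomF C' C π id
  J_one : J 1 = 1
  J_mul : ∀ a b, J (a * b) = J a * J b
  π_mul : ∀ a b, π (a * b) = π a * π b
  JI : ∀ r, J (I r) = I' r
  σJ : ∀ e, C'.σ (J e) = J (C.σ e)
  dJ : ∀ e, C'.d (J e) = J (C.d e)
  ση : C'.σ η = -η
  dη : C'.d η = κ - 1
  comm : ∀ r, η * I' r = I' r * η
  πJ : ∀ e, π (J e) = e
  πκ : π κ = 1
  πη : π η = 0
  y1 : ∀ {k o o' e}, e ∈ C.H k o o' → J (e - I (U e)) * κ ∈ Y k o o'
  y2 : ∀ {k k' o o' o'' e y}, e ∈ C.H k o o' → y ∈ Y k' o' o'' →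
    J (e - I (U e)) * η * y ∈ Y (k - 1 + k') o o''
  y3 : ∀ {k o o' y}, y ∈ Y k o o' → y ∈ C'.H k o o' ∧ U' y = 0

theorem lT_mul36 {E' : Type} [Ring E'] {B : Type} [CommRing B] {φ : E →+ E'}
    (h : ∀ a b, φ (a * b) = φ a * φ b) (x y : B ⊗[ℤ] E) :
    lT B φ (x * y) = lT B φ x * lT B φ y := by
  induction x using TensorProduct.induction_on with
  | zero => simp
  | add a b ha hb => rw [add_mul, map_add, map_add, ha, hb, add_mul]
  | tmul b e =>
    induction y using TensorProduct.induction_on with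
    | zero => simp
    | add a b ha hb => rw [mul_add, map_add, map_add, ha, hb, mul_add]
    | tmul b' e' => simp only [Algebra.TensorProduct.tmul_mul_tmul, lT_tmul, h]

theorem lin_apply36 {ι κ : Type} (g : (ι →₀ E) →ₗ[E] (κ →₀ E)) (v : ι →₀ E) (l : κ) :
    g v l = v.sum fun i a => a * g (single i 1) l := by
  induction v using Finsupp.induction_linear with
  | zero => simp
  | add a b ha hb =>
    rw [map_add, Finsupp.add_apply, ha, hb, sum_add_index' (by simp) fun _ _ _ => add_mul _ _ _]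
  | single i a =>
    rw [sum_single_index (zero_mul _), ← smul_eq_mul, ← Finsupp.smul_apply, ← map_smul, smul_single,
      smul_eq_mul, mul_one]

/-- the family of all homogeneous elements -/
def Cat.all36 (C : Cat E L) : Cat E L := ⟨C.σ, C.d, fun k _ _ =>
  { carrier := {a | C.σ a = k.negOnePow • a}
    add_mem' := fun {a b} ha hb => by
      rw [Set.mem_ofPred_eq] at *
      rw [map_add, ha, hb, smul_add]
    zero_mem' := by simp
    neg_mem' := fun {a} ha => by
      rw [Set.mem_ofPred_eq] at *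
      rw [map_neg, ha, smul_neg] }⟩

theorem Cat.all36_good {C : Cat E L} (h : IsDG C.σ C.d) : C.all36.Good where
  dg := h
  one_mem _ := by
    change C.σ 1 = _
    simp [h.σ_one]
  mul_mem {k k' _ _ _ a b} ha hb := by
    change C.σ _ = _ at *
    rw [h.σ_mul, ha, hb, Int.negOnePow_add, smul_mul_smul_comm]
  d_mem {k _ _ a} ha := by
    change C.σ _ = _ at *
    have := h.dσ a
    rw [ha, Units.smul_def, map_zsmul] at this
    change C.σ (C.d a) = _ • C.d a
    rw [Int.negOnePow_succ, Units.neg_smul, Units.smul_def, this, neg_neg]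
  σ_eq ha := ha

namespace CBar

variable {j : ℤ} {C : Cat E L} {C' : Cat G L} {C₀ : Cat R L} {I : R →+ E} {U : E →+ R}
  {I' : R →+ G} {U' : G →+ R} {J : E →+ G} {π : G →+ E} {κ η : G}
  {Y : ℤ → L → L → AddSubgroup G} (h : CBar j C C' C₀ I U I' U' J π κ η Y)
include h

theorem bc (B : Type) [CommRing B] : CBar j (C.bc B) (C'.bc B) (C₀.bc B) (lT B I) (lT B U)
    (lT B I') (lT B U') (lT B J) (lT B π) (1 ⊗ₜ κ) (1 ⊗ₜ η) fun k o o' => bcF B (Y k o o') where
  aug := h.aug.bc B
  aug' := h.aug'.bc B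
  hπ := h.hπ.bc B
  J_one := by rw [Algebra.TensorProduct.one_def, lT_tmul, h.J_one, Algebra.TensorProduct.one_def]
  J_mul := lT_mul36 h.J_mul
  π_mul := lT_mul36 h.π_mul
  JI r := by
    induction r using TensorProduct.induction_on with
    | zero => simp
    | add a b ha hb => simp only [map_add, ha, hb]
    | tmul b e => simp only [lT_tmul, h.JI]
  σJ r := by
    induction r using TensorProduct.induction_on with
    | zero => simp
    | add a b ha hb => simp only [map_add, ha, hb]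
    | tmul b e => simp only [Cat.bc, lT_tmul, h.σJ]
  dJ r := by
    induction r using TensorProduct.induction_on with
    | zero => simp
    | add a b ha hb => simp only [map_add, ha, hb]
    | tmul b e => simp only [Cat.bc, lT_tmul, h.dJ]
  ση := by simp only [Cat.bc, lT_tmul, h.ση, tmul_neg]
  dη := by simp only [Cat.bc, lT_tmul, h.dη, tmul_sub, Algebra.TensorProduct.one_def]
  comm r := by
    induction r using TensorProduct.induction_on with
    | zero => simp
    | add a b ha hb => simp only [map_add, mul_add, add_mul, ha, hb]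
    | tmul b e => simp only [lT_tmul, Algebra.TensorProduct.tmul_mul_tmul, h.comm, mul_comm]
  πJ r := by
    induction r using TensorProduct.induction_on with
    | zero => simp
    | add a b ha hb => simp only [map_add, ha, hb]
    | tmul b e => simp only [lT_tmul, h.πJ]
  πκ := by rw [lT_tmul, h.πκ, Algebra.TensorProduct.one_def]
  πη := by rw [lT_tmul, h.πη, tmul_zero]
  y1 {k o o' e} he := by
    refine bcF_induction (p := fun e => lT B J (e - lT B I (lT B U e)) * 1 ⊗ₜ κ ∈ bcF B (Y k o o'))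
      he (fun b e he => ?_) (by simp) fun x y _ _ hx hy => ?_
    · simp only [lT_tmul, ← tmul_sub, Algebra.TensorProduct.tmul_mul_tmul]
      exact tmul_mem_bcF _ (h.y1 he)
    · rw [map_add, map_add, add_sub_add_comm, map_add, add_mul]
      exact add_mem hx hy
  y2 {k k' o o' o'' e y} he hy := by
    refine bcF_induction (p := fun e => lT B J (e - lT B I (lT B U e)) * 1 ⊗ₜ η * y ∈
      bcF B (Y (k - 1 + k') o o'')) he (fun b e he => ?_) (by simp) fun x y _ _ hx hy => ?_
    · refine bcF_induction (p := fun y => lT B J (b ⊗ₜ e - lT B I (lT B U (b ⊗ₜ e))) * 1 ⊗ₜ η * y ∈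
        bcF B (Y (k - 1 + k') o o'')) hy (fun b' y hy => ?_) (by simp) fun x y _ _ hx hy => ?_
      · simp only [lT_tmul, ← tmul_sub, Algebra.TensorProduct.tmul_mul_tmul]
        exact tmul_mem_bcF _ (h.y2 he hy)
      · rw [mul_add]
        exact add_mem hx hy
    · rw [map_add, map_add, add_sub_add_comm, map_add, add_mul, add_mul]
      exact add_mem hx hy
  y3 {k o o' y} hy := by
    refine bcF_induction (p := fun y => y ∈ (C'.bc B).H k o o' ∧ lT B U' y = 0)
      hy (fun b e he => ?_) (by simp) fun x y _ _ hx hy => ?_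
    · exact ⟨tmul_mem_bcF _ (h.y3 he).1, by rw [lT_tmul, (h.y3 he).2, tmul_zero]⟩
    · exact ⟨add_mem hx.1 hy.1, by rw [map_add, hx.2, hy.2, add_zero]⟩

/-- the lift of a one-sided object -/
theorem hat {W : Raw E L} (hW : C.Obj W) (hw : W.WF) : ∃ δ : (W.ι →₀ G) →ₗ[G] (W.ι →₀ G),
    C'.Obj ⟨W.ι, W.deg, W.lab, δ⟩ ∧ Raw.WF ⟨W.ι, W.deg, W.lab, δ⟩ ∧ mapL π δ = W.δ ∧
      mapL U' δ = mapL U W.δ := by
  have hA : C'.all36.Good := Cat.all36_good h.aug'.good.dg
  have fJ : IsHomF C C'.all36 J id :=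
    ⟨fun {k _ _ a} ha => by
      change C'.σ _ = _
      rw [h.σJ, h.aug.good.σ_eq ha, Units.smul_def, map_zsmul, Units.smul_def],
      h.J_one, fun _ _ => h.J_mul _ _, fun _ => (h.dJ _).symm⟩
  have o1 : C'.all36.Obj (W.mapA J id) := (fJ.isFn h.aug.good hA).obj hW
  have oU : C₀.Obj (W.mapA U id) := (h.aug.hU.isFn h.aug.good h.aug.good₀).obj hW
  have o0 : C'.all36.Obj (((W.mapA U id).mapA I id).mapA J id) :=
    (fJ.isFn h.aug.good hA).obj ((h.aug.hI.isFn h.aug.good₀ h.aug.good).obj oU)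
  obtain ⟨r, hr⟩ : ∃ r, r = mapL J (mapL I (mapL U W.δ)) := ⟨_, rfl⟩
  obtain ⟨a, ha⟩ : ∃ a, a = mapL J W.δ - r := ⟨_, rfl⟩
  have er : ∀ i l, r (single i 1) l = I' (U (W.δ (single i 1) l)) := fun i l => by
    rw [hr, mapL_single, mapL_single, mapL_single, h.JI]
  have ea : ∀ i l, a (single i 1) l = J (W.δ (single i 1) l - I (U (W.δ (single i 1) l))) :=
    fun i l => by rw [ha, LinearMap.sub_apply, Finsupp.sub_apply, er, mapL_single, map_sub, h.JI]
  let W₀ : Raw G L := ⟨W.ι, W.deg, W.lab, r⟩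
  have o0' : C'.all36.Obj W₀ := by rw [show W₀ = _ from congrArg (Raw.mk W.ι W.deg W.lab) hr]; exact o0
  obtain ⟨s, hs⟩ : ∃ s : (W.ι →₀ G) →ₗ[G] (W.ι →₀ G),
      ∀ i, s (single i 1) = single i ((W.deg i).negOnePow • η) :=
    ⟨lc fun i => single i ((W.deg i).negOnePow • η), fun i => by simp⟩
  have es : ∀ v l, s v l = (W.deg l).negOnePow • (v l * η) := fun v l => by
    classical
    rw [lin_apply36, Finsupp.sum, Finset.sum_eq_single l (fun i _ hi => by simp [hs, hi.symm])
      fun hl => by simp [notMem_support_iff.1 hl]]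
    rw [hs, single_eq_same, Units.smul_def, Units.smul_def, mul_smul_comm]
  have hs1 : C'.all36.Hom (-1) W₀ W₀ s := fun i => by
    rw [hs]
    refine Cat.single_mem_M ?_
    change C'.σ _ = _
    rw [Units.smul_def, map_zsmul, h.ση, show W₀.deg i + -1 - W₀.deg i = -1 by ring]
    simp [Units.smul_def]
  have hbr : C'.all36.Br (-1) W₀ W₀ s (scal W.ι κ - LinearMap.id) := by
    refine hA.br_of_basis hs1 fun i => ?_
    ext l
    rw [hs, Cat.D_apply, Raw.tw_single, Finsupp.add_apply, Finsupp.add_apply, Finsupp.smul_apply]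
    change r _ l + _ = _ • s (r _) l + _
    have e1 : (W₀.deg i).negOnePow • C'.all36.d ((W.deg i).negOnePow • η) = κ - 1 := by
      change (W.deg i).negOnePow • C'.d _ = _
      rw [Units.smul_def (W.deg i).negOnePow η, map_zsmul, h.dη, ← Units.smul_def, smul_smul,
        Int.units_mul_self, one_smul]
    rw [e1, es, ← mul_one ((W.deg i).negOnePow • η), ← smul_eq_mul, ← smul_single, map_smul,
      Finsupp.smul_apply, er, smul_eq_mul, smul_mul_assoc, h.comm, LinearMap.sub_apply,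
      scal_single, one_mul, LinearMap.id_apply, ← single_sub]
    congr 1
    by_cases hd : W.deg l = W.deg i + 1
    · rw [hd, smul_smul, ← Int.negOnePow_add, show -1 + (W.deg i + 1) = W.deg i by ring]
    · have := h.aug.zero₀ (k := W.deg i + 1 - W.deg l) (fun e => hd (by omega))
        (h.aug.hU.mem (hW.1 i l))
      simp [this]
  have hn : ∀ i l, (s ∘ₗ a) (single i 1) l ≠ 0 → W.δ (single i 1) l ≠ 0 := fun i l e e' =>
    e (by simp [es, ea, e'])
  obtain ⟨u, -, hu1, hu2⟩ := (tcat_good G L).exists_inv (V := ⟨W.ι, fun _ => 0, W.lab, 0⟩)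
    (n := s ∘ₗ a) (bcat_hom.2 fun _ _ => ⟨trivial, fun _ => by simp⟩) (ln_of_wf hw hn)
  obtain ⟨b, hb⟩ : ∃ b : (W.ι →₀ G) →ₗ[G] (W.ι →₀ G), b = scal W.ι κ ∘ₗ a ∘ₗ u := ⟨_, rfl⟩
  have eb : ∀ v, b (v - s (a v)) = scal W.ι κ (a v) := fun v => by
    rw [hb]
    exact congrArg (fun x => scal W.ι κ (a x)) (LinearMap.congr_fun hu1 v)
  have eb' : ∀ i l, b (single i 1) l = a (single i 1) l * κ +
      (s (a (single i 1))).sum fun m x => x * b (single m 1) l := fun i l => by
    rw [← lin_apply36, ← scal_apply, ← eb, map_sub, Finsupp.sub_apply, sub_add_cancel]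
  have mb : ∀ i l, b (single i 1) l ∈ Y (W.deg i + 1 - W.deg l) (W.lab i) (W.lab l) ∧
      (b (single i 1) l ≠ 0 → Relation.TransGen (fun i' i => W.δ (single i 1) i' ≠ 0) l i) := by
    intro i
    induction i using hw.induction with
    | _ i ih =>
    intro l
    rw [eb']
    refine ⟨add_mem (by rw [ea]; exact h.y1 (hW.1 i l)) (sum_mem fun m hm => ?_), fun e => ?_⟩
    · have := h.y2 (hW.1 i m) (ih m (hn i m (mem_support_iff.1 hm)) l).1
      rw [show W.deg i + 1 - W.deg m - 1 + (W.deg m + 1 - W.deg l) = W.deg i + 1 - W.deg l by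
        ring] at this
      change s _ m * _ ∈ _
      rw [es, ea, smul_mul_assoc, Units.smul_def]
      exact zsmul_mem this _
    · by_contra e'
      refine e ?_
      have e0 : W.δ (single i 1) l = 0 := by_contra fun e0 => e' (.single e0)
      rw [ea, e0, Finsupp.sum, Finset.sum_eq_zero fun m hm => ?_]
      · simp
      · have hm' := hn i m (mem_support_iff.1 hm)
        rw [by_contra fun e1 => e' (((ih m hm' l).2 e1).tail hm'), mul_zero]
  refine ⟨r + b, ⟨fun i l => ?_, fun v => ?_⟩, ?_, lin_ext fun i l => ?_, lin_ext fun i l => ?_⟩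
  · refine add_mem ?_ (h.y3 (mb i l).1).1
    rw [er]
    exact h.aug'.hI.mem (h.aug.hU.mem (hW.1 i l))
  · let D₀ : (W.ι →₀ G) →+ (W.ι →₀ G) := C'.all36.D W₀
    have d1 : ∀ x : W.ι →₀ G, C'.D ⟨W.ι, W.deg, W.lab, r + b⟩ x = D₀ x + b x := fun x => by
      simp only [D₀, Cat.D_apply]
      change r x + b x + _ = r x + _ + b x
      rw [add_right_comm]
      rfl
    have d2 : ∀ x : W.ι →₀ G, C'.all36.D (W.mapA J id) x = D₀ x + a x := fun x => by
      simp only [D₀, Cat.D_apply]
      change mapL J W.δ x + _ = r x + _ + a x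
      rw [ha, LinearMap.sub_apply, add_right_comm, add_sub_cancel]
      rfl
    have d3 : ∀ x, D₀ (s x) = -s (D₀ x) + (scal W.ι κ x - x) := fun x => by
      simpa using hbr x
    have d4 : ∀ x, D₀ (a x) = -(a (D₀ x) + a (a x)) := fun x => by
      have := o1.2 x
      rw [d2, d2, map_add, map_add, o0'.2, zero_add] at this
      exact eq_neg_of_add_eq_zero_left this
    have d5 : ∀ x : W.ι →₀ G, C'.D ⟨W.ι, W.deg, W.lab, r + b⟩ (x - s (a x)) =
        (D₀ x + a x) - s (a (D₀ x + a x)) := fun x => by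
      rw [d1, eb, map_sub, d3, d4, map_neg, map_add a, map_add s]
      abel
    obtain ⟨x, rfl⟩ : ∃ x, v = x - s (a x) := ⟨u v, (LinearMap.congr_fun hu2 v).symm⟩
    rw [d5, d5, ← d2, ← d2, o1.2]
    simp
  · refine Subrelation.wf (fun {l i} e => ?_) hw.transGen
    by_contra e'
    have e0 : W.δ (single i 1) l = 0 := by_contra fun e0 => e' (.single e0)
    refine e ?_
    change r _ l + b _ l = 0
    rw [er, e0, by_contra fun e1 => e' ((mb i l).2 e1)]
    simp
  · rw [mapL_single, LinearMap.add_apply, Finsupp.add_apply, map_add, er, eb', map_add, h.π_mul,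
      h.πκ, mul_one, ea, h.πJ, ← h.JI, h.πJ, Finsupp.sum, map_sum, Finset.sum_eq_zero fun m _ => ?_]
    · simp
    · rw [es, smul_mul_assoc, Units.smul_def, map_zsmul, h.π_mul, h.π_mul, h.πη]
      simp
  · rw [mapL_single, mapL_single, LinearMap.add_apply, Finsupp.add_apply, map_add,
      (h.y3 (mb i l).1).2, er, h.aug'.UI, add_zero]

theorem inO (hj : 1 ≤ j) (hP : C'.P) {W : Raw E L} (hW : C.Obj W) (hw : W.WF) (hb : W.Bdd)
    (e : C₀.InO (W.mapA U id)) : C.InO W := by
  obtain ⟨δ, h1, h2, h3, h4⟩ := h.hat hW hw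
  have h5 := h.aug'.inO_of_P hj hP h1 hb (.inr h2) (by
    change C₀.InO ⟨W.ι, W.deg, W.lab, mapL U' δ⟩
    rw [h4]
    exact e)
  have h6 := h.hπ.inO h.aug'.good h.aug.good h1 h5
  change C.InO ⟨W.ι, W.deg, W.lab, mapL π δ⟩ at h6
  rwa [h3] at h6

theorem P (hj : 1 ≤ j) (B : Type) [CommRing B] (hP : (C'.bc B).P) : (C.bc B).P := by
  intro M hM hf hp
  have hB := h.bc B
  obtain ⟨V, hV, hV1, -, e⟩ := h.aug.good.ret hM hp
  have hW := (h.aug.good.flat_isFn B).obj hV
  refine hB.aug.good.inO_of_eqv e.symm (hB.inO hj hP hW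
    (bm_wf (h.aug.good.flat_isBM B).act_zero ?_ hV1.2) (flat_bdd (Raw.bdd_of_finite hV1.1)) ?_)
  · exact ⟨fun k => ⟨k, fun k' e => (e rfl).elim⟩⟩
  · have F := hB.aug.hU.isFn hB.aug.good hB.aug.good₀
    exact hB.aug.good₀.inO_of_eqv (F.eqv hW hM e) (hB.aug.good₀.inO_of_fin1 (F.obj hM)
      (hB.aug.good₀.fin1_of_zero (fun _ _ _ _ => hB.aug.zero₀) (F.obj hM) hf))

end CBar

end Pool.Agent.Lib.NIL
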