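import Mathlib

/-! Shapes of cobar-bar words: lists of `κ = true` and `η = false`. -/

namespace Pool.Agent.Lib.NIL.Shape

/-- the number of initial `η` -/
def run : List Bool → ℕ
  | false :: s => run s + 1
  | _ => 0

/-- the maximal length of a block `η ⋯ η κ` -/
def lev : List Bool → ℕ
  | [] => 0
  | b :: s => max (run (b :: s) + 1) (lev s)

/-- empty or ending with `κ` -/
def En : List Bool → Prop
  | [] => True
  | b :: s => (s = [] → b = true) ∧ En s

def blk : ℕ → List Bool
  | 0 => [true]
  | k + 1 => false :: blk k

/-- short blocks followed by one block of length `k + 1` -/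
def isN (k : ℕ) : List Bool → Prop
  | [] => False
  | b :: s => (k ≤ run (b :: s) → b :: s = blk k) ∧ (run (b :: s) < k → isN k s)

/-- the end of the first long block -/
def cut (k : ℕ) : List Bool → ℕ
  | [] => 0
  | b :: s => if k ≤ run (b :: s) then k + 1 else cut k s + 1

/-- the shapes that occur in the differential -/
inductive Dsh : List Bool → List Bool → Prop
  | refl (s : List Bool) : Dsh s s
  | cons (b : Bool) {s s' : List Bool} : Dsh s s' → Dsh (b :: s) (b :: s')
  | flip (s : List Bool) : Dsh (false :: s) (true :: s)
  | del (b : Bool) (s : List Bool) : Dsh (false :: b :: s) (b :: s)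

variable {s s' : List Bool} {k : ℕ}

theorem En.append (h : En s) (h' : En s') : En (s ++ s') := by
  induction s with
  | nil => exact h'
  | cons b s ih => exact ⟨fun e => h.1 (List.append_eq_nil_iff.1 e).1, ih h.2⟩

theorem En.drop (h : En s) (n : ℕ) : En (s.drop n) := by
  induction s generalizing n with
  | nil => simpa using h
  | cons b s ih =>
    cases n with
    | zero => exact h
    | succ n => exact ih h.2 n

theorem en_snoc (s : List Bool) : En (s ++ [true]) := by
  induction s with
  | nil => exact ⟨fun _ => rfl, trivial⟩
  | cons b s ih => exact ⟨fun e => by simp at e, ih⟩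

theorem run_append (h : En s) (h0 : s ≠ []) (s' : List Bool) : run (s ++ s') = run s := by
  induction s with
  | nil => exact (h0 rfl).elim
  | cons b s ih =>
    cases b with
    | true => rfl
    | false => exact congrArg (· + 1) (ih h.2 fun e => by simpa using h.1 e)

theorem lev_append (h : En s) (s' : List Bool) : lev (s ++ s') = max (lev s) (lev s') := by
  induction s with
  | nil => simp [lev]
  | cons b s ih =>
    rw [List.cons_append, lev, lev, ih h.2, ← List.cons_append, run_append h (by simp), max_assoc]

theorem run_lt_lev (h0 : s ≠ []) : run s + 1 ≤ lev s := by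
  cases s with
  | nil => exact (h0 rfl).elim
  | cons b s => exact le_max_left _ _

theorem lev_drop (s : List Bool) (n : ℕ) : lev (s.drop n) ≤ lev s := by
  induction s generalizing n with
  | nil => simp
  | cons b s ih =>
    cases n with
    | zero => rfl
    | succ n => exact (ih n).trans (le_max_right _ _)

theorem blk_ne (k : ℕ) : blk k ≠ [] := by cases k <;> simp [blk]

theorem run_blk (k : ℕ) : run (blk k) = k := by
  induction k with
  | zero => rfl
  | succ k ih => exact congrArg (· + 1) ih

theorem en_blk (k : ℕ) : En (blk k) := by
  induction k with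
  | zero => exact ⟨fun _ => rfl, trivial⟩
  | succ k ih => exact ⟨fun e => (blk_ne k e).elim, ih⟩

theorem lev_blk (k : ℕ) : lev (blk k) = k + 1 := by
  induction k with
  | zero => rfl
  | succ k ih => rw [blk, lev, ih, run, run_blk]; omega

theorem length_blk (k : ℕ) : (blk k).length = k + 1 := by
  induction k with
  | zero => rfl
  | succ k ih => rw [blk, List.length_cons, ih]

theorem take_blk (h : En s) (h0 : s ≠ []) : s.take (run s + 1) = blk (run s) := by
  induction s with
  | nil => exact (h0 rfl).elim
  | cons b s ih =>
    cases b with
    | true => simp [run, blk]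
    | false => rw [run, List.take_succ_cons, ih h.2 fun e => by simpa using h.1 e, blk]

theorem isN.props (h : isN k s) : En s ∧ s ≠ [] ∧ lev s = k + 1 := by
  induction s with
  | nil => exact h.elim
  | cons b s ih =>
    rcases le_or_gt k (run (b :: s)) with e | e
    · rw [h.1 e]
      exact ⟨en_blk k, blk_ne k, lev_blk k⟩
    · obtain ⟨h1, h2, h3⟩ := ih (h.2 e)
      refine ⟨⟨fun e => (h2 e).elim, h1⟩, by simp, ?_⟩
      rw [lev, h3]
      omega

theorem isN.cut_append (h : isN k s) (s' : List Bool) : cut k (s ++ s') = s.length := by
  induction s with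
  | nil => exact h.elim
  | cons b s ih =>
    rw [List.cons_append, cut, ← List.cons_append, run_append h.props.1 (by simp)]
    split_ifs with e
    · rw [h.1 e, length_blk]
    · rw [ih (h.2 (not_le.1 e)), List.length_cons]

theorem isN_blk (k : ℕ) : isN k (blk k) := by
  have := run_blk k
  cases k with
  | zero => exact ⟨fun _ => rfl, fun e => by simp at e⟩
  | succ k => exact ⟨fun _ => rfl, fun e => (e.ne this).elim⟩

theorem isN_take (h : En s) (h1 : lev s ≤ k + 1) (h2 : ¬ lev s ≤ k) :
    isN k (s.take (cut k s)) := by
  induction s with
  | nil => exact (h2 (Nat.zero_le _)).elim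
  | cons b s ih =>
    rw [lev] at h1 h2
    rw [cut]
    split_ifs with e
    · have e' : run (b :: s) = k := by omega
      have := take_blk h (by simp)
      rw [e'] at this
      rw [this]
      exact isN_blk k
    · have h3 := ih h.2 (by omega) (by omega)
      have h4 : run (b :: s.take (cut k s)) = run (b :: s) := by
        rw [← run_append (s := b :: s.take (cut k s))
          ⟨fun e => (h3.props.2.1 e).elim, h3.props.1⟩ (by simp) (s.drop (cut k s))]
        simp
      rw [List.take_succ_cons]
      exact ⟨fun e' => (e (h4 ▸ e')).elim, fun _ => h3⟩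

theorem isN.append (h : En s) (h1 : lev s ≤ k) (h2 : isN k s') : isN k (s ++ s') := by
  induction s with
  | nil => exact h2
  | cons b s ih =>
    rw [lev] at h1
    have e := run_append h (by simp) s'
    exact ⟨fun e' => by have := e'.trans_eq e; omega, fun _ => ih h.2 (by omega)⟩

theorem Dsh.nil_iff (h : Dsh s s') : s = [] ↔ s' = [] := by cases h <;> simp

theorem Dsh.en (h : Dsh s s') (e : En s) : En s' := by
  induction h with
  | refl s => exact e
  | cons b h ih => exact ⟨fun e' => e.1 (h.nil_iff.2 e'), ih e.2⟩
  | flip s => exact ⟨fun _ => rfl, e.2⟩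
  | del b s => exact e.2

theorem Dsh.run_le (h : Dsh s s') : run s' ≤ run s := by
  induction h with
  | refl s => rfl
  | cons b h ih =>
    cases b with
    | true => rfl
    | false => exact Nat.succ_le_succ ih
  | flip s => exact Nat.zero_le _
  | del b s => exact Nat.le_succ _

theorem Dsh.lev_le (h : Dsh s s') : lev s' ≤ lev s := by
  induction h with
  | refl s => rfl
  | cons b h ih => exact max_le_max (Nat.succ_le_succ (h.cons b).run_le) ih
  | flip s => exact max_le_max (Nat.succ_le_succ (Nat.zero_le _)) le_rfl
  | del b s => exact le_max_right _ _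

theorem Dsh.of_blk (h : Dsh (blk k) s) : s = blk k ∨ lev s ≤ k := by
  induction k generalizing s with
  | zero =>
    cases h with
    | refl s => exact .inl rfl
    | cons b h => exact .inl (by rw [h.nil_iff.1 rfl]; rfl)
  | succ k ih =>
    rw [blk] at h
    generalize e : blk k = t at h
    cases h with
    | refl s => exact .inl (by rw [blk, e])
    | cons b h =>
      subst e
      rcases ih h with e | e
      · exact .inl (by rw [e, blk])
      · have := run_lt_lev fun e => blk_ne k (h.nil_iff.2 e)
        refine .inr ?_
        rw [lev, run]
        omega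
    | flip s =>
      refine .inr ?_
      rw [lev, ← e, lev_blk, run]
      · omega
      · simp
    | del b s => exact .inr (by rw [← e, lev_blk])

theorem Dsh.isN (h : Dsh s s') (e : isN k s) : isN k s' ∨ lev s' ≤ k := by
  induction s generalizing s' with
  | nil => exact e.elim
  | cons b s ih =>
    rcases le_or_gt k (run (b :: s)) with e1 | e1
    · rw [e.1 e1] at h
      exact h.of_blk.imp_left fun e' => by rw [e']; exact isN_blk k
    · have e2 := h.run_le
      cases h with
      | refl s => exact .inl e
      | cons b h =>
        refine (ih h (e.2 e1)).imp (fun e3 => ⟨fun e4 => by omega, fun _ => e3⟩) fun e3 => ?_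
        rw [lev]
        omega
      | flip s => exact .inl ⟨fun e4 => by rw [run] at e1; simp [run] at e4; omega, fun _ => e.2 e1⟩
      | del b s => exact .inl (e.2 e1)

end Pool.Agent.Lib.NIL.Shape
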