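import Pool.Agent.Lib.NIL.A7
import Pool.Agent.Lib.NIL.Gam
import Pool.Agent.Lib.NIL.TowerA
import Pool.Agent.Lib.NIL.TowerB

/-! The cobar-bar resolution of a system of letters as a tower of cell attachments. -/

noncomputable section

namespace Pool.Agent.Lib.NIL

open Finsupp Shape Gam

namespace Tow

variable {R E Λ O : Type} [Ring R] [Ring E]

def toL : Λ → List (Bool × Λ) → List (Λ × Bool) × Λ
  | l, [] => ([], l)
  | l, p :: t => ((l, p.1) :: (toL p.2 t).1, (toL p.2 t).2)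

def frL : List (Λ × Bool) → Λ → Λ × List (Bool × Λ)
  | [], m => (m, [])
  | p :: w, m => (p.1, (p.2, (frL w m).1) :: (frL w m).2)

def rot : Λ × List (Bool × Λ) ≃ List (Λ × Bool) × Λ where
  toFun p := toL p.1 p.2
  invFun p := frL p.1 p.2
  left_inv := fun ⟨l, t⟩ => by
    induction t generalizing l with
    | nil => rfl
    | cons p t ih =>
      have := ih p.2
      simp only [toL, frL] at this ⊢
      rw [this]
  right_inv := fun ⟨w, m⟩ => by
    induction w with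
    | nil => rfl
    | cons p w ih =>
      simp only [toL, frL] at ih ⊢
      rw [ih]

variable (S : Sys R E Λ O) (Rf : O → O → AddSubgroup R)

/-- the product `ε l₁ x b₁ ⋯ ε lₙ x bₙ` -/
def wd : List (Λ × Bool) → Gam S.i Bool
  | [] => 1
  | p :: w => J S.i (S.ε p.1) * x S.i p.2 * wd w

def dg : List (Λ × Bool) → ℤ
  | [] => 0
  | p :: w => S.deg p.1 - (bif p.2 then 0 else 1) + dg w

def rk : List (Λ × Bool) → ℕ
  | [] => 0
  | p :: w => S.ρ p.1 + (bif p.2 then 0 else 1) + rk w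

def Pth : O → List (Λ × Bool) → O → Prop
  | o, [], o' => o = o'
  | o, p :: w, o' => S.ok p.1 ∧ S.s p.1 = o ∧ Pth (S.t p.1) w o'

def hd : List (Λ × Bool) → O
  | [] => S.s S.u
  | p :: _ => S.s p.1

def tgt : List (Λ × Bool) → O → O
  | [], o => o
  | p :: w, _ => tgt w (S.t p.1)

abbrev sh (w : List (Λ × Bool)) : List Bool := w.map Prod.snd

/-- the span of the paths in `P` -/
def Y (P : List (Λ × Bool) → Prop) (o o' : O) : AddSubgroup (Gam S.i Bool) :=
  AddSubgroup.closure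
    {g | ∃ r o₁ w, r ∈ Rf o o₁ ∧ Pth S o₁ w o' ∧ P w ∧ g = J S.i (S.i r) * wd S w}

variable (sg dd : Gam S.i Bool →+ Gam S.i Bool) (cc : Gam S.i Bool ≃+ (List (Λ × Bool) × Λ →₀ R))

/-- the cobar-bar system -/
def tow : Sys R (Gam S.i Bool) (List (Λ × Bool) × Λ) O where
  σ := sg
  d := dd
  i := (J S.i).comp S.i
  c := cc
  u := ([], S.u)
  ok l := l.2 = S.u ∧ l.1 ≠ [] ∧ En (sh l.1) ∧ Pth S (hd S l.1) l.1 (tgt S l.1 (S.s S.u))
  s l := hd S l.1
  t l := tgt S l.1 (S.s S.u)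
  deg l := dg S l.1
  ρ l := rk S l.1

structure TD : Prop where
  dg : IsDG sg dd
  sgJ : ∀ e, sg (J S.i e) = J S.i (S.σ e)
  ddJ : ∀ e, dd (J S.i e) = J S.i (S.d e)
  sg1 : sg (x S.i true) = x S.i true
  sg0 : sg (x S.i false) = -x S.i false
  dd1 : dd (x S.i true) = 0
  dd0 : dd (x S.i false) = x S.i true - 1
  mul : ∀ r g, cc (J S.i (S.i r) * g) = r • cc g
  symm : ∀ w m, cc.symm (single (w, m) 1) = wd S w * J S.i (S.ε m)

variable {S Rf sg dd cc} {j : ℤ} {o o' o₁ o'' : O} {w w' : List (Λ × Bool)}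
  {P P' : List (Λ × Bool) → Prop}

theorem wd_append (w w' : List (Λ × Bool)) : wd S (w ++ w') = wd S w * wd S w' := by
  induction w with
  | nil => simp [wd]
  | cons p w ih => simp [wd, ih, mul_assoc]

theorem dg_append (w w' : List (Λ × Bool)) : dg S (w ++ w') = dg S w + dg S w' := by
  induction w with
  | nil => simp [dg]
  | cons p w ih => simp [dg, ih, add_assoc]

theorem rk_append (w w' : List (Λ × Bool)) : rk S (w ++ w') = rk S w + rk S w' := by
  induction w with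
  | nil => simp [rk]
  | cons p w ih => simp [rk, ih, add_assoc]

theorem pth_append : Pth S o (w ++ w') o' ↔ ∃ o₁, Pth S o w o₁ ∧ Pth S o₁ w' o' := by
  induction w generalizing o with
  | nil => simp [Pth]
  | cons p w ih => simp [Pth, ih, and_assoc]

theorem Pth.tgt (h : Pth S o w o') : tgt S w o = o' := by
  induction w generalizing o with
  | nil => exact h
  | cons p w ih => exact ih h.2.2

theorem word_eq (l : Λ) (t : List (Bool × Λ)) : J S.i (S.ε l) * word S.i S.c t =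
    wd S (toL l t).1 * J S.i (S.ε (toL l t).2) := by
  induction t generalizing l with
  | nil => simp [word, toL, wd]
  | cons p t ih =>
    simp only [word, toL, wd, mul_assoc]
    rw [← ih]
    rfl

theorem exists_TD (h : S.IsSys Rf j) : ∃ sg dd cc, TD S sg dd cc := by
  obtain ⟨sg, dd, h1, hm, hl, hJ, hJ', hx, hx'⟩ := Gam.exists_der h.dg h.σ_i h.d_i
    (fun b : Bool => bif b then x S.i true else -x S.i false)
    (fun b : Bool => bif b then 0 else x S.i true - 1)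
    (fun b r => by cases b <;> simp [x_comm])
    (fun b r => by cases b <;> simp [x_comm, sub_mul, mul_sub])
  have d1 : dd 1 = 0 := by simpa [h1] using hl 1 1
  obtain ⟨c, hc1, hc2⟩ := Gam.exists_basis (X := Bool) h.c_mul
  refine ⟨sg, dd, c.trans (Finsupp.domCongr rot), Gam.isDG_of h.dg h1 hm hl hJ hJ' (fun b => ?_)
    (fun b => ?_) (fun b => ?_), hJ, hJ', hx true, hx false, hx' true, hx' false, fun r g => ?_,
    fun w m => ?_⟩
  · cases b <;> simp [hx]
  · cases b <;> simp [hx, hx', h1]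
  · cases b <;> simp [hx', d1]
  · ext l
    simp [hc1]
  · obtain ⟨⟨l, t⟩, e⟩ := rot.surjective (w, m)
    have e1 := word_eq (S := S) l t
    rw [show toL l t = (w, m) from e] at e1
    rw [← e1, ← e, Sys.ε, ← hc2]
    simp

theorem ok_of (h : Pth S o w o') (he : En (sh w)) (h0 : w ≠ []) :
    (tow S sg dd cc).ok (w, S.u) ∧ (tow S sg dd cc).s (w, S.u) = o ∧
      (tow S sg dd cc).t (w, S.u) = o' := by
  obtain ⟨p, w, rfl⟩ := List.exists_cons_of_ne_nil h0
  have e1 : hd S (p :: w) = o := h.2.1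
  have e2 : tgt S (p :: w) (S.s S.u) = o' := h.tgt
  exact ⟨⟨rfl, h0, he, by rw [e1, e2]; exact h⟩, e1, e2⟩

variable {T T' : List (Λ × Bool) × Λ → Prop}

theorem val_of (h : Pth S o w o') (he : En (sh w)) (hT : T' (w, S.u)) :
    ((tow S sg dd cc).sub T').val (w, S.u) o' ∧ ((tow S sg dd cc).sub T').src (w, S.u) o' = o := by
  by_cases h0 : w = []
  · subst h0
    exact ⟨.inl rfl, Sys.src_u.trans (Eq.symm h)⟩
  · obtain ⟨h1, h2, h3⟩ := ok_of (sg := sg) (dd := dd) (cc := cc) h he h0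
    exact ⟨.inr ⟨⟨h1, hT⟩, h3⟩, (Sys.src_of_ne fun e => h0 (congrArg Prod.fst e)).trans h2⟩

theorem of_val {m : List (Λ × Bool) × Λ} (h : ((tow S sg dd cc).sub T').val m o) :
    m.2 = S.u ∧ En (sh m.1) ∧ Pth S (((tow S sg dd cc).sub T').src m o) m.1 o ∧
      (m.1 = [] ∨ T' m) := by
  rcases h with rfl | ⟨⟨⟨h1, h2, h3, h4⟩, h5⟩, rfl⟩
  · exact ⟨rfl, trivial, Sys.src_u, .inl rfl⟩
  · rw [Sys.src_of_ne fun e => h2 (congrArg Prod.fst e)]
    exact ⟨h1, h3, h4, .inr h5⟩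

variable (h : S.IsSys Rf j) (t : TD S sg dd cc)

section

include h

theorem gen (hp : Pth S o w o') (hP : P w) : wd S w ∈ Y S Rf P o o' :=
  AddSubgroup.subset_closure ⟨1, o, w, h.bas.one_mem o, hp, hP, by simp⟩

theorem i_mem {r : R} (hr : r ∈ Rf o o') : S.i r ∈
    S.Sp Rf (fun l => S.deg l = 0 ∧ S.ρ l ≤ 0 ∧ (False → l ≠ S.u)) o o' := by
  have := h.i_ε_mem (T := fun l => S.deg l = 0 ∧ S.ρ l ≤ 0 ∧ (False → l ≠ S.u)) (o := o)
    (o' := o') (r := r) (.inl rfl) ⟨h.deg_u, h.ρ_u.le, False.elim⟩ (by rwa [Sys.src_u])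
  rwa [h.ε_u, mul_one] at this

theorem ε_mem {l : Λ} (hl : S.ok l) : S.ε l ∈ S.Sp Rf
    (fun m => S.deg m = S.deg l ∧ S.ρ m ≤ S.ρ l ∧ (True → m ≠ S.u)) (S.s l) (S.t l) := by
  have := h.ε_mem (T := fun m => S.deg m = S.deg l ∧ S.ρ m ≤ S.ρ l ∧ (True → m ≠ S.u))
    (.inr ⟨hl, rfl⟩) ⟨rfl, le_rfl, fun _ => h.ne_u l hl⟩
  rwa [Sys.src_of_ne (h.ne_u l hl)] at this

theorem mul0 {T : Λ → Prop} {e : E} (he : e ∈ S.Sp Rf T o o₁) (hu : ¬ T S.u) (b : Bool)
    (hp : Pth S o₁ w o') (hP : ∀ l, T l → P ((l, b) :: w)) :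
    J S.i e * x S.i b * wd S w ∈ Y S Rf P o o' := by
  refine h.Sp_induction (p := fun e => J S.i e * x S.i b * wd S w ∈ Y S Rf P o o') he
    (fun l r hl hT hr => ?_) (by simp) fun a b _ _ ha hb => ?_
  · have hne : l ≠ S.u := fun e => hu (e ▸ hT)
    obtain ⟨h1, rfl⟩ := hl.resolve_left hne
    rw [Sys.src_of_ne hne] at hr
    exact AddSubgroup.subset_closure ⟨r, _, (l, b) :: w, hr, ⟨h1, rfl, hp⟩, hP l hT, by
      simp [wd, mul_assoc]⟩
  · rw [map_add, add_mul, add_mul]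
    exact add_mem ha hb

theorem mul1 {k : ℤ} {n : ℕ} {e : E} {y : Gam S.i Bool}
    (he : e ∈ S.Sp Rf (fun l => S.deg l = k ∧ S.ρ l ≤ n ∧ (True → l ≠ S.u)) o o₁) (b : Bool)
    (hy : y ∈ Y S Rf P o₁ o') (hP : ∀ l w, S.deg l = k → S.ρ l ≤ n → P w → P' ((l, b) :: w)) :
    J S.i e * x S.i b * y ∈ Y S Rf P' o o' := by
  induction hy using AddSubgroup.closure_induction with
  | mem y hy =>
    obtain ⟨r, o₂, w, hr, hp, hw, rfl⟩ := hy
    have := mul0 h (P := P') (h.mul_mem he (i_mem h hr)) (fun e => e.2.2 (.inl trivial) rfl) b hp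
      fun l hl => hP l w (by simpa using hl.1) (by simpa using hl.2.1) hw
    rwa [map_mul, mul_assoc (J S.i e), ← x_comm, ← mul_assoc, mul_assoc _ _ (wd S w)] at this
  | zero => simp
  | add a b _ _ ha hb => rw [mul_add]; exact add_mem ha hb
  | neg a _ ha => rw [mul_neg]; exact neg_mem ha

theorem mulR {r : R} (hp : Pth S o w o') (hr : r ∈ Rf o' o'') : wd S w * J S.i (S.i r) ∈
    Y S Rf (fun w' => sh w' = sh w ∧ dg S w' = dg S w ∧ rk S w' ≤ rk S w) o o'' := by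
  induction w generalizing o with
  | nil =>
    obtain rfl : o = o' := hp
    exact AddSubgroup.subset_closure ⟨r, o'', [], hr, rfl, ⟨rfl, rfl, le_rfl⟩, by simp [wd]⟩
  | cons p w ih =>
    obtain ⟨h1, rfl, h3⟩ := hp
    rw [wd, mul_assoc]
    refine mul1 h (ε_mem h h1) p.2 (ih h3) fun l w' e1 e2 e3 => ⟨?_, ?_, ?_⟩
    · simp [e3.1]
    · simp [dg, e1, e3.2.1]
    · have := e3.2.2
      simp only [rk]
      omega

theorem dg_ge (hj : 1 ≤ j) (hp : Pth S o w o') (he : En (sh w)) (h0 : w ≠ []) : j ≤ dg S w := by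
  induction w generalizing o with
  | nil => exact (h0 rfl).elim
  | cons p w ih =>
    have := h.deg_ge _ hp.1
    by_cases e : w = []
    · simp [dg, e, show p.2 = true from he.1 (by simp [e]), this]
    · have := ih hp.2.2 he.2 e
      rw [dg]
      cases p.2 <;> simp <;> omega

theorem rk_pos (hp : Pth S o w o') (h0 : w ≠ []) : 1 ≤ rk S w := by
  obtain ⟨p, w, rfl⟩ := List.exists_cons_of_ne_nil h0
  have := h.ρ_pos _ hp.1
  rw [rk]
  omega

include t

theorem ε_eq (w : List (Λ × Bool)) : (tow S sg dd cc).ε (w, S.u) = wd S w := by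
  rw [Sys.ε]
  exact (t.symm w S.u).trans (by rw [h.ε_u, map_one, mul_one])

theorem Y_le (hP : ∀ w o₁, Pth S o₁ w o' → P w → En (sh w) ∧ T (w, S.u) ∧ T' (w, S.u)) :
    Y S Rf P o o' ≤ ((tow S sg dd cc).sub T').Sp Rf T o o' := by
  refine (AddSubgroup.closure_le _).2 ?_
  rintro _ ⟨r, o₁, w, hr, hp, hw, rfl⟩ l
  obtain ⟨h1, h2, h3⟩ := hP w o₁ hp hw
  obtain ⟨h4, h5⟩ := val_of (sg := sg) (dd := dd) (cc := cc) hp h1 h3
  have e : ((tow S sg dd cc).sub T').c (J S.i (S.i r) * wd S w) = single (w, S.u) r := by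
    change cc _ = _
    rw [t.mul, ← ε_eq h t, Sys.ε]
    simp [tow]
  rw [e]
  by_cases hl : l = (w, S.u)
  · subst hl
    rw [single_eq_same, h5]
    exact ⟨hr, fun _ => ⟨h4, h2⟩⟩
  · rw [single_eq_of_ne hl]
    exact ⟨zero_mem _, fun e => (e rfl).elim⟩

theorem sg_wd (hp : Pth S o w o') : sg (wd S w) = (dg S w).negOnePow • wd S w := by
  induction w generalizing o with
  | nil => simp [wd, dg, t.dg.σ_one]
  | cons p w ih =>
    rw [wd, t.dg.σ_mul, t.dg.σ_mul, ih hp.2.2, t.sgJ, h.σ_ε _ hp.1, dg, Int.negOnePow_add,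
      Int.negOnePow_sub, Units.smul_def, map_zsmul, ← Units.smul_def]
    cases p.2
    · simp [t.sg0, smul_smul, Units.smul_def, mul_comm, -zsmul_eq_mul]
    · simp [t.sg1, smul_smul, Units.smul_def, mul_comm, -zsmul_eq_mul]

theorem dd_wd (hp : Pth S o w o') (he : En (sh w)) : dd (wd S w) ∈
    Y S Rf (fun w' => Dsh (sh w) (sh w') ∧ dg S w' = dg S w + 1 ∧ rk S w' < rk S w) o o' := by
  induction w generalizing o with
  | nil =>
    have : dd 1 = 0 := by simpa [t.dg.σ_one] using t.dg.leib 1 1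
    simp [wd, this]
  | cons p w ih =>
    obtain ⟨l, b⟩ := p
    obtain ⟨h1, rfl, h3⟩ := hp
    rw [wd, t.dg.leib, sg_wd h t h3, Units.smul_def, mul_smul_comm, t.dg.leib, add_mul, t.ddJ]
    refine add_mem (mul1 h (ε_mem h h1) b (ih h3 he.2) fun l w' e1 e2 e3 => ⟨e3.1.cons b, ?_, ?_⟩)
      (zsmul_mem (add_mem ?_ ?_) _)
    · simp [dg, e1, e3.2.1, add_assoc]
    · have := e3.2.2
      simp only [rk] at e2 ⊢
      omega
    · cases b with
      | true => simp [t.dd1]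
      | false =>
        rw [t.dd0, mul_sub, sub_mul, mul_one]
        refine sub_mem (gen h (w := (l, true) :: w) ⟨h1, rfl, h3⟩ ⟨.flip _, ?_, ?_⟩) ?_
        · simp [dg]
          ring
        · simp [rk]
        · cases w with
          | nil => simpa using he.1
          | cons q w =>
            obtain ⟨h4, h5, h6⟩ := h3
            rw [wd, ← mul_assoc, ← mul_assoc, ← map_mul]
            refine mul0 h (h.mul _ _ h1 h4 h5.symm) (fun e => e.1 rfl) q.2 h6 fun m hm =>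
              ⟨.del _ _, ?_, ?_⟩
            · simp [dg, hm.2.1]
              ring
            · have := hm.2.2
              simp only [rk, cond_false] at this ⊢
              omega
    · have := mul0 h (P := fun w' => Dsh (sh ((l, b) :: w)) (sh w') ∧
        dg S w' = dg S ((l, b) :: w) + 1 ∧ rk S w' < rk S ((l, b) :: w)) (h.d_ε _ h1)
        (fun e => e.1 rfl) b h3 fun m hm => ⟨.refl _, by simp [dg, hm.2.1]; ring, by
          have := hm.2.2
          simp only [rk] at this ⊢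
          omega⟩
      cases b with
      | true => rwa [t.sg1]
      | false =>
        rw [t.sg0, mul_neg, neg_mul]
        exact neg_mem this

theorem isSys (hj : 1 ≤ j) (T : List Bool → Prop) (ha : ∀ s s', En s → T s → T s' → T (s ++ s'))
    (hd : ∀ s s', Dsh s s' → T s → T s') :
    ((tow S sg dd cc).sub fun l => T (sh l.1)).IsSys Rf j where
  bas := h.bas
  dg := t.dg
  σ_i r := (t.sgJ _).trans (congrArg _ (h.σ_i r))
  d_i r := (t.ddJ _).trans (by rw [h.d_i, map_zero])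
  c_mul := t.mul
  c_one := by
    have := Sys.c_ε (S := tow S sg dd cc) ([], S.u)
    rwa [ε_eq h t] at this
  deg_u := rfl
  ρ_u := rfl
  ne_u l hl e := hl.1.2.1 (congrArg Prod.fst e)
  deg_ge l hl := dg_ge h hj hl.1.2.2.2 hl.1.2.2.1 hl.1.2.1
  ρ_pos l hl := rk_pos h hl.1.2.2.2 hl.1.2.1
  σ_ε := by
    rintro ⟨w, _⟩ ⟨⟨rfl, -, -, hp⟩, -⟩
    change sg ((tow S sg dd cc).ε _) = _ • (tow S sg dd cc).ε _
    rw [ε_eq h t]
    exact sg_wd h t hp
  mulR := by
    rintro ⟨w, _⟩ o r ⟨⟨rfl, h0, he, hp⟩, hT⟩ hr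
    change (tow S sg dd cc).ε _ * _ ∈ _
    rw [ε_eq h t]
    refine Y_le h t (fun w' o₁ _ e => ?_) (mulR h hp hr)
    refine ⟨e.1 ▸ he, ⟨fun e' => h0 ?_, e.2⟩, e.1 ▸ hT⟩
    obtain rfl : w' = [] := congrArg Prod.fst e'
    simpa using e.1
  mul := by
    rintro ⟨w, _⟩ ⟨w', _⟩ ⟨⟨rfl, h0, he, hp⟩, hT⟩ ⟨⟨rfl, h0', he', hp'⟩, hT'⟩ e
    change (tow S sg dd cc).ε _ * (tow S sg dd cc).ε _ ∈ _
    rw [ε_eq h t, ε_eq h t, ← wd_append]
    rw [← show tgt S w (S.s S.u) = Tow.hd S w' from e] at hp'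
    refine Y_le h t (P := (· = w ++ w')) ?_ (gen h (pth_append.2 ⟨_, hp, hp'⟩) rfl)
    rintro _ o₁ - rfl
    refine ⟨?_, ⟨fun e' => h0 ?_, dg_append _ _, (rk_append _ _).le⟩, ?_⟩
    · simpa using he.append he'
    · exact (List.append_eq_nil_iff.1 (congrArg Prod.fst e')).1
    · simpa using ha _ _ he hT hT'
  d_ε := by
    rintro ⟨w, _⟩ ⟨⟨rfl, h0, he, hp⟩, hT⟩
    change dd ((tow S sg dd cc).ε _) ∈ _
    rw [ε_eq h t]
    refine Y_le h t (fun w' o₁ _ e => ⟨e.1.en he, ⟨fun e' => h0 ?_, e.2⟩, hd _ _ e.1 hT⟩)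
      (dd_wd h t hp he)
    obtain rfl : w' = [] := congrArg Prod.fst e'
    simpa using e.1.nil_iff.2 rfl

theorem isSys_lev (hj : 1 ≤ j) (k : ℕ) :
    ((tow S sg dd cc).sub fun l => lev (sh l.1) ≤ k).IsSys Rf j :=
  isSys h t hj (lev · ≤ k) (fun s s' e h1 h2 => by rw [lev_append e]; omega)
    fun _ _ e h1 => e.lev_le.trans h1

end

/-- the attachment of the generators of length `k + 1` -/
def cell (S : Sys R E Λ O) (sg dd : Gam S.i Bool →+ Gam S.i Bool)
    (cc : Gam S.i Bool ≃+ (List (Λ × Bool) × Λ →₀ R)) (k : ℕ) : Cell (List (Λ × Bool) × Λ) :=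
  ⟨fun l => lev (sh l.1) ≤ k, fun l => (tow S sg dd cc).ok l ∧ isN k (sh l.1),
    fun l => (l.1.take (cut k (sh l.1)), S.u), fun l => (l.1.drop (cut k (sh l.1)), S.u),
    fun l m => (l.1 ++ m.1, S.u)⟩

include h t

theorem isCell (hj : 1 ≤ j) (k : ℕ) :
    ((tow S sg dd cc).sub fun l => lev (sh l.1) ≤ k + 1).IsCell Rf (cell S sg dd cc k) j where
  sys := isSys_lev h t hj _
  sub := by
    have := isSys_lev h t hj k
    refine (congrArg (fun p => Sys.IsSys { tow S sg dd cc with ok := p } Rf j) ?_).mp this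
    ext l
    exact ⟨fun e => ⟨⟨e.1, e.2.trans k.le_succ⟩, e.2⟩, fun e => ⟨e.1.1, e.2⟩⟩
  inN l hl := ⟨⟨hl.1, hl.2.props.2.2.le⟩, fun e => by
    have := hl.2.props.2.2
    change lev _ ≤ _ at e
    omega⟩
  split := by
    rintro ⟨w, _⟩ ⟨⟨rfl, h0, he, hp⟩, hT⟩ hn
    have h1 := isN_take he hT hn
    rw [← List.map_take] at h1
    have h2 : w.take (cut k (sh w)) ≠ [] := fun e => h1.props.2.1 (by rw [e]; rfl)
    obtain ⟨o₁, p1, p2⟩ := pth_append.1 ((List.take_append_drop (cut k (sh w)) w).symm ▸ hp :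
      Pth S (hd S w) (w.take (cut k (sh w)) ++ w.drop (cut k (sh w))) (tgt S w (S.s S.u)))
    obtain ⟨a1, -, a3⟩ := ok_of (sg := sg) (dd := dd) (cc := cc) p1 h1.props.1 h2
    obtain ⟨a4, a5⟩ := val_of (sg := sg) (dd := dd) (cc := cc)
      (T' := fun l => lev (sh l.1) ≤ k + 1) p2 (by rw [sh, List.map_drop]; exact he.drop _)
      (by rw [sh, List.map_drop]; exact (lev_drop _ _).trans hT)
    refine ⟨⟨a1, h1⟩, a4, a3.trans a5.symm, Prod.ext (List.take_append_drop _ _) rfl, ?_⟩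
    have a6 := rk_append (S := S) (w.take (cut k (sh w))) (w.drop (cut k (sh w)))
    have a7 := rk_pos h p1 h2
    rw [List.take_append_drop] at a6
    change rk S (w.drop (cut k (sh w))) < rk S w
    omega
  cat := by
    rintro ⟨w, _⟩ ⟨w', m⟩ o ⟨⟨rfl, h0, he, hp⟩, hN⟩ hm e
    obtain ⟨rfl, he', hp', hT⟩ := of_val hm
    have a0 : w ++ w' ≠ [] := fun e => h0 (List.append_eq_nil_iff.1 e).1
    obtain ⟨a1, a2, a3⟩ := ok_of (sg := sg) (dd := dd) (cc := cc)
      (pth_append.2 ⟨_, hp, e ▸ hp'⟩) (by simpa using he.append he') a0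
    have a4 : lev (sh (w ++ w')) = k + 1 := by
      rw [sh, List.map_append, lev_append he, hN.props.2.2]
      rcases hT with rfl | hT
      · simp [lev]
      · exact max_eq_left hT
    have a5 : cut k (sh (w ++ w')) = w.length := by
      rw [sh, List.map_append, hN.cut_append, List.length_map]
    refine ⟨⟨a1, a4.le⟩, fun e => ?_, a3, a2, Prod.ext ?_ rfl, Prod.ext ?_ rfl, ?_, dg_append _ _⟩
    · change lev (sh (w ++ w')) ≤ k at e
      omega
    · change (w ++ w').take (cut k (sh (w ++ w'))) = w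
      rw [a5, List.take_left]
    · change (w ++ w').drop (cut k (sh (w ++ w'))) = w'
      rw [a5, List.drop_left]
    · change (tow S sg dd cc).ε _ = (tow S sg dd cc).ε _ * (tow S sg dd cc).ε _
      rw [ε_eq h t, ε_eq h t, ← wd_append]
      exact ε_eq h t _
  mulE := by
    rintro ⟨w, _⟩ ⟨w', _⟩ ⟨⟨rfl, h0, he, hp⟩, -⟩ hE ⟨⟨rfl, h0', he', hp'⟩, hN⟩ e
    change (tow S sg dd cc).ε _ * (tow S sg dd cc).ε _ ∈ _
    rw [ε_eq h t, ε_eq h t, ← wd_append]
    rw [← show tgt S w (S.s S.u) = Tow.hd S w' from e] at hp'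
    refine Y_le h t (P := (· = w ++ w')) ?_ (gen h (pth_append.2 ⟨_, hp, hp'⟩) rfl)
    rintro _ o₁ hq rfl
    have a1 : isN k (sh (w ++ w')) := by simpa using isN.append he hE hN
    exact ⟨a1.props.1, ⟨(ok_of hq a1.props.1 fun e => h0 (List.append_eq_nil_iff.1 e).1).1, a1⟩,
      a1.props.2.2.le⟩
  mulR := by
    rintro ⟨w, _⟩ o r ⟨⟨rfl, h0, he, hp⟩, hN⟩ hr
    change (tow S sg dd cc).ε _ * _ ∈ _
    rw [ε_eq h t]
    refine Y_le h t (fun w' o₁ hq e => ?_) (mulR h hp hr)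
    have a1 : isN k (sh w') := e.1 ▸ hN
    exact ⟨a1.props.1, ⟨(ok_of hq a1.props.1 fun e => a1.props.2.1 (by rw [e]; rfl)).1, a1⟩,
      a1.props.2.2.le⟩
  d_ε := by
    rintro ⟨w, _⟩ ⟨⟨rfl, h0, he, hp⟩, hN⟩
    change dd ((tow S sg dd cc).ε _) ∈ _
    rw [ε_eq h t]
    refine Y_le h t (fun w' o₁ hq e => ⟨e.1.en he, (e.1.isN hN).imp_left fun a1 => ?_,
      e.1.lev_le.trans hN.props.2.2.le⟩) (dd_wd h t hp he)
    exact ⟨(ok_of hq a1.props.1 fun e => a1.props.2.1 (by rw [e]; rfl)).1, a1⟩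

omit h t in
theorem sub_true : ((tow S sg dd cc).sub fun _ => True) = tow S sg dd cc := by simp [Sys.sub]

theorem isSys_top (hj : 1 ≤ j) : (tow S sg dd cc).IsSys Rf j :=
  sub_true (S := S) ▸ isSys h t hj (fun _ => True) (fun _ _ _ _ _ => trivial) fun _ _ _ _ => trivial

omit t in
theorem bar_mem {k : ℤ} {e : E} (he : e ∈ (S.cat Rf).H k o o') : ∃ n, e - S.i (S.aug e) ∈
    S.Sp Rf (fun l => S.deg l = k ∧ S.ρ l ≤ n ∧ (True → l ≠ S.u)) o o' := by
  have a1 : e - S.i (S.aug e) ∈ S.Sp Rf (fun l => S.deg l = k ∧ l ≠ S.u) o o' := fun l => by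
    have e1 := h.c_i_ε (S.aug e) S.u
    rw [h.ε_u, mul_one] at e1
    rw [map_sub, e1, Finsupp.sub_apply]
    by_cases hl : l = S.u
    · subst hl
      simp [Sys.aug]
    · rw [single_eq_of_ne hl, sub_zero]
      exact ⟨(he l).1, fun e => ⟨((he l).2 e).1, ((he l).2 e).2, hl⟩⟩
  obtain ⟨n, hn⟩ := h.exists_rank a1
  exact ⟨n, Sys.Sp_mono (fun l _ e => ⟨e.1.1, e.2, fun _ => e.1.2⟩) hn⟩

theorem exists_hat (hj : 1 ≤ j) : ∃ π : Gam S.i Bool →+* E, CBar j (S.cat Rf)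
    ((tow S sg dd cc).cat Rf) (bcat Rf) S.i.toAddMonoidHom S.aug
    (tow S sg dd cc).i.toAddMonoidHom (tow S sg dd cc).aug (J S.i).toAddMonoidHom π.toAddMonoidHom
    (x S.i true) (x S.i false) fun k => Y S Rf fun w => w ≠ [] ∧ En (sh w) ∧ dg S w = k := by
  have h' := isSys_top h t hj
  let π : Gam S.i Bool →+* E := Gam.lift (RingHom.id E) (fun b : Bool => bif b then 1 else 0)
    fun b r => by cases b <;> simp
  have πJ : ∀ e, π (J S.i e) = e := fun e => lift_J _ _ _ e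
  have πx : ∀ b, π (x S.i b) = bif b then 1 else 0 := fun b => lift_x _ _ _ b
  have p1 : ∀ g, π (sg g) = S.σ (π g) := fun g => by
    induction g using Gam.ind with
    | hJ e => rw [t.sgJ, πJ, πJ]
    | hx b => cases b <;> simp [t.sg0, t.sg1, πx, h.dg.σ_one]
    | ha a b h h' => simp only [map_add, h, h']
    | hm a b e e' => rw [t.dg.σ_mul, map_mul, map_mul, e, e', h.dg.σ_mul]
  have p2 : ∀ g, π (dd g) = S.d (π g) := fun g => by
    induction g using Gam.ind with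
    | hJ e => rw [t.ddJ, πJ, πJ]
    | hx b => cases b <;> simp [t.dd0, t.dd1, πx, show S.d 1 = 0 by simpa using h.d_i 1]
    | ha a b h h' => simp only [map_add, h, h']
    | hm a b e e' => rw [t.dg.leib, map_add, map_mul, map_mul, map_mul, e, e', p1, h.dg.leib]
  have p3 : ∀ w o o', Pth S o w o' → π (wd S w) ∈ (S.cat Rf).H (dg S w) o o' := fun w => by
    induction w with
    | nil =>
      rintro o _ rfl
      rw [wd, map_one]
      exact h.good.one_mem o
    | cons p w ih =>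
      rintro _ o' ⟨h1, rfl, h3⟩
      rw [wd, map_mul, map_mul, πJ, πx, dg]
      cases p.2
      · simp
      · simpa using h.good.mul_mem (k := S.deg p.1)
          (Sys.Sp_mono (fun l _ e => e.1) (ε_mem h h1)) (ih _ _ h3)
  refine ⟨π, h.aug' hj, h'.aug' hj, ⟨fun {k o o' a} ha => ?_, map_one π, fun _ _ => map_mul π _ _,
    fun _ => p2 _⟩, map_one (J S.i), map_mul (J S.i), map_mul π, fun _ => rfl, t.sgJ, t.ddJ, t.sg0,
    t.dd0, x_comm _ _, πJ, πx true, πx false, fun {k o o' e} he => ?_,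
    fun {k k' o o' o'' e y} he hy => ?_, fun {k o o' y} hy => ?_⟩
  · refine h'.Sp_induction (p := fun a => π a ∈ (S.cat Rf).H k o o') ha (fun l r hl hT hr => ?_)
      (by simp) fun a b _ _ ha hb => by rw [map_add]; exact add_mem ha hb
    rw [← sub_true (S := S)] at hl hr
    obtain ⟨w, m⟩ := l
    obtain ⟨rfl, -, hp, -⟩ := of_val hl
    rw [ε_eq h t, map_mul, show π ((tow S sg dd cc).i r) = S.i r from πJ _]
    have := p3 _ _ _ hp
    rw [show dg S w = k from hT] at this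
    exact h.i_mul_mem hr this
  · obtain ⟨n, hn⟩ := bar_mem h he
    have := mul0 h (P := fun w => w ≠ [] ∧ En (sh w) ∧ dg S w = k) (w := []) hn
      (fun e => e.2.2 trivial rfl) true rfl fun l hl =>
        ⟨by simp, ⟨fun _ => rfl, trivial⟩, by simp [dg, hl.1]⟩
    rwa [wd, mul_one] at this
  · obtain ⟨n, hn⟩ := bar_mem h he
    exact mul1 h hn false hy fun l w e1 _ e => ⟨by simp, ⟨fun e' => (e.1 (by simpa using e')).elim,
      e.2.1⟩, by simp [dg, e1, e.2.2]⟩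
  · have := Y_le h t (T := fun l => (tow S sg dd cc).deg l = k ∧ l.1 ≠ []) (T' := fun _ => True)
      (fun w _ _ e => ⟨e.2.1, ⟨e.2.2, e.1⟩, trivial⟩) hy
    rw [sub_true] at this
    exact ⟨Sys.Sp_mono (fun _ _ e => e.1) this, by_contra fun e => ((this _).2 e).2.2 rfl⟩

end Tow

/-- the cobar-bar tower -/
theorem tower {R E Λ O : Type} [Ring R] [Ring E] {S : Sys R E Λ O} {Rf : O → O → AddSubgroup R}
    {j : ℤ} (h : S.IsSys Rf j) (hj : 1 ≤ j) :
    ∃ (G Λ' : Type) (_ : Ring G) (S' : Sys R G Λ' O) (lev : Λ' → ℕ), S'.IsSys Rf j ∧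
      (∀ l, S'.ok l → 1 ≤ lev l) ∧ (∀ k, (S'.sub (lev · ≤ k)).IsSys Rf j) ∧
      (∀ k, ∃ K : Cell Λ', (S'.sub (lev · ≤ k + 1)).IsCell Rf K j ∧ K.inE = (lev · ≤ k)) ∧
      ∀ (B : Type) [CommRing B], ((S'.cat Rf).bc B).P → ((S.cat Rf).bc B).P := by
  obtain ⟨sg, dd, cc, t⟩ := Tow.exists_TD h
  obtain ⟨π, hπ⟩ := Tow.exists_hat h t hj
  refine ⟨_, _, inferInstance, Tow.tow S sg dd cc, fun l => lev (Tow.sh l.1),
    Tow.isSys_top h t hj, fun l hl => ?_, Tow.isSys_lev h t hj,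
    fun k => ⟨_, Tow.isCell h t hj k, rfl⟩, fun B _ => hπ.P hj B⟩
  exact le_trans (Nat.le_add_left _ _) (run_lt_lev fun e => hl.2.1 (by simpa using e))

end Pool.Agent.Lib.NIL
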