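import Pool.Agent.Lib.NIL.Blue
import Pool.Agent.Lib.NIL.Tower

/-! Block TOWER. -/

namespace Pool.Agent.Lib.NIL

theorem st_tower : St_TOWER := by
  intro R E Λ O _ _ S Rf j h hj
  obtain ⟨G, Λ', _, S', lev, h1, h2, -, h4, h5⟩ := tower h hj
  refine ⟨G, Λ', _, S', lev, h1, h2, fun k => ?_, h5⟩
  obtain ⟨K, hK, e⟩ := h4 k
  exact ⟨K, hK, fun l => by rw [e]⟩

end Pool.Agent.Lib.NIL
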