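import Mathlib

/-! Equivariant forests with chosen contractions of the fibres. -/

noncomputable section

namespace Pool.Agent.Lib.NIL

open Finsupp

/-- An equivariant forest over the `G`-set `O`; `X` is the set of cells. -/
structure Forest (G O X : Type) [Group G] [MulAction G O] [MulAction G X] where
  π : X → O
  ed : X → Prop
  d0 : X → X
  d1 : X → X
  b : O → X
  s0 : X → X →₀ ℤ
  π_smul : ∀ (g : G) s, π (g • s) = g • π s
  ed_smul : ∀ (g : G) s, ed (g • s) ↔ ed s
  d0_smul : ∀ (g : G) s, d0 (g • s) = g • d0 s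
  d1_smul : ∀ (g : G) s, d1 (g • s) = g • d1 s
  π_d0 : ∀ s, π (d0 s) = π s
  π_d1 : ∀ s, π (d1 s) = π s
  ed_d0 : ∀ s, ¬ ed (d0 s)
  ed_d1 : ∀ s, ¬ ed (d1 s)
  d0_v : ∀ s, ¬ ed s → d0 s = s
  d1_v : ∀ s, ¬ ed s → d1 s = s
  π_b : ∀ o, π (b o) = o
  ed_b : ∀ o, ¬ ed (b o)
  s0_supp : ∀ s t, s0 s t ≠ 0 → ¬ ed s ∧ ed t ∧ π t = π s
  s0_b : ∀ o, s0 (b o) = 0
  bd_s0 : ∀ s, ¬ ed s →
    mapDomain d1 (s0 s) - mapDomain d0 (s0 s) = single s 1 - single (b (π s)) 1
  s0_bd : ∀ s, ed s → s0 (d1 s) - s0 (d0 s) = single s 1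
  hull : ∀ o (F : Set X), F.Finite → (∀ s ∈ F, π s = o) → ∃ K : Set X, K.Finite ∧ F ⊆ K ∧
    b o ∈ K ∧ ∀ s ∈ K, π s = o ∧ d0 s ∈ K ∧ d1 s ∈ K ∧ ∀ t, s0 s t ≠ 0 → t ∈ K

namespace TreeF

open SimpleGraph

variable {V : Type} {T : SimpleGraph V}

/-- the geodesic -/
def geo (hT : T.IsTree) (a v : V) : T.Walk a v := (hT.existsUnique_path a v).choose

theorem geo_isPath (hT : T.IsTree) (a v : V) : (geo hT a v).IsPath :=
  (hT.existsUnique_path a v).choose_spec.1

theorem geo_eq (hT : T.IsTree) {a v : V} {p : T.Walk a v} (hp : p.IsPath) : p = geo hT a v :=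
  (hT.existsUnique_path a v).choose_spec.2 p hp

theorem geo_self (hT : T.IsTree) (a : V) : geo hT a a = Walk.nil :=
  (geo_eq hT Walk.IsPath.nil).symm

theorem geo_adj (hT : T.IsTree) (a : V) {x y : V} (h : T.Adj x y) :
    geo hT a y = (geo hT a x).concat h ∨ geo hT a x = (geo hT a y).concat h.symm := by
  classical
  by_cases hy : y ∈ (geo hT a x).support
  · right
    have h1 : (geo hT a x).takeUntil y hy = geo hT a y :=
      geo_eq hT ((geo_isPath hT a x).takeUntil hy)
    have h2 : (geo hT a x).dropUntil y hy = Walk.cons h.symm Walk.nil :=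
      (geo_eq hT ((geo_isPath hT a x).dropUntil hy)).trans
        (geo_eq hT (by simpa using h.ne')).symm
    have h3 := (geo hT a x).take_spec hy
    rw [h1, h2] at h3
    exact h3.symm
  · left
    exact (geo_eq hT ((geo_isPath hT a x).concat hy h)).symm

theorem geo_darts (hT : T.IsTree) (a : V) {f v : V} (hv : v ∈ (geo hT a f).support) :
    (geo hT a v).darts ⊆ (geo hT a f).darts := by
  classical
  rw [← geo_eq hT ((geo_isPath hT a f).takeUntil hv)]
  exact Walk.darts_takeUntil_subset_darts _ hv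

variable (Ori : V → V → Prop)

/-- cells: vertices and oriented edges -/
abbrev Cells : Type := V ⊕ {p : V × V // Ori p.1 p.2}

open Classical in
/-- the chain of a dart -/
def ch (x y : V) : Cells Ori →₀ ℤ :=
  (if h : Ori x y then single (Sum.inr ⟨(x, y), h⟩) 1 else 0) -
    if h : Ori y x then single (Sum.inr ⟨(y, x), h⟩) 1 else 0

theorem ch_symm (x y : V) : ch Ori y x = -ch Ori x y := by
  unfold ch
  abel

/-- the chain of a walk -/
def wch {a v : V} (p : T.Walk a v) : Cells Ori →₀ ℤ := (p.darts.map fun d => ch Ori d.fst d.snd).sum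

def e0 : Cells Ori → Cells Ori := Sum.elim Sum.inl fun p => Sum.inl p.1.1

def e1 : Cells Ori → Cells Ori := Sum.elim Sum.inl fun p => Sum.inl p.1.2

variable {Ori}

theorem bd_ch (h1 : ∀ x y, T.Adj x y ↔ Ori x y ∨ Ori y x) (h2 : ∀ x y, Ori x y → ¬ Ori y x)
    {x y : V} (h : T.Adj x y) : mapDomain (e1 Ori) (ch Ori x y) - mapDomain (e0 Ori) (ch Ori x y) =
      single (Sum.inl y) 1 - single (Sum.inl x) 1 := by
  rcases (h1 x y).1 h with h | h
  · simp [ch, h, h2 x y h, e0, e1]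
  · have : ¬ Ori x y := fun h' => h2 x y h' h
    simp only [ch, h, this, dite_false, dite_true, zero_sub]
    rw [← single_neg, mapDomain_single, mapDomain_single]
    simp only [e0, e1, Sum.elim_inr, single_neg]
    abel

theorem bd_wch (h1 : ∀ x y, T.Adj x y ↔ Ori x y ∨ Ori y x) (h2 : ∀ x y, Ori x y → ¬ Ori y x)
    {a v : V} (p : T.Walk a v) :
    mapDomain (e1 Ori) (wch Ori p) - mapDomain (e0 Ori) (wch Ori p) =
      single (Sum.inl v) 1 - single (Sum.inl a) 1 := by
  induction p with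
  | nil => simp [wch]
  | cons h p ih =>
    have := bd_ch h1 h2 h
    simp only [wch, Walk.darts_cons, List.map_cons, List.sum_cons, mapDomain_add] at ih ⊢
    rw [add_sub_add_comm, this, ih]
    abel

theorem wch_concat {a x y : V} (p : T.Walk a x) (h : T.Adj x y) :
    wch Ori (p.concat h) = wch Ori p + ch Ori x y := by
  simp [wch, Walk.darts_concat]

theorem ch_supp {x y : V} {t : Cells Ori} (h : ch Ori x y t ≠ 0) :
    ∃ q, t = Sum.inr q ∧ (q.1 = (x, y) ∨ q.1 = (y, x)) := by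
  by_contra hn
  apply h
  unfold ch
  rw [Finsupp.sub_apply]
  have a1 : ∀ (u w : V) (h : Ori u w), (u = x ∧ w = y ∨ u = y ∧ w = x) →
      (single (Sum.inr ⟨(u, w), h⟩) 1 : Cells Ori →₀ ℤ) t = 0 := by
    intro u w h huw
    refine single_eq_of_ne fun e => hn ⟨_, e, ?_⟩
    rcases huw with ⟨rfl, rfl⟩ | ⟨rfl, rfl⟩
    · exact .inl rfl
    · exact .inr rfl
  split_ifs with p q q
  · rw [a1 x y p (.inl ⟨rfl, rfl⟩), a1 y x q (.inr ⟨rfl, rfl⟩), sub_zero]
  · rw [a1 x y p (.inl ⟨rfl, rfl⟩)]; simp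
  · rw [a1 y x q (.inr ⟨rfl, rfl⟩)]; simp
  · simp

theorem wch_supp {a v : V} (p : T.Walk a v) {t : Cells Ori} (h : wch Ori p t ≠ 0) :
    ∃ q, t = Sum.inr q ∧ ∃ d ∈ p.darts, q.1 = (d.fst, d.snd) ∨ q.1 = (d.snd, d.fst) := by
  induction p with
  | nil => simp [wch] at h
  | @cons x y _ h' p ih =>
    simp only [wch, Walk.darts_cons, List.map_cons, List.sum_cons, Finsupp.add_apply] at h ih
    by_cases h0 : ch Ori x y t = 0
    · rw [h0, zero_add] at h
      obtain ⟨q, hq, d, hd, hd'⟩ := ih h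
      exact ⟨q, hq, d, by simp [hd], hd'⟩
    · obtain ⟨q, hq, hq'⟩ := ch_supp h0
      exact ⟨q, hq, ⟨(x, y), h'⟩, by simp, hq'⟩

variable {H : Type} [Group H] [MulAction H V]

theorem exists_ori (hadj : ∀ (g : H) u v, T.Adj u v → T.Adj (g • u) (g • v))
    (hinv : ∀ (g : H) u v, T.Adj u v → g • u = v → g • v ≠ u) : ∃ Ori : V → V → Prop,
      (∀ x y, T.Adj x y ↔ Ori x y ∨ Ori y x) ∧ (∀ x y, Ori x y → ¬ Ori y x) ∧
      ∀ (g : H) x y, Ori x y → Ori (g • x) (g • y) := by
  let r : Setoid (V × V) :=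
    ⟨fun p q => ∃ g : H, q = g • p ∨ q = g • p.swap, ⟨fun p => ⟨1, .inl (one_smul _ _).symm⟩, by
      rintro p q ⟨g, rfl | rfl⟩
      · exact ⟨g⁻¹, .inl (inv_smul_smul _ _).symm⟩
      · exact ⟨g⁻¹, .inr (by ext <;> simp)⟩, by
      rintro p q u ⟨g, rfl | rfl⟩ ⟨g', rfl | rfl⟩
      · exact ⟨g' * g, .inl (mul_smul _ _ _).symm⟩
      · exact ⟨g' * g, .inr (by ext <;> simp [mul_smul])⟩
      · exact ⟨g' * g, .inr (mul_smul _ _ _).symm⟩
      · exact ⟨g' * g, .inl (by ext <;> simp [mul_smul])⟩⟩⟩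
  have hout : ∀ p : V × V, ∃ g : H, p = g • (Quotient.mk r p).out ∨
      p = g • (Quotient.mk r p).out.swap := fun p => Quotient.mk_out (s := r) p
  have hsw : ∀ x y : V, Quotient.mk r (y, x) = Quotient.mk r (x, y) := fun x y =>
    Quotient.sound ⟨1, .inr (by simp)⟩
  have hg : ∀ (g : H) (x y : V), Quotient.mk r (g • x, g • y) = Quotient.mk r (x, y) :=
    fun g x y => (Quotient.sound (s := r) (a := (x, y)) (b := (g • x, g • y)) ⟨g, .inl rfl⟩).symm
  refine ⟨fun x y => T.Adj x y ∧ ∃ g : H, (x, y) = g • (Quotient.mk r (x, y)).out,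
    fun x y => ⟨fun h => ?_, ?_⟩, ?_, ?_⟩
  · obtain ⟨g, h' | h'⟩ := hout (x, y)
    · exact .inl ⟨h, g, h'⟩
    · refine .inr ⟨h.symm, g, ?_⟩
      rw [hsw]
      exact congrArg Prod.swap h'
  · rintro (h | h)
    · exact h.1
    · exact h.1.symm
  · rintro x y ⟨h, g, e⟩ ⟨-, g', e'⟩
    rw [hsw] at e'
    have e1 : (y, x) = (g' * g⁻¹) • (x, y) := by
      rw [mul_smul, e', e, inv_smul_smul, ← e]
    exact hinv (g' * g⁻¹) x y h (congrArg Prod.fst e1).symm (congrArg Prod.snd e1).symm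
  · rintro g x y ⟨h, g', e⟩
    refine ⟨hadj g x y h, g * g', ?_⟩
    rw [hg, mul_smul, ← e]
    rfl

/-- the action on the cells -/
@[reducible] def act (h3 : ∀ (g : H) x y, Ori x y → Ori (g • x) (g • y)) :
    MulAction H (Cells Ori) where
  smul g := Sum.map (g • ·) fun p => ⟨(g • p.1.1, g • p.1.2), h3 g _ _ p.2⟩
  one_smul := by
    rintro (v | p)
    · exact congrArg Sum.inl (one_smul H v)
    · exact congrArg Sum.inr (Subtype.ext (Prod.ext (one_smul H _) (one_smul H _)))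
  mul_smul g g' := by
    rintro (v | p)
    · exact congrArg Sum.inl (mul_smul g g' v)
    · exact congrArg Sum.inr (Subtype.ext (Prod.ext (mul_smul g g' _) (mul_smul g g' _)))

/-- the forest of a tree -/
def forest (hT : T.IsTree) (a : V) (h1 : ∀ x y, T.Adj x y ↔ Ori x y ∨ Ori y x)
    (h2 : ∀ x y, Ori x y → ¬ Ori y x) (h3 : ∀ (g : H) x y, Ori x y → Ori (g • x) (g • y)) :
    @Forest H Unit (Cells Ori) _ _ (act h3) :=
  letI := act h3
  { π := fun _ => ()
    ed := fun s => s.isRight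
    d0 := e0 Ori
    d1 := e1 Ori
    b := fun _ => Sum.inl a
    s0 := Sum.elim (fun v => wch Ori (geo hT a v)) fun _ => 0
    π_smul := fun _ _ => rfl
    ed_smul := by rintro g (v | p) <;> exact Iff.rfl
    d0_smul := by rintro g (v | p) <;> rfl
    d1_smul := by rintro g (v | p) <;> rfl
    π_d0 := fun _ => rfl
    π_d1 := fun _ => rfl
    ed_d0 := by rintro (v | p) <;> simp [e0]
    ed_d1 := by rintro (v | p) <;> simp [e1]
    d0_v := by rintro (v | p) <;> simp [e0]
    d1_v := by rintro (v | p) <;> simp [e1]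
    π_b := fun _ => rfl
    ed_b := by simp
    s0_supp := by
      rintro (v | p) t h
      · obtain ⟨q, rfl, -⟩ := wch_supp _ h
        simp
      · simp at h
    s0_b := fun _ => by simp [geo_self, wch]
    bd_s0 := by
      rintro (v | p) h
      · exact bd_wch h1 h2 _
      · simp at h
    s0_bd := by
      rintro (v | ⟨⟨x, y⟩, p⟩) h
      · simp at h
      · have hc : ch Ori x y = single (Sum.inr ⟨(x, y), p⟩) 1 := by
          simp [ch, show Ori x y from p, h2 x y p]
        change wch Ori (geo hT a y) - wch Ori (geo hT a x) = _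
        rcases geo_adj hT a ((h1 x y).2 (.inl p)) with e | e
        · rw [e, wch_concat, hc, add_sub_cancel_left]
        · rw [e, wch_concat, ch_symm, hc]
          abel
    hull := by
      intro o F hF _
      let F' : Set (Cells Ori) := insert (Sum.inl a) (e0 Ori '' F ∪ e1 Ori '' F)
      have hF' : F'.Finite := ((hF.image _).union (hF.image _)).insert _
      let KV : Set V := ⋃ f ∈ Sum.inl ⁻¹' F', {v | v ∈ (geo hT a f).support}
      have hKV : KV.Finite := (hF'.preimage Sum.inl_injective.injOn).biUnion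
        fun f _ => List.finite_toSet _
      have mem : ∀ f, Sum.inl f ∈ F' → f ∈ KV := fun f hf =>
        Set.mem_biUnion (x := f) hf (Walk.end_mem_support _)
      refine ⟨{s | e0 Ori s ∈ Sum.inl '' KV ∧ e1 Ori s ∈ Sum.inl '' KV}, ?_, ?_, ?_, ?_⟩
      · refine Set.Finite.of_finite_image (f := fun s => (s.isRight, e0 Ori s, e1 Ori s))
          ((Set.finite_univ.prod ((hKV.image Sum.inl).prod (hKV.image Sum.inl))).subset ?_) ?_
        · rintro _ ⟨s, hs, rfl⟩
          exact ⟨trivial, hs⟩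
        · rintro (v | p) - (w | q) - h
          · simpa [e0, e1] using h
          · simp at h
          · simp at h
          · simp only [e0, e1, Sum.elim_inr, Prod.mk.injEq, Sum.inl.injEq] at h
            exact congrArg Sum.inr (Subtype.ext (Prod.ext h.2.1 h.2.2))
      · rintro (v | p) hs
        · exact ⟨⟨v, mem v (.inr (.inl ⟨_, hs, rfl⟩)), rfl⟩,
            ⟨v, mem v (.inr (.inl ⟨_, hs, rfl⟩)), rfl⟩⟩
        · exact ⟨⟨_, mem _ (.inr (.inl ⟨_, hs, rfl⟩)), rfl⟩,
            ⟨_, mem _ (.inr (.inr ⟨_, hs, rfl⟩)), rfl⟩⟩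
      · exact ⟨⟨a, mem a (.inl rfl), rfl⟩, ⟨a, mem a (.inl rfl), rfl⟩⟩
      · rintro (v | p) hs
        · refine ⟨rfl, hs, hs, fun t ht => ?_⟩
          obtain ⟨q, rfl, d, hd, hq⟩ := wch_supp _ ht
          obtain ⟨v', hv, e⟩ := hs.1
          obtain rfl : v' = v := Sum.inl_injective e
          obtain ⟨f, hf, hv⟩ := Set.mem_iUnion₂.1 hv
          have hd' := geo_darts hT a hv hd
          have m1 : d.fst ∈ KV :=
            Set.mem_biUnion (x := f) hf (Walk.dart_fst_mem_support_of_mem_darts _ hd')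
          have m2 : d.snd ∈ KV :=
            Set.mem_biUnion (x := f) hf (Walk.dart_snd_mem_support_of_mem_darts _ hd')
          rcases hq with hq | hq
          · exact ⟨⟨_, m1, by simp [e0, hq]⟩, ⟨_, m2, by simp [e1, hq]⟩⟩
          · exact ⟨⟨_, m2, by simp [e0, hq]⟩, ⟨_, m1, by simp [e1, hq]⟩⟩
        · exact ⟨rfl, ⟨hs.1, hs.1⟩, ⟨hs.2, hs.2⟩, fun t ht => by simp at ht⟩ }

end TreeF

/-- An action on a tree without inversion gives a forest over a point. -/
theorem exists_forest_of_tree {H V : Type} [Group H] [MulAction H V] (T : SimpleGraph V)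
    (hT : T.IsTree) (hadj : ∀ (g : H) u v, T.Adj u v → T.Adj (g • u) (g • v))
    (hinv : ∀ (g : H) u v, T.Adj u v → g • u = v → g • v ≠ u) :
    ∃ (X : Type) (_ : MulAction H X) (F : Forest H Unit X), ∀ x : X,
      (¬ F.ed x ∧ ∃ v : V, MulAction.stabilizer H x = MulAction.stabilizer H v) ∨
      (F.ed x ∧ ∃ u v : V, T.Adj u v ∧
        MulAction.stabilizer H x = MulAction.stabilizer H u ⊓ MulAction.stabilizer H v) := by
  obtain ⟨Ori, h1, h2, h3⟩ := TreeF.exists_ori hadj hinv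
  obtain ⟨a⟩ := hT.connected.nonempty
  refine ⟨_, TreeF.act h3, TreeF.forest hT a h1 h2 h3, ?_⟩
  let _ := TreeF.act h3
  rintro (v | p)
  · refine .inl ⟨Bool.false_ne_true, v, ?_⟩
    ext g
    exact Sum.inl_injective.eq_iff
  · refine .inr ⟨rfl, p.1.1, p.1.2, (h1 _ _).2 (.inl p.2), ?_⟩
    ext g
    exact Sum.inr_injective.eq_iff.trans (Subtype.ext_iff.trans Prod.ext_iff)

/-- the forest with one vertex -/
def Forest.point (H : Type) [Group H] : Forest H Unit Unit where
  π := id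
  ed := fun _ => False
  d0 := id
  d1 := id
  b := id
  s0 := fun _ => 0
  π_smul := fun _ _ => rfl
  ed_smul := fun _ _ => Iff.rfl
  d0_smul := fun _ _ => rfl
  d1_smul := fun _ _ => rfl
  π_d0 := fun _ => rfl
  π_d1 := fun _ => rfl
  ed_d0 := fun _ => id
  ed_d1 := fun _ => id
  d0_v := fun _ _ => rfl
  d1_v := fun _ _ => rfl
  π_b := fun _ => rfl
  ed_b := fun _ => id
  s0_supp := fun _ _ h => by simp at h
  s0_b := fun _ => rfl
  bd_s0 := fun _ _ => by simp
  s0_bd := fun _ h => h.elim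
  hull := fun _ _ _ _ => ⟨Set.univ, Set.finite_univ, Set.subset_univ _, trivial,
    fun _ _ => ⟨rfl, trivial, trivial, fun _ _ => trivial⟩⟩

namespace IndF

open MulAction

variable {G O : Type} [Group G] [MulAction G O]

abbrev Ω (G O : Type) [Group G] [MulAction G O] : Type := Quotient (orbitRel G O)

abbrev Fib (ω : Ω G O) : Type := {o : O // Quotient.mk (orbitRel G O) o = ω}

theorem exists_t {ω : Ω G O} (o : Fib ω) : ∃ t : G, t • ω.out = o.1 := by
  have h : Quotient.mk (orbitRel G O) o.1 = Quotient.mk (orbitRel G O) ω.out := by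
    rw [o.2, Quotient.out_eq]
  exact Quotient.exact h

def t {ω : Ω G O} (o : Fib ω) : G := (exists_t o).choose

theorem t_smul {ω : Ω G O} (o : Fib ω) : t o • ω.out = o.1 := (exists_t o).choose_spec

def mv {ω : Ω G O} (g : G) (o : Fib ω) : Fib ω :=
  ⟨g • o.1, (Quotient.sound (s := orbitRel G O) ⟨g, rfl⟩).trans o.2⟩

theorem mv_one {ω : Ω G O} (o : Fib ω) : mv 1 o = o := Subtype.ext (one_smul _ _)

theorem mv_mul {ω : Ω G O} (g g' : G) (o : Fib ω) : mv (g * g') o = mv g (mv g' o) :=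
  Subtype.ext (mul_smul _ _ _)

/-- the cocycle -/
def coc {ω : Ω G O} (g : G) (o : Fib ω) : stabilizer G ω.out :=
  ⟨(t (mv g o))⁻¹ * g * t o, by
    rw [mem_stabilizer_iff, mul_smul, mul_smul, t_smul, inv_smul_eq_iff, t_smul]
    rfl⟩

theorem coc_one {ω : Ω G O} (o : Fib ω) : coc 1 o = 1 := by
  ext
  simp [coc, mv_one]

theorem coc_mul {ω : Ω G O} (g g' : G) (o : Fib ω) :
    coc (g * g') o = coc g (mv g' o) * coc g' o := by
  ext
  simp [coc, mv_mul, mul_assoc]

variable (X : O → Type) [∀ o, MulAction (stabilizer G o) (X o)]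

/-- the cells of the induced forest -/
def Cl : Type := Σ ω : Ω G O, Fib ω × X ω.out

instance : MulAction G (Cl (G := G) X) where
  smul g s := ⟨s.1, mv g s.2.1, coc g s.2.1 • s.2.2⟩
  one_smul s := by
    change (⟨s.1, mv 1 s.2.1, coc 1 s.2.1 • s.2.2⟩ : Cl X) = s
    rw [mv_one, coc_one, one_smul]
    rfl
  mul_smul g g' s := by
    change (⟨s.1, mv (g * g') s.2.1, coc (g * g') s.2.1 • s.2.2⟩ : Cl X) = _
    rw [mv_mul, coc_mul, mul_smul]
    rfl

variable {X}

/-- the inclusion of a fibre -/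
def j {ω : Ω G O} (o : Fib ω) (x : X ω.out) : Cl (G := G) X := ⟨ω, o, x⟩

theorem j_inj {ω : Ω G O} (o : Fib ω) : Function.Injective (j (X := X) o) := fun _ _ h =>
  congrArg Prod.snd (eq_of_heq (Sigma.mk.inj h).2)

theorem smul_j (g : G) {ω : Ω G O} (o : Fib ω) (x : X ω.out) :
    g • j o x = j (mv g o) (coc g o • x) := rfl

variable (F : ∀ o, Forest (stabilizer G o) Unit (X o))

/-- the induced forest -/
def forest : Forest G O (Cl (G := G) X) where
  π s := s.2.1.1
  ed s := (F _).ed s.2.2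
  d0 s := j s.2.1 ((F _).d0 s.2.2)
  d1 s := j s.2.1 ((F _).d1 s.2.2)
  b o := j ⟨o, rfl⟩ ((F _).b ())
  s0 s := mapDomain (j s.2.1) ((F _).s0 s.2.2)
  π_smul _ _ := rfl
  ed_smul g s := (F _).ed_smul _ _
  d0_smul g s := congrArg (j _) ((F _).d0_smul _ _)
  d1_smul g s := congrArg (j _) ((F _).d1_smul _ _)
  π_d0 _ := rfl
  π_d1 _ := rfl
  ed_d0 s := (F _).ed_d0 _
  ed_d1 s := (F _).ed_d1 _
  d0_v s h := congrArg (j _) ((F _).d0_v _ h)
  d1_v s h := congrArg (j _) ((F _).d1_v _ h)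
  π_b _ := rfl
  ed_b _ := (F _).ed_b _
  s0_supp s u h := by
    obtain ⟨x, rfl⟩ : u ∈ Set.range (j s.2.1) := by
      by_contra hn
      exact h (mapDomain_of_notMem_range _ _ hn)
    rw [mapDomain_apply (j_inj _)] at h
    exact ⟨((F _).s0_supp _ _ h).1, ((F _).s0_supp _ _ h).2.1, rfl⟩
  s0_b o := by
    change mapDomain _ ((F _).s0 ((F _).b ())) = 0
    rw [(F _).s0_b, mapDomain_zero]
  bd_s0 := by
    rintro ⟨ω, ⟨o, rfl⟩, x⟩ h
    have := congrArg (mapDomain.addMonoidHom (j (X := X) ⟨o, rfl⟩)) ((F _).bd_s0 x h)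
    rw [map_sub, map_sub] at this
    simp only [mapDomain.addMonoidHom_apply, mapDomain_single] at this
    rw [← mapDomain_comp, ← mapDomain_comp] at this ⊢
    exact this
  s0_bd := by
    rintro ⟨ω, o, x⟩ h
    have := congrArg (mapDomain.addMonoidHom (j (X := X) o)) ((F _).s0_bd x h)
    rw [map_sub] at this
    simp only [mapDomain.addMonoidHom_apply, mapDomain_single] at this
    exact this
  hull o S hS h := by
    obtain ⟨K, hK, h1, h2, h3⟩ := (F _).hull () (j (X := X) ⟨o, rfl⟩ ⁻¹' S)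
      (hS.preimage (j_inj _).injOn) fun _ _ => rfl
    refine ⟨j ⟨o, rfl⟩ '' K, hK.image _, ?_, ⟨_, h2, rfl⟩, ?_⟩
    · rintro ⟨ω, ⟨o', rfl⟩, x⟩ hs
      obtain rfl : o' = o := h _ hs
      exact ⟨x, h1 hs, rfl⟩
    · rintro _ ⟨x, hx, rfl⟩
      obtain ⟨-, a0, a1, a2⟩ := h3 x hx
      refine ⟨rfl, ⟨_, a0, rfl⟩, ⟨_, a1, rfl⟩, fun u hu => ?_⟩
      obtain ⟨y, rfl⟩ : u ∈ Set.range (j (X := X) ⟨o, rfl⟩) := by
        by_contra hn
        exact hu (mapDomain_of_notMem_range _ _ hn)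
      exact ⟨y, a2 y fun e => hu ((mapDomain_apply (j_inj _) _ _).trans e), rfl⟩

theorem smul_eq_iff (g : G) {ω : Ω G O} (o : Fib ω) (x : X ω.out) : g • j o x = j o x ↔
    (t o)⁻¹ * g * t o ∈ (stabilizer (stabilizer G ω.out) x).map (stabilizer G ω.out).subtype := by
  rw [smul_j]
  constructor
  · intro h
    have h' := eq_of_heq (Sigma.mk.inj h).2
    have e : mv g o = o := congrArg Prod.fst h'
    refine ⟨coc g o, congrArg Prod.snd h', ?_⟩
    change (t (mv g o))⁻¹ * g * t o = _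
    rw [e]
  · rintro ⟨c, hc, e⟩
    have e0 : (c : G) = (t o)⁻¹ * g * t o := e
    have e1 : mv g o = o := by
      apply Subtype.ext
      have := c.2
      rw [mem_stabilizer_iff, e0, mul_smul, mul_smul, t_smul, inv_smul_eq_iff, t_smul] at this
      exact this
    have e2 : coc g o = c := by
      apply Subtype.ext
      change (t (mv g o))⁻¹ * g * t o = _
      rw [e1, e0]
    rw [e1, e2, hc]

end IndF

/-- Forests for the stabilisers induce a forest over the `G`-set. -/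
theorem exists_forest_induced {G O : Type} [Group G] [MulAction G O]
    (P : Prop → Subgroup G → Prop)
    (hP : ∀ e (K K' : Subgroup G) (t : G), (∀ g, g ∈ K' ↔ t⁻¹ * g * t ∈ K) → P e K → P e K')
    (h : ∀ o : O, ∃ (X : Type) (_ : MulAction (MulAction.stabilizer G o) X)
      (F : Forest (MulAction.stabilizer G o) Unit X), ∀ x, P (F.ed x)
        ((MulAction.stabilizer (MulAction.stabilizer G o) x).map
          (MulAction.stabilizer G o).subtype)) :
    ∃ (X : Type) (_ : MulAction G X) (F : Forest G O X),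
      ∀ s, P (F.ed s) (MulAction.stabilizer G s) := by
  choose X inst F hF using h
  refine ⟨IndF.Cl (G := G) X, inferInstance, IndF.forest F, ?_⟩
  rintro ⟨ω, o, x⟩
  exact hP _ _ _ (IndF.t o) (fun g => IndF.smul_eq_iff g o x) (hF _ x)

end Pool.Agent.Lib.NIL
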