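import Pool.Agent.Lib.NIL.Defs
import Pool.Agent.Lib.NIL.Forest

/-! Equivariant posets of labels and systems of cells. -/

noncomputable section

namespace Pool.Agent.Lib.NIL

open Finsupp TensorProduct

/-- elements of the group ring supported on `p` -/
def sfam {G : Type} (p : G → Prop) : AddSubgroup (MonoidAlgebra ℤ G) where
  carrier := {a | ∀ g, a.coeff g ≠ 0 → p g}
  add_mem' {a b} ha hb g h := by
    by_cases h' : a.coeff g = 0
    · exact hb g fun h'' => h (by simp [h', h''])
    · exact ha g h'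
  zero_mem' g h := by simp at h
  neg_mem' {a} ha g h := ha g (by simpa using h)

theorem gfam_eq_sfam {G O : Type} [Group G] [MulAction G O] (o o' : O) :
    gfam G O o o' = sfam fun g => g • o' = o := rfl

theorem single_mem_sfam {G : Type} {p : G → Prop} {g : G} (h : p g) (n : ℤ) :
    MonoidAlgebra.single g n ∈ sfam p := by
  intro g' hg'
  rw [MonoidAlgebra.coeff_single] at hg'
  obtain rfl : g = g' := by
    by_contra hne
    exact hg' (single_eq_of_ne' hne)
  exact h

theorem sfam_mono {G : Type} {p q : G → Prop} (h : ∀ g, p g → q g) : sfam p ≤ sfam q :=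
  fun _ ha g hg => h g (ha g hg)

theorem sfam_induction {G : Type} {p : G → Prop} {P : MonoidAlgebra ℤ G → Prop}
    {a : MonoidAlgebra ℤ G} (ha : a ∈ sfam p) (h1 : ∀ g n, p g → P (MonoidAlgebra.single g n))
    (h0 : P 0) (hadd : ∀ x y, x ∈ sfam p → y ∈ sfam p → P x → P y → P (x + y)) : P a := by
  have key : ∀ s : Finset G, (∀ g ∈ s, p g) →
      (∑ g ∈ s, MonoidAlgebra.single g (a.coeff g)) ∈ sfam p ∧
        P (∑ g ∈ s, MonoidAlgebra.single g (a.coeff g)) := by
    classical
    intro s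
    induction s using Finset.induction_on with
    | empty => exact fun _ => ⟨zero_mem _, h0⟩
    | insert g s hg ih =>
      intro h
      have h' := ih fun g' hg' => h g' (Finset.mem_insert_of_mem hg')
      have hp := h g (Finset.mem_insert_self _ _)
      rw [Finset.sum_insert hg]
      exact ⟨add_mem (single_mem_sfam hp _) h'.1,
        hadd _ _ (single_mem_sfam hp _) h'.1 (h1 _ _ hp) h'.2⟩
  have := (key a.coeff.support fun g hg => ha g (mem_support_iff.1 hg)).2
  rwa [show ∑ g ∈ a.coeff.support, MonoidAlgebra.single g (a.coeff g) = a from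
    MonoidAlgebra.sum_coeff_single a] at this

theorem sfam_mul {G : Type} [Group G] {p q r : G → Prop} (h : ∀ g g', p g → q g' → r (g * g'))
    {a b : MonoidAlgebra ℤ G} (ha : a ∈ sfam p) (hb : b ∈ sfam q) : a * b ∈ sfam r := by
  refine sfam_induction (P := fun a => a * b ∈ sfam r) ha (fun g n hg => ?_) (by simp)
    fun x y _ _ hx hy => by rw [add_mul]; exact add_mem hx hy
  refine sfam_induction (P := fun b => MonoidAlgebra.single g n * b ∈ sfam r) hb
    (fun g' n' hg' => ?_) (by simp) fun x y _ _ hx hy => by rw [mul_add]; exact add_mem hx hy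
  rw [MonoidAlgebra.single_mul_single]
  exact single_mem_sfam (h _ _ hg hg') _

theorem bc_sfam_induction {G B : Type} [Group G] [CommRing B] {p : G → Prop}
    {P : B ⊗[ℤ] MonoidAlgebra ℤ G → Prop} {z : B ⊗[ℤ] MonoidAlgebra ℤ G}
    (hz : z ∈ bcF B (sfam p)) (h1 : ∀ g b, p g → P (b ⊗ₜ MonoidAlgebra.single g 1)) (h0 : P 0)
    (hadd : ∀ x y, P x → P y → P (x + y)) : P z := by
  have key : ∀ b : B, ∀ a ∈ sfam p, P (b ⊗ₜ a) := by
    intro b a ha
    refine sfam_induction (P := fun a => P (b ⊗ₜ a)) ha (fun g n hg => ?_)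
      (by rw [tmul_zero]; exact h0) fun x y _ _ hx hy => by rw [tmul_add]; exact hadd _ _ hx hy
    have : b ⊗ₜ[ℤ] MonoidAlgebra.single g n = (n • b) ⊗ₜ[ℤ] MonoidAlgebra.single g (1 : ℤ) := by
      rw [smul_tmul, MonoidAlgebra.smul_single, smul_eq_mul, mul_one]
    rw [this]
    exact h1 g _ hg
  refine AddSubgroup.closure_induction_left (p := fun z _ => P z) h0 ?_ ?_ hz
  · rintro _ ⟨b, a, ha, rfl⟩ y _ hy
    exact hadd _ _ (key b a ha) hy
  · rintro _ ⟨b, a, ha, rfl⟩ y _ hy
    refine hadd _ _ ?_ hy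
    rw [← neg_tmul]
    exact key _ a ha

theorem mem_bc_sfam_top {G B : Type} [Group G] [CommRing B] (z : B ⊗[ℤ] MonoidAlgebra ℤ G) :
    z ∈ bcF B (sfam fun _ : G => True) := by
  induction z using TensorProduct.induction_on with
  | zero => exact zero_mem _
  | tmul b a => exact AddSubgroup.subset_closure ⟨b, a, fun _ _ => trivial, rfl⟩
  | add x y hx hy => exact add_mem hx hy

/-- An equivariant poset of labels over the `G`-set `O`, with a rank function. -/
structure GPos (G O X : Type) [Group G] [MulAction G O] [MulAction G X] where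
  π : X → O
  le : X → X → Prop
  rk : X → ℤ
  π_smul : ∀ (g : G) s, π (g • s) = g • π s
  le_refl : ∀ s, le s s
  le_trans : ∀ s s' s'', le s s' → le s' s'' → le s s''
  le_smul : ∀ (g : G) s s', le s s' → le (g • s) (g • s')
  rk_smul : ∀ (g : G) s, rk (g • s) = rk s
  π_le : ∀ s s', le s s' → π s = π s'
  rk_lt : ∀ s s', le s s' → s = s' ∨ rk s < rk s'

namespace GPos

variable {G O X : Type} [Group G] [MulAction G O] [MulAction G X] (P : GPos G O X)

/-- the family spanned by the `g` with `g s' ≤ s` -/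
def T (s s' : X) : AddSubgroup (MonoidAlgebra ℤ G) := sfam fun g => P.le (g • s') s

theorem T_bas : IsBas P.T where
  one_mem s := single_mem_sfam (p := fun g => P.le (g • s) s) (g := 1)
    (by rw [one_smul]; exact P.le_refl s) 1
  mul_mem ha hb := sfam_mul (fun g g' h h' => by
    rw [mul_smul]
    exact P.le_trans _ _ _ (P.le_smul g _ _ h') h) ha hb

theorem T_le (s s' : X) : P.T s s' ≤ gfam G O (P.π s) (P.π s') :=
  sfam_mono fun g h => by rw [← P.π_smul]; exact P.π_le _ _ h

theorem gfam_le (s s' : X) : gfam G X s s' ≤ P.T s s' :=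
  sfam_mono fun g (h : g • s' = s) => by rw [h]; exact P.le_refl s

end GPos

/-- A system of oriented cells with a contraction of each fibre. -/
structure CellSys (G O X K : Type) [Group G] [MulAction G O] [MulAction G X] [MulAction G K]
    extends GPos G O X where
  lab : K → X
  dg : K → ℤ
  sgn : G → K → ℤˣ
  bd : K → K →₀ ℤ
  eps : K → ℤ
  b : O → K
  s0 : K → K →₀ ℤ
  lab_smul : ∀ (g : G) c, lab (g • c) = g • lab c
  dg_smul : ∀ (g : G) c, dg (g • c) = dg c
  sgn_mul : ∀ (g g' : G) c, sgn (g * g') c = sgn g (g' • c) * sgn g' c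
  bd_smul : ∀ (g : G) c e, bd (g • c) (g • e) * sgn g e = sgn g c * bd c e
  bd_supp : ∀ c e, bd c e ≠ 0 → dg e = dg c + 1 ∧ le (lab e) (lab c)
  bd_bd : ∀ c, linearCombination ℤ bd (bd c) = 0
  eps_smul : ∀ (g : G) c, eps (g • c) * sgn g c = eps c
  eps_supp : ∀ c, eps c ≠ 0 → dg c = 0
  eps_bd : ∀ c, linearCombination ℤ eps (bd c) = 0
  eps_s0 : ∀ c, linearCombination ℤ eps (s0 c) = 0
  π_b : ∀ o, π (lab (b o)) = o
  eps_b : ∀ o, eps (b o) = 1
  bd_b : ∀ o, bd (b o) = 0
  s0_supp : ∀ c e, s0 c e ≠ 0 → dg e + 1 = dg c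
  contr : ∀ c, linearCombination ℤ bd (s0 c) + linearCombination ℤ s0 (bd c) =
    single c 1 - single (b (π (lab c))) (eps c)
  hull : ∀ o (F : Set K), F.Finite → (∀ c ∈ F, π (lab c) = o) → ∃ S : Set K, S.Finite ∧ F ⊆ S ∧
    b o ∈ S ∧ ∀ c ∈ S, π (lab c) = o ∧ (∀ e, bd c e ≠ 0 → e ∈ S) ∧ ∀ e, s0 c e ≠ 0 → e ∈ S

namespace Forest

variable {G O X : Type} [Group G] [MulAction G O] [MulAction G X] (F : Forest G O X)

open Classical in
/-- the face poset of a forest -/
def gpos : GPos G O X where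
  π := F.π
  le s s' := s = s' ∨ s = F.d0 s' ∨ s = F.d1 s'
  rk s := if F.ed s then 1 else 0
  π_smul := F.π_smul
  le_refl _ := .inl rfl
  le_trans := by
    rintro s s' s'' h (rfl | rfl | rfl)
    · exact h
    · rw [F.d0_v _ (F.ed_d0 _), F.d1_v _ (F.ed_d0 _), or_self, or_self] at h
      exact .inr (.inl h)
    · rw [F.d0_v _ (F.ed_d1 _), F.d1_v _ (F.ed_d1 _), or_self, or_self] at h
      exact .inr (.inr h)
  le_smul := by
    rintro g s s' (rfl | rfl | rfl)
    · exact .inl rfl
    · exact .inr (.inl (F.d0_smul _ _).symm)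
    · exact .inr (.inr (F.d1_smul _ _).symm)
  rk_smul g s := by rw [F.ed_smul]
  π_le := by
    rintro s s' (rfl | rfl | rfl)
    · rfl
    · exact F.π_d0 _
    · exact F.π_d1 _
  rk_lt := by
    intro s s' h
    by_cases he : F.ed s'
    · rcases h with rfl | rfl | rfl
      · exact .inl rfl
      · right
        simp [he, F.ed_d0]
      · right
        simp [he, F.ed_d1]
    · rw [F.d0_v _ he, F.d1_v _ he, or_self, or_self] at h
      exact .inl h

theorem gpos_rk (s : X) : 0 ≤ F.gpos.rk s ∧ F.gpos.rk s ≤ 1 := by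
  unfold gpos
  dsimp only
  split_ifs <;> simp

theorem bd_supp {c e : X} (h : (single (F.d1 c) 1 - single (F.d0 c) 1 : X →₀ ℤ) e ≠ 0) :
    F.ed c ∧ (e = F.d0 c ∨ e = F.d1 c) := by
  refine ⟨?_, ?_⟩
  · by_contra he
    rw [F.d0_v _ he, F.d1_v _ he, sub_self] at h
    exact h rfl
  · by_contra hn
    rw [not_or] at hn
    rw [Finsupp.sub_apply, single_eq_of_ne hn.1, single_eq_of_ne hn.2, sub_zero] at h
    exact h rfl

theorem lc_bd (v : X →₀ ℤ) :
    linearCombination ℤ (fun c => (single (F.d1 c) 1 - single (F.d0 c) 1 : X →₀ ℤ)) v =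
      mapDomain F.d1 v - mapDomain F.d0 v := by
  induction v using Finsupp.induction_linear with
  | zero => simp
  | add x y hx hy => rw [map_add, hx, hy, mapDomain_add, mapDomain_add, add_sub_add_comm]
  | single c n => simp [smul_sub]

open Classical in
/-- the cells of a forest -/
def cellSys : CellSys G O X X where
  toGPos := F.gpos
  lab := id
  dg s := if F.ed s then -1 else 0
  sgn _ _ := 1
  bd c := single (F.d1 c) 1 - single (F.d0 c) 1
  eps s := if F.ed s then 0 else 1
  b := F.b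
  s0 := F.s0
  lab_smul _ _ := rfl
  dg_smul g s := by rw [F.ed_smul]
  sgn_mul _ _ _ := (one_mul _).symm
  bd_smul g c e := by
    simp [F.d0_smul, F.d1_smul, single_apply]
  bd_supp c e h := by
    obtain ⟨h1, rfl | rfl⟩ := F.bd_supp h
    · exact ⟨by simp [h1, F.ed_d0], .inr (.inl rfl)⟩
    · exact ⟨by simp [h1, F.ed_d1], .inr (.inr rfl)⟩
  bd_bd c := by
    simp [F.d0_v _ (F.ed_d0 c), F.d0_v _ (F.ed_d1 c), F.d1_v _ (F.ed_d0 c), F.d1_v _ (F.ed_d1 c)]
  eps_smul g c := by simp [F.ed_smul]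
  eps_supp c h := by
    by_cases he : F.ed c
    · simp [he] at h
    · simp [he]
  eps_bd c := by simp [F.ed_d0, F.ed_d1]
  eps_s0 c := by
    rw [linearCombination_apply]
    refine Finset.sum_eq_zero fun e he => ?_
    simp [(F.s0_supp c e (mem_support_iff.1 he)).2.1]
  π_b := F.π_b
  eps_b o := by simp [F.ed_b]
  bd_b o := by rw [F.d0_v _ (F.ed_b o), F.d1_v _ (F.ed_b o), sub_self]
  s0_supp c e h := by
    obtain ⟨h1, h2, -⟩ := F.s0_supp c e h
    simp [h1, h2]
  contr c := by
    by_cases he : F.ed c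
    · have : F.s0 c = 0 := by
        ext e
        by_contra h
        exact (F.s0_supp c e h).1 he
      simp [this, he, F.s0_bd c he]
    · rw [F.lc_bd, F.bd_s0 c he, F.d0_v _ he, F.d1_v _ he, sub_self, map_zero, add_zero, if_neg he]
      rfl
  hull o S hS h := by
    obtain ⟨K, hK, h1, h2, h3⟩ := F.hull o S hS h
    refine ⟨K, hK, h1, h2, fun c hc => ⟨(h3 c hc).1, fun e he => ?_, (h3 c hc).2.2.2⟩⟩
    obtain ⟨-, rfl | rfl⟩ := F.bd_supp he
    · exact (h3 c hc).2.1
    · exact (h3 c hc).2.2.1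

end Forest

end Pool.Agent.Lib.NIL
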