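import Pool.Agent.Lib.NIL.SLift
import Pool.Agent.Lib.NIL.CellSys

/-! LIFT for a system of cells. -/

noncomputable section

namespace Pool.Agent.Lib.NIL

open Finsupp TensorProduct

section Fib

variable {R ι K : Type} [Ring R]

/-- integer chains as chains over `R` -/
def zc (R : Type) [Ring R] {K : Type} : (K →₀ ℤ) →+ (K →₀ R) :=
  mapRange.addMonoidHom (Int.castAddHom R)

theorem zc_apply (v : K →₀ ℤ) (c : K) : zc R v c = (v c : R) := rfl

theorem zc_single (c : K) (n : ℤ) : zc R (single c n) = single c (n : R) := by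
  simp [zc]

theorem lc_zc {M : Type} [AddCommGroup M] [Module R M] (F : K → M) (v : K →₀ ℤ) :
    linearCombination R F (zc R v) = linearCombination ℤ F v := by
  induction v using Finsupp.induction_linear with
  | zero => simp
  | add x y hx hy => rw [map_add, map_add, hx, hy, map_add]
  | single c n => simp [zc_single, Int.cast_smul_eq_zsmul]

theorem map_lcZ {M N : Type} [AddCommGroup M] [AddCommGroup N] (φ : M →+ N) (F : K → M)
    (v : K →₀ ℤ) : φ (linearCombination ℤ F v) = linearCombination ℤ (fun c => φ (F c)) v := by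
  induction v using Finsupp.induction_linear with
  | zero => simp
  | add x y hx hy => rw [map_add, map_add, hx, hy, map_add]
  | single c n => simp

theorem lc_zc_zc (F : K → K →₀ ℤ) (v : K →₀ ℤ) :
    lc (fun c => zc R (F c)) (zc R v) = zc R (linearCombination ℤ F v) :=
  (lc_zc _ v).trans (map_lcZ (zc R) F v).symm

/-- a fibrewise map with integer entries -/
def fib (R : Type) [Ring R] (σ : ι → ℤˣ) (F : K → K →₀ ℤ) : (ι × K →₀ R) →ₗ[R] (ι × K →₀ R) :=
  lc fun p => σ p.1 • mapDomain (Prod.mk p.1) (zc R (F p.2))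

theorem fib_single (σ : ι → ℤˣ) (F : K → K →₀ ℤ) (y : ι) (c : K) :
    fib R σ F (single (y, c) 1) = σ y • mapDomain (Prod.mk y) (zc R (F c)) := by
  simp [fib]

theorem fib_emb (σ : ι → ℤˣ) (F : K → K →₀ ℤ) (y : ι) (v : K →₀ ℤ) :
    fib R σ F (mapDomain (Prod.mk y) (zc R v)) =
      σ y • mapDomain (Prod.mk y) (zc R (linearCombination ℤ F v)) := by
  induction v using Finsupp.induction_linear with
  | zero => simp
  | add x y hx hy => simp only [map_add, mapDomain_add, hx, hy, smul_add]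
  | single c n =>
    rw [zc_single, mapDomain_single, ← mul_one (n : R), ← smul_eq_mul, ← smul_single, map_smul,
      fib_single, linearCombination_single, map_zsmul, Int.cast_smul_eq_zsmul, smul_comm]
    congr 1
    exact (map_zsmul (mapDomain.addMonoidHom (M := R) (Prod.mk y : K → ι × K)) n _).symm

theorem fib_entry (σ : ι → ℤˣ) (F : K → K →₀ ℤ) (a a' : ι × K) : ∃ n : ℤ,
    fib R σ F (single a 1) a' = n ∧ (n ≠ 0 → a.1 = a'.1 ∧ F a.2 a'.2 ≠ 0) := by
  obtain ⟨y, c⟩ := a
  obtain ⟨y', c'⟩ := a'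
  rw [fib_single, Finsupp.smul_apply]
  by_cases h : y = y'
  · subst h
    refine ⟨σ y * F c c', ?_, fun h => ⟨rfl, right_ne_zero_of_mul h⟩⟩
    rw [mapDomain_apply (Prod.mk_right_injective y), zc_apply, Units.smul_def, zsmul_eq_mul,
      Int.cast_mul]
  · refine ⟨0, ?_, fun h => absurd rfl h⟩
    rw [mapDomain_of_notMem_range _ _ fun ⟨x, e⟩ => h (congrArg Prod.fst e), smul_zero,
      Int.cast_zero]

theorem fib_ne_zero {σ : ι → ℤˣ} {F : K → K →₀ ℤ} {a a' : ι × K}
    (h : fib R σ F (single a 1) a' ≠ 0) : a.1 = a'.1 ∧ F a.2 a'.2 ≠ 0 := by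
  obtain ⟨n, e, hn⟩ := fib_entry (R := R) σ F a a'
  exact hn fun h0 => h (by rw [e, h0, Int.cast_zero])

/-- the augmentation -/
def aug (R ι : Type) [Ring R] (eps : K → ℤ) : (ι × K →₀ R) →ₗ[R] (ι →₀ R) :=
  lc fun p => single p.1 (eps p.2 : R)

theorem aug_single (eps : K → ℤ) (y : ι) (c : K) (a : R) :
    aug R ι eps (single (y, c) a) = single y (a * eps c) := by
  simp [aug]

theorem aug_emb (eps : K → ℤ) (y : ι) (v : K →₀ R) : aug R ι eps (mapDomain (Prod.mk y) v) =
    single y (linearCombination R (fun c => (eps c : R)) v) := by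
  induction v using Finsupp.induction_linear with
  | zero => simp
  | add x y hx hy => simp only [map_add, mapDomain_add, hx, hy, single_add]
  | single c n => simp [aug_single]

theorem aug_fib {eps : K → ℤ} {F : K → K →₀ ℤ} (h : ∀ c, linearCombination ℤ eps (F c) = 0)
    (σ : ι → ℤˣ) : aug R ι eps ∘ₗ fib R σ F = 0 := by
  refine lhom_ext' fun a => LinearMap.ext_ring ?_
  change aug R ι eps (fib R σ F (single (a.1, a.2) 1)) = 0
  have := map_lcZ (Int.castAddHom R) eps (F a.2)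
  rw [h, map_zero] at this
  rw [fib_single, Units.smul_def, map_zsmul, aug_emb, lc_zc]
  erw [← this]
  simp

end Fib

namespace CellSys

variable {G O X K : Type} [Group G] [MulAction G O] [MulAction G X] [MulAction G K]
  (P : CellSys G O X K) (B : Type) [CommRing B]

theorem sgn_one (c : K) : P.sgn 1 c = 1 := by
  have := P.sgn_mul 1 1 c
  rw [one_mul, one_smul] at this
  exact left_eq_mul.1 this

/-- translation of a cell by an element of the group ring -/
def act (c : K) : B ⊗[ℤ] MonoidAlgebra ℤ G →ₗ[B] (K →₀ B ⊗[ℤ] MonoidAlgebra ℤ G) :=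
  (Algebra.TensorProduct.basis B (MonoidAlgebra.basis G ℤ)).constr B fun g =>
    single (g⁻¹ • c) (P.sgn g (g⁻¹ • c) • (1 : B) ⊗ₜ[ℤ] MonoidAlgebra.single g (1 : ℤ))

variable {B}

theorem act_gen (c : K) (g : G) (b : B) : P.act B c (b ⊗ₜ MonoidAlgebra.single g 1) =
    single (g⁻¹ • c) (P.sgn g (g⁻¹ • c) • b ⊗ₜ[ℤ] MonoidAlgebra.single g (1 : ℤ)) := by
  have : b ⊗ₜ[ℤ] MonoidAlgebra.single g (1 : ℤ) =
      b • Algebra.TensorProduct.basis B (MonoidAlgebra.basis G ℤ) g := by
    rw [Algebra.TensorProduct.basis_apply, MonoidAlgebra.basis_apply, smul_tmul', smul_eq_mul,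
      mul_one]
  conv_lhs => rw [this]
  rw [map_smul, act, Module.Basis.constr_basis, smul_single, smul_comm, smul_tmul', smul_eq_mul,
    mul_one]

theorem act_mul (c : K) (x y : B ⊗[ℤ] MonoidAlgebra ℤ G) :
    P.act B c (x * y) = lc (fun e => P.act B e y) (P.act B c x) := by
  refine bc_sfam_induction (P := fun x => P.act B c (x * y) =
    lc (fun e => P.act B e y) (P.act B c x)) (mem_bc_sfam_top x) (fun g b _ => ?_) (by simp)
    fun x x' hx hx' => by rw [add_mul, map_add, map_add, map_add, hx, hx']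
  rw [act_gen, linearCombination_single]
  refine bc_sfam_induction (P := fun y => P.act B c (b ⊗ₜ MonoidAlgebra.single g 1 * y) =
    (P.sgn g (g⁻¹ • c) • b ⊗ₜ[ℤ] MonoidAlgebra.single g (1 : ℤ)) • P.act B (g⁻¹ • c) y)
    (mem_bc_sfam_top y) (fun g' b' _ => ?_) (by simp)
    fun x x' hx hx' => by rw [mul_add, map_add, map_add, smul_add, hx, hx']
  rw [Algebra.TensorProduct.tmul_mul_tmul, MonoidAlgebra.single_mul_single, mul_one, act_gen,
    act_gen, smul_single, smul_eq_mul, smul_mul_smul_comm, Algebra.TensorProduct.tmul_mul_tmul,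
    MonoidAlgebra.single_mul_single, mul_one, mul_inv_rev, mul_smul, P.sgn_mul, smul_inv_smul]

theorem act_one (c : K) : P.act B c 1 = single c 1 := by
  have := P.act_gen c 1 (1 : B)
  rwa [inv_one, one_smul, sgn_one, one_smul] at this

theorem act_entry {p : G → Prop} {x : B ⊗[ℤ] MonoidAlgebra ℤ G} (hx : x ∈ bcF B (sfam p))
    (c e : K) : P.act B c x e ∈ bcF B (gfam G X (P.lab c) (P.lab e)) ∧
      (P.act B c x e ≠ 0 → ∃ g, p g ∧ g • e = c) := by
  refine bc_sfam_induction (P := fun x => P.act B c x e ∈ bcF B (gfam G X (P.lab c) (P.lab e)) ∧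
    (P.act B c x e ≠ 0 → ∃ g, p g ∧ g • e = c)) hx (fun g b hg => ?_) (by simp) ?_
  · rw [act_gen]
    by_cases h : g⁻¹ • c = e
    · subst h
      rw [single_eq_same]
      refine ⟨?_, fun _ => ⟨g, hg, smul_inv_smul _ _⟩⟩
      rw [Units.smul_def]
      refine zsmul_mem (tmul_mem_bcF b (single_mem_sfam (p := fun g' => g' • _ = _) ?_ 1)) _
      rw [← P.lab_smul, smul_inv_smul]
    · rw [single_eq_of_ne' h]
      exact ⟨zero_mem _, fun h => absurd rfl h⟩
  · intro x y hx hy
    rw [map_add, Finsupp.add_apply]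
    refine ⟨add_mem hx.1 hy.1, fun h => ?_⟩
    by_cases h0 : P.act B c x e = 0
    · exact hy.2 fun h1 => h (by rw [h0, h1, add_zero])
    · exact hx.2 h0

theorem act_bd (c : K) (x : B ⊗[ℤ] MonoidAlgebra ℤ G) :
    lc (fun e => zc _ (P.bd e)) (P.act B c x) = lc (fun e => P.act B e x) (zc _ (P.bd c)) := by
  refine bc_sfam_induction (P := fun x => lc (fun e => zc _ (P.bd e)) (P.act B c x) =
    lc (fun e => P.act B e x) (zc _ (P.bd c))) (mem_bc_sfam_top x) (fun g b _ => ?_)
    (by simp [linearCombination_apply]) fun x x' hx hx' => ?_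
  · rw [act_gen, linearCombination_single, lc_zc]
    simp only [act_gen]
    ext e
    have h1 : ∀ v : K →₀ ℤ, linearCombination ℤ (fun e => single (g⁻¹ • e)
        (P.sgn g (g⁻¹ • e) • b ⊗ₜ[ℤ] MonoidAlgebra.single g (1 : ℤ))) v e =
        (v (g • e) * P.sgn g e) • b ⊗ₜ[ℤ] MonoidAlgebra.single g (1 : ℤ) := by
      intro v
      induction v using Finsupp.induction_linear with
      | zero => simp
      | add x y hx hy => rw [map_add, Finsupp.add_apply, hx, hy, Finsupp.add_apply, add_mul,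
          add_smul]
      | single c' n =>
        rw [linearCombination_single, Finsupp.smul_apply]
        by_cases h : c' = g • e
        · subst h
          rw [inv_smul_smul, single_eq_same, single_eq_same, mul_smul, Units.smul_def]
        · rw [single_eq_of_ne' h, single_eq_of_ne' fun h' => h (by rw [← h', smul_inv_smul]),
            smul_zero, zero_mul, zero_smul]
    have h2 := P.bd_smul g (g⁻¹ • c) e
    rw [smul_inv_smul] at h2
    rw [h1, h2, Finsupp.smul_apply, zc_apply, smul_eq_mul, mul_smul, Units.smul_def, smul_mul_assoc,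
      zsmul_eq_mul (b ⊗ₜ[ℤ] MonoidAlgebra.single g (1 : ℤ)), Int.cast_comm]
  · rw [map_add, map_add, hx, hx', linearCombination_apply, linearCombination_apply,
      linearCombination_apply, ← sum_add]
    simp only [map_add, smul_add]

theorem act_eps (c : K) (x : B ⊗[ℤ] MonoidAlgebra ℤ G) :
    linearCombination _ (fun e => (P.eps e : B ⊗[ℤ] MonoidAlgebra ℤ G)) (P.act B c x) =
      P.eps c • x := by
  refine bc_sfam_induction (P := fun x => linearCombination _
    (fun e => (P.eps e : B ⊗[ℤ] MonoidAlgebra ℤ G)) (P.act B c x) = P.eps c • x)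
    (mem_bc_sfam_top x) (fun g b _ => ?_) (by simp)
    fun x x' hx hx' => by rw [map_add, map_add, hx, hx', smul_add]
  have h := P.eps_smul g (g⁻¹ • c)
  rw [smul_inv_smul] at h
  rw [act_gen, linearCombination_single, ← h, smul_eq_mul, ← Int.cast_comm, ← zsmul_eq_mul,
    Units.smul_def, smul_smul, mul_assoc, ← Units.val_mul, Int.units_mul_self, Units.val_one,
    mul_one]

variable (B)

/-- tensoring with the cellular chains -/
def bm : BM (B ⊗[ℤ] MonoidAlgebra ℤ G) O (B ⊗[ℤ] MonoidAlgebra ℤ G) X K :=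
  ⟨fun a c => P.act B c a, P.dg, fun _ => P.lab, fun c => zc _ (P.bd c)⟩

theorem isBM : IsBM (bcat fun o o' => bcF B (gfam G O o o'))
    (bcat fun s s' => bcF B (P.T s s')) (P.bm B) where
  add a b c := map_add _ _ _
  one := P.act_one
  mul _ _ c := P.act_mul c _ _
  mem {n o o' a} ha c e := by
    obtain ⟨h1, h2⟩ := P.act_entry (mem_bc_sfam_top a) c e
    refine mem_bcatR.2 ⟨bcF_mono (P.gfam_le _ _) h1, fun hn => ?_⟩
    by_contra h0
    obtain ⟨g, -, rfl⟩ := h2 h0
    have : a = 0 := (mem_bcatR.1 ha).2 fun h => hn (by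
      change n + P.dg (g • e) - P.dg e = 0
      rw [h, P.dg_smul, zero_add, sub_self])
    exact h0 (by
      change P.act B (g • e) a e = 0
      rw [this, map_zero, Finsupp.zero_apply])
  pt o := by
    refine (P.T_bas.bc B).good.obj_of_basis (bcat_hom.2 fun c e => ?_) fun c => ?_
    · change lc (fun c => zc _ (P.bd c)) (single c 1) e ∈ _ ∧ (lc (fun c => zc _ (P.bd c))
        (single c 1) e ≠ 0 → _)
      rw [linearCombination_single, one_smul, zc_apply]
      by_cases h0 : P.bd c e = 0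
      · simp [h0]
      · refine ⟨?_, fun _ => (P.bd_supp c e h0).1⟩
        rw [← zsmul_one]
        refine zsmul_mem (tmul_mem_bcF 1 (single_mem_sfam (p := fun g => P.le (g • _) _) ?_ 1)) _
        rw [one_smul]
        exact (P.bd_supp c e h0).2
    · rw [bcat_D]
      change lc (fun c => zc _ (P.bd c)) (lc (fun c => zc _ (P.bd c)) (single c 1)) = 0
      rw [linearCombination_single, one_smul, lc_zc_zc, P.bd_bd, map_zero]
  d {n o o' a} ha c := by
    rw [bcat_D]
    change lc (fun e => zc _ (P.bd e)) (P.act B c a) =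
      P.act B c 0 + n.negOnePow • lc (fun e => P.act B e a) (zc _ (P.bd c))
    rw [map_zero, zero_add, act_bd]
    by_cases hn : n = 0
    · rw [hn, Int.negOnePow_zero, one_smul]
    · rw [(mem_bcatR.1 ha).2 hn]
      simp [linearCombination_apply]

theorem aug_bmL {R ι : Type} [Ring R] {act : R → K → K →₀ R}
    (heps : ∀ a c, linearCombination R (fun e => (P.eps e : R)) (act a c) = P.eps c • a)
    (r : (ι →₀ R) →ₗ[R] (ι →₀ R)) : aug R ι P.eps ∘ₗ bmL act r = r ∘ₗ aug R ι P.eps := by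
  refine lhom_ext' fun a => LinearMap.ext_ring ?_
  change aug _ ι P.eps (bmL act r (single (a.1, a.2) 1)) =
    r (aug _ ι P.eps (single (a.1, a.2) 1))
  have e : (single a.1 (P.eps a.2 : R) : ι →₀ _) =
      P.eps a.2 • single a.1 1 := by rw [smul_single, zsmul_one]
  rw [aug_single, one_mul, e, map_zsmul, bmL, linearCombination_single, one_smul, map_finsuppSum]
  conv_rhs => rw [← (r (single a.1 1)).sum_single, Finsupp.sum, Finset.smul_sum]
  refine Finset.sum_congr rfl fun y _ => ?_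
  beta_reduce
  rw [aug_emb, smul_single]
  exact congrArg _ (heps _ _)

theorem sl_of {R : Type} [Ring R] {Rf : O → O → AddSubgroup R} {Tf : X → X → AddSubgroup R}
    (hR : IsBas Rf) (hT : IsBas Tf) (hle : ∀ s s', Tf s s' ≤ Rf (P.π s) (P.π s'))
    {act : R → K → K →₀ R} (hB : IsBM (bcat Rf) (bcat Tf)
      ⟨act, P.dg, fun _ => P.lab, fun c => zc R (P.bd c)⟩)
    (hsupp : ∀ a o o' c e, a ∈ Rf o o' → P.π (P.lab c) = o → act a c e ≠ 0 → P.π (P.lab e) = o')
    (heps : ∀ a c, linearCombination R (fun e => (P.eps e : R)) (act a c) = P.eps c • a) :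
    SL Rf P.π Tf := by
  intro W ρ hW hf hρ
  have hF := hR.rkF
  have fB := hB.isFn hR.good hT.good
  have h0 : ∀ k, act 0 k = 0 := hB.act_zero
  have : IsTrans W.ι fun y y' => ρ y' < ρ y := ⟨fun _ _ _ h h' => h'.trans h⟩
  have : Std.Irrefl fun y y' : W.ι => ρ y' < ρ y := ⟨fun _ => lt_irrefl _⟩
  obtain ⟨S, hS, hQ⟩ := exists_top_down
    (Finite.wellFounded_of_trans_of_irrefl fun y y' : W.ι => ρ y' < ρ y)
    (fun y (S : Set K) => S.Finite ∧ P.b (W.lab y) ∈ S ∧ ∀ c ∈ S, P.π (P.lab c) = W.lab y ∧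
      (∀ e, P.bd c e ≠ 0 → e ∈ S) ∧ ∀ e, P.s0 c e ≠ 0 → e ∈ S)
    (fun y y' S S' => ∀ c ∈ S, ∀ e, act (W.δ (single y 1) y') c e ≠ 0 → e ∈ S') (by
      intro y' S hS
      obtain ⟨S', a1, a2, a3, a4⟩ := P.hull (W.lab y') (⋃ y, ⋃ hy : ρ y' < ρ y, ⋃ c ∈ S y hy,
        ((act (W.δ (single y 1) y') c).support : Set K))
        (Set.finite_iUnion fun y => Set.finite_iUnion fun hy => (hS y hy).1.biUnion
          fun c _ => Finset.finite_toSet _) (by
          intro e he
          simp only [Set.mem_iUnion, Finset.mem_coe, mem_support_iff] at he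
          obtain ⟨y, hy, c, hc, he⟩ := he
          exact hsupp _ _ _ c e ((bcat_hom.1 hW.1) y y').1 ((hS y hy).2.2 _ hc).1 he)
      refine ⟨S', ⟨a1, a3, a4⟩, fun y hy c hc e he => a2 ?_⟩
      simp only [Set.mem_iUnion, Finset.mem_coe, mem_support_iff]
      exact ⟨y, hy, c, hc, he⟩)
  let p : W.ι × K → Prop := fun a => a.2 ∈ S a.1
  let σ : W.ι → ℤˣ := fun y => (W.deg y).negOnePow
  let T : BM R O R X K := ⟨act, P.dg, fun _ => P.lab, fun c => zc R (P.bd c)⟩
  let t := bmL act W.δ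
  let d := fib R σ P.bd
  let s := fib R σ P.s0
  have te : ∀ a a' : W.ι × K, t (single a 1) a' = act (W.δ (single a.1 1) a'.1) a.2 a'.2 :=
    fun a a' => bmL_single h0 W.δ a.1 a.2 a'.1 a'.2
  have tρ : ∀ a a' : W.ι × K, t (single a 1) a' ≠ 0 → ρ a'.1 < ρ a.1 := fun a a' h =>
    hρ _ _ fun h' => h (by rw [te, h', h0, Finsupp.zero_apply])
  have pt : ∀ a a', p a → t (single a 1) a' ≠ 0 → p a' := fun a a' ha h =>
    hQ a.1 a'.1 (tρ a a' h) a.2 ha a'.2 (by rwa [te] at h)
  have pd : ∀ a a', p a → d (single a 1) a' ≠ 0 → p a' := fun a a' ha h => by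
    obtain ⟨e1, e2⟩ := fib_ne_zero h
    change a'.2 ∈ S a'.1
    rw [← e1]
    exact ((hS _).2.2 _ ha).2.1 _ e2
  have ps : ∀ a a', p a → s (single a 1) a' ≠ 0 → p a' := fun a a' ha h => by
    obtain ⟨e1, e2⟩ := fib_ne_zero h
    change a'.2 ∈ S a'.1
    rw [← e1]
    exact ((hS _).2.2 _ ha).2.2 _ e2
  have hI : (bcat Tf).Obj (W.bm T) := fB.obj hW
  have hcl : (W.bm T).Closed p := fun a a' ha h => by
    by_cases h1 : t (single a 1) a' = 0
    · exact pd a a' ha fun h2 => h (by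
        change t (single a 1) a' + d (single a 1) a' = 0
        rw [h1, h2, add_zero])
    · exact pt a a' ha h1
  let Z := (W.bm T).res p
  have hZ : (bcat Tf).Obj Z := (hT.good.ses_res hI hcl).1
  have hZf : Finite Z.ι := ((Set.finite_iUnion fun y => (hS y).1.image (Prod.mk y)).subset
    (t := {a | p a}) fun a ha => Set.mem_iUnion.2 ⟨a.1, a.2, ha, rfl⟩).to_subtype
  let i : Lin Z (W.bm T) := inc Subtype.val
  let q : Lin (W.bm T) Z := prj Subtype.val Subtype.val_injective
  have ii : Function.Injective i := inc_injective Subtype.val_injective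
  have i1 : ∀ z : Z.ι, i (single z 1) = single z.1 1 := fun z => mapDomain_single
  let t' : Lin Z Z := q ∘ₗ t ∘ₗ i
  let d' : Lin Z Z := q ∘ₗ d ∘ₗ i
  let s' : Lin Z Z := q ∘ₗ s ∘ₗ i
  let j' : Lin W (Z.relab P.π) := lc fun y => single ⟨(y, P.b (W.lab y)), (hS y).2.1⟩ 1
  let ε' : Lin (Z.relab P.π) W := aug _ W.ι P.eps ∘ₗ i
  have it : ∀ v, i (t' v) = t (i v) := inc_prj_comp (p := p) (q := p) (F := t) pt
  have id' : ∀ v, i (d' v) = d (i v) := inc_prj_comp (p := p) (q := p) (F := d) pd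
  have is : ∀ v, i (s' v) = s (i v) := inc_prj_comp (p := p) (q := p) (F := s) ps
  have ij : ∀ y, i (j' (single y 1)) = single (y, P.b (W.lab y)) 1 := fun y => by
    change i (lc _ (single y 1)) = _
    rw [linearCombination_single, one_smul, i1]
  have qe : ∀ (F : Lin (W.bm T) (W.bm T)) (z z' : Z.ι),
      (q ∘ₗ F ∘ₗ i) (single z 1) z' = F (single z.1 1) z'.1 := fun F z z' => by
    rw [← i1]
    rfl
  have hδ : Z.δ = t' + d' := by
    change q ∘ₗ (t + d) ∘ₗ i = _
    rw [LinearMap.add_comp, LinearMap.comp_add]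
  have σσ : ∀ y (v : W.ι × K →₀ R), σ y • σ y • v = v := fun y v => by
    rw [smul_smul, Int.units_mul_self, one_smul]
  let Zf : Raw R (O × ℕ) :=
    ⟨Z.ι, Z.deg, fun z => (W.lab z.1.1, ρ z.1.1), 0⟩
  let Wf : Raw R (O × ℕ) := ⟨W.ι, W.deg, fun y => (W.lab y, ρ y), 0⟩
  have hπ : ∀ z : Z.ι, P.π (Z.lab z) = W.lab z.1.1 := fun z => ((hS _).2.2 _ z.2).1
  have ft : (bcat (rkF Rf)).Hom 1 Zf Zf t' := by
    refine bcat_hom.2 fun z z' => ?_
    have := bcat_hom.1 (fB.hom hW.1) z.1 z'.1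
    rw [qe]
    refine ⟨⟨?_, fun h => (tρ _ _ h).le⟩, this.2⟩
    have a := hle _ _ this.1
    rw [show P.π _ = _ from hπ z, show P.π _ = _ from hπ z'] at a
    exact a
  have fd : (bcat (rkF Rf)).Hom 1 Zf Zf d' := by
    refine hF.hom_of_int fun z z' => ?_
    obtain ⟨n, e, hn⟩ := fib_entry (R := R) σ P.bd z.1 z'.1
    refine ⟨n, (qe _ _ _).trans e, fun h => ?_⟩
    obtain ⟨e1, e2⟩ := hn h
    have := (P.bd_supp _ _ e2).1
    refine ⟨by simp only [Zf, e1], ?_⟩
    change W.deg z'.1.1 + P.dg z'.1.2 = W.deg z.1.1 + P.dg z.1.2 + 1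
    rw [e1, this, add_assoc]
  have fs : (bcat (rkF Rf)).Hom (-1) Zf Zf s' := by
    refine hF.hom_of_int fun z z' => ?_
    obtain ⟨n, e, hn⟩ := fib_entry (R := R) σ P.s0 z.1 z'.1
    refine ⟨n, (qe _ _ _).trans e, fun h => ?_⟩
    obtain ⟨e1, e2⟩ := hn h
    have := P.s0_supp _ _ e2
    refine ⟨by simp only [Zf, e1], ?_⟩
    change W.deg z'.1.1 + P.dg z'.1.2 = W.deg z.1.1 + P.dg z.1.2 + -1
    rw [e1, ← this]
    ring
  have fj : (bcat (rkF Rf)).Hom 0 Wf Zf j' := by
    intro y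
    change lc _ (single y 1) ∈ _
    rw [linearCombination_single, one_smul]
    refine Cat.single_mem_M (mem_bcatR.2 ⟨hF.one_mem _, fun h => absurd ?_ h⟩)
    change W.deg y + 0 - (W.deg y + P.dg (P.b (W.lab y))) = 0
    rw [P.eps_supp _ (by rw [P.eps_b]; exact one_ne_zero), sub_self]
  have fε : (bcat (rkF Rf)).Hom 0 Zf Wf ε' := by
    refine hF.hom_of_int fun z y => ?_
    have e : ε' (single z 1) = single z.1.1 (P.eps z.1.2 : R) := by
      change aug _ W.ι P.eps (i (single z 1)) = _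
      rw [i1]
      exact (aug_single _ _ _ _).trans (by rw [one_mul])
    rw [e]
    by_cases h : z.1.1 = y
    · subst h
      refine ⟨P.eps z.1.2, single_eq_same, fun h => ⟨rfl, ?_⟩⟩
      change W.deg z.1.1 = W.deg z.1.1 + P.dg z.1.2 + 0
      rw [P.eps_supp _ h, add_zero, add_zero]
    · exact ⟨0, by rw [single_eq_of_ne' h, Int.cast_zero], fun h => absurd rfl h⟩
  have hn : LN (-(s' ∘ₗ t')) := by
    refine ln_of_wf (r := fun z' z : Z.ι => ρ z'.1.1 < ρ z.1.1)
      (InvImage.wf (fun z : Z.ι => ρ z.1.1) wellFounded_lt) fun z z' h => ?_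
    obtain ⟨m, h1, h2⟩ := lin_ne_zero s' (v := t' (single z 1)) (neg_ne_zero.1 h)
    rw [qe] at h1 h2
    rw [← (fib_ne_zero h2).1]
    exact tρ _ _ h1
  obtain ⟨u, fu, u1, u2⟩ := hF.good.exists_inv (V := Zf)
    (Cat.Hom.neg (hF.good.hom_comp ft fs (add_neg_cancel 1))) hn
  have hd : ∀ (y : W.ι) (c : K), d (single (y, c) 1) = _ := fib_single σ P.bd
  have hs : ∀ (y : W.ι) (c : K), s (single (y, c) 1) = _ := fib_single σ P.s0
  have q1 : ∀ x, ε' (s' x) = 0 := fun x => by
    change aug R W.ι P.eps (i (s' x)) = 0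
    rw [is]
    exact LinearMap.congr_fun (aug_fib (R := R) P.eps_s0 σ) (i x)
  have q2 : ∀ y, d' (j' y) = 0 := fun y => by
    have : d' ∘ₗ j' = 0 := lhom_ext' fun y => LinearMap.ext_ring (ii (by
      change i (d' (j' (single y 1))) = i 0
      rw [id', ij, hd, P.bd_b, map_zero, mapDomain_zero, smul_zero, map_zero]))
    exact LinearMap.congr_fun this y
  have q3 : ∀ y, ε' (j' y) = y := fun y => by
    have : ε' ∘ₗ j' = LinearMap.id := lhom_ext' fun y => LinearMap.ext_ring (by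
      change aug R W.ι P.eps (i (j' (single y 1))) = single y 1
      rw [ij, aug_single, P.eps_b, Int.cast_one, one_mul])
    exact LinearMap.congr_fun this y
  have q4 : ∀ x, ε' (d' x) = 0 := fun x => by
    change aug R W.ι P.eps (i (d' x)) = 0
    rw [id']
    exact LinearMap.congr_fun (aug_fib (R := R) P.eps_bd σ) (i x)
  have q5 : ∀ x, ε' (t' x) = W.δ (ε' x) := fun x => by
    change aug R W.ι P.eps (i (t' x)) = W.δ (aug R W.ι P.eps (i x))
    rw [it]
    exact LinearMap.congr_fun (P.aug_bmL heps W.δ) (i x)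
  have q6 : ∀ x, d' (s' x) + s' (d' x) = x - j' (ε' x) := fun x => by
    have : d' ∘ₗ s' + s' ∘ₗ d' = LinearMap.id - j' ∘ₗ ε' :=
      lhom_ext' fun z => LinearMap.ext_ring (ii (by
        change i (d' (s' (single z 1)) + s' (d' (single z 1))) =
          i (single z 1 - j' (aug R W.ι P.eps (i (single z 1))))
        rw [map_add, map_sub, id', is, is, id', i1]
        obtain ⟨⟨y, c⟩, hz⟩ := z
        have e : (single y (P.eps c : R) : W.ι →₀ R) = P.eps c • single y 1 := by
          rw [smul_single, zsmul_one]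
        rw [aug_single, one_mul, e, map_zsmul, map_zsmul,
          ij, hs, hd, Units.smul_def, Units.smul_def, map_zsmul, map_zsmul, fib_emb, fib_emb,
          ← Units.smul_def, ← Units.smul_def, σσ, σσ, ← mapDomain_add, ← map_add, P.contr,
          ((hS y).2.2 c hz).1, map_sub, mapDomain_sub, zc_single, zc_single, mapDomain_single,
          mapDomain_single, Int.cast_one, smul_single, zsmul_one]))
    exact LinearMap.congr_fun this x
  have q7 : ∀ x, d' (d' x) = 0 := fun x => by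
    have : d' ∘ₗ d' = 0 := lhom_ext' fun z => LinearMap.ext_ring (ii (by
      change i (d' (d' (single z 1))) = i 0
      rw [id', id', i1]
      obtain ⟨⟨y, c⟩, hz⟩ := z
      rw [hd, Units.smul_def, map_zsmul, fib_emb, P.bd_bd, map_zero,
        mapDomain_zero, smul_zero, smul_zero, map_zero]))
    exact LinearMap.congr_fun this x
  have q8 : ∀ x, (t' + d') ((t' + d') x) = 0 := fun x => by
    have := hZ.2 x
    rwa [bcat_D, bcat_D, hδ] at this
  have q9 : ∀ x, u (x + s' (t' x)) = x := fun x => by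
    have := LinearMap.congr_fun u1 x
    rwa [LinearMap.comp_apply, LinearMap.sub_apply, LinearMap.neg_apply, sub_neg_eq_add] at this
  have q10 : ∀ x, u x + s' (t' (u x)) = x := fun x => by
    have := LinearMap.congr_fun u2 x
    rwa [LinearMap.comp_apply, LinearMap.sub_apply, LinearMap.neg_apply, sub_neg_eq_add] at this
  obtain ⟨k1, k2, k3, k4, k5, k6⟩ := hpl0 q1 q2 q3 q4 q5 q6 q7 q8 q9 q10
  have fι := hF.good.hom_comp fj fu (add_zero 0)
  have fh := hF.good.hom_comp (hF.good.hom_id.sub (hF.good.hom_comp fε fι (add_zero 0)))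
    (hF.good.hom_comp fs fu (add_zero _)) (zero_add _)
  have g1 : (bcat Rf).Hom 0 (Z.relab P.π) W ε' := bcat_hom.2 fun z y => by
    have := bcat_hom.1 fε z y
    refine ⟨?_, this.2⟩
    change _ ∈ Rf (P.π (Z.lab z)) _
    rw [hπ]
    exact this.1.1
  have g2 : (bcat Rf).Hom 0 W (Z.relab P.π) (u ∘ₗ j') := bcat_hom.2 fun y z => by
    have := bcat_hom.1 fι y z
    refine ⟨?_, this.2⟩
    change _ ∈ Rf _ (P.π (Z.lab z))
    rw [hπ]
    exact this.1.1
  have g3 : (bcat Rf).Hom (-1) (Z.relab P.π) (Z.relab P.π)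
      ((u ∘ₗ s') ∘ₗ (LinearMap.id - (u ∘ₗ j') ∘ₗ ε')) := bcat_hom.2 fun z z' => by
    have := bcat_hom.1 fh z z'
    refine ⟨?_, this.2⟩
    change _ ∈ Rf (P.π (Z.lab z)) (P.π (Z.lab z'))
    rw [hπ, hπ]
    exact this.1.1
  refine ⟨Z, fun z => ρ z.1.1, ε', u ∘ₗ j', (u ∘ₗ s') ∘ₗ (LinearMap.id - (u ∘ₗ j') ∘ₗ ε'), hZ, hZf,
    ⟨g1, fun v => ?_⟩, ⟨g2, fun v => ?_⟩, g3, LinearMap.ext fun v => ?_, LinearMap.ext fun v => ?_,
    LinearMap.ext fun v => ?_, fun v => ?_, fun z z' h => ?_, fun z y h => ?_, fun y z h => ?_⟩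
  · rw [bcat_D, bcat_D]
    change W.δ (ε' v) = ε' (Z.δ v)
    rw [hδ, k1]
  · rw [bcat_D, bcat_D]
    change Z.δ (u (j' v)) = u (j' (W.δ v))
    rw [hδ, k2]
  · exact k3 v
  · change ε' (u (s' (v - u (j' (ε' v))))) = 0
    exact k4 v
  · change u (s' (u (j' v) - u (j' (ε' (u (j' v)))))) = 0
    exact k5 v
  · change Z.δ (u (s' (v - u (j' (ε' v))))) + u (s' (Z.δ v - u (j' (ε' (Z.δ v))))) =
      v - u (j' (ε' v))
    rw [hδ]
    exact k6 v
  · rw [hδ] at h
    exact (bcat_hom.1 (ft.add fd) z z').1.2 h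
  · exact (bcat_hom.1 fε z y).1.2 h
  · exact (bcat_hom.1 fι y z).1.2 h

theorem sl : SL (fun o o' => bcF B (gfam G O o o')) P.π fun s s' => bcF B (P.T s s') := by
  refine P.sl_of ((gfam_bas G O).bc B) (P.T_bas.bc B) (fun s s' => bcF_mono (P.T_le s s'))
    (P.isBM B) (fun a o o' c e ha hc he => ?_) fun a c => P.act_eps c a
  obtain ⟨g, hg, rfl⟩ := (P.act_entry (p := fun g => g • o' = o) ha c e).2 he
  rw [P.lab_smul, P.π_smul, ← hg] at hc
  exact smul_left_cancel g hc

/-- LIFT -/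
theorem lift {E : Type} [Ring E] {j : ℤ} {C : Cat E O} {I : MonoidAlgebra ℤ G →+ E}
    {U : E →+ MonoidAlgebra ℤ G} (h : Aug j C (bcat (gfam G O)) I U) {V : Raw (B ⊗[ℤ] E) O}
    (hV : (C.bc B).Obj V) (hf : V.Fin1) : ∃ Y, ((C.refine P.π P.T U).bc B).Obj Y ∧ Y.Fin1 ∧
      (C.bc B).Eqv (Y.relab P.π) V := by
  have hB := h.bc B
  rw [bcat_bc] at hB
  rw [h.refine_bc P.T_le]
  exact hB.lift_of_SL (P.T_bas.bc B) (fun s s' => bcF_mono (P.T_le s s')) (P.sl B) hV hf

/-- LIFT over the base -/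
theorem lift₀ {V : Raw (B ⊗[ℤ] MonoidAlgebra ℤ G) O} (hV : ((bcat (gfam G O)).bc B).Obj V)
    (hf : Finite V.ι) : ∃ Y, ((bcat P.T).bc B).Obj Y ∧ Finite Y.ι ∧
      ((bcat (gfam G O)).bc B).Eqv (Y.relab P.π) V := by
  rw [bcat_bc] at hV ⊢
  rw [bcat_bc]
  obtain ⟨ρ, hρ⟩ := (((gfam_bas G O).bc B).good.fin1_of_zero
    (fun k o o' a hk ha => (mem_bcatR.1 ha).2 hk) hV hf).rank
  obtain ⟨Z, p, ε, ι, k, hZ, hZf, hε, hι, hk, e1, -, -, e4, -⟩ := P.sl B V ρ hV hf hρ
  refine ⟨Z, hZ, hZf, ε, hε, ι, hι, Cat.Ht.symm ⟨k, hk, fun v => ?_⟩, ?_⟩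
  · rw [bcat_D, bcat_D]
    exact (e4 v).symm
  · rw [e1]
    exact Cat.Ht.refl _

/-- the step from the refined family -/
theorem stepT {E : Type} [Ring E] {j : ℤ} {C : Cat E O} {I : MonoidAlgebra ℤ G →+ E}
    {U : E →+ MonoidAlgebra ℤ G} (h : Aug j C (bcat (gfam G O)) I U) (hj : 1 ≤ j) (A : Type)
    [CommRing A] (hP : ((C.refine P.π P.T U).bc A).P) : (C.bc A).P :=
  h.stepT hj P.T_bas P.T_le A (fun _ hV hf => P.lift _ h hV hf) hP

end CellSys

end Pool.Agent.Lib.NIL
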