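import Pool.Agent.Lib.NIL.TP
import Pool.Agent.Lib.NIL.TLift

/-! TREE: the step along a system of cells. -/

namespace Pool.Agent.Lib.NIL

theorem st_tree : St_TREE := by
  intro G O X K _ _ _ _ F n A _ hr hX E Λ _ S hS
  exact F.stepT (hS.aug' (by omega)) (by omega) A (st_tp G O X F.toGPos n hr E Λ S hS A hX)

end Pool.Agent.Lib.NIL
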