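import Pool.Agent.Lib.NIL.Refine
import Pool.Agent.Lib.NIL.Blue

/-! UREF: finite data lift to a refinement of the labels. -/

noncomputable section

namespace Pool.Agent.Lib.NIL

open Finsupp TensorProduct

/-- the transport statement: the refined family has `P` as soon as the finer labels have level one -/
def St_TP : Prop :=
  ∀ (G O X : Type) [Group G] [MulAction G O] [MulAction G X] (P : GPos G O X) (n : ℕ),
    (∀ s, 0 ≤ P.rk s ∧ P.rk s ≤ n) → ∀ (E Λ : Type) [Ring E]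
      (S : Sys (MonoidAlgebra ℤ G) E Λ O), S.IsSys (gfam G O) (n + 1) →
      ∀ (A : Type) [CommRing A], Lev (gfam G X) A 1 →
        (((S.cat (gfam G O)).refine P.π P.T S.aug).bc A).P

/-- the discrete poset of an equivariant map -/
def GPos.disc {G O X : Type} [Group G] [MulAction G O] [MulAction G X] (π : X → O)
    (h : ∀ (g : G) x, π (g • x) = g • π x) : GPos G O X where
  π := π
  le := Eq
  rk := fun _ => 0
  π_smul := h
  le_refl := fun _ => rfl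
  le_trans := fun _ _ _ => Eq.trans
  le_smul := fun g _ _ e => congrArg (g • ·) e
  rk_smul := fun _ _ => rfl
  π_le := fun _ _ e => congrArg π e
  rk_lt := fun _ _ e => Or.inl e

theorem exists_finset_sfam {G B : Type} [Group G] [CommRing B] {p : G → Prop}
    {z : B ⊗[ℤ] MonoidAlgebra ℤ G} (hz : z ∈ bcF B (sfam p)) :
    ∃ F : Finset G, z ∈ bcF B (sfam fun g => g ∈ F ∧ p g) := by
  classical
  refine bc_sfam_induction (P := fun z => ∃ F : Finset G, z ∈ bcF B (sfam fun g => g ∈ F ∧ p g))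
    hz (fun g b hg => ⟨{g}, tmul_mem_bcF b (single_mem_sfam (p := fun g' => g' ∈ ({g} : Finset G) ∧
      p g') ⟨Finset.mem_singleton_self g, hg⟩ 1)⟩) ⟨∅, zero_mem _⟩ ?_
  rintro x y ⟨F, hx⟩ ⟨F', hy⟩
  exact ⟨F ∪ F', add_mem
    (bcF_mono (sfam_mono fun _ h => ⟨Finset.mem_union_left _ h.1, h.2⟩) hx)
    (bcF_mono (sfam_mono fun _ h => ⟨Finset.mem_union_right _ h.1, h.2⟩) hy)⟩

/-- a map between finite objects uses finitely many group elements -/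
theorem exists_finset_hom {G O E B : Type} [Group G] [MulAction G O] [Ring E] [CommRing B]
    {C : Cat E O} {j k : ℤ} {I : MonoidAlgebra ℤ G →+ E} {U : E →+ MonoidAlgebra ℤ G}
    (h : Aug j C (bcat (gfam G O)) I U) {V W : Raw (B ⊗[ℤ] E) O} [Finite V.ι] [Finite W.ι]
    {f : Lin V W} (hf : (C.bc B).Hom k V W f) : ∃ F : Finset G, ∀ i i',
      lT B U (f (single i 1) i') ∈ bcF B (sfam fun g => g ∈ F ∧ g • W.lab i' = V.lab i) := by
  classical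
  have := Fintype.ofFinite V.ι
  have := Fintype.ofFinite W.ι
  have h1 : ∀ q : V.ι × W.ι, ∃ F : Finset G, lT B U (f (single q.1 1) q.2) ∈
      bcF B (sfam fun g => g ∈ F ∧ g • W.lab q.2 = V.lab q.1) := fun q =>
    exists_finset_sfam (lT_mem_bcF (fun a ha => (mem_bcat.1 (h.hU.mem ha)).1) (hf q.1 q.2))
  choose F hF using h1
  exact ⟨Finset.univ.biUnion F, fun i i' => bcF_mono (sfam_mono fun _ hg =>
    ⟨Finset.mem_biUnion.2 ⟨(i, i'), Finset.mem_univ _, hg.1⟩, hg.2⟩) (hF (i, i'))⟩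

theorem st_uref (hTP : St_TP) : St_UREF := by
  classical
  intro G O _ _ A _ H E Λ _ S hS M hM hMf hMp
  obtain ⟨W, hW, hWf, i, r, hi, hr, k, hk, hb⟩ := hMp
  have := hWf.1
  have := Fintype.ofFinite M.ι
  have := Fintype.ofFinite W.ι
  have ha := hS.aug' le_rfl
  obtain ⟨F1, h1⟩ := exists_finset_hom ha hM.1
  obtain ⟨F2, h2⟩ := exists_finset_hom ha hW.1
  obtain ⟨F3, h3⟩ := exists_finset_hom ha hi.1
  obtain ⟨F4, h4⟩ := exists_finset_hom ha hr.1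
  obtain ⟨F5, h5⟩ := exists_finset_hom ha hk
  obtain ⟨X, _, π, σ, hπ, hσ, hF, hX⟩ := H (F1 ∪ F2 ∪ F3 ∪ F4 ∪ F5)
    (Finset.univ.image M.lab ∪ Finset.univ.image W.lab)
  have hP := hTP G O X (GPos.disc π hπ) 0 (fun _ => ⟨le_rfl, le_rfl⟩) E Λ S
    (by simpa using hS) A hX
  have hle : ∀ s s', (GPos.disc π hπ).T s s' ≤ gfam G O (π s) (π s') := fun s s' =>
    sfam_mono fun g (e : g • s' = s) => by rw [← hπ, e]
  let lM : M.ι → X := fun a => σ ⟨M.lab a, Finset.mem_union_left _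
    (Finset.mem_image_of_mem _ (Finset.mem_univ a))⟩
  let lW : W.ι → X := fun a => σ ⟨W.lab a, Finset.mem_union_right _
    (Finset.mem_image_of_mem _ (Finset.mem_univ a))⟩
  have key : ∀ {V V' : Raw (A ⊗[ℤ] E) O}
      {m : ∀ a, V.lab a ∈ Finset.univ.image M.lab ∪ Finset.univ.image W.lab}
      {m' : ∀ a, V'.lab a ∈ Finset.univ.image M.lab ∪ Finset.univ.image W.lab} {n : ℤ}
      {f : Lin V V'} {F : Finset G},
      F ⊆ F1 ∪ F2 ∪ F3 ∪ F4 ∪ F5 → ((S.cat (gfam G O)).bc A).Hom n V V' f →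
      (∀ a a', lT A S.aug (f (single a 1) a') ∈
        bcF A (sfam fun g => g ∈ F ∧ g • V'.lab a' = V.lab a)) →
      (((S.cat (gfam G O)).refine π (GPos.disc π hπ).T S.aug).bc A).Hom n
        ⟨V.ι, V.deg, fun a => σ ⟨V.lab a, m a⟩, V.δ⟩
        ⟨V'.ι, V'.deg, fun a => σ ⟨V'.lab a, m' a⟩, V'.δ⟩ f := by
    intro V V' m m' n f F hs hf he a a'
    rw [ha.refine_bc hle]
    refine ⟨?_, bcF_mono (sfam_mono fun g hg => hF g (hs hg.1) ⟨_, m a⟩ ⟨_, m' a'⟩ hg.2) (he a a')⟩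
    change _ ∈ ((S.cat (gfam G O)).bc A).H _ (π (σ ⟨V.lab a, m a⟩)) (π (σ ⟨V'.lab a', m' a'⟩))
    rw [hσ, hσ]
    exact hf a a'
  have s1 : F1 ⊆ F1 ∪ F2 ∪ F3 ∪ F4 ∪ F5 := fun _ h => by simp [h]
  have s2 : F2 ⊆ F1 ∪ F2 ∪ F3 ∪ F4 ∪ F5 := fun _ h => by simp [h]
  have s3 : F3 ⊆ F1 ∪ F2 ∪ F3 ∪ F4 ∪ F5 := fun _ h => by simp [h]
  have s4 : F4 ⊆ F1 ∪ F2 ∪ F3 ∪ F4 ∪ F5 := fun _ h => by simp [h]
  have s5 : F5 ⊆ F1 ∪ F2 ∪ F3 ∪ F4 ∪ F5 := fun _ h => by simp [h]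
  have hin := hP ⟨M.ι, M.deg, lM, M.δ⟩ ⟨key s1 hM.1 h1, hM.2⟩ hMf
    ⟨⟨W.ι, W.deg, lW, W.δ⟩, ⟨key s2 hW.1 h2, hW.2⟩, hWf, i, r, ⟨key s3 hi.1 h3, hi.2⟩,
      ⟨key s4 hr.1 h4, hr.2⟩, k, key s5 hk h5, hb⟩
  have := relab_inO (C₁ := (S.cat (gfam G O)).bc A) (l := π) rfl
    (fun k s s' => bcF_mono (Aug.refine_le k s s')) hin
  have e : Raw.relab ⟨M.ι, M.deg, lM, M.δ⟩ π = M :=
    congrArg (fun l => Raw.mk M.ι M.deg l M.δ) (funext fun a => hσ _)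
  rwa [e] at this

end Pool.Agent.Lib.NIL
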