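import Pool.Agent.Lib.NIL.VH4

/-! The right adjoint of a cell attachment. -/

noncomputable section

namespace Pool.Agent.Lib.NIL

open Finsupp

namespace Sys

variable {R E Λ O E'' Λ'' : Type} [Ring R] [Ring E] [Ring E''] {S : Sys R E Λ O}
  {Rf : O → O → AddSubgroup R} {K : Cell Λ} {V : Raw E O} {j : ℤ} {S'' : Sys R E'' Λ'' O}
  {Bm : BM E'' O E (O × Bool) Bool} {ent : Bool → Bool → E'' →+ E} {emb : E →+ E''}

theorem inj_W (F : S.Un V → Prop) :
    Function.Injective fun u : {u // ¬ F u} => (Sum.inr (u.1, false) : S.XI V) :=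
  fun _ _ e => Subtype.ext (Prod.mk.inj (Sum.inr.inj e)).1

variable (Rf K S'' emb) in
@[reducible] def hatW (F : S.Un V → Prop) : Raw E'' O :=
  ⟨{u // ¬ F u}, fun u => u.1.deg, fun u => u.1.lab, lc fun u =>
    mapRange (S''.i.toAddMonoidHom.comp S.aug) (map_zero _)
      (prj _ (inj_W F) (S.ab V false ((S.cat Rf).D V u.1.el))) -
    u.1.deg.negOnePow • mapRange emb (map_zero _) (prj _ (inj_W F) (S.chi K V u.1.el))⟩

theorem hatW_δ (F : S.Un V → Prop) (u u' : {u // ¬ F u}) :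
    (hatW Rf K S'' emb F).δ (single u 1) u' =
      S''.i (S.aug (S.ab V false ((S.cat Rf).D V u.1.el) (Sum.inr (u'.1, false)))) -
        u.1.deg.negOnePow • emb (S.chi K V u.1.el (Sum.inr (u'.1, false))) := by
  change lc _ (single _ 1) _ = _
  rw [linearCombination_single, one_smul]
  rfl

def eW (F : S.Un V → Prop) : {i // ¬ pF F i} ≃ {u // ¬ F u} × Bool where
  toFun x := match x with
    | ⟨Sum.inl _, h⟩ => absurd trivial h
    | ⟨Sum.inr y, h⟩ => (⟨y.1, h⟩, y.2)
  invFun x := ⟨Sum.inr (x.1.1, x.2), x.1.2⟩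
  left_inv := by
    rintro ⟨_ | _, h⟩
    · exact absurd trivial h
    · rfl
  right_inv _ := rfl

namespace IsCell

variable (h : S.IsCell Rf K j)
include h

theorem chi_el_N (u u' : S.Un V) : S.chi K V u.el (Sum.inr (u', false)) ∈
    S.Sp Rf (fun l => K.inN l ∧ S.deg l = u.deg - u'.deg) u.lab u'.lab ∧
      S.chi K V u.el (Sum.inr (u', true)) = -S.att K (S.chi K V u.el (Sum.inr (u', false))) := by
  by_cases hu : u.1.2 = S.u ∨ K.inE u.1.2
  · rw [Un.el, h.sys.chi_ε_pos _ hu, single_eq_of_ne Sum.inr_ne_inl, single_eq_of_ne Sum.inr_ne_inl,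
      map_zero, neg_zero]
    exact ⟨zero_mem _, rfl⟩
  · obtain ⟨w, -, e1, e2, -, hp⟩ := h.exists_split u hu
    rw [e1, h.chi_N_el w (Sp_mono (fun _ _ hl => hl.1) hp), h.sys.ab_el, h.sys.ab_el]
    simp only [Finsupp.sub_apply, Finsupp.smul_apply]
    rw [single_eq_of_ne (a := Sum.inr (w, true)) (a' := Sum.inr (u', false)) (by simp),
      single_eq_of_ne (a := Sum.inr (w, false)) (a' := Sum.inr (u', true)) (by simp), smul_zero,
      smul_zero, sub_zero, zero_sub]
    by_cases e : u' = w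
    · subst e
      rw [single_eq_same, single_eq_same, smul_eq_mul, smul_eq_mul, mul_one, mul_one, e2,
        add_sub_cancel_right]
      exact ⟨hp, rfl⟩
    · rw [single_eq_of_ne (by simpa using e), single_eq_of_ne (by simpa using e), smul_zero,
        smul_zero, map_zero]
      exact ⟨zero_mem _, rfl⟩

variable (hP : CPk S Rf K j S'' Bm ent emb) (F : S.Un V → Prop)
include hP

theorem hatW_hom (hV : (S.cat Rf).Obj V) : (S''.cat Rf).Hom 1 (hatW Rf K S'' emb F)
    (hatW Rf K S'' emb F) (hatW Rf K S'' emb F).δ := by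
  intro u u'
  rw [hatW_δ]
  refine sub_mem ?_ ?_
  · have := hP.sys.homF_i.mem (h.tri_false
      (h.al_mem false (h.sys.good.D_mem hV.1 (h.sys.el_mem u.1)) (Sum.inr (u'.1, false)))).1
    simpa using this
  · have := hP.emb_mem _ _ _ _ (h.chi_el_N u.1 u'.1).1
    rw [Units.smul_def, show u.1.deg + 1 - u'.1.deg = u.1.deg - u'.1.deg + 1 by ring]
    exact zsmul_mem this _

theorem hatW_rx : ((S.hatX Rf K V).res fun i => ¬ pF F i).Rx ((hatW Rf K S'' emb F).bm Bm) := by
  classical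
  refine Raw.Rx.symm ⟨(eW F).symm, ?_, fun x => (hP.lb _ _).symm, ?_⟩
  · rintro ⟨u, _ | _⟩
    · exact congrArg (u.1.deg + ·) hP.loc.dg0.symm
    · exact congrArg (u.1.deg + ·) hP.loc.dg1.symm
  rintro ⟨u, b⟩ ⟨u', b'⟩
  rw [bm_δ hP.loc.bm.act_zero, Raw.res_δ, hP.loc.act, hatW_δ, map_sub, Units.smul_def, map_zsmul,
    ← Units.smul_def, hP.ent_i, ab_apply_same, h.sys.aug_i]
  change (S.hatX Rf K V).δ (single (Sum.inr (u.1, b)) 1) (Sum.inr (u'.1, b')) = _
  cases b
  · rw [hat_δ_al, hP.ent_f, hP.loc.Δ0, smul_zero, sub_zero, Finsupp.zero_apply, smul_zero, ite_self,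
      add_zero]
    cases b'
    · rw [ab_apply_same, if_pos rfl]
    · rw [ab_apply_ne (by simp), if_neg (by simp)]
  · rw [hat_δ_be, hP.loc.Δ1, Finsupp.add_apply, Finsupp.smul_apply, Finsupp.sub_apply, h.sys.ab_el]
    cases b'
    · rw [ab_apply_ne (by simp), if_neg (by simp), hP.ent_tf, single_eq_same, smul_sub]
      by_cases e : u = u'
      · subst e
        rw [if_pos rfl, single_eq_same]
        abel
      · rw [if_neg e, single_eq_of_ne fun e' => e (inj_W F e').symm, smul_zero]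
        abel
    · rw [ab_apply_same, if_pos rfl, hP.ent_tt, (h.chi_el_N u.1 u'.1).2, single_eq_of_ne (by simp),
        single_eq_of_ne (by simp), smul_zero, ite_self, zero_sub, smul_neg _ (-_), add_zero,
        sub_eq_add_neg]

omit hP in
theorem hatW_wf (hf : V.Fin1) : (hatW Rf K S'' emb F).WF := by
  obtain ⟨rk, hrk⟩ := hf.rank
  refine Subrelation.wf (fun {u' u} hne => ?_) (InvImage.wf Subtype.val (Un.wf rk))
  by_contra hlt
  refine hne ?_
  have h1 : S.ab V false ((S.cat Rf).D V u.1.el) (Sum.inr (u'.1, false)) = 0 :=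
    of_not_not fun e => hlt (h.sys.D_el_lt hrk (ab_supp e).2)
  have h2 : S.chi K V u.1.el (Sum.inr (u'.1, false)) = 0 :=
    of_not_not fun e => hlt (h.chi_el_lt rk e)
  rw [hatW_δ, h1, h2, map_zero, map_zero, map_zero, smul_zero, sub_zero]

end IsCell

end Sys

theorem st_vh : St_VH := by
  intro R E Λ O E'' Λ'' _ _ _ S Rf K j S'' Bm ent emb h hj hP V hV hf
  obtain ⟨F, hF, hp, hfin⟩ := h.exists_F (V := V) hf
  have hX := h.hat_obj hV
  refine ⟨S.hatX Rf K V, Sys.pF F, Sys.hatW Rf K S'' emb F, hX, hp, hfin, h.hatW_rx hP F, ?_,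
    h.hatW_wf F hf, ?_, fun z ⟨hz, r, hr⟩ hn => h.hat_nul hV hz hr hn, h.hat_simp hV hf F hF hp⟩
  · refine hP.loc.bm.obj_of hP.loc.aug.good hP.loc.tgood (fun n o o' a ha h0 => ?_)
      (h.hatW_hom hP F hV) (Cat.obj_rx (h.hatW_rx hP F) (h.tri_good.ses_res hX hp).2.2.1).2
    obtain ⟨ψ, hψ⟩ := hP.loc.faith n o o'
    rw [hψ a ha]
    refine Finset.sum_eq_zero fun b _ => Finset.sum_eq_zero fun b' _ => ?_
    rw [← hP.loc.act, h0, Finsupp.zero_apply, map_zero]
  · obtain ⟨c, hc⟩ := Raw.bdd_of_finite hf.1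
    refine ⟨c, fun u => (hc u.1.1.1).trans (le_add_of_nonneg_right ?_)⟩
    rcases u.1.2 with e | e
    · rw [e, h.sys.deg_u]
    · exact hj.trans (h.sys.deg_ge _ e.1)

end Pool.Agent.Lib.NIL
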