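import Pool.Agent.Lib.NIL.B_CELL
import Pool.Agent.Lib.NIL.B_CPK
import Pool.Agent.Lib.NIL.B_EPP
import Pool.Agent.Lib.NIL.B_KC
import Pool.Agent.Lib.NIL.B_KEY
import Pool.Agent.Lib.NIL.B_KEY0
import Pool.Agent.Lib.NIL.B_SIMP
import Pool.Agent.Lib.NIL.B_STEP
import Pool.Agent.Lib.NIL.B_TEN
import Pool.Agent.Lib.NIL.B_TOWER
import Pool.Agent.Lib.NIL.B_VH

/-! The core blocks without hypotheses. -/

namespace Pool.Agent.Lib.NIL

theorem step_holds : St_STEP :=
  st_step st_tower (st_cell st_epp (st_cpk st_simp) st_vh (st_key st_simp))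

theorem core_holds : St_CORE := st_core step_holds

theorem kc_holds : St_KC := st_kc st_epp (st_cpk st_simp) st_vh (st_key0 st_simp)

end Pool.Agent.Lib.NIL
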