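import Pool.Agent.Lib.NIL.A7
import Pool.Agent.Lib.NIL.CellSys

/-! The ring of the refined labels: the base ring plus finite matrices. -/

noncomputable section

namespace Pool.Agent.Lib.NIL

open Finsupp

namespace DD

variable {G X E : Type} [Group G] [MulAction G X] [Ring E]

/-- matrix units -/
def mu (s s' : X) : E →+ Module.End ℤ (X →₀ E) :=
  AddMonoidHom.mk' (fun x => ((singleAddHom s).comp
    ((AddMonoidHom.mulLeft x).comp (applyAddHom s'))).toIntLinearMap)
    fun x y => LinearMap.ext fun v => by
      change single s ((x + y) * v s') = single s (x * v s') + single s (y * v s')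
      rw [add_mul, single_add]

theorem mu_apply (s s' : X) (x : E) (v : X →₀ E) : mu s s' x v = single s (x * v s') := rfl

def muS : (X × X →₀ E) →+ Module.End ℤ (X →₀ E) := liftAddHom fun p => mu p.1 p.2

theorem muS_single (s s' : X) (x : E) : muS (single (s, s') x) = mu s s' x := by simp [muS]

theorem muS_entry (m : X × X →₀ E) (s s' : X) : muS m (single s' 1) s = m (s, s') := by
  induction m using Finsupp.induction_linear with
  | zero => simp
  | add x y hx hy =>
    rw [map_add, Finsupp.add_apply, ← hx, ← hy]
    rfl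
  | single p x =>
    obtain ⟨t, t'⟩ := p
    rw [muS_single, mu_apply]
    by_cases h : t' = s'
    · subst h
      rw [single_eq_same, mul_one]
      by_cases h : t = s
      · subst h
        rw [single_eq_same, single_eq_same]
      · rw [single_eq_of_ne' h, single_eq_of_ne' fun e => h (congrArg Prod.fst e)]
    · rw [single_eq_of_ne h, mul_zero, single_zero,
        single_eq_of_ne' fun e => h (congrArg Prod.snd e)]
      rfl

theorem muS_injective : Function.Injective (muS (X := X) (E := E)) := fun m m' h => by
  ext p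
  rw [← muS_entry m p.1 p.2, h, muS_entry]

theorem mu_mul (s t u : X) (x y : E) : mu s t x * mu t u y = mu s u (x * y) :=
  LinearMap.ext fun v => by
    change mu s t x (mu t u y v) = _
    rw [mu_apply, mu_apply, mu_apply, single_eq_same, mul_assoc]

theorem mu_mul_ne (s : X) {t t' : X} (h : t ≠ t') (u : X) (x y : E) : mu s t x * mu t' u y = 0 :=
  LinearMap.ext fun v => by
    change mu s t x (mu t' u y v) = 0
    rw [mu_apply, mu_apply, single_eq_of_ne h, mul_zero, single_zero]

variable (X) (i : MonoidAlgebra ℤ G →+* E)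

def rg : G →* Module.End ℤ (X →₀ E) where
  toFun g := ((mapDomain.addMonoidHom (g • ·)).comp
    (DistribSMul.toAddMonoidHom _ (i (MonoidAlgebra.single g 1)))).toIntLinearMap
  map_one' := LinearMap.ext fun v => by
    change mapDomain ((1 : G) • ·) (i 1 • v) = v
    simp only [one_smul, map_one]
    exact mapDomain_id
  map_mul' g g' := LinearMap.ext fun v => by
    change mapDomain ((g * g') • ·) (i (MonoidAlgebra.single (g * g') 1) • v) =
      mapDomain (g • ·) (i (MonoidAlgebra.single g 1) • mapDomain (g' • ·)
        (i (MonoidAlgebra.single g' 1) • v))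
    rw [← mapDomain_smul, ← mapDomain_comp, smul_smul, ← map_mul, MonoidAlgebra.single_mul_single,
      one_mul]
    congr 1
    funext s
    exact mul_smul _ _ _

def rho : MonoidAlgebra ℤ G →+* Module.End ℤ (X →₀ E) :=
  (MonoidAlgebra.lift ℤ (Module.End ℤ (X →₀ E)) G (rg X i)).toRingHom

variable {X}

theorem rho_single (g : G) (n : ℤ) (v : X →₀ E) : rho X i (MonoidAlgebra.single g n) v =
    mapDomain (g • ·) (i (MonoidAlgebra.single g n) • v) := by
  have e : MonoidAlgebra.single g n = n • MonoidAlgebra.single g (1 : ℤ) := by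
    rw [MonoidAlgebra.smul_single, smul_eq_mul, mul_one]
  have : rho X i (MonoidAlgebra.single g 1) = rg X i g := by
    change MonoidAlgebra.lift ℤ _ G (rg X i) _ = _
    rw [MonoidAlgebra.lift_single, one_smul]
  rw [e, map_zsmul, map_zsmul, this, smul_assoc]
  exact (map_zsmul (mapDomain.addMonoidHom (M := E) fun s : X => g • s) n _).symm

theorem rho_mu (g : G) (n : ℤ) (s s' : X) (x : E) : rho X i (MonoidAlgebra.single g n) * mu s s' x =
    mu (g • s) s' (i (MonoidAlgebra.single g n) * x) := LinearMap.ext fun v => by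
  change rho X i _ (mu s s' x v) = _
  rw [mu_apply, mu_apply, rho_single, smul_single, mapDomain_single, smul_eq_mul, mul_assoc]

theorem mu_rho (g : G) (n : ℤ) (s s' : X) (x : E) : mu s s' x * rho X i (MonoidAlgebra.single g n) =
    mu s (g⁻¹ • s') (x * i (MonoidAlgebra.single g n)) := LinearMap.ext fun v => by
  change mu s s' x (rho X i _ v) = _
  have := mapDomain_apply (MulAction.injective g) (i (MonoidAlgebra.single g n) • v) (g⁻¹ • s')
  rw [smul_inv_smul] at this
  rw [mu_apply, mu_apply, rho_single, this, Finsupp.smul_apply, smul_eq_mul, mul_assoc]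

theorem mu_mem (s s' : X) (x : E) : mu s s' x ∈ (muS (X := X) (E := E)).range :=
  ⟨_, muS_single s s' x⟩

theorem range_mul {a b : Module.End ℤ (X →₀ E)} (r r' : MonoidAlgebra ℤ G)
    (ha : a ∈ (muS (X := X) (E := E)).range) (hb : b ∈ (muS (X := X) (E := E)).range) :
    a * b ∈ (muS (X := X) (E := E)).range ∧ rho X i r * b ∈ (muS (X := X) (E := E)).range ∧
      a * rho X i r' ∈ (muS (X := X) (E := E)).range := by
  obtain ⟨m, rfl⟩ := ha
  obtain ⟨m', rfl⟩ := hb
  refine ⟨?_, ?_, ?_⟩
  · induction m using Finsupp.induction_linear with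
    | zero => simp
    | add x y hx hy => rw [map_add, add_mul]; exact add_mem hx hy
    | single p x =>
      induction m' using Finsupp.induction_linear with
      | zero => simp
      | add x y hx hy => rw [map_add, mul_add]; exact add_mem hx hy
      | single q y =>
        rw [muS_single, muS_single]
        by_cases h : p.2 = q.1
        · rw [h, mu_mul]
          exact mu_mem _ _ _
        · rw [mu_mul_ne _ h]
          exact zero_mem _
  · induction m' using Finsupp.induction_linear with
    | zero => simp
    | add x y hx hy => rw [map_add, mul_add]; exact add_mem hx hy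
    | single p x =>
      induction r using MonoidAlgebra.induction_linear with
      | zero => simp
      | add x y hx hy => rw [map_add, add_mul]; exact add_mem hx hy
      | single g n =>
        rw [muS_single, rho_mu]
        exact mu_mem _ _ _
  · induction m using Finsupp.induction_linear with
    | zero => simp
    | add x y hx hy => rw [map_add, add_mul]; exact add_mem hx hy
    | single p x =>
      induction r' using MonoidAlgebra.induction_linear with
      | zero => simp
      | add x y hx hy => rw [map_add, mul_add]; exact add_mem hx hy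
      | single g n =>
        rw [muS_single, mu_rho]
        exact mu_mem _ _ _

variable (X)

/-- the base ring plus finite matrices -/
def sub : Subring (MonoidAlgebra ℤ G × Module.End ℤ (X →₀ E)) where
  carrier := {z | z.2 - rho X i z.1 ∈ (muS (X := X) (E := E)).range}
  mul_mem' {a b} ha hb := by
    obtain ⟨h1, h2, h3⟩ := range_mul i a.1 b.1 ha hb
    have := add_mem (add_mem h1 h2) h3
    change a.2 * b.2 - rho X i (a.1 * b.1) ∈
      (muS (X := X) (E := E)).range
    rwa [map_mul, show a.2 * b.2 - rho X i a.1 * rho X i b.1 = (a.2 - rho X i a.1) *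
      (b.2 - rho X i b.1) + rho X i a.1 * (b.2 - rho X i b.1) + (a.2 - rho X i a.1) * rho X i b.1 by
        noncomm_ring]
  one_mem' := by
    change (1 : Module.End ℤ (X →₀ E)) - rho X i 1 ∈
      (muS (X := X) (E := E)).range
    rw [map_one, sub_self]
    exact zero_mem _
  add_mem' {a b} ha hb := by
    change a.2 + b.2 - rho X i (a.1 + b.1) ∈
      (muS (X := X) (E := E)).range
    rw [map_add, add_sub_add_comm]
    exact add_mem ha hb
  zero_mem' := by
    change (0 : Module.End ℤ (X →₀ E)) - rho X i 0 ∈
      (muS (X := X) (E := E)).range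
    rw [map_zero, sub_self]
    exact zero_mem _
  neg_mem' {a} ha := by
    change -a.2 - rho X i (-a.1) ∈
      (muS (X := X) (E := E)).range
    rw [map_neg, neg_sub_neg, ← neg_sub]
    exact neg_mem ha

def ii : MonoidAlgebra ℤ G →+* sub X i :=
  ((RingHom.id _).prod (rho X i)).codRestrict _ fun r => by
    change rho X i r - rho X i r ∈
      (muS (X := X) (E := E)).range
    rw [sub_self]
    exact zero_mem _

variable {X}

def mS : (X × X →₀ E) →+ sub X i :=
  ((0 : _ →+ MonoidAlgebra ℤ G).prod muS).codRestrict (sub X i) fun m => by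
    change muS m - rho X i 0 ∈
      (muS (X := X) (E := E)).range
    rw [map_zero, sub_zero]
    exact ⟨m, rfl⟩

def mm (s s' : X) : E →+ sub X i := (mS i).comp (singleAddHom (s, s'))

theorem mm_val (s s' : X) (x : E) : (mm i s s' x).1 = (0, mu s s' x) :=
  Prod.ext rfl (muS_single s s' x)

theorem ii_val (r : MonoidAlgebra ℤ G) : (ii X i r).1 = (r, rho X i r) := rfl

def eqv : (MonoidAlgebra ℤ G × (X × X →₀ E)) ≃+ sub X i :=
  AddEquiv.ofBijective ((ii X i).toAddMonoidHom.coprod (mS i)) ⟨by
    rw [injective_iff_map_eq_zero]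
    rintro ⟨r, m⟩ h
    have h1 : r + 0 = 0 := congrArg (fun z => z.1.1) h
    have h2 : rho X i r + muS m = 0 := congrArg (fun z => z.1.2) h
    rw [add_zero] at h1
    rw [h1, map_zero, zero_add] at h2
    exact Prod.ext h1 (muS_injective (h2.trans (map_zero _).symm)), by
    rintro ⟨⟨r, f⟩, m, hm⟩
    refine ⟨(r, m), Subtype.ext (Prod.ext (add_zero r) ?_)⟩
    change rho X i r + muS m = f
    rw [hm]
    exact add_sub_cancel _ _⟩

def lift {N : Type} [AddCommGroup N] (f : MonoidAlgebra ℤ G →+ N) (g : X → X → E →+ N) :
    sub X i →+ N :=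
  (f.coprod (liftAddHom fun p : X × X => g p.1 p.2)).comp (eqv i).symm.toAddMonoidHom

theorem lift_ii {N : Type} [AddCommGroup N] (f : MonoidAlgebra ℤ G →+ N) (g : X → X → E →+ N)
    (r : MonoidAlgebra ℤ G) : lift i f g (ii X i r) = f r := by
  have : ii X i r = eqv i (r, 0) := by
    change _ = ii X i r + mS i 0
    rw [map_zero, add_zero]
  rw [this]
  simp [lift]

theorem lift_mm {N : Type} [AddCommGroup N] (f : MonoidAlgebra ℤ G →+ N) (g : X → X → E →+ N)
    (s s' : X) (x : E) : lift i f g (mm i s s' x) = g s s' x := by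
  have : mm i s s' x = eqv i (0, single (s, s') x) := by
    change _ = ii X i 0 + mS i _
    rw [map_zero, zero_add]
    rfl
  rw [this]
  simp [lift]

theorem ind {p : sub X i → Prop} (h1 : ∀ g n, p (ii X i (MonoidAlgebra.single g n)))
    (h2 : ∀ s s' x, p (mm i s s' x)) (h0 : p 0) (ha : ∀ x y, p x → p y → p (x + y))
    (z : sub X i) : p z := by
  obtain ⟨⟨r, m⟩, rfl⟩ := (eqv i).surjective z
  refine ha (ii X i r) (mS i m) ?_ ?_
  · induction r using MonoidAlgebra.induction_linear with
    | zero => rwa [map_zero]
    | add x y hx hy => rw [map_add]; exact ha _ _ hx hy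
    | single g n => exact h1 g n
  · induction m using Finsupp.induction_linear with
    | zero => rwa [map_zero]
    | add x y hx hy => rw [map_add]; exact ha _ _ hx hy
    | single p x => exact h2 p.1 p.2 x

theorem mm_mm (s t u : X) (x y : E) : mm i s t x * mm i t u y = mm i s u (x * y) :=
  Subtype.ext (by rw [Subring.coe_mul, mm_val, mm_val, mm_val, Prod.mk_mul_mk, mu_mul, mul_zero])

theorem mm_mm_ne (s : X) {t t' : X} (h : t ≠ t') (u : X) (x y : E) :
    mm i s t x * mm i t' u y = 0 :=
  Subtype.ext (by
    rw [Subring.coe_mul, mm_val, mm_val, Prod.mk_mul_mk, mu_mul_ne _ h, mul_zero]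
    rfl)

theorem ii_mm (g : G) (n : ℤ) (s s' : X) (x : E) : ii X i (MonoidAlgebra.single g n) * mm i s s' x =
    mm i (g • s) s' (i (MonoidAlgebra.single g n) * x) :=
  Subtype.ext (by rw [Subring.coe_mul, mm_val, mm_val, ii_val, Prod.mk_mul_mk, rho_mu, mul_zero])

theorem mm_ii (g : G) (n : ℤ) (s s' : X) (x : E) : mm i s s' x * ii X i (MonoidAlgebra.single g n) =
    mm i s (g⁻¹ • s') (x * i (MonoidAlgebra.single g n)) :=
  Subtype.ext (by rw [Subring.coe_mul, mm_val, mm_val, ii_val, Prod.mk_mul_mk, mu_rho, zero_mul])

theorem ii_mm' {r : MonoidAlgebra ℤ G} {s t : X} (hr : r ∈ gfam G X s t) (s' : X) (x : E) :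
    ii X i r * mm i t s' x = mm i s s' (i r * x) :=
  sfam_induction (P := fun r => ii X i r * mm i t s' x = mm i s s' (i r * x)) hr
    (fun g n hg => by rw [ii_mm, show g • t = s from hg]) (by simp)
    fun a b _ _ ha hb => by rw [map_add, map_add, add_mul, add_mul, map_add, ha, hb]

theorem mm_ii' {r : MonoidAlgebra ℤ G} {s' t : X} (hr : r ∈ gfam G X s' t) (s : X) (x : E) :
    mm i s s' x * ii X i r = mm i s t (x * i r) :=
  sfam_induction (P := fun r => mm i s s' x * ii X i r = mm i s t (x * i r)) hr
    (fun g n hg => by rw [mm_ii, ← show g • t = s' from hg, inv_smul_smul]) (by simp)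
    fun a b _ _ ha hb => by rw [map_add, map_add, mul_add, mul_add, map_add, ha, hb]

variable (rk : X → ℤ) (σ d : E →+ E)

def sg : sub X i →+ sub X i :=
  lift i (ii X i).toAddMonoidHom fun s s' => (rk s + rk s').negOnePow • (mm i s s').comp σ

def dd : sub X i →+ sub X i := lift i 0 fun s s' => (rk s').negOnePow • (mm i s s').comp d

theorem sg_ii (r : MonoidAlgebra ℤ G) : sg i rk σ (ii X i r) = ii X i r := lift_ii i _ _ r

theorem sg_mm (s s' : X) (x : E) :
    sg i rk σ (mm i s s' x) = (rk s + rk s').negOnePow • mm i s s' (σ x) := lift_mm i _ _ s s' x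

theorem dd_ii (r : MonoidAlgebra ℤ G) : dd i rk d (ii X i r) = 0 := lift_ii i _ _ r

theorem dd_mm (s s' : X) (x : E) :
    dd i rk d (mm i s s' x) = (rk s').negOnePow • mm i s s' (d x) := lift_mm i _ _ s s' x

theorem map_usmul {M N : Type} [AddCommGroup M] [AddCommGroup N] (f : M →+ N) (u : ℤˣ) (x : M) :
    f (u • x) = u • f x := by rw [Units.smul_def, Units.smul_def, map_zsmul]

theorem isDG (h : IsDG σ d) (hσ : ∀ r, σ (i r) = i r) (hd : ∀ r, d (i r) = 0)
    (hr : ∀ (g : G) s, rk (g • s) = rk s) : IsDG (sg i rk σ) (dd i rk d) where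
  σ_one := by rw [← map_one (ii X i), sg_ii]
  σ_mul a b := by
    induction a using ind i with
    | h0 => simp
    | ha x y hx hy => rw [add_mul, map_add, map_add, add_mul, hx, hy]
    | h1 g n =>
      induction b using ind i with
      | h0 => simp
      | ha x y hx hy => rw [mul_add, map_add, map_add, mul_add, hx, hy]
      | h1 g' n' => rw [← map_mul, sg_ii, sg_ii, sg_ii, map_mul]
      | h2 s s' x => rw [ii_mm, sg_mm, sg_mm, sg_ii, mul_smul_comm, ii_mm, hr, h.σ_mul, hσ]
    | h2 s s' x =>
      induction b using ind i with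
      | h0 => simp
      | ha x y hx hy => rw [mul_add, map_add, map_add, mul_add, hx, hy]
      | h1 g n => rw [mm_ii, sg_mm, sg_mm, sg_ii, smul_mul_assoc, mm_ii, hr, h.σ_mul, hσ]
      | h2 t t' y =>
        rw [sg_mm, sg_mm, smul_mul_smul_comm]
        by_cases e : s' = t
        · subst e
          rw [mm_mm, mm_mm, sg_mm, h.σ_mul, ← Int.negOnePow_add]
          congr 1
          rw [Int.negOnePow_eq_iff]
          exact ⟨-rk s', by ring⟩
        · rw [mm_mm_ne i _ e, mm_mm_ne i _ e, map_zero, smul_zero]
  σσ a := by
    induction a using ind i with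
    | h0 => simp
    | ha x y hx hy => rw [map_add, map_add, hx, hy]
    | h1 g n => rw [sg_ii, sg_ii]
    | h2 s s' x => rw [sg_mm, map_usmul, sg_mm, h.σσ, smul_smul, Int.units_mul_self, one_smul]
  dσ a := by
    induction a using ind i with
    | h0 => simp
    | ha x y hx hy => rw [map_add, map_add, hx, hy, map_add, map_add, neg_add]
    | h1 g n => rw [sg_ii, dd_ii, map_zero, neg_zero]
    | h2 s s' x =>
      rw [sg_mm, map_usmul, dd_mm, dd_mm, map_usmul, sg_mm, h.dσ, map_neg, smul_neg, smul_neg,
        smul_comm]
  dd a := by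
    induction a using ind i with
    | h0 => simp
    | ha x y hx hy => rw [map_add, map_add, hx, hy, add_zero]
    | h1 g n => rw [dd_ii, map_zero]
    | h2 s s' x => rw [dd_mm, map_usmul, dd_mm, h.dd, map_zero, smul_zero, smul_zero]
  leib a b := by
    induction a using ind i with
    | h0 => simp
    | ha x y hx hy =>
      rw [add_mul, map_add, map_add, add_mul, add_mul, hx, hy, add_add_add_comm]
    | h1 g n =>
      rw [dd_ii, zero_mul, add_zero]
      induction b using ind i with
      | h0 => simp
      | ha x y hx hy => rw [mul_add, map_add, map_add, mul_add, hx, hy]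
      | h1 g' n' => rw [← map_mul, dd_ii, dd_ii, mul_zero]
      | h2 s s' x =>
        rw [ii_mm, dd_mm, dd_mm, mul_smul_comm, ii_mm, h.leib, hd, zero_mul, add_zero]
    | h2 s s' x =>
      induction b using ind i with
      | h0 => simp
      | ha x y hx hy =>
        rw [mul_add, map_add, map_add, map_add, mul_add, mul_add, hx, hy, add_add_add_comm]
      | h1 g n =>
        rw [mm_ii, dd_mm, dd_mm, dd_ii, sg_ii, mul_zero, zero_add, smul_mul_assoc, mm_ii, hr,
          h.leib, hd, mul_zero, zero_add, hσ]
      | h2 t t' y =>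
        rw [dd_mm, dd_mm, sg_mm, smul_mul_smul_comm, mul_smul_comm]
        by_cases e : s' = t
        · subst e
          rw [mm_mm, mm_mm, mm_mm, dd_mm, h.leib, map_add, smul_add, Int.negOnePow_add, ← mul_assoc,
            Int.units_mul_self, one_mul]
        · rw [mm_mm_ne i _ e, mm_mm_ne i _ e, mm_mm_ne i _ e, map_zero, smul_zero, smul_zero,
            add_zero]

end DD

end Pool.Agent.Lib.NIL
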