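import Pool.Agent.Lib.NIL.PIDx
import Pool.Agent.Lib.MP_63c928_gt.WH.K1

/-! Twisted complexes over a family of subgroups of an ambient dg ring: definitions. -/

noncomputable section

namespace Pool.Agent.Lib.NIL

open Finsupp TensorProduct Polynomial

/-- ambient dg data (`d (a b) = a d b + d a σ b`) and a family `H degree source target` -/
structure Cat (E L : Type) [Ring E] where
  σ : E →+ E
  d : E →+ E
  H : ℤ → L → L → AddSubgroup E

/-- the dg ring axioms -/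
structure IsDG {E : Type} [Ring E] (σ d : E →+ E) : Prop where
  σ_one : σ 1 = 1
  σ_mul : ∀ a b, σ (a * b) = σ a * σ b
  σσ : ∀ a, σ (σ a) = a
  dσ : ∀ a, d (σ a) = -σ (d a)
  dd : ∀ a, d (d a) = 0
  leib : ∀ a b, d (a * b) = a * d b + d a * σ b

structure Cat.Good {E L : Type} [Ring E] (C : Cat E L) : Prop where
  dg : IsDG C.σ C.d
  one_mem : ∀ o, (1 : E) ∈ C.H 0 o o
  mul_mem : ∀ {k k' o o' o'' a b}, a ∈ C.H k o o' → b ∈ C.H k' o' o'' →
    a * b ∈ C.H (k + k') o o''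
  d_mem : ∀ {k o o' a}, a ∈ C.H k o o' → C.d a ∈ C.H (k + 1) o o'
  σ_eq : ∀ {k o o' a}, a ∈ C.H k o o' → C.σ a = k.negOnePow • a

/-- generators with degrees and labels, and a twisting matrix -/
structure Raw (E L : Type) [Ring E] where
  ι : Type
  deg : ι → ℤ
  lab : ι → L
  δ : (ι →₀ E) →ₗ[E] (ι →₀ E)

variable {E L E' L' : Type} [Ring E] [Ring E']

abbrev Lin (V W : Raw E L) : Type := (V.ι →₀ E) →ₗ[E] (W.ι →₀ E)

/-- the linear map with given values on the generators -/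
abbrev lc {ι κ : Type} (f : ι → κ →₀ E) : (ι →₀ E) →ₗ[E] (κ →₀ E) := linearCombination E f

/-- inclusion along an injective map of generators -/
abbrev inc {ι κ : Type} (f : ι → κ) : (ι →₀ E) →ₗ[E] (κ →₀ E) := lmapDomain E E f

/-- projection along an injective map of generators -/
abbrev prj {ι κ : Type} (f : ι → κ) (hf : Function.Injective f) : (κ →₀ E) →ₗ[E] (ι →₀ E) :=
  lcomapDomain f hf

/-- `b i ↦ z b i` -/
def scal (ι : Type) (z : E) : (ι →₀ E) →ₗ[E] (ι →₀ E) := lc fun i => single i z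

namespace Raw

/-- `e b i ↦ (-1) ^ deg i φ(e) b i` -/
def tw (V : Raw E L) (φ : E →+ E) : (V.ι →₀ E) →+ (V.ι →₀ E) :=
  liftAddHom fun i => (singleAddHom i).comp ((V.deg i).negOnePow • φ)

@[reducible] def sh (V : Raw E L) : Raw E L := ⟨V.ι, fun i => V.deg i - 1, V.lab, -V.δ⟩

/-- the extension with subobject `A`, quotient `B` and attaching map `θ` -/
@[reducible] def ext (A B : Raw E L) (θ : Lin B A) : Raw E L :=
  ⟨A.ι ⊕ B.ι, Sum.elim A.deg B.deg, Sum.elim A.lab B.lab,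
    inc Sum.inl ∘ₗ A.δ ∘ₗ prj Sum.inl Sum.inl_injective +
      (inc Sum.inr ∘ₗ B.δ + inc Sum.inl ∘ₗ θ) ∘ₗ prj Sum.inr Sum.inr_injective⟩

@[reducible] def sum (A B : Raw E L) : Raw E L := ext A B 0

@[reducible] def cone (V W : Raw E L) (f : Lin V W) : Raw E L := ext W V.sh f

/-- the generators satisfying `p` -/
@[reducible] def res (V : Raw E L) (p : V.ι → Prop) : Raw E L :=
  ⟨{i // p i}, fun i => V.deg i.1, fun i => V.lab i.1,
    prj Subtype.val Subtype.val_injective ∘ₗ V.δ ∘ₗ inc Subtype.val⟩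

@[reducible] def relab (V : Raw E L) (l : L → L') : Raw E L' := ⟨V.ι, V.deg, l ∘ V.lab, V.δ⟩

/-- `δ` maps the generators in `p` to the span of those in `p` -/
def Closed (V : Raw E L) (p : V.ι → Prop) : Prop :=
  ∀ i i', p i → V.δ (single i 1) i' ≠ 0 → p i'

/-- one-sided -/
def WF (V : Raw E L) : Prop := WellFounded fun i' i : V.ι => V.δ (single i 1) i' ≠ 0

def Fin1 (V : Raw E L) : Prop := Finite V.ι ∧ V.WF

def Bdd (V : Raw E L) : Prop := ∃ c, ∀ i, c ≤ V.deg i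

/-- equal up to a bijection of the generators -/
def Rx (V W : Raw E L) : Prop := ∃ e : V.ι ≃ W.ι, (∀ i, W.deg (e i) = V.deg i) ∧
  (∀ i, W.lab (e i) = V.lab i) ∧ ∀ i i', W.δ (single (e i) 1) (e i') = V.δ (single i 1) i'

/-- an iterated extension of elementary disks `β k ↦ ± α k` (`β = true`) -/
def Disky (V : Raw E L) : Prop := ∃ (κ : Type) (e : κ × Bool ≃ V.ι) (ρ : κ → ℕ) (s : κ → ℤˣ),
  (∀ k, V.deg (e (k, false)) = V.deg (e (k, true)) + 1) ∧
  (∀ k, V.lab (e (k, false)) = V.lab (e (k, true))) ∧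
  ∀ k b k' b', ρ k ≤ ρ k' → V.δ (single (e (k, b)) 1) (e (k', b')) =
    (single (k, true, false) (s k • (1 : E)) : κ × Bool × Bool →₀ E) (k', b, b')

end Raw

/-- entrywise application of an additive map -/
def mapL {ι κ : Type} (φ : E →+ E') (f : (ι →₀ E) →ₗ[E] (κ →₀ E)) : (ι →₀ E') →ₗ[E'] (κ →₀ E') :=
  lc fun i => mapRange φ φ.map_zero (f (single i 1))

@[reducible] def Raw.mapA (V : Raw E L) (φ : E →+ E') (l : L → L') : Raw E' L' :=
  ⟨V.ι, V.deg, l ∘ V.lab, mapL φ V.δ⟩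

/-- every entry `a` is replaced by the matrix `act a` -/
def bmL {ι ι' κ : Type} (act : E → κ → κ →₀ E') (f : (ι →₀ E) →ₗ[E] (ι' →₀ E)) :
    (ι × κ →₀ E') →ₗ[E'] (ι' × κ →₀ E') :=
  lc fun p => (f (single p.1 1)).sum fun i' a => mapDomain (Prod.mk i') (act a p.2)

/-- the data of a bimodule functor -/
structure BM (E L E' L' κ : Type) [Ring E] [Ring E'] where
  act : E → κ → κ →₀ E'
  dg : κ → ℤ
  lb : L → κ → L'
  Δ : κ → κ →₀ E'

@[reducible] def Raw.bm {κ : Type} (V : Raw E L) (B : BM E L E' L' κ) : Raw E' L' :=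
  ⟨V.ι × κ, fun p => V.deg p.1 + B.dg p.2, fun p => B.lb (V.lab p.1) p.2,
    bmL B.act V.δ + lc fun p => (V.deg p.1).negOnePow • mapDomain (Prod.mk p.1) (B.Δ p.2)⟩

/-- the image of one generator -/
@[reducible] def BM.pt {κ : Type} (B : BM E L E' L' κ) (o : L) : Raw E' L' :=
  ⟨κ, B.dg, B.lb o, lc B.Δ⟩

namespace Cat

variable (C : Cat E L)

def sg (V : Raw E L) : (V.ι →₀ E) →+ (V.ι →₀ E) := V.tw C.σ

/-- the total differential -/
def D (V : Raw E L) : (V.ι →₀ E) →+ (V.ι →₀ E) := V.δ.toAddMonoidHom + V.tw C.d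

/-- elements of degree `k` at the label `o` -/
def M (V : Raw E L) (k : ℤ) (o : L) : AddSubgroup (V.ι →₀ E) where
  carrier := {v | ∀ i, v i ∈ C.H (k - V.deg i) o (V.lab i)}
  add_mem' ha hb i := add_mem (ha i) (hb i)
  zero_mem' _ := zero_mem _
  neg_mem' ha i := neg_mem (ha i)

def Hom (k : ℤ) (V W : Raw E L) (f : Lin V W) : Prop :=
  ∀ i, f (single i 1) ∈ C.M W (V.deg i + k) (V.lab i)

def Obj (V : Raw E L) : Prop := C.Hom 1 V V V.δ ∧ ∀ v, C.D V (C.D V v) = 0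

/-- `D f = (-1) ^ k f D + g` -/
def Br (k : ℤ) (V W : Raw E L) (f g : Lin V W) : Prop :=
  ∀ v, C.D W (f v) = k.negOnePow • f (C.D V v) + g v

/-- chain maps of degree zero -/
def Ch (V W : Raw E L) (f : Lin V W) : Prop :=
  C.Hom 0 V W f ∧ ∀ v, C.D W (f v) = f (C.D V v)

/-- closed maps of degree one -/
def At (V W : Raw E L) (f : Lin V W) : Prop :=
  C.Hom 1 V W f ∧ ∀ v, C.D W (f v) = -f (C.D V v)

def Ht (V W : Raw E L) (f g : Lin V W) : Prop :=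
  ∃ h : Lin V W, C.Hom (-1) V W h ∧ ∀ v, f v - g v = C.D W (h v) + h (C.D V v)

def IsEqv (V W : Raw E L) (f : Lin V W) : Prop := C.Ch V W f ∧ ∃ g : Lin W V, C.Ch W V g ∧
  C.Ht V V (g ∘ₗ f) LinearMap.id ∧ C.Ht W W (f ∘ₗ g) LinearMap.id

def Eqv (V W : Raw E L) : Prop := ∃ f, C.IsEqv V W f

def Ctr (V : Raw E L) : Prop := C.Ht V V LinearMap.id 0

def Nul (z : E) (V : Raw E L) : Prop := C.Ht V V (scal V.ι z) 0

def Retr (M O : Raw E L) : Prop := ∃ (i : Lin M O) (r : Lin O M), C.Ch M O i ∧ C.Ch O M r ∧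
  C.Ht M M (r ∘ₗ i) LinearMap.id

/-- equivalent to a finite one-sided object -/
def InO (V : Raw E L) : Prop := ∃ W, C.Obj W ∧ W.Fin1 ∧ C.Eqv V W

/-- a retract of a finite one-sided object -/
def Perf (V : Raw E L) : Prop := ∃ W, C.Obj W ∧ W.Fin1 ∧ C.Retr V W

/-- a graded split short exact sequence of objects -/
def SES (A V B : Raw E L) : Prop := C.Obj A ∧ C.Obj V ∧ C.Obj B ∧
  ∃ (i : Lin A V) (q : Lin V B) (r : Lin V A) (s : Lin B V), C.Ch A V i ∧ C.Ch V B q ∧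
    C.Hom 0 V A r ∧ C.Hom 0 B V s ∧ r ∘ₗ i = LinearMap.id ∧ q ∘ₗ s = LinearMap.id ∧
    i ∘ₗ r + s ∘ₗ q = LinearMap.id

/-- a central closed scalar -/
def Cen (z : E) : Prop := (∀ a, z * a = a * z) ∧ C.d z = 0 ∧ ∀ o, z ∈ C.H 0 o o

/-- finite perfect objects are cellular -/
def P : Prop := ∀ M, C.Obj M → Finite M.ι → C.Perf M → C.InO M

/-- perfect objects are cellular -/
def Q : Prop := ∀ M, C.Obj M → C.Perf M → C.InO M

/-- finite pieces of resolutions of length `n` -/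
def FR (n : ℕ) : Prop := ∀ X, C.Obj X → Finite X.ι → ∀ c : ℤ,
  ∃ (G : Raw E L) (φ : Lin X G) (χ : Lin G X), C.Obj G ∧ Finite G.ι ∧
    (∀ i, c - n ≤ G.deg i ∧ G.deg i ≤ c) ∧ C.Ch X G φ ∧ C.At G X χ ∧
    (∀ i, G.deg i ≠ c → χ (single i 1) = 0) ∧
    ∀ i, X.deg i = c → χ (φ (single i 1)) = X.δ (single i 1)

end Cat

/-- a dg functor -/
structure IsFn (C : Cat E L) (C' : Cat E' L') (F : Raw E L → Raw E' L')
    (m : ∀ V W : Raw E L, Lin V W → Lin (F V) (F W)) : Prop where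
  obj : ∀ {V}, C.Obj V → C'.Obj (F V)
  hom : ∀ {k V W f}, C.Hom k V W f → C'.Hom k (F V) (F W) (m V W f)
  id : ∀ V, m V V LinearMap.id = LinearMap.id
  add : ∀ V W f g, m V W (f + g) = m V W f + m V W g
  comp : ∀ {k k' U V W f g}, C.Hom k U V f → C.Hom k' V W g →
    m U W (g ∘ₗ f) = m V W g ∘ₗ m U V f
  br : ∀ {k V W f g}, C.Obj V → C.Obj W → C.Hom k V W f → C.Br k V W f g →
    C'.Br k (F V) (F W) (m V W f) (m V W g)

/-- an additive map that is a homomorphism on the families -/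
structure IsHomF (C : Cat E L) (C' : Cat E' L') (φ : E →+ E') (l : L → L') : Prop where
  mem : ∀ {k o o' a}, a ∈ C.H k o o' → φ a ∈ C'.H k (l o) (l o')
  one : φ 1 = 1
  mul : ∀ {k k' o o' o'' a b}, a ∈ C.H k o o' → b ∈ C.H k' o' o'' → φ (a * b) = φ a * φ b
  d : ∀ {k o o' a}, a ∈ C.H k o o' → φ (C.d a) = C'.d (φ a)

structure IsBM {κ : Type} (C : Cat E L) (C' : Cat E' L') (B : BM E L E' L' κ) : Prop where
  add : ∀ a b k, B.act (a + b) k = B.act a k + B.act b k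
  one : ∀ k, B.act 1 k = single k 1
  mul : ∀ {n n' o o' o'' a b}, a ∈ C.H n o o' → b ∈ C.H n' o' o'' → ∀ k,
    B.act (a * b) k = lc (B.act b) (B.act a k)
  mem : ∀ {n o o' a}, a ∈ C.H n o o' → ∀ k, B.act a k ∈ C'.M (B.pt o') (n + B.dg k) (B.lb o k)
  pt : ∀ o, C'.Obj (B.pt o)
  d : ∀ {n o o' a}, a ∈ C.H n o o' → ∀ k,
    C'.D (B.pt o') (B.act a k) = B.act (C.d a) k + n.negOnePow • lc (B.act a) (B.Δ k)

/-- a family concentrated in degree zero -/
def bcat {R O : Type} [Ring R] (Rf : O → O → AddSubgroup R) : Cat R O :=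
  ⟨AddMonoidHom.id R, 0, fun k o o' => if k = 0 then Rf o o' else ⊥⟩

/-- complexes of free modules -/
def tcat (R O : Type) [Ring R] : Cat R O := bcat fun _ _ => ⊤

structure IsBas {R O : Type} [Ring R] (Rf : O → O → AddSubgroup R) : Prop where
  one_mem : ∀ o, (1 : R) ∈ Rf o o
  mul_mem : ∀ {o o' o'' a b}, a ∈ Rf o o' → b ∈ Rf o' o'' → a * b ∈ Rf o o''

/-- `C = C₀ ⊕ (degrees ≥ j)` -/
structure Aug {R : Type} [Ring R] (j : ℤ) (C : Cat E L) (C₀ : Cat R L) (I : R →+ E)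
    (U : E →+ R) : Prop where
  good : C.Good
  good₀ : C₀.Good
  hI : IsHomF C₀ C I id
  hU : IsHomF C C₀ U id
  UI : ∀ r, U (I r) = r
  IU : ∀ {o o' a}, a ∈ C.H 0 o o' → I (U a) = a
  zero₀ : ∀ {k o o' a}, k ≠ 0 → a ∈ C₀.H k o o' → a = 0
  gap : ∀ {k o o' a}, k < j → k ≠ 0 → a ∈ C.H k o o' → a = 0

/-! ### Base change -/

/-- `1 ⊗ φ` -/
def lT (B : Type) [CommRing B] (φ : E →+ E') : B ⊗[ℤ] E →+ B ⊗[ℤ] E' :=
  (φ.toIntLinearMap.lTensor B).toAddMonoidHom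

/-- `φ ⊗ 1` -/
def rT {B B' : Type} [CommRing B] [CommRing B'] (E : Type) [Ring E] (φ : B →+ B') :
    B ⊗[ℤ] E →+ B' ⊗[ℤ] E := (φ.toIntLinearMap.rTensor E).toAddMonoidHom

def bcF (B : Type) [CommRing B] (X : AddSubgroup E) : AddSubgroup (B ⊗[ℤ] E) :=
  AddSubgroup.closure {z | ∃ b : B, ∃ e ∈ X, z = b ⊗ₜ e}

def Cat.bc (C : Cat E L) (B : Type) [CommRing B] : Cat (B ⊗[ℤ] E) L :=
  ⟨lT B C.σ, lT B C.d, fun k o o' => bcF B (C.H k o o')⟩

def BM.bc {κ : Type} [Finite κ] (T : BM E L E' L' κ) (ent : κ → κ → E →+ E') (B : Type)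
    [CommRing B] : BM (B ⊗[ℤ] E) L (B ⊗[ℤ] E') L' κ :=
  ⟨fun a k => equivFunOnFinite.symm fun k' => lT B (ent k k') a, T.dg, T.lb,
    fun k => mapRange (fun e => 1 ⊗ₜ e) (tmul_zero _ _) (T.Δ k)⟩

/-- the coefficients of an element of `A[X] ⊗ E` -/
def coeffs (A E : Type) [CommRing A] [Ring E] : A[X] ⊗[ℤ] E →+ (ℕ →₀ A ⊗[ℤ] E) :=
  open Classical in
  ((finsuppLeft ℤ ℤ A E ℕ).toLinearMap ∘ₗ
    ((basisMonomials A).repr.toLinearMap.restrictScalars ℤ).rTensor E).toAddMonoidHom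

/-- forget the variable -/
def flatB (A E L : Type) [CommRing A] [Ring E] : BM (A[X] ⊗[ℤ] E) L (A ⊗[ℤ] E) L ℕ :=
  ⟨fun a k => mapDomain (k + ·) (coeffs A E a), fun _ => 0, fun o _ => o, fun _ => 0⟩

@[reducible] def flat {A : Type} [CommRing A] (V : Raw (A[X] ⊗[ℤ] E) L) : Raw (A ⊗[ℤ] E) L :=
  V.bm (flatB A E L)

/-- base change along a ring homomorphism -/
@[reducible] def Raw.bc {B B' : Type} [CommRing B] [CommRing B'] (V : Raw (B ⊗[ℤ] E) L)
    (φ : B →+* B') : Raw (B' ⊗[ℤ] E) L := V.mapA (rT E φ.toAddMonoidHom) id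

/-! ### Systems of letters -/

/-- an ambient ring with a left basis over `R` -/
structure Sys (R E Λ O : Type) [Ring R] [Ring E] where
  σ : E →+ E
  d : E →+ E
  i : R →+* E
  c : E ≃+ (Λ →₀ R)
  u : Λ
  ok : Λ → Prop
  s : Λ → O
  t : Λ → O
  deg : Λ → ℤ
  ρ : Λ → ℕ

namespace Sys

variable {R Λ O : Type} [Ring R] (S : Sys R E Λ O) (Rf : O → O → AddSubgroup R)

def ε (l : Λ) : E := S.c.symm (single l 1)

/-- `l` is the unit or a valid letter with target `o` -/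
def val (l : Λ) (o : O) : Prop := l = S.u ∨ S.ok l ∧ S.t l = o

open Classical in
def src (l : Λ) (o : O) : O := if l = S.u then o else S.s l

/-- the span of the letters in `T` -/
def Sp (T : Λ → Prop) (o o' : O) : AddSubgroup E where
  carrier := {e | ∀ l, S.c e l ∈ Rf o (S.src l o') ∧ (S.c e l ≠ 0 → S.val l o' ∧ T l)}
  add_mem' {a b} ha hb l := by
    rw [map_add, Finsupp.add_apply]
    refine ⟨add_mem (ha l).1 (hb l).1, fun h => ?_⟩
    by_cases h' : S.c a l = 0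
    · exact (hb l).2 fun h'' => h (by rw [h', h'', add_zero])
    · exact (ha l).2 h'
  zero_mem' l := by simp
  neg_mem' {a} ha l := by
    rw [map_neg, Finsupp.neg_apply]
    exact ⟨neg_mem (ha l).1, fun h => (ha l).2 (neg_ne_zero.1 h)⟩

def cat : Cat E O := ⟨S.σ, S.d, fun k => S.Sp Rf fun l => S.deg l = k⟩

def aug : E →+ R := (applyAddHom S.u).comp S.c.toAddMonoidHom

open Classical in
/-- the projection on the letters in `T` -/
def pr (T : Λ → Prop) : E →+ E :=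
  S.c.symm.toAddMonoidHom.comp ((filterAddHom T).comp S.c.toAddMonoidHom)

def sub (T : Λ → Prop) : Sys R E Λ O := {S with ok := fun l => S.ok l ∧ T l}

open Classical in
def bc (B : Type) [CommRing B] : Sys (B ⊗[ℤ] R) (B ⊗[ℤ] E) Λ O where
  σ := lT B S.σ
  d := lT B S.d
  i := (Algebra.TensorProduct.map (AlgHom.id ℤ B) S.i.toIntAlgHom).toRingHom
  c := ((TensorProduct.congr (LinearEquiv.refl ℤ B) S.c.toIntLinearEquiv).trans
    (finsuppRight ℤ ℤ B R Λ)).toAddEquiv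
  u := S.u
  ok := S.ok
  s := S.s
  t := S.t
  deg := S.deg
  ρ := S.ρ

structure IsSys (j : ℤ) : Prop where
  bas : IsBas Rf
  dg : IsDG S.σ S.d
  σ_i : ∀ r, S.σ (S.i r) = S.i r
  d_i : ∀ r, S.d (S.i r) = 0
  c_mul : ∀ r e, S.c (S.i r * e) = r • S.c e
  c_one : S.c 1 = single S.u 1
  deg_u : S.deg S.u = 0
  ρ_u : S.ρ S.u = 0
  ne_u : ∀ l, S.ok l → l ≠ S.u
  deg_ge : ∀ l, S.ok l → j ≤ S.deg l
  ρ_pos : ∀ l, S.ok l → 1 ≤ S.ρ l
  σ_ε : ∀ l, S.ok l → S.σ (S.ε l) = (S.deg l).negOnePow • S.ε l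
  mulR : ∀ l o r, S.ok l → r ∈ Rf (S.t l) o → S.ε l * S.i r ∈
    S.Sp Rf (fun m => m ≠ S.u ∧ S.deg m = S.deg l ∧ S.ρ m ≤ S.ρ l) (S.s l) o
  mul : ∀ l l', S.ok l → S.ok l' → S.t l = S.s l' → S.ε l * S.ε l' ∈
    S.Sp Rf (fun m => m ≠ S.u ∧ S.deg m = S.deg l + S.deg l' ∧ S.ρ m ≤ S.ρ l + S.ρ l')
      (S.s l) (S.t l')
  d_ε : ∀ l, S.ok l → S.d (S.ε l) ∈
    S.Sp Rf (fun m => m ≠ S.u ∧ S.deg m = S.deg l + 1 ∧ S.ρ m < S.ρ l) (S.s l) (S.t l)

end Sys

/-- a cell attachment `E' = E⟨N⟩`: letters of `E`, letters of `E N`, and concatenation -/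
structure Cell (Λ : Type) where
  inE : Λ → Prop
  inN : Λ → Prop
  pre : Λ → Λ
  suf : Λ → Λ
  cat : Λ → Λ → Λ

namespace Sys

variable {R Λ O : Type} [Ring R] (S : Sys R E Λ O) (Rf : O → O → AddSubgroup R) (K : Cell Λ)

structure IsCell (j : ℤ) : Prop where
  sys : S.IsSys Rf j
  sub : (S.sub K.inE).IsSys Rf j
  inN : ∀ l, K.inN l → S.ok l ∧ ¬ K.inE l
  split : ∀ l, S.ok l → ¬ K.inE l → K.inN (K.pre l) ∧ S.val (K.suf l) (S.t l) ∧
    S.t (K.pre l) = S.src (K.suf l) (S.t l) ∧ K.cat (K.pre l) (K.suf l) = l ∧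
    S.ρ (K.suf l) < S.ρ l
  cat : ∀ h m o, K.inN h → S.val m o → S.t h = S.src m o → S.ok (K.cat h m) ∧
    ¬ K.inE (K.cat h m) ∧ S.t (K.cat h m) = o ∧ S.s (K.cat h m) = S.s h ∧
    K.pre (K.cat h m) = h ∧ K.suf (K.cat h m) = m ∧ S.ε (K.cat h m) = S.ε h * S.ε m ∧
    S.deg (K.cat h m) = S.deg h + S.deg m
  mulE : ∀ m h, S.ok m → K.inE m → K.inN h → S.t m = S.s h →
    S.ε m * S.ε h ∈ S.Sp Rf K.inN (S.s m) (S.t h)
  mulR : ∀ h o r, K.inN h → r ∈ Rf (S.t h) o → S.ε h * S.i r ∈ S.Sp Rf K.inN (S.s h) o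
  d_ε : ∀ h, K.inN h → S.d (S.ε h) ∈ S.Sp Rf (fun m => K.inN m ∨ K.inE m) (S.s h) (S.t h)

/-- the attaching map `E N → E` -/
def att : E →+ E := (S.pr K.inE).comp S.d

/-- the triangular family; `true` is the side of `E`, `false` the side of `R` -/
def tri : Cat E (O × Bool) := ⟨S.σ, S.d, fun k o o' => S.Sp Rf (fun l => S.deg l = k ∧
  (o.2 = false → o'.2 = false ∧ l = S.u) ∧ (l = S.u ∨ K.inE l ∨ o'.2 = false ∧ K.inN l)) o.1 o'.1⟩

end Sys

/-! ### Torsion and permutation bases -/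

open Classical in
/-- the torsion of a finite contractible complex lies in `Q` -/
def Tors (Q : AddSubgroup (WhDet.K1 E)) (V : Raw E L) : Prop :=
  ∃ (h : Lin V V) (n : ℕ) (e₀ : Fin n ≃ {i // Even (V.deg i)}) (e₁ : Fin n ≃ {i // Odd (V.deg i)}),
    (tcat E L).Hom (-1) V V h ∧ V.δ ∘ₗ h + h ∘ₗ V.δ = LinearMap.id ∧
    WhDet.cl (Matrix.of fun a b => (V.δ + h) (single (e₁ a).1 1) (e₀ b).1) ∈ Q

/-- the class of `-1` -/
def negCl (E : Type) [Ring E] : WhDet.K1 E := WhDet.cl (-1 : Matrix (Fin 1) (Fin 1) E)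

/-- the transport family of a `G`-set -/
def gfam (G O : Type) [Group G] [MulAction G O] (o o' : O) : AddSubgroup (MonoidAlgebra ℤ G) where
  carrier := {a | ∀ g, a.coeff g ≠ 0 → g • o' = o}
  add_mem' {a b} ha hb g h := by
    by_cases h' : a.coeff g = 0
    · exact hb g fun h'' => h (by simp [h', h''])
    · exact ha g h'
  zero_mem' g h := by simp at h
  neg_mem' {a} ha g h := ha g (by simpa using h)

end Pool.Agent.Lib.NIL
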