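import Pool.Agent.Lib.NIL.Defs
import Pool.Agent.Lib.NIL.FreeRes

/-! Finite pieces of free resolutions over a family concentrated in degree zero. -/

noncomputable section

namespace Pool.Agent.Lib.NIL

open Finsupp

namespace FR

variable {R O : Type} [Ring R] (Rf : O → O → AddSubgroup R)

/-- vectors with entries in the family -/
def Ml {κ : Type} (lab : κ → O) (o : O) (v : κ →₀ R) : Prop := ∀ i, v i ∈ Rf o (lab i)

/-- labelled free resolutions with at most `m` terms -/
def Res : ℕ → (κ : Type) → (κ → O) → Submodule R (κ →₀ R) → Prop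
  | 0, _, lab, K => ∀ o v, v ∈ K → Ml Rf lab o v → v = 0
  | m + 1, κ, lab, K => ∃ (ι : Type) (l : ι → O) (p : (ι →₀ R) →ₗ[R] (κ →₀ R)),
      (∀ i, Ml Rf lab (l i) (p (single i 1))) ∧ (∀ i, p (single i 1) ∈ K) ∧
      (∀ o v, v ∈ K → Ml Rf lab o v → ∃ w, Ml Rf l o w ∧ p w = v) ∧ Res m ι l (LinearMap.ker p)

variable {Rf}

theorem lin_apply {ι κ : Type} (f : (ι →₀ R) →ₗ[R] (κ →₀ R)) (v : ι →₀ R) :
    f v = ∑ i ∈ v.support, v i • f (single i 1) := by
  conv_lhs => rw [← Finsupp.sum_single v, Finsupp.sum, map_sum]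
  refine Finset.sum_congr rfl fun i _ => ?_
  rw [← map_smul, smul_single, smul_eq_mul, mul_one]

theorem Ml.map (hb : IsBas Rf) {ι κ : Type} {l : ι → O} {lab : κ → O}
    {f : (ι →₀ R) →ₗ[R] (κ →₀ R)} (hf : ∀ i, Ml Rf lab (l i) (f (single i 1))) {o : O}
    {v : ι →₀ R} (hv : Ml Rf l o v) : Ml Rf lab o (f v) := by
  intro j
  rw [lin_apply, Finsupp.finsetSum_apply]
  exact sum_mem fun i _ => hb.mul_mem (hv i) (hf i j)

theorem Ml.smul (hb : IsBas Rf) {κ : Type} {lab : κ → O} {o o' : O} {a : R} {v : κ →₀ R}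
    (ha : a ∈ Rf o o') (hv : Ml Rf lab o' v) : Ml Rf lab o (a • v) :=
  fun i => hb.mul_mem ha (hv i)

theorem map_eq_zero' {ι κ : Type} {f : (ι →₀ R) →ₗ[R] (κ →₀ R)} {v : ι →₀ R}
    (h : ∀ i, v i = 0 ∨ f (single i 1) = 0) : f v = 0 := by
  rw [lin_apply]
  refine Finset.sum_eq_zero fun i _ => ?_
  rcases h i with h | h <;> simp [h]

theorem map_mem' {ι κ : Type} {f : (ι →₀ R) →ₗ[R] (κ →₀ R)} {K : Submodule R (κ →₀ R)}
    (h : ∀ i, f (single i 1) ∈ K) (v : ι →₀ R) : f v ∈ K := by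
  rw [lin_apply]
  exact sum_mem fun i _ => K.smul_mem _ (h i)

theorem D_eq (V : Raw R O) (v : V.ι →₀ R) : (bcat Rf).D V v = V.δ v := by
  have : V.tw (0 : R →+ R) = 0 := by
    ext i r j
    simp [Raw.tw]
  simp [Cat.D, bcat, this]

theorem hom_iff {k : ℤ} {V W : Raw R O} {f : Lin V W} : (bcat Rf).Hom k V W f ↔
    (∀ i, Ml Rf W.lab (V.lab i) (f (single i 1))) ∧
      ∀ i j, W.deg j ≠ V.deg i + k → f (single i 1) j = 0 := by
  constructor
  · intro h
    refine ⟨fun i j => ?_, fun i j hj => ?_⟩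
    · have : f (single i 1) j ∈ (if V.deg i + k - W.deg j = 0 then Rf (V.lab i) (W.lab j) else ⊥) :=
        h i j
      split_ifs at this
      · exact this
      · rw [AddSubgroup.mem_bot.1 this]; exact zero_mem _
    · have : f (single i 1) j ∈ (if V.deg i + k - W.deg j = 0 then Rf (V.lab i) (W.lab j) else ⊥) :=
        h i j
      rw [if_neg (by omega)] at this
      exact AddSubgroup.mem_bot.1 this
  · rintro ⟨h1, h2⟩ i j
    change f (single i 1) j ∈ (if V.deg i + k - W.deg j = 0 then Rf (V.lab i) (W.lab j) else ⊥)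
    split_ifs with h
    · exact h1 i j
    · rw [h2 i j (by omega)]; exact zero_mem _

theorem obj_iff {V : Raw R O} :
    (bcat Rf).Obj V ↔ (bcat Rf).Hom 1 V V V.δ ∧ ∀ v, V.δ (V.δ v) = 0 := by
  simp only [Cat.Obj, D_eq]

theorem ch_iff {V W : Raw R O} {f : Lin V W} :
    (bcat Rf).Ch V W f ↔ (bcat Rf).Hom 0 V W f ∧ ∀ v, W.δ (f v) = f (V.δ v) := by
  simp only [Cat.Ch, D_eq]

section sums
variable {ι κ : Type}

theorem inc_apply_inl (v : ι →₀ R) (i : ι) : inc (Sum.inl : ι → ι ⊕ κ) v (Sum.inl i) = v i :=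
  mapDomain_apply Sum.inl_injective v i

theorem inc_apply_inr (v : κ →₀ R) (i : κ) : inc (Sum.inr : κ → ι ⊕ κ) v (Sum.inr i) = v i :=
  mapDomain_apply Sum.inr_injective v i

theorem inc_inl_inr (v : ι →₀ R) (i : κ) : inc (Sum.inl : ι → ι ⊕ κ) v (Sum.inr i) = 0 :=
  mapDomain_of_notMem_range v _ (by simp)

theorem inc_inr_inl (v : κ →₀ R) (i : ι) : inc (Sum.inr : κ → ι ⊕ κ) v (Sum.inl i) = 0 :=
  mapDomain_of_notMem_range v _ (by simp)

theorem prj_apply (f : ι → κ) (hf : Function.Injective f) (v : κ →₀ R) (i : ι) :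
    prj f hf v i = v (f i) := rfl

theorem inc_prj (T : κ → Prop) (v : κ →₀ R) (h : ∀ j, v j ≠ 0 → T j) :
    inc (Subtype.val : {j // T j} → κ) (prj Subtype.val Subtype.val_injective v) = v := by
  ext j
  by_cases hj : T j
  · exact mapDomain_apply Subtype.val_injective _ ⟨j, hj⟩
  · have h0 : v j = 0 := by
      by_contra h'
      exact hj (h j h')
    rw [h0]
    exact mapDomain_of_notMem_range _ _ (by simpa using hj)

end sums

theorem gen (hb : IsBas Rf) (X : Raw R O) (hX : (bcat Rf).Obj X) [Finite X.ι] (m : ℕ) (c : ℤ)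
    (κ : Type) (lab : κ → O) (K : Submodule R (κ →₀ R)) (hK : Res Rf m κ lab K)
    (ψ : (X.ι →₀ R) →ₗ[R] (κ →₀ R)) (h1 : ∀ i, Ml Rf lab (X.lab i) (ψ (single i 1)))
    (h2 : ∀ i, ψ (single i 1) ∈ K) (h3 : ∀ i, X.deg i ≠ c → ψ (single i 1) = 0)
    (h4 : ∀ v, ψ (X.δ v) = 0) :
    ∃ (G : Raw R O) (φ : Lin X G) (χ : (G.ι →₀ R) →ₗ[R] (κ →₀ R)), (bcat Rf).Obj G ∧ Finite G.ι ∧
      (∀ i, c - m < G.deg i ∧ G.deg i ≤ c) ∧ (bcat Rf).Ch X G φ ∧
      (∀ i, Ml Rf lab (G.lab i) (χ (single i 1))) ∧ (∀ i, χ (single i 1) ∈ K) ∧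
      (∀ i, G.deg i ≠ c → χ (single i 1) = 0) ∧ (∀ v, χ (G.δ v) = 0) ∧ ∀ v, χ (φ v) = ψ v := by
  obtain ⟨hδ, hδδ⟩ := obj_iff.1 hX
  obtain ⟨hδ1, hδ2⟩ := hom_iff.1 hδ
  induction m generalizing c κ lab K ψ with
  | zero =>
    refine ⟨⟨Empty, Empty.elim, Empty.elim, 0⟩, 0, 0, obj_iff.2 ⟨fun i => i.elim, fun _ => rfl⟩,
      inferInstanceAs (Finite Empty), fun i => i.elim, ch_iff.2 ⟨fun _ i => i.elim, fun _ => rfl⟩,
      fun i => i.elim, fun i => i.elim, fun i => i.elim, fun _ => rfl, fun v => ?_⟩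
    exact (map_eq_zero' fun i => Or.inr (hK _ _ (h2 i) (h1 i))).symm
  | succ m ih =>
    obtain ⟨ι, l, p, hp1, hp2, hp3, hres⟩ := hK
    have hw : ∀ i, ∃ w, Ml Rf l (X.lab i) w ∧ p w = ψ (single i 1) ∧ (X.deg i ≠ c → w = 0) := by
      intro i
      by_cases hi : X.deg i = c
      · obtain ⟨w, hw1, hw2⟩ := hp3 _ _ (h2 i) (h1 i)
        exact ⟨w, hw1, hw2, fun h => absurd hi h⟩
      · exact ⟨0, fun _ => zero_mem _, by rw [map_zero, h3 i hi], fun _ => rfl⟩
    choose w hw1 hw2 hw3 using hw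
    let ψ' : (X.ι →₀ R) →ₗ[R] (ι →₀ R) := lc w
    have hψ' : ∀ i, ψ' (single i 1) = w i := fun i => by simp [ψ']
    have hpψ : ∀ v, p (ψ' v) = ψ v := fun v => by
      have : p ∘ₗ ψ' = ψ := lhom_ext' fun i => LinearMap.ext_ring (by
        simpa [hψ'] using hw2 i)
      exact LinearMap.congr_fun this v
    obtain ⟨G, φ, χ, hG, hGf, hGd, hφ, hχ1, hχ2, hχ3, hχ4, hχ5⟩ := ih (c - 1) ι l (LinearMap.ker p)
      hres (ψ' ∘ₗ X.δ) (fun i => Ml.map hb (f := ψ') (fun j => (hψ' j).symm ▸ hw1 j) (hδ1 i))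
      (fun i => (hpψ _).trans (h4 _))
      (fun i hi => map_eq_zero' (f := ψ') fun j => by
        by_cases hj : X.deg j = c
        · exact Or.inl (hδ2 i j (by omega))
        · exact Or.inr ((hψ' j).trans (hw3 j hj)))
      (fun v => by rw [LinearMap.comp_apply, hδδ, map_zero])
    obtain ⟨hG1, hG2⟩ := obj_iff.1 hG
    obtain ⟨hG3, hG4⟩ := hom_iff.1 hG1
    obtain ⟨hφ1, hφ2⟩ := ch_iff.1 hφ
    obtain ⟨hφ3, hφ4⟩ := hom_iff.1 hφ1
    let T : ι → Prop := fun j => (∃ i, ψ' (single i 1) j ≠ 0) ∨ ∃ g, χ (single g 1) j ≠ 0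
    have hT : Finite {j // T j} := by
      have : {j | T j} ⊆ (⋃ i, ((ψ' (single i 1)).support : Set ι)) ∪
          ⋃ g, ((χ (single g 1)).support : Set ι) := by
        rintro j (⟨i, hi⟩ | ⟨g, hg⟩)
        · exact Or.inl (Set.mem_iUnion.2 ⟨i, by simpa using hi⟩)
        · exact Or.inr (Set.mem_iUnion.2 ⟨g, by simpa using hg⟩)
      exact ((Set.finite_iUnion fun i => Finset.finite_toSet _).union
        (Set.finite_iUnion fun g => Finset.finite_toSet _)).subset this
    let A : Raw R O := ⟨{j // T j}, fun _ => c, fun j => l j.1, 0⟩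
    let pr : (ι →₀ R) →ₗ[R] ({j // T j} →₀ R) := prj Subtype.val Subtype.val_injective
    have hpr : ∀ {τ : Type} (f : (τ →₀ R) →ₗ[R] (ι →₀ R)), (∀ i j, f (single i 1) j ≠ 0 → T j) →
        ∀ v, inc Subtype.val (pr (f v)) = f v := by
      intro τ f hf v
      have : inc Subtype.val ∘ₗ pr ∘ₗ f = f := lhom_ext' fun i => LinearMap.ext_ring
        (inc_prj T _ (hf i))
      exact LinearMap.congr_fun this v
    let G' := Raw.ext A G (pr ∘ₗ χ)
    have hδG : ∀ v, G'.δ v = inc Sum.inr (G.δ (prj Sum.inr Sum.inr_injective v)) +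
        inc Sum.inl (pr (χ (prj Sum.inr Sum.inr_injective v))) := fun v => by
      simp [G', A]
    have hrr : ∀ v : G.ι →₀ R, prj Sum.inr Sum.inr_injective
        (inc (Sum.inr : G.ι → {j // T j} ⊕ G.ι) v) = v := fun v => by
      ext i; exact inc_apply_inr v i
    have hrl : ∀ v : {j // T j} →₀ R, prj Sum.inr Sum.inr_injective
        (inc (Sum.inl : {j // T j} → {j // T j} ⊕ G.ι) v) = 0 := fun v => by
      ext i; exact inc_inl_inr v i
    have hll : ∀ v : {j // T j} →₀ R, prj Sum.inl Sum.inl_injective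
        (inc (Sum.inl : {j // T j} → {j // T j} ⊕ G.ι) v) = v := fun v => by
      ext i; exact inc_apply_inl v i
    have hlr : ∀ v : G.ι →₀ R, prj Sum.inl Sum.inl_injective
        (inc (Sum.inr : G.ι → {j // T j} ⊕ G.ι) v) = 0 := fun v => by
      ext i; exact inc_inr_inl v i
    have hsl : ∀ j : {j // T j}, (single (Sum.inl j) 1 : {j // T j} ⊕ G.ι →₀ R) =
        inc Sum.inl (single j 1) := fun j => by simp
    have hsr : ∀ j : G.ι, (single (Sum.inr j) 1 : {j // T j} ⊕ G.ι →₀ R) =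
        inc Sum.inr (single j 1) := fun j => by simp
    refine ⟨G', inc Sum.inl ∘ₗ pr ∘ₗ ψ' + inc Sum.inr ∘ₗ φ,
      p ∘ₗ inc Subtype.val ∘ₗ prj Sum.inl Sum.inl_injective,
      obj_iff.2 ⟨hom_iff.2 ⟨?_, ?_⟩, fun v => ?_⟩, inferInstanceAs (Finite ({j // T j} ⊕ G.ι)),
      ?_, ch_iff.2 ⟨hom_iff.2 ⟨?_, ?_⟩, fun v => ?_⟩, ?_, ?_, ?_, fun v => ?_, fun v => ?_⟩
    · rintro (i | i) j
      · rw [hδG, hsl, hrl]
        simp [zero_mem]
      · rw [hδG, hsr, hrr]
        rcases j with j | j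
        · rw [Finsupp.add_apply, inc_inr_inl, inc_apply_inl, zero_add]
          exact hχ1 i j.1
        · rw [Finsupp.add_apply, inc_inl_inr, inc_apply_inr, add_zero]
          exact hG3 i j
    · rintro (i | i) j hj
      · rw [hδG, hsl, hrl]
        simp
      · rw [hδG, hsr, hrr]
        rcases j with j | j
        · rw [Finsupp.add_apply, inc_inr_inl, inc_apply_inl, zero_add,
            hχ3 i (fun h => hj (show c = G.deg i + 1 by omega))]
          simp
        · rw [Finsupp.add_apply, inc_inl_inr, inc_apply_inr, add_zero]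
          exact hG4 i j hj
    · rw [hδG, hδG, map_add, hrr, hrl, add_zero, hG2, hχ4]
      simp
    · rintro (i | i)
      · exact ⟨show c - (m + 1 : ℕ) < c by push_cast; omega, le_refl c⟩
      · have := hGd i
        exact ⟨show c - (m + 1 : ℕ) < G.deg i by push_cast; omega, show G.deg i ≤ c by omega⟩
    · rintro i (j | j)
      · simp only [LinearMap.add_apply, LinearMap.comp_apply, Finsupp.add_apply]
        rw [inc_inr_inl, inc_apply_inl, add_zero, hψ']
        exact hw1 i j.1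
      · simp only [LinearMap.add_apply, LinearMap.comp_apply, Finsupp.add_apply]
        rw [inc_inl_inr, inc_apply_inr, zero_add]
        exact hφ3 i j
    · rintro i (j | j) hj
      · simp only [LinearMap.add_apply, LinearMap.comp_apply, Finsupp.add_apply]
        rw [inc_inr_inl, inc_apply_inl, add_zero, hψ',
          hw3 i (fun h => hj (show c = X.deg i + 0 by omega))]
        simp
      · simp only [LinearMap.add_apply, LinearMap.comp_apply, Finsupp.add_apply]
        rw [inc_inl_inr, inc_apply_inr, zero_add]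
        exact hφ4 i j hj
    · simp only [LinearMap.add_apply, LinearMap.comp_apply]
      rw [hδG, map_add, hrr, hrl, zero_add, hφ2, hχ5, add_comm]
      rfl
    · rintro (i | i)
      · simp only [LinearMap.comp_apply]
        rw [hsl, hll, lmapDomain_apply, mapDomain_single]
        exact hp1 i.1
      · simp only [LinearMap.comp_apply]
        rw [hsr, hlr, map_zero, map_zero]
        exact fun _ => zero_mem _
    · intro i
      exact map_mem' hp2 _
    · rintro (i | i) hi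
      · exact absurd rfl hi
      · simp only [LinearMap.comp_apply]
        rw [hsr, hlr, map_zero, map_zero]
    · simp only [LinearMap.comp_apply]
      rw [hδG, map_add, hlr, hll, zero_add, hpr χ (fun i j h => Or.inr ⟨i, h⟩)]
      exact map_mem' hχ2 _
    · simp only [LinearMap.add_apply, LinearMap.comp_apply]
      rw [map_add, hlr, hll, add_zero, hpr ψ' (fun i j h => Or.inl ⟨i, h⟩), hpψ]

theorem fr_of_res (hb : IsBas Rf) (n : ℕ)
    (h : ∀ (κ : Type) (lab : κ → O) (K : Submodule R (κ →₀ R)), Res Rf (n + 1) κ lab K) :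
    (bcat Rf).FR n := by
  classical
  intro X hX hf c
  obtain ⟨hδ, hδδ⟩ := obj_iff.1 hX
  obtain ⟨hδ1, hδ2⟩ := hom_iff.1 hδ
  let ψ : (X.ι →₀ R) →ₗ[R] (X.ι →₀ R) := lc fun i => if X.deg i = c then X.δ (single i 1) else 0
  have hψ : ∀ i, ψ (single i 1) = if X.deg i = c then X.δ (single i 1) else 0 := fun i => by
    simp [ψ]
  let K : Submodule R (X.ι →₀ R) := LinearMap.ker X.δ ⊓ supported R R {i | X.deg i = c + 1}
  obtain ⟨G, φ, χ, hG, hGf, hGd, hφ, hχ1, hχ2, hχ3, hχ4, hχ5⟩ := gen hb X hX (n + 1) c X.ι X.lab K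
    (h _ _ _) ψ
    (fun i => by
      rw [hψ]
      split_ifs
      · exact hδ1 i
      · exact fun _ => zero_mem _)
    (fun i => by
      rw [hψ]
      split_ifs with hi
      · exact ⟨hδδ _, (mem_supported' R _).2 fun j hj => hδ2 i j (by rw [hi]; exact hj)⟩
      · exact zero_mem _)
    (fun i hi => by rw [hψ, if_neg hi])
    (fun v => by
      have : ψ ∘ₗ X.δ = 0 := lhom_ext' fun i => LinearMap.ext_ring (by
        change ψ (X.δ (single i 1)) = 0
        by_cases hi : X.deg i + 1 = c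
        · have : (ψ - X.δ) (X.δ (single i 1)) = 0 := map_eq_zero' fun j => by
            by_cases hj : X.deg j = c
            · exact Or.inr (by rw [LinearMap.sub_apply, hψ, if_pos hj, sub_self])
            · exact Or.inl (hδ2 i j (by omega))
          rwa [LinearMap.sub_apply, hδδ, sub_zero] at this
        · exact map_eq_zero' fun j => by
            by_cases hj : X.deg j = c
            · exact Or.inl (hδ2 i j (by omega))
            · exact Or.inr (by rw [hψ, if_neg hj]))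
      exact LinearMap.congr_fun this v)
  refine ⟨G, φ, χ, hG, hGf, fun i => ⟨?_, (hGd i).2⟩, hφ, ⟨hom_iff.2 ⟨hχ1, fun i j hj => ?_⟩,
    fun v => ?_⟩, hχ3, fun i hi => ?_⟩
  · have := (hGd i).1
    push_cast at this
    omega
  · by_cases hi : G.deg i = c
    · exact (mem_supported' R _).1 (hχ2 i).2 j (by rw [hi] at hj; exact hj)
    · rw [hχ3 i hi]; rfl
  · rw [D_eq, D_eq, hχ4, neg_zero]
    exact (map_mem' hχ2 v).1
  · rw [hχ5, hψ, if_pos hi]

/-- submodules of free modules have free resolutions with at most `m` terms -/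
def Her (S : Type) [Ring S] (m : ℕ) : Prop :=
  ∀ (ι : Type) (N : Submodule S (ι →₀ S)), FD S m N

/-- the family is a groupoid ring with chosen representatives `r o` and vertex rings `S o` -/
structure Gpd (Rf : O → O → AddSubgroup R) (r : O → O) (t t' : O → R) (S : O → Type)
    [∀ o, Ring (S o)] (ρ : ∀ o, S o →+* R) : Prop where
  rr : ∀ o, r (r o) = r o
  t_mem : ∀ o, t o ∈ Rf o (r o)
  t'_mem : ∀ o, t' o ∈ Rf (r o) o
  tt' : ∀ o, t o * t' o = 1
  t't : ∀ o, t' o * t o = 1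
  sep : ∀ o o', r o = o → r o' = o' → o ≠ o' → ∀ a ∈ Rf o o', a = 0
  inj : ∀ o, Function.Injective (ρ o)
  rng : ∀ o a, a ∈ Rf o o ↔ a ∈ Set.range (ρ o)

/-- the semilinear map with given values on the generators -/
def slc {S ι κ : Type} [Ring S] (ρ : S →+* R) (f : ι → κ →₀ R) : (ι →₀ S) →ₛₗ[ρ] (κ →₀ R) where
  toFun v := lc f (mapRange ρ ρ.map_zero v)
  map_add' v w := by rw [mapRange_add ρ.map_add, map_add]
  map_smul' a v := by
    rw [← map_smul]
    congr 1
    ext i
    simp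

theorem slc_single {S ι κ : Type} [Ring S] (ρ : S →+* R) (f : ι → κ →₀ R) (i : ι) (a : S) :
    slc ρ f (single i a) = ρ a • f i := by
  simp [slc]

/-- the semilinear map `a b i ↦ ρ a * z i b (e i)` -/
theorem slc_emb {S ι κ : Type} [Ring S] (ρ : S →+* R) (e : ι → κ) (he : Function.Injective e)
    (z : ι → R) (v : ι →₀ S) :
    (∀ i, slc ρ (fun i => single (e i) (z i)) v (e i) = ρ (v i) * z i) ∧
      ∀ j, j ∉ Set.range e → slc ρ (fun i => single (e i) (z i)) v j = 0 := by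
  classical
  induction v using Finsupp.induction_linear with
  | zero => simp
  | add v w hv hw =>
    refine ⟨fun i => ?_, fun j hj => ?_⟩
    · rw [map_add, Finsupp.add_apply, hv.1, hw.1, Finsupp.add_apply, map_add, add_mul]
    · rw [map_add, Finsupp.add_apply, hv.2 j hj, hw.2 j hj, add_zero]
  | single k a =>
    refine ⟨fun i => ?_, fun j hj => ?_⟩
    · rw [slc_single]
      by_cases h : k = i
      · subst h; simp
      · simp [h, he.ne h]
    · rw [slc_single]
      have : e k ≠ j := fun h => hj ⟨k, h⟩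
      simp [this]

theorem exists_slc {S ι κ : Type} [Ring S] (ρ : S →+* R) (hρ : Function.Injective ρ) (e : ι → κ)
    (he : Function.Injective e) (z z' : ι → R) (hz : ∀ i, z' i * z i = 1) (v : κ →₀ R)
    (h1 : ∀ i, v (e i) * z' i ∈ Set.range ρ) (h2 : ∀ j, j ∉ Set.range e → v j = 0) :
    ∃ w, slc ρ (fun i => single (e i) (z i)) w = v := by
  choose w hw using h1
  have hfin : {i | w i ≠ 0}.Finite := by
    refine (v.hasFiniteSupport.preimage he.injOn).subset fun i hi h => hi ?_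
    apply hρ
    rw [hw, h, zero_mul, map_zero]
  refine ⟨ofSupportFinite w hfin, Finsupp.ext fun j => ?_⟩
  by_cases hj : j ∈ Set.range e
  · obtain ⟨i, rfl⟩ := hj
    rw [(slc_emb ρ e he z _).1, ofSupportFinite_coe, hw, mul_assoc, hz, mul_one]
  · rw [(slc_emb ρ e he z _).2 j hj, h2 j hj]

theorem slc_inj {S ι κ : Type} [Ring S] (ρ : S →+* R) (hρ : Function.Injective ρ) (e : ι → κ)
    (he : Function.Injective e) (z z' : ι → R) (hz : ∀ i, z i * z' i = 1) :
    Function.Injective (slc ρ (fun i => single (e i) (z i))) := by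
  intro v w h
  ext i
  apply hρ
  have := congrArg (fun x => x (e i) * z' i) h
  simpa only [(slc_emb ρ e he z _).1, mul_assoc, hz, mul_one] using this

variable {r : O → O} {t t' : O → R} {S : O → Type} [∀ o, Ring (S o)] {ρ : ∀ o, S o →+* R}

theorem res_of_fd (hb : IsBas Rf) (g : Gpd Rf r t t' S ρ) (m : ℕ) (κ : Type) (lab : κ → O)
    (K : Submodule R (κ →₀ R))
    (h : ∀ o, r o = o → ∃ (N : ModuleCat.{0} (S o)) (J : N →ₛₗ[ρ o] (κ →₀ R)),
      Function.Injective J ∧ (∀ v, v ∈ K ∧ Ml Rf lab o v ↔ v ∈ Set.range J) ∧ FD (S o) m N) :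
    Res Rf m κ lab K := by
  induction m generalizing κ lab K with
  | zero =>
    intro o v hv hm
    obtain ⟨N, J, -, h2, h3⟩ := h (r o) (g.rr o)
    have : Subsingleton N := h3
    obtain ⟨w, hw⟩ := (h2 (t' o • v)).1 ⟨K.smul_mem _ hv, hm.smul hb (g.t'_mem o)⟩
    rw [← one_smul R v, ← g.tt' o, mul_smul, ← hw, Subsingleton.elim w 0, map_zero, smul_zero]
  | succ m ih =>
    choose N J h1 h2 I p h3 h4 using h
    let ι : Type := Σ o : {o // r o = o}, I o.1 o.2
    let P : (ι →₀ R) →ₗ[R] (κ →₀ R) := lc fun x => J x.1.1 x.1.2 (p x.1.1 x.1.2 (single x.2 1))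
    have hP : ∀ x : ι, P (single x 1) = J x.1.1 x.1.2 (p x.1.1 x.1.2 (single x.2 1)) := fun x => by
      simp [P]
    let J' : ∀ o (ho : r o = o), (I o ho →₀ S o) →ₛₗ[ρ o] (ι →₀ R) := fun o ho =>
      slc (ρ o) fun a => single (⟨⟨o, ho⟩, a⟩ : ι) 1
    have he : ∀ o (ho : r o = o), Function.Injective fun a : I o ho => (⟨⟨o, ho⟩, a⟩ : ι) :=
      fun o ho => sigma_mk_injective (β := fun o : {o // r o = o} => I o.1 o.2) (i := ⟨o, ho⟩)
    have hPJ : ∀ o (ho : r o = o) w, P (J' o ho w) = J o ho (p o ho w) := by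
      intro o ho w
      induction w using Finsupp.induction_linear with
      | zero => simp
      | add v w hv hw => simp only [map_add, hv, hw]
      | single a s =>
        rw [slc_single, map_smul, hP, ← map_smulₛₗ, ← map_smul, smul_single, smul_eq_mul, mul_one]
    have hM : ∀ o (ho : r o = o) v, Ml Rf (fun x : ι => x.1.1) o v ↔ v ∈ Set.range (J' o ho) := by
      intro o ho v
      constructor
      · intro hv
        refine exists_slc (ρ o) (g.inj o) _ (he o ho) (fun _ => 1) (fun _ => 1)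
          (fun _ => one_mul 1) v (fun a => ?_) (fun x hx => ?_)
        · rw [mul_one]
          exact (g.rng o _).1 (hv ⟨⟨o, ho⟩, a⟩)
        · refine g.sep o x.1.1 ho x.1.2 (fun h => hx ?_) _ (hv x)
          obtain ⟨⟨o', ho'⟩, a⟩ := x
          subst h
          exact ⟨a, rfl⟩
      · rintro ⟨w, rfl⟩ x
        by_cases hx : x ∈ Set.range fun a : I o ho => (⟨⟨o, ho⟩, a⟩ : ι)
        · obtain ⟨a, rfl⟩ := hx
          rw [(slc_emb (ρ o) _ (he o ho) (fun _ => 1) w).1, mul_one]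
          exact (g.rng o _).2 ⟨_, rfl⟩
        · rw [(slc_emb (ρ o) _ (he o ho) (fun _ => 1) w).2 x hx]
          exact zero_mem _
    refine ⟨ι, fun x => x.1.1, P, fun x => ?_, fun x => ?_, fun o v hv hm => ?_,
      ih _ _ _ fun o ho => ?_⟩
    · rw [hP]
      exact ((h2 _ _ _).2 ⟨_, rfl⟩).2
    · rw [hP]
      exact ((h2 _ _ _).2 ⟨_, rfl⟩).1
    · obtain ⟨w, hw⟩ := (h2 (r o) (g.rr o) (t' o • v)).1
        ⟨K.smul_mem _ hv, hm.smul hb (g.t'_mem o)⟩
      obtain ⟨y, rfl⟩ := h3 _ _ w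
      refine ⟨t o • J' _ (g.rr o) y, ((hM _ _ _).2 ⟨y, rfl⟩).smul hb (g.t_mem o), ?_⟩
      rw [map_smul, hPJ, hw, ← mul_smul, g.tt', one_smul]
    · refine ⟨ModuleCat.of (S o) (LinearMap.ker (p o ho)),
        (J' o ho).comp (LinearMap.ker (p o ho)).subtype, ?_, fun v => ?_, h4 o ho⟩
      · exact (slc_inj (ρ o) (g.inj o) _ (he o ho) (fun _ => 1) (fun _ => 1)
          (fun _ => one_mul 1)).comp Subtype.val_injective
      · constructor
        · rintro ⟨hv, hm⟩
          obtain ⟨w, rfl⟩ := (hM o ho v).1 hm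
          refine ⟨⟨w, h1 o ho ?_⟩, rfl⟩
          rw [← hPJ, map_zero]
          exact hv
        · rintro ⟨w, rfl⟩
          refine ⟨?_, (hM o ho _).2 ⟨w.1, rfl⟩⟩
          change P (J' o ho w.1) = 0
          rw [hPJ, show p o ho w.1 = 0 from w.2, map_zero]

theorem res_of_her (hb : IsBas Rf) (g : Gpd Rf r t t' S ρ) (m : ℕ)
    (h : ∀ o, r o = o → Her (S o) m) (κ : Type) (lab : κ → O) (K : Submodule R (κ →₀ R)) :
    Res Rf m κ lab K := by
  refine res_of_fd hb g m κ lab K fun o ho => ?_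
  let J : ({i // r (lab i) = o} →₀ S o) →ₛₗ[ρ o] (κ →₀ R) :=
    slc (ρ o) fun i => single i.1 (t' (lab i.1))
  have hM : ∀ v, Ml Rf lab o v ↔ v ∈ Set.range J := by
    intro v
    constructor
    · intro hv
      refine exists_slc (ρ o) (g.inj o) _ Subtype.val_injective (fun i => t' (lab i.1))
        (fun i => t (lab i.1)) (fun i => g.tt' _) v (fun i => ?_) (fun j hj => ?_)
      · refine (g.rng o _).1 ?_
        have := hb.mul_mem (hv i.1) (g.t_mem _)
        rwa [i.2] at this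
      · have h0 := g.sep o (r (lab j)) ho (g.rr _) (fun h => hj ⟨⟨j, h.symm⟩, rfl⟩) _
          (hb.mul_mem (hv j) (g.t_mem _))
        rw [← mul_one (v j), ← g.tt' (lab j), ← mul_assoc, h0, zero_mul]
    · rintro ⟨w, rfl⟩ j
      by_cases hj : j ∈ Set.range (Subtype.val : {i // r (lab i) = o} → κ)
      · obtain ⟨i, rfl⟩ := hj
        rw [(slc_emb (ρ o) _ Subtype.val_injective (fun i => t' (lab i.1)) w).1]
        have := g.t'_mem (lab i.1)
        rw [i.2] at this
        exact hb.mul_mem ((g.rng o _).2 ⟨_, rfl⟩) this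
      · rw [(slc_emb (ρ o) _ Subtype.val_injective (fun i => t' (lab i.1)) w).2 j hj]
        exact zero_mem _
  refine ⟨ModuleCat.of (S o) (K.comap J), J.comp (K.comap J).subtype, ?_, fun v => ?_,
    h o ho _ _⟩
  · exact (slc_inj (ρ o) (g.inj o) _ Subtype.val_injective (fun i => t' (lab i.1))
      (fun i => t (lab i.1)) (fun i => g.t't _)).comp Subtype.val_injective
  · constructor
    · rintro ⟨hv, hm⟩
      obtain ⟨w, rfl⟩ := (hM v).1 hm
      exact ⟨⟨w, hv⟩, rfl⟩
    · rintro ⟨w, rfl⟩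
      exact ⟨w.2, (hM _).2 ⟨w.1, rfl⟩⟩

/-- the abstract form: a groupoid ring whose vertex rings have bounded resolutions -/
theorem fr_of_gpd (hb : IsBas Rf) (g : Gpd Rf r t t' S ρ) (n : ℕ)
    (h : ∀ o, r o = o → ∀ (ι : Type) (N : Submodule (S o) (ι →₀ S o)), PD (S o) n N) :
    (bcat Rf).FR (n + 1) :=
  fr_of_res hb (n + 1) (res_of_her hb g (n + 2) fun o ho ι N => fd_of_pd n _ (h o ho ι N))

end FR

end Pool.Agent.Lib.NIL
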