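import Pool.Agent.Lib.NIL.A6
import Pool.Agent.Lib.NIL.Blue2

/-! Block TH, common part: the tree of copies of a complex. -/

noncomputable section

namespace Pool.Agent.Lib.NIL

open Finsupp TensorProduct

variable {G X : Type} [Group G] [MulAction G X]

open Classical in
/-- the part of `a` supported on the `g` with `g s' = s` -/
def flt (G : Type) [Group G] [MulAction G X] (s s' : X) :
    MonoidAlgebra ℤ G →+ MonoidAlgebra ℤ G where
  toFun a := .ofCoeff (a.coeff.filter fun g => g • s' = s)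
  map_zero' := MonoidAlgebra.ext (filter_zero _)
  map_add' a b := MonoidAlgebra.ext (by simp [filter_add])

theorem flt_single (s s' : X) (g : G) (n : ℤ) [Decidable (g • s' = s)] :
    flt G s s' (.single g n) = if g • s' = s then .single g n else 0 := by
  classical
  refine MonoidAlgebra.ext ?_
  split_ifs with h
  · exact filter_single_of_pos _ h
  · exact filter_single_of_neg _ h

theorem flt_mem (s s' : X) (a : MonoidAlgebra ℤ G) : flt G s s' a ∈ gfam G X s s' := by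
  classical
  intro g hg
  by_contra h
  exact hg (filter_apply_neg _ _ h)

variable (B : Type) [CommRing B]

theorem lT_flt_tmul (s s' : X) (g : G) (b : B) [Decidable (g • s' = s)] :
    lT B (flt G s s') (b ⊗ₜ .single g 1) = if g • s' = s then b ⊗ₜ .single g 1 else 0 := by
  rw [lT_tmul, flt_single]
  split_ifs <;> simp

theorem lT_flt_mem (s s' : X) (a : B ⊗[ℤ] MonoidAlgebra ℤ G) :
    lT B (flt G s s') a ∈ bcF B (gfam G X s s') :=
  lT_mem_bcF (X := ⊤) (fun e _ => flt_mem s s' e) (by rw [bcF_top]; trivial)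

variable {B}

/-- the part vanishes unless some allowed `g` moves `s'` to `s` -/
theorem lT_flt_ne {p : G → Prop} {a : B ⊗[ℤ] MonoidAlgebra ℤ G} (ha : a ∈ bcF B (sfam p))
    {s s' : X} (h : lT B (flt G s s') a ≠ 0) : ∃ g, p g ∧ g • s' = s := by
  classical
  by_contra h0
  refine h (bc_sfam_induction (P := fun a => lT B (flt G s s') a = 0) ha (fun g b hg => ?_)
    (map_zero _) fun x y hx hy => by rw [map_add, hx, hy, add_zero])
  rw [lT_flt_tmul, if_neg fun h1 => h0 ⟨g, hg, h1⟩]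

theorem lT_flt_congr {p : G → Prop} {a : B ⊗[ℤ] MonoidAlgebra ℤ G} (ha : a ∈ bcF B (sfam p))
    {Y : Type} [MulAction G Y] {s s' : X} {t t' : Y} (h : ∀ g, p g → (g • s' = s ↔ g • t' = t)) :
    lT B (flt G s s') a = lT B (flt G t t') a := by
  classical
  refine bc_sfam_induction (P := fun a => lT B (flt G s s') a = lT B (flt G t t') a) ha
    (fun g b hg => ?_) (by simp) fun x y hx hy => by rw [map_add, map_add, hx, hy]
  rw [lT_flt_tmul, lT_flt_tmul, if_congr (h g hg) rfl rfl]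

theorem flt_finite (a : B ⊗[ℤ] MonoidAlgebra ℤ G) (s : X) :
    (Function.support fun s' => lT B (flt G s s') a).Finite := by
  classical
  refine bc_sfam_induction (P := fun a => (Function.support fun s' => lT B (flt G s s') a).Finite)
    (mem_bc_sfam_top a) (fun g b _ => (Set.finite_singleton (g⁻¹ • s)).subset fun s' h => ?_)
    (by simp) fun x y hx hy => ?_
  · by_contra h0
    exact h ((lT_flt_tmul B s s' g b).trans (if_neg fun h1 => h0 (eq_inv_smul_iff.2 h1)))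
  · simp only [map_add]
    exact (hx.union hy).subset (Function.support_add _ _)

theorem bc_ind {P : B ⊗[ℤ] MonoidAlgebra ℤ G → Prop} (h1 : ∀ g b, P (b ⊗ₜ .single g 1)) (h0 : P 0)
    (h2 : ∀ x y, P x → P y → P (x + y)) (a : B ⊗[ℤ] MonoidAlgebra ℤ G) : P a :=
  bc_sfam_induction (mem_bc_sfam_top a) (fun g b _ => h1 g b) h0 h2

namespace Forest

variable (F : Forest G Unit X) (fl : {e : X // F.ed e} → F.Fl)

open Classical in
/-- the sign that orients the edges away from the base point -/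
def sg (s : X) : ℤˣ := if h : F.ed s then (bif (fl ⟨s, h⟩).2 then 1 else -1) else 1

open Classical in
/-- the copies of one generator -/
def TB (B : Type) [CommRing B] :
    BM (B ⊗[ℤ] MonoidAlgebra ℤ G) Unit (B ⊗[ℤ] MonoidAlgebra ℤ G) X X where
  act a s := ofSupportFinite (fun s' => (F.sg fl s * F.sg fl s') • lT B (flt G s s') a)
    ((flt_finite a s).subset fun s' h h0 => h ((congrArg _ h0).trans (smul_zero _)))
  dg s := if F.ed s then -1 else 0
  lb _ s := s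
  Δ s := F.sg fl s • (single (F.d1 s) 1 - single (F.d0 s) 1)

/-- finite subtrees, one for each generator -/
structure Hull (V : Raw (B ⊗[ℤ] MonoidAlgebra ℤ G) Unit) (K : V.ι → Set X) : Prop where
  fin : ∀ y, (K y).Finite
  b : ∀ y, F.b () ∈ K y
  d0 : ∀ y, ∀ s ∈ K y, F.d0 s ∈ K y
  d1 : ∀ y, ∀ s ∈ K y, F.d1 s ∈ K y
  s0 : ∀ y, ∀ s ∈ K y, ∀ t, F.s0 s t ≠ 0 → t ∈ K y
  mem : ∀ y y', V.δ (single y 1) y' ∈ bcF B (sfam fun g : G => ∀ s ∈ K y, g⁻¹ • s ∈ K y')

variable {F fl}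

theorem sg_v {s : X} (h : ¬ F.ed s) : F.sg fl s = 1 := dif_neg h

theorem sg_e (e : {e : X // F.ed e}) : F.sg fl e.1 = bif (fl e).2 then 1 else -1 := dif_pos e.2

theorem TB_act (a : B ⊗[ℤ] MonoidAlgebra ℤ G) (s s' : X) :
    (F.TB fl B).act a s s' = (F.sg fl s * F.sg fl s') • lT B (flt G s s') a := rfl

theorem TB_act_zero (s : X) : (F.TB fl B).act 0 s = 0 := by
  ext s'
  simp [TB_act]

theorem TB_dg_e {s : X} (h : F.ed s) : (F.TB fl B).dg s = -1 := if_pos h

theorem TB_dg_v {s : X} (h : ¬ F.ed s) : (F.TB fl B).dg s = 0 := if_neg h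

theorem TB_Δ_v {s : X} (h : ¬ F.ed s) : (F.TB fl B).Δ s = 0 := by
  change F.sg fl s • (single (F.d1 s) 1 - single (F.d0 s) 1) = 0
  rw [F.d0_v _ h, F.d1_v _ h, sub_self, smul_zero]

theorem TB_Δ_e {ht : X → ℕ} (hR : F.Root fl ht) (e : {e : X // F.ed e}) :
    (F.TB fl B).Δ e.1 = single (F.far (fl e)) 1 - single (F.near (fl e)) 1 := by
  change F.sg fl e.1 • (single (F.d1 e.1) 1 - single (F.d0 e.1) 1) = _
  rw [sg_e, far, near, hR.edge]
  cases (fl e).2 <;> simp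

/-- the entries of the differential of the tree of copies -/
theorem TB_δ (V : Raw (B ⊗[ℤ] MonoidAlgebra ℤ G) Unit) (y y' : V.ι) (s s' : X)
    [Decidable (y = y')] : (V.bm (F.TB fl B)).δ (single (y, s) 1) (y', s') =
      (F.sg fl s * F.sg fl s') • lT B (flt G s s') (V.δ (single y 1) y') +
        if y = y' then (V.deg y).negOnePow • (F.TB fl B).Δ s s' else 0 :=
  bm_δ TB_act_zero y y' s s'

theorem TB_act_add (a a' : B ⊗[ℤ] MonoidAlgebra ℤ G) (s : X) :
    (F.TB fl B).act (a + a') s = (F.TB fl B).act a s + (F.TB fl B).act a' s := by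
  ext s'
  simp [TB_act]

theorem TB_act_tmul (b : B) (g : G) (s : X) : (F.TB fl B).act (b ⊗ₜ .single g 1) s =
    single (g⁻¹ • s) ((F.sg fl s * F.sg fl (g⁻¹ • s)) • b ⊗ₜ .single g 1) := by
  classical
  ext s'
  rw [TB_act, lT_flt_tmul, single_apply, if_congr inv_smul_eq_iff rfl rfl]
  by_cases h : g • s' = s
  · subst h
    simp
  · rw [if_neg h, if_neg (Ne.symm h), smul_zero]

theorem TB_act_scalar (b : B) (s : X) : (F.TB fl B).act (b ⊗ₜ 1) s = single s (b ⊗ₜ 1) := by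
  rw [MonoidAlgebra.one_def, TB_act_tmul]
  simp

theorem TB_Δ_ne {s s' : X} (h : (F.TB fl B).Δ s s' ≠ 0) :
    F.ed s ∧ (s' = F.d0 s ∨ s' = F.d1 s) := by
  refine ⟨by_contra fun h0 => h (by rw [TB_Δ_v h0]; rfl), by_contra fun h0 => h ?_⟩
  rw [not_or] at h0
  change F.sg fl s • (single (F.d1 s) (1 : B ⊗[ℤ] MonoidAlgebra ℤ G) s' - single (F.d0 s) 1 s') = 0
  rw [single_eq_of_ne h0.1, single_eq_of_ne h0.2, sub_zero, smul_zero]

theorem TB_isBM : IsBM ((tcat (MonoidAlgebra ℤ G) Unit).bc B) ((bcat F.gpos.T).bc B)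
    (F.TB fl B) := by
  rw [tcat_bc, bcat_bc]
  refine ⟨TB_act_add, TB_act_scalar 1, fun {_ _ _ _ _ a b} ha hb k => ?_, fun ha k s' => ?_,
    fun o => ⟨fun k s' => ?_, fun v => ?_⟩, fun {n _ _ a} ha k => ?_⟩
  · clear ha hb
    induction a using bc_ind with
    | h1 g β =>
      rw [TB_act_tmul, linearCombination_single]
      induction b using bc_ind with
      | h1 g' β' =>
        rw [Algebra.TensorProduct.tmul_mul_tmul, MonoidAlgebra.single_mul_single, one_mul,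
          TB_act_tmul, TB_act_tmul, smul_single, smul_eq_mul, smul_mul_smul_comm, mul_inv_rev,
          mul_smul g'⁻¹, mul_assoc, ← mul_assoc (F.sg fl (g⁻¹ • k)), Int.units_mul_self, one_mul,
          Algebra.TensorProduct.tmul_mul_tmul, MonoidAlgebra.single_mul_single, one_mul]
      | h0 => rw [mul_zero, TB_act_zero, TB_act_zero, smul_zero]
      | h2 x y hx hy => rw [mul_add, TB_act_add, TB_act_add, smul_add, hx, hy]
    | h0 => rw [zero_mul, TB_act_zero, map_zero]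
    | h2 x y hx hy => rw [add_mul, TB_act_add, TB_act_add, map_add, hx, hy]
  · refine mem_bcat.2 ⟨?_, fun h => ?_⟩
    · exact (bcF B _).zsmul_mem (bcF_mono (F.gpos.gfam_le _ _) (lT_flt_mem B _ _ _)) _
    · have h1 := (smul_ne_zero_iff_ne _).1 h
      obtain ⟨g, -, rfl⟩ := lT_flt_ne (mem_bc_sfam_top _) h1
      rw [(mem_bcat.1 ha).2 fun h2 => h1 (by rw [h2, map_zero])]
      change 0 + (F.TB fl B).dg _ - (F.TB fl B).dg s' = 0
      by_cases he : F.ed s'
      · rw [TB_dg_e ((F.ed_smul g s').2 he), TB_dg_e he]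
        rfl
      · rw [TB_dg_v (mt (F.ed_smul g s').1 he), TB_dg_v he]
        rfl
  · change lc (F.TB fl B).Δ (single k 1) s' ∈ _
    rw [linearCombination_single, one_smul]
    by_cases h : (F.TB fl B).Δ k s' = 0
    · exact h ▸ zero_mem _
    obtain ⟨h1, h2⟩ := TB_Δ_ne h
    have h3 : (1 : B ⊗[ℤ] MonoidAlgebra ℤ G) ∈ bcF B (F.gpos.T k s') :=
      tmul_mem_bcF _ (single_mem_sfam (g := 1) (by rw [one_smul]; exact Or.inr h2) 1)
    have h4 : ∀ t, single t (1 : B ⊗[ℤ] MonoidAlgebra ℤ G) s' ∈ bcF B (F.gpos.T k s') := fun t => by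
      classical
      rw [single_apply]
      split_ifs
      exacts [h3, zero_mem _]
    refine mem_bcat.2 ⟨(bcF B _).zsmul_mem (sub_mem (h4 _) (h4 _)) _, fun _ => ?_⟩
    change (F.TB fl B).dg k + 1 - (F.TB fl B).dg s' = 0
    rw [TB_dg_e h1, TB_dg_v (by rcases h2 with rfl | rfl; exacts [F.ed_d0 _, F.ed_d1 _])]
    rfl
  · rw [bcat_D, bcat_D]
    refine LinearMap.congr_fun (f := lc (F.TB fl B).Δ ∘ₗ lc (F.TB fl B).Δ) (g := 0)
      (lhom_ext' fun k => LinearMap.ext_ring ?_) v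
    change lc (F.TB fl B).Δ (lc (F.TB fl B).Δ (single k 1)) = 0
    rw [linearCombination_single, one_smul]
    change lc (F.TB fl B).Δ (F.sg fl k • (single (F.d1 k) 1 - single (F.d0 k) 1)) = 0
    rw [Units.smul_def, map_zsmul, map_sub, linearCombination_single, linearCombination_single,
      TB_Δ_v (F.ed_d0 k), TB_Δ_v (F.ed_d1 k), sub_self, smul_zero]
  · rw [bcat_D]
    change lc (F.TB fl B).Δ _ = (F.TB fl B).act 0 k + _
    rw [TB_act_zero, zero_add]
    by_cases h0 : a = 0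
    · rw [h0, TB_act_zero, map_zero, show (F.TB fl B).act 0 = 0 from funext TB_act_zero]
      simp
    rw [(mem_bcat.1 ha).2 h0, Int.negOnePow_zero, one_smul]
    change _ = lc _ (F.sg fl k • (single (F.d1 k) 1 - single (F.d0 k) 1))
    rw [Units.smul_def, map_zsmul, map_sub, linearCombination_single, linearCombination_single,
      one_smul, one_smul, ← Units.smul_def]
    clear ha h0
    induction a using bc_ind with
    | h1 g β =>
      rw [TB_act_tmul, TB_act_tmul, TB_act_tmul, linearCombination_single, ← F.d0_smul,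
        ← F.d1_smul, sg_v (F.ed_d0 _), sg_v (F.ed_d0 _), sg_v (F.ed_d1 _), sg_v (F.ed_d1 _)]
      change _ • F.sg fl (g⁻¹ • k) • (single (F.d1 (g⁻¹ • k)) 1 - single (F.d0 (g⁻¹ • k)) 1) = _
      rw [smul_assoc, smul_comm _ (F.sg fl (g⁻¹ • k)), smul_smul, mul_assoc, Int.units_mul_self]
      simp [smul_sub]
    | h0 => simp [TB_act_zero]
    | h2 x y hx hy =>
      rw [TB_act_add, TB_act_add, TB_act_add, map_add, hx, hy, ← smul_add, add_sub_add_comm]

variable {V : Raw (B ⊗[ℤ] MonoidAlgebra ℤ G) Unit} {K : V.ι → Set X}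

theorem TB_obj (hV : ((tcat (MonoidAlgebra ℤ G) Unit).bc B).Obj V) :
    ((bcat F.gpos.T).bc B).Obj (V.bm (F.TB fl B)) :=
  (TB_isBM.isFn ((tcat_good _ _).bc B) (F.gpos.T_bas.good.bc B)).obj hV

theorem Hull.closed (hK : F.Hull V K) : (V.bm (F.TB fl B)).Closed fun p => p.2 ∈ K p.1 := by
  classical
  rintro ⟨y, s⟩ ⟨y', s'⟩ hs h
  rw [TB_δ] at h
  by_cases h1 : lT B (flt G s s') (V.δ (single y 1) y') = 0
  · rw [h1, smul_zero, zero_add] at h
    split_ifs at h with h2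
    · subst h2
      rcases (TB_Δ_ne ((smul_ne_zero_iff_ne _).1 h)).2 with rfl | rfl
      exacts [hK.d0 _ _ hs, hK.d1 _ _ hs]
    · exact absurd rfl h
  · obtain ⟨g, hg, rfl⟩ := lT_flt_ne (hK.mem y y') h1
    simpa using hg _ hs

theorem Hull.finite (hK : F.Hull V K) (hf : Finite V.ι) : Finite {p : V.ι × X // p.2 ∈ K p.1} :=
  ((Set.finite_iUnion fun y => (hK.fin y).image (Prod.mk y)).subset fun p hp =>
    Set.mem_iUnion.2 ⟨p.1, p.2, hp, rfl⟩).to_subtype

theorem exists_hull (hf : V.Fin1) : ∃ K, F.Hull V K := by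
  have := hf.1
  obtain ⟨ρ, hρ⟩ := hf.rank
  obtain ⟨N, hN⟩ := (Set.finite_range ρ).bddAbove
  have sup : ∀ a : B ⊗[ℤ] MonoidAlgebra ℤ G, ∃ S : Set G, S.Finite ∧ a ∈ bcF B (sfam (· ∈ S)) :=
    bc_ind (fun g b => ⟨{g}, Set.finite_singleton g,
      tmul_mem_bcF _ (single_mem_sfam (p := (· ∈ ({g} : Set G))) rfl 1)⟩)
      ⟨∅, Set.finite_empty, zero_mem _⟩ fun x y ⟨S, h1, h2⟩ ⟨S', h1', h2'⟩ => ⟨S ∪ S', h1.union h1',
        add_mem (bcF_mono (sfam_mono fun _ => Or.inl) h2) (bcF_mono (sfam_mono fun _ => Or.inr) h2')⟩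
  choose S hS hS' using fun p : V.ι × V.ι => sup (V.δ (single p.1 1) p.2)
  have hl : ∀ A : {A : Set X // A.Finite}, ∃ A' : {A : Set X // A.Finite}, A.1 ⊆ A'.1 ∧
      (∀ g ∈ ⋃ p, S p, ∀ s ∈ A.1, g⁻¹ • s ∈ A'.1) ∧ F.b () ∈ A'.1 ∧
      ∀ s ∈ A'.1, F.d0 s ∈ A'.1 ∧ F.d1 s ∈ A'.1 ∧ ∀ t, F.s0 s t ≠ 0 → t ∈ A'.1 := fun A => by
    obtain ⟨A', h1, h2, h3, h4⟩ := F.hull () (A.1 ∪ Set.image2 (fun g s => g⁻¹ • s) (⋃ p, S p) A.1)
      (A.2.union ((Set.finite_iUnion hS).image2 _ A.2)) fun _ _ => rfl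
    exact ⟨⟨A', h1⟩, fun s hs => h2 (Or.inl hs), fun g hg s hs => h2 (Or.inr ⟨g, hg, s, hs, rfl⟩),
      h3, fun s hs => (h4 s hs).2⟩
  choose c c1 c2 c3 c4 using hl
  have mono : Monotone fun n => (c^[n] ⟨∅, Set.finite_empty⟩).1 :=
    monotone_nat_of_le_succ fun n => by
      simp only [Function.iterate_succ_apply']
      exact c1 _
  refine ⟨fun y => (c (c^[N - ρ y] ⟨∅, Set.finite_empty⟩)).1, fun y => Subtype.prop _, fun y => c3 _,
    fun y s hs => (c4 _ s hs).1, fun y s hs => (c4 _ s hs).2.1, fun y s hs => (c4 _ s hs).2.2,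
    fun y y' => ?_⟩
  by_cases h : V.δ (single y 1) y' = 0
  · exact h ▸ zero_mem _
  refine bcF_mono (sfam_mono fun g hg s hs => ?_) (hS' (y, y'))
  have h1 := hρ y y' h
  have h2 : ρ y ≤ N := hN ⟨y, rfl⟩
  have h3 := c2 _ g (Set.mem_iUnion.2 ⟨_, hg⟩) s hs
  have h4 := mono (show N - ρ y + 1 + 1 ≤ N - ρ y' + 1 by omega)
  simp only [Function.iterate_succ_apply'] at h4
  exact h4 h3

end Forest

/-- TH2: the complement of the finite part -/
def St_TH2 : Prop :=
  ∀ (G X E'' Λ'' : Type) [Group G] [MulAction G X] [Ring E''] (F : Forest G Unit X)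
    (S'' : Sys (MonoidAlgebra ℤ G) E'' Λ'' F.Fl) (Bm : BM E'' F.Fl (MonoidAlgebra ℤ G) X Bool)
    (ent : Bool → Bool → E'' →+ MonoidAlgebra ℤ G), TPk F S'' Bm ent →
    ∀ fl ht, F.Root fl ht → ∀ (B : Type) [CommRing B] (V : Raw (B ⊗[ℤ] MonoidAlgebra ℤ G) Unit)
      (K : V.ι → Set X), ((tcat (MonoidAlgebra ℤ G) Unit).bc B).Obj V → V.Fin1 → F.Hull V K →
      ∃ W : Raw (B ⊗[ℤ] E'') F.Fl,
        ((V.bm (F.TB fl B)).res fun p => ¬ p.2 ∈ K p.1).Rx (W.bm (Bm.bc ent B)) ∧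
        ((S''.cat (gfam G F.Fl)).bc B).Obj W ∧ W.WF ∧ W.Bdd

/-- TH3: the finite part collapses -/
def St_TH3 : Prop :=
  ∀ (G X : Type) [Group G] [MulAction G X] (F : Forest G Unit X),
    ∀ fl ht, F.Root fl ht → ∀ (B : Type) [CommRing B] (V : Raw (B ⊗[ℤ] MonoidAlgebra ℤ G) Unit)
      (K : V.ι → Set X), ((tcat (MonoidAlgebra ℤ G) Unit).bc B).Obj V → V.Fin1 → F.Hull V K →
      Simp ((tcat (MonoidAlgebra ℤ G) Unit).bc B)
        (((V.bm (F.TB fl B)).res fun p => p.2 ∈ K p.1).relab fun _ => ()) V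

theorem st_th (hFAR : St_FAR) (h2 : St_TH2) (h3 : St_TH3) : St_TH := by
  intro G X E'' Λ'' _ _ _ F S'' Bm ent hP B _ V hV hf
  obtain ⟨fl, ht, hR⟩ := hFAR G Unit X F
  obtain ⟨K, hK⟩ := Forest.exists_hull (F := F) hf
  obtain ⟨W, w1, w2, w3, w4⟩ := h2 G X E'' Λ'' F S'' Bm ent hP fl ht hR B V K hV hf hK
  have gT := F.gpos.T_bas.good.bc B
  have hX := Forest.TB_obj (F := F) (fl := fl) hV
  refine ⟨V.bm (F.TB fl B), fun p => p.2 ∈ K p.1, W, hX, hK.closed, ?_, w1, w2, w3, w4, ?_,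
    h3 G X F fl ht hR B V K hV hf hK⟩
  · refine gT.fin1_of_zero (fun k o o' a hk ha => ?_) (gT.ses_res hX hK.closed).1 (hK.finite hf.1)
    rw [bcat_bc] at ha
    exact by_contra fun h0 => hk ((mem_bcat.1 ha).2 h0)
  · rintro _ ⟨b, rfl⟩ h
    exact (Forest.TB_isBM.isFn ((tcat_good _ _).bc B) gT).nul hV
      (bmL_scal Forest.TB_act_zero (Forest.TB_act_scalar b)) h

end Pool.Agent.Lib.NIL
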