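import Pool.Agent.Lib.NIL.A6

/-! Functors given by label dependent maps of entries, with a shift of degrees. -/

noncomputable section

namespace Pool.Agent.Lib.NIL

open Finsupp TensorProduct

variable {E E' L : Type} [Ring E] [Ring E'] {C : Cat E L} {C' : Cat E' L} {r : L → ℤ}
  {φ : L → L → E →+ E'} {ψ : L → L → E' →+ E} {V W : Raw E L}

/-- a homomorphism of families that shifts the objects -/
structure IsHomL (C : Cat E L) (C' : Cat E' L) (r : L → ℤ) (φ : L → L → E →+ E') : Prop where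
  mem : ∀ {k o o' a}, a ∈ C.H k o o' → φ o o' a ∈ C'.H (k + r o - r o') o o'
  one : ∀ o, φ o o 1 = 1
  mul : ∀ {k k' o o' o'' a b}, a ∈ C.H k o o' → b ∈ C.H k' o' o'' →
    φ o o'' (a * b) = φ o o' a * φ o' o'' b
  d : ∀ {k o o' a}, a ∈ C.H k o o' → C'.d (φ o o' a) = (r o').negOnePow • φ o o' (C.d a)

def mapV {ι : Type} (φ : L → L → E →+ E') (o : L) (l : ι → L) : (ι →₀ E) →+ (ι →₀ E') :=
  liftAddHom fun i => (singleAddHom i).comp (φ o (l i))

theorem mapV_single {ι : Type} (o : L) (l : ι → L) (i : ι) (a : E) :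
    mapV φ o l (single i a) = single i (φ o (l i) a) := liftAddHom_apply_single _ _ _

theorem mapV_apply {ι : Type} (o : L) (l : ι → L) (v : ι →₀ E) (i : ι) :
    mapV φ o l v i = φ o (l i) (v i) := by
  induction v using Finsupp.induction_linear with
  | zero => simp
  | add a b ha hb => simp only [map_add, Finsupp.add_apply, ha, hb]
  | single j a =>
    rw [mapV_single]
    by_cases e : i = j
    · subst e; rw [single_eq_same, single_eq_same]
    · rw [single_eq_of_ne e, single_eq_of_ne e, map_zero]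

def mapLL {ι κ : Type} (φ : L → L → E →+ E') (l : ι → L) (l' : κ → L)
    (f : (ι →₀ E) →ₗ[E] (κ →₀ E)) : (ι →₀ E') →ₗ[E'] (κ →₀ E') :=
  lc fun i => mapV φ (l i) l' (f (single i 1))

theorem mapLL_single {ι κ : Type} (l : ι → L) (l' : κ → L) (f : (ι →₀ E) →ₗ[E] (κ →₀ E)) (i : ι) :
    mapLL φ l l' f (single i 1) = mapV φ (l i) l' (f (single i 1)) := lc_single _ _

@[reducible] def Raw.mapR (V : Raw E L) (r : L → ℤ) (φ : L → L → E →+ E') : Raw E' L :=
  ⟨V.ι, fun i => V.deg i + r (V.lab i), V.lab, mapLL φ V.lab V.lab V.δ⟩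

theorem Raw.Fin1.mapR (h : V.Fin1) : (V.mapR r φ).Fin1 :=
  ⟨h.1, Subrelation.wf (r := fun i' i : V.ι => V.δ (single i 1) i' ≠ 0) (fun {i' i} h1 h0 => h1 (by
    rw [mapLL_single, mapV_apply, h0, map_zero])) h.2⟩

namespace IsHomL

variable (h : IsHomL C C' r φ)
include h

theorem hom {k : ℤ} {f : Lin V W} (hf : C.Hom k V W f) :
    C'.Hom k (V.mapR r φ) (W.mapR r φ) (mapLL φ V.lab W.lab f) := fun i j => by
  rw [mapLL_single, mapV_apply, show V.deg i + r (V.lab i) + k - (W.deg j + r (W.lab j)) =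
    V.deg i + k - W.deg j + r (V.lab i) - r (W.lab j) by ring]
  exact h.mem (hf i j)

theorem mapV_map {k m : ℤ} {o : L} {f : Lin V W} (hf : C.Hom k V W f) {v : V.ι →₀ E}
    (hv : v ∈ C.M V m o) : mapV φ o W.lab (f v) = mapLL φ V.lab W.lab f (mapV φ o V.lab v) := by
  refine Cat.M_ind (P := fun v => mapV φ o W.lab (f v) =
    mapLL φ V.lab W.lab f (mapV φ o V.lab v)) hv (by simp only [map_zero])
    (fun a b ha hb => by simp only [map_add, ha, hb]) fun i a ha => ?_
  ext j
  rw [mapV_single, ← smul_single_one, ← smul_single_one i (φ _ _ a), f.map_smul,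
    LinearMap.map_smul, mapLL_single, mapV_apply, Finsupp.smul_apply, Finsupp.smul_apply, mapV_apply]
  exact h.mul ha (hf i j)

theorem mapV_D {m : ℤ} {o : L} (hV : C.Hom 1 V V V.δ) {v : V.ι →₀ E} (hv : v ∈ C.M V m o) :
    mapV φ o V.lab (C.D V v) = C'.D (V.mapR r φ) (mapV φ o V.lab v) := by
  rw [Cat.D_apply, Cat.D_apply, map_add, h.mapV_map hV hv]
  congr 1
  ext j
  rw [mapV_apply, Raw.tw_apply]
  refine Eq.trans ?_ (Raw.tw_apply (V.mapR r φ) C'.d _ j).symm
  rw [mapV_apply, h.d (hv j), smul_smul, Int.negOnePow_add, mul_assoc, Int.units_mul_self, mul_one,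
    Units.smul_def, Units.smul_def, map_zsmul]

theorem isFn (hC : C.Good) (hC' : C'.Good) :
    IsFn C C' (fun V => V.mapR r φ) fun V W f => mapLL φ V.lab W.lab f where
  obj {V} hV := hC'.obj_of_basis (h.hom hV.1) fun i => by
    have e := h.mapV_D hV.1 (hV.1 i)
    rw [← mapLL_single, ← hC.D_single, hV.2, map_zero] at e
    exact e.symm
  hom hf := h.hom hf
  id V := lhom_ext' fun i => LinearMap.ext_ring (by
    change mapLL φ V.lab V.lab LinearMap.id (single i 1) = single i 1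
    rw [mapLL_single, LinearMap.id_apply, mapV_single, h.one])
  add _ _ f g := lin_ext fun i k => by
    simp only [LinearMap.add_apply, mapLL_single, map_add]
  comp {k k' U V W f g} hf hg := lin_ext fun i j => by
    rw [mapLL_single, LinearMap.comp_apply, LinearMap.comp_apply, mapLL_single,
      h.mapV_map hg (hf i)]
  br {k V W f g} hV hW hf e := hC'.br_of_basis (h.hom hf) fun i => by
    have e1 := h.mapV_D hW.1 (hf i)
    have e2 := h.mapV_map hf (hV.1 i)
    rw [← mapLL_single] at e1 e2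
    refine e1.symm.trans ?_
    rw [e, hC.D_single, map_add, ← mapLL_single, ← e2, Units.smul_def, Units.smul_def, map_zsmul]

theorem bc (B : Type) [CommRing B] : IsHomL (C.bc B) (C'.bc B) r fun o o' => lT B (φ o o') where
  mem := lT_mem_bcF fun _ => h.mem
  one o := congrArg ((1 : B) ⊗ₜ[ℤ] ·) (h.one o)
  mul {_ _ o o' o'' _ y} hx hy :=
    bcF_induction (p := fun x => lT B (φ o o'') (x * y) = lT B (φ o o') x * lT B (φ o' o'') y) hx
      (fun b e he => bcF_induction
        (p := fun y => lT B (φ o o'') (_ * y) = lT B (φ o o') _ * lT B (φ o' o'') y) hy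
        (fun b' e' he' => by
          simp only [Algebra.TensorProduct.tmul_mul_tmul, lT_tmul, h.mul he he'])
        (by rw [mul_zero, map_zero, map_zero, mul_zero])
        fun _ _ _ _ h1 h2 => by rw [mul_add, map_add, map_add, mul_add, h1, h2])
      (by rw [zero_mul, map_zero, map_zero, zero_mul])
      fun _ _ _ _ h1 h2 => by rw [add_mul, map_add, map_add, add_mul, h1, h2]
  d {_ o o' _} ha := bcF_induction (p := fun x => lT B C'.d (lT B (φ o o') x) =
      (r o').negOnePow • lT B (φ o o') (lT B C.d x)) ha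
    (fun b e he => by simp only [lT_tmul, h.d he, Units.smul_def, tmul_smul])
    (by simp only [map_zero, smul_zero])
    fun _ _ _ _ h1 h2 => by simp only [map_add, smul_add, h1, h2]

theorem inv (hC : C.Good) (h1 : ∀ k o o', ∀ a ∈ C.H k o o', ψ o o' (φ o o' a) = a)
    (h2 : ∀ k o o', ∀ e ∈ C'.H k o o', ∃ a ∈ C.H (k + -r o - -r o') o o', φ o o' a = e) :
    IsHomL C' C (fun o => -r o) ψ where
  mem he := by
    obtain ⟨a, ha, rfl⟩ := h2 _ _ _ _ he
    rwa [h1 _ _ _ _ ha]
  one o := by rw [← h.one o, h1 _ _ _ _ (hC.one_mem o)]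
  mul he he' := by
    obtain ⟨a, ha, rfl⟩ := h2 _ _ _ _ he
    obtain ⟨b, hb, rfl⟩ := h2 _ _ _ _ he'
    rw [← h.mul ha hb, h1 _ _ _ _ ha, h1 _ _ _ _ hb, h1 _ _ _ _ (hC.mul_mem ha hb)]
  d he := by
    obtain ⟨a, ha, rfl⟩ := h2 _ _ _ _ he
    rw [h.d ha, h1 _ _ _ _ ha, Units.smul_def _ (φ _ _ _), map_zsmul, h1 _ _ _ _ (hC.d_mem ha),
      ← Units.smul_def, smul_smul, Int.negOnePow_neg, Int.units_mul_self, one_smul]

theorem P_of (hC : C.Good) (hC' : C'.Good) (h' : IsHomL C' C (fun o => -r o) ψ)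
    (h1 : ∀ k o o', ∀ a ∈ C.H k o o', ψ o o' (φ o o' a) = a) (hP : C'.P) : C.P := by
  intro M hM hf hp
  have f := h.isFn hC hC'
  have f' := h'.isFn hC' hC
  have := f'.inO (fun _ hW hf => hC.inO_of_fin1 (f'.obj hW) hf.mapR) hC (f.obj hM)
    (hP _ (f.obj hM) hf (f.perf (fun _ _ hf => hf.mapR) hM hp))
  have e : (M.mapR r φ).mapR (fun o => -r o) ψ = M :=
    congrArg₂ (fun d δ => Raw.mk M.ι d M.lab δ) (funext fun i => add_neg_cancel_right _ _)
      (lin_ext fun i j => by
        rw [mapLL_single, mapV_apply, mapLL_single, mapV_apply, h1 _ _ _ _ (hM.1 i j)])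
  rwa [e] at this

theorem P_bc (hC : C.Good) (hC' : C'.Good)
    (h1 : ∀ k o o', ∀ a ∈ C.H k o o', ψ o o' (φ o o' a) = a)
    (h2 : ∀ k o o', ∀ e ∈ C'.H k o o', ∃ a ∈ C.H (k + -r o - -r o') o o', φ o o' a = e)
    (B : Type) [CommRing B] (hP : (C'.bc B).P) : (C.bc B).P :=
  (h.bc B).P_of (hC.bc B) (hC'.bc B) ((h.inv hC h1 h2).bc B) (fun k o o' _ ha =>
    bcF_induction (p := fun x => lT B (ψ o o') (lT B (φ o o') x) = x) ha
      (fun b e he => by rw [lT_tmul, lT_tmul, h1 _ _ _ _ he]) (by rw [map_zero, map_zero])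
      fun _ _ _ _ a1 a2 => by rw [map_add, map_add, a1, a2]) hP

end IsHomL

end Pool.Agent.Lib.NIL
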