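import Pool.Agent.Lib.NIL.CellSys

/-! The ring spanned by a group ring and matrix units. -/

noncomputable section

namespace Pool.Agent.Lib.NIL

open Finsupp

namespace TP

variable {G E : Type} [Group G] [Ring E] {X : Type} [MulAction G X]

/-- a matrix unit -/
def un (s s' : X) : E →+ Module.End ℤ (X →₀ E) where
  toFun a := ((singleAddHom s).comp ((AddMonoidHom.mulLeft a).comp (applyAddHom s'))).toIntLinearMap
  map_zero' := LinearMap.ext fun v => by
    change single s (0 * v s') = 0
    rw [zero_mul, single_zero]
  map_add' a b := LinearMap.ext fun v => by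
    change single s ((a + b) * v s') = single s (a * v s') + single s (b * v s')
    rw [add_mul, single_add]

theorem un_apply (s s' : X) (a : E) (v : X →₀ E) : un s s' a v = single s (a * v s') := rfl

variable (i : MonoidAlgebra ℤ G →+* E)

def pm0 (g : G) : Module.End ℤ (X →₀ E) :=
  (liftAddHom fun s => (singleAddHom (g • s)).comp
    (AddMonoidHom.mulLeft (i (.single g 1)))).toIntLinearMap

theorem pm0_single (g : G) (s : X) (e : E) :
    pm0 i g (single s e) = single (g • s) (i (.single g 1) * e) := liftAddHom_apply_single _ _ _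

variable (X) in
def pm : G →* Module.End ℤ (X →₀ E) where
  toFun := pm0 i
  map_one' := Finsupp.lhom_ext fun s e => by
    refine (pm0_single i 1 s e).trans ?_
    rw [one_smul, ← MonoidAlgebra.one_def, map_one, one_mul]; rfl
  map_mul' g g' := Finsupp.lhom_ext fun s e => by
    change pm0 i (g * g') (single s e) = pm0 i g (pm0 i g' (single s e))
    rw [pm0_single, pm0_single, pm0_single, mul_smul, ← mul_assoc, ← map_mul,
      MonoidAlgebra.single_mul_single, one_mul]

variable (X) in
/-- the permutation matrices -/
def io : MonoidAlgebra ℤ G →+* Module.End ℤ (X →₀ E) :=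
  (MonoidAlgebra.lift ℤ _ G (pm X i)).toRingHom

theorem io_single (g : G) (n : ℤ) (s : X) (e : E) :
    io X i (.single g n) (single s e) = single (g • s) (i (.single g n) * e) := by
  have : io X i (.single g n) = n • pm0 i g := MonoidAlgebra.lift_single _ _ _
  rw [this]
  change n • pm0 i g (single s e) = _
  rw [pm0_single, smul_single, ← smul_mul_assoc, ← map_zsmul, MonoidAlgebra.smul_single,
    smul_eq_mul, mul_one]

theorem un_mul (s s' t' : X) (a b : E) : un s s' a * un s' t' b = un s t' (a * b) :=
  LinearMap.ext fun v => by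
    change un s s' a (un s' t' b v) = un s t' (a * b) v
    rw [un_apply, un_apply, un_apply, single_eq_same, mul_assoc]

theorem un_mul_ne {s s' t t' : X} (h : s' ≠ t) (a b : E) : un s s' a * un t t' b = 0 :=
  LinearMap.ext fun v => by
    change un s s' a (un t t' b v) = 0
    rw [un_apply, un_apply, single_eq_of_ne h, mul_zero, single_zero]

theorem io_un (g : G) (n : ℤ) (s s' : X) (a : E) :
    io X i (.single g n) * un s s' a = un (g • s) s' (i (.single g n) * a) :=
  LinearMap.ext fun v => by
    change io X i (.single g n) (un s s' a v) = un (g • s) s' (i (.single g n) * a) v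
    rw [un_apply, un_apply, io_single, mul_assoc]

theorem un_io (g : G) (n : ℤ) (s s' : X) (a : E) :
    un s (g • s') a * io X i (.single g n) = un s s' (a * i (.single g n)) :=
  Finsupp.lhom_ext fun t e => by
    change un s (g • s') a (io X i (.single g n) (single t e)) =
      un s s' (a * i (.single g n)) (single t e)
    rw [io_single, un_apply, un_apply]
    by_cases h : s' = t
    · subst h
      rw [single_eq_same, single_eq_same, mul_assoc]
    · rw [single_eq_of_ne h, single_eq_of_ne fun h' => h (MulAction.injective g h'), mul_zero,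
        mul_zero]

/-- finite matrices -/
def fin : (X × X →₀ E) →+ Module.End ℤ (X →₀ E) := liftAddHom fun p => un p.1 p.2

theorem fin_single (p : X × X) (a : E) : fin (single p a) = un p.1 p.2 a :=
  liftAddHom_apply_single _ _ _

theorem fin_apply (m : X × X →₀ E) (s s' : X) : fin m (single s' 1) s = m (s, s') := by
  induction m using Finsupp.induction_linear with
  | zero => rw [map_zero]; rfl
  | add a b ha hb =>
    rw [map_add, Finsupp.add_apply, ← ha, ← hb]; rfl
  | single p a =>
    obtain ⟨t, t'⟩ := p
    rw [fin_single, un_apply]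
    by_cases h : s = t
    · subst h
      by_cases h' : s' = t'
      · subst h'
        rw [single_eq_same, single_eq_same, single_eq_same, mul_one]
      · rw [single_eq_same, single_eq_of_ne (Ne.symm h'), mul_zero,
          single_eq_of_ne fun e => h' (congrArg Prod.snd e)]
    · rw [single_eq_of_ne h, single_eq_of_ne fun e => h (congrArg Prod.fst e)]

theorem un_mem (s s' : X) (a : E) : un s s' a ∈ (fin (X := X) (E := E)).range :=
  ⟨single (s, s') a, fin_single _ _⟩

theorem range_ind {p : Module.End ℤ (X →₀ E) → Prop} {f : Module.End ℤ (X →₀ E)}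
    (hf : f ∈ (fin (X := X) (E := E)).range) (h0 : p 0) (ha : ∀ x y, p x → p y → p (x + y))
    (h1 : ∀ s s' a, p (un s s' a)) : p f := by
  obtain ⟨m, rfl⟩ := hf
  induction m using Finsupp.induction_linear with
  | zero => rwa [map_zero]
  | add a b h h' => rw [map_add]; exact ha _ _ h h'
  | single q a => rw [fin_single]; exact h1 _ _ _

theorem fin_mul {f f' : Module.End ℤ (X →₀ E)} (hf : f ∈ (fin (X := X) (E := E)).range)
    (hf' : f' ∈ (fin (X := X) (E := E)).range) : f * f' ∈ (fin (X := X) (E := E)).range := by
  refine range_ind (p := fun f => f * f' ∈ fin.range) hf (by rw [zero_mul]; exact zero_mem _)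
    (fun x y hx hy => by rw [add_mul]; exact add_mem hx hy) fun s s' a => ?_
  refine range_ind (p := fun f' => un s s' a * f' ∈ fin.range) hf'
    (by rw [mul_zero]; exact zero_mem _)
    (fun x y hx hy => by rw [mul_add]; exact add_mem hx hy) fun t t' b => ?_
  by_cases h : s' = t
  · subst h
    rw [un_mul]; exact un_mem _ _ _
  · rw [un_mul_ne h]; exact zero_mem _

theorem io_mul (r : MonoidAlgebra ℤ G) {f : Module.End ℤ (X →₀ E)}
    (hf : f ∈ (fin (X := X) (E := E)).range) :
    io X i r * f ∈ (fin (X := X) (E := E)).range ∧ f * io X i r ∈ (fin (X := X) (E := E)).range := by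
  induction r using MonoidAlgebra.induction_linear with
  | zero => rw [map_zero, zero_mul, mul_zero]; exact ⟨zero_mem _, zero_mem _⟩
  | add a b ha hb => rw [map_add, add_mul, mul_add]; exact ⟨add_mem ha.1 hb.1, add_mem ha.2 hb.2⟩
  | single g n =>
    refine range_ind (p := fun f => io X i (.single g n) * f ∈ fin.range ∧
      f * io X i (.single g n) ∈ fin.range) hf
      (by rw [zero_mul, mul_zero]; exact ⟨zero_mem _, zero_mem _⟩) (fun x y hx hy => by
        rw [add_mul, mul_add]; exact ⟨add_mem hx.1 hy.1, add_mem hx.2 hy.2⟩) fun s s' a => ?_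
    rw [io_un, ← smul_inv_smul g s', un_io]
    exact ⟨un_mem _ _ _, un_mem _ _ _⟩

variable (X) in
/-- the ambient ring -/
def Amb : Subring (MonoidAlgebra ℤ G × Module.End ℤ (X →₀ E)) where
  carrier := {x | x.2 - io X i x.1 ∈ (fin (X := X) (E := E)).range}
  mul_mem' {x y} hx hy := by
    change x.2 * y.2 - io X i (x.1 * y.1) ∈ fin.range
    rw [map_mul, show x.2 * y.2 - io X i x.1 * io X i y.1 = (x.2 - io X i x.1) *
      (y.2 - io X i y.1) + (x.2 - io X i x.1) * io X i y.1 + io X i x.1 * (y.2 - io X i y.1) by
        noncomm_ring]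
    exact add_mem (add_mem (fin_mul hx hy) (io_mul i _ hx).2) (io_mul i _ hy).1
  one_mem' := by
    change 1 - io X i 1 ∈ fin.range
    rw [map_one, sub_self]; exact zero_mem _
  add_mem' {x y} hx hy := by
    change x.2 + y.2 - io X i (x.1 + y.1) ∈ fin.range
    rw [map_add, add_sub_add_comm]; exact add_mem hx hy
  zero_mem' := by
    change 0 - io X i 0 ∈ fin.range
    rw [map_zero, sub_self]; exact zero_mem _
  neg_mem' {x} hx := by
    change -x.2 - io X i (-x.1) ∈ fin.range
    rw [map_neg, neg_sub_neg, ← neg_sub]; exact neg_mem hx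

variable (X) in
def i2 : MonoidAlgebra ℤ G →+* Amb X i :=
  ((RingHom.id _).prod (io X i)).codRestrict _ fun r => by
    change io X i r - io X i r ∈ fin.range
    rw [sub_self]; exact zero_mem _

def U (s s' : X) : E →+ Amb X i :=
  ((AddMonoidHom.inr _ _).comp (un s s')).codRestrict (Amb X i) fun a => by
    change un s s' a - io X i 0 ∈ fin.range
    rw [map_zero, sub_zero]; exact un_mem _ _ _

variable {i}

theorem U_mul (s s' t' : X) (a b : E) : U i s s' a * U i s' t' b = U i s t' (a * b) :=
  Subtype.ext (Prod.ext (mul_zero _) (un_mul _ _ _ _ _))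

theorem U_mul_ne {s s' t t' : X} (h : s' ≠ t) (a b : E) : U i s s' a * U i t t' b = 0 :=
  Subtype.ext (Prod.ext (mul_zero _) (un_mul_ne h _ _))

theorem i2_U (g : G) (n : ℤ) (s s' : X) (a : E) :
    i2 X i (.single g n) * U i s s' a = U i (g • s) s' (i (.single g n) * a) :=
  Subtype.ext (Prod.ext (mul_zero _) (io_un i _ _ _ _ _))

theorem U_i2 (g : G) (n : ℤ) (s s' : X) (a : E) :
    U i s (g • s') a * i2 X i (.single g n) = U i s s' (a * i (.single g n)) :=
  Subtype.ext (Prod.ext (zero_mul _) (un_io i _ _ _ _ _))

theorem i2_U' {r : MonoidAlgebra ℤ G} {s s' : X} (hr : r ∈ gfam G X s s') (t : X) (a : E) :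
    i2 X i r * U i s' t a = U i s t (i r * a) :=
  sfam_induction (P := fun r => i2 X i r * U i s' t a = U i s t (i r * a)) hr
    (fun g n hg => by rw [i2_U, hg]) (by simp only [map_zero, zero_mul])
    fun x y _ _ hx hy => by simp only [map_add, add_mul, hx, hy]

theorem U_i2' {r : MonoidAlgebra ℤ G} {s s' : X} (hr : r ∈ gfam G X s s') (t : X) (a : E) :
    U i t s a * i2 X i r = U i t s' (a * i r) :=
  sfam_induction (P := fun r => U i t s a * i2 X i r = U i t s' (a * i r)) hr
    (fun g n hg => by rw [← U_i2, hg]) (by simp only [map_zero, mul_zero])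
    fun x y _ _ hx hy => by simp only [map_add, mul_add, hx, hy]

variable (i) in
def asm : MonoidAlgebra ℤ G × (X × X →₀ E) →+ Amb X i :=
  (i2 X i).toAddMonoidHom.coprod (liftAddHom fun p => U i p.1 p.2)

theorem asm_val (r : MonoidAlgebra ℤ G) (m : X × X →₀ E) :
    (asm i (r, m)).1 = (r, io X i r + fin m) := by
  have : ∀ m : X × X →₀ E, (liftAddHom (fun p : X × X => U i p.1 p.2) m).1 = (0, fin m) := by
    intro m
    induction m using Finsupp.induction_linear with
    | zero => rw [map_zero, map_zero]; rfl
    | add a b ha hb => rw [map_add, map_add, Subring.coe_add, ha, hb, Prod.mk_add_mk, add_zero]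
    | single p a => rw [liftAddHom_apply_single, fin_single]; rfl
  change (r, io X i r) + (liftAddHom (fun p : X × X => U i p.1 p.2) m).1 = _
  rw [this, Prod.mk_add_mk, add_zero]

variable (X i) in
theorem asm_bij : Function.Bijective (asm (X := X) i) := by
  refine ⟨(injective_iff_map_eq_zero _).2 fun ⟨r, m⟩ h => ?_, fun ⟨x, m, hm⟩ => ⟨(x.1, m), ?_⟩⟩
  · have := (asm_val r m).symm.trans (congrArg Subtype.val h)
    obtain rfl : r = 0 := congrArg Prod.fst this
    have h2 : io X i 0 + fin m = 0 := congrArg Prod.snd this
    rw [map_zero, zero_add] at h2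
    refine Prod.ext rfl (Finsupp.ext fun ⟨s, s'⟩ => ?_)
    rw [← fin_apply, h2]; rfl
  · exact Subtype.ext (by rw [asm_val, hm, add_sub_cancel])

theorem amb_ind {p : Amb X i → Prop} (e : Amb X i) (h0 : p 0) (ha : ∀ x y, p x → p y → p (x + y))
    (h1 : ∀ g n, p (i2 X i (.single g n))) (h2 : ∀ s s' a, p (U i s s' a)) : p e := by
  obtain ⟨⟨r, m⟩, rfl⟩ := (asm_bij X i).2 e
  refine ha _ _ ?_ ?_
  · change p (i2 X i r)
    induction r using MonoidAlgebra.induction_linear with
    | zero => rwa [map_zero]
    | add a b h h' => rw [map_add]; exact ha _ _ h h'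
    | single g n => exact h1 g n
  · change p (liftAddHom (fun p : X × X => U i p.1 p.2) m)
    induction m using Finsupp.induction_linear with
    | zero => rwa [map_zero]
    | add a b h h' => rw [map_add]; exact ha _ _ h h'
    | single q a => rw [liftAddHom_apply_single]; exact h2 _ _ _

variable {N : Type} [AddCommGroup N]

variable (i) in
/-- additive maps out of the ambient ring -/
def lift2 (f : MonoidAlgebra ℤ G →+ N) (g : X → X → E →+ N) : Amb X i →+ N :=
  (f.coprod (liftAddHom fun p : X × X => g p.1 p.2)).comp
    (AddEquiv.ofBijective _ (asm_bij X i)).symm.toAddMonoidHom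

theorem lift2_asm (f : MonoidAlgebra ℤ G →+ N) (g : X → X → E →+ N) (r : MonoidAlgebra ℤ G)
    (m : X × X →₀ E) : lift2 i f g (asm i (r, m)) =
      f r + liftAddHom (fun p : X × X => g p.1 p.2) m :=
  congrArg (f.coprod (liftAddHom fun p : X × X => g p.1 p.2))
    ((AddEquiv.ofBijective _ (asm_bij X i)).symm_apply_apply (r, m))

theorem lift2_i2 (f : MonoidAlgebra ℤ G →+ N) (g : X → X → E →+ N) (r : MonoidAlgebra ℤ G) :
    lift2 i f g (i2 X i r) = f r := by
  have := lift2_asm (i := i) f g r 0
  rwa [map_zero, add_zero, asm, AddMonoidHom.coprod_apply, map_zero, add_zero] at this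

theorem lift2_U (f : MonoidAlgebra ℤ G →+ N) (g : X → X → E →+ N) (s s' : X) (a : E) :
    lift2 i f g (U i s s' a) = g s s' a := by
  have := lift2_asm (i := i) f g 0 (single (s, s') a)
  rwa [map_zero, zero_add, asm, AddMonoidHom.coprod_apply, map_zero, zero_add,
    liftAddHom_apply_single, liftAddHom_apply_single] at this

variable (i) in
/-- a matrix entry -/
def ev (s s' : X) : Amb X i →+ E where
  toFun e := e.1.2 (single s' 1) s
  map_zero' := rfl
  map_add' _ _ := rfl

theorem ev_U (s s' : X) (a : E) : ev i s s' (U i s s' a) = a := by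
  change un s s' a (single s' 1) s = a
  rw [un_apply, single_eq_same, single_eq_same, mul_one]

theorem ev_i2 {r : MonoidAlgebra ℤ G} {s s' : X} (hr : r ∈ gfam G X s s') :
    ev i s s' (i2 X i r) = i r :=
  sfam_induction (P := fun r => ev i s s' (i2 X i r) = i r) hr
    (fun g n hg => by
      change io X i (.single g n) (single s' 1) s = _
      rw [io_single, hg, single_eq_same, mul_one]) (by simp only [map_zero])
    fun x y _ _ hx hy => by simp only [map_add, hx, hy]

end TP

end Pool.Agent.Lib.NIL
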