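import Pool.Agent.Lib.NIL.B_UREF
import Pool.Agent.Lib.NIL.TPa
import Pool.Agent.Lib.NIL.TPb
import Pool.Agent.Lib.NIL.TH0

/-! The refined family is, after a shift of degrees, the family of a system over the finer labels. -/

set_option linter.unusedSectionVars false

noncomputable section

namespace Pool.Agent.Lib.NIL

open Finsupp hiding some

namespace TP

variable {G O X E Λ : Type} [Group G] [MulAction G O] [MulAction G X] [Ring E]
  (P : GPos G O X) (S : Sys (MonoidAlgebra ℤ G) E Λ O) {j : ℤ}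

/-- the part that lowers the rank -/
def lt (s s' : X) : AddSubgroup (MonoidAlgebra ℤ G) :=
  sfam fun g => P.le (g • s') s ∧ P.rk s' < P.rk s

theorem rk_le {s s' : X} (h : P.le s s') : P.rk s ≤ P.rk s' :=
  (P.rk_lt _ _ h).elim (fun e => e ▸ le_rfl) le_of_lt

variable {P}

theorem lt_le (s s' : X) : lt P s s' ≤ P.T s s' := sfam_mono fun _ h => h.1

theorem lt_mul {s s' s'' : X} {a b : MonoidAlgebra ℤ G} (ha : a ∈ lt P s s') (hb : b ∈ P.T s' s'') :
    a * b ∈ lt P s s'' :=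
  sfam_mul (fun g g' h h' => ⟨mul_smul g g' s'' ▸ P.le_trans _ _ _ (P.le_smul g _ _ h') h.1,
    lt_of_le_of_lt (P.rk_smul g' s'' ▸ rk_le P h') h.2⟩) ha hb

theorem mul_lt {s s' s'' : X} {a b : MonoidAlgebra ℤ G} (ha : a ∈ P.T s s') (hb : b ∈ lt P s' s'') :
    a * b ∈ lt P s s'' :=
  sfam_mul (fun g g' h h' => ⟨mul_smul g g' s'' ▸ P.le_trans _ _ _ (P.le_smul g _ _ h'.1) h,
    lt_of_lt_of_le h'.2 (P.rk_smul g s' ▸ rk_le P h)⟩) ha hb

theorem flt_eq {s s' : X} {a : MonoidAlgebra ℤ G} (ha : a ∈ gfam G X s s') : flt G s s' a = a := by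
  classical
  exact sfam_induction (P := fun a => flt G s s' a = a) ha
    (fun g n hg => by rw [flt_single, if_pos hg]) (map_zero _)
    fun x y _ _ hx hy => by rw [map_add, hx, hy]

theorem flt_lt {s s' : X} {a : MonoidAlgebra ℤ G} (ha : a ∈ lt P s s') : flt G s s' a = 0 := by
  classical
  exact sfam_induction (P := fun a => flt G s s' a = 0) ha
    (fun g n hg => by rw [flt_single, if_neg fun e => hg.2.ne (by rw [← e, P.rk_smul])])
    (map_zero _) fun x y _ _ hx hy => by rw [map_add, hx, hy, add_zero]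

theorem sub_flt {s s' : X} {a : MonoidAlgebra ℤ G} (ha : a ∈ P.T s s') :
    a - flt G s s' a ∈ lt P s s' := by
  classical
  refine sfam_induction (P := fun a => a - flt G s s' a ∈ lt P s s') ha (fun g n hg => ?_)
    (by rw [map_zero, sub_self]; exact zero_mem _)
    fun x y _ _ hx hy => by rw [map_add, add_sub_add_comm]; exact add_mem hx hy
  rw [flt_single]
  split_ifs with e
  · rw [sub_self]; exact zero_mem _
  · rw [sub_zero]
    exact single_mem_sfam (p := fun g => P.le (g • s') s ∧ P.rk s' < P.rk s)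
      ⟨hg, P.rk_smul g s' ▸ (P.rk_lt _ _ hg).resolve_left e⟩ n

theorem rk_eq {s s' : X} {a : MonoidAlgebra ℤ G} (ha : a ∈ gfam G X s s') (h : a ≠ 0) :
    P.rk s = P.rk s' := by
  by_contra h0
  exact h (MonoidAlgebra.ext (Finsupp.ext fun g => of_not_not fun h1 =>
    h0 (by rw [← ha g h1, P.rk_smul])))

theorem gfam_le' (s s' : X) : gfam G X s s' ≤ gfam G O (P.π s) (P.π s') :=
  (P.gfam_le s s').trans (P.T_le s s')

/-- spreading a coefficient over the letters -/
def sp (s : X) (l : Λ) (s' : X) :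
    MonoidAlgebra ℤ G →+ (Option (X × Λ × X) →₀ MonoidAlgebra ℤ G) :=
  (liftAddHom fun g => (singleAddHom (some (g⁻¹ • s, l, s'))).comp
    (MonoidAlgebra.singleAddHom g)).comp MonoidAlgebra.coeffAddEquiv.toAddMonoidHom

theorem sp_single (s : X) (l : Λ) (s' : X) (g : G) (n : ℤ) :
    sp s l s' (.single g n) = single (some (g⁻¹ • s, l, s')) (.single g n) :=
  liftAddHom_apply_single _ _ _

variable (X) in
def cf : Amb X S.i →+ (Option (X × Λ × X) →₀ MonoidAlgebra ℤ G) :=
  lift2 S.i (singleAddHom none) fun s s' => (liftAddHom fun l => sp s l s').comp S.c.toAddMonoidHom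

variable (X) in
def ε2 : Option (X × Λ × X) → Amb X S.i
  | none => 1
  | some q => U S.i q.1 q.2.2 (S.ε q.2.1)

variable (X) in
def cb : (Option (X × Λ × X) →₀ MonoidAlgebra ℤ G) →+ Amb X S.i :=
  liftAddHom fun q => (AddMonoidHom.mulRight (ε2 X S q)).comp (i2 X S.i).toAddMonoidHom

variable {S}

theorem cb_single (q : Option (X × Λ × X)) (r : MonoidAlgebra ℤ G) :
    cb X S (single q r) = i2 X S.i r * ε2 X S q := liftAddHom_apply_single _ _ _

theorem cf_i2 (r : MonoidAlgebra ℤ G) : cf X S (i2 X S.i r) = single none r := lift2_i2 _ _ _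

section

variable (h : S.IsSys (gfam G O) j)
include h

theorem cf_U (s s' : X) (l : Λ) (g : G) (n : ℤ) : cf X S (U S.i s s' (S.i (.single g n) * S.ε l)) =
    single (some (g⁻¹ • s, l, s')) (.single g n) := by
  refine (lift2_U _ _ _ _ _).trans ?_
  change liftAddHom (fun l => sp s l s') (S.c _) = _
  rw [h.c_i_ε, liftAddHom_apply_single, sp_single]

theorem e_ind {p : E → Prop} (e : E) (h0 : p 0) (ha : ∀ x y, p x → p y → p (x + y))
    (h1 : ∀ g n l, p (S.i (.single g n) * S.ε l)) : p e := by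
  rw [h.expand e]
  refine Finset.sum_induction _ p ha h0 fun l _ => ?_
  change p (S.i (S.c e l) * S.ε l)
  induction S.c e l using MonoidAlgebra.induction_linear with
  | zero => rwa [map_zero, zero_mul]
  | add a b h h' => rw [map_add, add_mul]; exact ha _ _ h h'
  | single g n => exact h1 g n l

theorem cb_cf (e : Amb X S.i) : cb X S (cf X S e) = e := by
  refine amb_ind (p := fun e => cb X S (cf X S e) = e) e (by simp only [map_zero])
    (fun x y hx hy => by simp only [map_add, hx, hy])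
    (fun g n => by rw [cf_i2, cb_single]; exact mul_one _) fun s s' a => ?_
  refine e_ind h (p := fun a => cb X S (cf X S (U S.i s s' a)) = U S.i s s' a) a
    (by simp only [map_zero]) (fun x y hx hy => by simp only [map_add, hx, hy]) fun g n l => ?_
  rw [cf_U h, cb_single, ε2, i2_U, smul_inv_smul]

theorem cf_cb (v : Option (X × Λ × X) →₀ MonoidAlgebra ℤ G) : cf X S (cb X S v) = v := by
  induction v using Finsupp.induction_linear with
  | zero => simp only [map_zero]
  | add a b ha hb => simp only [map_add, ha, hb]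
  | single q r =>
    induction r using MonoidAlgebra.induction_linear with
    | zero => simp only [single_zero, map_zero]
    | add a b ha hb => simp only [single_add, map_add, ha, hb]
    | single g n =>
      rw [cb_single]
      cases q with
      | none => rw [ε2, mul_one, cf_i2]
      | some q => rw [ε2, i2_U, cf_U h, inv_smul_smul]

end

variable (P S)

def σ2 : Amb X S.i →+ Amb X S.i := lift2 S.i (i2 X S.i).toAddMonoidHom
  fun s s' => (P.rk s - P.rk s').negOnePow • (U S.i s s').comp S.σ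

def d2 : Amb X S.i →+ Amb X S.i := lift2 S.i 0
  fun s s' => (P.rk s').negOnePow • (U S.i s s').comp S.d

variable {P S}

theorem σ2_i2 (r : MonoidAlgebra ℤ G) : σ2 P S (i2 X S.i r) = i2 X S.i r := lift2_i2 _ _ _

theorem d2_i2 (r : MonoidAlgebra ℤ G) : d2 P S (i2 X S.i r) = 0 := lift2_i2 _ _ _

theorem σ2_U (s s' : X) (a : E) : σ2 P S (U S.i s s' a) =
    ((P.rk s - P.rk s').negOnePow : ℤ) • U S.i s s' (S.σ a) := lift2_U _ _ _ _ _

theorem d2_U (s s' : X) (a : E) : d2 P S (U S.i s s' a) =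
    ((P.rk s').negOnePow : ℤ) • U S.i s s' (S.d a) := lift2_U _ _ _ _ _

theorem sq (a : ℤ) : ((a.negOnePow : ℤˣ) : ℤ) * a.negOnePow = 1 := by
  rw [← Units.val_mul, Int.units_mul_self, Units.val_one]

variable (h : S.IsSys (gfam G O) j)
include h

theorem dg2 : IsDG (σ2 P S) (d2 P S) where
  σ_one := by rw [← (i2 X S.i).map_one, σ2_i2]
  σ_mul a b := by
    refine amb_ind (p := fun a => σ2 P S (a * b) = σ2 P S a * σ2 P S b) a (by simp)
      (fun x y hx hy => by simp only [add_mul, map_add, hx, hy]) (fun g n => ?_) fun s s' a => ?_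
    · refine amb_ind (p := fun b => σ2 P S (_ * b) = σ2 P S _ * σ2 P S b) b (by simp)
        (fun x y hx hy => by simp only [mul_add, map_add, hx, hy])
        (fun g' n' => by rw [← map_mul, σ2_i2, σ2_i2, σ2_i2, map_mul]) fun t t' b => ?_
      rw [i2_U, σ2_U, σ2_U, σ2_i2, mul_smul_comm, i2_U, P.rk_smul, h.dg.σ_mul, h.σ_i]
    · refine amb_ind (p := fun b => σ2 P S (_ * b) = σ2 P S _ * σ2 P S b) b (by simp)
        (fun x y hx hy => by simp only [mul_add, map_add, hx, hy]) (fun g n => ?_) fun t t' b => ?_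
      · rw [← smul_inv_smul g s', U_i2, σ2_U, σ2_U, σ2_i2, smul_mul_assoc, U_i2, P.rk_smul g,
          h.dg.σ_mul, h.σ_i]
      · rw [σ2_U, σ2_U, smul_mul_smul_comm]
        by_cases e : s' = t
        · subst e
          rw [U_mul, U_mul, σ2_U, h.dg.σ_mul, ← Units.val_mul, ← Int.negOnePow_add,
            sub_add_sub_cancel]
        · rw [U_mul_ne e, U_mul_ne e, map_zero, smul_zero]
  σσ a := amb_ind (p := fun a => σ2 P S (σ2 P S a) = a) a (by simp)
    (fun x y hx hy => by simp only [map_add, hx, hy]) (fun g n => by rw [σ2_i2, σ2_i2])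
    fun s s' a => by rw [σ2_U, map_zsmul, σ2_U, smul_smul, sq, one_smul, h.dg.σσ]
  dσ a := amb_ind (p := fun a => d2 P S (σ2 P S a) = -σ2 P S (d2 P S a)) a (by simp)
    (fun x y hx hy => by simp only [map_add, hx, hy, neg_add])
    (fun g n => by rw [σ2_i2, d2_i2, map_zero, neg_zero])
    fun s s' a => by
      rw [σ2_U, d2_U, map_zsmul, map_zsmul, σ2_U, d2_U, h.dg.dσ, map_neg, smul_neg, smul_neg,
        smul_comm]
  dd a := amb_ind (p := fun a => d2 P S (d2 P S a) = 0) a (by simp)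
    (fun x y hx hy => by simp only [map_add, hx, hy, add_zero]) (fun g n => by rw [d2_i2, map_zero])
    fun s s' a => by rw [d2_U, map_zsmul, d2_U, h.dg.dd, map_zero, smul_zero, smul_zero]
  leib a b := by
    refine amb_ind (p := fun a => d2 P S (a * b) = a * d2 P S b + d2 P S a * σ2 P S b) a (by simp)
      (fun x y hx hy => by simp only [add_mul, map_add, hx, hy]; abel) (fun g n => ?_)
      fun s s' a => ?_
    · rw [d2_i2, zero_mul, add_zero]
      refine amb_ind (p := fun b => d2 P S (_ * b) = _ * d2 P S b) b (by simp)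
        (fun x y hx hy => by simp only [mul_add, map_add, hx, hy])
        (fun g' n' => by rw [← map_mul, d2_i2, d2_i2, mul_zero]) fun t t' b => ?_
      rw [i2_U, d2_U, d2_U, mul_smul_comm, i2_U, h.dg.leib, h.d_i, zero_mul, add_zero]
    · refine amb_ind (p := fun b => d2 P S (_ * b) = _ * d2 P S b + d2 P S _ * σ2 P S b) b
        (by simp) (fun x y hx hy => by simp only [mul_add, map_add, hx, hy]; abel) (fun g n => ?_)
        fun t t' b => ?_
      · rw [← smul_inv_smul g s', U_i2, d2_U, d2_U, d2_i2, σ2_i2, smul_mul_assoc, U_i2,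
          P.rk_smul g, h.dg.leib, h.d_i, h.σ_i, mul_zero, mul_zero, zero_add, zero_add]
      · rw [d2_U, d2_U, σ2_U, smul_mul_smul_comm, mul_smul_comm]
        by_cases e : s' = t
        · subst e
          rw [U_mul, U_mul, U_mul, d2_U, h.dg.leib, map_add, smul_add, ← Units.val_mul,
            Int.negOnePow_sub, ← mul_assoc, Int.units_mul_self, one_mul]
        · rw [U_mul_ne e, U_mul_ne e, U_mul_ne e, map_zero, smul_zero, smul_zero, add_zero]

variable (P) in
/-- the system over the finer labels -/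
def sys (x : X) : Sys (MonoidAlgebra ℤ G) (Amb X S.i) (Option (X × Λ × X)) X where
  σ := σ2 P S
  d := d2 P S
  i := i2 X S.i
  c := (cf X S).toAddEquiv (cb X S) (AddMonoidHom.ext (cb_cf h)) (AddMonoidHom.ext (cf_cb h))
  u := none
  ok q := ∃ v l s, q = some (v, l, s) ∧ (l = S.u ∧ P.le s v ∧ P.rk s < P.rk v ∨
    S.ok l ∧ P.π v = S.s l ∧ P.π s = S.t l)
  s q := q.elim x fun q => q.1
  t q := q.elim x fun q => q.2.2
  deg q := q.elim 0 fun q => S.deg q.2.1 + P.rk q.1 - P.rk q.2.2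
  ρ q := q.elim 0 fun q => max 1 (S.ρ q.2.1)

variable {x : X}

theorem sys_ε (v : X) (l : Λ) (s : X) : (sys P h x).ε (some (v, l, s)) = U S.i v s (S.ε l) :=
  (cb_single _ _).trans (by rw [map_one, one_mul]; rfl)

theorem gen_mem {T : Option (X × Λ × X) → Prop} {s s' : X} {l : Λ} {g : G} (n : ℤ)
    (h1 : (sys P h x).ok (some (g⁻¹ • s, l, s'))) (h2 : T (some (g⁻¹ • s, l, s'))) :
    U S.i s s' (S.i (.single g n) * S.ε l) ∈ (sys P h x).Sp (gfam G X) T s s' := fun q => by
  change cf X S _ q ∈ _ ∧ (cf X S _ q ≠ 0 → _)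
  rw [cf_U h]
  by_cases e : q = some (g⁻¹ • s, l, s')
  · subst e
    rw [single_eq_same, Sys.src_of_ne (Option.some_ne_none _)]
    exact ⟨single_mem_sfam (p := fun g' => g' • g⁻¹ • s = s) (smul_inv_smul g s) n,
      fun _ => ⟨.inr ⟨h1, rfl⟩, h2⟩⟩
  · rw [single_eq_of_ne e]
    exact ⟨zero_mem _, fun h0 => (h0 rfl).elim⟩

theorem U_mem {T : Λ → Prop} {T2 : Option (X × Λ × X) → Prop} {s s' : X} {a : E}
    (ha : a ∈ S.Sp (gfam G O) T (P.π s) (P.π s')) (hu : S.aug a ∈ lt P s s')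
    (hT : ∀ l v, S.val l (P.π s') → T l → P.rk v = P.rk s → T2 (some (v, l, s'))) :
    U S.i s s' a ∈ (sys P h x).Sp (gfam G X) T2 s s' := by
  have h1 := Sys.pr_mem (T' := fun l => l = S.u) ha
  have h2 := Sys.pr_mem (T' := fun l => ¬ l = S.u) ha
  have e := Sys.pr_add_pr_not (S := S) (T := fun l => l = S.u) a
  have e1 : S.aug (S.pr (fun l => l = S.u) a) = S.aug a := by
    conv_rhs => rw [← e, map_add, Sys.aug_eq_zero h2 fun hl => hl.2 rfl, add_zero]
  rw [← e, map_add, ← h.i_aug h1 fun _ _ hl => hl.2, e1]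
  refine add_mem ?_ ?_
  · by_cases hu' : T S.u
    · refine sfam_induction (P := fun r => U S.i s s' (S.i r) ∈ (sys P h x).Sp (gfam G X) T2 s s')
        hu (fun g n hg => ?_) (by simp only [map_zero]; exact zero_mem _)
        fun a b _ _ ha hb => by simp only [map_add]; exact add_mem ha hb
      rw [← mul_one (S.i _), ← h.ε_u]
      refine gen_mem h n ⟨_, _, _, rfl, .inl ⟨rfl, ?_, P.rk_smul g⁻¹ s ▸ hg.2⟩⟩
        (hT _ _ Sys.val_u hu' (P.rk_smul _ _))
      have := P.le_smul g⁻¹ _ _ hg.1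
      rwa [inv_smul_smul] at this
    · rw [Sys.aug_eq_zero ha hu', map_zero, map_zero]
      exact zero_mem _
  · refine h.Sp_induction (p := fun a => U S.i s s' a ∈ (sys P h x).Sp (gfam G X) T2 s s') h2
      (fun l r hl hT' hr => ?_) (by rw [map_zero]; exact zero_mem _)
      fun a b _ _ ha hb => by rw [map_add]; exact add_mem ha hb
    rw [Sys.src_of_ne hT'.2] at hr
    refine sfam_induction
      (P := fun r => U S.i s s' (S.i r * S.ε l) ∈ (sys P h x).Sp (gfam G X) T2 s s')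
      hr (fun g n hg => ?_) (by simp only [map_zero, zero_mul]; exact zero_mem _)
      fun a b _ _ ha hb => by simp only [map_add, add_mul]; exact add_mem ha hb
    exact gen_mem h n ⟨_, _, _, rfl, .inr ⟨(hl.of_ne hT'.2).1, by
      rw [P.π_smul, ← hg, inv_smul_smul], (hl.of_ne hT'.2).2.symm⟩⟩
      (hT _ _ hl hT'.1 (P.rk_smul _ _))

theorem ok_mem {v s : X} {l : Λ} (h1 : l = S.u ∧ P.le s v ∧ P.rk s < P.rk v ∨
    S.ok l ∧ P.π v = S.s l ∧ P.π s = S.t l) :
    S.ε l ∈ S.Sp (gfam G O) (fun m => m = l) (P.π v) (P.π s) ∧ S.aug (S.ε l) ∈ lt P v s := by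
  rcases h1 with ⟨rfl, h2, h3⟩ | ⟨h1, h2, h3⟩
  · rw [h.ε_u, ← S.i.map_one, h.aug_i]
    refine ⟨h.i_mem (P.π_le _ _ h2 ▸ h.bas.one_mem _) rfl,
      single_mem_sfam (p := fun g => P.le (g • s) v ∧ P.rk s < P.rk v) (g := 1) ⟨?_, h3⟩ 1⟩
    rwa [one_smul]
  · have := h.ε_mem (T := fun m => m = l) (o' := P.π s) (.inr ⟨h1, h3.symm⟩) rfl
    rw [Sys.src_of_ne (h.ne_u l h1), ← h2] at this
    refine ⟨this, ?_⟩
    rw [Sys.aug_eq_zero this fun e => h.ne_u l h1 e.symm]
    exact zero_mem _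

theorem isSys {n : ℕ} (hr : ∀ s, 0 ≤ P.rk s ∧ P.rk s ≤ n) (hj : n + 1 ≤ j) :
    (sys P h x).IsSys (gfam G X) 1 where
  bas := ⟨fun s => single_mem_sfam (p := fun g => g • s = s) (g := 1) (one_smul _ _) 1,
    sfam_mul fun g g' h h' => by rw [mul_smul, h', h]⟩
  dg := dg2 h
  σ_i := σ2_i2
  d_i := d2_i2
  c_mul r e := by
    obtain ⟨v, rfl⟩ := (sys P h x).c.symm.surjective e
    rw [AddEquiv.apply_symm_apply, ← AddEquiv.eq_symm_apply]
    change i2 X S.i r * cb X S v = cb X S (r • v)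
    induction v using Finsupp.induction_linear with
    | zero => simp only [map_zero, mul_zero, smul_zero]
    | add a b ha hb => simp only [map_add, mul_add, smul_add, ha, hb]
    | single q a => rw [smul_single, cb_single, cb_single, smul_eq_mul, map_mul, mul_assoc]
  c_one := by rw [← (i2 X S.i).map_one]; exact cf_i2 1
  deg_u := rfl
  ρ_u := rfl
  ne_u := by rintro _ ⟨v, l, s, rfl, -⟩; exact Option.some_ne_none _
  deg_ge := by
    rintro _ ⟨v, l, s, rfl, h1⟩
    change 1 ≤ S.deg l + P.rk v - P.rk s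
    rcases h1 with ⟨rfl, -, h3⟩ | ⟨h1, -⟩
    · rw [h.deg_u]; omega
    · have := h.deg_ge l h1
      have := hr v
      have := hr s
      omega
  ρ_pos := by rintro _ ⟨v, l, s, rfl, -⟩; exact le_max_left _ _
  σ_ε := by
    rintro _ ⟨v, l, s, rfl, h1⟩
    rw [sys_ε]
    refine (σ2_U _ _ _).trans ?_
    rw [h.σ_eq (k := S.deg l) (Sys.Sp_mono (fun _ _ e => congrArg S.deg e) (ok_mem h h1).1),
      Units.smul_def, map_zsmul, smul_smul, ← Units.val_mul, ← Int.negOnePow_add, add_comm,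
      ← add_sub_assoc]
    rfl
  mulR := by
    rintro _ o r ⟨v, l, s, rfl, h1⟩ (hr : r ∈ gfam G X s o)
    by_cases r0 : r = 0
    · rw [r0, map_zero, mul_zero]; exact zero_mem _
    obtain ⟨h2, h3⟩ := ok_mem h h1
    have h4 := gfam_le' (P := P) _ _ hr
    rw [sys_ε]
    change U S.i v s (S.ε l) * i2 X S.i r ∈ _
    rw [U_i2' hr]
    refine U_mem h (h.mul_mem (k := S.deg l) (n := S.ρ l) (p := False)
      (k' := 0) (n' := 0) (p' := False)
      (Sys.Sp_mono (fun _ _ e => ⟨congrArg S.deg e, e ▸ le_rfl, False.elim⟩) h2)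
      (h.i_mem h4 ⟨h.deg_u, h.ρ_u.le, False.elim⟩)) ?_ fun m w _ hm hw =>
        ⟨Option.some_ne_none _, ?_, max_le_max le_rfl hm.2.1⟩
    · rw [h.aug_mul (k := S.deg l) (Sys.Sp_mono (fun _ _ e => congrArg S.deg e) h2)
        (h.i_mem h4 h.deg_u), h.aug_i]
      exact lt_mul h3 (P.gfam_le _ _ hr)
    · change S.deg m + P.rk w - P.rk o = S.deg l + P.rk v - P.rk s
      rw [hm.1, show P.rk w = P.rk v from hw, rk_eq (P := P) hr r0, add_zero]
  mul := by
    rintro _ _ ⟨v, l, s, rfl, h1⟩ ⟨v', l', s', rfl, h1'⟩ (rfl : s = v')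
    obtain ⟨h2, h3⟩ := ok_mem h h1
    obtain ⟨h2', h3'⟩ := ok_mem h h1'
    rw [sys_ε, sys_ε, U_mul]
    refine U_mem h (h.mul_mem (k := S.deg l) (n := S.ρ l) (p := False)
      (k' := S.deg l') (n' := S.ρ l') (p' := False)
      (Sys.Sp_mono (fun _ _ e => ⟨congrArg S.deg e, e ▸ le_rfl, False.elim⟩) h2)
      (Sys.Sp_mono (fun _ _ e => ⟨congrArg S.deg e, e ▸ le_rfl, False.elim⟩) h2')) ?_
      fun m w _ hm hw => ⟨Option.some_ne_none _, ?_, ?_⟩
    · rw [h.aug_mul (k := S.deg l) (k' := S.deg l')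
        (Sys.Sp_mono (fun _ _ e => congrArg S.deg e) h2)
        (Sys.Sp_mono (fun _ _ e => congrArg S.deg e) h2')]
      exact lt_mul h3 (lt_le _ _ h3')
    · change S.deg m + P.rk w - P.rk s' = S.deg l + P.rk v - P.rk s + (S.deg l' + P.rk s - P.rk s')
      rw [hm.1, show P.rk w = P.rk v from hw]; ring
    · change max 1 (S.ρ m) ≤ max 1 (S.ρ l) + max 1 (S.ρ l')
      have := hm.2.1
      omega
  d_ε := by
    rintro _ ⟨v, l, s, rfl, h1⟩
    have h2 := h.d_mem (k := S.deg l) (n := S.ρ l)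
      (Sys.Sp_mono (fun _ _ e => ⟨congrArg S.deg e, e ▸ le_rfl⟩) (ok_mem h h1).1)
    rw [sys_ε]
    change d2 P S (U S.i v s (S.ε l)) ∈ (sys P h x).Sp (gfam G X) _ v s
    rw [d2_U]
    refine zsmul_mem (U_mem h h2 ?_ fun m w hv hm hw =>
      ⟨Option.some_ne_none _, ?_, ?_⟩) _
    · rw [Sys.aug_eq_zero h2 fun e => e.2.2 rfl]; exact zero_mem _
    · change S.deg m + P.rk w - P.rk s = S.deg l + P.rk v - P.rk s + 1
      rw [hm.1, hw]; ring
    · change max 1 (S.ρ m) < max 1 (S.ρ l)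
      have := hm.2.1
      have := h.ρ_pos m (hv.of_ne hm.2.2).1
      omega

omit h in
variable (S) in
/-- the embedding of the refined family -/
def emb (s s' : X) : E →+ Amb X S.i :=
  (i2 X S.i).toAddMonoidHom.comp ((flt G s s').comp S.aug) + (U S.i s s').comp
    (AddMonoidHom.id E - S.i.toAddMonoidHom.comp ((flt G s s').comp S.aug))

theorem emb_eq {s s' : X} {r : MonoidAlgebra ℤ G} {a : E} (hr : r ∈ gfam G X s s')
    (ha : S.aug a ∈ lt P s s') : emb S s s' (S.i r + a) = i2 X S.i r + U S.i s s' a := by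
  change i2 X S.i (flt G s s' (S.aug (S.i r + a))) +
    U S.i s s' (S.i r + a - S.i (flt G s s' (S.aug (S.i r + a)))) = _
  rw [map_add S.aug, h.aug_i, map_add (flt G s s'), flt_eq hr, flt_lt ha, add_zero,
    add_sub_cancel_left]

theorem emb_U {s s' : X} {a : E} (ha : S.aug a ∈ lt P s s') : emb S s s' a = U S.i s s' a := by
  have := emb_eq h (zero_mem _) ha
  rwa [map_zero, map_zero, zero_add, zero_add] at this

theorem dec {k : ℤ} {s s' : X} {a : E}
    (ha : a ∈ ((S.cat (gfam G O)).refine P.π P.T S.aug).H k s s') :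
    ∃ r ∈ gfam G X s s', ∃ b ∈ S.Sp (gfam G O) (fun l => S.deg l = k) (P.π s) (P.π s'),
      S.aug b ∈ lt P s s' ∧ (r ≠ 0 → k = 0) ∧ a = S.i r + b := by
  have h0 : flt G s s' (S.aug a) ≠ 0 → k = 0 := fun h1 =>
    ((ha.1 S.u).2 fun h2 => h1 (by rw [Sys.aug_apply, h2, map_zero])).2.symm.trans h.deg_u
  refine ⟨_, flt_mem s s' (S.aug a), a - S.i (flt G s s' (S.aug a)), sub_mem ha.1 ?_, ?_, h0,
    (add_sub_cancel _ _).symm⟩
  · by_cases e : flt G s s' (S.aug a) = 0
    · rw [e, map_zero]; exact zero_mem _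
    · exact h.i_mem (gfam_le' _ _ (flt_mem _ _ _)) (h.deg_u.trans (h0 e).symm)
  · rw [map_sub, h.aug_i]; exact sub_flt ha.2

theorem homL (h2 : (sys P h x).IsSys (gfam G X) 1) :
    IsHomL ((S.cat (gfam G O)).refine P.π P.T S.aug) ((sys P h x).cat (gfam G X)) P.rk (emb S) where
  mem {k s s' _} ha := by
    obtain ⟨r, hr, b, hb, h3, h4, rfl⟩ := dec h ha
    rw [emb_eq h hr h3]
    refine add_mem ?_ (U_mem h hb h3 fun l v _ hl hv => ?_)
    · by_cases e : r = 0
      · rw [e, map_zero]; exact zero_mem _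
      · refine h2.i_mem hr ?_
        change 0 = k + P.rk s - P.rk s'
        rw [h4 e, rk_eq (P := P) hr e, zero_add, sub_self]
    · change S.deg l + P.rk v - P.rk s' = _
      rw [hl, hv]
  one s := by
    have := emb_eq h (P := P) (a := 0) (h2.bas.one_mem s) (by rw [map_zero]; exact zero_mem _)
    rwa [map_one, map_one, map_zero, add_zero, add_zero] at this
  mul {k k' s s' s'' _ _} ha hb := by
    obtain ⟨r, hr, a, ha', h3, -, rfl⟩ := dec h ha
    obtain ⟨r', hr', b, hb', h3', -, rfl⟩ := dec h hb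
    have i1 := h.i_mem (T := fun l => S.deg l = 0) (gfam_le' (P := P) _ _ hr) h.deg_u
    have i2 := h.i_mem (T := fun l => S.deg l = 0) (gfam_le' (P := P) _ _ hr') h.deg_u
    rw [emb_eq h hr h3, emb_eq h hr' h3', add_mul, mul_add, mul_add, ← map_mul, add_assoc,
      emb_eq h (P := P) (h2.bas.mul_mem hr hr'), add_mul, mul_add, mul_add, i2_U' hr, U_i2' hr',
      U_mul, map_mul, map_add, map_add, add_assoc]
    rw [map_add, map_add, h.aug_mul i1 hb', h.aug_mul ha' i2, h.aug_mul ha' hb', h.aug_i, h.aug_i]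
    exact add_mem (mul_lt (P.gfam_le _ _ hr) h3')
      (add_mem (lt_mul h3 (P.gfam_le _ _ hr')) (lt_mul h3 (lt_le _ _ h3')))
  d {k s s' _} ha := by
    obtain ⟨r, hr, a, ha', h3, -, rfl⟩ := dec h ha
    obtain ⟨n, ha⟩ := h.exists_rank ha'
    change d2 P S _ = _ • emb S s s' (S.d _)
    rw [emb_eq h hr h3, map_add, d2_i2, d2_U, map_add, h.d_i, zero_add, zero_add,
      emb_U h (P := P) (by rw [Sys.aug_eq_zero (h.d_mem ha) fun e => e.2.2 rfl]; exact zero_mem _)]
    rfl

theorem ev_emb (k : ℤ) (s s' : X) (a : E)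
    (ha : a ∈ ((S.cat (gfam G O)).refine P.π P.T S.aug).H k s s') :
    ev S.i s s' (emb S s s' a) = a := by
  obtain ⟨r, hr, a, -, h3, -, rfl⟩ := dec h ha
  rw [emb_eq h hr h3, map_add, ev_i2 hr, ev_U]

theorem emb_onto (h2 : (sys P h x).IsSys (gfam G X) 1) (k : ℤ) (s s' : X) (e : Amb X S.i)
    (he : e ∈ ((sys P h x).cat (gfam G X)).H k s s') :
    ∃ a ∈ ((S.cat (gfam G O)).refine P.π P.T S.aug).H (k + -P.rk s - -P.rk s') s s',
      emb S s s' a = e := by
  refine h2.Sp_induction (p := fun e => ∃ a ∈ ((S.cat (gfam G O)).refine P.π P.T S.aug).H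
    (k + -P.rk s - -P.rk s') s s', emb S s s' a = e) he (fun q r hq hk hr => ?_)
    ⟨0, zero_mem _, map_zero _⟩
    fun _ _ _ _ ⟨a, ha, e⟩ ⟨b, hb, e'⟩ => ⟨a + b, add_mem ha hb, by rw [map_add, e, e']⟩
  by_cases r0 : r = 0
  · exact ⟨0, zero_mem _, by rw [r0, map_zero, map_zero, zero_mul]⟩
  rcases hq with rfl | ⟨⟨v, l, t, rfl, h1⟩, rfl : t = s'⟩
  · rw [Sys.src_u] at hr
    refine ⟨S.i r, ⟨h.i_mem (gfam_le' _ _ hr) ?_, ?_⟩, ?_⟩
    · rw [h.deg_u, ← show 0 = k from hk, rk_eq (P := P) hr r0, zero_add, sub_self]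
    · change S.aug (S.i r) ∈ P.T s s'
      rw [h.aug_i]; exact P.gfam_le _ _ hr
    · have := emb_eq h (P := P) (a := 0) hr (by rw [map_zero]; exact zero_mem _)
      rwa [map_zero, add_zero, add_zero, ← mul_one (i2 X S.i r), ← h2.ε_u] at this
  · rw [Sys.src_of_ne (Option.some_ne_none _)] at hr
    change r ∈ gfam G X s v at hr
    obtain ⟨h3, h4⟩ := ok_mem h h1
    have h5 : S.aug (S.i r * S.ε l) ∈ lt P s t := by
      rw [h.aug_mul (k' := S.deg l) (h.i_mem (gfam_le' (P := P) _ _ hr) h.deg_u)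
        (Sys.Sp_mono (fun _ _ e => congrArg S.deg e) h3), h.aug_i]
      exact mul_lt (P.gfam_le _ _ hr) h4
    refine ⟨S.i r * S.ε l, ⟨h.i_mul_mem (gfam_le' _ _ hr) (Sys.Sp_mono (fun m _ e => ?_) h3),
      lt_le _ _ h5⟩, ?_⟩
    · change S.deg l + P.rk v - P.rk t = k at hk
      rw [e, ← hk, rk_eq (P := P) hr r0]; ring
    · rw [emb_U h h5, sys_ε]
      exact (i2_U' hr _ _).symm

end TP

theorem st_tp : St_TP := by
  intro G O X _ _ _ P n hr E Λ _ S h A _ hX
  have hg := ((h.aug' (by omega)).refine P.T_bas P.T_le).good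
  rcases isEmpty_or_nonempty X with hx | ⟨⟨x⟩⟩
  · intro M _ _ _
    have : IsEmpty M.ι := Function.isEmpty M.lab
    exact (hg.bc A).inO_of_ctr (hg.bc A).ctr_of_isEmpty.2
  have h2 := TP.isSys h (x := x) hr le_rfl
  exact (TP.homL h h2).P_bc hg h2.good (TP.ev_emb h) (TP.emb_onto h h2) A (hX _ _ _ h2)

end Pool.Agent.Lib.NIL
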