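import Pool.Agent.Lib.NIL.Core
import Pool.Agent.Lib.NIL.B_H3
import Pool.Agent.Lib.NIL.B_AC0
import Pool.Agent.Lib.NIL.B_AC1
import Pool.Agent.Lib.NIL.B_AC2
import Pool.Agent.Lib.NIL.B_AC3a
import Pool.Agent.Lib.NIL.B_AC3b
import Pool.Agent.Lib.NIL.B_AC4
import Pool.Agent.Lib.NIL.B_TREE
import Pool.Agent.Lib.NIL.TP

/-! The vanishing theorem for Nil groups. -/

namespace Pool.Agent.Lib.NIL

theorem uref_holds : St_UREF := st_uref st_tp

theorem final_nil (G : Type) [Group G] (hG : NilN.Hierarchical G)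
    (ht : ∀ g : G, IsOfFinOrder g → g = 1) (T Λ : Type) [Ring T] (i : MonoidAlgebra ℤ G →+* T)
    (x : Λ → T) (hx : NilN.IsTensorRing i x) : Function.Bijective (WhDet.K1.map i) :=
  nil_vanishing' core_holds step_holds st_tree uref_holds st_ac0 st_ac1 st_ac2 st_ac3a st_ac3b
    st_ac4 kc_holds st_ten G hG ht T Λ i x hx

end Pool.Agent.Lib.NIL
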