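import Pool.Agent.Lib.NIL.A6

/-! Label dependent entrywise functors with a shift of degrees. -/

noncomputable section

namespace Pool.Agent.Lib.NIL

open Finsupp TensorProduct

variable {E L E' L' : Type} [Ring E] [Ring E'] {C : Cat E L} {C' : Cat E' L'}

/-- entrywise application of a family of additive maps -/
def jG {ι : Type} (ψ : ι → E →+ E') : (ι →₀ E) →+ (ι →₀ E') :=
  liftAddHom fun i => (singleAddHom i).comp (ψ i)

theorem jG_single {ι : Type} (ψ : ι → E →+ E') (i : ι) (a : E) :
    jG ψ (single i a) = single i (ψ i a) := by simp [jG]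

theorem jG_apply {ι : Type} (ψ : ι → E →+ E') (v : ι →₀ E) (i : ι) : jG ψ v i = ψ i (v i) := by
  induction v using Finsupp.induction_linear with
  | zero => simp
  | add x y hx hy => rw [map_add, Finsupp.add_apply, hx, hy, Finsupp.add_apply, map_add]
  | single i' a =>
    rw [jG_single]
    by_cases h : i' = i
    · subst h
      rw [single_eq_same, single_eq_same]
    · rw [single_eq_of_ne' h, single_eq_of_ne' h, map_zero]

def mapGL {ι κ : Type} (φ : L → L → E →+ E') (la : ι → L) (lb : κ → L)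
    (f : (ι →₀ E) →ₗ[E] (κ →₀ E)) : (ι →₀ E') →ₗ[E'] (κ →₀ E') :=
  lc fun i => jG (fun k => φ (la i) (lb k)) (f (single i 1))

theorem mapGL_single' {ι κ : Type} (φ : L → L → E →+ E') (la : ι → L) (lb : κ → L)
    (f : (ι →₀ E) →ₗ[E] (κ →₀ E)) (i : ι) :
    mapGL φ la lb f (single i 1) = jG (fun k => φ (la i) (lb k)) (f (single i 1)) := by
  rw [mapGL, linearCombination_single, one_smul]

theorem mapGL_single {ι κ : Type} (φ : L → L → E →+ E') (la : ι → L) (lb : κ → L)
    (f : (ι →₀ E) →ₗ[E] (κ →₀ E)) (i : ι) (k : κ) :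
    mapGL φ la lb f (single i 1) k = φ (la i) (lb k) (f (single i 1) k) := by
  rw [mapGL_single', jG_apply]

@[reducible] def Raw.mapG (V : Raw E L) (φ : L → L → E →+ E') (l : L → L') (n : L → ℤ) :
    Raw E' L' := ⟨V.ι, fun i => V.deg i + n (V.lab i), l ∘ V.lab, mapGL φ V.lab V.lab V.δ⟩

theorem Raw.Fin1.mapG {V : Raw E L} (h : V.Fin1) (φ : L → L → E →+ E') (l : L → L') (n : L → ℤ) :
    (V.mapG φ l n).Fin1 := by
  refine ⟨h.1, Subrelation.wf (r := fun i' i : V.ι => V.δ (single i 1) i' ≠ 0)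
    (fun {i' i} h' e => h' ?_) h.2⟩
  exact (mapGL_single φ V.lab V.lab V.δ i i').trans (by rw [e, map_zero])

structure IsHomG (C : Cat E L) (C' : Cat E' L') (φ : L → L → E →+ E') (l : L → L') (n : L → ℤ) :
    Prop where
  mem : ∀ {k o o' a}, a ∈ C.H k o o' → φ o o' a ∈ C'.H (k + n o - n o') (l o) (l o')
  one : ∀ o, φ o o 1 = 1
  mul : ∀ {k k' o o' o'' a b}, a ∈ C.H k o o' → b ∈ C.H k' o' o'' →
    φ o o'' (a * b) = φ o o' a * φ o' o'' b
  d : ∀ {k o o' a}, a ∈ C.H k o o' → φ o o' (C.d a) = (n o').negOnePow • C'.d (φ o o' a)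

namespace IsHomG

variable {φ : L → L → E →+ E'} {l : L → L'} {n : L → ℤ} (h : IsHomG C C' φ l n) {V W : Raw E L}
include h

theorem hom {k : ℤ} {f : Lin V W} (hf : C.Hom k V W f) :
    C'.Hom k (V.mapG φ l n) (W.mapG φ l n) (mapGL φ V.lab W.lab f) := fun i i' => by
  have := h.mem (hf i i')
  rw [← mapGL_single] at this
  have e : V.deg i + k - W.deg i' + n (V.lab i) - n (W.lab i') =
    V.deg i + n (V.lab i) + k - (W.deg i' + n (W.lab i')) := by ring
  rw [e] at this
  exact this

theorem jG_map {k m : ℤ} {o : L} {f : Lin V W} (hf : C.Hom k V W f) {v : V.ι →₀ E}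
    (hv : v ∈ C.M V m o) : jG (fun k => φ o (W.lab k)) (f v) =
      mapGL φ V.lab W.lab f (jG (fun k => φ o (V.lab k)) v) := by
  have e : v = ∑ i ∈ v.support, single i (v i) := v.sum_single.symm
  rw [e, map_sum, map_sum, map_sum, map_sum]
  refine Finset.sum_congr rfl fun i _ => ?_
  have e1 : single i (v i) = v i • single i (1 : E) := by rw [smul_single, smul_eq_mul, mul_one]
  have e2 : ∀ a : E', single i a = a • single i (1 : E') := fun a => by
    rw [smul_single, smul_eq_mul, mul_one]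
  rw [jG_single, e1, e2, map_smul f, map_smul (mapGL φ V.lab W.lab f)]
  ext j
  rw [jG_apply, Finsupp.smul_apply, Finsupp.smul_apply, mapGL_single, smul_eq_mul, smul_eq_mul]
  exact h.mul (hv i) (hf i j)

theorem jG_D {m : ℤ} {o : L} (hV : C.Hom 1 V V V.δ) {v : V.ι →₀ E} (hv : v ∈ C.M V m o) :
    jG (fun k => φ o (V.lab k)) (C.D V v) =
      C'.D (V.mapG φ l n) (jG (fun k => φ o (V.lab k)) v) := by
  rw [Cat.D_apply, Cat.D_apply, map_add, h.jG_map hV hv]
  congr 1
  ext j
  rw [jG_apply, Raw.tw_apply]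
  refine Eq.trans ?_ (Raw.tw_apply (V.mapG φ l n) C'.d _ j).symm
  rw [jG_apply, Units.smul_def, map_zsmul, h.d (hv j), ← Units.smul_def, smul_smul,
    ← Int.negOnePow_add]

theorem isFn (hC : C.Good) (hC' : C'.Good) :
    IsFn C C' (fun V => V.mapG φ l n) fun V W f => mapGL φ V.lab W.lab f where
  obj {V} hV := hC'.obj_of_basis (h.hom hV.1) fun i => by
    have e := h.jG_D hV.1 (hV.1 i)
    rw [← mapGL_single', ← hC.D_single, hV.2, map_zero] at e
    exact e.symm
  hom hf := h.hom hf
  id V := lin_ext fun i k => by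
    rw [mapGL_single, LinearMap.id_apply, LinearMap.id_apply]
    by_cases e : i = k
    · subst e
      rw [single_eq_same, single_eq_same, h.one]
    · rw [single_eq_of_ne' e, single_eq_of_ne' e, map_zero]
  add _ _ f g := lin_ext fun i k => by
    simp only [mapGL_single, LinearMap.add_apply, Finsupp.add_apply, map_add]
  comp {k k' U V W f g} hf hg := lin_ext fun i j => by
    rw [mapGL_single', LinearMap.comp_apply, LinearMap.comp_apply, mapGL_single',
      h.jG_map hg (hf i)]
  br {k V W f g} hV hW hf e := hC'.br_of_basis (h.hom hf) fun i => by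
    have e1 := h.jG_D hW.1 (hf i)
    have e2 := h.jG_map hf (hV.1 i)
    rw [← mapGL_single'] at e1 e2
    refine e1.symm.trans ?_
    rw [e, hC.D_single, map_add, ← mapGL_single', ← e2, Units.smul_def, Units.smul_def, map_zsmul]

theorem bc (B : Type) [CommRing B] :
    IsHomG (C.bc B) (C'.bc B) (fun o o' => lT B (φ o o')) l n where
  mem ha := lT_mem_bcF (fun _ he => h.mem he) ha
  one o := by rw [Algebra.TensorProduct.one_def, lT_tmul, h.one, Algebra.TensorProduct.one_def]
  mul {k k' o o' o'' a b} ha hb := by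
    refine bcF_induction (p := fun a => lT B (φ o o'') (a * b) =
      lT B (φ o o') a * lT B (φ o' o'') b) ha (fun x e he => ?_) (by simp)
      fun x y _ _ hx hy => by rw [add_mul, map_add, map_add, add_mul, hx, hy]
    refine bcF_induction (p := fun b => lT B (φ o o'') (x ⊗ₜ e * b) =
      lT B (φ o o') (x ⊗ₜ e) * lT B (φ o' o'') b) hb (fun x' e' he' => ?_) (by simp)
      fun x y _ _ hx hy => by rw [mul_add, map_add, map_add, mul_add, hx, hy]
    rw [Algebra.TensorProduct.tmul_mul_tmul, lT_tmul, lT_tmul, lT_tmul,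
      Algebra.TensorProduct.tmul_mul_tmul, h.mul he he']
  d {k o o' a} ha := by
    refine bcF_induction (p := fun a => lT B (φ o o') (lT B C.d a) =
      (n o').negOnePow • lT B C'.d (lT B (φ o o') a)) ha (fun x e he => ?_) (by simp)
      fun x y _ _ hx hy => by rw [map_add, map_add, map_add, map_add, smul_add, hx, hy]
    rw [lT_tmul, lT_tmul, lT_tmul, lT_tmul, h.d he, Units.smul_def, Units.smul_def, tmul_smul]

end IsHomG

/-- transport of `P` along a pair of functors -/
theorem P_of_homG {C' : Cat E' L} {φ : L → L → E →+ E'} {ψ : L → L → E' →+ E} {n : L → ℤ}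
    (hC : C.Good) (hC' : C'.Good) (h : IsHomG C C' φ id n) (h' : IsHomG C' C ψ id fun o => -n o)
    (e : ∀ o o' a, ψ o o' (φ o o' a) = a) (hP : C'.P) : C.P := by
  intro M hM hf hp
  have F := h.isFn hC hC'
  have F' := h'.isFn hC' hC
  have h1 := hP _ (F.obj hM) hf (F.perf (fun _ _ hW => hW.mapG _ _ _) hM hp)
  have h2 := F'.inO (fun _ hW hf => hC.inO_of_fin1 (F'.obj hW) (hf.mapG _ _ _)) hC (F.obj hM) h1
  refine hC.inO_of_eqv (hC.eqv_rx (W := (M.mapG φ id n).mapG ψ id fun o => -n o)
    ⟨Equiv.refl _, fun i => ?_, fun _ => rfl, fun i i' => ?_⟩) h2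
  · exact add_neg_cancel_right _ _
  · exact (mapGL_single ψ _ _ _ i i').trans ((congrArg _ (mapGL_single φ _ _ _ i i')).trans
      (e _ _ _))

end Pool.Agent.Lib.NIL
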