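import Mathlib

/-! For a principal ideal domain `A`, the ring `A⟨x⟩` obtained from `A[X]` by inverting all monic
polynomials is again a principal ideal domain. -/

namespace Pool.Agent.Lib.NIL

open Polynomial

/-- The monic polynomials over `A`, as a multiplicative set. -/
def Mon (A : Type*) [CommRing A] : Submonoid A[X] where
  carrier := {p | p.Monic}
  mul_mem' := fun hp hq => Monic.mul hp hq
  one_mem' := monic_one

theorem mem_Mon {A : Type*} [CommRing A] {p : A[X]} : p ∈ Mon A ↔ p.Monic := Iff.rfl

theorem Mon_le (A : Type*) [CommRing A] : Mon A ≤ nonZeroDivisors A[X] :=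
  fun _ hp => (mem_Mon.1 hp).mem_nonZeroDivisors

/-- `A⟨x⟩`: the polynomial ring with all monic polynomials inverted. -/
abbrev Ax (A : Type*) [CommRing A] : Type _ := Localization (Mon A)

theorem ax_injective (A : Type*) [CommRing A] (S : Type*) [CommRing S] [Algebra A[X] S]
    [IsLocalization (Mon A) S] : Function.Injective (algebraMap A[X] S) :=
  IsLocalization.injective S (Mon_le A)

/-- A prime ideal of `A[X]` (`A` a principal ideal domain) that contains no monic polynomial is
principal. -/
theorem prime_principal {A : Type*} [CommRing A] [IsDomain A] [IsPrincipalIdealRing A]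
    (P : Ideal A[X]) (hP : P.IsPrime) (hm : ∀ p ∈ P, ¬ p.Monic) : P.IsPrincipal := by
  classical
  by_cases h0 : P = ⊥
  · rw [h0]; exact bot_isPrincipal
  by_cases hA : ∃ a : A, a ≠ 0 ∧ C a ∈ P
  · obtain ⟨a, ha0, haP⟩ := hA
    have hQ : (P.comap (C : A →+* A[X])).IsPrime := Ideal.comap_isPrime _ _
    have hQ0 : P.comap (C : A →+* A[X]) ≠ ⊥ := by
      intro h
      have : a ∈ P.comap (C : A →+* A[X]) := haP
      rw [h] at this
      exact ha0 this
    obtain ⟨π, hπP, hπ⟩ := hQ.exists_mem_prime_of_ne_bot hQ0
    have hπP' : C π ∈ P := hπP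
    have hmax : (Ideal.span {π}).IsMaximal :=
      PrincipalIdealRing.isMaximal_of_irreducible hπ.irreducible
    refine ⟨⟨C π, le_antisymm ?_ ?_⟩⟩
    · intro g hg
      by_contra hgn
      let _ := Ideal.Quotient.field (Ideal.span {π})
      set q := Ideal.Quotient.mk (Ideal.span {π}) with hq
      have hker : ∀ f : A[X], f.map q = 0 → f ∈ Ideal.span {C π} := by
        intro f hf
        rw [Ideal.mem_span_singleton, C_dvd_iff_dvd_coeff]
        intro i
        have := congrArg (fun p => Polynomial.coeff p i) hf
        simp only [coeff_map, coeff_zero] at this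
        rw [← Ideal.mem_span_singleton, ← Ideal.Quotient.eq_zero_iff_mem]
        exact this
      have hg0 : g.map q ≠ 0 := fun h => hgn (hker g h)
      obtain ⟨u, hu⟩ := Ideal.Quotient.mk_surjective (I := Ideal.span {π}) (g.map q).leadingCoeff⁻¹
      have hmon : ((g * C u).map q).Monic := by
        rw [Polynomial.map_mul, map_C, hu]
        exact monic_mul_leadingCoeff_inv hg0
      obtain ⟨f, hf1, -, hf3⟩ := lifts_and_natDegree_eq_and_monic (f := q) ⟨g * C u, rfl⟩ hmon
      have hd : f - g * C u ∈ Ideal.span {C π} := by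
        apply hker
        rw [Polynomial.map_sub, hf1]
        exact sub_self _
      have hd' : f - g * C u ∈ P :=
        (Ideal.span_le.2 (Set.singleton_subset_iff.2 hπP') : Ideal.span {C π} ≤ P) hd
      have : f ∈ P := by
        have := P.add_mem hd' (P.mul_mem_right (C u) hg)
        simpa using this
      exact hm f this hf3
    · exact Ideal.span_le.2 (Set.singleton_subset_iff.2 hπP')
  · have hA' : ∀ a : A, C a ∈ P → a = 0 := fun a ha => by
      by_contra h; exact hA ⟨a, h, ha⟩
    obtain ⟨f, hfP, hf⟩ := hP.exists_mem_prime_of_ne_bot h0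
    have hdeg : f.natDegree ≠ 0 := by
      intro h
      rw [natDegree_eq_zero] at h
      obtain ⟨a, rfl⟩ := h
      exact hf.ne_zero (by rw [hA' a hfP, map_zero])
    have hprim : f.IsPrimitive := hf.irreducible.isPrimitive hdeg
    let K := FractionRing A
    have hirr : Irreducible (f.map (algebraMap A K)) :=
      hprim.irreducible_iff_irreducible_map_fraction_map.1 hf.irreducible
    refine ⟨⟨f, le_antisymm ?_ ?_⟩⟩
    · intro g hg
      change g ∈ Ideal.span {f}
      rw [Ideal.mem_span_singleton]
      by_contra hnd
      have hnd' : ¬ f.map (algebraMap A K) ∣ g.map (algebraMap A K) := fun h =>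
        hnd (hprim.dvd_of_fraction_map_dvd_fraction_map h)
      obtain ⟨a, b, hab⟩ := hirr.coprime_iff_not_dvd.2 hnd'
      obtain ⟨c, hc0, hc⟩ := IsLocalization.integerNormalization_spec (nonZeroDivisors A) a
      obtain ⟨d, hd0, hd⟩ := IsLocalization.integerNormalization_spec (nonZeroDivisors A) b
      set a' := IsLocalization.integerNormalization (nonZeroDivisors A) a
      set b' := IsLocalization.integerNormalization (nonZeroDivisors A) b
      have key : C d * a' * f + C c * b' * g = C (c * d) := by
        apply map_injective (algebraMap A K) (IsFractionRing.injective A K)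
        rw [Algebra.smul_def, Polynomial.algebraMap_apply] at hc hd
        simp only [Polynomial.map_add, Polynomial.map_mul, hc, hd, map_C, map_mul]
        linear_combination (C (algebraMap A K c) * C (algebraMap A K d)) * hab
      have hmem : C (c * d) ∈ P := key ▸ P.add_mem (P.mul_mem_left _ hfP) (P.mul_mem_left _ hg)
      exact mul_ne_zero (nonZeroDivisors.ne_zero hc0) (nonZeroDivisors.ne_zero hd0) (hA' _ hmem)
    · exact Ideal.span_le.2 (Set.singleton_subset_iff.2 hfP)

theorem ax_isDomain (A : Type*) [CommRing A] [IsDomain A] (S : Type*) [CommRing S]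
    [Algebra A[X] S] [IsLocalization (Mon A) S] : IsDomain S :=
  IsLocalization.isDomain_of_le_nonZeroDivisors S (Mon_le A)

theorem ax_pid (A : Type*) [CommRing A] [IsDomain A] [IsPrincipalIdealRing A] (S : Type*)
    [CommRing S] [Algebra A[X] S] [IsLocalization (Mon A) S] : IsPrincipalIdealRing S := by
  refine IsPrincipalIdealRing.of_prime fun J hJ => ?_
  obtain ⟨h1, h2⟩ := (IsLocalization.isPrime_iff_isPrime_disjoint (Mon A) S J).1 hJ
  obtain ⟨⟨f, hf⟩⟩ := prime_principal (J.under A[X]) h1
    (fun p hp hm => Set.disjoint_left.1 h2 (mem_Mon.2 hm) hp)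
  refine ⟨⟨algebraMap A[X] S f, ?_⟩⟩
  rw [← IsLocalization.map_under (Mon A) S J, hf]
  change Ideal.map _ (Ideal.span {f}) = Ideal.span _
  rw [Ideal.map_span, Set.image_singleton]

instance instIsDomainAx (A : Type*) [CommRing A] [IsDomain A] : IsDomain (Ax A) :=
  ax_isDomain A _

instance instPIDAx (A : Type*) [CommRing A] [IsDomain A] [IsPrincipalIdealRing A] :
    IsPrincipalIdealRing (Ax A) := ax_pid A _

end Pool.Agent.Lib.NIL
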