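import Mathlib

/-! Projective dimension of modules: dimension shifting, principal ideal domains are hereditary,
and free resolutions of bounded length. -/

namespace Pool.Agent.Lib.NIL

open CategoryTheory Abelian

universe u v w

/-- The `R`-module `M` has projective dimension at most `n`. -/
def Pd (R : Type u) [Ring R] (M : Type v) [AddCommGroup M] [Module R M] (n : ℕ) : Prop :=
  HasProjectiveDimensionLE (ModuleCat.of R M) n

variable {R : Type u} [Ring R]

theorem pd_zero [Small.{v} R] {M : Type v} [AddCommGroup M] [Module R M] :
    Pd R M 0 ↔ Module.Projective R M := by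
  rw [Pd, ← projective_iff_hasProjectiveDimensionLE_zero, ← IsProjective.iff_projective]

theorem pd_succ [Small.{v} R] {X P M : Type v} [AddCommGroup X] [Module R X] [AddCommGroup P]
    [Module R P] [AddCommGroup M] [Module R M] (i : X →ₗ[R] P) (f : P →ₗ[R] M)
    (hi : Function.Injective i) (hex : Function.Exact i f) (hf : Function.Surjective f)
    (hP : Module.Projective R P) (n : ℕ) : Pd R M (n + 1) ↔ Pd R X n := by
  have hS := ModuleCat.shortComplex_shortExact
    (ModuleCat.shortComplexOfCompEqZero i f hex.linearMap_comp_eq_zero) hex hi hf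
  exact hS.hasProjectiveDimensionLT_X₃_iff n ((IsProjective.iff_projective P).1 hP)

theorem pd_ker_iff [Small.{v} R] {P M : Type v} [AddCommGroup P]
    [Module R P] [AddCommGroup M] [Module R M] (f : P →ₗ[R] M) (hf : Function.Surjective f)
    (hP : Module.Projective R P) (n : ℕ) : Pd R M (n + 1) ↔ Pd R (LinearMap.ker f) n :=
  pd_succ (LinearMap.ker f).subtype f (LinearMap.ker f).injective_subtype
    (LinearMap.exact_subtype_ker_map f) hf hP n

theorem Pd.equiv [Small.{v} R] [Small.{w} R] {M : Type v} {N : Type w} [AddCommGroup M]
    [Module R M] [AddCommGroup N] [Module R N] (e : M ≃ₗ[R] N) {n : ℕ} (h : Pd R M n) :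
    Pd R N n := by
  have : HasProjectiveDimensionLE (ModuleCat.of R M) n := h
  exact ModuleCat.hasProjectiveDimensionLE_of_linearEquiv (M := ModuleCat.of R M)
    (N := ModuleCat.of R N) e n

theorem Pd.mono {M : Type v} [AddCommGroup M] [Module R M] {n m : ℕ} (h : Pd R M n)
    (hnm : n ≤ m) : Pd R M m := by
  have : HasProjectiveDimensionLT (ModuleCat.of R M) (n + 1) := h
  exact hasProjectiveDimensionLT_of_ge (ModuleCat.of R M) (n + 1) (m + 1) (by omega)

/-- Over a principal ideal domain a quotient of an injective module is injective. -/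
theorem baer_quot {A : Type u} [CommRing A] [IsDomain A] [IsPrincipalIdealRing A] {Q Q' : Type v}
    [AddCommGroup Q] [Module A Q] [AddCommGroup Q'] [Module A Q'] (hQ : Module.Baer A Q)
    (f : Q →ₗ[A] Q') (hf : Function.Surjective f) : Module.Baer A Q' := by
  intro I g
  have : Module.Projective A I := inferInstance
  obtain ⟨g', hg'⟩ := Module.projective_lifting_property f g hf
  obtain ⟨h, hh⟩ := hQ I g'
  refine ⟨f ∘ₗ h, fun x hx => ?_⟩
  rw [LinearMap.comp_apply, hh x hx, ← hg']
  rfl

/-- Every module over a principal ideal domain has projective dimension at most one. -/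
theorem pd_pid (A : Type u) [CommRing A] [IsDomain A] [IsPrincipalIdealRing A] [Small.{v} A]
    (M : Type v) [AddCommGroup M] [Module A M] : Pd A M 1 := by
  refine hasProjectiveDimensionLT_of_enoughInjectives (ModuleCat.of A M) 2 fun Y => ?_
  obtain ⟨p⟩ := EnoughInjectives.presentation Y
  have h : (ShortComplex.mk _ _ (Limits.cokernel.condition p.f)).ShortExact :=
    { exact := ShortComplex.exact_cokernel p.f }
  have hJ : Module.Injective A p.J := (Module.injective_iff_injective_object A p.J).2 p.injective
  have hB := baer_quot (Module.Baer.of_injective hJ) (Limits.cokernel.π p.f).hom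
    ((ModuleCat.epi_iff_surjective _).1 inferInstance)
  have hI : Injective (Limits.cokernel p.f) :=
    (Module.injective_iff_injective_object A (Limits.cokernel p.f : ModuleCat A)).1 hB.injective
  refine subsingleton_of_forall_eq 0 fun e => ?_
  obtain ⟨x, rfl⟩ := Ext.covariant_sequence_exact₁ (ModuleCat.of A M) h e
    (by apply Ext.eq_zero_of_injective) (rfl : 1 + 1 = 2)
  rw [Ext.eq_zero_of_injective x]
  simp

/-- A submodule of a projective module over a principal ideal domain is projective. -/
theorem proj_of_inj_pid {A : Type u} [CommRing A] [IsDomain A] [IsPrincipalIdealRing A]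
    [Small.{v} A] {X P : Type v} [AddCommGroup X] [Module A X] [AddCommGroup P] [Module A P]
    (hP : Module.Projective A P) (i : X →ₗ[A] P) (hi : Function.Injective i) :
    Module.Projective A X :=
  pd_zero.1 ((pd_succ i (LinearMap.range i).mkQ hi (LinearMap.exact_map_mkQ_range i)
    (Submodule.mkQ_surjective _) hP 0).1 (pd_pid A _))

end Pool.Agent.Lib.NIL
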