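import Mathlib

/-! Submodules of free modules of arbitrary rank over a principal ideal domain are free. -/

namespace Pool.Agent.Lib.NIL

namespace PidFree

variable {A : Type*} [CommRing A] {I : Type*} [LinearOrder I]

/-- The ideal of `i`-th coordinates of elements of `N` supported in `Iic i`. -/
def lead (N : Submodule A (I →₀ A)) (i : I) : Ideal A where
  carrier := {a | ∃ f ∈ N, (∀ j, i < j → f j = 0) ∧ f i = a}
  add_mem' := by
    rintro a b ⟨f, hf, hf0, rfl⟩ ⟨g, hg, hg0, rfl⟩
    exact ⟨f + g, N.add_mem hf hg, fun j hj => by simp [hf0 j hj, hg0 j hj], by simp⟩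
  zero_mem' := ⟨0, N.zero_mem, fun _ _ => rfl, rfl⟩
  smul_mem' := by
    rintro c a ⟨f, hf, hf0, rfl⟩
    exact ⟨c • f, N.smul_mem c hf, fun j hj => by simp [hf0 j hj], by simp⟩

theorem exists_gen [IsPrincipalIdealRing A] (N : Submodule A (I →₀ A)) (i : I) :
    ∃ g : N, (∀ j, i < j → (g : I →₀ A) j = 0) ∧
      ∀ f ∈ N, (∀ j, i < j → f j = 0) → ∃ c : A, f i = c * (g : I →₀ A) i := by
  obtain ⟨a, ha⟩ := (IsPrincipalIdealRing.principal (lead N i)).principal
  have hmem : a ∈ lead N i := by rw [ha]; exact Submodule.mem_span_singleton_self a
  obtain ⟨g, hg, hg0, hga⟩ := hmem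
  refine ⟨⟨g, hg⟩, hg0, fun f hf hf0 => ?_⟩
  have : f i ∈ lead N i := ⟨f, hf, hf0, rfl⟩
  rw [ha, Submodule.mem_span_singleton] at this
  obtain ⟨c, hc⟩ := this
  exact ⟨c, by rw [← hc]; simp [hga]⟩

theorem free_aux [IsDomain A] [IsPrincipalIdealRing A] [WellFoundedLT I]
    (N : Submodule A (I →₀ A)) : Module.Free A N := by
  classical
  choose g hg0 hg using exists_gen N
  let v : {i : I // (g i : I →₀ A) i ≠ 0} → N := fun i => g i.1
  have hli : LinearIndependent A v := by
    refine (linearIndependent_iff' (R := A) (M := N) (v := v)).2 ?_
    intro s c hs i hi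
    by_contra hne
    obtain ⟨m, hm, hmax⟩ := (s.filter (fun j => c j ≠ 0)).exists_max_image (fun j => j.1)
      ⟨i, Finset.mem_filter.2 ⟨hi, hne⟩⟩
    obtain ⟨hms, hmc⟩ := Finset.mem_filter.1 hm
    have h1 : ((∑ j ∈ s, c j • v j : N) : I →₀ A) m.1 = 0 := by rw [hs]; rfl
    rw [Submodule.coe_sum, Finsupp.finsetSum_apply, Finset.sum_eq_single m] at h1
    · have h2 : c m * (g m.1 : I →₀ A) m.1 = 0 := by simpa [v] using h1
      exact (mul_ne_zero hmc m.2) h2
    · intro j hj hjm
      by_cases hc : c j = 0
      · simp [hc]
      · have hle : j.1 ≤ m.1 := hmax j (Finset.mem_filter.2 ⟨hj, hc⟩)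
        have hlt : j.1 < m.1 := lt_of_le_of_ne hle (fun h => hjm (Subtype.ext h))
        simp [v, hg0 j.1 m.1 hlt]
    · intro h; exact absurd hms h
  have key : ∀ i : I, ∀ f : N, (∀ j, i < j → (f : I →₀ A) j = 0) →
      f ∈ Submodule.span A (Set.range v) := by
    intro i
    induction i using WellFoundedLT.induction with
    | ind i ih =>
      have low : ∀ f : N, (∀ j, i ≤ j → (f : I →₀ A) j = 0) →
          f ∈ Submodule.span A (Set.range v) := by
        intro f hf
        by_cases h0 : (f : I →₀ A).support = ∅
        · have : f = 0 := Subtype.ext (Finsupp.support_eq_empty.1 h0)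
          rw [this]; exact Submodule.zero_mem _
        · have hne : (f : I →₀ A).support.Nonempty := Finset.nonempty_iff_ne_empty.2 h0
          have hm := Finset.max'_mem _ hne
          refine ih ((f : I →₀ A).support.max' hne) ?_ f ?_
          · by_contra hlt
            exact (Finsupp.mem_support_iff.1 hm) (hf _ (not_lt.1 hlt))
          · intro j hj
            by_contra hj0
            exact absurd (Finset.le_max' _ j (Finsupp.mem_support_iff.2 hj0)) (not_le.2 hj)
      intro f hf
      obtain ⟨c, hc⟩ := hg i f f.2 hf
      by_cases hz : (g i : I →₀ A) i = 0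
      · refine low f fun j hj => ?_
        rcases hj.lt_or_eq with h | h
        · exact hf j h
        · rw [← h, hc, hz, mul_zero]
      · have h1 : f - c • g i ∈ Submodule.span A (Set.range v) := by
          refine low _ fun j hj => ?_
          rcases hj.lt_or_eq with h | h
          · simp [hf j h, hg0 i j h]
          · subst h; simp [hc]
        have h2 : c • g i ∈ Submodule.span A (Set.range v) :=
          Submodule.smul_mem _ c (Submodule.subset_span ⟨⟨i, hz⟩, rfl⟩)
        have h3 : f = f - c • g i + c • g i := Subtype.ext (by simp)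
        rw [h3]
        exact Submodule.add_mem _ h1 h2
  have hsp : ⊤ ≤ Submodule.span A (Set.range v) := by
    intro f _
    by_cases h0 : (f : I →₀ A).support = ∅
    · have : f = 0 := Subtype.ext (Finsupp.support_eq_empty.1 h0)
      rw [this]; exact Submodule.zero_mem _
    · have hne : (f : I →₀ A).support.Nonempty := Finset.nonempty_iff_ne_empty.2 h0
      refine key ((f : I →₀ A).support.max' hne) f fun j hj => ?_
      by_contra hj0
      exact absurd (Finset.le_max' _ j (Finsupp.mem_support_iff.2 hj0)) (not_le.2 hj)
  exact Module.Free.of_basis (Module.Basis.mk hli hsp)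

end PidFree

/-- A submodule of `I →₀ A` is free, for a PID `A` and any index type. -/
theorem free_submodule_finsupp {A : Type*} [CommRing A] [IsDomain A] [IsPrincipalIdealRing A]
    {I : Type*} (N : Submodule A (I →₀ A)) : Module.Free A N := by
  obtain ⟨lo, hwf⟩ := exists_wellFoundedLT I
  exact PidFree.free_aux N

/-- A module that embeds in a free module over a PID is free. -/
theorem free_of_injective {A : Type*} [CommRing A] [IsDomain A] [IsPrincipalIdealRing A]
    {P M : Type*} [AddCommGroup P] [Module A P] [AddCommGroup M] [Module A M] [Module.Free A M]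
    (f : P →ₗ[A] M) (hf : Function.Injective f) : Module.Free A P := by
  let e := (Module.Free.chooseBasis A M).repr
  let f' := e.toLinearMap ∘ₗ f
  have hf' : Function.Injective f' := e.injective.comp hf
  have := free_submodule_finsupp (LinearMap.range f')
  exact Module.Free.of_equiv (LinearEquiv.ofInjective f' hf').symm

/-- A submodule of a free module over a PID is free. -/
theorem free_submodule {A : Type*} [CommRing A] [IsDomain A] [IsPrincipalIdealRing A]
    {M : Type*} [AddCommGroup M] [Module A M] [Module.Free A M] (N : Submodule A M) :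
    Module.Free A N :=
  free_of_injective N.subtype N.injective_subtype

/-- A projective module over a PID is free. -/
theorem free_of_projective {A : Type*} [CommRing A] [IsDomain A] [IsPrincipalIdealRing A]
    (M : Type*) [AddCommGroup M] [Module A M] [Module.Projective A M] : Module.Free A M := by
  obtain ⟨s, hs⟩ := Module.projective_def'.1 (inferInstance : Module.Projective A M)
  refine free_of_injective s ?_
  intro x y hxy
  have hx := LinearMap.congr_fun hs x
  have hy := LinearMap.congr_fun hs y
  simp only [LinearMap.comp_apply, LinearMap.id_apply] at hx hy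
  rw [← hx, ← hy, hxy]

/-- A submodule of `I →₀ A` is projective, for a PID `A` and any index type. -/
theorem projective_submodule_finsupp {A : Type*} [CommRing A] [IsDomain A]
    [IsPrincipalIdealRing A] {I : Type*} (N : Submodule A (I →₀ A)) : Module.Projective A N := by
  have := free_submodule_finsupp N
  infer_instance

/-- A module that embeds in a projective module over a PID is projective. -/
theorem projective_of_injective_univ {A : Type*} [CommRing A] [IsDomain A] [IsPrincipalIdealRing A]
    {P M : Type*} [AddCommGroup P] [Module A P] [AddCommGroup M] [Module A M]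
    [Module.Projective A M] (f : P →ₗ[A] M) (hf : Function.Injective f) :
    Module.Projective A P := by
  have := free_of_projective (A := A) M
  have := free_of_injective f hf
  infer_instance

end Pool.Agent.Lib.NIL
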