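import Pool.Agent.Lib.NIL.A7

/-! Refinement of the labels; the abstract tree step. -/

noncomputable section

namespace Pool.Agent.Lib.NIL

open Finsupp TensorProduct Polynomial

variable {E R O X : Type} [Ring E] [Ring R]

/-- the elements whose degree zero part lies in the finer family `Tf` -/
def Cat.refine (C : Cat E O) (π : X → O) (Tf : X → X → AddSubgroup R) (U : E →+ R) : Cat E X :=
  ⟨C.σ, C.d, fun k s s' => C.H k (π s) (π s') ⊓ (Tf s s').comap U⟩

theorem Cat.mem_refine {C : Cat E O} {π : X → O} {Tf : X → X → AddSubgroup R} {U : E →+ R}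
    {k : ℤ} {s s' : X} {a : E} :
    a ∈ (C.refine π Tf U).H k s s' ↔ a ∈ C.H k (π s) (π s') ∧ U a ∈ Tf s s' := Iff.rfl

theorem mem_bcatR {Rf : O → O → AddSubgroup R} {k : ℤ} {o o' : O} {a : R} :
    a ∈ (bcat Rf).H k o o' ↔ a ∈ Rf o o' ∧ (k ≠ 0 → a = 0) := by
  unfold bcat
  by_cases hk : k = 0
  · simp [hk]
  · simp only [hk, if_false, AddSubgroup.mem_bot]
    exact ⟨fun h => ⟨h ▸ zero_mem _, fun _ => h⟩, fun h => h.2 hk⟩

namespace Aug

variable {j : ℤ} {C : Cat E O} {Rf : O → O → AddSubgroup R} {I : R →+ E} {U : E →+ R}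
  {π : X → O} {Tf : X → X → AddSubgroup R}

theorem IU' (h : Aug j C (bcat Rf) I U) {k : ℤ} {o o' : O} {a : E} (ha : a ∈ C.H k o o') :
    I (U a) ∈ C.H k o o' := h.hI.mem (h.hU.mem ha)

theorem refine (h : Aug j C (bcat Rf) I U) (hT : IsBas Tf)
    (hle : ∀ s s', Tf s s' ≤ Rf (π s) (π s')) : Aug j (C.refine π Tf U) (bcat Tf) I U := by
  have up : ∀ {k s s' a}, a ∈ (bcat Tf).H k s s' → a ∈ (bcat Rf).H k (π s) (π s') :=
    fun ha => mem_bcatR.2 ⟨hle _ _ (mem_bcatR.1 ha).1, (mem_bcatR.1 ha).2⟩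
  refine ⟨⟨h.good.dg, fun s => ⟨h.good.one_mem _, ?_⟩, fun ha hb => ⟨h.good.mul_mem ha.1 hb.1, ?_⟩,
    fun ha => ⟨h.good.d_mem ha.1, ?_⟩, fun ha => h.good.σ_eq ha.1⟩, hT.good,
    ⟨fun ha => ⟨h.hI.mem (up ha), ?_⟩, h.hI.one, fun ha hb => h.hI.mul (up ha) (up hb),
      fun ha => h.hI.d (up ha)⟩,
    ⟨fun ha => mem_bcatR.2 ⟨ha.2, (mem_bcatR.1 (h.hU.mem ha.1)).2⟩, h.hU.one,
      fun ha hb => h.hU.mul ha.1 hb.1, fun ha => h.hU.d ha.1⟩, h.UI, fun ha => h.IU ha.1,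
    fun hk ha => (mem_bcatR.1 ha).2 hk, fun h1 h2 ha => h.gap h1 h2 ha.1⟩
  · change U 1 ∈ Tf s s
    rw [h.hU.one]
    exact hT.one_mem s
  · change U _ ∈ Tf _ _
    rw [h.hU.mul ha.1 hb.1]
    exact hT.mul_mem ha.2 hb.2
  · change U (C.d _) ∈ Tf _ _
    rw [h.hU.d ha.1]
    exact zero_mem _
  · change U _ ∈ Tf _ _
    rw [h.UI]
    exact (mem_bcatR.1 ha).1

theorem refine_bc (h : Aug j C (bcat Rf) I U) (hle : ∀ s s', Tf s s' ≤ Rf (π s) (π s'))
    (B : Type) [CommRing B] : (C.refine π Tf U).bc B =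
      (C.bc B).refine π (fun s s' => bcF B (Tf s s')) (lT B U) := by
  have : ∀ k s s', bcF B ((C.refine π Tf U).H k s s') =
      bcF B (C.H k (π s) (π s')) ⊓ (bcF B (Tf s s')).comap (lT B U) := by
    intro k s s'
    refine le_antisymm (le_inf (bcF_mono fun a ha => ha.1) fun z hz =>
      lT_mem_bcF (X := (C.refine π Tf U).H k s s') (Y := Tf s s') (φ := U) (fun a ha => ha.2) hz) fun z hz => ?_
    have e : ∀ z, z = lT B (AddMonoidHom.id E - I.comp U) z + lT B I (lT B U z) := by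
      intro z
      induction z using TensorProduct.induction_on with
      | zero => simp
      | tmul b a => simp [lT_tmul, tmul_sub]
      | add x y hx hy =>
        rw [map_add, map_add, map_add, add_add_add_comm, ← hx, ← hy]
    rw [e z]
    refine add_mem (lT_mem_bcF (X := C.H k (π s) (π s')) (Y := (C.refine π Tf U).H k s s')
      (fun a ha => ⟨sub_mem ha (h.IU' ha), ?_⟩) hz.1) ?_
    · change U (a - I (U a)) ∈ Tf s s'
      rw [map_sub, h.UI, sub_self]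
      exact zero_mem _
    · by_cases hk : k = 0
      · refine lT_mem_bcF (X := Tf s s') (Y := (C.refine π Tf U).H k s s')
          (fun a ha => ⟨h.hI.mem (mem_bcatR.2 ⟨hle _ _ ha, fun h' => absurd hk h'⟩), ?_⟩) hz.2
        change U (I a) ∈ Tf s s'
        rwa [h.UI]
      · have : lT B U z ∈ bcF B (⊥ : AddSubgroup R) :=
          lT_mem_bcF (fun a ha => (mem_bcatR.1 (h.hU.mem ha)).2 hk) hz.1
        rw [bcF_bot, AddSubgroup.mem_bot] at this
        rw [this, map_zero]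
        exact zero_mem _
  unfold Cat.bc Cat.refine
  congr 1
  funext k s s'
  exact this k s s'

theorem refine_le (k : ℤ) (s s' : X) : (C.refine π Tf U).H k s s' ≤ C.H k (π s) (π s') :=
  fun _ ha => ha.1

/-- maps whose degree zero part vanishes lie in the refined family -/
theorem hom_refine {k : ℤ} {V W : Raw E X} {f : Lin V W}
    (hf : C.Hom k (V.relab π) (W.relab π) f) (h0 : mapL U f = 0) :
    (C.refine π Tf U).Hom k V W f := fun i i' => ⟨hf i i', by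
  change U (f (single i 1) i') ∈ Tf (V.lab i) (W.lab i')
  rw [← mapL_single, h0]
  exact zero_mem _⟩

end Aug

theorem mapL_subR {E' ι κ : Type} [Ring E'] (φ : E →+ E') (f g : (ι →₀ E) →ₗ[E] (κ →₀ E)) :
    mapL φ (f - g) = mapL φ f - mapL φ g := lin_ext fun i k => by
  simp only [mapL_single, LinearMap.sub_apply, Finsupp.sub_apply, map_sub]

theorem ext_congrR {L ι κ : Type} {da : ι → ℤ} {db : κ → ℤ} {la : ι → L} {lb : κ → L}
    {a a' : (ι →₀ E) →ₗ[E] (ι →₀ E)} {b b' : (κ →₀ E) →ₗ[E] (κ →₀ E)}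
    {θ θ' : (κ →₀ E) →ₗ[E] (ι →₀ E)} (ha : a = a') (hb : b = b') (hθ : θ = θ') :
    (Raw.mk ι da la a).ext (Raw.mk κ db lb b) θ = (Raw.mk ι da la a').ext (Raw.mk κ db lb b') θ' := by
  subst ha hb hθ
  rfl

namespace Aug

variable {j : ℤ} {C : Cat E O} {Rf : O → O → AddSubgroup R} {I : R →+ E} {U : E →+ R}
  {π : X → O} {Tf : X → X → AddSubgroup R}

/-- KER: if `z` is null-homotopic after forgetting the labels, it lifts to a chain map to the
degree zero part -/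
theorem ker (h : Aug j C (bcat Rf) I U) (hT : IsBas Tf)
    (hle : ∀ s s', Tf s s' ≤ Rf (π s) (π s')) {z : R} (hz : (C.refine π Tf U).Cen (I z))
    {Y : Raw E X} (hY : (C.refine π Tf U).Obj Y) (hN : C.Nul (I z) (Y.relab π)) :
    ∃ g : Lin Y ((Y.mapA U id).mapA I id), (C.refine π Tf U).Ch Y ((Y.mapA U id).mapA I id) g ∧
      mapL U g = scal Y.ι z := by
  have hD := h.refine hT hle
  have fU := h.hU.isFn h.good h.good₀
  have fL := relab_isFn (C := C.refine π Tf U) (C₁ := C) (l := π) rfl refine_le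
  have hY0 : (C.refine π Tf U).Obj ((Y.mapA U id).mapA I id) :=
    (hD.hI.isFn hD.good₀ hD.good).obj ((hD.hU.isFn hD.good hD.good₀).obj hY)
  obtain ⟨h0, hh, hb⟩ := hN
  let e : Lin Y Y := Y.δ - mapL I (mapL U Y.δ)
  have he : C.Hom 1 (Y.relab π) (Y.relab π) e := Cat.Hom.sub (fL.obj hY).1 (fL.obj hY0).1
  have hUe : mapL U e = 0 := by
    change mapL U (Y.δ - mapL I (mapL U Y.δ)) = 0
    rw [mapL_subR, h.mapL_UI]
    exact LinearMap.ext fun v => sub_self (mapL U Y.δ v)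
  have hUeh : mapL U (e ∘ₗ h0) = 0 := by
    have := fU.comp hh he
    rw [hUe, LinearMap.zero_comp] at this
    exact this
  have hs := hD.good.ch_scal (V := (Y.mapA U id).mapA I id) hz
  have hDD : ∀ v, (C.refine π Tf U).D Y v =
      (C.refine π Tf U).D ((Y.mapA U id).mapA I id) v + e v := by
    intro v
    change Y.δ v + Y.tw C.d v = mapL I (mapL U Y.δ) v + Y.tw C.d v +
      (Y.δ v - mapL I (mapL U Y.δ) v)
    abel
  refine ⟨scal Y.ι (I z) - e ∘ₗ h0, ⟨Cat.Hom.sub hs.1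
    (hom_refine (h.good.hom_comp hh he (by norm_num)) hUeh), fun v => ?_⟩, ?_⟩
  · have h1 : ∀ w, (C.refine π Tf U).D ((Y.mapA U id).mapA I id) (e w) =
        -e ((C.refine π Tf U).D Y w) := by
      intro w
      have a1 := hY.2 w
      have a2 := hY0.2 w
      rw [hDD, hDD w, map_add, a2, zero_add, ← hDD] at a1
      exact eq_neg_of_add_eq_zero_left a1
    have h2 : scal Y.ι (I z) v = (C.refine π Tf U).D Y (h0 v) + h0 ((C.refine π Tf U).D Y v) := by
      have := hb v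
      rw [LinearMap.zero_apply, sub_zero] at this
      exact this
    have h3 := LinearMap.congr_fun (scal_comm hz.1 e) v
    simp only [LinearMap.comp_apply] at h3
    rw [h2, map_add] at h3
    simp only [LinearMap.sub_apply, LinearMap.comp_apply, map_sub]
    rw [h1, hs.2, hDD v, map_add, ← h3, ← hDD v]
    abel
  · rw [mapL_subR, hUeh, mapL_scal, h.UI]
    exact LinearMap.ext fun v => sub_zero (scal Y.ι z v)

/-- the abstract tree step -/
theorem stepT (h : Aug j C (bcat Rf) I U) (hj : 1 ≤ j) (hT : IsBas Tf)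
    (hle : ∀ s s', Tf s s' ≤ Rf (π s) (π s')) (A : Type) [CommRing A]
    (lift : ∀ V, (C.bc A[X]).Obj V → V.Fin1 → ∃ Y, ((C.refine π Tf U).bc A[X]).Obj Y ∧ Y.Fin1 ∧
      (C.bc A[X]).Eqv (Y.relab π) V)
    (hP : ((C.refine π Tf U).bc A).P) : (C.bc A).P := by
  intro M hM hMf hMp
  have hD := h.refine hT hle
  obtain ⟨V, hV, hVf, hVN, hVM⟩ := h.good.ret hM hMp
  obtain ⟨Y, hY, hYf, hYV⟩ := lift V hV hVf
  have gx := h.good.bc A[X]
  have ga := h.good.bc A
  have hx := h.bc A[X]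
  have ha := h.bc A
  have hDx := hD.bc A[X]
  have hDa := hD.bc A
  have fLx := relab_isFn (C := (C.refine π Tf U).bc A[X]) (C₁ := C.bc A[X]) (l := π) rfl
    fun k s s' => bcF_mono (refine_le k s s')
  have hLY := fLx.obj hY
  have eI : lT A[X] I ((Polynomial.X : A[X]) ⊗ₜ (1 : R)) = Polynomial.X ⊗ₜ (1 : E) := by
    rw [lT_tmul, h.hI.one]
  have hN : (C.bc A[X]).Nul (Polynomial.X ⊗ₜ (1 : E)) (Y.relab π) :=
    gx.nul_of_retr (h.good.cen_tmul _) hYV.retr hVN
  obtain ⟨g, hg, hUg⟩ : ∃ g : Lin Y ((Y.mapA (lT A[X] U) id).mapA (lT A[X] I) id),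
      ((C.refine π Tf U).bc A[X]).Ch Y ((Y.mapA (lT A[X] U) id).mapA (lT A[X] I) id) g ∧
      mapL (lT A[X] U) g = scal Y.ι ((Polynomial.X : A[X]) ⊗ₜ[ℤ] (1 : R)) := by
    have hx' := hx
    have hc := hD.good.cen_tmul (Polynomial.X : A[X])
    rw [bcat_bc] at hx'
    rw [h.refine_bc hle] at hY hc ⊢
    exact hx'.ker (hT.bc _) (fun s s' => bcF_mono (hle s s')) (eI ▸ hc) hY (eI ▸ hN)
  have hqY := (hDx.hU.isFn hDx.good hDx.good₀).obj hY
  have hY0 := (hDx.hI.isFn hDx.good₀ hDx.good).obj hqY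
  have hqf : (Y.mapA (lT A[X] U) id).Fin1 := hYf.mapA _ _
  have hC' := hDx.good.obj_cone hY hY0 hg
  have hCf : (Y.cone _ g).Fin1 := (hqf.mapA _ _).ext hYf.sh g
  have hq : (Y.cone _ g).mapA (lT A[X] U) id = (Y.mapA (lT A[X] U) id).cone
      (Y.mapA (lT A[X] U) id) (scal Y.ι ((Polynomial.X : A[X]) ⊗ₜ[ℤ] (1 : R))) := by
    refine (Raw.mapA_ext _ _ _).trans (ext_congrR ?_ ?_ hUg)
    · exact lin_ext fun i k => by rw [mapL_single, mapL_single, hx.UI]
    · exact mapL_neg _ _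
  obtain ⟨N, hNN⟩ := hDx.nul_of hj (z := Polynomial.X ⊗ₜ (1 : R))
    (eI ▸ hD.good.cen_tmul _) hC' hCf.1
    (hq ▸ hDx.good₀.nul_cone_scal (hD.good₀.cen_tmul _) hqY)
  rw [eI, Algebra.TensorProduct.tmul_pow, one_pow] at hNN
  have hperf := (hD.good.fn hC' hCf (monic_X_pow N) hNN).2
  have hin : ((C.refine π Tf U).bc A).InO (flat (Y.cone _ g)) := by
    refine hDa.inO_of_P hj hP ((hD.good.flat_isFn A).obj hC')
      (flat_bdd (Raw.bdd_of_finite hCf.1)) (.inl hperf) ?_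
    rw [← flat_mapA, hq]
    obtain ⟨Q, hQ, hQf, hQw, hQe⟩ := hD.good₀.quot hqY hqf.1 monic_X
    exact ⟨Q, hQ, ⟨hQf, hQw hqf.2⟩, hQe⟩
  have hin' := relab_inO (C := (C.refine π Tf U).bc A) (C₁ := C.bc A) (l := π) rfl
    (fun k s s' => bcF_mono (refine_le k s s')) hin
  rw [← flat_relab] at hin'
  have fF := h.good.flat_isFn A
  have hses := fF.ses (fLx.ses (hDx.good.ses_ext hC'))
  have hLM : (C.bc A).Eqv (flat (Y.relab π)) M := ga.eqv_trans (fF.eqv hLY hV hYV) hVM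
  have fU := ha.hU.isFn ha.good ha.good₀
  have h0 : (C.bc A).InO (flat (((Y.relab π).mapA (lT A[X] U) id).mapA (lT A[X] I) id)) := by
    rw [flat_mapA, flat_mapA]
    refine ha.hI.inO ha.good₀ ha.good (fU.obj (fF.obj hLY)) ?_
    exact ha.good₀.inO_of_eqv (fU.eqv (fF.obj hLY) hM hLM) (ha.good₀.inO_of_fin1 (fU.obj hM)
      (ha.good₀.fin1_of_zero (fun k o o' a => ha.zero₀) (fU.obj hM) hMf))
  have h1 : (C.bc A).InO (flat (Y.relab π).sh) := ga.ses_inO_right hses h0 hin'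
  have h2 := Cat.inO_sh.1 (ga.inO_of_eqv (fF.eqv_sh gx ga hLY).symm h1)
  exact ga.inO_of_eqv hLM.symm h2

end Aug

end Pool.Agent.Lib.NIL
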