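import Pool.Agent.Lib.NIL.Refine

/-! Strict lifts over the base give lifts over the refined family. -/

noncomputable section

namespace Pool.Agent.Lib.NIL

open Finsupp

variable {E R O X : Type} [Ring E] [Ring R]

theorem lin_ne_zero {ι κ : Type} (g : (ι →₀ E) →ₗ[E] (κ →₀ E)) {v : ι →₀ E} {k : κ}
    (h : g v k ≠ 0) : ∃ m, v m ≠ 0 ∧ g (single m 1) k ≠ 0 := by
  by_contra hn
  apply h
  have e : v = ∑ m ∈ v.support, v m • single m (1 : E) := by
    simp only [smul_single, smul_eq_mul, mul_one]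
    exact v.sum_single.symm
  rw [e, map_sum, Finsupp.finsetSum_apply]
  refine Finset.sum_eq_zero fun m hm => ?_
  have : g (single m 1) k = 0 := by
    by_contra h'
    exact hn ⟨m, mem_support_iff.1 hm, h'⟩
  rw [map_smul, Finsupp.smul_apply, this, smul_zero]

/-- strict lifts compatible with a rank function -/
def SL (Rf : O → O → AddSubgroup R) (π : X → O) (Tf : X → X → AddSubgroup R) : Prop :=
  ∀ (W : Raw R O) (ρ : W.ι → ℕ), (bcat Rf).Obj W → Finite W.ι →
    (∀ i i', W.δ (single i 1) i' ≠ 0 → ρ i' < ρ i) →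
    ∃ (Z : Raw R X) (p : Z.ι → ℕ) (ε : Lin (Z.relab π) W) (ι : Lin W (Z.relab π))
      (h : Lin (Z.relab π) (Z.relab π)), (bcat Tf).Obj Z ∧ Finite Z.ι ∧
      (bcat Rf).Ch (Z.relab π) W ε ∧ (bcat Rf).Ch W (Z.relab π) ι ∧
      (bcat Rf).Hom (-1) (Z.relab π) (Z.relab π) h ∧ ε ∘ₗ ι = LinearMap.id ∧ ε ∘ₗ h = 0 ∧
      h ∘ₗ ι = 0 ∧ (∀ v, Z.δ (h v) + h (Z.δ v) = v - ι (ε v)) ∧
      (∀ z z', Z.δ (single z 1) z' ≠ 0 → p z' ≤ p z) ∧
      (∀ z y, ε (single z 1) y ≠ 0 → ρ y ≤ p z) ∧ ∀ y z, ι (single y 1) z ≠ 0 → p z ≤ ρ y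

theorem Aug.lift_of_SL {j : ℤ} {C : Cat E O} {Rf : O → O → AddSubgroup R} {I : R →+ E}
    {U : E →+ R} {π : X → O} {Tf : X → X → AddSubgroup R} (h : Aug j C (bcat Rf) I U)
    (hT : IsBas Tf) (hle : ∀ s s', Tf s s' ≤ Rf (π s) (π s')) (hS : SL Rf π Tf) {V : Raw E O}
    (hV : C.Obj V) (hf : V.Fin1) :
    ∃ Y, (C.refine π Tf U).Obj Y ∧ Y.Fin1 ∧ C.Eqv (Y.relab π) V := by
  obtain ⟨ρ, hρ⟩ := hf.rank
  have hD := h.refine hT hle
  have fU := h.hU.isFn h.good h.good₀
  have fI := h.hI.isFn h.good₀ h.good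
  have hW := fU.obj hV
  obtain ⟨Z, p, ε, ι, k, hZ, hZf, hε, hι, hk, e1, e2, e3, e4, r1, r2, r3⟩ := hS (V.mapA U id) ρ hW
    hf.1 fun i i' hi => hρ i i' fun h0 => hi (by
      change mapL U V.δ (single i 1) i' = 0
      rw [mapL_single, h0, map_zero])
  have hLZ : (bcat Rf).Obj (Z.relab π) := (relab_isFn (C := bcat Tf) (C₁ := bcat Rf) rfl
    fun k s s' a ha => mem_bcatR.2 ⟨hle _ _ (mem_bcatR.1 ha).1, (mem_bcatR.1 ha).2⟩).obj hZ
  have hZ0 := fI.obj hLZ
  have hW0 := fI.obj hW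
  have hε' := fI.ch hLZ hW hε
  have hι' := fI.ch hW hLZ hι
  have hk' := fI.hom hk
  have e1' : ∀ w, mapL I ε (mapL I ι w) = w := fun w => by
    have := fI.comp hι.1 hε.1
    rw [e1, fI.id] at this
    exact (LinearMap.congr_fun this w).symm
  have e2' : ∀ w, mapL I ε (mapL I k w) = 0 := fun w => by
    have := fI.comp hk hε.1
    rw [e2, mapL_zero] at this
    exact (LinearMap.congr_fun this w).symm
  have e3' : ∀ w, mapL I k (mapL I ι w) = 0 := fun w => by
    have := fI.comp hι.1 hk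
    rw [e3, mapL_zero] at this
    exact (LinearMap.congr_fun this w).symm
  have e4' : ∀ v, C.D ((Z.relab π).mapA I id) (mapL I k v) +
      mapL I k (C.D ((Z.relab π).mapA I id) v) = v - mapL I ι (mapL I ε v) := by
    have b0 : (bcat Rf).Br (-1) (Z.relab π) (Z.relab π) k (LinearMap.id - ι ∘ₗ ε) := by
      intro v
      rw [bcat_D, bcat_D]
      have := e4 v
      simp only [Int.negOnePow_neg, Int.negOnePow_one, Units.neg_smul, one_smul,
        LinearMap.sub_apply, LinearMap.id_apply, LinearMap.comp_apply]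
      rw [← this]
      exact (neg_add_cancel_comm_assoc _ _).symm.trans (by rw [add_comm (Z.δ (k v))])
    intro v
    have := fI.br hLZ hLZ hk b0 v
    rw [fI.sub, fI.id, fI.comp hε.1 hι.1] at this
    simp only [Int.negOnePow_neg, Int.negOnePow_one, Units.neg_smul, one_smul,
      LinearMap.sub_apply, LinearMap.id_apply, LinearMap.comp_apply] at this
    rw [this]
    abel
  let e : Lin V V := V.δ - mapL I (mapL U V.δ)
  have he : C.Hom 1 V V e := Cat.Hom.sub hV.1 hW0.1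
  have hUe : mapL U e = 0 := by
    change mapL U (V.δ - mapL I (mapL U V.δ)) = 0
    rw [mapL_subR, h.mapL_UI]
    exact LinearMap.ext fun v => sub_self (mapL U V.δ v)
  have hDV : ∀ v, C.D V v = C.D ((V.mapA U id).mapA I id) v + e v := by
    intro v
    change V.δ v + V.tw C.d v = mapL I (mapL U V.δ) v + V.tw C.d v +
      (V.δ v - mapL I (mapL U V.δ) v)
    abel
  let Y : Raw E X := ⟨Z.ι, Z.deg, Z.lab, mapL I Z.δ + mapL I ι ∘ₗ e ∘ₗ mapL I ε⟩
  have hDY : ∀ v, C.D (Y.relab π) v =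
      C.D ((Z.relab π).mapA I id) v + mapL I ι (e (mapL I ε v)) := by
    intro v
    change mapL I Z.δ v + mapL I ι (e (mapL I ε v)) + Y.tw C.d v =
      mapL I Z.δ v + Y.tw C.d v + mapL I ι (e (mapL I ε v))
    abel
  have c1 : ∀ v, C.D V (mapL I ε v) = mapL I ε (C.D (Y.relab π) v) := fun v => by
    rw [hDY, hDV, map_add, e1', hε'.2]
  have c2 : ∀ w, C.D (Y.relab π) (mapL I ι w) = mapL I ι (C.D V w) := fun w => by
    rw [hDY, hDV, map_add, e1', hι'.2]
  have hee := h.good.hom_comp (U := Y.relab π) (V := V) (W := V) hε'.1 he (zero_add 1)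
  refine ⟨Y, ⟨Cat.Hom.add ((hD.hI.isFn hD.good₀ hD.good).obj hZ).1 (Aug.hom_refine
    (h.good.hom_comp (W := Y.relab π) hee hι'.1 (add_zero 1)) ?_), fun v => ?_⟩, ⟨hZf, ?_⟩,
    mapL I ε, ⟨hε'.1, c1⟩, mapL I ι, ⟨hι'.1, c2⟩, Cat.Ht.symm ⟨mapL I k, hk', fun v => ?_⟩, ?_⟩
  · have a1 := fU.comp (U := Y.relab π) (V := V) (W := V) hε'.1 he
    have a2 := fU.comp (W := Y.relab π) hee hι'.1
    rw [hUe, LinearMap.zero_comp] at a1
    rw [a1, LinearMap.comp_zero] at a2
    exact a2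
  · change C.D (Y.relab π) (C.D (Y.relab π) v) = 0
    have a1 := hV.2 (mapL I ε v)
    rw [hDV, hDV (mapL I ε v), map_add, hW0.2, zero_add, ← hDV] at a1
    rw [hDY, ← c1, hDY v, map_add, hZ0.2, zero_add, hι'.2, ← map_add, a1, map_zero]
  · let r : Z.ι → Z.ι → Prop := fun z' z => p z' < p z ∨ p z' ≤ p z ∧ Z.deg z < Z.deg z'
    have : IsTrans Z.ι r := ⟨fun a b c h1 h2 => by
      simp only [r] at h1 h2 ⊢
      omega⟩
    have : Std.Irrefl r := ⟨fun a h1 => by
      simp only [r] at h1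
      omega⟩
    refine Subrelation.wf (r := r) (fun {z' z} hz => ?_) (Finite.wellFounded_of_trans_of_irrefl r)
    by_cases h0 : Z.δ (single z 1) z' = 0
    · left
      have h1 : mapL I ι (e (mapL I ε (single z 1))) z' ≠ 0 := fun h1 => hz (by
        change mapL I Z.δ (single z 1) z' + mapL I ι (e (mapL I ε (single z 1))) z' = 0
        rw [mapL_single, h0, map_zero, h1, add_zero])
      obtain ⟨y', h2, h3⟩ := lin_ne_zero _ h1
      obtain ⟨y, h4, h5⟩ := lin_ne_zero _ h2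
      rw [mapL_single] at h3 h4
      have b1 := r3 y' z' fun h' => h3 (by rw [h', map_zero])
      have b2 := r2 z y fun h' => h4 (by rw [h', map_zero])
      have b3 := hρ y y' fun h' => h5 (by
        change V.δ (single y 1) y' - mapL I (mapL U V.δ) (single y 1) y' = 0
        rw [mapL_single, mapL_single, h', map_zero, map_zero, sub_zero])
      omega
    · right
      have := ((bcat_hom.1 hZ.1) z z').2 h0
      exact ⟨r1 z z' h0, by omega⟩
  · change v - mapL I ι (mapL I ε v) = C.D (Y.relab π) (mapL I k v) + mapL I k (C.D (Y.relab π) v)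
    rw [hDY, hDY, e2', map_zero, map_zero, add_zero, map_add, e3', add_zero, e4']
  · have : mapL I ε ∘ₗ mapL I ι = LinearMap.id := LinearMap.ext e1'
    rw [this]
    exact Cat.Ht.refl _

/-- the perturbation lemma for a strict retraction -/
theorem hpl0 {M N : Type} [AddCommGroup M] [AddCommGroup N] [Module R M] [Module R N]
    {d t s u : M →ₗ[R] M} {j : N →ₗ[R] M} {ε : M →ₗ[R] N} {r : N →ₗ[R] N}
    (h1 : ∀ x, ε (s x) = 0) (h2 : ∀ y, d (j y) = 0) (h3 : ∀ y, ε (j y) = y)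
    (h4 : ∀ x, ε (d x) = 0) (h5 : ∀ x, ε (t x) = r (ε x))
    (h6 : ∀ x, d (s x) + s (d x) = x - j (ε x)) (h7 : ∀ x, d (d x) = 0)
    (h8 : ∀ x, (t + d) ((t + d) x) = 0) (u1 : ∀ x, u (x + s (t x)) = x)
    (u2 : ∀ x, u x + s (t (u x)) = x) :
    (∀ x, r (ε x) = ε ((t + d) x)) ∧ (∀ y, (t + d) (u (j y)) = u (j (r y))) ∧
    (∀ y, ε (u (j y)) = y) ∧ (∀ x, ε (u (s (x - u (j (ε x))))) = 0) ∧
    (∀ y, u (s (u (j y) - u (j (ε (u (j y)))))) = 0) ∧
    ∀ x, (t + d) (u (s (x - u (j (ε x))))) + u (s ((t + d) x - u (j (ε ((t + d) x))))) =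
      x - u (j (ε x)) := by
  have a : ∀ x, ε (u x) = ε x := fun x => by
    have := congrArg ε (u2 x)
    rwa [map_add, h1, add_zero] at this
  have f : ∀ x, r (ε x) = ε ((t + d) x) := fun x => by
    rw [LinearMap.add_apply, map_add, h4, h5, add_zero]
  have b : ∀ x, (t + d) x + s (t ((t + d) x)) = d (x + s (t x)) + j (r (ε x)) := fun x => by
    have a8 := h8 x
    have a6 := h6 (t x)
    simp only [LinearMap.add_apply, map_add, h7, add_zero] at a8 ⊢
    have a9 : t (t x) + t (d x) = -d (t x) :=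
      eq_neg_of_add_eq_zero_left ((add_right_comm _ _ _).trans a8)
    rw [← map_add s, a9, map_neg, ← h5, eq_sub_of_add_eq' a6]
    abel
  have c : ∀ x, (t + d) (u x) = u (d x) + u (j (r (ε x))) := fun x => by
    have := congrArg u (b (u x))
    rwa [u1, u2, a, map_add] at this
  have dd : ∀ y, (t + d) (u (j y)) = u (j (r y)) := fun y => by
    rw [c, h2, map_zero, zero_add, h3]
  have e : ∀ x, (t + d) (u (s x)) + u (s ((t + d) x)) = x - u (j (ε x)) := fun x => by
    have := congrArg u (h6 x)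
    rw [map_add, map_sub] at this
    have a1 := u1 x
    rw [map_add] at a1
    rw [c, h1, map_zero, map_zero, map_zero, add_zero, LinearMap.add_apply, map_add, map_add,
      eq_sub_of_add_eq this, eq_sub_of_add_eq' a1]
    abel
  have g : ∀ y, ε (u (j y)) = y := fun y => by rw [a, h3]
  refine ⟨f, dd, g, fun x => by rw [a, h1], fun y => by rw [g, sub_self, map_zero, map_zero],
    fun x => ?_⟩
  have := e (x - u (j (ε x)))
  rw [map_sub (t + d), dd, f, map_sub ε, g, sub_self, map_zero, map_zero, sub_zero] at this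
  exact this

theorem exists_top_down {ι α : Type} {r : ι → ι → Prop} (hr : WellFounded r) (P : ι → α → Prop)
    (Q : ι → ι → α → α → Prop) (h : ∀ y' (K : ∀ y, r y y' → α), (∀ y hy, P y (K y hy)) →
      ∃ a, P y' a ∧ ∀ y hy, Q y y' (K y hy) a) :
    ∃ K : ι → α, (∀ y, P y (K y)) ∧ ∀ y y', r y y' → Q y y' (K y) (K y') := by
  let F : ∀ y', (∀ y, r y y' → {a // P y a}) → {a // P y' a} := fun y' ih =>
    ⟨(h y' (fun y hy => (ih y hy).1) fun y hy => (ih y hy).2).choose,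
      (h y' (fun y hy => (ih y hy).1) fun y hy => (ih y hy).2).choose_spec.1⟩
  refine ⟨fun y => (hr.fix F y).1, fun y => (hr.fix F y).2, fun y y' hy => ?_⟩
  change Q y y' (hr.fix F y).1 (hr.fix F y').1
  rw [hr.fix_eq F y']
  exact (h y' (fun y _ => (hr.fix F y).1) fun y _ => (hr.fix F y).2).choose_spec.2 y hy

/-- the family filtered by a rank -/
def rkF (Rf : O → O → AddSubgroup R) (a b : O × ℕ) : AddSubgroup R where
  carrier := {x | x ∈ Rf a.1 b.1 ∧ (x ≠ 0 → b.2 ≤ a.2)}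
  add_mem' {x y} hx hy := ⟨add_mem hx.1 hy.1, fun h => by
    by_cases h0 : x = 0
    · exact hy.2 fun h1 => h (by rw [h0, h1, add_zero])
    · exact hx.2 h0⟩
  zero_mem' := ⟨zero_mem _, fun h => absurd rfl h⟩
  neg_mem' hx := ⟨neg_mem hx.1, fun h => hx.2 (neg_ne_zero.1 h)⟩

theorem IsBas.rkF {Rf : O → O → AddSubgroup R} (h : IsBas Rf) : IsBas (rkF Rf) where
  one_mem _ := ⟨h.one_mem _, fun _ => le_rfl⟩
  mul_mem ha hb := ⟨h.mul_mem ha.1 hb.1, fun h0 =>
    (hb.2 (right_ne_zero_of_mul h0)).trans (ha.2 (left_ne_zero_of_mul h0))⟩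

theorem IsBas.hom_of_int {Rf : O → O → AddSubgroup R} (h : IsBas Rf) {k : ℤ} {V W : Raw R O}
    {f : Lin V W} (hf : ∀ i i', ∃ n : ℤ, f (single i 1) i' = n ∧
      (n ≠ 0 → V.lab i = W.lab i' ∧ W.deg i' = V.deg i + k)) : (bcat Rf).Hom k V W f := by
  refine bcat_hom.2 fun i i' => ?_
  obtain ⟨n, e, hn⟩ := hf i i'
  rw [e]
  by_cases h0 : n = 0
  · subst h0
    simp
  · refine ⟨?_, fun _ => (hn h0).2⟩
    rw [← (hn h0).1, ← zsmul_one]
    exact zsmul_mem (h.one_mem _) n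

theorem inc_prj_of_supp {α : Type} {q : α → Prop} {v : α →₀ R} (h : ∀ a, v a ≠ 0 → q a) :
    inc (Subtype.val : {a // q a} → α) (prj Subtype.val Subtype.val_injective v) = v :=
  mapDomain_comapDomain _ Subtype.val_injective v fun a ha =>
    ⟨⟨a, h a (mem_support_iff.1 ha)⟩, rfl⟩

theorem inc_injective {α β : Type} {f : α → β} (hf : Function.Injective f) :
    Function.Injective (inc (E := R) f) := mapDomain_injective hf

theorem inc_prj_comp {α β : Type} {p : α → Prop} {q : β → Prop} {F : (α →₀ R) →ₗ[R] (β →₀ R)}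
    (h : ∀ a b, p a → F (single a 1) b ≠ 0 → q b) (v : {a // p a} →₀ R) :
    inc (Subtype.val : {b // q b} → β) (prj Subtype.val Subtype.val_injective
      (F (inc Subtype.val v))) = F (inc Subtype.val v) := by
  refine inc_prj_of_supp fun b hb => ?_
  obtain ⟨a, h1, h2⟩ := lin_ne_zero F hb
  refine h a b ?_ h2
  by_contra hp
  exact h1 (mapDomain_of_notMem_range _ _ fun ⟨a', e⟩ => hp (e ▸ a'.2))

end Pool.Agent.Lib.NIL
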