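import Pool.Agent.Lib.NIL.TH0

/-! The part of the tree resolution outside the finite subtrees. -/

noncomputable section

namespace Pool.Agent.Lib.NIL

open Finsupp TensorProduct

namespace TH2

variable {G X : Type} [Group G] [MulAction G X] {F : Forest G Unit X}

theorem far_smul (g : G) (f : F.Fl) : F.far (g • f) = g • F.far f := by
  obtain ⟨e, b⟩ := f
  cases b
  exacts [F.d0_smul g e.1, F.d1_smul g e.1]

theorem far_v (f : F.Fl) : ¬ F.ed (F.far f) := by
  obtain ⟨e, b⟩ := f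
  cases b
  exacts [F.ed_d0 e.1, F.ed_d1 e.1]

theorem near_v (f : F.Fl) : ¬ F.ed (F.near f) := by
  obtain ⟨e, b⟩ := f
  cases b
  exacts [F.ed_d1 e.1, F.ed_d0 e.1]

variable {fl : {e : X // F.ed e} → F.Fl} {ht : X → ℕ} (hR : F.Root fl ht) {K : Set X}
  (Kc : ∀ s ∈ K, F.d0 s ∈ K ∧ F.d1 s ∈ K ∧ ∀ t, F.s0 s t ≠ 0 → t ∈ K)
include Kc

theorem far_mem (f : F.Fl) (h : f.1.1 ∈ K) : F.far f ∈ K := by
  obtain ⟨e, b⟩ := f
  cases b
  exacts [(Kc _ h).1, (Kc _ h).2.1]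

include hR

theorem far_not_mem {e : {e : X // F.ed e}} (h : e.1 ∉ K) : F.far (fl e) ∉ K :=
  fun h' => h ((Kc _ h').2.2 _ (hR.s0_far e))

theorem fl_smul {g : G} (hg : g⁻¹ • F.b () ∈ K) {e e' : {e : X // F.ed e}} (he' : e'.1 ∉ K)
    (h : g • e'.1 = e.1) : g • fl e' = fl e := by
  have h1 : g⁻¹ • e.1 = e'.1 := by rw [← h, inv_smul_smul]
  have h2 := hR.smul g⁻¹ e (by
    by_contra h0
    exact he' (h1 ▸ (Kc _ hg).2.2 _ h0))
  have h3 : (g⁻¹ • fl e).1 = e' := Subtype.ext (by rw [Forest.Fl.smul_edge, hR.edge, h1])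
  rw [h3] at h2
  rw [h2, smul_inv_smul]

theorem smul_of_far {g : G} (hg : g⁻¹ • F.b () ∈ K) {e e' : {e : X // F.ed e}} (he' : e'.1 ∉ K)
    (h : g • F.far (fl e') = F.far (fl e)) : g • e'.1 = e.1 := by
  have h1 : F.far (g⁻¹ • fl e) = F.far (fl e') := by rw [far_smul, ← h, inv_smul_smul]
  have h2 : (g⁻¹ • fl e).1.1 = g⁻¹ • e.1 := by rw [Forest.Fl.smul_edge, hR.edge]
  by_cases h0 : F.s0 (g⁻¹ • F.b ()) (g⁻¹ • e.1) = 0
  · have h3 := hR.inj _ e' (by rw [hR.smul g⁻¹ e h0, h1])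
    rw [← h3, h2, smul_inv_smul]
  · exact absurd (h1 ▸ far_mem Kc _ (h2 ▸ (Kc _ hg).2.2 _ h0)) (far_not_mem hR Kc he')

end TH2

open TH2 Classical in
theorem th2 {G X E'' Λ'' : Type} [Group G] [MulAction G X] [Ring E''] {F : Forest G Unit X}
    {S'' : Sys (MonoidAlgebra ℤ G) E'' Λ'' F.Fl} {Bm : BM E'' F.Fl (MonoidAlgebra ℤ G) X Bool}
    {ent : Bool → Bool → E'' →+ MonoidAlgebra ℤ G} (hS : St_SIMP) (hT : TPk F S'' Bm ent)
    {fl : {e : X // F.ed e} → F.Fl} {ht : X → ℕ} (hR : F.Root fl ht) (B : Type) [CommRing B]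
    (V : Raw (B ⊗[ℤ] MonoidAlgebra ℤ G) Unit)
    (hV : ((tcat (MonoidAlgebra ℤ G) Unit).bc B).Obj V) (hf : V.Fin1)
    (sg : X → ℤˣ) (sgv : ∀ v, ¬ F.ed v → sg v = 1)
    (sge : ∀ e e', (fl e).2 = (fl e').2 → sg e.1 = sg e'.1)
    (φ : X → X → MonoidAlgebra ℤ G →+ MonoidAlgebra ℤ G)
    (hφ : ∀ s s' g n, φ s s' (MonoidAlgebra.single g n) =
      if g • s' = s then (sg s * sg s') • MonoidAlgebra.single g n else 0)
    (TB : BM (B ⊗[ℤ] MonoidAlgebra ℤ G) Unit (B ⊗[ℤ] MonoidAlgebra ℤ G) X X)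
    (hact : ∀ y y' s s', TB.act (V.δ (single y 1) y') s s' = lT B (φ s s') (V.δ (single y 1) y'))
    (hact0 : ∀ s, TB.act 0 s = 0)
    (hdg : ∀ s, TB.dg s = if F.ed s then -1 else 0) (hlb : ∀ o s, TB.lb o s = s)
    (hΔe : ∀ e, TB.Δ e.1 = single (F.far (fl e)) 1 - single (F.near (fl e)) 1)
    (hΔv : ∀ v, ¬ F.ed v → TB.Δ v = 0)
    (K : V.ι → Set X) (Kb : ∀ y, F.b () ∈ K y)
    (Kc : ∀ y, ∀ s ∈ K y, F.d0 s ∈ K y ∧ F.d1 s ∈ K y ∧ ∀ t, F.s0 s t ≠ 0 → t ∈ K y)
    (Kδ : ∀ y y', V.δ (single y 1) y' ∈ bcF B (sfam fun g : G => ∀ s ∈ K y, g⁻¹ • s ∈ K y'))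
    (hX : ((bcat F.gpos.T).bc B).Obj (V.bm TB)) (hp : (V.bm TB).Closed fun q => q.2 ∈ K q.1) :
    ∃ W : Raw (B ⊗[ℤ] E'') F.Fl, ((V.bm TB).res fun q => ¬ q.2 ∈ K q.1).Rx (W.bm (Bm.bc ent B)) ∧
      ((S''.cat (gfam G F.Fl)).bc B).Obj W ∧ W.WF ∧ W.Bdd := by
  have L := hS.2.2 _ _ _ _ _ _ _ _ _ _ _ _ _ _ _ hT.loc B
  choose! ad had1 had2 using hT.adj
  have hne : ∀ e e', F.near (fl e) = F.far (fl e') → (fl e).1 ≠ (fl e').1 := fun e e' h h' => by
    rw [hR.edge, hR.edge] at h'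
    subst h'
    exact absurd (hR.ht_lt e) (by rw [h]; exact lt_irrefl _)
  -- entries
  have e0 : ∀ s s', ¬ (F.ed s ↔ F.ed s') → ∀ z, lT B (φ s s') z = 0 := fun s s' h z =>
    bc_sfam_induction (P := fun z => lT B (φ s s') z = 0) (mem_bc_sfam_top z)
      (fun g b _ => by
        rw [lT_tmul, hφ, if_neg, tmul_zero]
        rintro rfl
        exact h (F.ed_smul g _)) (map_zero _) fun x y hx hy => by rw [map_add, hx, hy, add_zero]
  have e1 : ∀ y y' (e e' : {e : X // F.ed e}), e'.1 ∉ K y' →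
      lT B (φ (F.far (fl e)) (F.far (fl e'))) (V.δ (single y 1) y') =
        lT B (φ e.1 e'.1) (V.δ (single y 1) y') ∧
      lT B (φ e.1 e'.1) (V.δ (single y 1) y') ∈ bcF B (gfam G F.Fl (fl e) (fl e')) :=
    fun y y' e e' he' => by
    refine bc_sfam_induction (P := fun z => lT B (φ (F.far (fl e)) (F.far (fl e'))) z =
      lT B (φ e.1 e'.1) z ∧ lT B (φ e.1 e'.1) z ∈ bcF B (gfam G F.Fl (fl e) (fl e'))) (Kδ y y')
      (fun g b hg => ?_) (by simp) fun x z hx hz => by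
        rw [map_add, map_add, hx.1, hz.1]
        exact ⟨rfl, add_mem hx.2 hz.2⟩
    rw [lT_tmul, lT_tmul, hφ, hφ]
    by_cases h : g • e'.1 = e.1
    · have h1 := fl_smul hR (Kc y') (hg _ (Kb y)) he' h
      have h2 : sg e.1 * sg e'.1 = 1 := by
        rw [sge e e' (by rw [← h1, Forest.Fl.smul_side]), Int.units_mul_self]
      rw [if_pos h, if_pos (by rw [← far_smul, h1]), sgv _ (far_v _), sgv _ (far_v _), h2, one_mul,
        one_smul]
      exact ⟨rfl, tmul_mem_bcF _ (single_mem_sfam (p := fun g => g • fl e' = fl e) h1 _)⟩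
    · rw [if_neg h, if_neg fun h' => h (smul_of_far hR (Kc y') (hg _ (Kb y)) he' h'), tmul_zero]
      exact ⟨rfl, zero_mem _⟩
  have e2 : ∀ b b' z, lT B (ent b b') (lT B S''.i.toAddMonoidHom z) = if b = b' then z else 0 :=
    fun b b' z => by
    induction z using TensorProduct.induction_on with
    | zero => simp
    | tmul c r =>
      rw [lT_tmul, lT_tmul]
      change c ⊗ₜ ent b b' (S''.i r) = _
      rw [hT.ent_i]
      split_ifs
      exacts [rfl, tmul_zero _ _]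
    | add x y hx hy =>
      rw [map_add, map_add, hx, hy]
      split_ifs
      exacts [rfl, add_zero _]
  have hΔ : ∀ (e e' : {e : X // F.ed e}), TB.Δ e.1 e'.1 = 0 := fun e e' => by
    rw [hΔe, Finsupp.sub_apply, single_eq_of_ne fun h => far_v _ (h ▸ e'.2),
      single_eq_of_ne fun h => near_v _ (h ▸ e'.2), sub_zero]
  -- the object
  let ι : Type := {q : V.ι × {e : X // F.ed e} // q.2.1 ∉ K q.1}
  let jt : ι → V.ι × X := fun q => (q.1.1, q.1.2.1)
  have hjt : Function.Injective jt := fun q q' h =>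
    Subtype.ext (Prod.ext (Prod.ext_iff.1 h).1 (Subtype.ext (Prod.ext_iff.1 h).2))
  let N : ι → ι → B ⊗[ℤ] E'' := fun q q' =>
    if q.1.1 = q'.1.1 ∧ F.near (fl q.1.2) = F.far (fl q'.1.2) then
      -((V.deg q.1.1).negOnePow • (1 : B) ⊗ₜ ad (fl q.1.2) (fl q'.1.2)) else 0
  have hN : ∀ q, (Function.support (N q)).Finite := fun q =>
    Set.Subsingleton.finite fun a ha b hb => by
      have h1 := of_not_not fun h => ha (if_neg h)
      have h2 := of_not_not fun h => hb (if_neg h)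
      exact Subtype.ext (Prod.ext (h1.1.symm.trans h2.1) (hR.inj _ _ (h1.2.symm.trans h2.2)))
  let W : Raw (B ⊗[ℤ] E'') F.Fl := ⟨ι, fun q => V.deg q.1.1, fun q => fl q.1.2,
    lc fun q => mapRange (lT B S''.i.toAddMonoidHom) (map_zero _)
      (prj jt hjt ((V.bm TB).δ (single (jt q) 1))) + ofSupportFinite (N q) (hN q)⟩
  have hW : ∀ q q' : ι, W.δ (single q 1) q' = lT B S''.i.toAddMonoidHom
      (lT B (φ q.1.2.1 q'.1.2.1) (V.δ (single q.1.1 1) q'.1.1)) + N q q' := fun q q' => by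
    change lc _ (single q 1) q' = _
    rw [lc_single, Finsupp.add_apply, mapRange_apply, prj_apply, ofSupportFinite_coe]
    change lT B _ ((V.bm TB).δ (single (q.1.1, q.1.2.1) 1) (q'.1.1, q'.1.2.1)) + _ = _
    rw [bm_δ hact0, hact, hΔ, smul_zero, ite_self, add_zero]
  have lbt : ∀ e, Bm.lb (fl e) true = e.1 := fun e => by rw [hT.lb1, hR.edge]
  have hj : ∀ p : ι × Bool, Bm.lb (fl p.1.1.2) p.2 ∉ K p.1.1.1 := by
    rintro ⟨q, _ | _⟩
    · rw [hT.lb0]
      exact far_not_mem hR (Kc _) q.2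
    · rw [lbt]
      exact q.2
  let j : ι × Bool → {q : V.ι × X // ¬ q.2 ∈ K q.1} := fun p =>
    ⟨(p.1.1.1, Bm.lb (fl p.1.1.2) p.2), hj p⟩
  have hb : Function.Bijective j := by
    constructor
    · rintro ⟨q, b⟩ ⟨q', b'⟩ h
      have h1 : q.1.1 = q'.1.1 := congrArg (fun x => x.1.1) h
      have h2 : Bm.lb (fl q.1.2) b = Bm.lb (fl q'.1.2) b' := congrArg (fun x => x.1.2) h
      cases b <;> cases b' <;> simp only [lbt, hT.lb0] at h2
      · exact Prod.ext (Subtype.ext (Prod.ext h1 (hR.inj _ _ h2))) rfl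
      · exact absurd (h2 ▸ q'.1.2.2) (far_v _)
      · exact absurd (h2 ▸ q.1.2.2) (far_v _)
      · exact Prod.ext (Subtype.ext (Prod.ext h1 (Subtype.ext h2))) rfl
    · rintro ⟨⟨y, s⟩, hs⟩
      by_cases he : F.ed s
      · exact ⟨(⟨(y, ⟨s, he⟩), hs⟩, true), Subtype.ext (Prod.ext rfl (lbt _))⟩
      · obtain ⟨e, rfl⟩ := hR.surj s he fun h => hs (h ▸ Kb y)
        exact ⟨(⟨(y, e), fun h => hs (far_mem (Kc y) _ (by rw [hR.edge]; exact h))⟩, false),
          Subtype.ext (Prod.ext rfl (hT.lb0 _))⟩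
  have rx : (W.bm (Bm.bc ent B)).Rx ((V.bm TB).res fun q => ¬ q.2 ∈ K q.1) := by
    refine ⟨Equiv.ofBijective j hb, ?_, fun p => hlb _ _, ?_⟩
    · rintro ⟨q, b⟩
      change V.deg q.1.1 + TB.dg (Bm.lb (fl q.1.2) b) = V.deg q.1.1 + Bm.dg b
      cases b
      · rw [hT.lb0, hdg, if_neg (far_v _), hT.loc.dg0]
      · rw [lbt, hdg, if_pos q.1.2.2, hT.loc.dg1]
    · rintro ⟨q, b⟩ ⟨q', b'⟩
      rw [Raw.res_δ, bm_δ L.bm.act_zero, L.act, hW, map_add, e2]
      change (V.bm TB).δ (single (q.1.1, Bm.lb (fl q.1.2) b) 1) (q'.1.1, Bm.lb (fl q'.1.2) b') = _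
      have eN : lT B (ent b b') (N q q') = if b = true ∧ b' = false then
          (if q.1.1 = q'.1.1 ∧ F.near (fl q.1.2) = F.far (fl q'.1.2) then
            -((V.deg q.1.1).negOnePow • 1) else 0) else 0 := by
        by_cases h : q.1.1 = q'.1.1 ∧ F.near (fl q.1.2) = F.far (fl q'.1.2)
        · simp only [N, if_pos h, map_neg, Units.smul_def, map_zsmul, lT_tmul,
            had2 _ _ h.2 (hne _ _ h.2)]
          split_ifs
          · rfl
          · rw [tmul_zero, smul_zero, neg_zero]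
        · simp only [N, if_neg h, map_zero, ite_self]
      rw [bm_δ hact0, hact, eN]
      cases b <;> cases b' <;> simp only [lbt, hT.lb0, L.Δ0, L.Δ1]
      · simp [(e1 _ _ _ _ q'.2).1, hΔv _ (far_v _)]
      · simp [e0 _ _ fun h => far_v _ (h.2 q'.1.2.2), hΔv _ (far_v _)]
      · rw [e0 _ _ fun h => far_v _ (h.1 q.1.2.2), hΔe, Finsupp.sub_apply, single_apply,
          single_apply, if_neg (show ¬ true = false from Bool.noConfusion),
          if_pos (show True ∧ True from ⟨trivial, trivial⟩), single_eq_same, zero_add, zero_add]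
        have hq : q = q' ↔ q.1.1 = q'.1.1 ∧ F.far (fl q.1.2) = F.far (fl q'.1.2) :=
          ⟨fun h => h ▸ ⟨rfl, rfl⟩, fun h => Subtype.ext (Prod.ext h.1 (hR.inj _ _ h.2))⟩
        change _ = _ + if q = q' then (V.deg q.1.1).negOnePow • _ else 0
        simp only [hq]
        by_cases h1 : q.1.1 = q'.1.1
        · simp only [h1, true_and, if_true, smul_sub]
          split_ifs <;> simp
        · simp [h1]
      · simp [hΔ]
  refine ⟨W, rx.symm, ?_, ?_, ?_⟩
  · refine L.bm.obj_of L.aug.good L.tgood (fun n o o' a ha h0 => ?_) (fun q q' => ?_)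
      (Cat.obj_rx rx.symm (L.tgood.ses_res hX hp).2.2.1).2
    · obtain ⟨ψ, hψ⟩ := L.faith n o o'
      rw [hψ a ha]
      refine Finset.sum_eq_zero fun b _ => Finset.sum_eq_zero fun b' _ => ?_
      rw [← L.act, h0, Finsupp.zero_apply, map_zero]
    · rw [hW]
      refine add_mem ?_ ?_
      · refine L.aug.hI.mem ?_
        rw [bcat_bc]
        refine mem_bcat.2 ⟨(e1 _ _ _ _ q'.2).2, fun h => ?_⟩
        have := hV.1 q.1.1 q'.1.1
        rw [tcat_bc] at this
        exact (mem_bcat.1 this).2 fun h0 => h (by rw [h0, map_zero])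
      · by_cases h : q.1.1 = q'.1.1 ∧ F.near (fl q.1.2) = F.far (fl q'.1.2)
        · have e : W.deg q + 1 - W.deg q' = 1 := by
            change V.deg q.1.1 + 1 - V.deg q'.1.1 = 1
            rw [h.1]; ring
          rw [e]
          simp only [N, if_pos h, Units.smul_def]
          exact neg_mem (zsmul_mem (tmul_mem_bcF _ (had1 _ _ h.2 (hne _ _ h.2))) _)
        · simp only [N, if_neg h]
          exact zero_mem _
  · refine Subrelation.wf (r := InvImage (Prod.Lex (fun y' y => V.δ (single y 1) y' ≠ 0) (· < ·))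
      fun q : ι => (q.1.1, ht (F.far (fl q.1.2)))) (fun {q' q} h => ?_)
      (InvImage.wf _ (WellFounded.prod_lex hf.2 wellFounded_lt))
    by_cases h0 : V.δ (single q.1.1 1) q'.1.1 = 0
    · rw [hW, h0, map_zero, map_zero, zero_add] at h
      have h1 := of_not_not fun h' => h (if_neg h')
      change Prod.Lex _ _ (q'.1.1, _) (q.1.1, _)
      rw [← h1.1, ← h1.2]
      exact Prod.Lex.right _ (hR.ht_lt _)
    · exact Prod.Lex.left _ _ h0
  · obtain ⟨c, hc⟩ := Raw.bdd_of_finite hf.1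
    exact ⟨c, fun q => hc _⟩

theorem st_th2 (hSIMP : St_SIMP) : St_TH2 := by
  classical
  intro G X E'' Λ'' _ _ _ F S'' Bm ent hT fl ht hR B _ V K hV hf hK
  refine th2 hSIMP hT hR B V hV hf (F.sg fl) (fun _ => Forest.sg_v)
    (fun e e' h => by rw [Forest.sg_e, Forest.sg_e, h])
    (fun s s' => (F.sg fl s * F.sg fl s') • flt G s s') (fun s s' g n => ?_) (F.TB fl B)
    (fun y y' s s' => ?_) Forest.TB_act_zero (fun _ => rfl) (fun _ _ => rfl) (Forest.TB_Δ_e hR)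
    (fun _ => Forest.TB_Δ_v) K hK.b (fun y s hs => ⟨hK.d0 y s hs, hK.d1 y s hs, hK.s0 y s hs⟩)
    hK.mem (Forest.TB_obj hV) hK.closed
  · rw [AddMonoidHom.smul_apply, flt_single, smul_ite, smul_zero]
  · rw [Forest.TB_act]
    induction V.δ (single y 1) y' using TensorProduct.induction_on with
    | zero => simp
    | tmul b r => rw [lT_tmul, lT_tmul, AddMonoidHom.smul_apply, Units.smul_def, Units.smul_def,
        tmul_smul]
    | add x z hx hz => rw [map_add, map_add, smul_add, hx, hz]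

end Pool.Agent.Lib.NIL
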