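import Pool.Agent.Lib.MP_63c928_gt.WH.K1

set_option autoImplicit false

/-! Whitehead torsion of finite based contractible complexes, graded modulo two. -/

namespace Pool.Agent.Lib.NIL

open Matrix Pool.Agent.WhDet

universe u v

/-- `d` is an odd differential for the parity idempotent `p`, with an odd contraction `h` of
square zero -/
structure Con {M : Type*} [Ring M] (p d h : M) : Prop where
  pp : p * p = p
  pd : p * d = d * (1 - p)
  ph : p * h = h * (1 - p)
  dd : d * d = 0
  dh : d * h + h * d = 1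
  hh : h * h = 0

namespace Con

variable {M : Type*} [Ring M] {p d h : M}

/-- any odd contraction can be normalised -/
theorem norm (pp : p * p = p) (pd : p * d = d * (1 - p)) (ph : p * h = h * (1 - p))
    (dd : d * d = 0) (dh : d * h + h * d = 1) : Con p d (h * d * h) := by
  have e1 : h * d = 1 - d * h := eq_sub_of_add_eq' dh
  have e2 : d * h = 1 - h * d := eq_sub_of_add_eq dh
  have e3 : d * h * d = d := by rw [mul_assoc, e1, mul_sub, ← mul_assoc, dd, zero_mul]; simp
  have e4 : d * (h * h) = h * h * d := by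
    calc d * (h * h) = (d * h + h * d) * h - h * (d * h + h * d) + h * h * d := by noncomm_ring
      _ = _ := by rw [dh]; simp
  refine ⟨pp, pd, ?_, dd, ?_, ?_⟩
  · have e5 : (1 - p) * d = d * p := by rw [sub_mul, pd]; noncomm_ring
    rw [← mul_assoc, ← mul_assoc, ph, mul_assoc h, e5, mul_assoc, mul_assoc, ph]
    simp only [mul_assoc]
  · calc d * (h * d * h) + h * d * h * d = d * h * d * h + h * (d * h * d) := by noncomm_ring
      _ = 1 := by rw [e3, dh]
  · calc h * d * h * (h * d * h) = h * (d * (h * h) * d) * h := by noncomm_ring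
      _ = 0 := by rw [e4, mul_assoc (h * h), dd]; simp

variable (c : Con p d h)
include c

theorem sq : (d + h) * (d + h) = 1 := by
  rw [← c.dh, add_mul, mul_add, mul_add, c.dd, c.hh]; simp

theorem odd : p * (d + h) = (d + h) * (1 - p) := by rw [mul_add, add_mul, c.pd, c.ph]

theorem compl : Con (1 - p) d h := by
  refine ⟨?_, ?_, ?_, c.dd, c.dh, c.hh⟩
  · rw [mul_sub, sub_mul, sub_mul, c.pp]; simp
  · rw [sub_mul, c.pd]; noncomm_ring
  · rw [sub_mul, c.ph]; noncomm_ring

theorem odd' : (1 - p) * (d + h) = (d + h) * p := by simpa using c.compl.odd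

theorem map {M' : Type*} [Ring M'] (f : M →+* M') : Con (f p) (f d) (f h) :=
  ⟨by rw [← map_mul, c.pp], by simpa using congrArg f c.pd, by simpa using congrArg f c.ph,
    by rw [← map_mul, c.dd, map_zero], by simpa using congrArg f c.dh,
    by rw [← map_mul, c.hh, map_zero]⟩

theorem neg : Con p (-d) (-h) :=
  ⟨c.pp, by rw [mul_neg, c.pd, neg_mul], by rw [mul_neg, c.ph, neg_mul], by simp [c.dd],
    by simp [c.dh], by simp [c.hh]⟩

/-- change of basis by an even unit -/
theorem conj {g g' : M} (h1 : g' * g = 1) (h2 : g * g' = 1) (hg : p * g = g * p) :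
    Con p (g * d * g') (g * h * g') := by
  have hg' : p * g' = g' * p := by
    rw [← one_mul (p * g'), ← h1, mul_assoc g', ← mul_assoc g, ← hg, mul_assoc p, h2, mul_one]
  have key : ∀ a b : M, g * a * g' * (g * b * g') = g * (a * b) * g' := fun a b => by
    calc _ = g * a * (g' * g) * b * g' := by noncomm_ring
      _ = _ := by rw [h1]; noncomm_ring
  have od : ∀ a : M, p * a = a * (1 - p) → p * (g * a * g') = g * a * g' * (1 - p) := by
    intro a ha
    rw [← mul_assoc, ← mul_assoc, hg, mul_assoc g, ha, mul_assoc _ g', mul_sub g', ← hg']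
    noncomm_ring
  exact ⟨c.pp, od _ c.pd, od _ c.ph, by rw [key, c.dd]; simp,
    by rw [key, key, ← add_mul, ← mul_add, c.dh, mul_one, h2], by rw [key, c.hh]; simp⟩

theorem even {d' h' : M} (c' : Con p d' h') :
    p * ((d + h) * (d' + h')) = (d + h) * (d' + h') * p := by
  rw [← mul_assoc, c.odd, mul_assoc, c'.odd', mul_assoc]

theorem isUnit : IsUnit (d + h) := ⟨⟨_, _, c.sq, c.sq⟩, rfl⟩

end Con

variable {S : Type u} [Ring S] {ι κ : Type*} [Fintype ι] [DecidableEq ι] [Fintype κ]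
  [DecidableEq κ]

/-- the class of `g` on the image of the idempotent `p` -/
noncomputable def ecl (p g : Matrix ι ι S) : K1 S := cl (p * g + (1 - p))

section ecl

variable {p g g' : Matrix ι ι S}

theorem ecl_one (p : Matrix ι ι S) : ecl p 1 = 0 := by rw [ecl, mul_one, add_sub_cancel, cl_one]

theorem ecl_aux (pp : p * p = p) (hg : p * g = g * p) :
    (p * g + (1 - p)) * (p * g' + (1 - p)) = p * (g * g') + (1 - p) := by
  have e : g * p = p * g := hg.symm
  calc _ = p * (g * p) * g' + (p * g - p * (g * p)) + (p * g' - p * p * g') + (1 - p - p + p * p) := by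
        noncomm_ring
    _ = _ := by rw [e, ← mul_assoc, pp]; noncomm_ring

theorem isUnit_ecl (pp : p * p = p) (hg : p * g = g * p) (hu : IsUnit g) :
    IsUnit (p * g + (1 - p)) := by
  obtain ⟨u, rfl⟩ := hu
  have h' : p * u⁻¹.val = u⁻¹.val * p := by
    rw [Units.eq_inv_mul_iff_mul_eq, ← mul_assoc, ← hg, mul_assoc, Units.mul_inv, mul_one]
  exact ⟨⟨_, p * u⁻¹.val + (1 - p), by rw [ecl_aux pp hg]; simp, by rw [ecl_aux pp h']; simp⟩, rfl⟩

theorem ecl_mul (pp : p * p = p) (hg : p * g = g * p) (hg' : p * g' = g' * p) (hu : IsUnit g)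
    (hu' : IsUnit g') : ecl p (g * g') = ecl p g + ecl p g' := by
  rw [ecl, ← ecl_aux pp hg, cl_mul (isUnit_ecl pp hg hu) (isUnit_ecl pp hg' hu'), ecl, ecl]

theorem cl_conj {T T' : Matrix ι ι S} (h1 : T' * T = 1) (h2 : T * T' = 1) (A : Matrix ι ι S) :
    cl (T * A * T') = cl A := by
  have hT : IsUnit T := ⟨⟨_, _, h2, h1⟩, rfl⟩
  have hT' : IsUnit T' := ⟨⟨_, _, h1, h2⟩, rfl⟩
  by_cases hA : IsUnit A
  · rw [cl_mul (hT.mul hA) hT', cl_mul hT hA, add_right_comm, ← cl_mul hT hT', h2, cl_one, zero_add]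
  · rw [cl_of_not hA, cl_of_not]
    rwa [isUnit_mul_iff_left hT', isUnit_mul_iff_right hT]

theorem ecl_odd {T : Matrix ι ι S} (hT : T * T = 1) (ho : p * T = T * (1 - p)) (g : Matrix ι ι S) :
    ecl p (T * g * T) = ecl (1 - p) g := by
  rw [ecl, ecl, ← cl_conj hT hT ((1 - p) * g + _)]
  congr 1
  have e : T * p * T = 1 - p := by
    rw [mul_assoc, ho, ← mul_assoc, hT, one_mul]
  rw [mul_add, add_mul, sub_sub_cancel, e, ← mul_assoc, ← mul_assoc, ← mul_assoc, ho]

theorem ecl_total (pp : p * p = p) (hg : p * g = g * p) (hu : IsUnit g) :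
    ecl p g + ecl (1 - p) g = cl g := by
  have qq : (1 - p) * (1 - p) = 1 - p := by rw [mul_sub, sub_mul, sub_mul, pp]; simp
  have hq : (1 - p) * g = g * (1 - p) := by rw [sub_mul, mul_sub, hg]; simp
  rw [ecl, ecl, ← cl_mul (isUnit_ecl pp hg hu) (isUnit_ecl qq hq hu)]
  congr 1
  have e : g * p = p * g := hg.symm
  calc _ = (p * g - p * (g * p)) * g + p * (g * p) + (1 - p - p + p * p) * g + (p - p * p) := by
        noncomm_ring
    _ = _ := by rw [e, ← mul_assoc, pp]; noncomm_ring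

theorem ecl_inv (pp : p * p = p) (hg : p * g = g * p) (h1 : g' * g = 1) (h2 : g * g' = 1) :
    ecl p g' = -ecl p g := by
  have hg' : p * g' = g' * p := by
    rw [← one_mul (p * g'), ← h1, mul_assoc g', ← mul_assoc g, ← hg, mul_assoc p, h2, mul_one]
  rw [eq_neg_iff_add_eq_zero, ← ecl_mul pp hg' hg ⟨⟨_, _, h1, h2⟩, rfl⟩ ⟨⟨_, _, h2, h1⟩, rfl⟩, h1,
    ecl_one]

theorem ecl_map {S' : Type v} [Ring S'] (φ : S →+* S') (pp : p * p = p) (hg : p * g = g * p)
    (hu : IsUnit g) : ecl (p.map φ) (g.map φ) = K1.map φ (ecl p g) := by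
  rw [ecl, ecl, cl_map φ (isUnit_ecl pp hg hu)]
  congr 1
  change _ = φ.mapMatrix _
  simp only [map_add, map_mul, map_sub, map_one]
  rfl

theorem ecl_reindex (e : ι ≃ κ) (p g : Matrix ι ι S) :
    ecl (reindex e e p) (reindex e e g) = ecl p g := by
  rw [ecl, ecl, ← cl_reindex e]
  congr 1
  change _ = reindexRingEquiv S e _
  simp only [map_add, map_mul, map_sub, map_one]
  rfl

theorem ecl_diag {q k : Matrix κ κ S} (pp : p * p = p) (hg : p * g = g * p) (hu : IsUnit g)
    (qq : q * q = q) (hk : q * k = k * q) (hv : IsUnit k) :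
    ecl (fromBlocks p 0 0 q) (fromBlocks g 0 0 k) = ecl p g + ecl q k := by
  rw [ecl, ecl, ecl, ← cl_diag (isUnit_ecl pp hg hu) (isUnit_ecl qq hk hv)]
  congr 1
  rw [← fromBlocks_one, sub_eq_add_neg, fromBlocks_neg, fromBlocks_multiply, fromBlocks_add,
    fromBlocks_add]
  simp [sub_eq_add_neg]

/-- a unipotent matrix that is triangular for an even idempotent -/
theorem ecl_unip {e n : Matrix ι ι S} (he : p * e = e * p) (h1 : n * e = 0) (h2 : e * n = n) :
    ecl p (1 + n) = 0 := by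
  rw [ecl, ← cl_elem (v := p * n) (w := 1 - e)]
  · congr 1
    rw [mul_assoc, mul_sub n, h1]
    noncomm_ring
  · rw [sub_mul, ← mul_assoc e, ← he, mul_assoc, h2]
    simp

end ecl

/-- the difference of the torsions of two contractible complexes on the same basis -/
noncomputable def rel (p d h d' h' : Matrix ι ι S) : K1 S := ecl p ((d + h) * (d' + h'))

section rel

variable {p d h d' h' d'' h'' : Matrix ι ι S}

theorem rel_self (c : Con p d h) : rel p d h d h = 0 := by rw [rel, c.sq, ecl_one]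

theorem rel_trans (c : Con p d h) (c' : Con p d' h') (c'' : Con p d'' h'') :
    rel p d h d' h' + rel p d' h' d'' h'' = rel p d h d'' h'' := by
  rw [rel, rel, rel, ← ecl_mul c.pp (c.even c') (c'.even c'') (c.isUnit.mul c'.isUnit)
    (c'.isUnit.mul c''.isUnit), mul_assoc, ← mul_assoc (d' + h'), c'.sq, one_mul]

theorem rel_symm (c : Con p d h) (c' : Con p d' h') : rel p d' h' d h = -rel p d h d' h' := by
  rw [eq_neg_iff_add_eq_zero, rel_trans c' c c', rel_self c']

theorem rel_compl (c : Con p d h) (c' : Con p d' h') :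
    rel (1 - p) d h d' h' = -rel p d h d' h' := by
  rw [← rel_symm c c', rel, rel, ← ecl_odd c.sq c.odd, ← mul_assoc, c.sq, one_mul]

/-- change of basis -/
theorem rel_conj (c : Con p d h) {g g' : Matrix ι ι S} (h1 : g' * g = 1) (h2 : g * g' = 1)
    (hg : p * g = g * p) :
    rel p (g * d * g') (g * h * g') d h = ecl p g - ecl (1 - p) g := by
  have hg' : p * g' = g' * p := by
    rw [← one_mul (p * g'), ← h1, mul_assoc g', ← mul_assoc g, ← hg, mul_assoc p, h2, mul_one]
  have u : IsUnit g := ⟨⟨_, _, h2, h1⟩, rfl⟩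
  have u' : IsUnit g' := ⟨⟨_, _, h1, h2⟩, rfl⟩
  have hq : (1 - p) * g = g * (1 - p) := by rw [sub_mul, mul_sub, hg]; simp
  have e : p * ((d + h) * g' * (d + h)) = (d + h) * g' * (d + h) * p := by
    rw [← mul_assoc, ← mul_assoc, c.odd, mul_assoc _ _ g', sub_mul, hg', mul_assoc _ _ p, ← c.odd']
    noncomm_ring
  rw [rel, ← add_mul, ← mul_add, mul_assoc g, mul_assoc g,
    ecl_mul c.pp hg e u ((c.isUnit.mul u').mul c.isUnit), ecl_odd c.sq c.odd,
    ecl_inv c.compl.pp hq h1 h2, ← sub_eq_add_neg]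

/-- independence of the contraction -/
theorem rel_indep (c : Con p d h) (c' : Con p d h') : rel p d h' d h = 0 := by
  have e1 : h * d = 1 - d * h := eq_sub_of_add_eq' c.dh
  have e1' : h' * d = 1 - d * h' := eq_sub_of_add_eq' c'.dh
  have e2 : d * (h' - h) = -((h' - h) * d) := by rw [sub_mul, e1, e1']; noncomm_ring
  have e3 : d * ((h' - h) * d) = 0 := by rw [← mul_assoc, e2, neg_mul, mul_assoc, c.dd]; simp
  have n2 : (h' - h) * d * ((h' - h) * d) = 0 := by rw [mul_assoc, e3, mul_zero]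
  have n1 : (h' - h) * d * (d * h) = 0 := by rw [mul_assoc, ← mul_assoc d, c.dd]; simp
  have n3 : d * h * ((h' - h) * d) = (h' - h) * d := by
    rw [eq_sub_of_add_eq c.dh, sub_mul 1, mul_assoc, e3]; simp
  have h1 : (1 - (h' - h) * d) * (1 + (h' - h) * d) = 1 := by
    rw [sub_mul, mul_add, mul_add, n2]; simp
  have h2 : (1 + (h' - h) * d) * (1 - (h' - h) * d) = 1 := by
    rw [add_mul, mul_sub, mul_sub _ 1, n2]; simp
  have ev : ∀ {q : Matrix ι ι S}, Con q d h → q * (d * h) = d * h * q := fun k => by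
    rw [← mul_assoc, k.pd, mul_assoc, k.compl.ph, mul_assoc, sub_sub_cancel]
  have hg : p * (1 + (h' - h) * d) = (1 + (h' - h) * d) * p := by
    rw [mul_add, add_mul, ← mul_assoc, mul_sub p, c.ph, c'.ph, ← sub_mul, mul_assoc, c.compl.pd,
      sub_sub_cancel, mul_assoc, mul_one, one_mul]
  have k := rel_conj c h1 h2 hg
  rw [ecl_unip (ev c) n1 n3, ecl_unip (ev c.compl) n1 n3, sub_zero] at k
  have a1 : (1 + (h' - h) * d) * d * (1 - (h' - h) * d) = d := by
    rw [add_mul, mul_assoc _ d d, c.dd, mul_zero, add_zero, one_mul, mul_sub, e3]; simp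
  have a2 : (1 + (h' - h) * d) * h * (1 - (h' - h) * d) = h' := by
    have a3 : (1 + (h' - h) * d) * h = h' * (1 + (h' - h) * d) := by
      have a4 : h * d * h = h := by rw [mul_assoc, eq_sub_of_add_eq c.dh, mul_sub, ← mul_assoc, c.hh]; simp
      calc _ = h + h' * d * h - h * d * h := by noncomm_ring
        _ = h' * (d * h + h * d) + h' * h' * d - h' * h * d := by rw [a4, c'.hh]; noncomm_ring
        _ = _ := by rw [c.dh]; noncomm_ring
    rw [a3, mul_assoc, h2, mul_one]
  rwa [a1, a2] at k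

/-- a chain automorphism of a contractible complex has the same class in even and odd degrees -/
theorem ecl_auto (c : Con p d h) {u : Matrix ι ι S} (hu : IsUnit u) (hp : p * u = u * p)
    (hd : u * d = d * u) : ecl p u = ecl (1 - p) u := by
  obtain ⟨u, rfl⟩ := hu
  have c' := c.conj u.inv_mul u.mul_inv hp
  have k := rel_conj c u.inv_mul u.mul_inv hp
  rw [hd, mul_assoc d, u.mul_inv, mul_one] at c' k
  rw [rel_indep c c'] at k
  exact (sub_eq_zero.1 k.symm)

theorem rel_reindex (e : ι ≃ κ) (p d h d' h' : Matrix ι ι S) :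
    rel (reindex e e p) (reindex e e d) (reindex e e h) (reindex e e d') (reindex e e h') =
      rel p d h d' h' := by
  rw [rel, rel, ← ecl_reindex e]
  congr 1
  change _ = reindexRingEquiv S e _
  simp only [map_add, map_mul]
  rfl

theorem rel_map {S' : Type v} [Ring S'] (φ : S →+* S') (c : Con p d h) (c' : Con p d' h') :
    rel (p.map φ) (d.map φ) (h.map φ) (d'.map φ) (h'.map φ) = K1.map φ (rel p d h d' h') := by
  rw [rel, rel, ← ecl_map φ c.pp (c.even c') (c.isUnit.mul c'.isUnit)]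
  congr 1
  change _ = φ.mapMatrix _
  simp only [map_add, map_mul]
  rfl

variable {q a k a' k' : Matrix κ κ S}

theorem Con.diag (c : Con p d h) (b : Con q a k) :
    Con (fromBlocks p 0 0 q) (fromBlocks d 0 0 a) (fromBlocks h 0 0 k) := by
  have e : (1 : Matrix (ι ⊕ κ) (ι ⊕ κ) S) - fromBlocks p 0 0 q = fromBlocks (1 - p) 0 0 (1 - q) := by
    rw [← fromBlocks_one, sub_eq_add_neg, fromBlocks_neg, fromBlocks_add]
    simp [sub_eq_add_neg]
  refine ⟨?_, ?_, ?_, ?_, ?_, ?_⟩
  · simp [fromBlocks_multiply, c.pp, b.pp]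
  · simp [e, fromBlocks_multiply, c.pd, b.pd]
  · simp [e, fromBlocks_multiply, c.ph, b.ph]
  · simp [fromBlocks_multiply, c.dd, b.dd]
  · simp [fromBlocks_multiply, fromBlocks_add, c.dh, b.dh]
  · simp [fromBlocks_multiply, c.hh, b.hh]

theorem rel_diag (c : Con p d h) (c' : Con p d' h') (b : Con q a k) (b' : Con q a' k') :
    rel (fromBlocks p 0 0 q) (fromBlocks d 0 0 a) (fromBlocks h 0 0 k) (fromBlocks d' 0 0 a')
      (fromBlocks h' 0 0 k') = rel p d h d' h' + rel q a k a' k' := by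
  rw [rel, rel, rel, ← ecl_diag c.pp (c.even c') (c.isUnit.mul c'.isUnit) b.pp (b.even b')
    (b.isUnit.mul b'.isUnit)]
  congr 1
  simp [fromBlocks_multiply, fromBlocks_add]

end rel

/-- strictly triangular matrices -/
theorem cl_tri (ρ : ι → ℕ) {n : Matrix ι ι S} (hn : ∀ i j, n i j ≠ 0 → ρ j < ρ i) :
    IsUnit (1 + n) ∧ cl (1 + n) = 0 := by
  suffices H : ∀ (k : ℕ) (n : Matrix ι ι S), (∀ i j, n i j ≠ 0 → ρ j < ρ i ∧ ρ i < k) →
      IsUnit (1 + n) ∧ cl (1 + n) = 0 from
    H (Finset.univ.sup ρ + 1) n fun i j h => ⟨hn i j h, Nat.lt_succ_of_le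
      (Finset.le_sup (f := ρ) (Finset.mem_univ i))⟩
  intro k
  induction k with
  | zero =>
    intro n hn
    obtain rfl : n = 0 := by
      ext i j
      by_contra h
      exact absurd (hn i j h).2 (Nat.not_lt_zero _)
    rw [add_zero]
    exact ⟨isUnit_one, cl_one⟩
  | succ k ih =>
    intro n hn
    let e : Matrix ι ι S := diagonal fun i => if ρ i = k then 1 else 0
    have h1 : n * e = 0 := by
      ext i j
      rw [mul_diagonal, Matrix.zero_apply]
      split_ifs with h
      · by_contra h2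
        have := hn i j (by simpa using h2)
        omega
      · exact mul_zero _
    have h2 := ih (n - e * n) fun i j h => by
      rw [Matrix.sub_apply, diagonal_mul] at h
      split_ifs at h with h3
      · simp at h
      · have := hn i j (by simpa using h)
        omega
    have h3 : 1 + n = (1 + (n - e * n)) * (1 + e * n) := by
      calc 1 + n = 1 + n + (1 - e) * (n * e) * n := by rw [h1]; simp
        _ = _ := by noncomm_ring
    rw [h3, cl_mul h2.1 (isUnit_elem h1), h2.2, cl_elem h1, add_zero]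
    exact ⟨h2.1.mul (isUnit_elem h1), rfl⟩

/-- the complex is contractible -/
def Ctr {M : Type*} [Ring M] (p d : M) : Prop := ∃ h, Con p d h

theorem Ctr.of {M : Type*} [Ring M] {p d h : M} (pp : p * p = p) (pd : p * d = d * (1 - p))
    (ph : p * h = h * (1 - p)) (dd : d * d = 0) (dh : d * h + h * d = 1) : Ctr p d :=
  ⟨_, Con.norm pp pd ph dd dh⟩

/-- a contraction need not be odd -/
theorem Ctr.of' {M : Type*} [Ring M] {p d h : M} (pp : p * p = p) (pd : p * d = d * (1 - p))
    (dd : d * d = 0) (dh : d * h + h * d = 1) : Ctr p d := by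
  have dp : d * p = (1 - p) * d := by rw [sub_mul, pd]; noncomm_ring
  have p0 : p * (1 - p) = 0 := by rw [mul_sub, pp]; simp
  have p1 : (1 - p) * p = 0 := by rw [sub_mul, pp]; simp
  have qq : (1 - p) * (1 - p) = 1 - p := by rw [mul_sub, p1]; simp
  refine Ctr.of (h := p * h * (1 - p) + (1 - p) * h * p) pp pd ?_ dd ?_
  · simp only [mul_add, add_mul, ← mul_assoc, pp, p0, zero_mul]
    simp only [mul_assoc, qq, p0, mul_zero]
  · calc _ = (d * p) * h * (1 - p) + (d * (1 - p)) * h * p + (p * h * ((1 - p) * d) +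
          (1 - p) * h * (p * d)) := by noncomm_ring
      _ = (1 - p) * (d * h + h * d) * (1 - p) + p * (d * h + h * d) * p := by
          rw [← dp, pd, ← pd, dp]
          nth_rewrite 2 [pd]
          nth_rewrite 2 [← dp]
          noncomm_ring
      _ = 1 := by rw [dh, mul_one, mul_one, qq, pp, sub_add_cancel]

open Classical in
/-- the torsion of `d` minus the torsion of its image under the ring endomorphism `ψ` -/
noncomputable def tau (ψ : S →+* S) (p d : Matrix ι ι S) : K1 S :=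
  if H : Ctr p d then rel p d H.choose (d.map ψ) (H.choose.map ψ) else 0

section tau

variable {ψ : S →+* S} {p d h : Matrix ι ι S} {q a : Matrix κ κ S}

theorem Con.psi (c : Con p d h) (hp : p.map ψ = p) : Con p (d.map ψ) (h.map ψ) := by
  have := c.map ψ.mapMatrix
  rwa [RingHom.mapMatrix_apply, hp] at this

theorem tau_eq (c : Con p d h) (hp : p.map ψ = p) :
    tau ψ p d = rel p d h (d.map ψ) (h.map ψ) := by
  have H : Ctr p d := ⟨h, c⟩
  have c' := H.choose_spec
  rw [tau, dif_pos H, ← rel_trans c' c (c'.psi hp), ← rel_trans c (c.psi hp) (c'.psi hp),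
    rel_indep c c', rel_indep (c'.psi hp) (c.psi hp), zero_add, add_zero]

theorem tau_fix (hp : p.map ψ = p) (hd : d.map ψ = d) : tau ψ p d = 0 := by
  by_cases H : Ctr p d
  · obtain ⟨h, c⟩ := H
    have c' := c.psi hp
    rw [tau_eq c hp]
    rw [hd] at c' ⊢
    exact rel_indep c' c
  · exact dif_neg H

theorem tau_compl (c : Ctr p d) (hp : p.map ψ = p) : tau ψ (1 - p) d = -tau ψ p d := by
  obtain ⟨h, c⟩ := c
  have hq : (1 - p).map ψ = 1 - p := by
    change ψ.mapMatrix _ = _
    rw [map_sub, map_one, RingHom.mapMatrix_apply, hp]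
  rw [tau_eq c hp, tau_eq c.compl hq, rel_compl c (c.psi hp)]

theorem tau_neg (c : Ctr p d) (hp : p.map ψ = p) : tau ψ p (-d) = tau ψ p d := by
  obtain ⟨h, c⟩ := c
  have e : ∀ x : Matrix ι ι S, (-x).map ψ = -x.map ψ := fun x => map_neg ψ.mapMatrix x
  rw [tau_eq c hp, tau_eq c.neg hp, rel, rel, e, e, ← neg_add, ← neg_add, neg_mul_neg]

/-- change of basis -/
theorem tau_conj (c : Ctr p d) (hp : p.map ψ = p) {g g' : Matrix ι ι S} (h1 : g' * g = 1)
    (h2 : g * g' = 1) (hg : p * g = g * p) : tau ψ p (g * d * g') =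
      tau ψ p d + (ecl p g - ecl (1 - p) g) - K1.map ψ (ecl p g - ecl (1 - p) g) := by
  obtain ⟨h, c⟩ := c
  have c' := c.conj h1 h2 hg
  have k := rel_map ψ c' c
  rw [hp, rel_conj c h1 h2 hg] at k
  rw [tau_eq c' hp, tau_eq c hp, ← rel_trans c' c (c'.psi hp), ← rel_trans c (c.psi hp) (c'.psi hp),
    rel_conj c h1 h2 hg, rel_symm (c'.psi hp) (c.psi hp), k]
  abel

theorem tau_conj0 (c : Ctr p d) (hp : p.map ψ = p) {g g' : Matrix ι ι S} (h1 : g' * g = 1)
    (h2 : g * g' = 1) (hg : p * g = g * p) (e1 : ecl p g = 0) (e2 : ecl (1 - p) g = 0) :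
    tau ψ p (g * d * g') = tau ψ p d := by
  rw [tau_conj c hp h1 h2 hg, e1, e2]; simp

theorem Ctr.conj {M : Type*} [Ring M] {p d g g' : M} (c : Ctr p d) (h1 : g' * g = 1)
    (h2 : g * g' = 1) (hg : p * g = g * p) : Ctr p (g * d * g') :=
  c.elim fun _ c => ⟨_, c.conj h1 h2 hg⟩

theorem Ctr.reindex (e : ι ≃ κ) (c : Ctr p d) : Ctr (reindex e e p) (reindex e e d) :=
  c.elim fun _ c => ⟨_, c.map (reindexRingEquiv S e).toRingHom⟩

theorem tau_reindex (e : ι ≃ κ) (c : Ctr p d) (hp : p.map ψ = p) :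
    tau ψ (reindex e e p) (reindex e e d) = tau ψ p d := by
  obtain ⟨h, c⟩ := c
  have c' : Con (reindex e e p) (reindex e e d) (reindex e e h) :=
    c.map (reindexRingEquiv S e).toRingHom
  rw [tau_eq c hp, tau_eq c' (congrArg (reindex e e) hp), ← rel_reindex e]
  rfl

/-- complexes defined over another ring -/
theorem tau_map {R : Type v} [Ring R] (φ : R →+* S) (χ : R →+* R) (hφ : ∀ x, ψ (φ x) = φ (χ x))
    {p d : Matrix ι ι R} (c : Ctr p d) (hp : p.map χ = p) :
    tau ψ (p.map φ) (d.map φ) = K1.map φ (tau χ p d) := by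
  obtain ⟨h, c⟩ := c
  have e : ∀ x : Matrix ι ι R, (x.map φ).map ψ = (x.map χ).map φ := fun x => by
    ext; simp [hφ]
  have c' : Con (p.map φ) (d.map φ) (h.map φ) := c.map φ.mapMatrix
  rw [tau_eq c hp, tau_eq c' (by rw [e, hp]), e, e, rel_map φ c (c.psi hp)]

omit [Fintype ι] [DecidableEq ι] [Fintype κ] [DecidableEq κ] in
theorem map_diag (hp : p.map ψ = p) (hq : q.map ψ = q) :
    (fromBlocks p 0 0 q).map ψ = fromBlocks p 0 0 q := by
  rw [fromBlocks_map, hp, hq, Matrix.map_zero _ (map_zero ψ), Matrix.map_zero _ (map_zero ψ)]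

theorem tau_diag (c : Ctr p d) (b : Ctr q a) (hp : p.map ψ = p) (hq : q.map ψ = q) :
    tau ψ (fromBlocks p 0 0 q) (fromBlocks d 0 0 a) = tau ψ p d + tau ψ q a := by
  obtain ⟨h, c⟩ := c
  obtain ⟨k, b⟩ := b
  rw [tau_eq (c.diag b) (map_diag hp hq), tau_eq c hp, tau_eq b hq,
    ← rel_diag c (c.psi hp) b (b.psi hq)]
  simp only [fromBlocks_map, Matrix.map_zero _ (map_zero ψ)]

omit [Fintype ι] [Fintype κ] in
theorem one_sub_diag (p : Matrix ι ι S) (q : Matrix κ κ S) :
    1 - fromBlocks p 0 0 q = fromBlocks (1 - p) 0 0 (1 - q) := by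
  rw [← fromBlocks_one, sub_eq_add_neg, fromBlocks_neg, fromBlocks_add]
  simp [sub_eq_add_neg]

theorem ecl_lower (p : Matrix ι ι S) (q : Matrix κ κ S) (w : Matrix κ ι S) :
    ecl (fromBlocks p 0 0 q) (fromBlocks 1 0 w 1) = 0 := by
  rw [ecl, one_sub_diag, fromBlocks_multiply, fromBlocks_add, ← cl_lower (q * w)]
  simp

theorem ecl_upper (p : Matrix ι ι S) (q : Matrix κ κ S) (v : Matrix ι κ S) :
    ecl (fromBlocks p 0 0 q) (fromBlocks 1 v 0 1) = 0 := by
  rw [ecl, one_sub_diag, fromBlocks_multiply, fromBlocks_add, ← cl_upper (p * v)]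
  simp

/-- additivity, lower triangular differential -/
theorem tau_lower (c : Ctr p d) (b : Ctr q a) (hp : p.map ψ = p) (hq : q.map ψ = q)
    {w : Matrix κ ι S} (h1 : q * w = w * (1 - p)) (h2 : w * d + a * w = 0) :
    Ctr (fromBlocks p 0 0 q) (fromBlocks d 0 w a) ∧
      tau ψ (fromBlocks p 0 0 q) (fromBlocks d 0 w a) = tau ψ p d + tau ψ q a := by
  obtain ⟨k, b'⟩ := b
  have c0 : Ctr (fromBlocks p 0 0 q) (fromBlocks d 0 0 a) := c.elim fun _ c => ⟨_, c.diag b'⟩
  have g1 : ∀ x : Matrix κ ι S, fromBlocks (1 : Matrix ι ι S) 0 (-x) (1 : Matrix κ κ S) *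
      fromBlocks 1 0 x 1 = 1 := fun x => by simp [fromBlocks_multiply]
  have g2 := g1 (k * w)
  have g3 := g1 (-(k * w))
  rw [neg_neg] at g3
  have hg : fromBlocks p 0 0 q * fromBlocks 1 0 (-(k * w)) 1 =
      fromBlocks 1 0 (-(k * w)) 1 * fromBlocks p 0 0 q := by
    have : q * (k * w) = k * w * p := by
      rw [← Matrix.mul_assoc, b'.ph, Matrix.mul_assoc, Matrix.sub_mul, h1, Matrix.mul_sub w,
        Matrix.mul_assoc]
      simp
    simp [fromBlocks_multiply, this]
  have e : fromBlocks 1 0 (-(k * w)) 1 * fromBlocks d 0 0 a * fromBlocks 1 0 (k * w) 1 =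
      fromBlocks d 0 w a := by
    have : -(k * w * d) + a * (k * w) = w := by
      rw [Matrix.mul_assoc, eq_neg_of_add_eq_zero_left h2, Matrix.mul_neg, neg_neg,
        ← Matrix.mul_assoc, ← Matrix.mul_assoc, ← Matrix.add_mul, add_comm, b'.dh, Matrix.one_mul]
    simp [fromBlocks_multiply, this]
  rw [← e]
  exact ⟨c0.conj g3 g2 hg, by
    rw [tau_conj0 c0 (map_diag hp hq) g3 g2 hg (ecl_lower _ _ _)
      (by rw [one_sub_diag, ecl_lower]), tau_diag c ⟨k, b'⟩ hp hq]⟩

/-- additivity, upper triangular differential -/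
theorem tau_upper (c : Ctr p d) (b : Ctr q a) (hp : p.map ψ = p) (hq : q.map ψ = q)
    {v : Matrix ι κ S} (h1 : p * v = v * (1 - q)) (h2 : d * v + v * a = 0) :
    Ctr (fromBlocks p 0 0 q) (fromBlocks d v 0 a) ∧
      tau ψ (fromBlocks p 0 0 q) (fromBlocks d v 0 a) = tau ψ p d + tau ψ q a := by
  have k := tau_lower b c hq hp (w := v) h1 (by rw [add_comm, h2])
  have e1 : fromBlocks p 0 0 q =
      reindex (Equiv.sumComm κ ι) (Equiv.sumComm κ ι) (fromBlocks q 0 0 p) := by
    ext (i | i) (j | j) <;> rfl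
  have e2 : fromBlocks d v 0 a =
      reindex (Equiv.sumComm κ ι) (Equiv.sumComm κ ι) (fromBlocks a 0 v d) := by
    ext (i | i) (j | j) <;> rfl
  rw [e1, e2, tau_reindex _ k.1 (map_diag hq hp), k.2, add_comm]
  exact ⟨k.1.reindex _, rfl⟩

/-- the cone of an invertible matrix -/
theorem tau_cone {M : Matrix ι ι S} (hM : IsUnit M) :
    Ctr (fromBlocks (1 : Matrix ι ι S) 0 0 (0 : Matrix ι ι S)) (fromBlocks 0 M 0 0) ∧
      tau ψ (fromBlocks (1 : Matrix ι ι S) 0 0 (0 : Matrix ι ι S)) (fromBlocks 0 M 0 0) =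
        cl M - K1.map ψ (cl M) := by
  obtain ⟨u, rfl⟩ := hM
  have c : Con (fromBlocks (1 : Matrix ι ι S) 0 0 (0 : Matrix ι ι S)) (fromBlocks 0 u.val 0 0)
      (fromBlocks 0 0 u⁻¹.val 0) := by
    refine ⟨?_, ?_, ?_, ?_, ?_, ?_⟩ <;>
      simp [one_sub_diag, fromBlocks_multiply, fromBlocks_add]
  have z : ∀ {α β : Type _}, (0 : Matrix α β S).map ψ = 0 := Matrix.map_zero _ (map_zero ψ)
  have hp : (fromBlocks (1 : Matrix ι ι S) 0 0 (0 : Matrix ι ι S)).map ψ = fromBlocks 1 0 0 0 :=
    map_diag (Matrix.map_one _ (map_zero ψ) (map_one ψ)) z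
  refine ⟨⟨_, c⟩, ?_⟩
  have h3 : IsUnit (u⁻¹.val.map ψ) := u⁻¹.isUnit.map ψ.mapMatrix
  have h4 : cl u⁻¹.val = -cl u.val := by
    rw [eq_neg_iff_add_eq_zero, ← cl_mul u⁻¹.isUnit u.isUnit, u.inv_mul, cl_one]
  rw [tau_eq c hp, rel, ecl, sub_eq_add_neg (cl _), ← map_neg, ← h4, cl_map ψ u⁻¹.isUnit,
    ← cl_mul u.isUnit h3, ← cl_stab (κ := ι) (u.val * _)]
  congr 1
  simp [one_sub_diag, fromBlocks_map, z, fromBlocks_multiply, fromBlocks_add]

end tau

/-- the parity idempotent of a grading -/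
def par (S : Type u) [Ring S] (deg : ι → ℤ) : Matrix ι ι S :=
  diagonal fun i => if Even (deg i) then 1 else 0

section par

variable {deg : ι → ℤ} {deg' : κ → ℤ}

theorem par_mul_par : par S deg * par S deg = par S deg := by
  rw [par, diagonal_mul_diagonal]
  congr 1
  funext i
  split_ifs <;> simp

omit [Fintype ι] in
theorem par_map {S' : Type v} [Ring S'] (φ : S →+* S') : (par S deg).map φ = par S' deg := by
  rw [par, diagonal_map (map_zero φ), par]
  congr 1
  funext i
  split_ifs <;> simp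

omit [Fintype ι] in
theorem one_sub_par : 1 - par S deg = par S fun i => deg i + 1 := by
  rw [par, par, ← diagonal_one, diagonal_sub]
  congr 1
  funext i
  by_cases h : Even (deg i) <;> simp [h, Int.even_add_one]

omit [Fintype ι] in
theorem par_congr {deg₂ : ι → ℤ} (h : ∀ i, Even (deg i - deg₂ i)) : par S deg = par S deg₂ := by
  rw [par, par]
  congr 1
  funext i
  simp only [Int.even_sub.1 (h i)]

theorem par_even {A : Matrix ι κ S} (h : ∀ i j, A i j ≠ 0 → Even (deg i - deg' j)) :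
    par S deg * A = A * par S deg' := by
  ext i j
  rw [par, par, diagonal_mul, mul_diagonal]
  by_cases h0 : A i j = 0
  · simp [h0]
  · simp only [Int.even_sub.1 (h i j h0)]
    split_ifs <;> simp

theorem par_odd {A : Matrix ι κ S} (h : ∀ i j, A i j ≠ 0 → Odd (deg i - deg' j)) :
    par S deg * A = A * (1 - par S deg') := by
  rw [one_sub_par]
  exact par_even fun i j h0 => by
    rw [← sub_sub]
    exact (h i j h0).sub_odd odd_one

omit [Fintype ι] [Fintype κ] in
theorem par_sum : par S (Sum.elim deg deg') = fromBlocks (par S deg) 0 0 (par S deg') := by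
  rw [par, par, par, fromBlocks_diagonal]
  congr 1
  funext i
  cases i <;> rfl

omit [Fintype ι] [Fintype κ] in
theorem par_reindex (e : ι ≃ κ) : reindex e e (par S deg) = par S fun k => deg (e.symm k) := by
  rw [par, reindex_apply, submatrix_diagonal_equiv]
  rfl

theorem ecl_tri (ρ : ι → ℕ) {n : Matrix ι ι S} (hn : ∀ i j, n i j ≠ 0 → ρ j < ρ i) :
    ecl (par S deg) (1 + n) = 0 := by
  rw [ecl, ← (cl_tri ρ (n := par S deg * n) fun i j h => hn i j fun h0 => h (by
    rw [par, diagonal_mul, h0, mul_zero])).2]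
  congr 1
  noncomm_ring

end par

end Pool.Agent.Lib.NIL
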