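import Pool.Agent.Lib.NIL.A7

/-! The right adjoint of a cell attachment on a finite object: the object `hatX`. -/

noncomputable section

namespace Pool.Agent.Lib.NIL

open Finsupp

namespace Sys

variable {R E Λ O : Type} [Ring R] [Ring E] (S : Sys R E Λ O) (Rf : O → O → AddSubgroup R)
  (K : Cell Λ) (V : Raw E O)

/-- the additive map with `i r * ε l` at `v` going to `i r • F v l` -/
def ex {ι κ : Type} (F : ι → Λ → κ →₀ E) : (ι →₀ E) →+ (κ →₀ E) :=
  liftAddHom fun v => (liftAddHom fun l =>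
    ((smulAddHom E (κ →₀ E)).flip (F v l)).comp S.i.toAddMonoidHom).comp S.c.toAddMonoidHom

/-- a generator and a valid letter -/
def Un : Type := {p : V.ι × Λ // S.val p.2 (V.lab p.1)}

variable {S V} in
/-- the element `ε l b v` -/
def Un.el (u : S.Un V) : V.ι →₀ E := single u.1.1 (S.ε u.1.2)

variable {S V} in
def Un.deg (u : S.Un V) : ℤ := V.deg u.1.1 + S.deg u.1.2

variable {S V} in
def Un.lab (u : S.Un V) : O := S.src u.1.2 (V.lab u.1.1)

abbrev XI : Type := V.ι ⊕ S.Un V × Bool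

open Classical in
/-- `ab false` is `α`, `ab true` is `β` -/
def ab (b : Bool) : (V.ι →₀ E) →+ (S.XI V →₀ E) :=
  S.ex fun v l => if h : S.val l (V.lab v) then single (Sum.inr (⟨(v, l), h⟩, b)) 1 else 0

open Classical in
def chi : (V.ι →₀ E) →+ (S.XI V →₀ E) :=
  S.ex fun v l => if l = S.u ∨ K.inE l then single (Sum.inl v) (S.ε l) else
    S.ε (K.pre l) • S.ab V false (single v (S.ε (K.suf l))) -
      S.att K (S.ε (K.pre l)) • S.ab V true (single v (S.ε (K.suf l)))

@[reducible] def hatX : Raw E (O × Bool) :=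
  ⟨S.XI V, Sum.elim V.deg fun p => p.1.deg + cond p.2 (-1) 0,
    Sum.elim (fun v => (V.lab v, true)) fun p => (p.1.lab, p.2),
    lc (Sum.elim (fun v => S.chi K V (V.δ (single v 1))) fun p =>
      S.ab V p.2 ((S.cat Rf).D V p.1.el) +
        cond p.2 (p.1.deg.negOnePow • (S.ab V false p.1.el - S.chi K V p.1.el)) 0)⟩

variable {S Rf K V} {j k : ℤ} {o o' : O}

theorem hat_δ_inl (v : V.ι) :
    (S.hatX Rf K V).δ (single (Sum.inl v) 1) = S.chi K V (V.δ (single v 1)) := by
  change lc _ (single _ 1) = _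
  rw [linearCombination_single, one_smul, Sum.elim_inl]

theorem hat_δ_al (u : S.Un V) :
    (S.hatX Rf K V).δ (single (Sum.inr (u, false)) 1) = S.ab V false ((S.cat Rf).D V u.el) := by
  change lc _ (single _ 1) = _
  rw [linearCombination_single, one_smul, Sum.elim_inr, cond_false, add_zero]

theorem hat_δ_be (u : S.Un V) :
    (S.hatX Rf K V).δ (single (Sum.inr (u, true)) 1) = S.ab V true ((S.cat Rf).D V u.el) +
      u.deg.negOnePow • (S.ab V false u.el - S.chi K V u.el) := by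
  change lc _ (single _ 1) = _
  rw [linearCombination_single, one_smul, Sum.elim_inr, cond_true]

/-- the coefficients of `ex` -/
theorem ex_apply {ι κ : Type} (F : ι → Λ → κ →₀ E) (m : ι →₀ E) :
    S.ex F m = m.sum fun v e => (S.c e).sum fun l r => S.i r • F v l := rfl

theorem ex_single' {ι κ : Type} (F : ι → Λ → κ →₀ E) (v : ι) (e : E) :
    S.ex F (single v e) = (S.c e).sum fun l r => S.i r • F v l := by
  rw [ex_apply, sum_single_index]
  rw [map_zero, sum_zero_index]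

theorem ex_coeff_zero {ι κ : Type} {F : ι → Λ → κ →₀ E} {x : κ} (hF : ∀ v l, F v l x = 0)
    (m : ι →₀ E) : S.ex F m x = 0 := by
  rw [ex_apply, Finsupp.sum_apply]
  refine Finset.sum_eq_zero fun v _ => ?_
  beta_reduce
  rw [Finsupp.sum_apply]
  refine Finset.sum_eq_zero fun l _ => ?_
  beta_reduce
  rw [Finsupp.smul_apply, hF, smul_zero]

theorem ab_apply_inl (b : Bool) (m : V.ι →₀ E) (v : V.ι) : S.ab V b m (Sum.inl v) = 0 := by
  refine ex_coeff_zero (fun v' l => ?_) m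
  split_ifs
  · exact single_eq_of_ne Sum.inl_ne_inr
  · rfl

theorem ab_apply_same (b : Bool) (m : V.ι →₀ E) (u : S.Un V) :
    S.ab V b m (Sum.inr (u, b)) = S.i (S.c (m u.1.1) u.1.2) := by
  obtain ⟨⟨v, l⟩, hu⟩ := u
  have key : ∀ (v' : V.ι) (l' : Λ), (v', l') ≠ (v, l) → ∀ (h : S.val l' (V.lab v')),
      (single (Sum.inr (⟨(v', l'), h⟩, b)) 1 : S.XI V →₀ E) (Sum.inr (⟨(v, l), hu⟩, b)) = 0 :=
    fun v' l' hne h => single_eq_of_ne fun e =>
      hne (congrArg Subtype.val (Prod.mk.inj (Sum.inr.inj e)).1).symm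
  unfold ab
  rw [ex_apply, Finsupp.sum_apply, Finsupp.sum, Finset.sum_eq_single v]
  · rw [Finsupp.sum_apply, Finsupp.sum, Finset.sum_eq_single l]
    · rw [dif_pos hu, Finsupp.smul_apply, single_eq_same, smul_eq_mul, mul_one]
    · intro l' _ hl
      split_ifs with h'
      · rw [Finsupp.smul_apply, key v l' (fun e => hl (Prod.mk.inj e).2), smul_zero]
      · simp
    · intro hl
      rw [notMem_support_iff.1 hl]
      simp
  · intro v' _ hv
    rw [Finsupp.sum_apply]
    refine Finset.sum_eq_zero fun l' _ => ?_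
    beta_reduce
    split_ifs with h'
    · rw [Finsupp.smul_apply, key v' l' (fun e => hv (Prod.mk.inj e).1), smul_zero]
    · simp
  · intro hv
    rw [notMem_support_iff.1 hv]
    simp

theorem ab_apply_ne {b b' : Bool} (hb : b' ≠ b) (m : V.ι →₀ E) (u : S.Un V) :
    S.ab V b m (Sum.inr (u, b')) = 0 := by
  refine ex_coeff_zero (fun v' l => ?_) m
  split_ifs
  · exact single_eq_of_ne fun e => hb (Prod.mk.inj (Sum.inr.inj e)).2
  · rfl

namespace IsSys

variable (h : S.IsSys Rf j)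
include h

theorem ex_single {ι κ : Type} (F : ι → Λ → κ →₀ E) (v : ι) (l : Λ) (r : R) :
    S.ex F (single v (S.i r * S.ε l)) = S.i r • F v l := by
  rw [ex_single', h.c_i_ε, sum_single_index]
  rw [map_zero, zero_smul]

theorem ex_ε {ι κ : Type} (F : ι → Λ → κ →₀ E) (v : ι) (l : Λ) :
    S.ex F (single v (S.ε l)) = F v l := by
  have := h.ex_single F v l 1
  rwa [map_one, one_mul, one_smul] at this

theorem ex_smul {ι κ : Type} (F : ι → Λ → κ →₀ E) (r : R) (m : ι →₀ E) :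
    S.ex F (S.i r • m) = S.i r • S.ex F m := by
  induction m using Finsupp.induction_linear with
  | zero => simp
  | add x y hx hy => rw [smul_add, map_add, map_add, smul_add, hx, hy]
  | single v e =>
    obtain ⟨a, rfl⟩ := S.c.symm.surjective e
    induction a using Finsupp.induction_linear with
    | zero => simp
    | add x y hx hy => rw [map_add, single_add, smul_add, map_add, map_add, smul_add, hx, hy]
    | single l r' =>
      have : S.c.symm (single l r') = S.i r' * S.ε l := by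
        rw [← h.c_i_ε, AddEquiv.symm_apply_apply]
      rw [this, smul_single, smul_eq_mul, ← mul_assoc, ← map_mul, h.ex_single, h.ex_single,
        map_mul, mul_smul]

theorem ab_smul (b : Bool) (r : R) (m : V.ι →₀ E) :
    S.ab V b (S.i r • m) = S.i r • S.ab V b m := h.ex_smul _ r m

theorem chi_smul (r : R) (m : V.ι →₀ E) : S.chi K V (S.i r • m) = S.i r • S.chi K V m :=
  h.ex_smul _ r m

theorem ab_el (b : Bool) (u : S.Un V) : S.ab V b u.el = single (Sum.inr (u, b)) 1 :=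
  (h.ex_ε _ _ _).trans (dif_pos u.2)

theorem chi_ε_pos (v : V.ι) {l : Λ} (hl : l = S.u ∨ K.inE l) :
    S.chi K V (single v (S.ε l)) = single (Sum.inl v) (S.ε l) :=
  (h.ex_ε _ _ _).trans (if_pos hl)

theorem chi_ε_neg (v : V.ι) {l : Λ} (hl : ¬ (l = S.u ∨ K.inE l)) :
    S.chi K V (single v (S.ε l)) = S.ε (K.pre l) • S.ab V false (single v (S.ε (K.suf l))) -
      S.att K (S.ε (K.pre l)) • S.ab V true (single v (S.ε (K.suf l))) :=
  (h.ex_ε _ _ _).trans (if_neg hl)

theorem att_i_mul (r : R) (e : E) : S.att K (S.i r * e) = S.i r * S.att K e := by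
  change S.pr _ (S.d _) = _ * S.pr _ (S.d _)
  rw [h.dg.leib, h.d_i, zero_mul, add_zero, h.pr_mul]

theorem chi_one (v : V.ι) : S.chi K V (single v 1) = single (Sum.inl v) 1 := by
  rw [← h.ε_u, h.chi_ε_pos v (Or.inl rfl)]

theorem el_mem (u : S.Un V) : u.el ∈ (S.cat Rf).M V u.deg u.lab :=
  Cat.single_mem_M (h.ε_mem (T := fun l => S.deg l = u.deg - V.deg u.1.1) u.2
    (by simp only [Un.deg]; ring))

/-- homogeneous elements are sums of `i r • u.el` -/
theorem M_induction {p : (V.ι →₀ E) → Prop} {m : V.ι →₀ E} (hm : m ∈ (S.cat Rf).M V k o)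
    (h1 : ∀ (u : S.Un V) (r : R), u.deg = k → r ∈ Rf o u.lab → p (S.i r • u.el)) (h0 : p 0)
    (ha : ∀ x y, p x → p y → p (x + y)) : p m := by
  rw [← Finsupp.sum_single m]
  refine Finset.sum_induction _ p ha h0 fun v _ => ?_
  refine h.Sp_induction (p := fun e => p (single v e)) (hm v) (fun l r hl hT hr => ?_)
    (by rw [single_zero]; exact h0) fun x y _ _ hx hy => by rw [single_add]; exact ha _ _ hx hy
  have := h1 ⟨(v, l), hl⟩ r (by simp only [Un.deg, hT]; ring) hr
  rwa [Un.el, smul_single, smul_eq_mul] at this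

theorem D_i_smul {L : Type} {C : Cat E L} (hC : C.Good) (hd : C.d = S.d) (X : Raw E L) (r : R)
    (x : X.ι →₀ E) : C.D X (S.i r • x) = S.i r • C.D X x := by
  rw [hC.D_smul, hd, h.d_i, zero_smul, add_zero]

end IsSys

namespace IsCell

variable (h : S.IsCell Rf K j)
include h

theorem chi_E (v : V.ι) {e : E} (he : e ∈ S.Sp Rf (fun l => l = S.u ∨ K.inE l) o o') :
    S.chi K V (single v e) = single (Sum.inl v) e := by
  refine h.sys.Sp_induction (p := fun e => S.chi K V (single v e) = single (Sum.inl v) e) he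
    (fun l r _ hT _ => ?_) (by simp) fun x y _ _ hx hy => by
      rw [single_add, map_add, hx, hy, single_add]
  rw [← smul_eq_mul, ← smul_single, h.sys.chi_smul, h.sys.chi_ε_pos v hT, smul_single]

theorem i_mem_E {r : R} (hr : r ∈ Rf o o') :
    S.i r ∈ S.Sp Rf (fun l => l = S.u ∨ K.inE l) o o' :=
  Sp_mono (fun _ _ hl => Or.inl hl) (h.sys.mem_unit.2 ⟨r, hr, rfl⟩)

theorem chi_N_el {a : E} (u : S.Un V) (ha : a ∈ S.Sp Rf K.inN o u.lab) :
    S.chi K V (a • u.el) = a • S.ab V false u.el - S.att K a • S.ab V true u.el := by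
  refine h.sys.Sp_induction (p := fun a => S.chi K V (a • u.el) =
    a • S.ab V false u.el - S.att K a • S.ab V true u.el) ha (fun l r hl hT _ => ?_) (by simp)
    fun x y _ _ hx hy => by rw [add_smul, map_add, hx, hy, map_add, add_smul, add_smul]; abel
  have hne : l ≠ S.u := h.sys.ne_u l (h.inN l hT).1
  have ht : S.t l = S.src u.1.2 (V.lab u.1.1) := (hl.resolve_left hne).2
  obtain ⟨c1, c2, -, -, c5, c6, c7, -⟩ := h.cat l u.1.2 _ hT u.2 ht
  have e1 : S.ε l • u.el = single u.1.1 (S.ε (K.cat l u.1.2)) := by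
    rw [Un.el, smul_single, smul_eq_mul, c7]
  rw [mul_smul, h.sys.chi_smul, e1, h.sys.chi_ε_neg _ (not_or.2 ⟨h.sys.ne_u _ c1, c2⟩), c5, c6,
    h.sys.att_i_mul, mul_smul, mul_smul, smul_sub]
  rfl

theorem chi_N {a : E} (ha : a ∈ S.Sp Rf K.inN o o') {m : V.ι →₀ E}
    (hm : m ∈ (S.cat Rf).M V k o') :
    S.chi K V (a • m) = a • S.ab V false m - S.att K a • S.ab V true m := by
  refine h.sys.M_induction (p := fun m => S.chi K V (a • m) =
    a • S.ab V false m - S.att K a • S.ab V true m) hm (fun u r _ hr => ?_) (by simp)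
    fun x y hx hy => by rw [smul_add, map_add, hx, hy, map_add, map_add, smul_add, smul_add]; abel
  rw [← mul_smul, h.chi_N_el u (h.mul_NR ha hr), h.att_mul_i ha hr, h.sys.ab_smul, h.sys.ab_smul,
    mul_smul, mul_smul]

/-- a letter which is neither the unit nor in `E` splits -/
theorem exists_split (u : S.Un V) (hu : ¬ (u.1.2 = S.u ∨ K.inE u.1.2)) :
    ∃ u' : S.Un V, u'.1 = (u.1.1, K.suf u.1.2) ∧ u.el = S.ε (K.pre u.1.2) • u'.el ∧
      u.deg = S.deg (K.pre u.1.2) + u'.deg ∧ S.ρ u'.1.2 < S.ρ u.1.2 ∧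
      S.ε (K.pre u.1.2) ∈
        S.Sp Rf (fun l => K.inN l ∧ S.deg l = S.deg (K.pre u.1.2)) u.lab u'.lab := by
  obtain ⟨⟨v, l⟩, hl⟩ := u
  obtain ⟨h1, h2⟩ := not_or.1 hu
  obtain ⟨hok, ht⟩ := hl.resolve_left h1
  obtain ⟨s1, s2, s3, s4, s5⟩ := h.split l hok h2
  dsimp only at ht h1 h2 hok
  rw [ht] at s2 s3
  obtain ⟨-, -, -, c4, -, -, c7, c8⟩ := h.cat _ _ _ s1 s2 s3
  rw [s4] at c4 c7 c8
  refine ⟨⟨(v, K.suf l), s2⟩, rfl, ?_, ?_, s5, ?_⟩
  · simp only [Un.el]
    rw [smul_single, smul_eq_mul, ← c7]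
  · simp only [Un.deg]
    rw [c8]
    ring
  · have hne : K.pre l ≠ S.u := h.sys.ne_u _ (h.inN _ s1).1
    have := h.sys.ε_mem (T := fun m => K.inN m ∧ S.deg m = S.deg (K.pre l))
      (o' := S.src (K.suf l) (V.lab v)) (Or.inr ⟨(h.inN _ s1).1, s3⟩) ⟨s1, rfl⟩
    simp only [Un.lab]
    rwa [src_of_ne hne, ← c4, ← src_of_ne (o := V.lab v) h1] at this

theorem chi_mul {e : E} (he : e ∈ S.Sp Rf (fun l => l = S.u ∨ K.inE l) o o') {m : V.ι →₀ E}
    (hm : m ∈ (S.cat Rf).M V k o') : S.chi K V (e • m) = e • S.chi K V m := by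
  refine h.sys.M_induction (p := fun m => S.chi K V (e • m) = e • S.chi K V m) hm
    (fun u r _ hr => ?_) (by simp) fun x y hx hy => by
      rw [smul_add, map_add, hx, hy, map_add, smul_add]
  have he' := h.mul_EE he (h.i_mem_E hr)
  rw [← mul_smul, h.sys.chi_smul, ← mul_smul]
  generalize e * S.i r = e' at he'
  by_cases hu : u.1.2 = S.u ∨ K.inE u.1.2
  · have hε := h.sys.ε_mem (T := fun l => l = S.u ∨ K.inE l) u.2 hu
    rw [Un.el, smul_single, h.chi_E _ hε, smul_eq_mul, h.chi_E _ (h.mul_EE he' hε), smul_single,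
      smul_eq_mul]
  · obtain ⟨u', -, e1, -, -, hp⟩ := h.exists_split u hu
    have hp' := Sp_mono (T' := K.inN) (fun _ _ hl => hl.1) hp
    rw [e1, ← mul_smul, h.chi_N_el u' (h.mul_EN he' hp'), h.chi_N_el u' hp', h.att_mul he' hp',
      mul_smul, mul_smul, smul_sub]

theorem al_mem (b : Bool) {m : V.ι →₀ E} (hm : m ∈ (S.cat Rf).M V k o) :
    S.ab V false m ∈ (S.tri Rf K).M (S.hatX Rf K V) k (o, b) := by
  refine h.sys.M_induction (p := fun m => S.ab V false m ∈ (S.tri Rf K).M (S.hatX Rf K V) k (o, b))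
    hm (fun u r hu hr => ?_) (by rw [map_zero]; exact zero_mem _) fun x y hx hy => by
      rw [map_add]; exact add_mem hx hy
  rw [h.sys.ab_smul, h.sys.ab_el, smul_single, smul_eq_mul, mul_one]
  refine Cat.single_mem_M (Sp_mono (fun l _ hl => ?_) (h.sys.mem_unit.2 ⟨r, hr, rfl⟩))
  subst hl
  refine ⟨?_, fun _ => ⟨rfl, rfl⟩, Or.inl rfl⟩
  rw [h.sys.deg_u, ← hu]
  simp

theorem be_mem {m : V.ι →₀ E} (hm : m ∈ (S.cat Rf).M V k o) :
    S.ab V true m ∈ (S.tri Rf K).M (S.hatX Rf K V) (k - 1) (o, true) := by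
  refine h.sys.M_induction
    (p := fun m => S.ab V true m ∈ (S.tri Rf K).M (S.hatX Rf K V) (k - 1) (o, true))
    hm (fun u r hu hr => ?_) (by rw [map_zero]; exact zero_mem _) fun x y hx hy => by
      rw [map_add]; exact add_mem hx hy
  rw [h.sys.ab_smul, h.sys.ab_el, smul_single, smul_eq_mul, mul_one]
  refine Cat.single_mem_M (Sp_mono (fun l _ hl => ?_) (h.sys.mem_unit.2 ⟨r, hr, rfl⟩))
  subst hl
  refine ⟨?_, fun e => absurd e (by simp), Or.inl rfl⟩
  rw [h.sys.deg_u, ← hu]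
  simp only [Sum.elim_inr, cond_true]
  ring

theorem mem_tri_E {b : Bool} {e : E}
    (he : e ∈ S.Sp Rf (fun l => (l = S.u ∨ K.inE l) ∧ S.deg l = k) o o') :
    e ∈ (S.tri Rf K).H k (o, true) (o', b) :=
  Sp_mono (fun _ _ hl => ⟨hl.2, fun e => absurd e (by simp), hl.1.imp_right Or.inl⟩) he

theorem mem_tri_N {e : E} (he : e ∈ S.Sp Rf (fun l => K.inN l ∧ S.deg l = k) o o') :
    e ∈ (S.tri Rf K).H k (o, true) (o', false) :=
  Sp_mono (fun _ _ hl => ⟨hl.2, fun e => absurd e (by simp), Or.inr (Or.inr ⟨rfl, hl.1⟩)⟩) he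

theorem att_memE {a : E} (ha : a ∈ S.Sp Rf (fun l => K.inN l ∧ S.deg l = k) o o') :
    S.att K a ∈ S.Sp Rf (fun l => (l = S.u ∨ K.inE l) ∧ S.deg l = k + 1) o o' := by
  obtain ⟨n, hn⟩ := h.sys.exists_rank ha
  exact Sp_mono (fun _ _ hl => ⟨Or.inr hl.1, hl.2.2.1⟩)
    (h.att_mem (n := n) (Sp_mono (fun _ _ hl => ⟨hl.1.1, hl.1.2, hl.2⟩) hn))

theorem chi_mem {m : V.ι →₀ E} (hm : m ∈ (S.cat Rf).M V k o) :
    S.chi K V m ∈ (S.tri Rf K).M (S.hatX Rf K V) k (o, true) := by
  refine h.sys.M_induction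
    (p := fun m => S.chi K V m ∈ (S.tri Rf K).M (S.hatX Rf K V) k (o, true))
    hm (fun u r hk hr => ?_) (by rw [map_zero]; exact zero_mem _) fun x y hx hy => by
      rw [map_add]; exact add_mem hx hy
  have hi : S.i r ∈ (S.tri Rf K).H 0 (o, true) (u.lab, true) :=
    h.mem_tri_E (Sp_mono (fun _ _ hl => ⟨Or.inl hl, hl ▸ h.sys.deg_u⟩)
      (h.sys.mem_unit.2 ⟨r, hr, rfl⟩))
  rw [h.sys.chi_smul, ← zero_add k, ← hk]
  refine h.tri_good.smul_mem hi ?_
  by_cases hu : u.1.2 = S.u ∨ K.inE u.1.2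
  · rw [Un.el, h.sys.chi_ε_pos _ hu]
    refine Cat.single_mem_M (h.mem_tri_E (h.sys.ε_mem u.2 ⟨hu, ?_⟩))
    simp [Un.deg]
  · obtain ⟨u', -, e1, e2, -, hp⟩ := h.exists_split u hu
    rw [e1, h.chi_N_el u' (Sp_mono (fun _ _ hl => hl.1) hp), e2]
    refine sub_mem (h.tri_good.smul_mem (h.mem_tri_N hp) (h.al_mem false (h.sys.el_mem u'))) ?_
    have := h.tri_good.smul_mem (h.mem_tri_E (b := true) (h.att_memE hp))
      (h.be_mem (h.sys.el_mem u'))
    rwa [show S.deg (K.pre u.1.2) + 1 + (u'.deg - 1) = S.deg (K.pre u.1.2) + u'.deg by ring] at this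

theorem hat_hom (hV : (S.cat Rf).Obj V) :
    (S.tri Rf K).Hom 1 (S.hatX Rf K V) (S.hatX Rf K V) (S.hatX Rf K V).δ := by
  rintro (v | ⟨u, _ | _⟩)
  · rw [hat_δ_inl]
    exact h.chi_mem (hV.1 v)
  · rw [hat_δ_al]
    have := h.al_mem false (h.sys.good.D_mem hV.1 (h.sys.el_mem u))
    simpa using this
  · rw [hat_δ_be]
    have e : (S.hatX Rf K V).deg (Sum.inr (u, true)) + 1 = u.deg := by simp
    have h1 := h.be_mem (h.sys.good.D_mem hV.1 (h.sys.el_mem u))
    rw [add_sub_cancel_right] at h1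
    rw [e]
    refine add_mem h1 ?_
    rw [Units.smul_def]
    exact zsmul_mem (sub_mem (h.al_mem true (h.sys.el_mem u)) (h.chi_mem (h.sys.el_mem u))) _

theorem D_al {m : V.ι →₀ E} (hm : m ∈ (S.cat Rf).M V k o) :
    (S.tri Rf K).D (S.hatX Rf K V) (S.ab V false m) = S.ab V false ((S.cat Rf).D V m) := by
  refine h.sys.M_induction (p := fun m => (S.tri Rf K).D (S.hatX Rf K V) (S.ab V false m) =
    S.ab V false ((S.cat Rf).D V m)) hm (fun u r _ _ => ?_) (by simp only [map_zero])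
    fun x y hx hy => by simp only [map_add, hx, hy]
  rw [h.sys.ab_smul, h.sys.D_i_smul h.tri_good rfl, h.sys.D_i_smul h.sys.good rfl, h.sys.ab_smul,
    h.sys.ab_el, h.tri_good.D_single, hat_δ_al]

theorem D_be {m : V.ι →₀ E} (hm : m ∈ (S.cat Rf).M V k o) :
    (S.tri Rf K).D (S.hatX Rf K V) (S.ab V true m) = S.ab V true ((S.cat Rf).D V m) +
      k.negOnePow • (S.ab V false m - S.chi K V m) := by
  refine h.sys.M_induction (p := fun m => (S.tri Rf K).D (S.hatX Rf K V) (S.ab V true m) =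
    S.ab V true ((S.cat Rf).D V m) + k.negOnePow • (S.ab V false m - S.chi K V m)) hm
    (fun u r hk _ => ?_) (by simp only [map_zero, sub_zero, smul_zero, add_zero])
    fun x y hx hy => by simp only [map_add, hx, hy, smul_sub, smul_add]; abel
  rw [h.sys.ab_smul, h.sys.D_i_smul h.tri_good rfl, h.sys.D_i_smul h.sys.good rfl, h.sys.ab_smul,
    h.sys.ab_el, h.tri_good.D_single, hat_δ_be, h.sys.ab_smul, h.sys.chi_smul, ← smul_sub, hk,
    smul_add, smul_comm (S.i r)]

theorem D_chi (hV : (S.cat Rf).Obj V) {m : V.ι →₀ E} (hm : m ∈ (S.cat Rf).M V k o) :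
    (S.tri Rf K).D (S.hatX Rf K V) (S.chi K V m) = S.chi K V ((S.cat Rf).D V m) := by
  refine h.sys.M_induction (p := fun m => (S.tri Rf K).D (S.hatX Rf K V) (S.chi K V m) =
    S.chi K V ((S.cat Rf).D V m)) hm (fun u r _ _ => ?_) (by simp only [map_zero])
    fun x y hx hy => by simp only [map_add, hx, hy]
  rw [h.sys.chi_smul, h.sys.D_i_smul h.tri_good rfl, h.sys.D_i_smul h.sys.good rfl, h.sys.chi_smul]
  congr 1
  by_cases hu : u.1.2 = S.u ∨ K.inE u.1.2
  · have hε := h.sys.ε_mem (T := fun l => (l = S.u ∨ K.inE l) ∧ S.deg l = S.deg u.1.2) u.2 ⟨hu, rfl⟩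
    have hε' := Sp_mono (T' := fun l => l = S.u ∨ K.inE l) (fun _ _ hl => hl.1) hε
    have hd : S.d (S.ε u.1.2) ∈ S.Sp Rf (fun l => l = S.u ∨ K.inE l) u.lab (V.lab u.1.1) :=
      Sp_mono (fun _ _ hl => hl.2.2.imp_right fun h' => h'.resolve_right fun h'' => by
        simpa using h''.1) (h.tri_good.d_mem (h.mem_tri_E (b := true) hε))
    have e1 : u.el = S.ε u.1.2 • single u.1.1 1 := by rw [smul_single, smul_eq_mul, mul_one]; rfl
    have hb := h.sys.good.basis_mem (V := V) u.1.1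
    rw [e1, h.chi_mul hε' hb, h.sys.chi_one, h.tri_good.D_smul, h.sys.good.D_smul, map_add,
      h.tri_good.D_single, hat_δ_inl, h.sys.good.D_single, h.chi_mul hε' (hV.1 u.1.1),
      h.tri_good.sg_single, h.sys.good.sg_single, smul_comm ((S.cat Rf).d _), Units.smul_def _ (_ • _),
      map_zsmul, ← Units.smul_def]
    erw [h.chi_mul hd hb]
    rw [h.sys.chi_one, smul_comm]
    rfl
  · obtain ⟨u', -, e1, -, -, hp⟩ := h.exists_split u hu
    have hp' := Sp_mono (T' := K.inN) (fun _ _ hl => hl.1) hp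
    have ha := Sp_mono (T' := fun l => l = S.u ∨ K.inE l) (fun _ _ hl => hl.1) (h.att_memE hp)
    have hm' := h.sys.el_mem (Rf := Rf) u'
    generalize S.ε (K.pre u.1.2) = a at e1 hp' ha
    have e2 : S.chi K V (S.d a • u'.el) = (S.d a - S.att K a) • S.ab V false u'.el +
        S.d (S.att K a) • S.ab V true u'.el + S.att K a • S.chi K V u'.el := by
      have := h.chi_N (h.d_sub_att hp') hm'
      rw [h.att_d hp', sub_smul, map_sub, h.chi_mul ha hm', neg_smul, sub_neg_eq_add] at this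
      rw [← this, sub_add_cancel]
    rw [e1, h.chi_N hp' hm', map_sub, h.tri_good.D_smul, h.tri_good.D_smul, h.sys.good.D_smul,
      map_add, h.D_al hm', h.D_be hm', h.chi_N hp' (h.sys.good.D_mem hV.1 hm'),
      h.tri_good.sg_of_mem (h.al_mem false hm'), h.tri_good.sg_of_mem (h.be_mem hm'),
      h.sys.good.sg_of_mem hm', smul_comm ((S.cat Rf).d _), Units.smul_def _ (_ • _),
      map_zsmul, Int.negOnePow_sub, Int.negOnePow_one]
    erw [e2]
    change _ + S.d a • _ - (_ + S.d (S.att K a) • _) = _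
    rcases Int.units_eq_one_or u'.deg.negOnePow with e | e <;> rw [e] <;>
      simp [sub_smul, smul_sub, smul_add] <;> abel

theorem hat_obj (hV : (S.cat Rf).Obj V) : (S.tri Rf K).Obj (S.hatX Rf K V) := by
  refine h.tri_good.obj_of_basis (h.hat_hom hV) ?_
  rintro (v | ⟨u, _ | _⟩)
  · rw [hat_δ_inl, h.D_chi hV (hV.1 v), ← h.sys.good.D_single, hV.2, map_zero]
  · rw [hat_δ_al, h.D_al (h.sys.good.D_mem hV.1 (h.sys.el_mem u)), hV.2, map_zero]
  · rw [hat_δ_be, map_add, h.D_be (h.sys.good.D_mem hV.1 (h.sys.el_mem u)), hV.2, map_zero,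
      Units.smul_def u.deg.negOnePow, map_zsmul, map_sub, h.D_al (h.sys.el_mem u),
      h.D_chi hV (h.sys.el_mem u), ← Units.smul_def, Int.negOnePow_succ, zero_add, Units.neg_smul,
      neg_add_cancel]

variable (S K V) in
/-- the lift of a self-map -/
def _root_.Pool.Agent.Lib.NIL.Sys.hatL (f : Lin V V) : (S.XI V →₀ E) →ₗ[E] (S.XI V →₀ E) :=
  lc (Sum.elim (fun v => S.chi K V (f (single v 1))) fun p => S.ab V p.2 (f p.1.el))

theorem hatL_ab (f : Lin V V) (b : Bool) {m : V.ι →₀ E} (hm : m ∈ (S.cat Rf).M V k o) :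
    S.hatL K V f (S.ab V b m) = S.ab V b (f m) := by
  refine h.sys.M_induction (p := fun m => S.hatL K V f (S.ab V b m) = S.ab V b (f m)) hm
    (fun u r _ _ => ?_) (by simp only [map_zero]) fun x y hx hy => by simp only [map_add, hx, hy]
  rw [h.sys.ab_smul, map_smul, map_smul, h.sys.ab_smul, h.sys.ab_el, hatL, linearCombination_single,
    one_smul, Sum.elim_inr]

theorem hatL_chi {n : ℤ} {f : Lin V V} (hf : (S.cat Rf).Hom n V V f) {m : V.ι →₀ E}
    (hm : m ∈ (S.cat Rf).M V k o) : S.hatL K V f (S.chi K V m) = S.chi K V (f m) := by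
  refine h.sys.M_induction (p := fun m => S.hatL K V f (S.chi K V m) = S.chi K V (f m)) hm
    (fun u r _ _ => ?_) (by simp only [map_zero]) fun x y hx hy => by simp only [map_add, hx, hy]
  rw [h.sys.chi_smul, map_smul, map_smul, h.sys.chi_smul]
  congr 1
  by_cases hu : u.1.2 = S.u ∨ K.inE u.1.2
  · have hε := h.sys.ε_mem (T := fun l => l = S.u ∨ K.inE l) u.2 hu
    have e1 : u.el = S.ε u.1.2 • single u.1.1 1 := by rw [smul_single, smul_eq_mul, mul_one]; rfl
    rw [e1, h.chi_mul hε (h.sys.good.basis_mem _), h.sys.chi_one, map_smul, map_smul,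
      h.chi_mul hε (hf _), hatL, linearCombination_single, one_smul, Sum.elim_inl]
  · obtain ⟨u', -, e1, -, -, hp⟩ := h.exists_split u hu
    have hp' := Sp_mono (T' := K.inN) (fun _ _ hl => hl.1) hp
    have hm' := h.sys.el_mem (Rf := Rf) u'
    rw [e1, h.chi_N hp' hm', map_sub, map_smul, map_smul, map_smul, h.hatL_ab f _ hm',
      h.hatL_ab f _ hm', h.chi_N hp' (h.sys.good.map_mem hf hm')]

theorem hat_nul (hV : (S.cat Rf).Obj V) {z : E} (hz : ∀ a, z * a = a * z) {r : R}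
    (hr : z = S.i r) (hn : (S.cat Rf).Nul z V) : (S.tri Rf K).Nul z (S.hatX Rf K V) := by
  obtain ⟨f, hf, e⟩ := hn
  have e' : ∀ m, (S.cat Rf).D V (f m) + f ((S.cat Rf).D V m) = S.i r • m := fun m => by
    rw [← e, LinearMap.zero_apply, sub_zero, scal_eq_smul hz, hr]
  have hL : ∀ x, S.hatL K V f (single x 1) =
      Sum.elim (fun v => S.chi K V (f (single v 1))) (fun p => S.ab V p.2 (f p.1.el)) x :=
    fun x => by rw [hatL, linearCombination_single, one_smul]
  refine h.tri_good.ht_of_basis (h := S.hatL K V f) ?_ ?_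
  · rintro (v | ⟨u, _ | _⟩) <;> rw [hL]
    · exact h.chi_mem (hf v)
    · simpa using h.al_mem false (h.sys.good.map_mem hf (h.sys.el_mem u))
    · have := h.be_mem (h.sys.good.map_mem hf (h.sys.el_mem u))
      rwa [sub_eq_add_neg] at this
  · intro x
    rw [LinearMap.zero_apply, sub_zero, scal_eq_smul hz, hr, hL]
    rcases x with (v | ⟨u, _ | _⟩)
    · rw [Sum.elim_inl, hat_δ_inl, h.D_chi hV (hf v), h.hatL_chi hf (hV.1 v), ← map_add,
        ← h.sys.good.D_single, e', h.sys.chi_smul, h.sys.chi_one]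
    · have hm := h.sys.el_mem (Rf := Rf) u
      rw [Sum.elim_inr, hat_δ_al, h.D_al (h.sys.good.map_mem hf hm),
        h.hatL_ab f _ (h.sys.good.D_mem hV.1 hm), ← map_add, e', h.sys.ab_smul, h.sys.ab_el]
    · have hm := h.sys.el_mem (Rf := Rf) u
      rw [Sum.elim_inr, hat_δ_be, h.D_be (h.sys.good.map_mem hf hm), map_add,
        h.hatL_ab f _ (h.sys.good.D_mem hV.1 hm), Units.smul_def u.deg.negOnePow, map_zsmul,
        map_sub, h.hatL_ab f _ hm, h.hatL_chi hf hm, ← Units.smul_def, ← sub_eq_add_neg,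
        Int.negOnePow_sub, Int.negOnePow_one, mul_neg_one, Units.neg_smul, add_add_add_comm,
        neg_add_cancel, add_zero, ← map_add, e', h.sys.ab_smul, h.sys.ab_el]

end IsCell

end Sys

end Pool.Agent.Lib.NIL
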