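import Pool.Agent.Lib.NIL.VH1
import Pool.Agent.Lib.NIL.Blue

/-! A finite closed part of `hatX` is an extension of `V` by disks. -/

noncomputable section

namespace Pool.Agent.Lib.NIL

open Finsupp

namespace Sys

variable {R E Λ O : Type} [Ring R] [Ring E] {S : Sys R E Λ O} {Rf : O → O → AddSubgroup R}
  {K : Cell Λ} {V : Raw E O} {j k : ℤ} {o o' : O}

/-- the lexicographic order -/
def Un.Lt (rk : V.ι → ℕ) (u' u : S.Un V) : Prop :=
  rk u'.1.1 < rk u.1.1 ∨ u'.1.1 = u.1.1 ∧ S.ρ u'.1.2 < S.ρ u.1.2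

theorem ab_supp {b b' : Bool} {m : V.ι →₀ E} {u : S.Un V} (hm : S.ab V b m (Sum.inr (u, b')) ≠ 0) :
    b' = b ∧ S.c (m u.1.1) u.1.2 ≠ 0 := by
  by_cases hb : b' = b
  · subst hb
    refine ⟨rfl, fun e => hm ?_⟩
    rw [ab_apply_same, e, map_zero]
  · exact absurd (ab_apply_ne hb m u) hm

theorem chi_supp {m : V.ι →₀ E} {u : S.Un V} {b : Bool}
    (hm : S.chi K V m (Sum.inr (u, b)) ≠ 0) : m u.1.1 ≠ 0 := by
  intro e
  refine hm ?_
  have key : ∀ (v : V.ι) (a : E) (b' : Bool), v ≠ u.1.1 →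
      S.ab V b' (single v a) (Sum.inr (u, b)) = 0 := fun v a b' hv => by
    by_contra h
    exact (ab_supp h).2 (by rw [single_eq_of_ne' hv, map_zero, Finsupp.zero_apply])
  unfold chi
  rw [ex_apply, Finsupp.sum_apply]
  refine Finset.sum_eq_zero fun v hv => ?_
  have hne : v ≠ u.1.1 := fun e' => mem_support_iff.1 hv (e' ▸ e)
  beta_reduce
  rw [Finsupp.sum_apply]
  refine Finset.sum_eq_zero fun l _ => ?_
  beta_reduce
  rw [Finsupp.smul_apply]
  split_ifs
  · rw [single_eq_of_ne Sum.inr_ne_inl, smul_zero]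
  · rw [Finsupp.sub_apply, Finsupp.smul_apply, Finsupp.smul_apply, key _ _ _ hne, key _ _ _ hne,
      smul_zero, smul_zero, sub_zero, smul_zero]

theorem IsSys.D_el_lt (h : S.IsSys Rf j) {rk : V.ι → ℕ}
    (hrk : ∀ i i', V.δ (single i 1) i' ≠ 0 → rk i' < rk i) {u u' : S.Un V}
    (hne : S.c ((S.cat Rf).D V u.el u'.1.1) u'.1.2 ≠ 0) : Un.Lt rk u' u := by
  have e1 : u.el = S.ε u.1.2 • single u.1.1 1 := by rw [smul_single, smul_eq_mul, mul_one]; rfl
  rw [e1, h.good.D_smul, h.good.D_single, h.good.sg_single, Finsupp.add_apply] at hne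
  by_cases h0 : V.δ (single u.1.1 1) u'.1.1 = 0
  · rw [Finsupp.smul_apply, h0, smul_zero, zero_add, smul_comm, Finsupp.smul_apply, smul_single,
      smul_eq_mul, mul_one] at hne
    by_cases hv : u'.1.1 = u.1.1
    · refine Or.inr ⟨hv, ?_⟩
      rw [hv, single_eq_same, Units.smul_def, map_zsmul, Finsupp.smul_apply] at hne
      have := h.d_mem (h.ε_mem (T := fun l => S.deg l = S.deg u.1.2 ∧ S.ρ l ≤ S.ρ u.1.2) u.2
        ⟨rfl, le_rfl⟩)
      exact ((this _).2 (right_ne_zero_of_smul hne)).2.2.1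
    · rw [single_eq_of_ne hv, smul_zero, map_zero, Finsupp.zero_apply] at hne
      exact absurd rfl hne
  · exact Or.inl (hrk _ _ h0)

theorem IsCell.chi_el_lt (h : S.IsCell Rf K j) (rk : V.ι → ℕ) {u u' : S.Un V} {b : Bool}
    (hne : S.chi K V u.el (Sum.inr (u', b)) ≠ 0) : Un.Lt rk u' u := by
  by_cases hu : u.1.2 = S.u ∨ K.inE u.1.2
  · rw [Un.el, h.sys.chi_ε_pos _ hu, single_eq_of_ne Sum.inr_ne_inl] at hne
    exact absurd rfl hne
  · obtain ⟨w, e0, e1, -, hρ, hp⟩ := h.exists_split u hu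
    rw [e1, h.chi_N_el w (Sp_mono (fun _ _ hl => hl.1) hp), h.sys.ab_el, h.sys.ab_el] at hne
    obtain rfl : u' = w := by
      by_contra hw
      refine hne ?_
      rw [Finsupp.sub_apply, Finsupp.smul_apply, Finsupp.smul_apply,
        single_eq_of_ne fun e => hw (Prod.mk.inj (Sum.inr.inj e)).1,
        single_eq_of_ne fun e => hw (Prod.mk.inj (Sum.inr.inj e)).1, smul_zero, smul_zero, sub_zero]
    exact Or.inr ⟨(congrArg Prod.fst e0).trans rfl, hρ⟩

/-- the entries of the differential of `hatX` which do not lower the order -/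
theorem IsCell.hat_δ_of_not_lt (h : S.IsCell Rf K j) {rk : V.ι → ℕ}
    (hrk : ∀ i i', V.δ (single i 1) i' ≠ 0 → rk i' < rk i) {u u' : S.Un V} (b b' : Bool)
    (hlt : ¬ Un.Lt rk u' u) : (S.hatX Rf K V).δ (single (Sum.inr (u, b)) 1) (Sum.inr (u', b')) =
      (single (u, true, false) (u.deg.negOnePow • (1 : E)) : S.Un V × Bool × Bool →₀ E)
        (u', b, b') := by
  have h1 : ∀ b, S.ab V b ((S.cat Rf).D V u.el) (Sum.inr (u', b')) = 0 := fun b => by
    by_contra hne
    exact hlt (h.sys.D_el_lt hrk (ab_supp hne).2)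
  have h2 : S.chi K V u.el (Sum.inr (u', b')) = 0 := by
    by_contra hne
    exact hlt (h.chi_el_lt rk hne)
  cases b
  · rw [hat_δ_al, h1, single_eq_of_ne (by simp)]
  · rw [hat_δ_be, Finsupp.add_apply, h1, zero_add, Finsupp.smul_apply, Finsupp.sub_apply, h2,
      sub_zero, h.sys.ab_el]
    by_cases e : (u', b') = (u, false)
    · obtain ⟨rfl, rfl⟩ := Prod.mk.inj e
      rw [single_eq_same, single_eq_same]
    · rw [single_eq_of_ne fun e' => e (Sum.inr.inj e'), smul_zero, single_eq_of_ne]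
      intro e'
      simp only [Prod.mk.injEq, true_and] at e' e
      exact e e'

variable (S V) in
/-- the counit -/
def mu : (S.XI V →₀ E) →ₗ[E] (V.ι →₀ E) :=
  lc (Sum.elim (fun v => single v 1) fun p => cond p.2 0 p.1.el)

theorem mu_single (x : S.XI V) :
    S.mu V (single x 1) = Sum.elim (fun v => single v 1) (fun p => cond p.2 0 p.1.el) x := by
  rw [mu, linearCombination_single, one_smul]

theorem mu_inc (m : V.ι →₀ E) : S.mu V (inc Sum.inl m) = m := by
  refine LinearMap.congr_fun (f := S.mu V ∘ₗ inc Sum.inl) (g := LinearMap.id) ?_ m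
  refine Finsupp.lhom_ext' fun v => LinearMap.ext_ring ?_
  simp [mu_single]

theorem IsSys.mu_ab (h : S.IsSys Rf j) (b : Bool) {m : V.ι →₀ E} (hm : m ∈ (S.cat Rf).M V k o) :
    S.mu V (S.ab V b m) = cond b 0 m := by
  refine h.M_induction (p := fun m => S.mu V (S.ab V b m) = cond b 0 m) hm (fun u r _ _ => ?_)
    (by cases b <;> simp) fun x y hx hy => by cases b <;> simp_all
  rw [h.ab_smul, map_smul, h.ab_el, mu_single]
  cases b <;> simp

theorem IsCell.mu_chi (h : S.IsCell Rf K j) {m : V.ι →₀ E} (hm : m ∈ (S.cat Rf).M V k o) :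
    S.mu V (S.chi K V m) = m := by
  refine h.sys.M_induction (p := fun m => S.mu V (S.chi K V m) = m) hm (fun u r _ _ => ?_)
    (by simp only [map_zero]) fun x y hx hy => by simp only [map_add, hx, hy]
  rw [h.sys.chi_smul, map_smul]
  congr 1
  by_cases hu : u.1.2 = S.u ∨ K.inE u.1.2
  · rw [Un.el, h.sys.chi_ε_pos _ hu, ← mapDomain_single]
    exact mu_inc _
  · obtain ⟨u', -, e1, -, -, hp⟩ := h.exists_split u hu
    have hm' := h.sys.el_mem (Rf := Rf) u'
    rw [e1, h.chi_N (Sp_mono (fun _ _ hl => hl.1) hp) hm', map_sub, map_smul, map_smul,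
      h.sys.mu_ab _ hm', h.sys.mu_ab _ hm', cond_true, cond_false, smul_zero, sub_zero]

section

variable (F : S.Un V → Prop)

abbrev pF : S.XI V → Prop := Sum.elim (fun _ => True) fun x => F x.1

abbrev KI : Type := {x : S.Un V × Bool // F x.1}

theorem inj_K : Function.Injective fun x : KI F => (Sum.inr x.1 : S.XI V) :=
  Sum.inr_injective.comp Subtype.val_injective

abbrev piK : (S.XI V →₀ E) →ₗ[E] (KI F →₀ E) := prj _ (inj_K F)

variable (Rf K) in
@[reducible] def hatK : Raw E O :=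
  ⟨KI F, fun x => x.1.1.deg + cond x.1.2 (-1) 0, fun x => x.1.1.lab,
    lc fun x => piK F ((S.hatX Rf K V).δ (single (Sum.inr x.1) 1)) -
      cond x.1.2 0 (S.ε x.1.1.1.2 • piK F (S.chi K V (V.δ (single x.1.1.1.1 1))))⟩

variable (Rf K) in
def hatT : Lin V (hatK Rf K F) := lc fun v => piK F (S.chi K V (V.δ (single v 1)))

def hatG : (KI F ⊕ V.ι →₀ E) →ₗ[E] (S.XI V →₀ E) :=
  lc (Sum.elim (fun x => single (Sum.inr x.1) 1 - inc Sum.inl (cond x.1.2 0 x.1.1.el))
    fun v => single (Sum.inl v) 1)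

def eK : KI F ⊕ V.ι ≃ {i // pF F i} where
  toFun := Sum.elim (fun x => ⟨Sum.inr x.1, x.2⟩) fun v => ⟨Sum.inl v, trivial⟩
  invFun x := match x with
    | ⟨Sum.inl v, _⟩ => Sum.inr v
    | ⟨Sum.inr y, hy⟩ => Sum.inl ⟨y, hy⟩
  left_inv := by rintro (_ | _) <;> rfl
  right_inv := by rintro ⟨_ | _, _⟩ <;> rfl

def eD : {u // F u} × Bool ≃ KI F where
  toFun x := ⟨(x.1.1, x.2), x.1.2⟩
  invFun x := (⟨x.1.1, x.2⟩, x.1.2)
  left_inv _ := rfl
  right_inv _ := rfl

theorem hatG_inl (x : KI F) : hatG F (single (Sum.inl x) 1) =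
    single (Sum.inr x.1) 1 - inc Sum.inl (cond x.1.2 0 x.1.1.el) := by
  rw [hatG, linearCombination_single, one_smul, Sum.elim_inl]

theorem hatG_inr (v : V.ι) : hatG F (single (Sum.inr v) 1) = single (Sum.inl v) 1 := by
  rw [hatG, linearCombination_single, one_smul, Sum.elim_inr]

theorem hatG_inc (m : V.ι →₀ E) : hatG F (inc Sum.inr m) = inc Sum.inl m := by
  refine LinearMap.congr_fun (f := hatG F ∘ₗ inc Sum.inr) (g := inc Sum.inl) ?_ m
  refine Finsupp.lhom_ext' fun v => LinearMap.ext_ring ?_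
  simp [hatG_inr]

theorem piK_single (x : KI F) : piK F (single (Sum.inr x.1) 1) = single x (1 : E) := by
  have := prj_inc (inj_K F) (single x (1 : E))
  rwa [lmapDomain_apply, mapDomain_single] at this

theorem piK_inc (m : V.ι →₀ E) : piK F (inc Sum.inl m) = 0 := by
  ext x
  exact mapDomain_of_notMem_range _ _ (by simp)

theorem single_eq_inc {α β : Type} (f : α → β) (a : α) (e : E) :
    single (f a) e = inc f (single a e) := by rw [lmapDomain_apply, mapDomain_single]

theorem inc_prj_of_supp {ι : Type} {p : ι → Prop} {x : ι →₀ E} (hx : ∀ i, x i ≠ 0 → p i) :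
    inc Subtype.val (prj (Subtype.val : {i // p i} → ι) Subtype.val_injective x) = x :=
  mapDomain_comapDomain _ Subtype.val_injective x fun i hi => ⟨⟨i, hx i (mem_support_iff.1 hi)⟩, rfl⟩

theorem hatG_piK {x : S.XI V →₀ E} (hx : ∀ i, x i ≠ 0 → pF F i) :
    hatG F (inc Sum.inl (piK F x)) = x - inc Sum.inl (S.mu V x) := by
  rw [← inc_prj_of_supp hx]
  generalize prj (Subtype.val : {i // pF F i} → _) Subtype.val_injective x = y
  refine LinearMap.congr_fun (f := hatG F ∘ₗ inc Sum.inl ∘ₗ piK F ∘ₗ inc Subtype.val)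
    (g := inc Subtype.val - inc Sum.inl ∘ₗ S.mu V ∘ₗ inc Subtype.val) ?_ y
  refine Finsupp.lhom_ext' fun i => LinearMap.ext_ring ?_
  simp only [LinearMap.comp_apply, LinearMap.sub_apply, lsingle_apply, lmapDomain_apply,
    mapDomain_single]
  obtain ⟨v | z, hz⟩ := i
  · rw [mu_single, Sum.elim_inl, mapDomain_single, sub_self, ← mapDomain_single (f := Sum.inl)]
    erw [piK_inc]
    rw [mapDomain_zero, map_zero]
  · rw [mu_single, piK_single F ⟨z, hz⟩, mapDomain_single, hatG_inl]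
    rfl

theorem hatG_supp (y : KI F ⊕ V.ι →₀ E) (i : S.XI V) (hi : hatG F y i ≠ 0) : pF F i := by
  obtain v | z := i
  · trivial
  by_contra hz
  refine hi (LinearMap.congr_fun (f := lapply (Sum.inr z) ∘ₗ hatG F) (g := 0) ?_ y)
  refine Finsupp.lhom_ext' fun i => LinearMap.ext_ring ?_
  simp only [LinearMap.comp_apply, lsingle_apply, lapply_apply, LinearMap.zero_apply]
  obtain x | v := i
  · rw [hatG_inl, Finsupp.sub_apply, single_eq_of_ne, lmapDomain_apply, mapDomain_of_notMem_range,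
      sub_zero]
    · simp
    · intro e
      exact hz (Sum.inr.inj e ▸ x.2)
  · rw [hatG_inr, single_eq_of_ne Sum.inr_ne_inl]

theorem hatG_inj : Function.Injective (hatG F) := by
  refine Function.LeftInverse.injective (g := (inc Sum.inl ∘ₗ piK F + inc Sum.inr ∘ₗ S.mu V :
    (S.XI V →₀ E) →ₗ[E] (KI F ⊕ V.ι →₀ E))) fun y => ?_
  refine LinearMap.congr_fun (f := (inc Sum.inl ∘ₗ piK F + inc Sum.inr ∘ₗ S.mu V) ∘ₗ hatG F)
    (g := LinearMap.id) ?_ y
  refine Finsupp.lhom_ext' fun i => LinearMap.ext_ring ?_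
  simp only [LinearMap.comp_apply, LinearMap.add_apply, lsingle_apply, LinearMap.id_apply]
  obtain x | v := i
  · rw [hatG_inl, map_sub (piK F), map_sub (S.mu V), piK_single, piK_inc, mu_inc, mu_single,
      Sum.elim_inr, sub_self, sub_zero, map_zero, add_zero, lmapDomain_apply, mapDomain_single]
  · rw [hatG_inr, mu_single, ← mapDomain_single (f := Sum.inl)]
    erw [piK_inc]
    rw [map_zero, zero_add, Sum.elim_inl, lmapDomain_apply, mapDomain_single]

end

namespace IsCell

variable (h : S.IsCell Rf K j) (hV : (S.cat Rf).Obj V) {F : S.Un V → Prop}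
include h

theorem relab_mem {x : S.XI V →₀ E} {p : O × Bool} (hx : x ∈ (S.tri Rf K).M (S.hatX Rf K V) k p) :
    x ∈ (S.cat Rf).M ((S.hatX Rf K V).relab Prod.fst) k p.1 :=
  fun i => h.tri_le _ _ _ (hx i)

theorem piK_mem {x : S.XI V →₀ E} {p : O × Bool} (hx : x ∈ (S.tri Rf K).M (S.hatX Rf K V) k p) :
    piK F x ∈ (S.cat Rf).M (hatK Rf K F) k p.1 :=
  fun i => h.relab_mem hx (Sum.inr i.1)

theorem hatG_hom : (S.cat Rf).Hom 0 ((hatK Rf K F).ext V (hatT Rf K F))
    ((S.hatX Rf K V).relab Prod.fst) (hatG F) := by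
  have hi : (S.cat Rf).Hom 0 V ((S.hatX Rf K V).relab Prod.fst) (inc Sum.inl) :=
    h.sys.good.hom_inc (fun _ => rfl) fun _ => rfl
  rintro (⟨⟨u, b⟩, hu⟩ | v)
  · rw [hatG_inl, add_zero]
    refine sub_mem (h.sys.good.basis_mem (V := (S.hatX Rf K V).relab Prod.fst) (Sum.inr (u, b))) ?_
    cases b
    · exact h.sys.good.map_mem hi (h.sys.el_mem u)
    · rw [cond_true, map_zero]
      exact zero_mem _
  · rw [hatG_inr, add_zero]
    exact h.sys.good.basis_mem (V := (S.hatX Rf K V).relab Prod.fst) (Sum.inl v)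

include hV

theorem hatZ_hom : (S.cat Rf).Hom 1 ((hatK Rf K F).ext V (hatT Rf K F))
    ((hatK Rf K F).ext V (hatT Rf K F)) ((hatK Rf K F).ext V (hatT Rf K F)).δ := by
  have hl : (S.cat Rf).Hom 0 (hatK Rf K F) ((hatK Rf K F).ext V (hatT Rf K F)) (inc Sum.inl) :=
    h.sys.good.hom_inc (fun _ => rfl) fun _ => rfl
  have hr : (S.cat Rf).Hom 0 V ((hatK Rf K F).ext V (hatT Rf K F)) (inc Sum.inr) :=
    h.sys.good.hom_inc (fun _ => rfl) fun _ => rfl
  have hT : ∀ v, piK F (S.chi K V (V.δ (single v 1))) ∈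
      (S.cat Rf).M (hatK Rf K F) (V.deg v + 1) (V.lab v) := fun v => h.piK_mem (h.chi_mem (hV.1 v))
  rintro (⟨⟨u, b⟩, hu⟩ | v)
  · rw [single_eq_inc Sum.inl, Raw.ext_δ_inl, ← add_zero (_ + 1)]
    refine h.sys.good.map_mem hl ?_
    change lc _ (single _ 1) ∈ _
    rw [linearCombination_single, one_smul]
    refine sub_mem (h.piK_mem (h.hat_hom hV (Sum.inr (u, b)))) ?_
    cases b
    · have := h.sys.good.smul_mem (h.sys.ε_mem (T := fun l => S.deg l = S.deg u.1.2) u.2 rfl)
        (hT u.1.1)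
      rwa [show S.deg u.1.2 + (V.deg u.1.1 + 1) = u.deg + 0 + 1 by simp only [Un.deg]; ring] at this
    · exact zero_mem _
  · rw [single_eq_inc Sum.inr, Raw.ext_δ_inr, ← add_zero (_ + 1)]
    refine add_mem (h.sys.good.map_mem hr (hV.1 v)) (h.sys.good.map_mem hl ?_)
    rw [hatT, linearCombination_single, one_smul]
    exact hT v

theorem hatG_ch (hp : (S.hatX Rf K V).Closed (pF F)) :
    (S.cat Rf).Ch ((hatK Rf K F).ext V (hatT Rf K F)) ((S.hatX Rf K V).relab Prod.fst) (hatG F) := by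
  have hv : ∀ v, hatG F (inc Sum.inl (piK F (S.chi K V (V.δ (single v 1))))) =
      S.chi K V (V.δ (single v 1)) - inc Sum.inl (V.δ (single v 1)) := fun v => by
    rw [hatG_piK, h.mu_chi (hV.1 v)]
    intro i hi
    exact hp (Sum.inl v) i trivial (by rwa [hat_δ_inl])
  refine h.sys.good.ch_of_basis h.hatG_hom ?_
  rintro (⟨⟨u, b⟩, hu⟩ | v)
  · have hm := h.sys.el_mem (Rf := Rf) u
    have hD := h.sys.good.D_mem hV.1 hm
    rw [hatG_inl, single_eq_inc Sum.inl, Raw.ext_δ_inl]
    change _ = hatG F (inc Sum.inl (lc _ (single _ 1)))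
    rw [linearCombination_single, one_smul, map_sub, map_sub, map_sub, h.sys.good.D_single,
      hatG_piK F fun i hi => hp (Sum.inr (u, b)) i hu hi]
    cases b
    · have e1 : u.el = S.ε u.1.2 • single u.1.1 1 := by rw [smul_single, smul_eq_mul, mul_one]; rfl
      rw [cond_false, cond_false, map_smul, map_smul, hv, hat_δ_al, h.sys.mu_ab _ hD, cond_false,
        sub_sub]
      congr 1
      rw [e1, map_smul, h.sys.good.D_smul, h.sys.good.D_smul, map_add, map_smul, map_smul,
        h.sys.good.D_single, h.sys.good.sg_single, lmapDomain_apply _ _ _ (single _ _),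
        mapDomain_single, h.sys.good.D_single, h.sys.good.sg_single, hat_δ_inl, smul_sub,
        Units.smul_def, Units.smul_def, map_zsmul, lmapDomain_apply _ _ _ (single _ _),
        mapDomain_single]
      change _ + _ • ((V.deg u.1.1).negOnePow : ℤ) • _ = _
      abel
    · rw [cond_true, cond_true, map_zero, map_zero, map_zero, map_zero, sub_zero, sub_zero,
        hat_δ_be, map_add (S.mu V), h.sys.mu_ab _ hD, Units.smul_def, map_zsmul (S.mu V), map_sub,
        h.sys.mu_ab _ hm, h.mu_chi hm, cond_true, cond_false, sub_self, smul_zero, add_zero,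
        map_zero, sub_zero]
  · rw [hatG_inr, single_eq_inc Sum.inr, Raw.ext_δ_inr,
      map_add, hatG_inc, hatT, linearCombination_single, one_smul, hv, h.sys.good.D_single,
      hat_δ_inl, add_sub_cancel]

omit hV in
theorem hatK_disky (hf : V.Fin1) (hF : {u | F u}.Finite) : (hatK Rf K F).Disky := by
  obtain ⟨rk, hrk⟩ := hf.rank
  obtain ⟨N, hN⟩ := (hF.image fun u => S.ρ u.1.2).bddAbove
  refine ⟨{u // F u}, eD F, fun u => (N + 1) * rk u.1.1.1 + S.ρ u.1.1.2,
    fun u => u.1.deg.negOnePow, fun u => ?_, fun _ => rfl, fun u b u' b' hle => ?_⟩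
  · change u.1.deg + 0 = u.1.deg + -1 + 1
    ring
  have hlt : ¬ Un.Lt rk u'.1 u.1 := by
    have h1 : S.ρ u'.1.1.2 ≤ N := hN ⟨u'.1, u'.2, rfl⟩
    beta_reduce at hle
    rintro (h2 | ⟨h2, h3⟩)
    · nlinarith
    · rw [h2] at hle
      omega
  have h0 : S.chi K V (V.δ (single u.1.1.1 1)) (Sum.inr (u'.1, b')) = 0 := by
    by_contra hne
    exact hlt (Or.inl (hrk _ _ (chi_supp hne)))
  change lc _ (single _ 1) _ = _
  rw [linearCombination_single, one_smul, Finsupp.sub_apply]
  have e1 := h.hat_δ_of_not_lt hrk b b' hlt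
  have e2 : (single (u.1, true, false) (u.1.deg.negOnePow • (1 : E)) : S.Un V × Bool × Bool →₀ E)
      (u'.1, b, b') = (single (u, true, false) (u.1.deg.negOnePow • (1 : E)) :
        {u // F u} × Bool × Bool →₀ E) (u', b, b') := by
    classical
    simp only [single_apply, Prod.mk.injEq, Subtype.val_inj]
  rw [← e2, ← e1]
  refine sub_eq_self.2 ?_
  cases b
  · exact (congrArg (S.ε u.1.1.2 • ·) h0).trans (smul_zero _)
  · rfl

theorem hat_simp (hf : V.Fin1) (F : S.Un V → Prop) (hF : {u | F u}.Finite)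
    (hp : (S.hatX Rf K V).Closed (Sum.elim (fun _ => True) fun x => F x.1)) :
    Simp (S.cat Rf) (((S.hatX Rf K V).res (Sum.elim (fun _ => True) fun x => F x.1)).relab
      Prod.fst) V := by
  have hG := h.hatG_ch hV hp
  have hX := (h.hat_obj hV).2
  have hfin : Finite {u // F u} := hF
  refine ⟨hatK Rf K F, hatT Rf K F, eK F, prj Subtype.val Subtype.val_injective ∘ₗ hatG F,
    Sum.elim (fun _ => 1) fun _ => 0, Finite.of_equiv _ (eD F), h.hatK_disky hf hF,
    ⟨h.hatZ_hom hV, fun z => hatG_inj F ?_⟩, ⟨fun i i' => hG.1 i i'.1, fun z => ?_⟩, ?_, ?_, ?_, ?_⟩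
  · rw [← hG.2, ← hG.2, map_zero]
    exact hX _
  · rw [LinearMap.comp_apply, LinearMap.comp_apply, ← hG.2, Cat.D_apply, Cat.D_apply, map_add]
    congr 1
    · exact congrArg (fun x => prj Subtype.val Subtype.val_injective ((S.hatX Rf K V).δ x))
        (inc_prj_of_supp (hatG_supp F z))
    · ext i
      rw [Raw.tw_apply]
      exact (Raw.tw_apply ((S.hatX Rf K V).relab Prod.fst) _ _ i.1).symm
  · rintro (_ | _) <;> rfl
  · rintro (_ | _) <;> rfl
  · rintro (x | v)
    · change hatG F (single _ 1) (Sum.inr x.1) = 1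
      rw [hatG_inl, Finsupp.sub_apply, single_eq_same, lmapDomain_apply, mapDomain_of_notMem_range,
        sub_zero]
      simp
    · change hatG F (single _ 1) (Sum.inl v) = 1
      rw [hatG_inr, single_eq_same]
  · rintro (x | v) (x' | v') hne
    · change hatG F (single _ 1) (Sum.inr x'.1) ≠ 0 at hne
      rw [hatG_inl, Finsupp.sub_apply, lmapDomain_apply, mapDomain_of_notMem_range _ _ (by simp),
        sub_zero] at hne
      exact Or.inl (congrArg Sum.inl (inj_K F (single_apply_ne_zero.1 hne).1).symm)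
    · exact Or.inr Nat.zero_lt_one
    · change hatG F (single _ 1) (Sum.inr x'.1) ≠ 0 at hne
      rw [hatG_inr, single_eq_of_ne Sum.inr_ne_inl] at hne
      exact absurd rfl hne
    · change hatG F (single _ 1) (Sum.inl v') ≠ 0 at hne
      rw [hatG_inr] at hne
      exact Or.inl (congrArg Sum.inr (Sum.inl.inj (single_apply_ne_zero.1 hne).1).symm)

end IsCell

end Sys

end Pool.Agent.Lib.NIL
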