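import Pool.Agent.Lib.NIL.VH3

/-! A finite closed part of `hatX`. -/

noncomputable section

namespace Pool.Agent.Lib.NIL

open Finsupp

theorem exists_closed_rel {α : Type} {r : α → α → Prop} (h : WellFounded fun b a => r a b)
    (hf : ∀ a, {b | r a b}.Finite) {s : Set α} (hs : s.Finite) :
    ∃ p : α → Prop, (∀ a b, p a → r a b → p b) ∧ {a | p a}.Finite ∧ ∀ a ∈ s, p a := by
  have key : ∀ j, {i | Relation.ReflTransGen r j i}.Finite := by
    intro j
    induction j using h.induction with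
    | _ j ih =>
      refine ((Set.finite_singleton j).union ((hf j).biUnion fun k hk => ih k hk)).subset
        fun i hi => ?_
      rcases Relation.ReflTransGen.cases_head hi with e | ⟨k, hk, hi⟩
      · exact Or.inl e.symm
      · exact Or.inr (Set.mem_biUnion hk hi)
  exact ⟨fun i => ∃ j ∈ s, Relation.ReflTransGen r j i, fun i i' ⟨j, hj, hi⟩ h' => ⟨j, hj, hi.tail h'⟩,
    (hs.biUnion fun j _ => key j).subset fun i ⟨j, hj, hi⟩ => Set.mem_biUnion hj hi,
    fun i hi => ⟨i, hi, Relation.ReflTransGen.refl⟩⟩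

namespace Sys

variable {R E Λ O : Type} [Ring R] [Ring E] {S : Sys R E Λ O} {Rf : O → O → AddSubgroup R}
  {K : Cell Λ} {V : Raw E O} {j k : ℤ} {o o' : O}

theorem Un.wf (rk : V.ι → ℕ) : WellFounded (Un.Lt (S := S) rk) := by
  refine Subrelation.wf (r := InvImage (Prod.Lex (· < ·) (· < ·))
    fun u : S.Un V => (rk u.1.1, S.ρ u.1.2)) ?_
    (InvImage.wf _ (WellFounded.prod_lex wellFounded_lt wellFounded_lt))
  rintro u' u (h | ⟨h, h'⟩)
  · exact Prod.Lex.left _ _ h
  · change Prod.Lex _ _ (rk u'.1.1, _) (rk u.1.1, _)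
    rw [h]
    exact Prod.Lex.right _ h'

theorem chi_supp_inl {m : V.ι →₀ E} {v : V.ι} (hm : S.chi K V m (Sum.inl v) ≠ 0) : m v ≠ 0 := by
  intro e
  refine hm ?_
  unfold chi
  rw [ex_apply, Finsupp.sum_apply]
  refine Finset.sum_eq_zero fun w hw => ?_
  have hne : v ≠ w := fun e' => mem_support_iff.1 hw (e' ▸ e)
  beta_reduce
  rw [Finsupp.sum_apply]
  refine Finset.sum_eq_zero fun l _ => ?_
  beta_reduce
  rw [Finsupp.smul_apply]
  split_ifs
  · rw [single_eq_of_ne fun e' => hne (Sum.inl.inj e'), smul_zero]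
  · rw [Finsupp.sub_apply, Finsupp.smul_apply, Finsupp.smul_apply, ab_apply_inl, ab_apply_inl,
      smul_zero, smul_zero, sub_zero, smul_zero]

namespace IsCell

variable (h : S.IsCell Rf K j)
include h

theorem hat_δ_lt {rk : V.ι → ℕ} (hrk : ∀ i i', V.δ (single i 1) i' ≠ 0 → rk i' < rk i)
    {u u' : S.Un V} {b b' : Bool}
    (hne : (S.hatX Rf K V).δ (single (Sum.inr (u, b)) 1) (Sum.inr (u', b')) ≠ 0) :
    Un.Lt rk u' u ∨ u' = u ∧ b = true ∧ b' = false := by
  by_cases hlt : Un.Lt rk u' u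
  · exact Or.inl hlt
  · rw [h.hat_δ_of_not_lt hrk b b' hlt] at hne
    simpa only [hlt, false_or, Prod.mk.injEq] using (single_apply_ne_zero.1 hne).1

theorem hat_wf (hf : V.Fin1) : (S.hatX Rf K V).WF := by
  obtain ⟨rk, hrk⟩ := hf.rank
  refine Subrelation.wf (r := InvImage (Prod.Lex (· < ·) (· < ·))
    (Sum.elim (fun v => (rk v, 0)) fun x : S.Un V × Bool =>
      (rk x.1.1.1, 2 * S.ρ x.1.1.2 + cond x.2 2 1))) ?_
    (InvImage.wf _ (WellFounded.prod_lex wellFounded_lt wellFounded_lt))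
  rintro (v' | ⟨u', b'⟩) (v | ⟨u, b⟩) hne
  · rw [hat_δ_inl] at hne
    exact Prod.Lex.left _ _ (hrk _ _ (chi_supp_inl hne))
  · cases b
    · rw [hat_δ_al, ab_apply_inl] at hne
      exact absurd rfl hne
    · rw [hat_δ_be, Finsupp.add_apply, Finsupp.smul_apply, Finsupp.sub_apply, ab_apply_inl,
        ab_apply_inl, zero_add, zero_sub] at hne
      obtain rfl : v' = u.1.1 :=
        (single_apply_ne_zero.1 (chi_supp_inl (neg_ne_zero.1 (right_ne_zero_of_smul hne)))).1
      exact Prod.Lex.right _ (by simp)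
  · rw [hat_δ_inl] at hne
    exact Prod.Lex.left _ _ (hrk _ _ (chi_supp hne))
  · rcases h.hat_δ_lt hrk hne with (h1 | ⟨h1, h2⟩) | ⟨rfl, rfl, rfl⟩
    · exact Prod.Lex.left _ _ h1
    · change Prod.Lex _ _ (rk u'.1.1, _) (rk u.1.1, _)
      rw [h1]
      refine Prod.Lex.right _ ?_
      cases b <;> cases b' <;> simp only [cond_true, cond_false] <;> omega
    · exact Prod.Lex.right _ (by simp)

theorem exists_F (hf : V.Fin1) : ∃ F : S.Un V → Prop, {u | F u}.Finite ∧
    (S.hatX Rf K V).Closed (pF F) ∧ ((S.hatX Rf K V).res (pF F)).Fin1 := by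
  obtain ⟨rk, hrk⟩ := hf.rank
  have hfin := hf.1
  have key : ∀ x : S.XI V, {u' | ∃ b', (S.hatX Rf K V).δ (single x 1) (Sum.inr (u', b')) ≠ 0}.Finite :=
    fun x => ((((S.hatX Rf K V).δ (single x 1)).support.finite_toSet.preimage
      Sum.inr_injective.injOn).image Prod.fst).subset fun u' ⟨b', hb⟩ =>
        ⟨(u', b'), mem_support_iff.2 hb, rfl⟩
  obtain ⟨F, h1, h2, h3⟩ := exists_closed_rel (r := fun u u' : S.Un V => Un.Lt rk u' u ∧
      ∃ b b', (S.hatX Rf K V).δ (single (Sum.inr (u, b)) 1) (Sum.inr (u', b')) ≠ 0)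
    (Subrelation.wf (fun hl => hl.1) (Un.wf rk))
    (fun u => (Set.finite_iUnion fun b => key (Sum.inr (u, b))).subset fun u' ⟨_, b, hb⟩ =>
      Set.mem_iUnion.2 ⟨b, hb⟩) (Set.finite_iUnion fun v => key (Sum.inl v))
  refine ⟨F, h2, ?_, ?_, (h.hat_wf hf).res _⟩
  · rintro (v | ⟨u, b⟩) (v' | ⟨u', b'⟩) hi hne
    · trivial
    · exact h3 u' (Set.mem_iUnion.2 ⟨v, b', hne⟩)
    · trivial
    · rcases h.hat_δ_lt hrk hne with hl | ⟨rfl, -⟩
      · exact h1 u u' hi ⟨hl, b, b', hne⟩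
      · exact hi
  · have : Finite {u // F u} := h2
    have : Finite (KI F) := Finite.of_equiv _ (eD F)
    exact Finite.of_equiv _ (eK F)

end IsCell

end Sys

end Pool.Agent.Lib.NIL
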